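import Pool.Agent.Lib.MP_6bd702_z.BoxDefs

section PartpercBoxDefs2

/-!
# Auxiliary definitions for the largest cluster
-/

set_option autoImplicit false

namespace Pool.Agent.Perc

open Finset

/-- All clusters of the box have diameter less than `n / 8`. -/
def Small (n : ℕ) (T : Finset Edg) : Prop := ∀ v ∈ Box n, Metric.diam (clS T v) < n / 8

/-- `v` is the distinguished vertex of its cluster (the smallest one in the lexicographic order). -/
def IsRep (n : ℕ) (T : Finset Edg) (v : ℤ × ℤ) : Prop :=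
  v ∈ Box n ∧ ∀ w ∈ clV T v, v.1 < w.1 ∨ (v.1 = w.1 ∧ v.2 ≤ w.2)

open Classical in
/-- The sum of the perimeters of all clusters of diameter at least `n / 8`. -/
noncomputable def bigPerim (n : ℕ) (T : Finset Edg) : ℕ :=
  ∑ v ∈ (Box n).filter fun v => IsRep n T v ∧ (n : ℝ) / 8 ≤ Metric.diam (clS T v), perim T v

end Pool.Agent.Perc

end PartpercBoxDefs2

section PartpercBoxAux

/-!
# Elementary facts on the clusters of the box (used in BoxA, BoxB, BoxC)
-/

set_option autoImplicit false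

namespace Pool.Agent.Perc.BoxAux

open Finset

lemma adjT_symm {T : Finset Edg} {u v : ℤ × ℤ} (h : AdjT T u v) : AdjT T v u := by
  obtain ⟨e, he, h | h⟩ := h
  · exact ⟨e, he, Or.inr h⟩
  · exact ⟨e, he, Or.inl h⟩

lemma mem_clV_self (T : Finset Edg) (u : ℤ × ℤ) : u ∈ clV T u := Relation.ReflTransGen.refl

lemma clV_symm {T : Finset Edg} {u v : ℤ × ℤ} (h : v ∈ clV T u) : u ∈ clV T v := by
  induction h with
  | refl => exact Relation.ReflTransGen.refl
  | tail _ h ih => exact Relation.ReflTransGen.head (adjT_symm h) ih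

lemma clV_eq {T : Finset Edg} {u v : ℤ × ℤ} (h : v ∈ clV T u) : clV T v = clV T u := by
  ext w
  exact ⟨fun hw => Relation.ReflTransGen.trans h hw,
    fun hw => Relation.ReflTransGen.trans (clV_symm h) hw⟩

lemma clS_eq {T : Finset Edg} {u v : ℤ × ℤ} (h : v ∈ clV T u) : clS T v = clS T u := by
  unfold clS
  rw [clV_eq h]

lemma outer_eq {T : Finset Edg} {u v : ℤ × ℤ} (h : v ∈ clV T u) (f : ℤ × ℤ) :
    Outer T v f ↔ Outer T u f := by
  unfold Outer
  rw [clS_eq h]

lemma perim_eq {T : Finset Edg} {u v : ℤ × ℤ} (h : v ∈ clV T u) : perim T v = perim T u := by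
  unfold perim Outer
  rw [clS_eq h, clV_eq h]

lemma adj_of_mem {T : Finset Edg} {e : Edg} (he : e ∈ T) : AdjT T (tl e) (hd e) :=
  ⟨e, he, Or.inl ⟨rfl, rfl⟩⟩

lemma tl_mem_iff {T : Finset Edg} {e : Edg} (he : e ∈ T) {u : ℤ × ℤ} :
    tl e ∈ clV T u ↔ hd e ∈ clV T u :=
  ⟨fun h => Relation.ReflTransGen.tail h (adj_of_mem he),
    fun h => Relation.ReflTransGen.tail h (adjT_symm (adj_of_mem he))⟩

lemma adjT_mono {T T' : Finset Edg} (h : T ⊆ T') {u v : ℤ × ℤ} (h1 : AdjT T u v) : AdjT T' u v := by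
  obtain ⟨e, he, h2⟩ := h1
  exact ⟨e, h he, h2⟩

lemma clV_mono {T T' : Finset Edg} (h : T ⊆ T') (u : ℤ × ℤ) : clV T u ⊆ clV T' u := by
  intro w hw
  induction hw with
  | refl => exact Relation.ReflTransGen.refl
  | tail _ h1 ih => exact Relation.ReflTransGen.tail ih (adjT_mono h h1)

lemma mem_clS {T : Finset Edg} {u : ℤ × ℤ} {z : ℂ} : z ∈ clS T u ↔
    (∃ w ∈ clV T u, toC w = z) ∨ ∃ e ∈ T, tl e ∈ clV T u ∧ z ∈ segment ℝ (toC (tl e)) (toC (hd e)) := by
  unfold clS
  simp only [Set.mem_union, Set.mem_image, Set.mem_iUnion, exists_prop]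

lemma clS_mono {T T' : Finset Edg} (h : T ⊆ T') (u : ℤ × ℤ) : clS T u ⊆ clS T' u := by
  intro z hz
  rw [mem_clS] at hz ⊢
  rcases hz with ⟨w, hw, h1⟩ | ⟨e, he, h1, h2⟩
  · exact Or.inl ⟨w, clV_mono h u hw, h1⟩
  · exact Or.inr ⟨e, h he, clV_mono h u h1, h2⟩

lemma mem_boxE {n : ℕ} {e : Edg} : e ∈ boxE n ↔ tl e ∈ Box n ∧ hd e ∈ Box n := by
  unfold boxE Box tl
  simp only [mem_filter, mem_product, mem_Icc, mem_univ, and_true]

lemma clV_subset_box {n : ℕ} {T : Finset Edg} (hT : T ⊆ boxE n) {v : ℤ × ℤ} (hv : v ∈ Box n) :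
    clV T v ⊆ (Box n : Set (ℤ × ℤ)) := by
  intro w hw
  induction hw with
  | refl => exact hv
  | tail _ h _ =>
    obtain ⟨e, he, ⟨_, h1⟩ | ⟨h1, _⟩⟩ := h
    · rw [← h1]; exact (mem_boxE.mp (hT he)).2
    · rw [← h1]; exact (mem_boxE.mp (hT he)).1

lemma clV_finite {n : ℕ} {T : Finset Edg} (hT : T ⊆ boxE n) {v : ℤ × ℤ} (hv : v ∈ Box n) :
    (clV T v).Finite := (Box n).finite_toSet.subset (clV_subset_box hT hv)

lemma clS_bounded {n : ℕ} {T : Finset Edg} (hT : T ⊆ boxE n) {v : ℤ × ℤ} (hv : v ∈ Box n) :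
    Bornology.IsBounded (clS T v) := by
  unfold clS
  refine ((clV_finite hT hv).image _).isBounded.union ?_
  refine (Bornology.isBounded_biUnion_finset T).mpr fun e _ => ?_
  refine Bornology.IsBounded.subset ?_ (Set.iUnion_subset fun _ => subset_rfl)
  rw [segment_eq_image]
  exact (isCompact_Icc.image (by fun_prop)).isBounded

lemma small_mono {n : ℕ} {T T' : Finset Edg} (h : T ⊆ T') (hT' : T' ⊆ boxE n) (hs : Small n T') :
    Small n T := by
  intro v hv
  exact (Metric.diam_mono (clS_mono h v) (clS_bounded hT' hv)).trans_lt (hs v hv)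

end Pool.Agent.Perc.BoxAux

end PartpercBoxAux

section PartpercDDefs

/-!
# The outer perimeter as a random compact set: definitions
-/

set_option autoImplicit false

namespace Pool.Agent.Perc

open Set TopologicalSpace BoxAux

/-- The unbounded component of the complement of the cluster of `u`. -/
def outU (T : Finset Edg) (u : ℤ × ℤ) : Set ℂ :=
  {z | ¬ Bornology.IsBounded (connectedComponentIn (clS T u)ᶜ z)}

/-- The vertices of the outer perimeter: the ends of the edges of the cluster which have a side in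
the unbounded component. -/
def OutV (T : Finset Edg) (u : ℤ × ℤ) : Set (ℤ × ℤ) :=
  {v | ∃ e ∈ T, tl e ∈ clV T u ∧ (∃ b, Outer T u (side e b)) ∧ (v = tl e ∨ v = hd e)}

namespace PercD

theorem clV_finite' (T : Finset Edg) (u : ℤ × ℤ) : (clV T u).Finite := by
  classical
  have h : clV T u ⊆ ((insert u (T.image tl ∪ T.image hd) : Finset (ℤ × ℤ)) : Set (ℤ × ℤ)) := by
    intro v hv
    induction hv with
    | refl => simp
    | tail _ h2 _ =>
      obtain ⟨e, he, h | h⟩ := h2
      · rw [← h.2]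
        simp only [Finset.coe_insert, Finset.coe_union, Finset.coe_image]
        exact Or.inr (Or.inr ⟨e, he, rfl⟩)
      · rw [← h.1]
        simp only [Finset.coe_insert, Finset.coe_union, Finset.coe_image]
        exact Or.inr (Or.inl ⟨e, he, rfl⟩)
  exact (Finset.finite_toSet _).subset h

theorem isCompact_clS (T : Finset Edg) (u : ℤ × ℤ) : IsCompact (clS T u) := by
  unfold clS
  refine ((clV_finite' T u).image toC).isCompact.union ?_
  refine T.isCompact_biUnion fun e _ => ?_
  by_cases h : tl e ∈ clV T u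
  · simp only [h, iUnion_true]
    rw [segment_eq_image]
    exact isCompact_Icc.image (by fun_prop)
  · simp only [h, iUnion_false]
    exact isCompact_empty

theorem toC_mem_clS {T : Finset Edg} {u v : ℤ × ℤ} (h : v ∈ clV T u) : toC v ∈ clS T u :=
  Or.inl ⟨v, h, rfl⟩

theorem isOpen_outU (T : Finset Edg) (u : ℤ × ℤ) : IsOpen (outU T u) := by
  have hc : IsOpen (clS T u)ᶜ := (isCompact_clS T u).isClosed.isOpen_compl
  rw [isOpen_iff_forall_mem_open]
  intro z hz
  refine ⟨connectedComponentIn (clS T u)ᶜ z, ?_, hc.connectedComponentIn, ?_⟩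
  · intro w hw
    unfold outU at hz ⊢
    rw [mem_ofPred_eq] at hz ⊢
    rwa [← connectedComponentIn_eq hw]
  · refine mem_connectedComponentIn ?_
    intro h
    apply hz
    rw [connectedComponentIn_eq_empty (by simpa using h)]
    exact Bornology.isBounded_empty

theorem not_mem_outU {T : Finset Edg} {u : ℤ × ℤ} {z : ℂ} (hz : z ∈ clS T u) : z ∉ outU T u := by
  intro h
  apply h
  rw [connectedComponentIn_eq_empty (by simpa using hz)]
  exact Bornology.isBounded_empty

theorem mem_outU_iff {T : Finset Edg} {u : ℤ × ℤ} {s : Set ℂ} (hs : IsPreconnected s)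
    (hsc : s ⊆ (clS T u)ᶜ) {z w : ℂ} (hz : z ∈ s) (hw : w ∈ s) : z ∈ outU T u ↔ w ∈ outU T u := by
  have h1 : w ∈ connectedComponentIn (clS T u)ᶜ z := hs.subset_connectedComponentIn hz hsc hw
  have h2 := connectedComponentIn_eq h1
  unfold outU
  rw [mem_ofPred_eq, mem_ofPred_eq, h2]

theorem frontier_outU_sub (T : Finset Edg) (u : ℤ × ℤ) : frontier (outU T u) ⊆ clS T u := by
  intro z hz
  by_contra hcon
  have hc : IsOpen (clS T u)ᶜ := (isCompact_clS T u).isClosed.isOpen_compl
  obtain ⟨ε, hε, hb⟩ := Metric.isOpen_iff.1 hc z hcon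
  have hz1 : z ∈ closure (outU T u) := frontier_subset_closure hz
  obtain ⟨w, hw, hd⟩ := Metric.mem_closure_iff.1 hz1 ε hε
  have h1 : z ∈ outU T u :=
    (mem_outU_iff (convex_ball z ε).isPreconnected hb (Metric.mem_ball_self hε)
      (by rw [Metric.mem_ball, dist_comm]; exact hd)).2 hw
  have h2 : z ∈ interior (outU T u) := by rw [(isOpen_outU T u).interior_eq]; exact h1
  exact hz.2 h2

theorem outU_nonempty (T : Finset Edg) (u : ℤ × ℤ) : (outU T u).Nonempty := by
  obtain ⟨R, hR⟩ := (isCompact_clS T u).isBounded.subset_closedBall (0 : ℂ)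
  set H : Set ℂ := {w | R < w.re} with hH
  have hconv : Convex ℝ H := by
    have := convex_halfSpace_re_gt R
    exact this
  have hsub : H ⊆ (clS T u)ᶜ := by
    intro w hw hw'
    have h1 := hR hw'
    rw [mem_closedBall_zero_iff] at h1
    have h2 : w.re ≤ ‖w‖ := Complex.re_le_norm w
    have h3 : R < w.re := hw
    linarith
  have hmem : ((R + 1 : ℝ) : ℂ) ∈ H := by
    rw [hH, mem_ofPred_eq, Complex.ofReal_re]; linarith
  refine ⟨((R + 1 : ℝ) : ℂ), ?_⟩
  intro hb
  have h1 : H ⊆ connectedComponentIn (clS T u)ᶜ ((R + 1 : ℝ) : ℂ) :=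
    hconv.isPreconnected.subset_connectedComponentIn hmem hsub
  have h2 : Bornology.IsBounded H := hb.subset h1
  obtain ⟨C, hC⟩ := h2.subset_closedBall (0 : ℂ)
  have h3 : (((max R C) + 1 : ℝ) : ℂ) ∈ H := by
    rw [hH, mem_ofPred_eq, Complex.ofReal_re]
    linarith [le_max_left R C]
  have h4 := hC h3
  rw [mem_closedBall_zero_iff] at h4
  have h5 := Complex.re_le_norm (((max R C) + 1 : ℝ) : ℂ)
  rw [Complex.ofReal_re] at h5
  linarith [le_max_right R C]

theorem frontier_outU_nonempty (T : Finset Edg) (u : ℤ × ℤ) : (frontier (outU T u)).Nonempty := by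
  rw [Set.nonempty_iff_ne_empty]
  intro h
  rw [← isClopen_iff_frontier_eq_empty, isClopen_iff] at h
  rcases h with h | h
  · exact (outU_nonempty T u).ne_empty h
  · exact not_mem_outU (toC_mem_clS (mem_clV_self T u)) (h ▸ mem_univ _)

theorem isCompact_frontier_outU (T : Finset Edg) (u : ℤ × ℤ) : IsCompact (frontier (outU T u)) :=
  (isCompact_clS T u).of_isClosed_subset isClosed_frontier (frontier_outU_sub T u)

end PercD

open PercD in
/-- The outer perimeter of the cluster of `u`, the boundary of the unbounded component of the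
complement of the cluster, scaled by `1 / n`. -/
noncomputable def perK (n : ℕ) (T : Finset Edg) (u : ℤ × ℤ) : NonemptyCompacts ℂ :=
  ⟨⟨(fun z : ℂ => z / n) '' frontier (outU T u),
    (isCompact_frontier_outU T u).image (by fun_prop)⟩, (frontier_outU_nonempty T u).image _⟩

end Pool.Agent.Perc

end PartpercDDefs

section PartpercBoxB

/-!
# Perimeters and outer vertices (task BoxB)
-/

set_option autoImplicit false

namespace Pool.Agent.Perc

open Finset

namespace BoxB

open BoxAux

lemma outer_move {T : Finset Edg} {u f f' : ℤ × ℤ} (h : Outer T u f)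
    (hseg : segment ℝ (ctr f) (ctr f') ⊆ (clS T u)ᶜ) : Outer T u f' := by
  have h1 : IsPreconnected (segment ℝ (ctr f) (ctr f')) := (convex_segment _ _).isPreconnected
  have h2 := h1.subset_connectedComponentIn (left_mem_segment ℝ _ _) hseg
  have h3 := connectedComponentIn_eq (h2 (right_mem_segment ℝ _ _))
  unfold Outer at h ⊢
  rwa [← h3]

/-- the points of the cluster -/
lemma clS_coord {T : Finset Edg} {u : ℤ × ℤ} {z : ℂ} (hz : z ∈ clS T u) :
    (∃ a b : ℤ, z.re = a ∧ z.im = b) ∨
    (∃ a b : ℤ, (a, b, true) ∈ T ∧ z.re = a ∧ (b : ℝ) ≤ z.im ∧ z.im ≤ b + 1) ∨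
    (∃ a b : ℤ, (a, b, false) ∈ T ∧ z.im = b ∧ (a : ℝ) ≤ z.re ∧ z.re ≤ a + 1) := by
  rw [mem_clS] at hz
  rcases hz with ⟨w, _, h⟩ | ⟨⟨a, b, c⟩, he, _, h⟩
  · left
    refine ⟨w.1, w.2, ?_, ?_⟩ <;> rw [← h] <;> simp [toC]
  · right
    rw [segment_eq_image] at h
    obtain ⟨t, ⟨ht0, ht1⟩, rfl⟩ := h
    cases c
    · right
      refine ⟨a, b, he, ?_⟩
      simp only [tl, hd, toC]
      simp
      constructor
      · ring
      · constructor <;> nlinarith
    · left
      refine ⟨a, b, he, ?_⟩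
      simp only [tl, hd, toC]
      simp
      constructor
      · ring
      · constructor <;> nlinarith

/-- crossing a vertical edge -/
lemma seg_vert {T : Finset Edg} {u : ℤ × ℤ} {x y : ℤ} (h : (x, y, true) ∉ T) :
    segment ℝ (ctr (x - 1, y)) (ctr (x, y)) ⊆ (clS T u)ᶜ := by
  intro z hz hz'
  rw [segment_eq_image] at hz
  obtain ⟨t, ⟨ht0, ht1⟩, rfl⟩ := hz
  have hre : ((1 - t) • ctr (x - 1, y) + t • ctr (x, y)).re = x - 1 / 2 + t := by
    simp [ctr, toC]; ring
  have him : ((1 - t) • ctr (x - 1, y) + t • ctr (x, y)).im = y + 1 / 2 := by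
    simp [ctr, toC]; ring
  have hc := clS_coord hz'
  simp only at hc
  rw [hre, him] at hc
  rcases hc with ⟨a, b, _, h2⟩ | ⟨a, b, h1, h2, h3, h4⟩ | ⟨a, b, _, h2, _, _⟩
  · have : ((2 * (b - y) : ℤ) : ℝ) = 1 := by push_cast; linarith
    have h5 : 2 * (b - y) = 1 := by exact_mod_cast this
    omega
  · have hb : b = y := by
      have e1 : (b : ℝ) < ((y + 1 : ℤ) : ℝ) := by push_cast; linarith
      have e2 : (y : ℝ) < ((b + 1 : ℤ) : ℝ) := by push_cast; linarith
      have e3 : b < y + 1 := by exact_mod_cast e1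
      have e4 : y < b + 1 := by exact_mod_cast e2
      omega
    have ha : a = x := by
      have e1 : ((x - 1 : ℤ) : ℝ) < (a : ℝ) := by push_cast; linarith
      have e2 : (a : ℝ) < ((x + 1 : ℤ) : ℝ) := by push_cast; linarith
      have e3 : x - 1 < a := by exact_mod_cast e1
      have e4 : a < x + 1 := by exact_mod_cast e2
      omega
    rw [ha, hb] at h1
    exact h h1
  · have : ((2 * (b - y) : ℤ) : ℝ) = 1 := by push_cast; linarith
    have h5 : 2 * (b - y) = 1 := by exact_mod_cast this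
    omega

/-- crossing a horizontal edge -/
lemma seg_hor {T : Finset Edg} {u : ℤ × ℤ} {x y : ℤ} (h : (x, y, false) ∉ T) :
    segment ℝ (ctr (x, y - 1)) (ctr (x, y)) ⊆ (clS T u)ᶜ := by
  intro z hz hz'
  rw [segment_eq_image] at hz
  obtain ⟨t, ⟨ht0, ht1⟩, rfl⟩ := hz
  have hre : ((1 - t) • ctr (x, y - 1) + t • ctr (x, y)).re = x + 1 / 2 := by
    simp [ctr, toC]; ring
  have him : ((1 - t) • ctr (x, y - 1) + t • ctr (x, y)).im = y - 1 / 2 + t := by
    simp [ctr, toC]; ring
  have hc := clS_coord hz'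
  simp only at hc
  rw [hre, him] at hc
  rcases hc with ⟨a, b, h2, _⟩ | ⟨a, b, _, h2, _, _⟩ | ⟨a, b, h1, h2, h3, h4⟩
  · have : ((2 * (a - x) : ℤ) : ℝ) = 1 := by push_cast; linarith
    have h5 : 2 * (a - x) = 1 := by exact_mod_cast this
    omega
  · have : ((2 * (a - x) : ℤ) : ℝ) = 1 := by push_cast; linarith
    have h5 : 2 * (a - x) = 1 := by exact_mod_cast this
    omega
  · have ha : a = x := by
      have e1 : (a : ℝ) < ((x + 1 : ℤ) : ℝ) := by push_cast; linarith
      have e2 : (x : ℝ) < ((a + 1 : ℤ) : ℝ) := by push_cast; linarith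
      have e3 : a < x + 1 := by exact_mod_cast e1
      have e4 : x < a + 1 := by exact_mod_cast e2
      omega
    have hb : b = y := by
      have e1 : ((y - 1 : ℤ) : ℝ) < (b : ℝ) := by push_cast; linarith
      have e2 : (b : ℝ) < ((y + 1 : ℤ) : ℝ) := by push_cast; linarith
      have e3 : y - 1 < b := by exact_mod_cast e1
      have e4 : b < y + 1 := by exact_mod_cast e2
      omega
    rw [ha, hb] at h1
    exact h h1

/-- going around the vertex `v` -/
lemma exists_side {T : Finset Edg} {v : ℤ × ℤ} (ho : Outer T v v)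
    (hne : ∃ e ∈ T, tl e = v ∨ hd e = v) :
    ∃ e ∈ T, ∃ b : Bool, (tl e = v ∨ hd e = v) ∧ Outer T v (side e b) := by
  obtain ⟨x, y⟩ := v
  by_cases h1 : (x, y, true) ∈ T
  · exact ⟨_, h1, true, Or.inl rfl, ho⟩
  have o1 : Outer T (x, y) (x - 1, y) := by
    refine outer_move ho ?_
    rw [segment_symm]
    exact seg_vert h1
  by_cases h2 : (x - 1, y, false) ∈ T
  · refine ⟨_, h2, true, Or.inr ?_, o1⟩
    simp [hd]
  have o2 : Outer T (x, y) (x - 1, y - 1) := by
    refine outer_move o1 ?_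
    rw [segment_symm]
    exact seg_hor h2
  by_cases h3 : (x, y - 1, true) ∈ T
  · refine ⟨_, h3, false, Or.inr ?_, o2⟩
    simp [hd]
  have o3 : Outer T (x, y) (x, y - 1) := outer_move o2 (seg_vert h3)
  by_cases h4 : (x, y, false) ∈ T
  · exact ⟨_, h4, false, Or.inl rfl, o3⟩
  exfalso
  obtain ⟨⟨a, b, c⟩, he, h5⟩ := hne
  cases c
  · rcases h5 with h5 | h5
    · simp only [tl, Prod.mk.injEq] at h5
      obtain ⟨rfl, rfl⟩ := h5
      exact h4 he
    · simp only [hd, Prod.mk.injEq, Bool.false_eq_true, if_false] at h5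
      obtain ⟨h6, rfl⟩ := h5
      have : a = x - 1 := by omega
      rw [this] at he
      exact h2 he
  · rcases h5 with h5 | h5
    · simp only [tl, Prod.mk.injEq] at h5
      obtain ⟨rfl, rfl⟩ := h5
      exact h1 he
    · simp only [hd, Prod.mk.injEq, if_true] at h5
      obtain ⟨rfl, h6⟩ := h5
      have : b = y - 1 := by omega
      rw [this] at he
      exact h3 he

/-- a cluster of positive diameter has an edge at each of its vertices -/
lemma exists_edge {T : Finset Edg} {v : ℤ × ℤ} (h : 0 < Metric.diam (clS T v)) :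
    ∃ e ∈ T, tl e = v ∨ hd e = v := by
  by_contra hcon
  push Not at hcon
  have h1 : clV T v = {v} := by
    apply Set.Subset.antisymm
    · intro z hz
      induction hz with
      | refl => rfl
      | tail _ h2 ih =>
        rw [Set.mem_singleton_iff] at ih
        subst ih
        obtain ⟨e, he, h2⟩ := h2
        have := hcon e he
        rcases h2 with ⟨h, _⟩ | ⟨_, h⟩
        · exact absurd h this.1
        · exact absurd h this.2
    · rintro z rfl
      exact mem_clV_self _ _
  have h2 : clS T v ⊆ {toC v} := by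
    intro z hz
    rw [mem_clS, h1] at hz
    rcases hz with ⟨u, hu, hz'⟩ | ⟨e, he, h2, _⟩
    · rw [Set.mem_singleton_iff] at hu
      rw [Set.mem_singleton_iff, ← hz', hu]
    · exact absurd h2 (hcon e he).1
  have h3 := Metric.diam_subsingleton (Set.subsingleton_singleton.anti h2)
  linarith

/-- every cluster has a distinguished vertex -/
lemma exists_rep {n : ℕ} {T : Finset Edg} (hT : T ⊆ boxE n) {v : ℤ × ℤ} (hv : v ∈ Box n) :
    ∃ r ∈ Box n, IsRep n T r ∧ r ∈ clV T v := by
  classical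
  have hne : ((clV_finite hT hv).toFinset).Nonempty :=
    ⟨v, (clV_finite hT hv).mem_toFinset.mpr (mem_clV_self _ _)⟩
  obtain ⟨r, hr, hmin⟩ := Finset.exists_min_image _ (fun w : ℤ × ℤ => toLex (w.1, w.2)) hne
  rw [Set.Finite.mem_toFinset] at hr
  refine ⟨r, clV_subset_box hT hv hr, ⟨clV_subset_box hT hv hr, fun w hw => ?_⟩, hr⟩
  have hw' : w ∈ clV T v := by
    rw [← clV_eq hr]; exact hw
  have h1 := hmin w ((clV_finite hT hv).mem_toFinset.mpr hw')
  rw [Prod.Lex.toLex_le_toLex] at h1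
  exact h1

end BoxB

open BoxB BoxAux in
open Classical in
/-- B2: the perimeters are bounded below by the number of vertices next to the unbounded
component. -/
theorem bigPerim_ge (n : ℕ) (hn : 8 ≤ n) (T : Finset Edg) (hT : T ⊆ boxE n) :
    (((Box n).filter fun v => (n : ℝ) / 8 ≤ Metric.diam (clS T v) ∧ Outer T v v).card : ℝ) / 2 ≤
      bigPerim n T := by
  set V := (Box n).filter fun v => (n : ℝ) / 8 ≤ Metric.diam (clS T v) ∧ Outer T v v with hV
  set Q : Finset (Edg × Bool) := (T ×ˢ (univ : Finset Bool)).filter fun x =>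
    (n : ℝ) / 8 ≤ Metric.diam (clS T (tl x.1)) ∧ Outer T (tl x.1) (side x.1 x.2) with hQ
  have hn' : (8 : ℝ) ≤ n := by exact_mod_cast hn
  -- each vertex has a counted side
  have hex : ∀ v ∈ V, ∃ x ∈ Q, tl x.1 = v ∨ hd x.1 = v := by
    intro v hv
    rw [hV, mem_filter] at hv
    obtain ⟨hv1, hv2, hv3⟩ := hv
    obtain ⟨e, he, b, h1, h2⟩ := exists_side hv3 (exists_edge (by linarith))
    refine ⟨(e, b), ?_, h1⟩
    have h3 : tl e ∈ clV T v := by
      rcases h1 with h1 | h1
      · rw [h1]; exact mem_clV_self _ _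
      · rw [tl_mem_iff he, h1]; exact mem_clV_self _ _
    rw [hQ, mem_filter, mem_product]
    refine ⟨⟨he, mem_univ _⟩, ?_, ?_⟩
    · show (n : ℝ) / 8 ≤ Metric.diam (clS T (tl e))
      rw [clS_eq h3]; exact hv2
    · exact (outer_eq h3 _).mpr h2
  -- counting
  have hcount : V.card ≤ Q.card * 2 := by
    have hsub : V ⊆ Q.biUnion fun x => {tl x.1, hd x.1} := by
      intro v hv
      obtain ⟨x, hx, h1⟩ := hex v hv
      rw [mem_biUnion]
      refine ⟨x, hx, ?_⟩
      rw [mem_insert, mem_singleton]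
      rcases h1 with h1 | h1
      · exact Or.inl h1.symm
      · exact Or.inr h1.symm
    refine (card_le_card hsub).trans ?_
    refine card_biUnion_le_card_mul _ _ _ fun x _ => ?_
    exact (card_insert_le _ _).trans (by simp)
  have hQle : Q.card ≤ bigPerim n T := by
    unfold bigPerim perim
    have hsub : Q ⊆ ((Box n).filter fun v => IsRep n T v ∧
        (n : ℝ) / 8 ≤ Metric.diam (clS T v)).biUnion fun r =>
          (T ×ˢ (univ : Finset Bool)).filter fun x => tl x.1 ∈ clV T r ∧
            Outer T r (side x.1 x.2) := by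
      intro x hx
      rw [hQ, mem_filter, mem_product] at hx
      obtain ⟨⟨hx1, _⟩, hx2, hx3⟩ := hx
      obtain ⟨r, hr, hrep, hr1⟩ := exists_rep hT (mem_boxE.mp (hT hx1)).1
      rw [mem_biUnion]
      refine ⟨r, ?_, ?_⟩
      · rw [mem_filter, clS_eq hr1]
        exact ⟨hr, hrep, hx2⟩
      · rw [mem_filter, mem_product, outer_eq hr1]
        exact ⟨⟨hx1, mem_univ _⟩, clV_symm hr1, hx3⟩
    exact (card_le_card hsub).trans card_biUnion_le
  have h1 : (V.card : ℝ) ≤ (Q.card : ℝ) * 2 := by exact_mod_cast hcount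
  have h2 : (Q.card : ℝ) ≤ (bigPerim n T : ℝ) := by exact_mod_cast hQle
  linarith

end Pool.Agent.Perc

end PartpercBoxB
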