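import Pool.Agent.Lib.MP_6bd702_z.Pre

/-!
# Closed curves in the plane up to reparametrisation: definitions
-/

set_option autoImplicit false

namespace Pool.Agent.PercD

open Set Filter Topology MeasureTheory TopologicalSpace

/-- A closed curve in the plane, parametrised by a continuous map of period `1`. -/
structure Loop where
  f : ℝ → ℂ
  cont : Continuous f
  per : ∀ t, f (t + 1) = f t

/-- A change of parameter: an increasing bijection `φ` with `φ (t + 1) = φ t + 1`. -/
structure Rep where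
  φ : ℝ ≃o ℝ
  per : ∀ t, φ (t + 1) = φ t + 1

namespace Rep

def refl : Rep := ⟨OrderIso.refl ℝ, fun _ => rfl⟩

def symm (r : Rep) : Rep := ⟨r.φ.symm, fun t => by
  rw [r.φ.symm_apply_eq, r.per, r.φ.apply_symm_apply]⟩

def trans (r r' : Rep) : Rep := ⟨r.φ.trans r'.φ, fun t => by
  simp only [OrderIso.trans_apply, r.per, r'.per]⟩

instance : Nonempty Rep := ⟨refl⟩

theorem continuous (r : Rep) : Continuous r.φ := r.φ.continuous

end Rep

namespace Loop

theorem per_nat (γ : Loop) (t : ℝ) (k : ℕ) : γ.f (t + k) = γ.f t := by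
  induction k with
  | zero => simp
  | succ k ih => rw [Nat.cast_succ, ← add_assoc, γ.per, ih]

theorem per_int (γ : Loop) (t : ℝ) (k : ℤ) : γ.f (t + k) = γ.f t := by
  obtain ⟨m, rfl | rfl⟩ := k.eq_nat_or_neg
  · exact_mod_cast γ.per_nat t m
  · have := γ.per_nat (t + ((-(m : ℤ) : ℤ) : ℝ)) m
    rw [← this]
    congr 1
    push_cast
    ring

theorem range_eq (γ : Loop) : range γ.f = γ.f '' Icc 0 1 := by
  apply subset_antisymm
  · rintro _ ⟨t, rfl⟩
    refine ⟨Int.fract t, ⟨Int.fract_nonneg t, (Int.fract_lt_one t).le⟩, ?_⟩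
    have := γ.per_int (Int.fract t) ⌊t⌋
    rw [Int.fract_add_floor] at this
    exact this.symm
  · rintro _ ⟨t, -, rfl⟩
    exact ⟨t, rfl⟩

theorem isCompact_range (γ : Loop) : IsCompact (range γ.f) := by
  rw [γ.range_eq]
  exact isCompact_Icc.image γ.cont

/-- The supremum of the distances, for a change of parameter. -/
noncomputable def supD (γ γ' : Loop) (r : Rep) : ℝ := ⨆ t, dist (γ.f t) (γ'.f (r.φ t))

theorem bdd (γ γ' : Loop) (r : Rep) : BddAbove (range fun t => dist (γ.f t) (γ'.f (r.φ t))) := by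
  obtain ⟨C, hC⟩ := (γ.isCompact_range.union γ'.isCompact_range).isBounded.exists_norm_le
  refine ⟨C + C, ?_⟩
  rintro _ ⟨t, rfl⟩
  refine (dist_le_norm_add_norm _ _).trans (add_le_add ?_ ?_)
  · exact hC _ (Or.inl ⟨t, rfl⟩)
  · exact hC _ (Or.inr ⟨r.φ t, rfl⟩)

theorem supD_nonneg (γ γ' : Loop) (r : Rep) : 0 ≤ supD γ γ' r :=
  Real.iSup_nonneg fun _ => dist_nonneg

theorem dist_le_supD (γ γ' : Loop) (r : Rep) (t : ℝ) :
    dist (γ.f t) (γ'.f (r.φ t)) ≤ supD γ γ' r := le_ciSup (bdd γ γ' r) t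

theorem supD_le {γ γ' : Loop} {r : Rep} {C : ℝ} (h : ∀ t, dist (γ.f t) (γ'.f (r.φ t)) ≤ C) :
    supD γ γ' r ≤ C := ciSup_le h

/-- The distance of the problem file: the infimum over the parametrisations. -/
noncomputable instance : PseudoMetricSpace Loop where
  dist γ γ' := ⨅ r, supD γ γ' r
  dist_self γ := by
    apply le_antisymm
    · refine (ciInf_le ⟨0, ?_⟩ Rep.refl).trans (supD_le fun t => ?_)
      · rintro _ ⟨r, rfl⟩
        exact supD_nonneg _ _ _
      · exact (dist_self _).le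
    · exact le_ciInf fun r => supD_nonneg _ _ _
  dist_comm γ γ' := by
    have key : ∀ γ γ' : Loop, (⨅ r, supD γ γ' r) ≤ ⨅ r, supD γ' γ r := by
      intro γ γ'
      refine le_ciInf fun r => ?_
      refine (ciInf_le ⟨0, ?_⟩ r.symm).trans (supD_le fun t => ?_)
      · rintro _ ⟨r, rfl⟩
        exact supD_nonneg _ _ _
      · have := dist_le_supD γ' γ r (r.φ.symm t)
        rw [r.φ.apply_symm_apply] at this
        rw [dist_comm]
        exact this
    exact le_antisymm (key _ _) (key _ _)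
  dist_triangle γ₁ γ₂ γ₃ := by
    have hb : ∀ γ γ' : Loop, BddBelow (range fun r => supD γ γ' r) := by
      intro γ γ'
      refine ⟨0, ?_⟩
      rintro _ ⟨r, rfl⟩
      exact supD_nonneg _ _ _
    refine le_ciInf_add_ciInf fun r r' => ?_
    refine (ciInf_le (hb _ _) (r.trans r')).trans (supD_le fun t => ?_)
    refine (dist_triangle _ (γ₂.f (r.φ t)) _).trans (add_le_add ?_ ?_)
    · exact dist_le_supD _ _ _ _
    · exact dist_le_supD γ₂ γ₃ r' (r.φ t)

theorem dist_def (γ γ' : Loop) : dist γ γ' = ⨅ r, supD γ γ' r := rfl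

theorem exists_rep {γ γ' : Loop} {ε : ℝ} (h : dist γ γ' < ε) :
    ∃ r : Rep, ∀ t, dist (γ.f t) (γ'.f (r.φ t)) < ε := by
  rw [dist_def] at h
  obtain ⟨r, hr⟩ := exists_lt_of_ciInf_lt h
  exact ⟨r, fun t => (dist_le_supD γ γ' r t).trans_lt hr⟩

theorem dist_le {γ γ' : Loop} {ε : ℝ} (r : Rep) (h : ∀ t, dist (γ.f t) (γ'.f (r.φ t)) ≤ ε) :
    dist γ γ' ≤ ε := by
  rw [dist_def]
  refine (ciInf_le ⟨0, ?_⟩ r).trans (supD_le h)
  rintro _ ⟨r, rfl⟩
  exact supD_nonneg _ _ _

/-- The trace of a closed curve. -/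
def trace (γ : Loop) : NonemptyCompacts ℂ :=
  ⟨⟨range γ.f, γ.isCompact_range⟩, range_nonempty _⟩

theorem coe_trace (γ : Loop) : (trace γ : Set ℂ) = range γ.f := rfl

theorem dist_trace_le (γ γ' : Loop) : dist (trace γ) (trace γ') ≤ dist γ γ' := by
  refine le_of_forall_pos_lt_add fun ε hε => ?_
  obtain ⟨r, hr⟩ := exists_rep (show dist γ γ' < dist γ γ' + ε by linarith)
  refine lt_of_le_of_lt ?_ (show (dist γ γ' + ε / 2) < dist γ γ' + ε by linarith)
  clear hr r
  obtain ⟨r, hr⟩ := exists_rep (show dist γ γ' < dist γ γ' + ε / 2 by linarith)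
  rw [Metric.NonemptyCompacts.dist_eq]
  refine Metric.hausdorffDist_le_of_mem_dist (by positivity) ?_ ?_
  · rintro _ ⟨t, rfl⟩
    exact ⟨_, ⟨r.φ t, rfl⟩, (hr t).le⟩
  · rintro _ ⟨t, rfl⟩
    refine ⟨_, ⟨r.φ.symm t, rfl⟩, ?_⟩
    have := (hr (r.φ.symm t)).le
    rw [r.φ.apply_symm_apply, dist_comm] at this
    exact this

theorem continuous_trace : Continuous trace :=
  (LipschitzWith.of_dist_le_mul (K := 1) fun γ γ' => by
    rw [NNReal.coe_one, one_mul]; exact dist_trace_le γ γ').continuous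

end Loop

/-- Closed curves in the plane up to reparametrisation: loops at distance `0` are identified. -/
abbrev Curve : Type := SeparationQuotient Loop

noncomputable instance : MeasurableSpace Curve := borel Curve

instance : BorelSpace Curve := ⟨rfl⟩

/-- The trace of a curve. -/
noncomputable def Curve.trace : Curve → NonemptyCompacts ℂ :=
  SeparationQuotient.lift Loop.trace fun _ _ h =>
    (h.map Loop.continuous_trace).eq

/-- A curve is self-avoiding if some parametrisation of it has no double points. -/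
def Curve.SelfAvoiding (c : Curve) : Prop :=
  ∃ γ : Loop, SeparationQuotient.mk γ = c ∧ ∀ s t, γ.f s = γ.f t → ∃ k : ℤ, t = s + k

/-! ### Closed polygons -/

/-- Linear interpolation of a sequence of points. -/
noncomputable def poly (V : ℤ → ℂ) (t : ℝ) : ℂ :=
  V ⌊t⌋ + Int.fract t • (V (⌊t⌋ + 1) - V ⌊t⌋)

theorem poly_eq (V : ℤ → ℂ) (k : ℤ) {t : ℝ} (ht : t ∈ Icc (k : ℝ) (k + 1)) :
    poly V t = V k + (t - k) • (V (k + 1) - V k) := by
  rcases ht.2.lt_or_eq with h | h
  · have hk : ⌊t⌋ = k := Int.floor_eq_iff.2 ⟨ht.1, h⟩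
    unfold poly
    rw [hk, ← Int.self_sub_floor, hk]
  · have hk : ⌊t⌋ = k + 1 := by
      rw [h]
      have : ((k : ℝ) + 1) = ((k + 1 : ℤ) : ℝ) := by push_cast; rfl
      rw [this, Int.floor_intCast]
    unfold poly
    rw [hk, ← Int.self_sub_floor, hk, h]
    push_cast
    simp

theorem continuous_poly (V : ℤ → ℂ) : Continuous (poly V) := by
  have hlf : LocallyFinite fun k : ℤ => Icc (k : ℝ) (k + 1) := by
    intro t
    refine ⟨Ioo (t - 1) (t + 1), Ioo_mem_nhds (by linarith) (by linarith), ?_⟩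
    refine (Set.finite_Icc (⌊t⌋ - 3) (⌊t⌋ + 3)).subset ?_
    rintro k ⟨x, hx1, hx2⟩
    have h1 := Int.floor_le t
    have h2 := Int.lt_floor_add_one t
    have h3 : (k : ℝ) < ⌊t⌋ + 3 := by linarith [hx1.1, hx2.2]
    have h4 : (⌊t⌋ : ℝ) - 3 < k := by linarith [hx1.2, hx2.1]
    have h5 : k < ⌊t⌋ + 3 := by exact_mod_cast h3
    have h6 : ⌊t⌋ - 3 < k := by exact_mod_cast h4
    exact ⟨h6.le, h5.le⟩
  refine hlf.continuous (iUnion_eq_univ_iff.2 fun t => ⟨⌊t⌋, Int.floor_le t,
    (Int.lt_floor_add_one t).le⟩) (fun k => isClosed_Icc) fun k => ?_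
  refine ContinuousOn.congr (f := fun t : ℝ => V k + (t - k) • (V (k + 1) - V k)) ?_
    fun t ht => poly_eq V k ht
  fun_prop

theorem poly_shift (V : ℤ → ℂ) (i : ℤ) (t : ℝ) : poly V (t + i) = poly (fun j => V (j + i)) t := by
  unfold poly
  rw [Int.floor_add_intCast, Int.fract_add_intCast]
  ring_nf

/-- The closed polygon through the points of a sequence of period `p`. -/
noncomputable def polyLoop (V : ℤ → ℂ) (p : ℕ) (h : ∀ j, V (j + p) = V j) : Loop where
  f t := poly V (p * t)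
  cont := (continuous_poly V).comp (by fun_prop)
  per t := by
    have h1 : (p : ℝ) * (t + 1) = p * t + ((p : ℤ) : ℝ) := by push_cast; ring
    rw [h1, poly_shift]
    congr 1
    funext j
    exact h j

end Pool.Agent.PercD
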