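import Pool.Agent.Lib.MP_6bd702_z.Z001
import Pool.Agent.Lib.MP_6bd702_z.CurveDefs

section PartpercDTopo

/-!
# The boundary of the unbounded component and the outer vertices
-/

set_option autoImplicit false

namespace Pool.Agent.Perc

open Set TopologicalSpace BoxAux BoxB

namespace PercD

/-- The open unit square with lower left corner `f`. -/
def faceO (f : ℤ × ℤ) : Set ℂ := {z | (f.1 : ℝ) < z.re ∧ z.re < f.1 + 1 ∧ (f.2 : ℝ) < z.im ∧
  z.im < f.2 + 1}

theorem convex_faceO (f : ℤ × ℤ) : Convex ℝ (faceO f) := by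
  have h : faceO f = ({z : ℂ | (f.1 : ℝ) < z.re} ∩ {z : ℂ | z.re < (f.1 : ℝ) + 1}) ∩
      ({z : ℂ | (f.2 : ℝ) < z.im} ∩ {z : ℂ | z.im < (f.2 : ℝ) + 1}) := by
    ext z; simp only [faceO, mem_ofPred_eq, mem_inter_iff]; tauto
  rw [h]
  exact ((convex_halfSpace_re_gt _).inter (convex_halfSpace_re_lt _)).inter
    ((convex_halfSpace_im_gt _).inter (convex_halfSpace_im_lt _))

theorem faceO_sub (T : Finset Edg) (u f : ℤ × ℤ) : faceO f ⊆ (clS T u)ᶜ := by
  intro z hz hz'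
  obtain ⟨h1, h2, h3, h4⟩ := hz
  have aux : ∀ (x : ℝ) (a b : ℤ), (b : ℝ) < x → x < b + 1 → x = a → False := by
    intro x a b h5 h6 h7
    rw [h7] at h5 h6
    have h8 : b < a := by exact_mod_cast h5
    have h9 : a < b + 1 := by exact_mod_cast h6
    omega
  rcases clS_coord hz' with ⟨a, b, h5, _⟩ | ⟨a, b, _, h5, _, _⟩ | ⟨a, b, _, h5, _, _⟩
  · exact aux _ a _ h1 h2 h5
  · exact aux _ a _ h1 h2 h5
  · exact aux _ b _ h3 h4 h5

theorem ctr_mem_faceO (f : ℤ × ℤ) : ctr f ∈ faceO f := by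
  simp only [faceO, ctr, toC, mem_ofPred_eq]
  simp
  norm_num

theorem mem_outU_face {T : Finset Edg} {u f : ℤ × ℤ} {z : ℂ} (hz : z ∈ faceO f) :
    z ∈ outU T u ↔ Outer T u f :=
  mem_outU_iff (convex_faceO f).isPreconnected (faceO_sub T u f) hz (ctr_mem_faceO f)

/-- A corner of a face is in its closure. -/
theorem corner_mem_closure {f v : ℤ × ℤ} (h1 : v.1 = f.1 ∨ v.1 = f.1 + 1)
    (h2 : v.2 = f.2 ∨ v.2 = f.2 + 1) : toC v ∈ closure (faceO f) := by
  rw [Metric.mem_closure_iff]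
  intro ε hε
  set t : ℝ := min (1 / 2) (ε / 2) with ht
  have ht0 : 0 < t := lt_min (by norm_num) (by positivity)
  have ht1 : t ≤ 1 / 2 := min_le_left _ _
  have ht2 : t ≤ ε / 2 := min_le_right _ _
  refine ⟨toC v + (t : ℂ) * (ctr f - toC v), ?_, ?_⟩
  · simp only [faceO, ctr, toC, mem_ofPred_eq]
    simp
    rcases h1 with h1 | h1 <;> rcases h2 with h2 | h2 <;> rw [h1, h2] <;> push_cast <;>
      refine ⟨?_, ?_, ?_, ?_⟩ <;> nlinarith
  · rw [dist_eq_norm]
    have h3 : toC v - (toC v + (t : ℂ) * (ctr f - toC v)) = -((t : ℂ) * (ctr f - toC v)) := by ring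
    rw [h3, norm_neg, norm_mul, Complex.norm_real, Real.norm_eq_abs, abs_of_pos ht0]
    have h4 : ‖ctr f - toC v‖ ≤ 1 := by
      refine (Complex.norm_le_abs_re_add_abs_im _).trans ?_
      simp only [ctr, toC]
      simp
      rcases h1 with h1 | h1 <;> rcases h2 with h2 | h2 <;> rw [h1, h2] <;> push_cast
      · rw [show (f.1 : ℝ) + 2⁻¹ - f.1 = 1 / 2 by ring, show (f.2 : ℝ) + 2⁻¹ - f.2 = 1 / 2 by ring]
        norm_num [abs_of_pos]
      · rw [show (f.1 : ℝ) + 2⁻¹ - f.1 = 1 / 2 by ring,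
          show (f.2 : ℝ) + 2⁻¹ - (f.2 + 1) = -(1 / 2) by ring, abs_neg]
        norm_num [abs_of_pos]
      · rw [show (f.1 : ℝ) + 2⁻¹ - (f.1 + 1) = -(1 / 2) by ring,
          show (f.2 : ℝ) + 2⁻¹ - f.2 = 1 / 2 by ring, abs_neg]
        norm_num [abs_of_pos]
      · rw [show (f.1 : ℝ) + 2⁻¹ - (f.1 + 1) = -(1 / 2) by ring,
          show (f.2 : ℝ) + 2⁻¹ - (f.2 + 1) = -(1 / 2) by ring, abs_neg]
        norm_num [abs_of_pos]
    calc t * ‖ctr f - toC v‖ ≤ t * 1 := by gcongr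
      _ < ε := by linarith

/-- Outer vertices are boundary points. -/
theorem toC_mem_frontier {T : Finset Edg} {u v : ℤ × ℤ} (h : v ∈ OutV T u) :
    toC v ∈ frontier (outU T u) := by
  obtain ⟨e, he, hcl, ⟨b, hb⟩, hv⟩ := h
  have h1 : v ∈ clV T u := by
    rcases hv with rfl | rfl
    · exact hcl
    · exact (tl_mem_iff he).1 hcl
  have h2 : toC v ∉ outU T u := not_mem_outU (toC_mem_clS h1)
  have h3 : toC v ∈ closure (faceO (side e b)) := by
    obtain ⟨x, y, c⟩ := e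
    apply corner_mem_closure <;> rcases hv with rfl | rfl <;> cases b <;> cases c <;>
      simp [side, tl, hd]
  have h4 : faceO (side e b) ⊆ outU T u := fun z hz => (mem_outU_face hz).2 hb
  rw [(isOpen_outU T u).frontier_eq]
  exact ⟨closure_mono h4 h3, h2⟩

/-- Going around a vertex from any of its faces. -/
theorem exists_side' {T : Finset Edg} {u v f : ℤ × ℤ} (hv : v ∈ clV T u) (ho : Outer T u f)
    (h1 : f.1 = v.1 ∨ f.1 = v.1 - 1) (h2 : f.2 = v.2 ∨ f.2 = v.2 - 1)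
    (hne : ∃ e ∈ T, tl e = v ∨ hd e = v) :
    ∃ e ∈ T, ∃ b : Bool, (tl e = v ∨ hd e = v) ∧ Outer T u (side e b) := by
  have key : ∀ f, Outer T v f ↔ Outer T u f := fun f => outer_eq hv f
  simp only [← key] at ho ⊢
  obtain ⟨x, y⟩ := v
  obtain ⟨a, b⟩ := f
  simp only at h1 h2
  rcases h1 with h1 | h1 <;> rcases h2 with h2 | h2 <;> rw [h1, h2] at ho <;> clear h1 h2
  · exact exists_side ho hne
  · by_cases h : (x, y, false) ∈ T
    · exact ⟨_, h, false, Or.inl rfl, ho⟩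
    · exact exists_side (outer_move ho (seg_hor h)) hne
  · by_cases h : (x, y, true) ∈ T
    · exact ⟨_, h, false, Or.inl rfl, ho⟩
    · exact exists_side (outer_move ho (seg_vert h)) hne
  · by_cases h : (x, y - 1, true) ∈ T
    · refine ⟨_, h, false, Or.inr ?_, ho⟩
      simp [hd]
    · have o1 : Outer T (x, y) (x, y - 1) := outer_move ho (seg_vert h)
      by_cases h' : (x, y, false) ∈ T
      · exact ⟨_, h', false, Or.inl rfl, o1⟩
      · exact exists_side (outer_move o1 (seg_hor h')) hne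

/-- A nonempty open set contains points off the lattice lines, near any of its points. -/
theorem exists_off {O : Set ℂ} (hO : IsOpen O) {z : ℂ} (hz : z ∈ O) {ε : ℝ} (hε : 0 < ε) (a b : ℤ) :
    ∃ w ∈ O, |w.re - z.re| < ε ∧ |w.im - z.im| < ε ∧ w.re ≠ a ∧ w.im ≠ b := by
  obtain ⟨δ, hδ, hb⟩ := Metric.isOpen_iff.1 hO z hz
  have aux : ∀ (x : ℝ) (c : ℤ), ∃ ρ > 0, ∀ t, 0 < t → t < ρ → x + t ≠ c := by
    intro x c
    by_cases h : x < c
    · exact ⟨c - x, by linarith, fun t _ ht hcon => by linarith⟩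
    · exact ⟨1, one_pos, fun t ht _ hcon => by linarith⟩
  obtain ⟨ρ1, hρ1, h1⟩ := aux z.re a
  obtain ⟨ρ2, hρ2, h2⟩ := aux z.im b
  set t : ℝ := min (min (ρ1 / 2) (ρ2 / 2)) (min (δ / 4) (ε / 2)) with ht
  have ht0 : 0 < t := by positivity
  have ht1 : t < ρ1 := by
    have : t ≤ ρ1 / 2 := (min_le_left _ _).trans (min_le_left _ _)
    linarith
  have ht2 : t < ρ2 := by
    have : t ≤ ρ2 / 2 := (min_le_left _ _).trans (min_le_right _ _)
    linarith
  have ht3 : t ≤ δ / 4 := (min_le_right _ _).trans (min_le_left _ _)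
  have ht4 : t < ε := by
    have : t ≤ ε / 2 := (min_le_right _ _).trans (min_le_right _ _)
    linarith
  refine ⟨z + (t + t * Complex.I), hb ?_, ?_, ?_, ?_, ?_⟩
  · rw [Metric.mem_ball, dist_eq_norm]
    have : z + (t + t * Complex.I) - z = (t : ℂ) + t * Complex.I := by ring
    rw [this]
    refine (Complex.norm_le_abs_re_add_abs_im _).trans_lt ?_
    simp
    rw [abs_of_pos ht0]; linarith
  · simp; rw [abs_of_pos ht0]; exact ht4
  · simp; rw [abs_of_pos ht0]; exact ht4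
  · simp; exact h1 t ht0 ht1
  · simp; exact h2 t ht0 ht2

/-- Every boundary point is close to an outer vertex. -/
theorem exists_outV {T : Finset Edg} {u : ℤ × ℤ} (hd0 : 0 < Metric.diam (clS T u)) {z : ℂ}
    (hz : z ∈ frontier (outU T u)) : ∃ v ∈ OutV T u, ‖z - toC v‖ ≤ 1 := by
  have hzc : z ∈ closure (outU T u) := frontier_subset_closure hz
  have hzs := frontier_outU_sub T u hz
  rw [mem_clS] at hzs
  -- edges at the vertices of the cluster
  have hedge : ∀ v ∈ clV T u, ∃ e ∈ T, tl e = v ∨ hd e = v := by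
    intro v hv
    apply exists_edge
    rw [clS_eq hv]; exact hd0
  have mkV : ∀ (v : ℤ × ℤ) (e : Edg), v ∈ clV T u → e ∈ T → (tl e = v ∨ hd e = v) → ∀ b,
      Outer T u (side e b) → v ∈ OutV T u := by
    intro v e hv he h b hb
    refine ⟨e, he, ?_, ⟨b, hb⟩, ?_⟩
    · rcases h with h | h
      · rw [h]; exact hv
      · exact (tl_mem_iff he).2 (h ▸ hv)
    · rcases h with h | h
      · exact Or.inl h.symm
      · exact Or.inr h.symm
  have vcase : ∀ w ∈ clV T u, toC w ∈ closure (outU T u) → w ∈ OutV T u := by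
    intro w hw hzc
    obtain ⟨z1, hz1, hd1⟩ := Metric.mem_closure_iff.1 hzc (1 / 2) (by norm_num)
    obtain ⟨z2, hz2, h3, h4, h5, h6⟩ := exists_off (isOpen_outU T u) hz1
      (ε := 1 / 2) (by norm_num) w.1 w.2
    have hr : |z2.re - w.1| < 1 := by
      have e1 : |z1.re - w.1| < 1 / 2 := by
        have := (Complex.abs_re_le_norm (toC w - z1)).trans_lt (by rwa [dist_eq_norm] at hd1)
        rw [abs_sub_comm]; simpa [toC] using this
      calc |z2.re - w.1| = |(z2.re - z1.re) + (z1.re - w.1)| := by ring_nf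
        _ ≤ _ := abs_add_le _ _
        _ < 1 := by linarith
    have hi : |z2.im - w.2| < 1 := by
      have e1 : |z1.im - w.2| < 1 / 2 := by
        have := (Complex.abs_im_le_norm (toC w - z1)).trans_lt (by rwa [dist_eq_norm] at hd1)
        rw [abs_sub_comm]; simpa [toC] using this
      calc |z2.im - w.2| = |(z2.im - z1.im) + (z1.im - w.2)| := by ring_nf
        _ ≤ _ := abs_add_le _ _
        _ < 1 := by linarith
    rw [abs_lt] at hr hi
    have hf : ∃ f : ℤ × ℤ, (f.1 = w.1 ∨ f.1 = w.1 - 1) ∧ (f.2 = w.2 ∨ f.2 = w.2 - 1) ∧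
        z2 ∈ faceO f := by
      rcases lt_or_gt_of_ne h5 with h5 | h5 <;> rcases lt_or_gt_of_ne h6 with h6 | h6
      · refine ⟨(w.1 - 1, w.2 - 1), Or.inr rfl, Or.inr rfl, ?_⟩
        simp only [faceO, mem_ofPred_eq]; push_cast
        refine ⟨?_, ?_, ?_, ?_⟩ <;> linarith
      · refine ⟨(w.1 - 1, w.2), Or.inr rfl, Or.inl rfl, ?_⟩
        simp only [faceO, mem_ofPred_eq]; push_cast
        refine ⟨?_, ?_, ?_, ?_⟩ <;> linarith
      · refine ⟨(w.1, w.2 - 1), Or.inl rfl, Or.inr rfl, ?_⟩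
        simp only [faceO, mem_ofPred_eq]; push_cast
        refine ⟨?_, ?_, ?_, ?_⟩ <;> linarith
      · refine ⟨(w.1, w.2), Or.inl rfl, Or.inl rfl, ?_⟩
        simp only [faceO, mem_ofPred_eq]
        refine ⟨?_, ?_, ?_, ?_⟩ <;> linarith
    obtain ⟨f, hf1, hf2, hf3⟩ := hf
    obtain ⟨e, he, b, hev, hb⟩ := exists_side' hw ((mem_outU_face hf3).1 hz2) hf1 hf2 (hedge w hw)
    exact mkV w e hw he hev b hb
  rcases hzs with ⟨w, hw, rfl⟩ | ⟨⟨a, b, c⟩, he, hcl, hseg⟩
  · -- a vertex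
    exact ⟨w, vcase w hw hzc, by simp⟩
  · -- a point of an edge
    have hcoord : (c = true → z.re = a ∧ (b : ℝ) ≤ z.im ∧ z.im ≤ b + 1) ∧
        (c = false → z.im = b ∧ (a : ℝ) ≤ z.re ∧ z.re ≤ a + 1) := by
      rw [segment_eq_image] at hseg
      obtain ⟨t, ⟨ht0, ht1⟩, rfl⟩ := hseg
      constructor
      · rintro rfl
        simp only [tl, hd, toC]; simp
        constructor
        · ring
        · constructor <;> nlinarith
      · rintro rfl
        simp only [tl, hd, toC]; simp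
        constructor
        · ring
        · constructor <;> nlinarith
    have hdist : ‖z - toC (tl (a, b, c))‖ ≤ 1 := by
      refine (Complex.norm_le_abs_re_add_abs_im _).trans ?_
      cases c
      · obtain ⟨h1, h2, h3⟩ := hcoord.2 rfl
        simp only [tl, toC]; simp
        rw [h1, sub_self, abs_zero, add_zero, abs_of_nonneg (by linarith)]; linarith
      · obtain ⟨h1, h2, h3⟩ := hcoord.1 rfl
        simp only [tl, toC]; simp
        rw [h1, sub_self, abs_zero, zero_add, abs_of_nonneg (by linarith)]; linarith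
    have hdist2 : ‖z - toC (hd (a, b, c))‖ ≤ 1 := by
      refine (Complex.norm_le_abs_re_add_abs_im _).trans ?_
      cases c
      · obtain ⟨h1, h2, h3⟩ := hcoord.2 rfl
        simp only [hd, toC]; simp
        rw [h1, sub_self, abs_zero, add_zero, abs_of_nonpos (by linarith)]; linarith
      · obtain ⟨h1, h2, h3⟩ := hcoord.1 rfl
        simp only [hd, toC]; simp
        rw [h1, sub_self, abs_zero, zero_add, abs_of_nonpos (by linarith)]; linarith
    -- is it an end point?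
    by_cases hend : z = toC (tl (a, b, c)) ∨ z = toC (hd (a, b, c))
    · -- reduce to the vertex case
      have hvv : ∃ w ∈ clV T u, z = toC w := by
        rcases hend with h | h
        · exact ⟨_, hcl, h⟩
        · exact ⟨_, (tl_mem_iff he).1 hcl, h⟩
      obtain ⟨w, hw, rfl⟩ := hvv
      exact ⟨w, vcase w hw hzc, by simp⟩
    · push Not at hend
      refine ⟨tl (a, b, c), ?_, hdist⟩
      cases c
      · obtain ⟨h1, h2, h3⟩ := hcoord.2 rfl
        have h2' : (a : ℝ) < z.re := by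
          refine lt_of_le_of_ne h2 fun h => hend.1 ?_
          apply Complex.ext <;> simp [tl, toC, h1, ← h]
        have h3' : z.re < a + 1 := by
          refine lt_of_le_of_ne h3 fun h => hend.2 ?_
          apply Complex.ext <;> simp [hd, toC, h1, h]
        set ρ : ℝ := min (min (z.re - a) (a + 1 - z.re)) 1 / 2 with hρ
        have hρ0 : 0 < ρ := by
          have : 0 < min (min (z.re - a) (a + 1 - z.re)) 1 :=
            lt_min (lt_min (by linarith) (by linarith)) one_pos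
          positivity
        have hρ1 : 2 * ρ ≤ z.re - a := by
          rw [hρ]; linarith [(min_le_left (min (z.re - a) (a + 1 - z.re)) 1).trans (min_le_left _ _)]
        have hρ2 : 2 * ρ ≤ a + 1 - z.re := by
          rw [hρ]; linarith [(min_le_left (min (z.re - a) (a + 1 - z.re)) 1).trans (min_le_right _ _)]
        have hρ3 : 2 * ρ ≤ 1 := by
          rw [hρ]; linarith [min_le_right (min (z.re - a) (a + 1 - z.re)) 1]
        obtain ⟨z1, hz1, hd1⟩ := Metric.mem_closure_iff.1 hzc ρ hρ0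
        obtain ⟨z2, hz2, h5, h6, h7, h8⟩ := exists_off (isOpen_outU T u) hz1 (ε := ρ) hρ0 a b
        have e1 : |z1.re - z.re| < ρ := by
          have := (Complex.abs_re_le_norm (z - z1)).trans_lt (by rwa [dist_eq_norm] at hd1)
          rw [abs_sub_comm]; simpa using this
        have e2 : |z1.im - z.im| < ρ := by
          have := (Complex.abs_im_le_norm (z - z1)).trans_lt (by rwa [dist_eq_norm] at hd1)
          rw [abs_sub_comm]; simpa using this
        rw [abs_lt] at e1 e2 h5 h6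
        rcases lt_or_gt_of_ne h8 with h8 | h8
        · have hm : z2 ∈ faceO (side (a, b, false) false) := by
            simp only [faceO, side, mem_ofPred_eq]; simp
            refine ⟨?_, ?_, ?_, ?_⟩ <;> linarith
          exact ⟨_, he, hcl, ⟨false, (mem_outU_face hm).1 hz2⟩, Or.inl rfl⟩
        · have hm : z2 ∈ faceO (side (a, b, false) true) := by
            simp only [faceO, side, tl, mem_ofPred_eq]; simp
            refine ⟨?_, ?_, ?_, ?_⟩ <;> linarith
          exact ⟨_, he, hcl, ⟨true, (mem_outU_face hm).1 hz2⟩, Or.inl rfl⟩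
      · obtain ⟨h1, h2, h3⟩ := hcoord.1 rfl
        have h2' : (b : ℝ) < z.im := by
          refine lt_of_le_of_ne h2 fun h => hend.1 ?_
          apply Complex.ext <;> simp [tl, toC, h1, ← h]
        have h3' : z.im < b + 1 := by
          refine lt_of_le_of_ne h3 fun h => hend.2 ?_
          apply Complex.ext <;> simp [hd, toC, h1, h]
        set ρ : ℝ := min (min (z.im - b) (b + 1 - z.im)) 1 / 2 with hρ
        have hρ0 : 0 < ρ := by
          have : 0 < min (min (z.im - b) (b + 1 - z.im)) 1 :=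
            lt_min (lt_min (by linarith) (by linarith)) one_pos
          positivity
        have hρ1 : 2 * ρ ≤ z.im - b := by
          rw [hρ]; linarith [(min_le_left (min (z.im - b) (b + 1 - z.im)) 1).trans (min_le_left _ _)]
        have hρ2 : 2 * ρ ≤ b + 1 - z.im := by
          rw [hρ]; linarith [(min_le_left (min (z.im - b) (b + 1 - z.im)) 1).trans (min_le_right _ _)]
        have hρ3 : 2 * ρ ≤ 1 := by
          rw [hρ]; linarith [min_le_right (min (z.im - b) (b + 1 - z.im)) 1]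
        obtain ⟨z1, hz1, hd1⟩ := Metric.mem_closure_iff.1 hzc ρ hρ0
        obtain ⟨z2, hz2, h5, h6, h7, h8⟩ := exists_off (isOpen_outU T u) hz1 (ε := ρ) hρ0 a b
        have e1 : |z1.re - z.re| < ρ := by
          have := (Complex.abs_re_le_norm (z - z1)).trans_lt (by rwa [dist_eq_norm] at hd1)
          rw [abs_sub_comm]; simpa using this
        have e2 : |z1.im - z.im| < ρ := by
          have := (Complex.abs_im_le_norm (z - z1)).trans_lt (by rwa [dist_eq_norm] at hd1)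
          rw [abs_sub_comm]; simpa using this
        rw [abs_lt] at e1 e2 h5 h6
        rcases lt_or_gt_of_ne h7 with h7 | h7
        · have hm : z2 ∈ faceO (side (a, b, true) false) := by
            simp only [faceO, side, mem_ofPred_eq]; simp
            refine ⟨?_, ?_, ?_, ?_⟩ <;> linarith
          exact ⟨_, he, hcl, ⟨false, (mem_outU_face hm).1 hz2⟩, Or.inl rfl⟩
        · have hm : z2 ∈ faceO (side (a, b, true) true) := by
            simp only [faceO, side, tl, mem_ofPred_eq]; simp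
            refine ⟨?_, ?_, ?_, ?_⟩ <;> linarith
          exact ⟨_, he, hcl, ⟨true, (mem_outU_face hm).1 hz2⟩, Or.inl rfl⟩

end PercD

end Pool.Agent.Perc

end PartpercDTopo

section PartpercDCurve

/-!
# Closed curves in the plane up to reparametrisation
-/

set_option autoImplicit false

namespace Pool.Agent.PercD

open Set Filter Topology MeasureTheory TopologicalSpace

namespace Loop

/-- The curves which pass twice through some point such that both parts between the two passages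
have diameter at least `η`. -/
def Dbl (η : ℝ) : Set Loop :=
  {γ | ∃ s t, s ≤ t ∧ t ≤ s + 1 ∧ γ.f s = γ.f t ∧
    (∃ x ∈ Icc s t, ∃ y ∈ Icc s t, η ≤ dist (γ.f x) (γ.f y)) ∧
    ∃ x ∈ Icc t (s + 1), ∃ y ∈ Icc t (s + 1), η ≤ dist (γ.f x) (γ.f y)}

/-- A closed curve is self-avoiding if some parametrisation of it has no double points. -/
def SelfAvoiding (γ : Loop) : Prop :=
  ∃ γ' : Loop, dist γ γ' = 0 ∧ ∀ s t, γ'.f s = γ'.f t → ∃ k : ℤ, t = s + k

/-- Approximate double points, as points of `ℝ ^ 6`. -/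
def Apx (γ : Loop) (η ε : ℝ) : Set (ℝ × ℝ × ℝ × ℝ × ℝ × ℝ) :=
  {p | (0 ≤ p.1 ∧ p.1 ≤ 1) ∧ p.1 ≤ p.2.1 ∧ p.2.1 ≤ p.1 + 1 ∧
    dist (γ.f p.1) (γ.f p.2.1) ≤ ε ∧
    (p.1 ≤ p.2.2.1 ∧ p.2.2.1 ≤ p.2.1) ∧ (p.1 ≤ p.2.2.2.1 ∧ p.2.2.2.1 ≤ p.2.1) ∧
    η - ε ≤ dist (γ.f p.2.2.1) (γ.f p.2.2.2.1) ∧
    (p.2.1 ≤ p.2.2.2.2.1 ∧ p.2.2.2.2.1 ≤ p.1 + 1) ∧
    (p.2.1 ≤ p.2.2.2.2.2 ∧ p.2.2.2.2.2 ≤ p.1 + 1) ∧
    η - ε ≤ dist (γ.f p.2.2.2.2.1) (γ.f p.2.2.2.2.2)}

theorem isClosed_Apx (γ : Loop) (η ε : ℝ) : IsClosed (Apx γ η ε) := by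
  have hc := γ.cont
  have h1 : Continuous fun p : ℝ × ℝ × ℝ × ℝ × ℝ × ℝ => dist (γ.f p.1) (γ.f p.2.1) := by fun_prop
  have h2 : Continuous fun p : ℝ × ℝ × ℝ × ℝ × ℝ × ℝ =>
    dist (γ.f p.2.2.1) (γ.f p.2.2.2.1) := by fun_prop
  have h3 : Continuous fun p : ℝ × ℝ × ℝ × ℝ × ℝ × ℝ =>
    dist (γ.f p.2.2.2.2.1) (γ.f p.2.2.2.2.2) := by fun_prop
  have c1 : Continuous fun p : ℝ × ℝ × ℝ × ℝ × ℝ × ℝ => p.1 := by fun_prop
  have c1' : Continuous fun p : ℝ × ℝ × ℝ × ℝ × ℝ × ℝ => p.1 + 1 := by fun_prop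
  have c2 : Continuous fun p : ℝ × ℝ × ℝ × ℝ × ℝ × ℝ => p.2.1 := by fun_prop
  have c3 : Continuous fun p : ℝ × ℝ × ℝ × ℝ × ℝ × ℝ => p.2.2.1 := by fun_prop
  have c4 : Continuous fun p : ℝ × ℝ × ℝ × ℝ × ℝ × ℝ => p.2.2.2.1 := by fun_prop
  have c5 : Continuous fun p : ℝ × ℝ × ℝ × ℝ × ℝ × ℝ => p.2.2.2.2.1 := by fun_prop
  have c6 : Continuous fun p : ℝ × ℝ × ℝ × ℝ × ℝ × ℝ => p.2.2.2.2.2 := by fun_prop
  have c0 : Continuous fun _ : ℝ × ℝ × ℝ × ℝ × ℝ × ℝ => (0 : ℝ) := continuous_const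
  have ce : Continuous fun _ : ℝ × ℝ × ℝ × ℝ × ℝ × ℝ => ε := continuous_const
  have ce' : Continuous fun _ : ℝ × ℝ × ℝ × ℝ × ℝ × ℝ => η - ε := continuous_const
  have cc : Continuous fun _ : ℝ × ℝ × ℝ × ℝ × ℝ × ℝ => (1 : ℝ) := continuous_const
  exact ((isClosed_le c0 c1).inter (isClosed_le c1 cc)).inter
    ((isClosed_le c1 c2).inter ((isClosed_le c2 c1').inter ((isClosed_le h1 ce).inter
    (((isClosed_le c1 c3).inter (isClosed_le c3 c2)).inter
    (((isClosed_le c1 c4).inter (isClosed_le c4 c2)).inter ((isClosed_le ce' h2).inter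
    (((isClosed_le c2 c5).inter (isClosed_le c5 c1')).inter
    (((isClosed_le c2 c6).inter (isClosed_le c6 c1')).inter (isClosed_le ce' h3)))))))))

theorem isCompact_Apx (γ : Loop) (η ε : ℝ) : IsCompact (Apx γ η ε) := by
  have hK : IsCompact (Icc (0 : ℝ) 2 ×ˢ (Icc (0 : ℝ) 2 ×ˢ (Icc (0 : ℝ) 2 ×ˢ (Icc (0 : ℝ) 2 ×ˢ
      (Icc (0 : ℝ) 2 ×ˢ Icc (0 : ℝ) 2))))) :=
    isCompact_Icc.prod (isCompact_Icc.prod (isCompact_Icc.prod (isCompact_Icc.prod
      (isCompact_Icc.prod isCompact_Icc))))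
  refine hK.of_isClosed_subset (isClosed_Apx γ η ε) ?_
  rintro ⟨a, b, c, d, e, f⟩ ⟨⟨h1, h1'⟩, h2, h3, -, ⟨h4, h4'⟩, ⟨h5, h5'⟩, -, ⟨h6, h6'⟩, ⟨h7, h7'⟩, -⟩
  simp only at h1 h1' h2 h3 h4 h4' h5 h5' h6 h6' h7 h7'
  simp only [mem_prod, mem_Icc]
  refine ⟨⟨?_, ?_⟩, ⟨?_, ?_⟩, ⟨?_, ?_⟩, ⟨?_, ?_⟩, ⟨?_, ?_⟩, ?_, ?_⟩ <;> linarith

theorem nonempty_Apx {γ : Loop} {η ε : ℝ} (hε : 0 < ε) (h : γ ∈ closure (Dbl η)) :
    (Apx γ η ε).Nonempty := by
  obtain ⟨γ', ⟨s, t, hst, hts, he, ⟨x, hx, y, hy, hxy⟩, u, hu, v, hv, huv⟩, hd⟩ :=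
    Metric.mem_closure_iff.1 h (ε / 2) (by linarith)
  obtain ⟨r, hr⟩ := exists_rep hd
  have hs := r.symm
  -- pull back the parameters
  have key : ∀ w, dist (γ.f (r.φ.symm w)) (γ'.f w) < ε / 2 := by
    intro w
    have := hr (r.φ.symm w)
    rwa [r.φ.apply_symm_apply] at this
  have h1 : r.φ.symm (s + 1) = r.φ.symm s + 1 := r.symm.per s
  set k : ℤ := ⌊r.φ.symm s⌋ with hk
  have hmono : ∀ {p p' : ℝ}, p ≤ p' → r.φ.symm p ≤ r.φ.symm p' := fun hp =>
    r.φ.symm.monotone hp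
  have hsh : ∀ w, γ.f (r.φ.symm w - k) = γ.f (r.φ.symm w) := by
    intro w
    have := γ.per_int (r.φ.symm w - k) k
    rw [sub_add_cancel] at this
    exact this.symm
  have hdist : ∀ p p', dist (γ'.f p) (γ'.f p') - ε ≤
      dist (γ.f (r.φ.symm p - k)) (γ.f (r.φ.symm p' - k)) := by
    intro p p'
    rw [hsh, hsh]
    have e1 := key p
    have e2 := key p'
    have e3 := dist_triangle4 (γ'.f p) (γ.f (r.φ.symm p)) (γ.f (r.φ.symm p')) (γ'.f p')
    rw [dist_comm] at e1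
    linarith
  refine ⟨(r.φ.symm s - k, r.φ.symm t - k, r.φ.symm x - k, r.φ.symm y - k, r.φ.symm u - k,
    r.φ.symm v - k), ⟨?_, ?_⟩, ?_, ?_, ?_, ⟨?_, ?_⟩, ⟨?_, ?_⟩, ?_, ⟨?_, ?_⟩, ⟨?_, ?_⟩, ?_⟩
  · have := Int.floor_le (r.φ.symm s)
    simp only
    linarith
  · have := (Int.lt_floor_add_one (r.φ.symm s)).le
    simp only
    linarith
  · exact sub_le_sub_right (hmono hst) _
  · have := hmono hts
    rw [h1] at this
    simp only
    linarith
  · simp only
    rw [hsh, hsh]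
    have e1 := key s
    have e2 := key t
    have e3 := dist_triangle4 (γ.f (r.φ.symm s)) (γ'.f s) (γ'.f t) (γ.f (r.φ.symm t))
    rw [he, dist_self, dist_comm (γ'.f t) (γ.f (r.φ.symm t))] at e3
    rw [he] at e1
    linarith
  · exact sub_le_sub_right (hmono hx.1) _
  · exact sub_le_sub_right (hmono hx.2) _
  · exact sub_le_sub_right (hmono hy.1) _
  · exact sub_le_sub_right (hmono hy.2) _
  · exact (sub_le_sub_right hxy ε).trans (hdist x y)
  · exact sub_le_sub_right (hmono hu.1) _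
  · have := hmono hu.2
    rw [h1] at this
    simp only
    linarith
  · exact sub_le_sub_right (hmono hv.1) _
  · have := hmono hv.2
    rw [h1] at this
    simp only
    linarith
  · exact (sub_le_sub_right huv ε).trans (hdist u v)

/-- The class of curves with a macroscopic double point is closed. -/
theorem isClosed_Dbl (η : ℝ) : IsClosed (Dbl η) := by
  rw [← closure_subset_iff_isClosed]
  intro γ hγ
  have hmono : ∀ i : ℕ, Apx γ η (1 / ((i + 1 : ℕ) + 1)) ⊆ Apx γ η (1 / ((i : ℕ) + 1)) := by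
    intro i p hp
    have hle : (1 : ℝ) / (((i + 1 : ℕ) : ℝ) + 1) ≤ 1 / ((i : ℝ) + 1) := by
      apply one_div_le_one_div_of_le (by positivity)
      push_cast
      linarith
    obtain ⟨h1, h2, h3, h4, h5, h6, h7, h8, h9, h10⟩ := hp
    exact ⟨h1, h2, h3, h4.trans hle, h5, h6, by linarith, h8, h9, by linarith⟩
  obtain ⟨p, hp⟩ := IsCompact.nonempty_iInter_of_sequence_nonempty_isCompact_isClosed
    (fun i : ℕ => Apx γ η (1 / ((i : ℕ) + 1))) hmono
    (fun i => nonempty_Apx (by positivity) hγ) (isCompact_Apx _ _ _) (fun i => isClosed_Apx _ _ _)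
  rw [mem_iInter] at hp
  have hlim : Tendsto (fun i : ℕ => (1 : ℝ) / ((i : ℝ) + 1)) atTop (𝓝 0) :=
    tendsto_one_div_add_atTop_nhds_zero_nat
  obtain ⟨h1, h2, h3, -, h5, h6, -, h8, h9, -⟩ := hp 0
  have h4 : dist (γ.f p.1) (γ.f p.2.1) ≤ 0 := ge_of_tendsto' hlim fun i => (hp i).2.2.2.1
  have h7 : η - 0 ≤ dist (γ.f p.2.2.1) (γ.f p.2.2.2.1) :=
    le_of_tendsto' (hlim.const_sub η) fun i => (hp i).2.2.2.2.2.2.1
  have h10 : η - 0 ≤ dist (γ.f p.2.2.2.2.1) (γ.f p.2.2.2.2.2) :=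
    le_of_tendsto' (hlim.const_sub η) fun i => (hp i).2.2.2.2.2.2.2.2.2
  rw [sub_zero] at h7 h10
  exact ⟨p.1, p.2.1, h2, h3, dist_le_zero.1 h4, ⟨_, h5, _, h6, h7⟩, _, h8, _, h9, h10⟩

theorem not_selfAvoiding_of_mem_Dbl {γ : Loop} {η : ℝ} (hη : 0 < η) (h : γ ∈ Dbl η) :
    ¬ SelfAvoiding γ := by
  rintro ⟨γ', h0, hinj⟩
  have h1 : γ' ∈ Dbl η := by
    rw [← (isClosed_Dbl η).closure_eq, Metric.mem_closure_iff]
    intro ε hε
    exact ⟨γ, h, by rw [dist_comm, h0]; exact hε⟩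
  obtain ⟨s, t, hst, hts, he, ⟨x, hx, y, hy, hxy⟩, u, hu, v, hv, huv⟩ := h1
  obtain ⟨k, hk⟩ := hinj s t he
  have hk0 : (0 : ℝ) ≤ k := by linarith
  have hk1 : (k : ℝ) ≤ 1 := by linarith
  have hk0' : 0 ≤ k := by exact_mod_cast hk0
  have hk1' : k ≤ 1 := by exact_mod_cast hk1
  have hk2 : k = 0 ∨ k = 1 := by omega
  rcases hk2 with rfl | rfl
  · rw [Int.cast_zero, add_zero] at hk
    subst hk
    have e1 : x = t := le_antisymm hx.2 hx.1
    have e2 : y = t := le_antisymm hy.2 hy.1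
    rw [e1, e2, dist_self] at hxy
    linarith
  · rw [Int.cast_one] at hk
    subst hk
    have e1 : u = s + 1 := le_antisymm hu.2 hu.1
    have e2 : v = s + 1 := le_antisymm hv.2 hv.1
    rw [e1, e2, dist_self] at huv
    linarith

end Loop

end Pool.Agent.PercD

end PartpercDCurve

section PartpercDPoly

/-!
# Closed polygons
-/

set_option autoImplicit false

namespace Pool.Agent.PercD

open Set Filter Topology

theorem poly_int (V : ℤ → ℂ) (k : ℤ) : poly V k = V k := by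
  rw [poly_eq V k ⟨le_rfl, by linarith⟩]
  simp

theorem poly_mem_segment (V : ℤ → ℂ) (t : ℝ) :
    poly V t ∈ segment ℝ (V ⌊t⌋) (V (⌊t⌋ + 1)) := by
  rw [segment_eq_image']
  exact ⟨Int.fract t, ⟨Int.fract_nonneg t, (Int.fract_lt_one t).le⟩, rfl⟩

theorem exists_poly_eq {V : ℤ → ℂ} {k : ℤ} {z : ℂ} (h : z ∈ segment ℝ (V k) (V (k + 1))) :
    ∃ t ∈ Icc (k : ℝ) (k + 1), poly V t = z := by
  rw [segment_eq_image'] at h
  obtain ⟨s, ⟨h1, h2⟩, rfl⟩ := h
  have ht : (k : ℝ) + s ∈ Icc (k : ℝ) (k + 1) := ⟨by linarith, by linarith⟩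
  refine ⟨k + s, ht, ?_⟩
  rw [poly_eq V k ht]
  simp

theorem range_poly (V : ℤ → ℂ) : range (poly V) = ⋃ k, segment ℝ (V k) (V (k + 1)) := by
  ext z
  simp only [mem_range, mem_iUnion]
  constructor
  · rintro ⟨t, rfl⟩
    exact ⟨_, poly_mem_segment V t⟩
  · rintro ⟨k, hk⟩
    obtain ⟨t, -, ht⟩ := exists_poly_eq hk
    exact ⟨t, ht⟩

variable {V : ℤ → ℂ} {p : ℕ} {h : ∀ j, V (j + p) = V j}

theorem polyLoop_f (t : ℝ) : (polyLoop V p h).f t = poly V (p * t) := rfl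

theorem range_polyLoop (hp : 0 < p) :
    range (polyLoop V p h).f = ⋃ k, segment ℝ (V k) (V (k + 1)) := by
  rw [← range_poly]
  have hp' : (p : ℝ) ≠ 0 := by positivity
  ext z
  constructor
  · rintro ⟨t, rfl⟩
    exact ⟨_, rfl⟩
  · rintro ⟨t, rfl⟩
    refine ⟨t / p, ?_⟩
    rw [polyLoop_f]
    congr 1
    field_simp

/-- Starting the closed polygon at another point does not change the curve. -/
theorem dist_polyLoop_shift (hp : 0 < p) {W : ℤ → ℂ} {h' : ∀ j, W (j + p) = W j} (i : ℤ)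
    (hW : ∀ j, W j = V (j + i)) : dist (polyLoop V p h) (polyLoop W p h') = 0 := by
  have hp' : (p : ℝ) ≠ 0 := by positivity
  refine le_antisymm ?_ dist_nonneg
  refine Loop.dist_le ⟨OrderIso.addRight (-(i : ℝ) / p), fun t => ?_⟩ fun t => ?_
  · simp only [OrderIso.addRight_apply]
    ring
  · simp only [OrderIso.addRight_apply]
    rw [polyLoop_f, polyLoop_f]
    have h1 : W = fun j => V (j + i) := funext hW
    rw [h1, ← poly_shift]
    have h2 : (p : ℝ) * (t + -(i : ℝ) / p) + i = p * t := by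
      field_simp
      ring
    rw [h2, dist_self]

/-- Two visits of a point with far points on both arcs. -/
theorem polyLoop_mem_Dbl (hp : 0 < p) {η : ℝ} {i j a b : ℤ} (hia : i ≤ a) (haj : a ≤ j)
    (hjb : j ≤ b) (hbi : b ≤ i + p) (hij : V i = V j) (ha : η ≤ dist (V i) (V a))
    (hb : η ≤ dist (V i) (V b)) : polyLoop V p h ∈ Loop.Dbl η := by
  have hp' : (0 : ℝ) < p := by positivity
  have hv : ∀ k : ℤ, (polyLoop V p h).f ((k : ℝ) / p) = V k := by
    intro k
    rw [polyLoop_f, mul_div_cancel₀ _ hp'.ne', poly_int]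
  have hle : ∀ {k l : ℤ}, k ≤ l → (k : ℝ) / p ≤ (l : ℝ) / p := by
    intro k l hkl
    gcongr
  have h1 : (i : ℝ) / p + 1 = ((i + p : ℤ) : ℝ) / p := by
    push_cast
    field_simp
  refine ⟨(i : ℝ) / p, (j : ℝ) / p, hle (hia.trans haj), ?_, ?_, ?_, ?_⟩
  · rw [h1]; exact hle (hjb.trans hbi)
  · rw [hv, hv, hij]
  · refine ⟨(i : ℝ) / p, ⟨le_rfl, hle (hia.trans haj)⟩, (a : ℝ) / p, ⟨hle hia, hle haj⟩, ?_⟩
    rw [hv, hv]; exact ha
  · rw [h1]
    refine ⟨(j : ℝ) / p, ⟨le_rfl, hle (hjb.trans hbi)⟩, (b : ℝ) / p, ⟨hle hjb, hle hbi⟩, ?_⟩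
    rw [hv, hv, ← hij]; exact hb

end Pool.Agent.PercD

end PartpercDPoly
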