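import Pool.Agent.Lib.MP_6bd702_z.Z006
import Pool.Agent.Lib.MP_6bd702_z.Z002
import Pool.Agent.Lib.MP_6bd702_z.BoxDefs
import Pool.Agent.Lib.MP_6bd702_z.Z001

section PartpercDFrontier

/-!
# The trace of the closed curve is the boundary of the unbounded component
-/

set_option autoImplicit false

namespace Pool.Agent.PercD

open Set Filter Topology TopologicalSpace
open Pool.Agent.MP_6bd702.H23 Pool.Agent.MP_6bd702.H60 Pool.Agent.PercU Pool.Agent.Perc
open Pool.Agent.PercO Pool.Agent.Perc.PercD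

variable {n : ℕ} {T : Finset Edg} {u : ℤ × ℤ}

/-- A point near `z` in an open face: `z` is in the closed face. -/
theorem exists_near (z : ℂ) : ∃ ε > 0, ∀ (w : ℂ) (f : ℤ × ℤ), |w.re - z.re| < ε →
    |w.im - z.im| < ε → w ∈ faceO f →
      ((f.1 : ℝ) ≤ z.re ∧ z.re ≤ f.1 + 1) ∧ (f.2 : ℝ) ≤ z.im ∧ z.im ≤ f.2 + 1 := by
  have key : ∀ x : ℝ, ∃ ε > 0, ∀ (y : ℝ) (a : ℤ), |y - x| < ε → (a : ℝ) < y → y < a + 1 →
      (a : ℝ) ≤ x ∧ x ≤ a + 1 := by
    intro x
    have h1 : x < ⌊x⌋ + 1 := Int.lt_floor_add_one x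
    have h2 : (⌈x⌉ : ℝ) - 1 < x := by linarith [Int.ceil_lt_add_one x]
    refine ⟨min (⌊x⌋ + 1 - x) (x - (⌈x⌉ - 1)), lt_min (by linarith) (by linarith), ?_⟩
    intro y a h3 h4 h5
    have h6 := h3.trans_le (min_le_left _ _)
    have h7 := h3.trans_le (min_le_right _ _)
    rw [abs_lt] at h6 h7
    constructor
    · by_contra hc
      rw [not_le] at hc
      have h8 : ⌊x⌋ < a := Int.floor_lt.2 hc
      have h9 : (⌊x⌋ : ℝ) + 1 ≤ a := by exact_mod_cast h8
      linarith
    · by_contra hc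
      rw [not_le] at hc
      have h8 : a + 1 < ⌈x⌉ := Int.lt_ceil.2 (by push_cast; exact hc)
      have h9 : (a : ℝ) + 1 + 1 ≤ ⌈x⌉ := by exact_mod_cast h8
      linarith
  obtain ⟨ε1, h1, k1⟩ := key z.re
  obtain ⟨ε2, h2, k2⟩ := key z.im
  refine ⟨min ε1 ε2, lt_min h1 h2, ?_⟩
  rintro w f h3 h4 ⟨h5, h6, h7, h8⟩
  exact ⟨k1 _ _ (h3.trans_le (min_le_left _ _)) h5 h6,
    k2 _ _ (h4.trans_le (min_le_right _ _)) h7 h8⟩

/-- Near a boundary point there is an outer face. -/
theorem exists_face {z : ℂ} (hz : z ∈ closure (outU T u)) : ∃ f : ℤ × ℤ, Outer T u f ∧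
    ((f.1 : ℝ) ≤ z.re ∧ z.re ≤ f.1 + 1) ∧ (f.2 : ℝ) ≤ z.im ∧ z.im ≤ f.2 + 1 := by
  obtain ⟨ε, hε, h⟩ := exists_near z
  obtain ⟨z1, hz1, hd1⟩ := Metric.mem_closure_iff.1 hz (ε / 2) (by positivity)
  -- a point of the open set off all lattice lines
  have e1 : |z1.re - z.re| < ε / 2 := by
    have := (Complex.abs_re_le_norm (z - z1)).trans_lt (by rwa [dist_eq_norm] at hd1)
    rw [abs_sub_comm]; simpa using this
  have e2 : |z1.im - z.im| < ε / 2 := by
    have := (Complex.abs_im_le_norm (z - z1)).trans_lt (by rwa [dist_eq_norm] at hd1)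
    rw [abs_sub_comm]; simpa using this
  obtain ⟨δ, hδ, hball⟩ := Metric.isOpen_iff.1 (isOpen_outU T u) z1 hz1
  set t : ℝ := min (min ((⌊z1.re⌋ + 1 - z1.re) / 2) ((⌊z1.im⌋ + 1 - z1.im) / 2))
    (min (δ / 4) (ε / 4)) with ht
  have f1 := Int.lt_floor_add_one z1.re
  have f2 := Int.lt_floor_add_one z1.im
  have f1' := Int.floor_le z1.re
  have f2' := Int.floor_le z1.im
  have ht0 : 0 < t := lt_min (lt_min (by linarith) (by linarith)) (by positivity)
  have ht1 : t ≤ (⌊z1.re⌋ + 1 - z1.re) / 2 := (min_le_left _ _).trans (min_le_left _ _)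
  have ht2 : t ≤ (⌊z1.im⌋ + 1 - z1.im) / 2 := (min_le_left _ _).trans (min_le_right _ _)
  have ht3 : t ≤ δ / 4 := (min_le_right _ _).trans (min_le_left _ _)
  have ht4 : t ≤ ε / 4 := (min_le_right _ _).trans (min_le_right _ _)
  set z2 : ℂ := z1 + (t + t * Complex.I) with hz2
  have r1 : z2.re = z1.re + t := by simp [hz2]
  have r2 : z2.im = z1.im + t := by simp [hz2]
  have hm : z2 ∈ outU T u := by
    apply hball
    rw [Metric.mem_ball, dist_eq_norm]
    have : z2 - z1 = (t : ℂ) + t * Complex.I := by rw [hz2]; ring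
    rw [this]
    refine (Complex.norm_le_abs_re_add_abs_im _).trans_lt ?_
    simp
    rw [abs_of_pos ht0]; linarith
  have hf : z2 ∈ faceO (⌊z1.re⌋, ⌊z1.im⌋) := by
    refine ⟨?_, ?_, ?_, ?_⟩
    · rw [r1]; simp only; linarith
    · rw [r1]; simp only; linarith
    · rw [r2]; simp only; linarith
    · rw [r2]; simp only; linarith
  refine ⟨_, (mem_outU_face hf).1 hm, h z2 _ ?_ ?_ hf⟩
  · rw [r1]
    have : |z1.re + t - z.re| ≤ |z1.re - z.re| + |t| := by
      rw [show z1.re + t - z.re = (z1.re - z.re) + t by ring]; exact abs_add_le _ _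
    rw [abs_of_pos ht0] at this
    linarith
  · rw [r2]
    have : |z1.im + t - z.im| ≤ |z1.im - z.im| + |t| := by
      rw [show z1.im + t - z.im = (z1.im - z.im) + t by ring]; exact abs_add_le _ _
    rw [abs_of_pos ht0] at this
    linarith

/-- The corner given by a vertex and a face. -/
theorem exists_cor_of_cases {w f : ℤ × ℤ} (h1 : w.1 = f.1 ∨ w.1 = f.1 + 1)
    (h2 : w.2 = f.2 ∨ w.2 = f.2 + 1) : ∃ k : Cor, vtx k = w ∧ fce k = f := by
  obtain ⟨a, b⟩ := w
  obtain ⟨c, d⟩ := f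
  simp only at h1 h2
  rcases h1 with rfl | rfl <;> rcases h2 with rfl | rfl
  · exact ⟨(_, _, true, true), rfl, rfl⟩
  · exact ⟨(_, _, true, false), rfl, by simp [fce]⟩
  · exact ⟨(_, _, false, true), rfl, by simp [fce]⟩
  · exact ⟨(_, _, false, false), rfl, by simp [fce]⟩

theorem int_cases {a b : ℤ} (h1 : (b : ℝ) ≤ a) (h2 : (a : ℝ) ≤ b + 1) : a = b ∨ a = b + 1 := by
  have h3 : b ≤ a := by exact_mod_cast h1
  have h4 : a ≤ b + 1 := by exact_mod_cast h2
  omega

theorem tl_hd {e : Edg} (he : e ∈ T) : tl e ∈ clV T u ↔ hd e ∈ clV T u :=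
  ⟨fun h => h.tail ⟨e, he, Or.inl ⟨rfl, rfl⟩⟩, fun h => h.tail ⟨e, he, Or.inr ⟨rfl, rfl⟩⟩⟩

/-- The corner `k` runs along the edge `e`. -/
theorem seg_of_qry {k : Cor} {e : Edg} (he : e ∈ T) (hk : qry k = e) :
    segment ℝ (toC (vtx k)) (toC (vtx (nxt (T : Set Ed) k))) = segment ℝ (toC (tl e)) (toC (hd e)) := by
  have h : qry k ∈ (T : Set Ed) := by rw [hk]; exact he
  rw [nxt_of_mem h]
  rcases ends_qry k with ⟨h1, h2⟩ | ⟨h1, h2⟩
  · rw [← h1, ← h2, hk]; rfl
  · rw [← h1, ← h2, hk, segment_symm]; rfl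

theorem mem_curve_of_edge {e : Edg} (he : e ∈ T) (hcl : tl e ∈ clV T u) {b : Bool}
    (ho : Outer T u (side e b)) {z : ℂ} (hz : z ∈ segment ℝ (toC (tl e)) (toC (hd e))) :
    ∃ k : Cor, vtx k ∈ clV T u ∧ Outer T u (fce k) ∧
      z ∈ segment ℝ (toC (vtx k)) (toC (vtx (nxt (T : Set Ed) k))) := by
  cases b
  · refine ⟨c1 e, ?_, ?_, ?_⟩
    · rcases vtx_c1 e with h | h
      · rw [h]; exact hcl
      · rw [h]; exact (tl_hd he).1 hcl
    · rw [fce_c1]; exact ho
    · rw [seg_of_qry he (qry_c1 e)]; exact hz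
  · refine ⟨c2 e, ?_, ?_, ?_⟩
    · rcases vtx_c2 e with h | h
      · rw [h]; exact hcl
      · rw [h]; exact (tl_hd he).1 hcl
    · rw [fce_c2]; exact ho
    · rw [seg_of_qry he (qry_c2 e)]; exact hz

/-- The boundary of the unbounded component of the complement of a cluster. -/
theorem frontier_outU_eq : frontier (outU T u) = {z | ∃ k : Cor, vtx k ∈ clV T u ∧
    Outer T u (fce k) ∧ z ∈ segment ℝ (toC (vtx k)) (toC (vtx (nxt (T : Set Ed) k)))} := by
  ext z
  constructor
  · intro hz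
    obtain ⟨f, hf, ⟨g1, g2⟩, g3, g4⟩ := exists_face (frontier_subset_closure hz)
    have vcase : ∀ w ∈ clV T u, toC w = z → ∃ k : Cor, vtx k ∈ clV T u ∧
        Outer T u (fce k) ∧ z ∈ segment ℝ (toC (vtx k)) (toC (vtx (nxt (T : Set Ed) k))) := by
      rintro w hw rfl
      rw [PercC.toC_re] at g1 g2
      rw [PercC.toC_im] at g3 g4
      obtain ⟨k, rfl, hk2⟩ := exists_cor_of_cases (int_cases g1 g2) (int_cases g3 g4)
      exact ⟨k, hw, by rw [hk2]; exact hf, left_mem_segment _ _ _⟩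
    have hzs := frontier_outU_sub T u hz
    rcases hzs with ⟨w, hw, hwz⟩ | hzs
    · exact vcase w hw hwz
    · simp only [mem_iUnion, exists_prop] at hzs
      obtain ⟨⟨a, b, c⟩, he, hcl, hseg⟩ := hzs
      cases c with
      | false =>
        obtain ⟨h1, h2, h3⟩ := PercC.mem_seg_false.1 (show z ∈ PercC.seg (a, b, false) from hseg)
        rw [h1] at g3 g4
        by_cases ha : f.1 = a
        · rcases int_cases g3 g4 with h4 | h4
          · refine mem_curve_of_edge he hcl (b := true) ?_ hseg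
            have : side (a, b, false) true = f := Prod.ext ha.symm h4
            rw [this]; exact hf
          · refine mem_curve_of_edge he hcl (b := false) ?_ hseg
            have : side (a, b, false) false = f := by
              refine Prod.ext ha.symm ?_
              change b - 1 = f.2
              omega
            rw [this]; exact hf
        · -- a lattice point
          rcases lt_or_gt_of_ne ha with h4 | h4
          · have h5 : (f.1 : ℝ) + 1 ≤ a := by exact_mod_cast h4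
            refine vcase (a, b) hcl (Complex.ext ?_ ?_)
            · rw [PercC.toC_re]; simp only; linarith
            · rw [PercC.toC_im]; exact h1.symm
          · have h5 : (a : ℝ) + 1 ≤ f.1 := by exact_mod_cast h4
            refine vcase (a + 1, b) ((tl_hd he).1 hcl) (Complex.ext ?_ ?_)
            · rw [PercC.toC_re]; push_cast; linarith
            · rw [PercC.toC_im]; exact h1.symm
      | true =>
        obtain ⟨h1, h2, h3⟩ := PercC.mem_seg_true.1 (show z ∈ PercC.seg (a, b, true) from hseg)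
        rw [h1] at g1 g2
        by_cases hb : f.2 = b
        · rcases int_cases g1 g2 with h4 | h4
          · refine mem_curve_of_edge he hcl (b := true) ?_ hseg
            have : side (a, b, true) true = f := Prod.ext h4 hb.symm
            rw [this]; exact hf
          · refine mem_curve_of_edge he hcl (b := false) ?_ hseg
            have : side (a, b, true) false = f := by
              refine Prod.ext ?_ hb.symm
              change a - 1 = f.1
              omega
            rw [this]; exact hf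
        · rcases lt_or_gt_of_ne hb with h4 | h4
          · have h5 : (f.2 : ℝ) + 1 ≤ b := by exact_mod_cast h4
            refine vcase (a, b) hcl (Complex.ext ?_ ?_)
            · rw [PercC.toC_re]; exact h1.symm
            · rw [PercC.toC_im]; simp only; linarith
          · have h5 : (b : ℝ) + 1 ≤ f.2 := by exact_mod_cast h4
            refine vcase (a, b + 1) ((tl_hd he).1 hcl) (Complex.ext ?_ ?_)
            · rw [PercC.toC_re]; exact h1.symm
            · rw [PercC.toC_im]; push_cast; linarith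
  · rintro ⟨k, h1, h2, h3⟩
    have hcorner : ∀ k' : Cor, fce k' = fce k → toC (vtx k') ∈ closure (faceO (fce k)) := by
      intro k' hk'
      rw [← hk']
      apply corner_mem_closure
      · obtain ⟨x, y, _ | _, _ | _⟩ := k' <;> simp [vtx, fce]
      · obtain ⟨x, y, _ | _, _ | _⟩ := k' <;> simp [vtx, fce]
    have hconv : Convex ℝ (closure (faceO (fce k))) := (convex_faceO _).closure
    have hout : faceO (fce k) ⊆ outU T u := fun z hz => (mem_outU_face hz).2 h2
    rw [(isOpen_outU T u).frontier_eq]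
    by_cases hq : qry k ∈ (T : Set Ed)
    · have h4 : z ∈ closure (faceO (fce k)) := by
        rw [nxt_of_mem hq] at h3
        exact hconv.segment_subset (hcorner k rfl) (hcorner _ (fce_adv k)) h3
      refine ⟨closure_mono hout h4, ?_⟩
      apply not_mem_outU
      rw [seg_of_qry hq rfl] at h3
      refine Or.inr (mem_iUnion₂.2 ⟨qry k, hq, mem_iUnion.2 ⟨?_, h3⟩⟩)
      rcases ends_qry k with ⟨h5, -⟩ | ⟨-, h5⟩
      · change ea (qry k) ∈ _
        rw [h5]; exact h1
      · refine (tl_hd hq).2 ?_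
        change eb (qry k) ∈ _
        rw [h5]; exact h1
    · rw [nxt_of_notMem hq, vtx_rot, segment_same, mem_singleton_iff] at h3
      subst h3
      exact ⟨closure_mono hout (hcorner k rfl), not_mem_outU (toC_mem_clS h1)⟩

theorem segment_div (n : ℕ) (a b : ℂ) :
    segment ℝ (a / n) (b / n) = (fun z : ℂ => z / n) '' segment ℝ a b := by
  have h := image_segment ℝ ((LinearMap.mulRight ℝ ((n : ℂ)⁻¹)).toAffineMap) a b
  simp only [LinearMap.coe_toAffineMap, LinearMap.mulRight_apply] at h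
  simp only [div_eq_mul_inv]
  exact h.symm

/-- The trace of the closed curve is the rescaled outer perimeter. -/
theorem trace_outerLoop (hT : T ⊆ boxE n) : (outerLoop n T u).trace = perK n T u := by
  apply NonemptyCompacts.ext
  have h : (perK n T u : Set ℂ) = (fun z : ℂ => z / n) '' frontier (outU T u) := rfl
  rw [h, frontier_outU_eq]
  ext z
  rw [mem_trace_iff hT]
  simp only [segment_div, mem_image, mem_ofPred_eq]
  constructor
  · rintro ⟨k, h1, h2, w, hw, rfl⟩
    exact ⟨w, ⟨k, h1, h2, hw⟩, rfl⟩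
  · rintro ⟨w, ⟨k, h1, h2, hw⟩, rfl⟩
    exact ⟨k, h1, h2, w, hw, rfl⟩

end Pool.Agent.PercD

end PartpercDFrontier

section PartpercwTargets

/-!
# Targets of the parts U and W (statements only)
-/

set_option autoImplicit false

namespace Pool.Agent.Perc

open Finset Filter Topology

/-- `sel` chooses for every configuration of the box a vertex of a cluster of largest Euclidean
diameter. -/
def IsSel (n : ℕ) (sel : Finset Edg → ℤ × ℤ) : Prop :=
  ∀ T ⊆ boxE n, sel T ∈ Box n ∧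
    ∀ v ∈ Box n, Metric.diam (clS T v) ≤ Metric.diam (clS T (sel T))

/-- Target E: the expectation is of the order `n ^ (7 / 4)`. -/
def TargetE : Prop := ∃ c C : ℝ, 0 < c ∧ ∀ n : ℕ, 1 ≤ n → ∀ sel : Finset Edg → ℤ × ℤ,
  IsSel n sel →
    c * (n : ℝ) ^ (7 / 4 : ℝ) ≤ exB n (fun T => (perim T (sel T) : ℝ)) ∧
    exB n (fun T => (perim T (sel T) : ℝ)) ≤ C * (n : ℝ) ^ (7 / 4 : ℝ)

/-- Target W: the weak form of the problem file. -/
def TargetW : Prop := ∀ ε : ℝ, 0 < ε → ∀ sel : ℕ → Finset Edg → ℤ × ℤ, (∀ n, IsSel n (sel n)) →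
  Tendsto (fun n : ℕ => prB n {T | (n : ℝ) ^ (7 / 4 - ε) < (perim T (sel n T) : ℝ) ∧
    (perim T (sel n T) : ℝ) < (n : ℝ) ^ (7 / 4 + ε)}) atTop (𝓝 1)

end Pool.Agent.Perc

end PartpercwTargets

section PartpercDTargets

/-!
# Part D: the finite volume estimates (statements) and the trace target
-/

set_option autoImplicit false

namespace Pool.Agent.Perc

open Filter Topology MeasureTheory TopologicalSpace

/-- `v` is a vertex of the box at distance at least `r` from its boundary. -/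
def Bulk (n : ℕ) (r : ℝ) (v : ℤ × ℤ) : Prop :=
  r ≤ v.1 ∧ (v.1 : ℝ) ≤ n - r ∧ r ≤ v.2 ∧ (v.2 : ℝ) ≤ n - r

/-- B1: a small box is rarely met by the outer perimeter of a large cluster. -/
def TargetB1 : Prop := ∀ k₀ : ℝ, 0 < k₀ → ∃ C : ℝ, ∀ n : ℕ, 1 ≤ n → ∀ v : ℤ × ℤ, ∀ d w : ℝ,
  1 ≤ d → d ≤ w → w ≤ k₀ * n / 16 → Bulk n (2 * w) v →
    prB n {T | ∃ u, k₀ * n ≤ Metric.diam (clS T u) ∧
      ∃ x ∈ OutV T u, |(x.1 : ℝ) - v.1| ≤ d ∧ |(x.2 : ℝ) - v.2| ≤ d} ≤ C * (d / w) ^ (1 / 4 : ℝ)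

/-- B2: the two point function in the bulk. -/
def TargetB2 : Prop := ∀ κ k₀ : ℝ, 0 < κ → 0 < k₀ → ∃ C : ℝ, ∀ n : ℕ, 1 ≤ n → ∀ v w : ℤ × ℤ,
  Bulk n (κ * n) v → Bulk n (κ * n) w →
    prB n {T | ∃ u, k₀ * n ≤ Metric.diam (clS T u) ∧ v ∈ OutV T u ∧ w ∈ OutV T u} ≤
      C * ((1 + dist (toC v) (toC w)) * n) ^ (-(1 / 4) : ℝ)

/-- B3: with high probability the outer perimeter of the largest cluster has many vertices in the
bulk. -/
def TargetB3 : Prop := ∀ ε : ℝ, 0 < ε → ∃ κ k₀ c : ℝ, 0 < κ ∧ 0 < k₀ ∧ 0 < c ∧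
  ∀ sel : ℕ → Finset Edg → ℤ × ℤ, (∀ n, IsSel n (sel n)) → ∀ᶠ n : ℕ in atTop,
    prB n {T | ¬ (k₀ * n ≤ Metric.diam (clS T (sel n T)) ∧
      c * (n : ℝ) ^ (7 / 4 : ℝ) ≤ ({v | v ∈ OutV T (sel n T) ∧ Bulk n (κ * n) v}).ncard)} ≤ ε

/-- Weak convergence of the laws of the rescaled outer perimeters along `φ` to `ν`. -/
def LimitLaw [MeasurableSpace (NonemptyCompacts ℂ)] (sel : ℕ → Finset Edg → ℤ × ℤ) (φ : ℕ → ℕ)
    (ν : Measure (NonemptyCompacts ℂ)) : Prop :=
  ∀ F : BoundedContinuousFunction (NonemptyCompacts ℂ) ℝ,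
    Tendsto (fun k => exB (φ k) fun T => F (perK (φ k) T (sel (φ k) T))) atTop (𝓝 (∫ K, F K ∂ν))

/-- Target D at the level of the traces: almost surely for every subsequential limit law the
Hausdorff dimension is `7 / 4`. -/
def TargetTrace : Prop := ∀ [MeasurableSpace (NonemptyCompacts ℂ)] [BorelSpace (NonemptyCompacts ℂ)]
  (sel : ℕ → Finset Edg → ℤ × ℤ) (φ : ℕ → ℕ) (ν : Measure (NonemptyCompacts ℂ))
  [IsProbabilityMeasure ν], (∀ n, IsSel n (sel n)) → StrictMono φ → LimitLaw sel φ ν →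
    ∀ᵐ K : NonemptyCompacts ℂ ∂ν, dimH (K : Set ℂ) = 7 / 4

end Pool.Agent.Perc

end PartpercDTargets
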