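import Pool.Agent.Lib.MP_6bd702_z.Z015
import Pool.Agent.Lib.MP_6bd702_z.Z007

/-!
# The number of distinct edges of the outer perimeter

`perim` counts the steps of the closed lattice path which traces the boundary of the unbounded
component (an edge with both sides in the unbounded component is traversed twice); `perimE` counts
the distinct edges.
-/

set_option autoImplicit false

namespace Pool.Agent.Perc

open Finset Filter Topology

open Classical in
/-- The number of edges of the cluster of `u` which have a side in the unbounded component. -/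
noncomputable def perimE (T : Finset Edg) (u : ℤ × ℤ) : ℕ :=
  (T.filter fun e => tl e ∈ clV T u ∧ ∃ b, Outer T u (side e b)).card

theorem perimE_le (T : Finset Edg) (u : ℤ × ℤ) : perimE T u ≤ perim T u := by
  classical
  unfold perimE perim
  refine Finset.card_le_card_of_surjOn (fun x : Edg × Bool => x.1) ?_
  intro e he
  rw [Finset.mem_coe, Finset.mem_filter] at he
  obtain ⟨h1, h2, b, h3⟩ := he
  refine ⟨(e, b), ?_, rfl⟩
  rw [Finset.mem_coe, Finset.mem_filter, Finset.mem_product]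
  exact ⟨⟨h1, Finset.mem_univ _⟩, h2, h3⟩

theorem perim_le_two (T : Finset Edg) (u : ℤ × ℤ) : perim T u ≤ 2 * perimE T u := by
  classical
  unfold perimE perim
  have h1 : ((T ×ˢ (univ : Finset Bool)).filter fun x => tl x.1 ∈ clV T u ∧
      Outer T u (side x.1 x.2)) ⊆
      (T.filter fun e => tl e ∈ clV T u ∧ ∃ b, Outer T u (side e b)) ×ˢ (univ : Finset Bool) := by
    intro x hx
    rw [Finset.mem_filter, Finset.mem_product] at hx
    rw [Finset.mem_product, Finset.mem_filter]
    exact ⟨⟨hx.1.1, hx.2.1, x.2, hx.2.2⟩, Finset.mem_univ _⟩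
  have h2 := Finset.card_le_card h1
  rw [Finset.card_product, Finset.card_univ, Fintype.card_bool] at h2
  omega

/-- The weak form, for both ways of counting. -/
def TargetW2 : Prop := ∀ ε : ℝ, 0 < ε → ∀ sel : ℕ → Finset Edg → ℤ × ℤ, (∀ n, IsSel n (sel n)) →
  Tendsto (fun n : ℕ => prB n {T | (n : ℝ) ^ (7 / 4 - ε) < (perimE T (sel n T) : ℝ) ∧
    (perim T (sel n T) : ℝ) < (n : ℝ) ^ (7 / 4 + ε)}) atTop (𝓝 1)

theorem targetW2_of (h : TargetW) : TargetW2 := by
  intro ε hε sel hsel
  have h1 := h (ε / 2) (by linarith) sel hsel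
  refine tendsto_of_tendsto_of_tendsto_of_le_of_le' h1 tendsto_const_nhds ?_
    (Eventually.of_forall fun n => PercX60.prB_le_one _ _)
  -- eventually `2 ≤ n ^ (ε / 2)`
  have h2 : ∀ᶠ n : ℕ in atTop, (2 : ℝ) ≤ (n : ℝ) ^ (ε / 2) :=
    ((tendsto_rpow_atTop (show 0 < ε / 2 by linarith)).comp
      tendsto_natCast_atTop_atTop).eventually_ge_atTop 2
  filter_upwards [h2, eventually_ge_atTop 1] with n hn hn1
  have hn' : (1 : ℝ) ≤ n := by exact_mod_cast hn1
  have hn0 : (0 : ℝ) < n := by linarith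
  refine PercX60.prB_mono fun T _ hT => ?_
  obtain ⟨h3, h4⟩ := hT
  constructor
  · have h5 : (perim T (sel n T) : ℝ) ≤ 2 * (perimE T (sel n T) : ℝ) := by
      exact_mod_cast perim_le_two T (sel n T)
    have h6 : (n : ℝ) ^ (7 / 4 - ε / 2) = (n : ℝ) ^ (7 / 4 - ε) * (n : ℝ) ^ (ε / 2) := by
      rw [← Real.rpow_add hn0]
      congr 1
      ring
    have h7 : 0 < (n : ℝ) ^ (7 / 4 - ε) := Real.rpow_pos_of_pos hn0 _
    have h8 : (n : ℝ) ^ (7 / 4 - ε) * 2 ≤ (n : ℝ) ^ (7 / 4 - ε) * (n : ℝ) ^ (ε / 2) :=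
      mul_le_mul_of_nonneg_left hn h7.le
    have h9 : (n : ℝ) ^ (7 / 4 - ε / 2) < (perim T (sel n T) : ℝ) := h3
    linarith
  · have h5 : (perim T (sel n T) : ℝ) < (n : ℝ) ^ (7 / 4 + ε / 2) := h4
    refine h5.trans_le ?_
    exact Real.rpow_le_rpow_of_exponent_le hn' (by linarith)

/-- A selection rule exists. -/
theorem exists_isSel (n : ℕ) : ∃ sel : Finset Edg → ℤ × ℤ, IsSel n sel := by
  classical
  have h : ∀ T : Finset Edg, ∃ s ∈ Box n, ∀ v ∈ Box n,
      Metric.diam (clS T v) ≤ Metric.diam (clS T s) := by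
    intro T
    refine Finset.exists_max_image (Box n) (fun v => Metric.diam (clS T v)) ⟨(0, 0), ?_⟩
    rw [DictB.mem_Box]
    simp
  choose sel h1 h2 using h
  exact ⟨sel, fun T _ => ⟨h1 T, h2 T⟩⟩

end Pool.Agent.Perc
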