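import Pool.Agent.Lib.MP_6bd702_z.Z016
import Pool.Agent.Lib.MP_6bd702_z.Z015

section PartpercwTipsB

/-!
# Colours on the boundary of a rectangle
-/

set_option autoImplicit false

namespace Pool.Agent.Perc

open Finset

variable {ω ω' : Cfg} {F F' : Set (ℤ × ℤ)} {e a a' : UE} {f : ℤ × ℤ} {u v : ℤ × ℤ}
  {x₀ x₁ y₀ y₁ : ℤ}

/-- `w` is at sup-distance at most `ρ` from `x`. -/
def Wi (ρ : ℤ) (x w : ℤ × ℤ) : Prop :=
  x.1 - ρ ≤ w.1 ∧ w.1 ≤ x.1 + ρ ∧ x.2 - ρ ≤ w.2 ∧ w.2 ≤ x.2 + ρ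

/-- Vertical moves. -/
theorem seg_v {c a b : ℤ} (hc : x₀ ≤ c ∧ c ≤ x₁) (ha : y₀ ≤ a) (hab : a ≤ b) (hb : b ≤ y₁)
    (h : ∀ j, a ≤ j → j < b → ((c, j, true) : UE) ∉ MM ω (RF x₀ x₁ y₀ y₁) e) :
    potR ω x₀ x₁ y₀ y₁ e (c, a) = potR ω x₀ x₁ y₀ y₁ e (c, b) := by
  revert hb h
  induction b, hab using Int.leInduction with
  | base => intro _ _; rfl
  | succ b hab ih =>
    intro hb h
    rw [ih (by omega) fun j h1 h2 => h j h1 (by omega)]
    have h1 := h b hab (by omega)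
    have h2 := potR_joins (ω := ω) (e := e) (a := (c, b, true)) (p := (c, b)) (q := (c, b + 1))
      (x₀ := x₀) (x₁ := x₁) (y₀ := y₀) (y₁ := y₁)
      (by simp [Joins, ua, ub]) (by unfold InR; simp only; omega) (by unfold InR; simp only; omega)
    by_contra hne
    exact h1 (h2.2 hne)

/-- Horizontal moves. -/
theorem seg_h {c a b : ℤ} (hc : y₀ ≤ c ∧ c ≤ y₁) (ha : x₀ ≤ a) (hab : a ≤ b) (hb : b ≤ x₁)
    (h : ∀ j, a ≤ j → j < b → ((j, c, false) : UE) ∉ MM ω (RF x₀ x₁ y₀ y₁) e) :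
    potR ω x₀ x₁ y₀ y₁ e (a, c) = potR ω x₀ x₁ y₀ y₁ e (b, c) := by
  revert hb h
  induction b, hab using Int.leInduction with
  | base => intro _ _; rfl
  | succ b hab ih =>
    intro hb h
    rw [ih (by omega) fun j h1 h2 => h j h1 (by omega)]
    have h1 := h b hab (by omega)
    have h2 := potR_joins (ω := ω) (e := e) (a := (b, c, false)) (p := (b, c)) (q := (b + 1, c))
      (x₀ := x₀) (x₁ := x₁) (y₀ := y₀) (y₁ := y₁)
      (by simp [Joins, ua, ub]) (by unfold InR; simp only; omega) (by unfold InR; simp only; omega)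
    by_contra hne
    exact h1 (h2.2 hne)

/-- All boundary unit edges of the component are within `ρ` of `x`. -/
def Close (ω : Cfg) (x₀ x₁ y₀ y₁ : ℤ) (e : UE) (ρ : ℤ) (x : ℤ × ℤ) : Prop :=
  ∀ a ∈ MM ω (RF x₀ x₁ y₀ y₁) e, BdE x₀ x₁ y₀ y₁ a → Wi ρ x (ua a) ∧ Wi ρ x (ub a)

/-- Moves along a vertical side outside the ball. -/
theorem mv_v {ρ : ℤ} {x : ℤ × ℤ} (H : Close ω x₀ x₁ y₀ y₁ e ρ x) {c a b : ℤ}
    (hx : x₀ ≤ x₁) (hc : c = x₀ ∨ c = x₁) (ha : y₀ ≤ a ∧ a ≤ y₁) (hb : y₀ ≤ b ∧ b ≤ y₁)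
    (h : ∀ j, ((a ≤ j ∧ j ≤ b) ∨ (b ≤ j ∧ j ≤ a)) → ¬ Wi ρ x (c, j)) :
    potR ω x₀ x₁ y₀ y₁ e (c, a) = potR ω x₀ x₁ y₀ y₁ e (c, b) := by
  have key : ∀ a b : ℤ, y₀ ≤ a → a ≤ b → b ≤ y₁ → (∀ j, a ≤ j → j ≤ b → ¬ Wi ρ x (c, j)) →
      potR ω x₀ x₁ y₀ y₁ e (c, a) = potR ω x₀ x₁ y₀ y₁ e (c, b) := by
    intro a b h1 h2 h3 h4
    refine seg_v (by omega) h1 h2 h3 fun j h5 h6 h7 => ?_
    have h8 := H _ h7 (Or.inr ⟨rfl, by simp only; omega, by simp only; omega, hc⟩)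
    rw [ua_mk] at h8
    exact h4 j h5 (by omega) h8.1
  rcases le_total a b with hab | hab
  · exact key a b ha.1 hab hb.2 fun j h1 h2 => h j (Or.inl ⟨h1, h2⟩)
  · exact (key b a hb.1 hab ha.2 fun j h1 h2 => h j (Or.inr ⟨h1, h2⟩)).symm

/-- Moves along a horizontal side outside the ball. -/
theorem mv_h {ρ : ℤ} {x : ℤ × ℤ} (H : Close ω x₀ x₁ y₀ y₁ e ρ x) {c a b : ℤ}
    (hy : y₀ ≤ y₁) (hc : c = y₀ ∨ c = y₁) (ha : x₀ ≤ a ∧ a ≤ x₁) (hb : x₀ ≤ b ∧ b ≤ x₁)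
    (h : ∀ j, ((a ≤ j ∧ j ≤ b) ∨ (b ≤ j ∧ j ≤ a)) → ¬ Wi ρ x (j, c)) :
    potR ω x₀ x₁ y₀ y₁ e (a, c) = potR ω x₀ x₁ y₀ y₁ e (b, c) := by
  have key : ∀ a b : ℤ, x₀ ≤ a → a ≤ b → b ≤ x₁ → (∀ j, a ≤ j → j ≤ b → ¬ Wi ρ x (j, c)) →
      potR ω x₀ x₁ y₀ y₁ e (a, c) = potR ω x₀ x₁ y₀ y₁ e (b, c) := by
    intro a b h1 h2 h3 h4
    refine seg_h (by omega) h1 h2 h3 fun j h5 h6 h7 => ?_
    have h8 := H _ h7 (Or.inl ⟨rfl, by simp only; omega, by simp only; omega, hc⟩)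
    rw [ua_mk] at h8
    exact h4 j h5 (by omega) h8.1
  rcases le_total a b with hab | hab
  · exact key a b ha.1 hab hb.2 fun j h1 h2 => h j (Or.inl ⟨h1, h2⟩)
  · exact (key b a hb.1 hab ha.2 fun j h1 h2 => h j (Or.inr ⟨h1, h2⟩)).symm

/-- Ring lemma: the boundary vertices outside the ball are on one side. -/
theorem ring_eq {ρ : ℤ} {x : ℤ × ℤ} (H : Close ω x₀ x₁ y₀ y₁ e ρ x)
    (h2x : 2 * ρ < x₁ - x₀) (h2y : 2 * ρ < y₁ - y₀) (hx : x₀ ≤ x₁) (hy : y₀ ≤ y₁) {w w' : ℤ × ℤ}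
    (hw : OnBd x₀ x₁ y₀ y₁ w) (hw' : OnBd x₀ x₁ y₀ y₁ w') (h : ¬ Wi ρ x w) (h' : ¬ Wi ρ x w') :
    potR ω x₀ x₁ y₀ y₁ e w = potR ω x₀ x₁ y₀ y₁ e w' := by
  obtain ⟨p, q⟩ := x
  obtain ⟨z1, hz1, hz1'⟩ : ∃ z1, (z1 = x₀ ∨ z1 = x₁) ∧ (z1 < p - ρ ∨ p + ρ < z1) := by
    by_cases hp : 2 * p ≤ x₀ + x₁
    · exact ⟨x₁, Or.inr rfl, by omega⟩
    · exact ⟨x₀, Or.inl rfl, by omega⟩
  obtain ⟨z2, hz2, hz2'⟩ : ∃ z2, (z2 = y₀ ∨ z2 = y₁) ∧ (z2 < q - ρ ∨ q + ρ < z2) := by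
    by_cases hp : 2 * q ≤ y₀ + y₁
    · exact ⟨y₁, Or.inr rfl, by omega⟩
    · exact ⟨y₀, Or.inl rfl, by omega⟩
  have key : ∀ w : ℤ × ℤ, OnBd x₀ x₁ y₀ y₁ w → ¬ Wi ρ (p, q) w →
      potR ω x₀ x₁ y₀ y₁ e w = potR ω x₀ x₁ y₀ y₁ e (z1, z2) := by
    rintro ⟨w1, w2⟩ hw h
    unfold OnBd at hw
    unfold Wi at h
    simp only at hw h
    have mv : ∀ c a b : ℤ, (c = x₀ ∨ c = x₁) → y₀ ≤ a → a ≤ y₁ → y₀ ≤ b → b ≤ y₁ →
        ((c < p - ρ ∨ p + ρ < c) ∨ (a < q - ρ ∧ b < q - ρ) ∨ (q + ρ < a ∧ q + ρ < b)) →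
        potR ω x₀ x₁ y₀ y₁ e (c, a) = potR ω x₀ x₁ y₀ y₁ e (c, b) := by
      intro c a b hc h1 h2 h3 h4 h5
      refine mv_v H hx hc ⟨h1, h2⟩ ⟨h3, h4⟩ fun j hj => ?_
      unfold Wi; simp only; omega
    have mh : ∀ c a b : ℤ, (c = y₀ ∨ c = y₁) → x₀ ≤ a → a ≤ x₁ → x₀ ≤ b → b ≤ x₁ →
        ((c < q - ρ ∨ q + ρ < c) ∨ (a < p - ρ ∧ b < p - ρ) ∨ (p + ρ < a ∧ p + ρ < b)) →
        potR ω x₀ x₁ y₀ y₁ e (a, c) = potR ω x₀ x₁ y₀ y₁ e (b, c) := by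
      intro c a b hc h1 h2 h3 h4 h5
      refine mv_h H hy hc ⟨h1, h2⟩ ⟨h3, h4⟩ fun j hj => ?_
      unfold Wi; simp only; omega
    have hz1b : x₀ ≤ z1 ∧ z1 ≤ x₁ := by omega
    have hz2b : y₀ ≤ z2 ∧ z2 ≤ y₁ := by omega
    by_cases hv : w1 = x₀ ∨ w1 = x₁
    · by_cases hd : w1 < p - ρ ∨ p + ρ < w1
      · rw [mv w1 w2 z2 hv (by omega) (by omega) (by omega) (by omega) (Or.inl hd),
          mh z2 w1 z1 hz2 (by omega) (by omega) (by omega) (by omega) (Or.inl hz2')]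
      · by_cases hu : q + ρ < w2
        · rw [mv w1 w2 y₁ hv (by omega) (by omega) (by omega) (by omega) (by omega),
            mh y₁ w1 z1 (Or.inr rfl) (by omega) (by omega) (by omega) (by omega) (by omega),
            mv z1 y₁ z2 hz1 (by omega) (by omega) (by omega) (by omega) (Or.inl hz1')]
        · rw [mv w1 w2 y₀ hv (by omega) (by omega) (by omega) (by omega) (by omega),
            mh y₀ w1 z1 (Or.inl rfl) (by omega) (by omega) (by omega) (by omega) (by omega),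
            mv z1 y₀ z2 hz1 (by omega) (by omega) (by omega) (by omega) (Or.inl hz1')]
    · have hv' : w2 = y₀ ∨ w2 = y₁ := by omega
      by_cases hd : w2 < q - ρ ∨ q + ρ < w2
      · rw [mh w2 w1 z1 hv' (by omega) (by omega) (by omega) (by omega) (Or.inl hd),
          mv z1 w2 z2 hz1 (by omega) (by omega) (by omega) (by omega) (Or.inl hz1')]
      · by_cases hu : p + ρ < w1
        · rw [mh w2 w1 x₁ hv' (by omega) (by omega) (by omega) (by omega) (by omega),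
            mv x₁ w2 z2 (Or.inr rfl) (by omega) (by omega) (by omega) (by omega) (by omega),
            mh z2 x₁ z1 hz2 (by omega) (by omega) (by omega) (by omega) (Or.inl hz2')]
        · rw [mh w2 w1 x₀ hv' (by omega) (by omega) (by omega) (by omega) (by omega),
            mv x₀ w2 z2 (Or.inl rfl) (by omega) (by omega) (by omega) (by omega) (by omega),
            mh z2 x₀ z1 hz2 (by omega) (by omega) (by omega) (by omega) (Or.inl hz2')]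
  rw [key w hw h, key w' hw' h']

/-- Close exits: for one end `p` of `e` all the boundary vertices on the side of `p` are within `ρ`
of `x`. -/
theorem close_side {ρ : ℤ} {x : ℤ × ℤ} (he : Joins e u v) (hu : InR x₀ x₁ y₀ y₁ u)
    (hv : InR x₀ x₁ y₀ y₁ v) (H : Close ω x₀ x₁ y₀ y₁ e ρ x)
    (h2x : 2 * ρ < x₁ - x₀) (h2y : 2 * ρ < y₁ - y₀) (hx : x₀ ≤ x₁) (hy : y₀ ≤ y₁) :
    (∀ w, OnBd x₀ x₁ y₀ y₁ w → potR ω x₀ x₁ y₀ y₁ e w = potR ω x₀ x₁ y₀ y₁ e u → Wi ρ x w) ∨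
    (∀ w, OnBd x₀ x₁ y₀ y₁ w → potR ω x₀ x₁ y₀ y₁ e w = potR ω x₀ x₁ y₀ y₁ e v → Wi ρ x w) := by
  by_contra hcon
  push Not at hcon
  obtain ⟨⟨w, hw, h1, h2⟩, w', hw', h1', h2'⟩ := hcon
  have h3 := ring_eq H h2x h2y hx hy hw hw' h2 h2'
  rw [h1, h1'] at h3
  exact (potR_joins he hu hv).1 mem_MM_self h3

/-- If both ends of `e` are joined to the boundary then the component has a boundary unit edge. -/
theorem exists_tip (he : Joins e u v) (hu : InR x₀ x₁ y₀ y₁ u) (hv : InR x₀ x₁ y₀ y₁ v)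
    (hx : x₀ ≤ x₁) (hy : y₀ ≤ y₁)
    (h1 : ToBd x₀ x₁ y₀ y₁ ω u) (h2 : ToBd x₀ x₁ y₀ y₁ ω v) :
    ∃ t ∈ MM ω (RF x₀ x₁ y₀ y₁) e, BdE x₀ x₁ y₀ y₁ t := by
  by_contra hcon
  push Not at hcon
  obtain ⟨w, hw, hwb⟩ := h1
  obtain ⟨w', hw', hwb'⟩ := h2
  have H : Close ω x₀ x₁ y₀ y₁ e (-1) (0, 0) := fun a ha hb => absurd hb (hcon a ha)
  have h3 := ring_eq H (by omega) (by omega) hx hy hwb hwb' (by unfold Wi; simp only; omega)
    (by unfold Wi; simp only; omega)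
  rw [← potR_conn hw, ← potR_conn hw'] at h3
  exact (potR_joins he hu hv).1 mem_MM_self h3

/-- Conversely the end of parity of `u` of a boundary unit edge of the component is joined to `u`. -/
theorem toBd_of_tip (he : Joins e u v) {t : UE} (ht : t ∈ MM ω (RF x₀ x₁ y₀ y₁) e)
    (hb : BdE x₀ x₁ y₀ y₁ t) (hx : x₀ ≤ x₁) (hy : y₀ ≤ y₁) : ToBd x₀ x₁ y₀ y₁ ω u := by
  obtain ⟨p, q, hj, -, hc⟩ := MM_conn he ht
  refine ⟨p, hc.mono SS_sub, ?_⟩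
  obtain ⟨x, y, b⟩ := t
  unfold BdE at hb
  simp only at hb
  unfold OnBd
  rcases hj with ⟨rfl, -⟩ | ⟨rfl, -⟩ <;> cases b <;> simp [ua, ub] at hb ⊢ <;> omega

/-- Dichotomy: a boundary unit edge `t` of the component; either all of them are within `ρ` of `t`
or no other one is within `ρ` of `t`. -/
theorem tip_dichotomy {ρ : ℤ} (hρ : 1 ≤ ρ) (he : ¬ BdE x₀ x₁ y₀ y₁ e) {t : UE}
    (ht : t ∈ MM ω (RF x₀ x₁ y₀ y₁) e) (hb : BdE x₀ x₁ y₀ y₁ t) :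
    Close ω x₀ x₁ y₀ y₁ e ρ (ua t) ∨
      ∀ a ∈ MM ω (RF x₀ x₁ y₀ y₁) e, BdE x₀ x₁ y₀ y₁ a → Wi ρ (ua t) (ua a) →
        Wi ρ (ua t) (ub a) → a = t := by
  by_contra hcon
  unfold Close at hcon
  push Not at hcon
  obtain ⟨⟨a, ha, hab, hna⟩, a', ha', hab', h1, h2, h3⟩ := hcon
  have hat : a ≠ t := by
    rintro rfl
    refine hna (by unfold Wi; omega) ?_
    obtain ⟨x, y, b⟩ := a
    unfold Wi
    cases b <;> simp [ua, ub] <;> omega
  have haa : a ≠ a' := by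
    rintro rfl
    exact hna h1 h2
  rcases tips_le_two he ht ha ha' hb hab hab' with h | h | h
  · exact hat h.symm
  · exact h3 h.symm
  · exact haa h

/-- The far exit condition at `t`. -/
def FarTip (ω : Cfg) (x₀ x₁ y₀ y₁ : ℤ) (e : UE) (ρ : ℤ) (t : UE) : Prop :=
  t ∈ MM ω (RF x₀ x₁ y₀ y₁) e ∧ BdE x₀ x₁ y₀ y₁ t ∧
    ∀ a ∈ MM ω (RF x₀ x₁ y₀ y₁) e, BdE x₀ x₁ y₀ y₁ a → Wi ρ (ua t) (ua a) →
      Wi ρ (ua t) (ub a) → a = t

/-- Colours near a far tip on the right side: above. -/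
theorem farTip_up {ρ h : ℤ} (ht : FarTip ω x₀ x₁ y₀ y₁ e ρ (x₁, h, true)) (hx : x₀ < x₁)
    (h2x : ρ < x₁ - x₀) {w : ℤ × ℤ} (hw : OnBd x₀ x₁ y₀ y₁ w) (hwi : Wi ρ (x₁, h) w)
    (hup : (w.1 = x₁ ∧ h < w.2) ∨ w.2 = y₁) :
    potR ω x₀ x₁ y₀ y₁ e w = potR ω x₀ x₁ y₀ y₁ e (x₁, h + 1) := by
  obtain ⟨htM, htb, hfar⟩ := ht
  obtain ⟨w1, w2⟩ := w
  have hh : y₀ ≤ h ∧ h < y₁ := by unfold BdE at htb; simp at htb; exact htb
  unfold OnBd at hw
  unfold Wi at hwi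
  simp only at hw hwi hup
  have key : ∀ b, h + 1 ≤ b → b ≤ y₁ → b ≤ h + ρ →
      potR ω x₀ x₁ y₀ y₁ e (x₁, h + 1) = potR ω x₀ x₁ y₀ y₁ e (x₁, b) := by
    intro b h1 h2 h3
    refine seg_v (by omega) (by omega) h1 h2 fun j h4 h5 h6 => ?_
    have h7 := hfar _ h6 (Or.inr ⟨rfl, by simp only; omega, by simp only; omega, Or.inr rfl⟩)
      (by unfold Wi; simp [ua]; omega) (by unfold Wi; simp [ua, ub]; omega)
    simp only [Prod.mk.injEq, true_and, and_true] at h7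
    omega
  rcases hup with ⟨rfl, h1⟩ | rfl
  · exact (key w2 (by omega) (by omega) (by omega)).symm
  · rw [key w2 (by omega) (by omega) (by omega)]
    refine seg_h (by omega) (by omega) (by omega) (by omega) fun j h4 h5 h6 => ?_
    have h7 := hfar _ h6 (Or.inl ⟨rfl, by simp only; omega, by simp only; omega, Or.inr rfl⟩)
      (by unfold Wi; simp [ua]; omega) (by unfold Wi; simp [ua, ub]; omega)
    simp at h7

/-- Colours near a far tip on the right side: below. -/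
theorem farTip_down {ρ h : ℤ} (ht : FarTip ω x₀ x₁ y₀ y₁ e ρ (x₁, h, true)) (hx : x₀ < x₁)
    (h2x : ρ < x₁ - x₀) {w : ℤ × ℤ} (hw : OnBd x₀ x₁ y₀ y₁ w) (hwi : Wi ρ (x₁, h) w)
    (hdown : (w.1 = x₁ ∧ w.2 ≤ h) ∨ w.2 = y₀) (hρ : 1 ≤ ρ) :
    potR ω x₀ x₁ y₀ y₁ e w = potR ω x₀ x₁ y₀ y₁ e (x₁, h) := by
  obtain ⟨htM, htb, hfar⟩ := ht
  obtain ⟨w1, w2⟩ := w
  have hh : y₀ ≤ h ∧ h < y₁ := by unfold BdE at htb; simp at htb; exact htb
  unfold OnBd at hw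
  unfold Wi at hwi
  simp only at hw hwi hdown
  have key : ∀ b, b ≤ h → y₀ ≤ b → h - ρ ≤ b →
      potR ω x₀ x₁ y₀ y₁ e (x₁, b) = potR ω x₀ x₁ y₀ y₁ e (x₁, h) := by
    intro b h1 h2 h3
    refine seg_v (by omega) h2 h1 (by omega) fun j h4 h5 h6 => ?_
    have h7 := hfar _ h6 (Or.inr ⟨rfl, by simp only; omega, by simp only; omega, Or.inr rfl⟩)
      (by unfold Wi; simp [ua]; omega) (by unfold Wi; simp [ua, ub]; omega)
    simp only [Prod.mk.injEq, true_and, and_true] at h7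
    omega
  rcases hdown with ⟨rfl, h1⟩ | rfl
  · exact key w2 (by omega) (by omega) (by omega)
  · rw [← key w2 (by omega) (by omega) (by omega)]
    refine seg_h (by omega) (by omega) (by omega) (by omega) fun j h4 h5 h6 => ?_
    have h7 := hfar _ h6 (Or.inl ⟨rfl, by simp only; omega, by simp only; omega, Or.inl rfl⟩)
      (by unfold Wi; simp [ua]; omega) (by unfold Wi; simp [ua, ub]; omega)
    simp at h7

end Pool.Agent.Perc

end PartpercwTipsB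

section PartpercwTrans

/-!
# The lower tail: from the face grid to the square lattice
-/

set_option autoImplicit false

namespace Pool.Agent.PercW

open Finset
open Pool.Agent.MP_6bd702.H23 (Ed)
open Pool.Agent.Perc
open Pool.Agent.PercU (Cor vtx fce qry qryb rot adv rotb advb nxt prv nxtE)
open Pool.Agent.PercO (Orb sd Kc)
open Pool.Agent.PercX60 (gV gF gB gT phiF dB TA Sn)

/-- The unit edge of the face grid which corresponds to a corner. -/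
def kap : Cor → UE
  | (x, y, true, true) => (x + y, x - y, false)
  | (x, y, false, true) => (x + y, x - y - 1, true)
  | (x, y, false, false) => (x + y - 1, x - y, false)
  | (x, y, true, false) => (x + y, x - y, true)

theorem ua_kap (k : Cor) : ua (kap k) = gB k := by
  obtain ⟨x, y, _ | _, _ | _⟩ := k <;>
    simp [kap, ua, gB, gV, gF, phiV, phiF, vtx, fce] <;> omega

theorem joins_kap (k : Cor) : Joins (kap k) (gV k) (gF k) := by
  obtain ⟨x, y, _ | _, _ | _⟩ := k <;>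
    simp [kap, ua, ub, Joins, gV, gF, phiV, phiF, vtx, fce] <;> omega

theorem kap_injective : Function.Injective kap := by
  rintro ⟨x, y, _ | _, _ | _⟩ ⟨x', y', _ | _, _ | _⟩ h <;>
    simp [kap] at h ⊢ <;> omega

/-- The next corner is matched in the face of the queried edge. -/
theorem mt_nxt (T : Set Ed) (k : Cor) : Mt (gT T) (phiE (qry k)) (kap k) (kap (nxt T k)) := by
  have h0 := PercX60.gT_phiE T (qry k)
  by_cases h : qry k ∈ T
  · rw [PercU.nxt_of_mem h]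
    have h1 := h0.2 h
    obtain ⟨x, y, _ | _, _ | _⟩ := k
    · right
      refine ⟨by simpa [qry] using h1, ?_⟩
      simp [qry, kap, adv, phiE, bo, le', to', ri] <;> omega
    · left
      refine ⟨by simpa [qry] using h1, ?_⟩
      simp [qry, kap, adv, phiE, bo, le', to', ri] <;> omega
    · left
      refine ⟨by simpa [qry] using h1, ?_⟩
      simp [qry, kap, adv, phiE, bo, le', to', ri] <;> omega
    · right
      refine ⟨by simpa [qry] using h1, ?_⟩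
      simp [qry, kap, adv, phiE, bo, le', to', ri] <;> omega
  · rw [PercU.nxt_of_notMem h]
    have h1 : gT T (phiE (qry k)) = (qry k).2.2 := by
      have h2 : ¬ (gT T (phiE (qry k)) = !(qry k).2.2) := fun h3 => h (h0.1 h3)
      cases h3 : gT T (phiE (qry k)) <;> cases h4 : (qry k).2.2 <;> simp_all
    obtain ⟨x, y, _ | _, _ | _⟩ := k
    · left
      refine ⟨by simpa [qry] using h1, ?_⟩
      simp [qry, kap, rot, phiE, bo, le', to', ri] <;> omega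
    · right
      refine ⟨by simpa [qry] using h1, ?_⟩
      simp [qry, kap, rot, phiE, bo, le', to', ri] <;> omega
    · right
      refine ⟨by simpa [qry] using h1, ?_⟩
      simp [qry, kap, rot, phiE, bo, le', to', ri] <;> omega
    · left
      refine ⟨by simpa [qry] using h1, ?_⟩
      simp [qry, kap, rot, phiE, bo, le', to', ri] <;> omega

theorem mt_prv (T : Set Ed) (k : Cor) : Mt (gT T) (phiE (qryb k)) (kap k) (kap (prv T k)) := by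
  have h := mt_nxt T (prv T k)
  rw [PercU.nxt_prv, PercU.qry_prv] at h
  exact h.symm

/-- A unit edge is a side of two faces only. -/
theorem side_kap {f : ℤ × ℤ} {k : Cor} (h : IsSide f (kap k)) :
    f = phiE (qry k) ∨ f = phiE (qryb k) := by
  obtain ⟨a, b⟩ := f
  obtain ⟨x, y, _ | _, _ | _⟩ := k <;>
    simp [IsSide, kap, bo, le', to', ri, qry, qryb, phiE] at h ⊢ <;> omega

theorem Mt_unique {ω : Cfg} {f : ℤ × ℤ} {a b b' : UE} (h : Mt ω f a b) (h' : Mt ω f a b') :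
    b = b' := by
  obtain ⟨x, y⟩ := f
  unfold Mt at h h'
  rcases h with ⟨h0, h⟩ | ⟨h0, h⟩ <;> rcases h' with ⟨h0', h'⟩ | ⟨h0', h'⟩
  · rcases h with ⟨rfl, rfl⟩ | ⟨rfl, rfl⟩ | ⟨rfl, rfl⟩ | ⟨rfl, rfl⟩ <;>
      simp [bo, le', to', ri] at h' ⊢ <;> exact h'.symm
  · rw [h0] at h0'; exact absurd h0' (by decide)
  · rw [h0] at h0'; exact absurd h0' (by decide)
  · rcases h with ⟨rfl, rfl⟩ | ⟨rfl, rfl⟩ | ⟨rfl, rfl⟩ | ⟨rfl, rfl⟩ <;>
      simp [bo, le', to', ri] at h' ⊢ <;> exact h'.symm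

theorem prv_mem_orb {T : Set Ed} {k k' : Cor} (h : k' ∈ Orb T k) : prv T k' ∈ Orb T k := by
  rw [← PercO.nxt_mem_orb, PercU.nxt_prv]
  exact h

/-- The component is contained in the orbit. -/
theorem MM_sub_orb {T : Set Ed} {F : Set (ℤ × ℤ)} {k : Cor} {a : UE}
    (h : a ∈ MM (gT T) F (kap k)) : a ∈ kap '' Orb T k := by
  induction h with
  | refl => exact ⟨k, ⟨0, by simp⟩, rfl⟩
  | tail _ hs ih =>
    obtain ⟨k', hk', rfl⟩ := ih
    obtain ⟨f, hf, hm⟩ := hs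
    rcases side_kap hm.left with rfl | rfl
    · exact ⟨nxt T k', PercO.nxt_mem_orb.2 hk', Mt_unique (mt_nxt T k') hm⟩
    · exact ⟨prv T k', prv_mem_orb hk', Mt_unique (mt_prv T k') hm⟩

/-- The lower tail in the face grid. -/
def LowerF : Prop := ∃ c q : ℝ, 0 < c ∧ 0 ≤ q ∧ q < 1 ∧ ∀ K s : ℕ, 1 ≤ s → ∀ e : UE, ∀ r : ℤ,
  r = ((K : ℤ) + 1) * s →
    pr (RF ((ua e).1 - r) ((ua e).1 + r) ((ua e).2 - r) ((ua e).2 + r))
      {ω | ToBd ((ua e).1 - r) ((ua e).1 + r) ((ua e).2 - r) ((ua e).2 + r) ω (ua e) ∧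
        ToBd ((ua e).1 - r) ((ua e).1 + r) ((ua e).2 - r) ((ua e).2 + r) ω (ub e) ∧
        ((MM ω (RF ((ua e).1 - r) ((ua e).1 + r) ((ua e).2 - r) ((ua e).2 + r)) e).ncard : ℝ) <
          c * (s : ℝ) ^ (7 / 4 : ℝ)} ≤ q ^ K

/-- The lower tail in the square lattice. -/
def LowerZ : Prop := ∃ c q : ℝ, 0 < c ∧ 0 ≤ q ∧ q < 1 ∧ ∀ n K s : ℕ, 1 ≤ s → ∀ k : Cor,
  3 * (((K : ℤ) + 1) * s) ≤ dB n (vtx k) →
    prB n {T | (∃ k' ∈ Orb (T : Set Ed) k, 3 * (((K : ℤ) + 1) * s) ≤ sd (vtx k') (vtx k)) ∧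
      ((Orb (T : Set Ed) k).ncard : ℝ) < c * (s : ℝ) ^ (7 / 4 : ℝ)} ≤ q ^ K

theorem lowerZ_of_lowerF (h : LowerF) : LowerZ := by
  obtain ⟨c, q, hc, hq, hq1, H⟩ := h
  refine ⟨c, q, hc, hq, hq1, fun n K s hs k hk => ?_⟩
  set r : ℤ := ((K : ℤ) + 1) * s with hr
  have hr1 : 1 ≤ r := by
    rw [hr]
    have h1 : (1 : ℤ) ≤ s := by exact_mod_cast hs
    nlinarith [Int.natCast_nonneg K]
  have hR : r + 1 ≤ dB n (vtx k) := by omega
  have hE := H K s hs (kap k) r hr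
  refine le_trans ?_ hE
  rw [← PercX60.pr_Sn]
  set E : Set Cfg := {ω | ToBd ((ua (kap k)).1 - r) ((ua (kap k)).1 + r) ((ua (kap k)).2 - r)
      ((ua (kap k)).2 + r) ω (ua (kap k)) ∧
    ToBd ((ua (kap k)).1 - r) ((ua (kap k)).1 + r) ((ua (kap k)).2 - r) ((ua (kap k)).2 + r) ω
      (ub (kap k)) ∧
    ((MM ω (RF ((ua (kap k)).1 - r) ((ua (kap k)).1 + r) ((ua (kap k)).2 - r)
      ((ua (kap k)).2 + r)) (kap k)).ncard : ℝ) < c * (s : ℝ) ^ (7 / 4 : ℝ)} with hEdef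
  have hsub : RF ((ua (kap k)).1 - r) ((ua (kap k)).1 + r) ((ua (kap k)).2 - r)
      ((ua (kap k)).2 + r) ⊆ Sn n := by
    rw [ua_kap]
    exact PercX60.ball_sub_Sn hR
  have hdep : DepOn (RF ((ua (kap k)).1 - r) ((ua (kap k)).1 + r) ((ua (kap k)).2 - r)
      ((ua (kap k)).2 + r) : Set (ℤ × ℤ)) E := by
    intro ω ω' hω
    have hM : MM ω' (RF ((ua (kap k)).1 - r) ((ua (kap k)).1 + r) ((ua (kap k)).2 - r)
        ((ua (kap k)).2 + r)) (kap k) = MM ω (RF ((ua (kap k)).1 - r) ((ua (kap k)).1 + r)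
        ((ua (kap k)).2 - r) ((ua (kap k)).2 + r)) (kap k) :=
      MM_congr fun f hf => hω f (SS_sub hf)
    have hT : ∀ u, ToBd ((ua (kap k)).1 - r) ((ua (kap k)).1 + r) ((ua (kap k)).2 - r)
        ((ua (kap k)).2 + r) ω u ↔ ToBd ((ua (kap k)).1 - r) ((ua (kap k)).1 + r)
        ((ua (kap k)).2 - r) ((ua (kap k)).2 + r) ω' u := by
      intro u
      unfold ToBd
      exact exists_congr fun v => and_congr (GridA.conn_iff _ hω _ _) Iff.rfl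
    simp only [hEdef, Set.mem_ofPred_eq]
    rw [hM, hT, hT]
  rw [← pr_eq_of_depOn hdep hsub]
  refine pr_mono _ fun ω hω => ?_
  obtain ⟨⟨k', hk', hfar⟩, hcard⟩ := hω
  set T : Set Ed := (cfgE n ω : Set Ed) with hT
  have hTsub : T ⊆ (Pool.Agent.MP_6bd702.H23.EW 0 (n : ℤ) 0 n : Set Ed) :=
    PercO.boxE_sub (Finset.filter_subset _ _)
  have hfin : (Kc T (vtx k)).Finite := PercO.finite_Kc hTsub
  have hself : vtx k ∈ Kc T (vtx k) := Relation.ReflTransGen.refl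
  obtain ⟨j, hj⟩ := PercO.exists_nat_of_orb hself hfin hk'
  have hTA : ω ∈ TA r k := by
    refine PercX60.TA_of_far (j := j) hR hr1 ?_
    rw [← hT, hj]
    omega
  have hag : ∀ f ∈ (RF ((gB k).1 - r) ((gB k).1 + r) ((gB k).2 - r) ((gB k).2 + r) : Set (ℤ × ℤ)),
      gT T f = ω f := by
    intro f hf
    have h1 := PercX60.gT_cfgE (ω := ω) (PercX60.ball_sub hR (Finset.mem_coe.1 hf))
    rwa [PercX60.phiE_eE] at h1
  -- the two ends
  have hends : ToBd ((gB k).1 - r) ((gB k).1 + r) ((gB k).2 - r) ((gB k).2 + r) ω (ua (kap k)) ∧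
      ToBd ((gB k).1 - r) ((gB k).1 + r) ((gB k).2 - r) ((gB k).2 + r) ω (ub (kap k)) := by
    rcases joins_kap k with ⟨h1, h2⟩ | ⟨h1, h2⟩
    · rw [← h1, ← h2]; exact hTA
    · rw [← h1, ← h2]; exact ⟨hTA.2, hTA.1⟩
  -- the cardinality
  have horb : (Orb T k).Finite := by
    refine (PercO.finite_cor hfin).subset fun k'' hk'' => ?_
    obtain ⟨i, rfl⟩ := PercO.exists_nat_of_orb hself hfin hk''
    exact PercO.vtx_iter_mem hself i
  have hcardM : (MM ω (RF ((gB k).1 - r) ((gB k).1 + r) ((gB k).2 - r) ((gB k).2 + r))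
      (kap k)).ncard ≤ (Orb T k).ncard := by
    have h1 : MM ω (RF ((gB k).1 - r) ((gB k).1 + r) ((gB k).2 - r) ((gB k).2 + r)) (kap k) =
        MM (gT T) (RF ((gB k).1 - r) ((gB k).1 + r) ((gB k).2 - r) ((gB k).2 + r)) (kap k) :=
      (MM_congr fun f hf => (hag f (SS_sub hf)).symm).symm
    rw [h1]
    refine (Set.ncard_le_ncard (fun a ha => MM_sub_orb ha) (horb.image _)).trans ?_
    exact Set.ncard_image_le horb
  rw [hEdef]
  simp only [Set.mem_ofPred_eq]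
  rw [ua_kap]
  rw [ua_kap] at hends
  refine ⟨hends.1, hends.2, lt_of_le_of_lt ?_ hcard⟩
  exact_mod_cast hcardM

end Pool.Agent.PercW

end PartpercwTrans
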