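import Pool.Agent.Lib.MP_6bd702_z.Z017
import Pool.Agent.Lib.MP_6bd702_z.Z002
import Pool.Agent.Lib.MP_6bd702_z.Z007

section PartpercdBase

/-!
# Part D in the face grid: boxes with arbitrary centres, exits, independence, first moments

`BR v r` is the set of faces of the box with centre `v` and radius `r`, `Rch v r e` the event that
the component of the unit edge `e` in this box reaches the boundary of the box.
-/

set_option autoImplicit false

namespace Pool.Agent.PercD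

open Finset Pool.Agent.Perc

variable {ω ω' : Cfg} {v v' : ℤ × ℤ} {r r' : ℤ} {e e' a a' b : UE} {f : ℤ × ℤ}

/-- The faces of the box with centre `v` and radius `r`. -/
noncomputable def BR (v : ℤ × ℤ) (r : ℤ) : Finset (ℤ × ℤ) :=
  RF (v.1 - r) (v.1 + r) (v.2 - r) (v.2 + r)

/-- The unit edge `a` has both ends in the box. -/
def InE (v : ℤ × ℤ) (r : ℤ) (a : UE) : Prop :=
  InR (v.1 - r) (v.1 + r) (v.2 - r) (v.2 + r) (ua a) ∧
    InR (v.1 - r) (v.1 + r) (v.2 - r) (v.2 + r) (ub a)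

/-- The unit edge `a` is on the boundary of the box. -/
def BdR (v : ℤ × ℤ) (r : ℤ) (a : UE) : Prop := BdE (v.1 - r) (v.1 + r) (v.2 - r) (v.2 + r) a

/-- The component of `e` in the box reaches the boundary of the box. -/
def Rch (v : ℤ × ℤ) (r : ℤ) (e : UE) : Set Cfg := {ω | ∃ a ∈ MM ω (BR v r) e, BdR v r a}

/-- The unit edges whose first end is in the box. -/
noncomputable def UB (v : ℤ × ℤ) (r : ℤ) : Finset UE :=
  (Icc (v.1 - r) (v.1 + r)) ×ˢ ((Icc (v.2 - r) (v.2 + r)) ×ˢ (univ : Finset Bool))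

/-- The event that the component of some unit edge of the box of radius `d` reaches the boundary of
the box of radius `w`. -/
def Pev (v : ℤ × ℤ) (d w : ℤ) : Set Cfg := {ω | ∃ e, InE v d e ∧ ω ∈ Rch v w e}

/-- The event that a component crosses the annulus between the boxes of radius `d` and `w`. -/
def Xev (v : ℤ × ℤ) (d w : ℤ) : Set Cfg :=
  {ω | ∃ b, BdR v d b ∧ ∃ a ∈ MM ω (BR v w \ BR v d : Finset (ℤ × ℤ)) b, BdR v w a}

/-- The event that some unit edge of the box of radius `d` has a component which is long but has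
few unit edges. -/
def Bad (v : ℤ × ℤ) (d : ℤ) (m : ℝ) : Set Cfg :=
  {ω | ∃ e, InE v d e ∧ ω ∈ Rch (ua e) d e ∧ ((MM ω (BR (ua e) d) e).ncard : ℝ) ≤ m}

/-! ### Geometry -/

theorem mem_BR : f ∈ BR v r ↔ v.1 - r ≤ f.1 ∧ f.1 < v.1 + r ∧ v.2 - r ≤ f.2 ∧ f.2 < v.2 + r := by
  unfold BR
  exact mem_RF

theorem mem_BR' : f ∈ (BR v r : Set (ℤ × ℤ)) ↔
    v.1 - r ≤ f.1 ∧ f.1 < v.1 + r ∧ v.2 - r ≤ f.2 ∧ f.2 < v.2 + r := by
  rw [mem_coe, mem_BR]

theorem InE_iff : InE v r a ↔ InR (v.1 - r) (v.1 + r) (v.2 - r) (v.2 + r) (ua a) ∧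
    InR (v.1 - r) (v.1 + r) (v.2 - r) (v.2 + r) (ub a) := Iff.rfl

theorem inE_of_side (hf : f ∈ (BR v r : Set (ℤ × ℤ))) (hs : IsSide f a) : InE v r a :=
  ⟨IsCor.inR hf hs.cor.1, IsCor.inR hf hs.cor.2⟩

theorem MM_inE (he : InE v r e) (ha : a ∈ MM ω (BR v r) e) : InE v r a := by
  induction ha with
  | refl => exact he
  | tail _ hs _ =>
    obtain ⟨f, hf, hm⟩ := hs
    exact inE_of_side hf hm.right

theorem BdR.inE (hr : 0 ≤ r) (h : BdR v r a) : InE v r a := by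
  obtain ⟨x, y, c⟩ := a
  unfold BdR BdE at h
  unfold InE InR
  cases c
  · rw [ua_mk, ub_false]
    simp at h ⊢
    omega
  · rw [ua_mk, ub_true]
    simp at h ⊢
    omega

/-- A unit edge in the closed box which is a side of a face outside the box is on the boundary. -/
theorem bd_of_side (ha : InE v r a) (hs : IsSide f a) (hf : f ∉ (BR v r : Set (ℤ × ℤ))) :
    BdR v r a := by
  rw [mem_BR'] at hf
  obtain ⟨x, y⟩ := f
  unfold InE InR at ha
  unfold BdR BdE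
  rcases hs with rfl | rfl | rfl | rfl
  · simp only [bo, ua_mk, ub_false] at ha ⊢
    simp at hf ⊢
    omega
  · simp only [le', ua_mk, ub_true] at ha ⊢
    simp at hf ⊢
    omega
  · simp only [to', ua_mk, ub_false] at ha ⊢
    simp at hf ⊢
    omega
  · simp only [ri, ua_mk, ub_true] at ha ⊢
    simp at hf ⊢
    omega

/-- A small box in a big box. -/
def Sub (v' : ℤ × ℤ) (r' : ℤ) (v : ℤ × ℤ) (r : ℤ) : Prop :=
  v.1 - r ≤ v'.1 - r' ∧ v'.1 + r' ≤ v.1 + r ∧ v.2 - r ≤ v'.2 - r' ∧ v'.2 + r' ≤ v.2 + r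

theorem Sub.subset (h : Sub v' r' v r) : BR v' r' ⊆ BR v r := by
  intro f hf
  rw [mem_BR] at hf ⊢
  unfold Sub at h
  omega

theorem Sub.inE (h : Sub v' r' v r) (ha : InE v' r' a) : InE v r a := by
  unfold Sub at h
  unfold InE InR at ha ⊢
  omega

theorem Sub.refl' (h : r' ≤ r) : Sub v r' v r := by
  unfold Sub
  omega

/-! ### Components -/

theorem MM_trans {F : Set (ℤ × ℤ)} (h : a ∈ MM ω F e) (h' : b ∈ MM ω F a) : b ∈ MM ω F e :=
  Relation.ReflTransGen.trans h h'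

theorem MM_symm {F : Set (ℤ × ℤ)} (h : a ∈ MM ω F e) : e ∈ MM ω F a := by
  induction h with
  | refl => exact mem_MM_self
  | tail _ hs ih =>
    obtain ⟨f, hf, hm⟩ := hs
    exact MM_trans (Relation.ReflTransGen.single ⟨f, hf, hm.symm⟩) ih

theorem MM_eq {F : Set (ℤ × ℤ)} (h : a ∈ MM ω F e) : MM ω F a = MM ω F e :=
  Set.Subset.antisymm (fun _ hb => MM_trans h hb) fun _ hb => MM_trans (MM_symm h) hb

theorem Rch_iff (h : a ∈ MM ω (BR v r) e) : ω ∈ Rch v r a ↔ ω ∈ Rch v r e := by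
  unfold Rch
  rw [Set.mem_ofPred_eq, Set.mem_ofPred_eq, MM_eq h]

theorem MM_congr' {F : Set (ℤ × ℤ)} (h : ∀ f ∈ F, ω f = ω' f) : MM ω' F e = MM ω F e :=
  MM_congr fun f hf => h f hf.1

theorem Mt.congr {x x' : UE} (h : ω f = ω' f) (hm : Mt ω f x x') : Mt ω' f x x' := by
  unfold Mt at *
  rw [← h]
  exact hm

/-- First exit from a smaller box. -/
theorem first_exit (he : InE v' r' e) (ha : a ∈ MM ω (BR v r) e) :
    a ∈ MM ω (BR v' r') e ∨ ∃ b ∈ MM ω (BR v' r') e, BdR v' r' b := by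
  induction ha with
  | refl => exact Or.inl mem_MM_self
  | tail _ hs ih =>
    obtain ⟨f, hf, hm⟩ := hs
    rcases ih with ih | ih
    · by_cases hf' : f ∈ (BR v' r' : Set (ℤ × ℤ))
      · exact Or.inl (MM_step hf' hm ih)
      · exact Or.inr ⟨_, ih, bd_of_side (MM_inE he ih) hm.left hf'⟩
    · exact Or.inr ih

theorem bdR_of_sub (h : Sub v' r' v r) (ha : InE v' r' a) (hb : BdR v r a) : BdR v' r' a := by
  obtain ⟨x, y, c⟩ := a
  unfold Sub at h
  unfold BdR BdE at hb ⊢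
  unfold InE InR at ha
  cases c
  · rw [ua_mk, ub_false] at ha
    simp at hb ha ⊢
    omega
  · rw [ua_mk, ub_true] at ha
    simp at hb ha ⊢
    omega

/-- If the component reaches the boundary of the big box, it reaches that of the smaller one. -/
theorem Rch_sub (h : Sub v' r' v r) (he : InE v' r' e) (hω : ω ∈ Rch v r e) :
    ω ∈ Rch v' r' e := by
  obtain ⟨a, ha, hb⟩ := hω
  rcases first_exit he ha with h1 | h1
  · exact ⟨a, h1, bdR_of_sub h (MM_inE he h1) hb⟩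
  · exact h1

/-- Last exit from a smaller box. -/
theorem last_exit (he : InE v' r' e) (ha : a ∈ MM ω (BR v r) e) :
    InE v' r' a ∨ ∃ b ∈ MM ω (BR v r) e, BdR v' r' b ∧
      a ∈ MM ω (BR v r \ BR v' r' : Finset (ℤ × ℤ)) b := by
  induction ha with
  | refl => exact Or.inl he
  | tail hab hs ih =>
    obtain ⟨f, hf, hm⟩ := hs
    by_cases hf' : f ∈ (BR v' r' : Set (ℤ × ℤ))
    · exact Or.inl (inE_of_side hf' hm.right)
    · have hf2 : f ∈ ((BR v r \ BR v' r' : Finset (ℤ × ℤ)) : Set (ℤ × ℤ)) := by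
        rw [mem_coe, mem_sdiff]
        exact ⟨mem_coe.1 hf, fun h => hf' (mem_coe.2 h)⟩
      right
      rcases ih with ih | ⟨b, hb1, hb2, hb3⟩
      · exact ⟨_, hab, bd_of_side ih hm.left hf', Relation.ReflTransGen.single ⟨f, hf2, hm⟩⟩
      · exact ⟨b, hb1, hb2, MM_step hf2 hm hb3⟩

theorem MM_sub {F F' : Set (ℤ × ℤ)} (h : F ⊆ F') : MM ω F e ⊆ MM ω F' e :=
  fun _ ha => MM_mono h ha

/-! ### Finiteness and counting -/

theorem mem_UB : a ∈ UB v r ↔ InR (v.1 - r) (v.1 + r) (v.2 - r) (v.2 + r) (ua a) := by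
  unfold UB InR ua
  rw [mem_product, mem_product, mem_Icc, mem_Icc]
  simp only [mem_univ, and_true]
  tauto

theorem InE.mem_UB (h : InE v r a) : a ∈ UB v r := PercD.mem_UB.2 h.1

theorem card_UB (v : ℤ × ℤ) (n : ℕ) : (UB v n).card = 2 * (2 * n + 1) ^ 2 := by
  unfold UB
  rw [card_product, card_product, Int.card_Icc, Int.card_Icc, card_univ, Fintype.card_bool]
  have h1 : (v.1 + n + 1 - (v.1 - n)).toNat = 2 * n + 1 := by omega
  have h2 : (v.2 + n + 1 - (v.2 - n)).toNat = 2 * n + 1 := by omega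
  rw [h1, h2]
  ring

theorem MM_finite (he : InE v r e) : (MM ω (BR v r) e).Finite :=
  (UB v r).finite_toSet.subset fun _ ha => mem_coe.2 (MM_inE he ha).mem_UB

theorem MM_finite' (n : ℕ) : (MM ω (BR (ua e) n) e).Finite := by
  refine (insert e (UB (ua e) n)).finite_toSet.subset fun a ha => ?_
  rw [mem_coe, mem_insert]
  rcases Relation.ReflTransGen.cases_tail ha with h | ⟨c, -, f, hf, hm⟩
  · exact Or.inl h
  · exact Or.inr (inE_of_side hf hm.right).mem_UB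

theorem one_le_ncard (n : ℕ) : 1 ≤ (MM ω (BR (ua e) n) e).ncard := by
  exact (Set.ncard_pos (MM_finite' n)).2 ⟨e, mem_MM_self⟩

/-! ### Probability -/

open Classical in
/-- The first moment bound for the number of occurring events. -/
theorem pr_count_le {ι : Type} (W : Finset (ℤ × ℤ)) (I : Finset ι) (A : ι → Set Cfg) {t : ℝ}
    (ht : 0 < t) :
    pr W {ω | t ≤ ((I.filter fun i => ω ∈ A i).card : ℝ)} ≤ (∑ i ∈ I, pr W (A i)) / t := by
  rw [le_div_iff₀ ht]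
  have h1 : ∑ i ∈ I, pr W (A i) =
      (∑ T ∈ W.powerset, ((I.filter fun i => cfg T ∈ A i).card : ℝ)) / 2 ^ W.card := by
    simp_rw [ProbA.pr_eq_sum]
    rw [← sum_div, sum_comm]
    congr 1
    refine sum_congr rfl fun T _ => ?_
    rw [card_filter]
    push_cast
    rfl
  rw [h1, ProbA.pr_eq_sum, div_mul_eq_mul_div, sum_mul]
  refine div_le_div_of_nonneg_right (sum_le_sum fun T _ => ?_) (by positivity)
  by_cases h : cfg T ∈ {ω | t ≤ ((I.filter fun i => ω ∈ A i).card : ℝ)}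
  · rw [if_pos h, one_mul]
    exact h
  · rw [if_neg h, zero_mul]
    positivity

/-- The union bound. -/
theorem pr_biUnion_le {ι : Type} (W : Finset (ℤ × ℤ)) (I : Finset ι) (A : ι → Set Cfg) :
    pr W (⋃ i ∈ I, A i) ≤ ∑ i ∈ I, pr W (A i) := by
  classical
  induction I using Finset.induction_on with
  | empty =>
    simp only [notMem_empty, Set.iUnion_of_empty, Set.iUnion_empty, sum_empty]
    rw [ProbA.pr_eq_sum]
    simp
  | insert i I hi ih =>
    rw [sum_insert hi, set_biUnion_insert]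
    exact (pr_union_le W _ _).trans (add_le_add le_rfl ih)

/-- Independence in a bigger window. -/
theorem pr_indep {W S S' : Finset (ℤ × ℤ)} {A B : Set Cfg} (hA : DepOn S A) (hB : DepOn S' B)
    (hd : Disjoint S S') (h : S ⊆ W) (h' : S' ⊆ W) : pr W (A ∩ B) = pr S A * pr S' B := by
  rw [← pr_inter_of_disjoint hA hB hd]
  refine pr_eq_of_depOn ?_ (union_subset h h')
  intro ω ω' hω
  have h1 := hA ω ω' fun f hf => hω f (mem_coe.2 (mem_union_left _ (mem_coe.1 hf)))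
  have h2 := hB ω ω' fun f hf => hω f (mem_coe.2 (mem_union_right _ (mem_coe.1 hf)))
  rw [Set.mem_inter_iff, Set.mem_inter_iff, h1, h2]

theorem depOn_Rch (v : ℤ × ℤ) (r : ℤ) (e : UE) : DepOn (BR v r) (Rch v r e) := by
  intro ω ω' h
  unfold Rch
  rw [Set.mem_ofPred_eq, Set.mem_ofPred_eq, MM_congr' (ω := ω) (ω' := ω') h]

theorem depOn_Pev (v : ℤ × ℤ) (d w : ℤ) : DepOn (BR v w) (Pev v d w) := by
  intro ω ω' h
  unfold Pev
  rw [Set.mem_ofPred_eq, Set.mem_ofPred_eq]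
  exact exists_congr fun e => and_congr_right fun _ => depOn_Rch v w e ω ω' h

theorem depOn_Xev (v : ℤ × ℤ) (d w : ℤ) :
    DepOn (BR v w \ BR v d : Finset (ℤ × ℤ)) (Xev v d w) := by
  intro ω ω' h
  unfold Xev
  rw [Set.mem_ofPred_eq, Set.mem_ofPred_eq]
  refine exists_congr fun b => and_congr_right fun _ => ?_
  rw [MM_congr' (ω := ω) (ω' := ω') h]

theorem depOn_mono {S S' : Set (ℤ × ℤ)} {A : Set Cfg} (h : S ⊆ S') (hA : DepOn S A) :
    DepOn S' A := fun ω ω' hω => hA ω ω' fun f hf => hω f (h hf)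

theorem sub_two (he : InE v r e) : Sub (ua e) r v (2 * r) := by
  unfold InE InR at he
  unfold Sub
  omega

theorem depOn_Bad (v : ℤ × ℤ) (d : ℤ) (m : ℝ) : DepOn (BR v (2 * d)) (Bad v d m) := by
  intro ω ω' h
  unfold Bad
  rw [Set.mem_ofPred_eq, Set.mem_ofPred_eq]
  refine exists_congr fun e => and_congr_right fun he => ?_
  have hsub := (sub_two he).subset
  have h1 : ∀ f ∈ (BR (ua e) d : Set (ℤ × ℤ)), ω f = ω' f := fun f hf =>
    h f (mem_coe.2 (hsub (mem_coe.1 hf)))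
  rw [depOn_Rch (ua e) d e ω ω' h1, MM_congr' (ω := ω) (ω' := ω') h1]

/-- Crossing an annulus from a unit edge inside. -/
theorem Xev_of_Rch {d w : ℤ} (he : InE v d e) (h : ω ∈ Rch v w e) (hdw : d ≤ w) :
    ω ∈ Xev v d w := by
  obtain ⟨a, ha, hb⟩ := h
  rcases last_exit he ha with h1 | ⟨b, -, hb2, hb3⟩
  · exact ⟨a, bdR_of_sub (Sub.refl' hdw) h1 hb, a, mem_MM_self, hb⟩
  · exact ⟨b, hb2, a, hb3, hb⟩

theorem Xev_sub_Pev {d w : ℤ} (hd : 0 ≤ d) : Xev v d w ⊆ Pev v d w := by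
  rintro ω ⟨b, hb, a, ha, hab⟩
  refine ⟨b, hb.inE hd, a, MM_mono ?_ ha, hab⟩
  intro f hf
  rw [mem_coe, mem_sdiff] at hf
  exact mem_coe.2 hf.1

/-! ### Hypotheses of the part D -/

/-- The upper bound for two arms. -/
def UpperHyp : Prop := ∃ C : ℝ, 0 < C ∧ ∀ (e : UE) (r : ℕ), 1 ≤ r →
  pr (BR (ua e) r) (Rch (ua e) r e) ≤ C * (r : ℝ) ^ (-(1 / 4 : ℝ))

/-- The lower tail of the number of unit edges of a long component. -/
def TailHyp : Prop := ∃ (c q : ℝ) (A : ℕ), 0 < c ∧ 0 < q ∧ q < 1 ∧ ∀ (e : UE) (r s K : ℕ),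
  1 ≤ s → A * s ≤ r →
    pr (BR (ua e) ((r + K * s : ℕ) : ℤ)) {ω | ω ∈ Rch (ua e) ((r + K * s : ℕ) : ℤ) e ∧
      ((MM ω (BR (ua e) ((r + K * s : ℕ) : ℤ)) e).ncard : ℝ) < c * (s : ℝ) ^ (7 / 4 : ℝ)} ≤
    q ^ K * pr (BR (ua e) r) (Rch (ua e) r e)

end Pool.Agent.PercD

end PartpercdBase

section PartpercdLT

/-!
# The macroscopic lower tail (task D_LT)
-/

set_option autoImplicit false

namespace Pool.Agent.PercD

open Finset Pool.Agent.Perc

namespace LTail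

variable {ω : Cfg} {e e' : UE} {v : ℤ × ℤ}

/-- The component of `e` in the box of radius `ρ` reaches the boundary but has at most `z ^ (7/4)`
unit edges. -/
def Few (e : UE) (ρ : ℕ) (z : ℝ) : Set Cfg :=
  {ω | ω ∈ Rch (ua e) ρ e ∧ ((MM ω (BR (ua e) ρ) e).ncard : ℝ) ≤ z ^ (7 / 4 : ℝ)}

theorem depOn_Few (e : UE) (ρ : ℕ) (z : ℝ) : DepOn (BR (ua e) ρ) (Few e ρ z) := by
  intro ω ω' h
  unfold Few
  rw [Set.mem_ofPred_eq, Set.mem_ofPred_eq, depOn_Rch (ua e) ρ e ω ω' h,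
    MM_congr' (ω := ω) (ω' := ω') h]

theorem inE_self (e : UE) {r : ℤ} (hr : 1 ≤ r) : InE (ua e) r e := by
  obtain ⟨x, y, b⟩ := e
  unfold InE InR
  cases b
  · rw [ua_mk, ub_false]
    simp
    omega
  · rw [ua_mk, ub_true]
    simp
    omega

theorem not_few {ρ : ℕ} {z : ℝ} (hz : 0 ≤ z) (hz1 : z < 1) : Few e ρ z = ∅ := by
  rw [Set.eq_empty_iff_forall_notMem]
  rintro ω ⟨-, h⟩
  have h1 : (1 : ℝ) ≤ ((MM ω (BR (ua e) ρ) e).ncard : ℝ) := by
    exact_mod_cast one_le_ncard (ω := ω) (e := e) ρ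
  have h2 : z ^ (7 / 4 : ℝ) < 1 := Real.rpow_lt_one hz hz1 (by norm_num)
  linarith

/-- Geometric decay beats a fixed power. -/
theorem exists_geom {q : ℝ} (hq0 : 0 < q) (hq1 : q < 1) :
    ∃ C : ℝ, 0 < C ∧ ∀ K : ℕ, q ^ K * ((K : ℝ) + 1) ^ 8 ≤ C := by
  have h1 : Filter.Tendsto (fun K : ℕ => (K : ℝ) ^ 8 * q ^ K) Filter.atTop (nhds 0) :=
    tendsto_pow_const_mul_const_pow_of_lt_one 8 hq0.le hq1
  obtain ⟨B, hB⟩ := h1.bddAbove_range
  refine ⟨max 1 B / q, by positivity, fun K => ?_⟩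
  have h2 : ((K + 1 : ℕ) : ℝ) ^ 8 * q ^ (K + 1) ≤ B := hB ⟨K + 1, rfl⟩
  rw [le_div_iff₀ hq0]
  push_cast at h2
  calc q ^ K * ((K : ℝ) + 1) ^ 8 * q = ((K : ℝ) + 1) ^ 8 * q ^ (K + 1) := by ring
    _ ≤ B := h2
    _ ≤ max 1 B := le_max_right _ _

theorem few_bound (hU : UpperHyp) (hT : TailHyp) : ∃ C : ℝ, 0 < C ∧ ∀ (e : UE) (ρ : ℕ) (z : ℝ),
    1 ≤ ρ → 0 ≤ z →
      pr (BR (ua e) ρ) (Few e ρ z) ≤ C * (ρ : ℝ) ^ (-(1 / 4 : ℝ)) * (z / ρ) ^ 8 := by
  obtain ⟨CU, hCU, hU⟩ := hU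
  obtain ⟨c, q, A, hc, hq0, hq1, hT⟩ := hT
  obtain ⟨Cq, hCq, hq⟩ := exists_geom hq0 hq1
  set B : ℝ := c ^ (-(4 / 7 : ℝ)) + 2 with hB
  have hB2 : 2 ≤ B := by
    have : 0 < c ^ (-(4 / 7 : ℝ)) := Real.rpow_pos_of_pos hc _
    linarith
  have hB0 : 0 < B := by linarith
  refine ⟨CU * (((2 * A + 2) * B) ^ 8 + 4 * Cq * (2 * B) ^ 8), by positivity, ?_⟩
  intro e ρ z hρ hz
  have hρ0 : (0 : ℝ) < ρ := by exact_mod_cast hρ
  have hpow : 0 < (ρ : ℝ) ^ (-(1 / 4 : ℝ)) := Real.rpow_pos_of_pos hρ0 _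
  by_cases hz1 : z < 1
  · rw [not_few hz hz1]
    have h0 : pr (BR (ua e) ρ) ∅ = 0 := by
      rw [ProbA.pr_eq_sum]
      simp
    rw [h0]
    positivity
  push Not at hz1
  have hzp : 0 < z := by linarith
  -- the scale
  set s : ℕ := ⌈c ^ (-(4 / 7 : ℝ)) * z⌉₊ + 1 with hs
  have hs1 : 1 ≤ s := by omega
  have hs0 : (0 : ℝ) < s := by exact_mod_cast hs1
  have hsB : (s : ℝ) ≤ B * z := by
    have h1 : ((⌈c ^ (-(4 / 7 : ℝ)) * z⌉₊ : ℕ) : ℝ) < c ^ (-(4 / 7 : ℝ)) * z + 1 :=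
      Nat.ceil_lt_add_one (by positivity)
    rw [hs]
    push_cast
    rw [hB, add_mul]
    linarith
  have hsz : z ^ (7 / 4 : ℝ) < c * (s : ℝ) ^ (7 / 4 : ℝ) := by
    have h1 : c ^ (-(4 / 7 : ℝ)) * z < s := by
      have := Nat.le_ceil (c ^ (-(4 / 7 : ℝ)) * z)
      rw [hs]
      push_cast
      linarith
    have h2 : (c ^ (-(4 / 7 : ℝ)) * z) ^ (7 / 4 : ℝ) < (s : ℝ) ^ (7 / 4 : ℝ) :=
      Real.rpow_lt_rpow (by positivity) h1 (by norm_num)
    rw [Real.mul_rpow (by positivity) hz, ← Real.rpow_mul hc.le] at h2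
    have h3 : (-(4 / 7 : ℝ) * (7 / 4)) = -1 := by norm_num
    rw [h3, Real.rpow_neg_one] at h2
    calc z ^ (7 / 4 : ℝ) = c * (c⁻¹ * z ^ (7 / 4 : ℝ)) := by field_simp
      _ < c * (s : ℝ) ^ (7 / 4 : ℝ) := mul_lt_mul_of_pos_left h2 hc
  set r : ℕ := ρ / 2 with hr
  by_cases hcase : A * s ≤ r ∧ 1 ≤ r
  · obtain ⟨hA, hr1⟩ := hcase
    set K : ℕ := (ρ - r) / s with hK
    have hKs : r + K * s ≤ ρ := by
      have h0 : K * s ≤ ρ - r := Nat.div_mul_le_self (ρ - r) s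
      omega
    have h1 := hT e r s K hs1 hA
    have h2 : pr (BR (ua e) ρ) (Few e ρ z) ≤
        pr (BR (ua e) ((r + K * s : ℕ) : ℤ)) {ω | ω ∈ Rch (ua e) ((r + K * s : ℕ) : ℤ) e ∧
          ((MM ω (BR (ua e) ((r + K * s : ℕ) : ℤ)) e).ncard : ℝ) < c * (s : ℝ) ^ (7 / 4 : ℝ)} := by
      have hsub : Sub (ua e) ((r + K * s : ℕ) : ℤ) (ua e) ρ := Sub.refl' (by exact_mod_cast hKs)
      rw [← pr_eq_of_depOn (S' := BR (ua e) ρ) ?_ hsub.subset]
      · refine pr_mono _ ?_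
        rintro ω ⟨h3, h4⟩
        refine ⟨Rch_sub hsub (inE_self e (by exact_mod_cast (by omega : 1 ≤ r + K * s))) h3, ?_⟩
        refine lt_of_le_of_lt ?_ (lt_of_le_of_lt h4 hsz)
        exact_mod_cast Set.ncard_le_ncard (MM_sub (by exact_mod_cast hsub.subset)) (MM_finite' ρ)
      · intro ω ω' h
        rw [Set.mem_ofPred_eq, Set.mem_ofPred_eq, depOn_Rch _ _ e ω ω' h,
          MM_congr' (ω := ω) (ω' := ω') h]
    have h3 := hU e r hr1
    have h4 : q ^ K ≤ Cq * (2 * B) ^ 8 * (z / ρ) ^ 8 := by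
      have h5 : (ρ : ℝ) / (2 * B * z) ≤ (K : ℝ) + 1 := by
        have h6 : ρ - r < (K + 1) * s := by
          have h0 : ρ - r < K * s + s := Nat.lt_div_mul_add (a := ρ - r) (b := s) (by omega)
          rw [add_mul, one_mul]
          exact h0
        have h7 : ρ ≤ 2 * ((K + 1) * s) := by omega
        have h8 : (ρ : ℝ) ≤ 2 * (((K : ℝ) + 1) * s) := by exact_mod_cast h7
        rw [div_le_iff₀ (by positivity)]
        have h9 : ((K : ℝ) + 1) * s ≤ ((K : ℝ) + 1) * (B * z) :=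
          mul_le_mul_of_nonneg_left hsB (by positivity)
        linarith
      have h6 : ((ρ : ℝ) / (2 * B * z)) ^ 8 ≤ ((K : ℝ) + 1) ^ 8 :=
        pow_le_pow_left₀ (by positivity) h5 8
      have h7 := hq K
      have h8 : q ^ K * ((ρ : ℝ) / (2 * B * z)) ^ 8 ≤ Cq :=
        le_trans (mul_le_mul_of_nonneg_left h6 (by positivity)) h7
      have h9 : (0 : ℝ) < ((ρ : ℝ) / (2 * B * z)) ^ 8 := by positivity
      rw [← le_div_iff₀ h9] at h8
      refine h8.trans (le_of_eq ?_)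
      field_simp
    have h5 : (r : ℝ) ^ (-(1 / 4 : ℝ)) ≤ 4 * (ρ : ℝ) ^ (-(1 / 4 : ℝ)) := by
      have h6 : (ρ : ℝ) / 4 ≤ r := by
        have : ρ ≤ 4 * r := by omega
        have : (ρ : ℝ) ≤ 4 * r := by exact_mod_cast this
        linarith
      calc (r : ℝ) ^ (-(1 / 4 : ℝ)) ≤ ((ρ : ℝ) / 4) ^ (-(1 / 4 : ℝ)) :=
            Real.rpow_le_rpow_of_nonpos (by positivity) h6 (by norm_num)
        _ = (ρ : ℝ) ^ (-(1 / 4 : ℝ)) * (4 : ℝ) ^ (1 / 4 : ℝ) := by
            rw [Real.div_rpow hρ0.le (by norm_num), Real.rpow_neg (by norm_num : (0:ℝ) ≤ 4),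
              div_inv_eq_mul]
        _ ≤ (ρ : ℝ) ^ (-(1 / 4 : ℝ)) * 4 := by
            refine mul_le_mul_of_nonneg_left ?_ hpow.le
            calc (4 : ℝ) ^ (1 / 4 : ℝ) ≤ (4 : ℝ) ^ (1 : ℝ) :=
                  Real.rpow_le_rpow_of_exponent_le (by norm_num) (by norm_num)
              _ = 4 := Real.rpow_one 4
        _ = 4 * (ρ : ℝ) ^ (-(1 / 4 : ℝ)) := by ring
    calc pr (BR (ua e) ρ) (Few e ρ z) ≤ _ := h2
      _ ≤ q ^ K * pr (BR (ua e) r) (Rch (ua e) r e) := h1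
      _ ≤ q ^ K * (CU * (r : ℝ) ^ (-(1 / 4 : ℝ))) :=
          mul_le_mul_of_nonneg_left h3 (by positivity)
      _ ≤ (Cq * (2 * B) ^ 8 * (z / ρ) ^ 8) * (CU * (4 * (ρ : ℝ) ^ (-(1 / 4 : ℝ)))) :=
          mul_le_mul h4 (mul_le_mul_of_nonneg_left h5 hCU.le) (by positivity) (by positivity)
      _ = CU * (4 * Cq * (2 * B) ^ 8) * (ρ : ℝ) ^ (-(1 / 4 : ℝ)) * (z / ρ) ^ 8 := by ring
      _ ≤ CU * (((2 * A + 2) * B) ^ 8 + 4 * Cq * (2 * B) ^ 8) *
            (ρ : ℝ) ^ (-(1 / 4 : ℝ)) * (z / ρ) ^ 8 := by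
          refine mul_le_mul_of_nonneg_right (mul_le_mul_of_nonneg_right
            (mul_le_mul_of_nonneg_left ?_ hCU.le) hpow.le) (by positivity)
          have : (0 : ℝ) ≤ ((2 * A + 2) * B) ^ 8 := by positivity
          linarith
  · have h1 : pr (BR (ua e) ρ) (Few e ρ z) ≤ CU * (ρ : ℝ) ^ (-(1 / 4 : ℝ)) :=
      (pr_mono _ fun ω h => h.1).trans (hU e ρ hρ)
    have h2 : ρ ≤ (2 * A + 2) * s := by
      by_cases hr0 : 1 ≤ r
      · have : r < A * s := by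
          by_contra hcon
          exact hcase ⟨by omega, hr0⟩
        have h3 : ρ ≤ 2 * r + 1 := by omega
        nlinarith
      · have h3 : ρ ≤ 1 := by omega
        nlinarith
    have h3 : (ρ : ℝ) ≤ (2 * A + 2) * B * z := by
      have h4 : (ρ : ℝ) ≤ (2 * A + 2) * s := by exact_mod_cast h2
      have h5 : (2 * (A : ℝ) + 2) * s ≤ (2 * A + 2) * (B * z) :=
        mul_le_mul_of_nonneg_left hsB (by positivity)
      linarith
    have h4 : (1 : ℝ) ≤ ((2 * A + 2) * B) ^ 8 * (z / ρ) ^ 8 := by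
      rw [← mul_pow]
      refine one_le_pow₀ ?_
      rw [← mul_div_assoc, le_div_iff₀ hρ0, one_mul]
      exact h3
    calc pr (BR (ua e) ρ) (Few e ρ z) ≤ CU * (ρ : ℝ) ^ (-(1 / 4 : ℝ)) * 1 := by rw [mul_one]; exact h1
      _ ≤ CU * (ρ : ℝ) ^ (-(1 / 4 : ℝ)) * (((2 * A + 2) * B) ^ 8 * (z / ρ) ^ 8) :=
          mul_le_mul_of_nonneg_left h4 (by positivity)
      _ = CU * ((2 * A + 2) * B) ^ 8 * (ρ : ℝ) ^ (-(1 / 4 : ℝ)) * (z / ρ) ^ 8 := by ring
      _ ≤ CU * (((2 * A + 2) * B) ^ 8 + 4 * Cq * (2 * B) ^ 8) *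
            (ρ : ℝ) ^ (-(1 / 4 : ℝ)) * (z / ρ) ^ 8 := by
          refine mul_le_mul_of_nonneg_right (mul_le_mul_of_nonneg_right
            (mul_le_mul_of_nonneg_left ?_ hCU.le) hpow.le) (by positivity)
          have : (0 : ℝ) ≤ 4 * Cq * (2 * B) ^ 8 := by positivity
          linarith

/-- The dyadic step: a unit edge with few unit edges at scale `d` gives many unit edges with few
unit edges at a smaller scale. -/
theorem exists_scale {d : ℕ} (hd : 1 ≤ d) {lam : ℝ} (hl0 : 0 < lam) (hl1 : lam ≤ 1 / 8)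
    (h : ω ∈ Bad v d ((lam * d) ^ (7 / 4 : ℝ))) :
    ∃ j ∈ range d, 1 ≤ d / 2 ^ (j + 1) ∧
      ∃ e, InE v d e ∧ (lam * d / 8 ^ (j + 1)) ^ (7 / 4 : ℝ) ≤
        ((MM ω (BR (ua e) ((d / 2 ^ (j + 1) : ℕ) : ℤ)) e).ncard : ℝ) ∧
        ∀ e' ∈ MM ω (BR (ua e) ((d / 2 ^ (j + 1) : ℕ) : ℤ)) e,
          ω ∈ Few e' (d / 2 ^ (j + 1)) (lam * d / 8 ^ j) := by
  classical
  obtain ⟨e, he, hR, hm⟩ := h
  have hd0 : (1 : ℝ) ≤ d := by exact_mod_cast hd
  set P : ℕ → Prop := fun j => (lam * d / 8 ^ j) ^ (7 / 4 : ℝ) <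
    ((MM ω (BR (ua e) ((d / 2 ^ j : ℕ) : ℤ)) e).ncard : ℝ) with hP
  have hone : ∀ j : ℕ, (1 : ℝ) ≤ ((MM ω (BR (ua e) ((d / 2 ^ j : ℕ) : ℤ)) e).ncard : ℝ) := fun j => by
    exact_mod_cast one_le_ncard (ω := ω) (e := e) (d / 2 ^ j)
  have hsmall : ∀ j : ℕ, lam * d / 8 ^ j < 1 → P j := by
    intro j hj
    refine lt_of_lt_of_le ?_ (hone j)
    exact Real.rpow_lt_one (by positivity) hj (by norm_num)
  have h8 : ∀ j : ℕ, (d : ℝ) < 2 ^ (j + 1) → lam * d / 8 ^ j < 1 := by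
    intro j hj
    rw [div_lt_one (by positivity)]
    have h1 : (2 : ℝ) ^ (j + 1) ≤ 8 * 8 ^ j := by
      rw [pow_succ]
      have : (2 : ℝ) ^ j ≤ 8 ^ j := pow_le_pow_left₀ (by norm_num) (by norm_num) j
      nlinarith [pow_pos (by norm_num : (0 : ℝ) < 8) j]
    nlinarith
  have hex : ∃ j, P j := by
    refine ⟨d, hsmall d (h8 d ?_)⟩
    have : d < 2 ^ (d + 1) := (Nat.lt_two_pow_self).trans (Nat.pow_lt_pow_right (by norm_num) (by omega))
    exact_mod_cast this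
  have h0 : ¬ P 0 := by
    rw [hP]
    simp only [pow_zero, div_one, Nat.div_one, not_lt]
    exact hm
  obtain ⟨j, hj⟩ : ∃ j, Nat.find hex = j + 1 := by
    refine Nat.exists_eq_succ_of_ne_zero fun h => ?_
    have := Nat.find_spec hex
    rw [h] at this
    exact h0 this
  have hPj1 : P (j + 1) := hj ▸ Nat.find_spec hex
  have hPj : ¬ P j := Nat.find_min hex (by omega)
  have hdj : 2 ^ (j + 1) ≤ d := by
    by_contra hcon
    push Not at hcon
    exact hPj (hsmall j (h8 j (by exact_mod_cast hcon)))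
  have hjd : j < d := by
    have := (Nat.lt_two_pow_self (n := j)).trans_le
      ((Nat.pow_le_pow_right (by norm_num) (by omega : j ≤ j + 1)).trans hdj)
    exact this
  have hρ : 1 ≤ d / 2 ^ (j + 1) := (Nat.one_le_div_iff (by positivity)).2 hdj
  refine ⟨j, mem_range.2 hjd, hρ, e, he, le_of_lt hPj1, ?_⟩
  intro e' he'
  have hdiv : 2 * (d / 2 ^ (j + 1)) ≤ d / 2 ^ j := by
    rw [pow_succ, ← Nat.div_div_eq_div_mul]
    exact Nat.mul_div_le _ _
  have hdiv' : d / 2 ^ j ≤ d := Nat.div_le_self _ _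
  have hself : InE (ua e) ((d / 2 ^ (j + 1) : ℕ) : ℤ) e := inE_self e (by exact_mod_cast hρ)
  have hin : InE (ua e) ((d / 2 ^ (j + 1) : ℕ) : ℤ) e' := MM_inE hself he'
  have hsub1 : Sub (ua e) ((d / 2 ^ (j + 1) : ℕ) : ℤ) (ua e) ((d / 2 ^ j : ℕ) : ℤ) :=
    Sub.refl' (by exact_mod_cast (by omega : d / 2 ^ (j + 1) ≤ d / 2 ^ j))
  have hsub2 : Sub (ua e') ((d / 2 ^ (j + 1) : ℕ) : ℤ) (ua e) ((d / 2 ^ j : ℕ) : ℤ) := by
    have h1 := sub_two hin
    have h2 : (2 : ℤ) * ((d / 2 ^ (j + 1) : ℕ) : ℤ) ≤ ((d / 2 ^ j : ℕ) : ℤ) := by exact_mod_cast hdiv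
    unfold Sub at h1 ⊢
    omega
  have hsub3 : Sub (ua e) ((d / 2 ^ j : ℕ) : ℤ) (ua e) d := Sub.refl' (by exact_mod_cast hdiv')
  have hmem : e' ∈ MM ω (BR (ua e) ((d / 2 ^ j : ℕ) : ℤ)) e :=
    MM_mono (by exact_mod_cast hsub1.subset) he'
  have hself2 : InE (ua e) ((d / 2 ^ j : ℕ) : ℤ) e := hsub1.inE hself
  have hR2 : ω ∈ Rch (ua e) ((d / 2 ^ j : ℕ) : ℤ) e := Rch_sub hsub3 hself2 hR
  constructor
  · exact Rch_sub hsub2 (inE_self e' (by exact_mod_cast hρ)) ((Rch_iff hmem).2 hR2)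
  · have h1 : ((MM ω (BR (ua e) ((d / 2 ^ j : ℕ) : ℤ)) e).ncard : ℝ) ≤
        (lam * d / 8 ^ j) ^ (7 / 4 : ℝ) := by
      have := hPj
      rw [hP] at this
      exact not_lt.1 this
    refine le_trans ?_ h1
    have h2 : MM ω (BR (ua e') ((d / 2 ^ (j + 1) : ℕ) : ℤ)) e' ⊆
        MM ω (BR (ua e) ((d / 2 ^ j : ℕ) : ℤ)) e := by
      rw [← MM_eq hmem]
      exact MM_sub (by exact_mod_cast hsub2.subset)
    exact_mod_cast Set.ncard_le_ncard h2 (MM_finite' _)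

end LTail

open LTail

/-- A component which is long but has few unit edges is unlikely to exist. -/
theorem lt_bound (hU : UpperHyp) (hT : TailHyp) {η : ℝ} (hη : 0 < η) : ∃ x : ℝ, 0 < x ∧
    ∀ (v : ℤ × ℤ) (d : ℕ), 1 ≤ d →
      pr (BR v (2 * d)) (Bad v d (x * (d : ℝ) ^ (7 / 4 : ℝ))) ≤ η := by
  classical
  obtain ⟨C, hC, hfew⟩ := few_bound hU hT
  set B : ℝ := 50 * C * 4 ^ 8 * 256 * 2 with hB
  have hB0 : 0 < B := by positivity
  obtain ⟨lam, hl0, hl8, hlη⟩ : ∃ lam : ℝ, 0 < lam ∧ lam ≤ 1 / 8 ∧ B * lam ≤ η := by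
    refine ⟨min (1 / 8) (η / B), by positivity, min_le_left _ _, ?_⟩
    calc B * min (1 / 8) (η / B) ≤ B * (η / B) := mul_le_mul_of_nonneg_left (min_le_right _ _) hB0.le
      _ = η := by field_simp
  refine ⟨lam ^ (7 / 4 : ℝ), by positivity, ?_⟩
  intro v d hd
  have hd0 : (1 : ℝ) ≤ d := by exact_mod_cast hd
  have hdp : (0 : ℝ) < d := by linarith
  rw [← Real.mul_rpow hl0.le (by positivity)]
  set W := BR v (2 * d) with hW
  -- the events
  set I : ℕ → Finset UE := fun j => (UB v (2 * d)).filter fun e' =>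
    Sub (ua e') ((d / 2 ^ (j + 1) : ℕ) : ℤ) v (2 * d) with hI
  set G : ℕ → UE → Set Cfg := fun j e' => Few e' (d / 2 ^ (j + 1)) (lam * d / 8 ^ j) with hG
  set t : ℕ → ℝ := fun j => (lam * d / 8 ^ (j + 1)) ^ (7 / 4 : ℝ) with ht
  set Ev : ℕ → Set Cfg := fun j => if 1 ≤ d / 2 ^ (j + 1) then
    {ω | t j ≤ (((I j).filter fun e' => ω ∈ G j e').card : ℝ)} else ∅ with hEv
  have hcover : Bad v d ((lam * d) ^ (7 / 4 : ℝ)) ⊆ ⋃ j ∈ range d, Ev j := by
    intro ω hω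
    obtain ⟨j, hj, hρ, e, he, hmany, hfew'⟩ := exists_scale hd hl0 hl8 hω
    simp only [Set.mem_iUnion]
    refine ⟨j, hj, ?_⟩
    rw [hEv]
    simp only
    rw [if_pos hρ]
    refine le_trans hmany ?_
    rw [← Set.ncard_coe_finset]
    have hself : InE (ua e) ((d / 2 ^ (j + 1) : ℕ) : ℤ) e := inE_self e (by exact_mod_cast hρ)
    have hle : ((d / 2 ^ (j + 1) : ℕ) : ℤ) * 2 ≤ d := by
      have h1 : d / 2 ^ (j + 1) * 2 ≤ d := by
        rw [pow_succ, ← Nat.div_div_eq_div_mul]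
        exact (Nat.div_mul_le_self _ _).trans (Nat.div_le_self _ _)
      exact_mod_cast h1
    have hsub : MM ω (BR (ua e) ((d / 2 ^ (j + 1) : ℕ) : ℤ)) e ⊆
        (((I j).filter fun e' => ω ∈ G j e' : Finset UE) : Set UE) := by
      intro e' he'
      rw [mem_coe, mem_filter]
      have hin := MM_inE hself he'
      refine ⟨?_, hfew' e' he'⟩
      rw [hI]
      simp only
      rw [mem_filter]
      have h1 := sub_two hin
      have h2 := sub_two he
      have h3 := he.1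
      unfold InE InR at hin
      unfold InR at h3
      constructor
      · rw [mem_UB]
        unfold InR
        omega
      · unfold Sub at h1 h2 ⊢
        omega
    exact_mod_cast Set.ncard_le_ncard hsub (Finset.finite_toSet _)
  have hterm : ∀ j ∈ range d, pr W (Ev j) ≤ B / 2 * lam * (1 / 2) ^ j := by
    intro j _
    rw [hEv]
    simp only
    by_cases hρ : 1 ≤ d / 2 ^ (j + 1)
    swap
    · rw [if_neg hρ]
      have h0 : pr W ∅ = 0 := by
        rw [ProbA.pr_eq_sum]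
        simp
      rw [h0]
      positivity
    rw [if_pos hρ]
    set ρ : ℕ := d / 2 ^ (j + 1) with hρdef
    have hρ0 : (1 : ℝ) ≤ ρ := by exact_mod_cast hρ
    have htp : 0 < t j := by
      rw [ht]
      positivity
    refine (pr_count_le W (I j) (G j) htp).trans ?_
    have h1 : ∑ i ∈ I j, pr W (G j i) ≤ ∑ _i ∈ I j,
        C * (ρ : ℝ) ^ (-(1 / 4 : ℝ)) * ((lam * d / 8 ^ j) / ρ) ^ 8 := by
      refine sum_le_sum fun i hi => ?_
      rw [hI] at hi
      simp only at hi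
      rw [mem_filter] at hi
      rw [pr_eq_of_depOn (depOn_Few i ρ (lam * d / 8 ^ j)) hi.2.subset]
      exact hfew i ρ (lam * d / 8 ^ j) hρ (by positivity)
    have h2 : ((I j).card : ℝ) ≤ 50 * (d : ℝ) ^ 2 := by
      have h3 : (I j).card ≤ 2 * (2 * (2 * d) + 1) ^ 2 := by
        have h4 := card_UB v (2 * d)
        push_cast at h4
        rw [← h4]
        exact card_filter_le _ _
      have h4 : ((I j).card : ℝ) ≤ 2 * (2 * (2 * d) + 1) ^ 2 := by exact_mod_cast h3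
      nlinarith
    -- the ratio
    set u : ℝ := (d : ℝ) / ρ with hu
    have hu1 : 1 ≤ u := by
      rw [hu, one_le_div (by linarith)]
      exact_mod_cast Nat.div_le_self _ _
    have hu2 : u ≤ 4 * 2 ^ j := by
      rw [hu, div_le_iff₀ (by linarith)]
      have h5 : d < 2 ^ (j + 1) * (ρ + 1) := by
        have h6 := Nat.lt_mul_div_succ d (by positivity : 0 < 2 ^ (j + 1))
        exact h6
      have h6 : (d : ℝ) < 2 ^ (j + 1) * (ρ + 1) := by exact_mod_cast h5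
      have h7 : (2 : ℝ) ^ (j + 1) = 2 * 2 ^ j := by rw [pow_succ]; ring
      have h8 : (0 : ℝ) < 2 ^ j := by positivity
      rw [h7] at h6
      nlinarith
    have hρu : (ρ : ℝ) = d / u := by
      rw [hu]
      field_simp
    have hkey : (d : ℝ) ^ 2 * ((ρ : ℝ) ^ (-(1 / 4 : ℝ))) / t j ≤ u * (8 ^ (j + 1) / lam) ^ 2 := by
      have hup : 0 < u := by linarith
      have e1 : (ρ : ℝ) ^ (-(1 / 4 : ℝ)) = (d : ℝ) ^ (-(1 / 4 : ℝ)) * u ^ (1 / 4 : ℝ) := by
        rw [hρu, Real.div_rpow hdp.le hup.le, Real.rpow_neg hup.le, div_inv_eq_mul]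
      have e2 : t j = (d : ℝ) ^ (7 / 4 : ℝ) * ((8 ^ (j + 1) / lam) ^ (7 / 4 : ℝ))⁻¹ := by
        rw [ht]
        simp only
        rw [← Real.inv_rpow (by positivity), ← Real.mul_rpow (by positivity) (by positivity)]
        congr 1
        field_simp
      have e3 : (d : ℝ) ^ 2 * (d : ℝ) ^ (-(1 / 4 : ℝ)) / (d : ℝ) ^ (7 / 4 : ℝ) = 1 := by
        rw [← Real.rpow_natCast, ← Real.rpow_add hdp, ← Real.rpow_sub hdp]
        norm_num
      have e4 : (d : ℝ) ^ 2 * ((ρ : ℝ) ^ (-(1 / 4 : ℝ))) / t j =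
          u ^ (1 / 4 : ℝ) * (8 ^ (j + 1) / lam) ^ (7 / 4 : ℝ) := by
        rw [e1, e2]
        have hne : (d : ℝ) ^ (7 / 4 : ℝ) ≠ 0 := by positivity
        have hne2 : (8 ^ (j + 1) / lam) ^ (7 / 4 : ℝ) ≠ 0 := by positivity
        calc (d : ℝ) ^ 2 * ((d : ℝ) ^ (-(1 / 4 : ℝ)) * u ^ (1 / 4 : ℝ)) /
              ((d : ℝ) ^ (7 / 4 : ℝ) * ((8 ^ (j + 1) / lam) ^ (7 / 4 : ℝ))⁻¹)
            = ((d : ℝ) ^ 2 * (d : ℝ) ^ (-(1 / 4 : ℝ)) / (d : ℝ) ^ (7 / 4 : ℝ)) *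
              (u ^ (1 / 4 : ℝ) * (8 ^ (j + 1) / lam) ^ (7 / 4 : ℝ)) := by field_simp
          _ = _ := by rw [e3, one_mul]
      rw [e4]
      have e5 : u ^ (1 / 4 : ℝ) ≤ u := by
        calc u ^ (1 / 4 : ℝ) ≤ u ^ (1 : ℝ) :=
              Real.rpow_le_rpow_of_exponent_le hu1 (by norm_num)
          _ = u := Real.rpow_one u
      have e6 : (8 ^ (j + 1) / lam) ^ (7 / 4 : ℝ) ≤ (8 ^ (j + 1) / lam) ^ 2 := by
        rw [← Real.rpow_two]
        refine Real.rpow_le_rpow_of_exponent_le ?_ (by norm_num)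
        rw [le_div_iff₀ hl0]
        have : (1 : ℝ) ≤ 8 ^ (j + 1) := one_le_pow₀ (by norm_num)
        linarith
      exact mul_le_mul e5 e6 (by positivity) (by positivity)
    rw [sum_const, nsmul_eq_mul] at h1
    have hfin : (∑ i ∈ I j, pr W (G j i)) / t j ≤
        50 * C * (u * (8 ^ (j + 1) / lam) ^ 2) * (lam * u / 8 ^ j) ^ 8 := by
      rw [div_le_iff₀ htp]
      refine h1.trans ?_
      have e7 : lam * d / 8 ^ j / ρ = lam * u / 8 ^ j := by
        rw [hu]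
        field_simp
      rw [e7]
      have hkey' : (d : ℝ) ^ 2 * ((ρ : ℝ) ^ (-(1 / 4 : ℝ))) ≤ u * (8 ^ (j + 1) / lam) ^ 2 * t j := by
        rwa [div_le_iff₀ htp] at hkey
      calc ((I j).card : ℝ) * (C * (ρ : ℝ) ^ (-(1 / 4 : ℝ)) * (lam * u / 8 ^ j) ^ 8)
          ≤ (50 * (d : ℝ) ^ 2) * (C * (ρ : ℝ) ^ (-(1 / 4 : ℝ)) * (lam * u / 8 ^ j) ^ 8) :=
            mul_le_mul_of_nonneg_right h2 (by positivity)
        _ = 50 * C * (lam * u / 8 ^ j) ^ 8 * ((d : ℝ) ^ 2 * ((ρ : ℝ) ^ (-(1 / 4 : ℝ)))) := by ring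
        _ ≤ 50 * C * (lam * u / 8 ^ j) ^ 8 * (u * (8 ^ (j + 1) / lam) ^ 2 * t j) :=
            mul_le_mul_of_nonneg_left hkey' (by positivity)
        _ = 50 * C * (u * (8 ^ (j + 1) / lam) ^ 2) * (lam * u / 8 ^ j) ^ 8 * t j := by ring
    refine hfin.trans ?_
    -- now everything is explicit
    have e8 : 50 * C * (u * (8 ^ (j + 1) / lam) ^ 2) * (lam * u / 8 ^ j) ^ 8 ≤
        50 * C * ((4 * 2 ^ j) * (8 ^ (j + 1) / lam) ^ 2) * (lam * (4 * 2 ^ j) / 8 ^ j) ^ 8 := by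
      gcongr
    refine e8.trans ?_
    have e9 : 50 * C * ((4 * 2 ^ j) * (8 ^ (j + 1) / lam) ^ 2) * (lam * (4 * 2 ^ j) / 8 ^ j) ^ 8 =
        50 * C * 4 ^ 8 * 256 * lam ^ 6 * (2 ^ j * (8 ^ j) ^ 2 * ((2 ^ j) / 8 ^ j) ^ 8) := by
      rw [pow_succ]
      field_simp
      ring
    rw [e9]
    have e10 : (2 : ℝ) ^ j * (8 ^ j) ^ 2 * ((2 ^ j) / 8 ^ j) ^ 8 = ((1 / 2) ^ 9) ^ j := by
      rw [← div_pow, ← pow_mul, ← pow_mul, mul_comm j 2, mul_comm j 8, pow_mul, pow_mul,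
        ← mul_pow, ← mul_pow]
      norm_num
    rw [e10, hB]
    have e11 : ((1 / 2 : ℝ) ^ 9) ^ j ≤ (1 / 2) ^ j :=
      pow_le_pow_left₀ (by positivity) (by norm_num) j
    have e12 : lam ^ 6 ≤ lam := by
      calc lam ^ 6 = lam ^ 5 * lam := by ring
        _ ≤ 1 * lam := mul_le_mul_of_nonneg_right
            (pow_le_one₀ hl0.le (by linarith)) hl0.le
        _ = lam := one_mul _
    calc 50 * C * 4 ^ 8 * 256 * lam ^ 6 * ((1 / 2) ^ 9) ^ j
        ≤ 50 * C * 4 ^ 8 * 256 * lam * (1 / 2) ^ j := by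
          refine mul_le_mul (mul_le_mul_of_nonneg_left e12 (by positivity)) e11 (by positivity)
            (by positivity)
      _ = 50 * C * 4 ^ 8 * 256 * 2 / 2 * lam * (1 / 2) ^ j := by ring
  calc pr W (Bad v d ((lam * d) ^ (7 / 4 : ℝ))) ≤ pr W (⋃ j ∈ range d, Ev j) :=
        pr_mono W fun ω h => hcover h
    _ ≤ ∑ j ∈ range d, pr W (Ev j) := pr_biUnion_le _ _ _
    _ ≤ ∑ j ∈ range d, B / 2 * lam * (1 / 2) ^ j := sum_le_sum hterm
    _ = B / 2 * lam * ∑ j ∈ range d, (1 / 2 : ℝ) ^ j := by rw [mul_sum]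
    _ ≤ B / 2 * lam * 2 := by
        refine mul_le_mul_of_nonneg_left ?_ (by positivity)
        have h1 : ∑ j ∈ range d, (1 / 2 : ℝ) ^ j ≤ ∑' j : ℕ, (1 / 2 : ℝ) ^ j :=
          (summable_geometric_two).sum_le_tsum _ fun _ _ => by positivity
        rwa [tsum_geometric_two] at h1
    _ = B * lam := by ring
    _ ≤ η := hlη

end Pool.Agent.PercD

end PartpercdLT

section PartpercdBoxA

/-!
# From the face grid to the box: outer vertices and components
-/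

set_option autoImplicit false

namespace Pool.Agent.PercD

open Finset Pool.Agent.Perc
open Pool.Agent.MP_6bd702.H23 (Ed)
open Pool.Agent.PercU (Cor vtx fce)
open Pool.Agent.PercO (Orb sd Kc Oc mem_Oc)
open Pool.Agent.PercX60 (gV gF gB gT phiF dB TA Sn)
open Pool.Agent.PercW (kap ua_kap joins_kap)

variable {n : ℕ} {T : Finset Edg} {u x : ℤ × ℤ} {k : Cor} {ω : Cfg}

/-- An outer vertex is the vertex of an outer corner. -/
theorem exists_cor (hx : x ∈ OutV T u) : ∃ k ∈ Oc (T : Set Ed) u, vtx k = x := by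
  obtain ⟨e, he, hcl, ⟨b, hb⟩, hv⟩ := hx
  have h2 : hd e ∈ clV T u := Relation.ReflTransGen.tail hcl ⟨e, he, Or.inl ⟨rfl, rfl⟩⟩
  obtain ⟨a, c, t⟩ := e
  rcases hv with rfl | rfl
  · cases t <;> cases b
    · exact ⟨(a, c, true, false), mem_Oc.2 ⟨hcl, by simpa [fce, side, tl] using hb⟩, rfl⟩
    · exact ⟨(a, c, true, true), mem_Oc.2 ⟨hcl, by simpa [fce, side, tl] using hb⟩, rfl⟩
    · exact ⟨(a, c, false, true), mem_Oc.2 ⟨hcl, by simpa [fce, side, tl] using hb⟩, rfl⟩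
    · exact ⟨(a, c, true, true), mem_Oc.2 ⟨hcl, by simpa [fce, side, tl] using hb⟩, rfl⟩
  · cases t <;> cases b
    · exact ⟨(a + 1, c, false, false), mem_Oc.2 ⟨by simpa [vtx, hd] using h2,
        by simpa [fce, side, tl] using hb⟩, rfl⟩
    · exact ⟨(a + 1, c, false, true), mem_Oc.2 ⟨by simpa [vtx, hd] using h2,
        by simpa [fce, side, tl] using hb⟩, rfl⟩
    · exact ⟨(a, c + 1, false, false), mem_Oc.2 ⟨by simpa [vtx, hd] using h2,
        by simpa [fce, side, tl] using hb⟩, rfl⟩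
    · exact ⟨(a, c + 1, true, false), mem_Oc.2 ⟨by simpa [vtx, hd] using h2,
        by simpa [fce, side, tl] using hb⟩, rfl⟩

/-- The vertex of an outer corner of a cluster with an edge is an outer vertex. -/
theorem outV_of_cor (hd0 : 0 < Metric.diam (clS T u)) (hk : k ∈ Oc (T : Set Ed) u) :
    vtx k ∈ OutV T u := by
  obtain ⟨h1, h2⟩ := mem_Oc.1 hk
  have hne : ∃ e ∈ T, tl e = vtx k ∨ hd e = vtx k := by
    by_contra hcon
    push Not at hcon
    -- the cluster is one vertex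
    have hcl : ∀ w ∈ clV T u, w = vtx k := by
      have hsym : ∀ w, Relation.ReflTransGen (AdjT T) (vtx k) w → w = vtx k := by
        intro w hw
        induction hw with
        | refl => rfl
        | tail _ hs ih =>
          obtain ⟨e, he, h | h⟩ := hs
          · exact absurd (h.1.trans ih) (hcon e he).1
          · exact absurd (h.2.trans ih) (hcon e he).2
      intro w hw
      refine hsym w ?_
      have h3 : clV T (vtx k) = clV T u := BoxAux.clV_eq h1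
      change w ∈ clV T (vtx k)
      rw [h3]
      exact hw
    have hsub : clS T u ⊆ {toC (vtx k)} := by
      intro z hz
      rcases hz with ⟨w, hw, rfl⟩ | hz
      · rw [hcl w hw]
        rfl
      · simp only [Set.mem_iUnion] at hz
        obtain ⟨e, he, hcle, -⟩ := hz
        exact absurd (hcl _ hcle) (hcon e he).1
    have h4 : Metric.diam (clS T u) ≤ 0 := by
      refine le_trans (Metric.diam_mono hsub Bornology.isBounded_singleton) ?_
      rw [Metric.diam_singleton]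
    linarith
  have hf1 : (fce k).1 = (vtx k).1 ∨ (fce k).1 = (vtx k).1 - 1 := by
    obtain ⟨x, y, _ | _, _ | _⟩ := k <;> simp [fce, vtx]
  have hf2 : (fce k).2 = (vtx k).2 ∨ (fce k).2 = (vtx k).2 - 1 := by
    obtain ⟨x, y, _ | _, _ | _⟩ := k <;> simp [fce, vtx]
  obtain ⟨e, he, b, hv, ho⟩ := Pool.Agent.Perc.PercD.exists_side' h1 h2 hf1 hf2 hne
  refine ⟨e, he, ?_, ⟨b, ho⟩, hv.imp Eq.symm Eq.symm⟩
  rcases hv with h | h
  · rw [h]; exact h1
  · exact (BoxAux.tl_mem_iff he).2 (by rw [h]; exact h1)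

/-- The unit edge of a corner. -/
theorem kap_inE (k : Cor) {v : ℤ × ℤ} {d r : ℤ} (h1 : |(vtx k).1 - v.1| ≤ d)
    (h2 : |(vtx k).2 - v.2| ≤ d) (hr : 2 * d + 1 ≤ r) : InE (phiV v) r (kap k) := by
  rw [abs_le] at h1 h2
  obtain ⟨x, y, _ | _, _ | _⟩ := k <;>
    simp [InE, InR, kap, ua, ub, phiV, vtx] at * <;> omega

theorem BR_kap_sub {R : ℤ} (hR : R + 1 ≤ dB n (vtx k)) : BR (ua (kap k)) R ⊆ Sn n := by
  rw [ua_kap]
  exact PercX60.ball_sub_Sn hR

/-- Outer corners of large clusters have long components. -/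
theorem Rch_of_outer {R : ℤ} {D : ℝ} (hk : k ∈ Oc (cfgE n ω : Set Ed) u)
    (hD : D ≤ Metric.diam (clS (cfgE n ω) u)) (hR : R + 1 ≤ dB n (vtx k)) (hR1 : 1 ≤ R)
    (hRD : 4 * ((R : ℝ) + 2) ≤ D) : ω ∈ Rch (ua (kap k)) R (kap k) := by
  have h := PercX60.TA_of_outer hk hD hR hR1 hRD
  obtain ⟨h1, h2⟩ := h
  have hj := joins_kap k
  have hself := LTail.inE_self (kap k) hR1
  rw [← ua_kap] at h1 h2
  rcases hj with ⟨h3, h4⟩ | ⟨h3, h4⟩
  · exact exists_tip (Or.inl ⟨h3, h4⟩) (by rw [h3]; exact hself.1) (by rw [h4]; exact hself.2)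
      (by omega) (by omega) h1 h2
  · exact exists_tip (Or.inr ⟨h3, h4⟩) (by rw [h3]; exact hself.2) (by rw [h4]; exact hself.1)
      (by omega) (by omega) h1 h2

/-- The component of the unit edge of a corner consists of unit edges of corners of the orbit. -/
theorem mem_orb_of_MM {R : ℤ} {a : UE} (hR : R + 1 ≤ dB n (vtx k))
    (ha : a ∈ MM ω (BR (ua (kap k)) R) (kap k)) : a ∈ kap '' Orb (cfgE n ω : Set Ed) k := by
  have hag : ∀ f ∈ (BR (ua (kap k)) R : Set (ℤ × ℤ)), ω f = gT (cfgE n ω : Set Ed) f := by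
    intro f hf
    rw [ua_kap] at hf
    have h1 := PercX60.gT_cfgE (ω := ω) (PercX60.ball_sub hR (Finset.mem_coe.1 hf))
    rw [PercX60.phiE_eE] at h1
    exact h1.symm
  rw [← MM_congr' (ω := ω) hag] at ha
  exact PercW.MM_sub_orb ha

/-- Every unit edge is the unit edge of a corner. -/
theorem kap_surjective : Function.Surjective kap := by
  rintro ⟨a, b, t⟩
  rcases Int.even_or_odd' (a + b) with ⟨m, hm | hm⟩
  · cases t
    · exact ⟨(m, a - m, true, true), by simp [kap]; omega⟩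
    · exact ⟨(m, a - m, true, false), by simp [kap]; omega⟩
  · cases t
    · exact ⟨(m + 1, a - m, false, false), by simp [kap]; omega⟩
    · exact ⟨(m + 1, a - m - 1, false, true), by simp [kap]; omega⟩

/-- The upper bound for all unit edges. -/
theorem upperHyp_of_p2 {C : ℝ} (h : ∀ R : ℕ, 1 ≤ R → p2 R ≤ C * (R : ℝ) ^ (-(1 / 4 : ℝ))) :
    UpperHyp := by
  refine ⟨max C 1, by positivity, fun e r hr => ?_⟩
  obtain ⟨k, rfl⟩ := kap_surjective e
  have h1 : pr (BR (ua (kap k)) r) (TA r k) = p2 r := by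
    refine PercX60.pr_TA k ?_
    rw [ua_kap]
    exact subset_rfl
  have h2 : pr (BR (ua (kap k)) r) (Rch (ua (kap k)) r (kap k)) ≤ p2 r := by
    rw [← h1]
    refine pr_mono _ ?_
    rintro ω ⟨a, ha, hb⟩
    have hj := joins_kap k
    unfold TA
    rw [Set.mem_ofPred_eq, ← ua_kap]
    exact ⟨toBd_of_tip hj ha hb (by omega) (by omega),
      toBd_of_tip hj.symm ha hb (by omega) (by omega)⟩
  refine h2.trans ((h r hr).trans (mul_le_mul_of_nonneg_right (le_max_left _ _) ?_))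
  positivity

end Pool.Agent.PercD

end PartpercdBoxA
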