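import Pool.Agent.Lib.MP_6bd702_z.Z022

/-!
# Symmetries: components, rectangles, probabilities
-/

set_option autoImplicit false

namespace Pool.Agent.Perc

open Finset

/-- Two functions on a rectangle with the same jumps. -/
theorem pot_unique {x₀ x₁ y₀ y₁ : ℤ} {g g' : ℤ × ℤ → ZMod 2}
    (h : ∀ a : UE, InR x₀ x₁ y₀ y₁ (ua a) → InR x₀ x₁ y₀ y₁ (ub a) →
      (g (ua a) ≠ g (ub a) ↔ g' (ua a) ≠ g' (ub a))) {p q : ℤ × ℤ} (hp : InR x₀ x₁ y₀ y₁ p)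
    (hq : InR x₀ x₁ y₀ y₁ q) : g p = g q ↔ g' p = g' q := by
  have step : ∀ a : UE, InR x₀ x₁ y₀ y₁ (ua a) → InR x₀ x₁ y₀ y₁ (ub a) →
      g (ub a) + g' (ub a) = g (ua a) + g' (ua a) := by
    intro a h1 h2
    have h3 := h a h1 h2
    generalize g (ua a) = r1 at *
    generalize g (ub a) = r2 at *
    generalize g' (ua a) = r3 at *
    generalize g' (ub a) = r4 at *
    revert h3
    revert r1 r2 r3 r4
    decide
  have key : ∀ w, InR x₀ x₁ y₀ y₁ w → g w + g' w = g (x₀, y₀) + g' (x₀, y₀) := by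
    rintro ⟨x, y⟩ hw
    unfold InR at hw
    simp only at hw
    have h1 : ∀ x, x₀ ≤ x → x ≤ x₁ → g (x, y₀) + g' (x, y₀) = g (x₀, y₀) + g' (x₀, y₀) := by
      intro x hx
      induction x, hx using Int.leInduction with
      | base => intro _; rfl
      | succ x hx ih =>
        intro hx1
        have := step (x, y₀, false) (by unfold InR ua; simp only; omega)
          (by unfold InR ub; simp; omega)
        rw [ua_mk, ub_false] at this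
        rw [this, ih (by omega)]
    obtain ⟨hx0, hx1, hy0, hy1⟩ := hw
    revert hy1
    induction y, hy0 using Int.leInduction with
    | base => intro _; exact h1 x hx0 hx1
    | succ y hy ih =>
      intro hy1
      have := step (x, y, true) (by unfold InR ua; simp only; omega)
        (by unfold InR ub; simp; omega)
      rw [ua_mk, ub_true] at this
      rw [this, ih (by omega)]
  have hp' := key p hp
  have hq' := key q hq
  rw [← hq'] at hp'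
  generalize g p = r1 at *
  generalize g q = r2 at *
  generalize g' p = r3 at *
  generalize g' q = r4 at *
  clear hq' key step h
  revert r1 r2 r3 r4
  decide

namespace Sym

variable {ω ω' : Cfg} {F F' : Set (ℤ × ℤ)} {e a a' : UE} {f g : ℤ × ℤ} {u v : ℤ × ℤ}
  {x₀ x₁ y₀ y₁ x₀' x₁' y₀' y₁' : ℤ}

/-- The action on configurations. -/
def act (σ : Sym) (ω : Cfg) : Cfg := σ.toHSym.act ω

theorem inv_act (σ : Sym) (ω : Cfg) : σ.inv.act (σ.act ω) = ω := by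
  funext g
  unfold act HSym.act
  rw [σ.hb, σ.hf]
  simp

theorem act_inv (σ : Sym) (ω : Cfg) : σ.act (σ.inv.act ω) = ω := by
  funext g
  unfold act HSym.act
  rw [σ.hb, σ.hf]
  simp

theorem act_apply (σ : Sym) (ω : Cfg) (g : ℤ × ℤ) : σ.act ω (σ.f g) = xor σ.b (ω g) :=
  σ.toHSym.act_f ω g

theorem inv_image (σ : Sym) (F : Set (ℤ × ℤ)) : σ.inv.f '' (σ.f '' F) = F := by
  rw [σ.hf, Equiv.symm_image_image]

theorem inv_v (σ : Sym) (w : ℤ × ℤ) : σ.inv.v (σ.v w) = w := by rw [σ.hv]; simp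
theorem inv_s (σ : Sym) (a : UE) : σ.inv.s (σ.s a) = a := by rw [σ.hs]; simp

theorem joins_iff (σ : Sym) : Joins (σ.s a) (σ.v u) (σ.v v) ↔ Joins a u v := by
  constructor
  · intro h
    have := σ.inv.joins_act h
    rwa [inv_v, inv_v, inv_s] at this
  · exact σ.toHSym.joins_act

theorem conn_iff (σ : Sym) :
    Conn (σ.act ω) (σ.f '' F) (σ.v u) (σ.v v) ↔ Conn ω F u v := by
  constructor
  · intro h
    have := σ.inv.conn_act h
    rwa [inv_v, inv_v, inv_image, inv_act] at this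
  · exact σ.toHSym.conn_act

theorem mem_MM_iff (σ : Sym) :
    σ.s a ∈ MM (σ.act ω) (σ.f '' F) (σ.s e) ↔ a ∈ MM ω F e := by
  constructor
  · intro h
    have := σ.inv.mem_MM_act h
    rwa [inv_s, inv_s, inv_image, inv_act] at this
  · exact σ.toHSym.mem_MM_act

theorem MM_act (σ : Sym) : MM (σ.act ω) (σ.f '' F) (σ.s e) = σ.s '' MM ω F e := by
  ext a
  constructor
  · intro h
    refine ⟨σ.s.symm a, ?_, by simp⟩
    rw [← σ.mem_MM_iff]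
    simpa using h
  · rintro ⟨b, hb, rfl⟩
    exact σ.mem_MM_iff.2 hb

theorem exists_mt (ω : Cfg) (h : IsSide g a) : ∃ a', Mt ω g a a' := by
  cases hω : ω g with
  | true =>
    rcases h with rfl | rfl | rfl | rfl
    · exact ⟨_, Or.inl ⟨hω, Or.inl ⟨rfl, rfl⟩⟩⟩
    · exact ⟨_, Or.inl ⟨hω, Or.inr (Or.inr (Or.inl ⟨rfl, rfl⟩))⟩⟩
    · exact ⟨_, Or.inl ⟨hω, Or.inr (Or.inr (Or.inr ⟨rfl, rfl⟩))⟩⟩
    · exact ⟨_, Or.inl ⟨hω, Or.inr (Or.inl ⟨rfl, rfl⟩)⟩⟩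
  | false =>
    rcases h with rfl | rfl | rfl | rfl
    · exact ⟨_, Or.inr ⟨hω, Or.inl ⟨rfl, rfl⟩⟩⟩
    · exact ⟨_, Or.inr ⟨hω, Or.inr (Or.inl ⟨rfl, rfl⟩)⟩⟩
    · exact ⟨_, Or.inr ⟨hω, Or.inr (Or.inr (Or.inl ⟨rfl, rfl⟩))⟩⟩
    · exact ⟨_, Or.inr ⟨hω, Or.inr (Or.inr (Or.inr ⟨rfl, rfl⟩))⟩⟩

theorem isSide_iff (σ : Sym) : IsSide (σ.f g) (σ.s a) ↔ IsSide g a := by
  constructor
  · intro h
    obtain ⟨a', h'⟩ := exists_mt (fun _ => true) h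
    have := (σ.inv.mt_act h').left
    rwa [inv_s, show σ.inv.f (σ.f g) = g by rw [σ.hf]; simp] at this
  · intro h
    obtain ⟨a', h'⟩ := exists_mt (fun _ => true) h
    exact (σ.toHSym.mt_act h').left

theorem mem_SS_iff (σ : Sym) :
    σ.f g ∈ SS (σ.act ω) (σ.f '' F) (σ.s e) ↔ g ∈ SS ω F e := by
  unfold SS
  simp only [Set.mem_ofPred_eq]
  rw [σ.f.injective.mem_set_image]
  refine and_congr Iff.rfl ⟨?_, ?_⟩
  · rintro ⟨a, ha, hs⟩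
    rw [MM_act] at ha
    obtain ⟨b, hb, rfl⟩ := ha
    exact ⟨b, hb, σ.isSide_iff.1 hs⟩
  · rintro ⟨a, ha, hs⟩
    exact ⟨σ.s a, σ.mem_MM_iff.2 ha, σ.isSide_iff.2 hs⟩

theorem SS_act (σ : Sym) : SS (σ.act ω) (σ.f '' F) (σ.s e) = σ.f '' SS ω F e := by
  ext g
  constructor
  · intro h
    refine ⟨σ.f.symm g, ?_, by simp⟩
    rw [← σ.mem_SS_iff]
    simpa using h
  · rintro ⟨b, hb, rfl⟩
    exact σ.mem_SS_iff.2 hb

/-- `σ` preserves the measure. -/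
theorem pr_act (σ : Sym) {S : Finset (ℤ × ℤ)} {A : Set Cfg}
    (hA : DepOn (S.image σ.f : Finset (ℤ × ℤ)) A) :
    pr S {ω | σ.act ω ∈ A} = pr (S.image σ.f) A := by
  have h1 : DepOn (S.image σ.f : Finset (ℤ × ℤ)) {ω : Cfg | flip (fun _ => σ.b) ω ∈ A} := by
    intro ω ω' h
    refine hA _ _ fun f hf => ?_
    unfold flip
    rw [h f hf]
  rw [← pr_flip (fun _ => σ.b) hA]
  rw [← pr_comp (S := S.image σ.f) (S' := S) (f := σ.f.symm) (σ.f.symm.injective.injOn)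
    (fun x hx => by
      obtain ⟨y, hy, rfl⟩ := Finset.mem_image.1 hx
      simpa using hy) h1]
  rfl

/-- `σ` maps the rectangle `Q` to the rectangle `Q'`. -/
structure Maps (σ : Sym) (x₀ x₁ y₀ y₁ x₀' x₁' y₀' y₁' : ℤ) : Prop where
  img : σ.f '' (RF x₀ x₁ y₀ y₁ : Set (ℤ × ℤ)) = RF x₀' x₁' y₀' y₁'
  inR : ∀ w, InR x₀' x₁' y₀' y₁' (σ.v w) ↔ InR x₀ x₁ y₀ y₁ w
  onBd : ∀ w, OnBd x₀' x₁' y₀' y₁' (σ.v w) ↔ OnBd x₀ x₁ y₀ y₁ w
  bdE : ∀ a, BdE x₀' x₁' y₀' y₁' (σ.s a) ↔ BdE x₀ x₁ y₀ y₁ a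
  wi : ∀ ρ x w, Wi ρ (σ.v x) (σ.v w) ↔ Wi ρ x w
  par : ∀ p q, par (σ.v p) = par (σ.v q) ↔ par p = par q

theorem maps_T (x₀ x₁ y₀ y₁ : ℤ) : symT.Maps x₀ x₁ y₀ y₁ y₀ y₁ x₀ x₁ where
  img := by
    ext ⟨x, y⟩
    constructor
    · rintro ⟨⟨p, q⟩, hg, h⟩
      have h1 : q = x ∧ p = y := by simpa [symT, hsymT] using h
      rw [mem_RF'] at *
      simp only at *
      omega
    · intro h
      refine ⟨(y, x), ?_, rfl⟩
      rw [mem_RF'] at *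
      simp only at *
      omega
  inR := by rintro ⟨x, y⟩; unfold InR; simp [symT, hsymT]; omega
  onBd := by rintro ⟨x, y⟩; unfold OnBd; simp [symT, hsymT]; omega
  bdE := by rintro ⟨x, y, b⟩; unfold BdE; cases b <;> simp [symT, hsymT]
  wi := by rintro ρ ⟨x, y⟩ ⟨x', y'⟩; unfold Wi; simp [symT, hsymT]; omega
  par := by rintro ⟨x, y⟩ ⟨x', y'⟩; unfold Perc.par; simp [symT, hsymT]; omega

theorem maps_X (c x₀ x₁ y₀ y₁ : ℤ) : (symX c).Maps x₀ x₁ y₀ y₁ (c - x₁) (c - x₀) y₀ y₁ where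
  img := by
    ext ⟨x, y⟩
    constructor
    · rintro ⟨⟨p, q⟩, hg, h⟩
      have h1 : c - p - 1 = x ∧ q = y := by simpa [symX, hsymX] using h
      rw [mem_RF'] at *
      simp only at *
      omega
    · intro h
      refine ⟨(c - x - 1, y), ?_, by simp [symX, hsymX]; omega⟩
      rw [mem_RF'] at *
      simp only at *
      omega
  inR := by rintro ⟨x, y⟩; unfold InR; simp [symX, hsymX]; omega
  onBd := by rintro ⟨x, y⟩; unfold OnBd; simp [symX, hsymX]; omega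
  bdE := by rintro ⟨x, y, b⟩; unfold BdE; cases b <;> simp [symX, hsymX] <;> omega
  wi := by rintro ρ ⟨x, y⟩ ⟨x', y'⟩; unfold Wi; simp [symX, hsymX]; omega
  par := by rintro ⟨x, y⟩ ⟨x', y'⟩; unfold Perc.par; simp [symX, hsymX]; omega

theorem maps_S (s t x₀ x₁ y₀ y₁ : ℤ) :
    (symS s t).Maps x₀ x₁ y₀ y₁ (x₀ + s) (x₁ + s) (y₀ + t) (y₁ + t) where
  img := by
    ext ⟨x, y⟩
    constructor
    · rintro ⟨⟨p, q⟩, hg, h⟩
      have h1 : p + s = x ∧ q + t = y := by simpa [symS, hsymS] using h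
      rw [mem_RF'] at *
      simp only at *
      omega
    · intro h
      refine ⟨(x - s, y - t), ?_, by simp [symS, hsymS]⟩
      rw [mem_RF'] at *
      simp only at *
      omega
  inR := by rintro ⟨x, y⟩; unfold InR; simp [symS, hsymS]
  onBd := by rintro ⟨x, y⟩; unfold OnBd; simp [symS, hsymS]
  bdE := by rintro ⟨x, y, b⟩; unfold BdE; cases b <;> simp [symS, hsymS]
  wi := by rintro ρ ⟨x, y⟩ ⟨x', y'⟩; unfold Wi; simp [symS, hsymS]; omega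
  par := by rintro ⟨x, y⟩ ⟨x', y'⟩; unfold Perc.par; simp [symS, hsymS]; omega

namespace Maps

variable {σ : Sym} (M : σ.Maps x₀ x₁ y₀ y₁ x₀' x₁' y₀' y₁')

include M

theorem image_RF : (RF x₀ x₁ y₀ y₁).image σ.f = RF x₀' x₁' y₀' y₁' := by
  rw [← Finset.coe_inj, Finset.coe_image]; exact M.img

theorem conn_iff : Conn (σ.act ω) (RF x₀' x₁' y₀' y₁') (σ.v u) (σ.v v) ↔
    Conn ω (RF x₀ x₁ y₀ y₁) u v := by
  rw [← M.img, σ.conn_iff]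

theorem mem_MM_iff : σ.s a ∈ MM (σ.act ω) (RF x₀' x₁' y₀' y₁') (σ.s e) ↔
    a ∈ MM ω (RF x₀ x₁ y₀ y₁) e := by
  rw [← M.img, σ.mem_MM_iff]

theorem MM_eq : MM (σ.act ω) (RF x₀' x₁' y₀' y₁') (σ.s e) = σ.s '' MM ω (RF x₀ x₁ y₀ y₁) e := by
  rw [← M.img, σ.MM_act]

theorem SS_eq : SS (σ.act ω) (RF x₀' x₁' y₀' y₁') (σ.s e) = σ.f '' SS ω (RF x₀ x₁ y₀ y₁) e := by
  rw [← M.img, σ.SS_act]

theorem toBd_iff : ToBd x₀' x₁' y₀' y₁' (σ.act ω) (σ.v u) ↔ ToBd x₀ x₁ y₀ y₁ ω u := by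
  constructor
  · rintro ⟨w, h1, h2⟩
    obtain ⟨w, rfl⟩ := σ.v.surjective w
    exact ⟨w, M.conn_iff.1 h1, (M.onBd w).1 h2⟩
  · rintro ⟨w, h1, h2⟩
    exact ⟨σ.v w, M.conn_iff.2 h1, (M.onBd w).2 h2⟩

/-- The relation same side is preserved. -/
theorem potR_iff' {p q : ℤ × ℤ} (hp : InR x₀ x₁ y₀ y₁ p) (hq : InR x₀ x₁ y₀ y₁ q) :
    potR (σ.act ω) x₀' x₁' y₀' y₁' (σ.s e) (σ.v p) = potR (σ.act ω) x₀' x₁' y₀' y₁' (σ.s e) (σ.v q) ↔
      potR ω x₀ x₁ y₀ y₁ e p = potR ω x₀ x₁ y₀ y₁ e q := by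
  refine pot_unique (g := fun w => potR (σ.act ω) x₀' x₁' y₀' y₁' (σ.s e) (σ.v w))
    (g' := potR ω x₀ x₁ y₀ y₁ e) ?_ hp hq
  intro a h1 h2
  have hj : Joins (σ.s a) (σ.v (ua a)) (σ.v (ub a)) := σ.joins_iff.2 (Or.inl ⟨rfl, rfl⟩)
  rw [← potR_joins hj ((M.inR _).2 h1) ((M.inR _).2 h2), M.mem_MM_iff, potR_iff h1 h2]

theorem close_iff {ρ : ℤ} {x : ℤ × ℤ} :
    Close (σ.act ω) x₀' x₁' y₀' y₁' (σ.s e) ρ (σ.v x) ↔ Close ω x₀ x₁ y₀ y₁ e ρ x := by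
  have key : ∀ a, (Wi ρ (σ.v x) (ua (σ.s a)) ∧ Wi ρ (σ.v x) (ub (σ.s a))) ↔
      (Wi ρ x (ua a) ∧ Wi ρ x (ub a)) := by
    intro a
    have hj : Joins (σ.s a) (σ.v (ua a)) (σ.v (ub a)) := σ.joins_iff.2 (Or.inl ⟨rfl, rfl⟩)
    rcases hj with ⟨h1, h2⟩ | ⟨h1, h2⟩
    · rw [← h1, ← h2, M.wi, M.wi]
    · rw [← h1, ← h2, M.wi, M.wi, and_comm]
  constructor
  · intro h a ha hb
    exact (key a).1 (h _ (M.mem_MM_iff.2 ha) ((M.bdE a).2 hb))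
  · intro h a ha hb
    obtain ⟨a, rfl⟩ := σ.s.surjective a
    exact (key a).2 (h a (M.mem_MM_iff.1 ha) ((M.bdE a).1 hb))

theorem farTip {ρ : ℤ} {t : UE} (h : FarTip ω x₀ x₁ y₀ y₁ e (ρ + 1) t) :
    FarTip (σ.act ω) x₀' x₁' y₀' y₁' (σ.s e) ρ (σ.s t) := by
  obtain ⟨h1, h2, h3⟩ := h
  refine ⟨M.mem_MM_iff.2 h1, (M.bdE t).2 h2, ?_⟩
  intro a ha hb hw hw'
  obtain ⟨a, rfl⟩ := σ.s.surjective a
  have hj : Joins (σ.s a) (σ.v (ua a)) (σ.v (ub a)) := σ.joins_iff.2 (Or.inl ⟨rfl, rfl⟩)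
  have hj' : Joins (σ.s t) (σ.v (ua t)) (σ.v (ub t)) := σ.joins_iff.2 (Or.inl ⟨rfl, rfl⟩)
  have h4 : Wi ρ (ua (σ.s t)) (σ.v (ua a)) ∧ Wi ρ (ua (σ.s t)) (σ.v (ub a)) := by
    rcases hj with ⟨k1, k2⟩ | ⟨k1, k2⟩
    · rw [k1, k2]; exact ⟨hw, hw'⟩
    · rw [k1, k2]; exact ⟨hw', hw⟩
  have h5 : Wi (ρ + 1) (ua t) (ua a) ∧ Wi (ρ + 1) (ua t) (ub a) := by
    rcases hj' with ⟨k1, k2⟩ | ⟨k1, k2⟩
    · rw [← k1, M.wi, M.wi] at h4
      unfold Wi at *; omega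
    · rw [← k2, M.wi, M.wi] at h4
      have : Wi 1 (ua t) (ub t) := by
        obtain ⟨x, y, b⟩ := t
        unfold Wi
        cases b <;> simp [ua, ub] <;> omega
      unfold Wi at *; omega
  rw [h3 a (M.mem_MM_iff.1 ha) ((M.bdE a).1 hb) h5.1 h5.2]

end Maps

end Sym

end Pool.Agent.Perc
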