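import Pool.Agent.Lib.MP_6bd702_z.Z020
import Pool.Agent.Lib.MP_6bd702_z.Z032

/-!
# Resampling off a stopping set, finite unions, Paley-Zygmund (task LowMix)
-/

set_option autoImplicit false

namespace Pool.Agent.PercL

open Finset Pool.Agent.Perc

theorem pr_mixC {W : Finset (ℤ × ℤ)} (S : Cfg → Set (ℤ × ℤ))
    (hS : ∀ ω ω' : Cfg, (∀ f ∈ S ω, ω f = ω' f) → S ω' = S ω) (A X : Set Cfg) (B : Cfg → Set Cfg)
    {c : ℝ} (hB : ∀ ω ∈ A, c ≤ pr W (B ω))
    (hX : ∀ ω ∈ A, ∀ ξ ∈ B ω, mixC (S ω) ω ξ ∈ X) : c * pr W A ≤ pr W X :=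
  PercT.pr_mix hS A B X hB hX

/-- Finite unions. -/
theorem pr_biUnion_le {W : Finset (ℤ × ℤ)} {ι : Type} (I : Finset ι) (E : ι → Set Cfg) :
    pr W {ω | ∃ i ∈ I, ω ∈ E i} ≤ ∑ i ∈ I, pr W (E i) := by
  classical
  induction I using Finset.induction_on with
  | empty =>
    rw [Finset.sum_empty, ProbA.pr_eq_sum, Finset.sum_eq_zero, zero_div]
    intro T _
    rw [if_neg]
    rintro ⟨i, hi, _⟩
    exact absurd hi (Finset.notMem_empty i)
  | insert a I ha ih =>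
    rw [Finset.sum_insert ha]
    refine le_trans (pr_mono W (B := E a ∪ {ω | ∃ i ∈ I, ω ∈ E i}) ?_) ((pr_union_le W _ _).trans ?_)
    · rintro ω ⟨i, hi, hω⟩
      rcases Finset.mem_insert.1 hi with rfl | h
      · exact Or.inl hω
      · exact Or.inr ⟨i, h, hω⟩
    · linarith

open Classical in
theorem sum_pr_eq {W : Finset (ℤ × ℤ)} {ι : Type} (I : Finset ι) (E : ι → Set Cfg) :
    ∑ i ∈ I, pr W (E i) =
      (∑ T ∈ W.powerset, ∑ i ∈ I, (if cfg T ∈ E i then (1 : ℝ) else 0)) / 2 ^ W.card := by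
  rw [Finset.sum_comm, Finset.sum_div]
  refine Finset.sum_congr rfl fun i _ => ?_
  exact ProbA.pr_eq_sum _ _

/-- Paley-Zygmund for the number of events which occur. -/
theorem paley_zygmund {W : Finset (ℤ × ℤ)} {ι : Type} (I : Finset ι) (E : ι → Set Cfg) {m₁ m₂ : ℝ}
    (h0 : 0 < m₁) (h1 : m₁ ≤ ∑ i ∈ I, pr W (E i))
    (h2 : ∑ i ∈ I, ∑ j ∈ I, pr W (E i ∩ E j) ≤ m₂) :
    m₁ ^ 2 / (4 * m₂) ≤ pr W {ω | m₁ / 2 ≤ (open Classical in ((I.filter fun i => ω ∈ E i).card : ℝ))} := by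
  classical
  have hpow : (0 : ℝ) < 2 ^ W.card := by positivity
  set N : Finset (ℤ × ℤ) → ℝ := fun T => ∑ i ∈ I, (if cfg T ∈ E i then (1 : ℝ) else 0) with hN
  set G : Finset (ℤ × ℤ) → ℝ := fun T => if m₁ / 2 ≤ N T then (1 : ℝ) else 0 with hG
  have hcard : ∀ ω : Cfg, ((I.filter fun i => ω ∈ E i).card : ℝ) =
      ∑ i ∈ I, (if ω ∈ E i then (1 : ℝ) else 0) := by
    intro ω
    rw [Finset.sum_boole]
  have hpr : pr W {ω | m₁ / 2 ≤ ((I.filter fun i => ω ∈ E i).card : ℝ)} =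
      (∑ T ∈ W.powerset, G T) / 2 ^ W.card := by
    rw [ProbA.pr_eq_sum]
    congr 1
    refine Finset.sum_congr rfl fun T _ => ?_
    have h3 : cfg T ∈ {ω | m₁ / 2 ≤ ((I.filter fun i => ω ∈ E i).card : ℝ)} ↔ m₁ / 2 ≤ N T := by
      rw [Set.mem_ofPred_eq, hcard]
    by_cases h4 : m₁ / 2 ≤ N T
    · rw [if_pos (h3.2 h4)]
      simp only [hG, if_pos h4]
    · rw [if_neg (fun h => h4 (h3.1 h))]
      simp only [hG, if_neg h4]
  have h1' : m₁ * 2 ^ W.card ≤ ∑ T ∈ W.powerset, N T := by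
    rw [sum_pr_eq, le_div_iff₀ hpow] at h1
    exact h1
  have h2' : ∑ T ∈ W.powerset, N T ^ 2 ≤ m₂ * 2 ^ W.card := by
    have h3 : ∑ i ∈ I, ∑ j ∈ I, pr W (E i ∩ E j) =
        (∑ T ∈ W.powerset, N T ^ 2) / 2 ^ W.card := by
      rw [Finset.sum_congr rfl fun i _ => sum_pr_eq (W := W) I fun j => E i ∩ E j,
        ← Finset.sum_div, Finset.sum_comm]
      congr 1
      refine Finset.sum_congr rfl fun T _ => ?_
      simp only [hN]
      rw [sq, Finset.sum_mul_sum]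
      refine Finset.sum_congr rfl fun i _ => Finset.sum_congr rfl fun j _ => ?_
      by_cases h5 : cfg T ∈ E i
      · by_cases h6 : cfg T ∈ E j
        · simp [h5, h6]
        · simp [h5, h6]
      · simp [h5]
    rw [h3, div_le_iff₀ hpow] at h2
    exact h2
  have hGsq : ∀ T, G T ^ 2 = G T := by
    intro T
    simp only [hG]
    split_ifs <;> norm_num
  have hGnn : ∀ T, 0 ≤ G T := by
    intro T
    simp only [hG]
    split_ifs <;> norm_num
  have h5 : m₁ / 2 * 2 ^ W.card ≤ ∑ T ∈ W.powerset, N T * G T := by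
    have h6 : ∀ T ∈ W.powerset, N T ≤ N T * G T + m₁ / 2 := by
      intro T _
      simp only [hG]
      split_ifs with h7
      · rw [mul_one]; linarith
      · rw [mul_zero, zero_add]; exact (not_le.1 h7).le
    have h7 := Finset.sum_le_sum h6
    rw [Finset.sum_add_distrib, Finset.sum_const, Finset.card_powerset, nsmul_eq_mul] at h7
    push_cast at h7
    nlinarith [h7, h1']
  have h6 : (∑ T ∈ W.powerset, N T * G T) ^ 2 ≤
      (∑ T ∈ W.powerset, N T ^ 2) * ∑ T ∈ W.powerset, G T := by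
    have h7 := Finset.sum_mul_sq_le_sq_mul_sq W.powerset N G
    simp only [hGsq] at h7
    exact h7
  have hGs : 0 ≤ ∑ T ∈ W.powerset, G T := Finset.sum_nonneg fun T _ => hGnn T
  have h7 : (m₁ / 2 * 2 ^ W.card) ^ 2 ≤ m₂ * 2 ^ W.card * ∑ T ∈ W.powerset, G T := by
    refine le_trans ?_ (h6.trans (mul_le_mul_of_nonneg_right h2' hGs))
    exact pow_le_pow_left₀ (by positivity) h5 2
  have hm2 : 0 < m₂ := by
    by_contra hneg
    have h8 : m₂ * 2 ^ W.card * ∑ T ∈ W.powerset, G T ≤ 0 := by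
      refine mul_nonpos_of_nonpos_of_nonneg ?_ hGs
      exact mul_nonpos_of_nonpos_of_nonneg (not_lt.1 hneg) hpow.le
    have h9 : 0 < (m₁ / 2 * 2 ^ W.card) ^ 2 := by positivity
    linarith
  refine le_of_le_of_eq ?_ hpr.symm
  rw [div_le_div_iff₀ (by positivity) hpow]
  have h8 : m₁ ^ 2 * 2 ^ W.card * 2 ^ W.card ≤ 4 * m₂ * (∑ T ∈ W.powerset, G T) * 2 ^ W.card := by
    nlinarith [h7]
  have h9 := le_of_mul_le_mul_right h8 hpow
  linarith

end Pool.Agent.PercL
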