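import Pool.Agent.Lib.MP_6bd702_z.Z035
import Pool.Agent.Lib.MP_6bd702_z.Z024

/-!
# Far tips have the full probability (task LowFar)

`TA 0 0 (2 M r) ⊆ (FarEv ∩ ...) ∪ (CloseEv ∩ TA 0 0 (2 M r))` at the radius `R = M r` with
`ρ = 4 r + 1` (`exists_tip`, `tip_dichotomy`), so
`pr FarEv ≥ p2 (2 M r) - C (5 / M) ^ β p2 (M r) ≥ c r ^ (-1/4)` for `M` large (`P2Bounds`).
-/

set_option autoImplicit false

namespace Pool.Agent.PercL

open Finset Pool.Agent.Perc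

/-- The lower bound for the probability of a far tip. -/
def FarBd (M : ℕ) (c : ℝ) : Prop := ∀ r : ℤ, 1 ≤ r →
  c * (r : ℝ) ^ (-(1 / 4) : ℝ) ≤ pr (QF (0, 0) (M * r)) (FarEv (0, 0) 0 (M * r) (4 * r + 1))

/-- The dichotomy for the tips at radius `R`. -/
lemma TA_subset_far_close {R ρ : ℤ} (hR : 2 ≤ R) (hρ : 1 ≤ ρ) {ω : Cfg}
    (hω : ω ∈ TA (0, 0) 0 R) : ω ∈ FarEv (0, 0) 0 R ρ ∨ ω ∈ CloseEv 0 R ρ := by
  obtain ⟨t, ht, htb⟩ := (TA_iff_tip (by omega)).1 hω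
  have hQ : QF (0, 0) R = RF (-R) R (-R) R := by
    unfold QF
    simp only [zero_sub, zero_add]
  rw [hQ] at ht
  simp only [zero_sub, zero_add] at htb
  have he : ¬ BdE (-R) R (-R) R (ue (0, 0) 0) := by
    have : ue (0, 0) 0 = (0, 0, false) := rfl
    rw [this]
    unfold BdE
    simp only
    rintro (⟨-, -, -, h⟩ | ⟨h, -⟩)
    · omega
    · cases h
  rcases tip_dichotomy hρ he ht htb with h | h
  · right
    refine ⟨hω, ua t, ?_, h⟩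
    obtain ⟨x, y, b⟩ := t
    unfold BdE at htb
    unfold InR
    cases b <;> simp [ua] at htb ⊢ <;> omega
  · left
    refine ⟨t, ?_⟩
    unfold FT
    simp only [zero_sub, zero_add]
    exact ⟨ht, htb, h⟩

lemma QF_mono_far {p : ℤ × ℤ} {R R' : ℤ} (h : R ≤ R') : QF p R ⊆ QF p R' := by
  intro f hf
  unfold QF RF at hf ⊢
  rw [Finset.mem_product, Finset.mem_Ico, Finset.mem_Ico] at hf ⊢
  omega

theorem exists_farBd (hP : P2Bounds) : ∃ M : ℕ, 12 ≤ M ∧ ∃ c : ℝ, 0 < c ∧ FarBd M c := by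
  obtain ⟨c, C, hc, hC, hp2⟩ := hP
  obtain ⟨C', β, hC', hβ, hsep⟩ := close_sep
  -- the size of `M`
  have hlim : Filter.Tendsto (fun M : ℕ => C' * C * (5 / (M : ℝ)) ^ β) Filter.atTop
      (nhds (C' * C * 0)) := by
    refine Filter.Tendsto.const_mul _ ?_
    have h1 : Filter.Tendsto (fun M : ℕ => 5 / (M : ℝ)) Filter.atTop (nhds 0) :=
      tendsto_const_div_atTop_nhds_zero_nat 5
    have h2 := h1.rpow_const (p := β) (Or.inr hβ.le)
    rwa [Real.zero_rpow hβ.ne'] at h2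
  rw [mul_zero] at hlim
  have hpos : 0 < c * (2 : ℝ) ^ (-(1 / 4) : ℝ) / 2 := by positivity
  obtain ⟨M, hM, hM12⟩ := ((hlim.eventually (gt_mem_nhds hpos)).and
    (Filter.eventually_ge_atTop 12)).exists
  have hM0 : (0 : ℝ) < M := by
    have : 0 < M := by omega
    exact_mod_cast this
  refine ⟨M, hM12, (M : ℝ) ^ (-(1 / 4) : ℝ) * (c * (2 : ℝ) ^ (-(1 / 4) : ℝ) / 2), by positivity,
    fun r hr => ?_⟩
  obtain ⟨n, rfl⟩ := Int.eq_ofNat_of_zero_le (by omega : 0 ≤ r)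
  have hn1 : 1 ≤ n := by exact_mod_cast hr
  have hn0 : (0 : ℝ) < n := by exact_mod_cast hn1
  set R : ℤ := M * (n : ℤ) with hRdef
  have hRn : 12 * (n : ℤ) ≤ R := by
    have : (12 : ℤ) ≤ M := by exact_mod_cast hM12
    nlinarith
  have hR2 : 2 ≤ R := by omega
  have hRr : (R : ℝ) = M * n := by rw [hRdef]; push_cast; rfl
  have hRpos : (0 : ℝ) < R := by rw [hRr]; positivity
  -- the probability of both arms
  have hW : QF (0, 0) (2 * R) ⊆ QF (0, 0) (2 * R) := Finset.Subset.refl _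
  have hWR : QF (0, 0) R ⊆ QF (0, 0) (2 * R) := QF_mono_far (by omega)
  have h1 : p2 (2 * R) ≤ pr (QF (0, 0) (2 * R)) (FarEv (0, 0) 0 R (4 * n + 1)) +
      pr (QF (0, 0) (2 * R)) (CloseEv 0 R (4 * n + 1) ∩ TA (0, 0) 0 (2 * R)) := by
    rw [← pr_TA (p := (0, 0)) (d := 0) hW]
    refine le_trans (pr_mono _ fun ω hω => ?_) (pr_union_le _ _ _)
    rcases TA_subset_far_close (ρ := 4 * n + 1) hR2 (by omega)
      (TA_anti (by omega) (by omega : R ≤ 2 * R) hω) with h | h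
    · exact Or.inl h
    · exact Or.inr ⟨h, hω⟩
  have h2 := hsep 0 R (4 * n + 1) (by omega) (by omega) (QF (0, 0) (2 * R)) hW
  rw [pr_TA (p := (0, 0)) (d := 0) hWR] at h2
  have h3 : pr (QF (0, 0) (2 * R)) (FarEv (0, 0) 0 R (4 * n + 1)) =
      pr (QF (0, 0) R) (FarEv (0, 0) 0 R (4 * n + 1)) := pr_eq_of_depOn depOn_FarEv hWR
  rw [h3] at h1
  -- the bounds for the two arm probability
  have h4 : c * ((2 * R : ℤ) : ℝ) ^ (-(1 / 4) : ℝ) ≤ p2 (2 * R) := by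
    have := (hp2 (2 * (M * n)) (by
      have : 1 ≤ M * n := Nat.one_le_iff_ne_zero.2 (by positivity)
      omega)).1
    have he : ((2 * (M * n) : ℕ) : ℤ) = 2 * R := by rw [hRdef]; push_cast; ring
    have he' : ((2 * (M * n) : ℕ) : ℝ) = ((2 * R : ℤ) : ℝ) := by rw [← he]; push_cast; ring
    rw [he, he'] at this
    exact this
  have h5 : p2 R ≤ C * (R : ℝ) ^ (-(1 / 4) : ℝ) := by
    have := (hp2 (M * n) (Nat.one_le_iff_ne_zero.2 (by positivity))).2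
    have he : ((M * n : ℕ) : ℤ) = R := by rw [hRdef]; push_cast; ring
    have he' : ((M * n : ℕ) : ℝ) = (R : ℝ) := by rw [← he]; push_cast; ring
    rw [he, he'] at this
    exact this
  have h6 : (((4 * n + 1 : ℤ) : ℝ) / R) ^ β ≤ (5 / (M : ℝ)) ^ β := by
    refine Real.rpow_le_rpow (by positivity) ?_ hβ.le
    rw [hRr, div_le_div_iff₀ (by positivity) hM0]
    push_cast
    have : (1 : ℝ) ≤ n := by exact_mod_cast hn1
    nlinarith
  have hRp : 0 < (R : ℝ) ^ (-(1 / 4) : ℝ) := Real.rpow_pos_of_pos hRpos _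
  have h7 : pr (QF (0, 0) (2 * R)) (CloseEv 0 R (4 * n + 1) ∩ TA (0, 0) 0 (2 * R)) ≤
      (c * (2 : ℝ) ^ (-(1 / 4) : ℝ) / 2) * (R : ℝ) ^ (-(1 / 4) : ℝ) := by
    have hX : 0 ≤ C' * (((4 * n + 1 : ℤ) : ℝ) / R) ^ β := by positivity
    calc _ ≤ C' * (((4 * n + 1 : ℤ) : ℝ) / R) ^ β * p2 R := h2
      _ ≤ C' * (((4 * n + 1 : ℤ) : ℝ) / R) ^ β * (C * (R : ℝ) ^ (-(1 / 4) : ℝ)) :=
          mul_le_mul_of_nonneg_left h5 hX
      _ ≤ C' * (5 / (M : ℝ)) ^ β * (C * (R : ℝ) ^ (-(1 / 4) : ℝ)) :=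
          mul_le_mul_of_nonneg_right (mul_le_mul_of_nonneg_left h6 hC'.le) (by positivity)
      _ = C' * C * (5 / (M : ℝ)) ^ β * (R : ℝ) ^ (-(1 / 4) : ℝ) := by ring
      _ ≤ _ := mul_le_mul_of_nonneg_right hM.le hRp.le
  have h8 : ((2 * R : ℤ) : ℝ) ^ (-(1 / 4) : ℝ) =
      (2 : ℝ) ^ (-(1 / 4) : ℝ) * (R : ℝ) ^ (-(1 / 4) : ℝ) := by
    push_cast
    rw [Real.mul_rpow (by norm_num) hRpos.le]
  rw [h8] at h4
  have h9 : (R : ℝ) ^ (-(1 / 4) : ℝ) = (M : ℝ) ^ (-(1 / 4) : ℝ) * (n : ℝ) ^ (-(1 / 4) : ℝ) := by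
    rw [hRr, Real.mul_rpow hM0.le hn0.le]
  calc _ = (c * (2 : ℝ) ^ (-(1 / 4) : ℝ) / 2) * (R : ℝ) ^ (-(1 / 4) : ℝ) := by
        rw [h9]; push_cast; ring
    _ ≤ _ := by linarith

end Pool.Agent.PercL
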