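import Pool.Agent.Lib.MP_6bd702_z.Z041
import Pool.Agent.Lib.MP_6bd702_z.Z036
import Pool.Agent.Lib.MP_6bd702_z.Z025
import Pool.Agent.Lib.MP_6bd702_z.Z033
import Pool.Agent.Lib.MP_6bd702_z.Z023
import Pool.Agent.Lib.MP_6bd702_z.Z018

section PartpercwLowCount

/-!
# Counting (task LowCount): pure mathematics
-/

set_option autoImplicit false

namespace Pool.Agent.PercL

open Finset

/-- The weight of a pair at distance `m`. -/
noncomputable def wt (m : ℤ) : ℝ := if m ≤ 1 then 1 else ((m / 2 : ℤ) : ℝ) ^ (-(1 / 2) : ℝ)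

lemma wt_nonneg (m : ℤ) : 0 ≤ wt m := by
  unfold wt
  split_ifs with h
  · exact zero_le_one
  · have : (0 : ℤ) ≤ m / 2 := by omega
    exact Real.rpow_nonneg (by exact_mod_cast this) _

lemma wt_le_one (m : ℤ) : wt m ≤ 1 := by
  unfold wt
  split_ifs with h
  · exact le_refl 1
  · have h1 : (1 : ℤ) ≤ m / 2 := by omega
    have h2 : (1 : ℝ) ≤ ((m / 2 : ℤ) : ℝ) := by exact_mod_cast h1
    exact Real.rpow_le_one_of_one_le_of_nonpos h2 (by norm_num)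

lemma wt_anti {a b : ℤ} (h : a ≤ b) : wt b ≤ wt a := by
  by_cases ha : a ≤ 1
  · have : wt a = 1 := by unfold wt; rw [if_pos ha]
    rw [this]
    exact wt_le_one b
  · have hb : ¬ b ≤ 1 := by omega
    unfold wt
    rw [if_neg ha, if_neg hb]
    have h1 : (0 : ℤ) < a / 2 := by omega
    have h2 : a / 2 ≤ b / 2 := by omega
    exact Real.rpow_le_rpow_of_nonpos (by exact_mod_cast h1) (by exact_mod_cast h2) (by norm_num)

lemma wt_succ_le (j : ℕ) : wt ((j + 1 : ℕ) : ℤ) ≤ 2 * ((j + 1 : ℕ) : ℝ) ^ (-(1 / 2) : ℝ) := by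
  have hj : (0 : ℝ) < ((j + 1 : ℕ) : ℝ) := by positivity
  have h4 : ((((j + 1 : ℕ) : ℝ)) / 4) ^ (-(1 / 2) : ℝ) = 2 * ((j + 1 : ℕ) : ℝ) ^ (-(1 / 2) : ℝ) := by
    rw [Real.div_rpow hj.le (by norm_num), Real.rpow_neg (by norm_num : (0 : ℝ) ≤ 4),
      ← Real.sqrt_eq_rpow, show (4 : ℝ) = 2 ^ 2 by norm_num, Real.sqrt_sq (by norm_num)]
    field_simp
  rw [← h4]
  by_cases h : ((j + 1 : ℕ) : ℤ) ≤ 1
  · have hj0 : j = 0 := by omega
    subst hj0
    refine (wt_le_one _).trans ?_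
    exact Real.one_le_rpow_of_pos_of_le_one_of_nonpos (by norm_num) (by norm_num) (by norm_num)
  · unfold wt
    rw [if_neg h]
    refine Real.rpow_le_rpow_of_nonpos (by positivity) ?_ (by norm_num)
    have h1 : ((j + 1 : ℕ) : ℤ) ≤ 4 * (((j + 1 : ℕ) : ℤ) / 2) := by omega
    have h2 : ((j + 1 : ℕ) : ℝ) ≤ 4 * (((((j + 1 : ℕ) : ℤ) / 2 : ℤ)) : ℝ) := by exact_mod_cast h1
    linarith

lemma sum_inv_sqrt (s : ℕ) :
    ∑ j ∈ range s, ((j + 1 : ℕ) : ℝ) ^ (-(1 / 2) : ℝ) ≤ 2 * (s : ℝ) ^ (1 / 2 : ℝ) := by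
  induction s with
  | zero => simp
  | succ s ih =>
    rw [Finset.sum_range_succ]
    have hs : (0 : ℝ) < ((s + 1 : ℕ) : ℝ) := by positivity
    have h1 : ((s + 1 : ℕ) : ℝ) ^ (-(1 / 2) : ℝ) = (√((s + 1 : ℕ) : ℝ))⁻¹ := by
      rw [Real.rpow_neg hs.le, ← Real.sqrt_eq_rpow]
    rw [h1, ← Real.sqrt_eq_rpow]
    rw [← Real.sqrt_eq_rpow] at ih
    have h2 : 0 < √((s + 1 : ℕ) : ℝ) := Real.sqrt_pos.2 hs
    have h3 : √((s + 1 : ℕ) : ℝ) ^ 2 = (s : ℝ) + 1 := by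
      rw [Real.sq_sqrt hs.le]; push_cast; ring
    have h4 : √(s : ℝ) ^ 2 = (s : ℝ) := Real.sq_sqrt (Nat.cast_nonneg s)
    have h5 : 0 ≤ √(s : ℝ) := Real.sqrt_nonneg _
    have h6 : (√((s + 1 : ℕ) : ℝ))⁻¹ ≤ 2 * √((s + 1 : ℕ) : ℝ) - 2 * √(s : ℝ) := by
      rw [inv_le_iff_one_le_mul₀ h2]
      nlinarith [sq_nonneg (√((s + 1 : ℕ) : ℝ) - √(s : ℝ))]
    linarith

lemma sum_wt_range (s : ℕ) (hs : 1 ≤ s) :
    ∑ j ∈ range (s + 1), wt (j : ℤ) ≤ 5 * (s : ℝ) ^ (1 / 2 : ℝ) := by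
  rw [Finset.sum_range_succ']
  have h1 : ∑ j ∈ range s, wt ((j + 1 : ℕ) : ℤ) ≤
      ∑ j ∈ range s, 2 * ((j + 1 : ℕ) : ℝ) ^ (-(1 / 2) : ℝ) :=
    Finset.sum_le_sum fun j _ => wt_succ_le j
  rw [← Finset.mul_sum] at h1
  have h2 := sum_inv_sqrt s
  have h3 := wt_le_one ((0 : ℕ) : ℤ)
  have h4 : (1 : ℝ) ≤ (s : ℝ) ^ (1 / 2 : ℝ) :=
    Real.one_le_rpow (by exact_mod_cast hs) (by norm_num)
  calc _ ≤ 2 * (2 * (s : ℝ) ^ (1 / 2 : ℝ)) + (s : ℝ) ^ (1 / 2 : ℝ) :=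
        add_le_add (h1.trans (mul_le_mul_of_nonneg_left h2 (by norm_num))) (h3.trans h4)
    _ = 5 * (s : ℝ) ^ (1 / 2 : ℝ) := by ring

lemma sum_image_le {S : Finset ℤ} {p : ℤ} {s : ℕ}
    (hinj : Set.InjOn (fun q : ℤ => (p - q).natAbs) S) (hS : ∀ q ∈ S, (p - q).natAbs ≤ s) :
    ∑ q ∈ S, wt |p - q| ≤ ∑ j ∈ range (s + 1), wt (j : ℤ) := by
  have h1 : ∑ q ∈ S, wt |p - q| = ∑ q ∈ S, (fun j : ℕ => wt (j : ℤ)) ((p - q).natAbs) :=
    Finset.sum_congr rfl fun q _ => by rw [Int.abs_eq_natAbs]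
  rw [h1, ← Finset.sum_image (f := fun j : ℕ => wt (j : ℤ)) hinj]
  refine Finset.sum_le_sum_of_subset_of_nonneg ?_ fun j _ _ => wt_nonneg _
  intro j hj
  obtain ⟨q, hq, rfl⟩ := Finset.mem_image.1 hj
  exact Finset.mem_range.2 (Nat.lt_succ_of_le (hS q hq))

lemma sum_line (s : ℕ) (hs : 1 ≤ s) (x p : ℤ) (hp : p ∈ Icc x (x + s)) :
    ∑ q ∈ Icc x (x + s), wt |p - q| ≤ 10 * (s : ℝ) ^ (1 / 2 : ℝ) := by
  rw [Finset.mem_Icc] at hp
  have hsplit : Icc x (x + s) = Icc x p ∪ Icc (p + 1) (x + s) := by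
    ext q
    simp only [Finset.mem_Icc, Finset.mem_union]
    omega
  have hdis : Disjoint (Icc x p) (Icc (p + 1) (x + (s : ℤ))) := by
    rw [Finset.disjoint_left]
    intro q hq hq'
    rw [Finset.mem_Icc] at hq hq'
    omega
  rw [hsplit, Finset.sum_union hdis]
  · have h1 : ∑ q ∈ Icc x p, wt |p - q| ≤ ∑ j ∈ range (s + 1), wt (j : ℤ) := by
      refine sum_image_le ?_ ?_
      · intro q hq q' hq' h
        simp only [Finset.coe_Icc, Set.mem_Icc] at hq hq'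
        simp only at h
        omega
      · intro q hq
        rw [Finset.mem_Icc] at hq
        omega
    have h2 : ∑ q ∈ Icc (p + 1) (x + s), wt |p - q| ≤ ∑ j ∈ range (s + 1), wt (j : ℤ) := by
      refine sum_image_le ?_ ?_
      · intro q hq q' hq' h
        simp only [Finset.coe_Icc, Set.mem_Icc] at hq hq'
        simp only at h
        omega
      · intro q hq
        rw [Finset.mem_Icc] at hq
        omega
    have h3 := sum_wt_range s hs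
    linarith

/-- Sum over pairs of points of a square of side `s`: for every `p` there are at most `8 (m + 1)`
points at distance `m`, and `∑_{m ≤ s} (m + 1) wt m ≤ C s ^ (3 / 2)`. -/
theorem sum_wt : ∃ C : ℝ, 0 < C ∧ ∀ (s : ℕ) (x y : ℤ), 1 ≤ s →
    ∑ p ∈ Icc x (x + s) ×ˢ Icc y (y + s), ∑ q ∈ Icc x (x + s) ×ˢ Icc y (y + s),
      wt (max |p.1 - q.1| |p.2 - q.2|) ≤ C * (s : ℝ) ^ (7 / 2 : ℝ) := by
  refine ⟨80, by norm_num, fun s x y hs => ?_⟩
  have hs1 : (1 : ℝ) ≤ s := by exact_mod_cast hs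
  have hcard : ∀ z : ℤ, ((Icc z (z + s)).card : ℝ) = s + 1 := by
    intro z
    rw [Int.card_Icc]
    have : (z + s + 1 - z).toNat = s + 1 := by omega
    rw [this]
    push_cast
    rfl
  have hroot : (0 : ℝ) ≤ (s : ℝ) ^ (1 / 2 : ℝ) := by positivity
  have h1 : ∀ p ∈ Icc x (x + s) ×ˢ Icc y (y + s), ∑ q ∈ Icc x (x + s) ×ˢ Icc y (y + s),
      wt (max |p.1 - q.1| |p.2 - q.2|) ≤ ((s : ℝ) + 1) * (10 * (s : ℝ) ^ (1 / 2 : ℝ)) := by
    intro p hp
    rw [Finset.mem_product] at hp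
    calc ∑ q ∈ Icc x (x + s) ×ˢ Icc y (y + s), wt (max |p.1 - q.1| |p.2 - q.2|)
        ≤ ∑ q ∈ Icc x (x + s) ×ˢ Icc y (y + s), wt |p.1 - q.1| :=
          Finset.sum_le_sum fun q _ => wt_anti (le_max_left _ _)
      _ = ∑ q ∈ Icc x (x + s), ∑ q' ∈ Icc y (y + s), wt |p.1 - q| := Finset.sum_product _ _ _
      _ = ((s : ℝ) + 1) * ∑ q ∈ Icc x (x + s), wt |p.1 - q| := by
          rw [Finset.mul_sum]
          refine Finset.sum_congr rfl fun q _ => ?_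
          rw [Finset.sum_const, nsmul_eq_mul, hcard]
      _ ≤ ((s : ℝ) + 1) * (10 * (s : ℝ) ^ (1 / 2 : ℝ)) :=
          mul_le_mul_of_nonneg_left (sum_line s hs x p.1 hp.1) (by positivity)
  refine (Finset.sum_le_sum h1).trans ?_
  rw [Finset.sum_const, nsmul_eq_mul, Finset.card_product, Nat.cast_mul, hcard, hcard]
  have h2 : (s : ℝ) ^ (7 / 2 : ℝ) = (s : ℝ) ^ 3 * (s : ℝ) ^ (1 / 2 : ℝ) := by
    rw [← Real.rpow_natCast, ← Real.rpow_add (by linarith)]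
    norm_num
  rw [h2]
  have h3 : ((s : ℝ) + 1) * (s + 1) * (s + 1) ≤ 8 * (s : ℝ) ^ 3 := by
    have : (s : ℝ) + 1 ≤ 2 * s := by linarith
    calc ((s : ℝ) + 1) * (s + 1) * (s + 1) ≤ (2 * s) * (2 * s) * (2 * s) := by gcongr
      _ = 8 * (s : ℝ) ^ 3 := by ring
  nlinarith [mul_le_mul_of_nonneg_right h3 hroot]

/-- The number of even points of a square. -/
theorem card_even (s : ℕ) (x y : ℤ) :
    (s : ℝ) ^ 2 / 4 ≤ (((Icc x (x + s) ×ˢ Icc y (y + s)).filter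
      fun p => (p.1 + p.2) % 2 = 0).card : ℝ) := by
  have h1 : (s + 1) * ((s + 1) / 2) ≤ ((Icc x (x + s) ×ˢ Icc y (y + s)).filter
      fun p => (p.1 + p.2) % 2 = 0).card := by
    have h2 : (range (s + 1) ×ˢ range ((s + 1) / 2)).card = (s + 1) * ((s + 1) / 2) := by
      rw [Finset.card_product, Finset.card_range, Finset.card_range]
    rw [← h2]
    refine Finset.card_le_card_of_injOn
      (fun k => (x + k.1, y + (x + k.1 + y) % 2 + 2 * k.2)) ?_ ?_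
    · intro k hk
      simp only [Finset.coe_product, Finset.coe_range, Set.mem_prod, Set.mem_Iio] at hk
      simp only [Finset.coe_filter, Finset.mem_product, Finset.mem_Icc, Set.mem_ofPred_eq]
      omega
    · intro k _ k' _ h
      simp only [Prod.mk.injEq] at h
      ext <;> omega
  have h4 : s ≤ 2 * ((s + 1) / 2) := by omega
  have h5 : s * s ≤ 2 * ((s + 1) * ((s + 1) / 2)) := by nlinarith
  have h6 : ((s * s : ℕ) : ℝ) ≤ ((2 * ((s + 1) * ((s + 1) / 2)) : ℕ) : ℝ) := by exact_mod_cast h5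
  have h7 : (((s + 1) * ((s + 1) / 2) : ℕ) : ℝ) ≤ (((Icc x (x + s) ×ˢ Icc y (y + s)).filter
      fun p => (p.1 + p.2) % 2 = 0).card : ℝ) := by exact_mod_cast h1
  push_cast at h6 h7 ⊢
  have h8 : (0 : ℝ) ≤ (s : ℝ) * s := by positivity
  nlinarith

end Pool.Agent.PercL

end PartpercwLowCount

section PartpercwLowMoment

/-!
# First and second moment, Paley-Zygmund (task LowMoment)

`s = M r`, `B = R + 8 M r`, `Dset` = even points of the square
`[R + 2 s, R + 3 s] × [h + 2 s, h + 3 s]`.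

first: `visit_ge (K = 5 M)` with `a = R + h + 1`, `pr_WestT`, `far_le_west` (`ρ = 4 r`), `FarBd`,
`card_even`: `∑ ≥ (s ^ 2 / 4) * cV * (c / 2) * r ^ (-1/4)`.
second: `two_point` with `k = m / 2`, `m = max |p.1 - q.1| |p.2 - q.2| ≥ 2` (probability `≤ 1` if
`m ≤ 1`), `p2 k ≤ C k ^ (-1/4)`, so `p2 k ^ 2 ≤ C ^ 2 wt m`; `sum_wt`.
moment_east: `paley_zygmund` for the family of the pairs `(p, d')`; `(p, d') ↦ ue p d'` is injective
for even `p`, so the number of visited pairs is at most `ncard` (`MM_finite`).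
-/

set_option autoImplicit false

namespace Pool.Agent.PercL

open Finset Pool.Agent.Perc

/-- The even points of the remote square. -/
noncomputable def Dset (R h s : ℤ) : Finset (ℤ × ℤ) :=
  (Icc (R + 2 * s) (R + 3 * s) ×ˢ Icc (h + 2 * s) (h + 3 * s)).filter fun p => (p.1 + p.2) % 2 = 0

theorem mem_Dset {R h s : ℤ} {p : ℤ × ℤ} : p ∈ Dset R h s ↔
    ((R + 2 * s ≤ p.1 ∧ p.1 ≤ R + 3 * s) ∧ h + 2 * s ≤ p.2 ∧ p.2 ≤ h + 3 * s) ∧
      (p.1 + p.2) % 2 = 0 := by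
  unfold Dset
  rw [mem_filter, mem_product, mem_Icc, mem_Icc]

/-- The height of a far tip on the east side. -/
theorem FT_height {ω : Cfg} {r R h : ℤ} {d : Fin 4}
    (h1 : FT ω (0, 0) d R r (R, h, true)) : -R ≤ h ∧ h < R := by
  obtain ⟨-, h2, -⟩ := h1
  rcases h2 with ⟨h3, -⟩ | ⟨-, h3, h4, -⟩
  · simp at h3
  · simp only at h3 h4
    omega

theorem QF_subset {p : ℤ × ℤ} {s B : ℤ} (h1 : -B ≤ p.1 - s) (h2 : p.1 + s ≤ B)
    (h3 : -B ≤ p.2 - s) (h4 : p.2 + s ≤ B) : QF p s ⊆ QF (0, 0) B := by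
  intro f hf
  unfold QF at hf ⊢
  rw [mem_RFi] at hf ⊢
  simp only
  omega

/-- One point of the remote square. -/
theorem first_point {M : ℕ} (hM : 12 ≤ M) {c : ℝ} (hF : FarBd M c) :
    ∃ c₁ : ℝ, 0 < c₁ ∧ ∀ (ω : Cfg) (r R h : ℤ) (d : Fin 4), 1 ≤ r → M * r ≤ R →
      FT ω (0, 0) d R (4 * r) (R, h, true) → ∀ p ∈ Dset R h (M * r),
        c₁ * (c / 2 * (r : ℝ) ^ (-(1 / 4) : ℝ)) ≤ ∑ d' : Fin 4,
          pr (QF (0, 0) (R + 8 * (M * r))) (Vis ω d R (R + 8 * (M * r)) p d') := by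
  obtain ⟨c₁, hc₁, hV⟩ := visit_ge (5 * M)
  refine ⟨c₁, hc₁, fun ω r R h d hr hMR hFT p hp => ?_⟩
  have hM' : (12 : ℤ) ≤ M := by exact_mod_cast hM
  have hs : 12 * r ≤ M * r := by nlinarith
  obtain ⟨hh1, hh2⟩ := FT_height hFT
  rw [mem_Dset] at hp
  obtain ⟨⟨⟨p1, p2⟩, p3, p4⟩, p5⟩ := hp
  have hK : ((5 * M : ℕ) : ℤ) * r = 5 * (M * r) := by push_cast; ring
  generalize hsd : (M : ℤ) * r = s at *
  have h1 : ∀ d' : Fin 4, c₁ * pr (QF (0, 0) s) (WestT (R + (h + 1)) (0, 0) d' s (4 * r)) ≤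
      pr (QF (0, 0) (R + 8 * s)) (Vis ω d R (R + 8 * s) p d') := by
    intro d'
    have h2 := hV ω (R + (h + 1)) r s R h (R + 8 * s) d d' p p5 hr (by omega) (by omega) hFT
      (by simp) (by omega) (by rw [hK]; omega) (by omega) (by rw [hK]; omega) (by omega)
      (by omega) (by omega)
    rwa [pr_WestT p5 (QF_subset (by omega) (by omega) (by omega) (by omega))] at h2
  have h3 := far_le_west (a := R + (h + 1)) (R := s) (ρ := 4 * r) (by omega) (by omega)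
  have h4 := hF r hr
  rw [hsd] at h4
  calc c₁ * (c / 2 * (r : ℝ) ^ (-(1 / 4) : ℝ))
      ≤ c₁ * ∑ d' : Fin 4, pr (QF (0, 0) s) (WestT (R + (h + 1)) (0, 0) d' s (4 * r)) := by
        apply mul_le_mul_of_nonneg_left _ hc₁.le
        linarith
    _ = ∑ d' : Fin 4, c₁ * pr (QF (0, 0) s) (WestT (R + (h + 1)) (0, 0) d' s (4 * r)) := by
        rw [mul_sum]
    _ ≤ _ := sum_le_sum fun d' _ => h1 d'

theorem rpow_two_sub {r : ℝ} (hr : 1 ≤ r) : r ^ (7 / 4 : ℝ) = r ^ 2 * r ^ (-(1 / 4) : ℝ) := by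
  rw [← Real.rpow_natCast, ← Real.rpow_add (by linarith)]
  norm_num

theorem first_moment {M : ℕ} (hM : 12 ≤ M) {c : ℝ} (hc : 0 < c) (hF : FarBd M c) :
    ∃ c₁ : ℝ, 0 < c₁ ∧ ∀ (ω : Cfg) (r R h : ℤ) (d : Fin 4), 1 ≤ r → M * r ≤ R →
      FT ω (0, 0) d R (4 * r) (R, h, true) →
        c₁ * (r : ℝ) ^ (7 / 4 : ℝ) ≤ ∑ i ∈ Dset R h (M * r) ×ˢ (univ : Finset (Fin 4)),
          pr (QF (0, 0) (R + 8 * (M * r))) (Vis ω d R (R + 8 * (M * r)) i.1 i.2) := by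
  obtain ⟨c₁, hc₁, h1⟩ := first_point hM hF
  refine ⟨c₁ * (c / 8), by positivity, fun ω r R h d hr hMR hFT => ?_⟩
  have h2 := h1 ω r R h d hr hMR hFT
  rw [sum_product]
  have h3 := sum_le_sum h2
  rw [sum_const, nsmul_eq_mul] at h3
  refine le_trans ?_ h3
  -- the number of points
  obtain ⟨k, rfl⟩ := Int.eq_ofNat_of_zero_le (by omega : (0 : ℤ) ≤ r)
  have h4 := card_even (M * k) (R + 2 * (M * k)) (h + 2 * (M * k))
  have h5 : (Dset R h (M * (k : ℤ))).card = ((Icc (R + 2 * (M * k)) (R + 2 * (M * k) +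
      ((M * k : ℕ) : ℤ)) ×ˢ Icc (h + 2 * (M * k)) (h + 2 * (M * k) + ((M * k : ℕ) : ℤ))).filter
      fun p => (p.1 + p.2) % 2 = 0).card := by
    unfold Dset
    congr 3
    · congr 1
      push_cast
      ring
    · congr 1
      push_cast
      ring
  rw [← h5] at h4
  have hk : (1 : ℝ) ≤ ((k : ℤ) : ℝ) := by exact_mod_cast hr
  have hk' : ((k : ℤ) : ℝ) = (k : ℝ) := by simp
  have hMk : ((k : ℤ) : ℝ) ^ 2 ≤ ((M * k : ℕ) : ℝ) ^ 2 := by
    rw [hk']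
    have : (1 : ℝ) ≤ M := by exact_mod_cast (by omega : 1 ≤ M)
    rw [hk'] at hk
    push_cast
    have h6 : (k : ℝ) ≤ M * k := by nlinarith
    exact pow_le_pow_left₀ (by linarith) h6 2
  rw [rpow_two_sub hk]
  have hpos : 0 < ((k : ℤ) : ℝ) ^ (-(1 / 4) : ℝ) := Real.rpow_pos_of_pos (by linarith) _
  have h7 : ((k : ℤ) : ℝ) ^ 2 / 4 ≤ ((Dset R h (M * (k : ℤ))).card : ℝ) := by
    refine le_trans ?_ h4
    linarith
  calc c₁ * (c / 8) * (((k : ℤ) : ℝ) ^ 2 * ((k : ℤ) : ℝ) ^ (-(1 / 4) : ℝ))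
      = ((k : ℤ) : ℝ) ^ 2 / 4 * (c₁ * (c / 2 * ((k : ℤ) : ℝ) ^ (-(1 / 4) : ℝ))) := by ring
    _ ≤ _ := mul_le_mul_of_nonneg_right h7 (by positivity)

/-- Two points of the remote square. -/
theorem second_point {M : ℕ} (hM : 12 ≤ M) (hP : P2Bounds) :
    ∃ C : ℝ, 0 < C ∧ ∀ (ω : Cfg) (r R h : ℤ) (d : Fin 4), 1 ≤ r → M * r ≤ R →
      FT ω (0, 0) d R (4 * r) (R, h, true) → ∀ p ∈ Dset R h (M * r), ∀ q ∈ Dset R h (M * r),
        ∀ d₁ d₂ : Fin 4, pr (QF (0, 0) (R + 8 * (M * r))) (Vis ω d R (R + 8 * (M * r)) p d₁ ∩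
              Vis ω d R (R + 8 * (M * r)) q d₂) ≤ C * wt (max |p.1 - q.1| |p.2 - q.2|) := by
  obtain ⟨c₀, C, hc₀, hC, hb⟩ := hP
  refine ⟨max 1 (C ^ 2), by positivity, fun ω r R h d hr hMR hFT p hp q hq d₁ d₂ => ?_⟩
  have hM' : (12 : ℤ) ≤ M := by exact_mod_cast hM
  have hs : 12 * r ≤ M * r := by nlinarith
  obtain ⟨hh1, hh2⟩ := FT_height hFT
  rw [mem_Dset] at hp hq
  obtain ⟨⟨⟨p1, p2'⟩, p3, p4⟩, p5⟩ := hp
  obtain ⟨⟨⟨q1, q2⟩, q3, q4⟩, q5⟩ := hq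
  generalize hsd : (M : ℤ) * r = s at *
  generalize hm : max |p.1 - q.1| |p.2 - q.2| = m
  have hms : m ≤ s := by
    rw [← hm]
    refine max_le ?_ ?_ <;> rw [abs_le] <;> constructor <;> omega
  by_cases hm1 : m ≤ 1
  · have h1 : wt m = 1 := by unfold wt; rw [if_pos hm1]
    rw [h1, mul_one]
    exact le_trans (pr_le_one _ _) (le_max_left _ _)
  · push Not at hm1
    obtain ⟨k, hk⟩ := Int.eq_ofNat_of_zero_le (by omega : (0 : ℤ) ≤ m / 2)
    have hk1 : 1 ≤ k := by omega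
    have habs : |p.2| + k ≤ R + 8 * s ∧ |q.2| + k ≤ R + 8 * s := by
      constructor
      · have : |p.2| ≤ R + 3 * s := by rw [abs_le]; constructor <;> omega
        omega
      · have : |q.2| ≤ R + 3 * s := by rw [abs_le]; constructor <;> omega
        omega
    have h1 := two_point ω (d := d) (d₁ := d₁) (d₂ := d₂) (R := R) (B := R + 8 * s) (p := p)
      (q := q) (k := k) hk1 p5 q5 (by omega) (by omega) (by omega) (by omega) (by omega)
      habs.1 habs.2 (by rw [hm]; omega)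
    have h2 : wt m = (k : ℝ) ^ (-(1 / 2) : ℝ) := by
      unfold wt
      rw [if_neg (by omega), hk]
      simp
    have h3 := (hb k hk1).2
    have hk0 : (0 : ℝ) < k := by exact_mod_cast hk1
    have h4 : p2 k ^ 2 ≤ C ^ 2 * (k : ℝ) ^ (-(1 / 2) : ℝ) := by
      have h5 : (0 : ℝ) ≤ p2 k := pr_nonneg _ _
      have h6 : p2 k ^ 2 ≤ (C * (k : ℝ) ^ (-(1 / 4) : ℝ)) ^ 2 := pow_le_pow_left₀ h5 h3 2
      have h7 : ((k : ℝ) ^ (-(1 / 4) : ℝ)) ^ 2 = (k : ℝ) ^ (-(1 / 2) : ℝ) := by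
        rw [← Real.rpow_natCast, ← Real.rpow_mul hk0.le]
        norm_num
      rwa [mul_pow, h7] at h6
    rw [h2]
    refine le_trans h1 (le_trans h4 ?_)
    exact mul_le_mul_of_nonneg_right (le_max_right _ _) (Real.rpow_nonneg hk0.le _)

theorem second_moment {M : ℕ} (hM : 12 ≤ M) (hP : P2Bounds) :
    ∃ C₂ : ℝ, 0 < C₂ ∧ ∀ (ω : Cfg) (r R h : ℤ) (d : Fin 4), 1 ≤ r → M * r ≤ R →
      FT ω (0, 0) d R (4 * r) (R, h, true) →
        ∑ i ∈ Dset R h (M * r) ×ˢ (univ : Finset (Fin 4)),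
          ∑ j ∈ Dset R h (M * r) ×ˢ (univ : Finset (Fin 4)),
            pr (QF (0, 0) (R + 8 * (M * r))) (Vis ω d R (R + 8 * (M * r)) i.1 i.2 ∩
              Vis ω d R (R + 8 * (M * r)) j.1 j.2) ≤ C₂ * (r : ℝ) ^ (7 / 2 : ℝ) := by
  obtain ⟨C, hC, h1⟩ := second_point hM hP
  obtain ⟨Cs, hCs, h2⟩ := sum_wt
  have hM0 : (0 : ℝ) < M := by exact_mod_cast (by omega : 0 < M)
  refine ⟨16 * C * Cs * (M : ℝ) ^ (7 / 2 : ℝ), by positivity, fun ω r R h d hr hMR hFT => ?_⟩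
  have h3 := h1 ω r R h d hr hMR hFT
  obtain ⟨k, rfl⟩ := Int.eq_ofNat_of_zero_le (by omega : (0 : ℤ) ≤ r)
  have hk : 1 ≤ k := by omega
  have hMk : 1 ≤ M * k := Nat.mul_pos (by omega) hk
  have h4 := h2 (M * k) (R + 2 * (M * k)) (h + 2 * (M * k)) hMk
  have hsub : Dset R h (M * (k : ℤ)) ⊆ Icc (R + 2 * (M * k)) (R + 2 * (M * k) +
      ((M * k : ℕ) : ℤ)) ×ˢ Icc (h + 2 * (M * k)) (h + 2 * (M * k) + ((M * k : ℕ) : ℤ)) := by
    intro p hp
    rw [mem_Dset] at hp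
    rw [mem_product, mem_Icc, mem_Icc]
    push_cast
    omega
  have h5 : ∑ p ∈ Dset R h (M * (k : ℤ)), ∑ q ∈ Dset R h (M * (k : ℤ)),
      wt (max |p.1 - q.1| |p.2 - q.2|) ≤ Cs * ((M * k : ℕ) : ℝ) ^ (7 / 2 : ℝ) := by
    refine le_trans ?_ h4
    refine le_trans (sum_le_sum fun p _ => sum_le_sum_of_subset_of_nonneg hsub
      fun q _ _ => wt_nonneg _) ?_
    exact sum_le_sum_of_subset_of_nonneg hsub fun p _ _ => sum_nonneg fun q _ => wt_nonneg _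
  calc ∑ i ∈ Dset R h (M * (k : ℤ)) ×ˢ (univ : Finset (Fin 4)),
          ∑ j ∈ Dset R h (M * (k : ℤ)) ×ˢ (univ : Finset (Fin 4)),
            pr (QF (0, 0) (R + 8 * (M * (k : ℤ)))) (Vis ω d R (R + 8 * (M * (k : ℤ))) i.1 i.2 ∩
              Vis ω d R (R + 8 * (M * (k : ℤ))) j.1 j.2)
      ≤ ∑ i ∈ Dset R h (M * (k : ℤ)) ×ˢ (univ : Finset (Fin 4)),
          ∑ j ∈ Dset R h (M * (k : ℤ)) ×ˢ (univ : Finset (Fin 4)),
            C * wt (max |i.1.1 - j.1.1| |i.1.2 - j.1.2|) := by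
        refine sum_le_sum fun i hi => sum_le_sum fun j hj => ?_
        rw [mem_product] at hi hj
        exact h3 i.1 hi.1 j.1 hj.1 i.2 j.2
    _ = 16 * C * ∑ p ∈ Dset R h (M * (k : ℤ)), ∑ q ∈ Dset R h (M * (k : ℤ)),
          wt (max |p.1 - q.1| |p.2 - q.2|) := by
        simp only [sum_product, sum_const, card_univ, Fintype.card_fin, nsmul_eq_mul, mul_sum]
        refine sum_congr rfl fun p _ => ?_
        refine sum_congr rfl fun q _ => ?_
        push_cast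
        ring
    _ ≤ 16 * C * (Cs * ((M * k : ℕ) : ℝ) ^ (7 / 2 : ℝ)) := by
        exact mul_le_mul_of_nonneg_left h5 (by positivity)
    _ = 16 * C * Cs * (M : ℝ) ^ (7 / 2 : ℝ) * (((k : ℕ) : ℤ) : ℝ) ^ (7 / 2 : ℝ) := by
        push_cast
        rw [Real.mul_rpow (by positivity) (by positivity)]
        ring

theorem ue_inj {p q : ℤ × ℤ} (hp : (p.1 + p.2) % 2 = 0) (hq : (q.1 + q.2) % 2 = 0)
    {d d' : Fin 4} (h : ue p d = ue q d') : (p, d) = (q, d') := by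
  obtain ⟨p1, p2⟩ := p
  obtain ⟨q1, q2⟩ := q
  simp only at hp hq
  fin_cases d <;> fin_cases d' <;> simp [ue] at h ⊢ <;> omega

theorem moment_east {M : ℕ} (hM : 12 ≤ M) (hP : P2Bounds) {c : ℝ} (hc : 0 < c) (hF : FarBd M c) :
    ∃ c₁ c₂ : ℝ, 0 < c₁ ∧ 0 < c₂ ∧ ∀ (ω : Cfg) (r R h : ℤ) (d : Fin 4), 1 ≤ r → M * r ≤ R →
      FT ω (0, 0) d R (4 * r) (R, h, true) →
        c₂ ≤ pr (QF (0, 0) (R + 8 * (M * r))) {ξ | c₁ * (r : ℝ) ^ (7 / 4 : ℝ) ≤
          ((MM (mixC (SQ ω (0, 0) d R) ω ξ) (QF (0, 0) (R + 8 * (M * r)))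
            (ue (0, 0) d)).ncard : ℝ)} := by
  obtain ⟨c₁, hc₁, h1⟩ := first_moment hM hc hF
  obtain ⟨C₂, hC₂, h2⟩ := second_moment hM hP
  refine ⟨c₁ / 2, c₁ ^ 2 / (4 * C₂), by positivity, by positivity,
    fun ω r R h d hr hMR hFT => ?_⟩
  have hr0 : (0 : ℝ) < r := by exact_mod_cast hr
  have hpos : (0 : ℝ) < (r : ℝ) ^ (7 / 4 : ℝ) := Real.rpow_pos_of_pos hr0 _
  have h3 := paley_zygmund (W := QF (0, 0) (R + 8 * (M * r)))
    (Dset R h (M * r) ×ˢ (univ : Finset (Fin 4)))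
    (fun i => Vis ω d R (R + 8 * (M * r)) i.1 i.2)
    (mul_pos hc₁ hpos) (h1 ω r R h d hr hMR hFT) (h2 ω r R h d hr hMR hFT)
  have h4 : c₁ ^ 2 / (4 * C₂) = (c₁ * (r : ℝ) ^ (7 / 4 : ℝ)) ^ 2 /
      (4 * (C₂ * (r : ℝ) ^ (7 / 2 : ℝ))) := by
    have h5 : ((r : ℝ) ^ (7 / 4 : ℝ)) ^ 2 = (r : ℝ) ^ (7 / 2 : ℝ) := by
      rw [← Real.rpow_natCast, ← Real.rpow_mul hr0.le]
      norm_num
    have h6 : (0 : ℝ) < (r : ℝ) ^ (7 / 2 : ℝ) := Real.rpow_pos_of_pos hr0 _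
    rw [mul_pow, h5]
    field_simp
  rw [h4]
  refine le_trans h3 (pr_mono _ fun ξ hξ => ?_)
  simp only [Set.mem_ofPred_eq] at hξ ⊢
  have hM' : (12 : ℤ) ≤ M := by exact_mod_cast hM
  have hs : 12 * r ≤ M * r := by nlinarith
  refine le_trans (by linarith) (le_trans hξ ?_)
  rw [Nat.cast_le]
  classical
  rw [← Set.ncard_coe_finset]
  refine Set.ncard_le_ncard_of_injOn (fun i : (ℤ × ℤ) × Fin 4 => ue i.1 i.2) ?_ ?_
    (MM_finite _ _ _ _ (by omega))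
  · intro i hi
    rw [mem_coe, mem_filter] at hi
    exact hi.2
  · intro i hi j hj hij
    rw [mem_coe, mem_filter, mem_product, mem_Dset] at hi hj
    exact ue_inj hi.1.1.2 hj.1.1.2 hij

end Pool.Agent.PercL

end PartpercwLowMoment

section PartpercwLowFinal

/-!
# The lower tail for one unit edge (task LowFinal)

`step`: for `ω ∈ Few d R t` there is a tip (`TA_iff_tip`), `tip_dichotomy` with `ρ = 4 r + 1`: in the
close case `close_step` (`ρ = 4 r + 1`, `B = R + 8 M r`), in the far case `moment_east` and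
`reduce_east`. In both cases `pr {ξ | mixC (SQ ω 0 d R) ω ξ ∉ Few d B t} ≥ c`; the mixed
configuration is in `Few d R t` (`TA_congr`, `mix_SQ`). `pr_mixC` with `A = Few d R t`,
`X = Few d R t \ Few d B t`, `few_anti`.

`lower_tail`: induction on `K`; `Few d R t ⊆ TA 0 d R`, `pr_TA`. `lower_tail_at`: translation.
-/

set_option autoImplicit false

namespace Pool.Agent.PercL

open Finset Pool.Agent.Perc

theorem LowFinal.not_bdE {R : ℤ} (hR : 2 ≤ R) (d : Fin 4) :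
    ¬ BdE (-R) R (-R) R (ue (0, 0) d) := by
  unfold BdE
  fin_cases d <;> simp [ue] <;> omega

theorem LowFinal.QF_zero (R : ℤ) : QF (0, 0) R = RF (-R) R (-R) R := by
  unfold QF
  simp

theorem LowFinal.QF_mono {p : ℤ × ℤ} {R B : ℤ} (h : R ≤ B) : QF p R ⊆ QF p B := by
  intro f hf
  unfold QF RF at *
  simp only [mem_product, mem_Ico] at *
  omega

theorem LowFinal.inR_of_bdE {R : ℤ} {t : UE} (h : BdE (-R) R (-R) R t) :
    InR (-R) R (-R) R (ua t) := by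
  unfold BdE at h
  unfold InR ua
  rcases h with ⟨h1, h2, h3, h4⟩ | ⟨h1, h2, h3, h4⟩ <;> simp only <;> omega

open LowFinal in
theorem step (hP : P2Bounds) : ∃ (M : ℕ) (c c₁ : ℝ), 12 ≤ M ∧ 0 < c ∧ c < 1 ∧ 0 < c₁ ∧
    ∀ (r R : ℤ) (d : Fin 4), 1 ≤ r → M * r ≤ R →
      pr (QF (0, 0) (R + 8 * (M * r))) (Few d (R + 8 * (M * r)) (c₁ * (r : ℝ) ^ (7 / 4 : ℝ))) ≤
        (1 - c) * pr (QF (0, 0) R) (Few d R (c₁ * (r : ℝ) ^ (7 / 4 : ℝ))) := by
  obtain ⟨M, hM, c0, hc0, hF⟩ := exists_farBd hP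
  obtain ⟨c₁, c₂, hc₁, hc₂, hmom⟩ := moment_east hM hP hc0 hF
  obtain ⟨c₃, hc₃, hc₃', hcl⟩ := close_step
  refine ⟨M, min c₂ c₃, c₁, hM, lt_min hc₂ hc₃, lt_of_le_of_lt (min_le_right _ _) hc₃', hc₁, ?_⟩
  intro r R d hr hR
  have hM' : (12 : ℤ) ≤ M := by exact_mod_cast hM
  have hMr : 12 * r ≤ M * r := by nlinarith
  set B : ℤ := R + 8 * (M * r) with hB
  set t : ℝ := c₁ * (r : ℝ) ^ (7 / 4 : ℝ) with ht
  have hR1 : 12 ≤ R := by omega
  have hRB : R ≤ B := by omega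
  have key : ∀ ω ∈ Few d R t,
      min c₂ c₃ ≤ pr (QF (0, 0) B) {ξ | mixC (SQ ω (0, 0) d R) ω ξ ∉ Few d B t} := by
    intro ω hω
    obtain ⟨t₀, ht₀, hb₀⟩ := (TA_iff_tip (by omega)).1 hω.1
    rw [QF_zero] at ht₀
    simp only [zero_sub, zero_add] at hb₀
    rcases tip_dichotomy (ρ := 4 * r + 1) (by omega) (not_bdE (by omega) d) ht₀ hb₀ with h | h
    · refine (min_le_right _ _).trans ((hcl ω (ua t₀) d R B (4 * r + 1) (by omega) (by omega)
        (by omega) (inR_of_bdE hb₀) h).trans ?_)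
      exact pr_mono _ fun ξ hξ hξ' => hξ hξ'.1
    · have hfar : ω ∈ FarEv (0, 0) d R (4 * r + 1) := by
        refine ⟨t₀, ?_⟩
        unfold FT
        simp only [zero_sub, zero_add]
        exact ⟨ht₀, hb₀, h⟩
      have h1 := reduce_east (R := R) (B := B) (ρ := 4 * r) (t := t) (c := c₂) (by omega) hRB
        (by omega) (fun ω d h hω => hmom ω r R h d hr hR hω) ω d hfar
      refine (min_le_left _ _).trans (h1.trans ?_)
      exact pr_mono _ fun ξ hξ hξ' => absurd hξ'.2 (not_lt.2 hξ)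
  have h2 := pr_mixC (W := QF (0, 0) B) (fun ω => SQ ω (0, 0) d R) (fun ω ω' h => SQ_stop h)
    (Few d R t) (Few d R t \ Few d B t)
    (fun ω => {ξ | mixC (SQ ω (0, 0) d R) ω ξ ∉ Few d B t}) key (by
      intro ω hω ξ hξ
      refine ⟨⟨?_, ?_⟩, hξ⟩
      · refine (TA_congr (by omega) ?_).2 hω.1
        intro f hf
        unfold mixC
        rw [if_pos hf]
      · rw [(mix_SQ ω ξ (0, 0) d R).2]
        exact hω.2)
  have h3 : pr (QF (0, 0) B) (Few d R t \ Few d B t) + pr (QF (0, 0) B) (Few d B t) =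
      pr (QF (0, 0) B) (Few d R t) := by
    rw [ProbA.pr_eq_sum, ProbA.pr_eq_sum, ProbA.pr_eq_sum, ← add_div, ← Finset.sum_add_distrib]
    congr 1
    refine Finset.sum_congr rfl fun T _ => ?_
    by_cases h4 : cfg T ∈ Few d B t
    · have h5 : cfg T ∈ Few d R t := few_anti (by omega) hRB h4
      have h6 : cfg T ∉ Few d R t \ Few d B t := fun h => h.2 h4
      rw [if_neg h6, if_pos h4, if_pos h5]; norm_num
    · by_cases h5 : cfg T ∈ Few d R t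
      · rw [if_pos (show cfg T ∈ Few d R t \ Few d B t from ⟨h5, h4⟩), if_neg h4, if_pos h5]
        norm_num
      · rw [if_neg (show ¬ cfg T ∈ Few d R t \ Few d B t from fun h => h5 h.1), if_neg h4,
          if_neg h5]
        norm_num
  have h4 : pr (QF (0, 0) B) (Few d R t) = pr (QF (0, 0) R) (Few d R t) :=
    pr_eq_of_depOn (depOn_Few t) (QF_mono hRB)
  rw [h4] at h2 h3
  linarith

/-- The lower tail: with both arms to distance `R + 8 M r K` the component has at least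
`c₁ r ^ (7/4)` unit edges, except with probability `(1 - c) ^ K p2 R`. -/
theorem lower_tail (hP : P2Bounds) : ∃ (M : ℕ) (c c₁ : ℝ), 12 ≤ M ∧ 0 < c ∧ c < 1 ∧ 0 < c₁ ∧
    ∀ (r R : ℤ) (d : Fin 4) (K : ℕ), 1 ≤ r → M * r ≤ R →
      pr (QF (0, 0) (R + 8 * (M * r) * K))
        (Few d (R + 8 * (M * r) * K) (c₁ * (r : ℝ) ^ (7 / 4 : ℝ))) ≤ (1 - c) ^ K * p2 R := by
  obtain ⟨M, c, c₁, hM, hc, hc', hc₁, h⟩ := step hP
  refine ⟨M, c, c₁, hM, hc, hc', hc₁, ?_⟩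
  intro r R d K hr hR
  induction K with
  | zero =>
    simp only [Nat.cast_zero, mul_zero, add_zero, pow_zero, one_mul]
    exact (pr_mono _ fun ω hω => hω.1).trans (pr_TA (Finset.Subset.refl _)).le
  | succ K ih =>
    have hMr : 0 ≤ (M : ℤ) * r := by positivity
    have h1 := h r (R + 8 * (M * r) * K) d hr (by nlinarith [Int.natCast_nonneg K])
    have e : R + 8 * (M * r) * ((K + 1 : ℕ) : ℤ) = R + 8 * (M * r) * K + 8 * (M * r) := by
      push_cast; ring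
    rw [e]
    refine h1.trans ?_
    calc (1 - c) * pr (QF (0, 0) (R + 8 * (M * r) * K))
          (Few d (R + 8 * (M * r) * K) (c₁ * (r : ℝ) ^ (7 / 4 : ℝ)))
        ≤ (1 - c) * ((1 - c) ^ K * p2 R) := mul_le_mul_of_nonneg_left ih (by linarith)
      _ = (1 - c) ^ (K + 1) * p2 R := by ring

/-- The event of `lower_tail_at`. -/
theorem LowFinal.depOn_at (p : ℤ × ℤ) (d : Fin 4) (R : ℤ) (t : ℝ) :
    DepOn (QF p R : Set (ℤ × ℤ))
      {ω | ω ∈ TA p d R ∧ ((MM ω (QF p R) (ue p d)).ncard : ℝ) < t} := by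
  intro ω ω' h
  have h1 := depOn_TA (p := p) (d := d) (R := R) ω ω' h
  have h2 : MM ω' (QF p R : Set (ℤ × ℤ)) (ue p d) = MM ω (QF p R : Set (ℤ × ℤ)) (ue p d) :=
    MM_congr fun f hf => h f hf.1
  simp only [Set.mem_ofPred_eq]
  rw [h1, h2]

open LowFinal in
theorem LowFinal.pr_at {p : ℤ × ℤ} (_hp : (p.1 + p.2) % 2 = 0) (d : Fin 4) (R : ℤ) (t : ℝ)
    {W : Finset (ℤ × ℤ)} (hW : QF p R ⊆ W) :
    pr W {ω | ω ∈ TA p d R ∧ ((MM ω (QF p R) (ue p d)).ncard : ℝ) < t} =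
      pr (QF (0, 0) R) (Few d R t) := by
  rw [pr_eq_of_depOn (depOn_at p d R t) hW]
  have M := Sym.maps_S p.1 p.2 (-R) R (-R) R
  have e1 : (QF (0, 0) R).image (symS p.1 p.2).f = QF p R := by
    rw [QF_zero, M.image_RF]
    unfold QF
    rw [show -R + p.1 = p.1 - R by ring, show R + p.1 = p.1 + R by ring,
      show -R + p.2 = p.2 - R by ring, show R + p.2 = p.2 + R by ring]
  have h1 := (symS p.1 p.2).pr_act (S := QF (0, 0) R)
    (A := {ω | ω ∈ TA p d R ∧ ((MM ω (QF p R) (ue p d)).ncard : ℝ) < t}) (by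
      rw [e1]; exact depOn_at p d R t)
  rw [e1] at h1
  rw [← h1]
  congr 1
  ext ω
  have e2 : (symS p.1 p.2).v (0, 0) = p := by simp [symS, hsymS]
  have e3 : (symS p.1 p.2).v (nb (0, 0) d) = nb p d := by
    fin_cases d <;> simp [symS, hsymS, nb, add_comm, sub_eq_add_neg]
  have e4 : (symS p.1 p.2).s (ue (0, 0) d) = ue p d := by
    fin_cases d <;> simp [symS, hsymS, ue, add_comm, sub_eq_add_neg]
  have e5 : (QF p R : Set (ℤ × ℤ)) = RF (-R + p.1) (R + p.1) (-R + p.2) (R + p.2) := by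
    unfold QF
    rw [show -R + p.1 = p.1 - R by ring, show R + p.1 = p.1 + R by ring,
      show -R + p.2 = p.2 - R by ring, show R + p.2 = p.2 + R by ring]
  have h2 : (MM ((symS p.1 p.2).act ω) (QF p R) (ue p d)).ncard =
      (MM ω (QF (0, 0) R) (ue (0, 0) d)).ncard := by
    rw [e5, ← e4, M.MM_eq, QF_zero]
    exact Set.ncard_image_of_injective _ (symS p.1 p.2).s.injective
  have h3 : (symS p.1 p.2).act ω ∈ TA p d R ↔ ω ∈ TA (0, 0) d R := by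
    unfold TA
    simp only [Set.mem_ofPred_eq]
    have t1 := M.toBd_iff (ω := ω) (u := (0, 0))
    have t2 := M.toBd_iff (ω := ω) (u := nb (0, 0) d)
    rw [e2] at t1
    rw [e3] at t2
    rw [show -R + p.1 = p.1 - R by ring, show R + p.1 = p.1 + R by ring,
      show -R + p.2 = p.2 - R by ring, show R + p.2 = p.2 + R by ring] at t1 t2
    rw [t1, t2]
    simp
  simp only [Set.mem_ofPred_eq, Few]
  rw [h2, h3]

open LowFinal in
/-- The same at every even vertex and in every window. -/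
theorem lower_tail_at (hP : P2Bounds) : ∃ (M : ℕ) (c c₁ : ℝ), 12 ≤ M ∧ 0 < c ∧ c < 1 ∧ 0 < c₁ ∧
    ∀ (r R : ℤ) (p : ℤ × ℤ) (d : Fin 4) (K : ℕ), (p.1 + p.2) % 2 = 0 → 1 ≤ r → M * r ≤ R →
      ∀ W : Finset (ℤ × ℤ), QF p (R + 8 * (M * r) * K) ⊆ W →
        pr W {ω | ω ∈ TA p d (R + 8 * (M * r) * K) ∧
          ((MM ω (QF p (R + 8 * (M * r) * K)) (ue p d)).ncard : ℝ) <
            c₁ * (r : ℝ) ^ (7 / 4 : ℝ)} ≤ (1 - c) ^ K * p2 R := by
  obtain ⟨M, c, c₁, hM, hc, hc', hc₁, h⟩ := lower_tail hP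
  refine ⟨M, c, c₁, hM, hc, hc', hc₁, ?_⟩
  intro r R p d K hp hr hR W hW
  rw [pr_at hp d _ _ hW]
  exact h r R d K hr hR

end Pool.Agent.PercL

end PartpercwLowFinal

section PartpercdTailH

/-!
# The lower tail in the form needed for the macroscopic lower tail
-/

set_option autoImplicit false

namespace Pool.Agent.PercD

open Finset Filter Topology Pool.Agent.Perc

namespace TailH

/-- Every unit edge is a unit edge at its even end. -/
theorem exists_ue (e : UE) : ∃ (p : ℤ × ℤ) (d : Fin 4), (p.1 + p.2) % 2 = 0 ∧ PercL.ue p d = e ∧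
    Joins e p (PercL.nb p d) ∧ |p.1 - (ua e).1| ≤ 1 ∧ |p.2 - (ua e).2| ≤ 1 := by
  obtain ⟨x, y, b⟩ := e
  rcases Int.emod_two_eq_zero_or_one (x + y) with h | h
  · cases b
    · exact ⟨(x, y), 0, h, rfl, Or.inl ⟨rfl, rfl⟩, by simp [ua], by simp [ua]⟩
    · exact ⟨(x, y), 1, h, rfl, Or.inl ⟨rfl, rfl⟩, by simp [ua], by simp [ua]⟩
  · cases b
    · refine ⟨(x + 1, y), 2, by simp only; omega, by simp [PercL.ue],
        Or.inr ⟨by simp [ub], by simp [PercL.nb, ua]⟩, by simp [ua], by simp [ua]⟩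
    · refine ⟨(x, y + 1), 3, by simp only; omega, by simp [PercL.ue],
        Or.inr ⟨by simp [ub], by simp [PercL.nb, ua]⟩, by simp [ua], by simp [ua]⟩

theorem toBd_smaller {v p u : ℤ × ℤ} {r R : ℤ} {ω : Cfg} (hp1 : |p.1 - v.1| ≤ 1)
    (hp2 : |p.2 - v.2| ≤ 1) (hR : R + 1 ≤ r)
    (hu : p.1 - R ≤ u.1 ∧ u.1 ≤ p.1 + R ∧ p.2 - R ≤ u.2 ∧ u.2 ≤ p.2 + R)
    (h : ToBd (v.1 - r) (v.1 + r) (v.2 - r) (v.2 + r) ω u) :
    ToBd (p.1 - R) (p.1 + R) (p.2 - R) (p.2 + R) ω u := by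
  obtain ⟨w, hw, hb⟩ := h
  rw [abs_le] at hp1 hp2
  obtain ⟨w', h1, h2⟩ := Conn.toBd hw hu (by
    unfold OnBd at hb
    omega)
  exact ⟨w', h1.mono Set.inter_subset_right, h2⟩

theorem QF_sub {e : UE} {p : ℤ × ℤ} (h1 : |p.1 - (ua e).1| ≤ 1) (h2 : |p.2 - (ua e).2| ≤ 1)
    {R r : ℤ} (h : R + 1 ≤ r) : PercL.QF p R ⊆ BR (ua e) r := by
  rw [abs_le] at h1 h2
  intro f hf
  rw [mem_BR]
  unfold PercL.QF at hf
  rw [mem_RF] at hf
  omega

/-- The event of the lower tail, at the even end. -/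
theorem sub_event {e : UE} {p : ℤ × ℤ} {d : Fin 4} (hue : PercL.ue p d = e)
    (hj : Joins e p (PercL.nb p d)) (h1 : |p.1 - (ua e).1| ≤ 1) (h2 : |p.2 - (ua e).2| ≤ 1)
    {R : ℤ} {r : ℕ} (h : R + 1 ≤ (r : ℤ)) (hR : 1 ≤ R) {t t' : ℝ} (ht : t ≤ t') {ω : Cfg}
    (hω : ω ∈ Rch (ua e) r e ∧ ((MM ω (BR (ua e) r) e).ncard : ℝ) < t) :
    ω ∈ PercL.TA p d R ∧ ((MM ω (PercL.QF p R) (PercL.ue p d)).ncard : ℝ) < t' := by
  obtain ⟨⟨a, ha, hb⟩, hcard⟩ := hω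
  have hr : (0 : ℤ) ≤ r := Int.natCast_nonneg r
  constructor
  · refine ⟨?_, ?_⟩
    · refine toBd_smaller h1 h2 h (by omega) ?_
      exact toBd_of_tip hj ha hb (by omega) (by omega)
    · refine toBd_smaller h1 h2 h ?_ ?_
      · fin_cases d <;> simp [PercL.nb] <;> omega
      · exact toBd_of_tip hj.symm ha hb (by omega) (by omega)
  · have h3 : MM ω (PercL.QF p R) (PercL.ue p d) ⊆ MM ω (BR (ua e) r) e := by
      rw [hue]
      exact fun b hb => MM_mono (Finset.coe_subset.2 (QF_sub h1 h2 h)) hb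
    have h4 : ((MM ω (PercL.QF p R) (PercL.ue p d)).ncard : ℝ) ≤
        ((MM ω (BR (ua e) r) e).ncard : ℝ) := by
      exact_mod_cast Set.ncard_le_ncard h3 (MM_finite' r)
    linarith

/-- The probability of a long component. -/
theorem p2_le_pr_Rch (e : UE) {r : ℕ} (hr : 1 ≤ r) :
    p2 r ≤ pr (BR (ua e) r) (Rch (ua e) r e) := by
  obtain ⟨k, rfl⟩ := kap_surjective e
  have h1 : pr (BR (ua (PercW.kap k)) r) (PercX60.TA r k) = p2 r := by
    refine PercX60.pr_TA k ?_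
    rw [PercW.ua_kap]
    exact subset_rfl
  rw [← h1]
  refine pr_mono _ ?_
  intro ω hω
  obtain ⟨g1, g2⟩ := hω
  have hj := PercW.joins_kap k
  have hr' : (1 : ℤ) ≤ r := by exact_mod_cast hr
  have hself := LTail.inE_self (PercW.kap k) hr'
  rw [← PercW.ua_kap] at g1 g2
  rcases hj with ⟨h3, h4⟩ | ⟨h3, h4⟩
  · exact exists_tip (Or.inl ⟨h3, h4⟩) (by rw [h3]; exact hself.1) (by rw [h4]; exact hself.2)
      (by omega) (by omega) g1 g2
  · exact exists_tip (Or.inr ⟨h3, h4⟩) (by rw [h3]; exact hself.2) (by rw [h4]; exact hself.1)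
      (by omega) (by omega) g1 g2

end TailH

open TailH

/-- The lower tail. -/
theorem tailHyp_of (hP : PercL.P2Bounds) : TailHyp := by
  obtain ⟨M, c, c₁, hM, hc, hc', hc₁, hlow⟩ := PercL.lower_tail_at hP
  obtain ⟨a, C, ha, hC, hPb⟩ := hP
  -- the constant lost in the first comparison
  set D : ℝ := max 1 (2 * C / a) with hD
  have hD1 : 1 ≤ D := le_max_left _ _
  obtain ⟨m, hm⟩ : ∃ m : ℕ, D * (1 - c) ^ m ≤ 1 / 2 := by
    have h1 : Tendsto (fun m : ℕ => D * (1 - c) ^ m) atTop (𝓝 (D * 0)) :=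
      (tendsto_pow_atTop_nhds_zero_of_lt_one (by linarith) (by linarith)).const_mul D
    rw [mul_zero] at h1
    exact (h1.eventually (ge_mem_nhds (by norm_num : (0 : ℝ) < 1 / 2))).exists
  have hm0 : 0 < m := by
    rcases Nat.eq_zero_or_pos m with h | h
    · rw [h, pow_zero, mul_one] at hm; linarith
    · exact h
  set S : ℕ := 8 * M * m with hS
  have hS0 : 0 < S := by positivity
  have hSr : (0 : ℝ) < S := by exact_mod_cast hS0
  set c₂ : ℝ := min (c₁ * (1 / (2 * S) : ℝ) ^ (7 / 4 : ℝ)) ((1 / S : ℝ) ^ (7 / 4 : ℝ)) with hc₂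
  have hc₂0 : 0 < c₂ := by
    refine lt_min (mul_pos hc₁ (Real.rpow_pos_of_pos (by positivity) _))
      (Real.rpow_pos_of_pos (by positivity) _)
  refine ⟨c₂, 1 / 2, 2, hc₂0, by norm_num, by norm_num, fun e r s K hs hr => ?_⟩
  have hr2 : 2 ≤ r := by omega
  have hs0 : (0 : ℝ) < s := by exact_mod_cast hs
  -- no steps
  rcases Nat.eq_zero_or_pos K with rfl | hK
  · rw [zero_mul, add_zero, pow_zero, one_mul]
    exact pr_mono _ fun ω hω => hω.1
  rcases Nat.lt_or_ge s S with hsS | hsS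
  · -- small steps
    have hempty : {ω | ω ∈ Rch (ua e) ((r + K * s : ℕ) : ℤ) e ∧
        ((MM ω (BR (ua e) ((r + K * s : ℕ) : ℤ)) e).ncard : ℝ) < c₂ * (s : ℝ) ^ (7 / 4 : ℝ)}
        = ∅ := by
      rw [Set.eq_empty_iff_forall_notMem]
      rintro ω ⟨-, h2⟩
      have h3 : (1 : ℝ) ≤ ((MM ω (BR (ua e) ((r + K * s : ℕ) : ℤ)) e).ncard : ℝ) := by
        exact_mod_cast one_le_ncard (ω := ω) (e := e) (r + K * s)
      have h4 : c₂ * (s : ℝ) ^ (7 / 4 : ℝ) ≤ 1 := by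
        calc c₂ * (s : ℝ) ^ (7 / 4 : ℝ) ≤ (1 / S : ℝ) ^ (7 / 4 : ℝ) * (S : ℝ) ^ (7 / 4 : ℝ) := by
              refine mul_le_mul (min_le_right _ _) ?_ (by positivity) (by positivity)
              exact Real.rpow_le_rpow hs0.le (by exact_mod_cast hsS.le) (by norm_num)
          _ = 1 := by
              rw [← Real.mul_rpow (by positivity) (by positivity), one_div,
                inv_mul_cancel₀ hSr.ne', Real.one_rpow]
      linarith
    rw [hempty]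
    have h5 : pr (BR (ua e) ((r + K * s : ℕ) : ℤ)) (∅ : Set Cfg) = 0 := by
      unfold pr
      simp
    rw [h5]
    exact mul_nonneg (by positivity) (pr_nonneg _ _)
  · -- large steps
    obtain ⟨p, d, hpar, hue, hj, hp1, hp2⟩ := exists_ue e
    set r' : ℕ := s / S with hr'
    have hr'1 : 1 ≤ r' := (Nat.one_le_div_iff hS0).2 hsS
    have hr's : S * r' ≤ s := Nat.mul_div_le s S
    have hr's2 : s < S * (r' + 1) := by
      have := Nat.lt_mul_div_succ s hS0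
      simpa [hr', Nat.succ_eq_add_one] using this
    have hMr' : (M : ℤ) * r' ≤ (r : ℤ) - 1 := by
      have h1 : M * r' ≤ s := by
        refine le_trans ?_ hr's
        rw [hS]
        nlinarith [Nat.mul_le_mul_right r' (show M ≤ 8 * M * m by nlinarith)]
      have h2 : M * r' + 1 ≤ r := by omega
      have h3 : ((M * r' + 1 : ℕ) : ℤ) ≤ r := by exact_mod_cast h2
      push_cast at h3
      omega
    have hlast : (r : ℤ) - 1 + 8 * (M * r') * ((m * K : ℕ) : ℤ) + 1 ≤ ((r + K * s : ℕ) : ℤ) := by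
      have h1 : 8 * (M * r') * (m * K) ≤ K * s := by
        calc 8 * (M * r') * (m * K) = K * (S * r') := by rw [hS]; ring
          _ ≤ K * s := Nat.mul_le_mul_left K hr's
      have h2 : ((8 * (M * r') * (m * K) : ℕ) : ℤ) ≤ ((K * s : ℕ) : ℤ) := by exact_mod_cast h1
      push_cast at h2 ⊢
      linarith
    have hR1 : (1 : ℤ) ≤ (r : ℤ) - 1 + 8 * (M * r') * ((m * K : ℕ) : ℤ) := by
      have h1 : (0 : ℤ) ≤ 8 * (M * r') * ((m * K : ℕ) : ℤ) := by positivity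
      have h2 : (2 : ℤ) ≤ r := by exact_mod_cast hr2
      omega
    -- the thresholds
    have hth : c₂ * (s : ℝ) ^ (7 / 4 : ℝ) ≤ c₁ * (((r' : ℕ) : ℤ) : ℝ) ^ (7 / 4 : ℝ) := by
      calc c₂ * (s : ℝ) ^ (7 / 4 : ℝ)
          ≤ c₁ * (1 / (2 * S) : ℝ) ^ (7 / 4 : ℝ) * (s : ℝ) ^ (7 / 4 : ℝ) :=
            mul_le_mul_of_nonneg_right (min_le_left _ _) (by positivity)
        _ = c₁ * (s / (2 * S) : ℝ) ^ (7 / 4 : ℝ) := by
            rw [mul_assoc, ← Real.mul_rpow (by positivity) hs0.le]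
            congr 2
            ring
        _ ≤ _ := by
            refine mul_le_mul_of_nonneg_left ?_ hc₁.le
            refine Real.rpow_le_rpow (by positivity) ?_ (by norm_num)
            rw [div_le_iff₀ (by positivity)]
            have h1 : (s : ℝ) ≤ S * (r' + 1) := by exact_mod_cast hr's2.le
            have h2 : (1 : ℝ) ≤ r' := by exact_mod_cast hr'1
            push_cast
            nlinarith
    have h1 : pr (BR (ua e) ((r + K * s : ℕ) : ℤ)) {ω | ω ∈ Rch (ua e) ((r + K * s : ℕ) : ℤ) e ∧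
        ((MM ω (BR (ua e) ((r + K * s : ℕ) : ℤ)) e).ncard : ℝ) < c₂ * (s : ℝ) ^ (7 / 4 : ℝ)}
        ≤ (1 - c) ^ (m * K) * p2 ((r : ℤ) - 1) := by
      refine le_trans (pr_mono _ fun ω hω => sub_event hue hj hp1 hp2 hlast hR1 hth hω) ?_
      exact hlow (r' : ℤ) ((r : ℤ) - 1) p d (m * K) hpar (by exact_mod_cast hr'1) hMr' _
        (QF_sub hp1 hp2 hlast)
    -- comparison of the probabilities
    have h2 : p2 ((r : ℤ) - 1) ≤ D * pr (BR (ua e) r) (Rch (ua e) r e) := by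
      have hr1 : 1 ≤ r - 1 := by omega
      have e1 : ((r : ℤ) - 1) = ((r - 1 : ℕ) : ℤ) := by omega
      have h3 := (hPb (r - 1) hr1).2
      have h4 := (hPb r (by omega)).1
      rw [e1]
      have h5 : ((r - 1 : ℕ) : ℝ) ^ (-(1 / 4) : ℝ) ≤ 2 * (r : ℝ) ^ (-(1 / 4) : ℝ) := by
        have h6 : (r : ℝ) / 2 ≤ ((r - 1 : ℕ) : ℝ) := by
          have h7 : (r : ℝ) ≤ 2 * ((r - 1 : ℕ) : ℝ) := by exact_mod_cast (by omega : r ≤ 2 * (r - 1))
          linarith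
        have hr0 : (0 : ℝ) < r := by exact_mod_cast (by omega : 0 < r)
        calc ((r - 1 : ℕ) : ℝ) ^ (-(1 / 4) : ℝ) ≤ ((r : ℝ) / 2) ^ (-(1 / 4) : ℝ) :=
              Real.rpow_le_rpow_of_nonpos (by positivity) h6 (by norm_num)
          _ = (1 / 2 : ℝ) ^ (-(1 / 4) : ℝ) * (r : ℝ) ^ (-(1 / 4) : ℝ) := by
              rw [← Real.mul_rpow (by norm_num) hr0.le]
              congr 1
              ring
          _ ≤ 2 * (r : ℝ) ^ (-(1 / 4) : ℝ) := by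
              refine mul_le_mul_of_nonneg_right ?_ (by positivity)
              rw [one_div, Real.inv_rpow (by norm_num), ← Real.rpow_neg (by norm_num), neg_neg]
              calc (2 : ℝ) ^ (1 / 4 : ℝ) ≤ 2 ^ (1 : ℝ) :=
                    Real.rpow_le_rpow_of_exponent_le (by norm_num) (by norm_num)
                _ = 2 := Real.rpow_one 2
      calc p2 ((r - 1 : ℕ) : ℤ) ≤ C * ((r - 1 : ℕ) : ℝ) ^ (-(1 / 4) : ℝ) := h3
        _ ≤ C * (2 * (r : ℝ) ^ (-(1 / 4) : ℝ)) := mul_le_mul_of_nonneg_left h5 hC.le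
        _ = (2 * C / a) * (a * (r : ℝ) ^ (-(1 / 4) : ℝ)) := by field_simp
        _ ≤ D * p2 r := mul_le_mul (le_max_right _ _) h4 (by positivity) (by positivity)
        _ ≤ _ := mul_le_mul_of_nonneg_left (p2_le_pr_Rch e (by omega)) (by positivity)
    have h3 : (0 : ℝ) ≤ pr (BR (ua e) r) (Rch (ua e) r e) := pr_nonneg _ _
    have h4 : (1 - c) ^ (m * K) * D ≤ (1 / 2) ^ K := by
      rw [pow_mul]
      calc ((1 - c) ^ m) ^ K * D ≤ ((1 - c) ^ m) ^ K * D ^ K := by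
            refine mul_le_mul_of_nonneg_left ?_ (by
              have : 0 ≤ 1 - c := by linarith
              positivity)
            exact le_self_pow₀ hD1 (by omega)
        _ = (D * (1 - c) ^ m) ^ K := by rw [mul_pow]; ring
        _ ≤ (1 / 2) ^ K := by
            refine pow_le_pow_left₀ ?_ hm K
            have : 0 ≤ 1 - c := by linarith
            positivity
    calc _ ≤ (1 - c) ^ (m * K) * p2 ((r : ℤ) - 1) := h1
      _ ≤ (1 - c) ^ (m * K) * (D * pr (BR (ua e) r) (Rch (ua e) r e)) := by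
          refine mul_le_mul_of_nonneg_left h2 ?_
          have : 0 ≤ 1 - c := by linarith
          positivity
      _ = (1 - c) ^ (m * K) * D * pr (BR (ua e) r) (Rch (ua e) r e) := by ring
      _ ≤ _ := mul_le_mul_of_nonneg_right h4 h3

end Pool.Agent.PercD

end PartpercdTailH
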