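import Pool.Agent.Lib.MP_6bd702_z.Z013
import Pool.Agent.Lib.MP_6bd702_z.Z007

/-!
# Assembly of the weak form from the lower tail and the upper tail
-/

set_option autoImplicit false

namespace Pool.Agent.PercW

open Finset Filter Topology
open Pool.Agent.MP_6bd702.H23 (Ed ea eb Rect mem_Rect EW mem_EW Conn Step)
open Pool.Agent.MP_6bd702.H60 Pool.Agent.PercU Pool.Agent.PercO Pool.Agent.Perc

/-- The lower tail: an interface which goes far from a corner far from the boundary is long, up to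
an exponentially small probability. -/
def LowerTail : Prop := ∃ (a s₀ : ℕ) (c q : ℝ), 0 < c ∧ 0 ≤ q ∧ q < 1 ∧ ∀ n K s : ℕ, s₀ ≤ s →
  ∀ k : Cor, ((a * (K + 1) * s : ℕ) : ℤ) ≤ (vtx k).1 → (vtx k).1 ≤ n - (a * (K + 1) * s : ℕ) →
    ((a * (K + 1) * s : ℕ) : ℤ) ≤ (vtx k).2 → (vtx k).2 ≤ n - (a * (K + 1) * s : ℕ) →
    prB n {T | (∃ k' ∈ Orb (T : Set Ed) k, ((a * (K + 1) * s : ℕ) : ℤ) ≤
        max |(vtx k').1 - (vtx k).1| |(vtx k').2 - (vtx k).2|) ∧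
      ((Orb (T : Set Ed) k).ncard : ℝ) < c * (s : ℝ) ^ (7 / 4 : ℝ)} ≤ q ^ K

open Classical in
/-- The upper tail in expectation. -/
def UpperTail : Prop := ∃ C : ℝ, ∀ n : ℕ, 1 ≤ n → ∀ D : ℝ, 1 ≤ D → D ≤ n →
  ∀ sel : Finset Edg → ℤ × ℤ, IsSel n sel →
    exB n (fun T => if D ≤ Metric.diam (clS T (sel T)) then (perim T (sel T) : ℝ) else 0) ≤
      C * (n : ℝ) ^ 2 * D ^ (-(1 / 4) : ℝ)

/-- The corners of the box. -/
noncomputable def corB (n : ℕ) : Finset Cor :=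
  Icc 0 (n : ℤ) ×ˢ Icc 0 (n : ℤ) ×ˢ (univ : Finset Bool) ×ˢ (univ : Finset Bool)

theorem card_corB (n : ℕ) : (corB n).card = 4 * (n + 1) ^ 2 := by
  unfold corB
  simp only [card_product, Int.card_Icc, card_univ, Fintype.card_bool]
  have : ((n : ℤ) + 1 - 0).toNat = n + 1 := by omega
  rw [this]
  ring

theorem mem_corB {n : ℕ} {k : Cor} (h : vtx k ∈ Box n) : k ∈ corB n := by
  unfold corB
  simp only [Box, mem_product, mem_Icc] at h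
  simp only [mem_product, mem_Icc, mem_univ, and_true]
  exact h

/-- The bad event of the lower tail. -/
def LowBad (n w r : ℕ) (N : ℝ) (k : Cor) : Set (Finset Edg) :=
  {T | (((w : ℤ) ≤ (vtx k).1 ∧ (vtx k).1 ≤ n - w) ∧ (w : ℤ) ≤ (vtx k).2 ∧ (vtx k).2 ≤ n - w) ∧
    (∃ k' ∈ Orb (T : Set Ed) k, (r : ℤ) ≤ max |(vtx k').1 - (vtx k).1| |(vtx k').2 - (vtx k).2|) ∧
      ((Orb (T : Set Ed) k).ncard : ℝ) < N}

/-- Deterministic part. -/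
theorem perim_ge_of_good {n w r l : ℕ} {N : ℝ} {D : ℕ} {T : Finset Edg} {u : ℤ × ℤ}
    (hT : T ⊆ boxE n) (hu : u ∈ Box n) (hmax : ∀ v ∈ Box n, Metric.diam (clS T v) ≤
      Metric.diam (clS T u)) (hD1 : 1 ≤ D) (hlD : 8 * l ≤ D) (hr : r ≤ 2 * l)
    (h1 : ¬ ∀ v ∈ Box n, Metric.diam (clS T v) < D)
    (h2 : (T : Set Ed) ∉ LayX n w (4 * l)) (h3 : (T : Set Ed) ∉ LayY n w (4 * l))
    (h4 : ¬ ∃ k ∈ corB n, T ∈ LowBad n w r N k) :
    (D : ℝ) ≤ Metric.diam (clS T u) ∧ N ≤ 8 * (perim T u : ℝ) := by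
  push Not at h1
  obtain ⟨v, hv, hvD⟩ := h1
  have hDu := hvD.trans (hmax v hv)
  have hD0 : (0 : ℝ) < D := by exact_mod_cast hD1
  refine ⟨hDu, ?_⟩
  obtain ⟨k, hk, hkl, k', hk', hE⟩ := exists_inner_corner (w := w) (E := 4 * l) hT hu hD0 hDu (by
    have : (8 : ℝ) * l ≤ D := by exact_mod_cast hlD
    push_cast
    linarith) h2 h3
  have hkc : vtx k ∈ clV T u := by rw [clV_eq]; exact hk.1
  have hkB := BoxAux.clV_subset_box hT hu hkc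
  have hkB' : vtx k ∈ Box n := hkB
  simp only [Box, mem_product, mem_Icc] at hkB'
  have hin : ((w : ℤ) ≤ (vtx k).1 ∧ (vtx k).1 ≤ n - w) ∧ (w : ℤ) ≤ (vtx k).2 ∧
      (vtx k).2 ≤ n - w := by
    by_contra hcon
    exact hkl (mem_Lay.2 ⟨⟨hkB'.1.1, hkB'.1.2, hkB'.2.1, hkB'.2.2⟩, fun h => hcon
      ⟨⟨h.1, h.2.1⟩, h.2.2.1, h.2.2.2⟩⟩)
  have hnot : T ∉ LowBad n w r N k := fun h => h4 ⟨k, mem_corB hkB, h⟩
  have hN : N ≤ ((Orb (T : Set Ed) k).ncard : ℝ) := by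
    by_contra hcon
    push Not at hcon
    refine hnot ⟨hin, ⟨k', ?_, ?_⟩, hcon⟩
    · rw [orb_eq_Oc (boxE_sub hT) hk]; exact hk'
    · omega
  have hp := orb_le_perim hT hkc (mem_Oc.1 hk).2 (lt_of_lt_of_le hD0 hDu)
  refine hN.trans ?_
  exact_mod_cast hp

theorem exB_mono' {n : ℕ} {f g : Finset Edg → ℝ} (h : ∀ T ⊆ boxE n, f T ≤ g T) :
    exB n f ≤ exB n g := by
  unfold exB
  refine div_le_div_of_nonneg_right (sum_le_sum fun T hT => h T (mem_powerset.1 hT)) (by positivity)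

open Classical in
/-- Markov's inequality. -/
theorem markov {n : ℕ} {A : Set (Finset Edg)} {f : Finset Edg → ℝ} {t : ℝ}
    (hf : ∀ T, 0 ≤ f T) (h : ∀ T ⊆ boxE n, T ∈ A → t ≤ f T) : t * prB n A ≤ exB n f := by
  have h1 : t * prB n A = exB n (fun T => if T ∈ A then t else 0) := by
    unfold prB exB
    rw [← mul_div_assoc, sum_ite, sum_const_zero, add_zero, sum_const, nsmul_eq_mul, mul_comm]
  rw [h1]
  refine exB_mono' fun T hT => ?_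
  split_ifs with hA
  · exact h T hT hA
  · exact hf T

/-- `n ^ p q ^ ⌊c n ^ d⌋ → 0`. -/
theorem asy_pow {q : ℝ} (hq0 : 0 ≤ q) (hq1 : q < 1) {d c : ℝ} (hd : 0 < d) (hc : 0 < c) (p : ℝ) :
    Tendsto (fun n : ℕ => (n : ℝ) ^ p * q ^ ⌊c * (n : ℝ) ^ d⌋₊) atTop (𝓝 0) := by
  set r : ℝ := max q (1 / 2) with hr
  have hr0 : 0 < r := lt_max_of_lt_right (by norm_num)
  have hr1 : r < 1 := max_lt hq1 (by norm_num)
  set b : ℝ := -Real.log r with hb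
  have hb0 : 0 < b := by rw [hb]; linarith [Real.log_neg hr0 hr1]
  have h1 : Tendsto (fun x : ℝ => x ^ (p / d) * Real.exp (-(b * c) * x)) atTop (𝓝 0) :=
    tendsto_rpow_mul_exp_neg_mul_atTop_nhds_zero (p / d) (b * c) (by positivity)
  have h2 : Tendsto (fun n : ℕ => (n : ℝ) ^ d) atTop atTop :=
    (tendsto_rpow_atTop hd).comp tendsto_natCast_atTop_atTop
  have h3 := (h1.comp h2).mul_const r⁻¹
  rw [zero_mul] at h3
  refine squeeze_zero' ?_ ?_ h3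
  · exact Eventually.of_forall fun n => by positivity
  · filter_upwards [eventually_ge_atTop 1] with n hn
    have hn0 : (0 : ℝ) < n := by exact_mod_cast hn
    simp only [Function.comp_apply]
    rw [← Real.rpow_mul hn0.le, mul_div_cancel₀ _ hd.ne', mul_assoc]
    refine mul_le_mul_of_nonneg_left ?_ (by positivity)
    have h4 : q ^ ⌊c * (n : ℝ) ^ d⌋₊ ≤ r ^ ⌊c * (n : ℝ) ^ d⌋₊ :=
      pow_le_pow_left₀ hq0 (le_max_left _ _) _
    refine h4.trans ?_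
    have h5 : c * (n : ℝ) ^ d - 1 ≤ (⌊c * (n : ℝ) ^ d⌋₊ : ℝ) := (Nat.sub_one_lt_floor _).le
    have h6 : r ^ ⌊c * (n : ℝ) ^ d⌋₊ = Real.exp (-b * ⌊c * (n : ℝ) ^ d⌋₊) := by
      rw [hb, neg_neg, ← Real.rpow_def_of_pos hr0, Real.rpow_natCast]
    have h7 : r⁻¹ = Real.exp b := by rw [hb, Real.exp_neg, Real.exp_log hr0]
    rw [h6, h7, ← Real.exp_add, Real.exp_le_exp]
    nlinarith

/-- `C n ^ p ≤ n ^ p'` eventually, for `p < p'`. -/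
theorem asy_le (C : ℝ) {p p' : ℝ} (h : p < p') :
    ∀ᶠ n : ℕ in atTop, C * (n : ℝ) ^ p ≤ (n : ℝ) ^ p' := by
  have h1 : Tendsto (fun n : ℕ => (n : ℝ) ^ (p' - p)) atTop atTop :=
    (tendsto_rpow_atTop (sub_pos.2 h)).comp tendsto_natCast_atTop_atTop
  filter_upwards [h1.eventually_ge_atTop C, eventually_ge_atTop 1] with n hn hn1
  have hn0 : (0 : ℝ) < n := by exact_mod_cast hn1
  have h2 : (n : ℝ) ^ p' = (n : ℝ) ^ (p' - p) * (n : ℝ) ^ p := by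
    rw [← Real.rpow_add hn0, sub_add_cancel]
  rw [h2]
  exact mul_le_mul_of_nonneg_right hn (Real.rpow_nonneg hn0.le _)

/-- The sizes. -/
theorem sizes (a s₀ : ℕ) {c ε d : ℝ} (hc : 0 < c) (hd : 0 < d) (hd1 : d ≤ 1 / 16)
    (hdε : 8 * d ≤ ε) : ∀ᶠ n : ℕ in atTop,
      s₀ ≤ ⌊(n : ℝ) ^ (1 - 4 * d)⌋₊ ∧
      a * (⌊1 * (n : ℝ) ^ d⌋₊ + 1) * ⌊(n : ℝ) ^ (1 - 4 * d)⌋₊ ≤ ⌊(n : ℝ) ^ (1 - 2 * d)⌋₊ ∧
      a * (⌊1 * (n : ℝ) ^ d⌋₊ + 1) * ⌊(n : ℝ) ^ (1 - 4 * d)⌋₊ ≤ 2 * ⌊(n : ℝ) ^ (1 - d) / 16⌋₊ ∧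
      8 * ⌊(n : ℝ) ^ (1 - d) / 16⌋₊ ≤ ⌊(n : ℝ) ^ (1 - d)⌋₊ ∧
      1 ≤ ⌊(n : ℝ) ^ (1 - d)⌋₊ ∧
      ⌊(n : ℝ) ^ (1 - 2 * d)⌋₊ ≤ ⌊(n : ℝ) ^ (1 - d) / 16⌋₊ ∧
      1 ≤ ⌊(n : ℝ) ^ (1 - 2 * d)⌋₊ ∧
      2 * ⌊(n : ℝ) ^ (1 - 2 * d)⌋₊ ≤ n ∧
      ⌊1 / 64 * (n : ℝ) ^ d⌋₊ * (⌊(n : ℝ) ^ (1 - 2 * d)⌋₊ + 3) ≤ ⌊(n : ℝ) ^ (1 - d) / 16⌋₊ + 1 ∧
      ⌊1 / 4 * (n : ℝ) ^ d⌋₊ * (⌊(n : ℝ) ^ (1 - d)⌋₊ + 1) ≤ n + 1 ∧
      8 * (n : ℝ) ^ (7 / 4 - ε) < c * (⌊(n : ℝ) ^ (1 - 4 * d)⌋₊ : ℝ) ^ (7 / 4 : ℝ) ∧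
      ⌊(n : ℝ) ^ (1 - d)⌋₊ ≤ n ∧
      (n : ℝ) ^ (1 - d) / 2 ≤ ⌊(n : ℝ) ^ (1 - d)⌋₊ := by
  filter_upwards [eventually_ge_atTop 1, asy_le ((s₀ : ℝ) + 2) (p := 0) (p' := 1 - 4 * d) (by linarith),
    asy_le (2 * a + 16) (p := 1 - 3 * d) (p' := 1 - 2 * d) (by linarith),
    asy_le (16 * a + 16) (p := 1 - 3 * d) (p' := 1 - d) (by linarith),
    asy_le 16 (p := 1 - 2 * d) (p' := 1 - d) (by linarith),
    asy_le 2 (p := 1 - d) (p' := 1) (by linarith),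
    asy_le (32 * (8 / c)) (p := 7 / 4 - ε) (p' := 7 / 4 * (1 - 4 * d)) (by linarith)]
    with n hn h1 h2 h3 h4 h5 h6
  have hn1 : (1 : ℝ) ≤ n := by exact_mod_cast hn
  have hn0 : (0 : ℝ) < n := by linarith
  rw [Real.rpow_zero, mul_one] at h1
  rw [Real.rpow_one] at h5
  have hX1 : 1 ≤ (n : ℝ) ^ d := Real.one_le_rpow hn1 hd.le
  set X := (n : ℝ) ^ d with hX
  set S := (n : ℝ) ^ (1 - 4 * d) with hS
  have hT : (n : ℝ) ^ (1 - 3 * d) = X * S := by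
    rw [hX, hS, ← Real.rpow_add hn0]; congr 1; ring
  set P := (n : ℝ) ^ (1 - 2 * d) with hP
  set Q := (n : ℝ) ^ (1 - d) with hQ
  have hQP : Q = X * P := by
    rw [hX, hP, hQ, ← Real.rpow_add hn0]; congr 1; ring
  have hnQ : (n : ℝ) = X * Q := by
    rw [hX, hQ, ← Real.rpow_add hn0, add_sub_cancel, Real.rpow_one]
  rw [hT] at h2 h3
  have hs0 : (0 : ℝ) ≤ s₀ := Nat.cast_nonneg _
  have hS2 : 2 ≤ S := by linarith
  have hXS : 2 ≤ X * S := by nlinarith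
  have ha0 : (0 : ℝ) ≤ a := Nat.cast_nonneg _
  have haXS : 0 ≤ (a : ℝ) * (X * S) := by positivity
  have hP2 : 2 ≤ P := by nlinarith
  have hQ2 : 2 ≤ Q := by nlinarith
  have fS : (⌊S⌋₊ : ℝ) ≤ S := Nat.floor_le (by linarith)
  have fX : (⌊1 * X⌋₊ : ℝ) ≤ X := by rw [one_mul]; exact Nat.floor_le (by linarith)
  have fP : (⌊P⌋₊ : ℝ) ≤ P := Nat.floor_le (by linarith)
  have fQ : (⌊Q⌋₊ : ℝ) ≤ Q := Nat.floor_le (by linarith)
  have fL : (⌊Q / 16⌋₊ : ℝ) ≤ Q / 16 := Nat.floor_le (by linarith)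
  have gL : Q / 16 < (⌊Q / 16⌋₊ : ℝ) + 1 := Nat.lt_floor_add_one _
  have gQ : Q < (⌊Q⌋₊ : ℝ) + 1 := Nat.lt_floor_add_one _
  have gS : S < (⌊S⌋₊ : ℝ) + 1 := Nat.lt_floor_add_one _
  have hprod : ((a * (⌊1 * X⌋₊ + 1) * ⌊S⌋₊ : ℕ) : ℝ) ≤ 2 * (a * (X * S)) := by
    push_cast
    have e1 : (a : ℝ) * (⌊1 * X⌋₊ + 1) ≤ a * (2 * X) :=
      mul_le_mul_of_nonneg_left (by linarith) ha0
    have e2 : (a : ℝ) * (⌊1 * X⌋₊ + 1) * ⌊S⌋₊ ≤ a * (2 * X) * S :=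
      mul_le_mul e1 fS (Nat.cast_nonneg _) (by positivity)
    linarith
  refine ⟨?_, ?_, ?_, ?_, ?_, ?_, ?_, ?_, ?_, ?_, ?_, ?_, ?_⟩
  · exact Nat.le_floor (by linarith)
  · exact Nat.le_floor (by linarith)
  · have : ((a * (⌊1 * X⌋₊ + 1) * ⌊S⌋₊ : ℕ) : ℝ) ≤ ((2 * ⌊Q / 16⌋₊ : ℕ) : ℝ) := by
      push_cast at hprod ⊢
      linarith
    exact_mod_cast this
  · refine Nat.le_floor ?_
    push_cast
    linarith
  · refine Nat.le_floor ?_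
    push_cast
    linarith
  · exact Nat.le_floor (by linarith)
  · refine Nat.le_floor ?_
    push_cast
    linarith
  · have : ((2 * ⌊P⌋₊ : ℕ) : ℝ) ≤ (n : ℝ) := by
      push_cast
      linarith
    exact_mod_cast this
  · have f1 : (⌊1 / 64 * X⌋₊ : ℝ) ≤ 1 / 64 * X := Nat.floor_le (by linarith)
    have : ((⌊1 / 64 * X⌋₊ * (⌊P⌋₊ + 3) : ℕ) : ℝ) ≤ ((⌊Q / 16⌋₊ + 1 : ℕ) : ℝ) := by
      push_cast
      have e1 : (⌊1 / 64 * X⌋₊ : ℝ) * (⌊P⌋₊ + 3) ≤ 1 / 64 * X * (4 * P) :=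
        mul_le_mul f1 (by linarith) (by positivity) (by positivity)
      have e2 : 1 / 64 * X * (4 * P) = Q / 16 := by rw [hQP]; ring
      linarith
    exact_mod_cast this
  · have f1 : (⌊1 / 4 * X⌋₊ : ℝ) ≤ 1 / 4 * X := Nat.floor_le (by linarith)
    have : ((⌊1 / 4 * X⌋₊ * (⌊Q⌋₊ + 1) : ℕ) : ℝ) ≤ ((n + 1 : ℕ) : ℝ) := by
      push_cast
      have e1 : (⌊1 / 4 * X⌋₊ : ℝ) * (⌊Q⌋₊ + 1) ≤ 1 / 4 * X * (2 * Q) :=
        mul_le_mul f1 (by linarith) (by positivity) (by positivity)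
      have e2 : 1 / 4 * X * (2 * Q) = n / 2 := by
        have : X * Q = n := hnQ.symm
        linear_combination this / 2
      linarith
    exact_mod_cast this
  · have e1 : S / 2 ≤ (⌊S⌋₊ : ℝ) := by linarith
    have e2 : (S / 2) ^ (7 / 4 : ℝ) ≤ (⌊S⌋₊ : ℝ) ^ (7 / 4 : ℝ) :=
      Real.rpow_le_rpow (by linarith) e1 (by norm_num)
    have e3 : (S / 2) ^ (7 / 4 : ℝ) = (n : ℝ) ^ (7 / 4 * (1 - 4 * d)) / 2 ^ (7 / 4 : ℝ) := by
      rw [Real.div_rpow (by linarith) (by norm_num), hS, ← Real.rpow_mul hn0.le]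
      congr 2
      ring
    have e4 : (2 : ℝ) ^ (7 / 4 : ℝ) ≤ 4 := by
      have : (2 : ℝ) ^ (7 / 4 : ℝ) ≤ 2 ^ (2 : ℝ) :=
        Real.rpow_le_rpow_of_exponent_le (by norm_num) (by norm_num)
      refine this.trans (le_of_eq ?_)
      norm_num
    have e5 : 0 < (n : ℝ) ^ (7 / 4 - ε) := Real.rpow_pos_of_pos hn0 _
    have e6 : 0 < (n : ℝ) ^ (7 / 4 * (1 - 4 * d)) := Real.rpow_pos_of_pos hn0 _
    have e7 : (n : ℝ) ^ (7 / 4 * (1 - 4 * d)) / 4 ≤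
        (n : ℝ) ^ (7 / 4 * (1 - 4 * d)) / 2 ^ (7 / 4 : ℝ) :=
      div_le_div_of_nonneg_left e6.le (by positivity) e4
    have e8 : c * ((n : ℝ) ^ (7 / 4 * (1 - 4 * d)) / 4) ≤ c * (⌊S⌋₊ : ℝ) ^ (7 / 4 : ℝ) :=
      mul_le_mul_of_nonneg_left (by linarith) hc.le
    refine lt_of_lt_of_le ?_ e8
    have e9 : c * (32 * (8 / c) * (n : ℝ) ^ (7 / 4 - ε)) ≤ c * (n : ℝ) ^ (7 / 4 * (1 - 4 * d)) :=
      mul_le_mul_of_nonneg_left h6 hc.le
    have e10 : c * (32 * (8 / c) * (n : ℝ) ^ (7 / 4 - ε)) = 256 * (n : ℝ) ^ (7 / 4 - ε) := by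
      field_simp
      ring
    rw [e10] at e9
    linarith
  · have : ((⌊Q⌋₊ : ℕ) : ℝ) ≤ (n : ℝ) := by linarith
    exact_mod_cast this
  · linarith

/-- The weak form of the dimension statement follows from the two tails. -/
theorem targetW (hL : LowerTail) (hU : UpperTail) : TargetW := by
  classical
  intro ε hε sel hsel
  obtain ⟨a, s₀, c, q, hc, hq0, hq1, hlow⟩ := hL
  obtain ⟨C, hup⟩ := hU
  obtain ⟨q', hq'0, hq'1, hlay⟩ := pr_layX_le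
  set d : ℝ := min ε 1 / 16 with hd
  have hd0 : 0 < d := by rw [hd]; positivity
  have hd1 : d ≤ 1 / 16 := by rw [hd]; linarith [min_le_right ε 1]
  have hdε : 8 * d ≤ ε := by rw [hd]; linarith [min_le_left ε 1]
  set G : ℕ → Set (Finset Edg) := fun n => {T | (n : ℝ) ^ (7 / 4 - ε) < (perim T (sel n T) : ℝ) ∧
    (perim T (sel n T) : ℝ) < (n : ℝ) ^ (7 / 4 + ε)} with hG
  -- the bound
  set b : ℕ → ℝ := fun n => 16 * ((n : ℝ) ^ (2 : ℝ) * q ^ ⌊1 * (n : ℝ) ^ d⌋₊) +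
    (n : ℝ) ^ (0 : ℝ) * (1 / 2) ^ ⌊1 / 4 * (n : ℝ) ^ d⌋₊ +
    8 * ((n : ℝ) ^ (1 : ℝ) * q' ^ ⌊1 / 64 * (n : ℝ) ^ d⌋₊) +
    2 * |C| * (n : ℝ) ^ (-(ε - d / 4)) with hb
  have hb0 : Tendsto b atTop (𝓝 0) := by
    have t1 := (asy_pow hq0 hq1 hd0 one_pos 2).const_mul 16
    have t2 := asy_pow (q := 1 / 2) (by norm_num) (by norm_num) hd0 (c := 1 / 4) (by norm_num) 0
    have t3 := (asy_pow hq'0 hq'1 hd0 (c := 1 / 64) (by norm_num) 1).const_mul 8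
    have t4 : Tendsto (fun n : ℕ => (n : ℝ) ^ (-(ε - d / 4))) atTop (𝓝 0) :=
      (tendsto_rpow_neg_atTop (by linarith)).comp tendsto_natCast_atTop_atTop
    have t5 := t4.const_mul (2 * |C|)
    have t6 := ((t1.add t2).add t3).add t5
    simp only [mul_zero, add_zero] at t6
    exact t6
  have key : ∀ᶠ n : ℕ in atTop, prB n (G n)ᶜ ≤ b n := by
    filter_upwards [eventually_ge_atTop 1, sizes a s₀ hc hd0 hd1 hdε] with n hn1 hsz
    obtain ⟨z1, z2, z3, z4, z5, z6, z7, z8, z9, z10, z11, z12, z13⟩ := hsz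
    have hn1' : (1 : ℝ) ≤ n := by exact_mod_cast hn1
    have hn0 : (0 : ℝ) < n := by linarith
    set K := ⌊1 * (n : ℝ) ^ d⌋₊
    set S := ⌊(n : ℝ) ^ (1 - 4 * d)⌋₊
    set w := ⌊(n : ℝ) ^ (1 - 2 * d)⌋₊
    set l := ⌊(n : ℝ) ^ (1 - d) / 16⌋₊
    set D := ⌊(n : ℝ) ^ (1 - d)⌋₊
    set kk := ⌊1 / 64 * (n : ℝ) ^ d⌋₊
    set m := ⌊1 / 4 * (n : ℝ) ^ d⌋₊
    set N : ℝ := c * (S : ℝ) ^ (7 / 4 : ℝ)
    set t : ℝ := (n : ℝ) ^ (7 / 4 + ε) with ht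
    have ht0 : 0 < t := Real.rpow_pos_of_pos hn0 _
    set B1 : Set (Finset Edg) := {T | ∀ v ∈ Box n, Metric.diam (clS T v) < D}
    set B2 : Set (Finset Edg) := {T | (T : Set Ed) ∈ LayX n w (4 * l)}
    set B3 : Set (Finset Edg) := {T | (T : Set Ed) ∈ LayY n w (4 * l)}
    set B4 : Set (Finset Edg) := {T | ∃ k ∈ corB n, T ∈ LowBad n w (a * (K + 1) * S) N k}
    set B5 : Set (Finset Edg) := {T | (D : ℝ) ≤ Metric.diam (clS T (sel n T)) ∧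
      t ≤ (perim T (sel n T) : ℝ)}
    have hsub : ∀ T ⊆ boxE n, T ∈ (G n)ᶜ → T ∈ B4 ∪ B1 ∪ (B2 ∪ B3) ∪ B5 := by
      intro T hT hTG
      by_contra hcon
      have h4 : T ∉ B4 := fun h => hcon (Or.inl (Or.inl (Or.inl h)))
      have h1 : T ∉ B1 := fun h => hcon (Or.inl (Or.inl (Or.inr h)))
      have h2 : T ∉ B2 := fun h => hcon (Or.inl (Or.inr (Or.inl h)))
      have h3 : T ∉ B3 := fun h => hcon (Or.inl (Or.inr (Or.inr h)))
      have h5 : T ∉ B5 := fun h => hcon (Or.inr h)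
      obtain ⟨e1, e2⟩ := perim_ge_of_good hT (hsel n T hT).1 (hsel n T hT).2 z5 z4 z3 h1 h2 h3 h4
      apply hTG
      constructor
      · linarith
      · by_contra h6
        exact h5 ⟨e1, not_lt.1 h6⟩
    have p1 : prB n B1 ≤ (1 / 2) ^ m := prB_diam_lt m z5 z10
    have p2 : prB n B2 ≤ (n + 1) * (2 * q' ^ kk) := by
      refine (prB_le (B := LayX n w (4 * l)) fun T _ h => h).trans
        (hlay kk n w l (by exact_mod_cast z7) (by exact_mod_cast z6) (by exact_mod_cast z8) ?_)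
      exact_mod_cast z9
    have p3 : prB n B3 ≤ (n + 1) * (2 * q' ^ kk) := by
      refine (prB_le (B := LayY n w (4 * l)) fun T _ h => h).trans ((pr_layY_le n w (4 * l)).trans
        (hlay kk n w l (by exact_mod_cast z7) (by exact_mod_cast z6) (by exact_mod_cast z8) ?_))
      exact_mod_cast z9
    have p4 : prB n B4 ≤ (corB n).card * q ^ K := by
      refine prB_biUnion_le n (corB n) _ fun k _ => ?_
      by_cases hk : (((w : ℤ) ≤ (vtx k).1 ∧ (vtx k).1 ≤ n - w) ∧ (w : ℤ) ≤ (vtx k).2 ∧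
          (vtx k).2 ≤ n - w)
      · have z2' : ((a * (K + 1) * S : ℕ) : ℤ) ≤ w := by exact_mod_cast z2
        refine (prB_mono ?_).trans (hlow n K S z1 k (by omega) (by omega) (by omega) (by omega))
        rintro T - ⟨-, h⟩
        exact h
      · refine (prB_mono (B := ∅) ?_).trans ?_
        · rintro T - ⟨h, -⟩
          exact absurd h hk
        · have : prB n ∅ = 0 := by simp [prB]
          rw [this]
          positivity
    have p5 : prB n B5 ≤ 2 * |C| * (n : ℝ) ^ (-(ε - d / 4)) := by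
      have hD1 : (1 : ℝ) ≤ D := by exact_mod_cast z5
      have m1 := hup n hn1 D hD1 (by exact_mod_cast z12) (sel n) (hsel n)
      have m2 := markov (n := n) (A := B5) (t := t)
        (f := fun T => if (D : ℝ) ≤ Metric.diam (clS T (sel n T)) then (perim T (sel n T) : ℝ) else 0)
        (fun T => by split_ifs <;> positivity) (fun T _ hTB => by
          simp only [if_pos hTB.1]; exact hTB.2)
      have m3 : t * prB n B5 ≤ C * (n : ℝ) ^ 2 * (D : ℝ) ^ (-(1 / 4) : ℝ) := by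
        refine m2.trans (le_trans (le_of_eq ?_) m1)
        congr!
      have hQ0 : 0 < (n : ℝ) ^ (1 - d) := Real.rpow_pos_of_pos hn0 _
      have m4 : (D : ℝ) ^ (-(1 / 4) : ℝ) ≤ 2 * (n : ℝ) ^ (-((1 - d) / 4)) := by
        have e1 : (D : ℝ) ^ (-(1 / 4) : ℝ) ≤ ((n : ℝ) ^ (1 - d) / 2) ^ (-(1 / 4) : ℝ) :=
          Real.rpow_le_rpow_of_nonpos (by positivity) z13 (by norm_num)
        have e2 : ((n : ℝ) ^ (1 - d) / 2) ^ (-(1 / 4) : ℝ) =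
            (n : ℝ) ^ (-((1 - d) / 4)) * 2 ^ (1 / 4 : ℝ) := by
          rw [Real.div_rpow hQ0.le (by norm_num), ← Real.rpow_mul hn0.le, Real.rpow_neg (by norm_num)
            (1 / 4 : ℝ), div_inv_eq_mul]
          congr 2
          ring
        have e3 : (2 : ℝ) ^ (1 / 4 : ℝ) ≤ 2 := by
          have : (2 : ℝ) ^ (1 / 4 : ℝ) ≤ 2 ^ (1 : ℝ) :=
            Real.rpow_le_rpow_of_exponent_le (by norm_num) (by norm_num)
          rwa [Real.rpow_one] at this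
        have e4 : 0 < (n : ℝ) ^ (-((1 - d) / 4)) := Real.rpow_pos_of_pos hn0 _
        rw [e2] at e1
        nlinarith
      have m5 : C * (n : ℝ) ^ 2 * (D : ℝ) ^ (-(1 / 4) : ℝ) ≤
          |C| * (n : ℝ) ^ 2 * (2 * (n : ℝ) ^ (-((1 - d) / 4))) := by
        have e1 : 0 ≤ (D : ℝ) ^ (-(1 / 4) : ℝ) := Real.rpow_nonneg (by positivity) _
        exact mul_le_mul (mul_le_mul_of_nonneg_right (le_abs_self C) (by positivity)) m4 e1
          (by positivity)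
      have m6 : |C| * (n : ℝ) ^ 2 * (2 * (n : ℝ) ^ (-((1 - d) / 4))) =
          t * (2 * |C| * (n : ℝ) ^ (-(ε - d / 4))) := by
        have e1 : (n : ℝ) ^ 2 * (n : ℝ) ^ (-((1 - d) / 4)) = t * (n : ℝ) ^ (-(ε - d / 4)) := by
          rw [ht, ← Real.rpow_natCast, ← Real.rpow_add hn0, ← Real.rpow_add hn0]
          congr 1
          push_cast
          ring
        linear_combination 2 * |C| * e1
      exact le_of_mul_le_mul_left (m3.trans (m5.trans m6.le)) ht0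
    have hun : prB n (G n)ᶜ ≤ prB n B4 + prB n B1 + (prB n B2 + prB n B3) + prB n B5 := by
      refine (prB_mono hsub).trans ((prB_union_le _ _ _).trans ?_)
      have u1 := prB_union_le n (B4 ∪ B1) (B2 ∪ B3)
      have u2 := prB_union_le n B4 B1
      have u3 := prB_union_le n B2 B3
      linarith
    have hcard : ((corB n).card : ℝ) ≤ 16 * (n : ℝ) ^ (2 : ℝ) := by
      rw [card_corB]
      push_cast
      rw [show (2 : ℝ) = ((2 : ℕ) : ℝ) by norm_num, Real.rpow_natCast]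
      nlinarith
    have h6 : ((corB n).card : ℝ) * q ^ K ≤ 16 * ((n : ℝ) ^ (2 : ℝ) * q ^ K) := by
      rw [← mul_assoc]
      exact mul_le_mul_of_nonneg_right hcard (by positivity)
    have h7 : ((n : ℝ) + 1) * (2 * q' ^ kk) ≤ 4 * ((n : ℝ) ^ (1 : ℝ) * q' ^ kk) := by
      rw [Real.rpow_one]
      have : 0 ≤ q' ^ kk := by positivity
      nlinarith
    have h8 : (n : ℝ) ^ (0 : ℝ) * (1 / 2) ^ m = (1 / 2) ^ m := by
      rw [Real.rpow_zero, one_mul]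
    rw [hb]
    simp only
    rw [h8]
    linarith
  have hlim : Tendsto (fun n => prB n (G n)ᶜ) atTop (𝓝 0) :=
    squeeze_zero' (Eventually.of_forall fun n => prB_nonneg _ _) key hb0
  have h1 : Tendsto (fun n => 1 - prB n (G n)ᶜ) atTop (𝓝 (1 - 0)) := tendsto_const_nhds.sub hlim
  rw [sub_zero] at h1
  refine h1.congr fun n => ?_
  have := prB_add_compl n (G n)
  linarith

end Pool.Agent.PercW
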