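import Pool.Agent.Lib.MP_6bd702_z.Z043
import Pool.Agent.Lib.MP_6bd702_z.Z044
import Pool.Agent.Lib.MP_6bd702_z.Z042
import Pool.Agent.Lib.MP_6bd702_z.Z017

section Parth60UpFinal

/-!
# The upper tail and the upper half of the expectation, from the two arm upper bound
-/

set_option autoImplicit false

namespace Pool.Agent.PercX60

open Pool.Agent.Perc Pool.Agent.PercW Finset

theorem hC_int (hC : ∃ C : ℝ, 0 < C ∧ ∀ R : ℕ, 1 ≤ R → p2 R ≤ C * (R : ℝ) ^ (-(1 / 4 : ℝ))) :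
    ∃ C : ℝ, ∀ R : ℤ, 1 ≤ R → p2 R ≤ C * (R : ℝ) ^ (-(1 / 4) : ℝ) := by
  obtain ⟨C, -, h⟩ := hC
  refine ⟨C, fun R hR => ?_⟩
  have h1 := h R.toNat (by omega)
  have h2 : ((R.toNat : ℕ) : ℤ) = R := Int.toNat_of_nonneg (by omega)
  have h3 : ((R.toNat : ℕ) : ℝ) = (R : ℝ) := by exact_mod_cast h2
  rw [h2, h3] at h1
  exact h1

/-- The upper tail, from the two arm upper bound. -/
theorem upperTail (hC : ∃ C : ℝ, 0 < C ∧ ∀ R : ℕ, 1 ≤ R →
    p2 R ≤ C * (R : ℝ) ^ (-(1 / 4 : ℝ))) : UpperTail := by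
  obtain ⟨C, h⟩ := hC_int hC
  obtain ⟨C', h'⟩ := up_diam h
  exact ⟨C', fun n hn D hD hDn sel hsel => h' n hn D hD hDn sel fun T hT => (hsel T hT).1⟩

/-- The upper half of `TargetE`, from the two arm upper bound. -/
theorem targetE_upper (hC : ∃ C : ℝ, 0 < C ∧ ∀ R : ℕ, 1 ≤ R →
    p2 R ≤ C * (R : ℝ) ^ (-(1 / 4 : ℝ))) :
    ∃ C' : ℝ, ∀ n : ℕ, 1 ≤ n → ∀ sel : Finset Edg → ℤ × ℤ, IsSel n sel →
      exB n (fun T => (perim T (sel T) : ℝ)) ≤ C' * (n : ℝ) ^ (7 / 4 : ℝ) := by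
  obtain ⟨C, h⟩ := hC_int hC
  exact upper_E h

end Pool.Agent.PercX60

end Parth60UpFinal

section PartpercwLowOut

/-!
# The lower tail in the face grid in the form used in the translation
-/

set_option autoImplicit false

namespace Pool.Agent.PercL

open Finset Pool.Agent.Perc

/-- Every unit edge is at an even vertex. -/
theorem exists_even (e : UE) : ∃ (p : ℤ × ℤ) (d : Fin 4), (p.1 + p.2) % 2 = 0 ∧ ue p d = e ∧
    (ua e).1 ≤ p.1 ∧ p.1 ≤ (ua e).1 + 1 ∧ (ua e).2 ≤ p.2 ∧ p.2 ≤ (ua e).2 + 1 ∧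
    ((p = ua e ∧ nb p d = ub e) ∨ (p = ub e ∧ nb p d = ua e)) := by
  obtain ⟨x, y, b⟩ := e
  by_cases h : (x + y) % 2 = 0
  · cases b
    · exact ⟨(x, y), 0, h, rfl, by simp [ua], by simp [ua], by simp [ua], by simp [ua],
        Or.inl ⟨by simp [ua], by simp [nb, ub]⟩⟩
    · exact ⟨(x, y), 1, h, rfl, by simp [ua], by simp [ua], by simp [ua], by simp [ua],
        Or.inl ⟨by simp [ua], by simp [nb, ub]⟩⟩
  · cases b
    · exact ⟨(x + 1, y), 2, by simp only; omega, by simp [ue], by simp [ua], by simp [ua],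
        by simp [ua], by simp [ua], Or.inr ⟨by simp [ub], by simp [nb, ua]⟩⟩
    · exact ⟨(x, y + 1), 3, by simp only; omega, by simp [ue], by simp [ua], by simp [ua],
        by simp [ua], by simp [ua], Or.inr ⟨by simp [ub], by simp [nb, ua]⟩⟩

/-- Connection to the boundary of a smaller rectangle. -/
theorem toBd_sub {ω : Cfg} {x₀ x₁ y₀ y₁ x₀' x₁' y₀' y₁' : ℤ} {u : ℤ × ℤ}
    (h : ToBd x₀ x₁ y₀ y₁ ω u) (h1 : x₀ ≤ x₀') (h2 : x₁' ≤ x₁) (h3 : y₀ ≤ y₀') (h4 : y₁' ≤ y₁)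
    (hu : InR x₀' x₁' y₀' y₁' u) : ToBd x₀' x₁' y₀' y₁' ω u := by
  obtain ⟨v, hv, hb⟩ := h
  obtain ⟨w, hw, hw'⟩ := hv.toBd (x₀ := x₀') (x₁ := x₁') (y₀ := y₀') (y₁ := y₁')
    (by unfold InR at hu; exact hu) (by unfold OnBd at hb; omega)
  exact ⟨w, hw.mono Set.inter_subset_right, hw'⟩

theorem MM_mono {ω : Cfg} {F F' : Set (ℤ × ℤ)} (h : F ⊆ F') (e : UE) : MM ω F e ⊆ MM ω F' e := by
  intro a ha
  have ha' : Relation.ReflTransGen (fun a a' => ∃ f ∈ F, Mt ω f a a') e a := ha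
  show Relation.ReflTransGen (fun a a' => ∃ f ∈ F', Mt ω f a a') e a
  exact Relation.ReflTransGen.mono (fun _ _ ⟨f, hf, hm⟩ => ⟨f, h hf, hm⟩) _ _ ha'

theorem lowerF (hP : P2Bounds) : PercW.LowerF := by
  obtain ⟨M, c, c₁, hM, hc0, hc1, hc₁, H⟩ := lower_tail_at hP
  have hM0 : (0 : ℝ) < 16 * M := by
    have : (12 : ℝ) ≤ M := by exact_mod_cast hM
    linarith
  set A : ℝ := (16 * (M : ℝ)) ^ (7 / 4 : ℝ) with hA
  have hA0 : 0 < A := by positivity
  set c' : ℝ := min c₁ 1 / A with hc'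
  have hmin : 0 < min c₁ 1 := lt_min hc₁ one_pos
  have hc'0 : 0 < c' := by positivity
  refine ⟨c', 1 - c, hc'0, by linarith, by linarith, fun K s hs e r hr => ?_⟩
  set W : Finset (ℤ × ℤ) := RF ((ua e).1 - r) ((ua e).1 + r) ((ua e).2 - r) ((ua e).2 + r) with hW
  have hs1 : (1 : ℤ) ≤ s := by exact_mod_cast hs
  have hr1 : 1 ≤ r := by rw [hr]; nlinarith [Int.natCast_nonneg K]
  have hM1 : (12 : ℤ) ≤ M := by exact_mod_cast hM
  set ρ : ℤ := ((s : ℤ) - 1) / (8 * M) with hρ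
  have hρ1 : 8 * M * ρ ≤ s - 1 := by
    have := Int.mul_ediv_self_le (x := (s : ℤ) - 1) (k := 8 * M) (by positivity)
    rw [← hρ] at this
    linarith
  have hρ2 : (s : ℤ) - 1 < 8 * M * (ρ + 1) := by
    have := Int.lt_mul_ediv_self_add (x := (s : ℤ) - 1) (k := 8 * M) (by positivity)
    rw [← hρ] at this
    linarith
  have hρ0 : 0 ≤ ρ := Int.ediv_nonneg (by omega) (by positivity)
  have hqK : (0 : ℝ) ≤ (1 - c) ^ K := pow_nonneg (by linarith) K
  rcases hρ0.eq_or_lt with h0 | h0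
  · -- small `s`: the event is empty
    have hs2 : (s : ℝ) ≤ 16 * M := by
      rw [← h0] at hρ2
      have h1 : (s : ℤ) ≤ 16 * M := by linarith
      exact_mod_cast h1
    have hle : c' * (s : ℝ) ^ (7 / 4 : ℝ) ≤ 1 := by
      have h1 : (s : ℝ) ^ (7 / 4 : ℝ) ≤ A := Real.rpow_le_rpow (by positivity) hs2 (by norm_num)
      calc c' * (s : ℝ) ^ (7 / 4 : ℝ) ≤ c' * A := by gcongr
        _ = min c₁ 1 := by rw [hc']; field_simp
        _ ≤ 1 := min_le_right _ _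
    refine le_trans (le_of_eq ?_) hqK
    rw [show {ω : Cfg | ToBd ((ua e).1 - r) ((ua e).1 + r) ((ua e).2 - r) ((ua e).2 + r) ω (ua e) ∧
        ToBd ((ua e).1 - r) ((ua e).1 + r) ((ua e).2 - r) ((ua e).2 + r) ω (ub e) ∧
        ((MM ω W e).ncard : ℝ) < c' * (s : ℝ) ^ (7 / 4 : ℝ)} = ∅ from ?_]
    · simp [pr]
    · rw [Set.eq_empty_iff_forall_notMem]
      rintro ω ⟨-, -, h3⟩
      have hfin : (MM ω W e).Finite := by
        obtain ⟨x, y, b⟩ := e
        cases b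
        · exact MM_finite ω (x, y) 0 r hr1
        · exact MM_finite ω (x, y) 1 r hr1
      have h4 : 0 < (MM ω W e).ncard := (Set.ncard_pos hfin).2 ⟨e, mem_MM_self⟩
      have h5 : (1 : ℝ) ≤ ((MM ω W e).ncard : ℝ) := by exact_mod_cast h4
      linarith
  · -- large `s`
    obtain ⟨p, d, hp, hpe, q1, q2, q3, q4, hends⟩ := exists_even e
    have hB : M * ρ + 8 * (M * ρ) * K ≤ r - 1 := by
      have h1 : (M * ρ + 8 * (M * ρ) * K : ℤ) ≤ (8 * M * ρ) * (K + 1) := by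
        nlinarith [Int.natCast_nonneg K, mul_nonneg (show (0 : ℤ) ≤ M by positivity) h0.le]
      have h2 : (8 * M * ρ) * (K + 1) ≤ ((s : ℤ) - 1) * (K + 1) :=
        mul_le_mul_of_nonneg_right hρ1 (by positivity)
      have h3 : ((s : ℤ) - 1) * (K + 1) = r - (K + 1) := by rw [hr]; ring
      have h4 := Int.natCast_nonneg K
      omega
    set B : ℤ := M * ρ + 8 * (M * ρ) * K with hBdef
    have hB1 : 1 ≤ B := by
      have h1 : 0 ≤ 8 * (M * ρ) * (K : ℤ) := by positivity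
      have h2 : (12 : ℤ) * 1 ≤ M * ρ := mul_le_mul hM1 (by omega) (by norm_num) (by positivity)
      omega
    have hsub : QF p B ⊆ W := by
      intro f hf
      unfold QF at hf
      rw [hW]
      rw [mem_RFi] at hf ⊢
      omega
    have hfin : ∀ ω, (MM ω W e).Finite := by
      intro ω
      obtain ⟨x, y, b⟩ := e
      cases b
      · exact MM_finite ω (x, y) 0 r hr1
      · exact MM_finite ω (x, y) 1 r hr1
    have hmain := H ρ (M * ρ) p d K hp (by omega) le_rfl W hsub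
    have hp2 : p2 (M * ρ) ≤ 1 := pr_le_one _ _
    have hρR : (s : ℝ) ≤ 16 * M * ρ := by
      have h1 : (s : ℤ) ≤ 16 * M * ρ := by nlinarith
      exact_mod_cast h1
    have hle : c' * (s : ℝ) ^ (7 / 4 : ℝ) ≤ c₁ * (ρ : ℝ) ^ (7 / 4 : ℝ) := by
      have hρpos : (0 : ℝ) < ρ := by exact_mod_cast h0
      have h1 : (s : ℝ) ^ (7 / 4 : ℝ) ≤ A * (ρ : ℝ) ^ (7 / 4 : ℝ) := by
        rw [hA, ← Real.mul_rpow hM0.le hρpos.le]
        exact Real.rpow_le_rpow (by positivity) hρR (by norm_num)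
      calc c' * (s : ℝ) ^ (7 / 4 : ℝ) ≤ c' * (A * (ρ : ℝ) ^ (7 / 4 : ℝ)) := by gcongr
        _ = min c₁ 1 * (ρ : ℝ) ^ (7 / 4 : ℝ) := by rw [hc']; field_simp
        _ ≤ c₁ * (ρ : ℝ) ^ (7 / 4 : ℝ) := by gcongr; exact min_le_left _ _
    refine le_trans (pr_mono W ?_) (hmain.trans ?_)
    · rintro ω ⟨h1, h2, h3⟩
      have hc := inR_center (p := p) (R := B) (d := d) hB1
      refine ⟨?_, ?_⟩
      · rcases hends with ⟨e1, e2⟩ | ⟨e1, e2⟩
        · exact ⟨toBd_sub (by rw [e1]; exact h1) (by omega) (by omega) (by omega) (by omega) hc.1,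
            toBd_sub (by rw [e2]; exact h2) (by omega) (by omega) (by omega) (by omega) hc.2⟩
        · exact ⟨toBd_sub (by rw [e1]; exact h2) (by omega) (by omega) (by omega) (by omega) hc.1,
            toBd_sub (by rw [e2]; exact h1) (by omega) (by omega) (by omega) (by omega) hc.2⟩
      · refine lt_of_le_of_lt ?_ (lt_of_lt_of_le h3 hle)
        rw [hpe]
        exact_mod_cast Set.ncard_le_ncard
          (MM_mono (fun f hf => Finset.mem_coe.2 (hsub (Finset.mem_coe.1 hf))) e) (hfin ω)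
    · calc (1 - c) ^ K * p2 (M * ρ) ≤ (1 - c) ^ K * 1 := by gcongr
        _ = (1 - c) ^ K := mul_one _

end Pool.Agent.PercL

end PartpercwLowOut

section PartpercwBridge

/-!
# The weak form from the two-sided bounds of the two-arm probability
-/

set_option autoImplicit false

namespace Pool.Agent.PercW

open Finset
open Pool.Agent.Perc
open Pool.Agent.PercX60 (dB)
open Pool.Agent.PercL (P2Bounds)

theorem lowerTail_of_lowerZ (h : LowerZ) : LowerTail := by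
  obtain ⟨c, q, hc, hq, hq1, H⟩ := h
  refine ⟨3, 1, c, q, hc, hq, hq1, fun n K s hs k h1 h2 h3 h4 => ?_⟩
  have hcast : ((3 * (K + 1) * s : ℕ) : ℤ) = 3 * (((K : ℤ) + 1) * s) := by push_cast; ring
  have h5 := H n K s hs k (by
    rw [hcast] at h1 h2 h3 h4
    simp only [dB, le_min_iff]
    refine ⟨⟨?_, ?_⟩, ?_, ?_⟩ <;> omega)
  rw [hcast]
  exact h5

/-- The weak form from the two-sided bounds of the two-arm probability. -/
theorem targetW_of (hP : P2Bounds) : TargetW := by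
  have hL := lowerTail_of_lowerZ (lowerZ_of_lowerF (PercL.lowerF hP))
  obtain ⟨c, C, -, hC, h⟩ := hP
  exact targetW hL (PercX60.upperTail ⟨C, hC, fun R hR => (h R hR).2⟩)

end Pool.Agent.PercW

end PartpercwBridge
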