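import Pool.Agent.Lib.MP_6bd702_z.Z007
import Pool.Agent.Lib.MP_6bd702_z.Z002

section PartpercDCurveFinal

/-!
# From the traces and the double points to the curves
-/

set_option autoImplicit false

namespace Pool.Agent.PercD

open Set Filter Topology MeasureTheory TopologicalSpace
open Pool.Agent.Perc

/-- Weak convergence of the laws of the rescaled outer perimeters, as closed curves, along `φ`. -/
def LimitCurve (sel : ℕ → Finset Edg → ℤ × ℤ) (φ : ℕ → ℕ) (μ : Measure Curve) : Prop :=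
  ∀ F : BoundedContinuousFunction Curve ℝ,
    Tendsto (fun k => exB (φ k) fun T => F (outerCurve (φ k) T (sel (φ k) T))) atTop
      (𝓝 (∫ c, F c ∂μ))

/-- Almost surely for every subsequential limit law, the trace has dimension `7 / 4` and the curve
is not self-avoiding. -/
def TargetCurve : Prop := ∀ (sel : ℕ → Finset Edg → ℤ × ℤ) (φ : ℕ → ℕ) (μ : Measure Curve)
  [IsProbabilityMeasure μ], (∀ n, IsSel n (sel n)) → StrictMono φ → LimitCurve sel φ μ →
    ∀ᵐ c : Curve ∂μ, dimH (c.trace : Set ℂ) = 7 / 4 ∧ ¬ c.SelfAvoiding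

/-- Macroscopic double points: the outer perimeter passes through some vertex twice, with both arcs
of diameter at least `η n`, with high probability. -/
def TargetDbl : Prop := ∀ ε : ℝ, 0 < ε → ∃ η : ℝ, 0 < η ∧ ∀ sel : ℕ → Finset Edg → ℤ × ℤ,
  (∀ n, IsSel n (sel n)) → ∀ᶠ n : ℕ in atTop,
    prB n {T | outerLoop n T (sel n T) ∉ Loop.Dbl η} ≤ ε

/-! ### Expectations -/

theorem exB_le_of {n : ℕ} {f g : Finset Edg → ℝ} (h : ∀ T ⊆ boxE n, f T ≤ g T) :
    exB n f ≤ exB n g := by
  unfold exB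
  refine div_le_div_of_nonneg_right (Finset.sum_le_sum fun T hT => ?_) (by positivity)
  exact h T (Finset.mem_powerset.1 hT)

theorem exB_congr_of {n : ℕ} {f g : Finset Edg → ℝ} (h : ∀ T ⊆ boxE n, f T = g T) :
    exB n f = exB n g :=
  le_antisymm (exB_le_of fun T hT => (h T hT).le) (exB_le_of fun T hT => (h T hT).ge)

open Classical in
theorem one_sub_prB (n : ℕ) (A : Set (Finset Edg)) :
    exB n (fun T => if T ∈ A then 0 else 1) = 1 - prB n A := by
  unfold exB prB
  have h2 : (2 : ℝ) ^ (boxE n).card ≠ 0 := by positivity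
  have h3 : ∑ T ∈ (boxE n).powerset, (if T ∈ A then (0 : ℝ) else 1)
      = ∑ T ∈ (boxE n).powerset, (1 - if T ∈ A then (1 : ℝ) else 0) := by
    refine Finset.sum_congr rfl fun T _ => ?_
    split_ifs <;> norm_num
  rw [h3, Finset.sum_sub_distrib, Finset.sum_const, Finset.card_powerset, nsmul_eq_mul, mul_one,
    Finset.sum_boole, sub_div]
  push_cast
  rw [div_self h2]

/-! ### Closed sets -/

section Closed

variable {Ω : Type*} [TopologicalSpace Ω] [HasOuterApproxClosed Ω] [MeasurableSpace Ω]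
  [OpensMeasurableSpace Ω]

/-- Portmanteau, for a closed set of almost full probability. -/
theorem measure_compl_le {g : ℕ → Finset Edg → Ω} {φ : ℕ → ℕ} (hφ : StrictMono φ)
    {μ : Measure Ω} [IsProbabilityMeasure μ]
    (hlim : ∀ F : BoundedContinuousFunction Ω ℝ,
      Tendsto (fun k => exB (φ k) fun T => F (g (φ k) T)) atTop (𝓝 (∫ c, F c ∂μ)))
    {D : Set Ω} (hD : IsClosed D) {ε : ℝ}
    (h : ∀ᶠ n : ℕ in atTop, prB n {T | g n T ∉ D} ≤ ε) : μ Dᶜ ≤ ENNReal.ofReal ε := by
  have hmeas : MeasurableSet D := hD.measurableSet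
  -- lower bound for the approximations
  have key : ∀ i, ENNReal.ofReal (1 - ε) ≤ ∫⁻ x, (hD.apprSeq i x : ENNReal) ∂μ := by
    intro i
    set F : BoundedContinuousFunction Ω ℝ := BoundedContinuousFunction.mkOfBound
      ⟨fun x => ((hD.apprSeq i x : NNReal) : ℝ), by fun_prop⟩ 1 (by
        intro x y
        have hx := HasOuterApproxClosed.apprSeq_apply_le_one hD i x
        have hy := HasOuterApproxClosed.apprSeq_apply_le_one hD i y
        have hx' : ((hD.apprSeq i x : NNReal) : ℝ) ≤ 1 := by exact_mod_cast hx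
        have hy' : ((hD.apprSeq i y : NNReal) : ℝ) ≤ 1 := by exact_mod_cast hy
        have hx0 : 0 ≤ ((hD.apprSeq i x : NNReal) : ℝ) := NNReal.coe_nonneg _
        have hy0 : 0 ≤ ((hD.apprSeq i y : NNReal) : ℝ) := NNReal.coe_nonneg _
        simp only [ContinuousMap.coe_mk]
        rw [Real.dist_eq, abs_le]
        constructor <;> linarith) with hF
    have hFx : ∀ x, F x = ((hD.apprSeq i x : NNReal) : ℝ) := fun x => rfl
    have h1 : 1 - ε ≤ ∫ c, F c ∂μ := by
      refine ge_of_tendsto (hlim F) ?_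
      filter_upwards [hφ.tendsto_atTop.eventually h] with k hk
      obtain ⟨A, hA⟩ : ∃ A : Set (Finset Edg), A = {T | g (φ k) T ∉ D} := ⟨_, rfl⟩
      rw [← hA] at hk
      refine le_trans (show 1 - ε ≤ 1 - prB (φ k) A by linarith) ?_
      rw [← one_sub_prB]
      refine exB_le_of fun T _ => ?_
      rw [hFx]
      by_cases hT : g (φ k) T ∈ D
      · rw [if_neg (by rw [hA, mem_ofPred_eq, not_not]; exact hT),
          HasOuterApproxClosed.apprSeq_apply_eq_one hD i hT]
        exact le_rfl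
      · rw [if_pos (by rw [hA, mem_ofPred_eq]; exact hT)]
        exact NNReal.coe_nonneg _
    have h2 : ∫⁻ x, (hD.apprSeq i x : ENNReal) ∂μ = ENNReal.ofReal (∫ c, F c ∂μ) := by
      rw [ofReal_integral_eq_lintegral_ofReal (F.integrable μ)
        (Eventually.of_forall fun x => by rw [hFx]; exact NNReal.coe_nonneg _)]
      refine lintegral_congr fun x => ?_
      rw [hFx, ENNReal.ofReal_coe_nnreal]
    rw [h2]
    exact ENNReal.ofReal_le_ofReal h1
  have h3 : ENNReal.ofReal (1 - ε) ≤ μ D :=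
    ge_of_tendsto' (HasOuterApproxClosed.tendsto_lintegral_apprSeq hD μ) key
  rw [prob_compl_eq_one_sub hmeas]
  refine tsub_le_iff_left.2 ?_
  calc (1 : ENNReal) = ENNReal.ofReal 1 := ENNReal.ofReal_one.symm
    _ ≤ ENNReal.ofReal (1 - ε + ε) := by rw [sub_add_cancel]
    _ ≤ ENNReal.ofReal (1 - ε) + ENNReal.ofReal ε := ENNReal.ofReal_add_le
    _ ≤ _ := add_le_add h3 le_rfl

end Closed

/-! ### The theorem -/

theorem limitLaw_of_limitCurve {sel : ℕ → Finset Edg → ℤ × ℤ} {φ : ℕ → ℕ} {μ : Measure Curve}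
    [IsProbabilityMeasure μ] [MeasurableSpace (NonemptyCompacts ℂ)]
    [BorelSpace (NonemptyCompacts ℂ)] (h : LimitCurve sel φ μ) :
    LimitLaw sel φ (μ.map Curve.trace) := by
  intro F
  have hm : Measurable Curve.trace := Curve.continuous_trace.measurable
  rw [integral_map hm.aemeasurable F.continuous.measurable.aestronglyMeasurable]
  have h1 := h (F.compContinuous ⟨Curve.trace, Curve.continuous_trace⟩)
  refine h1.congr fun k => ?_
  refine exB_congr_of fun T hT => ?_
  rw [BoundedContinuousFunction.compContinuous_apply]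
  congr 1
  exact trace_outerLoop hT

/-- The theorem for curves from the theorem for traces and the double points. -/
theorem targetCurve_of (h1 : TargetTrace) (h2 : TargetDbl) : TargetCurve := by
  intro sel φ μ _ hsel hφ hlim
  have hA : ∀ᵐ c : Curve ∂μ, dimH (c.trace : Set ℂ) = 7 / 4 := by
    let _ : MeasurableSpace (NonemptyCompacts ℂ) := borel _
    have : BorelSpace (NonemptyCompacts ℂ) := ⟨rfl⟩
    have hm : Measurable Curve.trace := Curve.continuous_trace.measurable
    have : IsProbabilityMeasure (μ.map Curve.trace) :=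
      Measure.isProbabilityMeasure_map hm.aemeasurable
    have h3 := h1 sel φ (μ.map Curve.trace) hsel hφ (limitLaw_of_limitCurve hlim)
    exact ae_of_ae_map hm.aemeasurable h3
  have hB : ∀ᵐ c : Curve ∂μ, ¬ c.SelfAvoiding := by
    rw [ae_iff]
    simp only [not_not]
    refine le_antisymm (ENNReal.le_of_forall_pos_le_add fun ε hε _ => ?_) (zero_le)
    rw [zero_add]
    obtain ⟨η, hη, h4⟩ := h2 ε (by exact_mod_cast hε)
    have h5 : μ (Curve.Dbl η)ᶜ ≤ ENNReal.ofReal ε := by
      refine measure_compl_le (g := fun n T => outerCurve n T (sel n T)) hφ hlim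
        (Curve.isClosed_Dbl η) ?_
      filter_upwards [h4 sel hsel] with n hn
      refine le_trans (le_of_eq ?_) hn
      congr 1
      ext T
      rw [mem_ofPred_eq, mem_ofPred_eq, outerCurve, Curve.mk_mem_Dbl]
    rw [ENNReal.ofReal_coe_nnreal] at h5
    exact (measure_mono fun c hc hD => Curve.not_selfAvoiding hη hD hc).trans h5
  filter_upwards [hA, hB] with c hc1 hc2 using ⟨hc1, hc2⟩

end Pool.Agent.PercD

end PartpercDCurveFinal

section PartpercDCurveTop

/-!
# The space of closed curves is complete and separable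
-/

set_option autoImplicit false

namespace Pool.Agent.PercD

open Set Filter Topology MeasureTheory TopologicalSpace

namespace Loop

/-- Change of parameter. -/
def comp (γ : Loop) (r : Rep) : Loop where
  f t := γ.f (r.φ t)
  cont := γ.cont.comp r.continuous
  per t := by rw [r.per, γ.per]

/-- Completeness of the space of closed curves. -/
instance : CompleteSpace Loop := by
  refine Metric.complete_of_convergent_controlled_sequences (fun n => (1 / 2 : ℝ) ^ n)
    (fun n => by positivity) fun u hu => ?_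
  have h1 : ∀ n, ∃ r : Rep, ∀ t, dist ((u n).f t) ((u (n + 1)).f (r.φ t)) < (1 / 2 : ℝ) ^ n :=
    fun n => exists_rep (hu n n (n + 1) le_rfl (Nat.le_succ n))
  choose r hr using h1
  let R : ℕ → Rep := fun n => Nat.rec Rep.refl (fun n q => q.trans (r n)) n
  have hR : ∀ n t, (R (n + 1)).φ t = (r n).φ ((R n).φ t) := fun n t => rfl
  have hg : ∀ t n, dist ((u n).f ((R n).φ t)) ((u (n + 1)).f ((R (n + 1)).φ t)) ≤
      1 * (1 / 2 : ℝ) ^ n := by
    intro t n
    rw [hR, one_mul]
    exact (hr n _).le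
  have hc : ∀ t, ∃ z, Tendsto (fun n => (u n).f ((R n).φ t)) atTop (𝓝 z) := fun t =>
    cauchySeq_tendsto_of_complete (cauchySeq_of_le_geometric (1 / 2) 1 (by norm_num) (hg t))
  choose f hf using hc
  have hd : ∀ n t, dist ((u n).f ((R n).φ t)) (f t) ≤ 2 * (1 / 2 : ℝ) ^ n := by
    intro n t
    have := dist_le_of_le_geometric_of_tendsto (1 / 2) 1 (by norm_num) (hg t) (hf t) n
    calc _ ≤ 1 * (1 / 2 : ℝ) ^ n / (1 - 1 / 2) := this
      _ = _ := by ring
  have hlim : Tendsto (fun n : ℕ => 2 * (1 / 2 : ℝ) ^ n) atTop (𝓝 0) := by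
    have := (tendsto_pow_atTop_nhds_zero_of_lt_one (by norm_num : (0 : ℝ) ≤ 1 / 2)
      (by norm_num)).const_mul (2 : ℝ)
    rwa [mul_zero] at this
  have hunif : TendstoUniformly (fun n t => (u n).f ((R n).φ t)) f atTop := by
    rw [Metric.tendstoUniformly_iff]
    intro ε hε
    filter_upwards [(tendsto_order.1 hlim).2 ε hε] with n hn t
    rw [dist_comm]
    exact (hd n t).trans_lt hn
  have hcont : Continuous f := hunif.continuous (Eventually.of_forall fun n =>
    (u n).cont.comp (R n).continuous).frequently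
  have hper : ∀ t, f (t + 1) = f t := by
    intro t
    refine tendsto_nhds_unique (hf (t + 1)) ?_
    refine (hf t).congr fun n => ?_
    rw [(R n).per, (u n).per]
  refine ⟨⟨f, hcont, hper⟩, ?_⟩
  rw [tendsto_iff_dist_tendsto_zero]
  refine squeeze_zero (fun _ => dist_nonneg) (fun n => ?_) hlim
  rw [dist_comm]
  refine dist_le (R n) fun t => ?_
  rw [dist_comm]
  exact hd n t

/-- The closed curve of a continuous function on the circle. -/
noncomputable def ofCircle (g : C(AddCircle (1 : ℝ), ℂ)) : Loop where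
  f t := g (t : AddCircle (1 : ℝ))
  cont := g.continuous.comp (AddCircle.continuous_mk' 1)
  per t := by
    rw [AddCircle.coe_add, AddCircle.coe_period, add_zero]

theorem continuous_ofCircle : Continuous ofCircle := by
  refine (LipschitzWith.of_dist_le_mul (K := 1) fun g g' => ?_).continuous
  rw [NNReal.coe_one, one_mul]
  refine dist_le Rep.refl fun t => ?_
  exact ContinuousMap.dist_apply_le_dist _

theorem surjective_ofCircle : Function.Surjective ofCircle := by
  intro γ
  have hper : Function.Periodic γ.f 1 := γ.per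
  refine ⟨⟨hper.lift, ?_⟩, ?_⟩
  · exact continuous_coinduced_dom.2 γ.cont
  · cases γ
    rfl

instance : SeparableSpace Loop := surjective_ofCircle.denseRange.separableSpace continuous_ofCircle

end Loop

end Pool.Agent.PercD

end PartpercDCurveTop

section PartpercDCurveCut

/-!
# Cutting closed curves into short arcs: totally bounded classes
-/

set_option autoImplicit false

namespace Pool.Agent.PercD

open Set Filter Topology MeasureTheory TopologicalSpace

/-! ### Linear interpolation -/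

/-- Linear interpolation of a sequence of real numbers. -/
noncomputable def lin (t : ℤ → ℝ) (x : ℝ) : ℝ :=
  t ⌊x⌋ + Int.fract x * (t (⌊x⌋ + 1) - t ⌊x⌋)

theorem lin_int (t : ℤ → ℝ) (k : ℤ) : lin t k = t k := by
  unfold lin
  rw [Int.floor_intCast, Int.fract_intCast, zero_mul, add_zero]

theorem lin_ge {t : ℤ → ℝ} (ht : StrictMono t) (x : ℝ) : t ⌊x⌋ ≤ lin t x := by
  have h1 : t ⌊x⌋ < t (⌊x⌋ + 1) := ht (by omega)
  have h2 := mul_nonneg (Int.fract_nonneg x) (sub_nonneg.2 h1.le)
  unfold lin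
  linarith

theorem lin_lt {t : ℤ → ℝ} (ht : StrictMono t) (x : ℝ) : lin t x < t (⌊x⌋ + 1) := by
  have h1 : t ⌊x⌋ < t (⌊x⌋ + 1) := ht (by omega)
  have h2 := mul_lt_mul_of_pos_right (Int.fract_lt_one x) (sub_pos.2 h1)
  unfold lin
  linarith

theorem lin_strictMono {t : ℤ → ℝ} (ht : StrictMono t) : StrictMono (lin t) := by
  intro x y hxy
  rcases (Int.floor_mono hxy.le).lt_or_eq with h | h
  · calc lin t x < t (⌊x⌋ + 1) := lin_lt ht x
      _ ≤ t ⌊y⌋ := ht.monotone (by omega)
      _ ≤ lin t y := lin_ge ht y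
  · unfold lin
    rw [← h]
    have h1 : t ⌊x⌋ < t (⌊x⌋ + 1) := ht (by omega)
    have h2 : Int.fract x < Int.fract y := by
      unfold Int.fract
      rw [← h]
      linarith
    have h3 := mul_lt_mul_of_pos_right h2 (sub_pos.2 h1)
    linarith

variable {t t' : ℤ → ℝ} {m : ℕ}

theorem per_mul (hper : ∀ i, t (i + m) = t i + 1) (i k : ℤ) : t (i + k * m) = t i + k := by
  have hnat : ∀ (i : ℤ) (k : ℕ), t (i + k * m) = t i + k := by
    intro i k
    induction k with
    | zero => simp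
    | succ k ih =>
      have h1 : i + ((k + 1 : ℕ) : ℤ) * m = (i + k * m) + m := by push_cast; ring
      rw [h1, hper, ih]
      push_cast
      ring
  obtain ⟨n, rfl | rfl⟩ := k.eq_nat_or_neg
  · exact_mod_cast hnat i n
  · have h1 := hnat (i + (-(n : ℤ)) * m) n
    have h2 : i + (-(n : ℤ)) * m + n * m = i := by ring
    rw [h2] at h1
    push_cast
    linarith

theorem lin_add (hper : ∀ i, t (i + m) = t i + 1) (x : ℝ) : lin t (x + m) = lin t x + 1 := by
  unfold lin
  have h1 : x + (m : ℝ) = x + ((m : ℤ) : ℝ) := by push_cast; rfl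
  rw [h1, Int.floor_add_intCast, Int.fract_add_intCast]
  have h2 : ⌊x⌋ + (m : ℤ) + 1 = (⌊x⌋ + 1) + m := by ring
  rw [h2, hper, hper]
  ring

theorem lin_surj (ht : StrictMono t) (hper : ∀ i, t (i + m) = t i + 1) :
    Function.Surjective (lin t) := by
  intro y
  set k : ℤ := ⌊y - t 0⌋ with hk
  have h1 : t (0 + k * m) ≤ y := by
    rw [per_mul hper]
    have := Int.floor_le (y - t 0)
    rw [← hk] at this
    linarith
  have h2 : y < t (0 + (k + 1) * m) := by
    rw [per_mul hper]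
    have := Int.lt_floor_add_one (y - t 0)
    rw [← hk] at this
    push_cast
    linarith
  obtain ⟨i, hi, hmax⟩ := Int.exists_greatest_of_bdd (P := fun i => t i ≤ y)
    ⟨0 + (k + 1) * m, fun z hz => by
      by_contra hcon
      have := ht.monotone (not_le.1 hcon).le
      linarith⟩ ⟨_, h1⟩
  have h3 : y < t (i + 1) := by
    by_contra hcon
    have := hmax (i + 1) (not_lt.1 hcon)
    omega
  have h4 : 0 < t (i + 1) - t i := sub_pos.2 (ht (by omega))
  set s : ℝ := (y - t i) / (t (i + 1) - t i) with hs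
  have hs0 : 0 ≤ s := div_nonneg (by linarith) h4.le
  have hs1 : s < 1 := by
    rw [hs, div_lt_one h4]
    linarith
  have hf : ⌊(i : ℝ) + s⌋ = i := by
    rw [Int.floor_eq_iff]
    constructor <;> linarith
  refine ⟨i + s, ?_⟩
  unfold lin
  rw [← Int.self_sub_floor, hf, add_sub_cancel_left, hs, div_mul_cancel₀ _ h4.ne']
  ring

/-- The change of parameter which maps `t i` to `t' i`. -/
noncomputable def repOf (ht : StrictMono t) (hper : ∀ i, t (i + m) = t i + 1)
    (ht' : StrictMono t') (hper' : ∀ i, t' (i + m) = t' i + 1) : Rep where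
  φ := ((lin_strictMono ht).orderIsoOfSurjective _ (lin_surj ht hper)).symm.trans
    ((lin_strictMono ht').orderIsoOfSurjective _ (lin_surj ht' hper'))
  per x := by
    set A := (lin_strictMono ht).orderIsoOfSurjective _ (lin_surj ht hper) with hA
    set B := (lin_strictMono ht').orderIsoOfSurjective _ (lin_surj ht' hper') with hB
    have hA' : ∀ z, A z = lin t z := fun z => rfl
    have hB' : ∀ z, B z = lin t' z := fun z => rfl
    have h1 : A.symm (x + 1) = A.symm x + m := by
      rw [A.symm_apply_eq, hA', lin_add hper, ← hA', A.apply_symm_apply]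
    rw [OrderIso.trans_apply, OrderIso.trans_apply, h1, hB', lin_add hper', ← hB']

theorem repOf_apply (ht : StrictMono t) (hper : ∀ i, t (i + m) = t i + 1)
    (ht' : StrictMono t') (hper' : ∀ i, t' (i + m) = t' i + 1) (i : ℤ) :
    (repOf ht hper ht' hper').φ (t i) = t' i := by
  have h1 : ((lin_strictMono ht).orderIsoOfSurjective _ (lin_surj ht hper)).symm (t i) = i := by
    rw [OrderIso.symm_apply_eq]
    exact (lin_int t i).symm
  show ((lin_strictMono ht').orderIsoOfSurjective _ (lin_surj ht' hper'))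
    (((lin_strictMono ht).orderIsoOfSurjective _ (lin_surj ht hper)).symm (t i)) = t' i
  rw [h1]
  exact lin_int t' i

theorem exists_cell_idx (ht : StrictMono t) (hper : ∀ i, t (i + m) = t i + 1) (x : ℝ) :
    ∃ i, x ∈ Icc (t i) (t (i + 1)) := by
  obtain ⟨y, rfl⟩ := lin_surj ht hper x
  exact ⟨⌊y⌋, lin_ge ht y, (lin_lt ht y).le⟩

namespace Loop

/-- The closed curves which can be cut into `m` arcs, each in the ball of radius `κ` around its
first point. -/
def Cut (κ : ℝ) (m : ℕ) : Set Loop :=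
  {γ | ∃ t : ℤ → ℝ, StrictMono t ∧ (∀ i, t (i + m) = t i + 1) ∧
    ∀ i, ∀ x ∈ Icc (t i) (t (i + 1)), dist (γ.f (t i)) (γ.f x) ≤ κ}

theorem Cut.mono {κ κ' : ℝ} (h : κ ≤ κ') {m : ℕ} : Cut κ m ⊆ Cut κ' m := by
  rintro γ ⟨t, h1, h2, h3⟩
  exact ⟨t, h1, h2, fun i x hx => (h3 i x hx).trans h⟩

/-- Two curves with near cut points are near. -/
theorem dist_le_of_cuts {γ γ' : Loop} {κ δ : ℝ} (ht : StrictMono t)
    (hper : ∀ i, t (i + m) = t i + 1)
    (hc : ∀ i, ∀ x ∈ Icc (t i) (t (i + 1)), dist (γ.f (t i)) (γ.f x) ≤ κ)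
    (ht' : StrictMono t') (hper' : ∀ i, t' (i + m) = t' i + 1)
    (hc' : ∀ i, ∀ x ∈ Icc (t' i) (t' (i + 1)), dist (γ'.f (t' i)) (γ'.f x) ≤ κ)
    (hd : ∀ i, dist (γ.f (t i)) (γ'.f (t' i)) ≤ δ) : dist γ γ' ≤ κ + δ + κ := by
  refine dist_le (repOf ht hper ht' hper') fun x => ?_
  obtain ⟨i, hi⟩ := exists_cell_idx ht hper x
  have h1 := hc i x hi
  have h2 : (repOf ht hper ht' hper').φ x ∈ Icc (t' i) (t' (i + 1)) := by
    rw [← repOf_apply ht hper ht' hper' i, ← repOf_apply ht hper ht' hper' (i + 1)]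
    exact ⟨(repOf ht hper ht' hper').φ.monotone hi.1, (repOf ht hper ht' hper').φ.monotone hi.2⟩
  have h3 := hc' i _ h2
  have h4 := dist_triangle4 (γ.f x) (γ.f (t i)) (γ'.f (t' i))
    (γ'.f ((repOf ht hper ht' hper').φ x))
  rw [dist_comm (γ.f x) (γ.f (t i))] at h4
  linarith [hd i]

/-- The index of a point in the grid of mesh `κ`. -/
noncomputable def gr (κ : ℝ) (z : ℂ) : ℤ × ℤ := (⌊z.re / κ⌋, ⌊z.im / κ⌋)

theorem dist_le_of_gr {κ : ℝ} (hκ : 0 < κ) {z w : ℂ} (h : gr κ z = gr κ w) :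
    dist z w ≤ 2 * κ := by
  have key : ∀ a b : ℝ, ⌊a / κ⌋ = ⌊b / κ⌋ → |a - b| ≤ κ := by
    intro a b hab
    have h1 := Int.floor_le (a / κ)
    have h2 := Int.lt_floor_add_one (a / κ)
    have h3 := Int.floor_le (b / κ)
    have h4 := Int.lt_floor_add_one (b / κ)
    rw [hab] at h1 h2
    have h5 : |a / κ - b / κ| ≤ 1 := by
      rw [abs_le]
      constructor <;> linarith
    rw [← sub_div, abs_div, abs_of_pos hκ, div_le_one hκ] at h5
    exact h5
  have h1 := key z.re w.re (congrArg Prod.fst h)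
  have h2 := key z.im w.im (congrArg Prod.snd h)
  calc dist z w = ‖z - w‖ := dist_eq_norm _ _
    _ ≤ |(z - w).re| + |(z - w).im| := Complex.norm_le_abs_re_add_abs_im _
    _ ≤ 2 * κ := by
      rw [Complex.sub_re, Complex.sub_im]
      linarith

theorem gr_mem {κ R : ℝ} (hκ : 0 < κ) {z : ℂ} (h : ‖z‖ ≤ R) :
    (gr κ z).1 ∈ Icc ⌊-R / κ⌋ ⌊R / κ⌋ ∧ (gr κ z).2 ∈ Icc ⌊-R / κ⌋ ⌊R / κ⌋ := by
  have h1 := abs_le.1 ((Complex.abs_re_le_norm z).trans h)
  have h2 := abs_le.1 ((Complex.abs_im_le_norm z).trans h)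
  exact ⟨⟨Int.floor_mono (div_le_div_of_nonneg_right h1.1 hκ.le),
    Int.floor_mono (div_le_div_of_nonneg_right h1.2 hκ.le)⟩,
    ⟨Int.floor_mono (div_le_div_of_nonneg_right h2.1 hκ.le),
    Int.floor_mono (div_le_div_of_nonneg_right h2.2 hκ.le)⟩⟩

/-- Classes of bounded curves with uniformly bounded numbers of arcs are totally bounded. -/
theorem totallyBounded_cut (R : ℝ) (M : ℝ → ℕ) :
    TotallyBounded {γ : Loop | (∀ x, ‖γ.f x‖ ≤ R) ∧ ∀ κ, 0 < κ → ∃ m ≤ M κ, γ ∈ Cut κ m} := by
  refine Metric.totallyBounded_of_finite_discretization fun ε hε => ?_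
  set κ : ℝ := ε / 5 with hκd
  have hκ : 0 < κ := by positivity
  have hex : ∀ γ : {γ : Loop | (∀ x, ‖γ.f x‖ ≤ R) ∧ ∀ κ, 0 < κ → ∃ m ≤ M κ, γ ∈ Cut κ m},
      ∃ (m : ℕ) (t : ℤ → ℝ), m ≤ M κ ∧ StrictMono t ∧ (∀ i, t (i + m) = t i + 1) ∧
      ∀ i, ∀ x ∈ Icc (t i) (t (i + 1)), dist (γ.1.f (t i)) (γ.1.f x) ≤ κ := by
    intro γ
    obtain ⟨m, hm, t, h1, h2, h3⟩ := γ.2.2 κ hκ
    exact ⟨m, t, hm, h1, h2, h3⟩
  choose m t hm ht hper hc using hex
  refine ⟨Fin (M κ + 1) × (Fin (M κ) → Icc ⌊-R / κ⌋ ⌊R / κ⌋ × Icc ⌊-R / κ⌋ ⌊R / κ⌋),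
    inferInstance, fun γ => (⟨m γ, Nat.lt_succ_of_le (hm γ)⟩, fun i =>
      (⟨(gr κ (γ.1.f (t γ i))).1, (gr_mem hκ (γ.2.1 _)).1⟩,
        ⟨(gr κ (γ.1.f (t γ i))).2, (gr_mem hκ (γ.2.1 _)).2⟩)), fun γ γ' hF => ?_⟩
  rw [Prod.mk.injEq, Fin.mk.injEq] at hF
  obtain ⟨hmm, hF⟩ := hF
  have hper' : ∀ i, t γ' (i + (m γ : ℕ)) = t γ' i + 1 := by
    rw [hmm]
    exact hper γ'
  have hm0 : 0 < m γ := by
    rcases Nat.eq_zero_or_pos (m γ) with h | h
    · have := hper γ 0
      rw [h] at this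
      simp at this
    · exact h
  have hd : ∀ i, dist (γ.1.f (t γ i)) (γ'.1.f (t γ' i)) ≤ 2 * κ := by
    intro i
    have hi0 : 0 ≤ i % (m γ : ℤ) := Int.emod_nonneg _ (by omega)
    have hi1 : i % (m γ : ℤ) < m γ := Int.emod_lt_of_pos _ (by omega)
    obtain ⟨j, hj⟩ := Int.eq_ofNat_of_zero_le hi0
    have hjlt : j < M κ := by
      have := hm γ
      omega
    have e1 : i = (j : ℤ) + i / (m γ : ℤ) * m γ := by
      rw [← hj]
      have := Int.emod_add_mul_ediv i (m γ : ℤ)
      linarith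
    have h1 := congrFun hF ⟨j, hjlt⟩
    simp only [Prod.mk.injEq, Subtype.mk.injEq] at h1
    have h2 : gr κ (γ.1.f (t γ j)) = gr κ (γ'.1.f (t γ' j)) := Prod.ext h1.1 h1.2
    rw [e1, per_mul (hper γ), per_mul hper', γ.1.per_int, γ'.1.per_int]
    exact dist_le_of_gr hκ h2
  have := dist_le_of_cuts (ht γ) (hper γ) (hc γ) (ht γ') hper' (hc γ') hd
  have h5 : κ + 2 * κ + κ < ε := by
    rw [hκd]
    linarith
  exact this.trans_lt h5

/-- A cut given by finitely many points. -/
theorem mem_cut_of_nat {γ : Loop} {κ : ℝ} {m : ℕ} (hm : 0 < m) (s : ℕ → ℝ)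
    (hs : ∀ i < m, s i < s (i + 1)) (hsm : s m = s 0 + 1)
    (hc : ∀ i < m, ∀ x ∈ Icc (s i) (s (i + 1)), dist (γ.f (s i)) (γ.f x) ≤ κ) : γ ∈ Cut κ m := by
  have hmz : (0 : ℤ) < m := by exact_mod_cast hm
  set t : ℤ → ℝ := fun i => s (i % (m : ℤ)).toNat + ((i / (m : ℤ) : ℤ) : ℝ) with ht
  have key : ∀ i : ℤ, ∃ j : ℕ, j < m ∧ ∃ q : ℤ, t i = s j + q ∧ t (i + 1) = s (j + 1) + q := by
    intro i
    have hi0 : 0 ≤ i % (m : ℤ) := Int.emod_nonneg _ (by omega)
    have hi1 : i % (m : ℤ) < m := Int.emod_lt_of_pos _ (by omega)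
    obtain ⟨j, hj⟩ := Int.eq_ofNat_of_zero_le hi0
    have hjm : j < m := by omega
    refine ⟨j, hjm, i / (m : ℤ), ?_, ?_⟩
    · simp only [ht]
      rw [hj]
      rfl
    · simp only [ht]
      have e1 : i + 1 = ((j : ℤ) + 1) + i / (m : ℤ) * m := by
        have := Int.emod_add_mul_ediv i (m : ℤ)
        rw [hj] at this
        linarith
      rcases Nat.lt_or_ge (j + 1) m with h | h
      · have h1 : (i + 1) % (m : ℤ) = ((j + 1 : ℕ) : ℤ) := by
          rw [e1, Int.add_mul_emod_self_right]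
          push_cast
          exact Int.emod_eq_of_lt (by omega) (by omega)
        have h2 : (i + 1) / (m : ℤ) = i / (m : ℤ) := by
          conv_lhs => rw [e1]
          rw [Int.add_mul_ediv_right _ _ hmz.ne', Int.ediv_eq_zero_of_lt (by omega) (by omega),
            zero_add]
        rw [h1, h2]
        rfl
      · have hjm' : j + 1 = m := by omega
        have e2 : ((j : ℤ) + 1) = m := by exact_mod_cast hjm'
        have h1 : (i + 1) % (m : ℤ) = 0 := by
          rw [e1, Int.add_mul_emod_self_right, e2, Int.emod_self]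
        have h2 : (i + 1) / (m : ℤ) = i / (m : ℤ) + 1 := by
          conv_lhs => rw [e1]
          rw [Int.add_mul_ediv_right _ _ hmz.ne', e2, Int.ediv_self hmz.ne']
          ring
        rw [h1, h2, hjm', hsm]
        push_cast
        ring
  refine ⟨t, strictMono_int_of_lt_succ fun i => ?_, fun i => ?_, fun i x hx => ?_⟩
  · obtain ⟨j, hj, q, h1, h2⟩ := key i
    rw [h1, h2]
    linarith [hs j hj]
  · simp only [ht]
    rw [Int.add_emod_right, Int.add_ediv_of_dvd_right (dvd_refl _), Int.ediv_self hmz.ne']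
    push_cast
    ring
  · obtain ⟨j, hj, q, h1, h2⟩ := key i
    rw [h1, h2] at hx
    rw [h1, γ.per_int]
    have h3 := hc j hj (x - q) ⟨by linarith [hx.1], by linarith [hx.2]⟩
    have h4 := γ.per_int (x - q) q
    rw [sub_add_cancel] at h4
    rwa [h4]

/-- Every closed curve can be cut into finitely many short arcs. -/
theorem exists_cut (γ : Loop) {κ : ℝ} (hκ : 0 < κ) : ∃ m, γ ∈ Cut κ m := by
  have huc : UniformContinuousOn γ.f (Icc 0 1) :=
    isCompact_Icc.uniformContinuousOn_of_continuous γ.cont.continuousOn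
  rw [Metric.uniformContinuousOn_iff_le] at huc
  obtain ⟨δ, hδ, h⟩ := huc κ hκ
  obtain ⟨m, hm⟩ := exists_nat_one_div_lt hδ
  have hm1 : (0 : ℝ) < ((m + 1 : ℕ) : ℝ) := by positivity
  refine ⟨m + 1, mem_cut_of_nat (Nat.succ_pos m) (fun i => i / ((m + 1 : ℕ) : ℝ))
    (fun i _ => ?_) ?_ fun i hi x hx => ?_⟩
  · refine div_lt_div_of_pos_right ?_ hm1
    exact_mod_cast Nat.lt_succ_self i
  · simp only [Nat.cast_zero, zero_div, zero_add]
    exact div_self hm1.ne'
  · have e1 : ((i + 1 : ℕ) : ℝ) / ((m + 1 : ℕ) : ℝ) = i / ((m + 1 : ℕ) : ℝ) + 1 / (m + 1) := by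
      push_cast
      rw [add_div]
    have h0 : (0 : ℝ) ≤ i / ((m + 1 : ℕ) : ℝ) := by positivity
    have h1 : ((i + 1 : ℕ) : ℝ) / ((m + 1 : ℕ) : ℝ) ≤ 1 := by
      rw [div_le_one hm1]
      exact_mod_cast hi
    have hx1 := hx.1
    have hx2 := hx.2
    refine h _ ⟨h0, by linarith⟩ _ ⟨by linarith, by linarith⟩ ?_
    rw [dist_comm, Real.dist_eq, abs_of_nonneg (by linarith)]
    rw [e1] at hx2
    linarith

end Loop

end Pool.Agent.PercD

end PartpercDCurveCut
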