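import Pool.Agent.Lib.MP_6bd702_z.Z003
import Pool.Agent.Lib.MP_6bd702_z.BoxDefs

section Parth60PlaneC

/-!
# Lattice sets in the plane: the unbounded component of the complement

A set `K` of vertices and a set `T` of edges between them give a closed subset of the plane. The
components of its complement are described by the faces of the square lattice, joined across the
edges which are not in `T`.
-/

set_option autoImplicit false

open Set

namespace Pool.Agent.PercC

open Pool.Agent.MP_6bd702.H23 Pool.Agent.MP_6bd702.H60 Pool.Agent.Perc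

/-- An edge as a closed segment of the plane. -/
def seg (e : Ed) : Set ℂ := segment ℝ (toC (ea e)) (toC (eb e))

/-- The closed set of the plane given by the vertices `K` and the edges `T`. -/
def carrier (K : Set (ℤ × ℤ)) (T : Set Ed) : Set ℂ := toC '' K ∪ ⋃ e ∈ T, seg e

/-- The (half-open) face of a point. -/
noncomputable def fl (x : ℂ) : ℤ × ℤ := (⌊x.re⌋, ⌊x.im⌋)

@[simp] theorem toC_re (v : ℤ × ℤ) : (toC v).re = v.1 := by simp [toC]
@[simp] theorem toC_im (v : ℤ × ℤ) : (toC v).im = v.2 := by simp [toC]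

/-- The points of a horizontal edge. -/
theorem mem_seg_false {a b : ℤ} {x : ℂ} :
    x ∈ seg (a, b, false) ↔ x.im = b ∧ (a : ℝ) ≤ x.re ∧ x.re ≤ a + 1 := by
  unfold seg
  rw [segment_eq_image']
  simp only [ea_mk, eb_false, mem_image, mem_Icc]
  constructor
  · rintro ⟨t, ⟨h1, h2⟩, rfl⟩
    simp
    constructor <;> linarith
  · rintro ⟨h1, h2, h3⟩
    refine ⟨x.re - a, ⟨by linarith, by linarith⟩, Complex.ext ?_ ?_⟩
    · simp
    · simp [h1]

/-- The points of a vertical edge. -/
theorem mem_seg_true {a b : ℤ} {x : ℂ} :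
    x ∈ seg (a, b, true) ↔ x.re = a ∧ (b : ℝ) ≤ x.im ∧ x.im ≤ b + 1 := by
  unfold seg
  rw [segment_eq_image']
  simp only [ea_mk, eb_true, mem_image, mem_Icc]
  constructor
  · rintro ⟨t, ⟨h1, h2⟩, rfl⟩
    simp
    constructor <;> linarith
  · rintro ⟨h1, h2, h3⟩
    refine ⟨x.im - b, ⟨by linarith, by linarith⟩, Complex.ext ?_ ?_⟩
    · simp [h1]
    · simp

theorem seg_sub_carrier {K : Set (ℤ × ℤ)} {T : Set Ed} {e : Ed} (he : e ∈ T) :
    seg e ⊆ carrier K T := fun _ hx => Or.inr (mem_iUnion₂.2 ⟨e, he, hx⟩)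

theorem fstep_of_not {K : Set (ℤ × ℤ)} {T : Set Ed} {p : ℂ} (hp : p ∉ carrier K T) {e : Ed}
    (he : p ∈ seg e) : FStep T (f2 e) (f1 e) :=
  ⟨e, fun h => hp (seg_sub_carrier h he), Or.inr ⟨rfl, rfl⟩⟩

/-- Off the set the (class of the) face is locally constant. -/
theorem eventually_fconn {K : Set (ℤ × ℤ)} {T : Set Ed} {p : ℂ} (hp : p ∉ carrier K T) :
    ∀ᶠ y in nhds p, FConn T (fl p) (fl y) := by
  have hc0 : Continuous fun y : ℂ => y.re := by fun_prop
  have hc1 : Continuous fun y : ℂ => y.im := by fun_prop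
  set i := ⌊p.re⌋ with hi
  set j := ⌊p.im⌋ with hj
  have hi1 : (i : ℝ) ≤ p.re := Int.floor_le _
  have hi2 : p.re < i + 1 := Int.lt_floor_add_one _
  have hj1 : (j : ℝ) ≤ p.im := Int.floor_le _
  have hj2 : p.im < j + 1 := Int.lt_floor_add_one _
  have e1 : ∀ᶠ y : ℂ in nhds p, y.re < i + 1 := hc0.continuousAt.eventually_lt_const hi2
  have e2 : ∀ᶠ y : ℂ in nhds p, y.im < j + 1 := hc1.continuousAt.eventually_lt_const hj2
  have e3 : ∀ᶠ y : ℂ in nhds p, (i : ℝ) - 1 < y.re :=
    hc0.continuousAt.eventually_const_lt (by linarith)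
  have e4 : ∀ᶠ y : ℂ in nhds p, (j : ℝ) - 1 < y.im :=
    hc1.continuousAt.eventually_const_lt (by linarith)
  have e5 : ∀ᶠ y : ℂ in nhds p, (i : ℝ) < p.re → (i : ℝ) < y.re := by
    by_cases h : (i : ℝ) < p.re
    · filter_upwards [hc0.continuousAt.eventually_const_lt h] with y hy _ using hy
    · exact Filter.Eventually.of_forall fun y h' => absurd h' h
  have e6 : ∀ᶠ y : ℂ in nhds p, (j : ℝ) < p.im → (j : ℝ) < y.im := by
    by_cases h : (j : ℝ) < p.im
    · filter_upwards [hc1.continuousAt.eventually_const_lt h] with y hy _ using hy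
    · exact Filter.Eventually.of_forall fun y h' => absurd h' h
  filter_upwards [e1, e2, e3, e4, e5, e6] with y h1 h2 h3 h4 h5 h6
  have hA : (⌊y.re⌋ = i) ∨ (⌊y.re⌋ = i - 1 ∧ p.re = i) := by
    by_cases h : (i : ℝ) ≤ y.re
    · exact Or.inl (Int.floor_eq_iff.2 ⟨h, h1⟩)
    · refine Or.inr ⟨Int.floor_eq_iff.2 ⟨by push_cast; linarith, by push_cast; linarith⟩, ?_⟩
      by_contra hne
      exact h (h5 (lt_of_le_of_ne hi1 (Ne.symm hne))).le
  have hB : (⌊y.im⌋ = j) ∨ (⌊y.im⌋ = j - 1 ∧ p.im = j) := by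
    by_cases h : (j : ℝ) ≤ y.im
    · exact Or.inl (Int.floor_eq_iff.2 ⟨h, h2⟩)
    · refine Or.inr ⟨Int.floor_eq_iff.2 ⟨by push_cast; linarith, by push_cast; linarith⟩, ?_⟩
      by_contra hne
      exact h (h6 (lt_of_le_of_ne hj1 (Ne.symm hne))).le
  have hfp : fl p = (i, j) := rfl
  have hfy : fl y = (⌊y.re⌋, ⌊y.im⌋) := rfl
  rw [hfp, hfy]
  rcases hA with hA | ⟨hA, hA'⟩ <;> rcases hB with hB | ⟨hB, hB'⟩ <;> rw [hA, hB]
  · exact .refl
  · have h7 := fstep_of_not hp (e := (i, j, false)) (mem_seg_false.2 ⟨hB', hi1, hi2.le⟩)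
    exact .single h7
  · have h7 := fstep_of_not hp (e := (i, j, true)) (mem_seg_true.2 ⟨hA', hj1, hj2.le⟩)
    exact .single h7
  · have h7 := fstep_of_not hp (e := (i, j, true)) (mem_seg_true.2 ⟨hA', hj1, hj2.le⟩)
    have h8 := fstep_of_not hp (e := (i - 1, j, false)) (mem_seg_false.2
      ⟨hB', by push_cast; linarith, by push_cast; linarith⟩)
    exact .head h7 (.single h8)

/-- The component of a point of the complement. -/
theorem fconn_of_mem {K : Set (ℤ × ℤ)} {T : Set Ed} {x y : ℂ} (hx : x ∉ carrier K T)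
    (hy : y ∈ connectedComponentIn (carrier K T)ᶜ x) : FConn T (fl x) (fl y) := by
  have hs := isPreconnected_connectedComponentIn (x := x) (F := (carrier K T)ᶜ)
  have hsub := hs.subset_left_of_subset_union
    (u := {y | ∀ᶠ z in nhds y, FConn T (fl x) (fl z)})
    (v := {y | ∀ᶠ z in nhds y, ¬ FConn T (fl x) (fl z)})
    isOpen_setOfPred_eventually_nhds isOpen_setOfPred_eventually_nhds
    (by
      rw [Set.disjoint_left]
      intro y h1 h2
      have h1' : ∀ᶠ z in nhds y, FConn T (fl x) (fl z) := h1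
      have h2' : ∀ᶠ z in nhds y, ¬ FConn T (fl x) (fl z) := h2
      exact h2'.self_of_nhds h1'.self_of_nhds)
    (by
      intro y hy
      have hyS : y ∉ carrier K T := connectedComponentIn_subset _ _ hy
      by_cases h : FConn T (fl x) (fl y)
      · left
        filter_upwards [eventually_fconn hyS] with z hz using h.trans hz
      · right
        filter_upwards [eventually_fconn hyS] with z hz using fun h' => h (h'.trans hz.symm))
    ⟨x, mem_connectedComponentIn hx, by
      filter_upwards [eventually_fconn hx] with z hz using hz⟩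
  have h3 : ∀ᶠ z in nhds y, FConn T (fl x) (fl z) := hsub hy
  exact h3.self_of_nhds

@[simp] theorem cen_zero (f : ℤ × ℤ) : (ctr f).re = f.1 + 1 / 2 := by simp [ctr]
@[simp] theorem cen_one (f : ℤ × ℤ) : (ctr f).im = f.2 + 1 / 2 := by simp [ctr]

@[simp] theorem fl_ctr (f : ℤ × ℤ) : fl (ctr f) = f := by
  obtain ⟨a, b⟩ := f
  simp only [fl, cen_zero, cen_one, Prod.mk.injEq]
  constructor <;> rw [Int.floor_eq_iff] <;> constructor <;> linarith

/-- The open face. -/
def OF (f : ℤ × ℤ) : Set ℂ :=
  {x | (f.1 : ℝ) < x.re ∧ x.re < f.1 + 1 ∧ (f.2 : ℝ) < x.im ∧ x.im < f.2 + 1}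

theorem cen_mem (f : ℤ × ℤ) : ctr f ∈ OF f := by
  simp only [OF, mem_ofPred_eq, cen_zero, cen_one]
  refine ⟨?_, ?_, ?_, ?_⟩ <;> linarith

theorem fl_of_mem {f : ℤ × ℤ} {x : ℂ} (h : x ∈ OF f) : fl x = f := by
  obtain ⟨a, b⟩ := f
  obtain ⟨h1, h2, h3, h4⟩ := h
  simp only [fl, Prod.mk.injEq]
  exact ⟨Int.floor_eq_iff.2 ⟨h1.le, h2⟩, Int.floor_eq_iff.2 ⟨h3.le, h4⟩⟩

theorem convex_OF (f : ℤ × ℤ) : Convex ℝ (OF f) := by
  intro x hx y hy a b ha hb hab
  obtain ⟨h1, h2, h3, h4⟩ := hx
  obtain ⟨k1, k2, k3, k4⟩ := hy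
  simp only [OF, mem_ofPred_eq, Complex.add_re, Complex.add_im, Complex.smul_re, Complex.smul_im,
    smul_eq_mul]
  rcases ha.eq_or_lt with rfl | ha'
  · have hb1 : b = 1 := by linarith
    subst hb1
    simp only [zero_mul, one_mul, zero_add]
    exact ⟨k1, k2, k3, k4⟩
  · have hb1 : b = 1 - a := by linarith
    subst hb1
    refine ⟨?_, ?_, ?_, ?_⟩ <;> nlinarith

/-- A point with no integer coordinate is off the set. -/
theorem OF_off {K : Set (ℤ × ℤ)} {T : Set Ed} (f : ℤ × ℤ) : OF f ⊆ (carrier K T)ᶜ := by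
  rintro x ⟨h1, h2, h3, h4⟩ hx
  have hno : ∀ a b : ℤ, (b : ℝ) < a → (a : ℝ) < b + 1 → False := by
    intro a b h5 h6
    have h7 : b < a := by exact_mod_cast h5
    have h8 : a < b + 1 := by exact_mod_cast h6
    omega
  rcases hx with ⟨v, -, rfl⟩ | hx
  · rw [toC_re] at h1 h2
    exact hno v.1 f.1 h1 h2
  · obtain ⟨e, -, hx⟩ := mem_iUnion₂.1 hx
    obtain ⟨a, b, t⟩ := e
    cases t with
    | false =>
      obtain ⟨h5, -, -⟩ := mem_seg_false.1 hx
      rw [h5] at h3 h4
      exact hno b f.2 h3 h4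
    | true =>
      obtain ⟨h5, -, -⟩ := mem_seg_true.1 hx
      rw [h5] at h1 h2
      exact hno a f.1 h1 h2

/-- All points of an open face are in the component of its centre. -/
theorem mem_comp_cen {K : Set (ℤ × ℤ)} {T : Set Ed} {f : ℤ × ℤ} {x : ℂ} (hx : x ∈ OF f) :
    ctr f ∈ connectedComponentIn (carrier K T)ᶜ x :=
  (convex_OF f).isPreconnected.subset_connectedComponentIn hx (OF_off f) (cen_mem f)

theorem cen_step_off {K : Set (ℤ × ℤ)} {T : Set Ed} {e : Ed} (he : e ∉ T) :
    segment ℝ (ctr (f1 e)) (ctr (f2 e)) ⊆ (carrier K T)ᶜ := by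
  rw [segment_eq_image']
  rintro x ⟨t, ⟨ht1, ht2⟩, rfl⟩ hx
  have hno : ∀ a b : ℤ, (b : ℝ) < a → (a : ℝ) < b + 1 → False := by
    intro a b h5 h6
    have h7 : b < a := by exact_mod_cast h5
    have h8 : a < b + 1 := by exact_mod_cast h6
    omega
  have heq : ∀ a b : ℤ, (b : ℝ) - 1 < a → (a : ℝ) < b + 1 → a = b := by
    intro a b h5 h6
    have h7 : b - 1 < a := by exact_mod_cast h5
    have h8 : a < b + 1 := by exact_mod_cast h6
    omega
  obtain ⟨a, b, s⟩ := e
  cases s with
  | false =>
    have hf1 : f1 (a, b, false) = (a, b - 1) := rfl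
    have hf2 : f2 (a, b, false) = (a, b) := rfl
    rw [hf1, hf2] at hx
    rcases hx with ⟨v, -, hv⟩ | hx
    · have h1 := congrArg (fun z : ℂ => z.re) hv
      simp at h1
      exact hno v.1 a (by linarith) (by linarith)
    · obtain ⟨e', he', hx⟩ := mem_iUnion₂.1 hx
      obtain ⟨a', b', s'⟩ := e'
      cases s' with
      | false =>
        obtain ⟨h5, h6, h7⟩ := mem_seg_false.1 hx
        simp at h5 h6 h7
        have hb : b' = b := heq b' b (by linarith) (by linarith)
        have ha : a' = a := by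
          refine heq a' a (by linarith) (by linarith)
        subst hb ha
        exact he he'
      | true =>
        obtain ⟨h5, h6, h7⟩ := mem_seg_true.1 hx
        simp at h5
        exact hno a' a (by linarith) (by linarith)
  | true =>
    have hf1 : f1 (a, b, true) = (a - 1, b) := rfl
    have hf2 : f2 (a, b, true) = (a, b) := rfl
    rw [hf1, hf2] at hx
    rcases hx with ⟨v, -, hv⟩ | hx
    · have h1 := congrArg (fun z : ℂ => z.im) hv
      simp at h1
      exact hno v.2 b (by linarith) (by linarith)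
    · obtain ⟨e', he', hx⟩ := mem_iUnion₂.1 hx
      obtain ⟨a', b', s'⟩ := e'
      cases s' with
      | true =>
        obtain ⟨h5, h6, h7⟩ := mem_seg_true.1 hx
        simp at h5 h6 h7
        have hb : a' = a := heq a' a (by linarith) (by linarith)
        have ha : b' = b := by
          refine heq b' b (by linarith) (by linarith)
        subst hb ha
        exact he he'
      | false =>
        obtain ⟨h5, h6, h7⟩ := mem_seg_false.1 hx
        simp at h5
        exact hno b' b (by linarith) (by linarith)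

theorem cen_mem_of_fstep {K : Set (ℤ × ℤ)} {T : Set Ed} {f g : ℤ × ℤ} (h : FStep T f g) :
    ctr g ∈ connectedComponentIn (carrier K T)ᶜ (ctr f) := by
  obtain ⟨e, he, ⟨rfl, rfl⟩ | ⟨rfl, rfl⟩⟩ := h
  · exact (convex_segment _ _).isPreconnected.subset_connectedComponentIn
      (left_mem_segment _ _ _) (cen_step_off he) (right_mem_segment _ _ _)
  · exact (convex_segment _ _).isPreconnected.subset_connectedComponentIn
      (right_mem_segment _ _ _) (cen_step_off he) (left_mem_segment _ _ _)

theorem cen_mem_of_fconn {K : Set (ℤ × ℤ)} {T : Set Ed} {f g : ℤ × ℤ} (h : FConn T f g) :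
    ctr g ∈ connectedComponentIn (carrier K T)ᶜ (ctr f) := by
  unfold FConn at h
  induction h with
  | refl => exact mem_connectedComponentIn (OF_off f (cen_mem f))
  | tail _ h2 ih =>
    rw [connectedComponentIn_eq ih]
    exact cen_mem_of_fstep h2

theorem dist_cen_fl (x : ℂ) : dist x (ctr (fl x)) ≤ 1 := by
  rw [Complex.dist_eq]
  refine (Complex.norm_le_abs_re_add_abs_im _).trans ?_
  simp only [Complex.sub_re, Complex.sub_im, cen_zero, cen_one, fl]
  have h1 : (⌊x.re⌋ : ℝ) ≤ x.re := Int.floor_le _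
  have h2 : x.re < ⌊x.re⌋ + 1 := Int.lt_floor_add_one _
  have h3 : (⌊x.im⌋ : ℝ) ≤ x.im := Int.floor_le _
  have h4 : x.im < ⌊x.im⌋ + 1 := Int.lt_floor_add_one _
  have h5 : |x.re - (⌊x.re⌋ + 1 / 2)| ≤ 1 / 2 := abs_le.2 ⟨by linarith, by linarith⟩
  have h6 : |x.im - (⌊x.im⌋ + 1 / 2)| ≤ 1 / 2 := abs_le.2 ⟨by linarith, by linarith⟩
  linarith

/-- A face is joined to infinitely many faces iff its component is unbounded. -/
theorem mem_Out_iff {K : Set (ℤ × ℤ)} {T : Set Ed} {f : ℤ × ℤ} :
    f ∈ Out T ↔ ¬ Bornology.IsBounded (connectedComponentIn (carrier K T)ᶜ (ctr f)) := by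
  constructor
  · intro hf hb
    apply hf
    obtain ⟨R, hR⟩ := hb.exists_norm_le
    obtain ⟨N, hN⟩ := exists_nat_ge R
    refine (Set.Finite.prod (Set.finite_Icc (-(N : ℤ) - 1) (N + 1))
      (Set.finite_Icc (-(N : ℤ) - 1) (N + 1))).subset ?_
    intro g hg
    have h1 := hR _ (cen_mem_of_fconn hg)
    have h2 := (Complex.abs_re_le_norm (ctr g)).trans (h1.trans hN)
    have h3 := (Complex.abs_im_le_norm (ctr g)).trans (h1.trans hN)
    rw [cen_zero, abs_le] at h2
    rw [cen_one, abs_le] at h3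
    have h4 : (-(N : ℤ) - 1 : ℝ) ≤ g.1 := by push_cast; linarith
    have h5 : (g.1 : ℝ) ≤ (N : ℤ) + 1 := by push_cast; linarith
    have h6 : (-(N : ℤ) - 1 : ℝ) ≤ g.2 := by push_cast; linarith
    have h7 : (g.2 : ℝ) ≤ (N : ℤ) + 1 := by push_cast; linarith
    exact ⟨⟨by exact_mod_cast h4, by exact_mod_cast h5⟩, ⟨by exact_mod_cast h6,
      by exact_mod_cast h7⟩⟩
  · intro hb hfin
    apply hb
    have hfin' : {g | FConn T f g}.Finite := hfin
    have h1 : Bornology.IsBounded (⋃ g ∈ {g | FConn T f g}, Metric.closedBall (ctr g) 1) :=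
      (Bornology.isBounded_biUnion hfin').2 fun g _ => Metric.isBounded_closedBall
    refine h1.subset fun y hy => ?_
    have h2 := fconn_of_mem (OF_off f (cen_mem f)) hy
    rw [fl_ctr] at h2
    exact mem_iUnion₂.2 ⟨fl y, h2, dist_cen_fl y⟩

end Pool.Agent.PercC

end Parth60PlaneC

section PartprBasic

/-!
Uniform probability on the subsets of a finite set: expectation, probability,
invariance under bijections, Harris' inequality, marginals, and the resampling involution.
-/

open Finset

namespace Pool.Agent.MP_6bd702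

variable {α β : Type*} [Fintype α] [DecidableEq α] [Fintype β] [DecidableEq β]

/-- Expectation of `f` when every element of `α` belongs to the random set independently with
probability `1/2`. -/
noncomputable def Ex (f : Finset α → ℝ) : ℝ := (∑ ω : Finset α, f ω) / 2 ^ Fintype.card α

/-- Probability of `A` under the same law. -/
noncomputable def Pr (A : Set (Finset α)) : ℝ := Ex (A.indicator fun _ => (1 : ℝ))

theorem two_pow_pos' : (0 : ℝ) < 2 ^ Fintype.card α := by positivity

theorem Ex_mono {f g : Finset α → ℝ} (h : ∀ ω, f ω ≤ g ω) : Ex f ≤ Ex g := by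
  unfold Ex
  exact div_le_div_of_nonneg_right (Finset.sum_le_sum fun ω _ => h ω) two_pow_pos'.le

theorem Ex_nonneg {f : Finset α → ℝ} (h : ∀ ω, 0 ≤ f ω) : 0 ≤ Ex f := by
  unfold Ex
  exact div_nonneg (Finset.sum_nonneg fun ω _ => h ω) two_pow_pos'.le

theorem Ex_add (f g : Finset α → ℝ) : Ex (fun ω => f ω + g ω) = Ex f + Ex g := by
  unfold Ex; rw [Finset.sum_add_distrib, add_div]

theorem Ex_sub (f g : Finset α → ℝ) : Ex (fun ω => f ω - g ω) = Ex f - Ex g := by
  unfold Ex; rw [Finset.sum_sub_distrib, sub_div]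

theorem Ex_mul_left (c : ℝ) (f : Finset α → ℝ) : Ex (fun ω => c * f ω) = c * Ex f := by
  unfold Ex; rw [← Finset.mul_sum, mul_div_assoc]

theorem Ex_sum {ι : Type*} (s : Finset ι) (f : ι → Finset α → ℝ) :
    Ex (fun ω => ∑ i ∈ s, f i ω) = ∑ i ∈ s, Ex (f i) := by
  unfold Ex; rw [Finset.sum_comm, Finset.sum_div]

theorem Ex_const (c : ℝ) : Ex (fun _ : Finset α => c) = c := by
  unfold Ex
  rw [Finset.sum_const, Finset.card_univ, Fintype.card_finset, nsmul_eq_mul]
  push_cast
  field_simp

theorem Ex_congr {f g : Finset α → ℝ} (h : ∀ ω, f ω = g ω) : Ex f = Ex g := by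
  rw [show f = g from funext h]

theorem Ex_equiv (e : Finset α ≃ Finset α) (f : Finset α → ℝ) : Ex (fun ω => f (e ω)) = Ex f := by
  unfold Ex; rw [Equiv.sum_comp e f]

theorem abs_Ex_le (f : Finset α → ℝ) : |Ex f| ≤ Ex fun ω => |f ω| := by
  unfold Ex
  rw [abs_div, abs_of_pos (two_pow_pos' (α := α))]
  exact div_le_div_of_nonneg_right (Finset.abs_sum_le_sum_abs _ _) two_pow_pos'.le

/-- Cauchy-Schwarz. -/
theorem Ex_mul_le_sqrt (f g : Finset α → ℝ) :
    Ex (fun ω => f ω * g ω) ≤ Real.sqrt (Ex fun ω => f ω ^ 2) * Real.sqrt (Ex fun ω => g ω ^ 2) := by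
  unfold Ex
  have h := Finset.sum_mul_sq_le_sq_mul_sq (univ : Finset (Finset α)) f g
  rw [Real.sqrt_div' _ two_pow_pos'.le, Real.sqrt_div' _ two_pow_pos'.le, div_mul_div_comm,
    Real.mul_self_sqrt two_pow_pos'.le]
  refine div_le_div_of_nonneg_right ?_ two_pow_pos'.le
  rw [← Real.sqrt_mul (Finset.sum_nonneg fun i _ => sq_nonneg _)]
  exact (le_abs_self _).trans (Real.abs_le_sqrt h)

theorem Pr_nonneg (A : Set (Finset α)) : 0 ≤ Pr A :=
  Ex_nonneg fun ω => Set.indicator_nonneg (fun _ _ => zero_le_one) ω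

theorem Pr_mono {A B : Set (Finset α)} (h : A ⊆ B) : Pr A ≤ Pr B :=
  Ex_mono fun ω => Set.indicator_le_indicator_of_subset h (fun _ => zero_le_one) ω

theorem Pr_univ : Pr (Set.univ : Set (Finset α)) = 1 := by
  unfold Pr; rw [Set.indicator_univ]; exact Ex_const 1

theorem Pr_le_one (A : Set (Finset α)) : Pr A ≤ 1 := by
  rw [← Pr_univ (α := α)]; exact Pr_mono (Set.subset_univ _)

theorem Pr_union_le (A B : Set (Finset α)) : Pr (A ∪ B) ≤ Pr A + Pr B := by
  unfold Pr
  rw [← Ex_add]
  refine Ex_mono fun ω => ?_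
  by_cases h1 : ω ∈ A <;> by_cases h2 : ω ∈ B <;> simp [Set.indicator, h1, h2]

theorem Pr_compl (A : Set (Finset α)) : Pr Aᶜ = 1 - Pr A := by
  rw [← Pr_univ (α := α)]
  unfold Pr
  rw [← Ex_sub]
  refine Ex_congr fun ω => ?_
  by_cases h1 : ω ∈ A <;> simp [Set.indicator, h1]

theorem Pr_equiv (e : Finset α ≃ Finset α) (A : Set (Finset α)) : Pr (e ⁻¹' A) = Pr A := by
  unfold Pr
  exact Ex_equiv e (A.indicator fun _ => (1 : ℝ))

/-- A measure preserving comparison. -/
theorem Pr_le_of_equiv (e : Finset α ≃ Finset α) {A B : Set (Finset α)}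
    (h : ∀ ω ∈ A, e ω ∈ B) : Pr A ≤ Pr B := by
  rw [← Pr_equiv e B]; exact Pr_mono h

open Classical in
theorem Pr_eq_card (A : Set (Finset α)) :
    Pr A = ((univ.filter (· ∈ A)).card : ℝ) / 2 ^ Fintype.card α := by
  unfold Pr Ex
  congr 1
  rw [Finset.card_filter]
  push_cast
  refine Finset.sum_congr rfl fun ω _ => ?_
  simp [Set.indicator]

/-- Harris' inequality for increasing events. -/
theorem harris {A B : Set (Finset α)} (hA : IsUpperSet A) (hB : IsUpperSet B) :
    Pr A * Pr B ≤ Pr (A ∩ B) := by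
  classical
  have h1 : IsUpperSet ((univ.filter (· ∈ A) : Finset (Finset α)) : Set (Finset α)) := by
    intro s t hst hs
    simp only [Finset.coe_filter, Finset.mem_univ, true_and, Set.mem_setOf_eq] at hs ⊢
    exact hA hst hs
  have h2 : IsUpperSet ((univ.filter (· ∈ B) : Finset (Finset α)) : Set (Finset α)) := by
    intro s t hst hs
    simp only [Finset.coe_filter, Finset.mem_univ, true_and, Set.mem_setOf_eq] at hs ⊢
    exact hB hst hs
  have h := IsUpperSet.le_card_inter_finset h1 h2
  have h3 : (univ.filter (· ∈ A) : Finset (Finset α)) ∩ univ.filter (· ∈ B)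
      = @Finset.filter _ (· ∈ A ∩ B) (fun a => Classical.propDecidable _) univ := by
    ext s; simp
  rw [h3] at h
  have h4 : ((univ.filter (· ∈ A) : Finset (Finset α)).card : ℝ)
      * ((univ.filter (· ∈ B) : Finset (Finset α)).card : ℝ)
      ≤ 2 ^ Fintype.card α *
        ((@Finset.filter _ (· ∈ A ∩ B) (fun a => Classical.propDecidable _) univ).card : ℝ) := by
    exact_mod_cast h
  rw [Pr_eq_card, Pr_eq_card, Pr_eq_card, div_mul_div_comm, div_le_div_iff₀ (by positivity)
    (by positivity)]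
  have h5 := mul_le_mul_of_nonneg_right h4 (two_pow_pos' (α := α)).le
  linarith

theorem harris3 {A B C : Set (Finset α)} (hA : IsUpperSet A) (hB : IsUpperSet B)
    (hC : IsUpperSet C) : Pr A * Pr B * Pr C ≤ Pr (A ∩ B ∩ C) :=
  (mul_le_mul_of_nonneg_right (harris hA hB) (Pr_nonneg _)).trans (harris (hA.inter hB) hC)

/-- complement bijection -/
def complEquiv : Finset α ≃ Finset α where
  toFun s := sᶜ
  invFun s := sᶜ
  left_inv s := compl_compl s
  right_inv s := compl_compl s

theorem harris_lower {A B : Set (Finset α)} (hA : IsLowerSet A) (hB : IsLowerSet B) :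
    Pr A * Pr B ≤ Pr (A ∩ B) := by
  rw [← Pr_equiv complEquiv A, ← Pr_equiv complEquiv B, ← Pr_equiv complEquiv (A ∩ B)]
  have h1 : IsUpperSet ((complEquiv (α := α)) ⁻¹' A) := by
    intro s t hst hs
    exact hA (compl_le_compl hst) hs
  have h2 : IsUpperSet ((complEquiv (α := α)) ⁻¹' B) := by
    intro s t hst hs
    exact hB (compl_le_compl hst) hs
  exact harris h1 h2

/-- Harris for a finite intersection of decreasing events, each of probability at least `c`. -/
theorem harris_lower_iInter {ι : Type*} (s : Finset ι) (A : ι → Set (Finset α)) {c : ℝ}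
    (hc : 0 ≤ c) (hA : ∀ i ∈ s, IsLowerSet (A i)) (hP : ∀ i ∈ s, c ≤ Pr (A i)) :
    c ^ s.card ≤ Pr (⋂ i ∈ s, A i) ∧ IsLowerSet (⋂ i ∈ s, A i) := by
  classical
  induction s using Finset.induction_on with
  | empty => simp [Pr_univ, isLowerSet_univ]
  | insert a s ha ih =>
    obtain ⟨h1, h2⟩ := ih (fun i hi => hA i (Finset.mem_insert_of_mem hi))
      (fun i hi => hP i (Finset.mem_insert_of_mem hi))
    have hAa := hA a (Finset.mem_insert_self a s)
    rw [Finset.set_biInter_insert, Finset.card_insert_of_notMem ha]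
    refine ⟨?_, hAa.inter h2⟩
    calc c ^ (s.card + 1) = c * c ^ s.card := by ring
      _ ≤ Pr (A a) * Pr (⋂ i ∈ s, A i) :=
        mul_le_mul (hP a (Finset.mem_insert_self a s)) h1 (by positivity) (Pr_nonneg _)
      _ ≤ _ := harris_lower hAa h2

/-! ### Resampling off a stopping set -/

/-- `ω` on `S ω`, `ξ` elsewhere. -/
def mix (S : Finset α → Finset α) (ω ξ : Finset α) : Finset α := (ω ∩ S ω) ∪ (ξ \ S ω)

theorem mem_mix_of_mem {S : Finset α → Finset α} {ω ξ : Finset α} {e : α} (h : e ∈ S ω) :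
    e ∈ mix S ω ξ ↔ e ∈ ω := by
  simp [mix, h]

theorem mem_mix_of_notMem {S : Finset α → Finset α} {ω ξ : Finset α} {e : α} (h : e ∉ S ω) :
    e ∈ mix S ω ξ ↔ e ∈ ξ := by
  simp [mix, h]

/-- `S` is a stopping set: it is determined by the configuration inside it. -/
def IsStop (S : Finset α → Finset α) : Prop :=
  ∀ ω ω' : Finset α, (∀ e ∈ S ω, e ∈ ω ↔ e ∈ ω') → S ω' = S ω

/-- The swapping involution. -/
def swapEquiv (S : Finset α → Finset α) (hS : IsStop S) :
    (Finset α × Finset α) ≃ (Finset α × Finset α) where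
  toFun p := (mix S p.1 p.2, (p.2 ∩ S p.1) ∪ (p.1 \ S p.1))
  invFun p := (mix S p.1 p.2, (p.2 ∩ S p.1) ∪ (p.1 \ S p.1))
  left_inv := by
    rintro ⟨ω, ξ⟩
    have h : S (mix S ω ξ) = S ω := hS ω _ fun e he => (mem_mix_of_mem he).symm
    simp only [Prod.mk.injEq]
    constructor
    · ext e
      by_cases he : e ∈ S ω
      · rw [mem_mix_of_mem (by rwa [h]), mem_mix_of_mem he]
      · rw [mem_mix_of_notMem (by rwa [h])]
        simp [he]
    · ext e
      by_cases he : e ∈ S ω
      · simp [h, he]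
      · simp only [h, mem_union, mem_inter, he, and_false, mem_sdiff, not_false_eq_true, and_true,
          false_or]
        exact mem_mix_of_notMem he
  right_inv := by
    rintro ⟨ω, ξ⟩
    have h : S (mix S ω ξ) = S ω := hS ω _ fun e he => (mem_mix_of_mem he).symm
    simp only [Prod.mk.injEq]
    constructor
    · ext e
      by_cases he : e ∈ S ω
      · rw [mem_mix_of_mem (by rwa [h]), mem_mix_of_mem he]
      · rw [mem_mix_of_notMem (by rwa [h])]
        simp [he]
    · ext e
      by_cases he : e ∈ S ω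
      · simp [h, he]
      · simp only [h, mem_union, mem_inter, he, and_false, mem_sdiff, not_false_eq_true, and_true,
          false_or]
        exact mem_mix_of_notMem he

/-- The law of the mixed configuration is again uniform. -/
theorem Ex_mix (S : Finset α → Finset α) (hS : IsStop S) (f : Finset α → ℝ) :
    Ex (fun ω => Ex (fun ξ => f (mix S ω ξ))) = Ex f := by
  have h1 : (∑ p : Finset α × Finset α, f (mix S p.1 p.2)) = ∑ p : Finset α × Finset α, f p.1 :=
    Equiv.sum_comp (swapEquiv S hS) (fun p => f p.1)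
  rw [Fintype.sum_prod_type, Fintype.sum_prod_type] at h1
  have h2 : ∀ ω : Finset α, (∑ _ξ : Finset α, f ω) = 2 ^ Fintype.card α * f ω := by
    intro ω
    rw [Finset.sum_const, Finset.card_univ, Fintype.card_finset, nsmul_eq_mul]
    push_cast; ring
  unfold Ex
  rw [← Finset.sum_div, h1, Finset.sum_congr rfl fun ω _ => h2 ω, ← Finset.mul_sum]
  field_simp

/-- If `ω ∈ A` and, given `ω ∈ A`, a fresh configuration is in `B ω` with probability at least
`c`, and then the mixture is in `X`, then `Pr X ≥ c * Pr A`. -/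
theorem Pr_mix_ge (S : Finset α → Finset α) (hS : IsStop S) (A : Set (Finset α))
    (B : Finset α → Set (Finset α)) (X : Set (Finset α)) {c : ℝ}
    (hB : ∀ ω ∈ A, c ≤ Pr (B ω)) (hX : ∀ ω ∈ A, ∀ ξ ∈ B ω, mix S ω ξ ∈ X) :
    c * Pr A ≤ Pr X := by
  unfold Pr
  rw [← Ex_mix S hS (X.indicator fun _ => (1 : ℝ)), ← Ex_mul_left]
  refine Ex_mono fun ω => ?_
  by_cases hω : ω ∈ A
  · rw [Set.indicator_of_mem hω, mul_one]
    refine (hB ω hω).trans ?_
    refine Ex_mono fun ξ => ?_
    by_cases hξ : ξ ∈ B ω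
    · rw [Set.indicator_of_mem hξ, Set.indicator_of_mem (hX ω hω ξ hξ)]
    · rw [Set.indicator_of_notMem hξ]
      exact Set.indicator_nonneg (fun _ _ => zero_le_one) _
  · rw [Set.indicator_of_notMem hω, mul_zero]
    exact Ex_nonneg fun ξ => Set.indicator_nonneg (fun _ _ => zero_le_one) _

/-! ### Marginals -/

/-- Restriction of a configuration along an injection. -/
noncomputable def restr (ι : β → α) (ω : Finset α) : Finset β := by
  classical exact univ.filter fun b => ι b ∈ ω

theorem mem_restr {ι : β → α} {ω : Finset α} {b : β} : b ∈ restr ι ω ↔ ι b ∈ ω := by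
  simp [restr]

theorem Ex_restr {ι : β → α} (hι : Function.Injective ι) (f : Finset β → ℝ) :
    Ex (fun ω : Finset α => f (restr ι ω)) = Ex f := by
  classical
  -- split a configuration into its part in the image and the rest
  let R : Finset α := univ.image ι
  let e : Finset α ≃ (Finset β × Finset {a : α // a ∉ R}) :=
    { toFun := fun ω => (restr ι ω, univ.filter fun a => (a : α) ∈ ω)
      invFun := fun p => (p.1.image ι) ∪ (p.2.image Subtype.val)
      left_inv := by
        intro ω
        ext a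
        simp only [mem_union, mem_image, mem_restr, mem_filter, mem_univ, true_and, Subtype.exists,
          exists_and_right, exists_eq_right]
        constructor
        · rintro (⟨b, hb, rfl⟩ | ⟨h, h2⟩)
          · exact hb
          · exact h2
        · intro ha
          by_cases haR : a ∈ R
          · obtain ⟨b, -, rfl⟩ := Finset.mem_image.1 haR
            exact Or.inl ⟨b, ha, rfl⟩
          · exact Or.inr ⟨haR, ha⟩
      right_inv := by
        rintro ⟨s, t⟩
        simp only [Prod.mk.injEq]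
        constructor
        · ext b
          simp only [mem_restr, mem_union, mem_image, Subtype.exists, exists_and_right,
            exists_eq_right]
          constructor
          · rintro (⟨c, hc, hcb⟩ | ⟨h, -⟩)
            · rwa [← hι hcb]
            · exact absurd (Finset.mem_image_of_mem ι (Finset.mem_univ b)) h
          · intro hb
            exact Or.inl ⟨b, hb, rfl⟩
        · ext ⟨a, ha⟩
          simp only [mem_filter, mem_univ, true_and, mem_union, mem_image, Subtype.exists,
            exists_and_right, exists_eq_right]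
          constructor
          · rintro (⟨c, hc, rfl⟩ | ⟨_, h⟩)
            · exact absurd (Finset.mem_image_of_mem ι (Finset.mem_univ c)) ha
            · exact h
          · intro h
            exact Or.inr ⟨ha, h⟩ }
  have h1 : (∑ ω : Finset α, f (restr ι ω))
      = ∑ p : Finset β × Finset {a : α // a ∉ R}, f p.1 := Equiv.sum_comp e (fun p => f p.1)
  have hcard : Fintype.card α = Fintype.card β + Fintype.card {a : α // a ∉ R} := by
    have h2 : Fintype.card {a : α // a ∉ R} = Fintype.card α - R.card := by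
      rw [Fintype.card_subtype_compl]; simp
    have h3 : R.card = Fintype.card β := by
      rw [Finset.card_image_of_injective _ hι, Finset.card_univ]
    have h4 : R.card ≤ Fintype.card α := Finset.card_le_univ R
    omega
  unfold Ex
  rw [h1, Fintype.sum_prod_type]
  have h2 : ∀ s : Finset β, (∑ _t : Finset {a : α // a ∉ R}, f s)
      = 2 ^ Fintype.card {a : α // a ∉ R} * f s := by
    intro s
    rw [Finset.sum_const, Finset.card_univ, Fintype.card_finset, nsmul_eq_mul]
    push_cast; ring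
  rw [Finset.sum_congr rfl fun s _ => h2 s, ← Finset.mul_sum, hcard, pow_add]
  field_simp

theorem Pr_restr {ι : β → α} (hι : Function.Injective ι) (A : Set (Finset β)) :
    Pr (restr ι ⁻¹' A) = Pr A := by
  unfold Pr
  rw [← Ex_restr hι]
  rfl

end Pool.Agent.MP_6bd702

end PartprBasic
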