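import Pool.Agent.Lib.MP_6bd702_z.Z003
import Pool.Agent.Lib.MP_6bd702_z.Z004
import Pool.Agent.Lib.MP_6bd702_z.CornerDefs

section Parth23Explore

/-!
Exploration of the dual clusters of the left side; the duality theorem; the Bollobas-Riordan step.
-/

set_option autoImplicit false

namespace Pool.Agent.MP_6bd702.H23

/-- The dual edge crossing a primal edge. -/
def dc (e : Ed) : Ed := if e.2.2 then (e.1 - 1, e.2.1, false) else (e.1, e.2.1 - 1, true)

@[simp] theorem dc_true (x y : ℤ) : dc (x, y, true) = (x - 1, y, false) := rfl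
@[simp] theorem dc_false (x y : ℤ) : dc (x, y, false) = (x, y - 1, true) := rfl

theorem cr_dc (e : Ed) : cr (dc e) = e := by
  obtain ⟨x, y, t⟩ := e
  cases t <;> simp

theorem dc_cr (e : Ed) : dc (cr e) = e := by
  obtain ⟨x, y, t⟩ := e
  cases t <;> simp

theorem ea_dc (e : Ed) : ea (dc e) = f1 e := by
  obtain ⟨x, y, t⟩ := e
  cases t <;> simp

theorem eb_dc (e : Ed) : eb (dc e) = f2 e := by
  obtain ⟨x, y, t⟩ := e
  cases t <;> simp

theorem ES_faces {a b c d : ℤ} {e : Ed} (he : e ∈ ES a b c d) :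
    f1 e ∈ Rect (a - 1) b c (d - 1) ∧ f2 e ∈ Rect (a - 1) b c (d - 1) := by
  obtain ⟨x, y, t⟩ := e
  cases t with
  | true =>
    rw [mem_ES_true] at he
    simp only [f1_true, f2_mk, mem_Rect]
    omega
  | false =>
    rw [mem_ES_false] at he
    simp only [f1_false, f2_mk, mem_Rect]
    omega

/-- The faces of the columns `a - 1, ..., b` and rows `c, ..., d - 1` which are joined to the
column `a - 1` across closed edges of the rectangle. -/
def Ux (a b c d : ℤ) (ω : Set Ed) : Set (ℤ × ℤ) :=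
  {f | ∃ y, c ≤ y ∧ y < d ∧
    Conn (du (ω ∪ (ES a b c d)ᶜ)) (Rect (a - 1) b c (d - 1)) (a - 1, y) f}

section

variable {a b c d : ℤ} {ω : Set Ed}

theorem Ux_left {y : ℤ} (h1 : c ≤ y) (h2 : y < d) : (a - 1, y) ∈ Ux a b c d ω :=
  ⟨y, h1, h2, .refl⟩

theorem Ux_rect (hab : a - 1 ≤ b) {f : ℤ × ℤ} (hf : f ∈ Ux a b c d ω) :
    f ∈ Rect (a - 1) b c (d - 1) := by
  obtain ⟨y, h1, h2, h3⟩ := hf
  exact h3.mem ⟨le_rfl, hab, h1, by simp only; omega⟩

/-- The faces on both sides of a closed edge of the rectangle are explored together. -/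
theorem Ux_step {e : Ed} (he : e ∈ ES a b c d) (hω : e ∉ ω) :
    f1 e ∈ Ux a b c d ω ↔ f2 e ∈ Ux a b c d ω := by
  have hF := ES_faces he
  have hd : dc e ∈ du (ω ∪ (ES a b c d)ᶜ) := by
    rw [mem_du, cr_dc]
    rintro (h | h)
    · exact hω h
    · exact h he
  constructor
  · rintro ⟨y, h1, h2, h3⟩
    exact ⟨y, h1, h2, h3.tail ⟨hF.1, hF.2, dc e, hd, Or.inl ⟨ea_dc e, eb_dc e⟩⟩⟩
  · rintro ⟨y, h1, h2, h3⟩
    exact ⟨y, h1, h2, h3.tail ⟨hF.2, hF.1, dc e, hd, Or.inr ⟨ea_dc e, eb_dc e⟩⟩⟩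

/-- The boundary edges of the explored set are open. -/
theorem Zs_sub : Zs a b c d (Ux a b c d ω) ⊆ ω := by
  rintro e ⟨he, h⟩
  by_contra hω
  exact h (Ux_step he hω)

theorem Zs_sub_ES {U : Set (ℤ × ℤ)} : Zs a b c d U ⊆ ES a b c d := fun _ h => h.1

/-- Exploration induction. -/
theorem Ux_induction {p : ℤ × ℤ → Prop} (h0 : ∀ y, c ≤ y → y < d → p (a - 1, y))
    (hs : ∀ e ∈ ES a b c d, e ∉ ω → f1 e ∈ Ux a b c d ω → f2 e ∈ Ux a b c d ω →
      (p (f1 e) ↔ p (f2 e))) :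
    ∀ f ∈ Ux a b c d ω, p f := by
  rintro f ⟨y, h1, h2, h3⟩
  unfold Conn at h3
  induction h3 with
  | refl => exact h0 y h1 h2
  | @tail f g h4 h5 ih =>
    have hf : f ∈ Ux a b c d ω := ⟨y, h1, h2, h4⟩
    have hg : g ∈ Ux a b c d ω := ⟨y, h1, h2, h4.tail h5⟩
    obtain ⟨_, _, e, he, hh⟩ := h5
    rw [mem_du] at he
    have he1 : cr e ∈ ES a b c d := by
      by_contra h; exact he (Or.inr h)
    have he2 : cr e ∉ ω := fun h => he (Or.inl h)
    have e1 : f1 (cr e) = ea e := by rw [← ea_dc, dc_cr]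
    have e2 : f2 (cr e) = eb e := by rw [← eb_dc, dc_cr]
    have key := hs (cr e) he1 he2
    rw [e1, e2] at key
    rcases hh with ⟨h6, h7⟩ | ⟨h6, h7⟩
    · rw [h6, h7] at key
      exact (key hf hg).1 ih
    · rw [h6, h7] at key
      exact (key hg hf).2 ih

/-- The explored set is determined by the edges adjacent to it. -/
theorem Ux_congr {ω' : Set Ed} (h : ∀ e ∈ ES a b c d, (f1 e ∈ Ux a b c d ω ∨ f2 e ∈ Ux a b c d ω) →
    (e ∈ ω ↔ e ∈ ω')) : Ux a b c d ω' = Ux a b c d ω := by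
  apply Set.Subset.antisymm
  · refine Ux_induction (ω := ω') (p := fun f => f ∈ Ux a b c d ω)
      (fun y h1 h2 => Ux_left h1 h2) ?_
    intro e he hω' _ _
    by_cases h1 : f1 e ∈ Ux a b c d ω ∨ f2 e ∈ Ux a b c d ω
    · exact Ux_step he fun h2 => hω' ((h e he h1).1 h2)
    · push Not at h1
      exact ⟨fun h2 => absurd h2 h1.1, fun h2 => absurd h2 h1.2⟩
  · refine Ux_induction (ω := ω) (p := fun f => f ∈ Ux a b c d ω')
      (fun y h1 h2 => Ux_left h1 h2) ?_
    intro e he hω h1 _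
    exact Ux_step he fun h2 => hω ((h e he (Or.inl h1)).2 h2)

/-- The cluster of a vertex in the boundary edges. -/
theorem UK_cluster {U : Set (ℤ × ℤ)} (hl : ∀ y, c ≤ y → y < d → (a - 1, y) ∈ U)
    (hr : ∀ y, c ≤ y → y < d → (b, y) ∉ U) (T : Set (ℤ × ℤ)) :
    UK a b c d U {w | ∃ v ∈ T, Conn (Zs a b c d U) (Rect a b c d) v w} where
  left := hl
  right := hr
  clo e he := by
    have hR := ES_sub he.1
    constructor
    · rintro ⟨v, hv, h⟩
      exact ⟨v, hv, h.tail ⟨hR.1, hR.2, e, he, Or.inl ⟨rfl, rfl⟩⟩⟩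
    · rintro ⟨v, hv, h⟩
      exact ⟨v, hv, h.tail ⟨hR.2, hR.1, e, he, Or.inr ⟨rfl, rfl⟩⟩⟩

/-- Duality, first form. -/
theorem vc_of_notMem (hab : a - 1 ≤ b) (hcd : c < d)
    (hr : ∀ y, c ≤ y → y < d → (b, y) ∉ Ux a b c d ω) : VC a b c d ω := by
  set U := Ux a b c d ω with hU
  have hl : ∀ y, c ≤ y → y < d → (a - 1, y) ∈ U := fun y h1 h2 => Ux_left h1 h2
  set K : Set (ℤ × ℤ) := {w | ∃ v ∈ {v : ℤ × ℤ | a ≤ v.1 ∧ v.1 ≤ b ∧ v.2 = c},
    Conn (Zs a b c d U) (Rect a b c d) v w} with hK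
  have hUK : UK a b c d U K := UK_cluster hl hr _
  have h1 : pot a (Cz a b c d U K) b c = 1 := by
    have h2 := pot_univ (U := U) (b := b) hl le_rfl hcd b hab le_rfl
    rw [ind_neg (hr c le_rfl hcd), add_zero] at h2
    rw [← h2]
    unfold pot
    refine Finset.sum_congr rfl fun x hx => ?_
    rw [Finset.mem_Icc] at hx
    refine Cz_eq_of_mem hUK (w := (x, c)) (Or.inl rfl) ?_
    exact ⟨(x, c), ⟨hx.1, hx.2, rfl⟩, .refl⟩
  obtain ⟨x', hx1, hx2, -, h3⟩ := exists_of_right hUK hab h1 (j := d - 1) (by omega) (by omega)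
  rw [sub_add_cancel] at h3
  obtain ⟨⟨x, y⟩, ⟨h4, h5, h6⟩, h7⟩ := h3
  simp only at h4 h5 h6
  subst h6
  exact ⟨x, x', h4, h5, hx1, hx2, h7.mono Zs_sub le_rfl⟩

theorem hc_of_mem {y : ℤ} (h1 : c ≤ y) (h2 : y < d) (h : (b, y) ∈ Ux a b c d ω) :
    HC (a - 1) b c (d - 1) (du ω) := by
  obtain ⟨y', h3, h4, h5⟩ := h
  refine ⟨y', y, h3, by omega, h1, by omega, h5.mono ?_ le_rfl⟩
  intro e he
  rw [mem_du] at he ⊢
  exact fun h6 => he (Or.inl h6)

/-- Duality: one of the two crossings exists. -/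
theorem dual_or (hab : a - 1 ≤ b) (hcd : c < d) (ω : Set Ed) :
    VC a b c d ω ∨ HC (a - 1) b c (d - 1) (du ω) := by
  by_cases h : ∃ y, c ≤ y ∧ y < d ∧ (b, y) ∈ Ux a b c d ω
  · obtain ⟨y, h1, h2, h3⟩ := h
    exact Or.inr (hc_of_mem h1 h2 h3)
  · push Not at h
    exact Or.inl (vc_of_notMem hab hcd h)

end

/-! ### The Bollobas-Riordan step -/

/-- The vertex is a corner of a face of `F`. -/
def Touch (F : Set (ℤ × ℤ)) (v : ℤ × ℤ) : Prop :=
  ∃ i j, (i = v.1 - 1 ∨ i = v.1) ∧ (j = v.2 - 1 ∨ j = v.2) ∧ (i, j) ∈ F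

/-- The reflection of faces in the line `y = n`. -/
def rf (n : ℤ) (f : ℤ × ℤ) : ℤ × ℤ := (f.1, 2 * n - 1 - f.2)

/-- The edges which are adjacent neither to `U` nor to its mirror image. -/
def Av (n : ℤ) (U : Set (ℤ × ℤ)) : Set Ed :=
  {e | f1 e ∉ U ∧ f2 e ∉ U ∧ rf n (f1 e) ∉ U ∧ rf n (f2 e) ∉ U}

theorem br_step {n m : ℤ} (hn : 1 ≤ n) (hm : n < m) {ω ξ : Set Ed}
    (hr : ∀ y, 0 ≤ y → y < n → (n, y) ∉ Ux 0 n 0 n ω) {v : ℤ × ℤ} {y : ℤ}
    (hv : v ∈ Rect 0 m 0 (2 * n)) (ht : Touch (Ux 0 n 0 n ω) v)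
    (hc : Conn (ξ ∩ Av n (Ux 0 n 0 n ω)) (Rect 0 m 0 (2 * n)) v (m, y)) :
    ∃ x x', 0 ≤ x ∧ x ≤ n ∧ 0 ≤ x' ∧ x' ≤ n ∧
      Conn (Zs 0 n 0 n (Ux 0 n 0 n ω)) (Rect 0 n 0 n) v (x, 0) ∧
      Conn (Zs 0 n 0 n (Ux 0 n 0 n ω)) (Rect 0 n 0 n) v (x', n) := by
  set U := Ux 0 n 0 n ω with hU
  have hl : ∀ y, 0 ≤ y → y < n → ((0 : ℤ) - 1, y) ∈ U := fun y h1 h2 => Ux_left h1 h2
  set K : Set (ℤ × ℤ) := {w | ∃ v' ∈ ({v} : Set (ℤ × ℤ)),
    Conn (Zs 0 n 0 n U) (Rect 0 n 0 n) v' w} with hK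
  have hUK : UK 0 n 0 n U K := UK_cluster hl hr _
  have hvK : v ∈ K := ⟨v, rfl, .refl⟩
  have hUR : ∀ f ∈ U, f ∈ Rect (0 - 1) n 0 (n - 1) := fun f hf => Ux_rect (by omega) hf
  have hUcol : ∀ i j, (i, j) ∈ U → i < n := by
    intro i j h
    have h1 := hUR _ h
    rw [mem_Rect] at h1
    simp only at h1
    by_contra h2
    have h3 : i = n := by omega
    subst h3
    exact hr j (by omega) (by omega) h
  let C := Cz 0 n 0 n U K
  let P : ℤ → ℤ → ZMod 2 := fun i j => pot 0 C i j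
  -- potential zero on the explored faces
  have hP0 : ∀ f ∈ U, P f.1 f.2 = 0 := by
    refine Ux_induction (p := fun f => P f.1 f.2 = 0) ?_ ?_
    · intro y _ _
      exact pot_lt _ (by simp) _
    · intro e he hω _ _
      have h0 : C e = 0 := ind_neg fun h => hω (Zs_sub h.1)
      obtain ⟨ex, ey, t⟩ := e
      cases t with
      | true =>
        rw [mem_ES_true] at he
        simp only [f1_true, f2_mk, P]
        rw [pot_succ C (i := ex) (by omega), h0, add_zero]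
      | false =>
        rw [mem_ES_false] at he
        simp only [f1_false, f2_mk, P]
        rw [Cz_hor hUK ex (by omega) (by omega) ey (by omega) (by omega)]
        change _ ↔ _ + C (ex, ey, false) = 0
        rw [h0, add_zero]
  -- the modified potential is constant around a vertex
  have hcol : ∀ (w : ℤ × ℤ) (j : ℤ), 0 ≤ w.1 → 0 ≤ j → j < n → (j = w.2 - 1 ∨ j = w.2) →
      P (min (w.1 - 1) n) j + ind (w ∈ K) * ind ((w.1 - 1, j) ∈ U)
        = P (min w.1 n) j + ind (w ∈ K) * ind ((w.1, j) ∈ U) := by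
    intro w j hw h1 h2 h3
    rcases le_or_gt w.1 n with h4 | h4
    · rw [min_eq_left (by omega), min_eq_left h4]
      have h5 : P w.1 j = P (w.1 - 1) j + C (w.1, j, true) := pot_succ C hw j
      have h6 : ea ((w.1, j, true) : Ed) = w ∨ eb ((w.1, j, true) : Ed) = w := by
        rcases h3 with h3 | h3
        · right; subst h3; rw [eb_true, sub_add_cancel]
        · left; subst h3; rfl
      by_cases hwK : w ∈ K
      · rw [h5, ind_pos hwK, show C (w.1, j, true) = _ from Cz_eq_of_mem hUK h6 hwK,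
          ind_Zs (mem_ES_true.2 ⟨hw, h4, h1, h2⟩)]
        simp only [f1_true, f2_mk]
        have := add_self2 (ind ((w.1, j) ∈ U))
        linear_combination -this
      · rw [h5, ind_neg hwK, show C (w.1, j, true) = _ from Cz_eq_zero hUK h6 hwK]
        ring
    · rw [min_eq_right (by omega), min_eq_right (by omega),
        ind_neg (P := (w.1 - 1, j) ∈ U) fun h => by have := hUcol _ _ h; omega,
        ind_neg (P := (w.1, j) ∈ U) fun h => by have := hUcol _ _ h; omega]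
  have hrow : ∀ (w : ℤ × ℤ) (i : ℤ), 0 ≤ w.1 → (i = w.1 - 1 ∨ i = w.1) → 0 < w.2 → w.2 < n →
      P (min i n) (w.2 - 1) + ind (w ∈ K) * ind ((i, w.2 - 1) ∈ U)
        = P (min i n) w.2 + ind (w ∈ K) * ind ((i, w.2) ∈ U) := by
    intro w i hw h1 h2 h3
    rcases le_or_gt i n with h4 | h4
    · rw [min_eq_left h4]
      have h5 : P i w.2 = P i (w.2 - 1) + C (i, w.2, false) :=
        Cz_hor hUK i (by omega) h4 w.2 h2 h3
      have h6 : ea ((i, w.2, false) : Ed) = w ∨ eb ((i, w.2, false) : Ed) = w := by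
        rcases h1 with h1 | h1
        · right; subst h1; rw [eb_false, sub_add_cancel]
        · left; subst h1; rfl
      by_cases hwK : w ∈ K
      · have h7 : C (i, w.2, false) = ind ((i, w.2 - 1) ∈ U) + ind ((i, w.2) ∈ U) := by
          rw [show C (i, w.2, false) = _ from Cz_eq_of_mem hUK h6 hwK]
          by_cases h8 : 0 ≤ i ∧ i < n
          · rw [ind_Zs (mem_ES_false.2 ⟨h8.1, h8.2, h2, h3⟩)]
            rfl
          · rw [notMem_ES_Zs (by rw [mem_ES_false]; omega)]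
            rcases lt_or_ge i 0 with h9 | h9
            · have h10 : i = 0 - 1 := by omega
              rw [h10, ind_pos (hl _ (by omega) (by omega)), ind_pos (hl _ h2.le h3)]
              exact (add_self2 1).symm
            · rw [ind_neg (P := (i, w.2 - 1) ∈ U) fun h => by have := hUcol _ _ h; omega,
                ind_neg (P := (i, w.2) ∈ U) fun h => by have := hUcol _ _ h; omega, add_zero]
        rw [h5, h7, ind_pos hwK]
        have := add_self2 (ind ((i, w.2) ∈ U))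
        linear_combination -this
      · rw [h5, ind_neg hwK, show C (i, w.2, false) = _ from Cz_eq_zero hUK h6 hwK]
        ring
    · rw [min_eq_right (by omega)]
      have h5 : P n w.2 = P n (w.2 - 1) + C (n, w.2, false) :=
        Cz_hor hUK n (by omega) le_rfl w.2 h2 h3
      rw [h5, show C (n, w.2, false) = 0 from Cz_notMem_ES (by rw [mem_ES_false]; omega),
        ind_neg (P := (i, w.2 - 1) ∈ U) fun h => by have := hUcol _ _ h; omega,
        ind_neg (P := (i, w.2) ∈ U) fun h => by have := hUcol _ _ h; omega]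
      ring
  -- hence: two unexplored faces around a vertex have the same potential
  have hmod : ∀ (w : ℤ × ℤ), 0 ≤ w.1 → 0 ≤ w.2 → w.2 ≤ n → ∀ i j i' j',
      (i = w.1 - 1 ∨ i = w.1) → (j = w.2 - 1 ∨ j = w.2) → 0 ≤ j → j < n →
      (i' = w.1 - 1 ∨ i' = w.1) → (j' = w.2 - 1 ∨ j' = w.2) → 0 ≤ j' → j' < n →
      P (min i n) j + ind (w ∈ K) * ind ((i, j) ∈ U)
        = P (min i' n) j' + ind (w ∈ K) * ind ((i', j') ∈ U) := by
    intro w hw1 hw2 hw3 i j i' j' hi hj hj1 hj2 hi' hj' hj1' hj2'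
    -- first move the column, then the row
    have hA : P (min i n) j + ind (w ∈ K) * ind ((i, j) ∈ U)
        = P (min i' n) j + ind (w ∈ K) * ind ((i', j) ∈ U) := by
      have h1 := hcol w j hw1 hj1 hj2 hj
      rcases hi with rfl | rfl <;> rcases hi' with rfl | rfl
      · rfl
      · exact h1
      · exact h1.symm
      · rfl
    rw [hA]
    rcases hj with rfl | rfl <;> rcases hj' with rfl | rfl
    · rfl
    · exact hrow w i' hw1 hi' (by omega) hj2'
    · exact (hrow w i' hw1 hi' (by omega) hj2).symm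
    · rfl
  -- the folded height
  let fo : ℤ → ℤ := fun y => if y ≤ n then y else 2 * n - y
  have hfo : ∀ y, 0 ≤ y → y ≤ 2 * n → 0 ≤ fo y ∧ fo y ≤ n := by
    intro y h1 h2
    simp only [fo]
    split_ifs <;> omega
  -- the invariant
  let Good : ℤ × ℤ → Prop := fun w => ∀ i j, (i = w.1 - 1 ∨ i = w.1) →
    (j = fo w.2 - 1 ∨ j = fo w.2) → 0 ≤ j → j < n → (i, j) ∉ U → P (min i n) j = 1
  have hv' := hv
  rw [mem_Rect] at hv'
  obtain ⟨fi, fj, hfi, hfj, hfU⟩ := ht
  have hfR := hUR _ hfU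
  rw [mem_Rect] at hfR
  simp only at hfR
  have hfc := hUcol _ _ hfU
  have hv2 : v.2 ≤ n := by omega
  have hgood0 : Good v := by
    intro i j hi hj hj1 hj2 hij
    have hfv : fo v.2 = v.2 := by simp only [fo]; rw [if_pos hv2]
    rw [hfv] at hj
    have h1 := hmod v hv'.1 hv'.2.2.1 hv2 i j fi fj hi hj hj1 hj2 hfi hfj (by omega) (by omega)
    rw [ind_pos hvK, ind_neg hij, ind_pos hfU, min_eq_left (by omega : fi ≤ n), hP0 _ hfU] at h1
    linear_combination h1
  have hgood : ∀ w, Conn (ξ ∩ Av n U) (Rect 0 m 0 (2 * n)) v w → Good w := by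
    intro w hw
    unfold Conn at hw
    induction hw with
    | refl => exact hgood0
    | @tail u w h1 h2 ih =>
      obtain ⟨hu, hw, e, ⟨_, heA⟩, hh⟩ := h2
      rw [mem_Rect] at hu hw
      -- a common unexplored face
      have hface : ∃ i j, (i = u.1 - 1 ∨ i = u.1) ∧ (i = w.1 - 1 ∨ i = w.1) ∧
          (j = fo u.2 - 1 ∨ j = fo u.2) ∧ (j = fo w.2 - 1 ∨ j = fo w.2) ∧ 0 ≤ j ∧ j < n ∧
          (i, j) ∉ U := by
        obtain ⟨ex, ey, t⟩ := e
        obtain ⟨hA1, hA2, hA3, hA4⟩ := heA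
        cases t with
        | true =>
          simp only [f1_true, f2_mk, rf] at hA1 hA2 hA3 hA4
          simp only [ea_mk, eb_true] at hh
          have hux : u.1 = ex ∧ w.1 = ex ∧ ((u.2 = ey ∧ w.2 = ey + 1) ∨ (w.2 = ey ∧ u.2 = ey + 1)) := by
            rcases hh with ⟨h3, h4⟩ | ⟨h3, h4⟩
            · rw [← h3, ← h4]; simp
            · rw [← h3, ← h4]; simp
          by_cases h5 : ey < n
          · refine ⟨ex, ey, by omega, by omega, ?_, ?_, by omega, h5, hA2⟩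
            · simp only [fo]; split_ifs <;> omega
            · simp only [fo]; split_ifs <;> omega
          · refine ⟨ex, 2 * n - 1 - ey, by omega, by omega, ?_, ?_, by omega, by omega, hA4⟩
            · simp only [fo]; split_ifs <;> omega
            · simp only [fo]; split_ifs <;> omega
        | false =>
          simp only [f1_false, f2_mk, rf] at hA1 hA2 hA3 hA4
          simp only [ea_mk, eb_false] at hh
          have hux : u.2 = ey ∧ w.2 = ey ∧ ((u.1 = ex ∧ w.1 = ex + 1) ∨ (w.1 = ex ∧ u.1 = ex + 1)) := by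
            rcases hh with ⟨h3, h4⟩ | ⟨h3, h4⟩
            · rw [← h3, ← h4]; simp
            · rw [← h3, ← h4]; simp
          rcases lt_trichotomy ey n with h5 | h5 | h5
          · refine ⟨ex, ey, by omega, by omega, ?_, ?_, by omega, h5, hA2⟩
            · simp only [fo]; split_ifs <;> omega
            · simp only [fo]; split_ifs <;> omega
          · refine ⟨ex, ey - 1, by omega, by omega, ?_, ?_, by omega, by omega, hA1⟩
            · simp only [fo]; split_ifs <;> omega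
            · simp only [fo]; split_ifs <;> omega
          · refine ⟨ex, 2 * n - 1 - (ey - 1), by omega, by omega, ?_, ?_, by omega, by omega, hA3⟩
            · simp only [fo]; split_ifs <;> omega
            · simp only [fo]; split_ifs <;> omega
      obtain ⟨i, j, h3, h4, h5, h6, h7, h8, h9⟩ := hface
      have h10 : P (min i n) j = 1 := ih i j h3 h5 h7 h8 h9
      intro i' j' hi' hj' hj1' hj2' hij'
      have hfw := hfo w.2 hw.2.2.1 hw.2.2.2
      have h11 := hmod (w.1, fo w.2) hw.1 hfw.1 hfw.2 i j i' j' h4 h6 h7 h8 hi' hj' hj1' hj2'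
      rw [ind_neg (P := (i, j) ∈ U) h9, ind_neg (P := (i', j') ∈ U) hij', mul_zero, add_zero,
        add_zero, h10] at h11
      exact h11.symm
  have hend := hgood _ hc
  have hyR := hc.mem hv
  rw [mem_Rect] at hyR
  simp only at hyR
  have hfy := hfo y hyR.2.2.1 hyR.2.2.2
  have h1 : pot 0 C n 0 = 1 := by
    have h2 : P (min (m - 1) n) (min (fo y) (n - 1)) = 1 := by
      refine hend (m - 1) (min (fo y) (n - 1)) (Or.inl rfl) ?_ ?_ ?_ ?_
      · simp only
        rcases le_or_gt (fo y) (n - 1) with h3 | h3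
        · right; exact min_eq_left h3
        · left; rw [min_eq_right h3.le]; omega
      · exact le_min hfy.1 (by omega)
      · exact lt_of_le_of_lt (min_le_right _ _) (by omega)
      · intro h3
        have := hUcol _ _ h3
        omega
    rw [min_eq_right (by omega)] at h2
    have h3 := Cz_right hUK (by omega) (min (fo y) (n - 1)) (le_min hfy.1 (by omega))
      (lt_of_le_of_lt (min_le_right _ _) (by omega))
    rw [← h3]
    exact h2
  obtain ⟨x, hx1, hx2, h3, _⟩ := exists_of_right hUK (by omega) h1 (j := 0) le_rfl (by omega)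
  obtain ⟨x', hx1', hx2', _, h4⟩ := exists_of_right hUK (by omega) h1 (j := n - 1) (by omega)
    (by omega)
  rw [sub_add_cancel] at h4
  obtain ⟨v1, hv1, h5⟩ := h3
  obtain ⟨v2, hv2', h6⟩ := h4
  rw [Set.mem_singleton_iff] at hv1 hv2'
  subst hv1
  subst hv2'
  exact ⟨x, x', hx1, hx2, hx1', hx2', h5, h6⟩

end Pool.Agent.MP_6bd702.H23

end Parth23Explore

section Parth23Prob

/-!
Percolation probabilities in finite windows.
-/

set_option autoImplicit false

namespace Pool.Agent.MP_6bd702.H23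

open Finset

/-- The set of edges given by a configuration of the window. -/
def cfg (W : Finset Ed) (s : Finset W) : Set Ed := {e | ∃ h : e ∈ W, (⟨e, h⟩ : W) ∈ s}

theorem mem_cfg {W : Finset Ed} {s : Finset W} {e : Ed} :
    e ∈ cfg W s ↔ ∃ h : e ∈ W, (⟨e, h⟩ : W) ∈ s := Iff.rfl

theorem cfg_sub {W : Finset Ed} {s : Finset W} : cfg W s ⊆ W := fun _ h => h.1

theorem cfg_mono {W : Finset Ed} {s t : Finset W} (h : s ≤ t) : cfg W s ⊆ cfg W t :=
  fun _ ⟨h1, h2⟩ => ⟨h1, h h2⟩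

/-- The probability of the event `A` when the edges of `W` are open independently with probability
`1/2` and the other edges are closed. -/
noncomputable def pr (W : Finset Ed) (A : Set (Set Ed)) : ℝ := Pr {s : Finset W | cfg W s ∈ A}

theorem pr_nonneg (W : Finset Ed) (A : Set (Set Ed)) : 0 ≤ pr W A := Pr_nonneg _

theorem pr_le_one (W : Finset Ed) (A : Set (Set Ed)) : pr W A ≤ 1 := Pr_le_one _

theorem pr_mono' {W : Finset Ed} {A B : Set (Set Ed)} (h : ∀ ω ⊆ (W : Set Ed), ω ∈ A → ω ∈ B) :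
    pr W A ≤ pr W B := Pr_mono fun _ hs => h _ cfg_sub hs

theorem pr_mono {W : Finset Ed} {A B : Set (Set Ed)} (h : A ⊆ B) : pr W A ≤ pr W B :=
  pr_mono' fun _ _ h1 => h h1

theorem pr_congr {W : Finset Ed} {A B : Set (Set Ed)}
    (h : ∀ ω ⊆ (W : Set Ed), ω ∈ A ↔ ω ∈ B) : pr W A = pr W B :=
  le_antisymm (pr_mono' fun ω h1 h2 => (h ω h1).1 h2) (pr_mono' fun ω h1 h2 => (h ω h1).2 h2)

theorem pr_union_le (W : Finset Ed) (A B : Set (Set Ed)) : pr W (A ∪ B) ≤ pr W A + pr W B :=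
  Pr_union_le _ _

theorem pr_univ (W : Finset Ed) : pr W Set.univ = 1 := by
  unfold pr
  rw [← Pr_univ (α := W)]
  congr 1

theorem pr_compl (W : Finset Ed) (A : Set (Set Ed)) : pr W Aᶜ = 1 - pr W A := Pr_compl _

theorem harris_up {W : Finset Ed} {A B : Set (Set Ed)} (hA : IsUpperSet A) (hB : IsUpperSet B) :
    pr W A * pr W B ≤ pr W (A ∩ B) := by
  refine harris (A := {s : Finset W | cfg W s ∈ A}) (B := {s : Finset W | cfg W s ∈ B}) ?_ ?_
  · intro s t hst hs
    exact hA (cfg_mono hst) hs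
  · intro s t hst hs
    exact hB (cfg_mono hst) hs

theorem harris_lo {W : Finset Ed} {A B : Set (Set Ed)} (hA : IsLowerSet A) (hB : IsLowerSet B) :
    pr W A * pr W B ≤ pr W (A ∩ B) := by
  refine harris_lower (A := {s : Finset W | cfg W s ∈ A}) (B := {s : Finset W | cfg W s ∈ B}) ?_ ?_
  · intro s t hst hs
    exact hA (cfg_mono hst) hs
  · intro s t hst hs
    exact hB (cfg_mono hst) hs

/-- Harris for a finite intersection of decreasing events. -/
theorem harris_lo_list {W : Finset Ed} {ι : Type} [DecidableEq ι] (s : Finset ι) (A : ι → Set (Set Ed))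
    {c : ℝ} (hc : 0 ≤ c) (hA : ∀ i ∈ s, IsLowerSet (A i)) (hP : ∀ i ∈ s, c ≤ pr W (A i)) :
    c ^ s.card ≤ pr W (⋂ i ∈ s, A i) ∧ IsLowerSet (⋂ i ∈ s, A i) := by
  induction s using Finset.induction_on with
  | empty => simp [pr_univ, isLowerSet_univ]
  | insert a s ha ih =>
    obtain ⟨h1, h2⟩ := ih (fun i hi => hA i (Finset.mem_insert_of_mem hi))
      (fun i hi => hP i (Finset.mem_insert_of_mem hi))
    have hAa := hA a (Finset.mem_insert_self a s)
    rw [Finset.set_biInter_insert, Finset.card_insert_of_notMem ha]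
    refine ⟨?_, hAa.inter h2⟩
    calc c ^ (s.card + 1) = c * c ^ s.card := by ring
      _ ≤ pr W (A a) * pr W (⋂ i ∈ s, A i) :=
        mul_le_mul (hP a (Finset.mem_insert_self a s)) h1 (by positivity) (pr_nonneg _ _)
      _ ≤ _ := harris_lo hAa h2

/-- Transport along an injection of edges. -/
theorem pr_pull {W W' : Finset Ed} (σ : Ed → Ed) (hinj : Function.Injective σ)
    (hW : ∀ e ∈ W, σ e ∈ W') (A : Set (Set Ed)) :
    pr W' {ω | σ ⁻¹' ω ∩ W ∈ A} = pr W A := by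
  unfold pr
  let ι : W → W' := fun e => ⟨σ e.1, hW _ e.2⟩
  have hι : Function.Injective ι := by
    intro x y h
    have := congrArg Subtype.val h
    exact Subtype.ext (hinj this)
  rw [← Pr_restr hι]
  congr 1
  ext s
  have : σ ⁻¹' (cfg W' s) ∩ W = cfg W (restr ι s) := by
    ext e
    simp only [Set.mem_inter_iff, Set.mem_preimage, mem_cfg, mem_coe, mem_restr]
    constructor
    · rintro ⟨⟨_, h2⟩, h3⟩
      exact ⟨h3, h2⟩
    · rintro ⟨h3, h2⟩
      exact ⟨⟨hW _ h3, h2⟩, h3⟩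
  simp only [Set.mem_preimage]
  change σ ⁻¹' (cfg W' s) ∩ W ∈ A ↔ cfg W (restr ι s) ∈ A
  rw [this]

/-- The event depends only on the edges of `W`. -/
def Loc (W : Finset Ed) (A : Set (Set Ed)) : Prop := ∀ ω, ω ∈ A ↔ ω ∩ W ∈ A

theorem pr_window {W W' : Finset Ed} (h : W ⊆ W') {A : Set (Set Ed)} (hA : Loc W A) :
    pr W' A = pr W A := by
  rw [← pr_pull (W := W) (W' := W') id Function.injective_id (fun e he => h he) A]
  refine pr_congr fun ω _ => ?_
  exact hA ω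

/-- Exchange of open and closed. -/
theorem pr_flip (W : Finset Ed) (A : Set (Set Ed)) :
    pr W {ω | (W : Set Ed) \ ω ∈ A} = pr W A := by
  unfold pr
  rw [← Pr_equiv (complEquiv (α := W)) {s | cfg W s ∈ A}]
  congr 1
  ext s
  have : (W : Set Ed) \ cfg W s = cfg W (complEquiv s) := by
    ext e
    simp only [Set.mem_sdiff, mem_coe, mem_cfg, not_exists, complEquiv, Equiv.coe_fn_mk,
      mem_compl]
    constructor
    · rintro ⟨h1, h2⟩; exact ⟨h1, h2 h1⟩
    · rintro ⟨h1, h2⟩; exact ⟨h1, fun _ => h2⟩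
  simp only [Set.mem_preimage]
  change (W : Set Ed) \ cfg W s ∈ A ↔ cfg W (complEquiv s) ∈ A
  rw [this]

/-- Resampling off a stopping set. -/
theorem pr_mix {W : Finset Ed} (S : Set Ed → Set Ed)
    (hS : ∀ ω ⊆ (W : Set Ed), ∀ ω' ⊆ (W : Set Ed), (∀ e ∈ S ω, e ∈ W → (e ∈ ω ↔ e ∈ ω')) →
      S ω' = S ω)
    (A : Set (Set Ed)) (B : Set Ed → Set (Set Ed)) (X : Set (Set Ed)) {c : ℝ}
    (hB : ∀ ω ∈ A, ω ⊆ (W : Set Ed) → c ≤ pr W (B ω))
    (hX : ∀ ω ∈ A, ω ⊆ (W : Set Ed) → ∀ ξ ∈ B ω, ξ ⊆ (W : Set Ed) →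
      (ω ∩ S ω) ∪ (ξ \ S ω) ∈ X) :
    c * pr W A ≤ pr W X := by
  classical
  unfold pr
  let T : Finset W → Finset W := fun s => univ.filter fun e => (e : Ed) ∈ S (cfg W s)
  have hmemT : ∀ s (e : W), e ∈ T s ↔ (e : Ed) ∈ S (cfg W s) := fun s e => by simp [T]
  have hT : IsStop T := by
    intro s t h
    have h1 : S (cfg W t) = S (cfg W s) := by
      refine hS _ cfg_sub _ cfg_sub fun e he heW => ?_
      have h2 := h ⟨e, heW⟩ ((hmemT s _).2 he)
      simp only [mem_cfg]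
      constructor
      · rintro ⟨_, h3⟩; exact ⟨heW, h2.1 h3⟩
      · rintro ⟨_, h3⟩; exact ⟨heW, h2.2 h3⟩
    simp only [T, h1]
  refine Pr_mix_ge T hT {s : Finset W | cfg W s ∈ A} (fun s => {t : Finset W | cfg W t ∈ B (cfg W s)})
    {s : Finset W | cfg W s ∈ X} ?_ ?_
  · intro s hs
    exact hB _ hs cfg_sub
  · intro s hs t ht
    have h1 := hX _ hs cfg_sub _ ht cfg_sub
    have h2 : cfg W (mix T s t) = (cfg W s ∩ S (cfg W s)) ∪ (cfg W t \ S (cfg W s)) := by
      ext e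
      simp only [Set.mem_union, Set.mem_inter_iff, Set.mem_sdiff, mem_cfg]
      by_cases heW : e ∈ W
      · by_cases heS : e ∈ S (cfg W s)
        · have := mem_mix_of_mem (S := T) (ω := s) (ξ := t) (e := ⟨e, heW⟩) ((hmemT s _).2 heS)
          simp [heW, heS, this]
        · have := mem_mix_of_notMem (S := T) (ω := s) (ξ := t) (e := ⟨e, heW⟩)
            (fun h => heS ((hmemT s _).1 h))
          simp [heW, heS, this]
      · simp [heW]
    change cfg W (mix T s t) ∈ X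
    rw [h2]
    exact h1

/-! ### Crossing probabilities -/

/-- The edges of a rectangle. -/
noncomputable def EW (a b c d : ℤ) : Finset Ed :=
  (Icc a b ×ˢ Icc c d ×ˢ (univ : Finset Bool)).filter fun e =>
    (eb e).1 ≤ b ∧ (eb e).2 ≤ d

theorem mem_EW {a b c d : ℤ} {e : Ed} :
    e ∈ EW a b c d ↔ ea e ∈ Rect a b c d ∧ eb e ∈ Rect a b c d := by
  obtain ⟨x, y, t⟩ := e
  simp only [EW, mem_filter, mem_product, mem_Icc, mem_univ, and_true, mem_Rect, ea_mk]
  cases t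
  · simp only [eb_false]; omega
  · simp only [eb_true]; omega

theorem Step_inter {ω : Set Ed} {a b c d a' b' c' d' : ℤ} {u v : ℤ × ℤ}
    (hR : Rect a' b' c' d' ⊆ Rect a b c d) :
    Step ω (Rect a' b' c' d') u v ↔ Step (ω ∩ EW a b c d) (Rect a' b' c' d') u v := by
  constructor
  · rintro ⟨hu, hv, e, he, hh⟩
    refine ⟨hu, hv, e, ⟨he, ?_⟩, hh⟩
    rw [mem_coe, mem_EW]
    rcases hh with ⟨h1, h2⟩ | ⟨h1, h2⟩
    · rw [h1, h2]; exact ⟨hR hu, hR hv⟩
    · rw [h1, h2]; exact ⟨hR hv, hR hu⟩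
  · intro h
    exact h.mono Set.inter_subset_left le_rfl

theorem Conn_inter {ω : Set Ed} {a b c d a' b' c' d' : ℤ} {u v : ℤ × ℤ}
    (hR : Rect a' b' c' d' ⊆ Rect a b c d) :
    Conn ω (Rect a' b' c' d') u v ↔ Conn (ω ∩ EW a b c d) (Rect a' b' c' d') u v := by
  have : Step ω (Rect a' b' c' d') = Step (ω ∩ EW a b c d) (Rect a' b' c' d') := by
    ext u v; exact Step_inter hR
  unfold Conn
  rw [this]

theorem HC_loc (a b c d : ℤ) : Loc (EW a b c d) {ω | HC a b c d ω} := by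
  intro ω
  constructor
  · rintro ⟨y, y', h1, h2, h3, h4, h5⟩
    exact ⟨y, y', h1, h2, h3, h4, (Conn_inter (Set.Subset.refl _)).1 h5⟩
  · rintro ⟨y, y', h1, h2, h3, h4, h5⟩
    exact ⟨y, y', h1, h2, h3, h4, (Conn_inter (Set.Subset.refl _)).2 h5⟩

theorem VC_loc (a b c d : ℤ) : Loc (EW a b c d) {ω | VC a b c d ω} := by
  intro ω
  constructor
  · rintro ⟨y, y', h1, h2, h3, h4, h5⟩
    exact ⟨y, y', h1, h2, h3, h4, (Conn_inter (Set.Subset.refl _)).1 h5⟩
  · rintro ⟨y, y', h1, h2, h3, h4, h5⟩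
    exact ⟨y, y', h1, h2, h3, h4, (Conn_inter (Set.Subset.refl _)).2 h5⟩

theorem HC_mono (a b c d : ℤ) : IsUpperSet {ω | HC a b c d ω} := by
  rintro ω ω' h ⟨y, y', h1, h2, h3, h4, h5⟩
  exact ⟨y, y', h1, h2, h3, h4, h5.mono h le_rfl⟩

theorem VC_mono (a b c d : ℤ) : IsUpperSet {ω | VC a b c d ω} := by
  rintro ω ω' h ⟨y, y', h1, h2, h3, h4, h5⟩
  exact ⟨y, y', h1, h2, h3, h4, h5.mono h le_rfl⟩

/-- A map of vertices and edges which respects ends. -/
structure LMap where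
  v : ℤ × ℤ → ℤ × ℤ
  e : Ed → Ed
  inj : Function.Injective e
  ends : ∀ f, (ea (e f) = v (ea f) ∧ eb (e f) = v (eb f)) ∨ (ea (e f) = v (eb f) ∧ eb (e f) = v (ea f))

theorem LMap.conn (L : LMap) {ω : Set Ed} {R R' : Set (ℤ × ℤ)} (hR : ∀ w ∈ R, L.v w ∈ R')
    {u w : ℤ × ℤ} (h : Conn (L.e ⁻¹' ω) R u w) : Conn ω R' (L.v u) (L.v w) := by
  unfold Conn at *
  induction h with
  | refl => exact .refl
  | tail _ h2 ih =>
    obtain ⟨hu, hw, f, hf, hh⟩ := h2
    refine ih.tail ⟨hR _ hu, hR _ hw, L.e f, hf, ?_⟩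
    rcases L.ends f with ⟨h3, h4⟩ | ⟨h3, h4⟩ <;> rcases hh with ⟨h5, h6⟩ | ⟨h5, h6⟩ <;>
      rw [h3, h4, h5, h6] <;> simp

/-- Translations. -/
def shiftL (s t : ℤ) : LMap where
  v w := (w.1 + s, w.2 + t)
  e f := (f.1 + s, f.2.1 + t, f.2.2)
  inj := by
    rintro ⟨x, y, b⟩ ⟨x', y', b'⟩ h
    simp only [Prod.mk.injEq] at h ⊢
    exact ⟨by omega, by omega, h.2.2⟩
  ends := by
    rintro ⟨x, y, b⟩
    cases b
    · left; simp only [ea_mk, eb_false, Prod.mk.injEq]; refine ⟨trivial, by omega, trivial⟩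
    · left; simp only [ea_mk, eb_true, Prod.mk.injEq]; refine ⟨trivial, trivial, by omega⟩

/-- The transposition. -/
def trL : LMap where
  v w := (w.2, w.1)
  e f := (f.2.1, f.1, !f.2.2)
  inj := by
    rintro ⟨x, y, b⟩ ⟨x', y', b'⟩ h
    simp only [Prod.mk.injEq] at h ⊢
    refine ⟨h.2.1, h.1, ?_⟩
    revert h
    cases b <;> cases b' <;> simp
  ends := by
    rintro ⟨x, y, b⟩
    cases b
    · left; simp
    · left; simp

/-- The reflection `x ↦ s - x`. -/
def rxL (s : ℤ) : LMap where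
  v w := (s - w.1, w.2)
  e f := if f.2.2 then (s - f.1, f.2.1, true) else (s - f.1 - 1, f.2.1, false)
  inj := by
    rintro ⟨x, y, b⟩ ⟨x', y', b'⟩ h
    cases b <;> cases b' <;> simp at h ⊢ <;> omega
  ends := by
    rintro ⟨x, y, b⟩
    cases b
    · right; simp only [Bool.false_eq_true, if_false, ea_mk, eb_false, Prod.mk.injEq]
      refine ⟨⟨by omega, trivial⟩, by omega, trivial⟩
    · left; simp

/-- The reflection `y ↦ s - y`. -/
def ryL (s : ℤ) : LMap where
  v w := (w.1, s - w.2)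
  e f := if f.2.2 then (f.1, s - f.2.1 - 1, true) else (f.1, s - f.2.1, false)
  inj := by
    rintro ⟨x, y, b⟩ ⟨x', y', b'⟩ h
    cases b <;> cases b' <;> simp at h ⊢ <;> omega
  ends := by
    rintro ⟨x, y, b⟩
    cases b
    · left; simp
    · right; simp only [if_true, ea_mk, eb_true, Prod.mk.injEq]
      refine ⟨⟨trivial, by omega⟩, trivial, by omega⟩

/-- Comparison of probabilities under a lattice map. -/
theorem pr_le_map (L : LMap) {W W' : Finset Ed} (hW : ∀ e ∈ W, L.e e ∈ W')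
    {A B : Set (Set Ed)} (h : ∀ ω : Set Ed, (L.e ⁻¹' ω) ∩ W ∈ A → ω ∈ B) :
    pr W A ≤ pr W' B := by
  rw [← pr_pull L.e L.inj hW A]
  exact pr_mono fun ω hω => h ω hω

end Pool.Agent.MP_6bd702.H23

end Parth23Prob

section Parth23Cross

/-!
Crossing probabilities: the box crossing property of Russo, Seymour and Welsh, following
Bollobas and Riordan.
-/

set_option autoImplicit false

namespace Pool.Agent.MP_6bd702.H23

open Finset

/-- The probability of the left-right crossing of the rectangle of width `w` and height `t`. -/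
noncomputable def hp (w t : ℤ) : ℝ := pr (EW 0 w 0 t) {ω | HC 0 w 0 t ω}

theorem hp_nonneg (w t : ℤ) : 0 ≤ hp w t := pr_nonneg _ _

/-- Removing closed edges. -/
theorem pr_anti {W W' : Finset Ed} (h : W ⊆ W') {A : Set (Set Ed)} (hA : IsLowerSet A) :
    pr W' A ≤ pr W A := by
  rw [← pr_pull (W := W) (W' := W') id Function.injective_id (fun e he => h he) A]
  refine pr_mono' fun ω _ h1 => ?_
  exact hA Set.inter_subset_left h1

theorem pr_up {W W' : Finset Ed} (h : W ⊆ W') {A : Set (Set Ed)} (hA : IsUpperSet A) :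
    pr W A ≤ pr W' A := by
  rw [← pr_pull (W := W) (W' := W') id Function.injective_id (fun e he => h he) A]
  refine pr_mono' fun ω _ h1 => ?_
  exact hA Set.inter_subset_left h1

theorem EW_sub {a b c d a' b' c' d' : ℤ} (h1 : a' ≤ a) (h2 : b ≤ b') (h3 : c' ≤ c) (h4 : d ≤ d') :
    EW a b c d ⊆ EW a' b' c' d' := by
  intro e he
  rw [mem_EW] at he ⊢
  simp only [mem_Rect] at he ⊢
  omega

/-- Translation invariance. -/
theorem pr_hc (a b c d : ℤ) : pr (EW a b c d) {ω | HC a b c d ω} = hp (b - a) (d - c) := by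
  unfold hp
  apply le_antisymm
  · refine pr_le_map (shiftL (-a) (-c)) ?_ ?_
    · intro e he
      rw [mem_EW] at he ⊢
      obtain ⟨x, y, t⟩ := e
      cases t <;> simp only [mem_Rect, shiftL, ea_mk, eb_true, eb_false] at he ⊢ <;> omega
    · rintro ω ⟨y, y', h1, h2, h3, h4, h5⟩
      have h6 := LMap.conn (shiftL (-a) (-c)) (R' := Rect 0 (b - a) 0 (d - c)) (ω := ω) ?_
        (h5.mono Set.inter_subset_left le_rfl)
      · refine ⟨y - c, y' - c, by omega, by omega, by omega, by omega, ?_⟩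
        simpa [shiftL, sub_eq_add_neg] using h6
      · intro w hw
        simp only [mem_Rect, shiftL] at hw ⊢
        omega
  · refine pr_le_map (shiftL a c) ?_ ?_
    · intro e he
      rw [mem_EW] at he ⊢
      obtain ⟨x, y, t⟩ := e
      cases t <;> simp only [mem_Rect, shiftL, ea_mk, eb_true, eb_false] at he ⊢ <;> omega
    · rintro ω ⟨y, y', h1, h2, h3, h4, h5⟩
      have h6 := LMap.conn (shiftL a c) (R' := Rect a b c d) (ω := ω) ?_
        (h5.mono Set.inter_subset_left le_rfl)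
      · refine ⟨y + c, y' + c, by omega, by omega, by omega, by omega, ?_⟩
        simpa [shiftL] using h6
      · intro w hw
        simp only [mem_Rect, shiftL] at hw ⊢
        omega

/-- Transposition. -/
theorem pr_vc (a b c d : ℤ) : pr (EW a b c d) {ω | VC a b c d ω} = hp (d - c) (b - a) := by
  rw [← pr_hc c d a b]
  apply le_antisymm
  · refine pr_le_map trL ?_ ?_
    · intro e he
      rw [mem_EW] at he ⊢
      obtain ⟨x, y, t⟩ := e
      cases t <;> simp [mem_Rect, trL] at he ⊢ <;> omega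
    · rintro ω ⟨y, y', h1, h2, h3, h4, h5⟩
      have h6 := LMap.conn trL (R' := Rect c d a b) (ω := ω) ?_
        (h5.mono Set.inter_subset_left le_rfl)
      · exact ⟨y, y', by omega, by omega, by omega, by omega, h6⟩
      · intro w hw
        simp only [mem_Rect, trL] at hw ⊢
        omega
  · refine pr_le_map trL ?_ ?_
    · intro e he
      rw [mem_EW] at he ⊢
      obtain ⟨x, y, t⟩ := e
      cases t <;> simp [mem_Rect, trL] at he ⊢ <;> omega
    · rintro ω ⟨y, y', h1, h2, h3, h4, h5⟩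
      have h6 := LMap.conn trL (R' := Rect a b c d) (ω := ω) ?_
        (h5.mono Set.inter_subset_left le_rfl)
      · exact ⟨y, y', by omega, by omega, by omega, by omega, h6⟩
      · intro w hw
        simp only [mem_Rect, trL] at hw ⊢
        omega

/-- The crossing in a larger window. -/
theorem pr_hc_window {W : Finset Ed} {a b c d : ℤ} (h : EW a b c d ⊆ W) :
    pr W {ω | HC a b c d ω} = hp (b - a) (d - c) := by
  rw [pr_window h (HC_loc a b c d), pr_hc]

theorem pr_vc_window {W : Finset Ed} {a b c d : ℤ} (h : EW a b c d ⊆ W) :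
    pr W {ω | VC a b c d ω} = hp (d - c) (b - a) := by
  rw [pr_window h (VC_loc a b c d), pr_vc]

/-- A crossing of a rectangle crosses every vertical strip. -/
theorem hc_strip {ω : Set Ed} {a b c d a' b' : ℤ} (h1 : a ≤ a') (h2 : a' < b') (h3 : b' ≤ b)
    {u v : ℤ × ℤ} (hu : u.1 ≤ a') (huR : u ∈ Rect a b c d) (hv : b' ≤ v.1)
    (h : Conn ω (Rect a b c d) u v) : HC a' b' c d ω := by
  have key : v.1 ≤ a' ∨ (v ∈ Rect a' b' c d ∧ ∃ y, c ≤ y ∧ y ≤ d ∧
      Conn ω (Rect a' b' c d) (a', y) v) ∨ HC a' b' c d ω := by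
    unfold Conn at h
    clear hv
    induction h with
    | refl => exact Or.inl hu
    | @tail w w' hw1 hw2 ih =>
      obtain ⟨hwR, hwR', e, he, hh⟩ := hw2
      rw [mem_Rect] at hwR hwR'
      have hd : w'.1 ≤ w.1 + 1 ∧ w.1 ≤ w'.1 + 1 := by
        obtain ⟨ex, ey, t⟩ := e
        cases t
        · simp only [ea_mk, eb_false] at hh
          rcases hh with ⟨h5, h6⟩ | ⟨h5, h6⟩ <;> rw [← h5, ← h6] <;> simp only <;> omega
        · simp only [ea_mk, eb_true] at hh
          rcases hh with ⟨h5, h6⟩ | ⟨h5, h6⟩ <;> rw [← h5, ← h6] <;> simp only <;> omega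
      rcases ih with h4 | ⟨h4, y, h5, h6, h7⟩ | h4
      · by_cases h5 : w'.1 ≤ a'
        · exact Or.inl h5
        · right; left
          have hw : w ∈ Rect a' b' c d := ⟨by omega, by omega, hwR.2.2.1, hwR.2.2.2⟩
          have hw' : w' ∈ Rect a' b' c d := ⟨by omega, by omega, hwR'.2.2.1, hwR'.2.2.2⟩
          refine ⟨hw', w.2, hwR.2.2.1, hwR.2.2.2, ?_⟩
          have : (a', w.2) = w := by
            ext
            · simp only; omega
            · rfl
          rw [this]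
          exact Relation.ReflTransGen.single ⟨hw, hw', e, he, hh⟩
      · rw [mem_Rect] at h4
        by_cases h8 : w'.1 ≤ a'
        · exact Or.inl h8
        · right
          by_cases h9 : w'.1 ≤ b'
          · left
            have hw' : w' ∈ Rect a' b' c d := ⟨by omega, by omega, hwR'.2.2.1, hwR'.2.2.2⟩
            exact ⟨hw', y, h5, h6, h7.tail ⟨h4, hw', e, he, hh⟩⟩
          · right
            have : (b', w.2) = w := by
              ext
              · simp only; omega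
              · rfl
            refine ⟨y, w.2, h5, h6, h4.2.2.1, h4.2.2.2, ?_⟩
            rw [this]
            exact h7
      · exact Or.inr (Or.inr h4)
  rcases key with h4 | ⟨h4, y, h5, h6, h7⟩ | h4
  · omega
  · rw [mem_Rect] at h4
    have : (b', v.2) = v := by
      ext
      · simp only; omega
      · rfl
    refine ⟨y, v.2, h5, h6, h4.2.2.1, h4.2.2.2, ?_⟩
    rw [this]
    exact h7
  · exact h4

/-- Monotonicity of the crossing probabilities. -/
theorem hp_mono {w t w' t' : ℤ} (h0 : 0 < w') (h1 : w' ≤ w) (h2 : t ≤ t') : hp w t ≤ hp w' t' := by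
  have e1 : hp w' t' = pr (EW 0 w 0 t') {ω | HC 0 w' 0 t' ω} := by
    rw [pr_hc_window (EW_sub le_rfl h1 le_rfl le_rfl)]
    simp
  have e2 : hp w t = pr (EW 0 w 0 t') {ω | HC 0 w 0 t ω} := by
    rw [pr_hc_window (EW_sub le_rfl le_rfl le_rfl h2)]
    simp
  rw [e1, e2]
  refine pr_mono ?_
  rintro ω ⟨y, y', h3, h4, h5, h6, h7⟩
  have h8 : Conn ω (Rect 0 w 0 t') (0, y) (w, y') := h7.mono le_rfl (by
    intro v hv
    simp only [mem_Rect] at hv ⊢
    omega)
  refine hc_strip le_rfl h0 h1 (u := (0, y)) (v := (w, y')) le_rfl ?_ h1 h8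
  simp only [mem_Rect]
  omega

/-- Probabilities of dual events. -/
theorem pr_dual {W W' : Finset Ed} (hW : ∀ e ∈ W, cr e ∈ W') {A : Set (Set Ed)} (hA : Loc W A) :
    pr W' {ω | du ω ∈ A} = pr W A := by
  have hinj : Function.Injective cr := fun x y h => by rw [← dc_cr x, ← dc_cr y, h]
  rw [← pr_flip W' {ω | du ω ∈ A}, ← pr_pull cr hinj hW A]
  refine pr_congr fun ω _ => ?_
  simp only [Set.mem_setOf_eq]
  rw [hA (du (↑W' \ ω))]
  have : du (↑W' \ ω) ∩ ↑W = cr ⁻¹' ω ∩ ↑W := by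
    ext e
    simp only [Set.mem_inter_iff, mem_du, Set.mem_preimage, Set.mem_sdiff, mem_coe, not_and,
      not_not]
    constructor
    · rintro ⟨h1, h2⟩; exact ⟨h1 (hW e h2), h2⟩
    · rintro ⟨h1, h2⟩; exact ⟨fun _ => h1, h2⟩
  rw [this]

theorem du_anti {ω ω' : Set Ed} (h : ω ⊆ ω') : du ω' ⊆ du ω := fun _ h1 h2 => h1 (h h2)

theorem du_lower {A : Set (Set Ed)} (hA : IsUpperSet A) : IsLowerSet {ω | du ω ∈ A} :=
  fun _ _ h h1 => hA (du_anti h) h1

/-- Dual events in an arbitrary window. -/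
theorem pr_dual_ge (W : Finset Ed) {W' : Finset Ed} {A : Set (Set Ed)} (hA : Loc W' A)
    (hA' : IsUpperSet A) : pr W' A ≤ pr W {ω | du ω ∈ A} := by
  rw [← pr_dual (W' := W ∪ W'.image cr) (fun e he => mem_union_right _ (mem_image_of_mem _ he)) hA]
  exact pr_anti subset_union_left (du_lower hA')

/-- Self-duality. -/
theorem hp_dual {w t : ℤ} (hw : 0 < w) (ht : 0 ≤ t) : 1 ≤ hp w t + hp (t + 1) (w - 1) := by
  have h1 : ∀ ω : Set Ed, VC 0 t 0 w ω ∨ HC (0 - 1) t 0 (w - 1) (du ω) :=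
    fun ω => dual_or (by omega) hw ω
  set W := EW 0 t 0 w ∪ (EW (0 - 1) t 0 (w - 1)).image cr with hW
  have h2 : pr W {ω | VC 0 t 0 w ω} = hp w t := by
    rw [pr_vc_window subset_union_left]; simp
  have h3 : pr W {ω | du ω ∈ {ω | HC (0 - 1) t 0 (w - 1) ω}} = hp (t + 1) (w - 1) := by
    rw [pr_dual (W := EW (0 - 1) t 0 (w - 1)) (fun e he => mem_union_right _ (mem_image_of_mem _ he))
      (HC_loc _ _ _ _), pr_hc]
    congr 1 <;> ring
  rw [← h2, ← h3, ← pr_univ W]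
  refine le_trans (pr_mono ?_) (pr_union_le _ _ _)
  intro ω _
  exact h1 ω

theorem hp_half {n : ℤ} (hn : 0 ≤ n) : 1 / 2 ≤ hp (n + 1) n := by
  have := hp_dual (w := n + 1) (t := n) (by omega) hn
  rw [add_sub_cancel_right] at this
  linarith

theorem hp_square {n : ℤ} (hn : 0 < n) : 1 / 2 ≤ hp n n :=
  (hp_half hn.le).trans (hp_mono hn (by omega) le_rfl)

end Pool.Agent.MP_6bd702.H23

end Parth23Cross

section Parth23Rsw

/-!
The box crossing property.
-/

set_option autoImplicit false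

namespace Pool.Agent.MP_6bd702.H23

open Finset

/-! ### The event of Bollobas and Riordan -/

/-- A bottom-top crossing of the square `[0, n]²` which is joined in `[0, m] × [0, 2n]` to the
right side. -/
def XR (n m : ℤ) : Set (Set Ed) :=
  {ω | ∃ x x' y, 0 ≤ x ∧ x ≤ n ∧ 0 ≤ x' ∧ x' ≤ n ∧ 0 ≤ y ∧ y ≤ 2 * n ∧
    Conn ω (Rect 0 n 0 n) (x, 0) (x', n) ∧ Conn ω (Rect 0 m 0 (2 * n)) (x, 0) (m, y)}

theorem XR_upper (n m : ℤ) : IsUpperSet (XR n m) := by
  rintro ω ω' h ⟨x, x', y, h1, h2, h3, h4, h5, h6, h7, h8⟩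
  exact ⟨x, x', y, h1, h2, h3, h4, h5, h6, h7.mono h le_rfl, h8.mono h le_rfl⟩

/-- The event that a lower contact point is joined to the right side off the explored region. -/
def Blow (n m : ℤ) (U : Set (ℤ × ℤ)) : Set (Set Ed) :=
  {ξ | ∃ v ∈ Rect 0 m 0 (2 * n), Touch U v ∧ ∃ y,
    Conn (ξ ∩ Av n U) (Rect 0 m 0 (2 * n)) v (m, y)}

/-- The mirror image. -/
def Bup (n m : ℤ) (U : Set (ℤ × ℤ)) : Set (Set Ed) :=
  {ξ | ∃ v ∈ Rect 0 m 0 (2 * n), Touch U (v.1, 2 * n - v.2) ∧ ∃ y,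
    Conn (ξ ∩ Av n U) (Rect 0 m 0 (2 * n)) v (m, y)}

theorem Av_ryL {n : ℤ} {U : Set (ℤ × ℤ)} {e : Ed} (he : e ∈ Av n U) :
    (ryL (2 * n)).e e ∈ Av n U := by
  obtain ⟨x, y, t⟩ := e
  obtain ⟨h1, h2, h3, h4⟩ := he
  cases t with
  | true =>
    simp only [f1_true, f2_mk, rf] at h1 h2 h3 h4
    simp only [Av, ryL, if_true, f1_true, f2_mk, rf, Set.mem_setOf_eq]
    refine ⟨?_, ?_, ?_, ?_⟩
    · convert h3 using 2; ring_nf
    · convert h4 using 2; ring_nf
    · convert h1 using 2; ring_nf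
    · convert h2 using 2; ring_nf
  | false =>
    simp only [f1_false, f2_mk, rf] at h1 h2 h3 h4
    simp only [Av, ryL, Bool.false_eq_true, if_false, f1_false, f2_mk, rf, Set.mem_setOf_eq]
    refine ⟨?_, ?_, ?_, ?_⟩
    · convert h4 using 2; ring_nf
    · convert h3 using 2; ring_nf
    · convert h2 using 2; ring_nf
    · convert h1 using 2; ring_nf

theorem pr_Bup_le (n m : ℤ) (U : Set (ℤ × ℤ)) :
    pr (EW 0 m 0 (2 * n)) (Bup n m U) ≤ pr (EW 0 m 0 (2 * n)) (Blow n m U) := by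
  refine pr_le_map (ryL (2 * n)) ?_ ?_
  · intro e he
    rw [mem_EW] at he ⊢
    obtain ⟨x, y, t⟩ := e
    cases t <;> simp [mem_Rect, ryL] at he ⊢ <;> omega
  · rintro ω ⟨v, hv, ht, y, h⟩
    refine ⟨(ryL (2 * n)).v v, ?_, ht, 2 * n - y, ?_⟩
    · simp only [mem_Rect, ryL] at hv ⊢
      omega
    · refine LMap.conn (ryL (2 * n)) (R := Rect 0 m 0 (2 * n)) ?_ (h.mono ?_ le_rfl)
      · intro w hw
        simp only [mem_Rect, ryL] at hw ⊢
        omega
      · rintro e ⟨⟨h1, _⟩, h2⟩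
        exact ⟨h1, Av_ryL h2⟩

/-- The ends of an edge. -/
theorem ends_cases {e : Ed} {u u' : ℤ × ℤ}
    (hh : (ea e = u ∧ eb e = u') ∨ (ea e = u' ∧ eb e = u)) :
    (e.2.2 = true ∧ u'.1 = e.1 ∧ (u'.2 = e.2.1 ∨ u'.2 = e.2.1 + 1)) ∨
      (e.2.2 = false ∧ u'.2 = e.2.1 ∧ (u'.1 = e.1 ∨ u'.1 = e.1 + 1)) := by
  obtain ⟨x, y, t⟩ := e
  cases t with
  | true =>
    simp only [ea_mk, eb_true] at hh
    rcases hh with ⟨h1, h2⟩ | ⟨h1, h2⟩
    · left; rw [← h2]; simp
    · left; rw [← h1]; simp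
  | false =>
    simp only [ea_mk, eb_false] at hh
    rcases hh with ⟨h1, h2⟩ | ⟨h1, h2⟩
    · right; rw [← h2]; simp
    · right; rw [← h1]; simp

/-- A face adjacent to an edge touches its ends. -/
theorem touch_of_face {U : Set (ℤ × ℤ)} {e : Ed} {u u' : ℤ × ℤ}
    (hh : (ea e = u ∧ eb e = u') ∨ (ea e = u' ∧ eb e = u)) (h : f1 e ∈ U ∨ f2 e ∈ U) :
    Touch U u' := by
  have h0 := ends_cases hh
  obtain ⟨x, y, t⟩ := e
  cases t with
  | true =>
    simp only [f1_true, f2_mk] at h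
    simp only [true_and, reduceCtorEq, false_and, or_false] at h0
    rcases h with h | h
    · exact ⟨_, _, by omega, by omega, h⟩
    · exact ⟨_, _, by omega, by omega, h⟩
  | false =>
    simp only [f1_false, f2_mk] at h
    simp only [true_and, reduceCtorEq, false_and, false_or] at h0
    rcases h with h | h
    · exact ⟨_, _, by omega, by omega, h⟩
    · exact ⟨_, _, by omega, by omega, h⟩

theorem touch_of_face' {n : ℤ} {U : Set (ℤ × ℤ)} {e : Ed} {u u' : ℤ × ℤ}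
    (hh : (ea e = u ∧ eb e = u') ∨ (ea e = u' ∧ eb e = u)) (h : rf n (f1 e) ∈ U ∨ rf n (f2 e) ∈ U) :
    Touch U (u'.1, 2 * n - u'.2) := by
  have h0 := ends_cases hh
  obtain ⟨x, y, t⟩ := e
  cases t with
  | true =>
    simp only [f1_true, f2_mk, rf] at h
    simp only [true_and, reduceCtorEq, false_and, or_false] at h0
    rcases h with h | h
    · exact ⟨_, _, by simp only; omega, by simp only; omega, h⟩
    · exact ⟨_, _, by simp only; omega, by simp only; omega, h⟩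
  | false =>
    simp only [f1_false, f2_mk, rf] at h
    simp only [true_and, reduceCtorEq, false_and, false_or] at h0
    rcases h with h | h
    · exact ⟨_, _, by simp only; omega, by simp only; omega, h⟩
    · exact ⟨_, _, by simp only; omega, by simp only; omega, h⟩

/-- Last contact. -/
theorem last_contact {n m : ℤ} {U : Set (ℤ × ℤ)} {ξ : Set Ed} {u z : ℤ × ℤ}
    (hz : z ∈ Rect 0 m 0 (2 * n))
    (h : Conn ξ (Rect 0 m 0 (2 * n)) u z) :
    Conn (ξ ∩ Av n U) (Rect 0 m 0 (2 * n)) u z ∨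
      ∃ v ∈ Rect 0 m 0 (2 * n), (Touch U v ∨ Touch U (v.1, 2 * n - v.2)) ∧
        Conn (ξ ∩ Av n U) (Rect 0 m 0 (2 * n)) v z := by
  unfold Conn at h
  induction h using Relation.ReflTransGen.head_induction_on with
  | refl => exact Or.inl .refl
  | @head u u' h1 _ ih =>
    rcases ih with ih | ih
    · obtain ⟨hu, hu', e, he, hh⟩ := h1
      by_cases hA : e ∈ Av n U
      · exact Or.inl (Relation.ReflTransGen.head ⟨hu, hu', e, ⟨he, hA⟩, hh⟩ ih)
      · right
        refine ⟨u', hu', ?_, ih⟩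
        have h2 : (f1 e ∈ U ∨ f2 e ∈ U) ∨ (rf n (f1 e) ∈ U ∨ rf n (f2 e) ∈ U) := by
          by_contra hcon
          push Not at hcon
          exact hA ⟨hcon.1.1, hcon.1.2, hcon.2.1, hcon.2.2⟩
        rcases h2 with h2 | h2
        · exact Or.inl (touch_of_face hh h2)
        · exact Or.inr (touch_of_face' hh h2)
    · exact Or.inr ih

theorem hc_sub_B {n m : ℤ} (hn : 1 ≤ n) (hm : 0 ≤ m) {U : Set (ℤ × ℤ)}
    (hl : ∀ y, 0 ≤ y → y < n → (0 - 1, y) ∈ U) :
    {ω | HC 0 m 0 (2 * n) ω} ⊆ Blow n m U ∪ Bup n m U := by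
  rintro ξ ⟨y, y', h1, h2, h3, h4, h5⟩
  have hz : (m, y') ∈ Rect 0 m 0 (2 * n) := ⟨hm, le_rfl, h3, h4⟩
  have hu : (0, y) ∈ Rect 0 m 0 (2 * n) := ⟨le_rfl, hm, h1, h2⟩
  rcases last_contact (U := U) hz h5 with h6 | ⟨v, hv, h6 | h6, h7⟩
  · by_cases h7 : y ≤ n
    · left
      refine ⟨(0, y), hu, ?_, y', h6⟩
      by_cases h8 : y < n
      · exact ⟨0 - 1, y, Or.inl rfl, Or.inr rfl, hl y h1 h8⟩
      · exact ⟨0 - 1, y - 1, Or.inl rfl, Or.inl rfl, hl (y - 1) (by omega) (by omega)⟩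
    · right
      refine ⟨(0, y), hu, ?_, y', h6⟩
      exact ⟨0 - 1, 2 * n - y, Or.inl rfl, Or.inr rfl, hl (2 * n - y) (by omega) (by omega)⟩
  · exact Or.inl ⟨v, hv, h6, y', h7⟩
  · exact Or.inr ⟨v, hv, h6, y', h7⟩

theorem pr_Blow {n m : ℤ} (hn : 1 ≤ n) (hm : 0 ≤ m) {U : Set (ℤ × ℤ)}
    (hl : ∀ y, 0 ≤ y → y < n → (0 - 1, y) ∈ U) :
    hp m (2 * n) / 2 ≤ pr (EW 0 m 0 (2 * n)) (Blow n m U) := by
  have h1 : hp m (2 * n) ≤ _ := (pr_mono (hc_sub_B hn hm hl)).trans (pr_union_le _ _ _)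
  have h2 := pr_Bup_le n m U
  linarith

/-- The lemma of Bollobas and Riordan. -/
theorem pr_XR {n m : ℤ} (hn : 1 ≤ n) (hm : n < m) :
    hp m (2 * n) / 2 * hp n n ≤ pr (EW 0 m 0 (2 * n)) (XR n m) := by
  set W := EW 0 m 0 (2 * n) with hW
  set A : Set (Set Ed) := {ω | ∀ y, 0 ≤ y → y < n → (n, y) ∉ Ux 0 n 0 n ω} with hA
  have hPA : hp n n ≤ pr W A := by
    have h1 : pr W {ω | VC 0 n 0 n ω} = hp n n := by
      rw [pr_vc_window (EW_sub le_rfl hm.le le_rfl (by omega))]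
      simp
    rw [← h1]
    refine pr_mono fun ω hω y h2 h3 h4 => ?_
    exact block (by omega) (by omega) hω (hc_of_mem h2 h3 h4)
  have hES : ∀ e ∈ ES 0 n 0 n, e ∈ W := by
    intro e he
    have h1 := ES_sub he
    rw [hW, mem_EW]
    simp only [mem_Rect] at h1 ⊢
    omega
  let S : Set Ed → Set Ed := fun ω => {e | e ∈ ES 0 n 0 n ∧
    (f1 e ∈ Ux 0 n 0 n ω ∨ f2 e ∈ Ux 0 n 0 n ω)}
  have hS : ∀ ω ⊆ (W : Set Ed), ∀ ω' ⊆ (W : Set Ed),
      (∀ e ∈ S ω, e ∈ W → (e ∈ ω ↔ e ∈ ω')) → S ω' = S ω := by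
    intro ω _ ω' _ h
    have h1 : Ux 0 n 0 n ω' = Ux 0 n 0 n ω :=
      Ux_congr fun e he h2 => h e ⟨he, h2⟩ (hES e he)
    simp only [S, h1]
  have key := pr_mix (W := W) S hS A (fun ω => Blow n m (Ux 0 n 0 n ω)) (XR n m)
    (c := hp m (2 * n) / 2) ?_ ?_
  · refine le_trans ?_ key
    exact mul_le_mul_of_nonneg_left hPA (by have := hp_nonneg m (2 * n); linarith)
  · intro ω _ _
    exact pr_Blow hn (by omega) fun y h1 h2 => Ux_left h1 h2
  · rintro ω hω _ ξ ⟨v, hv, ht, y, hc⟩ _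
    obtain ⟨x, x', h1, h2, h3, h4, h5, h6⟩ := br_step hn hm hω hv ht hc
    have hZ : Zs 0 n 0 n (Ux 0 n 0 n ω) ⊆ (ω ∩ S ω) ∪ (ξ \ S ω) := by
      intro e he
      refine Or.inl ⟨Zs_sub he, he.1, ?_⟩
      have h7 := he.2
      tauto
    have hV : ξ ∩ Av n (Ux 0 n 0 n ω) ⊆ (ω ∩ S ω) ∪ (ξ \ S ω) := by
      rintro e ⟨he1, he2⟩
      refine Or.inr ⟨he1, fun he3 => ?_⟩
      rcases he3.2 with h8 | h8
      · exact he2.1 h8
      · exact he2.2.1 h8
    have hsub : Rect 0 n 0 n ⊆ Rect 0 m 0 (2 * n) := by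
      intro w hw
      simp only [mem_Rect] at hw ⊢
      omega
    have hy := hc.mem hv
    rw [mem_Rect] at hy
    simp only at hy
    refine ⟨x, x', y, h1, h2, h3, h4, hy.2.2.1, hy.2.2.2, ?_, ?_⟩
    · exact (h5.symm.trans h6).mono hZ le_rfl
    · exact (h5.symm.mono hZ hsub).trans (hc.mono hV le_rfl)

/-- The mirror event. -/
def XL (n m : ℤ) : Set (Set Ed) :=
  {ω | ∃ x x' y, 0 ≤ x ∧ x ≤ n ∧ 0 ≤ x' ∧ x' ≤ n ∧ 0 ≤ y ∧ y ≤ 2 * n ∧
    Conn ω (Rect 0 n 0 n) (x, 0) (x', n) ∧ Conn ω (Rect (n - m) n 0 (2 * n)) (x, 0) (n - m, y)}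

theorem XL_upper (n m : ℤ) : IsUpperSet (XL n m) := by
  rintro ω ω' h ⟨x, x', y, h1, h2, h3, h4, h5, h6, h7, h8⟩
  exact ⟨x, x', y, h1, h2, h3, h4, h5, h6, h7.mono h le_rfl, h8.mono h le_rfl⟩

theorem pr_XL {n m : ℤ} :
    pr (EW 0 m 0 (2 * n)) (XR n m) ≤ pr (EW (n - m) n 0 (2 * n)) (XL n m) := by
  refine pr_le_map (rxL n) ?_ ?_
  · intro e he
    rw [mem_EW] at he ⊢
    obtain ⟨x, y, t⟩ := e
    cases t <;> simp [mem_Rect, rxL] at he ⊢ <;> omega
  · rintro ω ⟨x, x', y, h1, h2, h3, h4, h5, h6, h7, h8⟩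
    refine ⟨n - x, n - x', y, by omega, by omega, by omega, by omega, h5, h6, ?_, ?_⟩
    · refine LMap.conn (rxL n) (R := Rect 0 n 0 n) ?_ (h7.mono Set.inter_subset_left le_rfl)
      intro w hw
      simp only [mem_Rect, rxL] at hw ⊢
      omega
    · refine LMap.conn (rxL n) (R := Rect 0 m 0 (2 * n)) ?_ (h8.mono Set.inter_subset_left le_rfl)
      intro w hw
      simp only [mem_Rect, rxL] at hw ⊢
      omega

theorem XX_hc {n m : ℤ} (hn : 1 ≤ n) (hm : n < m) {ω : Set Ed} (h1 : ω ∈ XR n m)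
    (h2 : ω ∈ XL n m) (h3 : HC 0 n 0 n ω) : HC (n - m) m 0 (2 * n) ω := by
  obtain ⟨x, x', y, hx1, hx2, hx3, hx4, hy1, hy2, hc, hR⟩ := h1
  obtain ⟨z, z', t, hz1, hz2, hz3, hz4, ht1, ht2, hc', hL⟩ := h2
  obtain ⟨a, a', ha1, ha2, ha3, ha4, hH⟩ := h3
  obtain ⟨w, hw1, hw2⟩ := hc_vc_meet (by omega) ⟨hx1, hx2⟩ hc ⟨ha1, ha2⟩ (by omega) hH
  obtain ⟨w', hw1', hw2'⟩ := hc_vc_meet (by omega) ⟨hz1, hz2⟩ hc' ⟨ha1, ha2⟩ (by omega) hH
  have s1 : Rect 0 n 0 n ⊆ Rect (n - m) m 0 (2 * n) := by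
    intro v hv; simp only [mem_Rect] at hv ⊢; omega
  have s2 : Rect 0 m 0 (2 * n) ⊆ Rect (n - m) m 0 (2 * n) := by
    intro v hv; simp only [mem_Rect] at hv ⊢; omega
  have s3 : Rect (n - m) n 0 (2 * n) ⊆ Rect (n - m) m 0 (2 * n) := by
    intro v hv; simp only [mem_Rect] at hv ⊢; omega
  refine ⟨t, y, ht1, ht2, hy1, hy2, ?_⟩
  have e1 : Conn ω (Rect (n - m) m 0 (2 * n)) (n - m, t) (z, 0) := hL.symm.mono le_rfl s3
  have e2 : Conn ω (Rect (n - m) m 0 (2 * n)) (z, 0) (x, 0) :=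
    (((hw2'.trans hw1'.symm).trans hw1).trans hw2.symm).mono le_rfl s1
  exact (e1.trans e2).trans (hR.mono le_rfl s2)

theorem hp_three {n : ℤ} (hn : 1 ≤ n) : 1 / 2 ^ 7 ≤ hp (3 * n) (2 * n) := by
  have hs : 1 / 2 ≤ hp n n := hp_square (by omega)
  have hs2 : 1 / 2 ≤ hp (2 * n) (2 * n) := hp_square (by omega)
  have hX : 1 / 2 ^ 3 ≤ pr (EW 0 (2 * n) 0 (2 * n)) (XR n (2 * n)) := by
    have h1 := pr_XR (m := 2 * n) hn (by omega)
    refine le_trans ?_ h1
    nlinarith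
  set W := EW (n - 2 * n) (2 * n) 0 (2 * n) with hW
  have hR : 1 / 2 ^ 3 ≤ pr W (XR n (2 * n)) := by
    have h1 : pr (EW 0 (2 * n) 0 (2 * n)) (XR n (2 * n)) ≤ pr W (XR n (2 * n)) :=
      pr_up (EW_sub (by omega) le_rfl le_rfl le_rfl) (XR_upper _ _)
    exact hX.trans h1
  have hL : 1 / 2 ^ 3 ≤ pr W (XL n (2 * n)) := by
    have h1 : pr (EW (n - 2 * n) n 0 (2 * n)) (XL n (2 * n)) ≤ pr W (XL n (2 * n)) :=
      pr_up (EW_sub le_rfl (by omega) le_rfl le_rfl) (XL_upper _ _)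
    exact (hX.trans pr_XL).trans h1
  have hH : 1 / 2 ≤ pr W {ω | HC 0 n 0 n ω} := by
    rw [pr_hc_window (EW_sub (by omega) (by omega) le_rfl (by omega))]
    simpa using hs
  have h1 := harris_up (W := W) (XR_upper n (2 * n)) (XL_upper n (2 * n))
  have h2 := harris_up (W := W) ((XR_upper n (2 * n)).inter (XL_upper n (2 * n)))
    (HC_mono 0 n 0 n)
  have h3 : pr W (XR n (2 * n) ∩ XL n (2 * n) ∩ {ω | HC 0 n 0 n ω})
      ≤ pr W {ω | HC (n - 2 * n) (2 * n) 0 (2 * n) ω} :=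
    pr_mono fun ω h => XX_hc hn (by omega) h.1.1 h.1.2 h.2
  rw [hW, pr_hc, ← hW] at h3
  have h4 : (2 * n - (n - 2 * n) : ℤ) = 3 * n := by ring
  rw [h4, sub_zero] at h3
  refine le_trans ?_ h3
  refine le_trans ?_ h2
  calc (1 : ℝ) / 2 ^ 7 = (1 / 2 ^ 3 * (1 / 2 ^ 3)) * (1 / 2) := by norm_num
    _ ≤ _ := mul_le_mul ((mul_le_mul hR hL (by norm_num) (pr_nonneg _ _)).trans h1) hH
      (by norm_num) (pr_nonneg _ _)

/-- Two long crossings and a transversal crossing of the overlap. -/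
theorem hp_glue {w₁ w₂ t s : ℤ} (ht : 0 < t) (hs : 0 ≤ s) (h1 : s ≤ w₁) (h2 : s ≤ w₂) :
    hp w₁ t * hp w₂ t * hp t s ≤ hp (w₁ + w₂ - s) t := by
  set W := EW 0 (w₁ + w₂ - s) 0 t with hW
  have e1 : pr W {ω | HC 0 w₁ 0 t ω} = hp w₁ t := by
    rw [pr_hc_window (EW_sub le_rfl (by omega) le_rfl le_rfl)]; simp
  have e2 : pr W {ω | HC (w₁ - s) (w₁ + w₂ - s) 0 t ω} = hp w₂ t := by
    rw [pr_hc_window (EW_sub (by omega) le_rfl le_rfl le_rfl)]
    congr 1 <;> ring
  have e3 : pr W {ω | VC (w₁ - s) w₁ 0 t ω} = hp t s := by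
    rw [pr_vc_window (EW_sub (by omega) (by omega) le_rfl le_rfl)]
    congr 1 <;> ring
  have h3 := harris_up (W := W) (HC_mono 0 w₁ 0 t) (HC_mono (w₁ - s) (w₁ + w₂ - s) 0 t)
  have h4 := harris_up (W := W) ((HC_mono 0 w₁ 0 t).inter (HC_mono (w₁ - s) (w₁ + w₂ - s) 0 t))
    (VC_mono (w₁ - s) w₁ 0 t)
  rw [e1, e2] at h3
  rw [e3] at h4
  refine le_trans (mul_le_mul_of_nonneg_right h3 (hp_nonneg _ _)) (h4.trans ?_)
  change _ ≤ pr W {ω | HC 0 (w₁ + w₂ - s) 0 t ω}
  refine pr_mono ?_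
  rintro ω ⟨⟨hA, hB⟩, hC⟩
  obtain ⟨x, x', hx1, hx2, hx3, hx4, hC⟩ := hC
  -- the crossings of the overlap
  have hA' : ∃ y y', 0 ≤ y ∧ y ≤ t ∧ Conn ω (Rect 0 w₁ 0 t) (0, y) (w₁, y') := by
    obtain ⟨y, y', h5, h6, _, _, h7⟩ := hA
    exact ⟨y, y', h5, h6, h7⟩
  obtain ⟨y, y', hy1, hy2, hA'⟩ := hA'
  obtain ⟨z, z', hz1, hz2, hz3, hz4, hB'⟩ := hB
  -- the vertical crossing meets both
  have hV1 : Conn ω (Rect 0 w₁ 0 t) (x, 0) (x', t) := hC.mono le_rfl (by
    intro v hv; simp only [mem_Rect] at hv ⊢; omega)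
  have hV2 : Conn ω (Rect (w₁ - s) (w₁ + w₂ - s) 0 t) (x, 0) (x', t) := hC.mono le_rfl (by
    intro v hv; simp only [mem_Rect] at hv ⊢; omega)
  obtain ⟨v, hv1, hv2⟩ := hc_vc_meet ht ⟨by omega, by omega⟩ hV1 ⟨hy1, hy2⟩ (by omega) hA'
  obtain ⟨v', hv1', hv2'⟩ := hc_vc_meet ht ⟨by omega, by omega⟩ hV2 ⟨hz1, hz2⟩ (by omega) hB'
  have s1 : Rect 0 w₁ 0 t ⊆ Rect 0 (w₁ + w₂ - s) 0 t := by
    intro v hv; simp only [mem_Rect] at hv ⊢; omega
  have s2 : Rect (w₁ - s) (w₁ + w₂ - s) 0 t ⊆ Rect 0 (w₁ + w₂ - s) 0 t := by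
    intro v hv; simp only [mem_Rect] at hv ⊢; omega
  refine ⟨y, z', hy1, hy2, hz3, hz4, ?_⟩
  have f1 := (hv1.trans hv2.symm).mono (le_refl ω) s1
  have f2 := ((hv2'.trans hv1'.symm).trans hB').mono (le_refl ω) s2
  exact f1.trans f2

theorem hp_long {n : ℤ} (hn : 1 ≤ n) (k : ℕ) : 1 / 2 ^ (8 * k + 1) ≤ hp ((k + 2) * n) (2 * n) := by
  induction k with
  | zero =>
    simpa using hp_square (n := 2 * n) (by omega)
  | succ k ih =>
    have h1 := hp_glue (w₁ := (k + 2) * n) (w₂ := 3 * n) (t := 2 * n) (s := 2 * n) (by omega)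
      (by omega) (by nlinarith) (by omega)
    have h2 := hp_three hn
    have h3 := hp_square (n := 2 * n) (by omega)
    have e1 : ((k + 2) * n + 3 * n - 2 * n : ℤ) = ((k + 1 : ℕ) + 2) * n := by
      push_cast; ring
    rw [e1] at h1
    refine le_trans ?_ h1
    have e2 : (1 : ℝ) / 2 ^ (8 * (k + 1) + 1) = 1 / 2 ^ (8 * k + 1) * (1 / 2 ^ 7) * (1 / 2) := by
      rw [show 8 * (k + 1) + 1 = (8 * k + 1) + 7 + 1 by ring, pow_add, pow_add]
      field_simp
    rw [e2]
    exact mul_le_mul (mul_le_mul ih h2 (by positivity) (hp_nonneg _ _)) h3 (by positivity)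
      (mul_nonneg (hp_nonneg _ _) (hp_nonneg _ _))

/-- The box crossing property: rectangles of width at most `k` times the height `t ≥ 2`. -/
theorem rsw (k : ℕ) : ∃ c > 0, ∀ w t : ℤ, 0 < w → 2 ≤ t → w ≤ k * t → c ≤ hp w t := by
  refine ⟨1 / 2 ^ (8 * (3 * k) + 1), by positivity, fun w t hw ht hwt => ?_⟩
  have h1 := hp_long (n := t / 2) (by omega) (3 * k)
  refine h1.trans (hp_mono hw ?_ (by omega))
  have h2 : t ≤ 3 * (t / 2) := by omega
  push_cast
  nlinarith [mul_le_mul_of_nonneg_left h2 (Int.natCast_nonneg k)]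

end Pool.Agent.MP_6bd702.H23

end Parth23Rsw

section Parth23Small

/-!
Closed dual crossings of strips, and: with positive probability all the clusters are small.
-/

set_option autoImplicit false

namespace Pool.Agent.MP_6bd702.H23

open Finset

theorem trL_trL (e : Ed) : trL.e (trL.e e) = e := by
  obtain ⟨x, y, t⟩ := e
  simp [trL]

theorem cr_trL (e : Ed) : cr (trL.e e) = trL.e (cr e) := by
  obtain ⟨x, y, t⟩ := e
  cases t <;> simp [trL]

theorem vc_of_hc_tr {a b c d : ℤ} {ω : Set Ed} (h : HC a b c d ω) :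
    VC c d a b (trL.e ⁻¹' ω) := by
  obtain ⟨y, y', h1, h2, h3, h4, h5⟩ := h
  refine ⟨y, y', h1, h2, h3, h4, ?_⟩
  refine LMap.conn trL (R := Rect a b c d) (u := (a, y)) (w := (b, y')) ?_ ?_
  · intro w hw
    simp only [mem_Rect, trL] at hw ⊢
    omega
  · refine h5.mono ?_ le_rfl
    intro e he
    change trL.e (trL.e e) ∈ ω
    rw [trL_trL]; exact he

theorem hc_of_vc_tr {a b c d : ℤ} {ω : Set Ed} (h : VC a b c d ω) :
    HC c d a b (trL.e ⁻¹' ω) := by
  obtain ⟨y, y', h1, h2, h3, h4, h5⟩ := h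
  refine ⟨y, y', h1, h2, h3, h4, ?_⟩
  refine LMap.conn trL (R := Rect a b c d) (u := (y, c)) (w := (y', d)) ?_ ?_
  · intro w hw
    simp only [mem_Rect, trL] at hw ⊢
    omega
  · refine h5.mono ?_ le_rfl
    intro e he
    change trL.e (trL.e e) ∈ ω
    rw [trL_trL]; exact he

theorem du_tr (ω : Set Ed) : du (trL.e ⁻¹' ω) = trL.e ⁻¹' (du ω) := by
  ext e
  simp only [mem_du, Set.mem_preimage, cr_trL]

/-- A left-right crossing excludes a bottom-top dual crossing. -/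
theorem block' {a b c d : ℤ} (hab : a < b) (hcd : c ≤ d) {ω : Set Ed} (h : HC a b c d ω) :
    ¬ VC a (b - 1) (c - 1) d (du ω) := by
  intro h1
  have h2 := hc_of_vc_tr h1
  rw [← du_tr] at h2
  exact block hab hcd (vc_of_hc_tr h) h2

/-- A crossing of a rectangle crosses every horizontal strip. -/
theorem vc_strip {ω : Set Ed} {a b c d c' d' : ℤ} (h1 : c ≤ c') (h2 : c' < d') (h3 : d' ≤ d)
    {u v : ℤ × ℤ} (hu : u.2 ≤ c') (huR : u ∈ Rect a b c d) (hv : d' ≤ v.2)
    (h : Conn ω (Rect a b c d) u v) : VC a b c' d' ω := by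
  have h4 : Conn (trL.e ⁻¹' ω) (Rect c d a b) (trL.v u) (trL.v v) := by
    refine LMap.conn trL (R := Rect a b c d) ?_ ?_
    · intro w hw
      simp only [mem_Rect, trL] at hw ⊢
      omega
    · refine h.mono ?_ le_rfl
      intro e he
      change trL.e (trL.e e) ∈ ω
      rw [trL_trL]; exact he
  have h5 : HC c' d' a b (trL.e ⁻¹' ω) := by
    refine hc_strip h1 h2 h3 (u := trL.v u) (v := trL.v v) hu ?_ hv h4
    simp only [mem_Rect, trL] at huR ⊢
    omega
  have h6 := vc_of_hc_tr h5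
  have h7 : trL.e ⁻¹' (trL.e ⁻¹' ω) = ω := by
    ext e
    simp only [Set.mem_preimage, trL_trL]
  rwa [h7] at h6

/-- All the clusters in the square have width and height at most `n / K`. -/
def Sm (K : ℕ) (n : ℤ) : Set (Set Ed) :=
  {ω | ∀ u ∈ Rect 0 n 0 n, ∀ v ∈ Rect 0 n 0 n, Conn ω (Rect 0 n 0 n) u v →
    K * |u.1 - v.1| ≤ n ∧ K * |u.2 - v.2| ≤ n}

theorem Sm_lower (K : ℕ) (n : ℤ) : IsLowerSet (Sm K n) :=
  fun _ _ h h1 u hu v hv h2 => h1 u hu v hv (h2.mono h le_rfl)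

theorem Sm_anti {K K' : ℕ} (h : K ≤ K') (n : ℤ) : Sm K' n ⊆ Sm K n := by
  intro ω h1 u hu v hv h2
  obtain ⟨h3, h4⟩ := h1 u hu v hv h2
  have h5 : (K : ℤ) ≤ K' := by exact_mod_cast h
  exact ⟨(mul_le_mul_of_nonneg_right h5 (abs_nonneg _)).trans h3,
    (mul_le_mul_of_nonneg_right h5 (abs_nonneg _)).trans h4⟩

theorem Conn_empty {R : Set (ℤ × ℤ)} {u v : ℤ × ℤ} (h : Conn ∅ R u v) : u = v := by
  unfold Conn at h
  induction h with
  | refl => rfl
  | tail _ h2 _ =>
    obtain ⟨_, _, e, he, _⟩ := h2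
    exact absurd he (Set.notMem_empty e)

theorem empty_mem_Sm (K : ℕ) {n : ℤ} (hn : 0 ≤ n) : ∅ ∈ Sm K n := by
  intro u _ v _ h
  have h1 := Conn_empty h
  subst h1
  simp [hn]

/-- Strips: a connection which is wide crosses some strip. -/
theorem strip_index {K : ℕ} {n k p q : ℤ} (hk : 0 < k) (h2k : K * (2 * k) ≤ n)
    (hn4 : n < 4 * K * k) (hp : 0 ≤ p) (hq : q ≤ n) (h : n < K * (q - p)) :
    ∃ i ∈ range (4 * K), p ≤ (i : ℤ) * k ∧ ((i : ℤ) + 1) * k ≤ q := by
  have h1 : 2 * k < q - p := by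
    by_contra hcon
    push Not at hcon
    have := mul_le_mul_of_nonneg_left hcon (Int.natCast_nonneg K)
    omega
  have h3 := Int.emod_add_mul_ediv (p + k - 1) k
  have h4 := Int.emod_nonneg (p + k - 1) hk.ne'
  have h5 := Int.emod_lt_of_pos (p + k - 1) hk
  set j := (p + k - 1) / k with hj
  have h6 : 0 ≤ j := Int.ediv_nonneg (by omega) hk.le
  have h7 : p ≤ j * k := by
    have : k * j = j * k := mul_comm _ _
    omega
  have h8 : (j + 1) * k ≤ q := by
    have : (j + 1) * k = k * j + k := by ring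
    omega
  refine ⟨j.toNat, ?_, ?_, ?_⟩
  · rw [mem_range]
    have h9 : j < 4 * K := by
      by_contra hcon
      push Not at hcon
      have h10 := mul_le_mul_of_nonneg_right hcon hk.le
      have h11 : (j + 1) * k = j * k + k := by ring
      omega
    have : (j.toNat : ℤ) < (4 * K : ℕ) := by
      rw [Int.toNat_of_nonneg h6]; push_cast; exact h9
    exact_mod_cast this
  · rwa [Int.toNat_of_nonneg h6]
  · rwa [Int.toNat_of_nonneg h6]

theorem strips_sub {K : ℕ} {n k : ℤ} (hk : 0 < k) (hn0 : 0 ≤ n) (h2k : K * (2 * k) ≤ n)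
    (hn4 : n < 4 * K * k) :
    (⋂ i ∈ range (4 * K), {ω | du ω ∈ {ω | VC ((i : ℤ) * k) (((i : ℤ) + 1) * k - 1) (0 - 1) n ω}}) ∩
      (⋂ i ∈ range (4 * K), {ω | du ω ∈ {ω | HC (0 - 1) n ((i : ℤ) * k) (((i : ℤ) + 1) * k - 1) ω}})
      ⊆ Sm K n := by
  rintro ω ⟨h1, h2⟩
  simp only [Set.mem_iInter] at h1 h2
  have hx : ∀ u ∈ Rect 0 n 0 n, ∀ v ∈ Rect 0 n 0 n, Conn ω (Rect 0 n 0 n) u v →
      K * (v.1 - u.1) ≤ n := by
    intro u hu v hv hc
    by_contra hcon
    push Not at hcon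
    have hu' := hu
    have hv' := hv
    rw [mem_Rect] at hu' hv'
    obtain ⟨i, hi, h3, h4⟩ := strip_index hk h2k hn4 hu'.1 hv'.2.1 hcon
    have h5 : (i : ℤ) * k < ((i : ℤ) + 1) * k := by nlinarith
    have h6 := hc_strip (by omega) h5 (by omega) h3 hu h4 hc
    exact block' h5 hn0 h6 (h1 i hi)
  have hy : ∀ u ∈ Rect 0 n 0 n, ∀ v ∈ Rect 0 n 0 n, Conn ω (Rect 0 n 0 n) u v →
      K * (v.2 - u.2) ≤ n := by
    intro u hu v hv hc
    by_contra hcon
    push Not at hcon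
    have hu' := hu
    have hv' := hv
    rw [mem_Rect] at hu' hv'
    obtain ⟨i, hi, h3, h4⟩ := strip_index hk h2k hn4 hu'.2.2.1 hv'.2.2.2 hcon
    have h5 : (i : ℤ) * k < ((i : ℤ) + 1) * k := by nlinarith
    have h6 := vc_strip (by omega) h5 (by omega) h3 hu h4 hc
    exact block h5 hn0 h6 (h2 i hi)
  intro u hu v hv hc
  refine ⟨?_, ?_⟩
  · rcases abs_cases (u.1 - v.1) with ⟨h3, _⟩ | ⟨h3, _⟩
    · rw [h3]; exact hx v hv u hu hc.symm
    · rw [h3, neg_sub]; exact hx u hu v hv hc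
  · rcases abs_cases (u.2 - v.2) with ⟨h3, _⟩ | ⟨h3, _⟩
    · rw [h3]; exact hy v hv u hu hc.symm
    · rw [h3, neg_sub]; exact hy u hu v hv hc

theorem pr_empty_pos (W : Finset Ed) : 0 < pr W {∅} := by
  classical
  unfold pr
  rw [Pr_eq_card]
  refine div_pos ?_ (by positivity)
  rw [Nat.cast_pos, card_pos]
  refine ⟨∅, ?_⟩
  rw [mem_filter]
  refine ⟨mem_univ _, ?_⟩
  change cfg W ∅ ∈ ({∅} : Set (Set Ed))
  rw [Set.mem_singleton_iff, Set.eq_empty_iff_forall_notMem]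
  rintro e ⟨_, h⟩
  exact notMem_empty _ h

/-- With probability bounded below all the clusters of the square are small. -/
theorem small_clusters (K : ℕ) : ∃ c > 0, ∀ n : ℤ, 0 ≤ n → c ≤ pr (EW 0 n 0 n) (Sm K n) := by
  obtain ⟨c, hc, h⟩ := rsw (4 * (K + 1))
  set N : ℤ := 6 * (K + 1) with hN
  set c' : ℝ := pr (EW 0 N 0 N) {∅} with hc'
  have hc'0 : 0 < c' := pr_empty_pos _
  refine ⟨min c' (c ^ (range (4 * (K + 1))).card * c ^ (range (4 * (K + 1))).card),
    lt_min hc'0 (by positivity), fun n hn0 => ?_⟩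
  refine le_trans ?_ (pr_mono (Sm_anti (Nat.le_succ K) n))
  by_cases hn : n ≤ N
  · refine (min_le_left _ _).trans ?_
    refine le_trans (pr_mono (B := Sm (K + 1) n) ?_) (pr_anti (EW_sub le_rfl hn le_rfl hn)
      (Sm_lower _ _))
    rintro ω hω
    rw [Set.mem_singleton_iff] at hω
    subst hω
    exact empty_mem_Sm _ hn0
  · refine (min_le_right _ _).trans ?_
    push Not at hn
    have hK : (0 : ℤ) < 2 * (K + 1) := by positivity
    set k : ℤ := n / (2 * (K + 1)) with hk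
    have h1 := Int.emod_add_mul_ediv n (2 * (K + 1))
    have h2 := Int.emod_nonneg n hK.ne'
    have h3 := Int.emod_lt_of_pos n hK
    rw [← hk] at h1
    have hk3 : 3 ≤ k := by
      rw [hk, Int.le_ediv_iff_mul_le hK]
      omega
    have h2k : ((K + 1 : ℕ) : ℤ) * (2 * k) ≤ n := by
      push_cast
      nlinarith
    have h4 : n + 1 ≤ ((4 * (K + 1) : ℕ) : ℤ) * (k - 1) := by
      push_cast
      nlinarith
    have h4' : n < 4 * ((K + 1 : ℕ) : ℤ) * k := by
      push_cast at h4 ⊢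
      nlinarith
    have hp0 : c ≤ hp (n + 1) (k - 1) := h (n + 1) (k - 1) (by omega) (by omega) h4
    set W := EW 0 n 0 n with hW
    have hA := harris_lo_list (W := W) (range (4 * (K + 1)))
      (fun i => {ω | du ω ∈ {ω | VC ((i : ℤ) * k) (((i : ℤ) + 1) * k - 1) (0 - 1) n ω}}) hc.le
      (fun i _ => du_lower (VC_mono _ _ _ _)) (fun i _ => by
        refine le_trans ?_ (pr_dual_ge W (VC_loc _ _ _ _) (VC_mono _ _ _ _))
        rw [pr_vc]
        rw [show n - (0 - 1) = n + 1 by ring,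
          show ((i : ℤ) + 1) * k - 1 - (i : ℤ) * k = k - 1 by ring]
        exact hp0)
    have hB := harris_lo_list (W := W) (range (4 * (K + 1)))
      (fun i => {ω | du ω ∈ {ω | HC (0 - 1) n ((i : ℤ) * k) (((i : ℤ) + 1) * k - 1) ω}}) hc.le
      (fun i _ => du_lower (HC_mono _ _ _ _)) (fun i _ => by
        refine le_trans ?_ (pr_dual_ge W (HC_loc _ _ _ _) (HC_mono _ _ _ _))
        rw [pr_hc]
        rw [show n - (0 - 1) = n + 1 by ring,
          show ((i : ℤ) + 1) * k - 1 - (i : ℤ) * k = k - 1 by ring]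
        exact hp0)
    refine le_trans ?_ (pr_mono (strips_sub (K := K + 1) (by omega) hn0 h2k h4'))
    refine le_trans ?_ (harris_lo hA.2 hB.2)
    exact mul_le_mul hA.1 hB.1 (by positivity) (pr_nonneg _ _)

end Pool.Agent.MP_6bd702.H23

end Parth23Small

section PartpercuCorner

/-!
# Corners and the interface permutation

A corner is a vertex together with one of its four faces. `nxt ω` rotates counterclockwise around
the vertex across a closed edge, and advances along an open edge, keeping the face. Its orbits are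
the interfaces (loops) between the open clusters (vertices on the left) and the dual clusters
(faces on the right).
-/

set_option autoImplicit false

namespace Pool.Agent.PercU

open Pool.Agent.MP_6bd702.H23

/-- The two ends of the queried edge: the vertex of the corner and of the advanced corner. -/
theorem ends_qry (k : Cor) : (ea (qry k) = vtx k ∧ eb (qry k) = vtx (adv k)) ∨
    (ea (qry k) = vtx (adv k) ∧ eb (qry k) = vtx k) := by
  obtain ⟨x, y, _ | _, _ | _⟩ := k <;> simp [adv, qry, vtx]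

/-- The two faces of the queried edge: the face of the corner and of the rotated corner. -/
theorem faces_qry (k : Cor) : (f1 (qry k) = fce k ∧ f2 (qry k) = fce (rot k)) ∨
    (f1 (qry k) = fce (rot k) ∧ f2 (qry k) = fce k) := by
  obtain ⟨x, y, _ | _, _ | _⟩ := k <;> simp [rot, qry, fce]

theorem nxt_of_mem {ω : Set Ed} {k : Cor} (h : qry k ∈ ω) : nxt ω k = adv k := if_pos h

theorem nxt_of_notMem {ω : Set Ed} {k : Cor} (h : qry k ∉ ω) : nxt ω k = rot k := if_neg h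

theorem prv_of_mem {ω : Set Ed} {k : Cor} (h : qryb k ∈ ω) : prv ω k = advb k := if_pos h

theorem prv_of_notMem {ω : Set Ed} {k : Cor} (h : qryb k ∉ ω) : prv ω k = rotb k := if_neg h

theorem qryb_nxt (ω : Set Ed) (k : Cor) : qryb (nxt ω k) = qry k := by
  unfold nxt; split_ifs
  · exact qryb_adv k
  · exact qryb_rot k

theorem qry_prv (ω : Set Ed) (k : Cor) : qry (prv ω k) = qryb k := by
  unfold prv; split_ifs
  · exact qry_advb k
  · exact qry_rotb k

theorem nxt_congr {ω ω' : Set Ed} {k : Cor} (h : qry k ∈ ω ↔ qry k ∈ ω') : nxt ω k = nxt ω' k := by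
  by_cases h1 : qry k ∈ ω
  · rw [nxt_of_mem h1, nxt_of_mem (h.1 h1)]
  · rw [nxt_of_notMem h1, nxt_of_notMem fun h2 => h1 (h.2 h2)]

theorem prv_congr {ω ω' : Set Ed} {k : Cor} (h : qryb k ∈ ω ↔ qryb k ∈ ω') :
    prv ω k = prv ω' k := by
  by_cases h1 : qryb k ∈ ω
  · rw [prv_of_mem h1, prv_of_mem (h.1 h1)]
  · rw [prv_of_notMem h1, prv_of_notMem fun h2 => h1 (h.2 h2)]

/-- The vertices of two consecutive corners are equal or joined by an open edge. -/
theorem step_vtx {ω : Set Ed} (k : Cor) :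
    vtx (nxt ω k) = vtx k ∨ Step ω Set.univ (vtx k) (vtx (nxt ω k)) := by
  by_cases h : qry k ∈ ω
  · right
    rw [nxt_of_mem h]
    exact ⟨trivial, trivial, qry k, h, ends_qry k⟩
  · left
    rw [nxt_of_notMem h, vtx_rot]

/-- The dual edge crossing the queried edge joins the faces. -/
theorem ends_dc_qry (k : Cor) : (ea (dc (qry k)) = fce k ∧ eb (dc (qry k)) = fce (rot k)) ∨
    (ea (dc (qry k)) = fce (rot k) ∧ eb (dc (qry k)) = fce k) := by
  rw [ea_dc, eb_dc]
  exact faces_qry k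

/-- The faces of two consecutive corners are equal or joined across a closed edge. -/
theorem step_fce {ω : Set Ed} (k : Cor) :
    fce (nxt ω k) = fce k ∨ Step (du ω) Set.univ (fce k) (fce (nxt ω k)) := by
  by_cases h : qry k ∈ ω
  · left
    rw [nxt_of_mem h, fce_adv]
  · right
    rw [nxt_of_notMem h]
    refine ⟨trivial, trivial, dc (qry k), ?_, ends_dc_qry k⟩
    rw [mem_du, cr_dc]
    exact h

theorem conn_vtx {ω : Set Ed} (k : Cor) (n : ℕ) :
    Conn ω Set.univ (vtx k) (vtx ((nxt ω)^[n] k)) := by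
  induction n with
  | zero => exact .refl
  | succ n ih =>
    rw [Function.iterate_succ_apply']
    rcases step_vtx (ω := ω) ((nxt ω)^[n] k) with h | h
    · rw [h]; exact ih
    · exact ih.tail h

theorem conn_fce {ω : Set Ed} (k : Cor) (n : ℕ) :
    Conn (du ω) Set.univ (fce k) (fce ((nxt ω)^[n] k)) := by
  induction n with
  | zero => exact .refl
  | succ n ih =>
    rw [Function.iterate_succ_apply']
    rcases step_fce (ω := ω) ((nxt ω)^[n] k) with h | h
    · rw [h]; exact ih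
    · exact ih.tail h

/-! ### Duality of corners -/

/-- The same corner seen in the dual lattice: the face becomes the vertex; the vertex `(x, y)`
becomes the dual face with lower left corner `(x - 1, y - 1)`. -/
def dcor (k : Cor) : Cor := ((fce k).1, (fce k).2, !k.2.2.1, !k.2.2.2)

theorem vtx_dcor (k : Cor) : vtx (dcor k) = fce k := rfl

theorem fce_dcor (k : Cor) : fce (dcor k) = ((vtx k).1 - 1, (vtx k).2 - 1) := by
  obtain ⟨x, y, _ | _, _ | _⟩ := k <;> simp [dcor, fce, vtx]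

/-- Duality exchanges forwards and backwards. -/
theorem nxt_dcor (ω : Set Ed) (k : Cor) : nxt (du ω) (dcor k) = dcor (prv ω k) := by
  have h : qry (dcor k) ∈ du ω ↔ qryb k ∉ ω := by
    rw [mem_du]
    have : cr (qry (dcor k)) = qryb k := by
      obtain ⟨x, y, _ | _, _ | _⟩ := k <;> simp [dcor, fce, qry, qryb]
    rw [this]
  by_cases h1 : qryb k ∈ ω
  · rw [prv_of_mem h1, nxt_of_notMem (by rw [h]; exact not_not.2 h1)]
    obtain ⟨x, y, _ | _, _ | _⟩ := k <;> simp [dcor, fce, rot, advb]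
  · rw [prv_of_notMem h1, nxt_of_mem (h.2 h1)]
    obtain ⟨x, y, _ | _, _ | _⟩ := k <;> simp [dcor, fce, adv, rotb]

theorem prv_dcor (ω : Set Ed) (k : Cor) : prv (du ω) (dcor k) = dcor (nxt ω k) := by
  have h := nxt_dcor ω (nxt ω k)
  rw [prv_nxt] at h
  rw [← h, prv_nxt]

end Pool.Agent.PercU

end PartpercuCorner
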