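import Pool.Agent.Lib.MP_6bd702_z.Z009
import Pool.Agent.Lib.MP_6bd702_z.Z002

section PartpercDLower

/-!
# The energy of the outer vertices
-/

set_option autoImplicit false

namespace Pool.Agent.Perc.PercD

open Finset Filter Topology

open Classical in
/-- The bulk vertices. -/
noncomputable def bulkF (n : ℕ) (r : ℝ) : Finset (ℤ × ℤ) := (Box n).filter fun v => Bulk n r v

theorem inner_sum {n : ℕ} {f : ℤ → ℝ} (hf : ∀ a, 0 ≤ f a) {x : ℤ} (hx : x ∈ Icc 0 (n : ℤ)) :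
    ∑ w ∈ Icc 0 (n : ℤ), f (x - w) ≤ ∑ a ∈ Icc (-(n : ℤ)) n, f a := by
  classical
  rw [← sum_image (s := Icc 0 (n : ℤ)) (g := fun w => x - w) (f := f)
    (by intro a _ b _ h; simpa using h)]
  refine sum_le_sum_of_subset_of_nonneg ?_ fun a _ _ => hf a
  intro a ha
  rw [mem_image] at ha
  obtain ⟨w, hw, rfl⟩ := ha
  rw [mem_Icc] at hw hx ⊢
  omega

theorem abs_re_le {v w : ℤ × ℤ} : |((v.1 - w.1 : ℤ) : ℝ)| ≤ dist (toC v) (toC w) := by
  have := Complex.abs_re_le_norm (toC v - toC w)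
  rw [dist_eq_norm]
  simpa [toC] using this

theorem abs_im_le {v w : ℤ × ℤ} : |((v.2 - w.2 : ℤ) : ℝ)| ≤ dist (toC v) (toC w) := by
  have := Complex.abs_im_le_norm (toC v - toC w)
  rw [dist_eq_norm]
  simpa [toC] using this

/-- The two dimensional sum. -/
theorem sum_box {q : ℝ} (hq1 : q < 1) (hq0 : 0 ≤ q) {n : ℕ} (hn : 1 ≤ n) {v : ℤ × ℤ}
    (hv : v ∈ Box n) : ∑ w ∈ Box n, (max (dist (toC v) (toC w)) 1) ^ (-(2 * q)) ≤
      ((1 + 2 / (1 - q)) * (n : ℝ) ^ (1 - q)) ^ 2 := by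
  unfold Box at hv ⊢
  rw [mem_product] at hv
  set f : ℤ → ℝ := fun a => (max |(a : ℝ)| 1) ^ (-q) with hf
  have hf0 : ∀ a, 0 ≤ f a := fun a => Real.rpow_nonneg (le_trans zero_le_one (le_max_right _ _)) _
  have h1 : ∀ w : ℤ × ℤ, (max (dist (toC v) (toC w)) 1) ^ (-(2 * q)) ≤
      f (v.1 - w.1) * f (v.2 - w.2) := by
    intro w
    have hD : 0 < max (dist (toC v) (toC w)) 1 := lt_max_of_lt_right one_pos
    have e : (max (dist (toC v) (toC w)) 1) ^ (-(2 * q)) =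
        (max (dist (toC v) (toC w)) 1) ^ (-q) * (max (dist (toC v) (toC w)) 1) ^ (-q) := by
      rw [← Real.rpow_add hD]; congr 1; ring
    rw [e]
    refine mul_le_mul ?_ ?_ (Real.rpow_nonneg hD.le _) (hf0 _)
    · exact Real.rpow_le_rpow_of_nonpos (lt_max_of_lt_right one_pos)
        (max_le_max abs_re_le le_rfl) (by linarith)
    · exact Real.rpow_le_rpow_of_nonpos (lt_max_of_lt_right one_pos)
        (max_le_max abs_im_le le_rfl) (by linarith)
  have hs := sum_abs_rpow hq1 hq0 hn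
  have hs0 : 0 ≤ ∑ a ∈ Icc (-(n : ℤ)) n, f a := sum_nonneg fun a _ => hf0 a
  calc ∑ w ∈ Icc 0 (n : ℤ) ×ˢ Icc 0 (n : ℤ), (max (dist (toC v) (toC w)) 1) ^ (-(2 * q))
      ≤ ∑ w ∈ Icc 0 (n : ℤ) ×ˢ Icc 0 (n : ℤ), f (v.1 - w.1) * f (v.2 - w.2) :=
        sum_le_sum fun w _ => h1 w
    _ = (∑ a ∈ Icc 0 (n : ℤ), f (v.1 - a)) * ∑ b ∈ Icc 0 (n : ℤ), f (v.2 - b) := by
        rw [sum_product, sum_mul_sum]
    _ ≤ (∑ a ∈ Icc (-(n : ℤ)) n, f a) * ∑ a ∈ Icc (-(n : ℤ)) n, f a :=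
        mul_le_mul (inner_sum hf0 hv.1) (inner_sum hf0 hv.2) (sum_nonneg fun _ _ => hf0 _) hs0
    _ = (∑ a ∈ Icc (-(n : ℤ)) n, f a) ^ 2 := by ring
    _ ≤ _ := pow_le_pow_left₀ hs0 hs 2

theorem card_Box (n : ℕ) (hn : 1 ≤ n) : ((Box n).card : ℝ) ≤ 4 * (n : ℝ) ^ 2 := by
  unfold Box
  rw [card_product, Int.card_Icc]
  have h : ((n : ℤ) + 1 - 0).toNat = n + 1 := by omega
  rw [h]
  push_cast
  have : (1 : ℝ) ≤ n := by exact_mod_cast hn
  nlinarith

open Classical in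
/-- The energy of the outer vertices in the bulk. -/
noncomputable def enF (s κ : ℝ) (n : ℕ) (T : Finset Edg) (u : ℤ × ℤ) : ℝ :=
  ∑ v ∈ (bulkF n (κ * n)).filter (fun v => v ∈ OutV T u),
    ∑ w ∈ (bulkF n (κ * n)).filter (fun v => v ∈ OutV T u), (max (dist (toC v) (toC w)) 1) ^ (-s)

open Classical in
theorem energy_bound (h2 : TargetB2) {s : ℝ} (hs0 : 0 ≤ s) (hs : s < 7 / 4) {κ k₀ : ℝ}
    (hκ : 0 < κ) (hk₀ : 0 < k₀) : ∃ C : ℝ, 0 ≤ C ∧ ∀ (sel : ℕ → Finset Edg → ℤ × ℤ) (n : ℕ),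
      1 ≤ n → exB n (fun T => if k₀ * n ≤ Metric.diam (clS T (sel n T)) then
        enF s κ n T (sel n T) else 0) ≤ C * (n : ℝ) ^ (7 / 2 - s) := by
  obtain ⟨C₀, hC₀⟩ := h2 κ k₀ hκ hk₀
  set C₁ : ℝ := max C₀ 0 with hC₁
  have hC₁0 : 0 ≤ C₁ := le_max_right _ _
  set q : ℝ := (s + 1 / 4) / 2 with hq
  have hq1 : q < 1 := by rw [hq]; linarith
  have hq0 : 0 ≤ q := by rw [hq]; linarith
  refine ⟨C₁ * 4 * (1 + 2 / (1 - q)) ^ 2, by positivity, ?_⟩
  intro sel n hn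
  have hn0 : (0 : ℝ) < n := by exact_mod_cast hn
  -- pairwise form
  have h1 : exB n (fun T => if k₀ * n ≤ Metric.diam (clS T (sel n T)) then
        enF s κ n T (sel n T) else 0) ≤
      ∑ v ∈ bulkF n (κ * n), ∑ w ∈ bulkF n (κ * n), (max (dist (toC v) (toC w)) 1) ^ (-s) *
        prB n {T | ∃ u, k₀ * n ≤ Metric.diam (clS T u) ∧ v ∈ OutV T u ∧ w ∈ OutV T u} := by
    have e : ∀ v w : ℤ × ℤ, (max (dist (toC v) (toC w)) 1) ^ (-s) *
        prB n {T | ∃ u, k₀ * n ≤ Metric.diam (clS T u) ∧ v ∈ OutV T u ∧ w ∈ OutV T u} =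
        exB n (fun T => (max (dist (toC v) (toC w)) 1) ^ (-s) *
          if T ∈ {T | ∃ u, k₀ * n ≤ Metric.diam (clS T u) ∧ v ∈ OutV T u ∧ w ∈ OutV T u} then
            1 else 0) := by
      intro v w
      rw [exB_mul_left, prB_eq]
    simp_rw [e]
    simp_rw [← exB_sum]
    refine exB_mono fun T _ => ?_
    have hnn : ∀ v w : ℤ × ℤ, 0 ≤ (max (dist (toC v) (toC w)) 1) ^ (-s) *
        (if T ∈ {T | ∃ u, k₀ * n ≤ Metric.diam (clS T u) ∧ v ∈ OutV T u ∧ w ∈ OutV T u} then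
            (1 : ℝ) else 0) := by
      intro v w
      refine mul_nonneg (Real.rpow_nonneg (le_trans zero_le_one (le_max_right _ _)) _) ?_
      split_ifs <;> norm_num
    split_ifs with hd
    · unfold enF
      rw [sum_filter]
      refine sum_le_sum fun v _ => ?_
      split_ifs with hv
      · rw [sum_filter]
        refine sum_le_sum fun w _ => ?_
        split_ifs with hw h3
        · rw [mul_one]
        · exact absurd ⟨_, hd, hv, hw⟩ h3
        · exact mul_nonneg (Real.rpow_nonneg (le_trans zero_le_one (le_max_right _ _)) _)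
            zero_le_one
        · rw [mul_zero]
      · exact sum_nonneg fun w _ => hnn v w
    · exact sum_nonneg fun v _ => sum_nonneg fun w _ => hnn v w
  refine h1.trans ?_
  -- the two point bound
  have h3 : ∀ v ∈ bulkF n (κ * n), ∀ w ∈ bulkF n (κ * n), (max (dist (toC v) (toC w)) 1) ^ (-s) *
        prB n {T | ∃ u, k₀ * n ≤ Metric.diam (clS T u) ∧ v ∈ OutV T u ∧ w ∈ OutV T u} ≤
      C₁ * (n : ℝ) ^ (-(1 / 4) : ℝ) * (max (dist (toC v) (toC w)) 1) ^ (-(2 * q)) := by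
    intro v hv w hw
    unfold bulkF at hv hw
    rw [mem_filter] at hv hw
    have h4 := hC₀ n hn v w hv.2 hw.2
    have hD : 0 < max (dist (toC v) (toC w)) 1 := lt_max_of_lt_right one_pos
    have hD1 : max (dist (toC v) (toC w)) 1 ≤ 1 + dist (toC v) (toC w) :=
      max_le (by linarith) (by linarith [dist_nonneg (x := toC v) (y := toC w)])
    have h5 : ((1 + dist (toC v) (toC w)) * n) ^ (-(1 / 4) : ℝ) ≤
        (max (dist (toC v) (toC w)) 1) ^ (-(1 / 4) : ℝ) * (n : ℝ) ^ (-(1 / 4) : ℝ) := by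
      rw [Real.mul_rpow (by linarith) hn0.le]
      refine mul_le_mul_of_nonneg_right ?_ (Real.rpow_nonneg hn0.le _)
      exact Real.rpow_le_rpow_of_nonpos hD hD1 (by norm_num)
    have h6 : prB n {T | ∃ u, k₀ * n ≤ Metric.diam (clS T u) ∧ v ∈ OutV T u ∧ w ∈ OutV T u} ≤
        C₁ * ((max (dist (toC v) (toC w)) 1) ^ (-(1 / 4) : ℝ) * (n : ℝ) ^ (-(1 / 4) : ℝ)) := by
      refine h4.trans ?_
      refine (mul_le_mul_of_nonneg_right (le_max_left C₀ 0)
        (Real.rpow_nonneg (by positivity) _)).trans ?_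
      exact mul_le_mul_of_nonneg_left h5 hC₁0
    have h7 : (max (dist (toC v) (toC w)) 1) ^ (-s) * (max (dist (toC v) (toC w)) 1) ^ (-(1 / 4) : ℝ)
        = (max (dist (toC v) (toC w)) 1) ^ (-(2 * q)) := by
      rw [← Real.rpow_add hD]; congr 1; rw [hq]; ring
    calc (max (dist (toC v) (toC w)) 1) ^ (-s) * prB n _
        ≤ (max (dist (toC v) (toC w)) 1) ^ (-s) *
          (C₁ * ((max (dist (toC v) (toC w)) 1) ^ (-(1 / 4) : ℝ) * (n : ℝ) ^ (-(1 / 4) : ℝ))) :=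
          mul_le_mul_of_nonneg_left h6 (Real.rpow_nonneg hD.le _)
      _ = C₁ * (n : ℝ) ^ (-(1 / 4) : ℝ) * ((max (dist (toC v) (toC w)) 1) ^ (-s) *
          (max (dist (toC v) (toC w)) 1) ^ (-(1 / 4) : ℝ)) := by ring
      _ = _ := by rw [h7]
  have hsub : bulkF n (κ * n) ⊆ Box n := filter_subset _ _
  calc _ ≤ ∑ v ∈ bulkF n (κ * n), ∑ w ∈ bulkF n (κ * n),
        C₁ * (n : ℝ) ^ (-(1 / 4) : ℝ) * (max (dist (toC v) (toC w)) 1) ^ (-(2 * q)) :=
        sum_le_sum fun v hv => sum_le_sum fun w hw => h3 v hv w hw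
    _ ≤ ∑ v ∈ bulkF n (κ * n),
        C₁ * (n : ℝ) ^ (-(1 / 4) : ℝ) * ((1 + 2 / (1 - q)) * (n : ℝ) ^ (1 - q)) ^ 2 := by
        refine sum_le_sum fun v hv => ?_
        rw [← mul_sum]
        refine mul_le_mul_of_nonneg_left ?_ (by positivity)
        refine le_trans ?_ (sum_box hq1 hq0 hn (hsub hv))
        exact sum_le_sum_of_subset_of_nonneg hsub fun w _ _ =>
          Real.rpow_nonneg (le_trans zero_le_one (le_max_right _ _)) _
    _ = ((bulkF n (κ * n)).card : ℝ) *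
        (C₁ * (n : ℝ) ^ (-(1 / 4) : ℝ) * ((1 + 2 / (1 - q)) * (n : ℝ) ^ (1 - q)) ^ 2) := by
        rw [sum_const, nsmul_eq_mul]
    _ ≤ (4 * (n : ℝ) ^ 2) *
        (C₁ * (n : ℝ) ^ (-(1 / 4) : ℝ) * ((1 + 2 / (1 - q)) * (n : ℝ) ^ (1 - q)) ^ 2) := by
        refine mul_le_mul_of_nonneg_right ?_ (by positivity)
        refine le_trans ?_ (card_Box n hn)
        exact_mod_cast card_le_card hsub
    _ = C₁ * 4 * (1 + 2 / (1 - q)) ^ 2 * ((n : ℝ) ^ (2 : ℝ) * (n : ℝ) ^ (-(1 / 4) : ℝ) *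
        ((n : ℝ) ^ (1 - q) * (n : ℝ) ^ (1 - q))) := by
        rw [Real.rpow_two]; ring
    _ = C₁ * 4 * (1 + 2 / (1 - q)) ^ 2 * (n : ℝ) ^ (7 / 2 - s) := by
        rw [← Real.rpow_add hn0, ← Real.rpow_add hn0, ← Real.rpow_add hn0]
        congr 2
        rw [hq]; ring

end Pool.Agent.Perc.PercD

end PartpercDLower

section PartpercDLowerB

/-!
# No efficient covers with high probability
-/

set_option autoImplicit false

namespace Pool.Agent.Perc.PercD

open Finset Filter Topology Pool.Agent.PercD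

open Classical in
theorem ncard_bulk {n : ℕ} {r : ℝ} (hr : 0 ≤ r) (T : Finset Edg) (u : ℤ × ℤ) :
    ({v | v ∈ OutV T u ∧ Bulk n r v} : Set (ℤ × ℤ)).ncard =
      ((bulkF n r).filter (fun v => v ∈ OutV T u)).card := by
  rw [← Set.ncard_coe_finset]
  congr 1
  ext v
  simp only [bulkF, coe_filter, mem_filter, Set.mem_ofPred_eq]
  constructor
  · rintro ⟨h1, h2⟩
    refine ⟨⟨?_, h2⟩, h1⟩
    obtain ⟨a, b, c, d⟩ := h2
    unfold Box
    rw [mem_product, mem_Icc, mem_Icc]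
    have a1 : (0 : ℝ) ≤ v.1 := hr.trans a
    have b1 : (v.1 : ℝ) ≤ n := by linarith
    have c1 : (0 : ℝ) ≤ v.2 := hr.trans c
    have d1 : (v.2 : ℝ) ≤ n := by linarith
    exact ⟨⟨by exact_mod_cast a1, by exact_mod_cast b1⟩, by exact_mod_cast c1, by exact_mod_cast d1⟩
  · rintro ⟨⟨_, h2⟩, h1⟩
    exact ⟨h1, h2⟩

open Classical in
/-- Many outer vertices with small energy exclude efficient covers. -/
theorem not_cov {s κ c A : ℝ} (hs0 : 0 ≤ s) (hc : 0 < c) (hA : 0 < A) {n : ℕ}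
    (hn : 1 ≤ n) {T : Finset Edg} {u : ℤ × ℤ}
    (hcard : c * (n : ℝ) ^ (7 / 4 : ℝ) ≤ ((bulkF n (κ * n)).filter (fun v => v ∈ OutV T u)).card)
    (hen : enF s κ n T u ≤ A * (n : ℝ) ^ (7 / 2 - s)) {K : Set ℂ}
    (hK : ∀ v ∈ OutV T u, toC v / n ∈ K) : ¬ Cov s (1 / n) (c ^ 2 / (2 * A)) K := by
  intro hcov
  have hn0 : (0 : ℝ) < n := by exact_mod_cast hn
  set I := (bulkF n (κ * n)).filter (fun v => v ∈ OutV T u) with hI
  have h1 := hcov.energy hs0 (by positivity : (0 : ℝ) < 1 / n) I (fun v => toC v / n) (by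
    intro v hv
    rw [hI, mem_filter] at hv
    exact hK v hv.2)
  have h2 : ∀ v w : ℤ × ℤ, (max (dist (toC v / n) (toC w / n)) (1 / n)) ^ (-s) =
      (n : ℝ) ^ s * (max (dist (toC v) (toC w)) 1) ^ (-s) := by
    intro v w
    have e : dist (toC v / n) (toC w / n) = dist (toC v) (toC w) / n := by
      rw [dist_eq_norm, dist_eq_norm, ← sub_div, norm_div, Complex.norm_natCast]
    rw [e, max_div_div_right hn0.le, Real.div_rpow (le_trans zero_le_one (le_max_right _ _)) hn0.le,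
      Real.rpow_neg hn0.le s, div_inv_eq_mul, mul_comm]
  simp only [h2] at h1
  simp only [← mul_sum] at h1
  have h3 : ∑ i ∈ I, ∑ j ∈ I, (max (dist (toC i) (toC j)) 1) ^ (-s) = enF s κ n T u := rfl
  rw [h3] at h1
  have h4 : (c * (n : ℝ) ^ (7 / 4 : ℝ)) ^ 2 ≤ (I.card : ℝ) ^ 2 :=
    pow_le_pow_left₀ (by positivity) hcard 2
  have h5 : c ^ 2 / (2 * A) * ((n : ℝ) ^ s * enF s κ n T u) ≤
      c ^ 2 / (2 * A) * ((n : ℝ) ^ s * (A * (n : ℝ) ^ (7 / 2 - s))) := by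
    refine mul_le_mul_of_nonneg_left ?_ (by positivity)
    exact mul_le_mul_of_nonneg_left hen (Real.rpow_nonneg hn0.le _)
  have h6 : (n : ℝ) ^ s * (A * (n : ℝ) ^ (7 / 2 - s)) = A * (n : ℝ) ^ (7 / 2 : ℝ) := by
    rw [mul_left_comm, ← Real.rpow_add hn0]; congr 2; ring
  have h7 : (c * (n : ℝ) ^ (7 / 4 : ℝ)) ^ 2 = c ^ 2 * (n : ℝ) ^ (7 / 2 : ℝ) := by
    rw [mul_pow, ← Real.rpow_natCast ((n : ℝ) ^ (7 / 4 : ℝ)), ← Real.rpow_mul hn0.le]
    norm_num
  rw [h6] at h5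
  rw [h7] at h4
  have h8 : c ^ 2 / (2 * A) * (A * (n : ℝ) ^ (7 / 2 : ℝ)) = c ^ 2 * (n : ℝ) ^ (7 / 2 : ℝ) / 2 := by
    field_simp
  have h9 : 0 < c ^ 2 * (n : ℝ) ^ (7 / 2 : ℝ) := by positivity
  linarith

/-- With high probability there are no efficient covers at the scale of the lattice. -/
theorem lower_cov (h2 : TargetB2) (h3 : TargetB3) {s : ℝ} (hs0 : 0 ≤ s) (hs : s < 7 / 4)
    {sel : ℕ → Finset Edg → ℤ × ℤ} (hsel : ∀ n, IsSel n (sel n))
    {KK : ℕ → Finset Edg → Set ℂ}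
    (hK : ∀ n, ∀ T ⊆ boxE n, ∀ v ∈ OutV T (sel n T), toC v / n ∈ KK n T) {ε : ℝ} (hε : 0 < ε) :
    ∃ η : ℝ, 0 < η ∧ ∀ᶠ n : ℕ in atTop, prB n {T | Cov s (1 / n) η (KK n T)} ≤ ε := by
  classical
  obtain ⟨κ, k₀, c, hκ, hk₀, hc, h3⟩ := h3 (ε / 2) (by positivity)
  obtain ⟨C, hC0, hC⟩ := energy_bound h2 hs0 hs hκ hk₀
  set A : ℝ := 2 * C / ε + 1 with hA
  have hA0 : 0 < A := by positivity
  refine ⟨c ^ 2 / (2 * A), by positivity, ?_⟩
  filter_upwards [h3 sel hsel, eventually_ge_atTop 1] with n hn hn1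
  have hn0 : (0 : ℝ) < n := by exact_mod_cast hn1
  set X : Set (Finset Edg) := {T | ¬ (k₀ * n ≤ Metric.diam (clS T (sel n T)) ∧
      c * (n : ℝ) ^ (7 / 4 : ℝ) ≤ ({v | v ∈ OutV T (sel n T) ∧ Bulk n (κ * n) v}).ncard)} with hX
  set Y : Set (Finset Edg) := {T | A * (n : ℝ) ^ (7 / 2 - s) ≤
    if k₀ * n ≤ Metric.diam (clS T (sel n T)) then enF s κ n T (sel n T) else 0} with hY
  have hY1 : prB n Y ≤ ε / 2 := by
    have h5 := prB_markov (n := n) (g := fun T => if k₀ * n ≤ Metric.diam (clS T (sel n T)) then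
      enF s κ n T (sel n T) else 0) (t := A * (n : ℝ) ^ (7 / 2 - s)) (A := Y) (by
        intro T _
        split_ifs
        · exact sum_nonneg fun v _ => sum_nonneg fun w _ =>
            Real.rpow_nonneg (le_trans zero_le_one (le_max_right _ _)) _
        · exact le_rfl) (by positivity) (fun T _ hT => hT)
    refine h5.trans ?_
    rw [div_le_iff₀ (by positivity)]
    refine (hC sel n hn1).trans ?_
    have h6 : C ≤ ε / 2 * A := by
      rw [hA]
      have : ε / 2 * (2 * C / ε + 1) = C + ε / 2 := by field_simp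
      rw [this]; linarith
    calc C * (n : ℝ) ^ (7 / 2 - s) ≤ (ε / 2 * A) * (n : ℝ) ^ (7 / 2 - s) :=
          mul_le_mul_of_nonneg_right h6 (Real.rpow_nonneg hn0.le _)
      _ = ε / 2 * (A * (n : ℝ) ^ (7 / 2 - s)) := by ring
  have h7 := prB_union (n := n) X Y {T | Cov s (1 / n) (c ^ 2 / (2 * A)) (KK n T)} (by
    intro T hTb hT
    by_contra hcon
    push Not at hcon
    obtain ⟨hx, hy⟩ := hcon
    rw [hX, Set.mem_ofPred_eq, not_not] at hx
    rw [hY, Set.mem_ofPred_eq, not_le, if_pos hx.1] at hy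
    rw [ncard_bulk (by positivity)] at hx
    exact not_cov hs0 hc hA0 hn1 hx.2 hy.le (hK n T hTb) hT)
  linarith

end Pool.Agent.Perc.PercD

end PartpercDLowerB

section PartpercDLimit

/-!
# Weak limits of random compact sets: bounds for the Hausdorff dimension
-/

set_option autoImplicit false

namespace Pool.Agent.PercD

open Set Filter Topology MeasureTheory TopologicalSpace
open scoped ENNReal NNReal

/-- The open square of side `2 / 2 ^ m` centred at `z / 2 ^ m`. -/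
def cell (m : ℕ) (z : ℤ × ℤ) : Set ℂ :=
  {w | |w.re - z.1 / 2 ^ m| < 1 / 2 ^ m ∧ |w.im - z.2 / 2 ^ m| < 1 / 2 ^ m}

theorem isOpen_cell (m : ℕ) (z : ℤ × ℤ) : IsOpen (cell m z) := by
  have h1 : Continuous fun w : ℂ => |w.re - z.1 / 2 ^ m| := by fun_prop
  have h2 : Continuous fun w : ℂ => |w.im - z.2 / 2 ^ m| := by fun_prop
  exact (isOpen_lt h1 continuous_const).inter (isOpen_lt h2 continuous_const)

/-- The indices of the cells which can meet the unit square. -/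
noncomputable def idx (m : ℕ) : Finset (ℤ × ℤ) :=
  Finset.Icc (-1) (2 ^ m + 1) ×ˢ Finset.Icc (-1) (2 ^ m + 1)

open Classical in
/-- The number of cells which meet `K`. -/
noncomputable def Nm (m : ℕ) (K : Set ℂ) : ℕ := ((idx m).filter fun z => (K ∩ cell m z).Nonempty).card

/-- The weighted sum of the cell counts. -/
noncomputable def Sm (s : ℝ) (M : ℕ) (K : Set ℂ) : ℝ :=
  ∑ m ∈ Finset.range M, (1 / 2 ^ m : ℝ) ^ s * Nm m K

theorem isOpen_Sm (s lam : ℝ) (M : ℕ) :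
    IsOpen {K : NonemptyCompacts ℂ | lam < Sm s M (K : Set ℂ)} := by
  classical
  rw [isOpen_iff_forall_mem_open]
  intro K hK
  rw [mem_ofPred_eq] at hK
  set G : Set (NonemptyCompacts ℂ) := ⋂ m ∈ Finset.range M, ⋂ z ∈ (idx m).filter fun z =>
    ((K : Set ℂ) ∩ cell m z).Nonempty, {K' : NonemptyCompacts ℂ | ((K' : Set ℂ) ∩ cell m z).Nonempty}
    with hG
  refine ⟨G, ?_, ?_, ?_⟩
  · intro K' hK'
    rw [mem_ofPred_eq]
    refine lt_of_lt_of_le hK ?_
    refine Finset.sum_le_sum fun m hm => ?_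
    refine mul_le_mul_of_nonneg_left ?_ (Real.rpow_nonneg (by positivity) _)
    have : Nm m (K : Set ℂ) ≤ Nm m (K' : Set ℂ) := by
      refine Finset.card_le_card fun z hz => ?_
      rw [Finset.mem_filter] at hz ⊢
      refine ⟨hz.1, ?_⟩
      simp only [hG, mem_iInter] at hK'
      exact hK' m hm z (Finset.mem_filter.2 hz)
    exact_mod_cast this
  · refine isOpen_biInter_finset fun m _ => isOpen_biInter_finset fun z _ => ?_
    exact NonemptyCompacts.isOpen_inter_nonempty_of_isOpen (isOpen_cell m z)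
  · simp only [hG, mem_iInter]
    intro m _ z hz
    exact (Finset.mem_filter.1 hz).2

theorem dist_le_of_mem_cell {m : ℕ} {z : ℤ × ℤ} {w w' : ℂ} (h : w ∈ cell m z) (h' : w' ∈ cell m z) :
    dist w w' ≤ 4 / 2 ^ m := by
  have h1 : |w.re - w'.re| ≤ 2 / 2 ^ m := by
    have a := abs_lt.1 h.1
    have b := abs_lt.1 h'.1
    have e : (2 : ℝ) / 2 ^ m = 1 / 2 ^ m + 1 / 2 ^ m := by ring
    rw [abs_le]; constructor <;> linarith [a.1, a.2, b.1, b.2]
  have h2 : |w.im - w'.im| ≤ 2 / 2 ^ m := by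
    have a := abs_lt.1 h.2
    have b := abs_lt.1 h'.2
    have e : (2 : ℝ) / 2 ^ m = 1 / 2 ^ m + 1 / 2 ^ m := by ring
    rw [abs_le]; constructor <;> linarith [a.1, a.2, b.1, b.2]
  calc dist w w' = ‖w - w'‖ := dist_eq_norm _ _
    _ ≤ |(w - w').re| + |(w - w').im| := Complex.norm_le_abs_re_add_abs_im _
    _ ≤ 2 / 2 ^ m + 2 / 2 ^ m := add_le_add h1 h2
    _ = 4 / 2 ^ m := by ring

/-- The unit square. -/
def unitSq : Set ℂ := {w | 0 ≤ w.re ∧ w.re ≤ 1 ∧ 0 ≤ w.im ∧ w.im ≤ 1}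

theorem isClosed_unitSq : IsClosed unitSq := by
  have h1 : Continuous fun w : ℂ => w.re := by fun_prop
  have h2 : Continuous fun w : ℂ => w.im := by fun_prop
  exact (isClosed_le continuous_const h1).inter ((isClosed_le h1 continuous_const).inter
    ((isClosed_le continuous_const h2).inter (isClosed_le h2 continuous_const)))

theorem exists_cell {m : ℕ} {w : ℂ} (hw : w ∈ unitSq) : ∃ z ∈ idx m, w ∈ cell m z := by
  obtain ⟨h1, h2, h3, h4⟩ := hw
  have hp : (0 : ℝ) < 2 ^ m := by positivity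
  have aux : ∀ x : ℝ, 0 ≤ x → x ≤ 1 → ∃ k : ℤ, -1 ≤ k ∧ k ≤ 2 ^ m + 1 ∧
      |x - k / 2 ^ m| < 1 / 2 ^ m := by
    intro x hx hx1
    refine ⟨⌊x * 2 ^ m⌋, ?_, ?_, ?_⟩
    · have : 0 ≤ ⌊x * 2 ^ m⌋ := Int.floor_nonneg.2 (by positivity)
      linarith
    · have h5 : (⌊x * 2 ^ m⌋ : ℝ) ≤ 2 ^ m := (Int.floor_le _).trans (by nlinarith)
      have h6 : ⌊x * 2 ^ m⌋ ≤ 2 ^ m := by exact_mod_cast h5
      linarith
    · have h7 : x - (⌊x * 2 ^ m⌋ : ℝ) / 2 ^ m = (x * 2 ^ m - ⌊x * 2 ^ m⌋) / 2 ^ m := by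
        field_simp
      rw [h7, abs_div, abs_of_pos hp]
      refine div_lt_div_of_pos_right ?_ hp
      rw [abs_of_nonneg (by linarith [Int.floor_le (x * 2 ^ m)])]
      linarith [Int.lt_floor_add_one (x * 2 ^ m)]
  obtain ⟨a, ha1, ha2, ha3⟩ := aux w.re h1 h2
  obtain ⟨b, hb1, hb2, hb3⟩ := aux w.im h3 h4
  refine ⟨(a, b), ?_, ha3, hb3⟩
  simp only [idx, Finset.mem_product, Finset.mem_Icc]
  exact ⟨⟨ha1, ha2⟩, hb1, hb2⟩

/-- Bounded weighted cell counts bound the dimension. -/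
theorem dimH_le_of_Sm {s : ℝ≥0} {K : Set ℂ} (hK : K ⊆ unitSq) {lam : ℝ}
    (h : ∀ M, Sm s M K ≤ lam) : dimH K ≤ s := by
  classical
  refine dimH_le_of_hausdorffMeasure_ne_top ?_
  have hle : ∀ m, (1 / 2 ^ m : ℝ) ^ (s : ℝ) * Nm m K ≤ lam := by
    intro m
    refine le_trans ?_ (h (m + 1))
    exact Finset.single_le_sum (f := fun m => (1 / 2 ^ m : ℝ) ^ (s : ℝ) * (Nm m K : ℝ))
      (fun i _ => by positivity) (Finset.self_mem_range_succ m)
  have hlam : 0 ≤ lam := le_trans (by positivity) (hle 0)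
  let t : ∀ m : ℕ, {z // z ∈ (idx m).filter fun z => (K ∩ cell m z).Nonempty} → Set ℂ :=
    fun m z => cell m z.1
  have hr : Tendsto (fun m : ℕ => ENNReal.ofReal (4 / 2 ^ m)) atTop (𝓝 0) := by
    have h1 : Tendsto (fun m : ℕ => (4 : ℝ) / 2 ^ m) atTop (𝓝 0) := by
      have := (tendsto_pow_atTop_nhds_zero_of_lt_one (by norm_num : (0 : ℝ) ≤ 1 / 2)
        (by norm_num)).const_mul (4 : ℝ)
      rw [mul_zero] at this
      refine this.congr fun m => ?_
      rw [one_div, inv_pow]; rfl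
    have := (ENNReal.continuous_ofReal.tendsto 0).comp h1
    rw [ENNReal.ofReal_zero] at this
    exact this
  have hed : ∀ m z, Metric.ediam (cell m z) ≤ ENNReal.ofReal (4 / 2 ^ m) := by
    intro m z
    refine Metric.ediam_le fun x hx y hy => ?_
    rw [edist_dist]
    exact ENNReal.ofReal_le_ofReal (dist_le_of_mem_cell hx hy)
  have h1 := Measure.hausdorffMeasure_le_liminf_sum (s : ℝ) K (l := atTop)
    (fun m : ℕ => ENNReal.ofReal (4 / 2 ^ m)) hr t
    (Eventually.of_forall fun m i => hed m i.1)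
    (Eventually.of_forall fun m => by
      intro w hw
      obtain ⟨z, hz, hwz⟩ := exists_cell (m := m) (hK hw)
      exact mem_iUnion.2 ⟨⟨z, Finset.mem_filter.2 ⟨hz, ⟨w, hw, hwz⟩⟩⟩, hwz⟩)
  have h2 : ∀ m, ∑ i, Metric.ediam (t m i) ^ (s : ℝ) ≤ ENNReal.ofReal (4 ^ (s : ℝ) * lam) := by
    intro m
    calc ∑ i, Metric.ediam (t m i) ^ (s : ℝ)
        ≤ ∑ _i : {z // z ∈ (idx m).filter fun z => (K ∩ cell m z).Nonempty},
            ENNReal.ofReal ((4 / 2 ^ m : ℝ) ^ (s : ℝ)) := by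
          refine Finset.sum_le_sum fun i _ => ?_
          rw [← ENNReal.ofReal_rpow_of_nonneg (by positivity) s.coe_nonneg]
          exact ENNReal.rpow_le_rpow (hed m i.1) s.coe_nonneg
      _ = ENNReal.ofReal ((4 / 2 ^ m : ℝ) ^ (s : ℝ) * Nm m K) := by
          rw [Finset.sum_const, nsmul_eq_mul, Finset.card_univ, Fintype.card_coe,
            ENNReal.ofReal_mul (by positivity), mul_comm, ENNReal.ofReal_natCast]
          rfl
      _ ≤ _ := by
          refine ENNReal.ofReal_le_ofReal ?_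
          have h3 : (4 / 2 ^ m : ℝ) ^ (s : ℝ) = 4 ^ (s : ℝ) * (1 / 2 ^ m : ℝ) ^ (s : ℝ) := by
            rw [← Real.mul_rpow (by norm_num) (by positivity)]
            congr 1; ring
          rw [h3, mul_assoc]
          exact mul_le_mul_of_nonneg_left (hle m) (by positivity)
  have h3 : μH[(s : ℝ)] K ≤ ENNReal.ofReal (4 ^ (s : ℝ) * lam) := by
    refine h1.trans ((liminf_le_liminf (Eventually.of_forall h2)).trans ?_)
    simp
  exact ne_top_of_le_ne_top ENNReal.ofReal_ne_top h3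

variable [MeasurableSpace (NonemptyCompacts ℂ)] [BorelSpace (NonemptyCompacts ℂ)]

/-- Portmanteau in the form used below. -/
theorem measure_open_le {μs : ℕ → ProbabilityMeasure (NonemptyCompacts ℂ)}
    {ν : ProbabilityMeasure (NonemptyCompacts ℂ)} (h : Tendsto μs atTop (𝓝 ν))
    {G : Set (NonemptyCompacts ℂ)} (hG : IsOpen G) {ε : ℝ≥0∞}
    (hε : ∀ᶠ k in atTop, (μs k : Measure (NonemptyCompacts ℂ)) G ≤ ε) :
    (ν : Measure (NonemptyCompacts ℂ)) G ≤ ε := by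
  refine (ProbabilityMeasure.le_liminf_measure_open_of_tendsto h hG).trans ?_
  refine (liminf_le_liminf hε).trans ?_
  simp

/-- Lower bound: if the random compact sets have no efficient covers at scales `ρ k → 0`, the
dimension of the limit is at least `s` almost surely. -/
theorem le_dimH_ae {s : ℝ≥0} (hs : 0 < s) {μs : ℕ → ProbabilityMeasure (NonemptyCompacts ℂ)}
    {ν : ProbabilityMeasure (NonemptyCompacts ℂ)} (h : Tendsto μs atTop (𝓝 ν)) {ρ : ℕ → ℝ}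
    (hρ : Tendsto ρ atTop (𝓝 0))
    (H : ∀ ε : ℝ, 0 < ε → ∃ η : ℝ, 0 < η ∧ ∀ᶠ k in atTop,
      (μs k : Measure (NonemptyCompacts ℂ)) {K : NonemptyCompacts ℂ | Cov s (ρ k) η (K : Set ℂ)} ≤ ENNReal.ofReal ε) :
    ∀ᵐ K : NonemptyCompacts ℂ ∂(ν : Measure (NonemptyCompacts ℂ)), (s : ℝ≥0∞) ≤ dimH (K : Set ℂ) := by
  have key : ∀ ε : ℝ, 0 < ε →
      (ν : Measure (NonemptyCompacts ℂ)) {K : NonemptyCompacts ℂ | ¬ (s : ℝ≥0∞) ≤ dimH (K : Set ℂ)} ≤ ENNReal.ofReal ε := by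
    intro ε hε
    obtain ⟨η, hη, hk⟩ := H ε hε
    have h1 : ∀ m : ℕ, (ν : Measure (NonemptyCompacts ℂ))
        {K : NonemptyCompacts ℂ | Cov s (1 / ((m : ℝ) + 1)) η (K : Set ℂ)} ≤ ENNReal.ofReal ε := by
      intro m
      refine measure_open_le h (isOpen_Cov _ _ _) ?_
      have h2 : ∀ᶠ k in atTop, ρ k < 1 / ((m : ℝ) + 1) :=
        hρ.eventually_lt_const (by positivity)
      filter_upwards [hk, h2] with k hk h2
      refine le_trans (measure_mono ?_) hk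
      intro K hK
      exact Cov.mono s.coe_nonneg h2.le hK
    have hmono : Monotone fun m : ℕ => {K : NonemptyCompacts ℂ |
        Cov s (1 / ((m : ℝ) + 1)) η (K : Set ℂ)} := by
      intro m m' hm K hK
      refine Cov.mono s.coe_nonneg ?_ hK
      exact one_div_le_one_div_of_le (by positivity) (by exact_mod_cast Nat.add_le_add_right hm 1)
    have h3 : (ν : Measure (NonemptyCompacts ℂ)) (⋃ m : ℕ, {K : NonemptyCompacts ℂ |
        Cov s (1 / ((m : ℝ) + 1)) η (K : Set ℂ)}) ≤ ENNReal.ofReal ε := by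
      rw [hmono.measure_iUnion]
      exact iSup_le h1
    refine le_trans (measure_mono ?_) h3
    intro K hK
    rw [mem_ofPred_eq, not_le] at hK
    obtain ⟨m, hm⟩ := cov_of_dimH_lt hs K.isCompact hK hη
    exact mem_iUnion.2 ⟨m, hm⟩
  rw [ae_iff]
  refine le_antisymm ?_ zero_le
  refine ENNReal.le_of_forall_pos_le_add fun ε hε _ => ?_
  rw [zero_add]
  have h9 := key ε (by exact_mod_cast hε)
  rwa [ENNReal.ofReal_coe_nnreal] at h9

/-- Upper bound: tight weighted cell counts bound the dimension of the limit. -/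
theorem dimH_le_ae {s : ℝ≥0} {μs : ℕ → ProbabilityMeasure (NonemptyCompacts ℂ)}
    {ν : ProbabilityMeasure (NonemptyCompacts ℂ)} (h : Tendsto μs atTop (𝓝 ν))
    (hsq : ∀ᶠ k in atTop, (μs k : Measure (NonemptyCompacts ℂ))
      {K : NonemptyCompacts ℂ | ¬ (K : Set ℂ) ⊆ unitSq} = 0)
    (H : ∀ ε : ℝ, 0 < ε → ∃ lam : ℝ, ∀ M : ℕ, ∀ᶠ k in atTop,
      (μs k : Measure (NonemptyCompacts ℂ)) {K : NonemptyCompacts ℂ | lam < Sm s M (K : Set ℂ)} ≤ ENNReal.ofReal ε) :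
    ∀ᵐ K : NonemptyCompacts ℂ ∂(ν : Measure (NonemptyCompacts ℂ)), dimH (K : Set ℂ) ≤ s := by
  have hsq' : (ν : Measure (NonemptyCompacts ℂ)) {K : NonemptyCompacts ℂ | ¬ (K : Set ℂ) ⊆ unitSq} = 0 := by
    refine le_antisymm ?_ zero_le
    refine measure_open_le h ?_ (hsq.mono fun k hk => hk.le)
    exact (NonemptyCompacts.isClosed_subsets_of_isClosed isClosed_unitSq).isOpen_compl
  have key : ∀ ε : ℝ, 0 < ε →
      (ν : Measure (NonemptyCompacts ℂ)) {K : NonemptyCompacts ℂ | ¬ dimH (K : Set ℂ) ≤ s} ≤ ENNReal.ofReal ε := by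
    intro ε hε
    obtain ⟨lam, hlam⟩ := H ε hε
    have h1 : ∀ M : ℕ, (ν : Measure (NonemptyCompacts ℂ))
        {K : NonemptyCompacts ℂ | lam < Sm s M (K : Set ℂ)} ≤ ENNReal.ofReal ε :=
      fun M => measure_open_le h (isOpen_Sm _ _ _) (hlam M)
    have hmono : Monotone fun M : ℕ => {K : NonemptyCompacts ℂ | lam < Sm s M (K : Set ℂ)} := by
      intro M M' hM K hK
      have hK' : lam < Sm s M (K : Set ℂ) := hK
      refine lt_of_lt_of_le hK' ?_
      refine Finset.sum_le_sum_of_subset_of_nonneg ?_ fun i _ _ => by positivity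
      exact Finset.range_mono hM
    have h3 : (ν : Measure (NonemptyCompacts ℂ)) (⋃ M : ℕ, {K : NonemptyCompacts ℂ |
        lam < Sm s M (K : Set ℂ)}) ≤ ENNReal.ofReal ε := by
      rw [hmono.measure_iUnion]
      exact iSup_le h1
    have h4 : {K : NonemptyCompacts ℂ | ¬ dimH (K : Set ℂ) ≤ s} ⊆
        {K : NonemptyCompacts ℂ | ¬ (K : Set ℂ) ⊆ unitSq} ∪ ⋃ M : ℕ, {K : NonemptyCompacts ℂ |
          lam < Sm s M (K : Set ℂ)} := by
      intro K hK
      by_cases h5 : (K : Set ℂ) ⊆ unitSq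
      · right
        by_contra h6
        apply hK
        refine dimH_le_of_Sm h5 (lam := lam) fun M => ?_
        by_contra h7
        exact h6 (mem_iUnion.2 ⟨M, not_le.1 h7⟩)
      · left; exact h5
    refine (measure_mono h4).trans ((measure_union_le _ _).trans ?_)
    rw [hsq', zero_add]
    exact h3
  rw [ae_iff]
  refine le_antisymm ?_ zero_le
  refine ENNReal.le_of_forall_pos_le_add fun ε hε _ => ?_
  rw [zero_add]
  have h9 := key ε (by exact_mod_cast hε)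
  rwa [ENNReal.ofReal_coe_nnreal] at h9

end Pool.Agent.PercD

end PartpercDLimit
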