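import Pool.Agent.Lib.MP_6bd702_z.Z009
import Pool.Agent.Lib.MP_6bd702_z.Z002
import Pool.Agent.Lib.MP_6bd702_z.Z010

section PartpercDUpper

/-!
# The expected number of cells met by the outer perimeter
-/

set_option autoImplicit false

namespace Pool.Agent.Perc.PercD

open Finset Filter Topology Pool.Agent.PercD

/-- The one dimensional sum over the cell indices (left end). -/
theorem sum_idx_left {m : ℕ} : ∑ a ∈ Icc (-1 : ℤ) (2 ^ m + 1), (max (a : ℝ) 1) ^ (-(1 / 4) : ℝ) ≤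
    (1 + 2 / (1 - 1 / 4)) * ((2 : ℝ) ^ m * 2) ^ (1 - 1 / 4 : ℝ) := by
  have h1 := sum_abs_rpow (q := 1 / 4) (by norm_num) (by norm_num) (N := 2 ^ m + 1)
    (Nat.le_add_left 1 _)
  have h2 : ∑ a ∈ Icc (-1 : ℤ) (2 ^ m + 1), (max (a : ℝ) 1) ^ (-(1 / 4) : ℝ) ≤
      ∑ a ∈ Icc (-((2 ^ m + 1 : ℕ) : ℤ)) ((2 ^ m + 1 : ℕ) : ℤ), (max |(a : ℝ)| 1) ^ (-(1 / 4) : ℝ) := by
    calc ∑ a ∈ Icc (-1 : ℤ) (2 ^ m + 1), (max (a : ℝ) 1) ^ (-(1 / 4) : ℝ)
        = ∑ a ∈ Icc (-1 : ℤ) (2 ^ m + 1), (max |(a : ℝ)| 1) ^ (-(1 / 4) : ℝ) := by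
          refine sum_congr rfl fun a ha => ?_
          rw [mem_Icc] at ha
          rcases lt_or_ge a 0 with h | h
          · have : a = -1 := by omega
            subst this; norm_num
          · rw [abs_of_nonneg (by exact_mod_cast h)]
      _ ≤ _ := by
          refine sum_le_sum_of_subset_of_nonneg ?_ fun a _ _ =>
            Real.rpow_nonneg (le_trans zero_le_one (le_max_right _ _)) _
          intro a ha
          rw [mem_Icc] at ha ⊢
          have : (0 : ℤ) < 2 ^ m := by positivity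
          push_cast
          constructor <;> omega
  refine h2.trans (h1.trans ?_)
  refine mul_le_mul_of_nonneg_left ?_ (by norm_num)
  refine Real.rpow_le_rpow (by positivity) ?_ (by norm_num)
  push_cast
  have : (1 : ℝ) ≤ 2 ^ m := one_le_pow₀ (by norm_num)
  linarith

/-- The one dimensional sum over the cell indices (right end). -/
theorem sum_idx_right {m : ℕ} :
    ∑ a ∈ Icc (-1 : ℤ) (2 ^ m + 1), (max ((2 : ℝ) ^ m - a) 1) ^ (-(1 / 4) : ℝ) ≤
    (1 + 2 / (1 - 1 / 4)) * ((2 : ℝ) ^ m * 2) ^ (1 - 1 / 4 : ℝ) := by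
  refine le_trans (le_of_eq ?_) (sum_idx_left (m := m))
  refine sum_nbij' (fun a => 2 ^ m - a) (fun a => 2 ^ m - a) ?_ ?_ ?_ ?_ ?_
  · intro a ha; rw [mem_Icc] at ha ⊢; constructor <;> omega
  · intro a ha; rw [mem_Icc] at ha ⊢; constructor <;> omega
  · intro a _; ring
  · intro a _; ring
  · intro a _; push_cast; rfl

/-- The weight of a cell. -/
noncomputable def wt (m : ℕ) (z : ℤ × ℤ) : ℝ :=
  ((max (z.1 : ℝ) 1) ^ (-(1 / 4) : ℝ) + (max ((2 : ℝ) ^ m - z.1) 1) ^ (-(1 / 4) : ℝ)) +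
    ((max (z.2 : ℝ) 1) ^ (-(1 / 4) : ℝ) + (max ((2 : ℝ) ^ m - z.2) 1) ^ (-(1 / 4) : ℝ))

theorem sum_wt (m : ℕ) : ∑ z ∈ idx m, wt m z ≤ 128 * ((2 : ℝ) ^ m) ^ (7 / 4 : ℝ) := by
  unfold idx
  have hA := sum_idx_left (m := m)
  have hB := sum_idx_right (m := m)
  set S₁ := ∑ a ∈ Icc (-1 : ℤ) (2 ^ m + 1), (max (a : ℝ) 1) ^ (-(1 / 4) : ℝ) with hS₁
  set S₂ := ∑ a ∈ Icc (-1 : ℤ) (2 ^ m + 1), (max ((2 : ℝ) ^ m - a) 1) ^ (-(1 / 4) : ℝ) with hS₂
  have hcard : ((Icc (-1 : ℤ) (2 ^ m + 1)).card : ℝ) ≤ 4 * 2 ^ m := by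
    rw [Int.card_Icc]
    have h1 : ((2 : ℤ) ^ m + 1 + 1 - (-1)) = ((2 ^ m + 3 : ℕ) : ℤ) := by push_cast; ring
    rw [h1, Int.toNat_natCast]; push_cast
    have : (1 : ℝ) ≤ 2 ^ m := one_le_pow₀ (by norm_num)
    linarith
  have h2 : ∑ z ∈ Icc (-1 : ℤ) (2 ^ m + 1) ×ˢ Icc (-1 : ℤ) (2 ^ m + 1), wt m z =
      ((Icc (-1 : ℤ) (2 ^ m + 1)).card : ℝ) * (S₁ + S₂) +
        ((Icc (-1 : ℤ) (2 ^ m + 1)).card : ℝ) * (S₁ + S₂) := by
    unfold wt
    rw [sum_add_distrib]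
    congr 1
    · rw [sum_product]
      simp only [sum_const, nsmul_eq_mul]
      rw [← mul_sum, sum_add_distrib]
    · rw [sum_product]
      simp only [sum_const, nsmul_eq_mul]
      rw [sum_add_distrib]
  rw [h2]
  have hp : (0 : ℝ) < 2 ^ m := by positivity
  have h3 : ((2 : ℝ) ^ m * 2) ^ (1 - 1 / 4 : ℝ) ≤ 2 * ((2 : ℝ) ^ m) ^ (3 / 4 : ℝ) := by
    rw [Real.mul_rpow hp.le (by norm_num), mul_comm]
    have e : (1 - 1 / 4 : ℝ) = 3 / 4 := by norm_num
    rw [e]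
    refine mul_le_mul_of_nonneg_right ?_ (by positivity)
    calc (2 : ℝ) ^ (3 / 4 : ℝ) ≤ (2 : ℝ) ^ (1 : ℝ) :=
          Real.rpow_le_rpow_of_exponent_le (by norm_num) (by norm_num)
      _ = 2 := Real.rpow_one 2
  have h4 : S₁ + S₂ ≤ 16 * ((2 : ℝ) ^ m) ^ (3 / 4 : ℝ) := by
    have h5 : (1 + 2 / (1 - 1 / 4 : ℝ)) * ((2 : ℝ) ^ m * 2) ^ (1 - 1 / 4 : ℝ) ≤
        8 * ((2 : ℝ) ^ m) ^ (3 / 4 : ℝ) := by
      calc _ ≤ (4 : ℝ) * (2 * ((2 : ℝ) ^ m) ^ (3 / 4 : ℝ)) := by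
            refine mul_le_mul (by norm_num) h3 (by positivity) (by norm_num)
        _ = _ := by ring
    linarith
  have hS0 : 0 ≤ S₁ + S₂ := by
    refine add_nonneg (sum_nonneg fun a _ => ?_) (sum_nonneg fun a _ => ?_) <;>
      exact Real.rpow_nonneg (le_trans zero_le_one (le_max_right _ _)) _
  have h6 : ((2 : ℝ) ^ m) ^ (7 / 4 : ℝ) = 2 ^ m * ((2 : ℝ) ^ m) ^ (3 / 4 : ℝ) := by
    rw [show (7 / 4 : ℝ) = 1 + 3 / 4 by norm_num, Real.rpow_add hp, Real.rpow_one]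
  rw [h6]
  calc _ = 2 * (((Icc (-1 : ℤ) (2 ^ m + 1)).card : ℝ) * (S₁ + S₂)) := by ring
    _ ≤ 2 * ((4 * 2 ^ m) * (16 * ((2 : ℝ) ^ m) ^ (3 / 4 : ℝ))) := by
        refine mul_le_mul_of_nonneg_left ?_ (by norm_num)
        exact mul_le_mul hcard h4 hS0 (by positivity)
    _ = _ := by ring

end Pool.Agent.Perc.PercD

end PartpercDUpper

section PartpercDUpperB

/-!
# Tightness of the weighted cell counts
-/

set_option autoImplicit false

namespace Pool.Agent.Perc.PercD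

open Finset Filter Topology Pool.Agent.PercD

theorem wt_ge {m : ℕ} (z : ℤ × ℤ) :
    (max (min (min (z.1 : ℝ) (2 ^ m - z.1)) (min (z.2 : ℝ) (2 ^ m - z.2))) 1) ^ (-(1 / 4) : ℝ) ≤
      wt m z := by
  have h0 : ∀ x : ℝ, 0 ≤ (max x 1) ^ (-(1 / 4) : ℝ) := fun x =>
    Real.rpow_nonneg (le_trans zero_le_one (le_max_right _ _)) _
  unfold wt
  have a1 := h0 z.1
  have a2 := h0 (2 ^ m - z.1)
  have a3 := h0 z.2
  have a4 := h0 (2 ^ m - z.2)
  rcases min_choice (min (z.1 : ℝ) (2 ^ m - z.1)) (min (z.2 : ℝ) (2 ^ m - z.2)) with h | h <;> rw [h]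
  · rcases min_choice (z.1 : ℝ) (2 ^ m - z.1) with h' | h' <;> rw [h'] <;> linarith
  · rcases min_choice (z.2 : ℝ) (2 ^ m - z.2) with h' | h' <;> rw [h'] <;> linarith

theorem cell_bound (h1 : TargetB1) {k₀ : ℝ} (hk₀ : 0 < k₀) (hk₁ : k₀ ≤ 1) : ∃ C : ℝ, 0 ≤ C ∧
    ∀ (sel : ℕ → Finset Edg → ℤ × ℤ) (KK : ℕ → Finset Edg → Set ℂ),
      (∀ n, 1 ≤ n → ∀ T ⊆ boxE n, 0 < Metric.diam (clS T (sel n T)) → ∀ ζ ∈ KK n T,
        ∃ v ∈ OutV T (sel n T), ‖ζ - toC v / n‖ ≤ 1 / n) →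
      ∀ (m n : ℕ), 2 * 2 ^ m ≤ n → ∀ z : ℤ × ℤ,
        prB n {T | k₀ * n ≤ Metric.diam (clS T (sel n T)) ∧ (KK n T ∩ cell m z).Nonempty} ≤
          C * wt m z := by
  obtain ⟨C₀, hC₀⟩ := h1 k₀ hk₀
  have hJ : (1 : ℝ) ≤ 24 / k₀ := by rw [le_div_iff₀ hk₀]; linarith
  have hJ0 : (0 : ℝ) < 24 / k₀ := by positivity
  refine ⟨max C₀ 1 * (24 / k₀) ^ (1 / 4 : ℝ), by positivity, ?_⟩
  intro sel KK hKK m n hmn z
  have hP : (1 : ℝ) ≤ 2 ^ m := one_le_pow₀ (by norm_num)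
  have hP0 : (0 : ℝ) < 2 ^ m := by positivity
  have hnP : 2 * (2 : ℝ) ^ m ≤ n := by exact_mod_cast hmn
  have hn0 : (0 : ℝ) < n := by linarith
  have hn1 : 1 ≤ n := by
    have : (1 : ℝ) ≤ n := by linarith
    exact_mod_cast this
  set P : ℝ := 2 ^ m with hPdef
  set j : ℝ := min (min (z.1 : ℝ) (P - z.1)) (min (z.2 : ℝ) (P - z.2)) with hj
  have hwt : (max j 1) ^ (-(1 / 4) : ℝ) ≤ wt m z := wt_ge z
  have hwt0 : 0 ≤ wt m z := le_trans (Real.rpow_nonneg (le_trans zero_le_one (le_max_right _ _)) _) hwt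
  have hcancel : (24 / k₀) ^ (1 / 4 : ℝ) * (24 / k₀) ^ (-(1 / 4) : ℝ) = 1 := by
    rw [← Real.rpow_add hJ0]; norm_num
  by_cases hjj : j < 24 / k₀
  · -- trivial bound
    refine (prB_le_one _).trans ?_
    have h2 : (24 / k₀) ^ (-(1 / 4) : ℝ) ≤ wt m z := by
      refine le_trans ?_ hwt
      exact Real.rpow_le_rpow_of_nonpos (lt_max_of_lt_right one_pos) (max_le hjj.le hJ) (by norm_num)
    calc (1 : ℝ) = 1 * ((24 / k₀) ^ (1 / 4 : ℝ) * (24 / k₀) ^ (-(1 / 4) : ℝ)) := by rw [hcancel, one_mul]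
      _ ≤ max C₀ 1 * ((24 / k₀) ^ (1 / 4 : ℝ) * wt m z) := by
          refine mul_le_mul (le_max_right _ _) ?_ (by positivity) (by positivity)
          exact mul_le_mul_of_nonneg_left h2 (by positivity)
      _ = _ := by ring
  · push Not at hjj
    have hj1 : 1 ≤ j := hJ.trans hjj
    have hj0 : 0 < j := by linarith
    have hz1 : j ≤ z.1 := (min_le_left _ _).trans (min_le_left _ _)
    have hz2 : j ≤ P - z.1 := (min_le_left _ _).trans (min_le_right _ _)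
    have hz3 : j ≤ z.2 := (min_le_right _ _).trans (min_le_left _ _)
    have hz4 : j ≤ P - z.2 := (min_le_right _ _).trans (min_le_right _ _)
    have hjP : 2 * j ≤ P := by linarith
    set d : ℝ := 3 * n / P with hd
    set w : ℝ := k₀ * n * j / (8 * P) with hw
    set c : ℤ × ℤ := (⌊(n : ℝ) * z.1 / P⌋, ⌊(n : ℝ) * z.2 / P⌋) with hc
    have hd1 : 1 ≤ d := by rw [hd, le_div_iff₀ hP0]; linarith
    have hdw : d ≤ w := by
      rw [hd, hw, div_le_div_iff₀ hP0 (by positivity)]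
      have h3 : 24 ≤ k₀ * j := by
        rw [div_le_iff₀ hk₀] at hjj; linarith
      have h4 : 3 * n * (8 * P) = 24 * (n * P) := by ring
      have h5 : k₀ * n * j * P = (k₀ * j) * (n * P) := by ring
      rw [h4, h5]
      exact mul_le_mul_of_nonneg_right h3 (by positivity)
    have hw1 : w ≤ k₀ * n / 16 := by
      rw [hw, div_le_div_iff₀ (by positivity) (by norm_num)]
      have h6 : k₀ * n * j * 16 = (k₀ * n * 8) * (2 * j) := by ring
      have h7 : k₀ * n * (8 * P) = (k₀ * n * 8) * P := by ring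
      rw [h6, h7]
      exact mul_le_mul_of_nonneg_left hjP (by positivity)
    -- distance to the boundary
    have h2w : 2 * w ≤ n * j / P - 1 := by
      have h8 : 2 * w = k₀ * (n * j / P) / 4 := by rw [hw]; field_simp; ring
      have h9 : 2 ≤ n * j / P := by
        rw [le_div_iff₀ hP0]
        nlinarith
      have h10 : k₀ * (n * j / P) ≤ 1 * (n * j / P) :=
        mul_le_mul_of_nonneg_right hk₁ (by positivity)
      rw [h8]; linarith
    have hfl : ∀ a : ℤ, j ≤ a → j ≤ P - a → 2 * w ≤ (⌊(n : ℝ) * a / P⌋ : ℝ) ∧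
        (⌊(n : ℝ) * a / P⌋ : ℝ) ≤ n - 2 * w := by
      intro a ha hb
      have h11 : n * j / P ≤ n * a / P := by gcongr
      have h12 := Int.sub_one_lt_floor ((n : ℝ) * a / P)
      have h13 := Int.floor_le ((n : ℝ) * a / P)
      have h14 : (n : ℝ) * a / P ≤ n - n * j / P := by
        have : (n : ℝ) - n * j / P = n * (P - j) / P := by field_simp
        rw [this]
        gcongr
        linarith
      constructor <;> linarith
    have hbulk : Bulk n (2 * w) c :=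
      ⟨(hfl z.1 hz1 hz2).1, (hfl z.1 hz1 hz2).2, (hfl z.2 hz3 hz4).1, (hfl z.2 hz3 hz4).2⟩
    have h15 := hC₀ n hn1 c d w hd1 hdw hw1 hbulk
    have h16 : prB n {T | k₀ * n ≤ Metric.diam (clS T (sel n T)) ∧ (KK n T ∩ cell m z).Nonempty} ≤
        C₀ * (d / w) ^ (1 / 4 : ℝ) := by
      refine le_trans (prB_mono ?_) h15
      rintro T hT ⟨hdiam, ζ, hζ, hζc⟩
      have hdpos : 0 < Metric.diam (clS T (sel n T)) := lt_of_lt_of_le (by positivity) hdiam
      obtain ⟨v, hv, hvz⟩ := hKK n hn1 T hT hdpos ζ hζ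
      refine ⟨sel n T, hdiam, v, hv, ?_⟩
      have hre : |ζ.re - v.1 / n| ≤ 1 / n := by
        have := (Complex.abs_re_le_norm _).trans hvz
        have e : (toC v / (n : ℂ)).re = v.1 / n := by
          rw [Complex.div_natCast_re]; simp [toC]
        rwa [Complex.sub_re, e] at this
      have him : |ζ.im - v.2 / n| ≤ 1 / n := by
        have := (Complex.abs_im_le_norm _).trans hvz
        have e : (toC v / (n : ℂ)).im = v.2 / n := by
          rw [Complex.div_natCast_im]; simp [toC]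
        rwa [Complex.sub_im, e] at this
      have key : ∀ (x : ℝ) (a b : ℤ), |x - a / n| ≤ 1 / n → |x - b / P| < 1 / P →
          |(a : ℝ) - (⌊(n : ℝ) * b / P⌋ : ℝ)| ≤ d := by
        intro x a b h17 h18
        have h19 : |(a : ℝ) / n - b / P| ≤ 1 / n + 1 / P := by
          calc |(a : ℝ) / n - b / P| = |(x - b / P) - (x - a / n)| := by ring_nf
            _ ≤ |x - b / P| + |x - a / n| := abs_sub _ _
            _ ≤ _ := by linarith
        have h20 : |(a : ℝ) - n * b / P| ≤ 1 + n / P := by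
          have e : (a : ℝ) - n * b / P = n * ((a : ℝ) / n - b / P) := by field_simp
          rw [e, abs_mul, abs_of_pos hn0]
          calc n * |(a : ℝ) / n - b / P| ≤ n * (1 / n + 1 / P) :=
                mul_le_mul_of_nonneg_left h19 hn0.le
            _ = _ := by field_simp
        have h21 : |(n : ℝ) * b / P - (⌊(n : ℝ) * b / P⌋ : ℝ)| ≤ 1 := by
          rw [abs_of_nonneg (by linarith [Int.floor_le ((n : ℝ) * b / P)])]
          linarith [Int.lt_floor_add_one ((n : ℝ) * b / P)]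
        have h22 : 2 ≤ (n : ℝ) / P := by rw [le_div_iff₀ hP0]; exact hnP
        calc |(a : ℝ) - (⌊(n : ℝ) * b / P⌋ : ℝ)|
            = |((a : ℝ) - n * b / P) + ((n : ℝ) * b / P - (⌊(n : ℝ) * b / P⌋ : ℝ))| := by ring_nf
          _ ≤ _ := abs_add_le _ _
          _ ≤ (1 + n / P) + 1 := add_le_add h20 h21
          _ ≤ d := by rw [hd, show 3 * (n : ℝ) / P = n / P + 2 * (n / P) by ring]; linarith
      exact ⟨key ζ.re v.1 z.1 hre hζc.1, key ζ.im v.2 z.2 him hζc.2⟩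
    have h23 : d / w = (24 / k₀) / j := by
      rw [hd, hw]; field_simp; norm_num
    have h24 : (d / w) ^ (1 / 4 : ℝ) ≤ (24 / k₀) ^ (1 / 4 : ℝ) * wt m z := by
      rw [h23, Real.div_rpow hJ0.le hj0.le, div_eq_mul_inv, ← Real.rpow_neg hj0.le]
      refine mul_le_mul_of_nonneg_left ?_ (by positivity)
      rw [max_eq_left hj1] at hwt
      exact hwt
    calc _ ≤ C₀ * (d / w) ^ (1 / 4 : ℝ) := h16
      _ ≤ max C₀ 1 * (d / w) ^ (1 / 4 : ℝ) := by
          refine mul_le_mul_of_nonneg_right (le_max_left _ _) ?_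
          exact Real.rpow_nonneg (div_nonneg (by linarith) (by linarith)) _
      _ ≤ max C₀ 1 * ((24 / k₀) ^ (1 / 4 : ℝ) * wt m z) :=
          mul_le_mul_of_nonneg_left h24 (by positivity)
      _ = _ := by ring

/-- Tightness of the weighted cell counts. -/
theorem upper_S (h1 : TargetB1) (h3 : TargetB3) {s : ℝ} (hs : 7 / 4 < s)
    {sel : ℕ → Finset Edg → ℤ × ℤ} (hsel : ∀ n, IsSel n (sel n)) {KK : ℕ → Finset Edg → Set ℂ}
    (hKK : ∀ n, 1 ≤ n → ∀ T ⊆ boxE n, 0 < Metric.diam (clS T (sel n T)) → ∀ ζ ∈ KK n T,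
        ∃ v ∈ OutV T (sel n T), ‖ζ - toC v / n‖ ≤ 1 / n) {ε : ℝ} (hε : 0 < ε) :
    ∃ lam : ℝ, ∀ M : ℕ, ∀ᶠ n : ℕ in atTop, prB n {T | lam < Sm s M (KK n T)} ≤ ε := by
  classical
  obtain ⟨κ, k₁, c, hκ, hk₁, hc, h3⟩ := h3 (ε / 2) (by positivity)
  set k₀ : ℝ := min k₁ 1 with hk₀def
  have hk₀ : 0 < k₀ := lt_min hk₁ one_pos
  obtain ⟨C, hC0, hC⟩ := cell_bound h1 hk₀ (min_le_right _ _)
  set ρ : ℝ := (2 : ℝ) ^ (7 / 4 - s) with hρ
  have hρ0 : 0 < ρ := Real.rpow_pos_of_pos (by norm_num) _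
  have hρ1 : ρ < 1 := Real.rpow_lt_one_of_one_lt_of_neg (by norm_num) (by linarith)
  set B : ℝ := 128 * C * (1 - ρ)⁻¹ with hB
  have hB0 : 0 ≤ B := by have : 0 < 1 - ρ := by linarith
                         positivity
  set lam : ℝ := 2 * B / ε + 1 with hlam
  have hlam0 : 0 < lam := by positivity
  refine ⟨lam, fun M => ?_⟩
  have hev : ∀ᶠ n : ℕ in atTop, 2 * 2 ^ M ≤ n := eventually_ge_atTop _
  filter_upwards [h3 sel hsel, hev] with n hn hnM
  have hn1 : 1 ≤ n := le_trans (Nat.one_le_iff_ne_zero.2 (by positivity)) hnM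
  have hn0 : (0 : ℝ) < n := by exact_mod_cast hn1
  -- expected counts
  have hE : ∀ m ∈ range M, exB n (fun T => (1 / 2 ^ m : ℝ) ^ s *
      if k₀ * n ≤ Metric.diam (clS T (sel n T)) then (Nm m (KK n T) : ℝ) else 0) ≤
        128 * C * ρ ^ m := by
    intro m hm
    rw [mem_range] at hm
    have hmn : 2 * 2 ^ m ≤ n := by
      have : 2 ^ m ≤ 2 ^ M := Nat.pow_le_pow_right (by norm_num) hm.le
      omega
    rw [exB_mul_left]
    have h4 : exB n (fun T => if k₀ * n ≤ Metric.diam (clS T (sel n T)) then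
        (Nm m (KK n T) : ℝ) else 0) ≤ ∑ z ∈ idx m, prB n {T | k₀ * n ≤
          Metric.diam (clS T (sel n T)) ∧ (KK n T ∩ cell m z).Nonempty} := by
      simp_rw [prB_eq]
      rw [← exB_sum]
      refine exB_mono fun T _ => ?_
      split_ifs with hd
      · unfold Nm
        rw [card_filter]
        push_cast
        refine sum_le_sum fun z _ => ?_
        by_cases hz : (KK n T ∩ cell m z).Nonempty
        · rw [if_pos hz, if_pos (show T ∈ {T | k₀ * n ≤ Metric.diam (clS T (sel n T)) ∧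
            (KK n T ∩ cell m z).Nonempty} from ⟨hd, hz⟩)]
        · rw [if_neg hz]; split_ifs <;> norm_num
      · exact sum_nonneg fun z _ => by split_ifs <;> norm_num
    have h5 : exB n (fun T => if k₀ * n ≤ Metric.diam (clS T (sel n T)) then
        (Nm m (KK n T) : ℝ) else 0) ≤ C * (128 * ((2 : ℝ) ^ m) ^ (7 / 4 : ℝ)) := by
      refine h4.trans ((sum_le_sum fun z _ => hC sel KK hKK m n hmn z).trans ?_)
      rw [← mul_sum]
      exact mul_le_mul_of_nonneg_left (sum_wt m) hC0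
    have hP0 : (0 : ℝ) < 2 ^ m := by positivity
    have h6 : (1 / 2 ^ m : ℝ) ^ s * ((2 : ℝ) ^ m) ^ (7 / 4 : ℝ) = ρ ^ m := by
      rw [one_div, Real.inv_rpow hP0.le, ← Real.rpow_neg hP0.le, ← Real.rpow_add hP0, hρ,
        ← Real.rpow_natCast, ← Real.rpow_natCast, ← Real.rpow_mul (by norm_num),
        ← Real.rpow_mul (by norm_num)]
      congr 1; ring
    calc _ ≤ (1 / 2 ^ m : ℝ) ^ s * (C * (128 * ((2 : ℝ) ^ m) ^ (7 / 4 : ℝ))) :=
          mul_le_mul_of_nonneg_left h5 (by positivity)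
      _ = 128 * C * ((1 / 2 ^ m : ℝ) ^ s * ((2 : ℝ) ^ m) ^ (7 / 4 : ℝ)) := by ring
      _ = _ := by rw [h6]
  have hsum : exB n (fun T => ∑ m ∈ range M, (1 / 2 ^ m : ℝ) ^ s *
      if k₀ * n ≤ Metric.diam (clS T (sel n T)) then (Nm m (KK n T) : ℝ) else 0) ≤ B := by
    rw [exB_sum]
    refine (sum_le_sum hE).trans ?_
    rw [← mul_sum, hB]
    refine mul_le_mul_of_nonneg_left ?_ (by positivity)
    have h7 := (summable_geometric_of_lt_one hρ0.le hρ1).sum_le_tsum (range M)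
      (fun i _ => pow_nonneg hρ0.le i)
    rwa [tsum_geometric_of_lt_one hρ0.le hρ1] at h7
  set X : Set (Finset Edg) := {T | ¬ (k₁ * n ≤ Metric.diam (clS T (sel n T)) ∧
      c * (n : ℝ) ^ (7 / 4 : ℝ) ≤ ({v | v ∈ OutV T (sel n T) ∧ Bulk n (κ * n) v}).ncard)} with hX
  set Y : Set (Finset Edg) := {T | lam ≤ ∑ m ∈ range M, (1 / 2 ^ m : ℝ) ^ s *
      if k₀ * n ≤ Metric.diam (clS T (sel n T)) then (Nm m (KK n T) : ℝ) else 0} with hY
  have hYb : prB n Y ≤ ε / 2 := by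
    have h8 := prB_markov (n := n) (g := fun T => ∑ m ∈ range M, (1 / 2 ^ m : ℝ) ^ s *
      if k₀ * n ≤ Metric.diam (clS T (sel n T)) then (Nm m (KK n T) : ℝ) else 0) (t := lam)
      (A := Y) (by
        intro T _
        refine sum_nonneg fun m _ => mul_nonneg (by positivity) ?_
        split_ifs <;> positivity) hlam0 (fun T _ hT => hT)
    refine h8.trans ?_
    rw [div_le_iff₀ hlam0]
    refine hsum.trans ?_
    rw [hlam]
    have : ε / 2 * (2 * B / ε + 1) = B + ε / 2 := by field_simp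
    rw [this]; linarith
  have h9 := prB_union (n := n) X Y {T | lam < Sm s M (KK n T)} (by
    intro T _ hT
    by_contra hcon
    push Not at hcon
    obtain ⟨hx, hy⟩ := hcon
    rw [hX, Set.mem_ofPred_eq, not_not] at hx
    have hd : k₀ * n ≤ Metric.diam (clS T (sel n T)) :=
      le_trans (mul_le_mul_of_nonneg_right (min_le_left _ _) hn0.le) hx.1
    apply hy
    rw [hY, Set.mem_ofPred_eq]
    simp only [if_pos hd]
    exact (le_of_lt hT : lam ≤ Sm s M (KK n T)))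
  linarith

end Pool.Agent.Perc.PercD

end PartpercDUpperB

section PartpercDAssembly

/-!
# Every subsequential limit has Hausdorff dimension `7 / 4`, from the finite volume estimates
-/

set_option autoImplicit false

namespace Pool.Agent.Perc.PercD

open Filter Topology MeasureTheory TopologicalSpace Pool.Agent.PercD BoxAux
open scoped ENNReal NNReal

section law

theorem two_pow_ne_zero (c : ℕ) : (2 : ℝ≥0∞) ^ c ≠ 0 := by positivity

theorem two_pow_ne_top (c : ℕ) : (2 : ℝ≥0∞) ^ c ≠ ∞ := ENNReal.pow_ne_top (by norm_num)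

variable [MeasurableSpace (NonemptyCompacts ℂ)]

/-- The law of `K T` for a uniform configuration `T` of the box. -/
noncomputable def lawM (n : ℕ) (K : Finset Edg → NonemptyCompacts ℂ) :
    Measure (NonemptyCompacts ℂ) :=
  ∑ T ∈ (boxE n).powerset, ((2 : ℝ≥0∞) ^ (boxE n).card)⁻¹ • Measure.dirac (K T)

instance isProb_lawM (n : ℕ) (K : Finset Edg → NonemptyCompacts ℂ) :
    IsProbabilityMeasure (lawM n K) := by
  constructor
  unfold lawM
  rw [Measure.finsetSum_apply]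
  simp only [Measure.smul_apply, measure_univ, smul_eq_mul, mul_one]
  rw [Finset.sum_const, Finset.card_powerset, nsmul_eq_mul]
  push_cast
  exact ENNReal.mul_inv_cancel (two_pow_ne_zero _) (two_pow_ne_top _)

theorem integral_lawM [BorelSpace (NonemptyCompacts ℂ)] (n : ℕ)
    (K : Finset Edg → NonemptyCompacts ℂ)
    (F : BoundedContinuousFunction (NonemptyCompacts ℂ) ℝ) :
    ∫ x, F x ∂(lawM n K) = exB n (fun T => F (K T)) := by
  unfold lawM exB
  rw [integral_finsetSum_measure]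
  · simp only [integral_smul_measure]
    rw [Finset.sum_div]
    refine Finset.sum_congr rfl fun T _ => ?_
    rw [integral_dirac' _ _ F.continuous.stronglyMeasurable]
    rw [ENNReal.toReal_inv, ENNReal.toReal_pow, ENNReal.toReal_ofNat, smul_eq_mul]
    ring
  · intro T _
    refine Integrable.smul_measure ?_ (ENNReal.inv_ne_top.2 (two_pow_ne_zero _))
    exact F.integrable _

theorem lawM_apply (n : ℕ) (K : Finset Edg → NonemptyCompacts ℂ)
    {A : Set (NonemptyCompacts ℂ)} (hA : MeasurableSet A) :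
    lawM n K A = ENNReal.ofReal (prB n {T | K T ∈ A}) := by
  classical
  unfold lawM prB
  rw [Measure.finsetSum_apply]
  simp only [Measure.smul_apply, Measure.dirac_apply' _ hA, smul_eq_mul]
  rw [← Finset.mul_sum]
  have h1 : ∑ T ∈ (boxE n).powerset, A.indicator (1 : NonemptyCompacts ℂ → ℝ≥0∞) (K T) =
      (((boxE n).powerset.filter fun T => T ∈ {T | K T ∈ A}).card : ℝ≥0∞) := by
    rw [Finset.card_filter]
    push_cast
    refine Finset.sum_congr rfl fun T _ => ?_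
    simp [Set.indicator_apply]
  rw [h1, ENNReal.ofReal_div_of_pos (by positivity), ENNReal.ofReal_natCast,
    ENNReal.ofReal_pow (by norm_num), ENNReal.ofReal_ofNat, div_eq_mul_inv, mul_comm]

end law

/-- The set of configurations is irrelevant outside the box. -/
theorem prB_congr {n : ℕ} {A B : Set (Finset Edg)} (h : ∀ T ⊆ boxE n, T ∈ A ↔ T ∈ B) :
    prB n A = prB n B :=
  le_antisymm (prB_mono fun T hT hA => (h T hT).1 hA) (prB_mono fun T hT hB => (h T hT).2 hB)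

variable [MeasurableSpace (NonemptyCompacts ℂ)] [BorelSpace (NonemptyCompacts ℂ)]

/-- The main theorem for random compact sets which are close to the set of the outer vertices. -/
theorem dimH_limit (h1 : TargetB1) (h2 : TargetB2) (h3 : TargetB3)
    {sel : ℕ → Finset Edg → ℤ × ℤ} (hsel : ∀ n, IsSel n (sel n))
    (KK : ℕ → Finset Edg → NonemptyCompacts ℂ)
    (hK1 : ∀ n, ∀ T ⊆ boxE n, ∀ v ∈ OutV T (sel n T), toC v / n ∈ KK n T)
    (hK2 : ∀ n, 1 ≤ n → ∀ T ⊆ boxE n, 0 < Metric.diam (clS T (sel n T)) → ∀ ζ ∈ KK n T,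
      ∃ v ∈ OutV T (sel n T), ‖ζ - toC v / n‖ ≤ 1 / n)
    (hK3 : ∀ n, 1 ≤ n → ∀ T ⊆ boxE n, (KK n T : Set ℂ) ⊆ unitSq)
    {φ : ℕ → ℕ} (hφ : Tendsto φ atTop atTop) (ν : Measure (NonemptyCompacts ℂ))
    [IsProbabilityMeasure ν]
    (hν : ∀ F : BoundedContinuousFunction (NonemptyCompacts ℂ) ℝ,
      Tendsto (fun k => exB (φ k) fun T => F (KK (φ k) T)) atTop (𝓝 (∫ K, F K ∂ν))) :
    ∀ᵐ K : NonemptyCompacts ℂ ∂ν, dimH (K : Set ℂ) = 7 / 4 := by
  set μs : ℕ → ProbabilityMeasure (NonemptyCompacts ℂ) :=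
    fun k => ⟨lawM (φ k) (KK (φ k)), isProb_lawM _ _⟩ with hμs
  set ν' : ProbabilityMeasure (NonemptyCompacts ℂ) := ⟨ν, inferInstance⟩ with hν'
  have hlim : Tendsto μs atTop (𝓝 ν') := by
    rw [ProbabilityMeasure.tendsto_iff_forall_integral_tendsto]
    intro F
    have := hν F
    simp only [hμs, hν', ProbabilityMeasure.coe_mk]
    simp only [integral_lawM]
    exact this
  -- upper bounds
  have hup : ∀ s : ℝ≥0, (7 / 4 : ℝ) < s →
      ∀ᵐ K : NonemptyCompacts ℂ ∂ν, dimH (K : Set ℂ) ≤ s := by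
    intro s hs
    refine dimH_le_ae (ν := ν') hlim ?_ ?_
    · filter_upwards [hφ.eventually_ge_atTop 1] with k hk
      have hm : MeasurableSet {K : NonemptyCompacts ℂ | ¬ (K : Set ℂ) ⊆ unitSq} :=
        (NonemptyCompacts.isClosed_subsets_of_isClosed isClosed_unitSq).isOpen_compl.measurableSet
      have e : prB (φ k) {T | KK (φ k) T ∈ {K : NonemptyCompacts ℂ | ¬ (K : Set ℂ) ⊆ unitSq}} = 0 := by
        refine le_antisymm ?_ (prB_nonneg _)
        have h4 : prB (φ k) {T | KK (φ k) T ∈ {K : NonemptyCompacts ℂ | ¬ (K : Set ℂ) ⊆ unitSq}} ≤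
            prB (φ k) ∅ := prB_mono fun T hT hT' => hT' (hK3 (φ k) hk T hT)
        refine h4.trans (le_of_eq ?_)
        unfold prB; simp
      change lawM (φ k) (KK (φ k)) _ = 0
      rw [lawM_apply _ _ hm, e, ENNReal.ofReal_zero]
    · intro ε hε
      obtain ⟨lam, hlam⟩ := upper_S h1 h3 hs hsel (KK := fun n T => (KK n T : Set ℂ)) hK2 hε
      refine ⟨lam, fun M => ?_⟩
      filter_upwards [hφ.eventually (hlam M)] with k hk
      change lawM (φ k) (KK (φ k)) _ ≤ _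
      rw [lawM_apply _ _ (isOpen_Sm _ _ _).measurableSet]
      exact ENNReal.ofReal_le_ofReal hk
  -- lower bounds
  have hlow : ∀ s : ℝ≥0, 0 < s → (s : ℝ) < 7 / 4 →
      ∀ᵐ K : NonemptyCompacts ℂ ∂ν, (s : ℝ≥0∞) ≤ dimH (K : Set ℂ) := by
    intro s hs0 hs
    refine le_dimH_ae (ν := ν') hs0 hlim (ρ := fun k => 1 / (φ k : ℝ)) ?_ ?_
    · exact (tendsto_one_div_atTop_nhds_zero_nat (𝕜 := ℝ)).comp hφ
    · intro ε hε
      obtain ⟨η, hη, hev⟩ := lower_cov h2 h3 s.coe_nonneg hs hsel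
        (KK := fun n T => (KK n T : Set ℂ)) hK1 hε
      refine ⟨η, hη, ?_⟩
      filter_upwards [hφ.eventually hev] with k hk
      change lawM (φ k) (KK (φ k)) _ ≤ _
      rw [lawM_apply _ _ (isOpen_Cov _ _ _).measurableSet]
      exact ENNReal.ofReal_le_ofReal hk
  -- conclusion
  have hup' : ∀ᵐ K : NonemptyCompacts ℂ ∂ν, ∀ m : ℕ,
      dimH (K : Set ℂ) ≤ ((7 / 4 + 1 / ((m : ℝ≥0) + 1) : ℝ≥0) : ℝ≥0∞) := by
    rw [ae_all_iff]
    intro m
    refine hup _ ?_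
    push_cast
    have : (0 : ℝ) < 1 / ((m : ℝ) + 1) := by positivity
    linarith
  have hlow' : ∀ᵐ K : NonemptyCompacts ℂ ∂ν, ∀ m : ℕ,
      ((7 / 4 - 1 / ((m : ℝ≥0) + 1) : ℝ≥0) : ℝ≥0∞) ≤ dimH (K : Set ℂ) := by
    rw [ae_all_iff]
    intro m
    have h5 : (1 : ℝ≥0) / ((m : ℝ≥0) + 1) ≤ 1 := by
      rw [div_le_one (by positivity)]; exact le_add_of_nonneg_left (zero_le)
    have h6 : (1 : ℝ≥0) / ((m : ℝ≥0) + 1) < 7 / 4 := by
      refine lt_of_le_of_lt h5 ?_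
      rw [lt_div_iff₀ (by norm_num)]; norm_num
    refine hlow _ (tsub_pos_of_lt h6) ?_
    rw [NNReal.coe_sub h6.le]
    push_cast
    have : (0 : ℝ) < 1 / ((m : ℝ) + 1) := by positivity
    linarith
  filter_upwards [hup', hlow'] with K hKu hKl
  have hlim0 : Tendsto (fun m : ℕ => (1 : ℝ≥0) / ((m : ℝ≥0) + 1)) atTop (𝓝 0) :=
    tendsto_one_div_add_atTop_nhds_zero_nat
  have e74 : ((7 / 4 : ℝ≥0) : ℝ≥0∞) = 7 / 4 := by
    rw [ENNReal.coe_div (by norm_num)]; norm_num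
  apply le_antisymm
  · have h7 : Tendsto (fun m : ℕ => ((7 / 4 + 1 / ((m : ℝ≥0) + 1) : ℝ≥0) : ℝ≥0∞)) atTop
        (𝓝 ((7 / 4 + 0 : ℝ≥0) : ℝ≥0∞)) :=
      ENNReal.tendsto_coe.2 (tendsto_const_nhds.add hlim0)
    rw [add_zero, e74] at h7
    exact ge_of_tendsto' h7 hKu
  · have h7 : Tendsto (fun m : ℕ => ((7 / 4 - 1 / ((m : ℝ≥0) + 1) : ℝ≥0) : ℝ≥0∞)) atTop
        (𝓝 ((7 / 4 - 0 : ℝ≥0) : ℝ≥0∞)) :=
      ENNReal.tendsto_coe.2 (tendsto_const_nhds.sub hlim0)
    rw [tsub_zero, e74] at h7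
    exact le_of_tendsto' h7 hKl

omit [MeasurableSpace (NonemptyCompacts ℂ)] [BorelSpace (NonemptyCompacts ℂ)] in
theorem clS_sub {n : ℕ} {T : Finset Edg} (hT : T ⊆ boxE n) {u : ℤ × ℤ} (hu : u ∈ Box n) {z : ℂ}
    (hz : z ∈ clS T u) : 0 ≤ z.re ∧ z.re ≤ n ∧ 0 ≤ z.im ∧ z.im ≤ n := by
  have hv : ∀ v ∈ Box n, 0 ≤ (toC v).re ∧ (toC v).re ≤ n ∧ 0 ≤ (toC v).im ∧ (toC v).im ≤ n := by
    intro v hv
    unfold Box at hv
    rw [Finset.mem_product, Finset.mem_Icc, Finset.mem_Icc] at hv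
    obtain ⟨⟨a, b⟩, c, d⟩ := hv
    have e1 : (toC v).re = v.1 := by simp [toC]
    have e2 : (toC v).im = v.2 := by simp [toC]
    rw [e1, e2]
    exact ⟨by exact_mod_cast a, by exact_mod_cast b, by exact_mod_cast c, by exact_mod_cast d⟩
  rw [mem_clS] at hz
  rcases hz with ⟨w, hw, rfl⟩ | ⟨e, he, _, hseg⟩
  · exact hv w (clV_subset_box hT hu hw)
  · obtain ⟨ht, hh⟩ := mem_boxE.1 (hT he)
    obtain ⟨a1, a2, a3, a4⟩ := hv _ ht
    obtain ⟨b1, b2, b3, b4⟩ := hv _ hh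
    obtain ⟨x, y, hx, hy, hxy, rfl⟩ := hseg
    simp only [Complex.add_re, Complex.add_im, Complex.real_smul, Complex.mul_re, Complex.mul_im,
      Complex.ofReal_re, Complex.ofReal_im, zero_mul, sub_zero, add_zero]
    refine ⟨by positivity, ?_, by positivity, ?_⟩
    · nlinarith
    · nlinarith

omit [MeasurableSpace (NonemptyCompacts ℂ)] [BorelSpace (NonemptyCompacts ℂ)] in
/-- The trace theorem. -/
theorem targetTrace_of (h1 : TargetB1) (h2 : TargetB2) (h3 : TargetB3) : TargetTrace := by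
  intro _ _ sel φ ν _ hsel hφ hν
  refine dimH_limit h1 h2 h3 hsel (fun n T => perK n T (sel n T)) ?_ ?_ ?_ hφ.tendsto_atTop ν hν
  · intro n T _ v hv
    exact ⟨toC v, toC_mem_frontier hv, rfl⟩
  · intro n hn T _ hd ζ hζ
    obtain ⟨z, hz, rfl⟩ := hζ
    obtain ⟨v, hv, hvz⟩ := exists_outV hd hz
    refine ⟨v, hv, ?_⟩
    have hn0 : (0 : ℝ) < n := by exact_mod_cast hn
    simp only
    rw [← sub_div, norm_div, Complex.norm_natCast]
    exact div_le_div_of_nonneg_right hvz hn0.le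
  · intro n hn T hT ζ hζ
    obtain ⟨z, hz, rfl⟩ := hζ
    have hn0 : (0 : ℝ) < n := by exact_mod_cast hn
    obtain ⟨a, b, c, d⟩ := clS_sub hT (hsel n T hT).1 (frontier_outU_sub T _ hz)
    simp only [unitSq, Set.mem_ofPred_eq, Complex.div_natCast_re, Complex.div_natCast_im]
    exact ⟨by positivity, by rw [div_le_one hn0]; exact b, by positivity,
      by rw [div_le_one hn0]; exact d⟩

end Pool.Agent.Perc.PercD

end PartpercDAssembly
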