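import Pool.Agent.Lib.MP_6bd702_z.Z009
import Pool.Agent.Lib.MP_6bd702_z.Z008
import Pool.Agent.Lib.MP_6bd702_z.Z011
import Pool.Agent.Lib.MP_6bd702_z.Z005

section PartpercDCurveExist

/-!
# Tightness of the outer perimeters in the curve metric, from the numbers of arcs
-/

set_option autoImplicit false

namespace Pool.Agent.PercD

open Set Filter Topology MeasureTheory TopologicalSpace
open Pool.Agent.Perc
open Pool.Agent.Perc.PercD (two_pow_ne_zero two_pow_ne_top)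
open scoped ENNReal NNReal

/-- The numbers of arcs of the rescaled outer perimeters are bounded in probability. -/
def TargetCuts : Prop := ∀ κ ε : ℝ, 0 < κ → 0 < ε → ∃ M : ℕ, ∀ sel : ℕ → Finset Edg → ℤ × ℤ,
  (∀ n, IsSel n (sel n)) → ∀ᶠ n : ℕ in atTop,
    prB n {T | ¬ ∃ m ≤ M, outerLoop n T (sel n T) ∈ Loop.Cut κ m} ≤ ε

/-- The laws of the rescaled outer perimeters are tight in the curve metric. -/
def TargetTight : Prop := ∀ sel : ℕ → Finset Edg → ℤ × ℤ, (∀ n, IsSel n (sel n)) →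
  IsTightMeasureSet (range fun n => lawC n (sel n))

/-- Every sequence of scales has a subsequence along which the laws converge. -/
def TargetExist : Prop := ∀ sel : ℕ → Finset Edg → ℤ × ℤ, (∀ n, IsSel n (sel n)) →
  ∀ φ : ℕ → ℕ, ∃ ψ : ℕ → ℕ, StrictMono ψ ∧
    ∃ μ : Measure Curve, IsProbabilityMeasure μ ∧ LimitCurve sel (φ ∘ ψ) μ

theorem integral_lawC (n : ℕ) (sel : Finset Edg → ℤ × ℤ)
    (F : BoundedContinuousFunction Curve ℝ) :
    ∫ x, F x ∂(lawC n sel) = exB n (fun T => F (outerCurve n T (sel T))) := by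
  unfold lawC exB
  rw [integral_finsetSum_measure]
  · simp only [integral_smul_measure]
    rw [Finset.sum_div]
    refine Finset.sum_congr rfl fun T _ => ?_
    rw [integral_dirac' _ _ F.continuous.stronglyMeasurable]
    rw [ENNReal.toReal_inv, ENNReal.toReal_pow, ENNReal.toReal_ofNat, smul_eq_mul]
    ring
  · intro T _
    refine Integrable.smul_measure ?_ (ENNReal.inv_ne_top.2 (two_pow_ne_zero _))
    exact F.integrable _

theorem lawC_apply (n : ℕ) (sel : Finset Edg → ℤ × ℤ) {A : Set Curve} (hA : MeasurableSet A) :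
    lawC n sel A = ENNReal.ofReal (prB n {T | outerCurve n T (sel T) ∈ A}) := by
  classical
  unfold lawC prB
  rw [Measure.finsetSum_apply]
  simp only [Measure.smul_apply, Measure.dirac_apply' _ hA, smul_eq_mul]
  rw [← Finset.mul_sum]
  have h1 : ∑ T ∈ (boxE n).powerset, A.indicator (1 : Curve → ℝ≥0∞) (outerCurve n T (sel T)) =
      (((boxE n).powerset.filter fun T => T ∈ {T | outerCurve n T (sel T) ∈ A}).card : ℝ≥0∞) := by
    rw [Finset.card_filter]
    push_cast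
    refine Finset.sum_congr rfl fun T _ => ?_
    simp [Set.indicator_apply]
  rw [h1, ENNReal.ofReal_div_of_pos (by positivity), ENNReal.ofReal_natCast,
    ENNReal.ofReal_pow (by norm_num), ENNReal.ofReal_ofNat, div_eq_mul_inv, mul_comm]

/-- Countable subadditivity. -/
theorem prB_iUnion_le (n : ℕ) (A : Set (Finset Edg)) (B : ℕ → Set (Finset Edg))
    (h : ∀ T ⊆ boxE n, T ∈ A → ∃ j, T ∈ B j) :
    ENNReal.ofReal (prB n A) ≤ ∑' j, ENNReal.ofReal (prB n (B j)) := by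
  classical
  let _ : MeasurableSpace (Finset Edg) := ⊤
  let μ : Measure (Finset Edg) :=
    ∑ T ∈ (boxE n).powerset, ((2 : ℝ≥0∞) ^ (boxE n).card)⁻¹ • Measure.dirac T
  have hμ : ∀ A : Set (Finset Edg), μ A = ENNReal.ofReal (prB n A) := by
    intro A
    show (∑ T ∈ (boxE n).powerset, ((2 : ℝ≥0∞) ^ (boxE n).card)⁻¹ • Measure.dirac T) A = _
    unfold prB
    rw [Measure.finsetSum_apply]
    simp only [Measure.smul_apply, Measure.dirac_apply' _ (show MeasurableSet A from trivial),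
      smul_eq_mul]
    rw [← Finset.mul_sum]
    have h1 : ∑ T ∈ (boxE n).powerset, A.indicator (1 : Finset Edg → ℝ≥0∞) T =
        (((boxE n).powerset.filter fun T => T ∈ A).card : ℝ≥0∞) := by
      rw [Finset.card_filter]
      push_cast
      refine Finset.sum_congr rfl fun T _ => ?_
      simp [Set.indicator_apply]
    rw [h1, ENNReal.ofReal_div_of_pos (by positivity), ENNReal.ofReal_natCast,
      ENNReal.ofReal_pow (by norm_num), ENNReal.ofReal_ofNat, div_eq_mul_inv, mul_comm]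
  have h2 : μ A ≤ μ (⋃ j, B j) := by
    rw [hμ, hμ]
    refine ENNReal.ofReal_le_ofReal (Perc.PercD.prB_mono fun T hT hA => ?_)
    exact mem_iUnion.2 (h T hT hA)
  rw [hμ] at h2
  refine h2.trans ((measure_iUnion_le _).trans (le_of_eq ?_))
  exact tsum_congr fun j => hμ _

/-- The curve stays in the unit square. -/
theorem norm_outerLoop_le {n : ℕ} {T : Finset Edg} {u : ℤ × ℤ} (hT : T ⊆ boxE n)
    (hu : u ∈ Box n) (x : ℝ) : ‖(outerLoop n T u).f x‖ ≤ 2 := by
  have h1 : (outerLoop n T u).f x ∈ ((outerLoop n T u).trace : Set ℂ) := by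
    rw [Loop.coe_trace]
    exact mem_range_self x
  rw [trace_outerLoop hT] at h1
  obtain ⟨z, hz, hzx⟩ := h1
  rw [← hzx]
  rcases Nat.eq_zero_or_pos n with hn | hn
  · subst hn
    simp
  · have hn0 : (0 : ℝ) < n := by exact_mod_cast hn
    obtain ⟨a, b, c, d⟩ := Perc.PercD.clS_sub hT hu (Perc.PercD.frontier_outU_sub T _ hz)
    simp only
    refine (Complex.norm_le_abs_re_add_abs_im _).trans ?_
    rw [Complex.div_natCast_re, Complex.div_natCast_im, abs_of_nonneg (by positivity),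
      abs_of_nonneg (by positivity)]
    have e1 : z.re / n ≤ 1 := by rw [div_le_one hn0]; exact b
    have e2 : z.im / n ≤ 1 := by rw [div_le_one hn0]; exact d
    linarith

theorem prB_le_of_eventually {κ ε : ℝ} (hκ : 0 < κ) (hε : 0 < ε)
    {sel : ℕ → Finset Edg → ℤ × ℤ} {M₀ : ℕ} (h : ∀ᶠ n : ℕ in atTop,
      prB n {T | ¬ ∃ m ≤ M₀, outerLoop n T (sel n T) ∈ Loop.Cut κ m} ≤ ε) :
    ∃ M : ℕ, ∀ n : ℕ, prB n {T | ¬ ∃ m ≤ M, outerLoop n T (sel n T) ∈ Loop.Cut κ m} ≤ ε := by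
  classical
  obtain ⟨n₀, hn₀⟩ := eventually_atTop.1 h
  choose f hf using fun (n : ℕ) (T : Finset Edg) => Loop.exists_cut (outerLoop n T (sel n T)) hκ
  set M₁ : ℕ := (Finset.range n₀).sup fun n => ((boxE n).powerset).sup fun T => f n T with hM₁
  refine ⟨max M₀ M₁, fun n => ?_⟩
  rcases Nat.lt_or_ge n n₀ with hn | hn
  · have h0 : prB n {T | ¬ ∃ m ≤ max M₀ M₁, outerLoop n T (sel n T) ∈ Loop.Cut κ m} ≤
        prB n ∅ := by
      refine Perc.PercD.prB_mono fun T hT hA => hA ⟨f n T, ?_, hf n T⟩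
      refine le_trans ?_ (le_max_right _ _)
      have h1 : f n T ≤ ((boxE n).powerset).sup fun T => f n T :=
        Finset.le_sup (f := fun T => f n T) (Finset.mem_powerset.2 hT)
      exact h1.trans (Finset.le_sup (f := fun n => ((boxE n).powerset).sup fun T => f n T)
        (Finset.mem_range.2 hn))
    refine h0.trans ?_
    have : prB n ∅ = 0 := by simp [prB]
    rw [this]
    exact hε.le
  · refine (Perc.PercD.prB_mono fun T _ hA => ?_).trans (hn₀ n hn)
    rintro ⟨m, hm, hc⟩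
    exact hA ⟨m, hm.trans (le_max_left _ _), hc⟩

/-- Tightness from the numbers of arcs. -/
theorem targetTight_of (h : TargetCuts) : TargetTight := by
  intro sel hsel
  rw [isTightMeasureSet_iff_exists_isCompact_measure_compl_le]
  intro ε hε
  obtain ⟨δ, hδ, hsum⟩ := ENNReal.exists_pos_sum_of_countable hε.ne' ℕ
  have hM : ∀ j : ℕ, ∃ M : ℕ, ∀ n : ℕ,
      prB n {T | ¬ ∃ m ≤ M, outerLoop n T (sel n T) ∈ Loop.Cut (1 / (j + 1 : ℝ)) m} ≤ δ j := by
    intro j
    have hj : (0 : ℝ) < 1 / (j + 1 : ℝ) := by positivity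
    have hδj : (0 : ℝ) < δ j := hδ j
    obtain ⟨M₀, hM₀⟩ := h _ _ hj hδj
    exact prB_le_of_eventually hj hδj (hM₀ sel hsel)
  choose M hM using hM
  obtain ⟨K, hK, hmem⟩ := exists_compact 2 M
  refine ⟨K, hK, ?_⟩
  rintro _ ⟨n, rfl⟩
  simp only
  rw [lawC_apply _ _ hK.isClosed.measurableSet.compl]
  refine (prB_iUnion_le n _ (fun j => {T | ¬ ∃ m ≤ M j, outerLoop n T (sel n T) ∈
    Loop.Cut (1 / (j + 1 : ℝ)) m}) fun T hT hA => ?_).trans ?_
  · by_contra hcon
    rw [not_exists] at hcon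
    exact hA (hmem _ (fun x => norm_outerLoop_le hT (hsel n T hT).1 x)
      fun j => not_not.1 (hcon j))
  · refine le_trans (ENNReal.tsum_le_tsum fun j => ?_) hsum.le
    rw [← ENNReal.ofReal_coe_nnreal]
    exact ENNReal.ofReal_le_ofReal (hM j n)

/-- Existence of limits along subsequences. -/
theorem targetExist_of (h : TargetTight) : TargetExist := by
  intro sel hsel φ
  let P : ℕ → ProbabilityMeasure Curve := fun k => ⟨lawC (φ k) (sel (φ k)), isProb_lawC _ _⟩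
  have ht : IsTightMeasureSet {((μ : ProbabilityMeasure Curve) : Measure Curve) | μ ∈ range P} := by
    refine (h sel hsel).subset ?_
    rintro _ ⟨_, ⟨k, rfl⟩, rfl⟩
    exact ⟨φ k, rfl⟩
  obtain ⟨ψ, hψ, ν, hν, hlim⟩ := exists_weak_limit P ht
  refine ⟨ψ, hψ, ν, hν, fun F => ?_⟩
  refine (hlim F).congr fun k => ?_
  exact integral_lawC _ _ F

end Pool.Agent.PercD

end PartpercDCurveExist

section PartpercwIndep

/-!
# Independence of disjoint windows, long crossings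
-/

set_option autoImplicit false

namespace Pool.Agent.PercW

open Finset Pool.Agent.MP_6bd702 Pool.Agent.MP_6bd702.H23

/-- Independence of events of disjoint windows. -/
theorem pr_indep {W W1 W2 : Finset Ed} (h : Disjoint W1 W2) {A B : Set (Set Ed)}
    (hA : Loc W1 A) (hB : Loc W2 B) : pr W (A ∩ B) = pr W A * pr W B := by
  classical
  let S : Finset W → Finset W := fun _ => univ.filter fun e => (e : Ed) ∈ W1
  have hS : IsStop S := fun _ _ _ => rfl
  have hmem : ∀ s (e : W), e ∈ S s ↔ (e : Ed) ∈ W1 := fun s e => by simp [S]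
  have h1 : ∀ s t : Finset W, cfg W (mix S s t) ∩ W1 = cfg W s ∩ W1 := by
    intro s t
    ext e
    simp only [Set.mem_inter_iff, mem_cfg, mem_coe]
    constructor
    · rintro ⟨⟨h2, h3⟩, h4⟩
      exact ⟨⟨h2, (mem_mix_of_mem ((hmem s _).2 h4)).1 h3⟩, h4⟩
    · rintro ⟨⟨h2, h3⟩, h4⟩
      exact ⟨⟨h2, (mem_mix_of_mem ((hmem s _).2 h4)).2 h3⟩, h4⟩
  have h2 : ∀ s t : Finset W, cfg W (mix S s t) ∩ W2 = cfg W t ∩ W2 := by
    intro s t
    ext e
    simp only [Set.mem_inter_iff, mem_cfg, mem_coe]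
    constructor
    · rintro ⟨⟨h2, h3⟩, h4⟩
      exact ⟨⟨h2, (mem_mix_of_notMem fun h5 =>
        Finset.disjoint_left.1 h ((hmem s ⟨e, h2⟩).1 h5) h4).1 h3⟩, h4⟩
    · rintro ⟨⟨h2, h3⟩, h4⟩
      exact ⟨⟨h2, (mem_mix_of_notMem fun h5 =>
        Finset.disjoint_left.1 h ((hmem s ⟨e, h2⟩).1 h5) h4).2 h3⟩, h4⟩
  have h3 : ∀ s t : Finset W, cfg W (mix S s t) ∈ A ↔ cfg W s ∈ A := by
    intro s t
    rw [hA, h1, ← hA]
  have h4 : ∀ s t : Finset W, cfg W (mix S s t) ∈ B ↔ cfg W t ∈ B := by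
    intro s t
    rw [hB, h2, ← hB]
  unfold pr Pr
  rw [← Ex_mix S hS]
  have h5 : ∀ s t : Finset W,
      ({s : Finset W | cfg W s ∈ A ∩ B}.indicator (fun _ => (1 : ℝ))) (mix S s t)
      = ({s : Finset W | cfg W s ∈ A}.indicator (fun _ => (1 : ℝ))) s *
        ({s : Finset W | cfg W s ∈ B}.indicator (fun _ => (1 : ℝ))) t := by
    intro s t
    by_cases hs : cfg W s ∈ A <;> by_cases ht : cfg W t ∈ B <;>
      simp [Set.indicator, h3, h4, hs, ht]
  simp only [h5]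
  simp only [Ex_mul_left]
  rw [mul_comm, ← Ex_mul_left]
  exact Ex_congr fun _ => mul_comm _ _

theorem Loc.mono {W W' : Finset Ed} (h : W ⊆ W') {A : Set (Set Ed)} (hA : Loc W A) : Loc W' A := by
  intro ω
  rw [hA ω, hA (ω ∩ W')]
  rw [Set.inter_assoc, Set.inter_eq_self_of_subset_right (show (W : Set Ed) ⊆ W' from h)]

theorem Loc.inter {W : Finset Ed} {A B : Set (Set Ed)} (hA : Loc W A) (hB : Loc W B) :
    Loc W (A ∩ B) := fun ω => and_congr (hA ω) (hB ω)

theorem Loc.compl {W : Finset Ed} {A : Set (Set Ed)} (hA : Loc W A) : Loc W Aᶜ :=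
  fun ω => not_congr (hA ω)

/-- Many independent events. -/
theorem pr_iInter_le {W : Finset Ed} {q : ℝ} (hq : 0 ≤ q) (V : ℕ → Finset Ed) (A : ℕ → Set (Set Ed))
    (hV : ∀ i j, i < j → Disjoint (V i) (V j)) (hA : ∀ i, Loc (V i) (A i)) (k : ℕ)
    (hP : ∀ i < k, pr W (A i) ≤ q) : pr W {ω | ∀ i < k, ω ∈ A i} ≤ q ^ k := by
  classical
  have key : pr W {ω | ∀ i < k, ω ∈ A i} ≤ q ^ k ∧
      Loc ((range k).biUnion V) {ω | ∀ i < k, ω ∈ A i} := by
    induction k with
    | zero =>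
      refine ⟨?_, ?_⟩
      · rw [pow_zero]; exact pr_le_one _ _
      · intro ω; simp
    | succ k ih =>
      obtain ⟨h1, h2⟩ := ih fun i hi => hP i (by omega)
      have h3 : {ω : Set Ed | ∀ i < k + 1, ω ∈ A i} = {ω | ∀ i < k, ω ∈ A i} ∩ A k := by
        ext ω
        simp only [Set.mem_ofPred_eq, Set.mem_inter_iff]
        constructor
        · intro h; exact ⟨fun i hi => h i (by omega), h k (by omega)⟩
        · rintro ⟨h4, h5⟩ i hi
          rcases Nat.lt_succ_iff_lt_or_eq.1 hi with h6 | h6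
          · exact h4 i h6
          · rw [h6]; exact h5
      have h4 : Disjoint ((range k).biUnion V) (V k) := by
        rw [Finset.disjoint_biUnion_left]
        intro i hi
        exact hV i k (mem_range.1 hi)
      rw [h3]
      constructor
      · rw [pr_indep h4 h2 (hA k), pow_succ]
        exact mul_le_mul h1 (hP k (by omega)) (pr_nonneg _ _) (by positivity)
      · refine Loc.inter (Loc.mono ?_ h2) (Loc.mono ?_ (hA k))
        · exact biUnion_subset_biUnion_of_subset_left _ (range_subset_range.2 (by omega))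
        · exact subset_biUnion_of_mem V (by simp)
  exact key.1

end Pool.Agent.PercW

end PartpercwIndep

section PartpercwLong

/-!
# Long rectangles are crossed with exponentially small probability
-/

set_option autoImplicit false

namespace Pool.Agent.PercW

open Finset Pool.Agent.MP_6bd702 Pool.Agent.MP_6bd702.H23

/-- A square is not crossed with probability bounded below. -/
theorem pr_hc_le : ∃ q : ℝ, 0 ≤ q ∧ q < 1 ∧ ∀ a c t : ℤ, 0 ≤ t → ∀ W : Finset Ed,
    pr W {ω | HC a (a + t + 3) c (c + t) ω} ≤ q := by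
  obtain ⟨c₀, hc₀, h⟩ := rsw 1
  have hc1 : c₀ ≤ 1 := (h 1 2 (by norm_num) le_rfl (by norm_num)).trans (pr_le_one _ _)
  refine ⟨1 - c₀, by linarith, by linarith, fun a c t ht W => ?_⟩
  have h1 : c₀ ≤ pr W {ω | du ω ∈ {ω | VC a (a + t + 3 - 1) (c - 1) (c + t) ω}} := by
    refine le_trans ?_ (pr_dual_ge W (VC_loc _ _ _ _) (VC_mono _ _ _ _))
    rw [pr_vc]
    refine h _ _ (by omega) (by omega) ?_
    push_cast
    omega
  have h2 : pr W {ω | HC a (a + t + 3) c (c + t) ω} ≤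
      pr W {ω | du ω ∈ {ω | VC a (a + t + 3 - 1) (c - 1) (c + t) ω}}ᶜ :=
    pr_mono fun ω hω => block' (by omega) (by omega) hω
  rw [pr_compl] at h2
  linarith

/-- Long rectangles. -/
theorem hp_le : ∃ q : ℝ, 0 ≤ q ∧ q < 1 ∧ ∀ (k : ℕ) (w t : ℤ), 0 ≤ t → k * (t + 4) ≤ w + 1 →
    hp w t ≤ q ^ k := by
  obtain ⟨q, hq0, hq1, h⟩ := pr_hc_le
  refine ⟨q, hq0, hq1, fun k w t ht hk => ?_⟩
  unfold hp
  have h1 : ∀ i j : ℕ, i < j → Disjoint (EW (i * (t + 4)) (i * (t + 4) + t + 3) 0 t)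
      (EW (j * (t + 4)) (j * (t + 4) + t + 3) 0 t) := by
    intro i j hij
    rw [Finset.disjoint_left]
    intro e h1 h2
    rw [mem_EW] at h1 h2
    simp only [mem_Rect] at h1 h2
    have h3 : ((i : ℤ) + 1) * (t + 4) ≤ j * (t + 4) :=
      mul_le_mul_of_nonneg_right (by exact_mod_cast hij) (by omega)
    have h4 : ((i : ℤ) + 1) * (t + 4) = i * (t + 4) + (t + 4) := by ring
    omega
  refine le_trans (pr_mono ?_) (pr_iInter_le (W := EW 0 w 0 t) hq0
    (fun i : ℕ => EW (i * (t + 4)) (i * (t + 4) + t + 3) 0 t)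
    (fun i : ℕ => {ω | HC (i * (t + 4)) (i * (t + 4) + t + 3) 0 t ω}) h1
    (fun i => HC_loc _ _ _ _) k (fun i _ => ?_))
  · rintro ω ⟨y, y', h2, h3, h4, h5, h6⟩ i hi
    have h7 : ((i : ℤ) + 1) * (t + 4) ≤ k * (t + 4) :=
      mul_le_mul_of_nonneg_right (by exact_mod_cast hi) (by omega)
    have h8 : ((i : ℤ) + 1) * (t + 4) = i * (t + 4) + (t + 4) := by ring
    have h9 : 0 ≤ (i : ℤ) * (t + 4) := mul_nonneg (Int.natCast_nonneg i) (by omega)
    change HC (i * (t + 4)) (i * (t + 4) + t + 3) 0 t ω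
    exact hc_strip h9 (by omega) (by omega) h9 ⟨le_rfl, by omega, h2, h3⟩ (by omega) h6
  · have h2 := h (i * (t + 4)) 0 t ht (EW 0 w 0 t)
    rw [zero_add] at h2
    exact h2

end Pool.Agent.PercW

end PartpercwLong

section PartpercwLayer

/-!
# Wide connections in the boundary layer are unlikely
-/

set_option autoImplicit false

namespace Pool.Agent.PercW

open Finset Pool.Agent.MP_6bd702 Pool.Agent.MP_6bd702.H23

/-- The vertices of the box `[0, n]²` at distance less than `w` from the boundary. -/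
def Lay (n w : ℤ) : Set (ℤ × ℤ) :=
  {v | v ∈ Rect 0 n 0 n ∧ ¬ (w ≤ v.1 ∧ v.1 ≤ n - w ∧ w ≤ v.2 ∧ v.2 ≤ n - w)}

theorem mem_Lay {n w : ℤ} {v : ℤ × ℤ} : v ∈ Lay n w ↔
    (0 ≤ v.1 ∧ v.1 ≤ n ∧ 0 ≤ v.2 ∧ v.2 ≤ n) ∧
      ¬ (w ≤ v.1 ∧ v.1 ≤ n - w ∧ w ≤ v.2 ∧ v.2 ≤ n - w) := Iff.rfl

theorem step_coord {ω : Set Ed} {R : Set (ℤ × ℤ)} {u v : ℤ × ℤ} (h : Step ω R u v) :
    v.1 ≤ u.1 + 1 ∧ u.1 ≤ v.1 + 1 ∧ v.2 ≤ u.2 + 1 ∧ u.2 ≤ v.2 + 1 := by
  obtain ⟨-, -, ⟨ex, ey, t⟩, -, hh⟩ := h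
  cases t
  · simp only [ea_mk, eb_false] at hh
    rcases hh with ⟨h5, h6⟩ | ⟨h5, h6⟩ <;> rw [← h5, ← h6] <;> simp only <;> omega
  · simp only [ea_mk, eb_true] at hh
    rcases hh with ⟨h5, h6⟩ | ⟨h5, h6⟩ <;> rw [← h5, ← h6] <;> simp only <;> omega

/-- A connection across a vertical strip crosses it. -/
theorem strip_conn {ω : Set Ed} {R : Set (ℤ × ℤ)} {a b : ℤ} (hab : a < b) {u v : ℤ × ℤ}
    (huR : u ∈ R) (hu : u.1 ≤ a) (hv : b ≤ v.1) (h : Conn ω R u v) :
    ∃ y y', (a, y) ∈ R ∧ Conn ω (R ∩ {p | a ≤ p.1 ∧ p.1 ≤ b}) (a, y) (b, y') := by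
  have key : v.1 ≤ a ∨ ((a < v.1 ∧ v.1 ≤ b) ∧ ∃ y, (a, y) ∈ R ∧
      Conn ω (R ∩ {p | a ≤ p.1 ∧ p.1 ≤ b}) (a, y) v) ∨
      ∃ y y', (a, y) ∈ R ∧ Conn ω (R ∩ {p | a ≤ p.1 ∧ p.1 ≤ b}) (a, y) (b, y') := by
    unfold Conn at h
    clear hv
    induction h with
    | refl => exact Or.inl hu
    | @tail w w' hw1 hw2 ih =>
      have hc := step_coord hw2
      obtain ⟨hwR, hwR', e, he, hh⟩ := hw2
      rcases ih with h4 | ⟨h4, y, h5, h6⟩ | h4
      · by_cases h5 : w'.1 ≤ a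
        · exact Or.inl h5
        · right; left
          have h7 : w.1 = a := by omega
          have h8 : (a, w.2) = w := Prod.ext h7.symm rfl
          refine ⟨⟨by omega, by omega⟩, w.2, by rw [h8]; exact hwR, ?_⟩
          rw [h8]
          exact Relation.ReflTransGen.single ⟨⟨hwR, by simp only [Set.mem_ofPred_eq]; omega⟩,
            ⟨hwR', by simp only [Set.mem_ofPred_eq]; omega⟩, e, he, hh⟩
      · by_cases h8 : w'.1 ≤ a
        · exact Or.inl h8
        · by_cases h9 : w.1 = b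
          · right; right
            refine ⟨y, w.2, h5, ?_⟩
            have h10 : (b, w.2) = w := Prod.ext h9.symm rfl
            rw [h10]; exact h6
          · right; left
            refine ⟨⟨by omega, by omega⟩, y, h5, h6.tail ⟨⟨hwR, ?_⟩, ⟨hwR', ?_⟩, e, he, hh⟩⟩
            · simp only [Set.mem_ofPred_eq]; omega
            · simp only [Set.mem_ofPred_eq]; omega
      · exact Or.inr (Or.inr h4)
  rcases key with h4 | ⟨h4, y, h5, h6⟩ | h4
  · omega
  · have : (b, v.2) = v := Prod.ext (by simp only; omega) rfl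
    refine ⟨y, v.2, h5, ?_⟩
    rw [this]; exact h6
  · exact h4

/-- A crossing of a strip in the layer is in the lower or in the upper part. -/
theorem lay_split {ω : Set Ed} {n w a b : ℤ} (hw : 2 * w ≤ n) (ha : w ≤ a)
    (hb : b ≤ n - w) (hab : a ≤ b) {y y' : ℤ} (hy : (a, y) ∈ Lay n w)
    (h : Conn ω (Lay n w ∩ {p | a ≤ p.1 ∧ p.1 ≤ b}) (a, y) (b, y')) :
    HC a b 0 (w - 1) ω ∨ HC a b (n - w + 1) n ω := by
  rw [mem_Lay] at hy
  simp only at hy
  have key : ∀ p, Conn ω (Lay n w ∩ {p | a ≤ p.1 ∧ p.1 ≤ b}) (a, y) p →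
      (y ≤ w - 1 → p.2 ≤ w - 1 ∧ Conn ω (Rect a b 0 (w - 1)) (a, y) p) ∧
      (n - w + 1 ≤ y → n - w + 1 ≤ p.2 ∧ Conn ω (Rect a b (n - w + 1) n) (a, y) p) := by
    intro p hp
    unfold Conn at hp
    induction hp with
    | refl => exact ⟨fun h1 => ⟨h1, .refl⟩, fun h1 => ⟨h1, .refl⟩⟩
    | @tail q p h1 h2 ih =>
      have hc := step_coord h2
      obtain ⟨⟨hq, hq'⟩, ⟨hp, hp'⟩, e, he, hh⟩ := h2
      rw [mem_Lay] at hq hp
      simp only [Set.mem_ofPred_eq] at hq' hp'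
      refine ⟨fun h3 => ?_, fun h3 => ?_⟩
      · obtain ⟨h4, h5⟩ := ih.1 h3
        have h6 : p.2 ≤ w - 1 := by omega
        refine ⟨h6, h5.tail ⟨?_, ?_, e, he, hh⟩⟩
        · rw [mem_Rect]; omega
        · rw [mem_Rect]; omega
      · obtain ⟨h4, h5⟩ := ih.2 h3
        have h6 : n - w + 1 ≤ p.2 := by omega
        refine ⟨h6, h5.tail ⟨?_, ?_, e, he, hh⟩⟩
        · rw [mem_Rect]; omega
        · rw [mem_Rect]; omega
  have h1 := key _ h
  have h0 := h.mem (R := Lay n w ∩ {p | a ≤ p.1 ∧ p.1 ≤ b}) ⟨mem_Lay.2 hy, by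
    simp only [Set.mem_ofPred_eq]; omega⟩
  have h00 := h0.1
  rw [mem_Lay] at h00
  simp only at h00 h1
  rcases le_or_gt y (w - 1) with h2 | h2
  · left
    obtain ⟨h3, h4⟩ := h1.1 h2
    exact ⟨y, y', by omega, h2, by omega, h3, h4⟩
  · right
    obtain ⟨h3, h4⟩ := h1.2 (by omega)
    exact ⟨y, y', by omega, by omega, by omega, by omega, h4⟩

/-- There is a connection of width at least `E` in the layer. -/
def LayX (n w E : ℤ) : Set (Set Ed) :=
  {ω | ∃ u v, u ∈ Lay n w ∧ Conn ω (Lay n w) u v ∧ E ≤ v.1 - u.1}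

/-- There is a connection of height at least `E` in the layer. -/
def LayY (n w E : ℤ) : Set (Set Ed) :=
  {ω | ∃ u v, u ∈ Lay n w ∧ Conn ω (Lay n w) u v ∧ E ≤ v.2 - u.2}

theorem layX_sub {n w l : ℤ} (hw0 : 0 ≤ w) (hl : w ≤ l) (hl0 : 0 < l) (hn : 2 * w ≤ n)
    {ω : Set Ed} (h : ω ∈ LayX n w (4 * l)) :
    ∃ i ∈ range (n.toNat + 1), (w ≤ (i : ℤ) * l ∧ ((i : ℤ) + 1) * l ≤ n - w) ∧
      (HC ((i : ℤ) * l) (((i : ℤ) + 1) * l) 0 (w - 1) ω ∨
        HC ((i : ℤ) * l) (((i : ℤ) + 1) * l) (n - w + 1) n ω) := by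
  obtain ⟨u, v, hu, hc, hE⟩ := h
  have hu' := hu
  have hv' := hc.mem hu
  rw [mem_Lay] at hu' hv'
  have h3 := Int.emod_add_mul_ediv (u.1 + l - 1) l
  have h4 := Int.emod_nonneg (u.1 + l - 1) hl0.ne'
  have h5 := Int.emod_lt_of_pos (u.1 + l - 1) hl0
  set j := (u.1 + l - 1) / l with hj
  have h6 : 0 ≤ j := Int.ediv_nonneg (by omega) hl0.le
  have h7 : (j + 1) * l = l * j + l := by ring
  have h8 : (j + 1 + 1) * l = l * j + l + l := by ring
  have h9 : j + 1 ≤ (j + 1) * l := by nlinarith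
  refine ⟨(j + 1).toNat, ?_, ?_, ?_⟩
  · rw [mem_range]
    omega
  · rw [Int.toNat_of_nonneg (by omega)]
    constructor
    · omega
    · omega
  · rw [Int.toNat_of_nonneg (by omega)]
    obtain ⟨y, y', h10, h11⟩ := strip_conn (a := (j + 1) * l) (b := (j + 1 + 1) * l) (by omega) hu
      (by omega) (by omega) hc
    exact lay_split hn (by omega) (by omega) (by omega) h10 h11

theorem pr_layX_le : ∃ q : ℝ, 0 ≤ q ∧ q < 1 ∧ ∀ (k n : ℕ) (w l : ℤ), 1 ≤ w → w ≤ l →
    2 * w ≤ n → k * (w + 3) ≤ l + 1 →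
    pr (EW 0 n 0 n) (LayX n w (4 * l)) ≤ (n + 1) * (2 * q ^ k) := by
  obtain ⟨q, hq0, hq1, h⟩ := hp_le
  refine ⟨q, hq0, hq1, fun k n w l hw hl hn hk => ?_⟩
  have h1 : ∀ s : Finset ℕ, ∀ A : ℕ → Set (Set Ed), (∀ i ∈ s, pr (EW 0 n 0 n) (A i) ≤ 2 * q ^ k) →
      pr (EW 0 n 0 n) {ω | ∃ i ∈ s, ω ∈ A i} ≤ s.card * (2 * q ^ k) := by
    intro s
    induction s using Finset.induction_on with
    | empty =>
      intro A _
      simp only [notMem_empty, false_and, exists_false, card_empty, Nat.cast_zero, zero_mul]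
      refine le_of_eq ?_
      unfold pr
      change Pr {s | False} = 0
      have : ({s : Finset (EW 0 (n : ℤ) 0 n) | False} : Set _) = ∅ := by ext; simp
      rw [this]
      unfold Pr Ex
      simp
    | insert i s hi ih =>
      intro A hA
      have h2 : {ω : Set Ed | ∃ j ∈ insert i s, ω ∈ A j} ⊆ A i ∪ {ω | ∃ j ∈ s, ω ∈ A j} := by
        rintro ω ⟨j, hj, hω⟩
        rcases Finset.mem_insert.1 hj with h3 | h3
        · left; rw [← h3]; exact hω
        · right; exact ⟨j, h3, hω⟩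
      refine (pr_mono h2).trans ((pr_union_le _ _ _).trans ?_)
      rw [card_insert_of_notMem hi]
      push_cast
      have h3 := hA i (mem_insert_self i s)
      have h4 := ih A fun j hj => hA j (mem_insert_of_mem hj)
      linarith
  refine le_trans (pr_mono (B := {ω | ∃ i ∈ range (n + 1), ω ∈ {ω : Set Ed |
    (w ≤ (i : ℤ) * l ∧ ((i : ℤ) + 1) * l ≤ n - w) ∧
      (HC ((i : ℤ) * l) (((i : ℤ) + 1) * l) 0 (w - 1) ω ∨
        HC ((i : ℤ) * l) (((i : ℤ) + 1) * l) (n - w + 1) n ω)}}) ?_) ((h1 (range (n + 1)) _ ?_).trans ?_)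
  · intro ω hω
    have h2 := layX_sub (by omega) hl (by omega) hn hω
    simpa using h2
  · intro i _
    by_cases hi : w ≤ (i : ℤ) * l ∧ ((i : ℤ) + 1) * l ≤ n - w
    · have e1 : ((i : ℤ) + 1) * l - i * l = l := by ring
      refine le_trans (pr_mono (B := {ω | HC ((i : ℤ) * l) (((i : ℤ) + 1) * l) 0 (w - 1) ω} ∪
        {ω | HC ((i : ℤ) * l) (((i : ℤ) + 1) * l) (n - w + 1) n ω}) ?_) ((pr_union_le _ _ _).trans ?_)
      · rintro ω ⟨_, h2 | h2⟩
        · exact Or.inl h2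
        · exact Or.inr h2
      · rw [pr_hc_window (EW_sub (by omega) (by omega) (by omega) (by omega)),
          pr_hc_window (EW_sub (by omega) (by omega) (by omega) (by omega)), e1]
        have h2 := h k l (w - 1 - 0) (by omega) (by
          rw [show w - 1 - 0 + 4 = w + 3 by ring]; exact hk)
        have h3 := h k l (n - (n - w + 1)) (by omega) (by
          rw [show (n : ℤ) - (n - w + 1) + 4 = w + 3 by ring]; exact hk)
        linarith
    · have h2 : {ω : Set Ed | (w ≤ (i : ℤ) * l ∧ ((i : ℤ) + 1) * l ≤ n - w) ∧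
          (HC ((i : ℤ) * l) (((i : ℤ) + 1) * l) 0 (w - 1) ω ∨
            HC ((i : ℤ) * l) (((i : ℤ) + 1) * l) (n - w + 1) n ω)} ⊆ ∅ := by
        rintro ω ⟨h3, -⟩
        exact hi h3
      refine (pr_mono h2).trans ?_
      have h3 := pr_compl (EW 0 (n : ℤ) 0 n) Set.univ
      rw [Set.compl_univ, pr_univ] at h3
      rw [h3]
      have : 0 ≤ q ^ k := by positivity
      linarith
  · rw [card_range]
    push_cast
    exact le_rfl

theorem Lay_tr {n w : ℤ} {v : ℤ × ℤ} (h : v ∈ Lay n w) : trL.v v ∈ Lay n w := by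
  rw [mem_Lay] at h ⊢
  simp only [trL]
  tauto

/-- The transposition preserves the law. -/
theorem pr_layY_le (n : ℕ) (w E : ℤ) :
    pr (EW 0 n 0 n) (LayY n w E) ≤ pr (EW 0 n 0 n) (LayX n w E) := by
  have h0 : trL.e ⁻¹' (trL.e ⁻¹' (∅ : Set Ed)) = ∅ := by simp
  refine pr_le_map trL ?_ ?_
  · intro e he
    rw [mem_EW] at he ⊢
    obtain ⟨x, y, t⟩ := e
    cases t <;> simp [mem_Rect, trL] at he ⊢ <;> omega
  · rintro ω ⟨u, v, hu, hc, hE⟩
    refine ⟨trL.v u, trL.v v, Lay_tr hu, ?_, hE⟩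
    exact LMap.conn trL (fun w hw => Lay_tr hw) (hc.mono Set.inter_subset_left le_rfl)

end Pool.Agent.PercW

end PartpercwLayer
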