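import Pool.Agent.Lib.MP_6bd702_z.EdDefs

section Parth23Planar

/-!
Planarity on the square lattice by mod 2 potentials: duality of crossings, crossings meet,
primal and dual crossings exclude each other.
-/

set_option autoImplicit false

namespace Pool.Agent.MP_6bd702.H23

/-- The first end. -/
def ea (e : Ed) : ℤ × ℤ := (e.1, e.2.1)

/-- The second end. -/
def eb (e : Ed) : ℤ × ℤ := if e.2.2 then (e.1, e.2.1 + 1) else (e.1 + 1, e.2.1)

@[simp] theorem ea_mk (x y : ℤ) (b : Bool) : ea (x, y, b) = (x, y) := rfl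
@[simp] theorem eb_false (x y : ℤ) : eb (x, y, false) = (x + 1, y) := rfl
@[simp] theorem eb_true (x y : ℤ) : eb (x, y, true) = (x, y + 1) := rfl

/-- One step along an edge of `ω` inside `R`. -/
def Step (ω : Set Ed) (R : Set (ℤ × ℤ)) (u v : ℤ × ℤ) : Prop :=
  u ∈ R ∧ v ∈ R ∧ ∃ e ∈ ω, (ea e = u ∧ eb e = v) ∨ (ea e = v ∧ eb e = u)

/-- `u` and `v` are joined by a path of edges of `ω` inside `R`. -/
def Conn (ω : Set Ed) (R : Set (ℤ × ℤ)) (u v : ℤ × ℤ) : Prop := Relation.ReflTransGen (Step ω R) u v

/-- The rectangle. -/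
def Rect (a b c d : ℤ) : Set (ℤ × ℤ) := {v | a ≤ v.1 ∧ v.1 ≤ b ∧ c ≤ v.2 ∧ v.2 ≤ d}

theorem mem_Rect {a b c d : ℤ} {v : ℤ × ℤ} :
    v ∈ Rect a b c d ↔ a ≤ v.1 ∧ v.1 ≤ b ∧ c ≤ v.2 ∧ v.2 ≤ d := Iff.rfl

/-- Left-right crossing. -/
def HC (a b c d : ℤ) (ω : Set Ed) : Prop :=
  ∃ y y', c ≤ y ∧ y ≤ d ∧ c ≤ y' ∧ y' ≤ d ∧ Conn ω (Rect a b c d) (a, y) (b, y')

/-- Bottom-top crossing. -/
def VC (a b c d : ℤ) (ω : Set Ed) : Prop :=
  ∃ x x', a ≤ x ∧ x ≤ b ∧ a ≤ x' ∧ x' ≤ b ∧ Conn ω (Rect a b c d) (x, c) (x', d)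

theorem Step.symm {ω : Set Ed} {R : Set (ℤ × ℤ)} {u v : ℤ × ℤ} (h : Step ω R u v) :
    Step ω R v u := by
  obtain ⟨hu, hv, e, he, h⟩ := h
  exact ⟨hv, hu, e, he, h.symm⟩

theorem Conn.symm {ω : Set Ed} {R : Set (ℤ × ℤ)} {u v : ℤ × ℤ} (h : Conn ω R u v) :
    Conn ω R v u := by
  unfold Conn at *
  induction h with
  | refl => exact .refl
  | tail _ h2 ih => exact .head h2.symm ih

theorem Conn.trans {ω : Set Ed} {R : Set (ℤ × ℤ)} {u v w : ℤ × ℤ} (h : Conn ω R u v)
    (h' : Conn ω R v w) : Conn ω R u w := Relation.ReflTransGen.trans h h'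

theorem Step.mono {ω ω' : Set Ed} {R R' : Set (ℤ × ℤ)} {u v : ℤ × ℤ} (h : Step ω R u v)
    (hω : ω ⊆ ω') (hR : R ⊆ R') : Step ω' R' u v := by
  obtain ⟨hu, hv, e, he, h⟩ := h
  exact ⟨hR hu, hR hv, e, hω he, h⟩

theorem Conn.mono {ω ω' : Set Ed} {R R' : Set (ℤ × ℤ)} {u v : ℤ × ℤ} (h : Conn ω R u v)
    (hω : ω ⊆ ω') (hR : R ⊆ R') : Conn ω' R' u v := by
  unfold Conn at *
  induction h with
  | refl => exact .refl
  | tail _ h2 ih => exact ih.tail (h2.mono hω hR)

theorem Conn.mem {ω : Set Ed} {R : Set (ℤ × ℤ)} {u v : ℤ × ℤ} (h : Conn ω R u v) (hu : u ∈ R) :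
    v ∈ R := by
  unfold Conn at h
  induction h with
  | refl => exact hu
  | tail _ h2 _ => exact h2.2.1

/-! ### Chains and potentials -/

/-- The boundary of a mod 2 chain of edges. -/
def bd (c : Ed → ZMod 2) (w : ℤ × ℤ) : ZMod 2 :=
  c (w.1 - 1, w.2, false) + c (w.1, w.2, false) + c (w.1, w.2 - 1, true) + c (w.1, w.2, true)

open Classical in
/-- Indicator. -/
noncomputable def ind (P : Prop) : ZMod 2 := if P then 1 else 0

theorem ind_pos {P : Prop} (h : P) : ind P = 1 := by simp [ind, h]
theorem ind_neg {P : Prop} (h : ¬ P) : ind P = 0 := by simp [ind, h]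

theorem add_self2 (x : ZMod 2) : x + x = 0 := CharTwo.add_self_eq_zero x

theorem zmod2_cases (x : ZMod 2) : x = 0 ∨ x = 1 := by
  revert x; decide

/-- The potential of a chain: the number of vertical edges to the left of the face. -/
noncomputable def pot (a : ℤ) (c : Ed → ZMod 2) (i j : ℤ) : ZMod 2 := ∑ x ∈ Finset.Icc a i, c (x, j, true)

theorem pot_lt {a : ℤ} (c : Ed → ZMod 2) {i : ℤ} (h : i < a) (j : ℤ) : pot a c i j = 0 := by
  unfold pot
  rw [Finset.Icc_eq_empty (by omega), Finset.sum_empty]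

theorem pot_succ {a : ℤ} (c : Ed → ZMod 2) {i : ℤ} (h : a ≤ i) (j : ℤ) :
    pot a c i j = pot a c (i - 1) j + c (i, j, true) := by
  unfold pot
  have : Finset.Icc a i = insert i (Finset.Icc a (i - 1)) := by
    ext x; simp only [Finset.mem_Icc, Finset.mem_insert]; omega
  rw [this, Finset.sum_insert (by simp), add_comm]

/-- The potential changes across horizontal edges as the chain. -/
theorem pot_hor {a b c₀ d₀ : ℤ} (c : Ed → ZMod 2)
    (hev : ∀ x y, a ≤ x → x ≤ b → c₀ < y → y < d₀ → bd c (x, y) = 0)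
    (hl : ∀ y, c₀ < y → y < d₀ → c (a - 1, y, false) = 0) :
    ∀ i, a - 1 ≤ i → i ≤ b → ∀ j, c₀ < j → j < d₀ →
      pot a c i j = pot a c i (j - 1) + c (i, j, false) := by
  intro i hi
  induction i, hi using Int.leInduction with
  | base =>
    intro _ j h1 h2
    rw [pot_lt c (by omega), pot_lt c (by omega), hl j h1 h2, add_zero]
  | succ i hi ih =>
    intro hib j h1 h2
    rw [pot_succ c (show a ≤ i + 1 by omega), pot_succ c (show a ≤ i + 1 by omega)]
    simp only [add_sub_cancel_right]
    rw [ih (by omega) j h1 h2]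
    have h := hev (i + 1) j (by omega) hib h1 h2
    unfold bd at h
    simp only [add_sub_cancel_right] at h
    have e1 := add_self2 (c (i + 1, j, false))
    have e2 := add_self2 (c (i + 1, j - 1, true))
    linear_combination h - e1 - e2

/-- A path gives a chain with the ends as boundary. -/
theorem Conn.chain {ω : Set Ed} {R : Set (ℤ × ℤ)} {u v : ℤ × ℤ} (h : Conn ω R u v) :
    ∃ D : Ed → ZMod 2, (∀ e, D e ≠ 0 → e ∈ ω ∧ Conn ω R u (ea e) ∧ Conn ω R u (eb e) ∧
      ea e ∈ R ∧ eb e ∈ R) ∧ ∀ w, bd D w = ind (w = u) + ind (w = v) := by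
  classical
  unfold Conn at h
  induction h with
  | refl =>
    exact ⟨0, fun e he => absurd rfl he, fun w => by simp [bd, add_self2]⟩
  | @tail v' v'' h1 h2 ih =>
    obtain ⟨D, hD, hb⟩ := ih
    obtain ⟨hv', hv'', e, he, hh⟩ := h2
    have hcv' : Conn ω R u v' := h1
    have hcv'' : Conn ω R u v'' := h1.tail ⟨hv', hv'', e, he, hh⟩
    refine ⟨fun f => D f + if f = e then 1 else 0, ?_, ?_⟩
    · intro f hf
      by_cases hfe : f = e
      · subst hfe
        rcases hh with ⟨h3, h4⟩ | ⟨h3, h4⟩
        · rw [h3, h4]; exact ⟨he, hcv', hcv'', hv', hv''⟩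
        · rw [h3, h4]; exact ⟨he, hcv'', hcv', hv'', hv'⟩
      · simp only [hfe, if_false, add_zero] at hf
        exact hD f hf
    · intro w
      have hsingle : bd (fun f => if f = e then (1 : ZMod 2) else 0) w
          = ind (w = ea e) + ind (w = eb e) := by
        obtain ⟨ex, ey, b⟩ := e
        obtain ⟨wx, wy⟩ := w
        cases b with
        | false =>
          simp only [bd, ea_mk, eb_false, Prod.mk.injEq, and_true, reduceCtorEq, and_false,
            if_false, add_zero, ind]
          have e1 : (wx - 1 = ex ∧ wy = ey) ↔ (wx = ex + 1 ∧ wy = ey) := by omega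
          by_cases h1 : wx = ex ∧ wy = ey <;> by_cases h2 : wx = ex + 1 ∧ wy = ey
          · omega
          · simp [h1, e1, h2]
          · simp [h1, e1, h2]
          · simp [h1, e1, h2]
        | true =>
          simp only [bd, ea_mk, eb_true, Prod.mk.injEq, and_true, reduceCtorEq, and_false,
            if_false, zero_add, ind]
          have e1 : (wx = ex ∧ wy - 1 = ey) ↔ (wx = ex ∧ wy = ey + 1) := by omega
          by_cases h1 : wx = ex ∧ wy = ey <;> by_cases h2 : wx = ex ∧ wy = ey + 1
          · omega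
          · simp [h1, e1, h2]
          · simp [h1, e1, h2]
          · simp [h1, e1, h2]
      have hadd : bd (fun f => D f + if f = e then 1 else 0) w
          = bd D w + bd (fun f => if f = e then (1 : ZMod 2) else 0) w := by
        simp only [bd]; ring
      rw [hadd, hb w, hsingle]
      rcases hh with ⟨h3, h4⟩ | ⟨h3, h4⟩
      · rw [h3, h4]
        have := add_self2 (ind (w = v'))
        linear_combination this
      · rw [h3, h4]
        have := add_self2 (ind (w = v'))
        linear_combination this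

/-- The chain of a bottom-top crossing: data used in both crossing lemmas. -/
theorem vc_pot {a b c d : ℤ} (hcd : c < d) {ω : Set Ed} {x x' : ℤ}
    (hx : a ≤ x ∧ x ≤ b) (h : Conn ω (Rect a b c d) (x, c) (x', d)) :
    ∃ D : Ed → ZMod 2, (∀ e, D e ≠ 0 → e ∈ ω ∧ Conn ω (Rect a b c d) (x, c) (ea e) ∧
        Conn ω (Rect a b c d) (x, c) (eb e) ∧ ea e ∈ Rect a b c d ∧ eb e ∈ Rect a b c d) ∧
      (∀ i, a - 1 ≤ i → i ≤ b → ∀ j, c < j → j < d →
        pot a D i j = pot a D i (j - 1) + D (i, j, false)) ∧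
      ∀ j, c ≤ j → j < d → pot a D b j = 1 := by
  obtain ⟨D, hD, hb⟩ := h.chain
  have hev : ∀ x₁ y, a ≤ x₁ → x₁ ≤ b → c < y → y < d → bd D (x₁, y) = 0 := by
    intro x₁ y _ _ h3 h4
    rw [hb, ind_neg (by simp only [Prod.mk.injEq]; omega),
      ind_neg (by simp only [Prod.mk.injEq]; omega), add_zero]
  have hz : ∀ e : Ed, ea e ∉ Rect a b c d ∨ eb e ∉ Rect a b c d → D e = 0 := by
    intro e he
    by_contra hne
    obtain ⟨_, _, _, h1, h2⟩ := hD e hne
    rcases he with he | he
    · exact he h1
    · exact he h2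
  have hl : ∀ y, c < y → y < d → D (a - 1, y, false) = 0 := by
    intro y _ _
    refine hz _ (Or.inl ?_)
    simp only [ea_mk, mem_Rect]
    omega
  have hpot := pot_hor D hev hl
  refine ⟨D, hD, hpot, ?_⟩
  intro j hj
  induction j, hj using Int.leInduction with
  | base =>
    intro _
    -- the sum over the bottom row
    have key : ∀ i, a - 1 ≤ i → i ≤ b → pot a D i c = D (i, c, false) + ind (x ≤ i) := by
      intro i hi
      induction i, hi using Int.leInduction with
      | base =>
        intro _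
        rw [pot_lt D (by omega), ind_neg (by omega), add_zero]
        refine (hz _ (Or.inl ?_)).symm
        simp only [ea_mk, mem_Rect]
        omega
      | succ i hi ih =>
        intro hib
        rw [pot_succ D (show a ≤ i + 1 by omega)]
        simp only [add_sub_cancel_right]
        rw [ih (by omega)]
        have h1 := hb (i + 1, c)
        unfold bd at h1
        simp only [add_sub_cancel_right] at h1
        rw [hz (i + 1, c - 1, true) (Or.inl (by
          simp only [ea_mk, mem_Rect]; omega))] at h1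
        rw [ind_neg (P := ((i + 1, c) : ℤ × ℤ) = (x', d)) (by simp only [Prod.mk.injEq]; omega)]
          at h1
        have e1 := add_self2 (D (i + 1, c, false))
        have e3 := add_self2 (D (i, c, false))
        have e2 : ind (x ≤ i + 1) = ind (x ≤ i) + ind (((i + 1, c) : ℤ × ℤ) = (x, c)) := by
          rcases lt_trichotomy x (i + 1) with h2 | h2 | h2
          · rw [ind_pos (by omega), ind_pos (by omega),
              ind_neg (by simp only [Prod.mk.injEq]; omega), add_zero]
          · rw [ind_pos (P := x ≤ i + 1) (by omega), ind_neg (P := x ≤ i) (by omega),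
              ind_pos (P := ((i + 1, c) : ℤ × ℤ) = (x, c)) (by rw [h2]), zero_add]
          · rw [ind_neg (by omega), ind_neg (by omega),
              ind_neg (by simp only [Prod.mk.injEq]; omega), add_zero]
        rw [e2]
        linear_combination h1 - e1
    rw [key b (by omega) le_rfl, ind_pos hx.2, hz _ (Or.inr ?_), zero_add]
    simp only [eb_false, mem_Rect]
    omega
  | succ j hj ih =>
    intro hjd
    rw [hpot b (by omega) le_rfl (j + 1) (by omega) hjd]
    simp only [add_sub_cancel_right]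
    rw [ih (by omega), hz _ (Or.inr ?_), add_zero]
    simp only [eb_false, mem_Rect]
    omega

/-- A left-right path and a bottom-top path of a rectangle meet: the left-right path meets the
set of vertices joined to the bottom-top path. -/
theorem hc_vc_meet {a b c d : ℤ} (hcd : c < d) {ω ω' : Set Ed} {x x' y y' : ℤ}
    (hx : a ≤ x ∧ x ≤ b) (h : Conn ω (Rect a b c d) (x, c) (x', d))
    (hy : c ≤ y ∧ y ≤ d) (hab : a ≤ b) (h' : Conn ω' (Rect a b c d) (a, y) (b, y')) :
    ∃ w, Conn ω' (Rect a b c d) (a, y) w ∧ Conn ω (Rect a b c d) (x, c) w := by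
  obtain ⟨D, hD, hpot, hR⟩ := vc_pot hcd hx h
  by_contra hcon
  push Not at hcon
  -- edges at a vertex of the horizontal path are not in the chain
  have hz : ∀ w, Conn ω' (Rect a b c d) (a, y) w → ∀ e : Ed, ea e = w ∨ eb e = w → D e = 0 := by
    intro w hw e he
    by_contra hne
    obtain ⟨_, h1, h2, _⟩ := hD e hne
    rcases he with he | he
    · exact hcon w hw (he ▸ h1)
    · exact hcon w hw (he ▸ h2)
  have hmem : ∀ w, Conn ω' (Rect a b c d) (a, y) w → w ∈ Rect a b c d := fun w hw =>
    hw.mem ⟨le_rfl, hab, hy.1, hy.2⟩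
  -- the vertical edge used at height `min y (d - 1)`
  have hv : ∀ w : ℤ × ℤ, Conn ω' (Rect a b c d) (a, y) w →
      D (w.1, min w.2 (d - 1), true) = 0 := by
    intro w hw
    have hwm := hmem w hw
    simp only [mem_Rect] at hwm
    refine hz w hw _ ?_
    rcases le_or_gt w.2 (d - 1) with h1 | h1
    · left; rw [min_eq_left h1]; rfl
    · right
      rw [min_eq_right h1.le, eb_true]
      ext
      · rfl
      · change d - 1 + 1 = w.2; omega
  have hconst : ∀ w : ℤ × ℤ, Conn ω' (Rect a b c d) (a, y) w →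
      pot a D w.1 (min w.2 (d - 1)) = 0 := by
    intro w hw
    have hw0 := hw
    unfold Conn at hw
    induction hw with
    | refl =>
      rw [pot_succ D le_rfl, pot_lt D (by simp), hv _ hw0, add_zero]
    | @tail u w h1 h2 ih =>
      have hu : Conn ω' (Rect a b c d) (a, y) u := h1
      have ihu := ih hu
      have hum := hmem u hu
      have hwm := hmem w hw0
      simp only [mem_Rect] at hum hwm
      obtain ⟨_, _, ⟨ex, ey, eb'⟩, _, hh⟩ := h2
      cases eb' with
      | false =>
        simp only [ea_mk, eb_false] at hh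
        rcases hh with ⟨h3, h4⟩ | ⟨h3, h4⟩
        · subst h3; subst h4
          rw [pot_succ D (by simp only at hwm ⊢; omega)]
          simp only [add_sub_cancel_right]
          rw [hv _ hw0, add_zero]
          exact ihu
        · subst h3; subst h4
          rw [pot_succ D (by simp only at hum ⊢; omega)] at ihu
          simp only [add_sub_cancel_right] at ihu
          rw [hv _ hu, add_zero] at ihu
          exact ihu
      | true =>
        simp only [ea_mk, eb_true] at hh
        rcases hh with ⟨h3, h4⟩ | ⟨h3, h4⟩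
        · subst h3; subst h4
          simp only at ihu hwm hum ⊢
          rcases le_or_gt (ey + 1) (d - 1) with h5 | h5
          · rw [min_eq_left h5, hpot ex (by omega) (by omega) (ey + 1) (by omega) (by omega)]
            simp only [add_sub_cancel_right]
            rw [min_eq_left (by omega)] at ihu
            rw [ihu, zero_add]
            exact hz _ hw0 _ (Or.inl rfl)
          · rw [min_eq_right (by omega)]
            rwa [min_eq_left (by omega), show ey = d - 1 by omega] at ihu
        · subst h3; subst h4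
          simp only at ihu hwm hum ⊢
          rcases le_or_gt (ey + 1) (d - 1) with h5 | h5
          · rw [min_eq_left h5, hpot ex (by omega) (by omega) (ey + 1) (by omega) (by omega)]
              at ihu
            simp only [add_sub_cancel_right] at ihu
            rw [hz _ hu (ex, ey + 1, false) (Or.inl rfl), add_zero] at ihu
            rwa [min_eq_left (by omega)]
          · rw [min_eq_right (by omega)] at ihu
            rwa [min_eq_left (by omega), show ey = d - 1 by omega]
  have h1 := hconst _ h'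
  have h2 := (hmem _ h')
  simp only [mem_Rect] at h1 h2
  rw [hR _ (by omega) (by omega)] at h1
  exact one_ne_zero h1

end Pool.Agent.MP_6bd702.H23

end Parth23Planar

section Parth23Dual

/-!
Duality of crossings.
-/

set_option autoImplicit false

namespace Pool.Agent.MP_6bd702.H23

/-- The primal edge crossed by a dual edge (faces are the vertices of the dual lattice, labelled by
their lower left corners). -/
def cr (e : Ed) : Ed := if e.2.2 then (e.1, e.2.1 + 1, false) else (e.1 + 1, e.2.1, true)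

@[simp] theorem cr_false (i j : ℤ) : cr (i, j, false) = (i + 1, j, true) := rfl
@[simp] theorem cr_true (i j : ℤ) : cr (i, j, true) = (i, j + 1, false) := rfl

/-- The dual configuration: dual edges crossing closed edges. -/
def du (ω : Set Ed) : Set Ed := {e | cr e ∉ ω}

theorem mem_du {ω : Set Ed} {e : Ed} : e ∈ du ω ↔ cr e ∉ ω := Iff.rfl

/-- A bottom-top primal crossing and a left-right dual crossing exclude each other. -/
theorem block {a b c d : ℤ} (hcd : c < d) (hab : a ≤ b) {ω : Set Ed} (h : VC a b c d ω) :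
    ¬ HC (a - 1) b c (d - 1) (du ω) := by
  rintro ⟨y, y', hy1, hy2, hy1', hy2', hD⟩
  obtain ⟨x, x', hx1, hx2, _, _, hc⟩ := h
  obtain ⟨D, hDω, hpot, hR⟩ := vc_pot hcd ⟨hx1, hx2⟩ hc
  have hz : ∀ e, e ∉ ω → D e = 0 := fun e he => by
    by_contra hne
    exact he (hDω e hne).1
  have key : ∀ f : ℤ × ℤ, Conn (du ω) (Rect (a - 1) b c (d - 1)) (a - 1, y) f →
      pot a D f.1 f.2 = 0 := by
    intro f hf
    unfold Conn at hf
    induction hf with
    | refl => exact pot_lt D (by simp) _
    | @tail f g h1 h2 ih =>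
      obtain ⟨hf, hg, ⟨ex, ey, eb'⟩, he, hh⟩ := h2
      rw [mem_Rect] at hf hg
      have h0 := hz _ (mem_du.1 he)
      cases eb' with
      | false =>
        simp only [ea_mk, eb_false, cr_false] at hh h0
        rcases hh with ⟨h3, h4⟩ | ⟨h3, h4⟩
        · subst h3; subst h4
          simp only at hf hg ih ⊢
          rw [pot_succ D (by omega), add_sub_cancel_right, h0, add_zero, ih]
        · subst h3; subst h4
          simp only at hf hg ih ⊢
          rw [pot_succ D (by omega), add_sub_cancel_right, h0, add_zero] at ih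
          exact ih
      | true =>
        simp only [ea_mk, eb_true, cr_true] at hh h0
        rcases hh with ⟨h3, h4⟩ | ⟨h3, h4⟩
        · subst h3; subst h4
          simp only at hf hg ih ⊢
          rw [hpot ex (by omega) (by omega) (ey + 1) (by omega) (by omega), add_sub_cancel_right,
            h0, add_zero, ih]
        · subst h3; subst h4
          simp only at hf hg ih ⊢
          rw [hpot ex (by omega) (by omega) (ey + 1) (by omega) (by omega), add_sub_cancel_right,
            h0, add_zero] at ih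
          exact ih
  have h1 := key _ hD
  simp only at h1
  rw [hR y' hy1' (by omega)] at h1
  exact one_ne_zero h1

/-! ### The boundary of a set of faces -/

/-- The edges of the rectangle which separate two faces of the columns `a - 1, ..., b` and rows
`c, ..., d - 1`. -/
def ES (a b c d : ℤ) : Set Ed :=
  {e | (e.2.2 = true ∧ a ≤ e.1 ∧ e.1 ≤ b ∧ c ≤ e.2.1 ∧ e.2.1 < d) ∨
    (e.2.2 = false ∧ a ≤ e.1 ∧ e.1 < b ∧ c < e.2.1 ∧ e.2.1 < d)}

theorem mem_ES_true {a b c d x y : ℤ} :
    (x, y, true) ∈ ES a b c d ↔ a ≤ x ∧ x ≤ b ∧ c ≤ y ∧ y < d := by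
  simp [ES]

theorem mem_ES_false {a b c d x y : ℤ} :
    (x, y, false) ∈ ES a b c d ↔ a ≤ x ∧ x < b ∧ c < y ∧ y < d := by
  simp [ES]

theorem ES_sub {a b c d : ℤ} {e : Ed} (he : e ∈ ES a b c d) :
    ea e ∈ Rect a b c d ∧ eb e ∈ Rect a b c d := by
  obtain ⟨x, y, t⟩ := e
  cases t with
  | true =>
    rw [mem_ES_true] at he
    simp only [ea_mk, eb_true, mem_Rect]
    omega
  | false =>
    rw [mem_ES_false] at he
    simp only [ea_mk, eb_false, mem_Rect]
    omega

/-- The first face of an edge. -/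
def f1 (e : Ed) : ℤ × ℤ := if e.2.2 then (e.1 - 1, e.2.1) else (e.1, e.2.1 - 1)

/-- The second face of an edge. -/
def f2 (e : Ed) : ℤ × ℤ := (e.1, e.2.1)

@[simp] theorem f1_true (x y : ℤ) : f1 (x, y, true) = (x - 1, y) := rfl
@[simp] theorem f1_false (x y : ℤ) : f1 (x, y, false) = (x, y - 1) := rfl
@[simp] theorem f2_mk (x y : ℤ) (b : Bool) : f2 (x, y, b) = (x, y) := rfl

/-- The boundary edges of a set of faces. -/
def Zs (a b c d : ℤ) (U : Set (ℤ × ℤ)) : Set Ed :=
  {e | e ∈ ES a b c d ∧ ¬ (f1 e ∈ U ↔ f2 e ∈ U)}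

/-- The boundary edges with an end in `K`. -/
noncomputable def Cz (a b c d : ℤ) (U K : Set (ℤ × ℤ)) (e : Ed) : ZMod 2 :=
  ind (e ∈ Zs a b c d U ∧ ea e ∈ K)

/-- Hypotheses on the set of faces `U` and the set of vertices `K`. -/
structure UK (a b c d : ℤ) (U K : Set (ℤ × ℤ)) : Prop where
  left : ∀ y, c ≤ y → y < d → (a - 1, y) ∈ U
  right : ∀ y, c ≤ y → y < d → (b, y) ∉ U
  clo : ∀ e ∈ Zs a b c d U, (ea e ∈ K ↔ eb e ∈ K)

theorem ind_iff_add {P Q : Prop} : ind (¬ (P ↔ Q)) = ind P + ind Q := by
  by_cases hP : P <;> by_cases hQ : Q <;> simp [ind, hP, hQ]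
  exact (add_self2 1).symm

section

variable {a b c d : ℤ} {U K : Set (ℤ × ℤ)}

theorem Cz_eq_of_mem (h : UK a b c d U K) {e : Ed} {w : ℤ × ℤ} (hw : ea e = w ∨ eb e = w)
    (hK : w ∈ K) : Cz a b c d U K e = ind (e ∈ Zs a b c d U) := by
  unfold Cz
  by_cases he : e ∈ Zs a b c d U
  · have : ea e ∈ K := by
      rcases hw with h1 | h1
      · rwa [h1]
      · exact (h.clo e he).2 (by rwa [h1])
    rw [ind_pos he, ind_pos ⟨he, this⟩]
  · rw [ind_neg he, ind_neg fun h' => he h'.1]

theorem Cz_eq_zero (h : UK a b c d U K) {e : Ed} {w : ℤ × ℤ} (hw : ea e = w ∨ eb e = w)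
    (hK : w ∉ K) : Cz a b c d U K e = 0 := by
  unfold Cz
  refine ind_neg fun ⟨he, h2⟩ => hK ?_
  rcases hw with h1 | h1
  · rwa [h1] at h2
  · rw [← h1]; exact (h.clo e he).1 h2

/-- The value of the chain of all boundary edges. -/
theorem ind_Zs {e : Ed} (he : e ∈ ES a b c d) :
    ind (e ∈ Zs a b c d U) = ind (f1 e ∈ U) + ind (f2 e ∈ U) := by
  rw [← ind_iff_add]
  congr 1
  simp only [Zs, eq_iff_iff]
  exact ⟨fun h => h.2, fun h => ⟨he, h⟩⟩

theorem notMem_ES_Zs {e : Ed} (he : e ∉ ES a b c d) : ind (e ∈ Zs a b c d U) = 0 :=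
  ind_neg fun h => he h.1

/-- The chain is even at the inner vertices. -/
theorem bd_Cz (h : UK a b c d U K) (x y : ℤ) (hx1 : a ≤ x) (hx2 : x ≤ b) (hy1 : c < y)
    (hy2 : y < d) : bd (Cz a b c d U K) (x, y) = 0 := by
  unfold bd
  simp only
  by_cases hK : (x, y) ∈ K
  · rw [Cz_eq_of_mem h (e := (x - 1, y, false)) (w := (x, y)) (Or.inr (by simp)) hK,
      Cz_eq_of_mem h (e := (x, y, false)) (w := (x, y)) (Or.inl rfl) hK,
      Cz_eq_of_mem h (e := (x, y - 1, true)) (w := (x, y)) (Or.inr (by simp)) hK,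
      Cz_eq_of_mem h (e := (x, y, true)) (w := (x, y)) (Or.inl rfl) hK,
      ind_Zs (mem_ES_true.2 ⟨hx1, hx2, by omega, by omega⟩),
      ind_Zs (mem_ES_true.2 ⟨hx1, hx2, by omega, by omega⟩)]
    have eL : ind ((x - 1, y, false) ∈ Zs a b c d U)
        = ind ((x - 1, y - 1) ∈ U) + ind ((x - 1, y) ∈ U) := by
      rcases eq_or_lt_of_le hx1 with h1 | h1
      · subst h1
        rw [notMem_ES_Zs (by rw [mem_ES_false]; omega), ind_pos (h.left _ (by omega) (by omega)),
          ind_pos (h.left _ (by omega) (by omega)), add_self2]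
      · rw [ind_Zs (mem_ES_false.2 ⟨by omega, by omega, by omega, by omega⟩)]
        rfl
    have eR : ind ((x, y, false) ∈ Zs a b c d U)
        = ind ((x, y - 1) ∈ U) + ind ((x, y) ∈ U) := by
      rcases eq_or_lt_of_le hx2 with h1 | h1
      · subst h1
        rw [notMem_ES_Zs (by rw [mem_ES_false]; omega), ind_neg (h.right _ (by omega) (by omega)),
          ind_neg (h.right _ (by omega) (by omega)), add_zero]
      · rw [ind_Zs (mem_ES_false.2 ⟨by omega, by omega, by omega, by omega⟩)]
        rfl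
    rw [eL, eR]
    simp only [f1_true, f2_mk]
    have e1 := add_self2 (ind ((x - 1, y - 1) ∈ U))
    have e2 := add_self2 (ind ((x - 1, y) ∈ U))
    have e3 := add_self2 (ind ((x, y - 1) ∈ U))
    have e4 := add_self2 (ind ((x, y) ∈ U))
    linear_combination e1 + e2 + e3 + e4
  · rw [Cz_eq_zero h (e := (x - 1, y, false)) (w := (x, y)) (Or.inr (by simp)) hK,
      Cz_eq_zero h (e := (x, y, false)) (w := (x, y)) (Or.inl rfl) hK,
      Cz_eq_zero h (e := (x, y - 1, true)) (w := (x, y)) (Or.inr (by simp)) hK,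
      Cz_eq_zero h (e := (x, y, true)) (w := (x, y)) (Or.inl rfl) hK]
    simp

theorem Cz_notMem_ES {e : Ed} (he : e ∉ ES a b c d) : Cz a b c d U K e = 0 :=
  ind_neg fun h => he h.1.1

theorem Cz_hor (h : UK a b c d U K) : ∀ i, a - 1 ≤ i → i ≤ b → ∀ j, c < j → j < d →
    pot a (Cz a b c d U K) i j
      = pot a (Cz a b c d U K) i (j - 1) + Cz a b c d U K (i, j, false) :=
  pot_hor _ (fun x y h1 h2 h3 h4 => bd_Cz h x y h1 h2 h3 h4)
    (fun y _ _ => Cz_notMem_ES (by rw [mem_ES_false]; omega))

/-- The potential on the right side does not depend on the height. -/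
theorem Cz_right (h : UK a b c d U K) (hab : a - 1 ≤ b) : ∀ j, c ≤ j → j < d →
    pot a (Cz a b c d U K) b j = pot a (Cz a b c d U K) b c := by
  intro j hj
  induction j, hj using Int.leInduction with
  | base => intro _; rfl
  | succ j hj ih =>
    intro hjd
    rw [Cz_hor h b hab le_rfl (j + 1) (by omega) hjd, add_sub_cancel_right, ih (by omega),
      Cz_notMem_ES (by rw [mem_ES_false]; omega), add_zero]

/-- The potential of all boundary edges. -/
theorem pot_univ (hl : ∀ y, c ≤ y → y < d → (a - 1, y) ∈ U) {j : ℤ} (h1 : c ≤ j) (h2 : j < d) :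
    ∀ i, a - 1 ≤ i → i ≤ b →
      ∑ x ∈ Finset.Icc a i, ind ((x, j, true) ∈ Zs a b c d U) = 1 + ind ((i, j) ∈ U) := by
  intro i hi
  induction i, hi using Int.leInduction with
  | base =>
    intro _
    rw [Finset.Icc_eq_empty (by omega), Finset.sum_empty, ind_pos (hl j h1 h2)]
    exact (add_self2 1).symm
  | succ i hi ih =>
    intro hib
    have : Finset.Icc a (i + 1) = insert (i + 1) (Finset.Icc a i) := by
      ext x; simp only [Finset.mem_Icc, Finset.mem_insert]; omega
    rw [this, Finset.sum_insert (by simp), ih (by omega),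
      ind_Zs (mem_ES_true.2 ⟨by omega, hib, h1, h2⟩)]
    simp only [f1_true, f2_mk, add_sub_cancel_right]
    have e1 := add_self2 (ind ((i, j) ∈ U))
    linear_combination e1

/-- If the potential on the right side is `1`, then `K` contains an edge at every height. -/
theorem exists_of_right (h : UK a b c d U K) (hab : a - 1 ≤ b)
    (h1 : pot a (Cz a b c d U K) b c = 1) {j : ℤ} (hj1 : c ≤ j) (hj2 : j < d) :
    ∃ x, a ≤ x ∧ x ≤ b ∧ (x, j) ∈ K ∧ (x, j + 1) ∈ K := by
  have h2 := Cz_right h hab j hj1 hj2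
  rw [h1] at h2
  unfold pot at h2
  obtain ⟨x, hx, hne⟩ := Finset.exists_ne_zero_of_sum_ne_zero (by rw [h2]; exact one_ne_zero)
  rw [Finset.mem_Icc] at hx
  have h3 : (x, j, true) ∈ Zs a b c d U ∧ ea (x, j, true) ∈ K := by
    by_contra hcon
    exact hne (ind_neg hcon)
  exact ⟨x, hx.1, hx.2, h3.2, by simpa using (h.clo _ h3.1).1 h3.2⟩

end

end Pool.Agent.MP_6bd702.H23

end Parth23Dual

section Parth60Faces

/-!
# Faces of the square lattice joined across the edges which are not in a set
-/

set_option autoImplicit false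

open Set

namespace Pool.Agent.MP_6bd702.H60

open Pool.Agent.MP_6bd702.H23

/-- Two faces are neighbours across an edge which is not in `T`. -/
def FStep (T : Set Ed) (f g : ℤ × ℤ) : Prop :=
  ∃ e ∉ T, (f1 e = f ∧ f2 e = g) ∨ (f1 e = g ∧ f2 e = f)

/-- Two faces are joined across edges which are not in `T`. -/
def FConn (T : Set Ed) (f g : ℤ × ℤ) : Prop := Relation.ReflTransGen (FStep T) f g

theorem FStep.symm {T : Set Ed} {f g : ℤ × ℤ} (h : FStep T f g) : FStep T g f := by
  obtain ⟨e, he, h⟩ := h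
  exact ⟨e, he, h.symm⟩

theorem FConn.symm {T : Set Ed} {f g : ℤ × ℤ} (h : FConn T f g) : FConn T g f := by
  unfold FConn at *
  induction h with
  | refl => exact .refl
  | tail _ h2 ih => exact .head h2.symm ih

theorem FConn.trans {T : Set Ed} {f g k : ℤ × ℤ} (h : FConn T f g) (h' : FConn T g k) :
    FConn T f k := Relation.ReflTransGen.trans h h'

/-- The faces which are joined to infinitely many faces. -/
def Out (T : Set Ed) : Set (ℤ × ℤ) := {f | {g | FConn T f g}.Infinite}

theorem Out.of_conn {T : Set Ed} {f g : ℤ × ℤ} (h : FConn T f g) (hf : f ∈ Out T) : g ∈ Out T := by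
  have h1 : {k | FConn T f k} = {k | FConn T g k} := by
    ext k
    exact ⟨fun h2 => h.symm.trans h2, fun h2 => h.trans h2⟩
  change {k | FConn T g k}.Infinite
  rw [← h1]
  exact hf

end Pool.Agent.MP_6bd702.H60

end Parth60Faces
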