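import Pool.Agent.Lib.MP_6bd702_z.Z005
import Pool.Agent.Lib.MP_6bd702_z.Z003
import Pool.Agent.Lib.MP_6bd702_z.Z004
import Pool.Agent.Lib.MP_6bd702_z.OuterDefs
import Pool.Agent.Lib.MP_6bd702_z.Z002
import Pool.Agent.Lib.MP_6bd702_z.Z001

section Parth60Orbit

/-!
# Two corners whose vertices are joined and whose faces are dually joined are on one interface
-/

set_option autoImplicit false

open Set

namespace Pool.Agent.PercO

open Pool.Agent.MP_6bd702.H23 Pool.Agent.PercU

/-- A primitive. -/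
theorem exists_prim (g : ℤ → ZMod 2) : ∃ S : ℤ → ZMod 2, S 0 = 0 ∧ ∀ a, S (a + 1) = S a + g a := by
  refine ⟨fun a => (∑ i ∈ Finset.Ico 0 a, g i) + ∑ i ∈ Finset.Ico a 0, g i, by simp, fun a => ?_⟩
  rcases le_or_gt 0 a with h | h
  · have h1 : Finset.Ico 0 (a + 1) = insert a (Finset.Ico 0 a) := by
      ext x; simp only [Finset.mem_Ico, Finset.mem_insert]; omega
    have h2 : Finset.Ico (a + 1) 0 = ∅ := Finset.Ico_eq_empty (by omega)
    have h3 : Finset.Ico a 0 = ∅ := Finset.Ico_eq_empty (by omega)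
    simp only [h1, h2, h3, Finset.sum_empty, add_zero]
    rw [Finset.sum_insert (by simp)]
    ring
  · have h1 : Finset.Ico a 0 = insert a (Finset.Ico (a + 1) 0) := by
      ext x; simp only [Finset.mem_Ico, Finset.mem_insert]; omega
    have h2 : Finset.Ico 0 (a + 1) = ∅ := Finset.Ico_eq_empty (by omega)
    have h3 : Finset.Ico 0 a = ∅ := Finset.Ico_eq_empty (by omega)
    simp only [h1, h2, h3, Finset.sum_empty, zero_add]
    rw [Finset.sum_insert (by simp)]
    have := add_self2 (g a)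
    linear_combination -this

/-- A closed mod 2 form on the square lattice is exact. -/
theorem exists_pot (A B : ℤ → ℤ → ZMod 2)
    (h : ∀ a b, A a b + B (a + 1) b + A a (b + 1) + B a b = 0) :
    ∃ p : ℤ → ℤ → ZMod 2, (∀ a b, p (a + 1) b = p a b + A a b) ∧
      ∀ a b, p a (b + 1) = p a b + B a b := by
  obtain ⟨S, -, hS⟩ := exists_prim fun a => A a 0
  choose V hV0 hV using fun a => exists_prim (B a)
  refine ⟨fun a b => S a + V a b, fun a b => ?_, fun a b => by
    change S a + V a (b + 1) = S a + V a b + B a b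
    rw [hV]; ring⟩
  change S (a + 1) + V (a + 1) b = S a + V a b + A a b
  have key : ∀ b, V (a + 1) b + V a b = A a 0 + A a b := by
    intro b
    induction b using Int.induction_on with
    | zero => rw [hV0, hV0, add_zero, add_self2]
    | succ i ih =>
      rw [hV, hV]
      have h1 := h a i
      have h3 := add_self2 (A a (i + 1))
      linear_combination ih + h1 - h3
    | pred i ih =>
      have h4 := hV (a + 1) (-i - 1)
      have h5 := hV a (-i - 1)
      have h1 := h a (-i - 1)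
      simp only [sub_add_cancel] at h4 h5 h1
      have h2 := add_self2 (A a (-i))
      rw [h4, h5] at ih
      linear_combination ih - h1 + h2
  have hk := key b
  have h1 := add_self2 (V a b)
  rw [hS]
  have h2 := add_self2 (A a 0)
  linear_combination hk - h1 + h2


/-- The orbit of a corner. -/
def Orb (ω : Set Ed) (k : Cor) : Set Cor := {k' | ∃ j : ℤ, (nxtE ω ^ j) k = k'}

theorem nxt_mem_orb {ω : Set Ed} {k k' : Cor} : nxt ω k' ∈ Orb ω k ↔ k' ∈ Orb ω k := by
  constructor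
  · rintro ⟨j, hj⟩
    refine ⟨-1 + j, ?_⟩
    rw [zpow_add, Equiv.Perm.mul_apply, hj, zpow_neg_one]
    exact (nxtE ω).symm_apply_apply k'
  · rintro ⟨j, hj⟩
    refine ⟨1 + j, ?_⟩
    rw [zpow_add, Equiv.Perm.mul_apply, hj, zpow_one]
    rfl

/-- The height function of an interface: the vertices on its left and the faces on its right. -/
theorem exists_height (ω : Set Ed) (k : Cor) : ∃ hv hf : ℤ × ℤ → ZMod 2,
    ∀ k', hv (vtx k') + hf (fce k') = ind (k' ∈ Orb ω k) := by
  -- `c a b` is the indicator of the orbit for the corner crossed by an edge of the quad graph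
  have hq : ∀ x y : ℤ, ∀ J : Cor → ZMod 2, (∀ k', J (nxt ω k') = J k') →
      (J (x, y, true, false) + J (x, y, true, true) + J (x + 1, y, false, true)
        + J (x + 1, y, false, false) = 0) ∧
      (J (x, y, true, true) + J (x, y, false, true) + J (x, y + 1, false, false)
        + J (x, y + 1, true, false) = 0) := by
    intro x y J hJ
    constructor
    · have h1 := hJ (x, y, true, false)
      have h2 := hJ (x + 1, y, false, true)
      have e1 : qry (x, y, true, false) = (x, y, false) := rfl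
      have e2 : qry (x + 1, y, false, true) = (x, y, false) := by simp [qry]
      by_cases h : (x, y, false) ∈ ω
      · rw [nxt_of_mem (by rwa [e1])] at h1
        rw [nxt_of_mem (by rwa [e2])] at h2
        simp only [adv, add_sub_cancel_right] at h1 h2
        have h3 := add_self2 (J (x, y, true, false))
        have h4 := add_self2 (J (x + 1, y, false, true))
        linear_combination h1 + h2 + h3 + h4
      · rw [nxt_of_notMem (by rwa [e1])] at h1
        rw [nxt_of_notMem (by rwa [e2])] at h2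
        simp only [rot] at h1 h2
        have h3 := add_self2 (J (x, y, true, false))
        have h4 := add_self2 (J (x + 1, y, false, true))
        linear_combination h1 + h2 + h3 + h4
    · have h1 := hJ (x, y, true, true)
      have h2 := hJ (x, y + 1, false, false)
      have e1 : qry (x, y, true, true) = (x, y, true) := rfl
      have e2 : qry (x, y + 1, false, false) = (x, y, true) := by simp [qry]
      by_cases h : (x, y, true) ∈ ω
      · rw [nxt_of_mem (by rwa [e1])] at h1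
        rw [nxt_of_mem (by rwa [e2])] at h2
        simp only [adv, add_sub_cancel_right] at h1 h2
        have h3 := add_self2 (J (x, y, true, true))
        have h4 := add_self2 (J (x, y + 1, false, false))
        linear_combination h1 + h2 + h3 + h4
      · rw [nxt_of_notMem (by rwa [e1])] at h1
        rw [nxt_of_notMem (by rwa [e2])] at h2
        simp only [rot] at h1 h2
        have h3 := add_self2 (J (x, y, true, true))
        have h4 := add_self2 (J (x, y + 1, false, false))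
        linear_combination h1 + h2 + h3 + h4
  have hJ : ∀ k', ind (nxt ω k' ∈ Orb ω k) = ind (k' ∈ Orb ω k) := by
    intro k'
    rw [show (nxt ω k' ∈ Orb ω k) = (k' ∈ Orb ω k) from propext nxt_mem_orb]
  set J : Cor → ZMod 2 := fun k' => ind (k' ∈ Orb ω k) with hJdef
  have hq' := fun x y => hq x y J hJ
  -- coordinates `X = a - b`, `Y = a + b`: vertices at even, faces at odd points
  let A : ℤ → ℤ → ZMod 2 := fun a b =>
    if (a - b) % 2 = 0 then J ((a - b) / 2, (a + b) / 2, true, true)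
    else J ((a - b + 1) / 2, (a + b + 1) / 2, false, false)
  let B : ℤ → ℤ → ZMod 2 := fun a b =>
    if (a - b) % 2 = 0 then J ((a - b) / 2, (a + b) / 2, false, true)
    else J ((a - b - 1) / 2, (a + b + 1) / 2, true, false)
  have hA0 : ∀ x y a b : ℤ, a - b = 2 * x → a + b = 2 * y → A a b = J (x, y, true, true) := by
    intro x y a b h1 h2
    simp only [A]
    rw [if_pos (by omega), show (a - b) / 2 = x by omega, show (a + b) / 2 = y by omega]
  have hA1 : ∀ x y a b : ℤ, a - b + 1 = 2 * x → a + b + 1 = 2 * y →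
      A a b = J (x, y, false, false) := by
    intro x y a b h1 h2
    simp only [A]
    rw [if_neg (by omega), show (a - b + 1) / 2 = x by omega, show (a + b + 1) / 2 = y by omega]
  have hB0 : ∀ x y a b : ℤ, a - b = 2 * x → a + b = 2 * y → B a b = J (x, y, false, true) := by
    intro x y a b h1 h2
    simp only [B]
    rw [if_pos (by omega), show (a - b) / 2 = x by omega, show (a + b) / 2 = y by omega]
  have hB1 : ∀ x y a b : ℤ, a - b - 1 = 2 * x → a + b + 1 = 2 * y →
      B a b = J (x, y, true, false) := by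
    intro x y a b h1 h2
    simp only [B]
    rw [if_neg (by omega), show (a - b - 1) / 2 = x by omega, show (a + b + 1) / 2 = y by omega]
  obtain ⟨p, hp1, hp2⟩ := exists_pot A B (by
    intro a b
    rcases Int.even_or_odd' (a - b) with ⟨x, hx | hx⟩
    · rw [hA0 x (x + b) a b (by omega) (by omega), hB0 x (x + b) a b (by omega) (by omega),
        hB1 x (x + b + 1) (a + 1) b (by omega) (by omega),
        hA1 x (x + b + 1) a (b + 1) (by omega) (by omega)]
      have h1 := (hq' x (x + b)).2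
      linear_combination h1
    · rw [hA1 (x + 1) (x + b + 1) a b (by omega) (by omega),
        hB1 x (x + b + 1) a b (by omega) (by omega),
        hB0 (x + 1) (x + b + 1) (a + 1) b (by omega) (by omega),
        hA0 x (x + b + 1) a (b + 1) (by omega) (by omega)]
      have h1 := (hq' x (x + b + 1)).1
      linear_combination h1)
  refine ⟨fun v => p (v.1 + v.2) (v.2 - v.1), fun f => p (f.1 + f.2 + 1) (f.2 - f.1), ?_⟩
  rintro ⟨x, y, _ | _, _ | _⟩
  · have h1 := hp1 (x + y - 1) (y - x)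
    rw [hA1 x y _ _ (by omega) (by omega)] at h1
    simp only [vtx, fce, Bool.false_eq_true, if_false]
    rw [show x - 1 + (y - 1) + 1 = x + y - 1 by ring, show y - 1 - (x - 1) = y - x by ring]
    rw [show x + y - 1 + 1 = x + y by ring] at h1
    have h2 := add_self2 (p (x + y - 1) (y - x))
    linear_combination h1 + h2
  · have h1 := hp2 (x + y) (y - x)
    rw [hB0 x y _ _ (by omega) (by omega)] at h1
    simp only [vtx, fce, Bool.false_eq_true, if_false, if_true]
    rw [show x - 1 + y + 1 = x + y by ring, show y - (x - 1) = y - x + 1 by ring]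
    have h2 := add_self2 (p (x + y) (y - x))
    linear_combination h1 + h2
  · have h1 := hp2 (x + y) (y - x - 1)
    rw [hB1 x y _ _ (by omega) (by omega)] at h1
    simp only [vtx, fce, Bool.false_eq_true, if_false, if_true]
    rw [show x + (y - 1) + 1 = x + y by ring, show y - 1 - x = y - x - 1 by ring]
    rw [show y - x - 1 + 1 = y - x by ring] at h1
    have h2 := add_self2 (p (x + y) (y - x - 1))
    linear_combination h1 + h2
  · have h1 := hp1 (x + y) (y - x)
    rw [hA0 x y _ _ (by omega) (by omega)] at h1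
    simp only [vtx, fce, if_true]
    have h2 := add_self2 (p (x + y) (y - x))
    linear_combination h1 + h2

theorem mem_orb_of_conn {ω : Set Ed} {k k' : Cor} (h1 : Conn ω univ (vtx k) (vtx k'))
    (h2 : Conn (du ω) univ (fce k) (fce k')) : k' ∈ Orb ω k := by
  obtain ⟨hv, hf, h⟩ := exists_height ω k
  have hJ : ∀ k', ind (nxt ω k' ∈ Orb ω k) = ind (k' ∈ Orb ω k) := by
    intro k'
    rw [show (nxt ω k' ∈ Orb ω k) = (k' ∈ Orb ω k) from propext nxt_mem_orb]
  -- the height is constant along open edges and across closed edges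
  have hcor : ∀ k₀, (qry k₀ ∈ ω → hv (vtx (adv k₀)) = hv (vtx k₀)) ∧
      (qry k₀ ∉ ω → hf (fce (rot k₀)) = hf (fce k₀)) := by
    intro k₀
    constructor
    · intro h3
      have h4 := hJ k₀
      rw [nxt_of_mem h3, ← h, ← h, fce_adv] at h4
      exact add_right_cancel h4
    · intro h3
      have h4 := hJ k₀
      rw [nxt_of_notMem h3, ← h, ← h, vtx_rot] at h4
      exact add_left_cancel h4
  have hedge : ∀ e : Ed, (e ∈ ω → hv (ea e) = hv (eb e)) ∧ (e ∉ ω → hf (f1 e) = hf (f2 e)) := by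
    intro e
    obtain ⟨x, y, s⟩ := e
    cases s with
    | false =>
      have h3 := hcor (x, y, true, false)
      constructor
      · intro h4
        have h5 := h3.1 h4
        simp only [adv, vtx] at h5
        exact h5.symm
      · intro h4
        have h5 := h3.2 h4
        simp only [rot, fce, if_true, Bool.false_eq_true, if_false] at h5
        simp only [f1, f2, Bool.false_eq_true, if_false]
        exact h5.symm
    | true =>
      have h3 := hcor (x, y, true, true)
      constructor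
      · intro h4
        have h5 := h3.1 h4
        simp only [adv, vtx] at h5
        exact h5.symm
      · intro h4
        have h5 := h3.2 h4
        simp only [rot, fce, if_true, Bool.false_eq_true, if_false] at h5
        simp only [f1, f2, if_true]
        exact h5
  have hv' : hv (vtx k) = hv (vtx k') := by
    unfold Conn at h1
    generalize vtx k' = w at h1
    clear h2
    induction h1 with
    | refl => rfl
    | tail _ h2 ih =>
      obtain ⟨-, -, e, he, ⟨h3, h4⟩ | ⟨h3, h4⟩⟩ := h2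
      · rw [ih, ← h3, ← h4]; exact (hedge e).1 he
      · rw [ih, ← h3, ← h4]; exact ((hedge e).1 he).symm
  have hf' : hf (fce k) = hf (fce k') := by
    unfold Conn at h2
    generalize fce k' = w at h2
    clear hv' h1
    induction h2 with
    | refl => rfl
    | tail _ h2 ih =>
      obtain ⟨-, -, e, he, hh⟩ := h2
      have he' : cr e ∉ ω := he
      have h5 := (hedge (cr e)).2 he'
      rw [← ea_dc, ← eb_dc, dc_cr] at h5
      rcases hh with ⟨h3, h4⟩ | ⟨h3, h4⟩
      · rw [ih, ← h3, ← h4]; exact h5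
      · rw [ih, ← h3, ← h4]; exact h5.symm
  have h3 : ind (k' ∈ Orb ω k) = 1 := by
    rw [← h, ← hv', ← hf', h]
    exact ind_pos ⟨0, rfl⟩
  by_contra h4
  rw [ind_neg h4] at h3
  exact zero_ne_one h3

end Pool.Agent.PercO

end Parth60Orbit

section Parth60Outer

/-!
# The outer corners of a cluster form one interface
-/

set_option autoImplicit false

open Set

namespace Pool.Agent.PercO

open Pool.Agent.MP_6bd702.H23 Pool.Agent.MP_6bd702.H60 Pool.Agent.PercU

/-- The vertices of the cluster of `v`. -/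
def Kc (ω : Set Ed) (v : ℤ × ℤ) : Set (ℤ × ℤ) := {u | Conn ω univ v u}

/-- The edges of the cluster of `v`. -/
def Tc (ω : Set Ed) (v : ℤ × ℤ) : Set Ed := {e | e ∈ ω ∧ Conn ω univ v (ea e)}

/-- The outer corners of the cluster of `v`. -/
def Oc (ω : Set Ed) (v : ℤ × ℤ) : Set Cor := {k | vtx k ∈ Kc ω v ∧ fce k ∈ Out (Tc ω v)}

/-- The sup-distance. -/
def sd (u v : ℤ × ℤ) : ℤ := max |u.1 - v.1| |u.2 - v.2|

variable {ω : Set Ed} {v : ℤ × ℤ}

/-! ### The cluster -/

theorem Tc_sub : Tc ω v ⊆ ω := fun _ h => h.1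

theorem conn_edge {e : Ed} (he : e ∈ ω) : Conn ω univ (ea e) (eb e) :=
  .single ⟨trivial, trivial, e, he, Or.inl ⟨rfl, rfl⟩⟩

theorem ea_mem {e : Ed} (he : e ∈ Tc ω v) : ea e ∈ Kc ω v := he.2

theorem eb_mem {e : Ed} (he : e ∈ Tc ω v) : eb e ∈ Kc ω v := he.2.trans (conn_edge he.1)

theorem mem_Tc_of_ea {e : Ed} (he : e ∈ ω) (h : ea e ∈ Kc ω v) : e ∈ Tc ω v := ⟨he, h⟩

theorem mem_Tc_of_eb {e : Ed} (he : e ∈ ω) (h : eb e ∈ Kc ω v) : e ∈ Tc ω v :=
  ⟨he, Conn.trans h (conn_edge he).symm⟩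

theorem conn_Tc {u : ℤ × ℤ} (h : u ∈ Kc ω v) : Conn (Tc ω v) univ v u := by
  have h' : Conn ω univ v u := h
  unfold Conn at h'
  induction h' with
  | refl => exact .refl
  | @tail a b h1 h2 ih =>
    obtain ⟨-, -, e, he, hh⟩ := h2
    refine (ih h1).tail ⟨trivial, trivial, e, ?_, hh⟩
    rcases hh with ⟨h3, -⟩ | ⟨-, h3⟩
    · exact mem_Tc_of_ea he (by rw [h3]; exact h1)
    · exact mem_Tc_of_eb he (by rw [h3]; exact h1)

theorem qry_mem_iff {k : Cor} (hk : vtx k ∈ Kc ω v) : qry k ∈ ω ↔ qry k ∈ Tc ω v := by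
  refine ⟨fun h => ?_, fun h => h.1⟩
  rcases ends_qry k with ⟨h1, -⟩ | ⟨-, h1⟩
  · exact mem_Tc_of_ea h (by rw [h1]; exact hk)
  · exact mem_Tc_of_eb h (by rw [h1]; exact hk)

theorem vtx_nxt_mem {k : Cor} (hk : vtx k ∈ Kc ω v) : vtx (nxt ω k) ∈ Kc ω v :=
  Conn.trans hk (conn_vtx k 1)

theorem vtx_iter_mem {k : Cor} (hk : vtx k ∈ Kc ω v) (j : ℕ) :
    vtx ((nxt ω)^[j] k) ∈ Kc ω v := Conn.trans hk (conn_vtx k j)

theorem nxt_eq_Tc {k : Cor} (hk : vtx k ∈ Kc ω v) : nxt ω k = nxt (Tc ω v) k :=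
  nxt_congr (qry_mem_iff hk)

theorem iter_eq_Tc {k : Cor} (hk : vtx k ∈ Kc ω v) (j : ℕ) :
    (nxt ω)^[j] k = (nxt (Tc ω v))^[j] k := by
  induction j with
  | zero => rfl
  | succ j ih =>
    rw [Function.iterate_succ_apply', Function.iterate_succ_apply', ← ih,
      nxt_eq_Tc (vtx_iter_mem hk j)]

/-! ### Faces -/

theorem fstep_iff {T : Set Ed} {f g : ℤ × ℤ} : FStep T f g ↔ Step (du T) univ f g := by
  constructor
  · rintro ⟨e, he, hh⟩
    refine ⟨trivial, trivial, dc e, by rw [mem_du, cr_dc]; exact he, ?_⟩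
    rw [ea_dc, eb_dc]
    exact hh
  · rintro ⟨-, -, e, he, hh⟩
    refine ⟨cr e, he, ?_⟩
    rw [← ea_dc, ← eb_dc, dc_cr]
    exact hh

theorem fconn_iff {T : Set Ed} {f g : ℤ × ℤ} : FConn T f g ↔ Conn (du T) univ f g := by
  unfold FConn Conn
  constructor
  · intro h
    induction h with
    | refl => exact .refl
    | tail _ h2 ih => exact ih.tail (fstep_iff.1 h2)
  · intro h
    induction h with
    | refl => exact .refl
    | tail _ h2 ih => exact ih.tail (fstep_iff.2 h2)

theorem fstep_h {T : Set Ed} {x y : ℤ} (h : (x, y, true) ∉ T) : FStep T (x - 1, y) (x, y) :=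
  ⟨(x, y, true), h, Or.inl ⟨rfl, rfl⟩⟩

theorem fstep_v {T : Set Ed} {x y : ℤ} (h : (x, y, false) ∉ T) : FStep T (x, y - 1) (x, y) :=
  ⟨(x, y, false), h, Or.inl ⟨rfl, rfl⟩⟩

/-- Faces of a row, joined horizontally. -/
theorem fconn_row {T : Set Ed} {y : ℤ} (x : ℤ) (j : ℕ)
    (h : ∀ i : ℕ, i < j → (x + 1 + i, y, true) ∉ T) : FConn T (x, y) (x + j, y) := by
  induction j with
  | zero => simp only [Nat.cast_zero, add_zero]; exact .refl
  | succ j ih =>
    refine (ih fun i hi => h i (by omega)).tail ?_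
    have h1 := fstep_h (h j (by omega))
    rw [show x + 1 + (j : ℤ) - 1 = x + j by ring] at h1
    rw [show x + ((j + 1 : ℕ) : ℤ) = x + 1 + j by push_cast; ring]
    exact h1

/-- Faces of a column, joined vertically. -/
theorem fconn_col {T : Set Ed} {x : ℤ} (y : ℤ) (j : ℕ)
    (h : ∀ i : ℕ, i < j → (x, y + 1 + i, false) ∉ T) : FConn T (x, y) (x, y + j) := by
  induction j with
  | zero => simp only [Nat.cast_zero, add_zero]; exact .refl
  | succ j ih =>
    refine (ih fun i hi => h i (by omega)).tail ?_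
    have h1 := fstep_v (h j (by omega))
    rw [show y + 1 + (j : ℤ) - 1 = y + j by ring] at h1
    rw [show y + ((j + 1 : ℕ) : ℤ) = y + 1 + j by push_cast; ring]
    exact h1

theorem fconn_row' {T : Set Ed} {x x' y : ℤ} (hx : x ≤ x')
    (h : ∀ i, x < i → i ≤ x' → (i, y, true) ∉ T) : FConn T (x, y) (x', y) := by
  have h1 := fconn_row (T := T) (y := y) x (x' - x).toNat (fun i hi => h _ (by omega) (by omega))
  rwa [show x + ((x' - x).toNat : ℤ) = x' by omega] at h1

theorem fconn_col' {T : Set Ed} {x y y' : ℤ} (hy : y ≤ y')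
    (h : ∀ i, y < i → i ≤ y' → (x, i, false) ∉ T) : FConn T (x, y) (x, y') := by
  have h1 := fconn_col (T := T) (x := x) y (y' - y).toNat (fun i hi => h _ (by omega) (by omega))
  rwa [show y + ((y' - y).toNat : ℤ) = y' by omega] at h1

theorem out_left {T : Set Ed} {x y : ℤ} (h : ∀ e ∈ T, x < e.1) : (x, y) ∈ Out T := by
  refine Set.infinite_of_injective_forall_mem (f := fun i : ℕ => (x - i, y)) ?_ ?_
  · intro i j hij
    simp only [Prod.mk.injEq] at hij
    omega
  · intro i
    refine (fconn_row' (by omega) fun i' _ h2 h3 => ?_).symm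
    have := h _ h3
    simp only at this
    omega

theorem out_right {T : Set Ed} {x y : ℤ} (h : ∀ e ∈ T, e.1 ≤ x) : (x, y) ∈ Out T := by
  refine Set.infinite_of_injective_forall_mem (f := fun i : ℕ => (x + i, y)) ?_ ?_
  · intro i j hij
    simp only [Prod.mk.injEq] at hij
    omega
  · intro i
    refine (fconn_row' (by omega) fun i' h1 _ h3 => ?_)
    have := h _ h3
    simp only at this
    omega

theorem out_bot {T : Set Ed} {x y : ℤ} (h : ∀ e ∈ T, y < e.2.1) : (x, y) ∈ Out T := by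
  refine Set.infinite_of_injective_forall_mem (f := fun i : ℕ => (x, y - i)) ?_ ?_
  · intro i j hij
    simp only [Prod.mk.injEq] at hij
    omega
  · intro i
    refine (fconn_col' (by omega) fun i' _ h2 h3 => ?_).symm
    have := h _ h3
    simp only at this
    omega

theorem out_top {T : Set Ed} {x y : ℤ} (h : ∀ e ∈ T, e.2.1 ≤ y) : (x, y) ∈ Out T := by
  refine Set.infinite_of_injective_forall_mem (f := fun i : ℕ => (x, y + i)) ?_ ?_
  · intro i j hij
    simp only [Prod.mk.injEq] at hij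
    omega
  · intro i
    refine (fconn_col' (by omega) fun i' h1 _ h3 => ?_)
    have := h _ h3
    simp only at this
    omega

/-- The faces outside a box which contains all edges are joined to each other. -/
theorem fconn_outside {T : Set Ed} {n : ℤ} (hT : T ⊆ EW 0 n 0 n) {x y : ℤ}
    (h : x < 0 ∨ n ≤ x ∨ y < 0 ∨ n ≤ y) : FConn T (x, y) (-1, -1) := by
  have hv : ∀ {i j : ℤ}, (i, j, true) ∈ T → 0 ≤ i ∧ i ≤ n ∧ 0 ≤ j ∧ j < n := by
    intro i j hij
    have := mem_EW.1 (hT hij)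
    simp only [mem_Rect, ea_mk, eb_true] at this
    omega
  have hh : ∀ {i j : ℤ}, (i, j, false) ∈ T → 0 ≤ i ∧ i < n ∧ 0 ≤ j ∧ j ≤ n := by
    intro i j hij
    have := mem_EW.1 (hT hij)
    simp only [mem_Rect, ea_mk, eb_false] at this
    omega
  -- vertical moves in the columns `x < 0` or `n ≤ x`
  have hcol : ∀ x y y' : ℤ, x < 0 ∨ n ≤ x → FConn T (x, y) (x, y') := by
    intro x y y' hx
    rcases le_total y y' with h1 | h1
    · exact fconn_col' h1 fun i _ _ h4 => by have := hh h4; omega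
    · exact (fconn_col' h1 fun i _ _ h4 => by have := hh h4; omega).symm
  have hrow : ∀ y x x' : ℤ, y < 0 ∨ n ≤ y → FConn T (x, y) (x', y) := by
    intro y x x' hy
    rcases le_total x x' with h1 | h1
    · exact fconn_row' h1 fun i _ _ h4 => by have := hv h4; omega
    · exact (fconn_row' h1 fun i _ _ h4 => by have := hv h4; omega).symm
  by_cases hx : x < 0 ∨ n ≤ x
  · exact (hcol x y (-1) hx).trans (hrow (-1) x (-1) (by omega))
  · exact (hrow y x (-1) (by omega)).trans (hcol (-1) y (-1) (by omega))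

theorem out_conn {T : Set Ed} {n : ℤ} (hT : T ⊆ EW 0 n 0 n) {f g : ℤ × ℤ}
    (hf : f ∈ Out T) (hg : g ∈ Out T) : FConn T f g := by
  have key : ∀ f ∈ Out T, FConn T f (-1, -1) := by
    intro f hf
    by_contra hc
    apply hf
    refine ((Set.finite_Ico (0 : ℤ) n).prod (Set.finite_Ico (0 : ℤ) n)).subset fun g hg => ?_
    have hg' : FConn T f g := hg
    by_contra h1
    apply hc
    refine hg'.trans ?_
    obtain ⟨x, y⟩ := g
    simp only [mem_prod, mem_Ico, not_and_or, not_le, not_lt] at h1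
    exact fconn_outside hT (by omega)
  exact (key f hf).trans (key g hg).symm

/-! ### The orbit -/

theorem finite_Kc {n : ℤ} (hω : ω ⊆ EW 0 n 0 n) : (Kc ω v).Finite := by
  refine (((Set.finite_Icc (0 : ℤ) n).prod (Set.finite_Icc (0 : ℤ) n)).union
    (Set.finite_singleton v)).subset fun u hu => ?_
  have hu' : Conn ω univ v u := hu
  unfold Conn at hu'
  induction hu' with
  | refl => exact Or.inr rfl
  | tail _ h2 _ =>
    obtain ⟨-, -, e, he, hh⟩ := h2
    have := mem_EW.1 (hω he)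
    simp only [mem_Rect] at this
    left
    simp only [mem_prod, mem_Icc]
    rcases hh with ⟨-, h3⟩ | ⟨h3, -⟩ <;> rw [← h3] <;> omega

theorem finite_cor {K : Set (ℤ × ℤ)} (hK : K.Finite) : {k : Cor | vtx k ∈ K}.Finite := by
  have h1 : (K ×ˢ (univ : Set (Bool × Bool))).Finite := hK.prod Set.finite_univ
  refine (h1.image fun p : (ℤ × ℤ) × (Bool × Bool) => (p.1.1, p.1.2, p.2.1, p.2.2)).subset ?_
  rintro ⟨x, y, s, t⟩ hk
  exact ⟨((x, y), (s, t)), ⟨hk, trivial⟩, rfl⟩

theorem iterate_nxt (ω : Set Ed) (k : Cor) (j : ℕ) : (nxtE ω ^ j) k = (nxt ω)^[j] k := by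
  induction j with
  | zero => rfl
  | succ j ih =>
    rw [Function.iterate_succ_apply', ← ih, pow_succ', Equiv.Perm.mul_apply]
    rfl

/-- A corner of a finite cluster is periodic. -/
theorem exists_period {k : Cor} (hk : vtx k ∈ Kc ω v) (hfin : (Kc ω v).Finite) :
    ∃ p : ℕ, 0 < p ∧ (nxt ω)^[p] k = k := by
  obtain ⟨a, b, hab, h⟩ := Set.Finite.exists_lt_map_eq_of_forall_mem
    (f := fun j : ℕ => (nxt ω)^[j] k) (t := {k : Cor | vtx k ∈ Kc ω v})
    (fun j => vtx_iter_mem hk j) (finite_cor hfin)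
  refine ⟨b - a, by omega, ?_⟩
  have hinj : Function.Injective ((nxt ω)^[a]) := (nxtE ω).injective.iterate a
  apply hinj
  rw [← Function.iterate_add_apply, show a + (b - a) = b by omega]
  exact h.symm

theorem exists_nat_of_orb {k k' : Cor} (hk : vtx k ∈ Kc ω v) (hfin : (Kc ω v).Finite)
    (h : k' ∈ Orb ω k) : ∃ j : ℕ, (nxt ω)^[j] k = k' := by
  obtain ⟨z, hz⟩ := h
  obtain ⟨p, hp, hk'⟩ := exists_period hk hfin
  have h1 : ∀ m : ℕ, (nxtE ω ^ (p * m)) k = k := by
    intro m
    rw [iterate_nxt, Function.iterate_mul]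
    have : Function.IsFixedPt ((nxt ω)^[p]) k := hk'
    exact this.iterate m
  refine ⟨(z + p * z.natAbs).toNat, ?_⟩
  rw [← iterate_nxt, ← zpow_natCast, Int.toNat_of_nonneg]
  · rw [zpow_add, Equiv.Perm.mul_apply]
    have h2 := h1 z.natAbs
    rw [← zpow_natCast] at h2
    push_cast at h2 ⊢
    rw [h2, hz]
  · have : (z.natAbs : ℤ) ≤ p * z.natAbs := by nlinarith [Int.natCast_nonneg z.natAbs]
    omega

/-- Any two outer corners of a cluster are on one interface. -/
theorem outer_orbit {n : ℤ} (hω : ω ⊆ EW 0 n 0 n) {k k' : Cor} (hk : k ∈ Oc ω v)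
    (hk' : k' ∈ Oc ω v) : ∃ j : ℕ, (nxt ω)^[j] k = k' := by
  have hT : Tc ω v ⊆ EW 0 n 0 n := Tc_sub.trans hω
  have h1 : Conn (Tc ω v) univ (vtx k) (vtx k') := (conn_Tc hk.1).symm.trans (conn_Tc hk'.1)
  have h2 : Conn (du (Tc ω v)) univ (fce k) (fce k') := fconn_iff.1 (out_conn hT hk.2 hk'.2)
  -- the cluster of `v` in the configuration of its own edges
  have hv : Kc (Tc ω v) v = Kc ω v := by
    ext u
    exact ⟨fun h => Conn.mono h Tc_sub le_rfl, conn_Tc⟩
  obtain ⟨j, hj⟩ := exists_nat_of_orb (ω := Tc ω v) (v := v) (by rw [hv]; exact hk.1)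
    (by rw [hv]; exact finite_Kc hω) (mem_orb_of_conn h1 h2)
  exact ⟨j, by rw [iter_eq_Tc hk.1, hj]⟩


/-! ### Extreme vertices -/

theorem Tc_ends {e : Ed} (he : e ∈ Tc ω v) {p : ℤ × ℤ → Prop} (h : ∀ u ∈ Kc ω v, p u) :
    p (ea e) ∧ p (eb e) := ⟨h _ (ea_mem he), h _ (eb_mem he)⟩

/-- The outer interface reaches half of the sup-diameter of the cluster. -/
theorem outer_far {n : ℤ} (hω : ω ⊆ EW 0 n 0 n) {k : Cor} (hk : k ∈ Oc ω v) {u u' : ℤ × ℤ}
    (hu : u ∈ Kc ω v) (hu' : u' ∈ Kc ω v) {m : ℤ} (hm : m ≤ sd u u') :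
    ∃ j : ℕ, m ≤ 2 * sd (vtx ((nxt ω)^[j] k)) (vtx k) := by
  have hfin : (Kc ω v).Finite := finite_Kc hω
  have hne : (Kc ω v).Nonempty := ⟨u, hu⟩
  obtain ⟨a, ha, ha'⟩ := Set.exists_min_image (Kc ω v) (fun w => w.1) hfin hne
  obtain ⟨b, hb, hb'⟩ := Set.exists_max_image (Kc ω v) (fun w => w.1) hfin hne
  obtain ⟨c, hc, hc'⟩ := Set.exists_min_image (Kc ω v) (fun w => w.2) hfin hne
  obtain ⟨d, hd, hd'⟩ := Set.exists_max_image (Kc ω v) (fun w => w.2) hfin hne
  -- corners at the extreme vertices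
  have ka : ((a.1, a.2, false, false) : Cor) ∈ Oc ω v := by
    refine ⟨ha, ?_⟩
    change (a.1 - 1, a.2 - 1) ∈ Out (Tc ω v)
    refine out_left fun e he => ?_
    have := ha' (ea e) (ea_mem he)
    simp only [ea] at this
    omega
  have kb : ((b.1, b.2, true, true) : Cor) ∈ Oc ω v := by
    refine ⟨hb, ?_⟩
    change (b.1, b.2) ∈ Out (Tc ω v)
    refine out_right fun e he => ?_
    have := hb' (ea e) (ea_mem he)
    simp only [ea] at this
    omega
  have kc : ((c.1, c.2, false, false) : Cor) ∈ Oc ω v := by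
    refine ⟨hc, ?_⟩
    change (c.1 - 1, c.2 - 1) ∈ Out (Tc ω v)
    refine out_bot fun e he => ?_
    have := hc' (ea e) (ea_mem he)
    simp only [ea] at this
    omega
  have kd : ((d.1, d.2, true, true) : Cor) ∈ Oc ω v := by
    refine ⟨hd, ?_⟩
    change (d.1, d.2) ∈ Out (Tc ω v)
    refine out_top fun e he => ?_
    have := hd' (ea e) (ea_mem he)
    simp only [ea] at this
    omega
  have h1 := ha' u hu
  have h2 := ha' u' hu'
  have h3 := hb' u hu
  have h4 := hb' u' hu'
  have h5 := hc' u hu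
  have h6 := hc' u' hu'
  have h7 := hd' u hu
  have h8 := hd' u' hu'
  have h9 : m ≤ b.1 - a.1 ∨ m ≤ d.2 - c.2 := by
    unfold sd at hm
    rcases le_max_iff.1 hm with h | h
    · left; rcases abs_cases (u.1 - u'.1) with ⟨h', _⟩ | ⟨h', _⟩ <;> omega
    · right; rcases abs_cases (u.2 - u'.2) with ⟨h', _⟩ | ⟨h', _⟩ <;> omega
  have hsd1 : ∀ w w' : ℤ × ℤ, |w.1 - w'.1| ≤ sd w w' := fun w w' => le_max_left _ _
  have hsd2 : ∀ w w' : ℤ × ℤ, |w.2 - w'.2| ≤ sd w w' := fun w w' => le_max_right _ _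
  rcases h9 with h9 | h9
  · by_cases h10 : m ≤ 2 * ((vtx k).1 - a.1)
    · obtain ⟨j, hj⟩ := outer_orbit hω hk ka
      refine ⟨j, ?_⟩
      rw [hj]
      have h11 := hsd1 (vtx ((a.1, a.2, false, false) : Cor)) (vtx k)
      have h12 : vtx ((a.1, a.2, false, false) : Cor) = a := rfl
      rw [h12] at h11 ⊢
      rcases abs_cases (a.1 - (vtx k).1) with ⟨h', _⟩ | ⟨h', _⟩ <;> omega
    · obtain ⟨j, hj⟩ := outer_orbit hω hk kb
      refine ⟨j, ?_⟩
      rw [hj]
      have h11 := hsd1 (vtx ((b.1, b.2, true, true) : Cor)) (vtx k)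
      have h12 : vtx ((b.1, b.2, true, true) : Cor) = b := rfl
      rw [h12] at h11 ⊢
      rcases abs_cases (b.1 - (vtx k).1) with ⟨h', _⟩ | ⟨h', _⟩ <;> omega
  · by_cases h10 : m ≤ 2 * ((vtx k).2 - c.2)
    · obtain ⟨j, hj⟩ := outer_orbit hω hk kc
      refine ⟨j, ?_⟩
      rw [hj]
      have h11 := hsd2 (vtx ((c.1, c.2, false, false) : Cor)) (vtx k)
      have h12 : vtx ((c.1, c.2, false, false) : Cor) = c := rfl
      rw [h12] at h11 ⊢
      rcases abs_cases (c.2 - (vtx k).2) with ⟨h', _⟩ | ⟨h', _⟩ <;> omega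
    · obtain ⟨j, hj⟩ := outer_orbit hω hk kd
      refine ⟨j, ?_⟩
      rw [hj]
      have h11 := hsd2 (vtx ((d.1, d.2, true, true) : Cor)) (vtx k)
      have h12 : vtx ((d.1, d.2, true, true) : Cor) = d := rfl
      rw [h12] at h11 ⊢
      rcases abs_cases (d.2 - (vtx k).2) with ⟨h', _⟩ | ⟨h', _⟩ <;> omega

/-! ### The number of edges of the outer perimeter -/

/-- The edges of the outer perimeter. -/
def PE (ω : Set Ed) (v : ℤ × ℤ) : Set Ed :=
  {e ∈ Tc ω v | f1 e ∈ Out (Tc ω v) ∨ f2 e ∈ Out (Tc ω v)}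

/-- The corner at which `e` is queried, with the face `f1 e`. -/
def c1 : Ed → Cor
  | (x, y, false) => (x, y, true, false)
  | (x, y, true) => (x, y + 1, false, false)

/-- The corner at which `e` is queried, with the face `f2 e`. -/
def c2 : Ed → Cor
  | (x, y, false) => (x + 1, y, false, true)
  | (x, y, true) => (x, y, true, true)

theorem qry_c1 (e : Ed) : qry (c1 e) = e := by
  obtain ⟨x, y, _ | _⟩ := e <;> simp [c1, qry]

theorem qry_c2 (e : Ed) : qry (c2 e) = e := by
  obtain ⟨x, y, _ | _⟩ := e <;> simp [c2, qry]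

theorem fce_c1 (e : Ed) : fce (c1 e) = f1 e := by
  obtain ⟨x, y, _ | _⟩ := e <;> simp [c1, fce, f1]

theorem fce_c2 (e : Ed) : fce (c2 e) = f2 e := by
  obtain ⟨x, y, _ | _⟩ := e <;> simp [c2, fce, f2]

theorem vtx_c1 (e : Ed) : vtx (c1 e) = ea e ∨ vtx (c1 e) = eb e := by
  obtain ⟨x, y, _ | _⟩ := e <;> simp [c1, vtx]

theorem vtx_c2 (e : Ed) : vtx (c2 e) = ea e ∨ vtx (c2 e) = eb e := by
  obtain ⟨x, y, _ | _⟩ := e <;> simp [c2, vtx]

theorem eq_c (k : Cor) : k = c1 (qry k) ∨ k = c2 (qry k) := by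
  obtain ⟨x, y, _ | _, _ | _⟩ := k <;> simp [c1, c2, qry]

theorem fce_c_cases {k : Cor} : (k = c1 (qry k) ∧ fce k = f1 (qry k)) ∨
    (k = c2 (qry k) ∧ fce k = f2 (qry k)) := by
  rcases eq_c k with h | h
  · left; exact ⟨h, by conv_lhs => rw [h, fce_c1]⟩
  · right; exact ⟨h, by conv_lhs => rw [h, fce_c2]⟩

theorem finite_Oc {n : ℤ} (hω : ω ⊆ EW 0 n 0 n) : (Oc ω v).Finite :=
  (finite_cor (finite_Kc hω)).subset fun _ hk => hk.1

theorem finite_PE {n : ℤ} (hω : ω ⊆ EW 0 n 0 n) : (PE ω v).Finite :=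
  (Finset.finite_toSet (EW 0 n 0 n)).subset fun _ he => hω he.1.1

/-- The perimeter is at most the number of outer corners. -/
theorem ncard_PE_le {n : ℤ} (hω : ω ⊆ EW 0 n 0 n) : (PE ω v).ncard ≤ (Oc ω v).ncard := by
  classical
  refine Set.ncard_le_ncard_of_injOn
    (fun e => if f1 e ∈ Out (Tc ω v) then c1 e else c2 e) ?_ ?_ (finite_Oc hω)
  · rintro e ⟨he, hf⟩
    split_ifs with h
    · refine ⟨?_, by rw [fce_c1]; exact h⟩
      rcases vtx_c1 e with h1 | h1 <;> rw [h1]
      · exact ea_mem he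
      · exact eb_mem he
    · refine ⟨?_, by rw [fce_c2]; exact hf.resolve_left h⟩
      rcases vtx_c2 e with h1 | h1 <;> rw [h1]
      · exact ea_mem he
      · exact eb_mem he
  · intro e _ e' _ h
    have h1 : ∀ e, qry (if f1 e ∈ Out (Tc ω v) then c1 e else c2 e) = e := by
      intro e
      split_ifs
      · exact qry_c1 e
      · exact qry_c2 e
    rw [← h1 e, ← h1 e']
    exact congrArg qry h

/-- Outer corners at which an edge of the cluster is queried. -/
def Oq (ω : Set Ed) (v : ℤ × ℤ) : Set Cor := {k ∈ Oc ω v | qry k ∈ Tc ω v}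

theorem Oq_sub : Oq ω v ⊆ c1 '' PE ω v ∪ c2 '' PE ω v := by
  rintro k ⟨hk, hq⟩
  rcases fce_c_cases (k := k) with ⟨h1, h2⟩ | ⟨h1, h2⟩
  · left
    refine ⟨qry k, ⟨hq, Or.inl ?_⟩, h1.symm⟩
    rw [← h2]; exact hk.2
  · right
    refine ⟨qry k, ⟨hq, Or.inr ?_⟩, h1.symm⟩
    rw [← h2]; exact hk.2

theorem ncard_Oq_le {n : ℤ} (hω : ω ⊆ EW 0 n 0 n) : (Oq ω v).ncard ≤ 2 * (PE ω v).ncard := by
  have hfin := finite_PE (v := v) hω
  have h1 := Set.ncard_le_ncard (Oq_sub (ω := ω) (v := v)) ((hfin.image c1).union (hfin.image c2))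
  have h2 := Set.ncard_union_le (c1 '' PE ω v) (c2 '' PE ω v)
  have h3 := Set.ncard_image_le (f := c1) hfin
  have h4 := Set.ncard_image_le (f := c2) hfin
  omega

theorem fce_rot_out {k : Cor} (hk : k ∈ Oc ω v) (hq : qry k ∉ Tc ω v) : rot k ∈ Oc ω v := by
  refine ⟨by rw [vtx_rot]; exact hk.1, ?_⟩
  refine Out.of_conn (Relation.ReflTransGen.single ⟨qry k, hq, ?_⟩) hk.2
  rcases faces_qry k with ⟨h1, h2⟩ | ⟨h1, h2⟩
  · exact Or.inl ⟨h1, h2⟩
  · exact Or.inr ⟨h1, h2⟩

/-- The four edges at a vertex are queried by the rotations of a corner. -/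
theorem exists_rot_qry (k : Cor) {e : Ed} (h : ea e = vtx k ∨ eb e = vtx k) :
    ∃ i < 4, qry (rot^[i] k) = e := by
  obtain ⟨a, b, t⟩ := e
  obtain ⟨x, y, s, s'⟩ := k
  cases t with
  | false =>
    simp only [ea_mk, eb_false, vtx, Prod.mk.injEq] at h
    rcases h with ⟨rfl, rfl⟩ | ⟨rfl, rfl⟩
    · rcases s with _ | _ <;> rcases s' with _ | _
      · exact ⟨1, by norm_num, rfl⟩
      · exact ⟨2, by norm_num, rfl⟩
      · exact ⟨0, by norm_num, rfl⟩
      · exact ⟨3, by norm_num, rfl⟩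
    · rcases s with _ | _ <;> rcases s' with _ | _
      · exact ⟨3, by norm_num, by simp [rot, qry]⟩
      · exact ⟨0, by norm_num, by simp [qry]⟩
      · exact ⟨2, by norm_num, by simp [rot, qry]⟩
      · exact ⟨1, by norm_num, by simp [rot, qry]⟩
  | true =>
    simp only [ea_mk, eb_true, vtx, Prod.mk.injEq] at h
    rcases h with ⟨rfl, rfl⟩ | ⟨rfl, rfl⟩
    · rcases s with _ | _ <;> rcases s' with _ | _
      · exact ⟨2, by norm_num, rfl⟩
      · exact ⟨3, by norm_num, rfl⟩
      · exact ⟨1, by norm_num, rfl⟩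
      · exact ⟨0, by norm_num, rfl⟩
    · rcases s with _ | _ <;> rcases s' with _ | _
      · exact ⟨0, by norm_num, by simp [qry]⟩
      · exact ⟨1, by norm_num, by simp [rot, qry]⟩
      · exact ⟨3, by norm_num, by simp [rot, qry]⟩
      · exact ⟨2, by norm_num, by simp [rot, qry]⟩

/-- Every vertex of a cluster with an edge has an edge. -/
theorem exists_edge_at {u : ℤ × ℤ} (hne : ∃ w ∈ Kc ω v, w ≠ v) (hu : u ∈ Kc ω v) :
    ∃ e ∈ Tc ω v, ea e = u ∨ eb e = u := by
  obtain ⟨w, hw, hwv⟩ := hne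
  -- a vertex different from `u`
  obtain ⟨w', hw', hwu⟩ : ∃ w' ∈ Kc ω v, w' ≠ u := by
    by_cases h : w = u
    · exact ⟨v, Relation.ReflTransGen.refl, fun h' => hwv (h.trans h'.symm)⟩
    · exact ⟨w, hw, h⟩
  have h1 : Conn ω univ w' u := Conn.trans (Conn.symm hw') hu
  unfold Conn at h1
  rcases Relation.ReflTransGen.cases_tail h1 with h2 | ⟨c, hc, hcu⟩
  · exact absurd h2.symm hwu
  · obtain ⟨-, -, e, he, hh⟩ := hcu
    have hc' : c ∈ Kc ω v := Conn.trans hw' hc
    rcases hh with ⟨h3, h4⟩ | ⟨h3, h4⟩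
    · exact ⟨e, mem_Tc_of_ea he (by rw [h3]; exact hc'), Or.inr h4⟩
    · exact ⟨e, mem_Tc_of_eb he (by rw [h4]; exact hc'), Or.inl h3⟩

theorem exists_rot_Oq (hne : ∃ w ∈ Kc ω v, w ≠ v) {k : Cor} (hk : k ∈ Oc ω v) :
    ∃ i < 4, rot^[i] k ∈ Oq ω v := by
  obtain ⟨e, he, hek⟩ := exists_edge_at hne hk.1
  obtain ⟨i, hi, hq⟩ := exists_rot_qry k hek
  -- the first rotation which queries an edge of the cluster
  classical
  have hex : ∃ i, qry (rot^[i] k) ∈ Tc ω v := ⟨i, by rw [hq]; exact he⟩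
  refine ⟨Nat.find hex, (Nat.find_le (by rw [hq]; exact he)).trans_lt hi, ?_, Nat.find_spec hex⟩
  have h2 : ∀ j ≤ Nat.find hex, rot^[j] k ∈ Oc ω v := by
    intro j
    induction j with
    | zero => intro _; exact hk
    | succ j ih =>
      intro hj
      rw [Function.iterate_succ_apply']
      exact fce_rot_out (ih (by omega)) (Nat.find_min hex (by omega))
  exact h2 _ le_rfl

/-- The number of outer corners is at most eight times the perimeter. -/
theorem ncard_Oc_le {n : ℤ} (hω : ω ⊆ EW 0 n 0 n) (hne : ∃ w ∈ Kc ω v, w ≠ v) :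
    (Oc ω v).ncard ≤ 8 * (PE ω v).ncard := by
  have hfin : (Oq ω v).Finite := (finite_Oc hω).subset fun _ h => h.1
  have hsub : Oc ω v ⊆ ⋃ i ∈ Finset.range 4, (rotb^[i]) '' Oq ω v := by
    intro k hk
    obtain ⟨i, hi, h⟩ := exists_rot_Oq hne hk
    refine mem_iUnion₂.2 ⟨i, Finset.mem_range.2 hi, rot^[i] k, h, ?_⟩
    exact (Function.LeftInverse.iterate rotb_rot i) k
  have h1 := Set.ncard_le_ncard hsub
    (Set.Finite.biUnion (Finset.finite_toSet _) fun i _ => hfin.image _)
  have h2 : (⋃ i ∈ Finset.range 4, (rotb^[i]) '' Oq ω v).ncard ≤ 4 * (Oq ω v).ncard := by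
    have h3 := Finset.set_ncard_biUnion_le (Finset.range 4) fun i => (rotb^[i]) '' Oq ω v
    refine h3.trans ?_
    have h4 : ∀ i ∈ Finset.range 4, ((rotb^[i]) '' Oq ω v).ncard ≤ (Oq ω v).ncard :=
      fun i _ => Set.ncard_image_le hfin
    calc _ ≤ ∑ _i ∈ Finset.range 4, (Oq ω v).ncard := Finset.sum_le_sum h4
      _ = 4 * (Oq ω v).ncard := by simp
  have h5 := ncard_Oq_le (v := v) hω
  omega

end Pool.Agent.PercO

end Parth60Outer

section Parth60Perim

/-!
# The outer perimeter and the outer interface of a cluster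
-/

set_option autoImplicit false

open Set

namespace Pool.Agent.PercO

open Pool.Agent.MP_6bd702.H23 Pool.Agent.MP_6bd702.H60 Pool.Agent.PercU Pool.Agent.Perc

variable {T : Finset Edg} {u : ℤ × ℤ} {n : ℕ}

/-! ### Dictionary -/

theorem hd_eq (e : Edg) : hd e = eb e := rfl

theorem tl_eq (e : Edg) : tl e = ea e := rfl

theorem adjT_iff {u v : ℤ × ℤ} : AdjT T u v ↔ Step (T : Set Ed) univ u v := by
  unfold AdjT Step
  simp only [mem_univ, true_and, hd_eq, tl_eq, Finset.mem_coe]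

theorem clV_eq : clV T u = Kc (T : Set Ed) u := by
  ext w
  change Relation.ReflTransGen (AdjT T) u w ↔ Relation.ReflTransGen (Step (T : Set Ed) univ) u w
  have : AdjT T = Step (T : Set Ed) univ := by
    funext a b
    exact propext adjT_iff
  rw [this]

theorem clS_eq : clS T u = PercC.carrier (Kc (T : Set Ed) u) (Tc (T : Set Ed) u) := by
  unfold clS PercC.carrier PercC.seg
  rw [clV_eq]
  congr 1
  ext z
  simp only [mem_iUnion, exists_prop, Tc, mem_ofPred_eq, Finset.mem_coe, Kc, hd_eq, tl_eq]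
  constructor
  · rintro ⟨e, h1, h2, h3⟩
    exact ⟨e, ⟨h1, h2⟩, h3⟩
  · rintro ⟨e, ⟨h1, h2⟩, h3⟩
    exact ⟨e, h1, h2, h3⟩

theorem outer_iff {f : ℤ × ℤ} : Outer T u f ↔ f ∈ Out (Tc (T : Set Ed) u) := by
  unfold Outer
  rw [clS_eq]
  exact (PercC.mem_Out_iff (K := Kc (T : Set Ed) u)).symm

theorem mem_boxE' {e : Edg} : e ∈ boxE n ↔ ea e ∈ Box n ∧ eb e ∈ Box n := by
  unfold boxE Box
  simp only [Finset.mem_filter, Finset.mem_product, Finset.mem_univ, and_true, ea, hd_eq]

theorem boxE_sub (hT : T ⊆ boxE n) : (T : Set Ed) ⊆ (EW 0 (n : ℤ) 0 n : Set Ed) := by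
  intro e he
  have h := mem_boxE'.1 (hT he)
  simp only [Box, Finset.mem_product, Finset.mem_Icc] at h
  rw [Finset.mem_coe, mem_EW]
  exact ⟨⟨h.1.1.1, h.1.1.2, h.1.2.1, h.1.2.2⟩, ⟨h.2.1.1, h.2.1.2, h.2.2.1, h.2.2.2⟩⟩

theorem mem_Oc {k : Cor} : k ∈ Oc (T : Set Ed) u ↔ vtx k ∈ clV T u ∧ Outer T u (fce k) := by
  rw [clV_eq, outer_iff]
  rfl

/-! ### The outer interface -/

/-- All outer corners of a cluster are on one interface. -/
theorem outer_same (hT : T ⊆ boxE n) {k k' : Cor} (h1 : vtx k ∈ clV T u)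
    (h2 : Outer T u (fce k)) (h1' : vtx k' ∈ clV T u) (h2' : Outer T u (fce k')) :
    k' ∈ Orb (T : Set Ed) k := by
  obtain ⟨j, hj⟩ := outer_orbit (boxE_sub hT) (mem_Oc.2 ⟨h1, h2⟩) (mem_Oc.2 ⟨h1', h2'⟩)
  refine ⟨j, ?_⟩
  rw [zpow_natCast, iterate_nxt]
  exact hj

theorem nxt_mem_Oc {ω : Set Ed} {v : ℤ × ℤ} {k : Cor} (hk : k ∈ Oc ω v) : nxt ω k ∈ Oc ω v := by
  refine ⟨vtx_nxt_mem hk.1, ?_⟩
  by_cases h : qry k ∈ ω
  · rw [nxt_of_mem h, fce_adv]; exact hk.2
  · rw [nxt_of_notMem h]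
    exact (fce_rot_out hk fun h' => h h'.1).2

/-- The outer corners are closed under the interface. -/
theorem outer_nxt {k : Cor} (h1 : vtx k ∈ clV T u) (h2 : Outer T u (fce k)) :
    vtx (nxt (T : Set Ed) k) ∈ clV T u ∧ Outer T u (fce (nxt (T : Set Ed) k)) :=
  mem_Oc.1 (nxt_mem_Oc (mem_Oc.2 ⟨h1, h2⟩))

theorem orb_sub_Oc {ω : Set Ed} {n : ℤ} {v : ℤ × ℤ} (hω : ω ⊆ EW 0 n 0 n) {k : Cor}
    (hk : k ∈ Oc ω v) : Orb ω k ⊆ Oc ω v := by
  intro k' hk'
  obtain ⟨j, rfl⟩ := exists_nat_of_orb hk.1 (finite_Kc hω) hk'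
  clear hk'
  induction j with
  | zero => exact hk
  | succ j ih =>
    rw [Function.iterate_succ_apply']
    exact nxt_mem_Oc ih

/-- The outer corners are an orbit. -/
theorem orb_eq_Oc {ω : Set Ed} {n : ℤ} {v : ℤ × ℤ} (hω : ω ⊆ EW 0 n 0 n) {k : Cor}
    (hk : k ∈ Oc ω v) : Orb ω k = Oc ω v := by
  refine (orb_sub_Oc hω hk).antisymm fun k' hk' => ?_
  obtain ⟨j, hj⟩ := outer_orbit hω hk hk'
  refine ⟨j, ?_⟩
  rw [zpow_natCast, iterate_nxt]
  exact hj

/-! ### Extreme vertices -/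

theorem outer_left {v : ℤ × ℤ} (h : ∀ w ∈ clV T u, v.1 ≤ w.1) (y : ℤ) :
    Outer T u (v.1 - 1, y) := by
  rw [outer_iff]
  refine out_left fun e he => ?_
  have := h (ea e) (by rw [clV_eq]; exact ea_mem he)
  simp only [ea] at this
  omega

theorem outer_right {v : ℤ × ℤ} (h : ∀ w ∈ clV T u, w.1 ≤ v.1) (y : ℤ) :
    Outer T u (v.1, y) := by
  rw [outer_iff]
  refine out_right fun e he => ?_
  have := h (ea e) (by rw [clV_eq]; exact ea_mem he)
  simp only [ea] at this
  omega

theorem outer_bot {v : ℤ × ℤ} (h : ∀ w ∈ clV T u, v.2 ≤ w.2) (x : ℤ) :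
    Outer T u (x, v.2 - 1) := by
  rw [outer_iff]
  refine out_bot fun e he => ?_
  have := h (ea e) (by rw [clV_eq]; exact ea_mem he)
  simp only [ea] at this
  omega

theorem outer_top {v : ℤ × ℤ} (h : ∀ w ∈ clV T u, w.2 ≤ v.2) (x : ℤ) :
    Outer T u (x, v.2) := by
  rw [outer_iff]
  refine out_top fun e he => ?_
  have := h (ea e) (by rw [clV_eq]; exact ea_mem he)
  simp only [ea] at this
  omega

/-! ### The perimeter -/

theorem side_true (e : Edg) : side e true = f2 e := rfl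

theorem side_false (e : Edg) : side e false = f1 e := rfl

theorem c1_ne_c2 (e : Ed) : c1 e ≠ c2 e := by
  obtain ⟨x, y, _ | _⟩ := e <;> simp [c1, c2]

theorem perim_le (hT : T ⊆ boxE n) : perim T u ≤ (Oc (T : Set Ed) u).ncard := by
  classical
  unfold perim
  rw [← Set.ncard_coe_finset]
  refine Set.ncard_le_ncard_of_injOn (fun x : Edg × Bool => if x.2 then c2 x.1 else c1 x.1) ?_ ?_
    (finite_Oc (boxE_sub hT))
  · rintro ⟨e, b⟩ hx
    rw [Finset.mem_coe, Finset.mem_filter, Finset.mem_product] at hx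
    obtain ⟨⟨he, -⟩, hv, ho⟩ := hx
    have he' : e ∈ Tc (T : Set Ed) u := ⟨he, by rw [clV_eq] at hv; exact hv⟩
    rw [outer_iff] at ho
    cases b with
    | false =>
      refine ⟨?_, by rw [if_neg (by simp), fce_c1]; exact ho⟩
      rw [if_neg (by simp)]
      rcases vtx_c1 e with h1 | h1 <;> rw [h1]
      · exact ea_mem he'
      · exact eb_mem he'
    | true =>
      refine ⟨?_, by rw [if_pos rfl, fce_c2]; exact ho⟩
      rw [if_pos rfl]
      rcases vtx_c2 e with h1 | h1 <;> rw [h1]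
      · exact ea_mem he'
      · exact eb_mem he'
  · rintro ⟨e, b⟩ - ⟨e', b'⟩ - h
    have hq : ∀ (e : Edg) (b : Bool), qry (if b = true then c2 e else c1 e) = e := by
      intro e b
      split_ifs
      · exact qry_c2 e
      · exact qry_c1 e
    have h1 : e = e' := by
      rw [← hq e b, ← hq e' b']
      exact congrArg qry h
    subst h1
    cases b <;> cases b'
    · rfl
    · exact absurd h (c1_ne_c2 e)
    · exact absurd h.symm (c1_ne_c2 e)
    · rfl

theorem ncard_Oq_le_perim : (Oq (T : Set Ed) u).ncard ≤ perim T u := by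
  classical
  unfold perim
  rw [← Set.ncard_coe_finset]
  refine Set.ncard_le_ncard_of_injOn
    (fun k : Cor => ((qry k, decide (k = c2 (qry k))) : Edg × Bool)) ?_ ?_ (Finset.finite_toSet _)
  · rintro k ⟨hk, hq⟩
    rw [Finset.mem_coe, Finset.mem_filter, Finset.mem_product]
    refine ⟨⟨hq.1, Finset.mem_univ _⟩, by rw [clV_eq]; exact hq.2, ?_⟩
    rw [outer_iff]
    rcases fce_c_cases (k := k) with ⟨h1, h2⟩ | ⟨h1, h2⟩
    · have h3 : ¬ k = c2 (qry k) := fun h => c1_ne_c2 (qry k) (h1.symm.trans h)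
      change side (qry k) (decide (k = c2 (qry k))) ∈ _
      rw [decide_eq_false h3, side_false, ← h2]
      exact hk.2
    · change side (qry k) (decide (k = c2 (qry k))) ∈ _
      rw [decide_eq_true h1, side_true, ← h2]
      exact hk.2
  · intro k _ k' _ h
    simp only [Prod.mk.injEq] at h
    obtain ⟨h1, h2⟩ := h
    rcases eq_c k with h3 | h3 <;> rcases eq_c k' with h4 | h4
    · rw [h3, h4, h1]
    · have h5 : k' = c2 (qry k') := h4
      have h6 : decide (k' = c2 (qry k')) = true := decide_eq_true h5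
      rw [h6] at h2
      have h7 : k = c2 (qry k) := of_decide_eq_true h2
      rw [h7, h4, h1]
    · have h6 : decide (k = c2 (qry k)) = true := decide_eq_true h3
      rw [h6] at h2
      have h7 : k' = c2 (qry k') := of_decide_eq_true h2.symm
      rw [h3, h7, h1]
    · rw [h3, h4, h1]

theorem exists_ne_of_diam (h : 0 < Metric.diam (clS T u)) : ∃ w ∈ Kc (T : Set Ed) u, w ≠ u := by
  by_contra hc
  push Not at hc
  have h1 : clS T u ⊆ {toC u} := by
    rw [clS_eq]
    rintro z (⟨w, hw, rfl⟩ | hz)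
    · rw [hc w hw]; rfl
    · obtain ⟨e, he, -⟩ := mem_iUnion₂.1 hz
      have h2 := hc _ (ea_mem he)
      have h3 := hc _ (eb_mem he)
      rw [← h2] at h3
      obtain ⟨x, y, _ | _⟩ := e <;> simp at h3
  have h2 : Metric.diam (clS T u) = 0 :=
    Metric.diam_subsingleton (Set.subsingleton_singleton.anti h1)
  exact absurd h2 h.ne'

/-- The number of outer corners. -/
theorem ncard_Oc_le_perim (hT : T ⊆ boxE n) (h : 0 < Metric.diam (clS T u)) :
    (Oc (T : Set Ed) u).ncard ≤ 4 * perim T u := by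
  have hne := exists_ne_of_diam h
  have hfin : (Oq (T : Set Ed) u).Finite := (finite_Oc (boxE_sub hT)).subset fun _ h => h.1
  have hsub : Oc (T : Set Ed) u ⊆ ⋃ i ∈ Finset.range 4, (rotb^[i]) '' Oq (T : Set Ed) u := by
    intro k hk
    obtain ⟨i, hi, h⟩ := exists_rot_Oq hne hk
    refine mem_iUnion₂.2 ⟨i, Finset.mem_range.2 hi, rot^[i] k, h, ?_⟩
    exact (Function.LeftInverse.iterate rotb_rot i) k
  have h1 := Set.ncard_le_ncard hsub
    (Set.Finite.biUnion (Finset.finite_toSet _) fun i _ => hfin.image _)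
  have h3 := Finset.set_ncard_biUnion_le (Finset.range 4) fun i => (rotb^[i]) '' Oq (T : Set Ed) u
  have h4 : ∀ i ∈ Finset.range 4, ((rotb^[i]) '' Oq (T : Set Ed) u).ncard
      ≤ (Oq (T : Set Ed) u).ncard := fun i _ => Set.ncard_image_le hfin
  have h5 := (h1.trans h3).trans (Finset.sum_le_sum h4)
  simp only [Finset.sum_const, Finset.card_range, smul_eq_mul] at h5
  exact h5.trans (Nat.mul_le_mul_left 4 ncard_Oq_le_perim)

theorem orb_le_perim (hT : T ⊆ boxE n) {k : Cor} (h1 : vtx k ∈ clV T u)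
    (h2 : Outer T u (fce k)) (h : 0 < Metric.diam (clS T u)) :
    (Orb (T : Set Ed) k).ncard ≤ 8 * perim T u := by
  rw [orb_eq_Oc (boxE_sub hT) (mem_Oc.2 ⟨h1, h2⟩)]
  exact (ncard_Oc_le_perim hT h).trans (Nat.mul_le_mul_right _ (by norm_num))

end Pool.Agent.PercO

end Parth60Perim

section PartpercDOuterLoop

/-!
# The closed curve along the outer perimeter of a cluster
-/

set_option autoImplicit false

namespace Pool.Agent.PercD

open Set Filter Topology
open Pool.Agent.MP_6bd702.H23 Pool.Agent.MP_6bd702.H60 Pool.Agent.PercU Pool.Agent.Perc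
open Pool.Agent.PercO

variable {n : ℕ} {T : Finset Edg} {u : ℤ × ℤ}

theorem exists_outer (hT : T ⊆ boxE n) : ∃ k : Cor, vtx k ∈ clV T u ∧ Outer T u (fce k) := by
  have hfin : (Kc (T : Set Ed) u).Finite := finite_Kc (boxE_sub hT)
  obtain ⟨a, ha, ha'⟩ := Set.exists_min_image (Kc (T : Set Ed) u) (fun w => w.1) hfin
    ⟨u, Relation.ReflTransGen.refl⟩
  refine ⟨(a.1, a.2, false, false), by rw [clV_eq]; exact ha, ?_⟩
  exact outer_left (v := a) (fun w hw => ha' w (by rw [clV_eq] at hw; exact hw)) _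

/-- The chosen corner. -/
noncomputable def baseC (T : Finset Edg) (u : ℤ × ℤ) : Cor :=
  Classical.epsilon fun k => vtx k ∈ clV T u ∧ Outer T u (fce k)

theorem baseC_spec (hT : T ⊆ boxE n) :
    vtx (baseC T u) ∈ clV T u ∧ Outer T u (fce (baseC T u)) :=
  Classical.epsilon_spec (exists_outer hT)

theorem outerLoop_eq : outerLoop n T u = cornerLoop n (T : Set Ed) (baseC T u) := rfl

theorem minimalPeriod_pos (hT : T ⊆ boxE n) {k : Cor} (h : vtx k ∈ clV T u) :
    0 < Function.minimalPeriod (nxtE (T : Set Ed)) k := by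
  rw [clV_eq] at h
  obtain ⟨p, hp, hk⟩ := exists_period h (finite_Kc (boxE_sub hT))
  exact Function.IsPeriodicPt.minimalPeriod_pos hp hk

/-- The choice of the corner does not change the curve. -/
theorem dist_cornerLoop (hT : T ⊆ boxE n) {k k' : Cor} (h1 : vtx k ∈ clV T u)
    (h2 : Outer T u (fce k)) (h1' : vtx k' ∈ clV T u) (h2' : Outer T u (fce k')) :
    dist (cornerLoop n (T : Set Ed) k) (cornerLoop n (T : Set Ed) k') = 0 := by
  obtain ⟨i, hi⟩ := outer_same hT h1 h2 h1' h2'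
  have hp := minimalPeriod_pos hT h1
  have hper : Function.minimalPeriod (nxtE (T : Set Ed)) k'
      = Function.minimalPeriod (nxtE (T : Set Ed)) k := by
    obtain ⟨q, hq⟩ := outer_orbit (boxE_sub hT) (mem_Oc.2 ⟨h1, h2⟩) (mem_Oc.2 ⟨h1', h2'⟩)
    rw [← hq]
    exact Function.minimalPeriod_apply_iterate
      (Function.minimalPeriod_pos_iff_mem_periodicPts.1 hp) q
  have key : ∀ (p : ℕ) (h : ∀ j, posC n (T : Set Ed) k' (j + p) = posC n (T : Set Ed) k' j),
      p = Function.minimalPeriod (nxtE (T : Set Ed)) k →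
      dist (cornerLoop n (T : Set Ed) k) (polyLoop (posC n (T : Set Ed) k') p h) = 0 := by
    rintro p h rfl
    refine dist_polyLoop_shift hp i fun j => ?_
    unfold posC
    rw [zpow_add, Equiv.Perm.mul_apply, hi]
  exact key _ _ hper

theorem dist_outerLoop_cornerLoop (hT : T ⊆ boxE n) {k : Cor} (h1 : vtx k ∈ clV T u)
    (h2 : Outer T u (fce k)) :
    dist (outerLoop n T u) (cornerLoop n (T : Set Ed) k) = 0 :=
  dist_cornerLoop hT (baseC_spec hT).1 (baseC_spec hT).2 h1 h2

/-! ### The trace -/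

/-- The points of the curve. -/
theorem mem_trace_iff (hT : T ⊆ boxE n) {z : ℂ} :
    z ∈ ((outerLoop n T u).trace : Set ℂ) ↔ ∃ k : Cor, vtx k ∈ clV T u ∧ Outer T u (fce k) ∧
      z ∈ segment ℝ (toC (vtx k) / n) (toC (vtx (nxt (T : Set Ed) k)) / n) := by
  obtain ⟨b1, b2⟩ := baseC_spec (u := u) hT
  rw [Loop.coe_trace, outerLoop_eq]
  unfold cornerLoop
  rw [range_polyLoop (minimalPeriod_pos hT b1), mem_iUnion]
  have hnxt : ∀ j : ℤ, (nxtE (T : Set Ed) ^ (j + 1)) (baseC T u)
      = nxt (T : Set Ed) ((nxtE (T : Set Ed) ^ j) (baseC T u)) := by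
    intro j
    rw [add_comm, zpow_add, zpow_one, Equiv.Perm.mul_apply]
    rfl
  have horb := orb_eq_Oc (boxE_sub hT) (mem_Oc.2 ⟨b1, b2⟩)
  constructor
  · rintro ⟨j, hj⟩
    have hmem : (nxtE (T : Set Ed) ^ j) (baseC T u) ∈ Oc (T : Set Ed) u := by
      rw [← horb]; exact ⟨j, rfl⟩
    obtain ⟨m1, m2⟩ := mem_Oc.1 hmem
    refine ⟨_, m1, m2, ?_⟩
    unfold posC at hj
    rw [hnxt] at hj
    exact hj
  · rintro ⟨k, h1, h2, h3⟩
    have hmem : k ∈ Orb (T : Set Ed) (baseC T u) := by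
      rw [horb]; exact mem_Oc.2 ⟨h1, h2⟩
    obtain ⟨j, rfl⟩ := hmem
    refine ⟨j, ?_⟩
    unfold posC
    rw [hnxt]
    exact h3

theorem mem_OutV_iff {v : ℤ × ℤ} : v ∈ OutV T u ↔ v ∈ clV T u ∧
    ∃ e ∈ T, (tl e = v ∨ hd e = v) ∧ ∃ b, Outer T u (side e b) := by
  have hadj : ∀ e ∈ T, tl e ∈ clV T u ↔ hd e ∈ clV T u := fun e he =>
    ⟨fun h => h.tail ⟨e, he, Or.inl ⟨rfl, rfl⟩⟩, fun h => h.tail ⟨e, he, Or.inr ⟨rfl, rfl⟩⟩⟩
  constructor
  · rintro ⟨e, he, h1, h2, h3⟩
    rcases h3 with rfl | rfl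
    · exact ⟨h1, e, he, Or.inl rfl, h2⟩
    · exact ⟨(hadj e he).1 h1, e, he, Or.inr rfl, h2⟩
  · rintro ⟨h1, e, he, h3, h2⟩
    rcases h3 with rfl | rfl
    · exact ⟨e, he, h1, h2, Or.inl rfl⟩
    · exact ⟨e, he, (hadj e he).2 h1, h2, Or.inr rfl⟩

theorem exists_corner_of_mem_OutV {v : ℤ × ℤ} (h : v ∈ OutV T u) :
    ∃ k : Cor, vtx k = v ∧ Outer T u (fce k) := by
  obtain ⟨hv, e, he, hev, b, hb⟩ := mem_OutV_iff.1 h
  obtain ⟨x, y, t⟩ := e
  cases b <;> cases t
  · -- the lower face of a horizontal edge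
    have hb' : Outer T u (x, y - 1) := hb
    rcases hev with h1 | h1
    · exact ⟨(x, y, true, false), h1, hb'⟩
    · refine ⟨(x + 1, y, false, false), h1, ?_⟩
      have : fce ((x + 1, y, false, false) : Cor) = (x, y - 1) := by simp [fce]
      rw [this]; exact hb'
  · have hb' : Outer T u (x - 1, y) := hb
    rcases hev with h1 | h1
    · exact ⟨(x, y, false, true), h1, hb'⟩
    · refine ⟨(x, y + 1, false, false), h1, ?_⟩
      have : fce ((x, y + 1, false, false) : Cor) = (x - 1, y) := by simp [fce]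
      rw [this]; exact hb'
  · have hb' : Outer T u (x, y) := hb
    rcases hev with h1 | h1
    · exact ⟨(x, y, true, true), h1, hb'⟩
    · refine ⟨(x + 1, y, false, true), h1, ?_⟩
      have : fce ((x + 1, y, false, true) : Cor) = (x, y) := by simp [fce]
      rw [this]; exact hb'
  · have hb' : Outer T u (x, y) := hb
    rcases hev with h1 | h1
    · exact ⟨(x, y, true, true), h1, hb'⟩
    · refine ⟨(x, y + 1, true, false), h1, ?_⟩
      have : fce ((x, y + 1, true, false) : Cor) = (x, y) := by simp [fce]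
      rw [this]; exact hb'

theorem vtx_mem_OutV (hne : ∃ w ∈ clV T u, w ≠ u) {k : Cor} (h1 : vtx k ∈ clV T u)
    (h2 : Outer T u (fce k)) : vtx k ∈ OutV T u := by
  rw [clV_eq] at hne
  obtain ⟨i, -, hi⟩ := exists_rot_Oq hne (mem_Oc.2 ⟨h1, h2⟩)
  have hv : vtx (rot^[i] k) = vtx k := by
    clear hi
    induction i with
    | zero => rfl
    | succ i ih => rw [Function.iterate_succ_apply', vtx_rot, ih]
  obtain ⟨hk, hq⟩ := hi
  obtain ⟨m1, m2⟩ := mem_Oc.1 hk
  refine mem_OutV_iff.2 ⟨h1, qry (rot^[i] k), hq.1, ?_, ?_⟩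
  · rcases ends_qry (rot^[i] k) with ⟨h3, -⟩ | ⟨-, h3⟩
    · left; rw [← hv]; exact h3
    · right; rw [← hv]; exact h3
  · rcases fce_c_cases (k := rot^[i] k) with ⟨-, h3⟩ | ⟨-, h3⟩
    · exact ⟨false, by rw [side_false, ← h3]; exact m2⟩
    · exact ⟨true, by rw [side_true, ← h3]; exact m2⟩

theorem vtx_mem_trace (hT : T ⊆ boxE n) {k : Cor} (h1 : vtx k ∈ clV T u)
    (h2 : Outer T u (fce k)) : toC (vtx k) / n ∈ ((outerLoop n T u).trace : Set ℂ) :=
  (mem_trace_iff hT).2 ⟨k, h1, h2, left_mem_segment _ _ _⟩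

/-- The vertices of the outer boundary are on the curve. -/
theorem mem_trace_of_mem_OutV (hT : T ⊆ boxE n) {v : ℤ × ℤ} (h : v ∈ OutV T u) :
    toC v / n ∈ ((outerLoop n T u).trace : Set ℂ) := by
  obtain ⟨k, rfl, h2⟩ := exists_corner_of_mem_OutV h
  exact vtx_mem_trace hT (mem_OutV_iff.1 h).1 h2

theorem dist_toC_nxt (ω : Set Ed) (k : Cor) : dist (toC (vtx k)) (toC (vtx (nxt ω k))) ≤ 1 := by
  by_cases h : qry k ∈ ω
  · rw [nxt_of_mem h]
    obtain ⟨x, y, _ | _, _ | _⟩ := k <;>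
      simp [adv, vtx, toC, dist_eq_norm]
    all_goals (ring_nf; simp)
  · rw [nxt_of_notMem h, vtx_rot, dist_self]
    exact zero_le_one

/-- Every point of the curve is near a vertex of the outer boundary. -/
theorem exists_vtx_near (hT : T ⊆ boxE n) {z : ℂ}
    (hz : z ∈ ((outerLoop n T u).trace : Set ℂ)) :
    ∃ k : Cor, vtx k ∈ clV T u ∧ Outer T u (fce k) ∧ dist z (toC (vtx k) / n) ≤ 1 / n := by
  obtain ⟨k, h1, h2, h3⟩ := (mem_trace_iff hT).1 hz
  refine ⟨k, h1, h2, ?_⟩
  rw [segment_eq_image'] at h3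
  obtain ⟨s, ⟨hs0, hs1⟩, rfl⟩ := h3
  rw [dist_eq_norm, add_sub_cancel_left, norm_smul, Real.norm_of_nonneg hs0, ← sub_div, norm_div,
    ← dist_eq_norm, dist_comm, Complex.norm_natCast, ← mul_div_assoc]
  have h4 := dist_toC_nxt (T : Set Ed) k
  have h5 : 0 ≤ dist (toC (vtx k)) (toC (vtx (nxt (T : Set Ed) k))) := dist_nonneg
  gcongr
  nlinarith

theorem exists_OutV_near (hT : T ⊆ boxE n) (hne : ∃ w ∈ clV T u, w ≠ u) {z : ℂ}
    (hz : z ∈ ((outerLoop n T u).trace : Set ℂ)) :
    ∃ v ∈ OutV T u, dist z (toC v / n) ≤ 1 / n := by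
  obtain ⟨k, h1, h2, h3⟩ := exists_vtx_near hT hz
  exact ⟨vtx k, vtx_mem_OutV hne h1 h2, h3⟩

theorem exists_ne_of_diam_pos (h : 0 < Metric.diam (clS T u)) : ∃ w ∈ clV T u, w ≠ u := by
  rw [clV_eq]
  exact exists_ne_of_diam h

/-! ### Double points -/

/-- Two visits of a vertex by the outer interface, with far vertices on both arcs. -/
theorem outerLoop_mem_Dbl (hT : T ⊆ boxE n) {k : Cor} (h1 : vtx k ∈ clV T u)
    (h2 : Outer T u (fce k)) {i a j b p : ℕ} (hia : i ≤ a) (haj : a ≤ j) (hjb : j ≤ b)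
    (hbp : b ≤ i + p) (hmin : ∀ m, 0 < m → m < p → (nxt (T : Set Ed))^[m] k ≠ k)
    (hij : vtx ((nxt (T : Set Ed))^[i] k) = vtx ((nxt (T : Set Ed))^[j] k)) {ρ : ℝ}
    (ha : ρ ≤ dist (toC (vtx ((nxt (T : Set Ed))^[i] k))) (toC (vtx ((nxt (T : Set Ed))^[a] k))))
    (hb : ρ ≤ dist (toC (vtx ((nxt (T : Set Ed))^[i] k))) (toC (vtx ((nxt (T : Set Ed))^[b] k)))) :
    outerLoop n T u ∈ Loop.Dbl (ρ / n) := by
  have hpos := minimalPeriod_pos hT h1
  have hle : (p : ℤ) ≤ Function.minimalPeriod (nxtE (T : Set Ed)) k := by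
    have h3 : Function.IsPeriodicPt (nxtE (T : Set Ed))
        (Function.minimalPeriod (nxtE (T : Set Ed)) k) k :=
      Function.isPeriodicPt_minimalPeriod _ _
    by_contra hlt
    exact hmin _ hpos (by omega) h3
  have hk : cornerLoop n (T : Set Ed) k ∈ Loop.Dbl (ρ / n) := by
    have hv : ∀ j : ℕ, posC n (T : Set Ed) k j = toC (vtx ((nxt (T : Set Ed))^[j] k)) / n := by
      intro j
      unfold posC
      rw [zpow_natCast, iterate_nxt]
    have hdist : ∀ z w : ℂ, dist (z / n) (w / n) = dist z w / n := by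
      intro z w
      rw [dist_eq_norm, ← sub_div, norm_div, Complex.norm_natCast, dist_eq_norm]
    refine polyLoop_mem_Dbl (i := (i : ℤ)) (j := (j : ℤ)) (a := (a : ℤ)) (b := (b : ℤ)) hpos
      (by exact_mod_cast hia) (by exact_mod_cast haj) (by exact_mod_cast hjb) (by omega) ?_ ?_ ?_
    · rw [hv, hv, hij]
    · rw [hv, hv, hdist]
      exact div_le_div_of_nonneg_right ha (Nat.cast_nonneg n)
    · rw [hv, hv, hdist]
      exact div_le_div_of_nonneg_right hb (Nat.cast_nonneg n)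
  rw [← (Loop.isClosed_Dbl (ρ / n)).closure_eq, Metric.mem_closure_iff]
  intro ε hε
  exact ⟨_, hk, by rw [dist_outerLoop_cornerLoop hT h1 h2]; exact hε⟩

end Pool.Agent.PercD

end PartpercDOuterLoop

section PartpercDSpace

/-!
# The space of closed curves up to reparametrisation
-/

set_option autoImplicit false

namespace Pool.Agent.PercD

open Set Filter Topology MeasureTheory TopologicalSpace
open Pool.Agent.Perc

theorem Curve.trace_mk (γ : Loop) : Curve.trace (SeparationQuotient.mk γ) = γ.trace := rfl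

theorem Curve.continuous_trace : Continuous Curve.trace :=
  SeparationQuotient.continuous_lift Loop.continuous_trace

theorem mk_eq_iff {γ γ' : Loop} :
    (SeparationQuotient.mk γ : Curve) = SeparationQuotient.mk γ' ↔ dist γ γ' = 0 := by
  rw [SeparationQuotient.mk_eq_mk, Metric.inseparable_iff]

theorem Curve.selfAvoiding_mk {γ : Loop} :
    Curve.SelfAvoiding (SeparationQuotient.mk γ) ↔ Loop.SelfAvoiding γ := by
  unfold Curve.SelfAvoiding Loop.SelfAvoiding
  simp only [mk_eq_iff, dist_comm γ]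

/-- The curves with a double point such that both arcs have diameter at least `η`. -/
def Curve.Dbl (η : ℝ) : Set Curve := SeparationQuotient.mk '' Loop.Dbl η

theorem Curve.mk_mem_Dbl {γ : Loop} {η : ℝ} :
    (SeparationQuotient.mk γ : Curve) ∈ Curve.Dbl η ↔ γ ∈ Loop.Dbl η := by
  constructor
  · rintro ⟨γ', h, he⟩
    rw [mk_eq_iff] at he
    rw [← (Loop.isClosed_Dbl η).closure_eq, Metric.mem_closure_iff]
    intro ε hε
    exact ⟨γ', h, by rw [dist_comm, he]; exact hε⟩
  · intro h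
    exact ⟨γ, h, rfl⟩

theorem Curve.isClosed_Dbl (η : ℝ) : IsClosed (Curve.Dbl η) := by
  have h : (SeparationQuotient.mk : Loop → Curve) ⁻¹' Curve.Dbl η = Loop.Dbl η := by
    ext γ; exact Curve.mk_mem_Dbl
  rw [← SeparationQuotient.isQuotientMap_mk.isClosed_preimage, h]
  exact Loop.isClosed_Dbl η

theorem Curve.not_selfAvoiding {c : Curve} {η : ℝ} (hη : 0 < η) (h : c ∈ Curve.Dbl η) :
    ¬ Curve.SelfAvoiding c := by
  obtain ⟨γ, h1, rfl⟩ := h
  rw [Curve.selfAvoiding_mk]
  exact Loop.not_selfAvoiding_of_mem_Dbl hη h1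

theorem outerCurve_trace (n : ℕ) (T : Finset Edg) (u : ℤ × ℤ) :
    (outerCurve n T u).trace = (outerLoop n T u).trace := rfl

end Pool.Agent.PercD

end PartpercDSpace
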