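import Pool.Agent.Lib.MP_6bd702_z.Z001
import Pool.Agent.Lib.MP_6bd702_z.Z005
import Pool.Agent.Lib.MP_6bd702_z.Z012
import Pool.Agent.Lib.MP_6bd702_z.Z006

section PartpercSmallClusters

/-!
# All clusters are small with positive probability (RSW, helper23)
-/

set_option autoImplicit false

namespace Pool.Agent.Perc

open Finset

namespace SmallClusters

open Pool.Agent.MP_6bd702 Pool.Agent.MP_6bd702.H23

theorem tl_eq (e : Edg) : tl e = ea e := rfl
theorem hd_eq (e : Edg) : hd e = eb e := rfl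

theorem boxE_eq (n : ℕ) : boxE n = EW 0 n 0 n := by
  ext e
  rw [mem_EW]
  obtain ⟨x, y, t⟩ := e
  simp only [boxE, Box, mem_filter, mem_product, mem_Icc, mem_univ, and_true, mem_Rect, hd_eq,
    ea_mk]
  tauto

/-- The two descriptions of the uniform measure. -/
theorem prB_eq (n : ℕ) (A : Set (Finset Edg)) :
    prB n A = Pool.Agent.MP_6bd702.H23.pr (boxE n) {ω | ∃ T ∈ A, (T : Set Edg) = ω} := by
  classical
  unfold prB Pool.Agent.MP_6bd702.H23.pr
  rw [Pr_eq_card, Fintype.card_coe]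
  congr 2
  refine Finset.card_bij' (i := fun T _ => (univ : Finset (boxE n)).filter fun e => (e : Edg) ∈ T)
    (j := fun s _ => s.map (Function.Embedding.subtype _)) ?_ ?_ ?_ ?_
  · intro T hT
    rw [mem_filter, mem_powerset] at hT
    rw [mem_filter]
    refine ⟨mem_univ _, ?_⟩
    change _ ∈ {ω | ∃ T ∈ A, (T : Set Edg) = ω}
    refine ⟨T, hT.2, ?_⟩
    ext e
    simp only [mem_coe, H23.mem_cfg, mem_filter, mem_univ, true_and]
    exact ⟨fun h => ⟨hT.1 h, h⟩, fun ⟨_, h⟩ => h⟩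
  · intro s hs
    rw [mem_filter] at hs
    obtain ⟨T, hT, hTs⟩ := hs.2
    rw [mem_filter, mem_powerset]
    have : s.map (Function.Embedding.subtype _) = T := by
      ext e
      have h1 : e ∈ (T : Set Edg) ↔ e ∈ H23.cfg (boxE n) s := by rw [hTs]
      rw [mem_coe, H23.mem_cfg] at h1
      rw [h1]
      simp [Finset.mem_map]
    rw [this]
    refine ⟨?_, hT⟩
    intro e he
    have h1 : e ∈ (T : Set Edg) := he
    rw [hTs] at h1
    exact H23.cfg_sub h1
  · intro T hT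
    rw [mem_filter, mem_powerset] at hT
    ext e
    simp only [Finset.mem_map, mem_filter, mem_univ, true_and, Function.Embedding.subtype_apply,
      Subtype.exists, exists_and_left, exists_prop, exists_eq_right_right]
    exact ⟨fun h => h.1, fun h => ⟨h, hT.1 h⟩⟩
  · intro s hs
    ext e
    simp

theorem conn_of_clV {n : ℕ} {T : Finset Edg} (hT : T ⊆ boxE n) {u v : ℤ × ℤ} (hv : v ∈ clV T u) :
    Conn (T : Set Ed) (Rect 0 n 0 n) u v := by
  unfold clV at hv
  change Relation.ReflTransGen (AdjT T) u v at hv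
  induction hv with
  | refl => exact .refl
  | @tail v w _ h2 ih =>
    obtain ⟨e, he, hh⟩ := h2
    have h3 := hT he
    rw [boxE_eq, mem_EW] at h3
    refine ih.tail ⟨?_, ?_, e, he, hh⟩
    · rcases hh with ⟨h4, h5⟩ | ⟨h4, h5⟩
      · rw [← h4]; exact h3.1
      · rw [← h5]; exact h3.2
    · rcases hh with ⟨h4, h5⟩ | ⟨h4, h5⟩
      · rw [← h5]; exact h3.2
      · rw [← h4]; exact h3.1

theorem dist_toC (u v : ℤ × ℤ) : dist (toC u) (toC v) ^ 2 = ((u.1 - v.1 : ℤ) : ℝ) ^ 2 + ((u.2 - v.2 : ℤ) : ℝ) ^ 2 := by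
  rw [Complex.dist_eq, ← Complex.normSq_eq_norm_sq, Complex.normSq_apply]
  simp [toC]
  ring

theorem mem_clS {T : Finset Edg} {v : ℤ × ℤ} {p : ℂ} (hp : p ∈ clS T v) :
    ∃ a ∈ clV T v, ∃ b ∈ clV T v, p ∈ segment ℝ (toC a) (toC b) := by
  rcases hp with ⟨a, ha, rfl⟩ | hp
  · exact ⟨a, ha, a, ha, left_mem_segment ℝ _ _⟩
  · simp only [Set.mem_iUnion] at hp
    obtain ⟨e, he, h1, h2⟩ := hp
    refine ⟨tl e, h1, hd e, ?_, h2⟩
    change Relation.ReflTransGen (AdjT T) v (hd e)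
    exact Relation.ReflTransGen.tail h1 ⟨e, he, Or.inl ⟨rfl, rfl⟩⟩

theorem small_of_Sm {n : ℕ} (hn : 0 < n) {T : Finset Edg} (hT : T ⊆ boxE n)
    (h : (T : Set Ed) ∈ Sm 12 n) : Small n T := by
  intro v hv
  have hvR : v ∈ Rect 0 n 0 n := by
    simp only [Box, mem_product, mem_Icc] at hv
    exact ⟨hv.1.1, hv.1.2, hv.2.1, hv.2.2⟩
  set D : ℝ := n * (Real.sqrt 2 / 12) with hD
  have hD0 : 0 ≤ D := by positivity
  have h1 : ∀ a ∈ clV T v, ∀ b ∈ clV T v, dist (toC a) (toC b) ≤ D := by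
    intro a ha b hb
    have ca := conn_of_clV hT ha
    have cb := conn_of_clV hT hb
    have hx := h a (ca.mem hvR) b (cb.mem hvR) (ca.symm.trans cb)
    have h2 := dist_toC a b
    have h3 : (12 : ℝ) * |((a.1 - b.1 : ℤ) : ℝ)| ≤ n := by exact_mod_cast hx.1
    have h4 : (12 : ℝ) * |((a.2 - b.2 : ℤ) : ℝ)| ≤ n := by exact_mod_cast hx.2
    have h5 : ((a.1 - b.1 : ℤ) : ℝ) ^ 2 ≤ ((n : ℝ) / 12) ^ 2 := by
      rw [← sq_abs]
      exact pow_le_pow_left₀ (abs_nonneg _) (by linarith) 2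
    have h6 : ((a.2 - b.2 : ℤ) : ℝ) ^ 2 ≤ ((n : ℝ) / 12) ^ 2 := by
      rw [← sq_abs]
      exact pow_le_pow_left₀ (abs_nonneg _) (by linarith) 2
    have h7 : D ^ 2 = 2 * ((n : ℝ) / 12) ^ 2 := by
      rw [hD, mul_pow, div_pow, Real.sq_sqrt (by norm_num)]
      ring
    refine abs_le_of_sq_le_sq' ?_ hD0 |>.2
    rw [h2, h7]
    linarith
  have h8 : Metric.diam (clS T v) ≤ D := by
    refine Metric.diam_le_of_forall_dist_le hD0 fun p hp q hq => ?_
    obtain ⟨a, ha, b, hb, hp⟩ := mem_clS hp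
    obtain ⟨a', ha', b', hb', hq⟩ := mem_clS hq
    have h9 : ∀ c ∈ clV T v, dist p (toC c) ≤ D := by
      intro c hc
      have h10 : segment ℝ (toC a) (toC b) ⊆ Metric.closedBall (toC c) D :=
        (convex_closedBall _ _).segment_subset (Metric.mem_closedBall.2 (h1 a ha c hc))
          (Metric.mem_closedBall.2 (h1 b hb c hc))
      exact Metric.mem_closedBall.1 (h10 hp)
    have h11 : segment ℝ (toC a') (toC b') ⊆ Metric.closedBall p D := by
      refine (convex_closedBall _ _).segment_subset (Metric.mem_closedBall.2 ?_)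
        (Metric.mem_closedBall.2 ?_)
      · rw [dist_comm]; exact h9 a' ha'
      · rw [dist_comm]; exact h9 b' hb'
    rw [dist_comm]
    exact Metric.mem_closedBall.1 (h11 hq)
  refine lt_of_le_of_lt h8 ?_
  have h12 : Real.sqrt 2 < 3 / 2 := by
    rw [Real.sqrt_lt' (by norm_num)]
    norm_num
  have h13 : (0 : ℝ) < n := by exact_mod_cast hn
  rw [hD]
  nlinarith

end SmallClusters

open SmallClusters in
/-- All clusters are small with probability bounded below (RSW, helper23). -/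
theorem prB_small_ge : ∃ c : ℝ, 0 < c ∧ ∀ n : ℕ, 0 < n → c ≤ prB n {T | Small n T} := by
  obtain ⟨c, hc, h⟩ := Pool.Agent.MP_6bd702.H23.small_clusters 12
  refine ⟨c, hc, fun n hn => ?_⟩
  rw [prB_eq, boxE_eq]
  refine (h n (by positivity)).trans (Pool.Agent.MP_6bd702.H23.pr_mono' fun ω hω h1 => ?_)
  have hfin : ω.Finite := (Finset.finite_toSet _).subset hω
  refine ⟨hfin.toFinset, ?_, by simp⟩
  refine small_of_Sm hn ?_ (by simpa using h1)
  intro e he
  rw [boxE_eq]
  rw [Set.Finite.mem_toFinset] at he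
  exact hω he

end Pool.Agent.Perc

end PartpercSmallClusters

section PartpercwDiam

/-!
# The largest diameter is large with high probability
-/

set_option autoImplicit false

namespace Pool.Agent.PercW

open Finset Pool.Agent.MP_6bd702 Pool.Agent.MP_6bd702.H23 Pool.Agent.Perc
open Pool.Agent.Perc.SmallClusters

/-- Comparison of the two descriptions of the law. -/
theorem prB_le {n : ℕ} {A : Set (Finset Edg)} {B : Set (Set Ed)}
    (h : ∀ T ⊆ boxE n, T ∈ A → (T : Set Ed) ∈ B) :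
    prB n A ≤ Pool.Agent.MP_6bd702.H23.pr (EW 0 n 0 n) B := by
  rw [prB_eq, boxE_eq]
  refine Pool.Agent.MP_6bd702.H23.pr_mono' ?_
  rintro ω hω ⟨T, hT, rfl⟩
  refine h T ?_ hT
  rw [boxE_eq]
  exact fun e he => hω he

theorem prB_mono {n : ℕ} {A B : Set (Finset Edg)} (h : ∀ T ⊆ boxE n, T ∈ A → T ∈ B) :
    prB n A ≤ prB n B := by
  classical
  unfold prB
  refine div_le_div_of_nonneg_right ?_ (by positivity)
  rw [Nat.cast_le]
  refine card_le_card fun T hT => ?_
  rw [mem_filter] at hT ⊢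
  exact ⟨hT.1, h T (mem_powerset.1 hT.1) hT.2⟩

theorem prB_nonneg (n : ℕ) (A : Set (Finset Edg)) : 0 ≤ prB n A := by
  unfold prB; positivity

theorem prB_union_le (n : ℕ) (A B : Set (Finset Edg)) : prB n (A ∪ B) ≤ prB n A + prB n B := by
  classical
  unfold prB
  rw [← add_div]
  refine div_le_div_of_nonneg_right ?_ (by positivity)
  rw [← Nat.cast_add, Nat.cast_le]
  refine le_trans (card_le_card ?_) (card_union_le _ _)
  intro T hT
  simp only [mem_filter, Set.mem_union] at hT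
  simp only [mem_union, mem_filter]
  rcases hT with ⟨h1, h2 | h2⟩
  · exact Or.inl ⟨h1, h2⟩
  · exact Or.inr ⟨h1, h2⟩

theorem prB_biUnion_le (n : ℕ) {ι : Type*} [DecidableEq ι] (s : Finset ι) (A : ι → Set (Finset Edg))
    {q : ℝ} (h : ∀ i ∈ s, prB n (A i) ≤ q) : prB n {T | ∃ i ∈ s, T ∈ A i} ≤ s.card * q := by
  induction s using Finset.induction_on with
  | empty =>
    refine le_of_eq ?_
    unfold prB
    simp
  | insert i s hi ih =>
    have h2 : ∀ T ⊆ boxE n, T ∈ {T | ∃ j ∈ insert i s, T ∈ A j} →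
        T ∈ A i ∪ {T | ∃ j ∈ s, T ∈ A j} := by
      rintro T - ⟨j, hj, hT⟩
      rcases Finset.mem_insert.1 hj with h3 | h3
      · left; rw [← h3]; exact hT
      · right; exact ⟨j, h3, hT⟩
    refine (prB_mono h2).trans ((prB_union_le _ _ _).trans ?_)
    rw [card_insert_of_notMem hi]
    push_cast
    have h3 := h i (mem_insert_self i s)
    have h4 := ih fun j hj => h j (mem_insert_of_mem hj)
    linarith

theorem prB_add_compl (n : ℕ) (A : Set (Finset Edg)) : prB n A + prB n Aᶜ = 1 := by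
  classical
  unfold prB
  rw [← add_div, ← Nat.cast_add]
  have h := card_filter_add_card_filter_not (s := (boxE n).powerset) (fun T => T ∈ A)
  have h' : ((boxE n).powerset.filter fun T => T ∈ A).card +
      ((boxE n).powerset.filter fun T => T ∈ Aᶜ).card = 2 ^ (boxE n).card := by
    rw [← card_powerset, ← h]
    congr!
  rw [div_eq_one_iff_eq (by positivity)]
  rw [← Nat.cast_ofNat (R := ℝ), ← Nat.cast_pow, Nat.cast_inj, ← h']
  congr!

/-- Two vertices of a cluster at distance `D`. -/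
theorem le_diam {n : ℕ} {T : Finset Edg} (hT : T ⊆ boxE n) {u v : ℤ × ℤ} (hu : u ∈ Box n)
    (hv : v ∈ clV T u) {D : ℝ} (h : D ≤ |((v.1 - u.1 : ℤ) : ℝ)| ∨ D ≤ |((v.2 - u.2 : ℤ) : ℝ)|) :
    D ≤ Metric.diam (clS T u) := by
  have h1 : dist (toC v) (toC u) ≤ Metric.diam (clS T u) :=
    Metric.dist_le_diam_of_mem (BoxAux.clS_bounded hT hu)
      (BoxAux.mem_clS.2 (Or.inl ⟨v, hv, rfl⟩))
      (BoxAux.mem_clS.2 (Or.inl ⟨u, BoxAux.mem_clV_self T u, rfl⟩))
  refine le_trans ?_ h1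
  have h2 := dist_toC v u
  rcases h with h | h
  · refine h.trans (abs_le_of_sq_le_sq ?_ dist_nonneg)
    rw [h2]
    have := sq_nonneg ((v.2 - u.2 : ℤ) : ℝ)
    linarith
  · refine h.trans (abs_le_of_sq_le_sq ?_ dist_nonneg)
    rw [h2]
    have := sq_nonneg ((v.1 - u.1 : ℤ) : ℝ)
    linarith

/-- The diameter is bounded by the extents. -/
theorem diam_lt {T : Finset Edg} {v : ℤ × ℤ} {D : ℝ} (hD : 0 < D)
    (h : ∀ a ∈ clV T v, ∀ b ∈ clV T v, |((a.1 - b.1 : ℤ) : ℝ)| ≤ D / 2 ∧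
      |((a.2 - b.2 : ℤ) : ℝ)| ≤ D / 2) : Metric.diam (clS T v) < D := by
  have h0 : Metric.diam (clS T v) ≤ D * (3 / 4) := by
    have h1 : ∀ a ∈ clV T v, ∀ b ∈ clV T v, dist (toC a) (toC b) ≤ D * (3 / 4) := by
      intro a ha b hb
      obtain ⟨h2, h3⟩ := h a ha b hb
      have h4 := dist_toC a b
      have h5 : ((a.1 - b.1 : ℤ) : ℝ) ^ 2 ≤ (D / 2) ^ 2 := by
        rw [← sq_abs]
        exact pow_le_pow_left₀ (abs_nonneg _) h2 2
      have h6 : ((a.2 - b.2 : ℤ) : ℝ) ^ 2 ≤ (D / 2) ^ 2 := by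
        rw [← sq_abs]
        exact pow_le_pow_left₀ (abs_nonneg _) h3 2
      refine abs_le_of_sq_le_sq' ?_ (by positivity) |>.2
      rw [h4]
      nlinarith
    refine Metric.diam_le_of_forall_dist_le (by positivity) fun p hp q hq => ?_
    obtain ⟨a, ha, b, hb, hp⟩ := SmallClusters.mem_clS hp
    obtain ⟨a', ha', b', hb', hq⟩ := SmallClusters.mem_clS hq
    have h9 : ∀ c ∈ clV T v, dist p (toC c) ≤ D * (3 / 4) := by
      intro c hc
      have h10 : segment ℝ (toC a) (toC b) ⊆ Metric.closedBall (toC c) (D * (3 / 4)) :=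
        (convex_closedBall _ _).segment_subset (Metric.mem_closedBall.2 (h1 a ha c hc))
          (Metric.mem_closedBall.2 (h1 b hb c hc))
      exact Metric.mem_closedBall.1 (h10 hp)
    have h11 : segment ℝ (toC a') (toC b') ⊆ Metric.closedBall p (D * (3 / 4)) := by
      refine (convex_closedBall _ _).segment_subset (Metric.mem_closedBall.2 ?_)
        (Metric.mem_closedBall.2 ?_)
      · rw [dist_comm]; exact h9 a' ha'
      · rw [dist_comm]; exact h9 b' hb'
    rw [dist_comm]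
    exact Metric.mem_closedBall.1 (h11 hq)
  linarith

theorem clV_of_conn {T : Finset Edg} {R : Set (ℤ × ℤ)} {u v : ℤ × ℤ}
    (h : Conn (T : Set Ed) R u v) : v ∈ clV T u := by
  unfold Conn at h
  change Relation.ReflTransGen (AdjT T) u v
  induction h with
  | refl => exact .refl
  | tail _ h2 ih =>
    obtain ⟨-, -, e, he, hh⟩ := h2
    exact ih.tail ⟨e, he, hh⟩

/-- The largest diameter is at least `D` with high probability. -/
theorem prB_diam_lt {n : ℕ} (m : ℕ) {D : ℕ} (hD : 1 ≤ D) (hm : m * (D + 1) ≤ n + 1) :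
    prB n {T | ∀ v ∈ Box n, Metric.diam (clS T v) < D} ≤ (1 / 2) ^ m := by
  have hdis : ∀ i j : ℕ, i < j → Disjoint (EW (i * (D + 1)) (i * (D + 1) + D) 0 D)
      (EW (j * (D + 1)) (j * (D + 1) + D) 0 D) := by
    intro i j hij
    rw [Finset.disjoint_left]
    intro e h1 h2
    rw [mem_EW] at h1 h2
    simp only [mem_Rect] at h1 h2
    have h3 : ((i : ℤ) + 1) * (D + 1) ≤ j * (D + 1) :=
      mul_le_mul_of_nonneg_right (by exact_mod_cast hij) (by omega)
    have h4 : ((i : ℤ) + 1) * (D + 1) = i * (D + 1) + (D + 1) := by ring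
    omega
  have hfit : ∀ i < m, (0 : ℤ) ≤ i * (D + 1) ∧ (i : ℤ) * (D + 1) + D ≤ n ∧ (D : ℤ) ≤ n := by
    intro i hi
    have h1 : (i + 1) * (D + 1) ≤ m * (D + 1) := Nat.mul_le_mul_right _ hi
    have h2 : (i + 1) * (D + 1) = i * (D + 1) + (D + 1) := by ring
    have h3 : i * (D + 1) + D ≤ n := by omega
    have h4 : D ≤ n := by
      have : 0 ≤ i * (D + 1) := Nat.zero_le _
      omega
    refine ⟨by positivity, by exact_mod_cast h3, by exact_mod_cast h4⟩
  refine (prB_le ?_).trans (pr_iInter_le (W := EW 0 (n : ℤ) 0 n) (by norm_num)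
    (fun i : ℕ => EW (i * (D + 1)) (i * (D + 1) + D) 0 D)
    (fun i : ℕ => {ω | HC (i * (D + 1)) (i * (D + 1) + D) 0 D ω}ᶜ) hdis
    (fun i => Loc.compl (HC_loc _ _ _ _)) m (fun i hi => ?_))
  · intro T hT hsm i hi hHC
    obtain ⟨y, y', h1, h2, h3, h4, h5⟩ := hHC
    obtain ⟨h6, h7, h8⟩ := hfit i hi
    have hbox : ((i * (D + 1), y) : ℤ × ℤ) ∈ Box n := by
      simp only [Box, mem_product, mem_Icc]
      refine ⟨⟨?_, ?_⟩, ?_, ?_⟩ <;> omega
    have h9 := hsm _ hbox
    have h10 := le_diam hT hbox (clV_of_conn h5) (D := D) (Or.inl (by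
      simp only [add_sub_cancel_left]
      rw [Int.cast_natCast]
      exact le_abs_self _))
    linarith
  · obtain ⟨h6, h7, h8⟩ := hfit i hi
    rw [pr_compl, pr_hc_window (EW_sub h6 h7 le_rfl h8)]
    have h9 := hp_square (n := (D : ℤ)) (by omega)
    rw [show (i : ℤ) * (D + 1) + D - i * (D + 1) = D by ring, sub_zero]
    linarith

end Pool.Agent.PercW

end PartpercwDiam

section PartpercdMacro

/-!
# Macroscopic estimates: thin layers and the largest diameter
-/

set_option autoImplicit false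

namespace Pool.Agent.PercD

open Finset Filter Topology Pool.Agent.MP_6bd702 Pool.Agent.MP_6bd702.H23 Pool.Agent.Perc
open Pool.Agent.PercW

theorem layX_mono {n w w' E E' : ℤ} (hw : w ≤ w') (hE : E' ≤ E) : LayX n w E ⊆ LayX n w' E' := by
  have hs : Lay n w ⊆ Lay n w' := by
    intro v hv
    rw [mem_Lay] at hv ⊢
    refine ⟨hv.1, fun h => hv.2 ?_⟩
    omega
  rintro ω ⟨u, v, hu, hc, hd⟩
  exact ⟨u, v, hs hu, hc.mono le_rfl hs, by omega⟩

theorem pr_biUnion_le' (W : Finset Ed) {b : ℝ} (s : Finset ℕ) (A : ℕ → Set (Set Ed))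
    (hA : ∀ i ∈ s, pr W (A i) ≤ b) : pr W {ω | ∃ i ∈ s, ω ∈ A i} ≤ s.card * b := by
  induction s using Finset.induction_on with
  | empty =>
    simp only [notMem_empty, false_and, exists_false, card_empty, Nat.cast_zero, zero_mul]
    refine le_of_eq ?_
    unfold pr
    change Pr {s | False} = 0
    have : ({s : Finset W | False} : Set _) = ∅ := by ext; simp
    rw [this]
    unfold Pr Ex
    simp
  | insert i s hi ih =>
    have h2 : {ω : Set Ed | ∃ j ∈ insert i s, ω ∈ A j} ⊆ A i ∪ {ω | ∃ j ∈ s, ω ∈ A j} := by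
      rintro ω ⟨j, hj, hω⟩
      rcases Finset.mem_insert.1 hj with h3 | h3
      · left; rw [← h3]; exact hω
      · right; exact ⟨j, h3, hω⟩
    refine (pr_mono h2).trans ((pr_union_le _ _ _).trans ?_)
    rw [card_insert_of_notMem hi]
    push_cast
    have h3 := hA i (mem_insert_self i s)
    have h4 := ih fun j hj => hA j (mem_insert_of_mem hj)
    linarith

/-- A wide connection in a layer, with a constant number of columns. -/
theorem pr_layX_le' : ∃ q : ℝ, 0 ≤ q ∧ q < 1 ∧ ∀ (k n M : ℕ) (w l : ℤ), 1 ≤ w → w ≤ l →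
    2 * w ≤ n → k * (w + 3) ≤ l + 1 → (n : ℤ) < M * l →
    pr (EW 0 n 0 n) (LayX n w (4 * l)) ≤ M * (2 * q ^ k) := by
  obtain ⟨q, hq0, hq1, h⟩ := hp_le
  refine ⟨q, hq0, hq1, fun k n M w l hw hl hn hk hM => ?_⟩
  have h0 : {ω : Set Ed | ω ∈ LayX n w (4 * l)} ⊆ {ω | ∃ i ∈ range M, ω ∈ {ω : Set Ed |
      (w ≤ (i : ℤ) * l ∧ ((i : ℤ) + 1) * l ≤ n - w) ∧
        (HC ((i : ℤ) * l) (((i : ℤ) + 1) * l) 0 (w - 1) ω ∨
          HC ((i : ℤ) * l) (((i : ℤ) + 1) * l) (n - w + 1) n ω)}} := by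
    intro ω hω
    obtain ⟨i, -, h2, h3⟩ := layX_sub (by omega) hl (by omega) hn hω
    refine ⟨i, ?_, h2, h3⟩
    rw [mem_range]
    by_contra h4
    push Not at h4
    have h5 : (M : ℤ) * l ≤ i * l := mul_le_mul_of_nonneg_right (by exact_mod_cast h4) (by omega)
    have h6 : ((i : ℤ) + 1) * l = i * l + l := by ring
    omega
  refine (pr_mono h0).trans ((pr_biUnion_le' _ (range M) _ (b := 2 * q ^ k) ?_).trans ?_)
  · intro i _
    by_cases hi : w ≤ (i : ℤ) * l ∧ ((i : ℤ) + 1) * l ≤ n - w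
    · have e1 : ((i : ℤ) + 1) * l - i * l = l := by ring
      refine le_trans (pr_mono (B := {ω | HC ((i : ℤ) * l) (((i : ℤ) + 1) * l) 0 (w - 1) ω} ∪
        {ω | HC ((i : ℤ) * l) (((i : ℤ) + 1) * l) (n - w + 1) n ω}) ?_) ((pr_union_le _ _ _).trans ?_)
      · rintro ω ⟨_, h2 | h2⟩
        · exact Or.inl h2
        · exact Or.inr h2
      · rw [pr_hc_window (EW_sub (by omega) (by omega) (by omega) (by omega)),
          pr_hc_window (EW_sub (by omega) (by omega) (by omega) (by omega)), e1]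
        have h2 := h k l (w - 1 - 0) (by omega) (by
          rw [show w - 1 - 0 + 4 = w + 3 by ring]; exact hk)
        have h3 := h k l (n - (n - w + 1)) (by omega) (by
          rw [show (n : ℤ) - (n - w + 1) + 4 = w + 3 by ring]; exact hk)
        linarith
    · have h2 : {ω : Set Ed | (w ≤ (i : ℤ) * l ∧ ((i : ℤ) + 1) * l ≤ n - w) ∧
          (HC ((i : ℤ) * l) (((i : ℤ) + 1) * l) 0 (w - 1) ω ∨
            HC ((i : ℤ) * l) (((i : ℤ) + 1) * l) (n - w + 1) n ω)} ⊆ ∅ := by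
        rintro ω ⟨h3, -⟩
        exact hi h3
      refine (pr_mono h2).trans ?_
      have h3 := pr_compl (EW 0 (n : ℤ) 0 n) Set.univ
      rw [Set.compl_univ, pr_univ] at h3
      rw [h3]
      have : 0 ≤ q ^ k := by positivity
      linarith
  · rw [card_range]

theorem lay_small (a ε : ℝ) (ha : 0 < a) (hε : 0 < ε) : ∃ κ : ℝ, 0 < κ ∧
    ∀ᶠ n : ℕ in atTop, ∀ w E : ℤ, (w : ℝ) ≤ κ * n → a * n ≤ (E : ℝ) →
      prB n {T | (T : Set Ed) ∈ LayX n w E ∨ (T : Set Ed) ∈ LayY n w E} ≤ ε := by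
  -- we may decrease `a`
  wlog ha1 : a ≤ 1 generalizing a
  · obtain ⟨κ, hκ, h⟩ := this 1 one_pos le_rfl
    refine ⟨κ, hκ, h.mono fun n hn w E hw hE => hn w E hw ?_⟩
    push Not at ha1
    have : (0 : ℝ) ≤ n := n.cast_nonneg
    nlinarith
  obtain ⟨q, hq0, hq1, hmain⟩ := pr_layX_le'
  obtain ⟨M, hM⟩ := exists_nat_gt (8 / a)
  have hM0 : (0 : ℝ) < M := lt_trans (by positivity) hM
  obtain ⟨k₀, hk₀⟩ := exists_pow_lt_of_lt_one (show 0 < ε / (4 * M) by positivity) hq1
  set k := k₀ + 1 with hk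
  have hk1 : (1 : ℝ) ≤ k := by rw [hk]; push_cast; linarith [(k₀ : ℕ).cast_nonneg (α := ℝ)]
  have hqk : q ^ k ≤ ε / (4 * M) := by
    rw [hk, pow_succ]
    have := pow_nonneg hq0 k₀
    nlinarith
  refine ⟨a / (8 * k), by positivity, ?_⟩
  filter_upwards [eventually_ge_atTop ⌈64 * k / a⌉₊] with n hn w E hw hE
  have hn' : 64 * k / a ≤ n := (Nat.le_ceil _).trans (by exact_mod_cast hn)
  rw [div_le_iff₀ ha] at hn'
  have hn0 : (0 : ℝ) ≤ n := n.cast_nonneg
  -- the parameters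
  set W : ℤ := max 1 ⌊a / (8 * k) * n⌋ with hW
  set l : ℤ := ⌊a * n / 4⌋ with hl
  have hW1 : 1 ≤ W := le_max_left _ _
  have hWw : w ≤ W := by
    refine le_trans ?_ (le_max_right _ _)
    exact Int.le_floor.2 hw
  have hWr : (W : ℝ) ≤ a / (8 * k) * n + 1 := by
    rw [hW, Int.cast_max, Int.cast_one]
    refine max_le ?_ ?_
    · have : 0 ≤ a / (8 * k) * n := by positivity
      linarith
    · have := Int.floor_le (a / (8 * k) * n)
      linarith
  have hl1 : (l : ℝ) ≤ a * n / 4 := Int.floor_le _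
  have hl2 : a * n / 4 < l + 1 := Int.lt_floor_add_one _
  have hkW : (k : ℝ) * (a / (8 * k) * n) = a * n / 8 := by field_simp
  have hkW2 : (k : ℝ) * (W + 3) ≤ a * n / 8 + 4 * k := by
    have := mul_le_mul_of_nonneg_left hWr (show (0 : ℝ) ≤ k by linarith)
    rw [mul_add, hkW] at this
    rw [mul_add]
    linarith
  have c1 : (k : ℤ) * (W + 3) ≤ l + 1 := by
    have : ((k : ℤ) * (W + 3) : ℤ) < ((l + 1 + 1 : ℤ) : ℝ) := by
      push_cast
      linarith
    have := Int.cast_lt.1 this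
    omega
  have c2 : W ≤ l := by
    have h1 : 1 * (W + 3) ≤ (k : ℤ) * (W + 3) :=
      mul_le_mul_of_nonneg_right (by exact_mod_cast hk1) (by omega)
    omega
  have c3 : 2 * W ≤ n := by
    have h1 : (4 : ℝ) * l ≤ n := by nlinarith
    have h2 : 4 * l ≤ n := by exact_mod_cast h1
    omega
  have c4 : (n : ℤ) < M * l := by
    have h1 : (n : ℝ) < M * l := by
      rw [div_lt_iff₀ ha] at hM
      have h2 : a * n / 8 ≤ (l : ℝ) := by
        have : (1 : ℝ) ≤ k := hk1
        linarith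
      have h3 : (n : ℝ) * 8 < (M * a) * n := by
        have hnp : (0 : ℝ) < n := by
          by_contra h
          have : (n : ℝ) = 0 := le_antisymm (not_lt.1 h) hn0
          rw [this] at hn'
          linarith
        nlinarith
      have h4 : (M : ℝ) * (a * n / 8) ≤ M * l := mul_le_mul_of_nonneg_left h2 hM0.le
      linarith
    exact_mod_cast h1
  have c5 : 4 * l ≤ E := by
    have : ((4 * l : ℤ) : ℝ) ≤ (E : ℝ) := by push_cast; linarith
    exact_mod_cast this
  have h1 := hmain k n M W l hW1 c2 c3 c1 c4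
  have h2 : pr (EW 0 n 0 n) (LayX n w E) ≤ ε / 2 := by
    refine (pr_mono (layX_mono hWw c5)).trans (h1.trans ?_)
    have : (M : ℝ) * (2 * q ^ k) ≤ M * (2 * (ε / (4 * M))) := by gcongr
    refine this.trans (le_of_eq ?_)
    field_simp
    ring
  have h3 := pr_layY_le n w E
  refine (prB_le (B := LayX n w E ∪ LayY n w E) fun T _ hT => hT).trans
    ((pr_union_le _ _ _).trans ?_)
  linarith

theorem diam_small (ε : ℝ) (hε : 0 < ε) : ∃ k₀ : ℝ, 0 < k₀ ∧
    ∀ᶠ n : ℕ in atTop, prB n {T | ∀ v ∈ Box n, Metric.diam (clS T v) < k₀ * n} ≤ ε := by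
  obtain ⟨m₀, hm₀⟩ := exists_pow_lt_of_lt_one hε (show (1 / 2 : ℝ) < 1 by norm_num)
  set m := m₀ + 1 with hm
  have hm1 : (1 : ℝ) ≤ m := by rw [hm]; push_cast; linarith [(m₀ : ℕ).cast_nonneg (α := ℝ)]
  have hme : (1 / 2 : ℝ) ^ m ≤ ε := by
    refine le_trans ?_ hm₀.le
    exact pow_le_pow_of_le_one (by norm_num) (by norm_num) (Nat.le_succ _)
  refine ⟨1 / (2 * m), by positivity, ?_⟩
  filter_upwards [eventually_ge_atTop (4 * m)] with n hn
  have hn' : (4 : ℝ) * m ≤ n := by exact_mod_cast hn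
  set D : ℕ := ⌈1 / (2 * (m : ℝ)) * n⌉₊ with hD
  have hD1 : 1 / (2 * (m : ℝ)) * n ≤ D := Nat.le_ceil _
  have hD2 : (D : ℝ) < 1 / (2 * (m : ℝ)) * n + 1 := Nat.ceil_lt_add_one (by positivity)
  have hD0 : 1 ≤ D := Nat.one_le_ceil_iff.2 (by
    have : (0 : ℝ) < n := by linarith
    positivity)
  have hc : m * (D + 1) ≤ n + 1 := by
    have h1 : (m : ℝ) * (1 / (2 * (m : ℝ)) * n) = n / 2 := by field_simp
    have h2 : (m : ℝ) * (D + 1) < n / 2 + 2 * m := by
      have := mul_lt_mul_of_pos_left hD2 (show (0 : ℝ) < m by linarith)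
      rw [mul_add, h1] at this
      rw [mul_add]
      linarith
    have h3 : ((m * (D + 1) : ℕ) : ℝ) ≤ ((n + 1 : ℕ) : ℝ) := by
      push_cast
      linarith
    exact_mod_cast h3
  refine le_trans (prB_mono (B := {T | ∀ v ∈ Box n, Metric.diam (clS T v) < D}) ?_)
    ((prB_diam_lt m hD0 hc).trans hme)
  intro T _ hT v hv
  exact (hT v hv).trans_le hD1

end Pool.Agent.PercD

end PartpercdMacro

section PartpercwInner

/-!
# The outer interface of a large cluster leaves the boundary layer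
-/

set_option autoImplicit false

namespace Pool.Agent.PercW

open Pool.Agent.MP_6bd702 Pool.Agent.MP_6bd702.H23 Pool.Agent.MP_6bd702.H60 Pool.Agent.PercU
  Pool.Agent.PercO Pool.Agent.Perc

/-- An interface whose vertices are in `R` gives connections in `R`. -/
theorem orb_conn {ω : Set Ed} {k : Cor} {R : Set (ℤ × ℤ)} (hR : ∀ k' ∈ Orb ω k, vtx k' ∈ R)
    {k' : Cor} (hk' : k' ∈ Orb ω k) : Conn ω R (vtx k) (vtx k') := by
  obtain ⟨j, rfl⟩ := hk'
  have hmem : ∀ j : ℤ, (nxtE ω ^ j) k ∈ Orb ω k := fun j => ⟨j, rfl⟩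
  have hstep : ∀ j : ℤ, (nxtE ω ^ (j + 1)) k = nxt ω ((nxtE ω ^ j) k) := by
    intro j
    rw [add_comm, zpow_add, Equiv.Perm.mul_apply, zpow_one]
    rfl
  have hone : ∀ j : ℤ, Conn ω R (vtx ((nxtE ω ^ j) k)) (vtx ((nxtE ω ^ (j + 1)) k)) := by
    intro j
    have h1 := hR _ (hmem j)
    have h2 := hR _ (hmem (j + 1))
    rw [hstep] at h2 ⊢
    rcases step_vtx (ω := ω) ((nxtE ω ^ j) k) with h | ⟨-, -, e, he, hh⟩
    · rw [h]; exact .refl
    · exact .single ⟨h1, h2, e, he, hh⟩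
  induction j using Int.induction_on with
  | zero => exact .refl
  | succ i ih => exact ih.trans (hone i)
  | pred i ih =>
    have h := hone (-i - 1)
    rw [sub_add_cancel] at h
    exact ih.trans h.symm

variable {n : ℕ} {T : Finset Edg} {u : ℤ × ℤ}

theorem exists_inner {kL kR : Cor} (hT : T ⊆ boxE n) (hL : kL ∈ Oc (T : Set Ed) u)
    (hR : kR ∈ Oc (T : Set Ed) u) {w : ℤ}
    (h : ¬ Conn (T : Set Ed) (Lay n w) (vtx kL) (vtx kR)) :
    ∃ k ∈ Oc (T : Set Ed) u, vtx k ∉ Lay n w := by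
  by_contra hcon
  push Not at hcon
  refine h (orb_conn (k := kL) ?_ ?_)
  · intro k' hk'
    rw [orb_eq_Oc (boxE_sub hT) hL] at hk'
    exact hcon k' hk'
  · rw [orb_eq_Oc (boxE_sub hT) hL]; exact hR

/-- A finite nonempty set of vertices has an extreme vertex for every integer function. -/
theorem exists_min_vertex {S : Set (ℤ × ℤ)} (hS : S.Finite) (hne : S.Nonempty) (f : ℤ × ℤ → ℤ) :
    ∃ v ∈ S, ∀ w ∈ S, f v ≤ f w := Set.exists_min_image S f hS hne

/-- The outer interface of a cluster of large diameter has a corner far from the boundary of the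
box, and goes far from it. -/
theorem exists_inner_corner (hT : T ⊆ boxE n) (hu : u ∈ Box n) {w E : ℤ} {D : ℝ} (hD0 : 0 < D)
    (hD : D ≤ Metric.diam (clS T u)) (hE : (E : ℝ) ≤ D / 2)
    (hX : (T : Set Ed) ∉ LayX n w E) (hY : (T : Set Ed) ∉ LayY n w E) :
    ∃ k ∈ Oc (T : Set Ed) u, vtx k ∉ Lay n w ∧ ∃ k' ∈ Oc (T : Set Ed) u,
      E ≤ 2 * max |(vtx k').1 - (vtx k).1| |(vtx k').2 - (vtx k).2| := by
  have hfin := BoxAux.clV_finite hT hu
  have hne : (clV T u).Nonempty := ⟨u, BoxAux.mem_clV_self T u⟩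
  -- every vertex of the cluster is in the box
  have hbox := BoxAux.clV_subset_box hT hu
  have hlay : ∀ k ∈ Oc (T : Set Ed) u, vtx k ∈ Box n := by
    intro k hk
    have h1 : vtx k ∈ clV T u := by rw [clV_eq]; exact hk.1
    exact hbox h1
  have hconnmem : ∀ {a b : ℤ × ℤ}, Conn (T : Set Ed) (Lay n w) a b → a ≠ b → a ∈ Lay n w := by
    intro a b h hab
    rcases Relation.ReflTransGen.cases_head h with h1 | ⟨c, h1, -⟩
    · exact absurd h1 hab
    · exact h1.1
  by_cases hext : ∀ a ∈ clV T u, ∀ b ∈ clV T u, |((a.1 - b.1 : ℤ) : ℝ)| ≤ D / 2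
  · -- the height is large
    have hext' : ∃ a ∈ clV T u, ∃ b ∈ clV T u, D / 2 < |((a.2 - b.2 : ℤ) : ℝ)| := by
      by_contra hcon
      push Not at hcon
      exact absurd (diam_lt hD0 fun a ha b hb => ⟨hext a ha b hb, hcon a ha b hb⟩) (not_lt.2 hD)
    obtain ⟨a, ha, b, hb, hab⟩ := hext'
    obtain ⟨p, hp, hpm⟩ := exists_min_vertex hfin hne (fun v => v.2)
    obtain ⟨q, hq, hqm⟩ := exists_min_vertex hfin hne (fun v => -v.2)
    have hqm' : ∀ w ∈ clV T u, w.2 ≤ q.2 := fun w hw => by have := hqm w hw; omega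
    have hpq : D / 2 < ((q.2 - p.2 : ℤ) : ℝ) := by
      refine lt_of_lt_of_le hab ?_
      have h1 := hpm a ha
      have h2 := hpm b hb
      have h3 := hqm' a ha
      have h4 := hqm' b hb

      rw [← Int.cast_abs, Int.cast_le, abs_le]
      constructor <;> omega
    have hEpq : E ≤ q.2 - p.2 := by
      have : (E : ℝ) ≤ ((q.2 - p.2 : ℤ) : ℝ) := by linarith
      exact_mod_cast this
    have hne' : p ≠ q := by
      intro h
      rw [h, sub_self] at hpq
      simp only [Int.cast_zero] at hpq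
      linarith
    have hkL : ((p.1, p.2, true, false) : Cor) ∈ Oc (T : Set Ed) u := by
      rw [mem_Oc]
      exact ⟨hp, outer_bot hpm p.1⟩
    have hkR : ((q.1, q.2, true, true) : Cor) ∈ Oc (T : Set Ed) u := by
      rw [mem_Oc]
      exact ⟨hq, outer_top hqm' q.1⟩
    obtain ⟨k, hk, hkl⟩ := exists_inner hT hkL hkR (w := w) (fun hc => hY
      ⟨p, q, hconnmem hc hne', hc, hEpq⟩)
    refine ⟨k, hk, hkl, ?_⟩
    have h1 : vtx k ∈ clV T u := by rw [clV_eq]; exact hk.1
    have h2 := hpm _ h1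
    have h3 := hqm' _ h1

    rcases le_total (q.2 - (vtx k).2) ((vtx k).2 - p.2) with h4 | h4
    · refine ⟨_, hkL, ?_⟩
      have h5 : |p.2 - (vtx k).2| ≤ max |(vtx ((p.1, p.2, true, false) : Cor)).1 - (vtx k).1|
          |(vtx ((p.1, p.2, true, false) : Cor)).2 - (vtx k).2| := le_max_right _ _
      have h6 := neg_le_abs (p.2 - (vtx k).2)
      omega
    · refine ⟨_, hkR, ?_⟩
      have h5 : |q.2 - (vtx k).2| ≤ max |(vtx ((q.1, q.2, true, true) : Cor)).1 - (vtx k).1|
          |(vtx ((q.1, q.2, true, true) : Cor)).2 - (vtx k).2| := le_max_right _ _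
      have h6 := le_abs_self (q.2 - (vtx k).2)
      omega
  · push Not at hext
    obtain ⟨a, ha, b, hb, hab⟩ := hext
    obtain ⟨p, hp, hpm⟩ := exists_min_vertex hfin hne (fun v => v.1)
    obtain ⟨q, hq, hqm⟩ := exists_min_vertex hfin hne (fun v => -v.1)
    have hqm' : ∀ w ∈ clV T u, w.1 ≤ q.1 := fun w hw => by have := hqm w hw; omega
    have hpq : D / 2 < ((q.1 - p.1 : ℤ) : ℝ) := by
      refine lt_of_lt_of_le hab ?_
      have h1 := hpm a ha
      have h2 := hpm b hb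
      have h3 := hqm' a ha
      have h4 := hqm' b hb

      rw [← Int.cast_abs, Int.cast_le, abs_le]
      constructor <;> omega
    have hEpq : E ≤ q.1 - p.1 := by
      have : (E : ℝ) ≤ ((q.1 - p.1 : ℤ) : ℝ) := by linarith
      exact_mod_cast this
    have hne' : p ≠ q := by
      intro h
      rw [h, sub_self] at hpq
      simp only [Int.cast_zero] at hpq
      linarith
    have hkL : ((p.1, p.2, false, true) : Cor) ∈ Oc (T : Set Ed) u := by
      rw [mem_Oc]
      exact ⟨hp, outer_left hpm p.2⟩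
    have hkR : ((q.1, q.2, true, true) : Cor) ∈ Oc (T : Set Ed) u := by
      rw [mem_Oc]
      exact ⟨hq, outer_right hqm' q.2⟩
    obtain ⟨k, hk, hkl⟩ := exists_inner hT hkL hkR (w := w) (fun hc => hX
      ⟨p, q, hconnmem hc hne', hc, hEpq⟩)
    refine ⟨k, hk, hkl, ?_⟩
    have h1 : vtx k ∈ clV T u := by rw [clV_eq]; exact hk.1
    have h2 := hpm _ h1
    have h3 := hqm' _ h1

    rcases le_total (q.1 - (vtx k).1) ((vtx k).1 - p.1) with h4 | h4
    · refine ⟨_, hkL, ?_⟩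
      have h5 : |p.1 - (vtx k).1| ≤ max |(vtx ((p.1, p.2, false, true) : Cor)).1 - (vtx k).1|
          |(vtx ((p.1, p.2, false, true) : Cor)).2 - (vtx k).2| := le_max_left _ _
      have h6 := neg_le_abs (p.1 - (vtx k).1)
      omega
    · refine ⟨_, hkR, ?_⟩
      have h5 : |q.1 - (vtx k).1| ≤ max |(vtx ((q.1, q.2, true, true) : Cor)).1 - (vtx k).1|
          |(vtx ((q.1, q.2, true, true) : Cor)).2 - (vtx k).2| := le_max_left _ _
      have h6 := le_abs_self (q.1 - (vtx k).1)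
      omega

end Pool.Agent.PercW

end PartpercwInner
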