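import Pool.Agent.Lib.MP_6bd702_z.GridDefs
import Pool.Agent.Lib.MP_6bd702_z.Z001
import Pool.Agent.Lib.MP_6bd702_z.Z006

section PartpercGridA

/-!
# Percolation on the face grid: basic facts (task GridA)
-/

set_option autoImplicit false
set_option linter.unnecessarySeqFocus false

namespace Pool.Agent.Perc

open Finset

variable {ω : Cfg} {F F' : Set (ℤ × ℤ)}

theorem Bond.symm {u v : ℤ × ℤ} (h : Bond ω F u v) : Bond ω F v u := by
  obtain ⟨x, y, hF, h | h⟩ := h
  · exact ⟨x, y, hF, Or.inl ⟨h.1, h.2.symm.imp And.symm And.symm⟩⟩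
  · exact ⟨x, y, hF, Or.inr ⟨h.1, h.2.symm.imp And.symm And.symm⟩⟩

theorem Conn.symm {u v : ℤ × ℤ} (h : Conn ω F u v) : Conn ω F v u := by
  induction h with
  | refl => exact Relation.ReflTransGen.refl
  | tail _ hb ih => exact Relation.ReflTransGen.head (Bond.symm hb) ih

namespace GridA

theorem conn_lift {ω ω' : Cfg} {F F' : Set (ℤ × ℤ)} (f : ℤ × ℤ → ℤ × ℤ)
    (h : ∀ a b, Bond ω F a b → Bond ω' F' (f a) (f b)) {u v : ℤ × ℤ} (hc : Conn ω F u v) :
    Conn ω' F' (f u) (f v) := by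
  induction hc with
  | refl => exact Relation.ReflTransGen.refl
  | tail _ hb ih => exact Relation.ReflTransGen.tail ih (h _ _ hb)

end GridA

theorem conn_equivalence (ω : Cfg) (F : Set (ℤ × ℤ)) : Equivalence (Conn ω F) :=
  ⟨fun _ => Relation.ReflTransGen.refl, fun h => Conn.symm h,
    fun h h' => Relation.ReflTransGen.trans h h'⟩

theorem Conn.mono (hF : F ⊆ F') {u v : ℤ × ℤ} (h : Conn ω F u v) : Conn ω F' u v :=
  GridA.conn_lift id (fun _ _ hb => by
    obtain ⟨x, y, hm, hh⟩ := hb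
    exact ⟨x, y, hF hm, hh⟩) h

namespace GridA

theorem bond_parity {u v : ℤ × ℤ} (h : Bond ω F u v) : (u.1 + u.2) % 2 = (v.1 + v.2) % 2 := by
  obtain ⟨x, y, -, ⟨-, ⟨rfl, rfl⟩ | ⟨rfl, rfl⟩⟩ | ⟨-, ⟨rfl, rfl⟩ | ⟨rfl, rfl⟩⟩⟩ := h <;>
    simp only <;> omega

end GridA

theorem Conn.parity {u v : ℤ × ℤ} (h : Conn ω F u v) :
    (u.1 + u.2) % 2 = (v.1 + v.2) % 2 := by
  induction h with
  | refl => rfl
  | tail _ hb ih => rw [ih, GridA.bond_parity hb]

/-- A connection which is not trivial stays in the rectangle. -/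
theorem Conn.mem_rect {x₀ x₁ y₀ y₁ : ℤ} {u v : ℤ × ℤ} (h : Conn ω (RF x₀ x₁ y₀ y₁) u v)
    (hu : x₀ ≤ u.1 ∧ u.1 ≤ x₁ ∧ y₀ ≤ u.2 ∧ u.2 ≤ y₁) :
    x₀ ≤ v.1 ∧ v.1 ≤ x₁ ∧ y₀ ≤ v.2 ∧ v.2 ≤ y₁ := by
  induction h with
  | refl => exact hu
  | tail _ hb ih =>
    obtain ⟨x, y, hm, ⟨-, ⟨rfl, rfl⟩ | ⟨rfl, rfl⟩⟩ | ⟨-, ⟨rfl, rfl⟩ | ⟨rfl, rfl⟩⟩⟩ := hb <;>
      simp only [RF, coe_product, Set.mem_prod, coe_Ico, Set.mem_Ico] at hm <;>
      simp only <;> omega

theorem conn_shift (a b : ℤ) (ω : Cfg) (F : Set (ℤ × ℤ)) (u v : ℤ × ℤ) :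
    Conn (shiftC a b ω) F u v ↔
      Conn ω {f | (f.1 - a, f.2 - b) ∈ F} (u.1 + a, u.2 + b) (v.1 + a, v.2 + b) := by
  constructor
  · intro h
    refine GridA.conn_lift (fun w : ℤ × ℤ => (w.1 + a, w.2 + b)) ?_ h
    rintro w w' ⟨x, y, hm, hh⟩
    refine ⟨x + a, y + b, by simpa using hm, ?_⟩
    have e : shiftC a b ω (x, y) = ω (x + a, y + b) := rfl
    rw [e] at hh
    rcases hh with ⟨h1, ⟨rfl, rfl⟩ | ⟨rfl, rfl⟩⟩ | ⟨h1, ⟨rfl, rfl⟩ | ⟨rfl, rfl⟩⟩
    · exact Or.inl ⟨h1, Or.inl ⟨rfl, by ext <;> dsimp only <;> ring⟩⟩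
    · exact Or.inl ⟨h1, Or.inr ⟨by ext <;> dsimp only <;> ring, rfl⟩⟩
    · exact Or.inr ⟨h1, Or.inl ⟨by ext <;> dsimp only <;> ring,
        by ext <;> dsimp only <;> ring⟩⟩
    · exact Or.inr ⟨h1, Or.inr ⟨by ext <;> dsimp only <;> ring,
        by ext <;> dsimp only <;> ring⟩⟩
  · intro h
    have h2 := GridA.conn_lift (ω' := shiftC a b ω) (F' := F)
      (fun w : ℤ × ℤ => (w.1 - a, w.2 - b)) ?_ h
    · simpa using h2
    · rintro w w' ⟨x, y, hm, hh⟩
      refine ⟨x - a, y - b, hm, ?_⟩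
      have e : shiftC a b ω (x - a, y - b) = ω (x, y) := by simp [shiftC]
      rw [e]
      rcases hh with ⟨h1, ⟨rfl, rfl⟩ | ⟨rfl, rfl⟩⟩ | ⟨h1, ⟨rfl, rfl⟩ | ⟨rfl, rfl⟩⟩
      · exact Or.inl ⟨h1, Or.inl ⟨rfl, by ext <;> dsimp only <;> ring⟩⟩
      · exact Or.inl ⟨h1, Or.inr ⟨by ext <;> dsimp only <;> ring, rfl⟩⟩
      · exact Or.inr ⟨h1, Or.inl ⟨by ext <;> dsimp only <;> ring,
          by ext <;> dsimp only <;> ring⟩⟩
      · exact Or.inr ⟨h1, Or.inr ⟨by ext <;> dsimp only <;> ring,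
          by ext <;> dsimp only <;> ring⟩⟩

/-- A path which leaves a rectangle: restriction up to the first boundary point. -/
theorem Conn.toBd {x₀ x₁ y₀ y₁ : ℤ} {u v : ℤ × ℤ} (h : Conn ω F u v)
    (hu : x₀ ≤ u.1 ∧ u.1 ≤ x₁ ∧ y₀ ≤ u.2 ∧ u.2 ≤ y₁)
    (hv : ¬ (x₀ < v.1 ∧ v.1 < x₁ ∧ y₀ < v.2 ∧ v.2 < y₁)) :
    ∃ w, Conn ω (F ∩ (RF x₀ x₁ y₀ y₁ : Set (ℤ × ℤ))) u w ∧ OnBd x₀ x₁ y₀ y₁ w := by
  revert hu
  induction h using Relation.ReflTransGen.head_induction_on with
  | refl =>
    intro hu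
    refine ⟨v, Relation.ReflTransGen.refl, ?_⟩
    unfold OnBd
    omega
  | @head a c hb hcv ih =>
    intro hu
    by_cases hbd : OnBd x₀ x₁ y₀ y₁ a
    · exact ⟨a, Relation.ReflTransGen.refl, hbd⟩
    · obtain ⟨x, y, hm, hh⟩ := hb
      have hface : (x, y) ∈ (RF x₀ x₁ y₀ y₁ : Set (ℤ × ℤ)) ∧
          (x₀ ≤ c.1 ∧ c.1 ≤ x₁ ∧ y₀ ≤ c.2 ∧ c.2 ≤ y₁) := by
        clear ih
        unfold OnBd at hbd
        simp only [RF, coe_product, Set.mem_prod, coe_Ico, Set.mem_Ico]
        rcases hh with ⟨-, ⟨rfl, rfl⟩ | ⟨rfl, rfl⟩⟩ | ⟨-, ⟨rfl, rfl⟩ | ⟨rfl, rfl⟩⟩ <;>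
          simp only at hu hbd ⊢ <;> omega
      obtain ⟨w, hw, hw'⟩ := ih hface.2
      exact ⟨w, Relation.ReflTransGen.head ⟨x, y, ⟨hm, hface.1⟩, hh⟩ hw, hw'⟩

/-- The same with a free bottom side: the path starts in `[x₀, x₁] × [y₀, y₁]` and its faces are in
the half-plane `y ≥ y₀`. -/
theorem Conn.toSides {x₀ x₁ y₀ y₁ : ℤ} {u v : ℤ × ℤ} (h : Conn ω F u v)
    (hF : ∀ f ∈ F, y₀ ≤ f.2)
    (hu : x₀ ≤ u.1 ∧ u.1 ≤ x₁ ∧ y₀ ≤ u.2 ∧ u.2 ≤ y₁)
    (hv : ¬ (x₀ < v.1 ∧ v.1 < x₁ ∧ v.2 < y₁)) :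
    ∃ w, Conn ω (F ∩ (RF x₀ x₁ y₀ y₁ : Set (ℤ × ℤ))) u w ∧ (w.1 = x₀ ∨ w.1 = x₁ ∨ w.2 = y₁) := by
  revert hu
  induction h using Relation.ReflTransGen.head_induction_on with
  | refl =>
    intro hu
    refine ⟨v, Relation.ReflTransGen.refl, ?_⟩
    omega
  | @head a c hb hcv ih =>
    intro hu
    by_cases hbd : a.1 = x₀ ∨ a.1 = x₁ ∨ a.2 = y₁
    · exact ⟨a, Relation.ReflTransGen.refl, hbd⟩
    · obtain ⟨x, y, hm, hh⟩ := hb
      have hy : y₀ ≤ y := hF _ hm
      have hface : (x, y) ∈ (RF x₀ x₁ y₀ y₁ : Set (ℤ × ℤ)) ∧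
          (x₀ ≤ c.1 ∧ c.1 ≤ x₁ ∧ y₀ ≤ c.2 ∧ c.2 ≤ y₁) := by
        clear ih
        simp only [RF, coe_product, Set.mem_prod, coe_Ico, Set.mem_Ico]
        rcases hh with ⟨-, ⟨rfl, rfl⟩ | ⟨rfl, rfl⟩⟩ | ⟨-, ⟨rfl, rfl⟩ | ⟨rfl, rfl⟩⟩ <;>
          simp only at hu hbd ⊢ <;> omega
      obtain ⟨w, hw, hw'⟩ := ih hface.2
      exact ⟨w, Relation.ReflTransGen.head ⟨x, y, ⟨hm, hface.1⟩, hh⟩ hw, hw'⟩

namespace GridA

theorem conn_congr {ω ω' : Cfg} (F : Set (ℤ × ℤ)) (h : ∀ f ∈ F, ω f = ω' f) {u v : ℤ × ℤ}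
    (hc : Conn ω F u v) : Conn ω' F u v :=
  conn_lift id (fun _ _ hb => by
    obtain ⟨x, y, hm, hh⟩ := hb
    rw [h _ hm] at hh
    exact ⟨x, y, hm, hh⟩) hc

theorem conn_iff {ω ω' : Cfg} (F : Set (ℤ × ℤ)) (h : ∀ f ∈ F, ω f = ω' f) (u v : ℤ × ℤ) :
    Conn ω F u v ↔ Conn ω' F u v :=
  ⟨conn_congr F h, conn_congr F fun f hf => (h f hf).symm⟩

end GridA

theorem depOn_conn (F : Set (ℤ × ℤ)) (u v : ℤ × ℤ) : DepOn F {ω | Conn ω F u v} :=
  fun _ _ h => GridA.conn_iff F h u v

theorem depOn_hpArm (r : ℤ) : DepOn (RF (-r) r 0 r : Set (ℤ × ℤ)) (hpArm r) := by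
  intro ω ω' h
  simp only [hpArm, Set.mem_ofPred_eq, GridA.conn_iff _ h]

theorem depOn_twoArm (R : ℤ) : DepOn (RF (-R) R (-R) R : Set (ℤ × ℤ)) (twoArm R) := by
  intro ω ω' h
  simp only [twoArm, ToBd, Set.mem_ofPred_eq, GridA.conn_iff _ h]

theorem depOn_LR (c x₀ x₁ y₀ y₁ : ℤ) : DepOn (RF x₀ x₁ y₀ y₁ : Set (ℤ × ℤ)) (LR c x₀ x₁ y₀ y₁) := by
  intro ω ω' h
  simp only [LR, Set.mem_ofPred_eq, GridA.conn_iff _ h]

theorem depOn_BT (c x₀ x₁ y₀ y₁ : ℤ) : DepOn (RF x₀ x₁ y₀ y₁ : Set (ℤ × ℤ)) (BT c x₀ x₁ y₀ y₁) := by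
  intro ω ω' h
  simp only [BT, Set.mem_ofPred_eq, GridA.conn_iff _ h]

theorem incD_conn (c : ℤ) (F : Set (ℤ × ℤ)) {u v : ℤ × ℤ} (hu : (u.1 + u.2 - c) % 2 = 0) :
    IncD (parD c) {ω | Conn ω F u v} := by
  intro ω ω' h hc
  have key : ∀ w, Conn ω F u w → Conn ω' F u w := by
    intro w hw
    induction hw with
    | refl => exact Relation.ReflTransGen.refl
    | @tail a b hab hb ih =>
      refine Relation.ReflTransGen.tail ih ?_
      have hp := Conn.parity hab
      obtain ⟨x, y, hm, hh⟩ := hb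
      refine ⟨x, y, hm, ?_⟩
      have hf := h (x, y)
      simp only [flip, parD] at hf
      rcases hh with ⟨h1, h2⟩ | ⟨h1, h2⟩
      · left
        refine ⟨?_, h2⟩
        have hpar : (x + y - c) % 2 = 0 := by
          rcases h2 with ⟨rfl, -⟩ | ⟨rfl, -⟩ <;> simp only at hp <;> omega
        simpa [hpar, h1] using hf
      · right
        refine ⟨?_, h2⟩
        have hpar : (x + y - c) % 2 ≠ 0 := by
          rcases h2 with ⟨rfl, -⟩ | ⟨rfl, -⟩ <;> simp only at hp <;> omega
        have hpar' : decide ((x + y - c) % 2 ≠ 0) = true := decide_eq_true hpar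
        simp only [hpar', h1] at hf
        simpa using hf
  exact key v hc

end Pool.Agent.Perc

end PartpercGridA

section PartpercGrid



end PartpercGrid

section PartpercDictDefs

/-!
# The dictionary between the square lattice and the face grid: definitions

The vertex `(a, b)` of the square lattice is the vertex `(a + b, a - b)` of the face grid, the unit
square with lower left corner `(a, b)` is the vertex `(a + b + 1, a - b)`.
-/

set_option autoImplicit false

namespace Pool.Agent.Perc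

open Finset

/-- The face of an edge. -/
def phiE (e : Edg) : ℤ × ℤ := if e.2.2 then (e.1 + e.2.1, e.1 - e.2.1 - 1) else (e.1 + e.2.1, e.1 - e.2.1)

/-- The vertex of the face grid. -/
def phiV (v : ℤ × ℤ) : ℤ × ℤ := (v.1 + v.2, v.1 - v.2)

/-- The open edges of the box. -/
noncomputable def cfgE (n : ℕ) (ω : Cfg) : Finset Edg :=
  (boxE n).filter fun e => ω (phiE e) = !e.2.2

/-- Two arms of `v` and of its upper right square. -/
def twoArmAt (R : ℤ) (v : ℤ × ℤ) : Set Cfg :=
  {ω | ToBd ((phiV v).1 - R) ((phiV v).1 + R) ((phiV v).2 - R) ((phiV v).2 + R) ω (phiV v) ∧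
    ToBd ((phiV v).1 - R) ((phiV v).1 + R) ((phiV v).2 - R) ((phiV v).2 + R) ω
      ((phiV v).1 + 1, (phiV v).2)}

end Pool.Agent.Perc

end PartpercDictDefs

section PartpercDictB

/-!
# The dictionary: the primal arm (task DictB)
-/

set_option autoImplicit false

namespace Pool.Agent.Perc

open Finset

namespace DictB

theorem mem_Box {n : ℕ} {v : ℤ × ℤ} :
    v ∈ Box n ↔ (0 ≤ v.1 ∧ v.1 ≤ n) ∧ (0 ≤ v.2 ∧ v.2 ≤ n) := by
  unfold Box
  rw [Finset.mem_product, Finset.mem_Icc, Finset.mem_Icc]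

theorem mem_boxE {n : ℕ} {e : Edg} : e ∈ boxE n ↔ tl e ∈ Box n ∧ hd e ∈ Box n := by
  unfold boxE
  rw [Finset.mem_filter, Finset.mem_product, Finset.mem_product, mem_Box (v := tl e),
    Finset.mem_Icc, Finset.mem_Icc]
  simp only [Finset.mem_univ, and_true]
  exact Iff.rfl

theorem mem_cfgE {n : ℕ} {ω : Cfg} {e : Edg} :
    e ∈ cfgE n ω ↔ e ∈ boxE n ∧ ω (phiE e) = !e.2.2 := by
  unfold cfgE
  rw [Finset.mem_filter]

theorem cfgE_subset (n : ℕ) (ω : Cfg) : cfgE n ω ⊆ boxE n := Finset.filter_subset _ _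

theorem clV_box {n : ℕ} {T : Finset Edg} (hT : T ⊆ boxE n) {v w : ℤ × ℤ} (hv : v ∈ Box n)
    (hw : w ∈ clV T v) : w ∈ Box n := by
  unfold clV at hw
  simp only [Set.mem_ofPred_eq] at hw
  induction hw with
  | refl => exact hv
  | tail _ h _ =>
    obtain ⟨e, he, h1 | h1⟩ := h
    · rw [← h1.2]
      exact (mem_boxE.1 (hT he)).2
    · rw [← h1.1]
      exact (mem_boxE.1 (hT he)).1

/-- Every point of the cluster lies in the square. -/
theorem clS_box {n : ℕ} {T : Finset Edg} (hT : T ⊆ boxE n) {v : ℤ × ℤ} (hv : v ∈ Box n)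
    {p : ℂ} (hp : p ∈ clS T v) : (0 ≤ p.re ∧ p.re ≤ n) ∧ (0 ≤ p.im ∧ p.im ≤ n) := by
  have key : ∀ w ∈ Box n, (0 ≤ (toC w).re ∧ (toC w).re ≤ n) ∧ (0 ≤ (toC w).im ∧ (toC w).im ≤ n) := by
    intro w hw
    rw [mem_Box] at hw
    obtain ⟨⟨h1, h2⟩, h3, h4⟩ := hw
    have e1 : (toC w).re = w.1 := by simp [toC]
    have e2 : (toC w).im = w.2 := by simp [toC]
    rw [e1, e2]
    refine ⟨⟨by exact_mod_cast h1, by exact_mod_cast h2⟩, by exact_mod_cast h3, by exact_mod_cast h4⟩
  unfold clS at hp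
  rcases hp with hp | hp
  · obtain ⟨w, hw, rfl⟩ := hp
    exact key w (clV_box hT hv hw)
  · simp only [Set.mem_iUnion] at hp
    obtain ⟨e, he, h1, h2⟩ := hp
    have k1 := key _ (mem_boxE.1 (hT he)).1
    have k2 := key _ (mem_boxE.1 (hT he)).2
    obtain ⟨a, b, ha, hb, hab, rfl⟩ := h2
    obtain ⟨⟨a1, a2⟩, a3, a4⟩ := k1
    obtain ⟨⟨b1, b2⟩, b3, b4⟩ := k2
    simp only [Complex.add_re, Complex.add_im, Complex.real_smul, Complex.mul_re, Complex.mul_im,
      Complex.ofReal_re, Complex.ofReal_im, zero_mul, sub_zero, add_zero]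
    have hb' : b = 1 - a := by linarith
    subst hb'
    refine ⟨⟨by positivity, ?_⟩, by positivity, ?_⟩
    · nlinarith
    · nlinarith

theorem clS_bounded {n : ℕ} {T : Finset Edg} (hT : T ⊆ boxE n) {v : ℤ × ℤ} (hv : v ∈ Box n) :
    Bornology.IsBounded (clS T v) := by
  refine (Metric.isBounded_closedBall (x := (0 : ℂ)) (r := (n : ℝ) + n)).subset fun p hp => ?_
  obtain ⟨⟨h1, h2⟩, h3, h4⟩ := clS_box hT hv hp
  rw [Metric.mem_closedBall, dist_zero_right]
  refine (Complex.norm_le_abs_re_add_abs_im p).trans ?_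
  rw [abs_of_nonneg h1, abs_of_nonneg h3]
  exact add_le_add h2 h4

end DictB

open DictB

/-- The primal arm. -/
theorem diam_ge_of_twoArmAt {n : ℕ} {R : ℤ} (hR : 2 * (n : ℤ) < R) {v : ℤ × ℤ} {ω : Cfg}
    (hω : ω ∈ twoArmAt R v) (hv : v ∈ Box n) {d : ℕ}
    (hd : (d : ℤ) ≤ v.1 ∧ (d : ℤ) ≤ n - v.1 ∧ (d : ℤ) ≤ v.2 ∧ (d : ℤ) ≤ n - v.2) :
    (d : ℝ) ≤ Metric.diam (clS (cfgE n ω) v) := by
  have hv' := mem_Box.1 hv
  -- the invariant
  have inv : ∀ (F : Set (ℤ × ℤ)) (z : ℤ × ℤ), Conn ω F (phiV v) z →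
      (∃ w, z = phiV w ∧ w ∈ Box n ∧ w ∈ clV (cfgE n ω) v) ∨
        (∃ u ∈ clV (cfgE n ω) v, u ∈ Box n ∧ (u.1 = 0 ∨ u.1 = n ∨ u.2 = 0 ∨ u.2 = n)) := by
    intro F z hz
    induction hz with
    | refl => exact Or.inl ⟨v, rfl, hv, Relation.ReflTransGen.refl⟩
    | @tail z z' _ h ih =>
      rcases ih with ⟨w, rfl, hw, hwc⟩ | ih
      · have hw' := mem_Box.1 hw
        -- it is enough to find the edge
        have key : ∀ (e : Edg) (w' : ℤ × ℤ), ((tl e = w ∧ Perc.hd e = w') ∨ (tl e = w' ∧ Perc.hd e = w)) →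
            ω (phiE e) = !e.2.2 → z' = phiV w' →
            (∃ w, z' = phiV w ∧ w ∈ Box n ∧ w ∈ clV (cfgE n ω) v) ∨
            (∃ u ∈ clV (cfgE n ω) v, u ∈ Box n ∧ (u.1 = 0 ∨ u.1 = n ∨ u.2 = 0 ∨ u.2 = n)) := by
          intro e w' he hst hz'
          by_cases hwb : w' ∈ Box n
          · left
            refine ⟨w', hz', hwb, ?_⟩
            have heb : e ∈ cfgE n ω := by
              rw [mem_cfgE, mem_boxE]
              refine ⟨?_, hst⟩
              rcases he with ⟨h1, h2⟩ | ⟨h1, h2⟩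
              · rw [h1, h2]
                exact ⟨hw, hwb⟩
              · rw [h1, h2]
                exact ⟨hwb, hw⟩
            exact Relation.ReflTransGen.tail hwc ⟨e, heb, he⟩
          · right
            refine ⟨w, hwc, hw, ?_⟩
            by_contra hcon
            push Not at hcon
            apply hwb
            rw [mem_Box]
            obtain ⟨a, b, c⟩ := e
            cases c
            · simp only [tl, Perc.hd, Bool.false_eq_true, if_false] at he
              rcases he with ⟨h1, h2⟩ | ⟨h1, h2⟩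
              · have e1 := congrArg Prod.fst h1
                have e2 := congrArg Prod.snd h1
                have e3 := congrArg Prod.fst h2
                have e4 := congrArg Prod.snd h2
                simp only at e1 e2 e3 e4
                omega
              · have e1 := congrArg Prod.fst h1
                have e2 := congrArg Prod.snd h1
                have e3 := congrArg Prod.fst h2
                have e4 := congrArg Prod.snd h2
                simp only at e1 e2 e3 e4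
                omega
            · simp only [tl, Perc.hd, if_true] at he
              rcases he with ⟨h1, h2⟩ | ⟨h1, h2⟩
              · have e1 := congrArg Prod.fst h1
                have e2 := congrArg Prod.snd h1
                have e3 := congrArg Prod.fst h2
                have e4 := congrArg Prod.snd h2
                simp only at e1 e2 e3 e4
                omega
              · have e1 := congrArg Prod.fst h1
                have e2 := congrArg Prod.snd h1
                have e3 := congrArg Prod.fst h2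
                have e4 := congrArg Prod.snd h2
                simp only at e1 e2 e3 e4
                omega
        obtain ⟨x, y, _, h⟩ := h
        rcases h with ⟨hs, ⟨h1, h2⟩ | ⟨h1, h2⟩⟩ | ⟨hs, ⟨h1, h2⟩ | ⟨h1, h2⟩⟩
        · -- `w` is the lower left corner, edge `(w.1, w.2, false)`
          have e1 := congrArg Prod.fst h1
          have e2 := congrArg Prod.snd h1
          simp only [phiV] at e1 e2
          refine key (w.1, w.2, false) (w.1 + 1, w.2) (Or.inl ⟨by simp [tl], by simp [Perc.hd]⟩) ?_ ?_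
          · have : phiE (w.1, w.2, false) = (x, y) := by
              simp [phiE, e1, e2]
            rw [this, hs]
            rfl
          · rw [h2]
            simp only [phiV]
            ext
            · simp only
              omega
            · simp only
              omega
        · have e1 := congrArg Prod.fst h1
          have e2 := congrArg Prod.snd h1
          simp only [phiV] at e1 e2
          refine key (w.1 - 1, w.2, false) (w.1 - 1, w.2) (Or.inr ⟨by simp [tl], by simp [Perc.hd]⟩) ?_ ?_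
          · have : phiE (w.1 - 1, w.2, false) = (x, y) := by
              simp only [phiE, Bool.false_eq_true, if_false]
              ext
              · simp only
                omega
              · simp only
                omega
            rw [this, hs]
            rfl
          · rw [h2]
            simp only [phiV]
            ext
            · simp only
              omega
            · simp only
              omega
        · have e1 := congrArg Prod.fst h1
          have e2 := congrArg Prod.snd h1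
          simp only [phiV] at e1 e2
          refine key (w.1, w.2, true) (w.1, w.2 + 1) (Or.inl ⟨by simp [tl], by simp [Perc.hd]⟩) ?_ ?_
          · have : phiE (w.1, w.2, true) = (x, y) := by
              simp only [phiE, if_true]
              ext
              · simp only
                omega
              · simp only
                omega
            rw [this, hs]
            rfl
          · rw [h2]
            simp only [phiV]
            ext
            · simp only
              omega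
            · simp only
              omega
        · have e1 := congrArg Prod.fst h1
          have e2 := congrArg Prod.snd h1
          simp only [phiV] at e1 e2
          refine key (w.1, w.2 - 1, true) (w.1, w.2 - 1) (Or.inr ⟨by simp [tl], by simp [Perc.hd]⟩) ?_ ?_
          · have : phiE (w.1, w.2 - 1, true) = (x, y) := by
              simp only [phiE, if_true]
              ext
              · simp only
                omega
              · simp only
                omega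
            rw [this, hs]
            rfl
          · rw [h2]
            simp only [phiV]
            ext
            · simp only
              omega
            · simp only
              omega
      · exact Or.inr ih
  -- a vertex of the cluster on the boundary of the box
  have hu : ∃ u ∈ clV (cfgE n ω) v, u ∈ Box n ∧ (u.1 = 0 ∨ u.1 = n ∨ u.2 = 0 ∨ u.2 = n) := by
    obtain ⟨z, hz, hzb⟩ := hω.1
    rcases inv _ z hz with ⟨w, rfl, hw, _⟩ | h
    · exfalso
      have hw' := mem_Box.1 hw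
      obtain ⟨h1, h2, h3, h4, h5⟩ := hzb
      simp only [phiV] at h1 h2 h3 h4 h5
      omega
    · exact h
  obtain ⟨u, huc, hub, hu⟩ := hu
  have h1 : toC v ∈ clS (cfgE n ω) v :=
    Or.inl ⟨v, Relation.ReflTransGen.refl, rfl⟩
  have h2 : toC u ∈ clS (cfgE n ω) v := Or.inl ⟨u, huc, rfl⟩
  refine le_trans ?_ (Metric.dist_le_diam_of_mem (clS_bounded (cfgE_subset n ω) hv) h1 h2)
  rw [dist_eq_norm]
  have e1 : (toC v - toC u).re = ((v.1 - u.1 : ℤ) : ℝ) := by simp [toC]
  have e2 : (toC v - toC u).im = ((v.2 - u.2 : ℤ) : ℝ) := by simp [toC]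
  have n1 := Complex.abs_re_le_norm (toC v - toC u)
  have n2 := Complex.abs_im_le_norm (toC v - toC u)
  rw [e1] at n1
  rw [e2] at n2
  have hdd : (d : ℤ) ≤ |v.1 - u.1| ∨ (d : ℤ) ≤ |v.2 - u.2| := by
    rcases hu with h | h | h | h
    · left
      rw [h]
      exact le_abs.2 (Or.inl (by omega))
    · left
      rw [h]
      exact le_abs.2 (Or.inr (by omega))
    · right
      rw [h]
      exact le_abs.2 (Or.inl (by omega))
    · right
      rw [h]
      exact le_abs.2 (Or.inr (by omega))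
  rcases hdd with h | h
  · refine le_trans ?_ n1
    have : ((d : ℤ) : ℝ) ≤ ((|v.1 - u.1| : ℤ) : ℝ) := by exact_mod_cast h
    rw [Int.cast_abs] at this
    exact_mod_cast this
  · refine le_trans ?_ n2
    have : ((d : ℤ) : ℝ) ≤ ((|v.2 - u.2| : ℤ) : ℝ) := by exact_mod_cast h
    rw [Int.cast_abs] at this
    exact_mod_cast this

end Pool.Agent.Perc

end PartpercDictB

section PartpercDictC

/-!
# The dictionary: the dual arm (task DictC)
-/

set_option autoImplicit false

namespace Pool.Agent.Perc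

open Finset

namespace DictC

open DictB

/-- The vertex of the face grid of the unit square with lower left corner `f`. -/
def phiF (f : ℤ × ℤ) : ℤ × ℤ := (f.1 + f.2 + 1, f.1 - f.2)

theorem toC_re (v : ℤ × ℤ) : (toC v).re = v.1 := by simp [toC]

theorem toC_im (v : ℤ × ℤ) : (toC v).im = v.2 := by simp [toC]

theorem ctr_re (f : ℤ × ℤ) : (ctr f).re = f.1 + 1 / 2 := by
  simp [ctr, toC]

theorem ctr_im (f : ℤ × ℤ) : (ctr f).im = f.2 + 1 / 2 := by
  simp [ctr, toC]

theorem int_eq_of {a b : ℤ} {x : ℝ} (h1 : (a : ℝ) - 1 < x) (h2 : x < a + 1) (h3 : x = b) :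
    b = a := by
  subst h3
  have h1' : a - 1 < b := by exact_mod_cast h1
  have h2' : b < a + 1 := by exact_mod_cast h2
  omega

/-- A point of the plane on the segment of a horizontal edge. -/
theorem seg_h {a b : ℤ} {p : ℂ} (hp : p ∈ segment ℝ (toC (a, b)) (toC (a + 1, b))) :
    (a : ℝ) ≤ p.re ∧ p.re ≤ a + 1 ∧ p.im = b := by
  obtain ⟨s, t, hs, ht, hst, rfl⟩ := hp
  simp only [Complex.add_re, Complex.add_im, Complex.real_smul, Complex.mul_re, Complex.mul_im,
      Complex.ofReal_re, Complex.ofReal_im, zero_mul, sub_zero, add_zero, toC_re, toC_im]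
  have : s = 1 - t := by linarith
  subst this
  push_cast
  refine ⟨by nlinarith, by nlinarith, by ring⟩

/-- A point of the plane on the segment of a vertical edge. -/
theorem seg_v {a b : ℤ} {p : ℂ} (hp : p ∈ segment ℝ (toC (a, b)) (toC (a, b + 1))) :
    p.re = a ∧ (b : ℝ) ≤ p.im ∧ p.im ≤ b + 1 := by
  obtain ⟨s, t, hs, ht, hst, rfl⟩ := hp
  simp only [Complex.add_re, Complex.add_im, Complex.real_smul, Complex.mul_re, Complex.mul_im,
      Complex.ofReal_re, Complex.ofReal_im, zero_mul, sub_zero, add_zero, toC_re, toC_im]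
  have : s = 1 - t := by linarith
  subst this
  push_cast
  refine ⟨by ring, by nlinarith, by nlinarith⟩

/-- The points of the cluster: at least one coordinate is an integer; precisely a point lies on an
open edge or is a vertex. -/
theorem clS_cases {T : Finset Edg} {v : ℤ × ℤ} {p : ℂ} (hp : p ∈ clS T v) :
    (∃ w : ℤ × ℤ, p.re = w.1 ∧ p.im = w.2) ∨
    (∃ a b : ℤ, (a, b, false) ∈ T ∧ (a : ℝ) ≤ p.re ∧ p.re ≤ a + 1 ∧ p.im = b) ∨
    (∃ a b : ℤ, (a, b, true) ∈ T ∧ p.re = a ∧ (b : ℝ) ≤ p.im ∧ p.im ≤ b + 1) := by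
  unfold clS at hp
  rcases hp with ⟨w, _, rfl⟩ | hp
  · exact Or.inl ⟨w, toC_re w, toC_im w⟩
  · simp only [Set.mem_iUnion] at hp
    obtain ⟨⟨a, b, c⟩, he, _, h⟩ := hp
    cases c
    · right
      left
      have h' : p ∈ segment ℝ (toC (a, b)) (toC (a + 1, b)) := by simpa [tl, hd] using h
      exact ⟨a, b, he, seg_h h'⟩
    · right
      right
      have h' : p ∈ segment ℝ (toC (a, b)) (toC (a, b + 1)) := by simpa [tl, hd] using h
      exact ⟨a, b, he, seg_v h'⟩

theorem half_ne (a b : ℤ) : ((a : ℝ) + 1 / 2) ≠ b := by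
  intro h
  have : ((2 * a + 1 : ℤ) : ℝ) = ((2 * b : ℤ) : ℝ) := by
    push_cast
    linarith
  have := Int.cast_injective (α := ℝ) this
  omega

/-- The horizontal segment between the centres of two squares is disjoint from the cluster if the
edge between them is closed. -/
theorem seg_ctr_h {T : Finset Edg} {v : ℤ × ℤ} {a b : ℤ} (he : (a + 1, b, true) ∉ T) :
    segment ℝ (ctr (a, b)) (ctr (a + 1, b)) ⊆ (clS T v)ᶜ := by
  intro p hp hcl
  have hp' : (a : ℝ) + 1 / 2 ≤ p.re ∧ p.re ≤ a + 1 + 1 / 2 ∧ p.im = b + 1 / 2 := by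
    obtain ⟨s, t, hs, ht, hst, rfl⟩ := hp
    simp only [Complex.add_re, Complex.add_im, Complex.real_smul, Complex.mul_re, Complex.mul_im,
      Complex.ofReal_re, Complex.ofReal_im, zero_mul, sub_zero, add_zero, ctr_re, ctr_im]
    have : s = 1 - t := by linarith
    subst this
    push_cast
    refine ⟨by nlinarith, by nlinarith, by ring⟩
  obtain ⟨h1, h2, h3⟩ := hp'
  rcases clS_cases hcl with ⟨w, hw1, hw2⟩ | ⟨c, d, _, _, _, h6⟩ | ⟨c, d, hT, h4, h5, h6⟩
  · exact half_ne b w.2 (by rw [← h3, hw2])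
  · exact half_ne b d (by rw [← h3, h6])
  · have hc : c = a + 1 := by
      refine int_eq_of (x := p.re) ?_ ?_ h4
      · push_cast
        linarith
      · push_cast
        linarith
    have hd : d = b := by
      rw [h3] at h5 h6
      have h5' : ((2 * d : ℤ) : ℝ) ≤ ((2 * b + 1 : ℤ) : ℝ) := by
        push_cast
        linarith
      have h6' : ((2 * b + 1 : ℤ) : ℝ) ≤ ((2 * d + 2 : ℤ) : ℝ) := by
        push_cast
        linarith
      have h5'' := Int.cast_le.1 h5'
      have h6'' := Int.cast_le.1 h6'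
      omega
    subst hc
    subst hd
    exact he hT

/-- The vertical segment between the centres of two squares. -/
theorem seg_ctr_v {T : Finset Edg} {v : ℤ × ℤ} {a b : ℤ} (he : (a, b + 1, false) ∉ T) :
    segment ℝ (ctr (a, b)) (ctr (a, b + 1)) ⊆ (clS T v)ᶜ := by
  intro p hp hcl
  have hp' : p.re = a + 1 / 2 ∧ (b : ℝ) + 1 / 2 ≤ p.im ∧ p.im ≤ b + 1 + 1 / 2 := by
    obtain ⟨s, t, hs, ht, hst, rfl⟩ := hp
    simp only [Complex.add_re, Complex.add_im, Complex.real_smul, Complex.mul_re, Complex.mul_im,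
      Complex.ofReal_re, Complex.ofReal_im, zero_mul, sub_zero, add_zero, ctr_re, ctr_im]
    have : s = 1 - t := by linarith
    subst this
    push_cast
    refine ⟨by ring, by nlinarith, by nlinarith⟩
  obtain ⟨h1, h2, h3⟩ := hp'
  rcases clS_cases hcl with ⟨w, hw1, hw2⟩ | ⟨c, d, hT, h4, h5, h6⟩ | ⟨c, d, _, h4, _, _⟩
  · exact half_ne a w.1 (by rw [← h1, hw1])
  · have hd : d = b + 1 := by
      refine int_eq_of (x := p.im) ?_ ?_ h6
      · push_cast
        linarith
      · push_cast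
        linarith
    have hc : c = a := by
      rw [h1] at h4 h5
      have h5' : ((2 * c : ℤ) : ℝ) ≤ ((2 * a + 1 : ℤ) : ℝ) := by
        push_cast
        linarith
      have h6' : ((2 * a + 1 : ℤ) : ℝ) ≤ ((2 * c + 2 : ℤ) : ℝ) := by
        push_cast
        linarith
      have h5'' := Int.cast_le.1 h5'
      have h6'' := Int.cast_le.1 h6'
      omega
    subst hc
    subst hd
    exact he hT
  · exact half_ne a c (by rw [← h1, h4])

theorem ctr_notMem (T : Finset Edg) (v f : ℤ × ℤ) : ctr f ∈ (clS T v)ᶜ := by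
  intro hcl
  rcases clS_cases hcl with ⟨w, hw1, hw2⟩ | ⟨c, d, hT, h4, h5, h6⟩ | ⟨c, d, _, h4, _, _⟩
  · rw [ctr_re] at hw1
    exact half_ne _ _ hw1
  · rw [ctr_im] at h6
    exact half_ne _ _ h6
  · rw [ctr_re] at h4
    exact half_ne _ _ h4

/-- Moving along a segment in the complement. -/
theorem comp_of_seg {K : Set ℂ} {x y z : ℂ} (hy : y ∈ connectedComponentIn Kᶜ x)
    (h : segment ℝ y z ⊆ Kᶜ) : z ∈ connectedComponentIn Kᶜ x := by
  rw [connectedComponentIn_eq hy]
  exact (convex_segment y z).isPreconnected.subset_connectedComponentIn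
    (left_mem_segment ℝ y z) h (right_mem_segment ℝ y z)

end DictC

open DictB DictC

/-- The dual arm. -/
theorem outer_of_twoArmAt {n : ℕ} {R : ℤ} (hR : 2 * (n : ℤ) < R) {v : ℤ × ℤ} {ω : Cfg}
    (hω : ω ∈ twoArmAt R v) (hv : v ∈ Box n) : Outer (cfgE n ω) v v := by
  have hv' := mem_Box.1 hv
  set K := clS (cfgE n ω) v with hK
  -- the invariant
  have inv : ∀ (F : Set (ℤ × ℤ)) (z : ℤ × ℤ), Conn ω F (phiF v) z →
      ∃ f, z = phiF f ∧ ctr f ∈ connectedComponentIn Kᶜ (ctr v) := by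
    intro F z hz
    induction hz with
    | refl => exact ⟨v, rfl, mem_connectedComponentIn (ctr_notMem _ _ _)⟩
    | @tail z z' _ h ih =>
      obtain ⟨f, rfl, hf⟩ := ih
      obtain ⟨x, y, _, h⟩ := h
      rcases h with ⟨hs, ⟨h1, h2⟩ | ⟨h1, h2⟩⟩ | ⟨hs, ⟨h1, h2⟩ | ⟨h1, h2⟩⟩
      · have e1 := congrArg Prod.fst h1
        have e2 := congrArg Prod.snd h1
        simp only [phiF] at e1 e2
        refine ⟨(f.1 + 1, f.2), ?_, comp_of_seg hf (seg_ctr_h ?_)⟩
        · rw [h2]
          simp only [phiF]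
          ext
          · simp only
            omega
          · simp only
            omega
        · intro he
          have h3 := (mem_cfgE.1 he).2
          have : phiE (f.1 + 1, f.2, true) = (x, y) := by
            simp only [phiE, if_true]
            ext
            · simp only
              omega
            · simp only
              omega
          rw [this, hs] at h3
          simp at h3
      · have e1 := congrArg Prod.fst h1
        have e2 := congrArg Prod.snd h1
        simp only [phiF] at e1 e2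
        refine ⟨(f.1 - 1, f.2), ?_, comp_of_seg hf ?_⟩
        · rw [h2]
          simp only [phiF]
          ext
          · simp only
            omega
          · simp only
            omega
        · rw [segment_symm]
          have h4 : ctr f = ctr (f.1 - 1 + 1, f.2) := by
            congr 1
            ext <;> simp
          rw [h4]
          refine seg_ctr_h ?_
          intro he
          have h3 := (mem_cfgE.1 he).2
          have : phiE (f.1 - 1 + 1, f.2, true) = (x, y) := by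
            simp only [phiE, if_true]
            ext
            · simp only
              omega
            · simp only
              omega
          rw [this, hs] at h3
          simp at h3
      · have e1 := congrArg Prod.fst h1
        have e2 := congrArg Prod.snd h1
        simp only [phiF] at e1 e2
        refine ⟨(f.1, f.2 + 1), ?_, comp_of_seg hf (seg_ctr_v ?_)⟩
        · rw [h2]
          simp only [phiF]
          ext
          · simp only
            omega
          · simp only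
            omega
        · intro he
          have h3 := (mem_cfgE.1 he).2
          have : phiE (f.1, f.2 + 1, false) = (x, y) := by
            simp only [phiE, Bool.false_eq_true, if_false]
            ext
            · simp only
              omega
            · simp only
              omega
          rw [this, hs] at h3
          simp at h3
      · have e1 := congrArg Prod.fst h1
        have e2 := congrArg Prod.snd h1
        simp only [phiF] at e1 e2
        refine ⟨(f.1, f.2 - 1), ?_, comp_of_seg hf ?_⟩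
        · rw [h2]
          simp only [phiF]
          ext
          · simp only
            omega
          · simp only
            omega
        · rw [segment_symm]
          have h4 : ctr f = ctr (f.1, f.2 - 1 + 1) := by
            congr 1
            ext <;> simp
          rw [h4]
          refine seg_ctr_v ?_
          intro he
          have h3 := (mem_cfgE.1 he).2
          have : phiE (f.1, f.2 - 1 + 1, false) = (x, y) := by
            simp only [phiE, Bool.false_eq_true, if_false]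
            ext
            · simp only
              omega
            · simp only
              omega
          rw [this, hs] at h3
          simp at h3
  -- a square outside the box
  obtain ⟨f, hf, hfo⟩ : ∃ f : ℤ × ℤ, ctr f ∈ connectedComponentIn Kᶜ (ctr v) ∧
      (f.1 < 0 ∨ n ≤ f.1 ∨ f.2 < 0 ∨ n ≤ f.2) := by
    obtain ⟨z, hz, hzb⟩ := hω.2
    have h0 : ((phiV v).1 + 1, (phiV v).2) = phiF v := rfl
    rw [h0] at hz
    obtain ⟨f, rfl, hf⟩ := inv _ z hz
    refine ⟨f, hf, ?_⟩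
    by_contra hcon
    push Not at hcon
    obtain ⟨h1, h2, h3, h4, h5⟩ := hzb
    simp only [phiV, phiF] at h1 h2 h3 h4 h5
    omega
  -- the ray
  have hray : ∃ u : ℂ, ‖u‖ = 1 ∧ ∀ t : ℝ, 0 ≤ t → ctr f + t • u ∈ Kᶜ := by
    have out : ∀ p : ℂ, (p.re < 0 ∨ (n : ℝ) < p.re ∨ p.im < 0 ∨ (n : ℝ) < p.im) → p ∈ Kᶜ := by
      intro p hp hcl
      obtain ⟨⟨h1, h2⟩, h3, h4⟩ := clS_box (cfgE_subset n ω) hv hcl
      rcases hp with h | h | h | h <;> linarith
    rcases hfo with h | h | h | h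
    · refine ⟨-1, by simp, fun t ht => out _ (Or.inl ?_)⟩
      have h' : (f.1 : ℝ) ≤ -1 := by exact_mod_cast (by omega : f.1 ≤ -1)
      simp only [Complex.add_re, Complex.real_smul, Complex.mul_re, Complex.ofReal_re,
        Complex.ofReal_im, zero_mul, sub_zero, ctr_re, Complex.neg_re, Complex.one_re]
      linarith
    · refine ⟨1, by simp, fun t ht => out _ (Or.inr (Or.inl ?_))⟩
      have h' : (n : ℝ) ≤ f.1 := by exact_mod_cast h
      simp only [Complex.add_re, Complex.real_smul, Complex.mul_re, Complex.ofReal_re,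
        Complex.ofReal_im, zero_mul, sub_zero, ctr_re, Complex.one_re]
      linarith
    · refine ⟨-Complex.I, by simp, fun t ht => out _ (Or.inr (Or.inr (Or.inl ?_)))⟩
      have h' : (f.2 : ℝ) ≤ -1 := by exact_mod_cast (by omega : f.2 ≤ -1)
      simp only [Complex.add_im, Complex.real_smul, Complex.mul_im, Complex.ofReal_re,
        Complex.ofReal_im, zero_mul, add_zero, ctr_im, Complex.neg_im, Complex.I_im]
      linarith
    · refine ⟨Complex.I, by simp, fun t ht => out _ (Or.inr (Or.inr (Or.inr ?_)))⟩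
      have h' : (n : ℝ) ≤ f.2 := by exact_mod_cast h
      simp only [Complex.add_im, Complex.real_smul, Complex.mul_im, Complex.ofReal_re,
        Complex.ofReal_im, zero_mul, add_zero, ctr_im, Complex.I_im]
      linarith
  obtain ⟨u, hu1, hu⟩ := hray
  intro hb
  obtain ⟨C, hC⟩ := hb.exists_norm_le
  have hmem : ∀ t : ℝ, 0 ≤ t → ctr f + t • u ∈ connectedComponentIn Kᶜ (ctr v) := by
    intro t ht
    refine comp_of_seg hf ?_
    intro p hp
    rw [segment_eq_image'] at hp
    obtain ⟨s, ⟨hs0, _⟩, rfl⟩ := hp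
    have : ctr f + s • (ctr f + t • u - ctr f) = ctr f + (s * t) • u := by
      rw [add_sub_cancel_left, smul_smul]
    simp only [this]
    exact hu _ (by positivity)
  have hn : 0 ≤ ‖ctr f‖ + |C| + 1 := by positivity
  have h1 := hC _ (hmem (‖ctr f‖ + |C| + 1) hn)
  have h2 : ‖(‖ctr f‖ + |C| + 1) • u‖ = ‖ctr f‖ + |C| + 1 := by
    rw [norm_smul, hu1, mul_one, Real.norm_of_nonneg hn]
  have h3 := norm_sub_le (ctr f + (‖ctr f‖ + |C| + 1) • u) (ctr f)
  rw [add_sub_cancel_left, h2] at h3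
  have h4 := le_abs_self C
  linarith

end Pool.Agent.Perc

end PartpercDictC

section PartpercDictA

/-!
# The dictionary: laws (task DictA)
-/

set_option autoImplicit false

namespace Pool.Agent.Perc

open Finset

theorem phiE_injective : Function.Injective phiE := by
  rintro ⟨x, y, b⟩ ⟨x', y', b'⟩ h
  cases b <;> cases b' <;> simp only [phiE, Prod.mk.injEq, if_true, if_false, Bool.false_eq_true] at h ⊢
  · refine ⟨by omega, by omega, trivial⟩
  · omega
  · omega
  · refine ⟨by omega, by omega, trivial⟩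

namespace DictA

open Classical in
/-- the inverse map: the window faces with value `true` -/
noncomputable def jU (n : ℕ) (U : Finset Edg) : Finset (ℤ × ℤ) :=
  ((boxE n).filter fun e => decide (e ∈ U) = !e.2.2).image phiE

lemma mem_jU {n : ℕ} {U : Finset Edg} {e : Edg} (he : e ∈ boxE n) :
    phiE e ∈ jU n U ↔ decide (e ∈ U) = !e.2.2 := by
  classical
  rw [jU, Finset.mem_image]
  constructor
  · rintro ⟨e', he', h⟩
    rw [← phiE_injective h]
    exact (Finset.mem_filter.1 he').2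
  · intro h
    exact ⟨e, Finset.mem_filter.2 ⟨he, h⟩, rfl⟩

lemma mem_cfgE {n : ℕ} {T : Finset (ℤ × ℤ)} {e : Edg} :
    e ∈ cfgE n (cfg T) ↔ e ∈ boxE n ∧ decide (phiE e ∈ T) = !e.2.2 := by
  rw [cfgE, Finset.mem_filter]
  rfl

lemma right_inv {n : ℕ} {U : Finset Edg} (hU : U ⊆ boxE n) : cfgE n (cfg (jU n U)) = U := by
  ext e
  rw [mem_cfgE]
  constructor
  · rintro ⟨he, h⟩
    by_contra hcon
    have h1 := mem_jU (U := U) he
    rw [decide_eq_false hcon] at h1
    cases hb : e.2.2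
    · rw [hb] at h1 h
      simp only [Bool.not_false, decide_eq_true_eq] at h
      exact absurd (h1.1 h) (by simp)
    · rw [hb] at h1 h
      simp only [Bool.not_true, decide_eq_false_iff_not] at h
      exact h (h1.2 (by simp))
  · intro he
    refine ⟨hU he, ?_⟩
    have h1 := mem_jU (U := U) (hU he)
    rw [decide_eq_true he] at h1
    cases hb : e.2.2
    · rw [hb] at h1
      simpa using h1
    · rw [hb] at h1
      simpa using h1

lemma left_inv {n : ℕ} {T : Finset (ℤ × ℤ)} (hT : T ⊆ (boxE n).image phiE) :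
    jU n (cfgE n (cfg T)) = T := by
  classical
  have key : ∀ e ∈ boxE n, (phiE e ∈ jU n (cfgE n (cfg T)) ↔ phiE e ∈ T) := by
    intro e he
    rw [mem_jU he]
    by_cases h : phiE e ∈ T
    · cases hb : e.2.2
      · have : e ∈ cfgE n (cfg T) := mem_cfgE.2 ⟨he, by rw [hb]; simpa using h⟩
        simp [this, h]
      · have : e ∉ cfgE n (cfg T) := fun h' => by
          have := (mem_cfgE.1 h').2
          rw [hb] at this
          simp [h] at this
        simp [this, h]
    · cases hb : e.2.2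
      · have : e ∉ cfgE n (cfg T) := fun h' => by
          have := (mem_cfgE.1 h').2
          rw [hb] at this
          simp [h] at this
        simp [this, h]
      · have : e ∈ cfgE n (cfg T) := mem_cfgE.2 ⟨he, by rw [hb]; simpa using h⟩
        simp [this, h]
  ext f
  constructor
  · intro hf
    have hf' := hf
    rw [jU, Finset.mem_image] at hf'
    obtain ⟨e, he, rfl⟩ := hf'
    exact (key e (Finset.mem_filter.1 he).1).1 hf
  · intro hf
    obtain ⟨e, he, rfl⟩ := Finset.mem_image.1 (hT hf)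
    exact (key e he).2 hf

lemma depOn_cfgE (n : ℕ) (A : Set (Finset Edg)) :
    DepOn ((boxE n).image phiE : Finset (ℤ × ℤ)) {ω | cfgE n ω ∈ A} := by
  intro ω ω' h
  have : cfgE n ω = cfgE n ω' := by
    rw [cfgE, cfgE]
    refine Finset.filter_congr fun e he => ?_
    rw [h (phiE e) (Finset.mem_coe.2 (Finset.mem_image_of_mem _ he))]
  show cfgE n ω ∈ A ↔ cfgE n ω' ∈ A
  rw [this]

lemma rf_shift (x₀ x₁ y₀ y₁ a b : ℤ) :
    {f : ℤ × ℤ | (f.1 - a, f.2 - b) ∈ (RF x₀ x₁ y₀ y₁ : Set (ℤ × ℤ))} =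
      (RF (x₀ + a) (x₁ + a) (y₀ + b) (y₁ + b) : Set (ℤ × ℤ)) := by
  ext f
  simp only [RF, Set.mem_ofPred_eq, Finset.coe_product, Set.mem_prod, Finset.coe_Ico, Set.mem_Ico]
  constructor
  · rintro ⟨⟨h1, h2⟩, h3, h4⟩
    exact ⟨⟨by linarith, by linarith⟩, by linarith, by linarith⟩
  · rintro ⟨⟨h1, h2⟩, h3, h4⟩
    exact ⟨⟨by linarith, by linarith⟩, by linarith, by linarith⟩

lemma toBd_shift (x₀ x₁ y₀ y₁ a b : ℤ) (ω : Cfg) (u : ℤ × ℤ) :
    ToBd x₀ x₁ y₀ y₁ (shiftC a b ω) u ↔
      ToBd (x₀ + a) (x₁ + a) (y₀ + b) (y₁ + b) ω (u.1 + a, u.2 + b) := by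
  constructor
  · rintro ⟨v, hv, h1, h2, h3, h4, h5⟩
    rw [conn_shift, rf_shift] at hv
    refine ⟨_, hv, ?_, ?_, ?_, ?_, ?_⟩
    · rcases h1 with h | h | h | h
      · exact Or.inl (by show v.1 + a = _; rw [h])
      · exact Or.inr (Or.inl (by show v.1 + a = _; rw [h]))
      · exact Or.inr (Or.inr (Or.inl (by show v.2 + b = _; rw [h])))
      · exact Or.inr (Or.inr (Or.inr (by show v.2 + b = _; rw [h])))
    all_goals simp only
    all_goals linarith
  · rintro ⟨v, hv, h1, h2, h3, h4, h5⟩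
    have e : v = ((v.1 - a, v.2 - b).1 + a, (v.1 - a, v.2 - b).2 + b) := by
      ext <;> simp
    rw [e, ← rf_shift, ← conn_shift] at hv
    refine ⟨_, hv, ?_, ?_, ?_, ?_, ?_⟩
    · rcases h1 with h | h | h | h
      · exact Or.inl (by show v.1 - a = _; rw [h]; ring)
      · exact Or.inr (Or.inl (by show v.1 - a = _; rw [h]; ring))
      · exact Or.inr (Or.inr (Or.inl (by show v.2 - b = _; rw [h]; ring)))
      · exact Or.inr (Or.inr (Or.inr (by show v.2 - b = _; rw [h]; ring)))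
    all_goals simp only
    all_goals linarith

end DictA

/-- The law of the open edges is uniform. -/
theorem pr_cfgE (n : ℕ) {S : Finset (ℤ × ℤ)} (hS : ∀ e ∈ boxE n, phiE e ∈ S)
    (A : Set (Finset Edg)) : pr S {ω | cfgE n ω ∈ A} = prB n A := by
  classical
  have hsub : (boxE n).image phiE ⊆ S := by
    intro f hf
    obtain ⟨e, he, rfl⟩ := Finset.mem_image.1 hf
    exact hS e he
  rw [pr_eq_of_depOn (DictA.depOn_cfgE n A) hsub, pr, prB, Finset.card_image_of_injective _
    phiE_injective]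
  congr 2
  refine Finset.card_bij' (fun T _ => cfgE n (cfg T)) (fun U _ => DictA.jU n U) ?_ ?_ ?_ ?_
  · intro T hT
    rw [Finset.mem_filter] at hT ⊢
    exact ⟨Finset.mem_powerset.2 (Finset.filter_subset _ _), hT.2⟩
  · intro U hU
    rw [Finset.mem_filter, Finset.mem_powerset] at hU
    rw [Finset.mem_filter, Finset.mem_powerset]
    refine ⟨Finset.image_subset_image (Finset.filter_subset _ _), ?_⟩
    show cfgE n (cfg (DictA.jU n U)) ∈ A
    rw [DictA.right_inv hU.1]
    exact hU.2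
  · intro T hT
    rw [Finset.mem_filter, Finset.mem_powerset] at hT
    exact DictA.left_inv hT.1
  · intro U hU
    rw [Finset.mem_filter, Finset.mem_powerset] at hU
    exact DictA.right_inv hU.1

theorem pr_twoArmAt {R : ℤ} (v : ℤ × ℤ) {S : Finset (ℤ × ℤ)}
    (hS : RF ((phiV v).1 - R) ((phiV v).1 + R) ((phiV v).2 - R) ((phiV v).2 + R) ⊆ S) :
    pr S (twoArmAt R v) = p2 R := by
  set a := (phiV v).1 with ha
  set b := (phiV v).2 with hb
  have h1 : twoArmAt R v = {ω : Cfg | (fun x : ℤ × ℤ => ω (x.1 + a, x.2 + b)) ∈ twoArm R} := by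
    ext ω
    show (ToBd (a - R) (a + R) (b - R) (b + R) ω (phiV v) ∧
      ToBd (a - R) (a + R) (b - R) (b + R) ω (a + 1, b)) ↔
      (ToBd (-R) R (-R) R (shiftC a b ω) (0, 0) ∧ ToBd (-R) R (-R) R (shiftC a b ω) (1, 0))
    rw [DictA.toBd_shift, DictA.toBd_shift]
    have e1 : -R + a = a - R := by ring
    have e2 : R + a = a + R := by ring
    have e3 : -R + b = b - R := by ring
    have e4 : R + b = b + R := by ring
    have e6 : ((1, 0) : ℤ × ℤ).1 + a = a + 1 := by show (1 : ℤ) + a = a + 1; ring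
    have e7 : ((1, 0) : ℤ × ℤ).2 + b = b := by show (0 : ℤ) + b = b; ring
    have e8 : ((0, 0) : ℤ × ℤ).1 + a = a := by show (0 : ℤ) + a = a; ring
    rw [e1, e2, e3, e4, e6, e7, e8]
  rw [h1, p2]
  refine pr_comp (S := RF (-R) R (-R) R) (S' := S) (f := fun x : ℤ × ℤ => (x.1 + a, x.2 + b))
    ?_ ?_ (depOn_twoArm R)
  · intro x _ y _ h
    simp only [Prod.mk.injEq, add_left_inj] at h
    exact Prod.ext h.1 h.2
  · intro x hx
    apply hS
    simp only [RF, Finset.mem_product, Finset.mem_Ico] at hx ⊢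
    refine ⟨⟨by linarith [hx.1.1], by linarith [hx.1.2]⟩, by linarith [hx.2.1], by linarith [hx.2.2]⟩

end Pool.Agent.Perc

end PartpercDictA

section PartpercDict



end PartpercDict

section Parth60Arms

/-!
# Two arms of a corner in the face grid
-/

set_option autoImplicit false

namespace Pool.Agent.PercX60

open Pool.Agent.Perc Pool.Agent.PercU
open Pool.Agent.MP_6bd702.H23 (Ed ea eb du cr dc f1 f2)

/-! ### Transposition and translation -/

theorem bond_tr (a b : ℤ) {ω : Cfg} {F F' : Set (ℤ × ℤ)}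
    (hF : ∀ x ∈ F, (x.2 + a, x.1 + b) ∈ F') {u v : ℤ × ℤ}
    (h : Bond (fun x => ω (x.2 + a, x.1 + b)) F u v) :
    Bond ω F' (u.2 + a, u.1 + b) (v.2 + a, v.1 + b) := by
  obtain ⟨x, y, hf, h | h⟩ := h
  · refine ⟨y + a, x + b, hF _ hf, Or.inl ⟨h.1, ?_⟩⟩
    rcases h.2 with ⟨rfl, rfl⟩ | ⟨rfl, rfl⟩
    · left; simp only [Prod.mk.injEq, true_and]; omega
    · right; simp only [Prod.mk.injEq, and_true]; omega
  · refine ⟨y + a, x + b, hF _ hf, Or.inr ⟨h.1, ?_⟩⟩
    rcases h.2 with ⟨rfl, rfl⟩ | ⟨rfl, rfl⟩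
    · right; simp only [Prod.mk.injEq, true_and, and_true]; omega
    · left; simp only [Prod.mk.injEq, true_and, and_true]; omega

theorem toBd_tr (a b R : ℤ) {ω : Cfg} {u : ℤ × ℤ}
    (h : ToBd (-R) R (-R) R (fun x => ω (x.2 + a, x.1 + b)) u) :
    ToBd (a - R) (a + R) (b - R) (b + R) ω (u.2 + a, u.1 + b) := by
  obtain ⟨v, hv, h1, h2, h3, h4, h5⟩ := h
  refine ⟨(v.2 + a, v.1 + b), GridA.conn_lift (fun x => (x.2 + a, x.1 + b))
    (fun _ _ hb => bond_tr a b (fun x hx => ?_) hb) hv, ?_, ?_, ?_, ?_, ?_⟩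
  · simp only [RF, Finset.coe_product, Finset.coe_Ico, Set.mem_prod, Set.mem_Ico] at hx ⊢
    omega
  · simp only
    omega
  all_goals simp only; omega

theorem toBd_tr_iff (a b R : ℤ) {ω : Cfg} {u : ℤ × ℤ} :
    ToBd (-R) R (-R) R (fun x => ω (x.2 + a, x.1 + b)) u ↔
      ToBd (a - R) (a + R) (b - R) (b + R) ω (u.2 + a, u.1 + b) := by
  refine ⟨toBd_tr a b R, fun h => ?_⟩
  -- translate back first
  have e1 : a - R = -R + a := by ring
  have e2 : a + R = R + a := by ring
  have e3 : b - R = -R + b := by ring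
  have e4 : b + R = R + b := by ring
  have h1 : ToBd (-R) R (-R) R (shiftC a b ω) (u.2, u.1) := by
    rw [DictA.toBd_shift, ← e1, ← e2, ← e3, ← e4]
    exact h
  have h2 := toBd_tr (ω := fun x => ω (x.2 + a, x.1 + b)) 0 0 R (u := (u.2, u.1)) (by
    have : (fun x : ℤ × ℤ => (fun x : ℤ × ℤ => ω (x.2 + a, x.1 + b)) (x.2 + 0, x.1 + 0))
        = shiftC a b ω := by
      funext x
      simp only [shiftC, add_zero]
    rw [this]
    exact h1)
  simpa using h2

/-- Two arms of the horizontal unit edge at `(a, b)`. -/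
theorem pr_H {R a b : ℤ} {S : Finset (ℤ × ℤ)} (hS : RF (a - R) (a + R) (b - R) (b + R) ⊆ S) :
    pr S {ω | ToBd (a - R) (a + R) (b - R) (b + R) ω (a, b) ∧
      ToBd (a - R) (a + R) (b - R) (b + R) ω (a + 1, b)} = p2 R := by
  have h1 : {ω : Cfg | ToBd (a - R) (a + R) (b - R) (b + R) ω (a, b) ∧
      ToBd (a - R) (a + R) (b - R) (b + R) ω (a + 1, b)}
      = {ω : Cfg | (fun x : ℤ × ℤ => ω (x.1 + a, x.2 + b)) ∈ twoArm R} := by
    ext ω
    show _ ↔ (ToBd (-R) R (-R) R (shiftC a b ω) (0, 0) ∧ ToBd (-R) R (-R) R (shiftC a b ω) (1, 0))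
    rw [DictA.toBd_shift, DictA.toBd_shift]
    have e1 : -R + a = a - R := by ring
    have e2 : R + a = a + R := by ring
    have e3 : -R + b = b - R := by ring
    have e4 : R + b = b + R := by ring
    have e6 : ((1, 0) : ℤ × ℤ).1 + a = a + 1 := by show (1 : ℤ) + a = a + 1; ring
    have e7 : ((1, 0) : ℤ × ℤ).2 + b = b := by show (0 : ℤ) + b = b; ring
    have e8 : ((0, 0) : ℤ × ℤ).1 + a = a := by show (0 : ℤ) + a = a; ring
    rw [e1, e2, e3, e4, e6, e7, e8]
    rfl
  rw [h1, p2]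
  refine pr_comp (S := RF (-R) R (-R) R) (S' := S) (f := fun x : ℤ × ℤ => (x.1 + a, x.2 + b))
    ?_ ?_ (depOn_twoArm R)
  · intro x _ y _ h
    simp only [Prod.mk.injEq, add_left_inj] at h
    exact Prod.ext h.1 h.2
  · intro x hx
    apply hS
    simp only [RF, Finset.mem_product, Finset.mem_Ico] at hx ⊢
    omega

/-- Two arms of the vertical unit edge at `(a, b)`. -/
theorem pr_V {R a b : ℤ} {S : Finset (ℤ × ℤ)} (hS : RF (a - R) (a + R) (b - R) (b + R) ⊆ S) :
    pr S {ω | ToBd (a - R) (a + R) (b - R) (b + R) ω (a, b) ∧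
      ToBd (a - R) (a + R) (b - R) (b + R) ω (a, b + 1)} = p2 R := by
  have h1 : {ω : Cfg | ToBd (a - R) (a + R) (b - R) (b + R) ω (a, b) ∧
      ToBd (a - R) (a + R) (b - R) (b + R) ω (a, b + 1)}
      = {ω : Cfg | (fun x : ℤ × ℤ => ω (x.2 + a, x.1 + b)) ∈ twoArm R} := by
    ext ω
    show _ ↔ (ToBd (-R) R (-R) R (fun x : ℤ × ℤ => ω (x.2 + a, x.1 + b)) (0, 0) ∧
      ToBd (-R) R (-R) R (fun x : ℤ × ℤ => ω (x.2 + a, x.1 + b)) (1, 0))
    rw [toBd_tr_iff, toBd_tr_iff]
    have e6 : (((1, 0) : ℤ × ℤ).2 + a, ((1, 0) : ℤ × ℤ).1 + b) = (a, b + 1) := by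
      show ((0 : ℤ) + a, (1 : ℤ) + b) = _
      rw [zero_add, add_comm]
    have e7 : (((0, 0) : ℤ × ℤ).2 + a, ((0, 0) : ℤ × ℤ).1 + b) = (a, b) := by
      show ((0 : ℤ) + a, (0 : ℤ) + b) = _
      rw [zero_add, zero_add]
    rw [e6, e7]
    rfl
  rw [h1, p2]
  refine pr_comp (S := RF (-R) R (-R) R) (S' := S) (f := fun x : ℤ × ℤ => (x.2 + a, x.1 + b))
    ?_ ?_ (depOn_twoArm R)
  · intro x _ y _ h
    simp only [Prod.mk.injEq, add_left_inj] at h
    exact Prod.ext h.2 h.1
  · intro x hx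
    apply hS
    simp only [RF, Finset.mem_product, Finset.mem_Ico] at hx ⊢
    omega

/-! ### Corners in the face grid -/

/-- The vertex of a corner in the face grid. -/
def gV (k : Cor) : ℤ × ℤ := phiV (vtx k)

/-- A face of the square lattice in the face grid. -/
def phiF (f : ℤ × ℤ) : ℤ × ℤ := (f.1 + f.2 + 1, f.1 - f.2)

/-- The face of a corner in the face grid. -/
def gF (k : Cor) : ℤ × ℤ := phiF (fce k)

/-- The lower left end of the unit edge of a corner. -/
def gB (k : Cor) : ℤ × ℤ := (min (gV k).1 (gF k).1, min (gV k).2 (gF k).2)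

/-- Two arms of a corner to the distance `R`. -/
def TA (R : ℤ) (k : Cor) : Set Cfg :=
  {ω | ToBd ((gB k).1 - R) ((gB k).1 + R) ((gB k).2 - R) ((gB k).2 + R) ω (gV k) ∧
    ToBd ((gB k).1 - R) ((gB k).1 + R) ((gB k).2 - R) ((gB k).2 + R) ω (gF k)}

theorem g_cases (k : Cor) :
    (gV k = gB k ∧ gF k = ((gB k).1 + 1, (gB k).2)) ∨
    (gF k = gB k ∧ gV k = ((gB k).1 + 1, (gB k).2)) ∨
    (gV k = gB k ∧ gF k = ((gB k).1, (gB k).2 + 1)) ∨
    (gF k = gB k ∧ gV k = ((gB k).1, (gB k).2 + 1)) := by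
  obtain ⟨x, y, _ | _, _ | _⟩ := k
  · right; left
    simp only [gB, gV, gF, phiV, phiF, vtx, fce, Bool.false_eq_true, if_false, Prod.mk.injEq]
    omega
  · right; right; right
    simp only [gB, gV, gF, phiV, phiF, vtx, fce, Bool.false_eq_true, if_false, if_true,
      Prod.mk.injEq]
    omega
  · right; right; left
    simp only [gB, gV, gF, phiV, phiF, vtx, fce, Bool.false_eq_true, if_false, if_true,
      Prod.mk.injEq]
    omega
  · left
    simp only [gB, gV, gF, phiV, phiF, vtx, fce, if_true, Prod.mk.injEq]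
    omega

theorem pr_TA {R : ℤ} (k : Cor) {S : Finset (ℤ × ℤ)}
    (hS : RF ((gB k).1 - R) ((gB k).1 + R) ((gB k).2 - R) ((gB k).2 + R) ⊆ S) :
    pr S (TA R k) = p2 R := by
  unfold TA
  rcases g_cases k with ⟨h1, h2⟩ | ⟨h1, h2⟩ | ⟨h1, h2⟩ | ⟨h1, h2⟩ <;> rw [h1, h2]
  · exact pr_H hS
  · rw [← pr_H hS]
    congr 1
    ext ω
    exact and_comm
  · exact pr_V hS
  · rw [← pr_V hS]
    congr 1
    ext ω
    exact and_comm

theorem depOn_TA (R : ℤ) (k : Cor) :
    DepOn (RF ((gB k).1 - R) ((gB k).1 + R) ((gB k).2 - R) ((gB k).2 + R) : Set (ℤ × ℤ))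
      (TA R k) := by
  intro ω ω' h
  simp only [TA, ToBd, Set.mem_ofPred_eq, GridA.conn_iff _ h]

/-! ### From the square lattice to the face grid -/

open Classical in
/-- The configuration of the face grid. -/
noncomputable def gT (T : Set Ed) : Cfg := fun f =>
  if (f.1 + f.2) % 2 = 0 then decide (((f.1 + f.2) / 2, (f.1 - f.2) / 2, false) ∈ T)
  else decide (((f.1 + f.2 + 1) / 2, (f.1 - f.2 - 1) / 2, true) ∉ T)

/-- The edge of a face of the grid. -/
def eE (f : ℤ × ℤ) : Ed :=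
  if (f.1 + f.2) % 2 = 0 then ((f.1 + f.2) / 2, (f.1 - f.2) / 2, false)
  else ((f.1 + f.2 + 1) / 2, (f.1 - f.2 - 1) / 2, true)

theorem phiE_eE (f : ℤ × ℤ) : phiE (eE f) = f := by
  obtain ⟨X, Y⟩ := f
  unfold eE
  by_cases h : (X + Y) % 2 = 0
  · simp only [h, if_true, phiE, Bool.false_eq_true, if_false, Prod.mk.injEq]
    omega
  · simp only [h, if_false, phiE, if_true, Prod.mk.injEq]
    omega

theorem gT_eE (T : Set Ed) (f : ℤ × ℤ) : (gT T f = !(eE f).2.2) ↔ eE f ∈ T := by
  unfold gT eE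
  by_cases h : (f.1 + f.2) % 2 = 0
  · simp only [h, if_true, Bool.not_false, decide_eq_true_eq]
  · simp only [h, if_false, Bool.not_true, decide_eq_false_iff_not, not_not]

theorem eE_phiE (e : Ed) : eE (phiE e) = e := phiE_injective (phiE_eE _)

theorem gT_phiE (T : Set Ed) (e : Ed) : (gT T (phiE e) = !e.2.2) ↔ e ∈ T := by
  have h := gT_eE T (phiE e)
  rwa [eE_phiE] at h

/-- The bond of an open edge. -/
theorem bond_open {T : Set Ed} {e : Ed} (he : e ∈ T) :
    Bond (gT T) Set.univ (phiV (ea e)) (phiV (eb e)) := by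
  have h := (gT_phiE T e).2 he
  obtain ⟨x, y, _ | _⟩ := e
  · refine ⟨x + y, x - y, trivial, Or.inl ⟨by simpa [phiE] using h, Or.inl ⟨rfl, ?_⟩⟩⟩
    simp only [phiV, Pool.Agent.MP_6bd702.H23.eb_false, Prod.mk.injEq]
    omega
  · refine ⟨x + y, x - y - 1, trivial, Or.inr ⟨by simpa [phiE] using h, Or.inl ⟨?_, ?_⟩⟩⟩
    · simp only [phiV, Pool.Agent.MP_6bd702.H23.ea_mk, Prod.mk.injEq, true_and]
      omega
    · simp only [phiV, Pool.Agent.MP_6bd702.H23.eb_true, Prod.mk.injEq]
      omega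

/-- The bond of a closed edge. -/
theorem bond_closed {T : Set Ed} {e : Ed} (he : e ∉ T) :
    Bond (gT T) Set.univ (phiF (f1 e)) (phiF (f2 e)) := by
  have h : ¬ (gT T (phiE e) = !e.2.2) := fun h => he ((gT_phiE T e).1 h)
  obtain ⟨x, y, _ | _⟩ := e
  · refine ⟨x + y, x - y, trivial, Or.inr ⟨by simpa [phiE] using h, Or.inl ⟨?_, ?_⟩⟩⟩
    · simp only [phiF, f1, Bool.false_eq_true, if_false, Prod.mk.injEq]
      omega
    · simp only [phiF, f2]
  · refine ⟨x + y, x - y - 1, trivial, Or.inl ⟨by simpa [phiE] using h, Or.inl ⟨?_, ?_⟩⟩⟩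
    · simp only [phiF, f1, if_true, Prod.mk.injEq]
      omega
    · simp only [phiF, f2, Prod.mk.injEq, true_and]
      omega

theorem conn_open {T : Set Ed} {u v : ℤ × ℤ}
    (h : Pool.Agent.MP_6bd702.H23.Conn T Set.univ u v) :
    Conn (gT T) Set.univ (phiV u) (phiV v) := by
  unfold Pool.Agent.MP_6bd702.H23.Conn at h
  induction h with
  | refl => exact .refl
  | tail _ h2 ih =>
    obtain ⟨-, -, e, he, ⟨h3, h4⟩ | ⟨h3, h4⟩⟩ := h2
    · rw [← h4]
      rw [← h3] at ih
      exact ih.tail (bond_open he)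
    · rw [← h3]
      rw [← h4] at ih
      exact ih.tail (Bond.symm (bond_open he))

theorem conn_closed {T : Set Ed} {f g : ℤ × ℤ}
    (h : Pool.Agent.MP_6bd702.H23.Conn (du T) Set.univ f g) :
    Conn (gT T) Set.univ (phiF f) (phiF g) := by
  unfold Pool.Agent.MP_6bd702.H23.Conn at h
  induction h with
  | refl => exact .refl
  | tail _ h2 ih =>
    obtain ⟨-, -, e, he, hh⟩ := h2
    have he' : cr e ∉ T := he
    have hb := bond_closed he'
    rw [← Pool.Agent.MP_6bd702.H23.ea_dc, ← Pool.Agent.MP_6bd702.H23.eb_dc,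
      Pool.Agent.MP_6bd702.H23.dc_cr] at hb
    rcases hh with ⟨h3, h4⟩ | ⟨h3, h4⟩
    · rw [← h4]
      rw [← h3] at ih
      exact ih.tail hb
    · rw [← h3]
      rw [← h4] at ih
      exact ih.tail (Bond.symm hb)

theorem gT_cfgE {n : ℕ} {ω : Cfg} {e : Ed} (he : e ∈ boxE n) :
    gT (cfgE n ω : Set Ed) (phiE e) = ω (phiE e) := by
  have h := gT_phiE (cfgE n ω : Set Ed) e
  have h1 : e ∈ (cfgE n ω : Set Ed) ↔ ω (phiE e) = !e.2.2 := by
    rw [Finset.mem_coe, DictB.mem_cfgE]
    exact ⟨fun h => h.2, fun h => ⟨he, h⟩⟩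
  rw [h1] at h
  cases h2 : gT (cfgE n ω : Set Ed) (phiE e) <;> cases h3 : ω (phiE e) <;> cases h4 : e.2.2 <;>
    simp_all

/-- The distance of a vertex to the boundary of the box. -/
def dB (n : ℕ) (v : ℤ × ℤ) : ℤ := min (min v.1 (n - v.1)) (min v.2 (n - v.2))

/-- The faces of a ball inside the box are faces of edges of the box. -/
theorem ball_sub {n : ℕ} {k : Cor} {R : ℤ} (hR : R + 1 ≤ dB n (vtx k)) {f : ℤ × ℤ}
    (hf : f ∈ RF ((gB k).1 - R) ((gB k).1 + R) ((gB k).2 - R) ((gB k).2 + R)) :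
    eE f ∈ boxE n := by
  have hB : (gB k).1 ≤ (gV k).1 ∧ (gV k).1 ≤ (gB k).1 + 1 ∧ (gB k).2 ≤ (gV k).2 ∧
      (gV k).2 ≤ (gB k).2 + 1 := by
    rcases g_cases k with ⟨h1, h2⟩ | ⟨h1, h2⟩ | ⟨h1, h2⟩ | ⟨h1, h2⟩
    · rw [h1]; omega
    · rw [h2]; simp only; omega
    · rw [h1]; omega
    · rw [h2]; simp only; omega
  obtain ⟨X, Y⟩ := f
  simp only [RF, Finset.mem_product, Finset.mem_Ico] at hf
  have hV : (gV k).1 = (vtx k).1 + (vtx k).2 ∧ (gV k).2 = (vtx k).1 - (vtx k).2 := ⟨rfl, rfl⟩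
  unfold dB at hR
  rw [DictB.mem_boxE, DictB.mem_Box, DictB.mem_Box]
  unfold eE
  by_cases h : (X + Y) % 2 = 0
  · simp only [h, if_true, tl, hd, Bool.false_eq_true, if_false]
    omega
  · simp only [h, if_false, tl, hd, if_true]
    omega

/-- An interface which goes far gives two arms. -/
theorem TA_of_far {n : ℕ} {ω : Cfg} {k : Cor} {R : ℤ} (hR : R + 1 ≤ dB n (vtx k)) (hR1 : 1 ≤ R)
    {j : ℕ} (hj : R + 2 ≤ PercO.sd (vtx ((nxt (cfgE n ω : Set Ed))^[j] k)) (vtx k)) :
    ω ∈ TA R k := by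
  set T : Set Ed := (cfgE n ω : Set Ed) with hT
  have hag : ∀ f ∈ (RF ((gB k).1 - R) ((gB k).1 + R) ((gB k).2 - R) ((gB k).2 + R) : Set (ℤ × ℤ)),
      gT T f = ω f := by
    intro f hf
    have h1 := gT_cfgE (ω := ω) (ball_sub hR (Finset.mem_coe.1 hf))
    rwa [phiE_eE] at h1
  have hB : (gB k).1 ≤ (gV k).1 ∧ (gV k).1 ≤ (gB k).1 + 1 ∧ (gB k).2 ≤ (gV k).2 ∧
      (gV k).2 ≤ (gB k).2 + 1 ∧ (gB k).1 ≤ (gF k).1 ∧ (gF k).1 ≤ (gB k).1 + 1 ∧
      (gB k).2 ≤ (gF k).2 ∧ (gF k).2 ≤ (gB k).2 + 1 := by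
    rcases g_cases k with ⟨h1, h2⟩ | ⟨h1, h2⟩ | ⟨h1, h2⟩ | ⟨h1, h2⟩ <;> rw [h1, h2] <;>
      simp only <;> omega
  set k' := (nxt T)^[j] k with hk'
  have hV : (gV k).1 = (vtx k).1 + (vtx k).2 ∧ (gV k).2 = (vtx k).1 - (vtx k).2 := ⟨rfl, rfl⟩
  have hV' : (gV k').1 = (vtx k').1 + (vtx k').2 ∧ (gV k').2 = (vtx k').1 - (vtx k').2 :=
    ⟨rfl, rfl⟩
  have hF' : |(gF k').1 - (gV k').1| ≤ 1 ∧ |(gF k').2 - (gV k').2| ≤ 1 := by
    rcases g_cases k' with ⟨h1, h2⟩ | ⟨h1, h2⟩ | ⟨h1, h2⟩ | ⟨h1, h2⟩ <;> rw [h1, h2] <;>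
      simp
  have hfar : ¬ ((gB k).1 - R - 1 < (gV k').1 ∧ (gV k').1 < (gB k).1 + R + 1 ∧
      (gB k).2 - R - 1 < (gV k').2 ∧ (gV k').2 < (gB k).2 + R + 1) := by
    unfold PercO.sd at hj
    intro hc
    rcases le_max_iff.1 hj with h | h
    · rcases abs_cases ((vtx k').1 - (vtx k).1) with ⟨h', _⟩ | ⟨h', _⟩ <;> omega
    · rcases abs_cases ((vtx k').2 - (vtx k).2) with ⟨h', _⟩ | ⟨h', _⟩ <;> omega
  have c1 := conn_open (conn_vtx (ω := T) k j)
  have c2 := conn_closed (conn_fce (ω := T) k j)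
  rw [← hk'] at c1 c2
  constructor
  · obtain ⟨w, hw, hw'⟩ := Conn.toBd (x₀ := (gB k).1 - R) (x₁ := (gB k).1 + R)
      (y₀ := (gB k).2 - R) (y₁ := (gB k).2 + R) c1 (by
        have : phiV (vtx k) = gV k := rfl
        rw [this]; omega) (by
        have : phiV (vtx k') = gV k' := rfl
        rw [this]; omega)
    rw [Set.univ_inter] at hw
    exact ⟨w, (GridA.conn_iff _ hag _ _).1 hw, hw'⟩
  · obtain ⟨w, hw, hw'⟩ := Conn.toBd (x₀ := (gB k).1 - R) (x₁ := (gB k).1 + R)
      (y₀ := (gB k).2 - R) (y₁ := (gB k).2 + R) c2 (by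
        have : phiF (fce k) = gF k := rfl
        rw [this]; omega) (by
        have : phiF (fce k') = gF k' := rfl
        rw [this]
        have h1 := abs_le.1 hF'.1
        have h2 := abs_le.1 hF'.2
        omega)
    rw [Set.univ_inter] at hw
    exact ⟨w, (GridA.conn_iff _ hag _ _).1 hw, hw'⟩

end Pool.Agent.PercX60

end Parth60Arms
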