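import Pool.Agent.Lib.MP_6bd702_z.Z014

section PartpercPlanarA

/-!
# Planarity (task PlanarA)
-/

set_option autoImplicit false

namespace Pool.Agent.Perc

open Finset

namespace PlanarA

/-! ### Chains on faces -/

/-- The degree at the vertex `z` of a chain of faces. -/
def deg (β : ℤ × ℤ → ZMod 2) (z : ℤ × ℤ) : ZMod 2 :=
  β (z.1, z.2) + β (z.1 - 1, z.2) + β (z.1, z.2 - 1) + β (z.1 - 1, z.2 - 1)

/-- The chain of one face. -/
def one (f : ℤ × ℤ) : ℤ × ℤ → ZMod 2 := fun g => if g = f then 1 else 0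

/-- The indicator function of a vertex. -/
def ind (u z : ℤ × ℤ) : ZMod 2 := if z = u then 1 else 0

theorem zmod_add_self (a : ZMod 2) : a + a = 0 := CharTwo.add_self_eq_zero a

theorem deg_add (β γ : ℤ × ℤ → ZMod 2) (z : ℤ × ℤ) :
    deg (fun f => β f + γ f) z = deg β z + deg γ z := by
  unfold deg; ring

theorem deg_one_slash (x y : ℤ) (z : ℤ × ℤ) (hz : (z.1 + z.2 - (x + y)) % 2 = 0) :
    deg (one (x, y)) z = ind (x, y) z + ind (x + 1, y + 1) z := by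
  obtain ⟨a, b⟩ := z
  simp only [deg, one, ind, Prod.mk.injEq] at *
  by_cases h1 : a = x ∧ b = y
  · obtain ⟨rfl, rfl⟩ := h1
    simp
  by_cases h2 : a = x + 1 ∧ b = y + 1
  · obtain ⟨rfl, rfl⟩ := h2
    simp
  have e1 : ¬ (a - 1 = x ∧ b = y) := by
    rintro ⟨h, h'⟩; omega
  have e2 : ¬ (a = x ∧ b - 1 = y) := by
    rintro ⟨h, h'⟩; omega
  have e3 : ¬ (a - 1 = x ∧ b - 1 = y) := by
    rintro ⟨h, h'⟩; exact h2 ⟨by omega, by omega⟩
  rw [if_neg h1, if_neg e1, if_neg e2, if_neg e3, if_neg h2]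
  simp

theorem deg_one_back (x y : ℤ) (z : ℤ × ℤ) (hz : (z.1 + z.2 - (x + y + 1)) % 2 = 0) :
    deg (one (x, y)) z = ind (x, y + 1) z + ind (x + 1, y) z := by
  obtain ⟨a, b⟩ := z
  simp only [deg, one, ind, Prod.mk.injEq] at *
  by_cases h1 : a = x ∧ b = y + 1
  · obtain ⟨rfl, rfl⟩ := h1
    simp
  by_cases h2 : a = x + 1 ∧ b = y
  · obtain ⟨rfl, rfl⟩ := h2
    simp
  have e0 : ¬ (a = x ∧ b = y) := by
    rintro ⟨h, h'⟩; omega
  have e1 : ¬ (a - 1 = x ∧ b = y) := by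
    rintro ⟨h, h'⟩; exact h2 ⟨by omega, by omega⟩
  have e2 : ¬ (a = x ∧ b - 1 = y) := by
    rintro ⟨h, h'⟩; exact h1 ⟨by omega, by omega⟩
  have e3 : ¬ (a - 1 = x ∧ b - 1 = y) := by
    rintro ⟨h, h'⟩; omega
  rw [if_neg h1, if_neg e0, if_neg e1, if_neg e2, if_neg e3, if_neg h2]
  simp

theorem ind_comm_step (a b c : ZMod 2) : a + b + (b + c) = a + c := by
  have := zmod_add_self b
  linear_combination this

theorem sum_one {x₀ x₁ x y : ℤ} (hx : x₀ ≤ x ∧ x < x₁) (b : ℤ) :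
    ∑ i ∈ Ico x₀ x₁, one (x, y) (i, b) = if b = y then 1 else 0 := by
  unfold one
  by_cases hb : b = y
  · subst hb
    rw [Finset.sum_eq_single x]
    · simp
    · intro i _ hi
      simp [hi]
    · intro h
      exact absurd (Finset.mem_Ico.mpr hx) h
  · rw [if_neg hb]
    apply Finset.sum_eq_zero
    intro i _
    simp [hb]

theorem row_toggle (y b : ℤ) :
    ((if y ≤ b then 1 else 0 : ZMod 2) + if y + 1 ≤ b then 1 else 0) = if b = y then 1 else 0 := by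
  by_cases h : b = y
  · subst h; simp
  · by_cases h' : y ≤ b
    · rw [if_pos h', if_pos (by omega), if_neg h]; exact zmod_add_self 1
    · rw [if_neg h', if_neg (by omega), if_neg h]; simp

theorem mem_RF {x₀ x₁ y₀ y₁ : ℤ} {f : ℤ × ℤ} :
    f ∈ RF x₀ x₁ y₀ y₁ ↔ (x₀ ≤ f.1 ∧ f.1 < x₁) ∧ (y₀ ≤ f.2 ∧ f.2 < y₁) := by
  unfold RF; rw [Finset.mem_product, Finset.mem_Ico, Finset.mem_Ico]

/-- A path gives a chain. -/
theorem exists_chain {ω : Cfg} {x₀ x₁ y₀ y₁ : ℤ} {u w : ℤ × ℤ}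
    (h : Conn ω (RF x₀ x₁ y₀ y₁) u w) : ∃ β : ℤ × ℤ → ZMod 2,
    (∀ f, β f ≠ 0 → f ∈ RF x₀ x₁ y₀ y₁) ∧
    (∀ f, β f ≠ 0 → ∀ z : ℤ × ℤ, (z.1 + z.2 - (u.1 + u.2)) % 2 = 0 →
      (z.1 = f.1 ∨ z.1 = f.1 + 1) → (z.2 = f.2 ∨ z.2 = f.2 + 1) →
        Conn ω (RF x₀ x₁ y₀ y₁) u z) ∧
    (∀ f, β f ≠ 0 → (ω f = true ↔ (f.1 + f.2 - (u.1 + u.2)) % 2 = 0)) ∧
    (∀ z : ℤ × ℤ, (z.1 + z.2 - (u.1 + u.2)) % 2 = 0 → deg β z = ind u z + ind w z) ∧
    (∀ b, ∑ i ∈ Ico x₀ x₁, β (i, b) =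
      (if u.2 ≤ b then 1 else 0) + (if w.2 ≤ b then 1 else 0)) := by
  induction h with
  | refl =>
    refine ⟨fun _ => 0, ?_, ?_, ?_, ?_, ?_⟩
    · intro f hf; exact absurd rfl hf
    · intro f hf; exact absurd rfl hf
    · intro f hf; exact absurd rfl hf
    · intro z _; rw [zmod_add_self]; simp [deg]
    · intro b; rw [zmod_add_self]; simp
  | @tail b c hab hbc ih =>
    obtain ⟨β, h1, h2, h3, h4, h5⟩ := ih
    have hpar := Conn.parity hab
    have hcon : Conn ω (RF x₀ x₁ y₀ y₁) u c := Relation.ReflTransGen.tail hab hbc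
    obtain ⟨x, y, hxy, hb⟩ := hbc
    have hm := mem_RF.mp (Finset.mem_coe.mp hxy)
    have key : (∀ z : ℤ × ℤ, (z.1 + z.2 - (u.1 + u.2)) % 2 = 0 →
        deg (one (x, y)) z = ind b z + ind c z) →
        (∀ r : ℤ, ((if b.2 ≤ r then 1 else 0 : ZMod 2) + if c.2 ≤ r then 1 else 0) =
          if r = y then 1 else 0) →
        (∀ z : ℤ × ℤ, (z.1 + z.2 - (u.1 + u.2)) % 2 = 0 →
          (z.1 = x ∨ z.1 = x + 1) → (z.2 = y ∨ z.2 = y + 1) → z = b ∨ z = c) →
        (ω (x, y) = true ↔ (x + y - (u.1 + u.2)) % 2 = 0) →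
        ∃ β : ℤ × ℤ → ZMod 2,
        (∀ f, β f ≠ 0 → f ∈ RF x₀ x₁ y₀ y₁) ∧
        (∀ f, β f ≠ 0 → ∀ z : ℤ × ℤ, (z.1 + z.2 - (u.1 + u.2)) % 2 = 0 →
          (z.1 = f.1 ∨ z.1 = f.1 + 1) → (z.2 = f.2 ∨ z.2 = f.2 + 1) →
            Conn ω (RF x₀ x₁ y₀ y₁) u z) ∧
        (∀ f, β f ≠ 0 → (ω f = true ↔ (f.1 + f.2 - (u.1 + u.2)) % 2 = 0)) ∧
        (∀ z : ℤ × ℤ, (z.1 + z.2 - (u.1 + u.2)) % 2 = 0 → deg β z = ind u z + ind c z) ∧
        (∀ b, ∑ i ∈ Ico x₀ x₁, β (i, b) =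
          (if u.2 ≤ b then 1 else 0) + (if c.2 ≤ b then 1 else 0)) := by
      intro hd hr hc hω
      have hsplit : ∀ f, β f + one (x, y) f ≠ 0 → β f ≠ 0 ∨ f = (x, y) := by
        intro f hf
        by_cases hfe : f = (x, y)
        · exact Or.inr hfe
        · left
          intro h0
          apply hf
          rw [h0]
          simp [one, hfe]
      refine ⟨fun f => β f + one (x, y) f, ?_, ?_, ?_, ?_, ?_⟩
      · intro f hf
        rcases hsplit f hf with h | h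
        · exact h1 f h
        · rw [h]; exact Finset.mem_coe.mp hxy
      · intro f hf z hz hz1 hz2
        rcases hsplit f hf with h | h
        · exact h2 f h z hz hz1 hz2
        · rw [h] at hz1 hz2
          rcases hc z hz hz1 hz2 with h' | h'
          · rw [h']; exact hab
          · rw [h']; exact hcon
      · intro f hf
        rcases hsplit f hf with h | h
        · exact h3 f h
        · rw [h]; exact hω
      · intro z hz
        rw [deg_add, h4 z hz, hd z hz, ind_comm_step]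
      · intro r
        rw [Finset.sum_add_distrib, h5 r, sum_one hm.1, ← hr r, ind_comm_step]
    rcases hb with ⟨hω, ⟨hb, hc⟩ | ⟨hb, hc⟩⟩ | ⟨hω, ⟨hb, hc⟩ | ⟨hb, hc⟩⟩
    · subst hb; subst hc
      simp only at hpar
      apply key
      · intro z hz
        exact deg_one_slash x y z (by omega)
      · intro r; exact row_toggle y r
      · intro z hz hz1 hz2
        obtain ⟨z1, z2⟩ := z
        simp only at hz hz1 hz2
        rcases hz1 with rfl | rfl <;> rcases hz2 with rfl | rfl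
        · left; rfl
        · exfalso; omega
        · exfalso; omega
        · right; rfl
      · constructor
        · intro _; omega
        · intro _; exact hω
    · subst hb; subst hc
      simp only at hpar
      apply key
      · intro z hz
        rw [add_comm (ind _ z)]
        exact deg_one_slash x y z (by omega)
      · intro r; rw [add_comm]; exact row_toggle y r
      · intro z hz hz1 hz2
        obtain ⟨z1, z2⟩ := z
        simp only at hz hz1 hz2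
        rcases hz1 with rfl | rfl <;> rcases hz2 with rfl | rfl
        · right; rfl
        · exfalso; omega
        · exfalso; omega
        · left; rfl
      · constructor
        · intro _; omega
        · intro _; exact hω
    · subst hb; subst hc
      simp only at hpar
      apply key
      · intro z hz
        exact deg_one_back x y z (by omega)
      · intro r; rw [add_comm]; exact row_toggle y r
      · intro z hz hz1 hz2
        obtain ⟨z1, z2⟩ := z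
        simp only at hz hz1 hz2
        rcases hz1 with rfl | rfl <;> rcases hz2 with rfl | rfl
        · exfalso; omega
        · left; rfl
        · right; rfl
        · exfalso; omega
      · constructor
        · intro h; rw [h] at hω; exact absurd hω (by simp)
        · intro h; exfalso; omega
    · subst hb; subst hc
      simp only at hpar
      apply key
      · intro z hz
        rw [add_comm (ind _ z)]
        exact deg_one_back x y z (by omega)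
      · intro r; exact row_toggle y r
      · intro z hz hz1 hz2
        obtain ⟨z1, z2⟩ := z
        simp only at hz hz1 hz2
        rcases hz1 with rfl | rfl <;> rcases hz2 with rfl | rfl
        · exfalso; omega
        · right; rfl
        · left; rfl
        · exfalso; omega
      · constructor
        · intro h; rw [h] at hω; exact absurd hω (by simp)
        · intro h; exfalso; omega

/-! ### The potential -/

/-- Sum over the faces of a row to the left of `x`. -/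
noncomputable def pre (x₀ : ℤ) (β : ℤ × ℤ → ZMod 2) (x b : ℤ) : ZMod 2 := ∑ i ∈ Ico x₀ x, β (i, b)

theorem pre_of_le {x₀ x : ℤ} (β : ℤ × ℤ → ZMod 2) (b : ℤ) (h : x ≤ x₀) : pre x₀ β x b = 0 := by
  unfold pre
  rw [Finset.Ico_eq_empty (by omega), Finset.sum_empty]

theorem pre_succ {x₀ : ℤ} {β : ℤ × ℤ → ZMod 2} (hβ : ∀ f, β f ≠ 0 → x₀ ≤ f.1) (x b : ℤ) :
    pre x₀ β (x + 1) b = pre x₀ β x b + β (x, b) := by
  by_cases hx : x₀ ≤ x
  · unfold pre
    have : Ico x₀ (x + 1) = insert x (Ico x₀ x) := by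
      ext i; simp only [Finset.mem_Ico, Finset.mem_insert]; omega
    rw [this, Finset.sum_insert (by simp), add_comm]
  · rw [pre_of_le β b (by omega), pre_of_le β b (by omega)]
    have : β (x, b) = 0 := by
      by_contra h
      exact hx (hβ _ h)
    rw [this, add_zero]

theorem pre_agree {x₀ y p : ℤ} {β : ℤ × ℤ → ZMod 2} (hβ : ∀ f, β f ≠ 0 → x₀ ≤ f.1)
    (hdeg : ∀ x : ℤ, (x + y - p) % 2 = 0 → deg β (x, y) = 0) :
    ∀ n : ℕ, ∀ x : ℤ, x = x₀ - 1 + n → (x + y - p) % 2 ≠ 0 →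
      pre x₀ β x y = pre x₀ β x (y - 1) := by
  intro n
  induction n using Nat.strong_induction_on with
  | _ n ih =>
    intro x hx hp
    match n, hx with
    | 0, hx => rw [pre_of_le β _ (by omega), pre_of_le β _ (by omega)]
    | 1, hx => rw [pre_of_le β _ (by omega), pre_of_le β _ (by omega)]
    | n + 2, hx =>
      have h1 := ih n (by omega) (x - 2) (by push_cast at hx; omega) (by omega)
      have h2 := hdeg (x - 1) (by omega)
      have e1 : ∀ b, pre x₀ β x b = pre x₀ β (x - 2) b + β (x - 2, b) + β (x - 1, b) := by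
        intro b
        have a1 := pre_succ hβ (x - 2) b
        have a2 := pre_succ hβ (x - 1) b
        have c1 : x - 2 + 1 = x - 1 := by ring
        have c2 : x - 1 + 1 = x := by ring
        rw [c1] at a1
        rw [c2] at a2
        rw [a2, a1]
      rw [e1 y, e1 (y - 1), h1]
      unfold deg at h2
      have c3 : x - 1 - 1 = x - 2 := by ring
      simp only [c3] at h2
      have h3 := zmod_add_self (β (x - 1, y - 1) + β (x - 2, y - 1))
      linear_combination h2 - h3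

/-- The vertex `z` is a corner of the face `f`. -/
def Cor (z f : ℤ × ℤ) : Prop := (z.1 = f.1 ∨ z.1 = f.1 + 1) ∧ (z.2 = f.2 ∨ z.2 = f.2 + 1)

theorem pre_agree' {x₀ y p : ℤ} {β : ℤ × ℤ → ZMod 2} (hβ : ∀ f, β f ≠ 0 → x₀ ≤ f.1)
    (hdeg : ∀ x : ℤ, (x + y - p) % 2 = 0 → deg β (x, y) = 0) {x : ℤ} (hx : x₀ ≤ x)
    (hgood : (x + y - p) % 2 ≠ 0 ∨ ∀ f, Cor (x, y) f → β f = 0) :
    pre x₀ β x y = pre x₀ β x (y - 1) := by
  by_cases hp : (x + y - p) % 2 ≠ 0
  · exact pre_agree hβ hdeg (x - x₀ + 1).toNat x (by omega) hp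
  · rcases hgood with h | h
    · exact absurd h hp
    · have h1 := pre_agree hβ hdeg (x - x₀).toNat (x - 1) (by omega) (by omega)
      have a1 := pre_succ hβ (x - 1) y
      have a2 := pre_succ hβ (x - 1) (y - 1)
      have c : x - 1 + 1 = x := by ring
      rw [c] at a1 a2
      rw [a1, a2, h1, h (x - 1, y) ⟨Or.inr (by simp), Or.inl rfl⟩,
        h (x - 1, y - 1) ⟨Or.inr (by simp), Or.inr (by simp)⟩]

/-- A path from left to right which does not cross the chain cannot exist. -/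
theorem no_cross {ω : Cfg} {x₀ x₁ y₀ y₁ p : ℤ} (hx : x₀ < x₁) (hy : y₀ < y₁)
    {β : ℤ × ℤ → ZMod 2} (h1 : ∀ f, β f ≠ 0 → f ∈ RF x₀ x₁ y₀ y₁)
    (hdeg : ∀ z : ℤ × ℤ, (z.1 + z.2 - p) % 2 = 0 → y₀ < z.2 → z.2 < y₁ → deg β z = 0)
    (hrow : ∀ b, y₀ ≤ b → b < y₁ → ∑ i ∈ Ico x₀ x₁, β (i, b) = 1)
    {u v : ℤ × ℤ} (hu : u.1 = x₀ ∧ y₀ ≤ u.2 ∧ u.2 ≤ y₁) (hv : v.1 = x₁)
    (h : Conn ω (RF x₀ x₁ y₀ y₁) u v)
    (hgood : ∀ z, Conn ω (RF x₀ x₁ y₀ y₁) u z →
      (z.1 + z.2 - p) % 2 ≠ 0 ∨ ∀ f, Cor z f → β f = 0)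
    (hstep : ∀ z z' x y, Conn ω (RF x₀ x₁ y₀ y₁) u z →
      ((ω (x, y) = true ∧ ((z = (x, y) ∧ z' = (x + 1, y + 1)) ∨
        (z = (x + 1, y + 1) ∧ z' = (x, y)))) ∨
      (ω (x, y) = false ∧ ((z = (x, y + 1) ∧ z' = (x + 1, y)) ∨
        (z = (x + 1, y) ∧ z' = (x, y + 1))))) → β (x, y) = 0) : False := by
  classical
  have hβ : ∀ f, β f ≠ 0 → x₀ ≤ f.1 := fun f hf => (mem_RF.mp (h1 f hf)).1.1
  set Φ : ℤ × ℤ → ZMod 2 := fun z =>
    if z.2 < y₁ then pre x₀ β z.1 z.2 else pre x₀ β z.1 (z.2 - 1) with hΦ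
  have hphi : ∀ z x y, (x, y) ∈ RF x₀ x₁ y₀ y₁ → Cor z (x, y) → β (x, y) = 0 →
      ((z.1 + z.2 - p) % 2 ≠ 0 ∨ ∀ f, Cor z f → β f = 0) → Φ z = pre x₀ β x y := by
    intro z x y hxy hc h0 hg
    obtain ⟨a, b⟩ := z
    have hm := mem_RF.mp hxy
    simp only at hm
    unfold Cor at hc
    simp only at hc hg
    have hx1 : ∀ r, r = y → (a = x ∨ a = x + 1) → pre x₀ β a r = pre x₀ β x y := by
      intro r hr ha
      subst hr
      rcases ha with rfl | rfl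
      · rfl
      · rw [pre_succ hβ, h0, add_zero]
    rw [hΦ]
    simp only
    rcases hc.2 with hb | hb
    · rw [if_pos (by omega)]
      exact hx1 b hb hc.1
    · by_cases hb' : b < y₁
      · rw [if_pos hb']
        rw [pre_agree' (p := p) hβ (fun x' hx' => hdeg (x', b) hx' (by simp only; omega) hb')
          (by omega) hg]
        exact hx1 (b - 1) (by omega) hc.1
      · rw [if_neg hb']
        exact hx1 (b - 1) (by omega) hc.1
  have hconst : ∀ z, Conn ω (RF x₀ x₁ y₀ y₁) u z → Φ z = Φ u := by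
    intro z hz
    induction hz with
    | refl => rfl
    | @tail b c hab hbc ih =>
      rw [← ih]
      have hac : Conn ω (RF x₀ x₁ y₀ y₁) u c := Relation.ReflTransGen.tail hab hbc
      obtain ⟨x, y, hxy, hb⟩ := hbc
      have h0 := hstep b c x y hab hb
      have hcor : Cor b (x, y) ∧ Cor c (x, y) := by
        rcases hb with ⟨_, ⟨hb, hc⟩ | ⟨hb, hc⟩⟩ | ⟨_, ⟨hb, hc⟩ | ⟨hb, hc⟩⟩ <;>
          subst hb <;> subst hc <;> simp [Cor]
      rw [hphi b x y (Finset.mem_coe.mp hxy) hcor.1 h0 (hgood b hab),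
        hphi c x y (Finset.mem_coe.mp hxy) hcor.2 h0 (hgood c hac)]
  have hfin := hconst v h
  have hvr := Conn.mem_rect h ⟨by omega, by omega, hu.2.1, hu.2.2⟩
  have hu0 : Φ u = 0 := by
    rw [hΦ]
    simp only
    split_ifs
    · exact pre_of_le β _ (by omega)
    · exact pre_of_le β _ (by omega)
  have hv1 : Φ v = 1 := by
    rw [hΦ]
    simp only
    split_ifs with h'
    · unfold pre; rw [hv]; exact hrow v.2 (by omega) h'
    · unfold pre; rw [hv]; exact hrow (v.2 - 1) (by omega) (by omega)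
  rw [hu0, hv1] at hfin
  exact one_ne_zero hfin

/-! ### Existence of crossings -/

theorem tele (g : ℤ → ZMod 2) (a : ℤ) (n : ℕ) :
    ∑ y ∈ Ico a (a + n), (g y + g (y + 1)) = g a + g (a + n) := by
  induction n with
  | zero => simp [zmod_add_self]
  | succ n ih =>
    have : Ico a (a + (n + 1 : ℕ)) = insert (a + n) (Ico a (a + n)) := by
      ext i; simp only [Finset.mem_Ico, Finset.mem_insert]; push_cast; omega
    rw [this, Finset.sum_insert (by simp), ih]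
    have h2 := zmod_add_self (g (a + n))
    have e : a + (n : ℤ) + 1 = a + ((n + 1 : ℕ) : ℤ) := by push_cast; ring
    rw [e]
    linear_combination h2

theorem tele' (g : ℤ → ZMod 2) {a b : ℤ} (h : a ≤ b) :
    ∑ y ∈ Ico a b, (g y + g (y + 1)) = g a + g b := by
  have e : b = a + ((b - a).toNat : ℤ) := by omega
  have := tele g a (b - a).toNat
  rw [← e] at this
  exact this

theorem lr_or_bt_aux (c : ℤ) {x₀ x₁ y₀ y₁ : ℤ} (hx : x₀ < x₁) (hy : y₀ < y₁) (ω : Cfg)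
    (hS : ω ∉ LR c x₀ x₁ y₀ y₁) (hK : ω ∉ BT (c + 1) x₀ x₁ y₀ y₁) : False := by
  classical
  set F : Set (ℤ × ℤ) := (RF x₀ x₁ y₀ y₁ : Set (ℤ × ℤ)) with hF
  set inS : ℤ × ℤ → Prop := fun z => (z.1 + z.2 - c) % 2 = 0 ∧
    ∃ u : ℤ × ℤ, u.1 = x₀ ∧ y₀ ≤ u.2 ∧ u.2 ≤ y₁ ∧ Conn ω F u z with hinS
  set inK : ℤ × ℤ → Prop := fun z => (z.1 + z.2 - (c + 1)) % 2 = 0 ∧
    ∃ u : ℤ × ℤ, u.2 = y₀ ∧ x₀ ≤ u.1 ∧ u.1 ≤ x₁ ∧ Conn ω F u z with hinK
  set s : ℤ × ℤ → ZMod 2 := fun z => if inS z then 1 else 0 with hs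
  set k : ℤ × ℤ → ZMod 2 := fun z => if inK z then 1 else 0 with hk
  have hbond : ∀ z z', Bond ω F z z' → s z = s z' ∧ k z = k z' := by
    intro z z' h
    have hzz : Conn ω F z z' := Relation.ReflTransGen.single h
    have hzz' : Conn ω F z' z := Conn.symm hzz
    have hp := Conn.parity hzz
    have hSi : inS z ↔ inS z' := by
      constructor
      · rintro ⟨h1, u, h2, h3, h4, h5⟩; exact ⟨by omega, u, h2, h3, h4, h5.trans hzz⟩
      · rintro ⟨h1, u, h2, h3, h4, h5⟩; exact ⟨by omega, u, h2, h3, h4, h5.trans hzz'⟩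
    have hKi : inK z ↔ inK z' := by
      constructor
      · rintro ⟨h1, u, h2, h3, h4, h5⟩; exact ⟨by omega, u, h2, h3, h4, h5.trans hzz⟩
      · rintro ⟨h1, u, h2, h3, h4, h5⟩; exact ⟨by omega, u, h2, h3, h4, h5.trans hzz'⟩
    constructor
    · simp only [hs]; rw [if_congr hSi rfl rfl]
    · simp only [hk]; rw [if_congr hKi rfl rfl]
  set e : ℤ × ℤ → ℤ × ℤ → ZMod 2 := fun P Q => s P * k Q + s Q * k P with he
  have hface : ∀ x ∈ Ico x₀ x₁, ∀ y ∈ Ico y₀ y₁,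
      (e (x, y) (x + 1, y) + e (x, y + 1) (x + 1, y + 1)) +
        (e (x, y) (x, y + 1) + e (x + 1, y) (x + 1, y + 1)) = 0 := by
    intro x hx' y hy'
    have hm : (x, y) ∈ F := by
      rw [hF, Finset.mem_coe]
      unfold RF
      exact Finset.mem_product.mpr ⟨hx', hy'⟩
    have hid : (e (x, y) (x + 1, y) + e (x, y + 1) (x + 1, y + 1)) +
        (e (x, y) (x, y + 1) + e (x + 1, y) (x + 1, y + 1)) =
        (s (x, y) + s (x + 1, y + 1)) * (k (x + 1, y) + k (x, y + 1)) +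
        (s (x + 1, y) + s (x, y + 1)) * (k (x, y) + k (x + 1, y + 1)) := by
      simp only [he]; ring
    rw [hid]
    by_cases hω : ω (x, y) = true
    · have := hbond (x, y) (x + 1, y + 1) ⟨x, y, hm, Or.inl ⟨hω, Or.inl ⟨rfl, rfl⟩⟩⟩
      rw [this.1, this.2, zmod_add_self, zmod_add_self, zero_mul, mul_zero, add_zero]
    · have := hbond (x, y + 1) (x + 1, y) ⟨x, y, hm, Or.inr ⟨by simpa using hω, Or.inl ⟨rfl, rfl⟩⟩⟩
      rw [this.1, this.2, zmod_add_self, zmod_add_self, zero_mul, mul_zero, add_zero]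
  have hsum : ∑ x ∈ Ico x₀ x₁, ∑ y ∈ Ico y₀ y₁,
      ((e (x, y) (x + 1, y) + e (x, y + 1) (x + 1, y + 1)) +
        (e (x, y) (x, y + 1) + e (x + 1, y) (x + 1, y + 1))) = 0 :=
    Finset.sum_eq_zero fun x hx' => Finset.sum_eq_zero fun y hy' => hface x hx' y hy'
  have hsplit : ∑ x ∈ Ico x₀ x₁, ∑ y ∈ Ico y₀ y₁,
      ((e (x, y) (x + 1, y) + e (x, y + 1) (x + 1, y + 1)) +
        (e (x, y) (x, y + 1) + e (x + 1, y) (x + 1, y + 1))) =
      ∑ x ∈ Ico x₀ x₁, (e (x, y₀) (x + 1, y₀) + e (x, y₁) (x + 1, y₁)) +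
      ∑ y ∈ Ico y₀ y₁, (e (x₀, y) (x₀, y + 1) + e (x₁, y) (x₁, y + 1)) := by
    simp only [Finset.sum_add_distrib]
    have t1 : ∀ x, ∑ y ∈ Ico y₀ y₁, e (x, y) (x + 1, y) +
        ∑ y ∈ Ico y₀ y₁, e (x, y + 1) (x + 1, y + 1) =
        e (x, y₀) (x + 1, y₀) + e (x, y₁) (x + 1, y₁) := by
      intro x
      rw [← Finset.sum_add_distrib]
      exact tele' (fun y => e (x, y) (x + 1, y)) hy.le
    have t2 : ∀ y, ∑ x ∈ Ico x₀ x₁, e (x, y) (x, y + 1) +
        ∑ x ∈ Ico x₀ x₁, e (x + 1, y) (x + 1, y + 1) =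
        e (x₀, y) (x₀, y + 1) + e (x₁, y) (x₁, y + 1) := by
      intro y
      rw [← Finset.sum_add_distrib]
      exact tele' (fun x => e (x, y) (x, y + 1)) hx.le
    have u1 : ∑ x ∈ Ico x₀ x₁, ∑ y ∈ Ico y₀ y₁, e (x, y) (x + 1, y) +
        ∑ x ∈ Ico x₀ x₁, ∑ y ∈ Ico y₀ y₁, e (x, y + 1) (x + 1, y + 1) =
        ∑ x ∈ Ico x₀ x₁, e (x, y₀) (x + 1, y₀) + ∑ x ∈ Ico x₀ x₁, e (x, y₁) (x + 1, y₁) := by
      rw [← Finset.sum_add_distrib, ← Finset.sum_add_distrib]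
      exact Finset.sum_congr rfl fun x _ => t1 x
    have u2 : ∑ x ∈ Ico x₀ x₁, ∑ y ∈ Ico y₀ y₁, e (x, y) (x, y + 1) +
        ∑ x ∈ Ico x₀ x₁, ∑ y ∈ Ico y₀ y₁, e (x + 1, y) (x + 1, y + 1) =
        ∑ y ∈ Ico y₀ y₁, e (x₀, y) (x₀, y + 1) + ∑ y ∈ Ico y₀ y₁, e (x₁, y) (x₁, y + 1) := by
      rw [Finset.sum_comm, Finset.sum_comm (s := Ico x₀ x₁) (t := Ico y₀ y₁)
        (f := fun x y => e (x + 1, y) (x + 1, y + 1)), ← Finset.sum_add_distrib,
        ← Finset.sum_add_distrib]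
      exact Finset.sum_congr rfl fun y _ => t2 y
    rw [u1, u2]
  have hright : ∀ y, y₀ ≤ y → y ≤ y₁ → s (x₁, y) = 0 := by
    intro y h0 h1
    simp only [hs]
    rw [if_neg]
    rintro ⟨hp, u, hu1, hu2, hu3, hu4⟩
    have := Conn.parity hu4
    exact hS ⟨u, (x₁, y), hu1, hu2, hu3, rfl, by simp only at hp this; omega, hu4⟩
  have htop : ∀ x, x₀ ≤ x → x ≤ x₁ → k (x, y₁) = 0 := by
    intro x h0 h1
    simp only [hk]
    rw [if_neg]
    rintro ⟨hp, u, hu1, hu2, hu3, hu4⟩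
    have := Conn.parity hu4
    exact hK ⟨u, (x, y₁), hu1, hu2, hu3, rfl, by simp only at hp this; omega, hu4⟩
  have hsk : ∀ z, (z.1 + z.2 - c) % 2 = 0 → k z = 0 := by
    intro z hz
    simp only [hk]
    rw [if_neg]
    rintro ⟨h, -⟩
    omega
  have hks : ∀ z, (z.1 + z.2 - c) % 2 ≠ 0 → s z = 0 := by
    intro z hz
    simp only [hs]
    rw [if_neg]
    rintro ⟨h, -⟩
    exact hz h
  have hleft1 : ∀ y, y₀ ≤ y → y ≤ y₁ → (x₀ + y - c) % 2 = 0 → s (x₀, y) = 1 := by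
    intro y h0 h1 hp
    simp only [hs]
    rw [if_pos]
    exact ⟨hp, (x₀, y), rfl, h0, h1, Relation.ReflTransGen.refl⟩
  have hbot1 : ∀ x, x₀ ≤ x → x ≤ x₁ → (x + y₀ - c) % 2 ≠ 0 → k (x, y₀) = 1 := by
    intro x h0 h1 hp
    simp only [hk]
    rw [if_pos]
    exact ⟨by simp only; omega, (x, y₀), rfl, h0, h1, Relation.ReflTransGen.refl⟩
  have hV : ∀ y ∈ Ico y₀ y₁, e (x₀, y) (x₀, y + 1) + e (x₁, y) (x₁, y + 1) =
      k (x₀, y) + k (x₀, y + 1) := by
    intro y hy'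
    rw [Finset.mem_Ico] at hy'
    simp only [he]
    rw [hright y hy'.1 (by omega), hright (y + 1) (by omega) (by omega)]
    by_cases hp : (x₀ + y - c) % 2 = 0
    · rw [hleft1 y hy'.1 (by omega) hp, hks (x₀, y + 1) (by simp only; omega),
        hsk (x₀, y) (by simpa using hp)]
      ring
    · rw [hleft1 (y + 1) (by omega) (by omega) (by omega), hks (x₀, y) (by simpa using hp),
        hsk (x₀, y + 1) (by simp only; omega)]
      ring
  have hH : ∀ x ∈ Ico x₀ x₁, e (x, y₀) (x + 1, y₀) + e (x, y₁) (x + 1, y₁) =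
      s (x, y₀) + s (x + 1, y₀) := by
    intro x hx'
    rw [Finset.mem_Ico] at hx'
    simp only [he]
    rw [htop x hx'.1 (by omega), htop (x + 1) (by omega) (by omega)]
    by_cases hp : (x + y₀ - c) % 2 = 0
    · rw [hbot1 (x + 1) (by omega) (by omega) (by omega), hks (x + 1, y₀) (by simp only; omega),
        hsk (x, y₀) (by simpa using hp)]
      ring
    · rw [hbot1 x (by omega) (by omega) hp, hks (x, y₀) (by simpa using hp),
        hsk (x + 1, y₀) (by simp only; omega)]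
      ring
  rw [hsum, Finset.sum_congr rfl hH, Finset.sum_congr rfl hV,
    tele' (fun x => s (x, y₀)) hx.le, tele' (fun y => k (x₀, y)) hy.le,
    hright y₀ le_rfl hy.le, htop x₀ le_rfl hx.le] at hsplit
  by_cases hp : (x₀ + y₀ - c) % 2 = 0
  · rw [hleft1 y₀ le_rfl hy.le hp, hsk (x₀, y₀) (by simpa using hp)] at hsplit
    simp at hsplit
  · rw [hbot1 x₀ le_rfl hx.le hp, hks (x₀, y₀) (by simpa using hp)] at hsplit
    simp at hsplit

end PlanarA

/-- Duality, existence: there is a left-right crossing of parity `c` or a bottom-top crossing of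
the other parity. -/
theorem lr_or_bt (c : ℤ) {x₀ x₁ y₀ y₁ : ℤ} (hx : x₀ < x₁) (hy : y₀ < y₁) (ω : Cfg) :
    ω ∈ LR c x₀ x₁ y₀ y₁ ∨ ω ∈ BT (c + 1) x₀ x₁ y₀ y₁ := by
  by_contra h
  rw [not_or] at h
  exact PlanarA.lr_or_bt_aux c hx hy ω h.1 h.2

/-- Duality, exclusion. -/
theorem not_lr_and_bt (c : ℤ) {x₀ x₁ y₀ y₁ : ℤ} (hx : x₀ < x₁) (hy : y₀ < y₁) (ω : Cfg) :
    ¬ (ω ∈ LR c x₀ x₁ y₀ y₁ ∧ ω ∈ BT (c + 1) x₀ x₁ y₀ y₁) := by
  rintro ⟨⟨u, v, hu1, hu2, hu3, hv, huc, huv⟩, ⟨u', v', hu1', hu2', hu3', hv', huc', huv'⟩⟩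
  obtain ⟨β, h1, h2, h3, h4, h5⟩ := PlanarA.exists_chain huv'
  refine PlanarA.no_cross (p := u'.1 + u'.2) hx hy h1 ?_ ?_ ⟨hu1, hu2, hu3⟩ hv huv ?_ ?_
  · intro z hz hz1 hz2
    rw [h4 z hz]
    have e1 : z ≠ u' := by rintro rfl; omega
    have e2 : z ≠ v' := by rintro rfl; omega
    simp [PlanarA.ind, e1, e2]
  · intro b hb1 hb2
    rw [h5 b, if_pos (by omega), if_neg (by omega), add_zero]
  · intro z hz
    have := Conn.parity hz
    left; omega
  · intro z z' x y hz hb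
    have hp := Conn.parity hz
    by_contra h0
    have h := h3 _ h0
    simp only at h
    rcases hb with ⟨hω, ⟨hb, hc⟩ | ⟨hb, hc⟩⟩ | ⟨hω, ⟨hb, hc⟩ | ⟨hb, hc⟩⟩
    · subst hb; have := h.mp hω; simp only at hp; omega
    · subst hb; have := h.mp hω; simp only at hp; omega
    · subst hb
      simp only at hp
      have := h.mpr (by omega)
      rw [hω] at this
      exact absurd this (by simp)
    · subst hb
      simp only at hp
      have := h.mpr (by omega)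
      rw [hω] at this
      exact absurd this (by simp)

/-- A left-right path and a bottom-top path of the same parity meet. -/
theorem crossings_meet {x₀ x₁ y₀ y₁ : ℤ} (hx : x₀ < x₁) (hy : y₀ < y₁) {ω : Cfg}
    {u v u' v' : ℤ × ℤ} (hu : u.1 = x₀ ∧ y₀ ≤ u.2 ∧ u.2 ≤ y₁) (hv : v.1 = x₁)
    (hu' : u'.2 = y₀ ∧ x₀ ≤ u'.1 ∧ u'.1 ≤ x₁) (hv' : v'.2 = y₁)
    (hpar : (u.1 + u.2) % 2 = (u'.1 + u'.2) % 2)
    (h : Conn ω (RF x₀ x₁ y₀ y₁) u v) (h' : Conn ω (RF x₀ x₁ y₀ y₁) u' v') :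
    Conn ω (RF x₀ x₁ y₀ y₁) u u' := by
  by_contra hn
  obtain ⟨β, h1, h2, h3, h4, h5⟩ := PlanarA.exists_chain h'
  have hz0 : ∀ z f, Conn ω (RF x₀ x₁ y₀ y₁) u z → PlanarA.Cor z f → β f = 0 := by
    intro z f hz hc
    by_contra h0
    have hp := Conn.parity hz
    have := h2 f h0 z (by omega) hc.1 hc.2
    exact hn (hz.trans this.symm)
  refine PlanarA.no_cross (p := u'.1 + u'.2) hx hy h1 ?_ ?_ hu hv h ?_ ?_
  · intro z hz hz1 hz2
    rw [h4 z hz]
    have e1 : z ≠ u' := by rintro rfl; omega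
    have e2 : z ≠ v' := by rintro rfl; omega
    simp [PlanarA.ind, e1, e2]
  · intro b hb1 hb2
    rw [h5 b, if_pos (by omega), if_neg (by omega), add_zero]
  · intro z hz
    right
    intro f hf
    exact hz0 z f hz hf
  · intro z z' x y hz hb
    apply hz0 z (x, y) hz
    rcases hb with ⟨_, ⟨hb, _⟩ | ⟨hb, _⟩⟩ | ⟨_, ⟨hb, _⟩ | ⟨hb, _⟩⟩ <;>
      subst hb <;> simp [PlanarA.Cor]

end Pool.Agent.Perc

end PartpercPlanarA

section PartpercPlanarB

/-!
# Squares (task PlanarB)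
-/

set_option autoImplicit false

namespace Pool.Agent.Perc

open Finset

namespace PlanarB

theorem mem_RF {x₀ x₁ y₀ y₁ : ℤ} {f : ℤ × ℤ} :
    f ∈ RF x₀ x₁ y₀ y₁ ↔ (x₀ ≤ f.1 ∧ f.1 < x₁) ∧ (y₀ ≤ f.2 ∧ f.2 < y₁) := by
  unfold RF
  rw [Finset.mem_product, Finset.mem_Ico, Finset.mem_Ico]

/-- Transposition. -/
def tr (x₀ y₀ : ℤ) (u : ℤ × ℤ) : ℤ × ℤ := (x₀ + (u.2 - y₀), y₀ + (u.1 - x₀))

theorem conn_tr {x₀ y₀ : ℤ} {k : ℕ} {ω : Cfg} {u v : ℤ × ℤ}
    (h : Conn (fun f => ω (tr x₀ y₀ f)) (RF x₀ (x₀ + k) y₀ (y₀ + k)) u v) :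
    Conn ω (RF x₀ (x₀ + k) y₀ (y₀ + k)) (tr x₀ y₀ u) (tr x₀ y₀ v) := by
  refine Relation.ReflTransGen.lift (r := Bond _ _) (p := Bond _ _) _ ?_ _ _ h
  rintro a b ⟨x, y, hxy, hb⟩
  change Bond _ _ _ _
  rw [Finset.mem_coe, mem_RF] at hxy
  dsimp only at hxy
  refine ⟨x₀ + (y - y₀), y₀ + (x - x₀), ?_, ?_⟩
  · rw [Finset.mem_coe, mem_RF]
    refine ⟨⟨?_, ?_⟩, ?_, ?_⟩ <;> dsimp only <;> omega
  · rcases hb with ⟨h1, h2⟩ | ⟨h1, h2⟩
    · left
      refine ⟨h1, ?_⟩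
      rcases h2 with ⟨rfl, rfl⟩ | ⟨rfl, rfl⟩
      · left
        refine ⟨rfl, ?_⟩
        unfold tr
        ext <;> dsimp only <;> ring
      · right
        refine ⟨?_, rfl⟩
        unfold tr
        ext <;> dsimp only <;> ring
    · right
      refine ⟨h1, ?_⟩
      rcases h2 with ⟨rfl, rfl⟩ | ⟨rfl, rfl⟩
      · right
        constructor <;>
        · unfold tr
          ext <;> dsimp only <;> ring
      · left
        constructor <;>
        · unfold tr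
          ext <;> dsimp only <;> ring

theorem tr_tr (x₀ y₀ : ℤ) (u : ℤ × ℤ) : tr x₀ y₀ (tr x₀ y₀ u) = u := by
  unfold tr
  ext <;> dsimp only <;> ring

theorem conn_tr' {x₀ y₀ : ℤ} {k : ℕ} {ω : Cfg} {u v : ℤ × ℤ}
    (h : Conn ω (RF x₀ (x₀ + k) y₀ (y₀ + k)) u v) :
    Conn (fun f => ω (tr x₀ y₀ f)) (RF x₀ (x₀ + k) y₀ (y₀ + k)) (tr x₀ y₀ u) (tr x₀ y₀ v) := by
  apply conn_tr (ω := fun f => ω (tr x₀ y₀ f))
  have : (fun f => (fun f => ω (tr x₀ y₀ f)) (tr x₀ y₀ f)) = ω := by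
    funext f
    simp only [tr_tr]
  rw [this]
  exact h

theorem pr_LR (c : ℤ) (k : ℕ) (x₀ y₀ : ℤ) :
    pr (RF x₀ (x₀ + k) y₀ (y₀ + k)) (BT c x₀ (x₀ + k) y₀ (y₀ + k)) =
      pr (RF x₀ (x₀ + k) y₀ (y₀ + k)) (LR c x₀ (x₀ + k) y₀ (y₀ + k)) := by
  have h := pr_comp (S := RF x₀ (x₀ + k) y₀ (y₀ + k)) (S' := RF x₀ (x₀ + k) y₀ (y₀ + k))
    (A := LR c x₀ (x₀ + k) y₀ (y₀ + k)) (f := tr x₀ y₀) (by
      intro a _ b _ hab
      rw [← tr_tr x₀ y₀ a, hab, tr_tr]) (by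
      intro f hf
      rw [mem_RF] at hf ⊢
      unfold tr
      refine ⟨⟨?_, ?_⟩, ?_, ?_⟩ <;> dsimp only <;> omega) (depOn_LR _ _ _ _ _)
  rw [← h]
  apply pr_congr
  intro T _
  constructor
  · rintro ⟨u, v, h1, h2, h3, h4, h5, h6⟩
    refine ⟨tr x₀ y₀ u, tr x₀ y₀ v, ?_, ?_, ?_, ?_, ?_, conn_tr' h6⟩
    · unfold tr
      dsimp only
      omega
    · unfold tr
      dsimp only
      omega
    · unfold tr
      dsimp only
      omega
    · unfold tr
      dsimp only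
      omega
    · unfold tr
      dsimp only
      have : x₀ + (u.2 - y₀) + (y₀ + (u.1 - x₀)) - c = u.1 + u.2 - c := by ring
      rw [this]
      exact h5
  · rintro ⟨u, v, h1, h2, h3, h4, h5, h6⟩
    refine ⟨tr x₀ y₀ u, tr x₀ y₀ v, ?_, ?_, ?_, ?_, ?_, conn_tr h6⟩
    · unfold tr
      dsimp only
      omega
    · unfold tr
      dsimp only
      omega
    · unfold tr
      dsimp only
      omega
    · unfold tr
      dsimp only
      omega
    · unfold tr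
      dsimp only
      have : x₀ + (u.2 - y₀) + (y₀ + (u.1 - x₀)) - c = u.1 + u.2 - c := by ring
      rw [this]
      exact h5

/-- Reflection of vertices. -/
def rv (x₀ : ℤ) (k : ℕ) (u : ℤ × ℤ) : ℤ × ℤ := (2 * x₀ + k - u.1, u.2)

/-- Reflection of faces. -/
def rf (x₀ : ℤ) (k : ℕ) (u : ℤ × ℤ) : ℤ × ℤ := (2 * x₀ + k - 1 - u.1, u.2)

theorem rf_rf (x₀ : ℤ) (k : ℕ) (u : ℤ × ℤ) : rf x₀ k (rf x₀ k u) = u := by
  unfold rf
  ext
  · dsimp only
    ring
  · rfl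

theorem rv_rv (x₀ : ℤ) (k : ℕ) (u : ℤ × ℤ) : rv x₀ k (rv x₀ k u) = u := by
  unfold rv
  ext
  · dsimp only
    ring
  · rfl

theorem conn_rf {x₀ y₀ : ℤ} {k : ℕ} {ω : Cfg} {u v : ℤ × ℤ}
    (h : Conn (flip (fun _ => true) (fun f => ω (rf x₀ k f))) (RF x₀ (x₀ + k) y₀ (y₀ + k)) u v) :
    Conn ω (RF x₀ (x₀ + k) y₀ (y₀ + k)) (rv x₀ k u) (rv x₀ k v) := by
  refine Relation.ReflTransGen.lift (r := Bond _ _) (p := Bond _ _) _ ?_ _ _ h
  rintro a b ⟨x, y, hxy, hb⟩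
  change Bond _ _ _ _
  rw [Finset.mem_coe, mem_RF] at hxy
  dsimp only at hxy
  unfold flip at hb
  refine ⟨2 * x₀ + k - 1 - x, y, ?_, ?_⟩
  · rw [Finset.mem_coe, mem_RF]
    refine ⟨⟨?_, ?_⟩, ?_, ?_⟩ <;> dsimp only <;> omega
  · rcases hb with ⟨h1, h2⟩ | ⟨h1, h2⟩
    · right
      refine ⟨?_, ?_⟩
      · simpa [rf] using h1
      rcases h2 with ⟨rfl, rfl⟩ | ⟨rfl, rfl⟩
      · right
        unfold rv
        constructor <;> ext <;> dsimp only <;> ring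
      · left
        unfold rv
        constructor <;> ext <;> dsimp only <;> ring
    · left
      refine ⟨?_, ?_⟩
      · simpa [rf] using h1
      rcases h2 with ⟨rfl, rfl⟩ | ⟨rfl, rfl⟩
      · right
        unfold rv
        constructor <;> ext <;> dsimp only <;> ring
      · left
        unfold rv
        constructor <;> ext <;> dsimp only <;> ring

theorem conn_rf' {x₀ y₀ : ℤ} {k : ℕ} {ω : Cfg} {u v : ℤ × ℤ}
    (h : Conn ω (RF x₀ (x₀ + k) y₀ (y₀ + k)) u v) :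
    Conn (flip (fun _ => true) (fun f => ω (rf x₀ k f))) (RF x₀ (x₀ + k) y₀ (y₀ + k))
      (rv x₀ k u) (rv x₀ k v) := by
  apply conn_rf (ω := flip (fun _ => true) (fun f => ω (rf x₀ k f)))
  have : flip (fun _ => true) (fun f => (flip (fun _ => true) (fun f => ω (rf x₀ k f)))
      (rf x₀ k f)) = ω := by
    funext f
    unfold flip
    simp only [rf_rf, Bool.true_xor, Bool.not_not]
  rw [this]
  exact h

theorem pr_BT_succ (c : ℤ) {k : ℕ} (hk : k % 2 = 1) (x₀ y₀ : ℤ) :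
    pr (RF x₀ (x₀ + k) y₀ (y₀ + k)) (BT c x₀ (x₀ + k) y₀ (y₀ + k)) =
      pr (RF x₀ (x₀ + k) y₀ (y₀ + k)) (BT (c + 1) x₀ (x₀ + k) y₀ (y₀ + k)) := by
  have hd : DepOn (RF x₀ (x₀ + k) y₀ (y₀ + k) : Set (ℤ × ℤ))
      {ω | flip (fun _ => true) ω ∈ BT (c + 1) x₀ (x₀ + k) y₀ (y₀ + k)} := by
    intro ω ω' hω
    apply depOn_BT (c + 1) x₀ (x₀ + k) y₀ (y₀ + k) _ _
    intro f hf
    unfold flip
    rw [hω f hf]
  have h := pr_comp (S := RF x₀ (x₀ + k) y₀ (y₀ + k)) (S' := RF x₀ (x₀ + k) y₀ (y₀ + k))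
    (A := {ω | flip (fun _ => true) ω ∈ BT (c + 1) x₀ (x₀ + k) y₀ (y₀ + k)}) (f := rf x₀ k) (by
      intro a _ b _ hab
      rw [← rf_rf x₀ k a, hab, rf_rf]) (by
      intro f hf
      rw [mem_RF] at hf ⊢
      unfold rf
      refine ⟨⟨?_, ?_⟩, ?_, ?_⟩ <;> dsimp only <;> omega) hd
  rw [pr_flip _ (depOn_BT (c + 1) x₀ (x₀ + k) y₀ (y₀ + k))] at h
  rw [← h]
  apply pr_congr
  intro T _
  constructor
  · rintro ⟨u, v, h1, h2, h3, h4, h5, h6⟩
    refine ⟨rv x₀ k u, rv x₀ k v, ?_, ?_, ?_, ?_, ?_, conn_rf' h6⟩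
    · exact h1
    · unfold rv
      dsimp only
      omega
    · unfold rv
      dsimp only
      omega
    · exact h4
    · unfold rv
      dsimp only
      omega
  · rintro ⟨u, v, h1, h2, h3, h4, h5, h6⟩
    refine ⟨rv x₀ k u, rv x₀ k v, ?_, ?_, ?_, ?_, ?_, conn_rf h6⟩
    · exact h1
    · unfold rv
      dsimp only
      omega
    · unfold rv
      dsimp only
      omega
    · exact h4
    · unfold rv
      dsimp only
      omega

end PlanarB

/-- Squares of odd size are crossed with probability `1/2`. -/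
theorem pr_BT_square (c : ℤ) {k : ℕ} (hk : k % 2 = 1) (x₀ y₀ : ℤ) :
    pr (RF x₀ (x₀ + k) y₀ (y₀ + k)) (BT c x₀ (x₀ + k) y₀ (y₀ + k)) = 1 / 2 := by
  have h1 := PlanarB.pr_LR c k x₀ y₀
  have h2 := PlanarB.pr_BT_succ c hk x₀ y₀
  have h3 : pr (RF x₀ (x₀ + k) y₀ (y₀ + k)) (LR c x₀ (x₀ + k) y₀ (y₀ + k)) =
      1 - pr (RF x₀ (x₀ + k) y₀ (y₀ + k)) (BT (c + 1) x₀ (x₀ + k) y₀ (y₀ + k)) := by
    rw [← pr_compl]
    apply pr_congr
    intro T _
    have hx : x₀ < x₀ + k := by omega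
    have hy : y₀ < y₀ + k := by omega
    have e1 := lr_or_bt c hx hy (cfg T)
    have e2 := not_lr_and_bt c hx hy (cfg T)
    constructor
    · intro h h'
      exact e2 ⟨h, h'⟩
    · intro h
      exact e1.resolve_right h
  linarith

namespace PlanarB

theorem right_part {ω : Cfg} {n : ℕ} {w : ℤ × ℤ}
    (h : Conn ω (RF (-(n + 1)) (n + 1) 0 n) (0, 0) w) (hw : 1 ≤ w.1) :
    ∃ z : ℤ × ℤ, z.1 = 1 ∧ 0 ≤ z.2 ∧ z.2 ≤ n ∧ Conn ω (RF (-(n + 1)) (n + 1) 0 n) (0, 0) z ∧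
      Conn ω (RF 1 (1 + n) 0 (0 + n)) z w := by
  induction h with
  | refl =>
    exfalso
    dsimp only at hw
    omega
  | @tail a b hab hb ih =>
    obtain ⟨x, y, hxy, hb2⟩ := hb
    rw [Finset.mem_coe, mem_RF] at hxy
    dsimp only at hxy
    by_cases ha : 1 ≤ a.1
    · obtain ⟨z, h1, h2, h3, h4, h5⟩ := ih ha
      refine ⟨z, h1, h2, h3, h4, h5.tail ⟨x, y, ?_, hb2⟩⟩
      rw [Finset.mem_coe, mem_RF]
      have : 1 ≤ x := by
        rcases hb2 with ⟨_, ⟨rfl, rfl⟩ | ⟨rfl, rfl⟩⟩ | ⟨_, ⟨rfl, rfl⟩ | ⟨rfl, rfl⟩⟩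
        · exact ha
        · exact hw
        · exact ha
        · exact hw
      dsimp only
      omega
    · have hc : Conn ω (RF (-(n + 1)) (n + 1) 0 n) (0, 0) b := hab.tail ⟨x, y, by
        rw [Finset.mem_coe, mem_RF]
        exact hxy, hb2⟩
      have hm := Conn.mem_rect hc (by
        refine ⟨?_, ?_, ?_, ?_⟩ <;> dsimp only <;> omega)
      refine ⟨b, ?_, hm.2.2.1, hm.2.2.2, hc, Relation.ReflTransGen.refl⟩
      rcases hb2 with ⟨_, ⟨rfl, rfl⟩ | ⟨rfl, rfl⟩⟩ | ⟨_, ⟨rfl, rfl⟩ | ⟨rfl, rfl⟩⟩ <;>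
        dsimp only at ha hw ⊢ <;> omega

theorem left_part {ω : Cfg} {n : ℕ} {w : ℤ × ℤ}
    (h : Conn ω (RF (-(n + 1)) (n + 1) 0 n) (0, 0) w) (hw : w.1 ≤ -1) :
    ∃ z : ℤ × ℤ, z.1 = -1 ∧ 0 ≤ z.2 ∧ z.2 ≤ n ∧ Conn ω (RF (-(n + 1)) (n + 1) 0 n) (0, 0) z ∧
      Conn ω (RF (-(n + 1)) (-(n + 1) + n) 0 (0 + n)) z w := by
  induction h with
  | refl =>
    exfalso
    dsimp only at hw
    omega
  | @tail a b hab hb ih =>
    obtain ⟨x, y, hxy, hb2⟩ := hb
    rw [Finset.mem_coe, mem_RF] at hxy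
    dsimp only at hxy
    by_cases ha : a.1 ≤ -1
    · obtain ⟨z, h1, h2, h3, h4, h5⟩ := ih ha
      refine ⟨z, h1, h2, h3, h4, h5.tail ⟨x, y, ?_, hb2⟩⟩
      rw [Finset.mem_coe, mem_RF]
      have : x + 1 ≤ -1 := by
        rcases hb2 with ⟨_, ⟨rfl, rfl⟩ | ⟨rfl, rfl⟩⟩ | ⟨_, ⟨rfl, rfl⟩ | ⟨rfl, rfl⟩⟩
        · exact hw
        · exact ha
        · exact hw
        · exact ha
      dsimp only
      omega
    · have hc : Conn ω (RF (-(n + 1)) (n + 1) 0 n) (0, 0) b := hab.tail ⟨x, y, by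
        rw [Finset.mem_coe, mem_RF]
        exact hxy, hb2⟩
      have hm := Conn.mem_rect hc (by
        refine ⟨?_, ?_, ?_, ?_⟩ <;> dsimp only <;> omega)
      refine ⟨b, ?_, hm.2.2.1, hm.2.2.2, hc, Relation.ReflTransGen.refl⟩
      rcases hb2 with ⟨_, ⟨rfl, rfl⟩ | ⟨rfl, rfl⟩⟩ | ⟨_, ⟨rfl, rfl⟩ | ⟨rfl, rfl⟩⟩ <;>
        dsimp only at ha hw ⊢ <;> omega

theorem depOn_inter {S : Set (ℤ × ℤ)} {A B : Set Cfg} (hA : DepOn S A) (hB : DepOn S B) :
    DepOn S (A ∩ B) := by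
  intro ω ω' h
  exact and_congr (hA ω ω' h) (hB ω ω' h)

theorem depOn_mono {S S' : Set (ℤ × ℤ)} {A : Set Cfg} (hA : DepOn S A) (h : S ⊆ S') :
    DepOn S' A := fun ω ω' h' => hA ω ω' fun f hf => h' f (h hf)

theorem incD_inter {D : ℤ × ℤ → Bool} {A B : Set Cfg} (hA : IncD D A) (hB : IncD D B) :
    IncD D (A ∩ B) := fun ω ω' h h' => ⟨hA ω ω' h h'.1, hB ω ω' h h'.2⟩

theorem incD_BT (c x₀ x₁ y₀ y₁ : ℤ) : IncD (parD c) (BT c x₀ x₁ y₀ y₁) := by
  rintro ω ω' h ⟨u, v, h1, h2, h3, h4, h5, h6⟩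
  exact ⟨u, v, h1, h2, h3, h4, h5, incD_conn c _ h5 ω ω' h h6⟩

theorem incD_hpArm (r : ℤ) : IncD (parD 0) (hpArm r) := by
  rintro ω ω' h ⟨v, h1, h2⟩
  exact ⟨v, incD_conn 0 _ (by simp) ω ω' h h1, h2⟩

theorem geom {n : ℕ} (hn : 0 < n) {ω : Cfg} (hA : ω ∈ hpArm (n + 1))
    (hR : ω ∈ BT 0 1 (1 + n) 0 (0 + n)) (hL : ω ∈ BT 0 (-(n + 1)) (-(n + 1) + n) 0 (0 + n)) :
    ∃ v, Conn ω (RF (-(n + 1)) (n + 1) 0 n) (0, 0) v ∧ v.2 = n := by
  obtain ⟨v, hv, hv2⟩ := hA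
  obtain ⟨w, hw, hw2⟩ := Conn.toSides (x₀ := -((n : ℤ) + 1)) (x₁ := (n : ℤ) + 1) (y₀ := 0)
    (y₁ := n) hv (by
      intro f hf
      rw [Finset.mem_coe, mem_RF] at hf
      exact hf.2.1) (by
      refine ⟨?_, ?_, ?_, ?_⟩ <;> dsimp only <;> omega) (by
      rintro ⟨e1, e2, e3⟩
      omega)
  have hw' : Conn ω (RF (-(n + 1)) (n + 1) 0 n) (0, 0) w := Conn.mono Set.inter_subset_right hw
  have hm := Conn.mem_rect hw' (by
        refine ⟨?_, ?_, ?_, ?_⟩ <;> dsimp only <;> omega)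
  have hpar : ∀ z, Conn ω (RF (-(n + 1)) (n + 1) 0 n) (0, 0) z → (z.1 + z.2) % 2 = 0 := by
    intro z hz
    have := Conn.parity hz
    dsimp only at this
    omega
  have hsub1 : (RF 1 (1 + n) 0 (0 + n) : Set (ℤ × ℤ)) ⊆ RF (-(n + 1)) (n + 1) 0 n := by
    intro f hf
    rw [Finset.mem_coe, mem_RF] at hf ⊢
    omega
  have hsub2 : (RF (-(n + 1)) (-(n + 1) + n) 0 (0 + n) : Set (ℤ × ℤ)) ⊆
      RF (-(n + 1)) (n + 1) 0 n := by
    intro f hf
    rw [Finset.mem_coe, mem_RF] at hf ⊢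
    omega
  rcases hw2 with h1 | h1 | h1
  · obtain ⟨z, z1, z2, z3, z4, z5⟩ := left_part hw' (by omega)
    obtain ⟨u', v', b1, b2, b3, b4, b5, b6⟩ := hL
    have hmeet := crossings_meet (x₀ := -((n : ℤ) + 1)) (x₁ := -((n : ℤ) + 1) + n) (y₀ := 0)
      (y₁ := 0 + n) (by omega) (by omega) (u := w) (v := z) (u' := u') (v' := v')
      ⟨h1, by omega, by omega⟩ (by omega) ⟨b1, by omega, by omega⟩ b4 (by
        have := hpar w hw'
        omega) z5.symm b6
    refine ⟨v', ?_, by omega⟩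
    exact hw'.trans ((Conn.mono hsub2 hmeet).trans (Conn.mono hsub2 b6))
  · obtain ⟨z, z1, z2, z3, z4, z5⟩ := right_part hw' (by omega)
    obtain ⟨u', v', b1, b2, b3, b4, b5, b6⟩ := hR
    have hmeet := crossings_meet (x₀ := 1) (x₁ := 1 + n) (y₀ := 0)
      (y₁ := 0 + n) (by omega) (by omega) (u := z) (v := w) (u' := u') (v' := v')
      ⟨z1, by omega, by omega⟩ (by omega) ⟨b1, by omega, by omega⟩ b4 (by
        have := hpar z z4
        omega) z5 b6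
    refine ⟨v', ?_, by omega⟩
    exact z4.trans ((Conn.mono hsub1 hmeet).trans (Conn.mono hsub1 b6))
  · exact ⟨w, hw', h1⟩

end PlanarB

/-- Connection to the top of a strip of odd height `n`: at least `1/4` of the probability of the
half-plane arm to distance `n + 1`. -/
theorem pr_top_ge {n : ℕ} (hn : n % 2 = 1) :
    pArm (n + 1) / 4 ≤ pr (RF (-(n + 1)) (n + 1) 0 n)
      {ω | ∃ v, Conn ω (RF (-(n + 1)) (n + 1) 0 n) (0, 0) v ∧ v.2 = n} := by
  set S : Finset (ℤ × ℤ) := RF (-((n : ℤ) + 1)) (n + 1) 0 (n + 1) with hS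
  set S₀ : Finset (ℤ × ℤ) := RF (-((n : ℤ) + 1)) (n + 1) 0 n with hS₀
  set A : Set Cfg := hpArm (n + 1) with hA
  set VR : Set Cfg := BT 0 1 (1 + n) 0 (0 + n) with hVR
  set VL : Set Cfg := BT 0 (-((n : ℤ) + 1)) (-(n + 1) + n) 0 (0 + n) with hVL
  have hsR : (RF 1 (1 + n) 0 (0 + n) : Finset (ℤ × ℤ)) ⊆ S := by
    intro f hf
    rw [hS, PlanarB.mem_RF]
    rw [PlanarB.mem_RF] at hf
    omega
  have hsL : (RF (-((n : ℤ) + 1)) (-(n + 1) + n) 0 (0 + n) : Finset (ℤ × ℤ)) ⊆ S := by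
    intro f hf
    rw [hS, PlanarB.mem_RF]
    rw [PlanarB.mem_RF] at hf
    omega
  have hs0 : S₀ ⊆ S := by
    intro f hf
    rw [hS, PlanarB.mem_RF]
    rw [hS₀, PlanarB.mem_RF] at hf
    omega
  have dR : DepOn S VR := PlanarB.depOn_mono (depOn_BT _ _ _ _ _) (Finset.coe_subset.2 hsR)
  have dL : DepOn S VL := PlanarB.depOn_mono (depOn_BT _ _ _ _ _) (Finset.coe_subset.2 hsL)
  have dA : DepOn S A := depOn_hpArm _
  have pR : pr S VR = 1 / 2 := by
    rw [pr_eq_of_depOn (depOn_BT 0 1 (1 + n) 0 (0 + n)) hsR]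
    exact pr_BT_square 0 hn 1 0
  have pL : pr S VL = 1 / 2 := by
    rw [pr_eq_of_depOn (depOn_BT 0 (-((n : ℤ) + 1)) (-(n + 1) + n) 0 (0 + n)) hsL]
    exact pr_BT_square 0 hn (-((n : ℤ) + 1)) 0
  have h1 : pr S VR * pr S VL ≤ pr S (VR ∩ VL) :=
    harris (parD 0) dR dL (PlanarB.incD_BT _ _ _ _ _) (PlanarB.incD_BT _ _ _ _ _)
  have h2 : pr S A * pr S (VR ∩ VL) ≤ pr S (A ∩ (VR ∩ VL)) :=
    harris (parD 0) dA (PlanarB.depOn_inter dR dL) (PlanarB.incD_hpArm _)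
      (PlanarB.incD_inter (PlanarB.incD_BT _ _ _ _ _) (PlanarB.incD_BT _ _ _ _ _))
  have dT : DepOn (S₀ : Set (ℤ × ℤ)) {ω | ∃ v, Conn ω S₀ (0, 0) v ∧ v.2 = n} := by
    intro ω ω' h
    constructor
    · rintro ⟨v, h1, h2⟩
      exact ⟨v, (depOn_conn _ _ v ω ω' h).1 h1, h2⟩
    · rintro ⟨v, h1, h2⟩
      exact ⟨v, (depOn_conn _ _ v ω ω' h).2 h1, h2⟩
  rw [← pr_eq_of_depOn dT hs0]
  have h3 : pr S (A ∩ (VR ∩ VL)) ≤ pr S {ω | ∃ v, Conn ω S₀ (0, 0) v ∧ v.2 = n} := by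
    apply pr_mono
    rintro ω ⟨e1, e2, e3⟩
    exact PlanarB.geom (by omega) e1 e2 e3
  have h4 : 0 ≤ pr S A := pr_nonneg _ _
  have h5 : pArm (n + 1) = pr S A := rfl
  rw [h5]
  rw [pR, pL] at h1
  nlinarith [mul_le_mul_of_nonneg_left h1 h4]

end Pool.Agent.Perc

end PartpercPlanarB

section PartpercPlanar



end PartpercPlanar

section PartpercwCoreDefs

/-!
# The component of a unit edge under the matching: definitions

A unit edge of the grid `ℤ × ℤ` joins a vertex of one parity to a vertex of the other parity. Inside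
every face the four sides are matched in two pairs by the two arcs which avoid the diagonal of the
face. `MM ω F e` is the component of `e` under this matching in the faces of `F` (the part in `F` of
the interface which crosses `e`), `SS ω F e` is the set of the visited faces, and `pot M` is a
function on the vertices of a rectangle which changes exactly across the unit edges of `M`.
-/

set_option autoImplicit false

namespace Pool.Agent.Perc

open Finset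

/-- A unit edge of the grid: `(x, y, false)` joins `(x, y)` and `(x + 1, y)`, `(x, y, true)` joins
`(x, y)` and `(x, y + 1)`. -/
abbrev UE := ℤ × ℤ × Bool

/-- The left or lower end of a unit edge. -/
def ua (a : UE) : ℤ × ℤ := (a.1, a.2.1)

/-- The right or upper end of a unit edge. -/
def ub (a : UE) : ℤ × ℤ := if a.2.2 then (a.1, a.2.1 + 1) else (a.1 + 1, a.2.1)

/-- `u` and `v` are the two ends of `e`. -/
def Joins (e : UE) (u v : ℤ × ℤ) : Prop := (u = ua e ∧ v = ub e) ∨ (u = ub e ∧ v = ua e)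

/-- The lower side of a face. -/
def bo (f : ℤ × ℤ) : UE := (f.1, f.2, false)
/-- The left side of a face. -/
def le' (f : ℤ × ℤ) : UE := (f.1, f.2, true)
/-- The upper side of a face. -/
def to' (f : ℤ × ℤ) : UE := (f.1, f.2 + 1, false)
/-- The right side of a face. -/
def ri (f : ℤ × ℤ) : UE := (f.1 + 1, f.2, true)

/-- `a` is a side of the face `f`. -/
def IsSide (f : ℤ × ℤ) (a : UE) : Prop := a = bo f ∨ a = le' f ∨ a = to' f ∨ a = ri f

/-- `w` is a corner of the face `f`. -/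
def IsCor (f w : ℤ × ℤ) : Prop := (w.1 = f.1 ∨ w.1 = f.1 + 1) ∧ (w.2 = f.2 ∨ w.2 = f.2 + 1)

/-- `w` is in the rectangle `[x₀, x₁] × [y₀, y₁]`. -/
def InR (x₀ x₁ y₀ y₁ : ℤ) (w : ℤ × ℤ) : Prop := x₀ ≤ w.1 ∧ w.1 ≤ x₁ ∧ y₀ ≤ w.2 ∧ w.2 ≤ y₁

/-- The sides `a` and `a'` of the face `f` are matched. -/
def Mt (ω : Cfg) (f : ℤ × ℤ) (a a' : UE) : Prop :=
  (ω f = true ∧ ((a = bo f ∧ a' = ri f) ∨ (a = ri f ∧ a' = bo f) ∨ (a = le' f ∧ a' = to' f) ∨
    (a = to' f ∧ a' = le' f))) ∨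
  (ω f = false ∧ ((a = bo f ∧ a' = le' f) ∨ (a = le' f ∧ a' = bo f) ∨ (a = to' f ∧ a' = ri f) ∨
    (a = ri f ∧ a' = to' f)))

/-- The component of `e` under the matching in the faces of `F`. -/
def MM (ω : Cfg) (F : Set (ℤ × ℤ)) (e : UE) : Set UE :=
  {a | Relation.ReflTransGen (fun a a' => ∃ f ∈ F, Mt ω f a a') e a}

/-- The faces of `F` which are visited by the component of `e`. -/
def SS (ω : Cfg) (F : Set (ℤ × ℤ)) (e : UE) : Set (ℤ × ℤ) :=
  {f | f ∈ F ∧ ∃ a ∈ MM ω F e, IsSide f a}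

open Classical in
/-- The potential of a set of unit edges on the vertices with `x₀ ≤ w.1` and `y₀ ≤ w.2`. -/
noncomputable def pot (x₀ y₀ : ℤ) (M : Set UE) (w : ℤ × ℤ) : ZMod 2 :=
  (∑ i ∈ Ico x₀ w.1, if ((i, y₀, false) : UE) ∈ M then 1 else 0) +
    ∑ j ∈ Ico y₀ w.2, if ((w.1, j, true) : UE) ∈ M then 1 else 0

/-- The potential of the component of `e` in a rectangle. -/
noncomputable def potR (ω : Cfg) (x₀ x₁ y₀ y₁ : ℤ) (e : UE) : ℤ × ℤ → ZMod 2 :=
  pot x₀ y₀ (MM ω (RF x₀ x₁ y₀ y₁) e)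

end Pool.Agent.Perc

end PartpercwCoreDefs

section PartpercwCoreA

/-!
# The component of a unit edge: potential
-/

set_option autoImplicit false

namespace Pool.Agent.Perc

open Finset

variable {ω ω' : Cfg} {F F' : Set (ℤ × ℤ)} {e a a' : UE} {f : ℤ × ℤ}

theorem ua_mk (x y : ℤ) (b : Bool) : ua (x, y, b) = (x, y) := rfl
theorem ub_false (x y : ℤ) : ub (x, y, false) = (x + 1, y) := by simp [ub]
theorem ub_true (x y : ℤ) : ub (x, y, true) = (x, y + 1) := by simp [ub]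

theorem Mt.symm (h : Mt ω f a a') : Mt ω f a' a := by
  unfold Mt at *
  tauto

theorem Mt.left (h : Mt ω f a a') : IsSide f a := by
  unfold Mt at h; unfold IsSide
  tauto

theorem Mt.right (h : Mt ω f a a') : IsSide f a' := h.symm.left

theorem mem_MM_self : e ∈ MM ω F e := Relation.ReflTransGen.refl

theorem MM_step (hf : f ∈ F) (h : Mt ω f a a') (ha : a ∈ MM ω F e) : a' ∈ MM ω F e :=
  Relation.ReflTransGen.tail ha ⟨f, hf, h⟩

theorem MM_iff (hf : f ∈ F) (h : Mt ω f a a') : a ∈ MM ω F e ↔ a' ∈ MM ω F e :=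
  ⟨MM_step hf h, MM_step hf h.symm⟩

theorem MM_mono (h : F ⊆ F') (ha : a ∈ MM ω F e) : a ∈ MM ω F' e := by
  induction ha with
  | refl => exact mem_MM_self
  | tail _ hs ih =>
    obtain ⟨f, hf, hm⟩ := hs
    exact MM_step (h hf) hm ih

theorem SS_sub : SS ω F e ⊆ F := fun _ h => h.1

/-- In every face the number of sides in the component is even. -/
theorem MM_even (hf : f ∈ F) :
    (bo f ∈ MM ω F e ↔ ri f ∈ MM ω F e) ∧ (le' f ∈ MM ω F e ↔ to' f ∈ MM ω F e) ∧ ω f = true ∨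
    (bo f ∈ MM ω F e ↔ le' f ∈ MM ω F e) ∧ (to' f ∈ MM ω F e ↔ ri f ∈ MM ω F e) ∧ ω f = false := by
  cases h : ω f with
  | true =>
    left
    exact ⟨MM_iff hf (Or.inl ⟨h, Or.inl ⟨rfl, rfl⟩⟩),
      MM_iff hf (Or.inl ⟨h, Or.inr (Or.inr (Or.inl ⟨rfl, rfl⟩))⟩), rfl⟩
  | false =>
    right
    exact ⟨MM_iff hf (Or.inr ⟨h, Or.inl ⟨rfl, rfl⟩⟩),
      MM_iff hf (Or.inr ⟨h, Or.inr (Or.inr (Or.inl ⟨rfl, rfl⟩))⟩), rfl⟩

/-- Indicator in `ZMod 2`. -/
noncomputable def ind2 (P : Prop) : ZMod 2 := by classical exact if P then 1 else 0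

theorem ind2_pos {P : Prop} (h : P) : ind2 P = 1 := by simp [ind2, h]
theorem ind2_neg {P : Prop} (h : ¬ P) : ind2 P = 0 := by simp [ind2, h]
theorem ind2_eq_one {P : Prop} : ind2 P = 1 ↔ P := by
  by_cases h : P
  · rw [ind2_pos h]; exact ⟨fun _ => h, fun _ => rfl⟩
  · rw [ind2_neg h]; exact ⟨fun h' => absurd h' (by decide), fun h' => absurd h' h⟩

theorem ne_add_ind2 {P : Prop} (x : ZMod 2) : x ≠ x + ind2 P ↔ P := by
  by_cases h : P
  · rw [ind2_pos h]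
    exact ⟨fun _ => h, fun _ => by revert x; decide⟩
  · rw [ind2_neg h, add_zero]
    exact ⟨fun h' => absurd rfl h', fun h' => absurd h' h⟩

theorem ind2_congr {P Q : Prop} (h : P ↔ Q) : ind2 P = ind2 Q := by
  by_cases hP : P
  · rw [ind2_pos hP, ind2_pos (h.1 hP)]
  · rw [ind2_neg hP, ind2_neg fun hQ => hP (h.2 hQ)]

theorem z2_add_self (x : ZMod 2) : x + x = 0 := CharTwo.add_self_eq_zero x

theorem z2_cases (x : ZMod 2) : x = 0 ∨ x = 1 := by
  revert x; decide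

theorem z2_ne (x y : ZMod 2) : x ≠ y ↔ x = y + 1 := by
  revert x y; decide

theorem z2_of_ne {x y z : ZMod 2} (h1 : x ≠ y) (h2 : z ≠ y) : x = z := by
  revert x y z; decide

theorem z2_or {x y : ZMod 2} (h : x ≠ y) (z : ZMod 2) : z = x ∨ z = y := by
  revert x y z; decide

theorem pot_eq (x₀ y₀ : ℤ) (M : Set UE) (w : ℤ × ℤ) :
    pot x₀ y₀ M w = (∑ i ∈ Ico x₀ w.1, ind2 (((i, y₀, false) : UE) ∈ M)) +
      ∑ j ∈ Ico y₀ w.2, ind2 (((w.1, j, true) : UE) ∈ M) := by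
  unfold pot ind2
  rfl

theorem sum_Ico_succ' {a b : ℤ} (h : a ≤ b) (g : ℤ → ZMod 2) :
    ∑ i ∈ Ico a (b + 1), g i = ∑ i ∈ Ico a b, g i + g b := by
  rw [show Ico a (b + 1) = insert b (Ico a b) by ext i; simp only [mem_Ico, mem_insert]; omega,
    sum_insert (by simp), add_comm]

/-- Vertical increments of the potential. -/
theorem pot_ver {x₀ y₀ : ℤ} {M : Set UE} {x y : ℤ} (hy : y₀ ≤ y) :
    pot x₀ y₀ M (x, y + 1) = pot x₀ y₀ M (x, y) + ind2 (((x, y, true) : UE) ∈ M) := by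
  rw [pot_eq, pot_eq]
  simp only
  rw [sum_Ico_succ' hy, add_assoc]

/-- The number of sides in `M` is even. -/
def EvenAt (M : Set UE) (f : ℤ × ℤ) : Prop :=
  ind2 (bo f ∈ M) + ind2 (ri f ∈ M) + (ind2 (to' f ∈ M) + ind2 (le' f ∈ M)) = 0

/-- Horizontal increments of the potential. -/
theorem pot_hor {x₀ x₁ y₀ y₁ : ℤ} {M : Set UE}
    (hM : ∀ f ∈ RF x₀ x₁ y₀ y₁, EvenAt M f) {x : ℤ} (hx : x₀ ≤ x) (hx1 : x < x₁) {y : ℤ}
    (hy : y₀ ≤ y) (hy1 : y ≤ y₁) :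
    pot x₀ y₀ M (x + 1, y) = pot x₀ y₀ M (x, y) + ind2 (((x, y, false) : UE) ∈ M) := by
  revert hy1
  induction y, hy using Int.leInduction with
  | base =>
    intro _
    rw [pot_eq, pot_eq]
    simp only [Ico_self, sum_empty, add_zero]
    exact sum_Ico_succ' hx _
  | succ y hy ih =>
    intro hy1
    rw [pot_ver hy, pot_ver hy, ih (by omega)]
    have h := hM (x, y) (by simp only [RF, mem_product, mem_Ico]; omega)
    unfold EvenAt bo ri to' le' at h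
    simp only at h
    generalize ind2 (((x, y, false) : UE) ∈ M) = p1 at h ⊢
    generalize ind2 (((x + 1, y, true) : UE) ∈ M) = p2 at h ⊢
    generalize ind2 (((x, y + 1, false) : UE) ∈ M) = p3 at h ⊢
    generalize ind2 (((x, y, true) : UE) ∈ M) = p4 at h ⊢
    generalize pot x₀ y₀ M (x, y) = p5
    revert p1 p2 p3 p4 p5
    decide

theorem evenAt_MM (hf : f ∈ F) : EvenAt (MM ω F e) f := by
  unfold EvenAt
  rcases MM_even (ω := ω) (e := e) hf with ⟨h1, h2, _⟩ | ⟨h1, h2, _⟩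
  · rw [ind2_congr h1, ind2_congr h2, z2_add_self, z2_add_self, add_zero]
  · rw [ind2_congr h1, ind2_congr h2]
    generalize ind2 (le' f ∈ MM ω F e) = p1
    generalize ind2 (ri f ∈ MM ω F e) = p2
    revert p1 p2
    decide

variable {x₀ x₁ y₀ y₁ : ℤ}

theorem mem_RF {x₀ x₁ y₀ y₁ : ℤ} {f : ℤ × ℤ} :
    f ∈ RF x₀ x₁ y₀ y₁ ↔ x₀ ≤ f.1 ∧ f.1 < x₁ ∧ y₀ ≤ f.2 ∧ f.2 < y₁ := by
  simp only [RF, mem_product, mem_Ico]
  tauto

theorem mem_RF' {x₀ x₁ y₀ y₁ : ℤ} {f : ℤ × ℤ} :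
    f ∈ (RF x₀ x₁ y₀ y₁ : Set (ℤ × ℤ)) ↔ x₀ ≤ f.1 ∧ f.1 < x₁ ∧ y₀ ≤ f.2 ∧ f.2 < y₁ := by
  rw [Finset.mem_coe, mem_RF]

/-- The potential changes exactly across the unit edges of the component. -/
theorem potR_iff {a : UE} (ha : InR x₀ x₁ y₀ y₁ (ua a)) (hb : InR x₀ x₁ y₀ y₁ (ub a)) :
    a ∈ MM ω (RF x₀ x₁ y₀ y₁) e ↔ potR ω x₀ x₁ y₀ y₁ e (ua a) ≠ potR ω x₀ x₁ y₀ y₁ e (ub a) := by
  obtain ⟨x, y, b⟩ := a
  unfold potR
  unfold InR at ha hb
  cases b with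
  | true =>
    rw [ua_mk, ub_true] at *
    simp only at ha hb
    rw [pot_ver ha.2.2.1, ne_add_ind2]
  | false =>
    rw [ua_mk, ub_false] at *
    simp only at ha hb
    rw [pot_hor (x₁ := x₁) (y₁ := y₁) (fun f hf => evenAt_MM (by exact_mod_cast hf)) ha.1 (by omega)
      ha.2.2.1 ha.2.2.2, ne_add_ind2]

end Pool.Agent.Perc

end PartpercwCoreA

section PartpercwCoreB

/-!
# The component of a unit edge: connections inside the visited faces, stopping property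
-/

set_option autoImplicit false

namespace Pool.Agent.Perc

open Finset

variable {ω ω' : Cfg} {F F' : Set (ℤ × ℤ)} {e a a' : UE} {f : ℤ × ℤ} {u v : ℤ × ℤ}
  {x₀ x₁ y₀ y₁ : ℤ}

/-- Parity of a vertex. -/
def par (w : ℤ × ℤ) : ℤ := (w.1 + w.2) % 2

theorem par_cases (w : ℤ × ℤ) : par w = 0 ∨ par w = 1 := by
  unfold par; omega

theorem par_ub (a : UE) : par (ub a) ≠ par (ua a) := by
  obtain ⟨x, y, b⟩ := a
  cases b
  · rw [ub_false, ua_mk]; unfold par; simp only; omega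
  · rw [ub_true, ua_mk]; unfold par; simp only; omega

theorem Joins.symm (h : Joins e u v) : Joins e v u := by
  unfold Joins at *; tauto

theorem Joins.par_ne (h : Joins e u v) : par u ≠ par v := by
  rcases h with ⟨rfl, rfl⟩ | ⟨rfl, rfl⟩
  · exact (par_ub e).symm
  · exact par_ub e

theorem Bond.symm' {p q : ℤ × ℤ} (h : Bond ω F p q) : Bond ω F q p := h.symm

/-- A bond in a face: the two ends are corners of the face. -/
theorem Bond.exists_face {p q : ℤ × ℤ} (h : Bond ω F p q) :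
    ∃ f ∈ F, Bond ω {f} p q ∧ IsCor f p ∧ IsCor f q := by
  obtain ⟨x, y, hf, h⟩ := h
  refine ⟨(x, y), hf, ⟨x, y, rfl, h⟩, ?_, ?_⟩ <;> unfold IsCor <;>
    rcases h with ⟨-, (⟨rfl, rfl⟩ | ⟨rfl, rfl⟩)⟩ | ⟨-, (⟨rfl, rfl⟩ | ⟨rfl, rfl⟩)⟩ <;> simp

theorem Bond.par_eq {p q : ℤ × ℤ} (h : Bond ω F p q) : par p = par q := by
  obtain ⟨x, y, hf, h⟩ := h
  rcases h with ⟨-, (⟨rfl, rfl⟩ | ⟨rfl, rfl⟩)⟩ | ⟨-, (⟨rfl, rfl⟩ | ⟨rfl, rfl⟩)⟩ <;>
    unfold par <;> simp only <;> omega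

theorem Bond.congr {p q : ℤ × ℤ} (hω : ω f = ω' f) (h : Bond ω {f} p q) : Bond ω' {f} p q := by
  obtain ⟨x, y, hf, h⟩ := h
  refine ⟨x, y, hf, ?_⟩
  rw [Set.mem_singleton_iff] at hf
  subst hf
  rw [← hω]; exact h

theorem Bond.mono {p q : ℤ × ℤ} (hF : F ⊆ F') (h : Bond ω F p q) : Bond ω F' p q := by
  obtain ⟨x, y, hf, h⟩ := h
  exact ⟨x, y, hF hf, h⟩

theorem Bond.of_single {p q : ℤ × ℤ} (hF : f ∈ F) (h : Bond ω {f} p q) : Bond ω F p q :=
  h.mono (by simpa using hF)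

theorem Conn.par_eq {p q : ℤ × ℤ} (h : Conn ω F p q) : par p = par q := by
  induction h with
  | refl => rfl
  | tail _ hb ih => rw [ih, hb.par_eq]

/-- The corners of a face of the rectangle are in the rectangle. -/
theorem IsCor.inR {w : ℤ × ℤ} (hf : f ∈ (RF x₀ x₁ y₀ y₁ : Set (ℤ × ℤ))) (h : IsCor f w) :
    InR x₀ x₁ y₀ y₁ w := by
  rw [mem_RF'] at hf
  unfold IsCor at h; unfold InR
  omega

/-- Two corners of different parity of a face are the ends of a side of the face. -/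
theorem exists_side {p q : ℤ × ℤ} (hp : IsCor f p) (hq : IsCor f q) (h : par p ≠ par q) :
    ∃ a, IsSide f a ∧ Joins a p q := by
  obtain ⟨x, y⟩ := f
  obtain ⟨p1, p2⟩ := p
  obtain ⟨q1, q2⟩ := q
  unfold IsCor at hp hq
  unfold par at h
  simp only at hp hq h
  rcases hp with ⟨h1 | h1, h2 | h2⟩ <;> rcases hq with ⟨h3 | h3, h4 | h4⟩
  all_goals first
    | (exfalso; omega)
    | exact ⟨bo (x, y), Or.inl rfl, by
        simp only [Joins, bo, ua, ub, Prod.mk.injEq, if_false, Bool.false_eq_true]; omega⟩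
    | exact ⟨le' (x, y), Or.inr (Or.inl rfl), by
        simp only [Joins, le', ua, ub, Prod.mk.injEq, if_true]; omega⟩
    | exact ⟨to' (x, y), Or.inr (Or.inr (Or.inl rfl)), by
        simp only [Joins, to', ua, ub, Prod.mk.injEq, if_false, Bool.false_eq_true]; omega⟩
    | exact ⟨ri (x, y), Or.inr (Or.inr (Or.inr rfl)), by
        simp only [Joins, ri, ua, ub, Prod.mk.injEq, if_true]; omega⟩

theorem IsSide.cor (h : IsSide f a) : IsCor f (ua a) ∧ IsCor f (ub a) := by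
  obtain ⟨x, y⟩ := f
  rcases h with rfl | rfl | rfl | rfl <;> simp [IsCor, bo, le', to', ri, ua, ub]

theorem IsSide.cor_left (h : IsSide f a) (hj : Joins a u v) : IsCor f u := by
  rcases hj with ⟨rfl, rfl⟩ | ⟨rfl, rfl⟩
  · exact h.cor.1
  · exact h.cor.2

/-- Membership in the component by the potential, for the ends in any order. -/
theorem potR_joins {p q : ℤ × ℤ} (hj : Joins a p q) (hp : InR x₀ x₁ y₀ y₁ p)
    (hq : InR x₀ x₁ y₀ y₁ q) :
    a ∈ MM ω (RF x₀ x₁ y₀ y₁) e ↔ potR ω x₀ x₁ y₀ y₁ e p ≠ potR ω x₀ x₁ y₀ y₁ e q := by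
  rcases hj with ⟨rfl, rfl⟩ | ⟨rfl, rfl⟩
  · exact potR_iff hp hq
  · rw [potR_iff hq hp, ne_comm]

/-- (A1) The potential is constant on the faces which are not visited. -/
theorem potR_fresh (hf : f ∈ (RF x₀ x₁ y₀ y₁ : Set (ℤ × ℤ)))
    (hS : f ∉ SS ω (RF x₀ x₁ y₀ y₁) e) {p q : ℤ × ℤ} (hp : IsCor f p) (hq : IsCor f q) :
    potR ω x₀ x₁ y₀ y₁ e p = potR ω x₀ x₁ y₀ y₁ e q := by
  have key : ∀ {p q : ℤ × ℤ}, IsCor f p → IsCor f q → par p ≠ par q →
      potR ω x₀ x₁ y₀ y₁ e p = potR ω x₀ x₁ y₀ y₁ e q := by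
    intro p q hp hq hpq
    obtain ⟨a, ha, hj⟩ := exists_side hp hq hpq
    by_contra hne
    exact hS ⟨hf, a, (potR_joins hj (hp.inR hf) (hq.inR hf)).2 hne, ha⟩
  by_cases hpq : par p = par q
  · -- use a third corner of the other parity
    obtain ⟨r, hr, hpr⟩ : ∃ r, IsCor f r ∧ par p ≠ par r := by
      by_cases h : par p = par f
      · refine ⟨(f.1 + 1, f.2), by simp [IsCor], ?_⟩
        rw [h]; unfold par; simp only; omega
      · exact ⟨f, by simp [IsCor], h⟩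
    rw [key hp hr hpr, key hq hr (by rw [← hpq]; exact hpr)]
  · exact key hp hq hpq

/-- (A0) The potential is constant along the bonds in the rectangle. -/
theorem potR_bond {p q : ℤ × ℤ} (h : Bond ω (RF x₀ x₁ y₀ y₁) p q) :
    potR ω x₀ x₁ y₀ y₁ e p = potR ω x₀ x₁ y₀ y₁ e q := by
  obtain ⟨x, y, hf, h⟩ := h
  have c00 : InR x₀ x₁ y₀ y₁ (x, y) := IsCor.inR hf (by simp [IsCor])
  have c10 : InR x₀ x₁ y₀ y₁ (x + 1, y) := IsCor.inR hf (by simp [IsCor])
  have c01 : InR x₀ x₁ y₀ y₁ (x, y + 1) := IsCor.inR hf (by simp [IsCor])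
  have c11 : InR x₀ x₁ y₀ y₁ (x + 1, y + 1) := IsCor.inR hf (by simp [IsCor])
  have hb := potR_joins (ω := ω) (e := e) (a := bo (x, y)) (p := (x, y)) (q := (x + 1, y))
    (by simp [Joins, bo, ua, ub]) c00 c10
  have hl := potR_joins (ω := ω) (e := e) (a := le' (x, y)) (p := (x, y)) (q := (x, y + 1))
    (by simp [Joins, le', ua, ub]) c00 c01
  have ht := potR_joins (ω := ω) (e := e) (a := to' (x, y)) (p := (x, y + 1)) (q := (x + 1, y + 1))
    (by simp [Joins, to', ua, ub]) c01 c11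
  have hr := potR_joins (ω := ω) (e := e) (a := ri (x, y)) (p := (x + 1, y)) (q := (x + 1, y + 1))
    (by simp [Joins, ri, ua, ub]) c10 c11
  have ev := MM_even (ω := ω) (e := e) hf
  have key : (ω (x, y) = true →
      potR ω x₀ x₁ y₀ y₁ e (x, y) = potR ω x₀ x₁ y₀ y₁ e (x + 1, y + 1)) ∧
      (ω (x, y) = false →
      potR ω x₀ x₁ y₀ y₁ e (x, y + 1) = potR ω x₀ x₁ y₀ y₁ e (x + 1, y)) := by
    generalize potR ω x₀ x₁ y₀ y₁ e (x, y) = p00 at *
    generalize potR ω x₀ x₁ y₀ y₁ e (x + 1, y) = p10 at *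
    generalize potR ω x₀ x₁ y₀ y₁ e (x, y + 1) = p01 at *
    generalize potR ω x₀ x₁ y₀ y₁ e (x + 1, y + 1) = p11 at *
    rcases ev with ⟨h1, h2, h3⟩ | ⟨h1, h2, h3⟩
    · refine ⟨fun _ => ?_, fun h' => by rw [h3] at h'; exact absurd h' (by decide)⟩
      rw [hb, hr] at h1
      clear hb hl ht hr h2
      revert p00 p10 p11
      decide
    · refine ⟨fun h' => by rw [h3] at h'; exact absurd h' (by decide), fun _ => ?_⟩
      rw [hb, hl] at h1
      clear hb hl ht hr h2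
      revert p00 p10 p01
      decide
  rcases h with ⟨ht, (⟨rfl, rfl⟩ | ⟨rfl, rfl⟩)⟩ | ⟨ht, (⟨rfl, rfl⟩ | ⟨rfl, rfl⟩)⟩
  · exact key.1 ht
  · exact (key.1 ht).symm
  · exact key.2 ht
  · exact (key.2 ht).symm

theorem potR_conn {p q : ℤ × ℤ} (h : Conn ω (RF x₀ x₁ y₀ y₁) p q) :
    potR ω x₀ x₁ y₀ y₁ e p = potR ω x₀ x₁ y₀ y₁ e q := by
  induction h with
  | refl => rfl
  | tail _ hb ih => rw [ih, potR_bond hb]

/-- A pair of matched sides in a face: there are ends `p, p'` and a common end `q`, and `p`, `p'`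
are joined by the bond of the face. -/
theorem Mt.ends (h : Mt ω f a a') : ∃ p q p', Joins a p q ∧ Joins a' p' q ∧ Bond ω {f} p p' := by
  obtain ⟨x, y⟩ := f
  unfold Mt at h
  rcases h with ⟨h0, h⟩ | ⟨h0, h⟩
  · rcases h with ⟨rfl, rfl⟩ | ⟨rfl, rfl⟩ | ⟨rfl, rfl⟩ | ⟨rfl, rfl⟩
    · exact ⟨(x, y), (x + 1, y), (x + 1, y + 1), by simp [Joins, bo, ua, ub],
        by simp [Joins, ri, ua, ub], x, y, rfl, Or.inl ⟨h0, Or.inl ⟨rfl, rfl⟩⟩⟩
    · exact ⟨(x + 1, y + 1), (x + 1, y), (x, y), by simp [Joins, ri, ua, ub],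
        by simp [Joins, bo, ua, ub], x, y, rfl, Or.inl ⟨h0, Or.inr ⟨rfl, rfl⟩⟩⟩
    · exact ⟨(x, y), (x, y + 1), (x + 1, y + 1), by simp [Joins, le', ua, ub],
        by simp [Joins, to', ua, ub], x, y, rfl, Or.inl ⟨h0, Or.inl ⟨rfl, rfl⟩⟩⟩
    · exact ⟨(x + 1, y + 1), (x, y + 1), (x, y), by simp [Joins, to', ua, ub],
        by simp [Joins, le', ua, ub], x, y, rfl, Or.inl ⟨h0, Or.inr ⟨rfl, rfl⟩⟩⟩
  · rcases h with ⟨rfl, rfl⟩ | ⟨rfl, rfl⟩ | ⟨rfl, rfl⟩ | ⟨rfl, rfl⟩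
    · exact ⟨(x + 1, y), (x, y), (x, y + 1), by simp [Joins, bo, ua, ub],
        by simp [Joins, le', ua, ub], x, y, rfl, Or.inr ⟨h0, Or.inr ⟨rfl, rfl⟩⟩⟩
    · exact ⟨(x, y + 1), (x, y), (x + 1, y), by simp [Joins, le', ua, ub],
        by simp [Joins, bo, ua, ub], x, y, rfl, Or.inr ⟨h0, Or.inl ⟨rfl, rfl⟩⟩⟩
    · exact ⟨(x, y + 1), (x + 1, y + 1), (x + 1, y), by simp [Joins, to', ua, ub],
        by simp [Joins, ri, ua, ub], x, y, rfl, Or.inr ⟨h0, Or.inl ⟨rfl, rfl⟩⟩⟩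
    · exact ⟨(x + 1, y), (x + 1, y + 1), (x, y + 1), by simp [Joins, ri, ua, ub],
        by simp [Joins, to', ua, ub], x, y, rfl, Or.inr ⟨h0, Or.inr ⟨rfl, rfl⟩⟩⟩

theorem Joins.of_par {p q p' q' : ℤ × ℤ} (h : Joins a p q) (h' : Joins a p' q')
    (hp : par p = par p') : p = p' ∧ q = q' := by
  have h1 := h.par_ne
  have h2 := h'.par_ne
  rcases h with ⟨rfl, rfl⟩ | ⟨rfl, rfl⟩ <;> rcases h' with ⟨rfl, rfl⟩ | ⟨rfl, rfl⟩
  · exact ⟨rfl, rfl⟩
  · exact absurd hp h1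
  · exact absurd hp h1
  · exact ⟨rfl, rfl⟩

/-- The end of parity `c` (mod 2) of every unit edge of the component is joined to the end of `e` of
this parity inside the visited faces. -/
theorem MM_conn (he : Joins e u v) (ha : a ∈ MM ω F e) :
    ∃ p q, Joins a p q ∧ par p = par u ∧ Conn ω (SS ω F e) u p := by
  induction ha with
  | refl => exact ⟨u, v, he, rfl, Relation.ReflTransGen.refl⟩
  | tail hab hs ih =>
    rename_i b b'
    obtain ⟨p, q, hj, hp, hc⟩ := ih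
    obtain ⟨f, hf, hm⟩ := hs
    have hfS : f ∈ SS ω F e := ⟨hf, b, hab, hm.left⟩
    obtain ⟨r, s, r', hr, hr', hb⟩ := hm.ends
    by_cases h : par p = par r
    · obtain ⟨rfl, rfl⟩ := hj.of_par hr h
      exact ⟨r', q, hr', by rw [← hp, hb.par_eq], hc.tail (hb.of_single hfS)⟩
    · have h1 : par p = par s := by
        have := hr.par_ne
        have h2 := par_cases p
        have h3 := par_cases r
        have h4 := par_cases s
        omega
      obtain ⟨rfl, rfl⟩ := hj.of_par hr.symm h1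
      exact ⟨p, r', hr'.symm, hp, hc⟩

/-- The potential at the ends of the unit edges of the component. -/
theorem MM_pot (he : Joins e u v)
    (ha : a ∈ MM ω (RF x₀ x₁ y₀ y₁) e) {p q : ℤ × ℤ} (hj : Joins a p q) (hp : par p = par u) :
    potR ω x₀ x₁ y₀ y₁ e p = potR ω x₀ x₁ y₀ y₁ e u ∧
      potR ω x₀ x₁ y₀ y₁ e q = potR ω x₀ x₁ y₀ y₁ e v := by
  obtain ⟨p', q', hj', hp', hc⟩ := MM_conn he ha
  obtain ⟨rfl, rfl⟩ := hj.of_par hj' (hp.trans hp'.symm)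
  obtain ⟨r, s, hj2, hr, hc2⟩ := MM_conn he.symm ha
  obtain ⟨rfl, rfl⟩ := hj.symm.of_par hj2 (by
    have h1 := hj.par_ne
    have h2 := he.par_ne
    have h3 := par_cases p
    have h4 := par_cases q
    have h5 := par_cases u
    have h6 := par_cases v
    omega)
  exact ⟨(potR_conn (hc.mono SS_sub)).symm, (potR_conn (hc2.mono SS_sub)).symm⟩

/-- (A2) A corner of a visited face on the side of `u` with the parity of `u` is joined to `u`
inside the visited faces. -/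
theorem SS_conn (he : Joins e u v) (hF : InR x₀ x₁ y₀ y₁ u) (hF' : InR x₀ x₁ y₀ y₁ v)
    (hf : f ∈ SS ω (RF x₀ x₁ y₀ y₁) e) {w : ℤ × ℤ} (hw : IsCor f w) (hp : par w = par u)
    (hs : potR ω x₀ x₁ y₀ y₁ e w = potR ω x₀ x₁ y₀ y₁ e u) :
    Conn ω (SS ω (RF x₀ x₁ y₀ y₁) e) u w := by
  obtain ⟨hfF, a, ha, hside⟩ := hf
  obtain ⟨p, q, hj, hpu, hc⟩ := MM_conn he ha
  have h1 := MM_pot he ha hj hpu
  have hq : IsCor f q := hside.cor_left hj.symm
  obtain ⟨b, hb, hjb⟩ := exists_side hw hq (by rw [hp, ← hpu]; exact hj.par_ne)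
  have huv : potR ω x₀ x₁ y₀ y₁ e u ≠ potR ω x₀ x₁ y₀ y₁ e v :=
    (potR_joins he hF hF').1 mem_MM_self
  have hbM : b ∈ MM ω (RF x₀ x₁ y₀ y₁) e :=
    (potR_joins hjb (hw.inR hfF) (hq.inR hfF)).2 (by rw [hs, h1.2]; exact huv)
  obtain ⟨p', q', hj', hp', hc'⟩ := MM_conn he hbM
  obtain ⟨rfl, -⟩ := hjb.of_par hj' (hp.trans hp'.symm)
  exact hc'

/-- (A2') The ends of a bond in a visited face with the parity of `u` are on the side of `u`, and
they are joined to `u` inside the visited faces. -/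
theorem SS_bond (he : Joins e u v) (hF : InR x₀ x₁ y₀ y₁ u) (hF' : InR x₀ x₁ y₀ y₁ v)
    (hf : f ∈ SS ω (RF x₀ x₁ y₀ y₁) e) {p q : ℤ × ℤ} (hb : Bond ω {f} p q)
    (hp : par p = par u) :
    potR ω x₀ x₁ y₀ y₁ e p = potR ω x₀ x₁ y₀ y₁ e u ∧
      Conn ω (SS ω (RF x₀ x₁ y₀ y₁) e) u p := by
  have hfF := hf.1
  obtain ⟨g, hg, hb', hcp, hcq⟩ := hb.exists_face
  rw [Set.mem_singleton_iff] at hg
  subst hg
  have hpq := potR_bond (e := e) (hb.of_single hfF)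
  have huv : potR ω x₀ x₁ y₀ y₁ e u ≠ potR ω x₀ x₁ y₀ y₁ e v :=
    (potR_joins he hF hF').1 mem_MM_self
  obtain ⟨-, a, ha, hside⟩ := hf
  obtain ⟨r, s, hj, hru, hc⟩ := MM_conn he ha
  have h1 := MM_pot he ha hj hru
  -- the corner `r` of the parity of `u` is `p` or `q`
  have hr : IsCor g r := hside.cor_left hj
  have hrpq : r = p ∨ r = q := by
    obtain ⟨x, y, hxy, h⟩ := hb
    rw [Set.mem_singleton_iff] at hxy
    subst hxy
    obtain ⟨r1, r2⟩ := r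
    unfold IsCor at hr
    simp only at hr
    have h2 : par (r1, r2) = par p := hru.trans hp.symm
    unfold par at h2
    rcases h with ⟨-, (⟨rfl, rfl⟩ | ⟨rfl, rfl⟩)⟩ | ⟨-, (⟨rfl, rfl⟩ | ⟨rfl, rfl⟩)⟩ <;>
      simp only [Prod.mk.injEq] at h2 ⊢ <;> omega
  have hpu : potR ω x₀ x₁ y₀ y₁ e p = potR ω x₀ x₁ y₀ y₁ e u := by
    rcases hrpq with rfl | rfl
    · exact h1.1
    · rw [hpq]; exact h1.1
  exact ⟨hpu, SS_conn he hF hF' ⟨hfF, a, ha, hside⟩ hcp hp hpu⟩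

/-- (A3) The component is determined by the configuration in the visited faces. -/
theorem MM_congr (h : ∀ f ∈ SS ω F e, ω f = ω' f) : MM ω' F e = MM ω F e := by
  have hmt : ∀ {f : ℤ × ℤ} {a a' : UE}, ω f = ω' f → Mt ω f a a' → Mt ω' f a a' := by
    intro f a a' hf hm
    unfold Mt at *
    rw [← hf]; exact hm
  apply Set.Subset.antisymm
  · intro a ha
    change Relation.ReflTransGen _ e a at ha
    induction ha with
    | refl => exact mem_MM_self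
    | tail _ hs ih =>
      obtain ⟨f, hf, hm⟩ := hs
      have hS : f ∈ SS ω F e := ⟨hf, _, ih, hm.left⟩
      exact MM_step hf (by
        unfold Mt at *
        rw [h f hS]; exact hm) ih
  · intro a ha
    change Relation.ReflTransGen _ e a at ha
    induction ha with
    | refl => exact mem_MM_self
    | tail hab hs ih =>
      obtain ⟨f, hf, hm⟩ := hs
      have hS : f ∈ SS ω F e := ⟨hf, _, hab, hm.left⟩
      exact MM_step hf (hmt (h f hS) hm) ih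

theorem SS_congr (h : ∀ f ∈ SS ω F e, ω f = ω' f) : SS ω' F e = SS ω F e := by
  unfold SS
  rw [MM_congr h]

theorem potR_congr (h : ∀ f ∈ SS ω (RF x₀ x₁ y₀ y₁) e, ω f = ω' f) :
    potR ω' x₀ x₁ y₀ y₁ e = potR ω x₀ x₁ y₀ y₁ e := by
  unfold potR
  rw [MM_congr h]

/-- Landing lemma: a path in the faces of `G` from `p₀` to `pₙ`; `χ` is the side of `u`, extended
outside the rectangle, such that it is constant on the faces of `G` outside the rectangle; it is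
false at `p₀` and true at `pₙ`. Then `u` is joined inside the visited faces to a vertex which is
joined to `pₙ` in the other faces of `G`. -/
theorem land {G : Set (ℤ × ℤ)} {ξ : Cfg} (he : Joins e u v) (hF : InR x₀ x₁ y₀ y₁ u)
    (hF' : InR x₀ x₁ y₀ y₁ v) (χ : ℤ × ℤ → Prop)
    (hχ : ∀ w, InR x₀ x₁ y₀ y₁ w → (χ w ↔ potR ω x₀ x₁ y₀ y₁ e w = potR ω x₀ x₁ y₀ y₁ e u))
    (hG : ∀ g ∈ G, g ∉ (RF x₀ x₁ y₀ y₁ : Set (ℤ × ℤ)) → ∀ w w', IsCor g w → IsCor g w' →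
      (χ w ↔ χ w'))
    {p₀ pₙ : ℤ × ℤ} (hpar : par pₙ = par u) (hpath : Conn ξ G p₀ pₙ) (h0 : ¬ χ p₀) (hn : χ pₙ) :
    ∃ w, Conn ω (SS ω (RF x₀ x₁ y₀ y₁) e) u w ∧
      Conn ξ (G \ SS ω (RF x₀ x₁ y₀ y₁) e) w pₙ := by
  set S := SS ω (RF x₀ x₁ y₀ y₁ : Set (ℤ × ℤ)) e with hS
  have key : ∀ p, Conn ξ G p pₙ → (χ p ∧ Conn ξ (G \ S) p pₙ) ∨
      ∃ w, Conn ω S u w ∧ Conn ξ (G \ S) w pₙ := by
    intro p hp
    induction hp using Relation.ReflTransGen.head_induction_on with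
    | refl => exact Or.inl ⟨hn, Relation.ReflTransGen.refl⟩
    | head hb hc ih =>
      rename_i p p'
      rcases ih with ⟨h1, h2⟩ | h
      · obtain ⟨g, hg, hbg, hcp, hcp'⟩ := hb.exists_face
        by_cases hgS : g ∈ S
        · right
          have hgF : g ∈ (RF x₀ x₁ y₀ y₁ : Set (ℤ × ℤ)) := SS_sub hgS
          refine ⟨p', SS_conn he hF hF' hgS hcp' ?_ ((hχ p' (hcp'.inR hgF)).1 h1), h2⟩
          rw [← hpar]; exact h2.par_eq
        · left
          refine ⟨?_, Relation.ReflTransGen.head (hbg.of_single ⟨hg, hgS⟩) h2⟩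
          by_cases hgF : g ∈ (RF x₀ x₁ y₀ y₁ : Set (ℤ × ℤ))
          · rw [hχ p (hcp.inR hgF), potR_fresh hgF hgS hcp hcp', ← hχ p' (hcp'.inR hgF)]
            exact h1
          · exact (hG g hg hgF p p' hcp hcp').2 h1
      · exact Or.inr h
  rcases key p₀ hpath with h | h
  · exact absurd h.1 h0
  · exact h

/-- The boundary of the rectangle. -/
theorem onBd_of_cor {g w : ℤ × ℤ} (hw : IsCor g w) (hR : InR x₀ x₁ y₀ y₁ w)
    (hg : g ∉ (RF x₀ x₁ y₀ y₁ : Set (ℤ × ℤ))) : OnBd x₀ x₁ y₀ y₁ w := by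
  rw [mem_RF'] at hg
  unfold IsCor at hw; unfold InR at hR; unfold OnBd
  omega

/-- Close exits: if the boundary vertices on the side of `u` are in `Y`, and `u` is joined in the
faces of `G` to a vertex `z` outside the rectangle in a configuration `ω'` which agrees with `ω` in
the visited faces, then a vertex of `Y` is joined to `z` in the other faces of `G`. -/
theorem near {G : Set (ℤ × ℤ)} (he : Joins e u v) (hF : InR x₀ x₁ y₀ y₁ u)
    (hF' : InR x₀ x₁ y₀ y₁ v) {Y : Set (ℤ × ℤ)}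
    (hY : ∀ w, OnBd x₀ x₁ y₀ y₁ w → potR ω x₀ x₁ y₀ y₁ e w = potR ω x₀ x₁ y₀ y₁ e u →
      par w = par u → w ∈ Y)
    (hω : ∀ f ∈ SS ω (RF x₀ x₁ y₀ y₁) e, ω' f = ω f)
    {z : ℤ × ℤ} (hz : ¬ InR x₀ x₁ y₀ y₁ z) (hpath : Conn ω' G u z) :
    ∃ y ∈ Y, Conn ω' (G \ SS ω (RF x₀ x₁ y₀ y₁) e) y z := by
  set S := SS ω (RF x₀ x₁ y₀ y₁ : Set (ℤ × ℤ)) e with hS
  have hzu : par z = par u := hpath.par_eq.symm
  have key : ∀ p, Conn ω' G p z → ((InR x₀ x₁ y₀ y₁ p →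
      potR ω x₀ x₁ y₀ y₁ e p ≠ potR ω x₀ x₁ y₀ y₁ e u) ∧ Conn ω' (G \ S) p z) ∨
      ∃ y ∈ Y, Conn ω' (G \ S) y z := by
    intro p hp
    induction hp using Relation.ReflTransGen.head_induction_on with
    | refl => exact Or.inl ⟨fun h => absurd h hz, Relation.ReflTransGen.refl⟩
    | head hb hc ih =>
      rename_i p p'
      rcases ih with ⟨h1, h2⟩ | h
      · obtain ⟨g, hg, hbg, hcp, hcp'⟩ := hb.exists_face
        have hp' : par p' = par u := h2.par_eq.trans hzu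
        have hgS : g ∉ S := by
          intro hgS
          have := SS_bond he hF hF' hgS (Bond.congr (hω g hgS) hbg.symm) hp'
          exact h1 (hcp'.inR (SS_sub hgS)) this.1
        have hconn : Conn ω' (G \ S) p z :=
          Relation.ReflTransGen.head (hbg.of_single ⟨hg, hgS⟩) h2
        by_cases hgF : g ∈ (RF x₀ x₁ y₀ y₁ : Set (ℤ × ℤ))
        · left
          refine ⟨fun _ => ?_, hconn⟩
          rw [potR_fresh hgF hgS hcp hcp']
          exact h1 (hcp'.inR hgF)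
        · by_cases hpR : InR x₀ x₁ y₀ y₁ p
          · by_cases hpu : potR ω x₀ x₁ y₀ y₁ e p = potR ω x₀ x₁ y₀ y₁ e u
            · right
              exact ⟨p, hY p (onBd_of_cor hcp hpR hgF) hpu (hconn.par_eq.trans hzu), hconn⟩
            · exact Or.inl ⟨fun _ => hpu, hconn⟩
          · exact Or.inl ⟨fun h => absurd h hpR, hconn⟩
      · exact Or.inr h
  rcases key u hpath with h | h
  · exact absurd rfl (h.1 hF)
  · exact h

/-- Completeness: if the two ends of `e'` are joined in the rectangle to the two ends of `e`, then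
`e'` belongs to the component of `e`. -/
theorem mem_MM_of_conn (he : Joins e u v) (hF : InR x₀ x₁ y₀ y₁ u) (hF' : InR x₀ x₁ y₀ y₁ v)
    {e' : UE} {u' v' : ℤ × ℤ} (he' : Joins e' u' v') (hR : InR x₀ x₁ y₀ y₁ u')
    (hR' : InR x₀ x₁ y₀ y₁ v') (h1 : Conn ω (RF x₀ x₁ y₀ y₁) u u')
    (h2 : Conn ω (RF x₀ x₁ y₀ y₁) v v') : e' ∈ MM ω (RF x₀ x₁ y₀ y₁) e := by
  rw [potR_joins he' hR hR', ← potR_conn h1, ← potR_conn h2]
  exact (potR_joins he hF hF').1 mem_MM_self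

end Pool.Agent.Perc

end PartpercwCoreB

section PartpercwTipsA

/-!
# The component meets the boundary of a rectangle in at most two unit edges
-/

set_option autoImplicit false

namespace Pool.Agent.Perc

open Finset

variable {ω ω' : Cfg} {F F' : Set (ℤ × ℤ)} {e a a' : UE} {f : ℤ × ℤ} {u v : ℤ × ℤ}
  {x₀ x₁ y₀ y₁ : ℤ}

/-- The unit edges on the boundary of the rectangle. -/
def BdE (x₀ x₁ y₀ y₁ : ℤ) (a : UE) : Prop :=
  (a.2.2 = false ∧ x₀ ≤ a.1 ∧ a.1 < x₁ ∧ (a.2.1 = y₀ ∨ a.2.1 = y₁)) ∨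
    (a.2.2 = true ∧ y₀ ≤ a.2.1 ∧ a.2.1 < y₁ ∧ (a.1 = x₀ ∨ a.1 = x₁))

namespace Tips

/-- The face ahead of a directed unit edge (`true`: upwards or to the right). -/
def ahead : UE × Bool → ℤ × ℤ
  | ((x, y, _), true) => (x, y)
  | ((x, y, false), false) => (x, y - 1)
  | ((x, y, true), false) => (x - 1, y)

/-- The next directed unit edge. -/
def nx (ω : Cfg) : UE × Bool → UE × Bool
  | ((x, y, false), true) => if ω (x, y) = true then ((x + 1, y, true), true) else ((x, y, true), false)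
  | ((x, y, true), true) => if ω (x, y) = true then ((x, y + 1, false), true) else ((x, y, false), false)
  | ((x, y, false), false) =>
    if ω (x, y - 1) = true then ((x, y - 1, true), false) else ((x + 1, y - 1, true), true)
  | ((x, y, true), false) =>
    if ω (x - 1, y) = true then ((x - 1, y, false), false) else ((x - 1, y + 1, false), true)

/-- Reversal of the direction. -/
def rv (A : UE × Bool) : UE × Bool := (A.1, !A.2)

theorem rv_rv (A : UE × Bool) : rv (rv A) = A := by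
  unfold rv; simp

theorem ahead_rv_nx (ω : Cfg) (A : UE × Bool) : ahead (rv (nx ω A)) = ahead A := by
  obtain ⟨⟨x, y, _ | _⟩, _ | _⟩ := A <;> simp only [nx, rv] <;> split_ifs <;> simp [ahead]

theorem nx_rv_nx (ω : Cfg) (A : UE × Bool) : nx ω (rv (nx ω A)) = rv A := by
  obtain ⟨⟨x, y, _ | _⟩, _ | _⟩ := A
  · by_cases h : ω (x, y - 1) = true
    · simp [nx, rv, h]
    · simp [nx, rv, h]
  · by_cases h : ω (x, y) = true
    · simp [nx, rv, h]
    · simp [nx, rv, h]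
  · by_cases h : ω (x - 1, y) = true
    · simp [nx, rv, h]
    · simp [nx, rv, h]
  · by_cases h : ω (x, y) = true
    · simp [nx, rv, h]
    · simp [nx, rv, h]

theorem exists_dir (h : Mt ω f a a') : ∃ d, ahead (a, d) = f ∧ (nx ω (a, d)).1 = a' := by
  obtain ⟨x, y⟩ := f
  unfold Mt at h
  rcases h with ⟨h0, h⟩ | ⟨h0, h⟩
  · rcases h with ⟨rfl, rfl⟩ | ⟨rfl, rfl⟩ | ⟨rfl, rfl⟩ | ⟨rfl, rfl⟩
    · exact ⟨true, by simp [ahead, bo], by simp [nx, bo, ri, h0]⟩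
    · exact ⟨false, by simp [ahead, ri], by simp [nx, bo, ri, h0]⟩
    · exact ⟨true, by simp [ahead, le'], by simp [nx, le', to', h0]⟩
    · exact ⟨false, by simp [ahead, to'], by simp [nx, le', to', h0]⟩
  · rcases h with ⟨rfl, rfl⟩ | ⟨rfl, rfl⟩ | ⟨rfl, rfl⟩ | ⟨rfl, rfl⟩
    · exact ⟨true, by simp [ahead, bo], by simp [nx, bo, le', h0]⟩
    · exact ⟨true, by simp [ahead, le'], by simp [nx, bo, le', h0]⟩
    · exact ⟨false, by simp [ahead, to'], by simp [nx, to', ri, h0]⟩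
    · exact ⟨false, by simp [ahead, ri], by simp [nx, to', ri, h0]⟩

/-- One step inside `F`. -/
def R (ω : Cfg) (F : Set (ℤ × ℤ)) (A B : UE × Bool) : Prop := ahead A ∈ F ∧ B = nx ω A

theorem reach (ha : a ∈ MM ω F e) : ∃ s d, Relation.ReflTransGen (R ω F) (e, s) (a, d) := by
  induction ha with
  | refl => exact ⟨true, true, Relation.ReflTransGen.refl⟩
  | tail hab hs ih =>
    rename_i b b'
    obtain ⟨s, d, hr⟩ := ih
    obtain ⟨f, hf, hm⟩ := hs
    obtain ⟨d', hd, hn⟩ := exists_dir hm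
    by_cases hdd : d' = d
    · subst hdd
      refine ⟨s, (nx ω (b, d')).2, ?_⟩
      have h1 : (b', (nx ω (b, d')).2) = nx ω (b, d') := by rw [← hn]
      rw [h1]
      exact hr.tail ⟨by rw [hd]; exact hf, rfl⟩
    · have hrv : (b, d') = rv (b, d) := by
        unfold rv
        simp only [Prod.mk.injEq, true_and]
        cases d <;> cases d' <;> simp_all
      rcases Relation.ReflTransGen.cases_tail hr with h | ⟨B, hB, hBs⟩
      · -- no step: `b = e`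
        have h1 : b = e ∧ d = s := by
          simp only [Prod.mk.injEq] at h; exact h
        obtain ⟨rfl, rfl⟩ := h1
        refine ⟨d', (nx ω (b, d')).2, ?_⟩
        have h1 : (b', (nx ω (b, d')).2) = nx ω (b, d') := by rw [← hn]
        rw [h1]
        exact Relation.ReflTransGen.single ⟨by rw [hd]; exact hf, rfl⟩
      · obtain ⟨hBF, hB2⟩ := hBs
        refine ⟨s, B.2, ?_⟩
        have h1 : (nx ω (b, d')).1 = B.1 := by
          rw [hrv, hB2, nx_rv_nx]; rfl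
        rw [← hn, h1]
        exact hB

theorem ahead_bdE (ha : BdE x₀ x₁ y₀ y₁ a) (d : Bool)
    (h : ahead (a, d) ∈ (RF x₀ x₁ y₀ y₁ : Set (ℤ × ℤ))) :
    ahead (a, !d) ∉ (RF x₀ x₁ y₀ y₁ : Set (ℤ × ℤ)) := by
  obtain ⟨x, y, b⟩ := a
  rw [mem_RF'] at *
  unfold BdE at ha
  cases b <;> cases d <;> simp [ahead] at * <;> omega

theorem terminal (he : ¬ BdE x₀ x₁ y₀ y₁ e)
    (ha : BdE x₀ x₁ y₀ y₁ a) {s d : Bool}
    (h : Relation.ReflTransGen (R ω (RF x₀ x₁ y₀ y₁)) (e, s) (a, d)) :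
    ahead (a, d) ∉ (RF x₀ x₁ y₀ y₁ : Set (ℤ × ℤ)) := by
  rcases Relation.ReflTransGen.cases_tail h with h | ⟨B, hB, hBF, hB2⟩
  · simp only [Prod.mk.injEq] at h
    rw [h.1] at ha
    exact absurd ha he
  · have h1 : ahead (rv (a, d)) ∈ (RF x₀ x₁ y₀ y₁ : Set (ℤ × ℤ)) := by
      rw [hB2, ahead_rv_nx]; exact hBF
    have h2 := ahead_bdE ha (!d) h1
    rwa [Bool.not_not] at h2

theorem eq_of_terminal {A B C : UE × Bool} (h1 : Relation.ReflTransGen (R ω F) A B)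
    (h2 : Relation.ReflTransGen (R ω F) A C) (hB : ahead B ∉ F) (hC : ahead C ∉ F) : B = C := by
  have hU : Relator.RightUnique (R ω F) := by
    intro A B C h h'
    rw [h.2, h'.2]
  rcases Relation.ReflTransGen.total_of_right_unique hU h1 h2 with h | h
  · rcases Relation.ReflTransGen.cases_head h with h | ⟨D, hD, -⟩
    · exact h
    · exact absurd hD.1 hB
  · rcases Relation.ReflTransGen.cases_head h with h | ⟨D, hD, -⟩
    · exact h.symm
    · exact absurd hD.1 hC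

end Tips

open Tips in
/-- (A4) The component meets the boundary in at most two unit edges. -/
theorem tips_le_two (he : ¬ BdE x₀ x₁ y₀ y₁ e) {t t' t'' : UE}
    (ht : t ∈ MM ω (RF x₀ x₁ y₀ y₁) e) (ht' : t' ∈ MM ω (RF x₀ x₁ y₀ y₁) e)
    (ht'' : t'' ∈ MM ω (RF x₀ x₁ y₀ y₁) e) (hb : BdE x₀ x₁ y₀ y₁ t) (hb' : BdE x₀ x₁ y₀ y₁ t')
    (hb'' : BdE x₀ x₁ y₀ y₁ t'') : t = t' ∨ t = t'' ∨ t' = t'' := by
  obtain ⟨s, d, h⟩ := reach ht
  obtain ⟨s', d', h'⟩ := reach ht'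
  obtain ⟨s'', d'', h''⟩ := reach ht''
  have k := terminal he hb h
  have k' := terminal he hb' h'
  have k'' := terminal he hb'' h''
  by_cases h1 : s = s'
  · subst h1
    left
    exact congrArg Prod.fst (eq_of_terminal h h' k k')
  · by_cases h2 : s = s''
    · subst h2
      right; left
      exact congrArg Prod.fst (eq_of_terminal h h'' k k'')
    · have h3 : s' = s'' := by
        cases s <;> cases s' <;> cases s'' <;> simp_all
      subst h3
      right; right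
      exact congrArg Prod.fst (eq_of_terminal h' h'' k' k'')

end Pool.Agent.Perc

end PartpercwTipsA
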