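import Pool.Agent.Lib.MP_6bd702_z.Z005
import Pool.Agent.Lib.MP_6bd702_z.Z016
import Pool.Agent.Lib.MP_6bd702_z.Z014
import Pool.Agent.Lib.MP_6bd702_z.Z013
import Pool.Agent.Lib.MP_6bd702_z.Z020

section PartpercwStair

/-!
# A staircase of crossings of axis-parallel rectangles

The union of the crossings joins the left side to the right top along the diagonal, inside the
band `-m ≤ x - y ≤ 2 m`.
-/

set_option autoImplicit false

namespace Pool.Agent.MP_6bd702.H23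

open Finset

/-- A horizontal and a vertical crossing of a rectangle are connected. -/
theorem meet {a b c d x x' y y' : ℤ} (hcd : c < d) {ω : Set Ed} (hx : a ≤ x ∧ x ≤ b)
    (h : Conn ω (Rect a b c d) (x, c) (x', d)) (hy : c ≤ y ∧ y ≤ d) (hab : a ≤ b)
    (h' : Conn ω (Rect a b c d) (a, y) (b, y')) : Conn ω (Rect a b c d) (x, c) (a, y) := by
  obtain ⟨w, h1, h2⟩ := hc_vc_meet hcd hx h hy hab h'
  exact h2.trans h1.symm

/-- The events of one step of the staircase with base `k`. -/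
def StepEv (m k : ℤ) : Set (Set Ed) :=
  {ω | HC k (k + 2 * m) k (k + m) ω ∧ VC (k + m) (k + 2 * m) k (k + 2 * m) ω ∧
    HC (k + m) (k + 2 * m) k (k + m) ω ∧ VC (k + m) (k + 2 * m) k (k + m) ω ∧
    HC (k + m) (k + 2 * m) (k + m) (k + 2 * m) ω ∧ VC (k + m) (k + 2 * m) (k + m) (k + 2 * m) ω}

/-- The band along the diagonal. -/
def Band (m : ℤ) : Set (ℤ × ℤ) := {w | -m ≤ w.1 - w.2 ∧ w.1 - w.2 ≤ 2 * m}

/-- The staircase. -/
def StEv (m : ℤ) (J : ℕ) : Set (Set Ed) := {ω | ∀ j < J, ω ∈ StepEv m (j * m)}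

theorem StepEv_upper (m k : ℤ) : IsUpperSet (StepEv m k) := fun _ _ h h1 =>
  ⟨HC_mono _ _ _ _ h h1.1, VC_mono _ _ _ _ h h1.2.1, HC_mono _ _ _ _ h h1.2.2.1,
    VC_mono _ _ _ _ h h1.2.2.2.1, HC_mono _ _ _ _ h h1.2.2.2.2.1,
    VC_mono _ _ _ _ h h1.2.2.2.2.2⟩

theorem StEv_upper (m : ℤ) (J : ℕ) : IsUpperSet (StEv m J) :=
  fun _ _ h h1 j hj => StepEv_upper m _ h (h1 j hj)

theorem pr_StepEv {m k : ℤ} {W : Finset Ed} {c : ℝ} (hc0 : 0 ≤ c) (hm : 2 ≤ m)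
    (hW : EW k (k + 2 * m) k (k + 2 * m) ⊆ W)
    (hc : ∀ w t : ℤ, 0 < w → 2 ≤ t → w ≤ 2 * t → c ≤ hp w t) : c ^ 6 ≤ pr W (StepEv m k) := by
  have e : StepEv m k = {ω | HC k (k + 2 * m) k (k + m) ω} ∩
      ({ω | VC (k + m) (k + 2 * m) k (k + 2 * m) ω} ∩
      ({ω | HC (k + m) (k + 2 * m) k (k + m) ω} ∩
      ({ω | VC (k + m) (k + 2 * m) k (k + m) ω} ∩
      ({ω | HC (k + m) (k + 2 * m) (k + m) (k + 2 * m) ω} ∩
        {ω | VC (k + m) (k + 2 * m) (k + m) (k + 2 * m) ω})))) := rfl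
  have p1 : c ≤ pr W {ω | HC k (k + 2 * m) k (k + m) ω} := by
    rw [pr_hc_window ((EW_sub le_rfl le_rfl le_rfl (by omega)).trans hW)]
    exact hc _ _ (by omega) (by omega) (by omega)
  have p2 : c ≤ pr W {ω | VC (k + m) (k + 2 * m) k (k + 2 * m) ω} := by
    rw [pr_vc_window ((EW_sub (by omega) le_rfl le_rfl le_rfl).trans hW)]
    exact hc _ _ (by omega) (by omega) (by omega)
  have p3 : c ≤ pr W {ω | HC (k + m) (k + 2 * m) k (k + m) ω} := by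
    rw [pr_hc_window ((EW_sub (by omega) le_rfl le_rfl (by omega)).trans hW)]
    exact hc _ _ (by omega) (by omega) (by omega)
  have p4 : c ≤ pr W {ω | VC (k + m) (k + 2 * m) k (k + m) ω} := by
    rw [pr_vc_window ((EW_sub (by omega) le_rfl le_rfl (by omega)).trans hW)]
    exact hc _ _ (by omega) (by omega) (by omega)
  have p5 : c ≤ pr W {ω | HC (k + m) (k + 2 * m) (k + m) (k + 2 * m) ω} := by
    rw [pr_hc_window ((EW_sub (by omega) le_rfl (by omega) le_rfl).trans hW)]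
    exact hc _ _ (by omega) (by omega) (by omega)
  have p6 : c ≤ pr W {ω | VC (k + m) (k + 2 * m) (k + m) (k + 2 * m) ω} := by
    rw [pr_vc_window ((EW_sub (by omega) le_rfl (by omega) le_rfl).trans hW)]
    exact hc _ _ (by omega) (by omega) (by omega)
  have u5 := harris_up (W := W) (HC_mono (k + m) (k + 2 * m) (k + m) (k + 2 * m))
    (VC_mono (k + m) (k + 2 * m) (k + m) (k + 2 * m))
  have i5 := (HC_mono (k + m) (k + 2 * m) (k + m) (k + 2 * m)).inter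
    (VC_mono (k + m) (k + 2 * m) (k + m) (k + 2 * m))
  have u4 := harris_up (W := W) (VC_mono (k + m) (k + 2 * m) k (k + m)) i5
  have i4 := (VC_mono (k + m) (k + 2 * m) k (k + m)).inter i5
  have u3 := harris_up (W := W) (HC_mono (k + m) (k + 2 * m) k (k + m)) i4
  have i3 := (HC_mono (k + m) (k + 2 * m) k (k + m)).inter i4
  have u2 := harris_up (W := W) (VC_mono (k + m) (k + 2 * m) k (k + 2 * m)) i3
  have i2 := (VC_mono (k + m) (k + 2 * m) k (k + 2 * m)).inter i3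
  have u1 := harris_up (W := W) (HC_mono k (k + 2 * m) k (k + m)) i2
  rw [e]
  have q5 : c * c ≤ _ := (mul_le_mul p5 p6 hc0 (pr_nonneg _ _)).trans u5
  have q4 : c * (c * c) ≤ _ := (mul_le_mul p4 q5 (by positivity) (pr_nonneg _ _)).trans u4
  have q3 : c * (c * (c * c)) ≤ _ := (mul_le_mul p3 q4 (by positivity) (pr_nonneg _ _)).trans u3
  have q2 : c * (c * (c * (c * c))) ≤ _ :=
    (mul_le_mul p2 q3 (by positivity) (pr_nonneg _ _)).trans u2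
  have q1 : c * (c * (c * (c * (c * c)))) ≤ _ :=
    (mul_le_mul p1 q2 (by positivity) (pr_nonneg _ _)).trans u1
  calc c ^ 6 = c * (c * (c * (c * (c * c)))) := by ring
    _ ≤ _ := q1

theorem pr_StEv {m : ℤ} {c : ℝ} (hc0 : 0 ≤ c) (hm : 2 ≤ m)
    (hc : ∀ w t : ℤ, 0 < w → 2 ≤ t → w ≤ 2 * t → c ≤ hp w t) (J : ℕ) {W : Finset Ed}
    (hW : EW 0 ((J + 1) * m) 0 ((J + 1) * m) ⊆ W) : (c ^ 6) ^ J ≤ pr W (StEv m J) := by
  induction J with
  | zero =>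
    have : StEv m 0 = Set.univ := by
      ext ω
      simp [StEv]
    rw [this, pr_univ, pow_zero]
  | succ J ih =>
    have hJ : (0 : ℤ) ≤ J * m := by positivity
    have e2 : ((J + 1 : ℕ) + 1 : ℤ) * m = J * m + 2 * m := by push_cast; ring
    have e3 : ((J : ℤ) + 1) * m = J * m + m := by ring
    rw [e2] at hW
    have h1 := ih (by
      rw [e3]
      exact (EW_sub le_rfl (by omega) le_rfl (by omega)).trans hW)
    have h2 := pr_StepEv (m := m) (k := J * m) hc0 hm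
      ((EW_sub (by omega) le_rfl (by omega) le_rfl).trans hW) hc
    have h3 := harris_up (W := W) (StEv_upper m J) (StepEv_upper m (J * m))
    rw [pow_succ]
    refine (mul_le_mul h1 h2 (by positivity) (pr_nonneg _ _)).trans (h3.trans (pr_mono ?_))
    rintro ω ⟨h4, h5⟩ j hj
    rcases Nat.lt_succ_iff_lt_or_eq.1 hj with h6 | rfl
    · exact h4 j h6
    · exact h5

theorem stair_conn {m : ℤ} (hm : 0 < m) {J : ℕ} {ω : Set Ed} (h : ω ∈ StEv m (J + 1)) :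
    ∃ y x x' : ℤ, 0 ≤ y ∧ y ≤ m ∧ J * m + m ≤ x ∧ x ≤ J * m + 2 * m ∧
      J * m + m ≤ x' ∧ x' ≤ J * m + 2 * m ∧
      Conn ω (Rect (J * m + m) (J * m + 2 * m) (J * m) (J * m + 2 * m)) (x, J * m)
        (x', J * m + 2 * m) ∧
      Conn ω (Band m) (0, y) (x, J * m) := by
  -- inside one step: from the horizontal crossing to the vertical one
  have inner : ∀ k : ℤ, ω ∈ StepEv m k → ∀ y y' x x' : ℤ, k ≤ y → y ≤ k + m →
      k + m ≤ x → x ≤ k + 2 * m →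
      Conn ω (Rect k (k + 2 * m) k (k + m)) (k, y) (k + 2 * m, y') →
      Conn ω (Rect (k + m) (k + 2 * m) k (k + 2 * m)) (x, k) (x', k + 2 * m) →
      Conn ω (Band m) (k, y) (x, k) := by
    rintro k ⟨_, _, h3, h4, _, _⟩ y y' x x' hy1 hy2 hx1 hx2 hH hV
    obtain ⟨z, z', hz1, hz2, _, _, hz⟩ := h3
    obtain ⟨t, t', ht1, ht2, _, _, ht⟩ := h4
    -- the vertical crossing of the square meets the long horizontal crossing
    have a1 : Conn ω (Rect k (k + 2 * m) k (k + m)) (t, k) (k, y) :=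
      meet (by omega) ⟨by omega, by omega⟩ (ht.mono le_rfl (by
        intro v hv; simp only [mem_Rect] at hv ⊢; omega)) ⟨hy1, hy2⟩ (by omega) hH
    -- the two crossings of the square meet
    have a2 : Conn ω (Rect (k + m) (k + 2 * m) k (k + m)) (t, k) (k + m, z) :=
      meet (by omega) ⟨ht1, ht2⟩ ht ⟨hz1, hz2⟩ (by omega) hz
    -- the horizontal crossing of the square meets the long vertical crossing
    have a3 : Conn ω (Rect (k + m) (k + 2 * m) k (k + 2 * m)) (x, k) (k + m, z) :=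
      meet (by omega) ⟨hx1, hx2⟩ hV ⟨hz1, by omega⟩ (by omega) (hz.mono le_rfl (by
        intro v hv; simp only [mem_Rect] at hv ⊢; omega))
    have b1 : Conn ω (Band m) (k, y) (t, k) := a1.symm.mono le_rfl (by
      intro v hv; simp only [mem_Rect, Band, Set.mem_ofPred_eq] at hv ⊢; omega)
    have b2 : Conn ω (Band m) (t, k) (k + m, z) := a2.mono le_rfl (by
      intro v hv; simp only [mem_Rect, Band, Set.mem_ofPred_eq] at hv ⊢; omega)
    have b3 : Conn ω (Band m) (k + m, z) (x, k) := a3.symm.mono le_rfl (by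
      intro v hv; simp only [mem_Rect, Band, Set.mem_ofPred_eq] at hv ⊢; omega)
    exact (b1.trans b2).trans b3
  induction J with
  | zero =>
    have h0 := h 0 (by omega)
    simp only [Nat.cast_zero, zero_mul] at h0 ⊢
    obtain ⟨y, y', hy1, hy2, _, _, hH⟩ := h0.1
    obtain ⟨x, x', hx1, hx2, hx3, hx4, hV⟩ := h0.2.1
    exact ⟨y, x, x', by omega, by omega, by omega, by omega, by omega, by omega, hV,
      inner 0 h0 y y' x x' (by omega) (by omega) (by omega) (by omega) hH hV⟩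
  | succ J ih =>
    obtain ⟨y₀, x₀, x₀', g1, g2, g3, g4, g5, g6, gV, gC⟩ := ih fun j hj => h j (by omega)
    have h0 := h (J + 1) (by omega)
    have hJ := h J (by omega)
    have e1 : ((J + 1 : ℕ) : ℤ) * m = J * m + m := by push_cast; ring
    rw [e1] at h0 ⊢
    generalize (J : ℤ) * m = k at *
    obtain ⟨y, y', hy1, hy2, _, _, hH⟩ := h0.1
    obtain ⟨x, x', hx1, hx2, hx3, hx4, hV⟩ := h0.2.1
    have hin := inner (k + m) h0 y y' x x' (by omega) (by omega) (by omega) (by omega) hH hV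
    obtain ⟨_, _, _, _, h5, h6⟩ := hJ
    obtain ⟨z, z', hz1, hz2, _, _, hz⟩ := h5
    obtain ⟨t, t', ht1, ht2, _, _, ht⟩ := h6
    -- horizontal crossing of the second square and the previous vertical crossing
    have a1 : Conn ω (Rect (k + m) (k + 2 * m) k (k + 2 * m)) (x₀, k) (k + m, z) :=
      meet (by omega) ⟨by omega, by omega⟩ gV ⟨by omega, by omega⟩ (by omega)
        (hz.mono le_rfl (by
          intro v hv; simp only [mem_Rect] at hv ⊢; omega))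
    have a2 : Conn ω (Rect (k + m) (k + 2 * m) (k + m) (k + 2 * m)) (t, k + m) (k + m, z) :=
      meet (by omega) ⟨ht1, ht2⟩ ht ⟨hz1, hz2⟩ (by omega) hz
    have ht' : Conn ω (Rect (k + m) (k + m + 2 * m) (k + m) (k + m + m)) (t, k + m)
        (t', k + m + m) := by
      have e2 : k + m + m = k + 2 * m := by ring
      rw [e2]
      exact ht.mono le_rfl (by
        intro v hv; simp only [mem_Rect] at hv ⊢; omega)
    have a3 : Conn ω (Rect (k + m) (k + m + 2 * m) (k + m) (k + m + m)) (t, k + m) (k + m, y) :=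
      meet (by omega) ⟨by omega, by omega⟩ ht' ⟨by omega, by omega⟩ (by omega) hH
    have b1 : Conn ω (Band m) (x₀, k) (k + m, z) := a1.mono le_rfl (by
      intro v hv; simp only [mem_Rect, Band, Set.mem_ofPred_eq] at hv ⊢; omega)
    have b2 : Conn ω (Band m) (k + m, z) (t, k + m) := a2.symm.mono le_rfl (by
      intro v hv; simp only [mem_Rect, Band, Set.mem_ofPred_eq] at hv ⊢; omega)
    have b3 : Conn ω (Band m) (t, k + m) (k + m, y) := a3.mono le_rfl (by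
      intro v hv; simp only [mem_Rect, Band, Set.mem_ofPred_eq] at hv ⊢; omega)
    exact ⟨y₀, x, x', g1, g2, by omega, by omega, by omega, by omega, hV,
      (((gC.trans b1).trans b2).trans b3).trans hin⟩

end Pool.Agent.MP_6bd702.H23

end PartpercwStair

section PartpercwRswA

/-!
# RSW in the face grid: transfer of the staircase
-/

set_option autoImplicit false

namespace Pool.Agent.Perc

open Finset
open Pool.Agent.MP_6bd702

namespace RswF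

/-- The open edges of a configuration. -/
def EE (ω : Cfg) : Set Edg := {e | ω (phiE e) = !e.2.2}

/-- A step along an open edge is a bond. -/
theorem bond_of_step {ω : Cfg} {m : ℤ} {u v : ℤ × ℤ} (h : H23.Step (EE ω) (H23.Band m) u v) :
    Bond ω {f | -m ≤ f.2 ∧ f.2 < 2 * m} (phiV u) (phiV v) := by
  obtain ⟨hu, hv, e, he, hh⟩ := h
  obtain ⟨x, y, t⟩ := e
  simp only [H23.Band, Set.mem_ofPred_eq] at hu hv
  simp only [EE, Set.mem_ofPred_eq, phiE] at he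
  cases t
  · simp only [H23.ea, H23.eb, Bool.false_eq_true, if_false] at hh he
    refine ⟨x + y, x - y, ?_, Or.inl ⟨by simpa using he, ?_⟩⟩
    · rcases hh with ⟨rfl, rfl⟩ | ⟨rfl, rfl⟩ <;> simp only [Set.mem_ofPred_eq] at * <;> omega
    · rcases hh with ⟨rfl, rfl⟩ | ⟨rfl, rfl⟩
      · left
        constructor <;> ext <;> simp only [phiV] <;> ring
      · right
        constructor <;> ext <;> simp only [phiV] <;> ring
  · simp only [H23.ea, H23.eb, if_true] at hh he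
    refine ⟨x + y, x - y - 1, ?_, Or.inr ⟨by simpa using he, ?_⟩⟩
    · rcases hh with ⟨rfl, rfl⟩ | ⟨rfl, rfl⟩ <;> simp only [Set.mem_ofPred_eq] at * <;> omega
    · rcases hh with ⟨rfl, rfl⟩ | ⟨rfl, rfl⟩
      · left
        constructor <;> ext <;> simp only [phiV] <;> ring
      · right
        constructor <;> ext <;> simp only [phiV] <;> ring

theorem conn_of_conn {ω : Cfg} {m : ℤ} {u v : ℤ × ℤ} (h : H23.Conn (EE ω) (H23.Band m) u v) :
    Conn ω {f | -m ≤ f.2 ∧ f.2 < 2 * m} (phiV u) (phiV v) := by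
  induction h with
  | refl => exact Relation.ReflTransGen.refl
  | tail _ hb ih => exact ih.tail (bond_of_step hb)

/-- A path in a horizontal strip which goes from the left of `x₀` to the right of `x₁` crosses the
rectangle. -/
theorem lr_of_conn {ω : Cfg} {c x₀ x₁ y₀ y₁ : ℤ} {F : Set (ℤ × ℤ)} {u v : ℤ × ℤ}
    (hF : ∀ f ∈ F, y₀ ≤ f.2 ∧ f.2 < y₁) (hx : x₀ < x₁) (hpar : (u.1 + u.2 - c) % 2 = 0)
    (hu : u.1 ≤ x₀) (hv : x₁ ≤ v.1) (h : Conn ω F u v) : ω ∈ LR c x₀ x₁ y₀ y₁ := by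
  have key : v.1 ≤ x₀ ∨ (v.1 ≤ x₁ ∧ ∃ s : ℤ × ℤ, s.1 = x₀ ∧ y₀ ≤ s.2 ∧ s.2 ≤ y₁ ∧
      (s.1 + s.2 - c) % 2 = 0 ∧ Conn ω (RF x₀ x₁ y₀ y₁) s v) ∨ ω ∈ LR c x₀ x₁ y₀ y₁ := by
    clear hv
    induction h with
    | refl => exact Or.inl hu
    | @tail w w' hw hb ih =>
      have hp := Conn.parity hw
      have hstep : (w'.1 = w.1 + 1 ∨ w'.1 = w.1 - 1) ∧ y₀ ≤ w.2 ∧ w.2 ≤ y₁ ∧
          Bond ω {f | f.1 = min w.1 w'.1 ∧ y₀ ≤ f.2 ∧ f.2 < y₁} w w' := by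
        obtain ⟨x, y, hm, hh⟩ := hb
        have hm' := hF _ hm
        simp only at hm'
        refine ⟨?_, ?_, ?_, x, y, ?_, hh⟩
        · rcases hh with ⟨_, ⟨rfl, rfl⟩ | ⟨rfl, rfl⟩⟩ | ⟨_, ⟨rfl, rfl⟩ | ⟨rfl, rfl⟩⟩
          · left; rfl
          · right; dsimp only; omega
          · left; rfl
          · right; dsimp only; omega
        · rcases hh with ⟨_, ⟨rfl, rfl⟩ | ⟨rfl, rfl⟩⟩ | ⟨_, ⟨rfl, rfl⟩ | ⟨rfl, rfl⟩⟩ <;>
            simp only <;> omega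
        · rcases hh with ⟨_, ⟨rfl, rfl⟩ | ⟨rfl, rfl⟩⟩ | ⟨_, ⟨rfl, rfl⟩ | ⟨rfl, rfl⟩⟩ <;>
            simp only <;> omega
        · change x = min w.1 w'.1 ∧ y₀ ≤ y ∧ y < y₁
          refine ⟨?_, hm'⟩
          rcases hh with ⟨_, ⟨rfl, rfl⟩ | ⟨rfl, rfl⟩⟩ | ⟨_, ⟨rfl, rfl⟩ | ⟨rfl, rfl⟩⟩ <;>
            simp only <;> omega
      obtain ⟨hx1, hw1, hw2, hb'⟩ := hstep
      have hbond : x₀ ≤ min w.1 w'.1 → min w.1 w'.1 < x₁ →
          Conn ω (RF x₀ x₁ y₀ y₁) w w' := by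
        intro h1 h2
        refine Relation.ReflTransGen.single ?_
        obtain ⟨x, y, hm, hh⟩ := hb'
        refine ⟨x, y, ?_, hh⟩
        simp only [Set.mem_ofPred_eq] at hm
        simp only [RF, coe_product, coe_Ico, Set.mem_prod, Set.mem_Ico]
        omega
      rcases ih with h4 | ⟨h4, s, h5, h6, h7, h8, h9⟩ | h4
      · by_cases h5 : w'.1 ≤ x₀
        · exact Or.inl h5
        · right; left
          have hwx : w.1 = x₀ := by omega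
          exact ⟨by omega, w, hwx, hw1, hw2, by omega, hbond (by omega) (by omega)⟩
      · by_cases h10 : w'.1 ≤ x₀
        · exact Or.inl h10
        · right
          by_cases h11 : w'.1 ≤ x₁
          · left
            exact ⟨h11, s, h5, h6, h7, h8, h9.trans (hbond (by omega) (by omega))⟩
          · right
            exact ⟨s, w, h5, h6, h7, by omega, h8, h9⟩
      · exact Or.inr (Or.inr h4)
  rcases key with h4 | ⟨h4, s, h5, h6, h7, h8, h9⟩ | h4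
  · omega
  · exact ⟨s, v, h5, h6, h7, by omega, h8, h9⟩
  · exact h4

/-- The staircase crosses a rectangle of the face grid. -/
theorem lr_of_stair {ω : Cfg} {m : ℤ} (hm : 0 < m) {J : ℕ} (h : EE ω ∈ H23.StEv m (J + 1))
    {x₀ x₁ y₀ y₁ : ℤ} (hx : x₀ < x₁) (h1 : m ≤ x₀) (h2 : x₁ ≤ 2 * (J * m) + m) (h3 : y₀ ≤ -m)
    (h4 : 2 * m ≤ y₁) : ω ∈ LR 0 x₀ x₁ y₀ y₁ := by
  obtain ⟨y, x, x', g1, g2, g3, g4, g5, g6, gV, gC⟩ := H23.stair_conn hm h
  have hc := conn_of_conn gC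
  refine lr_of_conn (F := {f | -m ≤ f.2 ∧ f.2 < 2 * m}) ?_ hx ?_ ?_ ?_ hc
  · intro f hf
    simp only [Set.mem_ofPred_eq] at hf
    omega
  · simp only [phiV]
    omega
  · simp only [phiV]
    omega
  · simp only [phiV]
    omega

/-- Lower bound for the staircase in the face grid. -/
theorem pr_stair {m : ℤ} {c : ℝ} (hc0 : 0 ≤ c) (hm : 2 ≤ m)
    (hc : ∀ w t : ℤ, 0 < w → 2 ≤ t → w ≤ 2 * t → c ≤ H23.hp w t) (J : ℕ)
    {x₀ x₁ y₀ y₁ : ℤ} (hx : x₀ < x₁) (h1 : m ≤ x₀) (h2 : x₁ ≤ 2 * (J * m) + m) (h3 : y₀ ≤ -m)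
    (h4 : 2 * m ≤ y₁) : (c ^ 6) ^ (J + 1) ≤ pr (RF x₀ x₁ y₀ y₁) (LR 0 x₀ x₁ y₀ y₁) := by
  classical
  obtain ⟨N, hN⟩ : ∃ N : ℕ, (N : ℤ) = ((J + 1 : ℕ) + 1) * m :=
    ⟨(((J + 1 : ℕ) + 1) * m).toNat, Int.toNat_of_nonneg (by positivity)⟩
  have e1 := H23.pr_StEv hc0 hm hc (J + 1) (W := boxE N) (by
    rw [SmallClusters.boxE_eq, hN])
  have e2 : H23.pr (boxE N) (H23.StEv m (J + 1)) =
      prB N {T : Finset Edg | (T : Set Edg) ∈ H23.StEv m (J + 1)} := by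
    rw [SmallClusters.prB_eq]
    refine H23.pr_congr fun ω hω => ?_
    constructor
    · intro h
      have hfin : ω.Finite := (boxE N).finite_toSet.subset hω
      exact ⟨hfin.toFinset, by simpa using h, by simp⟩
    · rintro ⟨T, hT, rfl⟩
      exact hT
  set S := (boxE N).image phiE ∪ RF x₀ x₁ y₀ y₁ with hS
  have e3 := pr_cfgE N (S := S) (fun e he => mem_union_left _ (mem_image_of_mem _ he))
    {T : Finset Edg | (T : Set Edg) ∈ H23.StEv m (J + 1)}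
  rw [e2, ← e3] at e1
  refine e1.trans ?_
  rw [← pr_eq_of_depOn (depOn_LR 0 x₀ x₁ y₀ y₁) (S' := S) subset_union_right]
  refine pr_mono _ ?_
  intro ω h
  have h5 : EE ω ∈ H23.StEv m (J + 1) := by
    refine H23.StEv_upper m (J + 1) ?_ h
    intro e he
    rw [mem_coe, cfgE, mem_filter] at he
    exact he.2
  exact lr_of_stair (by omega) h5 hx h1 h2 h3 h4

end RswF

end Pool.Agent.Perc

end PartpercwRswA

section PartpercwRswB

/-!
# RSW in the face grid: rectangles of bounded aspect ratio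
-/

set_option autoImplicit false

namespace Pool.Agent.Perc

open Finset
open Pool.Agent.MP_6bd702

/-- `LR` depends on the parity only. -/
theorem LR_congr {c c' : ℤ} (h : (c - c') % 2 = 0) (x₀ x₁ y₀ y₁ : ℤ) :
    LR c x₀ x₁ y₀ y₁ = LR c' x₀ x₁ y₀ y₁ := by
  ext ω
  constructor
  · rintro ⟨u, v, h1, h2, h3, h4, h5, h6⟩
    exact ⟨u, v, h1, h2, h3, h4, by omega, h6⟩
  · rintro ⟨u, v, h1, h2, h3, h4, h5, h6⟩
    exact ⟨u, v, h1, h2, h3, h4, by omega, h6⟩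

/-- `BT` depends on the parity only. -/
theorem BT_congr {c c' : ℤ} (h : (c - c') % 2 = 0) (x₀ x₁ y₀ y₁ : ℤ) :
    BT c x₀ x₁ y₀ y₁ = BT c' x₀ x₁ y₀ y₁ := by
  ext ω
  constructor
  · rintro ⟨u, v, h1, h2, h3, h4, h5, h6⟩
    exact ⟨u, v, h1, h2, h3, h4, by omega, h6⟩
  · rintro ⟨u, v, h1, h2, h3, h4, h5, h6⟩
    exact ⟨u, v, h1, h2, h3, h4, by omega, h6⟩

theorem lr_shift (a b c x₀ x₁ y₀ y₁ : ℤ) (ω : Cfg) :
    shiftC a b ω ∈ LR c x₀ x₁ y₀ y₁ ↔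
      ω ∈ LR (c + a + b) (x₀ + a) (x₁ + a) (y₀ + b) (y₁ + b) := by
  constructor
  · rintro ⟨u, v, h1, h2, h3, h4, h5, h6⟩
    rw [conn_shift, DictA.rf_shift] at h6
    exact ⟨_, _, by dsimp only; omega, by dsimp only; omega, by dsimp only; omega,
      by dsimp only; omega, by dsimp only; omega, h6⟩
  · rintro ⟨u, v, h1, h2, h3, h4, h5, h6⟩
    refine ⟨(u.1 - a, u.2 - b), (v.1 - a, v.2 - b), by dsimp only; omega, by dsimp only; omega,
      by dsimp only; omega, by dsimp only; omega, by dsimp only; omega, ?_⟩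
    rw [conn_shift, DictA.rf_shift]
    simpa using h6

/-- Translation invariance of the crossing probabilities. -/
theorem pr_LR_shift (a b c x₀ x₁ y₀ y₁ : ℤ) :
    pr (RF (x₀ + a) (x₁ + a) (y₀ + b) (y₁ + b))
      (LR (c + a + b) (x₀ + a) (x₁ + a) (y₀ + b) (y₁ + b)) =
    pr (RF x₀ x₁ y₀ y₁) (LR c x₀ x₁ y₀ y₁) := by
  have h1 : LR (c + a + b) (x₀ + a) (x₁ + a) (y₀ + b) (y₁ + b) =
      {ω : Cfg | (fun x : ℤ × ℤ => ω (x.1 + a, x.2 + b)) ∈ LR c x₀ x₁ y₀ y₁} := by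
    ext ω
    exact (lr_shift a b c x₀ x₁ y₀ y₁ ω).symm
  rw [h1]
  refine pr_comp (f := fun x : ℤ × ℤ => (x.1 + a, x.2 + b)) ?_ ?_ (depOn_LR c x₀ x₁ y₀ y₁)
  · intro x _ y _ h
    simp only [Prod.mk.injEq, add_left_inj] at h
    exact Prod.ext h.1 h.2
  · intro x hx
    simp only [RF, mem_product, mem_Ico] at hx ⊢
    omega

theorem pr_LR_window {S : Finset (ℤ × ℤ)} {x₀ x₁ y₀ y₁ : ℤ} (h : RF x₀ x₁ y₀ y₁ ⊆ S) (c : ℤ) :
    pr S (LR c x₀ x₁ y₀ y₁) = pr (RF x₀ x₁ y₀ y₁) (LR c x₀ x₁ y₀ y₁) :=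
  pr_eq_of_depOn (depOn_LR c x₀ x₁ y₀ y₁) h

theorem pr_BT_window {S : Finset (ℤ × ℤ)} {x₀ x₁ y₀ y₁ : ℤ} (h : RF x₀ x₁ y₀ y₁ ⊆ S) (c : ℤ) :
    pr S (BT c x₀ x₁ y₀ y₁) = pr (RF x₀ x₁ y₀ y₁) (BT c x₀ x₁ y₀ y₁) :=
  pr_eq_of_depOn (depOn_BT c x₀ x₁ y₀ y₁) h

namespace RswF

/-- Prescribing the values on a set of faces. -/
theorem pr_fix {S D : Finset (ℤ × ℤ)} (hD : D ⊆ S) (g : ℤ × ℤ → Bool) :
    1 / 2 ^ D.card ≤ pr S {ω | ∀ f ∈ D, ω f = g f} := by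
  classical
  have h1 : DepOn (D : Set (ℤ × ℤ)) {ω | ∀ f ∈ D, ω f = g f} := by
    intro ω ω' h
    simp only [Set.mem_ofPred_eq]
    constructor
    · intro h2 f hf
      rw [← h f (by exact_mod_cast hf)]
      exact h2 f hf
    · intro h2 f hf
      rw [h f (by exact_mod_cast hf)]
      exact h2 f hf
  rw [pr_eq_of_depOn h1 hD]
  have h2 : cfg (D.filter (fun f => g f = true)) ∈ {ω : Cfg | ∀ f ∈ D, ω f = g f} := by
    intro f hf
    simp only [cfg, mem_filter, hf, true_and]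
    cases g f <;> simp
  generalize {ω : Cfg | ∀ f ∈ D, ω f = g f} = A at h2 ⊢
  rw [pr]
  gcongr
  rw [Nat.one_le_cast, Nat.one_le_iff_ne_zero, ← Nat.pos_iff_ne_zero, Finset.card_pos]
  exact ⟨D.filter (fun f => g f = true),
    mem_filter.2 ⟨mem_powerset.2 (filter_subset _ _), h2⟩⟩

/-- The height of the zigzag path. -/
def zig (c y₀ x : ℤ) : ℤ := if (x + y₀ - c) % 2 = 0 then y₀ else y₀ + 1

theorem zig_conn {ω : Cfg} {c x₀ x₁ y₀ y₁ : ℤ} (hy : y₀ < y₁)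
    (h : ∀ x, x₀ ≤ x → x < x₁ → ω (x, y₀) = decide ((x + y₀ - c) % 2 = 0)) (n : ℕ)
    (hn : x₀ + n ≤ x₁) : Conn ω (RF x₀ x₁ y₀ y₁) (x₀, zig c y₀ x₀) (x₀ + n, zig c y₀ (x₀ + n)) := by
  induction n with
  | zero =>
    simp only [Nat.cast_zero, add_zero]
    exact Relation.ReflTransGen.refl
  | succ n ih =>
    have ih' := ih (by push_cast at hn; omega)
    refine ih'.tail ?_
    have hw := h (x₀ + n) (by omega) (by push_cast at hn; omega)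
    refine ⟨x₀ + n, y₀, ?_, ?_⟩
    · simp only [RF, coe_product, coe_Ico, Set.mem_prod, Set.mem_Ico]
      push_cast at hn
      omega
    · push_cast
      by_cases hp : (x₀ + n + y₀ - c) % 2 = 0
      · left
        refine ⟨by rw [hw]; simpa using hp, Or.inl ⟨?_, ?_⟩⟩
        · rw [zig, if_pos hp]
        · rw [zig, if_neg (by omega)]
          ext
          · dsimp only; ring
          · rfl
      · right
        refine ⟨by rw [hw]; simpa using hp, Or.inl ⟨?_, ?_⟩⟩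
        · rw [zig, if_neg hp]
        · rw [zig, if_pos (by omega)]
          ext
          · dsimp only; ring
          · rfl

/-- Crossings always have positive probability. -/
theorem pr_LR_pos (c : ℤ) {x₀ x₁ y₀ y₁ : ℤ} (hx : x₀ < x₁) (hy : y₀ < y₁) :
    1 / 2 ^ (x₁ - x₀).toNat ≤ pr (RF x₀ x₁ y₀ y₁) (LR c x₀ x₁ y₀ y₁) := by
  classical
  set D : Finset (ℤ × ℤ) := (Ico x₀ x₁).image fun x => (x, y₀) with hD
  have hcard : D.card = (x₁ - x₀).toNat := by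
    rw [hD, card_image_of_injective _ (fun a b h => (Prod.mk.inj h).1), Int.card_Ico]
  have h1 := pr_fix (S := RF x₀ x₁ y₀ y₁) (D := D) (by
    intro f hf
    obtain ⟨x, hx', rfl⟩ := mem_image.1 hf
    rw [mem_Ico] at hx'
    simp only [RF, mem_product, mem_Ico]
    omega) (fun f => decide ((f.1 + f.2 - c) % 2 = 0))
  rw [hcard] at h1
  refine h1.trans (pr_mono _ ?_)
  intro ω hω
  have h2 : ∀ x, x₀ ≤ x → x < x₁ → ω (x, y₀) = decide ((x + y₀ - c) % 2 = 0) := by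
    intro x h3 h4
    exact hω (x, y₀) (mem_image.2 ⟨x, mem_Ico.2 ⟨h3, h4⟩, rfl⟩)
  have h3 := zig_conn hy h2 (x₁ - x₀).toNat (by omega)
  refine ⟨_, _, rfl, ?_, ?_, ?_, ?_, h3⟩
  · dsimp only [zig]; split_ifs <;> omega
  · dsimp only [zig]; split_ifs <;> omega
  · dsimp only; omega
  · dsimp only [zig]; split_ifs <;> omega

end RswF

/-- **RSW in the face grid**: left-right crossings of rectangles whose width is at most `k` times
the height. -/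
theorem rswF (k : ℕ) : ∃ c : ℝ, 0 < c ∧ ∀ col x₀ x₁ y₀ y₁ : ℤ, x₀ < x₁ → y₀ < y₁ →
    x₁ - x₀ ≤ k * (y₁ - y₀) → c ≤ pr (RF x₀ x₁ y₀ y₁) (LR col x₀ x₁ y₀ y₁) := by
  obtain ⟨c, hc, hrsw⟩ := H23.rsw 2
  refine ⟨min ((c ^ 6) ^ (2 * k + 1 + 1)) (1 / 2 ^ (5 * k)), by positivity, ?_⟩
  intro col x₀ x₁ y₀ y₁ hx hy hk
  by_cases ht : 6 ≤ y₁ - y₀
  · refine (min_le_left _ _).trans ?_
    set m := (y₁ - y₀) / 3 with hm
    have hm2 : 2 ≤ m := by omega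
    -- the translation
    obtain ⟨a, ha1, ha2, ha3⟩ : ∃ a : ℤ, x₀ - m - 1 ≤ a ∧ a ≤ x₀ - m ∧
        (a + (y₀ + m) - col) % 2 = 0 := by
      by_cases h : (x₀ - m + (y₀ + m) - col) % 2 = 0
      · exact ⟨x₀ - m, by omega, le_rfl, h⟩
      · exact ⟨x₀ - m - 1, le_rfl, by omega, by omega⟩
    have hkm : x₁ - x₀ ≤ 4 * (k * m) + 2 * m - 1 := by
      have h1 : (k : ℤ) * (y₁ - y₀) ≤ k * (3 * m + 2) :=
        mul_le_mul_of_nonneg_left (by omega) (Int.natCast_nonneg k)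
      have h2 : (k : ℤ) * (3 * m + 2) ≤ k * (4 * m) :=
        mul_le_mul_of_nonneg_left (by omega) (Int.natCast_nonneg k)
      have h3 : (k : ℤ) * (4 * m) = 4 * (k * m) := by ring
      omega
    have e2 : ((2 * k + 1 : ℕ) : ℤ) * m = 2 * (k * m) + m := by push_cast; ring
    have h1 := RswF.pr_stair hc.le hm2 (by exact_mod_cast hrsw) (2 * k + 1)
      (x₀ := x₀ - a) (x₁ := x₁ - a) (y₀ := -m) (y₁ := y₁ - (y₀ + m)) (by omega) (by omega)
      (by rw [e2]; omega) le_rfl (by omega)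
    refine h1.trans (le_of_eq ?_)
    rw [← pr_LR_shift a (y₀ + m) 0 (x₀ - a) (x₁ - a) (-m) (y₁ - (y₀ + m)),
      LR_congr (c' := col) (by omega)]
    have e3 : x₀ - a + a = x₀ := by ring
    have e4 : x₁ - a + a = x₁ := by ring
    have e5 : -m + (y₀ + m) = y₀ := by ring
    have e6 : y₁ - (y₀ + m) + (y₀ + m) = y₁ := by ring
    rw [e3, e4, e5, e6]
  · refine (min_le_right _ _).trans ((?_ : _ ≤ _).trans (RswF.pr_LR_pos col hx hy))
    apply one_div_le_one_div_of_le (by positivity)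
    apply pow_le_pow_right₀ (by norm_num)
    have h1 : (k : ℤ) * (y₁ - y₀) ≤ k * 5 :=
      mul_le_mul_of_nonneg_left (by omega) (Int.natCast_nonneg k)
    omega

/-! ### Bottom-top crossings -/

namespace RswF

/-- Transposition. -/
theorem conn_swap {ω : Cfg} {x₀ x₁ y₀ y₁ : ℤ} {u v : ℤ × ℤ}
    (h : Conn (fun f => ω (f.2, f.1)) (RF x₀ x₁ y₀ y₁) u v) :
    Conn ω (RF y₀ y₁ x₀ x₁) (u.2, u.1) (v.2, v.1) := by
  refine GridA.conn_lift (fun w : ℤ × ℤ => (w.2, w.1)) ?_ h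
  rintro w w' ⟨x, y, hm, hh⟩
  refine ⟨y, x, ?_, ?_⟩
  · simp only [RF, coe_product, coe_Ico, Set.mem_prod, Set.mem_Ico] at hm ⊢
    omega
  · rcases hh with ⟨h1, ⟨rfl, rfl⟩ | ⟨rfl, rfl⟩⟩ | ⟨h1, ⟨rfl, rfl⟩ | ⟨rfl, rfl⟩⟩
    · exact Or.inl ⟨h1, Or.inl ⟨rfl, rfl⟩⟩
    · exact Or.inl ⟨h1, Or.inr ⟨rfl, rfl⟩⟩
    · exact Or.inr ⟨h1, Or.inr ⟨rfl, rfl⟩⟩
    · exact Or.inr ⟨h1, Or.inl ⟨rfl, rfl⟩⟩

theorem lr_swap {ω : Cfg} {c x₀ x₁ y₀ y₁ : ℤ} :
    (fun f : ℤ × ℤ => ω (f.2, f.1)) ∈ LR c y₀ y₁ x₀ x₁ ↔ ω ∈ BT c x₀ x₁ y₀ y₁ := by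
  constructor
  · rintro ⟨u, v, h1, h2, h3, h4, h5, h6⟩
    exact ⟨_, _, h1, h2, h3, h4, by dsimp only; omega, conn_swap h6⟩
  · rintro ⟨u, v, h1, h2, h3, h4, h5, h6⟩
    refine ⟨(u.2, u.1), (v.2, v.1), h1, h2, h3, h4, by dsimp only; omega, ?_⟩
    exact conn_swap (ω := fun f : ℤ × ℤ => ω (f.2, f.1)) h6

end RswF

theorem pr_BT_eq (c x₀ x₁ y₀ y₁ : ℤ) :
    pr (RF x₀ x₁ y₀ y₁) (BT c x₀ x₁ y₀ y₁) = pr (RF y₀ y₁ x₀ x₁) (LR c y₀ y₁ x₀ x₁) := by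
  have h1 : BT c x₀ x₁ y₀ y₁ =
      {ω : Cfg | (fun f : ℤ × ℤ => ω (f.2, f.1)) ∈ LR c y₀ y₁ x₀ x₁} := by
    ext ω
    exact RswF.lr_swap.symm
  rw [h1]
  refine pr_comp (f := fun x : ℤ × ℤ => (x.2, x.1)) ?_ ?_ (depOn_LR c y₀ y₁ x₀ x₁)
  · intro x _ y _ h
    simp only [Prod.mk.injEq] at h
    exact Prod.ext h.2 h.1
  · intro x hx
    simp only [RF, mem_product, mem_Ico] at hx ⊢
    omega

/-- **RSW in the face grid**: bottom-top crossings of rectangles whose height is at most `k` times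
the width. -/
theorem rswF' (k : ℕ) : ∃ c : ℝ, 0 < c ∧ ∀ col x₀ x₁ y₀ y₁ : ℤ, x₀ < x₁ → y₀ < y₁ →
    y₁ - y₀ ≤ k * (x₁ - x₀) → c ≤ pr (RF x₀ x₁ y₀ y₁) (BT col x₀ x₁ y₀ y₁) := by
  obtain ⟨c, hc, h⟩ := rswF k
  refine ⟨c, hc, fun col x₀ x₁ y₀ y₁ hx hy hk => ?_⟩
  rw [pr_BT_eq]
  exact h col y₀ y₁ x₀ x₁ hy hx hk

end Pool.Agent.Perc

end PartpercwRswB

section PartpercwRswC

/-!
# RSW in the face grid: blocking annuli and the one-arm bound
-/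

set_option autoImplicit false

namespace Pool.Agent.Perc

open Finset
open Pool.Agent.MP_6bd702

/-- The faces of the box of radius `R` around `p`. -/
noncomputable def RFb (p : ℤ × ℤ) (R : ℤ) : Finset (ℤ × ℤ) :=
  RF (p.1 - R) (p.1 + R) (p.2 - R) (p.2 + R)

/-- A path of colour `col` from the box of radius `r` to the boundary of the box of radius `R`. -/
def ArmB (col : ℤ) (p : ℤ × ℤ) (r R : ℤ) : Set Cfg :=
  {ω | ∃ u v, p.1 - r ≤ u.1 ∧ u.1 ≤ p.1 + r ∧ p.2 - r ≤ u.2 ∧ u.2 ≤ p.2 + r ∧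
    (u.1 + u.2 - col) % 2 = 0 ∧ OnBd (p.1 - R) (p.1 + R) (p.2 - R) (p.2 + R) v ∧
    Conn ω (RFb p R) u v}

/-- Four crossings of the colour different from `col` around the box of radius `r`. -/
def Blk (col : ℤ) (p : ℤ × ℤ) (r : ℤ) : Set Cfg :=
  LR (col + 1) (p.1 - 4 * r) (p.1 + 4 * r) (p.2 + r) (p.2 + 4 * r) ∩
  (LR (col + 1) (p.1 - 4 * r) (p.1 + 4 * r) (p.2 - 4 * r) (p.2 - r) ∩
  (BT (col + 1) (p.1 - 4 * r) (p.1 - r) (p.2 - 4 * r) (p.2 + 4 * r) ∩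
  BT (col + 1) (p.1 + r) (p.1 + 4 * r) (p.2 - 4 * r) (p.2 + 4 * r)))

theorem mem_RFi {x₀ x₁ y₀ y₁ : ℤ} {f : ℤ × ℤ} :
    f ∈ RF x₀ x₁ y₀ y₁ ↔ x₀ ≤ f.1 ∧ f.1 < x₁ ∧ y₀ ≤ f.2 ∧ f.2 < y₁ := by
  simp only [RF, mem_product, mem_Ico, and_assoc]

theorem mem_RFb {p : ℤ × ℤ} {R : ℤ} {f : ℤ × ℤ} :
    f ∈ RFb p R ↔ p.1 - R ≤ f.1 ∧ f.1 < p.1 + R ∧ p.2 - R ≤ f.2 ∧ f.2 < p.2 + R := mem_RFi

theorem incD_LR (c x₀ x₁ y₀ y₁ : ℤ) : IncD (parD c) (LR c x₀ x₁ y₀ y₁) := by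
  rintro ω ω' h ⟨u, v, h1, h2, h3, h4, h5, h6⟩
  exact ⟨u, v, h1, h2, h3, h4, h5, incD_conn c _ h5 ω ω' h h6⟩

theorem incD_BT' (c x₀ x₁ y₀ y₁ : ℤ) : IncD (parD c) (BT c x₀ x₁ y₀ y₁) := by
  rintro ω ω' h ⟨u, v, h1, h2, h3, h4, h5, h6⟩
  exact ⟨u, v, h1, h2, h3, h4, h5, incD_conn c _ h5 ω ω' h h6⟩

theorem incD_inter' {D : ℤ × ℤ → Bool} {A B : Set Cfg} (hA : IncD D A) (hB : IncD D B) :
    IncD D (A ∩ B) := fun ω ω' h h1 => ⟨hA ω ω' h h1.1, hB ω ω' h h1.2⟩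

theorem depOn_inter' {S : Set (ℤ × ℤ)} {A B : Set Cfg} (hA : DepOn S A) (hB : DepOn S B) :
    DepOn S (A ∩ B) := fun ω ω' h => and_congr (hA ω ω' h) (hB ω ω' h)

theorem depOn_mono' {S S' : Set (ℤ × ℤ)} {A : Set Cfg} (hA : DepOn S A) (h : S ⊆ S') :
    DepOn S' A := fun ω ω' h' => hA ω ω' fun f hf => h' f (h hf)

theorem depOn_compl {S : Set (ℤ × ℤ)} {A : Set Cfg} (hA : DepOn S A) : DepOn S Aᶜ :=
  fun ω ω' h => not_congr (hA ω ω' h)

/-- Harris' inequality for a finite family. -/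
theorem harris_list {ι : Type} [DecidableEq ι] {S : Finset (ℤ × ℤ)} (D : ℤ × ℤ → Bool)
    (s : Finset ι) (A : ι → Set Cfg) (h1 : ∀ i ∈ s, DepOn S (A i)) (h2 : ∀ i ∈ s, IncD D (A i)) :
    ∏ i ∈ s, pr S (A i) ≤ pr S {ω | ∀ i ∈ s, ω ∈ A i} := by
  induction s using Finset.induction_on with
  | empty =>
    have : {ω : Cfg | ∀ i ∈ (∅ : Finset ι), ω ∈ A i} = Set.univ := by
      ext ω; simp
    have h3 : pr S (Set.univ : Set Cfg) = 1 := by
      have := pr_compl S (∅ : Set Cfg)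
      rw [Set.compl_empty] at this
      have h4 : pr S (∅ : Set Cfg) = 0 := by
        classical
        rw [ProbA.pr_eq_sum]
        simp
      rw [this, h4, sub_zero]
    rw [this, h3, Finset.prod_empty]
  | insert i s hi ih =>
    have h3 := ih (fun j hj => h1 j (mem_insert_of_mem hj)) (fun j hj => h2 j (mem_insert_of_mem hj))
    have hD : DepOn S {ω | ∀ j ∈ s, ω ∈ A j} := fun ω ω' h =>
      forall₂_congr fun j hj => h1 j (mem_insert_of_mem hj) ω ω' h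
    have hI : IncD D {ω | ∀ j ∈ s, ω ∈ A j} := fun ω ω' h h4 j hj =>
      h2 j (mem_insert_of_mem hj) ω ω' h (h4 j hj)
    have h4 := harris D (h1 i (mem_insert_self _ _)) hD (h2 i (mem_insert_self _ _)) hI
    rw [Finset.prod_insert hi]
    refine (mul_le_mul_of_nonneg_left h3 (pr_nonneg _ _)).trans (h4.trans (pr_mono _ ?_))
    rintro ω ⟨h5, h6⟩ j hj
    rcases mem_insert.1 hj with rfl | hj
    · exact h5
    · exact h6 j hj

/-- A path in a vertical strip which goes from below `y₀` to above `y₁` crosses the rectangle. -/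
theorem bt_of_conn {ω : Cfg} {c x₀ x₁ y₀ y₁ : ℤ} {F : Set (ℤ × ℤ)} {u v : ℤ × ℤ}
    (hF : ∀ f ∈ F, x₀ ≤ f.1 ∧ f.1 < x₁) (hy : y₀ < y₁) (hpar : (u.1 + u.2 - c) % 2 = 0)
    (hu : u.2 ≤ y₀) (hv : y₁ ≤ v.2) (h : Conn ω F u v) : ω ∈ BT c x₀ x₁ y₀ y₁ := by
  rw [← RswF.lr_swap]
  have h2 : Conn (fun f : ℤ × ℤ => ω (f.2, f.1)) {f | (f.2, f.1) ∈ F} (u.2, u.1) (v.2, v.1) := by
    refine GridA.conn_lift (fun w : ℤ × ℤ => (w.2, w.1)) ?_ h
    rintro w w' ⟨x, y, hm, hh⟩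
    refine ⟨y, x, hm, ?_⟩
    rcases hh with ⟨h1, ⟨rfl, rfl⟩ | ⟨rfl, rfl⟩⟩ | ⟨h1, ⟨rfl, rfl⟩ | ⟨rfl, rfl⟩⟩
    · exact Or.inl ⟨h1, Or.inl ⟨rfl, rfl⟩⟩
    · exact Or.inl ⟨h1, Or.inr ⟨rfl, rfl⟩⟩
    · exact Or.inr ⟨h1, Or.inr ⟨rfl, rfl⟩⟩
    · exact Or.inr ⟨h1, Or.inl ⟨rfl, rfl⟩⟩
  exact RswF.lr_of_conn (F := {f | (f.2, f.1) ∈ F}) (fun f hf => hF _ hf) hy
    (by dsimp only; omega) hu hv h2

theorem lr_of_conn {ω : Cfg} {c x₀ x₁ y₀ y₁ : ℤ} {F : Set (ℤ × ℤ)} {u v : ℤ × ℤ}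
    (hF : ∀ f ∈ F, y₀ ≤ f.2 ∧ f.2 < y₁) (hx : x₀ < x₁) (hpar : (u.1 + u.2 - c) % 2 = 0)
    (hu : u.1 ≤ x₀) (hv : x₁ ≤ v.1) (h : Conn ω F u v) : ω ∈ LR c x₀ x₁ y₀ y₁ :=
  RswF.lr_of_conn hF hx hpar hu hv h

/-- The four crossings block every arm. -/
theorem blk_not_arm {col : ℤ} {p : ℤ × ℤ} {r : ℤ} (hr : 0 < r) {ω : Cfg} (h : ω ∈ Blk col p r) :
    ω ∉ ArmB col p r (4 * r) := by
  obtain ⟨hT, hB, hL, hR⟩ := h
  rintro ⟨u, v, h1, h2, h3, h4, h5, h6, h7⟩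
  have hp := Conn.parity h7
  obtain ⟨h8, hv1, hv2, hv3, hv4⟩ := h6
  rcases h8 with h8 | h8 | h8 | h8
  · -- left
    have h9 : ω ∈ LR col (p.1 - 4 * r) (p.1 - r) (p.2 - 4 * r) (p.2 + 4 * r) :=
      lr_of_conn (F := RFb p (4 * r)) (fun f hf => by
        have := mem_RFb.1 (mem_coe.1 hf); omega) (by omega) (by omega) (by omega) (by omega)
        h7.symm
    exact not_lr_and_bt col (by omega) (by omega) ω ⟨h9, hL⟩
  · have h9 : ω ∈ LR col (p.1 + r) (p.1 + 4 * r) (p.2 - 4 * r) (p.2 + 4 * r) :=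
      lr_of_conn (F := RFb p (4 * r)) (fun f hf => by
        have := mem_RFb.1 (mem_coe.1 hf); omega) (by omega) (by omega) (by omega) (by omega) h7
    exact not_lr_and_bt col (by omega) (by omega) ω ⟨h9, hR⟩
  · have h9 : ω ∈ BT (col + 1 + 1) (p.1 - 4 * r) (p.1 + 4 * r) (p.2 - 4 * r) (p.2 - r) :=
      bt_of_conn (F := RFb p (4 * r)) (fun f hf => by
        have := mem_RFb.1 (mem_coe.1 hf); omega) (by omega) (by omega) (by omega) (by omega)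
        h7.symm
    exact not_lr_and_bt (col + 1) (by omega) (by omega) ω ⟨hB, h9⟩
  · have h9 : ω ∈ BT (col + 1 + 1) (p.1 - 4 * r) (p.1 + 4 * r) (p.2 + r) (p.2 + 4 * r) :=
      bt_of_conn (F := RFb p (4 * r)) (fun f hf => by
        have := mem_RFb.1 (mem_coe.1 hf); omega) (by omega) (by omega) (by omega) (by omega) h7
    exact not_lr_and_bt (col + 1) (by omega) (by omega) ω ⟨hT, h9⟩

theorem depOn_Blk {col : ℤ} {p : ℤ × ℤ} {r : ℤ} (hr : 0 < r) :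
    DepOn ((RFb p (4 * r) \ RFb p r : Finset (ℤ × ℤ)) : Set (ℤ × ℤ)) (Blk col p r) := by
  refine depOn_inter' (depOn_mono' (depOn_LR _ _ _ _ _) ?_) (depOn_inter'
    (depOn_mono' (depOn_LR _ _ _ _ _) ?_) (depOn_inter'
    (depOn_mono' (depOn_BT _ _ _ _ _) ?_) (depOn_mono' (depOn_BT _ _ _ _ _) ?_)))
  all_goals
    intro f hf
    rw [mem_coe, mem_RFi] at hf
    rw [mem_coe, mem_sdiff, mem_RFb, mem_RFb]
    omega

theorem incD_Blk (col : ℤ) (p : ℤ × ℤ) (r : ℤ) : IncD (parD (col + 1)) (Blk col p r) :=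
  incD_inter' (incD_LR _ _ _ _ _) (incD_inter' (incD_LR _ _ _ _ _)
    (incD_inter' (incD_BT' _ _ _ _ _) (incD_BT' _ _ _ _ _)))

/-- **Blocking annuli** have positive probability. -/
theorem pr_Blk : ∃ c : ℝ, 0 < c ∧ ∀ (col : ℤ) (p : ℤ × ℤ) (r : ℤ) (S : Finset (ℤ × ℤ)), 0 < r →
    RFb p (4 * r) \ RFb p r ⊆ S → c ≤ pr S (Blk col p r) := by
  obtain ⟨c, hc, h⟩ := rswF 3
  obtain ⟨c', hc', h'⟩ := rswF' 3
  refine ⟨c * (c * (c' * c')), by positivity, ?_⟩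
  intro col p r S hr hS
  set W := S ∪ RFb p (4 * r) with hW
  have hWb : RFb p (4 * r) ⊆ W := subset_union_right
  have e : pr W (Blk col p r) = pr S (Blk col p r) := by
    rw [pr_eq_of_depOn (depOn_Blk hr) hS, pr_eq_of_depOn (depOn_Blk hr)
      (hS.trans subset_union_left)]
  rw [← e]
  have s1 : RF (p.1 - 4 * r) (p.1 + 4 * r) (p.2 + r) (p.2 + 4 * r) ⊆ W := by
    refine Subset.trans ?_ hWb
    intro f hf; rw [mem_RFi] at hf; rw [mem_RFb]; omega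
  have s2 : RF (p.1 - 4 * r) (p.1 + 4 * r) (p.2 - 4 * r) (p.2 - r) ⊆ W := by
    refine Subset.trans ?_ hWb
    intro f hf; rw [mem_RFi] at hf; rw [mem_RFb]; omega
  have s3 : RF (p.1 - 4 * r) (p.1 - r) (p.2 - 4 * r) (p.2 + 4 * r) ⊆ W := by
    refine Subset.trans ?_ hWb
    intro f hf; rw [mem_RFi] at hf; rw [mem_RFb]; omega
  have s4 : RF (p.1 + r) (p.1 + 4 * r) (p.2 - 4 * r) (p.2 + 4 * r) ⊆ W := by
    refine Subset.trans ?_ hWb
    intro f hf; rw [mem_RFi] at hf; rw [mem_RFb]; omega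
  have p1 : c ≤ pr W (LR (col + 1) (p.1 - 4 * r) (p.1 + 4 * r) (p.2 + r) (p.2 + 4 * r)) := by
    rw [pr_LR_window s1]
    exact h _ _ _ _ _ (by omega) (by omega) (by push_cast; omega)
  have p2 : c ≤ pr W (LR (col + 1) (p.1 - 4 * r) (p.1 + 4 * r) (p.2 - 4 * r) (p.2 - r)) := by
    rw [pr_LR_window s2]
    exact h _ _ _ _ _ (by omega) (by omega) (by push_cast; omega)
  have p3 : c' ≤ pr W (BT (col + 1) (p.1 - 4 * r) (p.1 - r) (p.2 - 4 * r) (p.2 + 4 * r)) := by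
    rw [pr_BT_window s3]
    exact h' _ _ _ _ _ (by omega) (by omega) (by push_cast; omega)
  have p4 : c' ≤ pr W (BT (col + 1) (p.1 + r) (p.1 + 4 * r) (p.2 - 4 * r) (p.2 + 4 * r)) := by
    rw [pr_BT_window s4]
    exact h' _ _ _ _ _ (by omega) (by omega) (by push_cast; omega)
  have d1 := depOn_mono' (depOn_LR (col + 1) (p.1 - 4 * r) (p.1 + 4 * r) (p.2 + r) (p.2 + 4 * r))
    (coe_subset.2 s1)
  have d2 := depOn_mono' (depOn_LR (col + 1) (p.1 - 4 * r) (p.1 + 4 * r) (p.2 - 4 * r) (p.2 - r))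
    (coe_subset.2 s2)
  have d3 := depOn_mono' (depOn_BT (col + 1) (p.1 - 4 * r) (p.1 - r) (p.2 - 4 * r) (p.2 + 4 * r))
    (coe_subset.2 s3)
  have d4 := depOn_mono' (depOn_BT (col + 1) (p.1 + r) (p.1 + 4 * r) (p.2 - 4 * r) (p.2 + 4 * r))
    (coe_subset.2 s4)
  have i3 := incD_BT' (col + 1) (p.1 - 4 * r) (p.1 - r) (p.2 - 4 * r) (p.2 + 4 * r)
  have i4 := incD_BT' (col + 1) (p.1 + r) (p.1 + 4 * r) (p.2 - 4 * r) (p.2 + 4 * r)
  have q3 := harris _ d3 d4 i3 i4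
  have q2 := harris _ d2 (depOn_inter' d3 d4) (incD_LR _ _ _ _ _) (incD_inter' i3 i4)
  have q1 := harris _ d1 (depOn_inter' d2 (depOn_inter' d3 d4)) (incD_LR _ _ _ _ _)
    (incD_inter' (incD_LR (col + 1) (p.1 - 4 * r) (p.1 + 4 * r) (p.2 - 4 * r) (p.2 - r))
      (incD_inter' i3 i4))
  have r3 : c' * c' ≤ _ := (mul_le_mul p3 p4 hc'.le (pr_nonneg _ _)).trans q3
  have r2 : c * (c' * c') ≤ _ := (mul_le_mul p2 r3 (by positivity) (pr_nonneg _ _)).trans q2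
  exact (mul_le_mul p1 r2 (by positivity) (pr_nonneg _ _)).trans q1

/-! ### Arms -/

theorem depOn_ArmB (col : ℤ) (p : ℤ × ℤ) (r R : ℤ) :
    DepOn (RFb p R : Set (ℤ × ℤ)) (ArmB col p r R) := by
  intro ω ω' h
  simp only [ArmB, Set.mem_ofPred_eq, GridA.conn_iff _ h]

theorem ArmB_mono {col : ℤ} {p : ℤ × ℤ} {r r' R R' : ℤ} (h1 : r ≤ r') (h2 : R' ≤ R) (h3 : r ≤ R')
    (h0 : 0 ≤ r) : ArmB col p r R ⊆ ArmB col p r' R' := by
  rintro ω ⟨u, v, a1, a2, a3, a4, a5, a6, a7⟩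
  obtain ⟨b1, b2, b3, b4, b5⟩ := a6
  obtain ⟨w, hw, hw'⟩ := Conn.toBd (x₀ := p.1 - R') (x₁ := p.1 + R') (y₀ := p.2 - R')
    (y₁ := p.2 + R') a7 (by omega) (by omega)
  exact ⟨u, w, by omega, by omega, by omega, by omega, a5, hw',
    Conn.mono Set.inter_subset_right hw⟩

/-- No arm in an annulus with positive probability. -/
theorem pr_ArmB_le : ∃ c : ℝ, 0 < c ∧ ∀ (col : ℤ) (p : ℤ × ℤ) (r : ℤ), 0 < r →
    pr (RFb p (4 * r)) (ArmB col p r (4 * r)) ≤ 1 - c := by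
  obtain ⟨c, hc, h⟩ := pr_Blk
  refine ⟨c, hc, fun col p r hr => ?_⟩
  have h1 := h col p r (RFb p (4 * r)) hr sdiff_subset
  have h2 : pr (RFb p (4 * r)) (ArmB col p r (4 * r)) ≤ pr (RFb p (4 * r)) (Blk col p r)ᶜ :=
    pr_mono _ fun ω hω hb => blk_not_arm hr hb hω
  rw [pr_compl] at h2
  linarith

/-- Arms over many scales. -/
theorem pr_ArmB_pow : ∃ θ : ℝ, 0 < θ ∧ θ < 1 ∧ ∀ (col : ℤ) (p : ℤ × ℤ) (r : ℤ) (n : ℕ), 0 < r →
    pr (RFb p (4 ^ n * r)) (ArmB col p r (4 ^ n * r)) ≤ θ ^ n := by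
  obtain ⟨c, hc, h⟩ := pr_Blk
  refine ⟨max (1 - c) (1 / 2), by positivity, max_lt (by linarith) (by norm_num), ?_⟩
  set θ := max (1 - c) (1 / 2) with hθ
  intro col p r n hr
  induction n with
  | zero => simpa using pr_le_one _ _
  | succ n ih =>
    set ρ := 4 ^ n * r with hρ
    have hρr : r ≤ ρ := by
      have : (1 : ℤ) ≤ 4 ^ n := one_le_pow₀ (by norm_num)
      nlinarith
    have e : 4 ^ (n + 1) * r = 4 * ρ := by rw [hρ, pow_succ]; ring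
    rw [e, pow_succ]
    set A := RFb p (4 * ρ) \ RFb p ρ with hA
    have hsub : RFb p ρ ⊆ RFb p (4 * ρ) := by
      intro f hf; rw [mem_RFb] at hf ⊢; omega
    have hu : RFb p ρ ∪ A = RFb p (4 * ρ) := by
      rw [hA, union_sdiff_of_subset hsub]
    have h1 : pr (RFb p (4 * ρ)) (ArmB col p r (4 * ρ)) ≤
        pr (RFb p ρ ∪ A) (ArmB col p r ρ ∩ (Blk col p ρ)ᶜ) := by
      rw [hu]
      refine pr_mono _ fun ω hω => ⟨ArmB_mono le_rfl (by omega) hρr hr.le hω, fun hb => ?_⟩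
      exact blk_not_arm (by omega) hb (ArmB_mono hρr le_rfl (by omega) hr.le hω)
    rw [pr_inter_of_disjoint (depOn_ArmB col p r ρ) (depOn_compl (depOn_Blk (by omega)))
      disjoint_sdiff, pr_compl] at h1
    have h2 := h col p ρ A (by omega) (Subset.refl _)
    have h3 : 1 - pr A (Blk col p ρ) ≤ θ := by
      have := le_max_left (1 - c) (1 / 2 : ℝ)
      linarith
    refine h1.trans (mul_le_mul ih h3 ?_ (by positivity))
    have := pr_le_one A (Blk col p ρ)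
    linarith

/-- **The one-arm bound.** -/
theorem oneArm : ∃ C β : ℝ, 0 < C ∧ 0 < β ∧ ∀ (col : ℤ) (p : ℤ × ℤ) (r R : ℤ), 0 < r → r ≤ R →
    pr (RFb p R) (ArmB col p r R) ≤ C * ((r : ℝ) / R) ^ β := by
  obtain ⟨θ, hθ0, hθ1, h⟩ := pr_ArmB_pow
  set β := -Real.log θ / Real.log 4 with hβ
  have hl4 : 0 < Real.log 4 := Real.log_pos (by norm_num)
  have hlθ : Real.log θ < 0 := Real.log_neg hθ0 hθ1
  have hβ0 : 0 < β := div_pos (by linarith) hl4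
  have h4β : (4 : ℝ) ^ β = θ⁻¹ := by
    rw [Real.rpow_def_of_pos (by norm_num), hβ, mul_div_cancel₀ _ hl4.ne', Real.exp_neg,
      Real.exp_log hθ0]
  refine ⟨θ⁻¹, β, by positivity, hβ0, ?_⟩
  intro col p r R hr hR
  have hr' : (0 : ℝ) < r := by exact_mod_cast hr
  have hR' : (0 : ℝ) < R := by exact_mod_cast (lt_of_lt_of_le hr hR)
  have hRr : (1 : ℝ) ≤ R / r := by
    rw [one_le_div hr']; exact_mod_cast hR
  obtain ⟨n, hn1, hn2⟩ := exists_nat_pow_near hRr (show (1 : ℝ) < 4 by norm_num)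
  rw [le_div_iff₀ hr'] at hn1
  have hn1' : 4 ^ n * r ≤ R := by exact_mod_cast hn1
  have h1 : pr (RFb p R) (ArmB col p r R) ≤ pr (RFb p R) (ArmB col p r (4 ^ n * r)) := by
    refine pr_mono _ (ArmB_mono le_rfl hn1' ?_ hr.le)
    have : (1 : ℤ) ≤ 4 ^ n := one_le_pow₀ (by norm_num)
    nlinarith
  rw [pr_eq_of_depOn (depOn_ArmB col p r (4 ^ n * r)) (S' := RFb p R) (by
    intro f hf; rw [mem_RFb] at hf ⊢; omega)] at h1
  refine h1.trans ((h col p r n hr).trans ?_)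
  -- `θ ^ n = θ⁻¹ (4 ^ (n+1)) ^ (-β) ≤ θ⁻¹ (R / r) ^ (-β)`
  have h2 : ((r : ℝ) / R) ^ β = ((R : ℝ) / r) ^ (-β) := by
    rw [Real.rpow_neg (by positivity), ← Real.inv_rpow (by positivity), inv_div]
  rw [h2]
  have h3 : ((4 : ℝ) ^ (n + 1)) ^ (-β) ≤ ((R : ℝ) / r) ^ (-β) :=
    Real.rpow_le_rpow_of_nonpos (by positivity) hn2.le (by linarith)
  have h4 : ((4 : ℝ) ^ (n + 1)) ^ (-β) = θ ^ (n + 1) := by
    rw [← Real.rpow_natCast, ← Real.rpow_mul (by norm_num), mul_comm, Real.rpow_mul (by norm_num),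
      Real.rpow_neg (by norm_num), h4β, inv_inv, Real.rpow_natCast]
  rw [h4] at h3
  calc θ ^ n = θ⁻¹ * θ ^ (n + 1) := by
        rw [pow_succ, mul_comm (θ ^ n), inv_mul_cancel_left₀ hθ0.ne']
    _ ≤ _ := mul_le_mul_of_nonneg_left h3 (by positivity)

end Pool.Agent.Perc

end PartpercwRswC

section PartpercwLowRsw

/-!
# One-arm bounds in a window
-/

set_option autoImplicit false

namespace Pool.Agent.PercL

open Finset Pool.Agent.Perc

/-- The one-arm event depends on the faces of the square of radius `ρ₂`. -/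
theorem pr_ArmB_window (c : ℤ) (x : ℤ × ℤ) (ρ₁ ρ₂ : ℤ) {W : Finset (ℤ × ℤ)} (hW : QF x ρ₂ ⊆ W) :
    pr W (ArmB c x ρ₁ ρ₂) = pr (RFb x ρ₂) (ArmB c x ρ₁ ρ₂) :=
  pr_eq_of_depOn (depOn_ArmB c x ρ₁ ρ₂) hW

/-- One-arm bound in a window. -/
theorem oneArm_le : ∃ C β : ℝ, 0 < C ∧ 0 < β ∧ ∀ (c : ℤ) (x : ℤ × ℤ) (ρ₁ ρ₂ : ℤ), 1 ≤ ρ₁ →
    ρ₁ ≤ ρ₂ → ∀ W : Finset (ℤ × ℤ), QF x ρ₂ ⊆ W →
      pr W (ArmB c x ρ₁ ρ₂) ≤ C * ((ρ₁ : ℝ) / ρ₂) ^ β := by
  obtain ⟨C, β, hC, hβ, h⟩ := oneArm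
  refine ⟨C, β, hC, hβ, fun c x ρ₁ ρ₂ h1 h2 W hW => ?_⟩
  rw [pr_ArmB_window c x ρ₁ ρ₂ hW]
  exact h c x ρ₁ ρ₂ (by omega) h2

/-- One annulus. -/
theorem oneArm_le_one_sub : ∃ c₀ : ℝ, 0 < c₀ ∧ c₀ < 1 ∧ ∀ (c : ℤ) (x : ℤ × ℤ) (ρ₁ ρ₂ : ℤ), 1 ≤ ρ₁ →
    4 * ρ₁ ≤ ρ₂ → ∀ W : Finset (ℤ × ℤ), QF x ρ₂ ⊆ W → pr W (ArmB c x ρ₁ ρ₂) ≤ 1 - c₀ := by
  obtain ⟨c, hc, h⟩ := pr_ArmB_le
  refine ⟨min c (1 / 2), by positivity, lt_of_le_of_lt (min_le_right _ _) (by norm_num),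
    fun col x ρ₁ ρ₂ h1 h2 W hW => ?_⟩
  have h3 : pr W (ArmB col x ρ₁ ρ₂) ≤ pr W (ArmB col x ρ₁ (4 * ρ₁)) :=
    pr_mono _ (ArmB_mono le_rfl h2 (by omega) (by omega))
  have hW' : QF x (4 * ρ₁) ⊆ W := by
    refine Finset.Subset.trans (fun f hf => ?_) hW
    unfold QF at hf ⊢
    rw [mem_RFi] at hf ⊢
    omega
  rw [pr_ArmB_window col x ρ₁ (4 * ρ₁) hW'] at h3
  have h4 := h col x ρ₁ (by omega)
  have h5 := min_le_left c (1 / 2 : ℝ)
  linarith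

end Pool.Agent.PercL

end PartpercwLowRsw
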