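import Pool.Agent.Lib.MP_6bd702_z.Z018

section PartpercdPI

/-!
# The mesoscopic two arm probability (task D_PI)
-/

set_option autoImplicit false

namespace Pool.Agent.PercD

open Finset Pool.Agent.Perc

variable {ω : Cfg} {e : UE} {v : ℤ × ℤ}

theorem Pev_mono {d d' w : ℤ} (h : d ≤ d') (hω : ω ∈ Pev v d w) : ω ∈ Pev v d' w := by
  obtain ⟨e, he, hA⟩ := hω
  exact ⟨e, (Sub.refl' h).inE he, hA⟩

theorem inE_self (e : UE) {R : ℤ} (hR : 1 ≤ R) : InE (ua e) R e := by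
  obtain ⟨x, y, b⟩ := e
  unfold InE InR
  cases b <;> simp [ua, ub] <;> omega

open Classical in
/-- The deterministic part. -/
theorem Pev_cases {N : ℝ} {d w : ℤ} (hd : 1 ≤ d) (hdw : 2 * d ≤ w) (h : ω ∈ Pev v d w) :
    (N ≤ (((UB v (2 * d)).filter
      fun a => ω ∈ {ω | InE v (2 * d) a ∧ ω ∈ Rch v w a}).card : ℝ)) ∨
      (ω ∈ Bad v d N ∧ ω ∈ Xev v (2 * d) w) := by
  obtain ⟨e, he, hA⟩ := h
  have hann : ω ∈ Xev v (2 * d) w := Xev_of_Rch ((Sub.refl' (by omega)).inE he) hA (by omega)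
  have hsub0 : Sub (ua e) d v (2 * d) := sub_two he
  have hsub1 : Sub (ua e) d v w := by
    unfold Sub at hsub0 ⊢
    omega
  by_cases hN : N ≤ ((MM ω (BR (ua e) d) e).ncard : ℝ)
  · left
    refine hN.trans ?_
    have hsub : MM ω (BR (ua e) d) e ⊆
        (((UB v (2 * d)).filter
          fun a => ω ∈ {ω | InE v (2 * d) a ∧ ω ∈ Rch v w a} : Finset UE) : Set UE) := by
      intro a ha
      have h2 : InE v (2 * d) a := hsub0.inE (MM_inE (inE_self e hd) ha)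
      rw [mem_coe, mem_filter]
      refine ⟨h2.mem_UB, h2, ?_⟩
      have h3 : a ∈ MM ω (BR v w) e :=
        MM_mono (F := (BR (ua e) d : Set (ℤ × ℤ))) (by exact_mod_cast hsub1.subset) ha
      exact (Rch_iff h3).2 hA
    have h4 := Set.ncard_le_ncard hsub (finite_toSet _)
    rw [Set.ncard_coe_finset] at h4
    exact_mod_cast h4
  · right
    push Not at hN
    exact ⟨⟨e, he, Rch_sub hsub1 (inE_self e hd) hA, hN.le⟩, hann⟩

theorem pr_Rch_le {C : ℝ} (hC : ∀ (e : UE) (r : ℕ), 1 ≤ r →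
    pr (BR (ua e) r) (Rch (ua e) r e) ≤ C * (r : ℝ) ^ (-(1 / 4 : ℝ))) {R r : ℕ} (hr : 1 ≤ r)
    {e : UE} {v : ℤ × ℤ} (h : Sub (ua e) r v R) :
    pr (BR v R) (Rch v R e) ≤ C * (r : ℝ) ^ (-(1 / 4 : ℝ)) := by
  refine le_trans ?_ (hC e r hr)
  rw [← pr_eq_of_depOn (depOn_Rch (ua e) r e) h.subset]
  exact pr_mono _ fun ω hω => Rch_sub h (inE_self e (by exact_mod_cast hr)) hω

theorem half_rpow_le {w : ℝ} (hw0 : 0 < w) :
    (w / 2) ^ (-(1 / 4 : ℝ)) ≤ 2 * w ^ (-(1 / 4 : ℝ)) := by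
  rw [div_eq_mul_inv, Real.mul_rpow hw0.le (by norm_num), mul_comm]
  refine mul_le_mul_of_nonneg_right ?_ (by positivity)
  rw [Real.inv_rpow (by norm_num), Real.rpow_neg (by norm_num), inv_inv]
  calc (2 : ℝ) ^ (1 / 4 : ℝ) ≤ (2 : ℝ) ^ (1 : ℝ) :=
        Real.rpow_le_rpow_of_exponent_le (by norm_num) (by norm_num)
    _ = 2 := Real.rpow_one 2

/-- One step. -/
theorem Pev_step {C : ℝ} (hC0 : 0 < C) (hC : ∀ (e : UE) (r : ℕ), 1 ≤ r →
    pr (BR (ua e) r) (Rch (ua e) r e) ≤ C * (r : ℝ) ^ (-(1 / 4 : ℝ))) {η x : ℝ} (hx : 0 < x)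
    {v : ℤ × ℤ} {d w : ℕ} (hd : 1 ≤ d) (hdw : 4 * d ≤ w)
    (hbad : pr (BR v (2 * d)) (Bad v d (x * (d : ℝ) ^ (7 / 4 : ℝ))) ≤ η) :
    pr (BR v w) (Pev v d w) ≤
      (100 * C / x) * ((d : ℝ) / w) ^ (1 / 4 : ℝ) + η * pr (BR v w) (Pev v (2 * d) w) := by
  classical
  have hd0 : (0 : ℝ) < d := by exact_mod_cast hd
  have hw0 : (0 : ℝ) < w := by
    have : 0 < w := by omega
    exact_mod_cast this
  set N : ℝ := x * (d : ℝ) ^ (7 / 4 : ℝ) with hN
  have hN0 : 0 < N := by rw [hN]; positivity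
  set s := UB v (2 * d) with hs
  set A : UE → Set Cfg := fun a => {ω | InE v (2 * d) a ∧ ω ∈ Rch v w a} with hA
  set E : Set Cfg := {ω | N ≤ ((s.filter fun a => ω ∈ A a).card : ℝ)} with hE
  have h1 : pr (BR v w) E ≤ (∑ a ∈ s, pr (BR v w) (A a)) / N := by
    have := pr_count_le (BR v w) s A hN0
    convert this
  have h2 : ∀ a ∈ s, pr (BR v w) (A a) ≤ 2 * C * (w : ℝ) ^ (-(1 / 4 : ℝ)) := by
    intro a _
    by_cases ha : InE v (2 * d) a
    · have ha1 := ha.1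
      unfold InR at ha1
      have h3 : pr (BR v w) (A a) ≤ pr (BR v w) (Rch v w a) := pr_mono _ fun ω h => h.2
      refine h3.trans ((pr_Rch_le hC (r := w - 2 * d) (by omega) (by unfold Sub; omega)).trans ?_)
      have h4 : (w : ℝ) / 2 ≤ ((w - 2 * d : ℕ) : ℝ) := by
        rw [Nat.cast_sub (by omega)]
        push_cast
        have : (4 : ℝ) * d ≤ w := by exact_mod_cast hdw
        linarith
      have h5 : ((w - 2 * d : ℕ) : ℝ) ^ (-(1 / 4 : ℝ)) ≤ ((w : ℝ) / 2) ^ (-(1 / 4 : ℝ)) :=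
        Real.rpow_le_rpow_of_nonpos (by positivity) h4 (by norm_num)
      calc C * ((w - 2 * d : ℕ) : ℝ) ^ (-(1 / 4 : ℝ)) ≤ C * (2 * (w : ℝ) ^ (-(1 / 4 : ℝ))) :=
            mul_le_mul_of_nonneg_left (h5.trans (half_rpow_le hw0)) hC0.le
        _ = 2 * C * (w : ℝ) ^ (-(1 / 4 : ℝ)) := by ring
    · have h3 : pr (BR v w) (A a) ≤ pr (BR v w) (∅ : Set Cfg) :=
        pr_mono _ fun ω h => absurd h.1 ha
      have h4 : pr (BR v w) (∅ : Set Cfg) = 0 := by
        rw [ProbA.pr_eq_sum]; simp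
      rw [h4] at h3
      refine h3.trans (by positivity)
  have h3 : (∑ a ∈ s, pr (BR v w) (A a)) ≤ 50 * (d : ℝ) ^ 2 * (2 * C * (w : ℝ) ^ (-(1 / 4 : ℝ))) := by
    refine (sum_le_sum h2).trans ?_
    have hcard : (s.card : ℝ) = 2 * (2 * (2 * (d : ℝ)) + 1) ^ 2 := by
      have := card_UB v (2 * d)
      rw [hs, show (2 * (d : ℤ)) = ((2 * d : ℕ) : ℤ) by push_cast; ring, this]
      push_cast
      ring
    rw [sum_const, nsmul_eq_mul, hcard]
    refine mul_le_mul_of_nonneg_right ?_ (by positivity)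
    have : (1 : ℝ) ≤ d := by exact_mod_cast hd
    nlinarith
  have h4 : pr (BR v w) E ≤ (100 * C / x) * ((d : ℝ) / w) ^ (1 / 4 : ℝ) := by
    refine h1.trans ((div_le_div_of_nonneg_right h3 hN0.le).trans (le_of_eq ?_))
    rw [hN, Real.div_rpow hd0.le hw0.le, Real.rpow_neg hw0.le]
    have h6 : (d : ℝ) ^ 2 = (d : ℝ) ^ (7 / 4 : ℝ) * (d : ℝ) ^ (1 / 4 : ℝ) := by
      rw [← Real.rpow_add hd0, show (7 / 4 : ℝ) + 1 / 4 = ((2 : ℕ) : ℝ) by norm_num,
        Real.rpow_natCast]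
    rw [h6]
    have h7 : (d : ℝ) ^ (7 / 4 : ℝ) ≠ 0 := by positivity
    have h8 : (w : ℝ) ^ (1 / 4 : ℝ) ≠ 0 := by positivity
    field_simp
    ring
  have h5 : pr (BR v w) (Bad v d N ∩ Xev v (2 * d) w) ≤ η * pr (BR v w) (Pev v (2 * d) w) := by
    have h6 := pr_indep (W := BR v w) (depOn_Bad v d N) (depOn_Xev v (2 * d) w) disjoint_sdiff
      (Sub.refl' (by omega)).subset sdiff_subset
    rw [h6]
    have h7 : pr (BR v w \ BR v (2 * d)) (Xev v (2 * d) w) = pr (BR v w) (Xev v (2 * d) w) :=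
      (pr_eq_of_depOn (depOn_Xev v (2 * d) w) sdiff_subset).symm
    rw [h7]
    exact mul_le_mul hbad (pr_mono _ fun ω h => Xev_sub_Pev (by omega) h)
      (pr_nonneg _ _) ((pr_nonneg _ _).trans hbad)
  calc pr (BR v w) (Pev v d w) ≤ pr (BR v w) (E ∪ (Bad v d N ∩ Xev v (2 * d) w)) :=
        pr_mono _ fun ω h => by
          rcases Pev_cases (N := N) (by exact_mod_cast hd) (by omega) h with h6 | h6
          · left
            exact h6
          · exact Or.inr h6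
    _ ≤ pr (BR v w) E + pr (BR v w) (Bad v d N ∩ Xev v (2 * d) w) := pr_union_le _ _ _
    _ ≤ _ := add_le_add h4 h5

theorem pi_bound (hU : UpperHyp) (hT : TailHyp) : ∃ C : ℝ, 0 < C ∧
    ∀ (v : ℤ × ℤ) (d w : ℕ), 1 ≤ d → d ≤ w →
      pr (BR v w) (Pev v d w) ≤ C * ((d : ℝ) / w) ^ (1 / 4 : ℝ) := by
  obtain ⟨x, hx, hlow⟩ := lt_bound hU hT (η := 1 / 4) (by norm_num)
  obtain ⟨C, hC0, hC⟩ := hU
  set K : ℝ := 4 + 200 * C / x with hK
  have hK0 : 0 < K := by rw [hK]; positivity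
  refine ⟨K, hK0, fun v d w hd hdw => ?_⟩
  have key : ∀ n d : ℕ, 1 ≤ d → d ≤ w → w ≤ d + n →
      pr (BR v w) (Pev v d w) ≤ K * ((d : ℝ) / w) ^ (1 / 4 : ℝ) := by
    intro n
    induction n using Nat.strong_induction_on with
    | _ n ih =>
      intro d hd hdw hn
      have hd0 : (0 : ℝ) < d := by exact_mod_cast hd
      have hw0 : (0 : ℝ) < w := by
        have : 0 < w := by omega
        exact_mod_cast this
      by_cases h4 : 4 * d ≤ w
      · have h5 := Pev_step hC0 hC hx hd h4 (hlow v d hd)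
        have h6 := ih (w - 2 * d) (by omega) (2 * d) (by omega) (by omega) (by omega)
        push_cast at h6
        have h7 : (2 * (d : ℝ) / w) ^ (1 / 4 : ℝ) ≤ 2 * ((d : ℝ) / w) ^ (1 / 4 : ℝ) := by
          rw [mul_div_assoc, Real.mul_rpow (by norm_num) (by positivity)]
          refine mul_le_mul_of_nonneg_right ?_ (by positivity)
          calc (2 : ℝ) ^ (1 / 4 : ℝ) ≤ (2 : ℝ) ^ (1 : ℝ) :=
                Real.rpow_le_rpow_of_exponent_le (by norm_num) (by norm_num)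
            _ = 2 := Real.rpow_one 2
        have h8 : pr (BR v w) (Pev v (2 * (d : ℤ)) w) ≤ K * (2 * ((d : ℝ) / w) ^ (1 / 4 : ℝ)) :=
          h6.trans (mul_le_mul_of_nonneg_left h7 hK0.le)
        set y : ℝ := ((d : ℝ) / w) ^ (1 / 4 : ℝ) with hy
        have hy0 : 0 < y := by rw [hy]; positivity
        have h9 : 100 * C / x = (K - 4) / 2 := by rw [hK]; ring
        rw [h9] at h5
        linarith
      · push Not at h4
        refine (pr_le_one _ _).trans ?_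
        have h5 : (1 / 4 : ℝ) ≤ (d : ℝ) / w := by
          rw [le_div_iff₀ hw0]
          have : (w : ℝ) < 4 * d := by exact_mod_cast h4
          linarith
        have h6 : (1 / 4 : ℝ) ≤ ((d : ℝ) / w) ^ (1 / 4 : ℝ) := by
          calc (1 / 4 : ℝ) = (1 / 4 : ℝ) ^ (1 : ℝ) := (Real.rpow_one _).symm
            _ ≤ (1 / 4 : ℝ) ^ (1 / 4 : ℝ) :=
              Real.rpow_le_rpow_of_exponent_ge (by norm_num) (by norm_num) (by norm_num)
            _ ≤ _ := Real.rpow_le_rpow (by norm_num) h5 (by norm_num)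
        have h7 : (4 : ℝ) ≤ K := by
          rw [hK]
          have : 0 < 200 * C / x := by positivity
          linarith
        nlinarith
  exact key w d hd hdw (by omega)

theorem xi_bound (hU : UpperHyp) (hT : TailHyp) : ∃ C : ℝ, 0 < C ∧
    ∀ (v : ℤ × ℤ) (d w : ℕ), 1 ≤ d → d ≤ w →
      pr (BR v w \ BR v d) (Xev v d w) ≤ C * ((d : ℝ) / w) ^ (1 / 4 : ℝ) := by
  obtain ⟨C, hC, h⟩ := pi_bound hU hT
  refine ⟨C, hC, fun v d w hd hdw => le_trans ?_ (h v d w hd hdw)⟩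
  rw [← pr_eq_of_depOn (depOn_Xev v d w) (S' := BR v w) sdiff_subset]
  exact pr_mono _ fun ω h => Xev_sub_Pev (by omega) h

end Pool.Agent.PercD

end PartpercdPI

section PartpercdTwo

/-!
# The two point function (task D_Two)
-/

set_option autoImplicit false

namespace Pool.Agent.PercD

open Finset Pool.Agent.Perc

theorem rp_le {x y c : ℝ} (_hx : 0 < x) (hy : 0 < y) (hc : 1 ≤ c) (h : y ≤ c * x) :
    x ^ (-(1 / 4 : ℝ)) ≤ c * y ^ (-(1 / 4 : ℝ)) := by
  have hc0 : 0 < c := by linarith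
  have h1 : y / c ≤ x := by
    rw [div_le_iff₀ hc0]; linarith
  have h2 : x ^ (-(1 / 4 : ℝ)) ≤ (y / c) ^ (-(1 / 4 : ℝ)) :=
    Real.rpow_le_rpow_of_nonpos (div_pos hy hc0) h1 (by norm_num)
  have h3 : (y / c) ^ (-(1 / 4 : ℝ)) = c ^ (1 / 4 : ℝ) * y ^ (-(1 / 4 : ℝ)) := by
    rw [Real.div_rpow hy.le hc0.le, Real.rpow_neg hc0.le, div_inv_eq_mul, mul_comm]
  have h4 : c ^ (1 / 4 : ℝ) ≤ c := by
    calc c ^ (1 / 4 : ℝ) ≤ c ^ (1 : ℝ) := Real.rpow_le_rpow_of_exponent_le hc (by norm_num)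
      _ = c := Real.rpow_one c
  rw [h3] at h2
  exact h2.trans (mul_le_mul_of_nonneg_right h4 (Real.rpow_nonneg hy.le _))

theorem self_inE (e : UE) {r : ℤ} (hr : 1 ≤ r) : InE (ua e) r e := by
  obtain ⟨x, y, c⟩ := e
  unfold InE InR
  cases c
  · rw [ua_mk, ub_false]; simp only; omega
  · rw [ua_mk, ub_true]; simp only; omega

/-- Both `e` and `e'` have long components. -/
theorem two_bound (hU : UpperHyp) (hT : TailHyp) : ∃ C : ℝ, 0 < C ∧
    ∀ (e e' : UE) (D w : ℕ), 1 ≤ w → D ≤ w →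
      (|(ua e').1 - (ua e).1| = D ∧ |(ua e').2 - (ua e).2| ≤ D ∨
        |(ua e').1 - (ua e).1| ≤ D ∧ |(ua e').2 - (ua e).2| = D) →
      pr (BR (ua e) (2 * w)) (Rch (ua e) w e ∩ Rch (ua e') w e') ≤
        C * ((D : ℝ) + 1) ^ (-(1 / 4 : ℝ)) * (w : ℝ) ^ (-(1 / 4 : ℝ)) := by
  obtain ⟨C₂, hC₂, hxi⟩ := xi_bound hU hT
  obtain ⟨C₁, hC₁, hup⟩ := hU
  refine ⟨2 * C₁ + 32 * C₁ ^ 2 + 32 * C₁ ^ 2 * C₂, by positivity, ?_⟩
  intro e e' D w hw hDw hdist
  have hw0 : (0 : ℝ) < w := by exact_mod_cast hw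
  have hD0 : (0 : ℝ) < (D : ℝ) + 1 := by positivity
  set a : ℝ := ((D : ℝ) + 1) ^ (-(1 / 4 : ℝ)) with ha
  set b : ℝ := (w : ℝ) ^ (-(1 / 4 : ℝ)) with hb
  have ha0 : 0 < a := Real.rpow_pos_of_pos hD0 _
  have hb0 : 0 < b := Real.rpow_pos_of_pos hw0 _
  have hsplit : (2 * C₁ + 32 * C₁ ^ 2 + 32 * C₁ ^ 2 * C₂) * a * b =
      2 * C₁ * a * b + 32 * C₁ ^ 2 * a * b + 32 * C₁ ^ 2 * C₂ * a * b := by ring
  have hp1 : 0 ≤ 2 * C₁ * a * b := by positivity
  have hp2 : 0 ≤ 32 * C₁ ^ 2 * a * b := by positivity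
  have hp3 : 0 ≤ 32 * C₁ ^ 2 * C₂ * a * b := by positivity
  rw [hsplit]
  by_cases hD : D ≤ 1
  · -- trivial bound
    have h1 : pr (BR (ua e) (2 * w)) (Rch (ua e) w e ∩ Rch (ua e') w e') ≤ C₁ * b := by
      calc pr (BR (ua e) (2 * w)) (Rch (ua e) w e ∩ Rch (ua e') w e')
          ≤ pr (BR (ua e) (2 * w)) (Rch (ua e) w e) := pr_mono _ fun ω h => h.1
        _ = pr (BR (ua e) w) (Rch (ua e) w e) :=
            pr_eq_of_depOn (depOn_Rch _ _ _) (Sub.refl' (by omega)).subset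
        _ ≤ C₁ * b := hup e w hw
    have h2 : (1 : ℝ) ≤ 2 * a := by
      have h3 := rp_le (x := 1) (y := (D : ℝ) + 1) (c := 2) one_pos hD0 (by norm_num)
        (by have : (D : ℝ) ≤ 1 := by exact_mod_cast hD
            linarith)
      rwa [Real.one_rpow] at h3
    have h4 : C₁ * b ≤ 2 * C₁ * a * b := by
      have : C₁ * b * 1 ≤ C₁ * b * (2 * a) := mul_le_mul_of_nonneg_left h2 (by positivity)
      linarith
    linarith
  · push Not at hD
    obtain ⟨d, hd⟩ : ∃ d : ℕ, d = D / 2 := ⟨_, rfl⟩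
    have hd1 : 1 ≤ d := by omega
    have hd2 : 2 * d ≤ D := by omega
    have hd3 : D + 1 ≤ 4 * d := by omega
    have hdr : (d : ℝ) ^ (-(1 / 4 : ℝ)) ≤ 4 * a :=
      rp_le (by exact_mod_cast hd1) hD0 (by norm_num) (by exact_mod_cast hd3)
    have hA : pr (BR (ua e) d) (Rch (ua e) d e) ≤ 4 * C₁ * a := by
      have := hup e d hd1
      have h5 := mul_le_mul_of_nonneg_left hdr hC₁.le
      linarith
    have hB : pr (BR (ua e') d) (Rch (ua e') d e') ≤ 4 * C₁ * a := by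
      have := hup e' d hd1
      have h5 := mul_le_mul_of_nonneg_left hdr hC₁.le
      linarith
    have hdisj : Disjoint (BR (ua e) d) (BR (ua e') d) := by
      rw [Finset.disjoint_left]
      intro f h1 h2
      rw [mem_BR] at h1 h2
      rcases hdist with ⟨h3, -⟩ | ⟨-, h3⟩
      · rcases abs_cases ((ua e').1 - (ua e).1) with ⟨h4, -⟩ | ⟨h4, -⟩ <;> omega
      · rcases abs_cases ((ua e').2 - (ua e).2) with ⟨h4, -⟩ | ⟨h4, -⟩ <;> omega
    have hdx : |(ua e').1 - (ua e).1| ≤ D ∧ |(ua e').2 - (ua e).2| ≤ D := by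
      rcases hdist with ⟨h3, h4⟩ | ⟨h3, h4⟩
      · exact ⟨h3.le, h4⟩
      · exact ⟨h3, h4.le⟩
    have hdx1 := abs_le.1 hdx.1
    have hdx2 := abs_le.1 hdx.2
    have hs1 : ∀ R : ℤ, (d : ℤ) ≤ R → BR (ua e) d ⊆ BR (ua e) R := fun R h => (Sub.refl' h).subset
    have hs2 : ∀ R : ℤ, (D : ℤ) + d ≤ R → BR (ua e') d ⊆ BR (ua e) R := fun R h =>
      Sub.subset (by unfold Sub; omega)
    have hsubA : ∀ ω ∈ Rch (ua e) w e, ω ∈ Rch (ua e) d e := fun ω h =>
      Rch_sub (Sub.refl' (by omega)) (self_inE e (by omega)) h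
    have hsubB : ∀ ω ∈ Rch (ua e') w e', ω ∈ Rch (ua e') d e' := fun ω h =>
      Rch_sub (Sub.refl' (by omega)) (self_inE e' (by omega)) h
    have haa : 0 ≤ 4 * C₁ * a := by positivity
    by_cases hc : 2 * D ≤ w
    · -- three events
      have hX := hxi (ua e) (2 * D) w (by omega) hc
      have hX' : pr (BR (ua e) w \ BR (ua e) ((2 * D : ℕ) : ℤ))
          (Xev (ua e) ((2 * D : ℕ) : ℤ) w) ≤ C₂ * (2 * (((D : ℝ) + 1) ^ (1 / 4 : ℝ) * b)) := by
        refine hX.trans (mul_le_mul_of_nonneg_left ?_ hC₂.le)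
        have h6 : (((2 * D : ℕ) : ℝ) / w) ≤ 2 * ((D : ℝ) + 1) / w := by
          push_cast
          exact div_le_div_of_nonneg_right (by linarith) hw0.le
        calc (((2 * D : ℕ) : ℝ) / w) ^ (1 / 4 : ℝ)
            ≤ (2 * ((D : ℝ) + 1) / w) ^ (1 / 4 : ℝ) :=
              Real.rpow_le_rpow (by positivity) h6 (by norm_num)
          _ = 2 ^ (1 / 4 : ℝ) * (((D : ℝ) + 1) ^ (1 / 4 : ℝ) * b) := by
              rw [Real.div_rpow (by positivity) hw0.le, Real.mul_rpow (by norm_num) hD0.le, hb,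
                Real.rpow_neg hw0.le, div_eq_mul_inv, mul_assoc]
          _ ≤ 2 * (((D : ℝ) + 1) ^ (1 / 4 : ℝ) * b) := by
              refine mul_le_mul_of_nonneg_right ?_ (by positivity)
              calc (2 : ℝ) ^ (1 / 4 : ℝ) ≤ 2 ^ (1 : ℝ) :=
                    Real.rpow_le_rpow_of_exponent_le (by norm_num) (by norm_num)
                _ = 2 := Real.rpow_one 2
      have h7 : pr (BR (ua e) (2 * w)) (Rch (ua e) w e ∩ Rch (ua e') w e') ≤
          pr (BR (ua e) (2 * w)) (Rch (ua e) d e ∩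
            (Rch (ua e') d e' ∩ Xev (ua e) ((2 * D : ℕ) : ℤ) w)) := by
        refine pr_mono _ fun ω h => ⟨hsubA ω h.1, hsubB ω h.2, ?_⟩
        exact Xev_of_Rch (self_inE e (by omega)) h.1 (by exact_mod_cast hc)
      have h8 : pr (BR (ua e) (2 * w)) (Rch (ua e) d e ∩
            (Rch (ua e') d e' ∩ Xev (ua e) ((2 * D : ℕ) : ℤ) w)) =
          pr (BR (ua e) d) (Rch (ua e) d e) * (pr (BR (ua e') d) (Rch (ua e') d e') *
            pr (BR (ua e) w \ BR (ua e) ((2 * D : ℕ) : ℤ)) (Xev (ua e) ((2 * D : ℕ) : ℤ) w)) := by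
        have hd23 : Disjoint (BR (ua e') d) (BR (ua e) w \ BR (ua e) ((2 * D : ℕ) : ℤ)) := by
          rw [Finset.disjoint_left]
          intro f h1 h2
          rw [mem_sdiff] at h2
          exact h2.2 (hs2 _ (by push_cast; omega) h1)
        have hd13 : Disjoint (BR (ua e) d) (BR (ua e) w \ BR (ua e) ((2 * D : ℕ) : ℤ)) := by
          rw [Finset.disjoint_left]
          intro f h1 h2
          rw [mem_sdiff] at h2
          exact h2.2 (hs1 _ (by push_cast; omega) h1)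
        have hdep : DepOn (BR (ua e') d ∪ (BR (ua e) w \ BR (ua e) ((2 * D : ℕ) : ℤ)) :
            Finset (ℤ × ℤ)) (Rch (ua e') d e' ∩ Xev (ua e) ((2 * D : ℕ) : ℤ) w) := by
          intro ω ω' hω
          have h1 := depOn_Rch (ua e') d e' ω ω' fun f hf =>
            hω f (mem_coe.2 (mem_union_left _ (mem_coe.1 hf)))
          have h2 := depOn_Xev (ua e) ((2 * D : ℕ) : ℤ) w ω ω' fun f hf =>
            hω f (mem_coe.2 (mem_union_right _ (mem_coe.1 hf)))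
          rw [Set.mem_inter_iff, Set.mem_inter_iff, h1, h2]
        rw [pr_indep (depOn_Rch (ua e) d e) hdep
          (Finset.disjoint_union_right.2 ⟨hdisj, hd13⟩) (hs1 _ (by omega))
          (union_subset (hs2 _ (by omega)) ((sdiff_subset).trans (Sub.refl' (by omega)).subset)),
          pr_inter_of_disjoint (depOn_Rch (ua e') d e') (depOn_Xev _ _ _) hd23]
      have h9 : pr (BR (ua e) d) (Rch (ua e) d e) * (pr (BR (ua e') d) (Rch (ua e') d e') *
            pr (BR (ua e) w \ BR (ua e) ((2 * D : ℕ) : ℤ)) (Xev (ua e) ((2 * D : ℕ) : ℤ) w)) ≤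
          (4 * C₁ * a) * ((4 * C₁ * a) * (C₂ * (2 * (((D : ℝ) + 1) ^ (1 / 4 : ℝ) * b)))) :=
        mul_le_mul hA (mul_le_mul hB hX' (pr_nonneg _ _) haa)
          (mul_nonneg (pr_nonneg _ _) (pr_nonneg _ _)) haa
      have h10 : a * ((D : ℝ) + 1) ^ (1 / 4 : ℝ) = 1 := by
        rw [ha, ← Real.rpow_add hD0]
        norm_num
      have h11 : (4 * C₁ * a) * ((4 * C₁ * a) * (C₂ * (2 * (((D : ℝ) + 1) ^ (1 / 4 : ℝ) * b)))) =
          32 * C₁ ^ 2 * C₂ * a * b * (a * ((D : ℝ) + 1) ^ (1 / 4 : ℝ)) := by ring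
      rw [h11, h10, mul_one] at h9
      linarith
    · -- two events
      push Not at hc
      have h7 : pr (BR (ua e) (2 * w)) (Rch (ua e) w e ∩ Rch (ua e') w e') ≤
          pr (BR (ua e) (2 * w)) (Rch (ua e) d e ∩ Rch (ua e') d e') :=
        pr_mono _ fun ω h => ⟨hsubA ω h.1, hsubB ω h.2⟩
      rw [pr_indep (depOn_Rch (ua e) d e) (depOn_Rch (ua e') d e') hdisj (hs1 _ (by omega))
        (hs2 _ (by omega))] at h7
      have h8 : a ≤ 2 * b := rp_le hD0 hw0 (by norm_num) (by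
        have : (w : ℝ) < 2 * D := by exact_mod_cast hc
        linarith)
      have h9 : pr (BR (ua e) d) (Rch (ua e) d e) * pr (BR (ua e') d) (Rch (ua e') d e') ≤
          (4 * C₁ * a) * (4 * C₁ * a) := mul_le_mul hA hB (pr_nonneg _ _) haa
      have h10 : (4 * C₁ * a) * (4 * C₁ * a) ≤ 32 * C₁ ^ 2 * a * b := by
        have h11 : 16 * C₁ ^ 2 * a * a ≤ 16 * C₁ ^ 2 * a * (2 * b) :=
          mul_le_mul_of_nonneg_left h8 (by positivity)
        linarith [h11]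
      linarith

end Pool.Agent.PercD

end PartpercdTwo

section PartpercdB1

/-!
# Target B1
-/

set_option autoImplicit false

namespace Pool.Agent.PercD

open Finset Pool.Agent.Perc
open Pool.Agent.MP_6bd702.H23 (Ed)
open Pool.Agent.PercU (Cor vtx fce)
open Pool.Agent.PercO (Orb sd Kc Oc mem_Oc)
open Pool.Agent.PercX60 (gV gF gB gT phiF dB TA Sn)
open Pool.Agent.PercW (kap ua_kap joins_kap)

variable {n : ℕ} {v x : ℤ × ℤ} {ω : Cfg}

/-- From an event of the box model to an event of a ball of the face grid. -/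
theorem prB_le_pr {S : Finset (ℤ × ℤ)} {A : Set (Finset Edg)} {E : Set Cfg} (hE : DepOn S E)
    (hsub : S ⊆ Sn n) (h : ∀ ω, cfgE n ω ∈ A → ω ∈ E) : prB n A ≤ pr S E := by
  rw [← PercX60.pr_Sn, ← pr_eq_of_depOn hE hsub]
  exact pr_mono _ fun ω hω => h ω hω

/-- The ball around a vertex. -/
theorem BR_phiV_sub {R : ℤ} (hR : R + 1 ≤ dB n v) : BR (phiV v) R ⊆ Sn n := by
  have h := BR_kap_sub (n := n) (k := (v.1, v.2, true, true)) (R := R) hR
  have h2 : ua (kap (v.1, v.2, true, true)) = phiV v := by simp [kap, ua, phiV]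
  rwa [h2] at h

theorem le_dB {r : ℤ} (h1 : r ≤ v.1) (h2 : v.1 ≤ n - r) (h3 : r ≤ v.2) (h4 : v.2 ≤ n - r) :
    r ≤ dB n v := by
  unfold dB
  omega

theorem abs_int_le {a b : ℤ} {d : ℝ} (h : |(a : ℝ) - b| ≤ d) : |a - b| ≤ (⌊d⌋₊ : ℤ) := by
  have h1 : ((|a - b| : ℤ) : ℝ) ≤ d := by
    push_cast
    exact h
  have h2 : |a - b| ≤ ⌊d⌋ := Int.le_floor.2 h1
  have h3 : (0 : ℝ) ≤ d := (abs_nonneg _).trans h
  rwa [Int.natCast_floor_eq_floor h3]

theorem targetB1 (hU : UpperHyp) (hT : TailHyp) : TargetB1 := by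
  intro k₀ hk₀
  obtain ⟨C, hC, hpi⟩ := pi_bound hU hT
  refine ⟨2 * C + 2, ?_⟩
  intro n hn v d w hd hdw hwk hv
  have hd0 : 0 < d := by linarith
  have hw0 : 0 < w := by linarith
  have hy0 : 0 < (d / w) ^ (1 / 4 : ℝ) := by positivity
  obtain ⟨hv1, hv2, hv3, hv4⟩ := hv
  by_cases hbig : 10 * d ≤ w
  · set a : ℕ := ⌊d⌋₊ with ha
    set b : ℕ := ⌊w⌋₊ with hb
    have ha1 : (a : ℝ) ≤ d := Nat.floor_le hd0.le
    have hb1 : (b : ℝ) ≤ w := Nat.floor_le hw0.le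
    have hb2 : w < (b : ℝ) + 1 := Nat.lt_floor_add_one _
    have ha2 : 1 ≤ a := Nat.le_floor (by exact_mod_cast hd)
    have ha3 : (1 : ℝ) ≤ a := by exact_mod_cast ha2
    have hab : 2 * a + 1 + (2 * a + 2) ≤ b := by
      have : ((2 * a + 1 + (2 * a + 2) : ℕ) : ℝ) ≤ (b : ℝ) := by
        push_cast
        linarith
      exact_mod_cast this
    obtain ⟨w', hw'⟩ : ∃ w' : ℕ, b = w' + (2 * a + 2) := ⟨b - (2 * a + 2), by omega⟩
    have hbr : (b : ℝ) = w' + (2 * a + 2) := by exact_mod_cast hw'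
    have hdw' : 2 * a + 1 ≤ w' := by omega
    have hkey := hpi (phiV v) (2 * a + 1) w' (by omega) hdw'
    have hw'0 : (0 : ℝ) < w' := by
      have : 0 < w' := by omega
      exact_mod_cast this
    have hnum : (((2 * a + 1 : ℕ) : ℝ) / w') ^ (1 / 4 : ℝ) ≤ 2 * (d / w) ^ (1 / 4 : ℝ) := by
      have h1 : ((2 * a + 1 : ℕ) : ℝ) / w' ≤ 16 * (d / w) := by
        rw [← mul_div_assoc, div_le_div_iff₀ hw'0 hw0]
        push_cast
        have h2 : w / 2 ≤ (w' : ℝ) := by linarith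
        have h3 : (2 * (a : ℝ) + 1) ≤ 3 * d := by linarith
        calc (2 * (a : ℝ) + 1) * w ≤ 3 * d * w := mul_le_mul_of_nonneg_right h3 hw0.le
          _ ≤ 16 * d * (w / 2) := by nlinarith
          _ ≤ 16 * d * w' := mul_le_mul_of_nonneg_left h2 (by positivity)
      have h4 : (16 : ℝ) ^ (1 / 4 : ℝ) = 2 := by
        rw [show (16 : ℝ) = 2 ^ (4 : ℝ) by norm_num, ← Real.rpow_mul (by norm_num)]
        norm_num
      calc _ ≤ (16 * (d / w)) ^ (1 / 4 : ℝ) :=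
            Real.rpow_le_rpow (by positivity) h1 (by norm_num)
        _ = 2 * (d / w) ^ (1 / 4 : ℝ) := by
            rw [Real.mul_rpow (by norm_num) (by positivity), h4]
    have hdBv : ((b : ℤ) : ℤ) ≤ dB n v := by
      refine le_dB ?_ ?_ ?_ ?_
      · have : ((b : ℤ) : ℝ) ≤ (v.1 : ℝ) := by push_cast; linarith
        exact_mod_cast this
      · have : (v.1 : ℝ) ≤ (((n : ℤ) - b : ℤ) : ℝ) := by push_cast; linarith
        exact_mod_cast this
      · have : ((b : ℤ) : ℝ) ≤ (v.2 : ℝ) := by push_cast; linarith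
        exact_mod_cast this
      · have : (v.2 : ℝ) ≤ (((n : ℤ) - b : ℤ) : ℝ) := by push_cast; linarith
        exact_mod_cast this
    have hmain : prB n {T | ∃ u, k₀ * n ≤ Metric.diam (clS T u) ∧
        ∃ x ∈ OutV T u, |(x.1 : ℝ) - v.1| ≤ d ∧ |(x.2 : ℝ) - v.2| ≤ d} ≤
        pr (BR (phiV v) w') (Pev (phiV v) ((2 * a + 1 : ℕ) : ℤ) w') := by
      refine prB_le_pr (depOn_Pev _ _ _) (BR_phiV_sub (by omega)) ?_
      rintro ω ⟨u, hD, x, hx, hx1, hx2⟩
      obtain ⟨k, hk, rfl⟩ := exists_cor hx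
      have h1 := abs_int_le hx1
      have h2 := abs_int_le hx2
      rw [← ha] at h1 h2
      have hin : InE (phiV v) ((2 * a + 1 : ℕ) : ℤ) (kap k) :=
        kap_inE k h1 h2 (by push_cast; omega)
      have hx1' := abs_le.1 hx1
      have hx2' := abs_le.1 hx2
      have hdB : ((b : ℤ) : ℤ) ≤ dB n (vtx k) := by
        refine le_dB ?_ ?_ ?_ ?_
        · have : ((b : ℤ) : ℝ) ≤ ((vtx k).1 : ℝ) := by push_cast; linarith [hx1'.1]
          exact_mod_cast this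
        · have : ((vtx k).1 : ℝ) ≤ (((n : ℤ) - b : ℤ) : ℝ) := by push_cast; linarith [hx1'.2]
          exact_mod_cast this
        · have : ((b : ℤ) : ℝ) ≤ ((vtx k).2 : ℝ) := by push_cast; linarith [hx2'.1]
          exact_mod_cast this
        · have : ((vtx k).2 : ℝ) ≤ (((n : ℤ) - b : ℤ) : ℝ) := by push_cast; linarith [hx2'.2]
          exact_mod_cast this
      have hR := Rch_of_outer (R := (b : ℤ) - 1) hk hD (by omega) (by omega) (by
        push_cast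
        linarith)
      refine ⟨kap k, hin, ?_⟩
      refine Rch_sub ?_ ((Sub.refl' (by exact_mod_cast hdw')).inE hin) hR
      have h3 := hin.1
      unfold InR at h3
      unfold Sub
      push_cast at h3
      omega
    refine hmain.trans (hkey.trans ?_)
    calc C * (((2 * a + 1 : ℕ) : ℝ) / w') ^ (1 / 4 : ℝ) ≤ C * (2 * (d / w) ^ (1 / 4 : ℝ)) :=
          mul_le_mul_of_nonneg_left hnum hC.le
      _ ≤ (2 * C + 2) * (d / w) ^ (1 / 4 : ℝ) := by nlinarith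
  · refine (PercX60.prB_le_one _ _).trans ?_
    push Not at hbig
    have h1 : (1 / 16 : ℝ) ≤ d / w := by
      rw [le_div_iff₀ hw0]
      linarith
    have h2 : (1 / 2 : ℝ) ≤ (d / w) ^ (1 / 4 : ℝ) := by
      have h3 : (1 / 16 : ℝ) ^ (1 / 4 : ℝ) = 1 / 2 := by
        rw [show (1 / 16 : ℝ) = (1 / 2) ^ (4 : ℝ) by norm_num, ← Real.rpow_mul (by norm_num)]
        norm_num
      rw [← h3]
      exact Real.rpow_le_rpow (by norm_num) h1 (by norm_num)
    nlinarith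

end Pool.Agent.PercD

end PartpercdB1
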