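import Pool.Agent.Lib.MP_6bd702_z.Z020

/-!
# Basic facts (task LowBasic)

`SQ`, `FarEv`, `WestT`, `TA` depend only on the faces of the square (`MM_congr`, `SS_congr` from
`CoreB.lean`; `SS ω F e ⊆ F`). `SS_stop`: if `ω' = ω` on `SS ω F e` then everything defined by
`MM ω F e` is the same.
-/

set_option autoImplicit false

namespace Pool.Agent.PercL

open Finset Pool.Agent.Perc

variable {ω ω' : Cfg} {p q : ℤ × ℤ} {R ρ h a : ℤ} {d d' : Fin 4}

theorem ue_joins (p : ℤ × ℤ) (d : Fin 4) : Joins (ue p d) p (nb p d) := by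
  obtain ⟨x, y⟩ := p
  fin_cases d <;> simp [Joins, ue, nb, ua, ub]

theorem par_nb (p : ℤ × ℤ) (d : Fin 4) : par (nb p d) = 1 - par p := by
  obtain ⟨x, y⟩ := p
  fin_cases d <;> simp [nb, par] <;> omega

namespace LowBasic

/-- The neighbour is at distance one. -/
theorem nb_near (p : ℤ × ℤ) (d : Fin 4) : p.1 - 1 ≤ (nb p d).1 ∧ (nb p d).1 ≤ p.1 + 1 ∧
    p.2 - 1 ≤ (nb p d).2 ∧ (nb p d).2 ≤ p.2 + 1 := by
  obtain ⟨x, y⟩ := p
  fin_cases d <;> simp [nb] <;> omega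

end LowBasic

theorem inR_center (hR : 1 ≤ R) : InR (p.1 - R) (p.1 + R) (p.2 - R) (p.2 + R) p ∧
    InR (p.1 - R) (p.1 + R) (p.2 - R) (p.2 + R) (nb p d) := by
  have := LowBasic.nb_near p d
  unfold InR
  omega

/-- The mixed configuration agrees with `ω` on the visited faces of `ω`, so it has the same visited
faces, the same component and the same far tips. -/
theorem mix_SQ (ω ξ : Cfg) (p : ℤ × ℤ) (d : Fin 4) (R : ℤ) :
    SQ (mixC (SQ ω p d R) ω ξ) p d R = SQ ω p d R ∧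
      MM (mixC (SQ ω p d R) ω ξ) (QF p R) (ue p d) = MM ω (QF p R) (ue p d) := by
  have h : ∀ f ∈ SS ω (QF p R : Set (ℤ × ℤ)) (ue p d), ω f = mixC (SQ ω p d R) ω ξ f := by
    intro f hf
    have hf' : f ∈ SQ ω p d R := hf
    simp only [mixC, if_pos hf']
  exact ⟨SS_congr h, MM_congr h⟩

theorem SQ_stop (h : ∀ f ∈ SQ ω p d R, ω f = ω' f) : SQ ω' p d R = SQ ω p d R :=
  SS_congr h

/-- The arm event is determined by the component (`exists_tip`, `toBd_of_tip` in `TipsB.lean`). -/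
theorem TA_iff_tip (hR : 1 ≤ R) : ω ∈ TA p d R ↔
    ∃ t ∈ MM ω (QF p R) (ue p d), BdE (p.1 - R) (p.1 + R) (p.2 - R) (p.2 + R) t := by
  constructor
  · rintro ⟨h1, h2⟩
    exact exists_tip (ue_joins p d) (inR_center (d := d) hR).1 (inR_center hR).2 (by omega)
      (by omega) h1 h2
  · rintro ⟨t, ht, hb⟩
    exact ⟨toBd_of_tip (ue_joins p d) ht hb (by omega) (by omega),
      toBd_of_tip (ue_joins p d).symm ht hb (by omega) (by omega)⟩

theorem TA_congr (hR : 1 ≤ R) (h : ∀ f ∈ SQ ω p d R, ω f = ω' f) :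
    ω' ∈ TA p d R ↔ ω ∈ TA p d R := by
  rw [TA_iff_tip hR, TA_iff_tip hR, MM_congr (F := (QF p R : Set (ℤ × ℤ))) h]

theorem TA_anti {R' : ℤ} (hR : 1 ≤ R) (h : R ≤ R') : TA p d R' ⊆ TA p d R := by
  have hn := LowBasic.nb_near p d
  rintro ω ⟨⟨v, hv, hb⟩, v', hv', hb'⟩
  obtain ⟨w, hw, hwb⟩ := hv.toBd (x₀ := p.1 - R) (x₁ := p.1 + R) (y₀ := p.2 - R) (y₁ := p.2 + R)
    (by omega) (by unfold OnBd at hb; omega)
  obtain ⟨w', hw', hwb'⟩ := hv'.toBd (x₀ := p.1 - R) (x₁ := p.1 + R) (y₀ := p.2 - R)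
    (y₁ := p.2 + R) (by omega) (by unfold OnBd at hb'; omega)
  exact ⟨⟨w, hw.mono Set.inter_subset_right, hwb⟩, w', hw'.mono Set.inter_subset_right, hwb'⟩

theorem FT_congr {t : UE} (h : ∀ f ∈ SQ ω p d R, ω f = ω' f) :
    FT ω' p d R ρ t ↔ FT ω p d R ρ t := by
  have h1 : MM ω' (QF p R : Set (ℤ × ℤ)) (ue p d) = MM ω (QF p R : Set (ℤ × ℤ)) (ue p d) :=
    MM_congr h
  unfold QF at h1
  unfold FT FarTip
  rw [h1]

namespace LowBasic

theorem on_SQ (h : ∀ f ∈ (QF p R : Set (ℤ × ℤ)), ω f = ω' f) : ∀ f ∈ SQ ω p d R, ω f = ω' f :=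
  fun f hf => h f (SS_sub hf)

end LowBasic

theorem depOn_TA : DepOn (QF p R : Set (ℤ × ℤ)) (TA p d R) := by
  intro ω ω' h
  simp only [TA, ToBd, Set.mem_ofPred_eq]
  unfold QF at h
  simp only [GridA.conn_iff _ h]

theorem depOn_WestT : DepOn (QF p R : Set (ℤ × ℤ)) (WestT a p d R ρ) := by
  intro ω ω' h
  simp only [WestT, Set.mem_ofPred_eq, FT_congr (LowBasic.on_SQ h)]

theorem depOn_FarEv : DepOn (QF p R : Set (ℤ × ℤ)) (FarEv p d R ρ) := by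
  intro ω ω' h
  simp only [FarEv, Set.mem_ofPred_eq, FT_congr (LowBasic.on_SQ h)]

theorem depOn_Few (t : ℝ) : DepOn (QF (0, 0) R : Set (ℤ × ℤ)) (Few d R t) := by
  intro ω ω' h
  have h1 : MM ω' (QF (0, 0) R : Set (ℤ × ℤ)) (ue (0, 0) d) =
      MM ω (QF (0, 0) R : Set (ℤ × ℤ)) (ue (0, 0) d) := MM_congr (LowBasic.on_SQ h)
  simp only [Few, Set.mem_ofPred_eq, depOn_TA ω ω' h, h1]

namespace LowBasic

theorem finite_MM (ω : Cfg) (F : Finset (ℤ × ℤ)) (e : UE) :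
    (MM ω (F : Set (ℤ × ℤ)) e).Finite := by
  refine Set.Finite.subset (((F.image bo ∪ F.image le') ∪ (F.image to' ∪ F.image ri) ∪
    {e} : Finset UE)).finite_toSet ?_
  intro a ha
  rcases Relation.ReflTransGen.cases_tail ha with h | ⟨b, -, f, hf, hm⟩
  · simp [h]
  · have hf' : f ∈ F := by simpa using hf
    have := hm.right
    simp only [Finset.coe_union, Finset.coe_image, Finset.coe_singleton, Set.mem_union,
      Set.mem_image, Finset.mem_coe, Set.mem_singleton_iff]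
    rcases this with h | h | h | h
    · exact Or.inl (Or.inl (Or.inl ⟨f, hf', h.symm⟩))
    · exact Or.inl (Or.inl (Or.inr ⟨f, hf', h.symm⟩))
    · exact Or.inl (Or.inr (Or.inl ⟨f, hf', h.symm⟩))
    · exact Or.inl (Or.inr (Or.inr ⟨f, hf', h.symm⟩))

end LowBasic

/-- The number of unit edges of the component is finite. -/
theorem MM_finite (ω : Cfg) (p : ℤ × ℤ) (d : Fin 4) (R : ℤ) (_hR : 1 ≤ R) :
    (MM ω (QF p R) (ue p d)).Finite :=
  LowBasic.finite_MM ω (QF p R) (ue p d)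

theorem few_anti {R' : ℤ} {t : ℝ} (hR : 1 ≤ R) (h : R ≤ R') : Few d R' t ⊆ Few d R t := by
  rintro ω ⟨h1, h2⟩
  refine ⟨TA_anti hR h h1, lt_of_le_of_lt ?_ h2⟩
  have h3 : (MM ω (QF (0, 0) R) (ue (0, 0) d)).ncard ≤
      (MM ω (QF (0, 0) R') (ue (0, 0) d)).ncard := by
    refine Set.ncard_le_ncard (fun a ha => MM_mono ?_ ha) (MM_finite ω (0, 0) d R' (by omega))
    intro f hf
    unfold QF at *
    rw [mem_RF'] at *
    simp only at *
    omega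
  exact_mod_cast h3

/-- A unit edge of the component of a remote unit edge has both arms up to distance `ρ` in the
faces which are not remote. -/
theorem arms_of_MM {F : Set (ℤ × ℤ)} {ξ : Cfg} (hq : par q = par p)
    (h : ue q d' ∈ MM ω F (ue p d)) (hρ : 1 ≤ ρ) (hpq : ¬ (|p.1 - q.1| < ρ + 1 ∧ |p.2 - q.2| < ρ + 1))
    (hξ : ∀ f ∈ QF q ρ, ω f = ξ f) : ξ ∈ TA q d' ρ := by
  have hn := LowBasic.nb_near p d
  have hn' := LowBasic.nb_near q d'
  obtain ⟨r, s, hj, hr, hc⟩ := MM_conn (ue_joins p d) h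
  obtain ⟨rfl, rfl⟩ := (ue_joins q d').of_par hj (hq.trans hr.symm)
  obtain ⟨r, s, hj', hr', hc'⟩ := MM_conn (ue_joins p d).symm h
  obtain ⟨h5, h6⟩ := (ue_joins q d').symm.of_par hj' (by rw [hr', par_nb, par_nb, hq])
  subst h5
  have hfar : ¬ (q.1 - (ρ + 1) < p.1 ∧ p.1 < q.1 + (ρ + 1) ∧ q.2 - (ρ + 1) < p.2 ∧
      p.2 < q.2 + (ρ + 1)) := by
    rintro ⟨h1, h2, h3, h4⟩
    exact hpq ⟨abs_lt.2 ⟨by omega, by omega⟩, abs_lt.2 ⟨by omega, by omega⟩⟩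
  obtain ⟨w, hw, hwb⟩ := (hc.symm).toBd (x₀ := q.1 - ρ) (x₁ := q.1 + ρ) (y₀ := q.2 - ρ)
    (y₁ := q.2 + ρ) (by omega) (by omega)
  obtain ⟨w', hw', hwb'⟩ := (hc'.symm).toBd (x₀ := q.1 - ρ) (x₁ := q.1 + ρ) (y₀ := q.2 - ρ)
    (y₁ := q.2 + ρ) (by omega) (by omega)
  have hξ' : ∀ f ∈ (RF (q.1 - ρ) (q.1 + ρ) (q.2 - ρ) (q.2 + ρ) : Set (ℤ × ℤ)), ω f = ξ f :=
    fun f hf => hξ f (by unfold QF; exact_mod_cast hf)
  exact ⟨⟨w, GridA.conn_congr _ hξ' (hw.mono Set.inter_subset_right), hwb⟩,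
    w', GridA.conn_congr _ hξ' (hw'.mono Set.inter_subset_right), hwb'⟩

end Pool.Agent.PercL
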