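import Pool.Agent.Lib.MP_6bd702_z.Z111
import Pool.Agent.Lib.MP_6bd702_z.Z021
import Pool.Agent.Lib.MP_6bd702_z.Z023
import Pool.Agent.Lib.MP_6bd702_z.Z024
import Pool.Agent.Lib.MP_6bd702_z.Z035
import Pool.Agent.Lib.MP_6bd702_z.Z033

section PartperdpPinEast

/-!
# East tips: the resampled configuration has a pinch with positive probability (task PinEast)

`mix_pin`: `pin_land` for the rectangle of `QF (0, 0) R`, `u = (0, 0)`, `v = nb (0, 0) d`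
(`ue_joins`, `inR_center`); `MM` of the mixed configuration in `QF (0, 0) R` is the one of `ω`
(`mix_SQ`); `k'` is in the component in `QF (0, 0) B` by `mem_MM_of_conn`: `Conn (mixC ..)` from the two
pieces (faces of `SS`: value of `ω`, other faces: value of `ξ`).

`pin_east`: `pr_Blk` with `col = 0` (`v` is odd) and `pr_mono`; the window `QF (0, 0) B` contains
`RFb (R, h) (12 r)`.
-/

set_option autoImplicit false

namespace Pool.Agent.PercP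

open Finset Pool.Agent.Perc Pool.Agent.PercL

namespace PinEast

theorem conn_mix_on {S : Set (ℤ × ℤ)} {ω ξ : Cfg} {p q : ℤ × ℤ} (h : Conn ω S p q) :
    Conn (mixC S ω ξ) S p q :=
  GridA.conn_congr _ (fun f hf => by simp only [mixC, if_pos hf]) h

theorem conn_mix_off {S G : Set (ℤ × ℤ)} {ω ξ : Cfg} {p q : ℤ × ℤ} (h : Conn ξ (G \ S) p q) :
    Conn (mixC S ω ξ) (G \ S) p q :=
  GridA.conn_congr _ (fun f hf => by simp only [mixC, if_neg hf.2]) h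

theorem height {ω : Cfg} {R ρ h : ℤ} {d : Fin 4} (hω : FT ω (0, 0) d R ρ (R, h, true)) :
    -R ≤ h ∧ h < R := by
  obtain ⟨-, hb, -⟩ := hω
  unfold BdE at hb
  simp only [Bool.true_eq_false, false_and, true_and, false_or] at hb
  omega

end PinEast

open PinEast

theorem mix_pin {ω ξ : Cfg} {r R B h : ℤ} {d : Fin 4} (hr : 1 ≤ r) (hR : 20 * r ≤ R)
    (hB : R + 12 * r ≤ B) (hω : FT ω (0, 0) d R (16 * r) (R, h, true))
    (hξ : ξ ∈ Blk 0 (R, h) (3 * r)) :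
    mixC (SQ ω (0, 0) d R) ω ξ ∈ Pin (0, 0) d R B r := by
  have hh := height hω
  have hx1 : ((0, 0) : ℤ × ℤ).1 + R = R := by simp
  have hω' : FarTip ω (((0, 0) : ℤ × ℤ).1 - R) (((0, 0) : ℤ × ℤ).1 + R) (((0, 0) : ℤ × ℤ).2 - R)
      (((0, 0) : ℤ × ℤ).2 + R) (ue (0, 0) d) (16 * r) (((0, 0) : ℤ × ℤ).1 + R, h, true) := by
    rw [hx1]
    unfold FT at hω
    rw [hx1] at hω
    exact hω
  have hin := inR_center (p := (0, 0)) (d := d) (R := R) (by omega)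
  have hinB := inR_center (p := (0, 0)) (d := d) (R := B) (by omega)
  have hc : ((nb (0, 0) d).1 + (nb (0, 0) d).2 - (0 + 1)) % 2 = 0 := by
    fin_cases d <;> simp [nb]
  obtain ⟨a, q, q', k, k', h1, -, h3, h4, h5, h6, h7, h8, h9, ⟨w, h10, h11⟩, h12⟩ :=
    pin_land (ue_joins (0, 0) d) hin.1 hin.2 hr (by simp only; omega) (by simp only; omega) hω' hc
      (by rw [hx1]; exact hξ)
  have hM := (mix_SQ ω ξ (0, 0) d R).2
  have hsub : SQ ω (0, 0) d R ⊆ (QF (0, 0) B : Set (ℤ × ℤ)) := by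
    intro f hf
    have hf' := SS_sub hf
    unfold QF at hf' ⊢
    rw [mem_RF'] at hf' ⊢
    simp only at hf' ⊢
    omega
  have hsub2 : (RFb (((0, 0) : ℤ × ℤ).1 + R, h) (12 * r) : Set (ℤ × ℤ)) ⊆
      (QF (0, 0) B : Set (ℤ × ℤ)) := by
    intro f hf
    rw [mem_coe, mem_RFb] at hf
    unfold QF
    rw [mem_RF']
    simp only at hf ⊢
    omega
  have hinB' : ∀ z : ℤ × ℤ, InR (((0, 0) : ℤ × ℤ).1 - R) (((0, 0) : ℤ × ℤ).1 + R)
      (((0, 0) : ℤ × ℤ).2 - R) (((0, 0) : ℤ × ℤ).2 + R) z →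
      InR (((0, 0) : ℤ × ℤ).1 - B) (((0, 0) : ℤ × ℤ).1 + B)
      (((0, 0) : ℤ × ℤ).2 - B) (((0, 0) : ℤ × ℤ).2 + B) z := by
    intro z hz
    unfold InR at hz ⊢
    simp only at hz ⊢
    omega
  refine ⟨a, q, q', k, k', h1, h3, h4, ?_, ?_, ?_, ?_⟩
  · rw [hM]; exact h7
  · rw [hM]; exact h8
  · have c1 : Conn (mixC (SQ ω (0, 0) d R) ω ξ) (QF (0, 0) B) (0, 0) a :=
      (conn_mix_on (S := SQ ω (0, 0) d R) h9).mono hsub
    have c2 : Conn (mixC (SQ ω (0, 0) d R) ω ξ) (QF (0, 0) B) (nb (0, 0) d) q' :=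
      ((conn_mix_on (S := SQ ω (0, 0) d R) h10).mono hsub).trans
        ((conn_mix_off (S := SQ ω (0, 0) d R) h11).mono fun f hf => hsub2 hf.1)
    exact mem_MM_of_conn (ue_joins (0, 0) d) hinB.1 hinB.2 h4 (hinB' a h5) (hinB' q' h6) c1 c2
  · rw [hM]; exact h12

theorem pin_east : ∃ c : ℝ, 0 < c ∧ ∀ (ω : Cfg) (r R B h : ℤ) (d : Fin 4), 1 ≤ r → 20 * r ≤ R →
    R + 12 * r ≤ B → FT ω (0, 0) d R (16 * r) (R, h, true) →
      c ≤ pr (QF (0, 0) B) {ξ | mixC (SQ ω (0, 0) d R) ω ξ ∈ Pin (0, 0) d R B r} := by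
  obtain ⟨c, hc, hB⟩ := pr_Blk
  refine ⟨c, hc, ?_⟩
  intro ω r R B h d hr hR hRB hω
  have hh := height hω
  refine (hB 0 (R, h) (3 * r) (QF (0, 0) B) (by omega) ?_).trans
    (pr_mono _ fun ξ hξ => mix_pin hr hR hRB hω hξ)
  intro f hf
  rw [mem_sdiff, mem_RFb] at hf
  unfold QF
  rw [mem_RF]
  simp only at hf ⊢
  omega

end Pool.Agent.PercP

end PartperdpPinEast

section PartperdpPinSym

/-!
# Symmetries for the pinch (task PinSym; as `reduce_east` in `LowSym.lean`, helper53)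

The definition of `Pin` is invariant under the symmetries of the square around the origin (both ends
of the boundary unit edges are used). `pin_shift` is the translation by an even vector.
-/

set_option autoImplicit false

namespace Pool.Agent.PercP

open Finset Pool.Agent.Perc Pool.Agent.PercL Pool.Agent.PercL.LowSym

namespace PinSym

/-- The pinch is invariant under a symmetry. -/
theorem pin_iff {σ : Sym} {p p' : ℤ × ℤ} {d d' : Fin 4} {R R' ρ : ℤ} {ω : Cfg}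
    (M : σ.Maps (p.1 - R) (p.1 + R) (p.2 - R) (p.2 + R) (p'.1 - R) (p'.1 + R) (p'.2 - R) (p'.2 + R))
    (M' : σ.Maps (p.1 - R') (p.1 + R') (p.2 - R') (p.2 + R')
      (p'.1 - R') (p'.1 + R') (p'.2 - R') (p'.2 + R'))
    (hue : σ.s (ue p d) = ue p' d') (hv : σ.v p = p') :
    σ.act ω ∈ Pin p' d' R R' ρ ↔ ω ∈ Pin p d R R' ρ := by
  have hM : ∀ k, σ.s k ∈ MM (σ.act ω) (QF p' R) (ue p' d') ↔ k ∈ MM ω (QF p R) (ue p d) := by
    intro k
    rw [← hue]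
    exact M.mem_MM_iff
  have hM' : ∀ k, σ.s k ∈ MM (σ.act ω) (QF p' R') (ue p' d') ↔ k ∈ MM ω (QF p R') (ue p d) := by
    intro k
    rw [← hue]
    exact M'.mem_MM_iff
  have hpar : ∀ a, par (σ.v a) = par p' ↔ par a = par p := by
    intro a
    rw [← hv]
    exact M.par a p
  have hW : ∀ a t, (¬ Wi ρ (σ.v a) (ua (σ.s t)) ∧ ¬ Wi ρ (σ.v a) (ub (σ.s t))) ↔
      (¬ Wi ρ a (ua t) ∧ ¬ Wi ρ a (ub t)) := by
    intro a t
    have hj : Joins (σ.s t) (σ.v (ua t)) (σ.v (ub t)) := σ.joins_iff.2 (Or.inl ⟨rfl, rfl⟩)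
    rcases hj with ⟨k1, k2⟩ | ⟨k1, k2⟩
    · rw [← k1, ← k2, M.wi, M.wi]
    · rw [← k1, ← k2, M.wi, M.wi, and_comm]
  constructor
  · rintro ⟨a, q, q', k, k', h1, h2, h3, h4, h5, h6, h7⟩
    obtain ⟨a, rfl⟩ := σ.v.surjective a
    obtain ⟨q, rfl⟩ := σ.v.surjective q
    obtain ⟨q', rfl⟩ := σ.v.surjective q'
    obtain ⟨k, rfl⟩ := σ.s.surjective k
    obtain ⟨k', rfl⟩ := σ.s.surjective k'
    refine ⟨a, q, q', k, k', (hpar a).1 h1, σ.joins_iff.1 h2, σ.joins_iff.1 h3, (hM k).1 h4,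
      fun h => h5 ((hM k').2 h), (hM' k').1 h6, fun t ht hb => ?_⟩
    exact (hW a t).1 (h7 _ ((hM t).2 ht) ((M.bdE t).2 hb))
  · rintro ⟨a, q, q', k, k', h1, h2, h3, h4, h5, h6, h7⟩
    refine ⟨σ.v a, σ.v q, σ.v q', σ.s k, σ.s k', (hpar a).2 h1, σ.joins_iff.2 h2,
      σ.joins_iff.2 h3, (hM k).2 h4, fun h => h5 ((hM k').1 h), (hM' k').2 h6, fun t ht hb => ?_⟩
    obtain ⟨t, rfl⟩ := σ.s.surjective t
    exact (hW a t).2 (h7 t ((hM t).1 ht) ((M.bdE t).1 hb))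

theorem QF_mono {p : ℤ × ℤ} {R R' : ℤ} (h : R ≤ R') : QF p R ⊆ QF p R' := by
  intro f hf
  simp only [QF, RF, Finset.mem_product, Finset.mem_Ico] at hf ⊢
  omega

theorem MM_eq {p : ℤ × ℤ} {e : UE} {R : ℤ} {ω ω' : Cfg} (h : ∀ f ∈ QF p R, ω f = ω' f) :
    MM ω' (QF p R) e = MM ω (QF p R) e :=
  MM_congr fun f hf => h f (by exact_mod_cast hf.1)

theorem Pin_of_eq {p : ℤ × ℤ} {d : Fin 4} {R R' ρ : ℤ} (hR : R ≤ R') {ω ω' : Cfg}
    (h : ∀ f ∈ QF p R', ω f = ω' f) : ω ∈ Pin p d R R' ρ ↔ ω' ∈ Pin p d R R' ρ := by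
  have e1 := MM_eq (e := ue p d) h
  have e2 := MM_eq (e := ue p d) fun f hf => h f (QF_mono hR hf)
  unfold Pin
  simp only [Set.mem_ofPred_eq]
  rw [e1, e2]

end PinSym

open PinSym

theorem reduce_east_pin {R B ρ r : ℤ} {c : ℝ} (hR : 1 ≤ R) (hRB : R ≤ B) (hρ : 1 ≤ ρ)
    (hE : ∀ (ω : Cfg) (d : Fin 4) (h : ℤ), FT ω (0, 0) d R ρ (R, h, true) →
      c ≤ pr (QF (0, 0) B) {ξ | mixC (SQ ω (0, 0) d R) ω ξ ∈ Pin (0, 0) d R B r})
    (ω : Cfg) (d : Fin 4) (hω : ω ∈ FarEv (0, 0) d R (ρ + 1)) :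
    c ≤ pr (QF (0, 0) B) {ξ | mixC (SQ ω (0, 0) d R) ω ξ ∈ Pin (0, 0) d R B r} := by
  obtain ⟨σ, π, h, hσ, hF⟩ := east_cases hω
  refine (hE _ _ h hF).trans (le_of_eq ?_)
  rw [← hσ.pr_act]
  · congr 1
    ext ξ
    simp only [Set.mem_ofPred_eq]
    rw [hσ.SQ_act, ← act_mixC]
    exact pin_iff (p := (0, 0)) (p' := (0, 0)) (hσ.maps R) (hσ.maps B) (hσ.hue d) hσ.hv0
  · intro ξ ξ' hξ
    simp only [Set.mem_ofPred_eq]
    refine Pin_of_eq hRB fun f hf => ?_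
    unfold mixC
    rw [hξ f (by exact_mod_cast hf)]

theorem depOn_Pin {p : ℤ × ℤ} {d : Fin 4} {R R' ρ : ℤ} (h : R ≤ R') :
    DepOn (QF p R' : Set (ℤ × ℤ)) (Pin p d R R' ρ) := fun _ _ hω =>
  Pin_of_eq h fun f hf => hω f (by exact_mod_cast hf)

/-- Translation by an even vector. -/
theorem pr_NoPin_shift {p : ℤ × ℤ} {d : Fin 4} {R r : ℤ} {K : ℕ} (hr : 0 ≤ r)
    (hp : (p.1 + p.2) % 2 = 0) {W : Finset (ℤ × ℤ)} (hW : QF p (R + 80 * r * K) ⊆ W) :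
    pr W (NoPin p d R r K) = pr (QF (0, 0) (R + 80 * r * K)) (NoPin (0, 0) d R r K) := by
  have hj : ∀ j : ℕ, j < K → R + 80 * r * (j + 1) ≤ R + 80 * r * K := by
    intro j hj
    have h1 : ((j : ℤ) + 1) ≤ K := by exact_mod_cast hj
    nlinarith [mul_nonneg hr (sub_nonneg.2 h1)]
  have hj' : ∀ j : ℕ, R + 80 * r * j ≤ R + 80 * r * (j + 1) := by
    intro j
    nlinarith
  have hdep : DepOn (QF p (R + 80 * r * K) : Set (ℤ × ℤ)) (NoPin p d R r K) := by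
    intro ω ω' hω
    unfold NoPin
    simp only [Set.mem_ofPred_eq]
    refine and_congr (depOn_TA ω ω' hω) (forall_congr' fun j => forall_congr' fun hjK => ?_)
    rw [not_iff_not]
    exact Pin_of_eq (hj' j) fun f hf => hω f (by exact_mod_cast QF_mono (hj j hjK) hf)
  rw [pr_eq_of_depOn hdep hW, ← pr_tr p hdep]
  congr 1
  ext ω
  unfold NoPin
  simp only [Set.mem_ofPred_eq]
  refine and_congr ?_ (forall_congr' fun j => forall_congr' fun hjK => ?_)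
  · have h1 := (maps_tr p (R + 80 * r * K)).toBd_iff (ω := ω) (u := (0, 0))
    have h2 := (maps_tr p (R + 80 * r * K)).toBd_iff (ω := ω) (u := nb (0, 0) d)
    rw [tr_v0] at h1
    rw [tr_nb] at h2
    exact and_congr h1 h2
  · rw [not_iff_not]
    exact pin_iff (p := (0, 0)) (p' := p) (maps_tr p _) (maps_tr p _) (tr_ue p d) (tr_v0 p)

end Pool.Agent.PercP

end PartperdpPinSym

section PartperdpPinTail

/-!
# The tail estimate for the pinch (task PinTail)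

`pin_step`: for `ω ∈ N` there is a tip (`TA_iff_tip`), `tip_dichotomy` with `ρ = 16 r + 1`; close case:
`close_step` (`B = R + 80 r ≥ R + 4 (16 r + 1)`); far case: `reduce_east_pin` with `ρ = 16 r` and
`pin_east`. `pr_mixC` with `A = N`, `X = N \ (TA 0 d B \ Pin ..)`.

`pin_tail`: induction on `K` with `N = NoPin (0, 0) d R r K` (it is determined by the visited faces
`SQ ω 0 d (R + 80 r K)`: `SQ` is monotone in the radius, `MM_congr`, `TA_congr`), `pr_TA`,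
`pr_NoPin_shift`.
-/

set_option autoImplicit false

namespace Pool.Agent.PercP

open Finset Pool.Agent.Perc Pool.Agent.PercL

theorem PinTail.not_bdE {R : ℤ} (hR : 2 ≤ R) (d : Fin 4) :
    ¬ BdE (-R) R (-R) R (ue (0, 0) d) := by
  unfold BdE
  fin_cases d <;> simp [ue] <;> omega

theorem PinTail.QF_zero (R : ℤ) : QF (0, 0) R = RF (-R) R (-R) R := by
  unfold QF
  simp

theorem PinTail.QF_mono {p : ℤ × ℤ} {R B : ℤ} (h : R ≤ B) : QF p R ⊆ QF p B := by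
  intro f hf
  unfold QF RF at *
  simp only [mem_product, mem_Ico] at *
  omega

theorem PinTail.inR_of_bdE {R : ℤ} {t : UE} (h : BdE (-R) R (-R) R t) :
    InR (-R) R (-R) R (ua t) := by
  unfold BdE at h
  unfold InR ua
  rcases h with ⟨h1, h2, h3, h4⟩ | ⟨h1, h2, h3, h4⟩ <;> simp only <;> omega

open PinTail in
theorem pin_step : ∃ c : ℝ, 0 < c ∧ c < 1 ∧ ∀ (r R : ℤ) (d : Fin 4) (N : Set Cfg), 1 ≤ r →
    40 * r ≤ R → N ⊆ TA (0, 0) d R →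
    (∀ ω ∈ N, ∀ ζ : Cfg, (∀ f ∈ SQ ω (0, 0) d R, ω f = ζ f) → ζ ∈ N) →
    DepOn (QF (0, 0) R : Set (ℤ × ℤ)) N →
      pr (QF (0, 0) (R + 80 * r)) {ω | ω ∈ N ∧ ω ∈ TA (0, 0) d (R + 80 * r) ∧
        ω ∉ Pin (0, 0) d R (R + 80 * r) r} ≤ (1 - c) * pr (QF (0, 0) R) N := by
  obtain ⟨c₂, hc₂, hE⟩ := pin_east
  obtain ⟨c₃, hc₃, hc₃', hcl⟩ := close_step
  refine ⟨min c₂ c₃, lt_min hc₂ hc₃, lt_of_le_of_lt (min_le_right _ _) hc₃', ?_⟩
  intro r R d N hr hR hN hstop hdep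
  set B : ℤ := R + 80 * r with hB
  have hRB : R ≤ B := by omega
  have key : ∀ ω ∈ N, min c₂ c₃ ≤ pr (QF (0, 0) B) {ξ | ¬ (mixC (SQ ω (0, 0) d R) ω ξ ∈
      TA (0, 0) d B ∧ mixC (SQ ω (0, 0) d R) ω ξ ∉ Pin (0, 0) d R B r)} := by
    intro ω hω
    obtain ⟨t₀, ht₀, hb₀⟩ := (TA_iff_tip (by omega)).1 (hN hω)
    rw [QF_zero] at ht₀
    simp only [zero_sub, zero_add] at hb₀
    rcases tip_dichotomy (ρ := 16 * r + 1) (by omega) (not_bdE (by omega) d) ht₀ hb₀ with h | h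
    · refine (min_le_right _ _).trans ((hcl ω (ua t₀) d R B (16 * r + 1) (by omega) (by omega)
        (by omega) (inR_of_bdE hb₀) h).trans ?_)
      exact pr_mono _ fun ξ hξ hξ' => hξ hξ'.1
    · have hfar : ω ∈ FarEv (0, 0) d R (16 * r + 1) := by
        refine ⟨t₀, ?_⟩
        unfold FT
        simp only [zero_sub, zero_add]
        exact ⟨ht₀, hb₀, h⟩
      have h1 := reduce_east_pin (R := R) (B := B) (ρ := 16 * r) (r := r) (c := c₂) (by omega) hRB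
        (by omega) (fun ω d h hω => hE ω r R B h d hr (by omega) (by omega) hω) ω d hfar
      refine (min_le_left _ _).trans (h1.trans ?_)
      exact pr_mono _ fun ξ hξ hξ' => hξ'.2 hξ
  have h2 := pr_mixC (W := QF (0, 0) B) (fun ω => SQ ω (0, 0) d R) (fun ω ω' h => SQ_stop h)
    N {ω | ω ∈ N ∧ ¬ (ω ∈ TA (0, 0) d B ∧ ω ∉ Pin (0, 0) d R B r)}
    (fun ω => {ξ | ¬ (mixC (SQ ω (0, 0) d R) ω ξ ∈
      TA (0, 0) d B ∧ mixC (SQ ω (0, 0) d R) ω ξ ∉ Pin (0, 0) d R B r)}) key (by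
      intro ω hω ξ hξ
      refine ⟨hstop ω hω _ ?_, hξ⟩
      intro f hf
      unfold mixC
      rw [if_pos hf])
  have h3 := pr_inter_add_diff (QF (0, 0) B) N
    {ω | ω ∈ TA (0, 0) d B ∧ ω ∉ Pin (0, 0) d R B r}
  have h4 : pr (QF (0, 0) B) N = pr (QF (0, 0) R) N := pr_eq_of_depOn hdep (QF_mono hRB)
  have h5 : N ∩ {ω | ω ∈ TA (0, 0) d B ∧ ω ∉ Pin (0, 0) d R B r} =
      {ω | ω ∈ N ∧ ω ∈ TA (0, 0) d B ∧ ω ∉ Pin (0, 0) d R B r} := by
    ext ω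
    exact Iff.rfl
  have h6 : N \ {ω | ω ∈ TA (0, 0) d B ∧ ω ∉ Pin (0, 0) d R B r} =
      {ω | ω ∈ N ∧ ¬ (ω ∈ TA (0, 0) d B ∧ ω ∉ Pin (0, 0) d R B r)} := by
    ext ω
    exact Iff.rfl
  rw [h5, h6, h4] at h3
  rw [h4] at h2
  linarith

theorem PinTail.SQ_mono {ω : Cfg} {p : ℤ × ℤ} {d : Fin 4} {R R' : ℤ} (h : R ≤ R') :
    SQ ω p d R ⊆ SQ ω p d R' := by
  rintro f ⟨hf, a, ha, hs⟩
  have hQ := QF_mono (p := p) h
  exact ⟨hQ hf, a, MM_mono (fun x hx => hQ hx) ha, hs⟩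

open PinTail in
theorem PinTail.pin_congr {ω ζ : Cfg} {p : ℤ × ℤ} {d : Fin 4} {R R₁ R₂ ρ : ℤ} (h1 : R₁ ≤ R)
    (h2 : R₂ ≤ R) (h : ∀ f ∈ SQ ω p d R, ω f = ζ f) :
    ζ ∈ Pin p d R₁ R₂ ρ ↔ ω ∈ Pin p d R₁ R₂ ρ := by
  have e1 : MM ζ (QF p R₁ : Set (ℤ × ℤ)) (ue p d) = MM ω (QF p R₁ : Set (ℤ × ℤ)) (ue p d) :=
    MM_congr fun f hf => h f (SQ_mono h1 hf)
  have e2 : MM ζ (QF p R₂ : Set (ℤ × ℤ)) (ue p d) = MM ω (QF p R₂ : Set (ℤ × ℤ)) (ue p d) :=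
    MM_congr fun f hf => h f (SQ_mono h2 hf)
  unfold Pin
  simp only [Set.mem_ofPred_eq]
  rw [e1, e2]

open PinTail in
theorem PinTail.noPin_stop {p : ℤ × ℤ} {d : Fin 4} {R r : ℤ} {K : ℕ} (hr : 0 ≤ r) (hR : 1 ≤ R)
    {ω ζ : Cfg} (h : ∀ f ∈ SQ ω p d (R + 80 * r * K), ω f = ζ f) (hω : ω ∈ NoPin p d R r K) :
    ζ ∈ NoPin p d R r K := by
  have hK : 0 ≤ r * (K : ℤ) := mul_nonneg hr (Int.natCast_nonneg K)
  refine ⟨(TA_congr (by nlinarith) h).2 hω.1, fun j hj hP => hω.2 j hj ?_⟩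
  have hj' : ((j : ℤ) + 1) ≤ K := by exact_mod_cast hj
  have hrj : r * ((j : ℤ) + 1) ≤ r * K := mul_le_mul_of_nonneg_left hj' hr
  exact (pin_congr (by nlinarith) (by nlinarith) h).1 hP

open PinTail in
theorem pin_tail : ∃ c : ℝ, 0 < c ∧ c < 1 ∧ ∀ (r R : ℤ) (p : ℤ × ℤ) (d : Fin 4) (K : ℕ),
    (p.1 + p.2) % 2 = 0 → 1 ≤ r → 40 * r ≤ R → ∀ W : Finset (ℤ × ℤ),
      QF p (R + 80 * r * K) ⊆ W → pr W (NoPin p d R r K) ≤ (1 - c) ^ K * p2 R := by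
  obtain ⟨c, hc, hc', h⟩ := pin_step
  refine ⟨c, hc, hc', ?_⟩
  intro r R p d K hp hr hR W hW
  rw [pr_NoPin_shift (by omega) hp hW]
  clear hW hp
  induction K with
  | zero =>
    simp only [Nat.cast_zero, mul_zero, add_zero, pow_zero, one_mul]
    refine (pr_mono _ (B := TA (0, 0) d R) fun ω hω => ?_).trans (pr_TA (Finset.Subset.refl _)).le
    have := hω.1
    simpa using this
  | succ K ih =>
    have hK : 0 ≤ r * (K : ℤ) := mul_nonneg (by omega) (Int.natCast_nonneg K)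
    have e : R + 80 * r * ((K + 1 : ℕ) : ℤ) = R + 80 * r * K + 80 * r := by
      push_cast; ring
    have hstop : ∀ ω ∈ NoPin (0, 0) d R r K, ∀ ζ : Cfg,
        (∀ f ∈ SQ ω (0, 0) d (R + 80 * r * K), ω f = ζ f) → ζ ∈ NoPin (0, 0) d R r K :=
      fun ω hω ζ hζ => noPin_stop (by omega) (by omega) hζ hω
    have hdep : DepOn (QF (0, 0) (R + 80 * r * K) : Set (ℤ × ℤ)) (NoPin (0, 0) d R r K) :=
      fun ω ω' hω => ⟨fun h1 => hstop ω h1 ω' fun f hf => hω f (SS_sub hf),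
        fun h1 => hstop ω' h1 ω fun f hf => (hω f (SS_sub hf)).symm⟩
    have h1 := h r (R + 80 * r * K) d (NoPin (0, 0) d R r K) hr (by nlinarith)
      (fun ω hω => hω.1) hstop hdep
    rw [e]
    refine le_trans (pr_mono _ fun ω hω => ?_) (h1.trans ?_)
    · have hT : ω ∈ TA (0, 0) d (R + 80 * r * K + 80 * r) := by
        have := hω.1
        rwa [e] at this
      refine ⟨⟨TA_anti (by nlinarith) (by omega) hT, fun j hj => hω.2 j (by omega)⟩, hT, ?_⟩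
      have h2 := hω.2 K (by omega)
      rwa [show R + 80 * r * ((K : ℤ) + 1) = R + 80 * r * K + 80 * r by ring] at h2
    · calc (1 - c) * pr (QF (0, 0) (R + 80 * r * K)) (NoPin (0, 0) d R r K)
          ≤ (1 - c) * ((1 - c) ^ K * p2 R) := mul_le_mul_of_nonneg_left ih (by linarith)
        _ = (1 - c) ^ (K + 1) * p2 R := by ring

end Pool.Agent.PercP

end PartperdpPinTail
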