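import Pool.Agent.Lib.MP_6bd702_z.Z111
import Pool.Agent.Lib.MP_6bd702_z.Z017
import Pool.Agent.Lib.MP_6bd702_z.Z018
import Pool.Agent.Lib.MP_6bd702_z.Z006
import Pool.Agent.Lib.MP_6bd702_z.Z112
import Pool.Agent.Lib.MP_6bd702_z.Z008
import Pool.Agent.Lib.MP_6bd702_z.Z110
import Pool.Agent.Lib.MP_6bd702_z.Z013

section PartperdpPinOrb

/-!
# A pinch gives a double point of the outer loop
-/

set_option autoImplicit false

namespace Pool.Agent.PercP

open Finset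
open Pool.Agent.MP_6bd702.H23 (Ed)
open Pool.Agent.Perc Pool.Agent.PercL Pool.Agent.PercD
open Pool.Agent.PercU (Cor vtx fce qry qryb rot adv rotb advb nxt prv nxtE)
open Pool.Agent.PercX60 (gV gF gB gT phiF dB Sn)
open Pool.Agent.PercW (kap)

theorem exists_dir (k : Cor) : ∃ d : Fin 4, kap k = ue (gV k) d := by
  obtain ⟨x, y, _ | _, _ | _⟩ := k
  · exact ⟨2, by simp [kap, ue, gV, phiV, vtx]⟩
  · exact ⟨3, by simp [kap, ue, gV, phiV, vtx]⟩
  · exact ⟨1, by simp [kap, ue, gV, phiV, vtx]⟩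
  · exact ⟨0, by simp [kap, ue, gV, phiV, vtx]⟩

namespace PinOrb

theorem par_gV (k : Cor) : par (gV k) = 0 := by
  obtain ⟨x, y, b, c⟩ := k
  unfold par gV phiV vtx
  simp only
  omega

theorem par_gF (k : Cor) : par (gF k) = 1 := by
  unfold par gF phiF
  simp only
  omega

/-- The even end of the unit edge of a corner. -/
theorem eq_gV {k : Cor} {a q : ℤ × ℤ} (h : Joins (kap k) a q) (ha : par a = 0) : a = gV k := by
  have h1 := Pool.Agent.PercW.joins_kap k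
  have h2 := par_gF k
  rcases h with ⟨h, -⟩ | ⟨h, -⟩ <;> rcases h1 with ⟨h3, h4⟩ | ⟨h3, h4⟩
  · rw [h, h3]
  · rw [h, ← h4, h2] at ha; exact absurd ha (by norm_num)
  · rw [h, ← h4, h2] at ha; exact absurd ha (by norm_num)
  · rw [h, h3]

theorem gV_inj {k k' : Cor} (h : gV k = gV k') : vtx k = vtx k' := by
  unfold gV phiV at h
  simp only [Prod.mk.injEq] at h
  apply Prod.ext <;> omega

/-- Far in the face grid: far in the plane. -/
theorem dist_of_not_wi {ρ : ℤ} {k k' : Cor} (h : ¬ Wi ρ (gV k) (gV k')) :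
    (ρ / 2 : ℝ) ≤ dist (toC (vtx k)) (toC (vtx k')) := by
  unfold Wi gV phiV at h
  simp only at h
  set x : ℤ := (vtx k).1 with hx
  set y : ℤ := (vtx k).2 with hy
  set x' : ℤ := (vtx k').1 with hx'
  set y' : ℤ := (vtx k').2 with hy'
  have h1 : ρ ≤ |x - x'| + |y - y'| := by
    rcases abs_cases (x - x') with ⟨e1, _⟩ | ⟨e1, _⟩ <;>
      rcases abs_cases (y - y') with ⟨e2, _⟩ | ⟨e2, _⟩ <;> rw [e1, e2] <;> omega
  have h2 : (ρ : ℝ) ≤ |(x : ℝ) - x'| + |(y : ℝ) - y'| := by exact_mod_cast h1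
  rw [dist_eq_norm]
  have h3 : |(x : ℝ) - x'| ≤ ‖toC (vtx k) - toC (vtx k')‖ := by
    have := Complex.abs_re_le_norm (toC (vtx k) - toC (vtx k'))
    simpa [toC] using this
  have h4 : |(y : ℝ) - y'| ≤ ‖toC (vtx k) - toC (vtx k')‖ := by
    have := Complex.abs_im_le_norm (toC (vtx k) - toC (vtx k'))
    simpa [toC] using this
  linarith

theorem inE_ue (p : ℤ × ℤ) (d : Fin 4) {R : ℤ} (hR : 1 ≤ R) : InE p R (ue p d) := by
  fin_cases d <;> simp [InE, InR, ue, ua, ub] <;> omega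

/-- A corner whose unit edge is in the component, next to one whose unit edge is not. -/
theorem far_of_step {T : Set Ed} {p : ℤ × ℤ} {d : Fin 4} {R ρ : ℤ} (hR : 1 ≤ R) {c c' c₁ : Cor}
    {f : ℤ × ℤ} (hm : Mt (gT T) f (kap c) (kap c')) (hc : kap c ∈ MM (gT T) (QF p R) (ue p d))
    (hc' : kap c' ∉ MM (gT T) (QF p R) (ue p d))
    (hfar : ∀ t ∈ MM (gT T) (QF p R) (ue p d), BdE (p.1 - R) (p.1 + R) (p.2 - R) (p.2 + R) t →
      ¬ Wi ρ (gV c₁) (ua t) ∧ ¬ Wi ρ (gV c₁) (ub t)) :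
    (ρ / 2 : ℝ) ≤ dist (toC (vtx c₁)) (toC (vtx c)) := by
  have hf : f ∉ (BR p R : Set (ℤ × ℤ)) := fun hf => hc' (MM_step hf hm hc)
  have hin : InE p R (kap c) := MM_inE (inE_ue p d hR) hc
  have hb := hfar _ hc (bd_of_side hin hm.left hf)
  apply dist_of_not_wi
  rcases Pool.Agent.PercW.joins_kap c with ⟨h, -⟩ | ⟨h, -⟩
  · rw [h]; exact hb.1
  · rw [h]; exact hb.2

end PinOrb

open PinOrb

theorem pin_orb {n : ℕ} {T : Finset Edg} (hT : T ⊆ boxE n) {u : ℤ × ℤ} {k : Cor}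
    (h1 : vtx k ∈ clV T u) (h2 : Outer T u (fce k)) {d : Fin 4} (hd : kap k = ue (gV k) d)
    {R R' ρ : ℤ} (hR : 1 ≤ R) (hRR : R ≤ R') (hρ : 1 ≤ ρ)
    (hω : gT (T : Set Ed) ∈ Pin (gV k) d R R' ρ) :
    outerLoop n T u ∈ Loop.Dbl ((ρ / 2 : ℝ) / n) := by
  obtain ⟨a, q, q', k₁, k', hpar, hj, hj', hk1, hk', hk'', hfar⟩ := hω
  -- the two corners
  have o1 : k₁ ∈ kap '' PercO.Orb (T : Set Ed) k := by
    rw [← hd] at hk1; exact Pool.Agent.PercW.MM_sub_orb hk1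
  have o2 : k' ∈ kap '' PercO.Orb (T : Set Ed) k := by
    rw [← hd] at hk''; exact Pool.Agent.PercW.MM_sub_orb hk''
  obtain ⟨c₁, ho1, rfl⟩ := o1
  obtain ⟨c₂, ho2, rfl⟩ := o2
  have hpa : par a = 0 := by rw [hpar, par_gV]
  have ha1 : a = gV c₁ := eq_gV hj hpa
  have ha2 : a = gV c₂ := eq_gV hj' hpa
  have hvtx : vtx c₁ = vtx c₂ := gV_inj (ha1.symm.trans ha2)
  rw [ha1] at hfar
  -- outer corners
  have horb := PercO.orb_eq_Oc (PercO.boxE_sub hT) (PercO.mem_Oc.2 ⟨h1, h2⟩)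
  rw [horb] at ho1 ho2
  obtain ⟨m1, m2⟩ := PercO.mem_Oc.1 ho1
  -- the period
  have hfin := PercO.finite_Kc (v := u) (PercO.boxE_sub hT)
  have hper : ∃ N : ℕ, 0 < N ∧ (nxt (T : Set Ed))^[N] c₁ = c₁ :=
    PercO.exists_period ho1.1 hfin
  classical
  obtain ⟨N, hN, hmin⟩ : ∃ N : ℕ, (0 < N ∧ (nxt (T : Set Ed))^[N] c₁ = c₁) ∧
      ∀ m, 0 < m → m < N → (nxt (T : Set Ed))^[m] c₁ ≠ c₁ :=
    ⟨Nat.find hper, Nat.find_spec hper, fun m hm hm' h => Nat.find_min hper hm' ⟨hm, h⟩⟩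
  obtain ⟨hN0, hN1⟩ := hN
  -- the second corner as an iterate of the first
  obtain ⟨j, hjN, hj2⟩ : ∃ j < N, (nxt (T : Set Ed))^[j] c₁ = c₂ := by
    obtain ⟨j, hj⟩ := PercO.outer_orbit (PercO.boxE_sub hT) ho1 ho2
    refine ⟨j % N, Nat.mod_lt _ hN0, ?_⟩
    have hp : Function.IsPeriodicPt (nxt (T : Set Ed)) N c₁ := hN1
    rw [hp.iterate_mod_apply, hj]
  set M := MM (gT (T : Set Ed)) (QF (gV k) R) (ue (gV k) d) with hM
  have hj0 : 0 < j := by
    rcases Nat.eq_zero_or_pos j with h | h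
    · rw [h] at hj2
      have h3 : c₁ = c₂ := hj2
      rw [← h3] at hk'
      exact absurd hk1 hk'
    · exact h
  -- forward exit
  have hF : ∃ i, kap ((nxt (T : Set Ed))^[i + 1] c₁) ∉ M :=
    ⟨j - 1, by rw [Nat.sub_add_cancel hj0, hj2]; exact hk'⟩
  obtain ⟨A, hA1, hA2, hA3⟩ : ∃ A, A + 1 ≤ j ∧ kap ((nxt (T : Set Ed))^[A] c₁) ∈ M ∧
      kap ((nxt (T : Set Ed))^[A + 1] c₁) ∉ M := by
    refine ⟨Nat.find hF, ?_, ?_, Nat.find_spec hF⟩
    · have : Nat.find hF ≤ j - 1 :=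
        Nat.find_min' hF (by rw [Nat.sub_add_cancel hj0, hj2]; exact hk')
      omega
    · rcases Nat.eq_zero_or_pos (Nat.find hF) with h | h
      · rw [h]; exact hk1
      · have h3 := Nat.find_min hF (m := Nat.find hF - 1) (by omega)
        rw [Nat.sub_add_cancel h, not_not] at h3
        exact h3
  -- backward exit
  have hB : ∃ i, kap ((nxt (T : Set Ed))^[N - (i + 1)] c₁) ∉ M :=
    ⟨N - j - 1, by rw [show N - (N - j - 1 + 1) = j by omega, hj2]; exact hk'⟩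
  obtain ⟨B, hB1, hB2, hB3⟩ : ∃ B, B + j + 1 ≤ N ∧ kap ((nxt (T : Set Ed))^[N - B] c₁) ∈ M ∧
      kap ((nxt (T : Set Ed))^[N - (B + 1)] c₁) ∉ M := by
    refine ⟨Nat.find hB, ?_, ?_, Nat.find_spec hB⟩
    · have : Nat.find hB ≤ N - j - 1 :=
        Nat.find_min' hB (by rw [show N - (N - j - 1 + 1) = j by omega, hj2]; exact hk')
      omega
    · rcases Nat.eq_zero_or_pos (Nat.find hB) with h | h
      · rw [h, Nat.sub_zero, hN1]; exact hk1
      · have h3 := Nat.find_min hB (m := Nat.find hB - 1) (by omega)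
        rw [Nat.sub_add_cancel h, not_not] at h3
        exact h3
  refine outerLoop_mem_Dbl hT m1 m2 (i := 0) (a := A) (j := j) (b := N - B) (p := N)
    (Nat.zero_le _) (by omega) (by omega) (by omega) hmin ?_ ?_ ?_
  · rw [hj2]; exact hvtx
  · have h3 := Pool.Agent.PercW.mt_nxt (T : Set Ed) ((nxt (T : Set Ed))^[A] c₁)
    rw [← Function.iterate_succ_apply' (nxt (T : Set Ed))] at h3
    exact far_of_step hR h3 hA2 hA3 hfar
  · have h3 := Pool.Agent.PercW.mt_nxt (T : Set Ed) ((nxt (T : Set Ed))^[N - (B + 1)] c₁)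
    rw [← Function.iterate_succ_apply' (nxt (T : Set Ed)),
      show (N - (B + 1)).succ = N - B by omega] at h3
    exact far_of_step hR h3.symm hB2 hB3 hfar

end Pool.Agent.PercP

end PartperdpPinOrb

section PartperdpPinFinal

/-!
# Double points with high probability
-/

set_option autoImplicit false

namespace Pool.Agent.PercP

open Finset Filter Topology
open Pool.Agent.Perc Pool.Agent.PercL Pool.Agent.PercD
open Pool.Agent.MP_6bd702.H23 (Ed)
open Pool.Agent.PercU (Cor vtx fce)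
open Pool.Agent.PercO (Oc mem_Oc)
open Pool.Agent.PercX60 (gV gT dB Sn)
open Pool.Agent.PercW (kap)

theorem Dbl_anti {η η' : ℝ} (h : η ≤ η') {γ : Loop} (hγ : γ ∈ Loop.Dbl η') : γ ∈ Loop.Dbl η := by
  obtain ⟨s, t, h1, h2, h3, ⟨x, hx, y, hy, h4⟩, x', hx', y', hy', h5⟩ := hγ
  exact ⟨s, t, h1, h2, h3, ⟨x, hx, y, hy, h.trans h4⟩, x', hx', y', hy', h.trans h5⟩

/-- The configuration of the faces and the configuration of the edges agree in the box. -/
theorem gT_cfgE_of_mem {n : ℕ} {ω : Cfg} {f : ℤ × ℤ} (hf : f ∈ Sn n) :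
    gT (cfgE n ω : Set Ed) f = ω f := by
  obtain ⟨e, he, rfl⟩ := Finset.mem_image.1 hf
  exact PercX60.gT_cfgE he

/-- The deterministic part: without a macroscopic double point no outer corner has a pinch. -/
theorem noPin_of {n : ℕ} {ω : Cfg} {u : ℤ × ℤ} {k : Cor} {d : Fin 4} {R r : ℤ} {K : ℕ} {D η : ℝ}
    (hn : 1 ≤ n) (hk : k ∈ Oc (cfgE n ω : Set Ed) u) (hd : kap k = ue (gV k) d)
    (hD : D ≤ Metric.diam (clS (cfgE n ω) u)) (hr : 1 ≤ r) (hR : 1 ≤ R)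
    (hB : R + 80 * r * K + 2 ≤ dB n (vtx k)) (hBD : 4 * (((R + 80 * r * K : ℤ) : ℝ) + 3) ≤ D)
    (hη : η ≤ ((r : ℝ) / 2) / n) (hno : outerLoop n (cfgE n ω) u ∉ Loop.Dbl η) :
    ω ∈ NoPin (gV k) d R r K := by
  set B : ℤ := R + 80 * r * K with hBdef
  have hK0 : (0 : ℤ) ≤ 80 * r * K := by positivity
  have hB1 : 1 ≤ B := by omega
  have hT : cfgE n ω ⊆ boxE n := Finset.filter_subset _ _
  have hsub : QF (gV k) B ⊆ Sn n := BR_phiV_sub (by omega)
  refine ⟨?_, ?_⟩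
  · rw [TA_iff_tip hB1, ← hd]
    have h1 := Rch_of_outer (R := B + 1) hk hD (by omega) (by omega) (by
      push_cast
      linarith)
    have hin : InE (gV k) 1 (kap k) :=
      kap_inE k (v := vtx k) (d := 0) (by simp) (by simp) (by norm_num)
    have h2 : ω ∈ Rch (gV k) B (kap k) := by
      refine Rch_sub ?_ ((Sub.refl' hB1).inE hin) h1
      have h3 := hin.1
      unfold InR at h3
      unfold PercD.Sub
      omega
    exact h2
  · intro j hj hpin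
    have hjK : (j : ℤ) + 1 ≤ K := by exact_mod_cast hj
    have hj0 : (0 : ℤ) ≤ j := Int.natCast_nonneg j
    have e1 : 80 * r * (j + 1) ≤ 80 * r * K := by
      have : (0 : ℤ) ≤ 80 * r := by omega
      exact mul_le_mul_of_nonneg_left hjK this
    have e2 : 0 ≤ 80 * r * j := by positivity
    have e3 : 80 * r * j ≤ 80 * r * (j + 1) := by nlinarith
    have hpin' : gT (cfgE n ω : Set Ed) ∈ Pin (gV k) d (R + 80 * r * j) (R + 80 * r * (j + 1)) r := by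
      refine (depOn_Pin (by omega) _ _ fun f hf => ?_).1 hpin
      refine (gT_cfgE_of_mem (hsub ?_)).symm
      rw [mem_coe] at hf
      unfold QF at hf ⊢
      rw [mem_RF] at hf ⊢
      omega
    obtain ⟨h1, h2⟩ := mem_Oc.1 hk
    have h3 := pin_orb hT h1 h2 hd (by omega) (by omega) hr hpin'
    exact hno (Dbl_anti hη h3)

/-- The sizes. -/
theorem pin_sizes {c' : ℝ} (hc' : 0 < c') (K : ℕ) : ∀ᶠ n : ℕ in atTop, ∃ r R : ℕ, 1 ≤ n ∧ 1 ≤ r ∧
    1 ≤ R ∧ 40 * r ≤ R ∧ ((R + 80 * r * K + 3 : ℕ) : ℝ) ≤ c' * n ∧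
    c' / (800 * (K + 1)) ≤ ((r : ℝ) / 2) / n ∧ c' * n / 4 ≤ R := by
  have h1 : Tendsto (fun n : ℕ => c' * (n : ℝ)) atTop atTop :=
    Tendsto.const_mul_atTop hc' tendsto_natCast_atTop_atTop
  filter_upwards [h1.eventually_ge_atTop (400 * ((K : ℝ) + 1)), eventually_ge_atTop 1] with n hn hn1
  have hn0 : (0 : ℝ) < n := by exact_mod_cast hn1
  have hK : (0 : ℝ) < (K : ℝ) + 1 := by positivity
  set x : ℝ := c' * n with hx
  have hx0 : 400 ≤ x := by
    have : (1 : ℝ) ≤ (K : ℝ) + 1 := by linarith [(Nat.cast_nonneg K : (0 : ℝ) ≤ K)]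
    nlinarith
  set y : ℝ := x / (200 * ((K : ℝ) + 1)) with hy
  have hy2 : 2 ≤ y := by
    rw [hy, le_div_iff₀ (by positivity)]
    linarith
  have hyx : y * (200 * ((K : ℝ) + 1)) = x := by
    rw [hy]
    field_simp
  set r : ℕ := ⌊y⌋₊ with hr
  set R : ℕ := ⌊x / 2⌋₊ with hR
  have r1 : (r : ℝ) ≤ y := Nat.floor_le (by linarith)
  have r2 : y < (r : ℝ) + 1 := Nat.lt_floor_add_one _
  have R1 : (R : ℝ) ≤ x / 2 := Nat.floor_le (by linarith)
  have R2 : x / 2 < (R : ℝ) + 1 := Nat.lt_floor_add_one _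
  have hyx' : y * 200 ≤ x := by
    have h0 : (0 : ℝ) ≤ K := Nat.cast_nonneg K
    nlinarith
  refine ⟨r, R, hn1, ?_, ?_, ?_, ?_, ?_, ?_⟩
  · have : (1 : ℝ) < (r : ℝ) + 1 := by linarith
    have : (0 : ℝ) < r := by linarith
    exact_mod_cast this
  · have : (0 : ℝ) < R := by linarith
    exact_mod_cast this
  · have : ((40 * r : ℕ) : ℝ) ≤ (R : ℝ) := by
      push_cast
      linarith
    exact_mod_cast this
  · push_cast
    have h2 : 80 * (r : ℝ) * K ≤ 80 * y * (K + 1) := by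
      have h0 : (0 : ℝ) ≤ K := Nat.cast_nonneg K
      have h3 : (r : ℝ) * K ≤ y * (K + 1) :=
        mul_le_mul r1 (by linarith) h0 (by linarith)
      linarith
    have h3 : 80 * y * ((K : ℝ) + 1) = 2 / 5 * x := by rw [← hyx]; ring
    linarith
  · rw [le_div_iff₀ hn0, div_mul_eq_mul_div, div_le_iff₀ (by positivity), ← hx, ← hyx]
    have h4 : y ≤ 2 * r := by linarith
    nlinarith
  · linarith

open Classical in
theorem targetDbl_of (hP : P2Bounds) (hB : TargetB3) : TargetDbl := by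
  intro ε hε
  obtain ⟨κ, k₀, c, hκ, hk₀, hc, hB'⟩ := hB (ε / 2) (by positivity)
  obtain ⟨_c0, C, _, hC, hp2⟩ := hP
  obtain ⟨q, hq0, hq1, htail⟩ := pin_tail
  set c' : ℝ := min κ k₀ / 4 with hc'
  have hc'0 : 0 < c' := by rw [hc']; have := lt_min hκ hk₀; positivity
  have hcκ : 4 * c' ≤ κ := by rw [hc']; linarith [min_le_left κ k₀]
  have hck : 4 * c' ≤ k₀ := by rw [hc']; linarith [min_le_right κ k₀]
  -- the choice of `K`
  set M : ℝ := 16 * (C * (c' / 4) ^ (-(1 / 4) : ℝ)) / c with hM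
  have hM0 : 0 < M := by rw [hM]; positivity
  obtain ⟨K, hK⟩ : ∃ K : ℕ, M * (1 - q) ^ K ≤ ε / 2 := by
    obtain ⟨K, hK⟩ := exists_pow_lt_of_lt_one (show 0 < ε / 2 / M by positivity)
      (show 1 - q < 1 by linarith)
    refine ⟨K, ?_⟩
    rw [lt_div_iff₀ hM0] at hK
    linarith
  refine ⟨c' / (800 * (K + 1)), by positivity, fun sel hsel => ?_⟩
  filter_upwards [hB' sel hsel, pin_sizes hc'0 K] with n hn hsz
  obtain ⟨r, R, hn1, hr, hR, hrR, hBn, hη, hRn⟩ := hsz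
  have hn1' : (1 : ℝ) ≤ n := by exact_mod_cast hn1
  have hn0 : (0 : ℝ) < n := by linarith
  set B : ℤ := (R : ℤ) + 80 * r * K with hBdef
  have hBr : ((B : ℤ) : ℝ) + 3 ≤ c' * n := by
    rw [hBdef]
    push_cast at hBn ⊢
    exact hBn
  -- the bulk vertices
  set V : Finset (ℤ × ℤ) := ((Icc 0 (n : ℤ)) ×ˢ (Icc 0 (n : ℤ))).filter
    fun v => Bulk n (κ * n) v with hV
  set I : Finset ((ℤ × ℤ) × Fin 4) := V ×ˢ univ with hI
  set A : (ℤ × ℤ) × Fin 4 → Set Cfg := fun i => NoPin (phiV i.1) i.2 R r K with hA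
  have hdB : ∀ v, Bulk n (κ * n) v → B + 3 ≤ dB n v := by
    rintro v ⟨h1, h2, h3, h4⟩
    have h5 : ((B + 3 : ℤ) : ℝ) ≤ κ * n := by
      push_cast
      nlinarith
    refine le_dB ?_ ?_ ?_ ?_
    · exact_mod_cast h5.trans h1
    · have : (v.1 : ℝ) ≤ (((n : ℤ) - (B + 3) : ℤ) : ℝ) := by push_cast at h5 ⊢; linarith
      exact_mod_cast this
    · exact_mod_cast h5.trans h3
    · have : (v.2 : ℝ) ≤ (((n : ℤ) - (B + 3) : ℤ) : ℝ) := by push_cast at h5 ⊢; linarith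
      exact_mod_cast this
  have hone : ∀ i ∈ I, pr (Sn n) (A i) ≤ (1 - q) ^ K * (C * (R : ℝ) ^ (-(1 / 4) : ℝ)) := by
    rintro ⟨v, d⟩ hi
    rw [hI, mem_product, hV, mem_filter] at hi
    have h1 := hdB v hi.1.2
    have h2 : QF (phiV v) ((R : ℤ) + 80 * r * K) ⊆ Sn n := BR_phiV_sub (by omega)
    refine (htail r R (phiV v) d K (by simp [phiV]; omega) (by exact_mod_cast hr)
      (by exact_mod_cast hrR) _ h2).trans ?_
    exact mul_le_mul_of_nonneg_left (hp2 R hR).2 (pow_nonneg (by linarith) _)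
  have hcardI : (I.card : ℝ) ≤ 16 * (n : ℝ) ^ 2 := by
    have h1 : I.card ≤ (n + 1) * (n + 1) * 4 := by
      rw [hI, card_product, card_univ, Fintype.card_fin]
      refine Nat.mul_le_mul_right _ ((card_filter_le _ _).trans ?_)
      rw [card_product, Int.card_Icc]
      have : ((n : ℤ) + 1 - 0).toNat = n + 1 := by omega
      rw [this]
    have h2 : (I.card : ℝ) ≤ ((n : ℝ) + 1) * ((n : ℝ) + 1) * 4 := by exact_mod_cast h1
    nlinarith
  -- Markov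
  have hn74 : (0 : ℝ) < (n : ℝ) ^ (7 / 4 : ℝ) := Real.rpow_pos_of_pos hn0 _
  have hmark : pr (Sn n) {ω | c * (n : ℝ) ^ (7 / 4 : ℝ) ≤ ((I.filter fun i => ω ∈ A i).card : ℝ)} ≤
      ε / 2 := by
    refine (pr_count_le (Sn n) I A (by positivity)).trans ?_
    rw [div_le_iff₀ (by positivity)]
    refine (Finset.sum_le_sum hone).trans ?_
    rw [sum_const, nsmul_eq_mul]
    have hR0 : (0 : ℝ) < R := by exact_mod_cast hR
    have h1 : (R : ℝ) ^ (-(1 / 4) : ℝ) ≤ (c' / 4) ^ (-(1 / 4) : ℝ) * (n : ℝ) ^ (-(1 / 4) : ℝ) := by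
      rw [← Real.mul_rpow (by positivity) hn0.le]
      exact Real.rpow_le_rpow_of_nonpos (by positivity) (by linarith) (by norm_num)
    have h2 : (n : ℝ) ^ 2 * (n : ℝ) ^ (-(1 / 4) : ℝ) = (n : ℝ) ^ (7 / 4 : ℝ) := by
      rw [← Real.rpow_natCast (n : ℝ) 2, ← Real.rpow_add hn0]
      norm_num
    have hqK : 0 ≤ (1 - q) ^ K := pow_nonneg (by linarith) _
    calc (I.card : ℝ) * ((1 - q) ^ K * (C * (R : ℝ) ^ (-(1 / 4) : ℝ)))
        ≤ (16 * (n : ℝ) ^ 2) * ((1 - q) ^ K * (C * ((c' / 4) ^ (-(1 / 4) : ℝ) *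
            (n : ℝ) ^ (-(1 / 4) : ℝ)))) := by
          refine mul_le_mul hcardI ?_ (by positivity) (by positivity)
          exact mul_le_mul_of_nonneg_left (mul_le_mul_of_nonneg_left h1 hC.le) hqK
      _ = 16 * (C * (c' / 4) ^ (-(1 / 4) : ℝ)) * (1 - q) ^ K *
            ((n : ℝ) ^ 2 * (n : ℝ) ^ (-(1 / 4) : ℝ)) := by ring
      _ = (M * (1 - q) ^ K) * (c * (n : ℝ) ^ (7 / 4 : ℝ)) := by
          rw [h2, hM]
          field_simp
      _ ≤ ε / 2 * (c * (n : ℝ) ^ (7 / 4 : ℝ)) :=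
          mul_le_mul_of_nonneg_right hK (by positivity)
  -- the union
  set G : Set (Finset Edg) := {T | ¬ (k₀ * n ≤ Metric.diam (clS T (sel n T)) ∧
    c * (n : ℝ) ^ (7 / 4 : ℝ) ≤ ({v | v ∈ OutV T (sel n T) ∧ Bulk n (κ * n) v}).ncard)} with hG
  rw [← PercX60.pr_Sn] at hn ⊢
  have hsub : {ω | cfgE n ω ∈ {T | outerLoop n T (sel n T) ∉ Loop.Dbl (c' / (800 * (K + 1)))}} ⊆
      {ω | cfgE n ω ∈ G} ∪
        {ω | c * (n : ℝ) ^ (7 / 4 : ℝ) ≤ ((I.filter fun i => ω ∈ A i).card : ℝ)} := by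
    intro ω hω
    by_cases hg : cfgE n ω ∈ G
    · exact Or.inl hg
    right
    have hg' : k₀ * n ≤ Metric.diam (clS (cfgE n ω) (sel n (cfgE n ω))) ∧
        c * (n : ℝ) ^ (7 / 4 : ℝ) ≤ ({v | v ∈ OutV (cfgE n ω) (sel n (cfgE n ω)) ∧
          Bulk n (κ * n) v}).ncard := by
      by_contra hcon
      exact hg hcon
    obtain ⟨hD, hcount⟩ := hg'
    refine hcount.trans ?_
    have himg : {v | v ∈ OutV (cfgE n ω) (sel n (cfgE n ω)) ∧ Bulk n (κ * n) v} ⊆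
        (((I.filter fun i => ω ∈ A i).image Prod.fst : Finset (ℤ × ℤ)) : Set (ℤ × ℤ)) := by
      rintro v ⟨hv, hvB⟩
      obtain ⟨k, hk, rfl⟩ := exists_cor hv
      obtain ⟨d, hd⟩ := exists_dir k
      have h1 := hdB _ hvB
      have hB0 : (0 : ℤ) ≤ B := by
        rw [hBdef]
        positivity
      have h2 : ω ∈ NoPin (gV k) d R r K := by
        refine noPin_of hn1 hk hd hD (by exact_mod_cast hr) (by exact_mod_cast hR) (by omega) ?_ hη hω
        rw [← hBdef]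
        nlinarith
      rw [mem_coe, mem_image]
      refine ⟨(vtx k, d), ?_, rfl⟩
      rw [mem_filter, hI, mem_product, hV, mem_filter, mem_product, mem_Icc, mem_Icc]
      refine ⟨⟨⟨⟨⟨?_, ?_⟩, ?_, ?_⟩, hvB⟩, mem_univ _⟩, h2⟩
      all_goals
        simp only
        unfold dB at h1
        omega
    have h3 := Set.ncard_le_ncard himg (Finset.finite_toSet _)
    rw [Set.ncard_coe_finset] at h3
    have h4 := h3.trans card_image_le
    exact_mod_cast h4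
  refine (pr_mono _ hsub).trans ((pr_union_le _ _ _).trans ?_)
  linarith

end Pool.Agent.PercP

end PartperdpPinFinal

section PartpercdB3

/-!
# Part D: the estimate B3 in the box
-/

set_option autoImplicit false

namespace Pool.Agent.PercD

open Finset Filter Topology Pool.Agent.Perc
open Pool.Agent.MP_6bd702.H23 (Ed)
open Pool.Agent.PercU (Cor vtx fce)
open Pool.Agent.PercO (Orb sd Kc Oc mem_Oc orb_eq_Oc)
open Pool.Agent.PercX60 (gV gF gB gT phiF dB TA Sn)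
open Pool.Agent.PercW (kap ua_kap joins_kap Lay mem_Lay LayX LayY kap_injective)

namespace B3

variable {n : ℕ} {u : ℤ × ℤ} {k : Cor} {ω : Cfg}

theorem BR_phiV_sub {v : ℤ × ℤ} {R : ℤ} (hR : R + 1 ≤ dB n v) : BR (phiV v) R ⊆ Sn n := by
  have h := BR_kap_sub (n := n) (k := (v.1, v.2, true, true)) (R := R) hR
  have h1 : ua (kap (v.1, v.2, true, true)) = phiV v := by
    simp [kap, ua, phiV]
  rwa [h1] at h

/-- A set of corners has at most four times as many elements as its set of vertices. -/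
theorem ncard_cor_le {S : Set Cor} {V : Set (ℤ × ℤ)} (hV : V.Finite)
    (h : ∀ k ∈ S, vtx k ∈ V) : S.ncard ≤ 4 * V.ncard := by
  have hinj : Function.Injective (fun k : Cor => (vtx k, k.2.2)) := by
    rintro ⟨x, y, a, b⟩ ⟨x', y', a', b'⟩ h
    simp only [vtx, Prod.mk.injEq] at h
    obtain ⟨⟨rfl, rfl⟩, rfl, rfl⟩ := h
    rfl
  have h1 : ((fun k : Cor => (vtx k, k.2.2)) '' S) ⊆ V ×ˢ (Set.univ : Set (Bool × Bool)) := by
    rintro _ ⟨k, hk, rfl⟩
    exact ⟨h k hk, trivial⟩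
  have h2 := Set.ncard_le_ncard h1 (hV.prod Set.finite_univ)
  rw [Set.ncard_image_of_injective _ hinj, Set.ncard_prod, Set.ncard_univ] at h2
  have h3 : Nat.card (Bool × Bool) = 4 := by simp
  rw [h3] at h2
  omega

/-- Many outer vertices. -/
theorem many_outer {R : ℕ} {D m : ℝ} (hk : k ∈ Oc (cfgE n ω : Set Ed) u) (hD0 : 0 < D)
    (hD : D ≤ Metric.diam (clS (cfgE n ω) u)) (hR : 2 * (R : ℤ) + 2 ≤ dB n (vtx k))
    (hR1 : 1 ≤ R) (hm : m < ((MM ω (BR (ua (kap k)) R) (kap k)).ncard : ℝ)) {κ : ℝ} (hκ : κ ≤ R) :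
    m / 4 ≤ (({v | v ∈ OutV (cfgE n ω) u ∧ Bulk n κ v} : Set (ℤ × ℤ)).ncard : ℝ) := by
  set T : Set Ed := (cfgE n ω : Set Ed) with hT
  have hTsub : T ⊆ (Pool.Agent.MP_6bd702.H23.EW 0 (n : ℤ) 0 n : Set Ed) :=
    PercO.boxE_sub (Finset.filter_subset _ _)
  set V : Set (ℤ × ℤ) := {v | v ∈ OutV (cfgE n ω) u ∧ Bulk n κ v} with hVdef
  have hVfin : V.Finite := by
    refine ((cfgE n ω).image tl ∪ (cfgE n ω).image hd).finite_toSet.subset fun v hv => ?_
    obtain ⟨⟨e, he, -, -, h⟩, -⟩ := hv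
    rw [mem_coe, mem_union, mem_image, mem_image]
    rcases h with h | h
    · exact Or.inl ⟨e, he, h.symm⟩
    · exact Or.inr ⟨e, he, h.symm⟩
  set S : Set Cor := {k' | kap k' ∈ MM ω (BR (ua (kap k)) R) (kap k)} with hS
  have hSV : ∀ k' ∈ S, vtx k' ∈ V := by
    intro k' hk'
    have hk'' : kap k' ∈ MM ω (BR (ua (kap k)) R) (kap k) := hk'
    have hR' : (R : ℤ) + 1 ≤ dB n (vtx k) := by
      have : (0 : ℤ) ≤ R := Int.natCast_nonneg R
      omega
    obtain ⟨k2, hk2, h2⟩ := mem_orb_of_MM hR' hk''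
    have h3 : k2 = k' := kap_injective h2
    rw [h3, ← hT, orb_eq_Oc hTsub hk] at hk2
    refine ⟨outV_of_cor (lt_of_lt_of_le hD0 hD) hk2, ?_⟩
    -- the distance
    have hin : InE (ua (kap k)) R (kap k) := LTail.inE_self _ (by exact_mod_cast hR1)
    have hin2 : InE (ua (kap k)) R (kap k') := MM_inE hin hk''
    have hgg : (ua (kap k)).1 - R ≤ (ua (kap k')).1 ∧ (ua (kap k')).1 ≤ (ua (kap k)).1 + R ∧
        (ua (kap k)).2 - R ≤ (ua (kap k')).2 ∧ (ua (kap k')).2 ≤ (ua (kap k)).2 + R := by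
      unfold InE InR at hin2
      omega
    have hd1 : (vtx k).1 - (R + 1) ≤ (vtx k').1 ∧ (vtx k').1 ≤ (vtx k).1 + (R + 1) ∧
        (vtx k).2 - (R + 1) ≤ (vtx k').2 ∧ (vtx k').2 ≤ (vtx k).2 + (R + 1) := by
      obtain ⟨x, y, _ | _, _ | _⟩ := k <;> obtain ⟨x', y', _ | _, _ | _⟩ := k' <;>
        simp [kap, ua, vtx] at hgg ⊢ <;> omega
    unfold dB at hR
    have h5 : (R : ℤ) ≤ (vtx k').1 ∧ (vtx k').1 + R ≤ n ∧ (R : ℤ) ≤ (vtx k').2 ∧
        (vtx k').2 + R ≤ n := by omega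
    have h6 : ((R : ℤ) : ℝ) ≤ (vtx k').1 ∧ ((vtx k').1 : ℝ) + ((R : ℤ) : ℝ) ≤ n ∧
        ((R : ℤ) : ℝ) ≤ (vtx k').2 ∧ ((vtx k').2 : ℝ) + ((R : ℤ) : ℝ) ≤ n := by
      exact_mod_cast h5
    obtain ⟨h7, h8, h9, h10⟩ := h6
    rw [Int.cast_natCast] at h7 h8 h9 h10
    exact ⟨by linarith, by linarith, by linarith, by linarith⟩
  have h1 := ncard_cor_le hVfin hSV
  have h2 : (MM ω (BR (ua (kap k)) R) (kap k)).ncard = S.ncard := by
    have h3 : kap '' S = MM ω (BR (ua (kap k)) R) (kap k) := by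
      ext a
      constructor
      · rintro ⟨k', hk', rfl⟩
        exact hk'
      · intro ha
        obtain ⟨k', rfl⟩ := kap_surjective a
        exact ⟨k', ha, rfl⟩
    rw [← h3, Set.ncard_image_of_injective _ kap_injective]
  rw [h2] at hm
  have h4 : ((S.ncard : ℕ) : ℝ) ≤ 4 * (V.ncard : ℝ) := by exact_mod_cast h1
  linarith

/-- The centres. -/
noncomputable def Cen (n M s d : ℕ) : Finset (ℕ × ℕ) :=
  (range (M + 1) ×ˢ range (M + 1)).filter fun p => 2 * (d : ℤ) + 1 ≤ dB n ((p.1 * s : ℤ), (p.2 * s : ℤ))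

theorem card_Cen_le (n M s d : ℕ) : ((Cen n M s d).card : ℝ) ≤ ((M : ℝ) + 1) ^ 2 := by
  have h : (Cen n M s d).card ≤ (M + 1) * (M + 1) := by
    refine (card_filter_le _ _).trans ?_
    rw [card_product, card_range]
  have h2 : ((Cen n M s d).card : ℝ) ≤ (((M + 1) * (M + 1) : ℕ) : ℝ) := by exact_mod_cast h
  push_cast at h2
  linarith [h2]

/-- The deterministic part. -/
theorem det {M s d : ℕ} {w E : ℤ} {D m : ℝ} (hu : u ∈ Box n) (hD0 : 0 < D)
    (hD : D ≤ Metric.diam (clS (cfgE n ω) u)) (hE : (E : ℝ) ≤ D / 2)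
    (hX : (cfgE n ω : Set Ed) ∉ LayX n w E) (hY : (cfgE n ω : Set Ed) ∉ LayY n w E)
    (hd : 1 ≤ d) (hs : 1 ≤ s) (hsd : 2 * s + 1 ≤ d) (hw : 3 * (d : ℤ) + 3 ≤ w)
    (hdD : 4 * ((d : ℝ) + 2) ≤ D) (hM : n ≤ M * s)
    (hbad : ∀ p ∈ Cen n M s d, ω ∉ Bad (phiV ((p.1 * s : ℤ), (p.2 * s : ℤ))) d m) {κ : ℝ}
    (hκ : κ ≤ d) :
    m / 4 ≤ (({v | v ∈ OutV (cfgE n ω) u ∧ Bulk n κ v} : Set (ℤ × ℤ)).ncard : ℝ) := by
  have hTb : cfgE n ω ⊆ boxE n := Finset.filter_subset _ _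
  obtain ⟨k, hk, hkl, -⟩ := PercW.exists_inner_corner hTb hu hD0 hD hE hX hY
  have hbox : vtx k ∈ Box n := by
    refine BoxAux.clV_subset_box hTb hu ?_
    rw [PercO.clV_eq]
    exact hk.1
  have hb : 0 ≤ (vtx k).1 ∧ (vtx k).1 ≤ n ∧ 0 ≤ (vtx k).2 ∧ (vtx k).2 ≤ n := by
    unfold Box at hbox
    rw [mem_product, mem_Icc, mem_Icc] at hbox
    omega
  rw [mem_Lay] at hkl
  have hdB : w ≤ dB n (vtx k) := by
    unfold dB
    push Not at hkl
    have := hkl hb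
    omega
  -- the centre
  have hs0 : (0 : ℤ) < s := by exact_mod_cast hs
  have hMs : ((n : ℕ) : ℤ) ≤ M * s := by exact_mod_cast hM
  set i := (vtx k).1 / (s : ℤ) with hi
  set j := (vtx k).2 / (s : ℤ) with hj
  have h1 := Int.emod_add_mul_ediv (vtx k).1 s
  have h2 := Int.emod_nonneg (vtx k).1 hs0.ne'
  have h3 := Int.emod_lt_of_pos (vtx k).1 hs0
  have h4 := Int.emod_add_mul_ediv (vtx k).2 s
  have h5 := Int.emod_nonneg (vtx k).2 hs0.ne'
  have h6 := Int.emod_lt_of_pos (vtx k).2 hs0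
  rw [← hi] at h1
  rw [← hj] at h4
  have hi0 : 0 ≤ i := Int.ediv_nonneg hb.1 hs0.le
  have hj0 : 0 ≤ j := Int.ediv_nonneg hb.2.2.1 hs0.le
  have hiM : i ≤ M := by
    by_contra hcon
    push Not at hcon
    have : (M : ℤ) * s + s ≤ s * i := by nlinarith
    omega
  have hjM : j ≤ M := by
    by_contra hcon
    push Not at hcon
    have : (M : ℤ) * s + s ≤ s * j := by nlinarith
    omega
  have hsdz : 2 * (s : ℤ) + 1 ≤ d := by exact_mod_cast hsd
  have hci : ((i.toNat : ℕ) : ℤ) = i := Int.toNat_of_nonneg hi0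
  have hcj : ((j.toNat : ℕ) : ℤ) = j := Int.toNat_of_nonneg hj0
  have hp : (i.toNat, j.toNat) ∈ Cen n M s d := by
    unfold Cen
    rw [mem_filter, mem_product, mem_range, mem_range]
    refine ⟨⟨by omega, by omega⟩, ?_⟩
    simp only
    rw [hci, hcj, mul_comm i, mul_comm j]
    unfold dB at hdB ⊢
    simp only
    omega
  have hb1 := hbad _ hp
  simp only at hb1
  rw [hci, hcj] at hb1
  have hin : InE (phiV (i * s, j * s)) d (kap k) := by
    refine kap_inE k (d := s) ?_ ?_ (by omega)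
    · simp only
      rw [abs_le, mul_comm i]
      omega
    · simp only
      rw [abs_le, mul_comm j]
      omega
  have hR : ω ∈ Rch (ua (kap k)) (d : ℤ) (kap k) :=
    Rch_of_outer hk hD (by omega) (by exact_mod_cast hd) (by exact_mod_cast hdD)
  have hm : m < ((MM ω (BR (ua (kap k)) d) (kap k)).ncard : ℝ) := by
    by_contra hcon
    push Not at hcon
    exact hb1 ⟨kap k, hin, hR, hcon⟩
  exact many_outer hk hD0 hD (by omega) hd hm hκ

/-- The union bound. -/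
theorem pr_bad_le {M s d : ℕ} {m η : ℝ}
    (h : ∀ v : ℤ × ℤ, pr (BR v (2 * d)) (Bad v d m) ≤ η) (hη : 0 ≤ η) :
    pr (Sn n) (⋃ p ∈ Cen n M s d, Bad (phiV ((p.1 * s : ℤ), (p.2 * s : ℤ))) d m) ≤
      ((M : ℝ) + 1) ^ 2 * η := by
  refine (pr_biUnion_le _ _ _).trans ?_
  have h1 : ∀ p ∈ Cen n M s d, pr (Sn n) (Bad (phiV ((p.1 * s : ℤ), (p.2 * s : ℤ))) d m) ≤ η := by
    intro p hp
    unfold Cen at hp
    rw [mem_filter] at hp
    rw [pr_eq_of_depOn (depOn_Bad _ _ _) (BR_phiV_sub hp.2)]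
    exact h _
  refine (sum_le_sum h1).trans ?_
  rw [sum_const, nsmul_eq_mul]
  exact mul_le_mul_of_nonneg_right (card_Cen_le n M s d) hη

end B3

theorem targetB3 (hU : UpperHyp) (hT : TailHyp) :
    TargetB3 := by
  intro ε hε
  obtain ⟨k₀, hk₀, hdiam⟩ := diam_small (ε / 3) (by positivity)
  obtain ⟨κ₁, hκ₁, hlay⟩ := lay_small (k₀ / 4) (ε / 3) (by positivity) (by positivity)
  set c₂ : ℝ := min (κ₁ / 4) (k₀ / 8) with hc₂
  have hc₂0 : 0 < c₂ := by positivity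
  set M : ℕ := ⌈4 / c₂⌉₊ with hM
  obtain ⟨x₀, hx₀, hlt⟩ := lt_bound hU hT (η := ε / 3 / ((M : ℝ) + 1) ^ 2) (by positivity)
  refine ⟨c₂ / 2, k₀, x₀ * (c₂ / 2) ^ (7 / 4 : ℝ) / 4, by positivity, hk₀, by positivity, ?_⟩
  intro sel hsel
  filter_upwards [hdiam, hlay, eventually_ge_atTop (max ⌈24 / c₂⌉₊ 1)] with n h1 h2 h3
  have hn1 : (1 : ℝ) ≤ n := by
    have : 1 ≤ n := (le_max_right _ _).trans h3
    exact_mod_cast this
  have hn2 : 24 ≤ c₂ * n := by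
    have h4 : 24 / c₂ ≤ n := by
      refine (Nat.le_ceil _).trans ?_
      exact_mod_cast (le_max_left _ _).trans h3
    rw [div_le_iff₀ hc₂0] at h4
    linarith
  have hn0 : (0 : ℝ) < n := by linarith
  set d : ℕ := ⌊c₂ * n⌋₊ with hd
  have hd1 : (d : ℝ) ≤ c₂ * n := Nat.floor_le (by positivity)
  have hd2 : c₂ * n < d + 1 := Nat.lt_floor_add_one _
  set s : ℕ := (d - 1) / 2 with hs
  have hd24 : 23 < d := by
    have : (23 : ℝ) < d := by linarith
    exact_mod_cast this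
  have hs1 : d ≤ 2 * s + 2 := by omega
  have hs2 : 2 * s + 1 ≤ d := by omega
  have hs3 : (d : ℝ) ≤ 2 * s + 2 := by exact_mod_cast hs1
  have hs4 : c₂ * n / 4 ≤ s := by linarith
  set w : ℤ := ⌊κ₁ * n⌋ with hw
  have hw1 : (w : ℝ) ≤ κ₁ * n := Int.floor_le _
  have hw2 : κ₁ * n < w + 1 := Int.lt_floor_add_one _
  set E : ℤ := ⌊k₀ * n / 2⌋ with hE
  have hE1 : (E : ℝ) ≤ k₀ * n / 2 := Int.floor_le _
  have hE2 : k₀ * n / 2 < E + 1 := Int.lt_floor_add_one _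
  have hc4 : c₂ ≤ κ₁ / 4 := min_le_left _ _
  have hc8 : c₂ ≤ k₀ / 8 := min_le_right _ _
  have hc4n : c₂ * n ≤ κ₁ * n / 4 := by nlinarith
  have hc8n : c₂ * n ≤ k₀ * n / 8 := by nlinarith
  have hlay' := h2 w E hw1 (by linarith)
  have hM1 : n ≤ M * s := by
    have h4 : 4 / c₂ ≤ M := Nat.le_ceil _
    have h5 : (n : ℝ) ≤ M * s := by
      calc (n : ℝ) = 4 / c₂ * (c₂ * n / 4) := by field_simp
        _ ≤ M * s := mul_le_mul h4 hs4 (by positivity) (by positivity)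
    exact_mod_cast h5
  have hwd : 3 * (d : ℤ) + 3 ≤ w := by
    have h4 : (3 * (d : ℝ) + 3) < (w : ℝ) + 1 := by linarith
    have h5 : (3 * (d : ℤ) + 3) < w + 1 := by exact_mod_cast h4
    omega
  have hbad := B3.pr_bad_le (n := n) (M := M) (s := s) (d := d)
    (m := x₀ * (d : ℝ) ^ (7 / 4 : ℝ)) (fun v => hlt v d (by omega)) (by positivity)
  have hbad' : ((M : ℝ) + 1) ^ 2 * (ε / 3 / ((M : ℝ) + 1) ^ 2) = ε / 3 := by
    field_simp
  rw [hbad'] at hbad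
  set G1 : Set (Finset Edg) := {T | ∀ v ∈ Box n, Metric.diam (clS T v) < k₀ * n} with hG1
  set G2 : Set (Finset Edg) := {T | (T : Set Ed) ∈ LayX n w E ∨ (T : Set Ed) ∈ LayY n w E} with hG2
  set G3 : Set Cfg := ⋃ p ∈ B3.Cen n M s d, Bad (phiV ((p.1 * s : ℤ), (p.2 * s : ℤ))) d
    (x₀ * (d : ℝ) ^ (7 / 4 : ℝ)) with hG3
  rw [← PercX60.pr_Sn] at h1 hlay' ⊢
  refine le_trans (pr_mono _ (B := {ω | cfgE n ω ∈ G1} ∪ ({ω | cfgE n ω ∈ G2} ∪ G3)) ?_)
    ((pr_union_le _ _ _).trans ?_)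
  · intro ω hω
    by_contra hcon
    rw [Set.mem_union, Set.mem_union] at hcon
    push Not at hcon
    obtain ⟨hc1, hc2, hc3⟩ := hcon
    refine hω ?_
    have hTb : cfgE n ω ⊆ boxE n := Finset.filter_subset _ _
    obtain ⟨hs5, hs6⟩ := hsel n (cfgE n ω) hTb
    have hdm : k₀ * n ≤ Metric.diam (clS (cfgE n ω) (sel n (cfgE n ω))) := by
      by_contra hlt'
      push Not at hlt'
      exact hc1 fun v hv => lt_of_le_of_lt (hs6 v hv) hlt'
    refine ⟨hdm, ?_⟩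
    rw [Set.mem_ofPred_eq, hG2, Set.mem_ofPred_eq, not_or] at hc2
    have h4 := B3.det (n := n) (ω := ω) (u := sel n (cfgE n ω)) (M := M) (s := s) (d := d) (w := w)
      (E := E) (D := k₀ * n) (m := x₀ * (d : ℝ) ^ (7 / 4 : ℝ)) hs5 (by positivity) hdm
      (by linarith) hc2.1 hc2.2 (by omega) (by omega) hs2 hwd (by linarith) hM1 ?_
      (κ := c₂ / 2 * n) (by linarith)
    · refine le_trans ?_ h4
      have h5 : (c₂ / 2 * n) ^ (7 / 4 : ℝ) ≤ (d : ℝ) ^ (7 / 4 : ℝ) :=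
        Real.rpow_le_rpow (by positivity) (by linarith) (by norm_num)
      rw [Real.mul_rpow (by positivity) hn0.le] at h5
      calc x₀ * (c₂ / 2) ^ (7 / 4 : ℝ) / 4 * (n : ℝ) ^ (7 / 4 : ℝ)
          = x₀ * ((c₂ / 2) ^ (7 / 4 : ℝ) * (n : ℝ) ^ (7 / 4 : ℝ)) / 4 := by ring
        _ ≤ x₀ * (d : ℝ) ^ (7 / 4 : ℝ) / 4 := by
            have := mul_le_mul_of_nonneg_left h5 hx₀.le
            linarith
    · intro p hp hb
      refine hc3 ?_
      rw [hG3]
      exact Set.mem_biUnion hp hb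
  · have h6 := pr_union_le (Sn n) {ω | cfgE n ω ∈ G2} G3
    linarith

end Pool.Agent.PercD

end PartpercdB3
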