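import Pool.Agent.Lib.MP_6bd702_z.Z011
import Pool.Agent.Lib.MP_6bd702_z.Z008
import Pool.Agent.Lib.MP_6bd702_z.Z020
import Pool.Agent.Lib.MP_6bd702_z.Z111
import Pool.Agent.Lib.MP_6bd702_z.Z113
import Pool.Agent.Lib.MP_6bd702_z.Z042
import Pool.Agent.Lib.MP_6bd702_z.WeakMain

/-!
# Part D: every subsequential scaling limit of the outer perimeter has dimension `7 / 4` and is not
self-avoiding
-/

set_option autoImplicit false

namespace Pool.Agent.PercD

open Pool.Agent.Perc

theorem upperHyp : UpperHyp := by
  obtain ⟨C, -, h⟩ := PercT.p2_le_quarter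
  exact upperHyp_of_p2 h

theorem tailHyp : TailHyp := tailHyp_of p2Bounds

theorem targetB3_holds : TargetB3 := targetB3 upperHyp tailHyp

theorem targetTrace_holds : TargetTrace :=
  Pool.Agent.Perc.PercD.targetTrace_of (targetB1 upperHyp tailHyp) (targetB2 upperHyp tailHyp)
    targetB3_holds

theorem targetDbl_holds : TargetDbl := PercP.targetDbl_of p2Bounds targetB3_holds

theorem targetCurve_holds : TargetCurve := targetCurve_of targetTrace_holds targetDbl_holds

theorem targetTight_holds : TargetTight := targetTight_of_hyp upperHyp tailHyp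

theorem targetExist_holds : TargetExist := targetExist_of_hyp upperHyp tailHyp

end Pool.Agent.PercD
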