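import Pool.Agent.Lib.MP_6bd702_z.Z095

/-!
# The pairing of states: capping (task PairA)
-/

set_option autoImplicit false

namespace Pool.Agent.Perc

open Finset

variable {N : ℕ} {s s' : St}

theorem IsAnn.label_partner (h : IsAnn N s) {x : ℕ} (hx : x < N) : s.2 (s.1 x) = s.2 x := by
  obtain ⟨g, -, hg⟩ := h.mark
  have e1 := hg x hx
  have e2 := hg (s.1 x) (h.nc.lt x hx)
  rw [h.nc.inv x] at e2
  have e3 : s.2 (s.1 x) = true ↔ s.2 x = true := by
    rw [e1, e2]
    exact not_congr ⟨Iff.symm, Iff.symm⟩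
  exact Bool.eq_iff_iff.2 e3

namespace PairA

theorem capL_eq_of (h : IsAnn N s') {i : ℕ} (hi : i ≤ N) (he : eL i s = insL i s') :
    Perc.capL i s = s' := by
  have h1 : eAct i s.1 = insArc i s'.1 := congrArg Prod.fst he
  refine Prod.ext ?_ ?_
  · show delArc i (eAct i s.1) = s'.1
    rw [h1, delArc_insArc h.nc hi]
  · funext x
    show (eL i s).2 (if x < i then x else x + 2) = s'.2 x
    rw [he]
    by_cases hx : x < i
    · rw [if_pos hx]
      show (if x = i ∨ x = i + 1 then false else s'.2 (if x < i then x else x - 2)) = s'.2 x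
      rw [if_neg (by omega), if_pos hx]
    · rw [if_neg hx]
      show (if x + 2 = i ∨ x + 2 = i + 1 then false
        else s'.2 (if x + 2 < i then x + 2 else x + 2 - 2)) = s'.2 x
      rw [if_neg (by omega), if_neg (by omega), Nat.add_sub_cancel]

theorem exists_cap (h : IsAnn (N + 2) s) {i : ℕ} (hi : i ≤ N) :
    ∃ s', IsAnn N s' ∧ eL i s = Perc.insL i s' := by
  refine (h.eL (i := i) (by omega)).exists_del hi ?_ ?_
  · show eAct i s.1 i = i + 1
    unfold eAct
    rw [if_pos rfl]
  · show (if i = i ∨ i = i + 1 then false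
      else if s.1 i = i ∨ s.1 i = i + 1 then xor (s.2 i) (s.2 (i + 1)) else s.2 i) = false
    rw [if_pos (Or.inl rfl)]

end PairA

theorem IsAnn.capL (h : IsAnn (N + 2) s) {i : ℕ} (hi : i ≤ N) : IsAnn N (capL i s) := by
  obtain ⟨s', h', he⟩ := PairA.exists_cap h hi
  rw [PairA.capL_eq_of h' hi he]
  exact h'

theorem insL_capL (h : IsAnn (N + 2) s) {i : ℕ} (hi : i ≤ N) : insL i (capL i s) = eL i s := by
  obtain ⟨s', h', he⟩ := PairA.exists_cap h hi
  rw [PairA.capL_eq_of h' hi he, he]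

theorem capL_insL (h : IsAnn N s) {i : ℕ} (hi : i ≤ N) : capL i (insL i s) = s :=
  PairA.capL_eq_of h hi (eL_insL_self h hi)

theorem capL_eL (h : IsAnn (N + 2) s) {i : ℕ} (hi : i ≤ N) : capL i (eL i s) = capL i s := by
  obtain ⟨s', h', he⟩ := PairA.exists_cap h hi
  rw [PairA.capL_eq_of h' hi he, PairA.capL_eq_of h' hi (by rw [eL_idem h (by omega), he])]

end Pool.Agent.Perc
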