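import Pool.Agent.Lib.MP_6bd702_z.Pre

section PartpercPatDefs

/-!
# Link patterns: definitions

A link pattern of the sites `0, …, N - 1` is a map `p : ℕ → ℕ` (partner of a site), the identity
outside. The gap `g` (`0 ≤ g ≤ N`) is between the sites `g - 1` and `g`.
-/

set_option autoImplicit false

namespace Pool.Agent.Perc

variable {N : ℕ} {p : ℕ → ℕ}

/-- The Temperley-Lieb generator at the sites `i`, `i + 1`. -/
def eAct (i : ℕ) (p : ℕ → ℕ) : ℕ → ℕ := fun x =>
  if x = i then i + 1 else if x = i + 1 then i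
  else if p x = i then p (i + 1) else if p x = i + 1 then p i else p x

/-- Noncrossing perfect matchings of the sites `0, …, N - 1`. -/
structure NC (N : ℕ) (p : ℕ → ℕ) : Prop where
  lt : ∀ x < N, p x < N
  inv : ∀ x, p (p x) = x
  ne : ∀ x < N, p x ≠ x
  out : ∀ x, N ≤ x → p x = x
  nc : ∀ x y, x < y → y < p x → x < p y ∧ p y < p x

/-- The gaps `g` and `g'` are in the same region: no arc separates them. -/
def Geq (N : ℕ) (p : ℕ → ℕ) (g g' : ℕ) : Prop :=
  ∀ x < N, ((x < g ↔ p x < g) ↔ (x < g' ↔ p x < g'))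

/-- Add a small arc at the sites `i`, `i + 1` (the old sites from `i` on are shifted by two). -/
def insArc (i : ℕ) (p : ℕ → ℕ) : ℕ → ℕ := fun x =>
  if x = i then i + 1 else if x = i + 1 then i
  else
    let y := p (if x < i then x else x - 2)
    if y < i then y else y + 2

/-- Remove the small arc at the sites `i`, `i + 1`. -/
def delArc (i : ℕ) (p : ℕ → ℕ) : ℕ → ℕ := fun x =>
  let y := p (if x < i then x else x + 2)
  if y < i then y else y - 2

/-- Add an outer arc from the new site `0` to the new site `N + 1`. -/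
def cupO (N : ℕ) (p : ℕ → ℕ) : ℕ → ℕ := fun x =>
  if x = 0 then N + 1 else if x = N + 1 then 0 else if x < N + 1 then p (x - 1) + 1 else x

/-- Rotation by one site to the left. -/
def rotP (N : ℕ) (p : ℕ → ℕ) : ℕ → ℕ := fun x =>
  if x < N then
    let y := p (if x + 1 = N then 0 else x + 1)
    if y = 0 then N - 1 else y - 1
  else x

/-- The nested pattern of `2 m` sites. -/
def nest (m : ℕ) : ℕ → ℕ := fun x => if x < 2 * m then 2 * m - 1 - x else x

/-- Restriction to the first `L` sites. -/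
def resP (L : ℕ) (p : ℕ → ℕ) : ℕ → ℕ := fun x => if x < L then p x else x

/-- The flat pattern of `N` sites with the arc `d — N - 1` and small arcs elsewhere
(`N` and `d` even). -/
def flatP (d N : ℕ) : ℕ → ℕ := fun x =>
  if N ≤ x then x else if x = d then N - 1 else if x = N - 1 then d
  else if x < d then (if x % 2 = 0 then x + 1 else x - 1)
  else (if x % 2 = 1 then x + 1 else x - 1)

/-- The pattern of `L` sites (`L` even) with the small arcs `(0, 1), (2, 3), …`. -/
def flatE (L : ℕ) : ℕ → ℕ := fun x =>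
  if L ≤ x then x else if x % 2 = 0 then x + 1 else x - 1

theorem Geq.refl (N : ℕ) (p : ℕ → ℕ) (g : ℕ) : Geq N p g g := fun _ _ => Iff.rfl

theorem Geq.symm {g g' : ℕ} (h : Geq N p g g') : Geq N p g' g := fun x hx => (h x hx).symm

theorem Geq.trans {g g' g'' : ℕ} (h : Geq N p g g') (h' : Geq N p g' g'') : Geq N p g g'' :=
  fun x hx => (h x hx).trans (h' x hx)

end Pool.Agent.Perc

end PartpercPatDefs

section PartpercPatA

/-!
# Link patterns: generators and regions (task PatA)
-/

set_option autoImplicit false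

namespace Pool.Agent.Perc

variable {N : ℕ} {p : ℕ → ℕ}

namespace PatA

/-- `t` is strictly between `x` and `y` -/
def Bt (x y t : ℕ) : Prop := (x < t ∧ t < y) ∨ (y < t ∧ t < x)

end PatA

open PatA

theorem NC.swap (h : NC N p) {x y : ℕ} : p x = y ↔ p y = x :=
  ⟨fun e => by rw [← e, h.inv], fun e => by rw [← e, h.inv]⟩

theorem NC.btw (h : NC N p) {s t : ℕ} (ht : Bt s (p s) t) : Bt s (p s) (p t) := by
  rcases ht with ht | ht
  · exact Or.inl (h.nc s t ht.1 ht.2)
  · have := h.nc (p s) t ht.1 (by rw [h.inv]; exact ht.2)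
    rw [h.inv] at this
    exact Or.inr this

theorem NC.of_btw (h1 : ∀ x < N, p x < N) (h2 : ∀ x, p (p x) = x) (h3 : ∀ x < N, p x ≠ x)
    (h4 : ∀ x, N ≤ x → p x = x) (h5 : ∀ s t, Bt s (p s) t → Bt s (p s) (p t)) : NC N p := by
  refine ⟨h1, h2, h3, h4, fun x y hxy hy => ?_⟩
  rcases h5 x y (Or.inl ⟨hxy, hy⟩) with h | h
  · exact h
  · exact absurd (h.1.trans h.2) (by omega)

theorem PatA.btw_xor {a b i y z : ℕ} (h1 : Bt i a y ↔ Bt i a z)
    (h2 : Bt (i + 1) b y ↔ Bt (i + 1) b z) (y1 : y ≠ i) (y2 : y ≠ i + 1) (y3 : y ≠ a)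
    (y4 : y ≠ b) (z1 : z ≠ i) (z2 : z ≠ i + 1) (z3 : z ≠ a) (z4 : z ≠ b)
    (h : Bt a b y) : Bt a b z := by
  unfold Bt at *
  omega

theorem PatA.btw_comm {a b y : ℕ} (h : Bt a b y) : Bt b a y := Or.symm h

/-- values of `eAct` -/
theorem eAct_left (i : ℕ) (p : ℕ → ℕ) : Perc.eAct i p i = i + 1 := by
  unfold Perc.eAct; rw [if_pos rfl]

theorem eAct_right (i : ℕ) (p : ℕ → ℕ) : Perc.eAct i p (i + 1) = i := by
  unfold Perc.eAct; rw [if_neg (by omega), if_pos rfl]

theorem eAct_a {i x : ℕ} (p : ℕ → ℕ) (h1 : x ≠ i) (h2 : x ≠ i + 1) (h3 : p x = i) :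
    Perc.eAct i p x = p (i + 1) := by
  unfold Perc.eAct; rw [if_neg h1, if_neg h2, if_pos h3]

theorem eAct_b {i x : ℕ} (p : ℕ → ℕ) (h1 : x ≠ i) (h2 : x ≠ i + 1) (h3 : p x = i + 1) :
    Perc.eAct i p x = p i := by
  unfold Perc.eAct; rw [if_neg h1, if_neg h2, if_neg (by omega), if_pos h3]

theorem eAct_other {i x : ℕ} (p : ℕ → ℕ) (h1 : x ≠ i) (h2 : x ≠ i + 1) (h3 : p x ≠ i)
    (h4 : p x ≠ i + 1) : Perc.eAct i p x = p x := by
  unfold Perc.eAct; rw [if_neg h1, if_neg h2, if_neg h3, if_neg h4]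

/-- the five kinds of sites -/
theorem PatA.cases (i x : ℕ) (p : ℕ → ℕ) : x = i ∨ x = i + 1 ∨
    (x ≠ i ∧ x ≠ i + 1 ∧ p x = i) ∨ (x ≠ i ∧ x ≠ i + 1 ∧ p x = i + 1) ∨
    (x ≠ i ∧ x ≠ i + 1 ∧ p x ≠ i ∧ p x ≠ i + 1) := by
  omega

theorem NC.eAct (h : NC N p) {i : ℕ} (hi : i + 1 < N) : NC N (eAct i p) := by
  have hli := h.lt i (by omega)
  have hli1 := h.lt (i + 1) hi
  have hni := h.ne i (by omega)
  have hni1 := h.ne (i + 1) hi
  -- in the cases `a`, `b`
  have key1 : ∀ x, x ≠ i → x ≠ i + 1 → p x = i → p i = x ∧ p (i + 1) ≠ i := by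
    intro x h1 h2 h3
    have h4 := h.swap.1 h3
    refine ⟨h4, fun e => ?_⟩
    rw [h.swap, h4] at e
    exact h2 e
  have key2 : ∀ x, x ≠ i → x ≠ i + 1 → p x = i + 1 → p (i + 1) = x ∧ p i ≠ i + 1 := by
    intro x h1 h2 h3
    have h4 := h.swap.1 h3
    refine ⟨h4, fun e => ?_⟩
    rw [h.swap, h4] at e
    exact h1 e
  refine NC.of_btw ?_ ?_ ?_ ?_ ?_
  · intro x hx
    rcases PatA.cases i x p with rfl | rfl | ⟨h1, h2, h3⟩ | ⟨h1, h2, h3⟩ | ⟨h1, h2, h3, h4⟩
    · rw [eAct_left]; exact hi
    · rw [eAct_right]; omega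
    · rw [eAct_a p h1 h2 h3]; exact hli1
    · rw [eAct_b p h1 h2 h3]; exact hli
    · rw [eAct_other p h1 h2 h3 h4]; exact h.lt x hx
  · intro x
    rcases PatA.cases i x p with rfl | rfl | ⟨h1, h2, h3⟩ | ⟨h1, h2, h3⟩ | ⟨h1, h2, h3, h4⟩
    · rw [eAct_left, eAct_right]
    · rw [eAct_right, eAct_left]
    · obtain ⟨h4, h5⟩ := key1 x h1 h2 h3
      rw [eAct_a p h1 h2 h3, eAct_b p h5 hni1 (h.inv _), h4]
    · obtain ⟨h4, h5⟩ := key2 x h1 h2 h3
      rw [eAct_b p h1 h2 h3, eAct_a p hni h5 (h.inv _), h4]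
    · rw [eAct_other p h1 h2 h3 h4, eAct_other p h3 h4 (by rw [h.inv]; exact h1)
        (by rw [h.inv]; exact h2), h.inv]
  · intro x hx
    rcases PatA.cases i x p with rfl | rfl | ⟨h1, h2, h3⟩ | ⟨h1, h2, h3⟩ | ⟨h1, h2, h3, h4⟩
    · rw [eAct_left]; omega
    · rw [eAct_right]; omega
    · rw [eAct_a p h1 h2 h3]
      intro e
      rw [h.swap, h3] at e
      omega
    · rw [eAct_b p h1 h2 h3]
      intro e
      rw [h.swap, h3] at e
      omega
    · rw [eAct_other p h1 h2 h3 h4]; exact h.ne x hx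
  · intro x hx
    have := h.out x hx
    rw [eAct_other p (by omega) (by omega) (by omega) (by omega)]
    exact this
  · intro s t hst
    -- the arcs of `t` versus an old arc
    have hpt : ∀ s, Bt s (p s) t ↔ Bt s (p s) (p t) := fun s =>
      ⟨fun hh => h.btw hh, fun hh => by have := h.btw hh; rwa [h.inv] at this⟩
    rcases PatA.cases i s p with rfl | rfl | ⟨s1, s2, s3⟩ | ⟨s1, s2, s3⟩ | ⟨s1, s2, s3, s4⟩
    · rw [eAct_left] at hst
      exfalso; unfold Bt at hst; omega
    · rw [eAct_right] at hst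
      exfalso; unfold Bt at hst; omega
    · obtain ⟨s4, s5⟩ := key1 s s1 s2 s3
      rw [eAct_a p s1 s2 s3] at hst ⊢
      rcases PatA.cases i t p with rfl | rfl | ⟨t1, t2, t3⟩ | ⟨t1, t2, t3⟩ | ⟨t1, t2, t3, t4⟩
      · rw [eAct_left]; unfold Bt at *; omega
      · rw [eAct_right]; unfold Bt at *; omega
      · exfalso
        have := (key1 t t1 t2 t3).1
        unfold Bt at hst; omega
      · exfalso
        have := (key2 t t1 t2 t3).1
        unfold Bt at hst; omega
      · rw [eAct_other p t1 t2 t3 t4]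
        have e1 := hpt i
        have e2 := hpt (i + 1)
        rw [s4] at e1
        refine PatA.btw_xor e1 e2 t1 t2 ?_ ?_ t3 t4 ?_ ?_ hst
        · rintro rfl; exact t3 s3
        · rintro rfl; exact t4 (h.inv _)
        · intro e; rw [h.swap, s3] at e; exact t1 e.symm
        · intro e
          have := congrArg p e
          rw [h.inv, h.inv] at this
          exact t2 this
    · obtain ⟨s4, s5⟩ := key2 s s1 s2 s3
      rw [eAct_b p s1 s2 s3] at hst ⊢
      rcases PatA.cases i t p with rfl | rfl | ⟨t1, t2, t3⟩ | ⟨t1, t2, t3⟩ | ⟨t1, t2, t3, t4⟩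
      · rw [eAct_left]; unfold Bt at *; omega
      · rw [eAct_right]; unfold Bt at *; omega
      · exfalso
        have := (key1 t t1 t2 t3).1
        unfold Bt at hst; omega
      · exfalso
        have := (key2 t t1 t2 t3).1
        unfold Bt at hst; omega
      · rw [eAct_other p t1 t2 t3 t4]
        have e1 := hpt i
        have e2 := hpt (i + 1)
        rw [s4] at e2
        refine PatA.btw_comm (PatA.btw_xor e1 e2 t1 t2 ?_ ?_ t3 t4 ?_ ?_ (PatA.btw_comm hst))
        · rintro rfl; exact t3 (h.inv _)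
        · rintro rfl; exact t4 s3
        · intro e
          have := congrArg p e
          rw [h.inv, h.inv] at this
          exact t1 this
        · intro e; rw [h.swap, s3] at e; exact t2 e.symm
    · rw [eAct_other p s1 s2 s3 s4] at hst ⊢
      rcases PatA.cases i t p with rfl | rfl | ⟨t1, t2, t3⟩ | ⟨t1, t2, t3⟩ | ⟨t1, t2, t3, t4⟩
      · rw [eAct_left]; unfold Bt at *; omega
      · rw [eAct_right]; unfold Bt at *; omega
      · rw [eAct_a p t1 t2 t3]
        have e1 := h.btw hst
        rw [t3] at e1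
        apply h.btw
        unfold Bt at e1 ⊢; omega
      · rw [eAct_b p t1 t2 t3]
        have e1 := h.btw hst
        rw [t3] at e1
        apply h.btw
        unfold Bt at e1 ⊢; omega
      · rw [eAct_other p t1 t2 t3 t4]
        exact h.btw hst

theorem eAct_of_eq (h : NC N p) {i : ℕ} (hi : i + 1 < N) (hp : p i = i + 1) :
    Perc.eAct i p = p := by
  have _ := hi
  funext x
  rcases PatA.cases i x p with rfl | rfl | ⟨h1, h2, h3⟩ | ⟨h1, h2, h3⟩ | ⟨h1, h2, h3, h4⟩
  · rw [eAct_left, hp]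
  · rw [eAct_right]; exact (h.swap.1 hp).symm
  · exfalso
    rw [h.swap, hp] at h3
    exact h2 h3.symm
  · exfalso
    rw [h.swap, h.swap.1 hp] at h3
    exact h1 h3.symm
  · exact eAct_other p h1 h2 h3 h4

theorem finite_nc (N : ℕ) : {p | NC N p}.Finite := by
  let F : {p // NC N p} → (Fin N → Fin N) := fun p x => ⟨p.1 x, p.2.lt x x.2⟩
  have hF : Function.Injective F := by
    intro p p' hpp
    apply Subtype.ext
    funext x
    by_cases hx : x < N
    · have := congrFun hpp ⟨x, hx⟩
      exact congrArg Fin.val this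
    · rw [p.2.out x (by omega), p'.2.out x (by omega)]
  have : Finite {p // NC N p} := Finite.of_injective F hF
  exact Set.finite_coe_iff.1 this

theorem PatA.card_even (h : NC N p) (s : Finset ℕ) (hs : ∀ x ∈ s, x < N)
    (hp : ∀ x ∈ s, p x ∈ s) : s.card % 2 = 0 := by
  have h1 : ∑ x ∈ s, (1 : ZMod 2) = 0 := by
    refine Finset.sum_involution (fun x _ => p x) ?_ ?_ ?_ ?_
    · intro x _; decide
    · intro x hx _; exact h.ne x (hs x hx)
    · intro x hx; exact hp x hx
    · intro x _; exact h.inv x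
  rw [Finset.sum_const, nsmul_eq_mul, mul_one, ZMod.natCast_eq_zero_iff] at h1
  omega

theorem NC.even (h : NC N p) : N % 2 = 0 := by
  have := PatA.card_even h (Finset.range N) (fun x hx => Finset.mem_range.1 hx)
    (fun x hx => Finset.mem_range.2 (h.lt x (Finset.mem_range.1 hx)))
  rwa [Finset.card_range] at this

theorem PatA.parity_aux (h : NC N p) {x : ℕ} (hx : x < N) (hxp : x < p x) :
    p x % 2 ≠ x % 2 := by
  have hl := h.lt x hx
  have := PatA.card_even h (Finset.Ioo x (p x))
    (fun y hy => by rw [Finset.mem_Ioo] at hy; omega)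
    (fun y hy => by
      rw [Finset.mem_Ioo] at hy ⊢
      exact h.nc x y hy.1 hy.2)
  rw [Nat.card_Ioo] at this
  omega

/-- The partner of a site has the other parity. -/
theorem NC.parity (h : NC N p) {x : ℕ} (hx : x < N) : p x % 2 ≠ x % 2 := by
  rcases lt_or_gt_of_ne (h.ne x hx) with h1 | h1
  · have := PatA.parity_aux h (h.lt x hx) (by rw [h.inv]; exact h1)
    rw [h.inv] at this
    exact this.symm
  · exact PatA.parity_aux h hx h1

/-- A small arc inside every arc. -/
theorem NC.exists_small_in (h : NC N p) : ∀ (n x : ℕ), x < p x → p x - x ≤ n →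
    ∃ i, x ≤ i ∧ i + 1 ≤ p x ∧ p i = i + 1 := by
  intro n
  induction n with
  | zero => intro x h1 h2; omega
  | succ n ih =>
    intro x h1 h2
    by_cases he : p x = x + 1
    · exact ⟨x, le_rfl, by omega, he⟩
    · have h3 := h.nc x (x + 1) (by omega) (by omega)
      have hxN : x + 1 < N := by
        by_contra hc
        have := h.out (x + 1) (by omega)
        rw [this] at h3
        by_cases hx : x < N
        · have := h.lt x hx; omega
        · have := h.out x (by omega); omega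
      have h4 := h.ne (x + 1) hxN
      obtain ⟨i, hi1, hi2, hi3⟩ := ih (x + 1) (by omega) (by omega)
      exact ⟨i, by omega, by omega, hi3⟩

theorem NC.lt_of_ne (h : NC N p) {x : ℕ} (hx : p x ≠ x) : x < N := by
  by_contra hc
  exact hx (h.out x (by omega))

theorem NC.exists_small (h : NC N p) (hN : 0 < N) : ∃ i, i + 1 < N ∧ p i = i + 1 := by
  have h0 := h.ne 0 hN
  have h1 := h.lt 0 hN
  obtain ⟨i, -, hi2, hi3⟩ := h.exists_small_in (p 0) 0 (by omega) (by omega)
  exact ⟨i, by omega, hi3⟩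

/-- There is a small arc which does not contain the site `0`. -/
theorem NC.exists_small_pos (h : NC N p) (hN : 2 < N) : ∃ i, 0 < i ∧ i + 1 < N ∧ p i = i + 1 := by
  have h0 := h.ne 0 (by omega)
  have h00 := h.lt 0 (by omega)
  by_cases h1 : p 0 = 1
  · have e1 : p 1 = 0 := h.swap.1 h1
    have h2 := h.ne 2 hN
    have h22 := h.lt 2 hN
    have h3 : p 2 ≠ 0 := fun e => by rw [h.swap, h1] at e; omega
    have h4 : p 2 ≠ 1 := fun e => by rw [h.swap, e1] at e; omega
    obtain ⟨i, hi1, hi2, hi3⟩ := h.exists_small_in (p 2) 2 (by omega) (by omega)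
    exact ⟨i, by omega, by omega, hi3⟩
  · have h2 := h.nc 0 1 (by omega) (by omega)
    have h3 := h.ne 1 (by omega)
    have h4 := h.lt 1 (by omega)
    obtain ⟨i, hi1, hi2, hi3⟩ := h.exists_small_in (p 1) 1 (by omega) (by omega)
    exact ⟨i, by omega, by omega, hi3⟩

/-- Regions and the Temperley-Lieb action. -/
theorem Geq.eAct (h : NC N p) {i : ℕ} (hi : i + 1 < N) {g g' : ℕ} (hg : g ≠ i + 1)
    (hg' : g' ≠ i + 1) (hgg : Geq N p g g') : Geq N (eAct i p) g g' := by
  intro x hx
  rcases PatA.cases i x p with rfl | rfl | ⟨h1, h2, h3⟩ | ⟨h1, h2, h3⟩ | ⟨h1, h2, h3, h4⟩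
  · rw [eAct_left]; omega
  · rw [eAct_right]; omega
  · rw [eAct_a p h1 h2 h3]
    have e1 := hgg x hx
    have e2 := hgg (i + 1) hi
    rw [h3] at e1
    omega
  · rw [eAct_b p h1 h2 h3]
    have e1 := hgg x hx
    have e2 := hgg i (by omega)
    rw [h3] at e1
    omega
  · rw [eAct_other p h1 h2 h3 h4]
    exact hgg x hx

theorem geq_eAct (h : NC N p) {i : ℕ} (hi : i + 1 < N) : Geq N (eAct i p) i (i + 2) := by
  have h' := h.eAct hi
  intro x hx
  by_cases h1 : x = i
  · subst h1; rw [eAct_left]; omega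
  by_cases h2 : x = i + 1
  · subst h2; rw [eAct_right]; omega
  have h3 : Perc.eAct i p x ≠ i := fun e => by
    rw [h'.swap, eAct_left] at e; exact h2 e.symm
  have h4 : Perc.eAct i p x ≠ i + 1 := fun e => by
    rw [h'.swap, eAct_right] at e; exact h1 e.symm
  omega

/-- The left gap of `s` and the right gap of its partner are in the same region. -/
theorem NC.geq_partner (h : NC N p) {s : ℕ} (hs : s < N) : Geq N p s (p s + 1) := by
  intro x hx
  have hn := h.ne s hs
  by_cases h1 : x = s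
  · subst h1; omega
  by_cases h2 : x = p s
  · subst h2; rw [h.inv]; omega
  have h3 : p x ≠ s := fun e => by rw [h.swap] at e; exact h2 e.symm
  have h4 : p x ≠ p s := fun e => by
    have := congrArg p e
    rw [h.inv, h.inv] at this
    exact h1 this
  have h5 : Bt s (p s) x ↔ Bt s (p s) (p x) :=
    ⟨fun hh => h.btw hh, fun hh => by have := h.btw hh; rwa [h.inv] at this⟩
  unfold Bt at h5
  omega

/-- The outer region. -/
theorem NC.geq_zero (h : NC N p) : Geq N p 0 N := by
  intro x hx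
  have := h.lt x hx
  omega

theorem PatA.connected_aux (h : NC N p) {R : ℕ → ℕ → Prop} (hR : Equivalence R)
    (hs : ∀ s < N, R s (p s + 1)) : ∀ (n g g' : ℕ), g ≤ g' → g' ≤ N → g' - g ≤ n →
    Geq N p g g' → R g g' := by
  intro n
  induction n with
  | zero =>
    intro g g' h1 h2 h3 _
    have : g = g' := by omega
    subst this
    exact hR.refl g
  | succ n ih =>
    intro g g' h1 h2 h3 hgg
    by_cases he : g = g'
    · subst he; exact hR.refl g
    have hg : g < N := by omega
    have e1 := hgg g hg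
    have hn := h.ne g hg
    have h4 : g < p g ∧ p g < g' := by omega
    refine hR.trans (hs g hg) (ih (p g + 1) g' (by omega) h2 (by omega) ?_)
    exact (h.geq_partner hg).symm.trans hgg

/-- Gaps of the same region are connected by the relations `s ∼ p s + 1`. -/
theorem NC.connected (h : NC N p) {R : ℕ → ℕ → Prop} (hR : Equivalence R)
    (hs : ∀ s < N, R s (p s + 1)) {g g' : ℕ} (hg : g ≤ N) (hg' : g' ≤ N)
    (hgg : Geq N p g g') : R g g' := by
  rcases le_total g g' with h1 | h1
  · exact PatA.connected_aux h hR hs _ g g' h1 hg' le_rfl hgg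
  · exact hR.symm (PatA.connected_aux h hR hs _ g' g h1 hg le_rfl hgg.symm)

end Pool.Agent.Perc

end PartpercPatA
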