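import Pool.Agent.Lib.MP_6bd702_z.Z026

/-!
# Link patterns: flat patterns and induction (task PatC)
-/

set_option autoImplicit false

namespace Pool.Agent.Perc

variable {N : ℕ} {p : ℕ → ℕ}

theorem nc_flatP {d N : ℕ} (hN : N % 2 = 0) (hd : d % 2 = 0) (hdN : d + 1 < N) :
    NC N (flatP d N) := by
  constructor
  · intro x hx
    unfold flatP
    split_ifs <;> omega
  · intro x
    have h : ∀ y, flatP d N x = y → flatP d N y = x := by
      intro y hy
      unfold flatP at hy ⊢
      split_ifs at hy ⊢ <;> omega
    exact h _ rfl
  · intro x hx
    unfold flatP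
    split_ifs <;> omega
  · intro x hx
    unfold flatP
    rw [if_pos hx]
  · intro x y hxy hy
    have h1 : x = d ∧ flatP d N x = N - 1 := by
      unfold flatP at hy ⊢
      split_ifs at hy ⊢ <;> omega
    obtain ⟨rfl, h2⟩ := h1
    rw [h2] at hy ⊢
    unfold flatP
    rw [if_neg (by omega), if_neg (by omega), if_neg (by omega), if_neg (by omega)]
    split_ifs <;> omega

theorem nc_flatE {L : ℕ} (hL : L % 2 = 0) : NC L (flatE L) := by
  constructor
  · intro x hx
    unfold flatE
    split_ifs <;> omega
  · intro x
    have h : ∀ y, flatE L x = y → flatE L y = x := by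
      intro y hy
      unfold flatE at hy ⊢
      split_ifs at hy ⊢ <;> omega
    exact h _ rfl
  · intro x hx
    unfold flatE
    split_ifs <;> omega
  · intro x hx
    unfold flatE
    rw [if_pos hx]
  · intro x y hxy hy
    exfalso
    unfold flatE at hy
    split_ifs at hy <;> omega

namespace PatC

/-- A pattern whose arcs are all small except `d — N - 1` is flat. -/
theorem eq_flatP (h : NC N p) {d : ℕ} (hd : d + 1 < N) (hp : p d = N - 1)
    (hs : ∀ a < N, a ≠ d → a < p a → p a = a + 1) : p = flatP d N := by
  have hN := h.even
  have hpar := h.parity (x := d) (by omega)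
  have hpN : p (N - 1) = d := by rw [← hp, h.inv]
  have hadj : ∀ x < N, x ≠ d → x ≠ N - 1 → p x = x + 1 ∨ p x + 1 = x := by
    intro x hx h1 h2
    rcases lt_or_gt_of_ne (h.ne x hx) with hlt | hgt
    · right
      have h3 : p x ≠ d := by
        intro h4
        have h5 := h.inv x
        rw [h4, hp] at h5
        exact h2 h5.symm
      have h6 := hs (p x) (h.lt x hx) h3 (by rw [h.inv]; exact hlt)
      rw [h.inv] at h6
      exact h6.symm
    · left
      exact hs x hx h1 hgt
  have key : ∀ x < N, x ≠ d → x ≠ N - 1 → p x = flatP d N x := by
    intro x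
    induction x using Nat.strong_induction_on with
    | _ x ih =>
      intro hx h1 h2
      have h3 := hadj x hx h1 h2
      rcases Nat.eq_zero_or_pos x with h0 | hpos
      · subst h0
        have h4 : p 0 = 1 := by omega
        rw [h4]
        unfold flatP
        split_ifs <;> omega
      · by_cases hd1 : x - 1 = d
        · have h4 : p x ≠ x - 1 := by
            intro h5
            have h6 := h.inv x
            rw [h5, hd1, hp] at h6
            omega
          have h7 : p x = x + 1 := by omega
          rw [h7]
          unfold flatP
          split_ifs <;> omega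
        · have h4 := ih (x - 1) (by omega) (by omega) hd1 (by omega)
          have h5 := h.inv x
          have h6 := h.inv (x - 1)
          unfold flatP at h4 ⊢
          rcases h3 with h3 | h3
          · rw [h3]
            split_ifs at h4 ⊢ <;> first | omega | skip
            all_goals
              rw [h4] at h6
              have h7 : x - 1 + 1 = x := by omega
              rw [h7] at h6
              omega
          · have h8 : p x = x - 1 := by omega
            rw [h8] at h5
            rw [h8]
            split_ifs at h4 ⊢ <;> omega
  funext x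
  by_cases hx : x < N
  · by_cases h1 : x = d
    · rw [h1, hp]
      unfold flatP
      split_ifs <;> omega
    · by_cases h2 : x = N - 1
      · rw [h2, hpN]
        unfold flatP
        split_ifs <;> omega
      · exact key x hx h1 h2
  · rw [h.out x (by omega)]
    unfold flatP
    rw [if_pos (by omega)]

/-- A pattern which is not flat has an arc which encloses a small arc at its left end. -/
theorem exists_arc (h : NC N p) {d : ℕ} (hp : p d = N - 1) :
    ∀ m a, a < N → a ≠ d → a < p a → p a ≠ a + 1 → p a - a = m →
      ∃ a', a' ≠ d ∧ a' + 3 ≤ p a' ∧ p (a' + 1) = a' + 2 ∧ p a' < N := by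
  intro m
  induction m using Nat.strong_induction_on with
  | _ m ih =>
    intro a ha had hlt hne hm
    have hpa := h.lt a ha
    have h1 := h.nc a (a + 1) (by omega) (by omega)
    have h2 := h.ne (a + 1) (by omega)
    by_cases h3 : p (a + 1) = a + 2
    · exact ⟨a, had, by omega, h3, hpa⟩
    · refine ih (p (a + 1) - (a + 1)) (by omega) (a + 1) (by omega) ?_ (by omega) h3 rfl
      rintro rfl
      omega

/-- The measure. -/
def ms (N : ℕ) (p : ℕ → ℕ) : ℕ := ∑ x ∈ Finset.range N, (p x - x)

theorem ms_lt {p p' : ℕ → ℕ} {a : ℕ} (ha : a + 2 < N)
    (h : ∀ x, x ≠ a → x ≠ a + 1 → x ≠ a + 2 → p' x - x = p x - x)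
    (h' : (p' a - a) + (p' (a + 1) - (a + 1)) + (p' (a + 2) - (a + 2)) <
      (p a - a) + (p (a + 1) - (a + 1)) + (p (a + 2) - (a + 2))) : ms N p' < ms N p := by
  unfold ms
  have hsub : ({a, a + 1, a + 2} : Finset ℕ) ⊆ Finset.range N := by
    intro x hx
    simp only [Finset.mem_insert, Finset.mem_singleton] at hx
    rw [Finset.mem_range]
    omega
  rw [← Finset.sum_sdiff hsub, ← Finset.sum_sdiff hsub]
  have e1 : ∑ x ∈ Finset.range N \ {a, a + 1, a + 2}, (p' x - x) =
      ∑ x ∈ Finset.range N \ {a, a + 1, a + 2}, (p x - x) := by
    apply Finset.sum_congr rfl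
    intro x hx
    simp only [Finset.mem_sdiff, Finset.mem_insert, Finset.mem_singleton, not_or] at hx
    exact h x hx.2.1 hx.2.2.1 hx.2.2.2
  have e2 : ∀ f : ℕ → ℕ, ∑ x ∈ ({a, a + 1, a + 2} : Finset ℕ), f x =
      f a + f (a + 1) + f (a + 2) := by
    intro f
    rw [Finset.sum_insert (by simp), Finset.sum_insert (by simp), Finset.sum_singleton]
    ring
  rw [e1, e2, e2]
  omega

end PatC

/-- Induction from the flat pattern, keeping the arc `d — N - 1`. -/
theorem NC.induction_flat {d : ℕ} {C : (ℕ → ℕ) → Prop} (hd : d + 1 < N)
    (h0 : C (flatP d N))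
    (h1 : ∀ (p : ℕ → ℕ) (i : ℕ), NC N p → p d = N - 1 → i + 2 < N → i ≠ d → i + 1 ≠ d →
      C p → C (Perc.eAct i p))
    (h : NC N p) (hp : p d = N - 1) : C p := by
  have main : ∀ m p, NC N p → p d = N - 1 → PatC.ms N p = m → C p := by
    intro m
    induction m using Nat.strong_induction_on with
    | _ m ih =>
      intro p h hp hm
      by_cases hs : ∀ a < N, a ≠ d → a < p a → p a = a + 1
      · rw [PatC.eq_flatP h hd hp hs]
        exact h0
      push Not at hs
      obtain ⟨a₀, b1, b2, b3, b4⟩ := hs
      obtain ⟨a, c1, c2, c3, c4⟩ := PatC.exists_arc h hp _ a₀ b1 b2 b3 b4 rfl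
      have hda : a + 1 ≠ d := by
        rintro rfl
        omega
      have hda' : a + 2 ≠ d := by
        rintro rfl
        have := h.inv (a + 1)
        rw [c3, hp] at this
        omega
      have hc3 : p (a + 2) = a + 1 := by rw [← c3, h.inv]
      have hb : p (p a) = a := h.inv a
      have hNC : NC N (Perc.eAct a p) := h.eAct (by omega)
      have v1 : Perc.eAct a p a = a + 1 := by
        unfold Perc.eAct
        rw [if_pos rfl]
      have v2 : Perc.eAct a p (a + 1) = a := by
        unfold Perc.eAct
        rw [if_neg (by omega), if_pos rfl]
      have v3 : Perc.eAct a p (a + 2) = p a := by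
        unfold Perc.eAct
        rw [if_neg (by omega), if_neg (by omega), hc3, if_neg (by omega), if_pos rfl]
      have v4 : Perc.eAct a p (p a) = a + 2 := by
        unfold Perc.eAct
        rw [if_neg (by omega), if_neg (by omega), hb, if_pos rfl, c3]
      have v5 : ∀ x, x ≠ a → x ≠ a + 1 → x ≠ a + 2 → x ≠ p a → Perc.eAct a p x = p x := by
        intro x e1 e2 e3 e4
        unfold Perc.eAct
        have f1 : p x ≠ a := by
          intro h5
          apply e4
          rw [← h5, h.inv]
        have f2 : p x ≠ a + 1 := by
          intro h5
          apply e3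
          have := h.inv x
          rw [h5, c3] at this
          exact this.symm
        rw [if_neg e1, if_neg e2, if_neg f1, if_neg f2]
      have hback : Perc.eAct (a + 1) (Perc.eAct a p) = p := by
        funext x
        by_cases e1 : x = a + 1
        · subst e1
          rw [c3]
          exact if_pos rfl
        by_cases e2 : x = a + 2
        · subst e2
          rw [hc3]
          unfold Perc.eAct
          rw [if_neg (by omega), if_pos (by omega)]
        have e2' : x ≠ a + 1 + 1 := e2
        by_cases e3 : x = a
        · subst e3
          change (if x = x + 1 then _ else if x = x + 1 + 1 then _ else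
            if Perc.eAct x p x = x + 1 then Perc.eAct x p (x + 1 + 1) else _) = _
          rw [if_neg e1, if_neg e2', if_pos v1, v3]
        by_cases e4 : x = p a
        · subst e4
          change (if p a = a + 1 then _ else if p a = a + 1 + 1 then _ else
            if Perc.eAct a p (p a) = a + 1 then _ else
            if Perc.eAct a p (p a) = a + 1 + 1 then Perc.eAct a p (a + 1) else _) = _
          rw [if_neg e1, if_neg e2', v4, if_neg (by omega), if_pos rfl, v2, hb]
        · have v6 := v5 x e3 e1 e2 e4
          change (if x = a + 1 then _ else if x = a + 1 + 1 then _ else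
            if Perc.eAct a p x = a + 1 then _ else
            if Perc.eAct a p x = a + 1 + 1 then _ else Perc.eAct a p x) = _
          have f2 : p x ≠ a + 1 := by
            intro h5
            apply e2
            have := h.inv x
            rw [h5, c3] at this
            exact this.symm
          have f3 : p x ≠ a + 1 + 1 := by
            intro h5
            apply e1
            have := h.inv x
            rw [h5, hc3] at this
            exact this.symm
          rw [if_neg e1, if_neg e2', v6, if_neg f2, if_neg f3]
      rw [← hback]
      have hdp : Perc.eAct a p d = N - 1 := by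
        by_cases e4 : d = p a
        · rw [← e4] at hb
          rw [hp] at hb
          omega
        · rw [v5 d (Ne.symm c1) hda.symm hda'.symm e4, hp]
      refine h1 _ (a + 1) hNC hdp (by omega) hda hda' ?_
      refine ih (PatC.ms N (Perc.eAct a p)) ?_ _ hNC hdp rfl
      rw [← hm]
      apply PatC.ms_lt (a := a) (by omega)
      · intro x e1 e2 e3
        by_cases e4 : x = p a
        · rw [e4, v4, hb]
          omega
        · rw [v5 x e1 e2 e3 e4]
      · rw [v1, v2, v3, c3, hc3]
        omega
  exact main _ p h hp rfl

end Pool.Agent.Perc
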