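import Pool.Agent.Lib.MP_6bd702_z.Z026
import Pool.Agent.Lib.MP_6bd702_z.Z027

section PartpercPatB

/-!
# Link patterns: insertion, deletion, rotation (task PatB)
-/

set_option autoImplicit false

namespace Pool.Agent.Perc

variable {N : ℕ} {p : ℕ → ℕ}

namespace PatB

/-- The shift of the sites from `i` on by two. -/
def sh (i x : ℕ) : ℕ := if x < i then x else x + 2

theorem cases_sh (i y : ℕ) : y = i ∨ y = i + 1 ∨ ∃ x, y = sh i x := by
  by_cases h1 : y = i
  · exact Or.inl h1
  · by_cases h2 : y = i + 1
    · exact Or.inr (Or.inl h2)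
    · right; right
      by_cases h3 : y < i
      · exact ⟨y, by unfold sh; rw [if_pos h3]⟩
      · exact ⟨y - 2, by unfold sh; rw [if_neg (by omega)]; omega⟩

theorem sh_lt {i x y : ℕ} : sh i x < sh i y ↔ x < y := by
  unfold sh; split_ifs <;> omega

theorem sh_inj {i x y : ℕ} : sh i x = sh i y ↔ x = y := by
  unfold sh; split_ifs <;> omega

theorem sh_ne {i x : ℕ} : sh i x ≠ i := by
  unfold sh; split_ifs <;> omega

theorem sh_ne' {i x : ℕ} : sh i x ≠ i + 1 := by
  unfold sh; split_ifs <;> omega

theorem sh_lt_iff {i x : ℕ} (hi : i ≤ N) : sh i x < N + 2 ↔ x < N := by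
  unfold sh; split_ifs <;> omega

theorem sh_succ {i x : ℕ} (hx : x ≠ i) : sh (i + 1) x = sh i x := by
  unfold sh; split_ifs <;> omega

theorem sh_self (i : ℕ) : sh i i = i + 2 := by
  unfold sh; split_ifs <;> omega

theorem sh_succ_self (i : ℕ) : sh (i + 1) i = i := by
  unfold sh; split_ifs <;> omega

theorem ins_left (i : ℕ) (p : ℕ → ℕ) : Perc.insArc i p i = i + 1 := by
  unfold Perc.insArc; rw [if_pos rfl]

theorem ins_right (i : ℕ) (p : ℕ → ℕ) : Perc.insArc i p (i + 1) = i := by
  unfold Perc.insArc; rw [if_neg (by omega), if_pos rfl]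

theorem ins_sh (i : ℕ) (p : ℕ → ℕ) (x : ℕ) : Perc.insArc i p (sh i x) = sh i (p x) := by
  unfold Perc.insArc
  rw [if_neg sh_ne, if_neg sh_ne']
  have : (if sh i x < i then sh i x else sh i x - 2) = x := by
    unfold sh; split_ifs <;> omega
  rw [this]
  rfl

theorem sh_del (h : NC (N + 2) p) {i : ℕ} (hp : p i = i + 1) (x : ℕ) :
    sh i (Perc.delArc i p x) = p (sh i x) := by
  have hp' : p (i + 1) = i := by rw [← hp, h.inv]
  have h1 : p (sh i x) ≠ i := by
    intro h1
    have := h.inv (sh i x)
    rw [h1, hp] at this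
    exact sh_ne' this.symm
  have h2 : p (sh i x) ≠ i + 1 := by
    intro h2
    have := h.inv (sh i x)
    rw [h2, hp'] at this
    exact sh_ne this.symm
  have e : Perc.delArc i p x = if p (sh i x) < i then p (sh i x) else p (sh i x) - 2 := rfl
  rw [e]
  generalize p (sh i x) = y at h1 h2 ⊢
  unfold sh
  by_cases hy : y < i
  · rw [if_pos hy, if_pos hy]
  · rw [if_neg hy, if_neg (by omega)]; omega

theorem eAct_self (i : ℕ) (p : ℕ → ℕ) : Perc.eAct i p i = i + 1 := by
  unfold Perc.eAct; rw [if_pos rfl]

theorem eAct_succ (i : ℕ) (p : ℕ → ℕ) : Perc.eAct i p (i + 1) = i := by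
  unfold Perc.eAct; rw [if_neg (by omega), if_pos rfl]

theorem eAct_ins {i j k : ℕ} (p : ℕ → ℕ) (h1 : sh k j = i) (h2 : sh k (j + 1) = i + 1) :
    Perc.eAct i (Perc.insArc k p) = Perc.insArc k (Perc.eAct j p) := by
  have hk1 : k ≠ i := by rw [← h1]; exact sh_ne.symm
  have hk2 : k ≠ i + 1 := by rw [← h2]; exact sh_ne.symm
  have hk3 : k + 1 ≠ i := by rw [← h1]; exact sh_ne'.symm
  have hk4 : k + 1 ≠ i + 1 := by rw [← h2]; exact sh_ne'.symm
  funext x
  rcases cases_sh k x with rfl | rfl | ⟨a, rfl⟩
  · rw [ins_left]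
    unfold Perc.eAct
    rw [if_neg hk1, if_neg hk2, ins_left, if_neg hk3, if_neg hk4]
  · rw [ins_right]
    unfold Perc.eAct
    rw [if_neg hk3, if_neg hk4, ins_right, if_neg hk1, if_neg hk2]
  · rw [ins_sh]
    unfold Perc.eAct
    rw [ins_sh]
    subst h1
    rw [← h2, ins_sh, ins_sh]
    simp only [sh_inj]
    split_ifs <;> rfl

end PatB

open PatB

theorem NC.insArc (h : NC N p) {i : ℕ} (hi : i ≤ N) : NC (N + 2) (insArc i p) := by
  constructor
  · intro x hx
    rcases cases_sh i x with rfl | rfl | ⟨a, rfl⟩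
    · rw [ins_left]; omega
    · rw [ins_right]; omega
    · rw [ins_sh, sh_lt_iff hi]
      rw [sh_lt_iff hi] at hx
      exact h.lt a hx
  · intro x
    rcases cases_sh i x with rfl | rfl | ⟨a, rfl⟩
    · rw [ins_left, ins_right]
    · rw [ins_right, ins_left]
    · rw [ins_sh, ins_sh, h.inv]
  · intro x hx
    rcases cases_sh i x with rfl | rfl | ⟨a, rfl⟩
    · rw [ins_left]; omega
    · rw [ins_right]; omega
    · rw [ins_sh, Ne, sh_inj]
      rw [sh_lt_iff hi] at hx
      exact h.ne a hx
  · intro x hx
    rcases cases_sh i x with rfl | rfl | ⟨a, rfl⟩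
    · omega
    · omega
    · rw [ins_sh, sh_inj]
      apply h.out
      by_contra hc
      have := (sh_lt_iff (N := N) hi (x := a)).mpr (by omega)
      omega
  · intro x y hxy hy
    rcases cases_sh i x with rfl | rfl | ⟨a, rfl⟩
    · rw [ins_left] at hy; omega
    · rw [ins_right] at hy; omega
    · rw [ins_sh] at hy ⊢
      have h1 := sh_ne (i := i) (x := a)
      have h2 := sh_ne' (i := i) (x := a)
      have h3 := sh_ne (i := i) (x := p a)
      have h4 := sh_ne' (i := i) (x := p a)
      rcases cases_sh i y with rfl | rfl | ⟨b, rfl⟩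
      · rw [ins_left]; omega
      · rw [ins_right]; omega
      · rw [ins_sh]
        rw [sh_lt] at hxy hy ⊢
        rw [sh_lt]
        exact h.nc a b hxy hy

theorem NC.delArc (h : NC (N + 2) p) {i : ℕ} (hi : i < N + 1) (hp : p i = i + 1) :
    NC N (delArc i p) := by
  have hs := sh_del h hp
  constructor
  · intro x hx
    rw [← sh_lt_iff (N := N) (i := i) (by omega), hs]
    exact h.lt _ ((sh_lt_iff (by omega)).mpr hx)
  · intro x
    rw [← sh_inj (i := i), hs, hs, h.inv]
  · intro x hx
    rw [Ne, ← sh_inj (i := i), hs]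
    exact h.ne _ ((sh_lt_iff (by omega)).mpr hx)
  · intro x hx
    rw [← sh_inj (i := i), hs]
    apply h.out
    by_contra hc
    have := (sh_lt_iff (N := N) (i := i) (x := x) (by omega)).mp (by omega)
    omega
  · intro x y hxy hy
    have h1 := h.nc (sh i x) (sh i y) (sh_lt.mpr hxy) (by rw [← hs]; exact sh_lt.mpr hy)
    rw [← hs, ← hs, sh_lt, sh_lt] at h1
    exact h1

theorem insArc_delArc (h : NC (N + 2) p) {i : ℕ} (hi : i < N + 1) (hp : p i = i + 1) :
    Perc.insArc i (delArc i p) = p := by
  funext x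
  rcases cases_sh i x with rfl | rfl | ⟨a, rfl⟩
  · rw [ins_left, hp]
  · rw [ins_right, ← hp, h.inv]
  · rw [ins_sh, sh_del h hp]

theorem delArc_insArc (h : NC N p) {i : ℕ} (hi : i ≤ N) : Perc.delArc i (insArc i p) = p := by
  funext x
  rw [← sh_inj (i := i), sh_del (h.insArc hi) (ins_left i p), ins_sh]

theorem NC.cupO (h : NC N p) : NC (N + 2) (cupO N p) := by
  have e0 : Perc.cupO N p 0 = N + 1 := by unfold Perc.cupO; rw [if_pos rfl]
  have e1 : Perc.cupO N p (N + 1) = 0 := by
    unfold Perc.cupO; rw [if_neg (by omega), if_pos rfl]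
  have e2 : ∀ x < N, Perc.cupO N p (x + 1) = p x + 1 := by
    intro x hx
    unfold Perc.cupO
    rw [if_neg (by omega), if_neg (by omega), if_pos (by omega)]
    rfl
  have e3 : ∀ x, N + 2 ≤ x → Perc.cupO N p x = x := by
    intro x hx
    unfold Perc.cupO
    rw [if_neg (by omega), if_neg (by omega), if_neg (by omega)]
  have hc : ∀ x, x = 0 ∨ x = N + 1 ∨ (∃ a, a < N ∧ x = a + 1) ∨ N + 2 ≤ x := by
    intro x
    by_cases h1 : x = 0
    · exact Or.inl h1
    · by_cases h2 : x = N + 1
      · exact Or.inr (Or.inl h2)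
      · by_cases h3 : x < N + 1
        · exact Or.inr (Or.inr (Or.inl ⟨x - 1, by omega, by omega⟩))
        · exact Or.inr (Or.inr (Or.inr (by omega)))
  constructor
  · intro x hx
    rcases hc x with rfl | rfl | ⟨a, ha, rfl⟩ | hx'
    · rw [e0]; omega
    · rw [e1]; omega
    · rw [e2 a ha]; have := h.lt a ha; omega
    · omega
  · intro x
    rcases hc x with rfl | rfl | ⟨a, ha, rfl⟩ | hx'
    · rw [e0, e1]
    · rw [e1, e0]
    · rw [e2 a ha, e2 _ (h.lt a ha), h.inv]
    · rw [e3 x hx', e3 x hx']
  · intro x hx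
    rcases hc x with rfl | rfl | ⟨a, ha, rfl⟩ | hx'
    · rw [e0]; omega
    · rw [e1]; omega
    · rw [e2 a ha]; have := h.ne a ha; omega
    · omega
  · intro x hx
    exact e3 x hx
  · intro x y hxy hy
    rcases hc x with rfl | rfl | ⟨a, ha, rfl⟩ | hx'
    · rw [e0] at hy ⊢
      rcases hc y with rfl | rfl | ⟨b, hb, rfl⟩ | hy'
      · omega
      · omega
      · rw [e2 b hb]; have := h.lt b hb; omega
      · omega
    · rw [e1] at hy; omega
    · rw [e2 a ha] at hy ⊢
      rcases hc y with rfl | rfl | ⟨b, hb, rfl⟩ | hy'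
      · omega
      · have := h.lt a ha; omega
      · rw [e2 b hb]
        have := h.nc a b (by omega) (by omega)
        omega
      · have := h.lt a ha; omega
    · rw [e3 x hx'] at hy; omega

namespace PatB

/-- The rotation of the sites. -/
def rh (N x : ℕ) : ℕ := if x = 0 then N - 1 else x - 1

/-- The inverse rotation of the sites. -/
def rh' (N x : ℕ) : ℕ := if x + 1 = N then 0 else x + 1

theorem rh_lt {x : ℕ} (hx : x < N) : rh N x < N := by unfold rh; split_ifs <;> omega

theorem rh'_lt {x : ℕ} (hx : x < N) : rh' N x < N := by unfold rh'; split_ifs <;> omega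

theorem rh_rh' {x : ℕ} (hx : x < N) : rh N (rh' N x) = x := by
  unfold rh rh'
  by_cases h : x + 1 = N
  · rw [if_pos h, if_pos rfl]; omega
  · rw [if_neg h, if_neg (by omega)]; omega

theorem rh'_rh {x : ℕ} (hx : x < N) : rh' N (rh N x) = x := by
  unfold rh rh'
  by_cases h : x = 0
  · rw [if_pos h, if_pos (by omega)]; omega
  · rw [if_neg h, if_neg (by omega)]; omega

theorem sh_zero (y : ℕ) : sh 0 y = y + 2 := by
  unfold sh; rw [if_neg (by omega)]

theorem rh'_sh {j a : ℕ} (ha : a < N) (hj : j + 1 ≤ N) :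
    rh' (N + 2) (sh j a) = sh (j + 1) (rh' N a) := by
  by_cases h : a + 1 = N
  · have e1 : rh' N a = 0 := by unfold rh'; rw [if_pos h]
    have e2 : sh j a = a + 2 := by unfold sh; rw [if_neg (by omega)]
    have e3 : sh (j + 1) 0 = 0 := by unfold sh; rw [if_pos (by omega)]
    rw [e1, e2, e3]
    unfold rh'; rw [if_pos (by omega)]
  · have e1 : rh' N a = a + 1 := by unfold rh'; rw [if_neg h]
    rw [e1]
    by_cases h2 : a < j
    · have e2 : sh j a = a := by unfold sh; rw [if_pos h2]
      have e3 : sh (j + 1) (a + 1) = a + 1 := by unfold sh; rw [if_pos (by omega)]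
      rw [e2, e3]
      unfold rh'; rw [if_neg (by omega)]
    · have e2 : sh j a = a + 2 := by unfold sh; rw [if_neg h2]
      have e3 : sh (j + 1) (a + 1) = a + 1 + 2 := by unfold sh; rw [if_neg (by omega)]
      rw [e2, e3]
      unfold rh'; rw [if_neg (by omega)]

theorem rh_sh {j y : ℕ} (hy : y < N) (hj : j + 1 ≤ N) :
    rh (N + 2) (sh (j + 1) y) = sh j (rh N y) := by
  by_cases h : y = 0
  · subst h
    have e1 : rh N 0 = N - 1 := by unfold rh; rw [if_pos rfl]
    have e2 : sh (j + 1) 0 = 0 := by unfold sh; rw [if_pos (by omega)]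
    have e3 : sh j (N - 1) = N - 1 + 2 := by unfold sh; rw [if_neg (by omega)]
    rw [e1, e2, e3]
    unfold rh; rw [if_pos rfl]; omega
  · have e1 : rh N y = y - 1 := by unfold rh; rw [if_neg h]
    rw [e1]
    by_cases h2 : y < j + 1
    · have e2 : sh (j + 1) y = y := by unfold sh; rw [if_pos h2]
      have e3 : sh j (y - 1) = y - 1 := by unfold sh; rw [if_pos (by omega)]
      rw [e2, e3]
      unfold rh; rw [if_neg (by omega)]
    · have e2 : sh (j + 1) y = y + 2 := by unfold sh; rw [if_neg h2]
      have e3 : sh j (y - 1) = y - 1 + 2 := by unfold sh; rw [if_neg (by omega)]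
      rw [e2, e3]
      unfold rh; rw [if_neg (by omega)]; omega

theorem rh_inj {x y : ℕ} (hx : x < N) (hy : y < N) (h : rh N x = rh N y) : x = y := by
  rw [← rh'_rh hx, ← rh'_rh hy, h]

theorem rot_of_lt {x : ℕ} (hx : x < N) : Perc.rotP N p x = rh N (p (rh' N x)) := by
  unfold Perc.rotP
  rw [if_pos hx]
  rfl

theorem rot_of_ge {x : ℕ} (hx : N ≤ x) : Perc.rotP N p x = x := by
  unfold Perc.rotP
  rw [if_neg (by omega)]

theorem rot_rh {x : ℕ} (hx : x < N) : Perc.rotP N p (rh N x) = rh N (p x) := by
  rw [rot_of_lt (rh_lt hx), rh'_rh hx]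

end PatB

theorem NC.rotP (h : NC N p) : NC N (rotP N p) := by
  constructor
  · intro x hx
    rw [rot_of_lt hx]
    exact rh_lt (h.lt _ (rh'_lt hx))
  · intro x
    by_cases hx : x < N
    · rw [rot_of_lt hx, rot_rh (h.lt _ (rh'_lt hx)), h.inv, rh_rh' hx]
    · rw [rot_of_ge (x := x) (by omega), rot_of_ge (x := x) (by omega)]
  · intro x hx he
    rw [rot_of_lt hx] at he
    have h1 := rh'_lt hx
    have h2 := h.lt _ h1
    have h3 := congrArg (rh' N) he
    rw [rh'_rh h2] at h3
    exact h.ne _ h1 h3
  · intro x hx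
    exact rot_of_ge hx
  · intro x y hxy hy
    by_cases hx : x < N
    · have hlt : Perc.rotP N p x < N := by
        rw [rot_of_lt hx]
        exact rh_lt (h.lt _ (rh'_lt hx))
      have hyN : y < N := by omega
      rw [rot_of_lt hx] at hy hlt ⊢
      rw [rot_of_lt hyN]
      have ex : rh' N x = x + 1 := by unfold rh'; rw [if_neg (by omega)]
      have ey : rh' N y = y + 1 := by unfold rh'; rw [if_neg (by omega)]
      rw [ex] at hy hlt ⊢
      rw [ey]
      have h1 := h.lt (x + 1) (by omega)
      have h2 := h.lt (y + 1) (by omega)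
      by_cases h0 : p (x + 1) = 0
      · have h00 : p 0 = x + 1 := by rw [← h0, h.inv]
        have h3 : p (y + 1) ≠ 0 := by
          intro h3
          have : p 0 = y + 1 := by rw [← h3, h.inv]
          omega
        have h4 : p (y + 1) ≠ x + 1 := by
          intro h4
          have : p (x + 1) = y + 1 := by rw [← h4, h.inv]
          omega
        have h5 : ¬ p (y + 1) < x + 1 := by
          intro h5
          have := h.nc 0 (p (y + 1)) (by omega) (by omega)
          rw [h.inv] at this
          omega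
        unfold rh
        rw [if_pos h0, if_neg h3]
        omega
      · have e3 : rh N (p (x + 1)) = p (x + 1) - 1 := by unfold rh; rw [if_neg h0]
        rw [e3] at hy ⊢
        have h3 := h.nc (x + 1) (y + 1) (by omega) (by omega)
        have e4 : rh N (p (y + 1)) = p (y + 1) - 1 := by unfold rh; rw [if_neg (by omega)]
        rw [e4]
        omega
    · rw [rot_of_ge (by omega)] at hy; omega

theorem rotP_injOn : Set.InjOn (rotP N) {p | NC N p} := by
  intro p hp p' hp' he
  have hp : NC N p := hp
  have hp' : NC N p' := hp'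
  funext x
  by_cases hx : x < N
  · have h1 := congrFun he (rh N x)
    rw [rot_rh hx, rot_rh hx] at h1
    exact rh_inj (hp.lt x hx) (hp'.lt x hx) h1
  · rw [hp.out x (by omega), hp'.out x (by omega)]

theorem rotP_insArc_zero (h : NC N p) : rotP (N + 2) (insArc 0 p) = cupO N p := by
  funext x
  by_cases hx : x < N + 2
  · rw [rot_of_lt hx]
    unfold cupO
    by_cases h0 : x = 0
    · subst h0
      have : rh' (N + 2) 0 = 0 + 1 := by unfold rh'; rw [if_neg (by omega)]
      rw [this, ins_right, if_pos rfl]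
      unfold rh; rw [if_pos rfl]; omega
    · rw [if_neg h0]
      by_cases h1 : x = N + 1
      · subst h1
        have : rh' (N + 2) (N + 1) = 0 := by unfold rh'; rw [if_pos (by omega)]
        rw [this, ins_left, if_pos rfl]
        unfold rh; rw [if_neg (by omega)]
      · rw [if_neg h1, if_pos (by omega)]
        have : rh' (N + 2) x = sh 0 (x - 1) := by
          unfold rh' sh; rw [if_neg (by omega), if_neg (by omega)]; omega
        rw [this, ins_sh, sh_zero]
        unfold rh
        rw [if_neg (by omega)]; omega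
  · rw [rot_of_ge (by omega)]
    unfold cupO
    rw [if_neg (by omega), if_neg (by omega), if_neg (by omega)]

theorem rotP_insArc (h : NC N p) {k : ℕ} (hk : 0 < k) (hkN : k ≤ N) :
    rotP (N + 2) (insArc k p) = insArc (k - 1) (rotP N p) := by
  obtain ⟨j, rfl⟩ : ∃ j, k = j + 1 := ⟨k - 1, by omega⟩
  have hj : j + 1 - 1 = j := rfl
  rw [hj]
  funext x
  rcases cases_sh j x with rfl | rfl | ⟨a, rfl⟩
  · rw [ins_left, rot_of_lt (by omega)]
    have : rh' (N + 2) x = x + 1 := by unfold rh'; rw [if_neg (by omega)]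
    rw [this, ins_left]
    unfold rh; rw [if_neg (by omega)]; omega
  · rw [ins_right, rot_of_lt (by omega)]
    have : rh' (N + 2) (j + 1) = j + 1 + 1 := by unfold rh'; rw [if_neg (by omega)]
    rw [this, ins_right]
    unfold rh; rw [if_neg (by omega)]; omega
  · rw [ins_sh]
    by_cases ha : a < N
    · have h1 : sh j a < N + 2 := (sh_lt_iff (by omega)).mpr ha
      rw [rot_of_lt h1, rot_of_lt ha]
      rw [rh'_sh ha (by omega), ins_sh, rh_sh (h.lt _ (rh'_lt ha)) (by omega)]
    · have h1 : ¬ sh j a < N + 2 := by rw [sh_lt_iff (by omega)]; exact ha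
      rw [rot_of_ge (by omega), rot_of_ge (by omega)]

theorem eAct_insArc_succ (h : NC N p) {i : ℕ} (hi : i + 1 ≤ N) :
    eAct i (insArc (i + 1) p) = insArc i p := by
  have hpi := h.ne i (by omega)
  funext x
  rcases cases_sh i x with rfl | rfl | ⟨a, rfl⟩
  · rw [ins_left, eAct_self]
  · rw [ins_right, eAct_succ]
  · rw [ins_sh]
    unfold eAct
    rw [if_neg sh_ne, if_neg sh_ne']
    by_cases ha : a = i
    · subst ha
      rw [sh_self]
      have e1 : insArc (a + 1) p (a + 2) = a + 1 := ins_right (a + 1) p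
      rw [e1, if_neg (by omega), if_pos rfl]
      have e2 : insArc (a + 1) p a = sh (a + 1) (p a) := by
        have := ins_sh (a + 1) p a
        rwa [sh_succ_self] at this
      rw [e2, sh_succ hpi]
    · rw [← sh_succ ha, ins_sh]
      by_cases hb : p a = i
      · rw [hb, sh_succ_self, if_pos rfl, ins_left, sh_self]
      · rw [sh_succ hb, if_neg sh_ne, if_neg sh_ne']

theorem eAct_succ_insArc (h : NC N p) {i : ℕ} (hi : i + 1 ≤ N) :
    eAct (i + 1) (insArc i p) = insArc (i + 1) p := by
  have hpi := h.ne i (by omega)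
  funext x
  rcases cases_sh (i + 1) x with rfl | rfl | ⟨a, rfl⟩
  · rw [ins_left, eAct_self]
  · rw [ins_right, eAct_succ]
  · rw [ins_sh]
    unfold eAct
    rw [if_neg sh_ne, if_neg sh_ne']
    by_cases ha : a = i
    · subst ha
      rw [sh_succ_self, ins_left, if_pos rfl]
      have e2 : insArc a p (a + 1 + 1) = sh a (p a) := by
        have : a + 1 + 1 = sh a a := by rw [sh_self]
        rw [this, ins_sh]
      rw [e2, sh_succ hpi]
    · rw [sh_succ ha, ins_sh]
      by_cases hb : p a = i
      · rw [hb, sh_self, if_neg (by omega), if_pos rfl, ins_right, sh_succ_self]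
      · rw [sh_succ hb, if_neg sh_ne', if_neg]
        rw [← sh_succ hb]
        exact sh_ne'

theorem eAct_insArc_of_le (h : NC N p) {i k : ℕ} (hik : k + 2 ≤ i) (hi : i + 1 < N + 2) :
    eAct i (insArc k p) = insArc k (eAct (i - 2) p) := by
  apply eAct_ins
  · unfold sh; rw [if_neg (by omega)]; omega
  · unfold sh; rw [if_neg (by omega)]; omega

theorem eAct_insArc_of_lt (h : NC N p) {i k : ℕ} (hik : i + 1 < k) (hk : k ≤ N) :
    eAct i (insArc k p) = insArc k (eAct i p) := by
  apply eAct_ins
  · unfold sh; rw [if_pos (by omega)]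
  · unfold sh; rw [if_pos (by omega)]

theorem nc_nest (m : ℕ) : NC (2 * m) (nest m) := by
  constructor
  · intro x hx; unfold nest; split_ifs; omega
  · intro x; unfold nest; split_ifs <;> omega
  · intro x hx; unfold nest; split_ifs; omega
  · intro x hx; unfold nest; split_ifs <;> omega
  · intro x y hxy; unfold nest; split_ifs <;> omega

theorem rotP_nest (n : ℕ) : rotP (2 * n + 2) (nest (n + 1)) = insArc (2 * n) (nest n) := by
  funext x
  rcases cases_sh (2 * n) x with rfl | rfl | ⟨a, rfl⟩
  · rw [ins_left, rot_of_lt (by omega)]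
    unfold rh rh' nest
    split_ifs <;> omega
  · rw [ins_right, rot_of_lt (by omega)]
    unfold rh rh' nest
    split_ifs <;> omega
  · rw [ins_sh]
    by_cases ha : sh (2 * n) a < 2 * n + 2
    · rw [rot_of_lt ha]
      unfold rh rh' nest sh at *
      split_ifs at * <;> omega
    · rw [rot_of_ge (by omega)]
      unfold nest sh at *
      split_ifs at * <;> omega

theorem NC.resP {L : ℕ} (h : NC (L + 2) p) (hp : p L = L + 1) : NC L (resP L p) := by
  have hp' : p (L + 1) = L := by rw [← hp, h.inv]
  have e1 : ∀ x < L, Perc.resP L p x = p x := by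
    intro x hx; unfold Perc.resP; rw [if_pos hx]
  have e2 : ∀ x, L ≤ x → Perc.resP L p x = x := by
    intro x hx; unfold Perc.resP; rw [if_neg (by omega)]
  have h1 : ∀ x < L, p x < L := by
    intro x hx
    have h2 := h.lt x (by omega)
    have h3 : p x ≠ L := by
      intro h3
      have := h.inv x
      rw [h3, hp] at this
      omega
    have h4 : p x ≠ L + 1 := by
      intro h4
      have := h.inv x
      rw [h4, hp'] at this
      omega
    omega
  constructor
  · intro x hx; rw [e1 x hx]; exact h1 x hx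
  · intro x
    by_cases hx : x < L
    · rw [e1 x hx, e1 _ (h1 x hx), h.inv]
    · rw [e2 x (by omega), e2 x (by omega)]
  · intro x hx; rw [e1 x hx]; exact h.ne x (by omega)
  · intro x hx; exact e2 x hx
  · intro x y hxy hy
    by_cases hx : x < L
    · rw [e1 x hx] at hy ⊢
      have h2 := h1 x hx
      rw [e1 y (by omega)]
      exact h.nc x y hxy hy
    · rw [e2 x (by omega)] at hy; omega

end Pool.Agent.Perc

end PartpercPatB

section PartpercPat



end PartpercPat

section PartpercSpinDefs

/-!
# Spin embedding of link patterns: definitions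

`κ + κ⁻¹ = 1` is written as `κ ^ 2 = κ - 1`. A spin configuration is `σ : ℕ → Bool` (only the first
`N` spins matter), `true` is spin up.
-/

set_option autoImplicit false

namespace Pool.Agent.Perc

open Finset Function

/-- Weight of an arc from the left spin `s` to the right spin `s'`. -/
def sw (κ : ℂ) (s s' : Bool) : ℂ := if s = s' then 0 else if s then κ else 1

/-- Spin vector of a link pattern of `N` sites. -/
def Phi (κ : ℂ) (N : ℕ) (p : ℕ → ℕ) (σ : ℕ → Bool) : ℂ :=
  ∏ x ∈ range N, if x < p x then sw κ (σ x) (σ (p x)) else 1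

/-- Contraction of the spins `i`, `i + 1`. -/
noncomputable def capS (κ : ℂ) (i : ℕ) (X : (ℕ → Bool) → ℂ) (σ : ℕ → Bool) : ℂ :=
  X (update (update σ i true) (i + 1) false) + κ⁻¹ * X (update (update σ i false) (i + 1) true)

/-- The Temperley-Lieb generator on spin vectors. -/
noncomputable def eS (κ : ℂ) (i : ℕ) (X : (ℕ → Bool) → ℂ) (σ : ℕ → Bool) : ℂ :=
  sw κ (σ i) (σ (i + 1)) * capS κ i X σ

/-- The face operator `(1 + e_i) / 2` on spin vectors. -/
noncomputable def rS (κ : ℂ) (i : ℕ) (X : (ℕ → Bool) → ℂ) (σ : ℕ → Bool) : ℂ :=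
  (X σ + eS κ i X σ) / 2

/-- Sum over the spins of the sites `0, …, N - 1`, all other spins are down. -/
def sumS (N : ℕ) (X : (ℕ → Bool) → ℂ) : ℂ := ∑ T ∈ (range N).powerset, X fun k => decide (k ∈ T)

/-- `+ 1` for up, `- 1` for down. -/
def sgn (b : Bool) : ℤ := if b then 1 else -1

/-- Linear extension of `Phi`. -/
noncomputable def PhiV (κ : ℂ) (N : ℕ) (f : (ℕ → ℕ) →₀ ℂ) (σ : ℕ → Bool) : ℂ :=
  f.sum fun p c => c * Phi κ N p σ

/-- The vector is supported on link patterns of `N` sites. -/
def SuppNC (N : ℕ) (f : (ℕ → ℕ) →₀ ℂ) : Prop := ∀ p ∈ f.support, NC N p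

end Pool.Agent.Perc

end PartpercSpinDefs

section PartpercSpinC

/-!
# Sums over spins (task SpinC)
-/

set_option autoImplicit false

namespace Pool.Agent.Perc

open Finset Function

variable {κ : ℂ} {N : ℕ} {p : ℕ → ℕ}

theorem sumS_congr {X Y : (ℕ → Bool) → ℂ} (h : ∀ σ, (∀ k, N ≤ k → σ k = false) → X σ = Y σ) :
    sumS N X = sumS N Y := by
  unfold sumS
  refine Finset.sum_congr rfl fun T hT => h _ fun k hk => ?_
  rw [Finset.mem_powerset] at hT
  rw [decide_eq_false_iff_not]
  intro h1
  have := Finset.mem_range.1 (hT h1)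
  omega

namespace SpinC

/-- The configuration of a set. -/
def conf (T : Finset ℕ) : ℕ → Bool := fun k => decide (k ∈ T)

/-- Toggle the site `i`. -/
def tog (i : ℕ) (T : Finset ℕ) : Finset ℕ := if i ∈ T then T.erase i else insert i T

lemma tog_tog (i : ℕ) (T : Finset ℕ) : tog i (tog i T) = T := by
  unfold tog
  by_cases h : i ∈ T
  · rw [if_pos h, if_neg (Finset.notMem_erase i T), Finset.insert_erase h]
  · rw [if_neg h, if_pos (Finset.mem_insert_self i T), Finset.erase_insert h]

lemma tog_mem {i : ℕ} (hi : i < N) {T : Finset ℕ} (hT : T ∈ (range N).powerset) :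
    tog i T ∈ (range N).powerset := by
  rw [Finset.mem_powerset] at hT ⊢
  unfold tog
  split_ifs with h
  · exact (Finset.erase_subset i T).trans hT
  · exact Finset.insert_subset (Finset.mem_range.2 hi) hT

lemma sum_pair (i : ℕ) (X : (ℕ → Bool) → ℂ) (T : Finset ℕ) :
    X (conf T) + X (conf (tog i T)) = ∑ a : Bool, X (update (conf T) i a) := by
  rw [Fintype.sum_bool]
  by_cases h : i ∈ T
  · have h1 : conf T = update (conf T) i true := by
      rw [eq_comm, Function.update_eq_self_iff]
      exact (decide_eq_true h).symm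
    have h2 : conf (tog i T) = update (conf T) i false := by
      funext k
      unfold conf tog
      rw [if_pos h]
      by_cases hk : k = i
      · subst hk
        simp
      · rw [update_of_ne hk]
        simp [hk]
    rw [h2, ← h1]
  · have h1 : conf T = update (conf T) i false := by
      rw [eq_comm, Function.update_eq_self_iff]
      exact (decide_eq_false h).symm
    have h2 : conf (tog i T) = update (conf T) i true := by
      funext k
      unfold conf tog
      rw [if_neg h]
      by_cases hk : k = i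
      · subst hk
        simp
      · rw [update_of_ne hk]
        simp [hk]
    rw [h2, ← h1, add_comm]

lemma split_one {i : ℕ} (hi : i < N) (X : (ℕ → Bool) → ℂ) :
    sumS N X = (∑ a : Bool, sumS N (fun σ => X (update σ i a))) / 2 := by
  have h1 : ∑ T ∈ (range N).powerset, X (conf (tog i T)) =
      ∑ T ∈ (range N).powerset, X (conf T) := by
    refine Finset.sum_nbij' (tog i) (tog i) ?_ ?_ ?_ ?_ ?_
    · exact fun T hT => tog_mem hi hT
    · exact fun T hT => tog_mem hi hT
    · exact fun T _ => tog_tog i T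
    · exact fun T _ => tog_tog i T
    · exact fun T _ => rfl
  have h2 : ∑ a : Bool, sumS N (fun σ => X (update σ i a)) =
      ∑ T ∈ (range N).powerset, ∑ a : Bool, X (update (conf T) i a) := by
    rw [Finset.sum_comm]
    rfl
  rw [h2, Finset.sum_congr rfl fun T _ => (sum_pair i X T).symm, Finset.sum_add_distrib, h1]
  change ∑ T ∈ (range N).powerset, X (conf T) = _
  ring

end SpinC

/-- Splitting the sum at two neighbouring spins. -/
theorem sumS_split {i : ℕ} (hi : i + 1 < N) (X : (ℕ → Bool) → ℂ) :
    sumS N X = (∑ a : Bool, ∑ b : Bool,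
      sumS N (fun σ => X (update (update σ i a) (i + 1) b))) / 4 := by
  rw [SpinC.split_one hi X]
  have h1 : ∀ b : Bool, sumS N (fun σ => X (update σ (i + 1) b)) =
      (∑ a : Bool, sumS N (fun σ => X (update (update σ i a) (i + 1) b))) / 2 := fun b =>
    SpinC.split_one (by omega) (fun σ => X (update σ (i + 1) b))
  simp only [h1, Fintype.sum_bool]
  ring

/-- `e_i` is symmetric for the bilinear form. -/
theorem sumS_eS (hκ : κ ≠ 0) {i : ℕ} (hi : i + 1 < N) (A X : (ℕ → Bool) → ℂ) :
    sumS N (fun σ => A σ * eS κ i X σ) = sumS N (fun σ => eS κ i A σ * X σ) := by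
  have hne : i ≠ i + 1 := by omega
  have hc : ∀ (Z : (ℕ → Bool) → ℂ) (σ : ℕ → Bool) (a b : Bool),
      capS κ i Z (update (update σ i a) (i + 1) b) = capS κ i Z σ := by
    intro Z σ a b
    have hu : ∀ s t : Bool, update (update (update (update σ i a) (i + 1) b) i s) (i + 1) t =
        update (update σ i s) (i + 1) t := by
      intro s t
      funext k
      by_cases h1 : k = i + 1
      · subst h1
        simp
      · rw [update_of_ne h1, update_of_ne h1]
        by_cases h2 : k = i
        · subst h2
          simp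
        · rw [update_of_ne h2, update_of_ne h1, update_of_ne h2, update_of_ne h2]
    unfold capS
    rw [hu, hu]
  have hs : ∀ (σ : ℕ → Bool) (a b : Bool),
      sw κ (update (update σ i a) (i + 1) b i) (update (update σ i a) (i + 1) b (i + 1)) =
        sw κ a b := by
    intro σ a b
    rw [update_self, update_of_ne hne, update_self]
  rw [sumS_split hi (fun σ => A σ * eS κ i X σ), sumS_split hi (fun σ => eS κ i A σ * X σ)]
  congr 1
  simp only [eS, hc, hs, Fintype.sum_bool]
  unfold sumS
  simp only [← Finset.sum_add_distrib]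
  refine Finset.sum_congr rfl fun T _ => ?_
  simp only [sw, capS, if_true, Bool.false_eq_true, if_false, reduceCtorEq]
  field_simp
  ring

end Pool.Agent.Perc

end PartpercSpinC

section PartpercSpinA

/-!
# Spin embedding: intertwining (task SpinA)
-/

set_option autoImplicit false

namespace Pool.Agent.Perc

open Finset Function

variable {κ : ℂ} {N : ℕ} {p : ℕ → ℕ}

/-- Only the first `N` spins matter. -/
theorem Phi_congr (h : NC N p) {σ τ : ℕ → Bool} (hst : ∀ k < N, σ k = τ k) :
    Phi κ N p σ = Phi κ N p τ := by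
  unfold Phi
  refine Finset.prod_congr rfl fun x hx => ?_
  have hx' := Finset.mem_range.1 hx
  rw [hst x hx', hst (p x) (h.lt x hx')]

/-- The spins of an arc are opposite. -/
theorem ne_of_Phi_ne_zero (h : NC N p) {σ : ℕ → Bool} (hσ : Phi κ N p σ ≠ 0) {x : ℕ} (hx : x < N) :
    σ (p x) = !(σ x) := by
  by_contra hne
  have heq : σ (p x) = σ x := by
    cases h1 : σ (p x) <;> cases h2 : σ x <;> simp_all
  apply hσ
  unfold Phi
  rcases lt_or_gt_of_ne (h.ne x hx) with h1 | h1
  · refine Finset.prod_eq_zero (Finset.mem_range.2 (h.lt x hx)) ?_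
    rw [h.inv, if_pos h1]
    unfold sw
    rw [if_pos heq]
  · refine Finset.prod_eq_zero (Finset.mem_range.2 hx) ?_
    rw [if_pos h1]
    unfold sw
    rw [if_pos heq.symm]

namespace SpinA

/-- Weight of the arc joining `x` and `y`. -/
def W (κ : ℂ) (σ : ℕ → Bool) (x y : ℕ) : ℂ :=
  if x < y then sw κ (σ x) (σ y) else sw κ (σ y) (σ x)

/-- The factor of the site `x`. -/
def F (κ : ℂ) (p : ℕ → ℕ) (σ : ℕ → Bool) (x : ℕ) : ℂ :=
  if x < p x then sw κ (σ x) (σ (p x)) else 1

lemma F_mul (h : NC N p) (σ : ℕ → Bool) {x : ℕ} (hx : x < N) :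
    F κ p σ x * F κ p σ (p x) = W κ σ x (p x) := by
  unfold F W
  rw [h.inv]
  rcases lt_or_gt_of_ne (h.ne x hx) with h1 | h1
  · rw [if_neg (not_lt.2 h1.le), if_pos h1, if_neg (not_lt.2 h1.le), one_mul]
  · rw [if_pos h1, if_neg (not_lt.2 h1.le), if_pos h1, mul_one]

/-- Splitting off two arcs. -/
lemma split (h : NC N p) {x y : ℕ} (hx : x < N) (hy : y < N) (hxy : x ≠ y) (hp : p x ≠ y)
    (σ : ℕ → Bool) : Phi κ N p σ =
      (∏ z ∈ range N \ {x, y, p x, p y}, F κ p σ z) * (W κ σ x (p x) * W κ σ y (p y)) := by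
  have hS : ({x, y, p x, p y} : Finset ℕ) ⊆ range N := by
    intro z hz
    simp only [Finset.mem_insert, Finset.mem_singleton] at hz
    rcases hz with rfl | rfl | rfl | rfl
    · exact Finset.mem_range.2 hx
    · exact Finset.mem_range.2 hy
    · exact Finset.mem_range.2 (h.lt _ hx)
    · exact Finset.mem_range.2 (h.lt _ hy)
  have h1 : p y ≠ x := fun h0 => hp (by rw [← h0, h.inv])
  have h2 : p x ≠ p y := fun h0 => hxy (by rw [← h.inv x, h0, h.inv])
  have h3 := h.ne x hx
  have h4 := h.ne y hy
  change ∏ z ∈ range N, F κ p σ z = _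
  rw [← Finset.prod_sdiff hS, ← F_mul h σ hx, ← F_mul h σ hy]
  congr 1
  rw [Finset.prod_insert (by simp; exact ⟨hxy, h3.symm, h1.symm⟩),
    Finset.prod_insert (by simp; exact ⟨fun h0 => hp h0.symm, h4.symm⟩),
    Finset.prod_insert (by simp; exact h2), Finset.prod_singleton]
  ring

/-- Splitting off one arc. -/
lemma split1 (h : NC N p) {x : ℕ} (hx : x < N) (σ : ℕ → Bool) : Phi κ N p σ =
      (∏ z ∈ range N \ {x, p x}, F κ p σ z) * W κ σ x (p x) := by
  have hS : ({x, p x} : Finset ℕ) ⊆ range N := by
    intro z hz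
    simp only [Finset.mem_insert, Finset.mem_singleton] at hz
    rcases hz with rfl | rfl
    · exact Finset.mem_range.2 hx
    · exact Finset.mem_range.2 (h.lt _ hx)
  change ∏ z ∈ range N, F κ p σ z = _
  rw [← Finset.prod_sdiff hS, ← F_mul h σ hx]
  congr 1
  rw [Finset.prod_insert (by simp; exact (h.ne x hx).symm), Finset.prod_singleton]

lemma F_congr {p' : ℕ → ℕ} {σ τ : ℕ → Bool} {x : ℕ} (h1 : p x = p' x) (h2 : σ x = τ x)
    (h3 : σ (p x) = τ (p x)) : F κ p σ x = F κ p' τ x := by
  unfold F
  rw [← h1, h2, h3]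

end SpinA

open SpinA in
/-- The spin embedding intertwines the Temperley-Lieb generators. -/
theorem eS_Phi (hκ : κ ^ 2 = κ - 1) (h : NC N p) {i : ℕ} (hi : i + 1 < N) (σ : ℕ → Bool) :
    eS κ i (Phi κ N p) σ = Phi κ N (eAct i p) σ := by
  have hinv : κ⁻¹ = 1 - κ := by
    apply inv_eq_of_mul_eq_one_right
    linear_combination -hκ
  have hi0 : i < N := by omega
  unfold eS capS
  rw [hinv]
  by_cases ha : p i = i + 1
  · rw [eAct_of_eq h hi ha]
    have key : ∀ τ : ℕ → Bool, (∀ k, k ≠ i → k ≠ i + 1 → τ k = σ k) →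
        Phi κ N p τ = (∏ z ∈ range N \ {i, p i}, F κ p σ z) * sw κ (τ i) (τ (i + 1)) := by
      intro τ hτ
      rw [split1 h hi0]
      congr 1
      · refine Finset.prod_congr rfl fun z hz => ?_
        simp only [Finset.mem_sdiff, Finset.mem_insert, Finset.mem_singleton, not_or] at hz
        obtain ⟨_, h1, h2⟩ := hz
        refine F_congr rfl (hτ z h1 (ha ▸ h2)) (hτ _ ?_ ?_)
        · intro h0
          apply h2
          rw [← h0, h.inv]
        · intro h0
          apply h1
          rw [← h.inv z, h0, ← ha, h.inv]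
      · unfold W
        rw [ha, if_pos (Nat.lt_succ_self i)]
    rw [key σ (fun _ _ _ => rfl), key _ (fun k h1 h2 => by
      rw [update_of_ne h2, update_of_ne h1]), key _ (fun k h1 h2 => by
      rw [update_of_ne h2, update_of_ne h1])]
    have hne : i ≠ i + 1 := by omega
    simp only [update_self, update_of_ne hne]
    simp only [sw, if_true, Bool.false_eq_true, if_false, reduceCtorEq]
    ring
  · have hb : p (i + 1) ≠ i := by
      intro h0
      apply ha
      have h1 := h.inv (i + 1)
      rwa [h0] at h1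
    have hne : i ≠ i + 1 := by omega
    set a := p i with hadef
    set b := p (i + 1) with hbdef
    have hai : a ≠ i := h.ne i hi0
    have hbi : b ≠ i + 1 := h.ne (i + 1) hi
    have hpa : p a = i := by rw [hadef, h.inv]
    have hpb : p b = i + 1 := by rw [hbdef, h.inv]
    have hab : a ≠ b := by
      intro h0
      rw [h0, hpb] at hpa
      omega
    have haN : a < N := h.lt i hi0
    have hbN : b < N := h.lt (i + 1) hi
    have hE := NC.eAct h hi
    have hEi : eAct i p i = i + 1 := by simp [eAct]
    have hEa : eAct i p a = b := by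
      unfold eAct
      rw [if_neg hai, if_neg ha, if_pos hpa]
    have key : ∀ τ : ℕ → Bool, (∀ k, k ≠ i → k ≠ i + 1 → τ k = σ k) →
        Phi κ N p τ = (∏ z ∈ range N \ {i, i + 1, a, b}, F κ p σ z) *
          (W κ τ i a * W κ τ (i + 1) b) := by
      intro τ hτ
      rw [split h hi0 hi hne ha]
      congr 1
      refine Finset.prod_congr rfl fun z hz => ?_
      simp only [Finset.mem_sdiff, Finset.mem_insert, Finset.mem_singleton, not_or] at hz
      obtain ⟨_, h1, h2, h3, h4⟩ := hz
      refine F_congr rfl (hτ z h1 h2) (hτ _ ?_ ?_)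
      · intro h0
        apply h3
        change z = p i
        rw [← h0, h.inv]
      · intro h0
        apply h4
        change z = p (i + 1)
        rw [← h0, h.inv]
    have key2 : Phi κ N (eAct i p) σ = (∏ z ∈ range N \ {i, i + 1, a, b}, F κ p σ z) *
          (W κ σ i (i + 1) * W κ σ a b) := by
      have h5 := split (κ := κ) hE hi0 haN hai.symm (by rw [hEi]; exact fun h0 => ha h0.symm) σ
      rw [hEi, hEa] at h5
      rw [h5]
      have hset : ({i, a, i + 1, b} : Finset ℕ) = {i, i + 1, a, b} := by
        ext z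
        simp only [Finset.mem_insert, Finset.mem_singleton]
        tauto
      rw [hset]
      congr 1
      refine Finset.prod_congr rfl fun z hz => ?_
      simp only [Finset.mem_sdiff, Finset.mem_insert, Finset.mem_singleton, not_or] at hz
      obtain ⟨_, h1, h2, h3, h4⟩ := hz
      have hz : eAct i p z = p z := by
        unfold eAct
        rw [if_neg h1, if_neg h2, if_neg, if_neg]
        · intro h0
          apply h4
          change z = p (i + 1)
          rw [← h0, h.inv]
        · intro h0
          apply h3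
          change z = p i
          rw [← h0, h.inv]
      exact F_congr hz rfl rfl
    rw [key2, key _ (fun k h1 h2 => by
      rw [update_of_ne h2, update_of_ne h1]), key _ (fun k h1 h2 => by
      rw [update_of_ne h2, update_of_ne h1])]
    have e1 : ∀ s t : Bool, update (update σ i s) (i + 1) t i = s := by
      intro s t
      rw [update_of_ne hne, update_self]
    have e2 : ∀ s t : Bool, update (update σ i s) (i + 1) t (i + 1) = t := by
      intro s t
      rw [update_self]
    have e3 : ∀ s t : Bool, update (update σ i s) (i + 1) t a = σ a := by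
      intro s t
      rw [update_of_ne ha, update_of_ne hai]
    have e4 : ∀ s t : Bool, update (update σ i s) (i + 1) t b = σ b := by
      intro s t
      rw [update_of_ne hbi, update_of_ne hb]
    have hord : (i < a ∧ i + 1 < b ∧ b < a) ∨ (a < i ∧ i + 1 < b ∧ a < b) ∨
        (a < i ∧ b < i + 1 ∧ b < a) := by
      rcases lt_or_gt_of_ne hai with h1 | h1
      · rcases lt_or_gt_of_ne hbi with h2 | h2
        · refine Or.inr (Or.inr ⟨h1, h2, ?_⟩)
          by_contra h3
          have h4 : a < b := by omega
          have h5 := h.nc a b h4 (by rw [hpa]; omega)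
          rw [hpa, hpb] at h5
          omega
        · exact Or.inr (Or.inl ⟨h1, h2, by omega⟩)
      · rcases lt_or_gt_of_ne hbi with h2 | h2
        · exfalso
          have h5 := h.nc b i (by omega) (by rw [hpb]; omega)
          rw [hpb] at h5
          omega
        · refine Or.inl ⟨h1, h2, ?_⟩
          have h5 := h.nc i (i + 1) (by omega) (by omega)
          omega
    unfold W
    simp only [e1, e2, e3, e4, if_pos (Nat.lt_succ_self i)]
    generalize (∏ z ∈ range N \ {i, i + 1, a, b}, F κ p σ z) = K
    generalize sw κ (σ i) (σ (i + 1)) = G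
    rcases hord with ⟨h1, h2, h3⟩ | ⟨h1, h2, h3⟩ | ⟨h1, h2, h3⟩
    · simp only [if_pos h1, if_pos h2, if_neg (not_lt.2 h3.le)]
      cases σ a <;> cases σ b <;> simp only [sw, if_true, Bool.false_eq_true, if_false,
        reduceCtorEq] <;> first | ring1 | linear_combination (-(G * K)) * hκ |
          linear_combination (-(G * K * κ)) * hκ
    · simp only [if_neg (not_lt.2 h1.le), if_pos h2, if_pos h3]
      cases σ a <;> cases σ b <;> simp only [sw, if_true, Bool.false_eq_true, if_false,
        reduceCtorEq] <;> first | ring1 | linear_combination (-(G * K)) * hκ |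
          linear_combination (-(G * K * κ)) * hκ
    · simp only [if_neg (not_lt.2 h1.le), if_neg (not_lt.2 h2.le),
        if_neg (not_lt.2 h3.le)]
      cases σ a <;> cases σ b <;> simp only [sw, if_true, Bool.false_eq_true, if_false,
        reduceCtorEq] <;> first | ring1 | linear_combination (-(G * K)) * hκ |
          linear_combination (-(G * K * κ)) * hκ

end Pool.Agent.Perc

end PartpercSpinA

section PartpercSpinB

/-!
# Spin embedding: further properties (task SpinB)
-/

set_option autoImplicit false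

namespace Pool.Agent.Perc

open Finset Function

variable {κ : ℂ} {N : ℕ} {p : ℕ → ℕ}

theorem Phi_cupO (h : NC N p) (σ : ℕ → Bool) :
    Phi κ (N + 2) (cupO N p) σ = sw κ (σ 0) (σ (N + 1)) * Phi κ N p (fun k => σ (k + 1)) := by
  unfold Phi
  rw [Finset.prod_range_succ, Finset.prod_range_succ']
  have h0 : cupO N p 0 = N + 1 := by simp [cupO]
  have h1 : cupO N p (N + 1) = 0 := by simp [cupO]
  have h2 : ∀ x ∈ range N, (if x + 1 < cupO N p (x + 1) then
      sw κ (σ (x + 1)) (σ (cupO N p (x + 1))) else 1) =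
      if x < p x then sw κ (σ (x + 1)) (σ (p x + 1)) else 1 := by
    intro x hx
    have hx' := Finset.mem_range.1 hx
    have h3 : cupO N p (x + 1) = p x + 1 := by
      unfold cupO
      rw [if_neg (by omega), if_neg (by omega), if_pos (by omega), Nat.add_sub_cancel]
    rw [h3]
    by_cases h4 : x < p x
    · rw [if_pos h4, if_pos (by omega)]
    · rw [if_neg h4, if_neg (by omega)]
  rw [Finset.prod_congr rfl h2, h0, h1, if_pos (by omega), if_neg (by omega), mul_one, mul_comm]

namespace SpinB

lemma aux {L : ℕ} {p' : ℕ → ℕ} (h1 : p' L = L + 1) (h2 : p' (L + 1) = L)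
    (h3 : ∀ x < L, p' x = p x) (σ : ℕ → Bool) :
    Phi κ (L + 2) p' σ = Phi κ L p σ * sw κ (σ L) (σ (L + 1)) := by
  unfold Phi
  rw [Finset.prod_range_succ, Finset.prod_range_succ, h1, h2, if_pos (by omega),
    if_neg (by omega), mul_one]
  congr 1
  refine Finset.prod_congr rfl fun x hx => ?_
  rw [h3 x (Finset.mem_range.1 hx)]

end SpinB

theorem Phi_insArc_last (h : NC N p) (σ : ℕ → Bool) :
    Phi κ (N + 2) (insArc N p) σ = Phi κ N p σ * sw κ (σ N) (σ (N + 1)) := by
  refine SpinB.aux (by simp [insArc]) (by simp [insArc]) ?_ σ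
  intro x hx
  have h1 := h.lt x hx
  unfold insArc
  rw [if_neg (by omega), if_neg (by omega)]
  simp only [if_pos hx, if_pos h1]

theorem Phi_resP {L : ℕ} (h : NC (L + 2) p) (hp : p L = L + 1) (σ : ℕ → Bool) :
    Phi κ (L + 2) p σ = Phi κ L (resP L p) σ * sw κ (σ L) (σ (L + 1)) := by
  refine SpinB.aux hp (by rw [← hp, h.inv]) ?_ σ
  intro x hx
  unfold resP
  rw [if_pos hx]

namespace SpinB

open SpinA SpinC

lemma conf_congr {T T' : Finset ℕ} {x : ℕ} (h : x ∈ T ↔ x ∈ T') : conf T x = conf T' x := by
  unfold conf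
  by_cases h1 : x ∈ T
  · rw [decide_eq_true h1, decide_eq_true (h.1 h1)]
  · rw [decide_eq_false h1, decide_eq_false (fun h2 => h1 (h.2 h2))]

lemma sum_set (hinv : ∀ x, p (p x) = x) (n : ℕ) : ∀ S : Finset ℕ, S.card = n →
    (∀ x ∈ S, p x ∈ S) → (∀ x ∈ S, p x ≠ x) →
    ∑ T ∈ S.powerset, ∏ x ∈ S, F κ p (conf T) x = (1 + κ) ^ (S.card / 2) := by
  induction n using Nat.strong_induction_on with
  | _ n ih =>
    intro S hn hS hS'
    rcases S.eq_empty_or_nonempty with rfl | ⟨x, hx⟩
    · simp
    · set y := p x with hy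
      have hyS : y ∈ S := hS x hx
      have hyx : y ≠ x := hS' x hx
      have hpy : p y = x := hinv x
      set S' := (S.erase x).erase y with hS'def
      have hxS' : x ∉ S' := fun h0 => by
        rw [hS'def, Finset.mem_erase] at h0
        exact Finset.notMem_erase x S h0.2
      have hyS' : y ∉ S' := Finset.notMem_erase y _
      have hins : S = insert x (insert y S') := by
        rw [hS'def, Finset.insert_erase (Finset.mem_erase.2 ⟨hyx, hyS⟩), Finset.insert_erase hx]
      have hcard : S.card = S'.card + 2 := by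
        rw [hins, Finset.card_insert_of_notMem, Finset.card_insert_of_notMem hyS']
        rw [Finset.mem_insert, not_or]
        exact ⟨hyx.symm, hxS'⟩
      have hxi : x ∉ insert y S' := by
        rw [Finset.mem_insert, not_or]
        exact ⟨hyx.symm, hxS'⟩
      have hcl : ∀ z ∈ S', p z ∈ S' := by
        intro z hz
        rw [hS'def, Finset.mem_erase, Finset.mem_erase] at hz ⊢
        refine ⟨?_, ?_, hS z hz.2.2⟩
        · intro h0
          apply hz.2.1
          rw [← hinv z, h0, hpy]
        · intro h0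
          apply hz.1
          rw [← hinv z, h0]
      have hsub : S' ⊆ S := (Finset.erase_subset _ _).trans (Finset.erase_subset _ _)
      have hmain := ih S'.card (by omega) S' rfl hcl (fun z hz => hS' z (hsub hz))
      have hprod : ∀ T : Finset ℕ, ∏ z ∈ S, F κ p (conf T) z =
          W κ (conf T) x y * ∏ z ∈ S', F κ p (conf T) z := by
        intro T
        rw [hins, Finset.prod_insert hxi, Finset.prod_insert hyS', ← mul_assoc]
        congr 1
        unfold F W
        rw [hpy, ← hy]
        rcases lt_or_gt_of_ne hyx with h1 | h1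
        · rw [if_neg (not_lt.2 h1.le), if_pos h1, if_neg (not_lt.2 h1.le), one_mul]
        · rw [if_pos h1, if_neg (not_lt.2 h1.le), if_pos h1, mul_one]
      have hrest : ∀ T T' : Finset ℕ, (∀ z ∈ S', z ∈ T ↔ z ∈ T') →
          ∏ z ∈ S', F κ p (conf T) z = ∏ z ∈ S', F κ p (conf T') z := by
        intro T T' hT
        refine Finset.prod_congr rfl fun z hz => F_congr rfl (conf_congr (hT z hz))
          (conf_congr (hT _ (hcl z hz)))
      have hW : ∀ T : Finset ℕ, x ∉ T → y ∉ T →
          W κ (conf T) x y + W κ (conf (insert y T)) x y +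
          (W κ (conf (insert x T)) x y + W κ (conf (insert x (insert y T))) x y) = 1 + κ := by
        intro T hxT hyT
        unfold W conf
        simp only [Finset.mem_insert, hyx, hyx.symm, hxT, hyT, decide_true, decide_false, or_false,
          true_or, or_true, false_or]
        by_cases hxy : x < y
        · simp [hxy, sw, add_comm]
        · simp [hxy, sw, add_comm]
      rw [hcard, Nat.add_div_right _ (by norm_num : 0 < 2), pow_succ, ← hmain, Finset.sum_mul]
      have hpow : ∀ f : Finset ℕ → ℂ, ∑ T ∈ S.powerset, f T = ∑ T ∈ S'.powerset,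
          (f T + f (insert y T) + (f (insert x T) + f (insert x (insert y T)))) := by
        intro f
        rw [hins, Finset.sum_powerset_insert hxi, Finset.sum_powerset_insert hyS',
          Finset.sum_powerset_insert hyS']
        simp only [Finset.sum_add_distrib]
      rw [hpow]
      refine Finset.sum_congr rfl fun T hT => ?_
      rw [Finset.mem_powerset] at hT
      have hxT : x ∉ T := fun h0 => hxS' (hT h0)
      have hyT : y ∉ T := fun h0 => hyS' (hT h0)
      rw [hprod, hprod, hprod, hprod]
      rw [hrest (insert y T) T, hrest (insert x T) T, hrest (insert x (insert y T)) T]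
      · rw [← hW T hxT hyT]
        ring
      · intro z hz
        rw [Finset.mem_insert, Finset.mem_insert]
        constructor
        · rintro (rfl | rfl | h0)
          · exact absurd hz hxS'
          · exact absurd hz hyS'
          · exact h0
        · exact fun h0 => Or.inr (Or.inr h0)
      · intro z hz
        rw [Finset.mem_insert]
        constructor
        · rintro (rfl | h0)
          · exact absurd hz hxS'
          · exact h0
        · exact fun h0 => Or.inr h0
      · intro z hz
        rw [Finset.mem_insert]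
        constructor
        · rintro (rfl | h0)
          · exact absurd hz hyS'
          · exact h0
        · exact fun h0 => Or.inr h0

end SpinB

/-- The sum of all components. -/
theorem sumS_Phi (h : NC N p) : sumS N (Phi κ N p) = (1 + κ) ^ (N / 2) := by
  have h1 := SpinB.sum_set (κ := κ) h.inv N (range N) (Finset.card_range N)
    (fun x hx => Finset.mem_range.2 (h.lt x (Finset.mem_range.1 hx)))
    (fun x hx => h.ne x (Finset.mem_range.1 hx))
  rw [Finset.card_range] at h1
  exact h1

namespace SpinB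

lemma sum_sgn_aux (h : NC N p) {σ : ℕ → Bool} (hσ : Phi κ N p σ ≠ 0) {g g' : ℕ}
    (hg' : g' ≤ N) (hgg : Geq N p g g') (hlt : g ≤ g') :
    ∑ k ∈ range g, sgn (σ k) = ∑ k ∈ range g', sgn (σ k) := by
  have h1 : ∑ k ∈ Finset.Ico g g', sgn (σ k) = 0 := by
    refine Finset.sum_involution (fun x _ => p x) ?_ ?_ ?_ ?_
    · intro x hx
      have hx' := Finset.mem_Ico.1 hx
      rw [ne_of_Phi_ne_zero h hσ (by omega : x < N)]
      cases σ x <;> simp [sgn]
    · intro x hx _
      have hx' := Finset.mem_Ico.1 hx
      exact h.ne x (by omega)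
    · intro x hx
      have hx' := Finset.mem_Ico.1 hx
      have h2 := hgg x (by omega)
      rw [Finset.mem_Ico]
      by_cases h3 : p x < g
      · exfalso
        have h4 : p x < g' := by omega
        have h5 : ¬ x < g := by omega
        simp only [h5, h3, h4, hx'.2, iff_true, iff_self] at h2
      · by_cases h4 : p x < g'
        · omega
        · exfalso
          have h5 : ¬ x < g := by omega
          simp only [h5, h3, h4, hx'.2, iff_self, true_iff, iff_false, not_true_eq_false] at h2
    · intro x hx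
      exact h.inv x
  rw [← Finset.sum_range_add_sum_Ico _ hlt, h1, add_zero]

end SpinB

/-- The total spin to the left of two gaps of the same region is the same. -/
theorem sum_sgn_of_geq (h : NC N p) {σ : ℕ → Bool} (hσ : Phi κ N p σ ≠ 0) {g g' : ℕ} (hg : g ≤ N)
    (hg' : g' ≤ N) (hgg : Geq N p g g') :
    ∑ k ∈ range g, sgn (σ k) = ∑ k ∈ range g', sgn (σ k) := by
  rcases le_total g g' with h1 | h1
  · exact SpinB.sum_sgn_aux h hσ hg' hgg h1
  · exact (SpinB.sum_sgn_aux h hσ hg hgg.symm h1).symm

end Pool.Agent.Perc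

end PartpercSpinB

section PartpercSpinD

/-!
# Linear extension of the spin embedding (task SpinD)
-/

set_option autoImplicit false

namespace Pool.Agent.Perc

open Finset Function

variable {κ : ℂ} {N : ℕ} {p : ℕ → ℕ}

namespace SpinD

lemma PhiV_mapDomain {M : ℕ} (g : (ℕ → ℕ) → (ℕ → ℕ)) (f : (ℕ → ℕ) →₀ ℂ) (σ : ℕ → Bool) :
    PhiV κ M (f.mapDomain g) σ = f.sum fun p c => c * Phi κ M (g p) σ := by
  unfold PhiV
  rw [Finsupp.sum_mapDomain_index]
  · intro p
    rw [zero_mul]
  · intro p c c'
    rw [add_mul]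

end SpinD

theorem PhiV_mapDomain_eAct (hκ : κ ^ 2 = κ - 1) {f : (ℕ → ℕ) →₀ ℂ} (hf : SuppNC N f) {i : ℕ}
    (hi : i + 1 < N) (σ : ℕ → Bool) :
    PhiV κ N (f.mapDomain (eAct i)) σ = eS κ i (PhiV κ N f) σ := by
  rw [SpinD.PhiV_mapDomain]
  have h1 : (f.sum fun p c => c * Phi κ N (eAct i p) σ) =
      f.sum fun p c => c * eS κ i (Phi κ N p) σ := by
    refine Finset.sum_congr rfl fun p hp => ?_
    simp only
    rw [eS_Phi hκ (hf p hp) hi]
  rw [h1]
  unfold eS capS PhiV Finsupp.sum
  rw [Finset.mul_sum, ← Finset.sum_add_distrib, Finset.mul_sum]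
  refine Finset.sum_congr rfl fun p _ => ?_
  ring

theorem PhiV_add (f g : (ℕ → ℕ) →₀ ℂ) (σ : ℕ → Bool) :
    PhiV κ N (f + g) σ = PhiV κ N f σ + PhiV κ N g σ := by
  classical
  unfold PhiV
  rw [Finsupp.sum_add_index']
  · intro p
    rw [zero_mul]
  · intro p c c'
    rw [add_mul]

theorem PhiV_smul (c : ℂ) (f : (ℕ → ℕ) →₀ ℂ) (σ : ℕ → Bool) :
    PhiV κ N (c • f) σ = c * PhiV κ N f σ := by
  unfold PhiV
  rw [Finsupp.sum_smul_index' (fun p => by rw [zero_mul]), Finsupp.mul_sum]
  refine Finset.sum_congr rfl fun p _ => ?_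
  simp only [smul_eq_mul]
  ring

theorem PhiV_mapDomain_cupO {f : (ℕ → ℕ) →₀ ℂ} (hf : SuppNC N f) (σ : ℕ → Bool) :
    PhiV κ (N + 2) (f.mapDomain (cupO N)) σ =
      sw κ (σ 0) (σ (N + 1)) * PhiV κ N f (fun k => σ (k + 1)) := by
  rw [SpinD.PhiV_mapDomain]
  unfold PhiV
  rw [Finsupp.mul_sum]
  refine Finset.sum_congr rfl fun p hp => ?_
  simp only
  rw [Phi_cupO (hf p hp)]
  ring

theorem PhiV_mapDomain_insArc_last {f : (ℕ → ℕ) →₀ ℂ} (hf : SuppNC N f) (σ : ℕ → Bool) :
    PhiV κ (N + 2) (f.mapDomain (insArc N)) σ = PhiV κ N f σ * sw κ (σ N) (σ (N + 1)) := by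
  rw [SpinD.PhiV_mapDomain]
  unfold PhiV
  rw [Finsupp.sum_mul]
  refine Finset.sum_congr rfl fun p hp => ?_
  simp only
  rw [Phi_insArc_last (hf p hp)]
  ring

end Pool.Agent.Perc

end PartpercSpinD

section PartpercSpin



end PartpercSpin
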