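import Pool.Agent.Lib.MP_6bd702_z.Z028

section PartpercWheelDefs

/-!
# Wheel polynomials: definitions

`q ^ 2 + q + 1 = 0` throughout. The number of variables is `2 m`.
-/

set_option autoImplicit false

namespace Pool.Agent.Perc

open Finset MvPolynomial

/-- The space of wheel polynomials: degree at most `m - 1` in each of the `2 m` variables, zero at
`z_i = q² z_j = q⁴ z_k` for `i < j < k`. -/
structure Wheel (q : ℂ) (m : ℕ) (P : MvPolynomial ℕ ℂ) : Prop where
  deg : ∀ k < 2 * m, P.degreeOf k ≤ m - 1
  out : ∀ k, 2 * m ≤ k → P.degreeOf k = 0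
  wheel : ∀ (z : ℕ → ℂ) (i j k : ℕ), i < j → j < k → k < 2 * m → z i = q ^ 2 * z j →
    z j = q ^ 2 * z k → eval z P = 0

/-- Insert the values `u`, `v` at the places `i`, `i + 1`. -/
def insV (i : ℕ) (u v : ℂ) (z : ℕ → ℂ) : ℕ → ℂ := fun k =>
  if k < i then z k else if k = i then u else if k = i + 1 then v else z (k - 2)

/-- The evaluation point of a link pattern: `q²` at openings, `1` at closings. -/
def zpt (q : ℂ) (p : ℕ → ℕ) : ℕ → ℂ := fun k => if k < p k then q ^ 2 else 1

/-- Exchange of two neighbouring coordinates. -/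
def swapV (i : ℕ) (z : ℕ → ℂ) : ℕ → ℂ := fun k => z (Equiv.swap i (i + 1) k)

/-- Rotation of the first `N` coordinates. -/
def rotV (N : ℕ) (z : ℕ → ℂ) : ℕ → ℂ := fun k => if k + 1 < N then z (k + 1) else if k + 1 = N then z 0 else z k

/-- The product polynomial of the nested pattern. -/
noncomputable def nestPoly (q : ℂ) (m : ℕ) : MvPolynomial ℕ ℂ :=
  (∏ j ∈ range m, ∏ i ∈ range j, (C q * X j - C (q ^ 2) * X i)) *
    ∏ j ∈ range m, ∏ i ∈ range j, (C q * X (m + j) - C (q ^ 2) * X (m + i))

end Pool.Agent.Perc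

end PartpercWheelDefs

section PartpercWheelF

/-!
# Wheel polynomials: the nested product (task WheelF)
-/

set_option autoImplicit false

namespace Pool.Agent.Perc

open Finset MvPolynomial

variable {q : ℂ} {m : ℕ} {P : MvPolynomial ℕ ℂ}

namespace WheelF

lemma q3 (hq : q ^ 2 + q + 1 = 0) : q ^ 3 = 1 := by
  have : q ^ 3 - 1 = (q - 1) * (q ^ 2 + q + 1) := by ring
  rw [hq, mul_zero] at this
  exact sub_eq_zero.mp this

lemma q4 (hq : q ^ 2 + q + 1 = 0) : q ^ 4 = q := by
  have : q ^ 4 = q ^ 3 * q := by ring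
  rw [this, q3 hq, one_mul]

/-- one half of the nested product -/
noncomputable def half (q : ℂ) (s m : ℕ) : MvPolynomial ℕ ℂ :=
  ∏ j ∈ range m, ∏ i ∈ range j, (C q * X (s + j) - C (q ^ 2) * X (s + i))

lemma nestPoly_eq (q : ℂ) (m : ℕ) : nestPoly q m = half q 0 m * half q m m := by
  simp only [nestPoly, half, zero_add]

lemma degreeOf_factor (q : ℂ) (s j i k : ℕ) :
    (C q * X (s + j) - C (q ^ 2) * X (s + i) : MvPolynomial ℕ ℂ).degreeOf k ≤
      if k = s + j ∨ k = s + i then 1 else 0 := by
  refine (degreeOf_sub_le _ _ _).trans (max_le ?_ ?_)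
  · refine (degreeOf_C_mul_le _ _ _).trans ?_
    rw [degreeOf_X]
    split_ifs <;> omega
  · refine (degreeOf_C_mul_le _ _ _).trans ?_
    rw [degreeOf_X]
    split_ifs <;> omega

lemma degreeOf_row (q : ℂ) (s m k : ℕ) :
    (∏ i ∈ range m, (C q * X (s + m) - C (q ^ 2) * X (s + i) : MvPolynomial ℕ ℂ)).degreeOf k ≤
      if k = s + m then m else if s ≤ k ∧ k < s + m then 1 else 0 := by
  refine (degreeOf_prod_le _ _ _).trans ?_
  refine (Finset.sum_le_sum fun i _ => degreeOf_factor q s m i k).trans ?_
  by_cases h1 : k = s + m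
  · simp [h1]
  · by_cases h2 : s ≤ k ∧ k < s + m
    · rw [if_neg h1, if_pos h2]
      have h3 : ∀ i ∈ range m, (if k = s + m ∨ k = s + i then 1 else 0) =
          if k - s = i then 1 else 0 := by
        intro i _
        by_cases h4 : k - s = i
        · have : k = s + m ∨ k = s + i := by omega
          simp [h4, this]
        · have : ¬ (k = s + m ∨ k = s + i) := by omega
          simp [h4, this]
      rw [Finset.sum_congr rfl h3, Finset.sum_ite_eq]
      split_ifs <;> omega
    · rw [if_neg h1, if_neg h2]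
      have h3 : ∀ i ∈ range m, (if k = s + m ∨ k = s + i then 1 else 0) = 0 := by
        intro i hi
        rw [Finset.mem_range] at hi
        have : ¬ (k = s + m ∨ k = s + i) := by omega
        simp [this]
      rw [Finset.sum_congr rfl h3]
      simp

lemma degreeOf_half (q : ℂ) (s m k : ℕ) :
    (half q s m).degreeOf k ≤ if s ≤ k ∧ k < s + m then m - 1 else 0 := by
  induction m with
  | zero => simp [half]
  | succ m ih =>
    have h1 : half q s (m + 1) = half q s m *
        ∏ i ∈ range m, (C q * X (s + m) - C (q ^ 2) * X (s + i)) := by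
      rw [half, Finset.prod_range_succ, half]
    rw [h1]
    refine (degreeOf_mul_le _ _ _).trans ?_
    have h2 := degreeOf_row q s m k
    refine (add_le_add ih h2).trans ?_
    split_ifs <;> omega

lemma eval_half_eq_zero (q : ℂ) (s m : ℕ) (z : ℕ → ℂ) {i j : ℕ} (hij : i < j) (hj : j < m)
    (h : q * z (s + j) - q ^ 2 * z (s + i) = 0) : eval z (half q s m) = 0 := by
  rw [half, map_prod]
  refine Finset.prod_eq_zero (Finset.mem_range.mpr hj) ?_
  rw [map_prod]
  refine Finset.prod_eq_zero (Finset.mem_range.mpr hij) ?_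
  simp only [map_sub, map_mul, eval_C, eval_X]
  exact h

lemma eval_half_const (q a : ℂ) (s m : ℕ) (z : ℕ → ℂ) (h : ∀ j < m, z (s + j) = a) :
    eval z (half q s m) = (q * a - q ^ 2 * a) ^ (m * (m - 1) / 2) := by
  rw [half, map_prod, ← Finset.sum_range_id, ← Finset.prod_pow_eq_pow_sum]
  refine Finset.prod_congr rfl fun j hj => ?_
  rw [Finset.mem_range] at hj
  rw [map_prod]
  rw [Finset.prod_congr rfl (g := fun _ => q * a - q ^ 2 * a), Finset.prod_const,
    Finset.card_range]
  intro i hi
  rw [Finset.mem_range] at hi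
  simp only [map_sub, map_mul, eval_C, eval_X]
  rw [h j hj, h i (by omega)]

lemma eq_nest {p : ℕ → ℕ} (hp : NC (2 * m) p) (h : ∀ j < m, j < p j) : p = nest m := by
  have h1 : ∀ x < m, m ≤ p x := by
    intro x hx
    by_contra h2
    have h3 := h (p x) (by omega)
    rw [hp.inv] at h3
    have h4 := h x hx
    omega
  have h2 : ∀ x y, x < y → y < m → p y < p x := by
    intro x y hxy hy
    have h3 := h1 x (by omega)
    exact (hp.nc x y hxy (by omega)).2
  have h3 : ∀ x, x < m → p x + x + 1 ≤ 2 * m := by
    intro x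
    induction x with
    | zero =>
      intro h4
      have := hp.lt 0 (by omega)
      omega
    | succ x ih =>
      intro h4
      have h5 := ih (by omega)
      have h6 := h2 x (x + 1) (by omega) h4
      omega
  have h4 : ∀ j, j < m → m + j ≤ p (m - 1 - j) := by
    intro j
    induction j with
    | zero =>
      intro h5
      have := h1 (m - 1 - 0) (by omega)
      omega
    | succ j ih =>
      intro h5
      have h6 := ih (by omega)
      have h7 := h2 (m - 1 - (j + 1)) (m - 1 - j) (by omega) (by omega)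
      omega
  have h5 : ∀ x < m, p x = 2 * m - 1 - x := by
    intro x hx
    have h6 := h3 x hx
    have h7 := h4 (m - 1 - x) (by omega)
    have h8 : m - 1 - (m - 1 - x) = x := by omega
    rw [h8] at h7
    omega
  funext x
  unfold nest
  by_cases hx : x < m
  · rw [if_pos (by omega), h5 x hx]
  by_cases hx2 : x < 2 * m
  · rw [if_pos hx2]
    have h6 := h5 (2 * m - 1 - x) (by omega)
    have h7 : 2 * m - 1 - (2 * m - 1 - x) = x := by omega
    rw [h7] at h6
    have h8 := hp.inv (2 * m - 1 - x)
    rw [h6] at h8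
    exact h8
  · rw [if_neg hx2]
    exact hp.out x (by omega)

end WheelF

theorem wheel_nestPoly (hq : q ^ 2 + q + 1 = 0) (m : ℕ) : Wheel q m (nestPoly q m) := by
  rw [WheelF.nestPoly_eq]
  refine ⟨?_, ?_, ?_⟩
  · intro k hk
    refine (degreeOf_mul_le _ _ _).trans ?_
    refine (add_le_add (WheelF.degreeOf_half q 0 m k) (WheelF.degreeOf_half q m m k)).trans ?_
    split_ifs <;> omega
  · intro k hk
    rw [← Nat.le_zero]
    refine (degreeOf_mul_le _ _ _).trans ?_
    refine (add_le_add (WheelF.degreeOf_half q 0 m k) (WheelF.degreeOf_half q m m k)).trans ?_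
    split_ifs <;> omega
  · intro z i j k hij hjk hk h1 h2
    have h4 := WheelF.q4 hq
    rw [map_mul]
    by_cases hj : j < m
    · rw [WheelF.eval_half_eq_zero q 0 m z hij hj, zero_mul]
      rw [zero_add, zero_add, h1]
      linear_combination (-z j) * h4
    · rw [WheelF.eval_half_eq_zero q m m z (i := j - m) (j := k - m) (by omega) (by omega),
        mul_zero]
      have e1 : m + (k - m) = k := by omega
      have e2 : m + (j - m) = j := by omega
      rw [e1, e2, h2]
      linear_combination (-z k) * h4

theorem eval_nestPoly_of_ne (hq : q ^ 2 + q + 1 = 0) {p : ℕ → ℕ} (hp : NC (2 * m) p)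
    (hne : p ≠ nest m) : eval (zpt q p) (nestPoly q m) = 0 := by
  have h1 : ∃ j, j < m ∧ ¬ j < p j := by
    by_contra h
    refine hne (WheelF.eq_nest hp fun j hj => ?_)
    by_contra h5
    exact h ⟨j, hj, h5⟩
  obtain ⟨j, hj, hpj⟩ := h1
  have h2 := hp.ne j (by omega)
  have h3 : p j < j := by omega
  rw [WheelF.nestPoly_eq, map_mul, WheelF.eval_half_eq_zero q 0 m _ h3 hj, zero_mul]
  have e1 : zpt q p j = 1 := by simp [zpt, hpj]
  have e2 : zpt q p (p j) = q ^ 2 := by simp [zpt, hp.inv, h3]
  rw [zero_add, zero_add, e1, e2]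
  have h4 := WheelF.q4 hq
  linear_combination (-1 : ℂ) * h4

theorem eval_nestPoly_nest (hq : q ^ 2 + q + 1 = 0) (m : ℕ) :
    eval (zpt q (nest m)) (nestPoly q m) = (-3 * q ^ 2) ^ (m * (m - 1) / 2) := by
  rw [WheelF.nestPoly_eq, map_mul, WheelF.eval_half_const q (q ^ 2) 0 m,
    WheelF.eval_half_const q 1 m m, ← mul_pow]
  · congr 1
    have h3 := WheelF.q3 hq
    linear_combination (q - 2 * q ^ 2 + q ^ 3 + 1) * h3 + hq
  · intro j hj
    have h1 : ¬ (m + j < nest m (m + j)) := by
      unfold nest; split_ifs <;> omega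
    simp [zpt, h1]
  · intro j hj
    have h1 : 0 + j < nest m (0 + j) := by
      unfold nest; split_ifs <;> omega
    simp only [zpt, h1, if_true]

end Pool.Agent.Perc

end PartpercWheelF

section PartpercWheelA

/-!
# Wheel polynomials: restriction (task WheelA)
-/

set_option autoImplicit false

namespace Pool.Agent.Perc

open Finset MvPolynomial

variable {q : ℂ} {m : ℕ} {P : MvPolynomial ℕ ℂ}

namespace WheelA

/-- Degree of a substitution into a polynomial ring in one variable. -/
theorem natDegree_aeval_le (P : MvPolynomial ℕ ℂ) (s : ℕ → Polynomial (MvPolynomial ℕ ℂ)) (D : ℕ)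
    (h : ∀ e ∈ P.support, ∑ k ∈ e.support, e k * (s k).natDegree ≤ D) :
    (aeval s P).natDegree ≤ D := by
  rw [aeval_def, eval₂_eq]
  refine Polynomial.natDegree_sum_le_of_forall_le _ _ fun e he => ?_
  refine le_trans ?_ (h e he)
  refine le_trans (Polynomial.natDegree_mul_le) ?_
  have h1 : ((algebraMap ℂ (Polynomial (MvPolynomial ℕ ℂ))) (coeff e P)).natDegree = 0 := by
    rw [Polynomial.algebraMap_apply, Polynomial.natDegree_C]
  rw [h1, zero_add]
  refine le_trans (Polynomial.natDegree_prod_le _ _) ?_
  exact Finset.sum_le_sum fun k _ => Polynomial.natDegree_pow_le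

/-- Degree of a substitution. -/
theorem degreeOf_aeval_le (P : MvPolynomial ℕ ℂ) (t : ℕ → MvPolynomial ℕ ℂ) (n D : ℕ)
    (h : ∀ e ∈ P.support, ∑ k ∈ e.support, e k * degreeOf n (t k) ≤ D) :
    degreeOf n (aeval t P) ≤ D := by
  rw [aeval_def, eval₂_eq]
  refine le_trans (degreeOf_sum_le _ _ _) (Finset.sup_le fun e he => ?_)
  refine le_trans ?_ (h e he)
  refine le_trans (degreeOf_mul_le _ _ _) ?_
  have h1 : degreeOf n ((algebraMap ℂ (MvPolynomial ℕ ℂ)) (coeff e P)) = 0 := by
    rw [MvPolynomial.algebraMap_eq, degreeOf_C]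
  rw [h1, zero_add]
  refine le_trans (degreeOf_prod_le _ _ _) ?_
  exact Finset.sum_le_sum fun k _ => degreeOf_pow_le _ _ _

theorem eval_eval_aeval (P : MvPolynomial ℕ ℂ) (s : ℕ → Polynomial (MvPolynomial ℕ ℂ))
    (a : MvPolynomial ℕ ℂ) (z : ℕ → ℂ) :
    eval z (Polynomial.eval a (aeval s P)) = eval (fun k => eval z (Polynomial.eval a (s k))) P := by
  have h : ((eval z).comp ((Polynomial.evalRingHom a).comp
      (aeval s : MvPolynomial ℕ ℂ →ₐ[ℂ] _).toRingHom)) =
      eval (fun k => eval z (Polynomial.eval a (s k))) := by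
    apply MvPolynomial.ringHom_ext
    · intro c
      simp [Polynomial.algebraMap_apply, MvPolynomial.algebraMap_eq]
    · intro k
      simp
  exact congrArg (fun f => f P) h

theorem eval_aeval (P : MvPolynomial ℕ ℂ) (t : ℕ → MvPolynomial ℕ ℂ) (z : ℕ → ℂ) :
    eval z (aeval t P) = eval (fun k => eval z (t k)) P := by
  have h : ((eval z).comp (aeval t : MvPolynomial ℕ ℂ →ₐ[ℂ] _).toRingHom) =
      eval (fun k => eval z (t k)) := by
    apply MvPolynomial.ringHom_ext
    · intro c
      simp
    · intro k
      simp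
  exact congrArg (fun f => f P) h

theorem le_degreeOf {e : ℕ →₀ ℕ} (he : e ∈ P.support) (k : ℕ) : e k ≤ degreeOf k P :=
  monomial_le_degreeOf k he

theorem sum_mul_le_of_two {e : ℕ →₀ ℕ} {f : ℕ → ℕ} {i j : ℕ} (hij : i ≠ j)
    (hi : f i ≤ 1) (hj : f j ≤ 1) (h : ∀ k, k ≠ i → k ≠ j → f k = 0) :
    ∑ k ∈ e.support, e k * f k ≤ e i + e j := by
  have h1 : ∑ k ∈ e.support, e k * f k ≤ ∑ k ∈ ({i, j} : Finset ℕ), e k * f k := by
    have h2 : ∑ k ∈ e.support, e k * f k = ∑ k ∈ e.support ∩ {i, j}, e k * f k := by
      symm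
      apply Finset.sum_subset Finset.inter_subset_left
      intro k hk hk'
      have h3 : k ∉ ({i, j} : Finset ℕ) := fun h4 => hk' (Finset.mem_inter.2 ⟨hk, h4⟩)
      have h5 : k ≠ i ∧ k ≠ j := by
        constructor
        · rintro rfl
          exact h3 (by simp)
        · rintro rfl
          exact h3 (by simp)
      rw [h k h5.1 h5.2, mul_zero]
    rw [h2]
    exact Finset.sum_le_sum_of_subset Finset.inter_subset_right
  refine le_trans h1 ?_
  rw [Finset.sum_pair hij]
  exact Nat.add_le_add (by nlinarith [Nat.zero_le (e i)]) (by nlinarith [Nat.zero_le (e j)])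

theorem sum_mul_le_of_one {e : ℕ →₀ ℕ} {f : ℕ → ℕ} {i : ℕ}
    (hi : f i ≤ 1) (h : ∀ k, k ≠ i → f k = 0) :
    ∑ k ∈ e.support, e k * f k ≤ e i := by
  by_cases hmem : i ∈ e.support
  · rw [Finset.sum_eq_single_of_mem i hmem (fun k _ hk => by rw [h k hk, mul_zero])]
    nlinarith [Nat.zero_le (e i)]
  · rw [Finset.sum_eq_zero]
    · exact Nat.zero_le _
    · intro k hk
      have : k ≠ i := fun h => hmem (h ▸ hk)
      rw [h k this, mul_zero]

/-- The old index of a place different from `i`, `i + 1`. -/
def sh (i k : ℕ) : ℕ := if k < i then k else k + 2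

theorem sh_strictMono (i : ℕ) : StrictMono (sh i) := by
  intro a b hab
  unfold sh
  split_ifs <;> omega

theorem insV_sh (i : ℕ) (u v : ℂ) (z : ℕ → ℂ) (k : ℕ) : insV i u v z (sh i k) = z k := by
  unfold insV sh
  split_ifs <;> first | rfl | omega

theorem insV_self (i : ℕ) (u v : ℂ) (z : ℕ → ℂ) : insV i u v z i = u := by
  simp [insV]

theorem insV_succ (i : ℕ) (u v : ℂ) (z : ℕ → ℂ) : insV i u v z (i + 1) = v := by
  simp [insV]

theorem q_cube (hq : q ^ 2 + q + 1 = 0) : q ^ 3 = 1 := by linear_combination (q - 1) * hq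

theorem q_ne_zero (hq : q ^ 2 + q + 1 = 0) : q ≠ 0 := by
  rintro rfl
  norm_num at hq

/-- A linear factorisation over a domain. -/
theorem exists_factor {R : Type} [CommRing R] [IsDomain R] [DecidableEq R] (F : Polynomial R) {n : ℕ}
    (a : ℕ → R) (ha : Set.InjOn a (Set.Iio n)) (hF : F.natDegree ≤ n)
    (hroot : ∀ k < n, F.eval (a k) = 0) :
    ∃ r : R, F = (∏ k ∈ range n, (Polynomial.X - Polynomial.C (a k))) * Polynomial.C r := by
  by_cases h0 : F = 0
  · exact ⟨0, by rw [h0]; simp⟩
  set S : Finset R := (range n).image a with hS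
  have hcard : S.card = n := by
    rw [hS, Finset.card_image_of_injOn, card_range]
    intro x hx y hy hxy
    exact ha (by simpa using hx) (by simpa using hy) hxy
  have hprod : ∏ k ∈ range n, (Polynomial.X - Polynomial.C (a k)) =
      ∏ b ∈ S, (Polynomial.X - Polynomial.C b) := by
    rw [hS, Finset.prod_image]
    intro x hx y hy hxy
    exact ha (by simpa using hx) (by simpa using hy) hxy
  have hdvd : (∏ b ∈ S, (Polynomial.X - Polynomial.C b)) ∣ F := by
    have h1 : (S.val.map fun b => Polynomial.X - Polynomial.C b).prod ∣ F := by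
      rw [Multiset.prod_X_sub_C_dvd_iff_le_roots h0]
      rw [Finset.val_le_iff_val_subset]
      intro b hb
      rw [Polynomial.mem_roots h0]
      have hb' : b ∈ S := hb
      rw [hS, Finset.mem_image] at hb'
      obtain ⟨k, hk, rfl⟩ := hb'
      exact hroot k (by simpa using hk)
    exact h1
  rw [hprod]
  obtain ⟨G, hG⟩ := hdvd
  have hG0 : G ≠ 0 := by
    rintro rfl
    rw [mul_zero] at hG
    exact h0 hG
  have hmon : (∏ b ∈ S, (Polynomial.X - Polynomial.C b)).Monic :=
    Polynomial.monic_prod_of_monic _ _ fun b _ => Polynomial.monic_X_sub_C b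
  have hdeg : (∏ b ∈ S, (Polynomial.X - Polynomial.C b)).natDegree = n := by
    rw [Polynomial.natDegree_prod_of_monic _ _ fun b _ => Polynomial.monic_X_sub_C b]
    simp [hcard]
  have h2 : F.natDegree = n + G.natDegree := by
    rw [hG, hmon.natDegree_mul' hG0, hdeg]
  have h3 : G.natDegree = 0 := by omega
  refine ⟨G.coeff 0, ?_⟩
  rw [← Polynomial.eq_C_of_natDegree_eq_zero h3]
  exact hG

end WheelA

open WheelA

/-- Only the first `2 m` coordinates matter. -/
theorem Wheel.eval_congr (h : Wheel q m P) {z w : ℕ → ℂ} (hzw : ∀ k < 2 * m, z k = w k) :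
    eval z P = eval w P := by
  rw [eval_eq, eval_eq]
  refine Finset.sum_congr rfl fun e he => ?_
  congr 1
  refine Finset.prod_congr rfl fun k hk => ?_
  by_cases hk' : k < 2 * m
  · rw [hzw k hk']
  · have h1 := le_degreeOf he k
    rw [h.out k (by omega)] at h1
    have h2 : e k = 0 := by omega
    rw [h2, pow_zero, pow_zero]

/-- W1: restriction to `z_i = q² z_{i+1}`. -/
theorem Wheel.restrict (hq : q ^ 2 + q + 1 = 0) (h : Wheel q (m + 1) P) {i : ℕ}
    (hi : i + 1 < 2 * (m + 1)) : ∃ R, Wheel q m R ∧ ∀ (z : ℕ → ℂ) (v : ℂ),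
      eval (insV i (q ^ 2 * v) v z) P = (∏ k ∈ range (2 * m), (z k - q * v)) * eval z R := by
  classical
  have hq3 := q_cube hq
  have hq0 := q_ne_zero hq
  set s : ℕ → Polynomial (MvPolynomial ℕ ℂ) := fun k =>
    if k < i then Polynomial.C (X k) else if k = i then Polynomial.C (C (q ^ 2)) * Polynomial.X
    else if k = i + 1 then Polynomial.X else Polynomial.C (X (k - 2)) with hs
  have hpt : ∀ (a : MvPolynomial ℕ ℂ) (z : ℕ → ℂ),
      (fun k => eval z (Polynomial.eval a (s k))) = insV i (q ^ 2 * eval z a) (eval z a) z := by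
    intro a z
    funext k
    simp only [hs, insV]
    split_ifs <;> simp
  set F := aeval s P with hF
  have hdegF : F.natDegree ≤ 2 * m := by
    refine natDegree_aeval_le P s _ fun e he => ?_
    refine le_trans (sum_mul_le_of_two (i := i) (j := i + 1) (by omega) ?_ ?_ ?_) ?_
    · simp only [hs, lt_irrefl, if_false, if_true]
      refine le_trans Polynomial.natDegree_mul_le ?_
      simp
    · simp only [hs]
      rw [if_neg (by omega), if_neg (by omega)]
      simp
    · intro k hk hk'
      simp only [hs]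
      split_ifs
      all_goals simp_all
    · have h1 := le_degreeOf he i
      have h2 := le_degreeOf he (i + 1)
      have h3 := h.deg i (by omega)
      have h4 := h.deg (i + 1) hi
      omega
  have hroot : ∀ k < 2 * m, F.eval (C (q ^ 2) * X k) = 0 := by
    intro k hk
    apply MvPolynomial.funext
    intro z
    rw [hF, eval_eval_aeval, hpt, map_zero]
    have hv : eval z (C (q ^ 2) * X k : MvPolynomial ℕ ℂ) = q ^ 2 * z k := by simp
    rw [hv]
    by_cases hki : k < i
    · refine h.wheel _ k i (i + 1) hki (by omega) hi ?_ ?_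
      · rw [insV_self]
        have : insV i (q ^ 2 * (q ^ 2 * z k)) (q ^ 2 * z k) z k = z k := by simp [insV, hki]
        rw [this]
        linear_combination (-(q ^ 3 + 1) * z k) * hq3
      · rw [insV_self, insV_succ]
    · refine h.wheel _ i (i + 1) (k + 2) (by omega) (by omega) (by omega) ?_ ?_
      · rw [insV_self, insV_succ]
      · rw [insV_succ]
        have h1 := insV_sh i (q ^ 2 * (q ^ 2 * z k)) (q ^ 2 * z k) z k
        rw [sh, if_neg hki] at h1
        rw [h1]
  obtain ⟨r, hr⟩ := exists_factor F (fun k => (C (q ^ 2) * X k : MvPolynomial ℕ ℂ)) (n := 2 * m) (by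
    intro a _ b _ hab
    have h1 : (C (q ^ 2) : MvPolynomial ℕ ℂ) ≠ 0 := by
      rw [Ne, C_eq_zero]
      exact pow_ne_zero _ hq0
    have h2 := mul_left_cancel₀ h1 hab
    exact X_injective h2) hdegF hroot
  have hev : ∀ (z : ℕ → ℂ) (v : ℂ), eval (insV i (q ^ 2 * v) v z) P =
      (∏ k ∈ range (2 * m), (v - q ^ 2 * z k)) * eval z r := by
    intro z v
    have h1 := eval_eval_aeval P s (C v) z
    rw [hpt, eval_C] at h1
    rw [← h1, ← hF, hr]
    rw [Polynomial.eval_mul, Polynomial.eval_prod, Polynomial.eval_C, map_mul, map_prod]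
    congr 1
    refine Finset.prod_congr rfl fun k _ => ?_
    simp
  refine ⟨C (q ^ m) * r, ?_, ?_⟩
  swap
  · intro z v
    rw [hev, map_mul, eval_C]
    have h1 : ∏ k ∈ range (2 * m), (z k - q * v) = (∏ k ∈ range (2 * m), (-q)) *
        ∏ k ∈ range (2 * m), (v - q ^ 2 * z k) := by
      rw [← Finset.prod_mul_distrib]
      refine Finset.prod_congr rfl fun k _ => ?_
      linear_combination (- z k) * hq3
    rw [h1, Finset.prod_const, card_range]
    have h2 : (-q) ^ (2 * m) * q ^ m = 1 := by
      rw [pow_mul, ← mul_pow]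
      have : (-q) ^ 2 * q = 1 := by rw [neg_sq]; linear_combination hq3
      rw [this, one_pow]
    linear_combination (-(∏ k ∈ range (2 * m), (v - q ^ 2 * z k)) * eval z r) * h2
  · -- the wheel properties
    have h0 : Polynomial.eval 0 F = (∏ k ∈ range (2 * m), (- (C (q ^ 2) * X k))) * r := by
      rw [hr, Polynomial.eval_mul, Polynomial.eval_prod, Polynomial.eval_C]
      congr 1
      refine Finset.prod_congr rfl fun k _ => ?_
      simp
    have h0' : Polynomial.eval 0 F = aeval (fun k => Polynomial.eval 0 (s k)) P := by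
      apply MvPolynomial.funext
      intro z
      rw [hF, eval_eval_aeval, eval_aeval]
    have hdeg0 : ∀ k, degreeOf k (Polynomial.eval 0 F) ≤ degreeOf (sh i k) P := by
      intro k
      rw [h0']
      refine degreeOf_aeval_le P _ k _ fun e he => ?_
      refine le_trans (sum_mul_le_of_one (i := sh i k) ?_ ?_) (le_degreeOf he _)
      · simp only [hs, sh]
        split_ifs <;> first | omega | simp
        all_goals (try split_ifs) <;> simp
      · intro j hj
        simp only [hs]
        split_ifs with h1 h2 h3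
        · simp only [Polynomial.eval_C, degreeOf_X]
          rw [if_neg]
          rintro rfl
          exact hj (by simp [sh, h1])
        · simp
        · simp
        · simp only [Polynomial.eval_C, degreeOf_X]
          rw [if_neg]
          rintro rfl
          apply hj
          unfold sh
          rw [if_neg (by omega)]
          omega
    have hdr : ∀ k, degreeOf k (C (q ^ m) * r) ≤ degreeOf (sh i k) P - (if k < 2 * m then 1 else 0) := by
      intro k
      by_cases hr0 : r = 0
      · rw [hr0, mul_zero]; simp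
      have h1 := hdeg0 k
      rw [h0] at h1
      have h2 : (∏ k ∈ range (2 * m), (- (C (q ^ 2) * X k : MvPolynomial ℕ ℂ))) ≠ 0 := by
        rw [Finset.prod_ne_zero_iff]
        intro a _
        rw [neg_ne_zero]
        refine mul_ne_zero ?_ (X_ne_zero a)
        rw [Ne, C_eq_zero]
        exact pow_ne_zero _ hq0
      rw [degreeOf_mul_eq h2 hr0] at h1
      have h3 : degreeOf k (C (q ^ m) * r) ≤ degreeOf k r := degreeOf_C_mul_le _ _ _
      have h4 : (if k < 2 * m then 1 else 0) ≤
          degreeOf k (∏ k ∈ range (2 * m), (- (C (q ^ 2) * X k : MvPolynomial ℕ ℂ))) := by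
        split_ifs with hk
        · rw [← Finset.mul_prod_erase _ _ (Finset.mem_range.2 hk)]
          rw [degreeOf_mul_eq]
          · have h5 : degreeOf k (-(C (q ^ 2) * X k : MvPolynomial ℕ ℂ)) = 1 := by
              have h6 : (-(C (q ^ 2) * X k : MvPolynomial ℕ ℂ)) = C (-q ^ 2) * X k := by
                simp
              rw [h6, degreeOf_mul_eq]
              · rw [degreeOf_C, degreeOf_X]; simp
              · rw [Ne, C_eq_zero, neg_eq_zero]; exact pow_ne_zero _ hq0
              · exact X_ne_zero k
            omega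
          · rw [neg_ne_zero]
            refine mul_ne_zero ?_ (X_ne_zero k)
            rw [Ne, C_eq_zero]
            exact pow_ne_zero _ hq0
          · rw [Finset.prod_ne_zero_iff]
            intro a _
            rw [neg_ne_zero]
            refine mul_ne_zero ?_ (X_ne_zero a)
            rw [Ne, C_eq_zero]
            exact pow_ne_zero _ hq0
        · exact Nat.zero_le _
      omega
    refine ⟨?_, ?_, ?_⟩
    · intro k hk
      have h1 := hdr k
      rw [if_pos hk] at h1
      have h2 := h.deg (sh i k) (by unfold sh; split_ifs <;> omega)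
      omega
    · intro k hk
      have h1 := hdr k
      rw [if_neg (by omega)] at h1
      have h2 := h.out (sh i k) (by unfold sh; split_ifs <;> omega)
      omega
    · intro z a b c hab hbc hc hza hzb
      rw [map_mul, eval_C]
      obtain ⟨v, hv⟩ := Infinite.exists_notMem_finset ((range (2 * m)).image fun k => q ^ 2 * z k)
      have h1 := hev z v
      rw [h.wheel _ (sh i a) (sh i b) (sh i c) (sh_strictMono i hab) (sh_strictMono i hbc)
        (by unfold sh; split_ifs <;> omega) (by rw [insV_sh, insV_sh]; exact hza)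
        (by rw [insV_sh, insV_sh]; exact hzb)] at h1
      have h2 : ∏ k ∈ range (2 * m), (v - q ^ 2 * z k) ≠ 0 := by
        rw [Finset.prod_ne_zero_iff]
        intro k hk h3
        exact hv (Finset.mem_image.2 ⟨k, hk, (sub_eq_zero.1 h3).symm⟩)
      rcases mul_eq_zero.1 h1.symm with h3 | h3
      · exact absurd h3 h2
      · rw [h3, mul_zero]

end Pool.Agent.Perc

end PartpercWheelA

section PartpercWheelB

/-!
# Wheel polynomials: evaluation points (task WheelB)
-/

set_option autoImplicit false

namespace Pool.Agent.Perc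

open Finset MvPolynomial

variable {q : ℂ} {m : ℕ} {P : MvPolynomial ℕ ℂ}

theorem insV_zpt {p : ℕ → ℕ} {i : ℕ} (hp : NC (2 * m) p) (hi : i ≤ 2 * m) :
    insV i (q ^ 2) 1 (zpt q p) = zpt q (insArc i p) := by
  funext k
  unfold insV zpt insArc
  by_cases h1 : k < i
  · have h2 : k ≠ i := by omega
    have h3 : k ≠ i + 1 := by omega
    simp only [h1, if_true, h2, h3, if_false]
    by_cases h4 : p k < i
    · simp only [h4, if_true]
    · have h5 : k < p k := by omega
      have h6 : k < p k + 2 := by omega
      simp only [h4, if_false, h5, h6, if_true]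
  · by_cases h2 : k = i
    · subst h2
      simp
    · by_cases h3 : k = i + 1
      · subst h3
        have h4 : ¬ (i + 1 < i) := by omega
        simp [h4]
      · simp only [h1, h2, h3, if_false]
        by_cases h4 : p (k - 2) < i
        · have h5 : ¬ (k - 2 < p (k - 2)) := by omega
          have h6 : ¬ (k < p (k - 2)) := by omega
          simp only [h4, if_true, h5, h6, if_false]
        · simp only [h4, if_false]
          by_cases h5 : k - 2 < p (k - 2)
          · have h6 : k < p (k - 2) + 2 := by omega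
            simp only [h5, h6, if_true]
          · have h6 : ¬ (k < p (k - 2) + 2) := by omega
            simp only [h5, h6, if_false]

/-- There are `m` openings and `m` closings. -/
theorem prod_zpt (hq : q ^ 2 + q + 1 = 0) {p : ℕ → ℕ} (hp : NC (2 * m) p) :
    ∏ k ∈ range (2 * m), (zpt q p k - q) = (3 * q ^ 2) ^ m := by
  have h1 : ∀ k, zpt q p k - q = if k < p k then q ^ 2 - q else 1 - q := by
    intro k
    unfold zpt
    split_ifs <;> rfl
  simp only [h1]
  rw [Finset.prod_ite, Finset.prod_const, Finset.prod_const]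
  have hab : ((range (2 * m)).filter fun k => k < p k).card =
      ((range (2 * m)).filter fun k => ¬ k < p k).card := by
    refine Finset.card_nbij' p p ?_ ?_ ?_ ?_
    · intro k hk
      rw [Finset.mem_coe, Finset.mem_filter, Finset.mem_range] at hk ⊢
      rw [hp.inv]
      exact ⟨hp.lt k hk.1, by omega⟩
    · intro k hk
      rw [Finset.mem_coe, Finset.mem_filter, Finset.mem_range] at hk ⊢
      rw [hp.inv]
      have := hp.ne k hk.1
      exact ⟨hp.lt k hk.1, by omega⟩
    · intro k _; exact hp.inv k
    · intro k _; exact hp.inv k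
  have hs := Finset.card_filter_add_card_filter_not (s := range (2 * m)) (fun k => k < p k)
  rw [Finset.card_range] at hs
  have ha : ((range (2 * m)).filter fun k => k < p k).card = m := by omega
  have hb : ((range (2 * m)).filter fun k => ¬ k < p k).card = m := by omega
  rw [ha, hb, ← mul_pow]
  congr 1
  have h3 : q ^ 3 = 1 := by
    have h : q ^ 3 - 1 = (q - 1) * (q ^ 2 + q + 1) := by ring
    rw [hq, mul_zero] at h
    exact sub_eq_zero.mp h
  linear_combination (-1 : ℂ) * h3 - hq

end Pool.Agent.Perc

end PartpercWheelB
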