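import Pool.Agent.Lib.MP_6bd702_z.Z047

section PartpercWheelE

/-!
# Wheel polynomials: the operators E_i (task WheelE)
-/

set_option autoImplicit false

namespace Pool.Agent.Perc

open Finset MvPolynomial

variable {q : ℂ} {m : ℕ} {P : MvPolynomial ℕ ℂ}

namespace WheelE

/-- The exchange of two variables. -/
noncomputable def sw (i : ℕ) (P : MvPolynomial ℕ ℂ) : MvPolynomial ℕ ℂ :=
  rename (Equiv.swap i (i + 1)) P

theorem eval_sw (i : ℕ) (P : MvPolynomial ℕ ℂ) (z : ℕ → ℂ) :
    eval z (sw i P) = eval (swapV i z) P := by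
  rw [sw, eval_rename]
  rfl

theorem dvd_sw_sub (i : ℕ) (P : MvPolynomial ℕ ℂ) : (X i - X (i + 1)) ∣ sw i P - P := by
  induction P using MvPolynomial.induction_on with
  | C a => simp [sw]
  | add p r hp hr =>
    have : sw i (p + r) - (p + r) = (sw i p - p) + (sw i r - r) := by
      simp only [sw, map_add]; ring
    rw [this]
    exact dvd_add hp hr
  | mul_X p k hp =>
    have : sw i (p * X k) - p * X k = (sw i p - p) * X (Equiv.swap i (i + 1) k) +
        p * (X (Equiv.swap i (i + 1) k) - X k) := by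
      simp only [sw, map_mul, rename_X]; ring
    rw [this]
    refine dvd_add (Dvd.dvd.mul_right hp _) (Dvd.dvd.mul_left ?_ _)
    by_cases h1 : k = i
    · subst h1
      rw [Equiv.swap_apply_left]
      exact ⟨-1, by ring⟩
    · by_cases h2 : k = i + 1
      · subst h2
        rw [Equiv.swap_apply_right]
      · rw [Equiv.swap_apply_of_ne_of_ne h1 h2, sub_self]
        exact dvd_zero _

theorem X_sub_X_ne {i j : ℕ} (h : i ≠ j) : (X i - X j : MvPolynomial ℕ ℂ) ≠ 0 := by
  intro h0
  exact h (X_injective (sub_eq_zero.1 h0))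

theorem degreeOf_X_sub_X {i j : ℕ} (h : i ≠ j) : (X i - X j : MvPolynomial ℕ ℂ).degreeOf i = 1 := by
  apply le_antisymm
  · refine (degreeOf_sub_le i _ _).trans ?_
    rw [degreeOf_X, degreeOf_X, if_pos rfl, if_neg h]
    simp
  · by_contra hcon
    push Not at hcon
    have h0 : (X i - X j : MvPolynomial ℕ ℂ).degreeOf i = 0 := by omega
    have h1 : (Finsupp.single i 1 : ℕ →₀ ℕ) ∈ (X i - X j : MvPolynomial ℕ ℂ).support := by
      rw [mem_support_iff, coeff_sub, coeff_X, coeff_X, if_pos rfl, if_neg, sub_zero]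
      · exact one_ne_zero
      · intro hc
        exact h ((Finsupp.single_left_injective one_ne_zero) hc).symm
    have h2 := monomial_le_degreeOf i h1
    rw [h0] at h2
    simp at h2

theorem degreeOf_sw_of_ne {i k : ℕ} (h1 : k ≠ i) (h2 : k ≠ i + 1) (P : MvPolynomial ℕ ℂ) :
    (sw i P).degreeOf k = P.degreeOf k := by
  have h := degreeOf_rename_of_injective (p := P) (Equiv.injective (Equiv.swap i (i + 1))) k
  rwa [Equiv.swap_apply_of_ne_of_ne h1 h2] at h

theorem degreeOf_sw_left (i : ℕ) (P : MvPolynomial ℕ ℂ) :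
    (sw i P).degreeOf i = P.degreeOf (i + 1) := by
  have h := degreeOf_rename_of_injective (p := P) (Equiv.injective (Equiv.swap i (i + 1))) (i + 1)
  rwa [Equiv.swap_apply_right] at h

theorem degreeOf_sw_right (i : ℕ) (P : MvPolynomial ℕ ℂ) :
    (sw i P).degreeOf (i + 1) = P.degreeOf i := by
  have h := degreeOf_rename_of_injective (p := P) (Equiv.injective (Equiv.swap i (i + 1))) i
  rwa [Equiv.swap_apply_left] at h

/-- the numerator -/
noncomputable def num (q : ℂ) (i : ℕ) (P : MvPolynomial ℕ ℂ) : MvPolynomial ℕ ℂ :=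
  (C q * X (i + 1) - C (q ^ 2) * X i) * sw i P - (C q * X i - C (q ^ 2) * X (i + 1)) * P

theorem eval_num (q : ℂ) (i : ℕ) (P : MvPolynomial ℕ ℂ) (z : ℕ → ℂ) :
    eval z (num q i P) = (q * z (i + 1) - q ^ 2 * z i) * eval (swapV i z) P -
        (q * z i - q ^ 2 * z (i + 1)) * eval z P := by
  rw [num]
  simp only [map_sub, map_mul, eval_C, eval_X, eval_sw]

theorem exists_quot (hq : q ^ 2 + q + 1 = 0) (i : ℕ) (P : MvPolynomial ℕ ℂ) :
    ∃ Q, (X i - X (i + 1)) * Q = num q i P := by
  obtain ⟨D, hD⟩ := dvd_sw_sub i P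
  refine ⟨(C q * X (i + 1) - C (q ^ 2) * X i) * D + P, ?_⟩
  have h1 : (C q + C (q ^ 2) : MvPolynomial ℕ ℂ) = -1 := by
    rw [← map_add, show q + q ^ 2 = -1 by linear_combination hq, map_neg, map_one]
  have h2 : sw i P = P + (X i - X (i + 1)) * D := by rw [← hD]; ring
  rw [num, h2]
  linear_combination (X i - X (i + 1)) * P * h1

theorem degreeOf_lin_le (a b : ℂ) (i j k : ℕ) :
    (C a * X i - C b * X j : MvPolynomial ℕ ℂ).degreeOf k ≤ if k = i ∨ k = j then 1 else 0 := by
  refine (degreeOf_sub_le k _ _).trans ?_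
  have h1 : (C a * X i : MvPolynomial ℕ ℂ).degreeOf k ≤ if k = i then 1 else 0 := by
    refine (degreeOf_C_mul_le _ _ _).trans ?_
    rw [degreeOf_X]
  have h2 : (C b * X j : MvPolynomial ℕ ℂ).degreeOf k ≤ if k = j then 1 else 0 := by
    refine (degreeOf_C_mul_le _ _ _).trans ?_
    rw [degreeOf_X]
  refine max_le (h1.trans ?_) (h2.trans ?_) <;> split_ifs <;> simp_all

theorem degreeOf_num_le (q : ℂ) (i k : ℕ) (P : MvPolynomial ℕ ℂ) {d : ℕ}
    (h1 : P.degreeOf k ≤ d) (h2 : (sw i P).degreeOf k ≤ d) :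
    (num q i P).degreeOf k ≤ (if k = i ∨ k = i + 1 then 1 else 0) + d := by
  rw [num]
  refine (degreeOf_sub_le k _ _).trans (max_le ?_ ?_)
  · refine (degreeOf_mul_le k _ _).trans (add_le_add ?_ h2)
    refine (degreeOf_lin_le _ _ _ _ _).trans ?_
    split_ifs <;> simp_all
  · refine (degreeOf_mul_le k _ _).trans (add_le_add ?_ h1)
    exact degreeOf_lin_le _ _ _ _ _

theorem degreeOf_X_sub_X' {i j : ℕ} (h : i ≠ j) : (X i - X j : MvPolynomial ℕ ℂ).degreeOf j = 1 := by
  rw [← neg_sub, degreeOf_neg]
  exact degreeOf_X_sub_X (Ne.symm h)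

theorem wheel_point (h : Wheel q m P) (hq : q ^ 2 + q + 1 = 0) {i : ℕ} (hi : i + 1 < 2 * m)
    {z : ℕ → ℂ} {a b c : ℕ} (hab : a < b) (hbc : b < c) (hc : c < 2 * m)
    (h1 : z a = q ^ 2 * z b) (h2 : z b = q ^ 2 * z c) : eval z (num q i P) = 0 := by
  rw [eval_num, h.wheel z a b c hab hbc hc h1 h2, mul_zero, sub_zero]
  have key : ∀ x : ℂ, q * x - q ^ 2 * (q ^ 2 * x) = 0 := by
    intro x
    linear_combination (-(q ^ 2 - q) * x) * hq
  by_cases hA : a = i ∧ b = i + 1
  · obtain ⟨rfl, rfl⟩ := hA
    rw [h1, key, zero_mul]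
  by_cases hB : b = i ∧ c = i + 1
  · obtain ⟨rfl, rfl⟩ := hB
    rw [h2, key, zero_mul]
  have hs : ∀ k, swapV i z (Equiv.swap i (i + 1) k) = z k := by
    intro k
    rw [swapV, Equiv.swap_apply_self]
  have hval : ∀ k, Equiv.swap i (i + 1) k = if k = i then i + 1 else if k = i + 1 then i else k :=
    fun k => Equiv.swap_apply_def _ _ _
  rw [h.wheel (swapV i z) (Equiv.swap i (i + 1) a) (Equiv.swap i (i + 1) b)
    (Equiv.swap i (i + 1) c) ?_ ?_ ?_ ?_ ?_, mul_zero]
  · rw [hval, hval]
    split_ifs <;> omega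
  · rw [hval, hval]
    split_ifs <;> omega
  · rw [hval]
    split_ifs <;> omega
  · rw [hs, hs, h1]
  · rw [hs, hs, h2]

theorem norm_q (hq : q ^ 2 + q + 1 = 0) : ‖q‖ = 1 := by
  have h3 : q ^ 3 = 1 := by linear_combination (q - 1) * hq
  have h4 : ‖q‖ ^ 3 = 1 := by rw [← norm_pow, h3, norm_one]
  exact (pow_eq_one_iff_of_nonneg (norm_nonneg q) (by norm_num)).1 h4

theorem q_ne_one (hq : q ^ 2 + q + 1 = 0) : q ≠ 1 := by
  rintro rfl
  norm_num at hq

theorem q_ne_zero (hq : q ^ 2 + q + 1 = 0) : q ≠ 0 := by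
  rintro rfl
  norm_num at hq

theorem q_cube (hq : q ^ 2 + q + 1 = 0) : q ^ 3 = 1 := by linear_combination (q - 1) * hq

theorem q2_ne_one (hq : q ^ 2 + q + 1 = 0) : q ^ 2 ≠ 1 := by
  intro h
  apply q_ne_one hq
  have h3 := q_cube hq
  calc q = q ^ 3 := by rw [pow_succ, h, one_mul]
    _ = 1 := h3

theorem wheel_quot (h : Wheel q m P) (hq : q ^ 2 + q + 1 = 0) {i : ℕ} (hi : i + 1 < 2 * m)
    {Q : MvPolynomial ℕ ℂ} (hQ : (X i - X (i + 1)) * Q = num q i P) : Wheel q m Q := by
  have hne : (X i - X (i + 1) : MvPolynomial ℕ ℂ) ≠ 0 := X_sub_X_ne (by omega)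
  by_cases hQ0 : Q = 0
  · subst hQ0
    exact ⟨fun k _ => by simp, fun k _ => by simp, fun z a b c _ _ _ _ _ => by simp⟩
  have hdeg : ∀ k, (X i - X (i + 1) : MvPolynomial ℕ ℂ).degreeOf k + Q.degreeOf k =
      (num q i P).degreeOf k := by
    intro k
    rw [← hQ, degreeOf_mul_eq hne hQ0]
  refine ⟨?_, ?_, ?_⟩
  · intro k hk
    have h0 := hdeg k
    by_cases hki : k = i
    · subst hki
      rw [degreeOf_X_sub_X (by omega)] at h0
      have h1 := degreeOf_num_le q k k P (h.deg k hk)
        (by rw [degreeOf_sw_left]; exact h.deg _ (by omega))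
      rw [if_pos (Or.inl rfl)] at h1
      omega
    by_cases hki' : k = i + 1
    · subst hki'
      rw [degreeOf_X_sub_X' (by omega)] at h0
      have h1 := degreeOf_num_le q i (i + 1) P (h.deg _ hk)
        (by rw [degreeOf_sw_right]; exact h.deg _ (by omega))
      rw [if_pos (Or.inr rfl)] at h1
      omega
    · have h1 := degreeOf_num_le q i k P (h.deg k hk)
        (by rw [degreeOf_sw_of_ne hki hki']; exact h.deg _ hk)
      rw [if_neg (by omega)] at h1
      omega
  · intro k hk
    have h0 := hdeg k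
    have h1 := degreeOf_num_le q i k P (h.out k hk).le
      (by rw [degreeOf_sw_of_ne (by omega) (by omega)]; exact (h.out k hk).le)
    rw [if_neg (by omega)] at h1
    omega
  · intro z a b c hab hbc hc h1 h2
    -- a direction in the wheel subspace
    let w : ℕ → ℂ := fun k => if k = c then 1 else if k = b then q ^ 2 else if k = a then q
      else (5 + k : ℕ)
    have hwc : w c = 1 := if_pos rfl
    have hwb : w b = q ^ 2 := by
      simp only [w]
      rw [if_neg (by omega)]
      simp
    have hwa : w a = q := by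
      simp only [w]
      rw [if_neg (by omega), if_neg (by omega)]
      simp
    have hwo : ∀ k, k ≠ a → k ≠ b → k ≠ c → w k = (5 + k : ℕ) := by
      intro k h1 h2 h3
      simp only [w]
      rw [if_neg h3, if_neg h2, if_neg h1]
    have hnq := norm_q hq
    have hnorm : ∀ k, k = a ∨ k = b ∨ k = c → ‖w k‖ = 1 := by
      rintro k (rfl | rfl | rfl)
      · rw [hwa, hnq]
      · rw [hwb, norm_pow, hnq, one_pow]
      · rw [hwc, norm_one]
    have hnorm' : ∀ k, ¬ (k = a ∨ k = b ∨ k = c) → ‖w k‖ = 5 + k := by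
      intro k hk
      push Not at hk
      rw [hwo k hk.1 hk.2.1 hk.2.2, Complex.norm_natCast]
      push_cast
      ring
    have hwne : w i ≠ w (i + 1) := by
      intro hcon
      by_cases h3 : i = a ∨ i = b ∨ i = c
      · by_cases h4 : i + 1 = a ∨ i + 1 = b ∨ i + 1 = c
        · have h5 : (i = a ∧ i + 1 = b) ∨ (i = b ∧ i + 1 = c) := by omega
          rcases h5 with ⟨h5, h6⟩ | ⟨h5, h6⟩
          · rw [h6, h5, hwa, hwb] at hcon
            have h7 : q * (q - 1) = 0 := by linear_combination -hcon
            rcases mul_eq_zero.1 h7 with h8 | h8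
            · exact q_ne_zero hq h8
            · exact q_ne_one hq (sub_eq_zero.1 h8)
          · rw [h6, h5, hwb, hwc] at hcon
            exact q2_ne_one hq hcon
        · have h5 := hnorm i h3
          have h6 := hnorm' (i + 1) h4
          rw [hcon, h6] at h5
          push_cast at h5
          have : (0 : ℝ) ≤ i := Nat.cast_nonneg i
          linarith
      · by_cases h4 : i + 1 = a ∨ i + 1 = b ∨ i + 1 = c
        · have h5 := hnorm' i h3
          have h6 := hnorm (i + 1) h4
          rw [hcon, h6] at h5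
          have : (0 : ℝ) ≤ i := Nat.cast_nonneg i
          linarith
        · have h5 := hnorm' i h3
          have h6 := hnorm' (i + 1) h4
          rw [hcon, h6] at h5
          push_cast at h5
          linarith
    have hcont : Continuous fun t : ℂ => eval (fun k => z k + t * w k) Q :=
      (continuous_eval Q).comp (continuous_pi fun k => by fun_prop)
    have hev : ∀ t : ℂ, (z i - z (i + 1)) + t * (w i - w (i + 1)) ≠ 0 →
        eval (fun k => z k + t * w k) Q = 0 := by
      intro t ht
      have h5 := congrArg (eval (fun k => z k + t * w k)) hQ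
      rw [wheel_point h hq hi hab hbc hc (z := fun k => z k + t * w k)
        (by
          rw [hwa, hwb, h1]
          linear_combination (-(q ^ 2 - q) * t) * hq)
        (by
          rw [hwb, hwc, h2]
          ring)] at h5
      rw [map_mul] at h5
      rcases mul_eq_zero.1 h5 with h6 | h6
      · exfalso
        apply ht
        rw [map_sub, eval_X, eval_X] at h6
        linear_combination h6
      · exact h6
    -- the bad set of `t` has at most one element
    have hclosed : IsClosed {t : ℂ | eval (fun k => z k + t * w k) Q = 0} :=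
      isClosed_eq hcont continuous_const
    have hdense : Dense {t : ℂ | eval (fun k => z k + t * w k) Q = 0} := by
      refine (dense_compl_singleton (-(z i - z (i + 1)) / (w i - w (i + 1)))).mono ?_
      intro t ht
      apply hev t
      intro h5
      apply ht
      rw [Set.mem_singleton_iff, eq_div_iff (sub_ne_zero.2 hwne)]
      linear_combination h5
    have h0 : (0 : ℂ) ∈ {t : ℂ | eval (fun k => z k + t * w k) Q = 0} := by
      rw [← hclosed.closure_eq, hdense.closure_eq]
      exact Set.mem_univ _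
    simpa using h0

/-- the defining relation, for functions -/
def Rel (q : ℂ) (i : ℕ) (P Q : MvPolynomial ℕ ℂ) : Prop :=
  ∀ z, (z i - z (i + 1)) * eval z Q = (q * z (i + 1) - q ^ 2 * z i) * eval (swapV i z) P -
        (q * z i - q ^ 2 * z (i + 1)) * eval z P

/-- `∏ (z_k - q v) ≠ 0` for some `v` -/
theorem exists_prod_ne (hq : q ^ 2 + q + 1 = 0) (N : ℕ) (z : ℕ → ℂ) :
    ∃ v : ℂ, (∏ k ∈ range N, (z k - q * v)) ≠ 0 := by
  have hfin : (⋃ k ∈ range N, {v : ℂ | z k - q * v = 0}).Finite := by
    refine Set.Finite.biUnion (Finset.finite_toSet _) fun k _ => ?_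
    refine (Set.finite_singleton (z k / q)).subset ?_
    intro v hv
    rw [Set.mem_singleton_iff, eq_div_iff (q_ne_zero hq)]
    have hv' : z k - q * v = 0 := hv
    linear_combination -hv'
  obtain ⟨v, hv⟩ := hfin.exists_notMem
  refine ⟨v, ?_⟩
  rw [Finset.prod_ne_zero_iff]
  intro k hk h0
  exact hv (Set.mem_biUnion hk h0)

/-- two polynomials which agree up to a factor `x_j ∏ (x_k - c x_j)` are equal -/
theorem eq_of_mul_prod (N j : ℕ) (hj : j < N) (c : ℂ) (hc : c ≠ 1) {A B : MvPolynomial ℕ ℂ}
    (hAB : ∀ z : ℕ → ℂ, z j ≠ 0 → (∏ k ∈ range N, (z k - c * z j)) * eval z A =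
      (∏ k ∈ range N, (z k - c * z j)) * eval z B) : A = B := by
  have h1 : (X j * ∏ k ∈ range N, (X k - C c * X j)) * (A - B) = (0 : MvPolynomial ℕ ℂ) := by
    apply MvPolynomial.funext
    intro z
    rw [map_mul, map_mul, map_prod, map_sub, map_zero, eval_X]
    simp only [map_sub, map_mul, eval_X, eval_C]
    by_cases hz : z j = 0
    · rw [hz]; ring
    · have := hAB z hz
      linear_combination (z j) * this
  rcases mul_eq_zero.1 h1 with h2 | h2
  · exfalso
    rcases mul_eq_zero.1 h2 with h3 | h3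
    · exact X_ne_zero j h3
    · rw [Finset.prod_eq_zero_iff] at h3
      obtain ⟨k, hk, h4⟩ := h3
      have h5 := congrArg (eval (fun l => if l = j then (1 : ℂ) else c + 1)) h4
      simp only [map_sub, map_mul, eval_X, eval_C, map_zero] at h5
      by_cases hkj : k = j
      · subst hkj
        simp only [if_true] at h5
        apply hc
        linear_combination -h5
      · rw [if_neg hkj] at h5
        simp only [if_true] at h5
        have : (1 : ℂ) = 0 := by linear_combination h5
        exact one_ne_zero this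
  · exact sub_eq_zero.1 h2

theorem insV_of_lt {i k : ℕ} (h : k < i) (u v : ℂ) (z : ℕ → ℂ) : insV i u v z k = z k := if_pos h

theorem insV_self (i : ℕ) (u v : ℂ) (z : ℕ → ℂ) : insV i u v z i = u := by
  simp [insV]

theorem insV_succ (i : ℕ) (u v : ℂ) (z : ℕ → ℂ) : insV i u v z (i + 1) = v := by
  simp [insV]

theorem insV_of_gt {i k : ℕ} (h : i + 1 < k) (u v : ℂ) (z : ℕ → ℂ) :
    insV i u v z k = z (k - 2) := by
  rw [insV, if_neg (by omega), if_neg (by omega), if_neg (by omega)]

theorem swapV_def (i : ℕ) (z : ℕ → ℂ) (k : ℕ) :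
    swapV i z k = if k = i then z (i + 1) else if k = i + 1 then z i else z k := by
  rw [swapV, Equiv.swap_apply_def]
  split_ifs <;> rfl

theorem case_eq (hq : q ^ 2 + q + 1 = 0) {Q : MvPolynomial ℕ ℂ} {i : ℕ} (hR : Rel q i P Q)
    {z : ℕ → ℂ} (h1 : z i = q ^ 2) (h2 : z (i + 1) = 1) : eval z Q = eval z P := by
  have h := hR z
  rw [h1, h2] at h
  have h3 : q ^ 2 - 1 ≠ 0 := sub_ne_zero.2 (q2_ne_one hq)
  apply mul_left_cancel₀ h3
  rw [h]
  linear_combination ((-(q ^ 2 - q)) * eval (swapV i z) P) * hq +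
    (1 - q) * eval z P * hq

/-- the arc `(i+1, i+2)` -/
theorem case_succ (hq : q ^ 2 + q + 1 = 0) (h : Wheel q (m + 1) P) {Q : MvPolynomial ℕ ℂ}
    (hQ : Wheel q (m + 1) Q) {i : ℕ} (hi : i + 2 < 2 * (m + 1)) (hR : Rel q i P Q) {p : ℕ → ℕ}
    (hp : NC (2 * m) p) :
    eval (zpt q (insArc (i + 1) p)) Q = eval (zpt q (insArc i p)) P := by
  obtain ⟨RQ, hRQ, hRQ'⟩ := hQ.restrict hq (i := i + 1) (by omega)
  obtain ⟨RP, hRP, hRP'⟩ := h.restrict hq (i := i) (by omega)
  have hRR : RQ = RP := by
    apply eq_of_mul_prod (2 * m) i (by omega) q (q_ne_one hq)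
    intro z hz
    rw [← hRQ' z (z i), ← hRP' z (z i)]
    have h1 := hR (insV (i + 1) (q ^ 2 * z i) (z i) z)
    rw [insV_self, insV_of_lt (by omega)] at h1
    have h2 : swapV i (insV (i + 1) (q ^ 2 * z i) (z i) z) = insV i (q ^ 2 * z i) (z i) z := by
      funext k
      rw [swapV_def]
      split_ifs with h3 h4
      · rw [h3, insV_self, insV_self]
      · rw [h4, insV_succ, insV_of_lt (by omega)]
      · by_cases h5 : k < i
        · rw [insV_of_lt (by omega), insV_of_lt h5]
        · by_cases h6 : k = i + 2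
          · subst h6
            rw [insV_succ, insV_of_gt (by omega)]
            simp
          · rw [insV_of_gt (by omega), insV_of_gt (by omega)]
    rw [h2] at h1
    have h4 : z i - q ^ 2 * z i ≠ 0 := by
      have h5 : z i - q ^ 2 * z i = z i * (1 - q ^ 2) := by ring
      rw [h5]
      exact mul_ne_zero hz (sub_ne_zero.2 (Ne.symm (q2_ne_one hq)))
    apply mul_left_cancel₀ h4
    rw [h1]
    linear_combination ((q - 1) * z i * eval (insV i (q ^ 2 * z i) (z i) z) P) * hq +
      ((q ^ 2 - q) * z i * eval (insV (i + 1) (q ^ 2 * z i) (z i) z) P) * hq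
  have e1 := insV_zpt (q := q) hp (i := i + 1) (by omega)
  have e2 := insV_zpt (q := q) hp (i := i) (by omega)
  have e3 := hRQ' (zpt q p) 1
  have e4 := hRP' (zpt q p) 1
  rw [mul_one, e1] at e3
  rw [mul_one, e2] at e4
  rw [e3, e4, hRR]

/-- the arc `(i-1, i)` -/
theorem case_pred (hq : q ^ 2 + q + 1 = 0) (h : Wheel q (m + 1) P) {Q : MvPolynomial ℕ ℂ}
    (hQ : Wheel q (m + 1) Q) {i : ℕ} (hi : i + 2 < 2 * (m + 1)) (hR : Rel q (i + 1) P Q)
    {p : ℕ → ℕ} (hp : NC (2 * m) p) :
    eval (zpt q (insArc i p)) Q = eval (zpt q (insArc (i + 1) p)) P := by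
  obtain ⟨RQ, hRQ, hRQ'⟩ := hQ.restrict hq (i := i) (by omega)
  obtain ⟨RP, hRP, hRP'⟩ := h.restrict hq (i := i + 1) (by omega)
  have hc := q_cube hq
  have hRR : RQ = RP := by
    apply eq_of_mul_prod (2 * m) i (by omega) (q ^ 2) (q2_ne_one hq)
    intro z hz
    have f1 := hRQ' z (q * z i)
    have f2 := hRP' z (q * z i)
    have f3 : ∀ k, z k - q * (q * z i) = z k - q ^ 2 * z i := fun k => by ring
    have f4 : q ^ 2 * (q * z i) = z i := by linear_combination (z i) * hc
    simp only [f3, f4] at f1 f2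
    rw [← f1, ← f2]
    have h1 := hR (insV i (z i) (q * z i) z)
    rw [insV_succ, insV_of_gt (by omega)] at h1
    have f5 : i + 1 + 1 - 2 = i := by omega
    rw [f5] at h1
    have h2 : swapV (i + 1) (insV i (z i) (q * z i) z) = insV (i + 1) (z i) (q * z i) z := by
      funext k
      rw [swapV_def]
      split_ifs with h3 h4
      · rw [h3, insV_of_gt (by omega), f5, insV_self]
      · rw [h4, insV_succ, insV_succ]
      · by_cases h5 : k < i
        · rw [insV_of_lt (by omega), insV_of_lt (by omega)]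
        · by_cases h6 : k = i
          · subst h6
            rw [insV_self, insV_of_lt (by omega)]
          · rw [insV_of_gt (by omega), insV_of_gt (by omega)]
    rw [h2] at h1
    have h4 : q * z i - z i ≠ 0 := by
      have h5 : q * z i - z i = z i * (q - 1) := by ring
      rw [h5]
      exact mul_ne_zero hz (sub_ne_zero.2 (q_ne_one hq))
    apply mul_left_cancel₀ h4
    rw [h1]
    linear_combination ((1 - q) * z i * eval (insV (i + 1) (z i) (q * z i) z) P) * hq
  have e1 := insV_zpt (q := q) hp (i := i) (by omega)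
  have e2 := insV_zpt (q := q) hp (i := i + 1) (by omega)
  have e3 := hRQ' (zpt q p) 1
  have e4 := hRP' (zpt q p) 1
  rw [mul_one, e1] at e3
  rw [mul_one, e2] at e4
  rw [e3, e4, hRR]

/-- the arcs which do not meet `i`, `i + 1` -/
theorem case_far (hq : q ^ 2 + q + 1 = 0) (h : Wheel q (m + 1) P) {Q : MvPolynomial ℕ ℂ}
    (hQ : Wheel q (m + 1) Q) {i i' k : ℕ} (hk : k + 1 < 2 * (m + 1)) (hi' : i' + 1 < 2 * m)
    (hik : (i + 1 < k ∧ i' = i) ∨ (k + 2 ≤ i ∧ i' = i - 2)) (hR : Rel q i P Q)
    (ih : ∀ P' Q' : MvPolynomial ℕ ℂ, Wheel q m P' → Wheel q m Q' → Rel q i' P' Q' →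
      ∀ p, NC (2 * m) p → eval (zpt q p) Q' = eval (zpt q (eAct i' p)) P')
    {p : ℕ → ℕ} (hp : NC (2 * m) p) :
    eval (zpt q (insArc k p)) Q = eval (zpt q (insArc k (eAct i' p))) P := by
  obtain ⟨RQ, hRQ, hRQ'⟩ := hQ.restrict hq (i := k) (by omega)
  obtain ⟨RP, hRP, hRP'⟩ := h.restrict hq (i := k) (by omega)
  have hrel : Rel q i' RP RQ := by
    intro z
    obtain ⟨v, hv⟩ := exists_prod_ne hq (2 * m) z
    have h1 := hR (insV k (q ^ 2 * v) v z)
    have e1 : insV k (q ^ 2 * v) v z i = z i' := by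
      rcases hik with ⟨h2, rfl⟩ | ⟨h2, rfl⟩
      · rw [insV_of_lt (by omega)]
      · rw [insV_of_gt (by omega)]
    have e2 : insV k (q ^ 2 * v) v z (i + 1) = z (i' + 1) := by
      rcases hik with ⟨h2, rfl⟩ | ⟨h2, rfl⟩
      · rw [insV_of_lt (by omega)]
      · rw [insV_of_gt (by omega)]
        congr 1
        omega
    have e3 : swapV i (insV k (q ^ 2 * v) v z) = insV k (q ^ 2 * v) v (swapV i' z) := by
      funext l
      rw [swapV_def]
      by_cases h3 : l < k
      · rw [insV_of_lt h3 _ _ (swapV i' z), swapV_def, e1, e2]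
        rcases hik with ⟨h2, rfl⟩ | ⟨h2, rfl⟩
        · split_ifs <;> first | rfl | (rw [insV_of_lt (by omega)])
        · rw [if_neg (by omega), if_neg (by omega), if_neg (by omega), if_neg (by omega),
            insV_of_lt h3]
      · by_cases h4 : l = k
        · subst h4
          rw [if_neg (by omega), if_neg (by omega), insV_self, insV_self]
        · by_cases h5 : l = k + 1
          · subst h5
            rw [if_neg (by omega), if_neg (by omega), insV_succ, insV_succ]
          · rw [insV_of_gt (by omega) _ _ (swapV i' z), swapV_def, e1, e2]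
            rcases hik with ⟨h2, rfl⟩ | ⟨h2, rfl⟩
            · rw [if_neg (by omega), if_neg (by omega), if_neg (by omega), if_neg (by omega),
                insV_of_gt (by omega)]
            · by_cases h6 : l = i
              · subst h6
                rw [if_pos rfl, if_pos rfl]
              · by_cases h7 : l = i + 1
                · subst h7
                  rw [if_neg (by omega), if_pos rfl, if_neg (by omega), if_pos (by omega)]
                · rw [if_neg h6, if_neg h7, if_neg (by omega), if_neg (by omega),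
                    insV_of_gt (by omega)]
    have e4 : (∏ l ∈ range (2 * m), (swapV i' z l - q * v)) =
        ∏ l ∈ range (2 * m), (z l - q * v) := by
      have h5 : ∏ l ∈ range (2 * m), (z l - q * v) =
          ∏ l ∈ range (2 * m), (z (Equiv.swap i' (i' + 1) l) - q * v) := by
        symm
        refine Finset.prod_bij (fun l _ => Equiv.swap i' (i' + 1) l) ?_ ?_ ?_ ?_
        · intro l hl
          rw [mem_range] at hl ⊢
          rw [Equiv.swap_apply_def]
          split_ifs <;> omega
        · intro a _ b _ hab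
          exact (Equiv.swap i' (i' + 1)).injective hab
        · intro b hb
          refine ⟨Equiv.swap i' (i' + 1) b, ?_, Equiv.swap_apply_self _ _ _⟩
          rw [mem_range] at hb ⊢
          rw [Equiv.swap_apply_def]
          split_ifs <;> omega
        · intro l _
          rfl
      rw [h5]
      rfl
    rw [e1, e2, e3, hRQ', hRP', hRP', e4] at h1
    apply mul_left_cancel₀ hv
    linear_combination h1
  have hE : NC (2 * m) (eAct i' p) := hp.eAct hi'
  have e1 := insV_zpt (q := q) hp (i := k) (by omega)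
  have e2 := insV_zpt (q := q) hE (i := k) (by omega)
  have e3 := hRQ' (zpt q p) 1
  have e4 := hRP' (zpt q (eAct i' p)) 1
  rw [mul_one, e1, mul_one, prod_zpt hq hp] at e3
  rw [mul_one, e2, mul_one, prod_zpt hq hE] at e4
  rw [e3, e4, ih RP RQ hRP hRQ hrel p hp]

theorem main (hq : q ^ 2 + q + 1 = 0) (m : ℕ) : ∀ (i : ℕ) (P Q : MvPolynomial ℕ ℂ),
    i + 1 < 2 * m → Wheel q m P → Wheel q m Q → Rel q i P Q →
    ∀ p, NC (2 * m) p → eval (zpt q p) Q = eval (zpt q (eAct i p)) P := by
  induction m with
  | zero => intro i P Q hi; omega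
  | succ m ih =>
    intro i P Q hi hP hQ hR p hp
    obtain ⟨k, hk, hpk⟩ := hp.exists_small (by omega)
    have hp' : NC (2 * m + 2) p := hp
    have hdel : NC (2 * m) (delArc k p) := hp'.delArc (by omega) hpk
    have hins : insArc k (delArc k p) = p := insArc_delArc hp' (by omega) hpk
    by_cases h1 : k = i
    · subst h1
      rw [eAct_of_eq hp hi hpk]
      have hp1 : p (k + 1) = k := by rw [← hpk, hp.inv]
      refine case_eq hq hR ?_ ?_
      · rw [zpt, hpk, if_pos (by omega)]
      · rw [zpt, hp1, if_neg (by omega)]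
    by_cases h2 : k = i + 1
    · subst h2
      have h3 := case_succ hq hP hQ (by omega) hR hdel
      rw [hins] at h3
      rw [h3, ← eAct_insArc_succ hdel (by omega), hins]
    by_cases h3 : k + 1 = i
    · subst h3
      have h4 := case_pred hq hP hQ (by omega) hR hdel
      rw [hins] at h4
      rw [h4, ← eAct_succ_insArc hdel (by omega), hins]
    rcases Nat.lt_or_ge (i + 1) k with h4 | h4
    · have h5 := case_far hq hP hQ (i' := i) hk (by omega) (Or.inl ⟨h4, rfl⟩) hR
        (fun P' Q' a b c => ih i P' Q' (by omega) a b c) hdel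
      rw [hins] at h5
      rw [h5, ← eAct_insArc_of_lt hdel h4 (by omega), hins]
    · have h5 := case_far hq hP hQ (i' := i - 2) hk (by omega) (Or.inr ⟨by omega, rfl⟩) hR
        (fun P' Q' a b c => ih (i - 2) P' Q' (by omega) a b c) hdel
      rw [hins] at h5
      rw [h5, ← eAct_insArc_of_le hdel (by omega) (by omega), hins]

end WheelE

/-- W4: the operators `E_i` (Demazure-Lusztig type). -/
theorem Wheel.exists_E (hq : q ^ 2 + q + 1 = 0) (h : Wheel q m P) {i : ℕ} (hi : i + 1 < 2 * m) :
    ∃ Q, Wheel q m Q ∧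
      (∀ z, (z i - z (i + 1)) * eval z Q = (q * z (i + 1) - q ^ 2 * z i) * eval (swapV i z) P -
        (q * z i - q ^ 2 * z (i + 1)) * eval z P) ∧
      ∀ p, NC (2 * m) p → eval (zpt q p) Q = eval (zpt q (eAct i p)) P := by
  obtain ⟨Q, hQ⟩ := WheelE.exists_quot hq i P
  have hQW := WheelE.wheel_quot h hq hi hQ
  have hR : WheelE.Rel q i P Q := by
    intro z
    have h1 := congrArg (eval z) hQ
    rw [WheelE.eval_num, map_mul, map_sub, eval_X, eval_X] at h1
    exact h1
  exact ⟨Q, hQW, hR, WheelE.main hq m i P Q hi h hQW hR⟩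

end Pool.Agent.Perc

end PartpercWheelE

section PartpercWheelD

/-!
# Wheel polynomials: rotation (task WheelD)
-/

set_option autoImplicit false

namespace Pool.Agent.Perc

open Finset MvPolynomial

variable {q : ℂ} {m : ℕ} {P : MvPolynomial ℕ ℂ}

namespace WheelD

open WheelA

/-- The index map of the rotation. -/
def rotI (N : ℕ) (k : ℕ) : ℕ := if k + 1 < N then k + 1 else if k + 1 = N then 0 else k

theorem rotV_eq (N : ℕ) (z : ℕ → ℂ) : rotV N z = z ∘ rotI N := by
  funext k
  show rotV N z k = z (rotI N k)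
  simp only [rotV, rotI]
  split_ifs <;> rfl

theorem rotI_injective (N : ℕ) : Function.Injective (rotI N) := by
  intro a b hab
  unfold rotI at hab
  split_ifs at hab <;> omega

/-- The inverse of the index map. -/
def rotJ (N : ℕ) (k : ℕ) : ℕ := if N ≤ k then k else if k = 0 then N - 1 else k - 1

theorem rotI_rotJ (N k : ℕ) : rotI N (rotJ N k) = k := by
  unfold rotI rotJ
  split_ifs <;> omega

theorem rotV_insV {N k : ℕ} (hk : 0 < k) (hkN : k ≤ N) (u v : ℂ) (z : ℕ → ℂ) {x : ℕ}
    (hx : x < N + 2) : rotV (N + 2) (insV k u v z) x = insV (k - 1) u v (rotV N z) x := by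
  simp only [rotV, insV]
  split_ifs <;> first | omega | rfl | (congr 1; omega)

/-- The product over the sites is invariant under the rotation. -/
theorem prod_rotV (N : ℕ) (z : ℕ → ℂ) (g : ℂ → ℂ) :
    ∏ k ∈ range N, g (rotV N z k) = ∏ k ∈ range N, g (z k) := by
  cases N with
  | zero => rfl
  | succ n =>
    rw [Finset.prod_range_succ, Finset.prod_range_succ']
    congr 1
    · refine Finset.prod_congr rfl fun k hk => ?_
      have hk' := Finset.mem_range.1 hk
      unfold rotV
      rw [if_pos (by omega)]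
    · unfold rotV
      rw [if_neg (by omega), if_pos rfl]

/-- The value at the rotated point. -/
theorem eval_rotV_zpt (hq : q ^ 2 + q + 1 = 0) (m : ℕ) (P : MvPolynomial ℕ ℂ) (h : Wheel q m P)
    (p : ℕ → ℕ) (hp : NC (2 * m) p) :
    eval (rotV (2 * m) (zpt q p)) P = eval (zpt q (rotP (2 * m) p)) P := by
  induction m generalizing P p with
  | zero => exact h.eval_congr fun k hk => absurd hk (by omega)
  | succ m ih =>
    by_cases hm : m = 0
    · subst hm
      rw [eval_eq, eval_eq]
      refine Finset.sum_congr rfl fun e he => ?_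
      congr 1
      refine Finset.prod_congr rfl fun k _ => ?_
      have h1 := le_degreeOf he k
      have h2 : e k = 0 := by
        by_cases hk : k < 2 * (0 + 1)
        · have := h.deg k hk
          omega
        · have := h.out k (by omega)
          omega
      rw [h2, pow_zero, pow_zero]
    · have hN : 2 * (m + 1) = 2 * m + 2 := by ring
      rw [hN] at hp ⊢
      obtain ⟨k, hk, hkN, hpk⟩ := hp.exists_small_pos (by omega)
      set p₁ := delArc k p with hp₁
      have hp1 : NC (2 * m) p₁ := hp.delArc (by omega) hpk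
      have hins : insArc k p₁ = p := insArc_delArc hp (by omega) hpk
      obtain ⟨R, hR, hPR⟩ := h.restrict hq (i := k - 1) (by omega)
      have e1 : eval (rotV (2 * m + 2) (zpt q p)) P =
          eval (insV (k - 1) (q ^ 2 * 1) 1 (rotV (2 * m) (zpt q p₁))) P := by
        refine h.eval_congr fun x hx => ?_
        rw [← hins, ← insV_zpt hp1 (by omega), mul_one]
        exact rotV_insV hk (by omega) _ _ _ (by omega)
      have e2 : eval (zpt q (rotP (2 * m + 2) p)) P =
          eval (insV (k - 1) (q ^ 2 * 1) 1 (zpt q (rotP (2 * m) p₁))) P := by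
        rw [← hins, rotP_insArc hp1 hk (by omega), mul_one, insV_zpt hp1.rotP (by omega)]
      rw [e1, e2, hPR, hPR, ih R hR p₁ hp1]
      congr 1
      simp only [mul_one]
      rw [prod_rotV (2 * m) (zpt q p₁) (fun x => x - q), prod_zpt hq hp1, prod_zpt hq hp1.rotP]

end WheelD

open WheelA WheelD

/-- W4': cyclic rotation. -/
theorem Wheel.exists_rot (hq : q ^ 2 + q + 1 = 0) (h : Wheel q m P) :
    ∃ Q, Wheel q m Q ∧ (∀ z, eval z Q = eval (rotV (2 * m) z) P) ∧
      ∀ p, NC (2 * m) p → eval (zpt q p) Q = eval (zpt q (rotP (2 * m) p)) P := by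
  have hq3 := q_cube hq
  have hev : ∀ z, eval z (rename (rotI (2 * m)) P) = eval (rotV (2 * m) z) P := by
    intro z
    rw [eval_rename, rotV_eq]
  have hdeg : ∀ k, degreeOf k (rename (rotI (2 * m)) P) = degreeOf (rotJ (2 * m) k) P := by
    intro k
    have h1 := degreeOf_rename_of_injective (p := P) (rotI_injective (2 * m)) (rotJ (2 * m) k)
    rw [rotI_rotJ] at h1
    exact h1
  refine ⟨rename (rotI (2 * m)) P, ⟨?_, ?_, ?_⟩, hev, ?_⟩
  · intro k hk
    rw [hdeg]
    exact h.deg _ (by unfold rotJ; split_ifs <;> omega)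
  · intro k hk
    rw [hdeg]
    exact h.out _ (by unfold rotJ; split_ifs <;> omega)
  · intro z i j k hij hjk hk h1 h2
    rw [hev]
    have hr : ∀ x, 0 < x → x < 2 * m → rotV (2 * m) z (x - 1) = z x := by
      intro x hx hx2
      unfold rotV
      rw [if_pos (by omega)]
      congr 1
      omega
    by_cases hi : i = 0
    · have hr0 : rotV (2 * m) z (2 * m - 1) = z 0 := by
        unfold rotV
        rw [if_neg (by omega), if_pos (by omega)]
      subst hi
      refine h.wheel _ (j - 1) (k - 1) (2 * m - 1) (by omega) (by omega) (by omega) ?_ ?_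
      · rw [hr j (by omega) (by omega), hr k (by omega) hk, h2]
      · rw [hr k (by omega) hk, hr0, h1, h2]
        linear_combination (-(q ^ 3 + 1) * z k) * hq3
    · refine h.wheel _ (i - 1) (j - 1) (k - 1) (by omega) (by omega) (by omega) ?_ ?_
      · rw [hr i (by omega) (by omega), hr j (by omega) (by omega), h1]
      · rw [hr j (by omega) (by omega), hr k (by omega) hk, h2]
  · intro p hp
    rw [hev]
    exact eval_rotV_zpt hq m P h p hp

end Pool.Agent.Perc

end PartpercWheelD
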