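import Pool.Agent.Lib.MP_6bd702_z.Z047
import Pool.Agent.Lib.MP_6bd702_z.Z048

section PartpercWheelC

/-!
# Wheel polynomials: injectivity of the evaluations (task WheelC)
-/

set_option autoImplicit false

namespace Pool.Agent.Perc

open Finset MvPolynomial

variable {q : ℂ} {m : ℕ} {P : MvPolynomial ℕ ℂ}

namespace WheelC

open WheelA

/-- A wheel polynomial in no variables is constant. -/
theorem eval_eq_of_zero (h : Wheel q 0 P) (z w : ℕ → ℂ) : eval z P = eval w P :=
  h.eval_congr fun k hk => absurd hk (by omega)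

/-- Every point with `z_i = q² z_{i+1}` is an insertion. -/
theorem eq_insV {i : ℕ} {z : ℕ → ℂ} (hz : z i = q ^ 2 * z (i + 1)) :
    z = insV i (q ^ 2 * z (i + 1)) (z (i + 1)) (fun k => z (sh i k)) := by
  funext k
  unfold insV
  beta_reduce
  split_ifs with h1 h2 h3
  · rw [sh, if_pos h1]
  · rw [h2, hz]
  · rw [h3]
  · rw [sh, if_neg (by omega)]
    congr 1; omega

theorem q_ne_one (hq : q ^ 2 + q + 1 = 0) : q ≠ 1 := by
  rintro rfl
  norm_num at hq

/-- Linear monomials. -/
theorem C_mul_X_inj {a b : ℂ} {k l : ℕ} (ha : a ≠ 0)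
    (h : (C a * X k : MvPolynomial ℕ ℂ) = C b * X l) : k = l ∧ a = b := by
  have h1 := congrArg (eval (fun n => if n = k then (1 : ℂ) else 0)) h
  simp only [map_mul, eval_C, eval_X, if_true] at h1
  by_cases hkl : l = k
  · subst hkl
    simp only [if_true, mul_one] at h1
    exact ⟨rfl, h1⟩
  · rw [if_neg hkl, mul_one, mul_zero] at h1
    exact absurd h1 ha

/-- The polynomial vanishes at `z_i = q² z_j`. -/
theorem eval_eq_zero_of_adj (hq : q ^ 2 + q + 1 = 0) (h : Wheel q (m + 1) P)
    (h1 : ∀ i, i + 1 < 2 * (m + 1) → ∀ z : ℕ → ℂ, z i = q ^ 2 * z (i + 1) → eval z P = 0) :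
    ∀ d i : ℕ, 0 < d → i + d < 2 * (m + 1) → ∀ z : ℕ → ℂ, z i = q ^ 2 * z (i + d) →
      eval z P = 0 := by
  classical
  have hq3 := q_cube hq
  have hq0 := q_ne_zero hq
  intro d
  induction d using Nat.strong_induction_on with
  | _ d ih =>
  intro i hd hid z hz
  by_cases hd1 : d = 1
  · subst hd1
    exact h1 i hid z hz
  set j := i + d with hj
  have hij : i ≠ j := by omega
  set s : ℕ → Polynomial (MvPolynomial ℕ ℂ) := fun k =>
    if k = i then Polynomial.C (C (q ^ 2)) * Polynomial.X
    else if k = j then Polynomial.X else Polynomial.C (X k) with hs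
  have hpt : ∀ (a : MvPolynomial ℕ ℂ) (z : ℕ → ℂ),
      (fun k => eval z (Polynomial.eval a (s k))) =
        fun k => if k = i then q ^ 2 * eval z a else if k = j then eval z a else z k := by
    intro a z
    funext k
    simp only [hs]
    split_ifs <;> simp
  set F := aeval s P with hF
  have hdegF : F.natDegree ≤ 2 * m := by
    refine natDegree_aeval_le P s _ fun e he => ?_
    refine le_trans (sum_mul_le_of_two (i := i) (j := j) hij ?_ ?_ ?_) ?_
    · simp only [hs, if_true]
      refine le_trans Polynomial.natDegree_mul_le ?_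
      simp
    · simp only [hs]
      rw [if_neg (by omega)]
      simp
    · intro k hk hk'
      simp only [hs]
      rw [if_neg hk, if_neg hk', Polynomial.natDegree_C]
    · have h1 := le_degreeOf he i
      have h2 := le_degreeOf he j
      have h3 := h.deg i (by omega)
      have h4 := h.deg j hid
      omega
  set f : ℕ → MvPolynomial ℕ ℂ := fun k => if k = i then C q * X (i + 1) else
    if k < i ∨ j < k then C (q ^ 2) * X k else C 1 * X k with hf
  have hroot : ∀ k < 2 * (m + 1), k ≠ j → F.eval (f k) = 0 := by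
    intro k hk hkj
    apply MvPolynomial.funext
    intro z
    rw [hF, eval_eval_aeval, hpt, map_zero]
    by_cases hki : k = i
    · have hv : eval z (f k) = q * z (i + 1) := by
        simp only [hf]
        rw [if_pos hki]
        simp
      rw [hv]
      refine ih (d - 1) (by omega) (i + 1) (by omega) (by omega) _ ?_
      have e1 : i + 1 + (d - 1) = j := by omega
      rw [e1]
      rw [if_neg (by omega), if_neg (by omega), if_neg (by omega), if_pos rfl]
      linear_combination (-z (i + 1)) * hq3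
    by_cases hk1 : k < i
    · have hv : eval z (f k) = q ^ 2 * z k := by
        simp only [hf]
        rw [if_neg hki, if_pos (Or.inl hk1)]
        simp
      rw [hv]
      refine h.wheel _ k i j hk1 (by omega) hid ?_ ?_
      · rw [if_neg hki, if_neg hkj, if_pos rfl]
        linear_combination (-(q ^ 3 + 1) * z k) * hq3
      · rw [if_pos rfl, if_neg (by omega), if_pos rfl]
    by_cases hk2 : j < k
    · have hv : eval z (f k) = q ^ 2 * z k := by
        simp only [hf]
        rw [if_neg hki, if_pos (Or.inr hk2)]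
        simp
      rw [hv]
      refine h.wheel _ i j k (by omega) hk2 hk ?_ ?_
      · rw [if_pos rfl, if_neg (by omega), if_pos rfl]
      · rw [if_neg (by omega), if_pos rfl, if_neg hki, if_neg hkj]
    · have hv : eval z (f k) = z k := by
        simp only [hf]
        rw [if_neg hki, if_neg (by omega)]
        simp
      rw [hv]
      refine ih (k - i) (by omega) i (by omega) (by omega) _ ?_
      have e1 : i + (k - i) = k := by omega
      rw [e1]
      rw [if_pos rfl, if_neg hki, if_neg hkj]
  have hinj : Set.InjOn f (((range (2 * (m + 1))).erase j : Finset ℕ) : Set ℕ) := by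
    intro a ha b hb hab
    have ha' : a ≠ j := by
      have := Finset.mem_coe.1 ha
      exact (Finset.mem_erase.1 this).1
    have hb' : b ≠ j := by
      have := Finset.mem_coe.1 hb
      exact (Finset.mem_erase.1 this).1
    have q2 : q ^ 2 ≠ 0 := pow_ne_zero _ hq0
    have q1 := q_ne_one hq
    simp only [hf] at hab
    split_ifs at hab with c1 c2 c3 c4 c5 c6 c7
    · omega
    · have := (C_mul_X_inj hq0 hab).1
      omega
    · exact absurd (C_mul_X_inj hq0 hab).2 q1
    · have := (C_mul_X_inj q2 hab).1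
      omega
    · exact (C_mul_X_inj q2 hab).1
    · exact (C_mul_X_inj q2 hab).1
    · exact absurd (C_mul_X_inj one_ne_zero hab).2.symm q1
    · exact (C_mul_X_inj one_ne_zero hab).1
    · exact (C_mul_X_inj one_ne_zero hab).1
  have hF0 : F = 0 := by
    refine Polynomial.eq_zero_of_natDegree_lt_card_of_eval_eq_zero' F
      (((range (2 * (m + 1))).erase j).image f) ?_ ?_
    · intro a ha
      obtain ⟨k, hk, rfl⟩ := Finset.mem_image.1 ha
      have hk' := Finset.mem_erase.1 hk
      exact hroot k (Finset.mem_range.1 hk'.2) hk'.1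
    · rw [Finset.card_image_of_injOn hinj, Finset.card_erase_of_mem (Finset.mem_range.2 hid),
        card_range]
      omega
  have h2 := eval_eval_aeval P s (C (z j)) z
  rw [hpt, ← hF, hF0, Polynomial.eval_zero, map_zero, eval_C] at h2
  have h3 : (fun k => if k = i then q ^ 2 * z j else if k = j then z j else z k) = z := by
    funext k
    split_ifs with c1 c2
    · rw [c1, hz]
    · rw [c2]
    · rfl
  rw [h3] at h2
  exact h2.symm

/-- The last step. -/
theorem eq_zero_of_pairs (hq : q ^ 2 + q + 1 = 0) (h : Wheel q (m + 1) P)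
    (h1 : ∀ j, 0 < j → j < 2 * (m + 1) → ∀ z : ℕ → ℂ, z 0 = q ^ 2 * z j → eval z P = 0) :
    P = 0 := by
  classical
  have hq0 := q_ne_zero hq
  set s : ℕ → Polynomial (MvPolynomial ℕ ℂ) := fun k =>
    if k = 0 then Polynomial.X else Polynomial.C (X k) with hs
  have hpt : ∀ (a : MvPolynomial ℕ ℂ) (z : ℕ → ℂ),
      (fun k => eval z (Polynomial.eval a (s k))) =
        fun k => if k = 0 then eval z a else z k := by
    intro a z
    funext k
    simp only [hs]
    split_ifs <;> simp
  set F := aeval s P with hF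
  have hdegF : F.natDegree ≤ m := by
    refine natDegree_aeval_le P s _ fun e he => ?_
    refine le_trans (sum_mul_le_of_one (i := 0) ?_ ?_) ?_
    · simp only [hs, if_true]
      simp
    · intro k hk
      simp only [hs]
      rw [if_neg hk, Polynomial.natDegree_C]
    · have h1 := le_degreeOf he 0
      have h3 := h.deg 0 (by omega)
      omega
  set f : ℕ → MvPolynomial ℕ ℂ := fun k => C (q ^ 2) * X (k + 1) with hf
  have hroot : ∀ k < 2 * m + 1, F.eval (f k) = 0 := by
    intro k hk
    apply MvPolynomial.funext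
    intro z
    rw [hF, eval_eval_aeval, hpt, map_zero]
    refine h1 (k + 1) (by omega) (by omega) _ ?_
    simp [hf]
  have hinj : Function.Injective f := by
    intro a b hab
    have := (C_mul_X_inj (pow_ne_zero _ hq0) hab).1
    omega
  have hF0 : F = 0 := by
    refine Polynomial.eq_zero_of_natDegree_lt_card_of_eval_eq_zero' F
      ((range (2 * m + 1)).image f) ?_ ?_
    · intro a ha
      obtain ⟨k, hk, rfl⟩ := Finset.mem_image.1 ha
      exact hroot k (Finset.mem_range.1 hk)
    · rw [Finset.card_image_of_injective _ hinj, card_range]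
      omega
  apply MvPolynomial.funext
  intro z
  have h2 := eval_eval_aeval P s (C (z 0)) z
  rw [hpt, ← hF, hF0, Polynomial.eval_zero, map_zero, eval_C] at h2
  have h3 : (fun k => if k = 0 then z 0 else z k) = z := by
    funext k
    split_ifs with c1
    · rw [c1]
    · rfl
  rw [h3] at h2
  rw [← h2, map_zero]

theorem nc_zero : NC 0 (fun x => x) where
  lt := fun x hx => absurd hx (by omega)
  inv := fun _ => rfl
  ne := fun x hx => absurd hx (by omega)
  out := fun _ _ => rfl
  nc := fun x y h1 h2 => absurd h2 (by omega)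

end WheelC

open WheelA WheelC

/-- W2: a wheel polynomial which vanishes at all the points of link patterns is zero. -/
theorem Wheel.eq_zero (hq : q ^ 2 + q + 1 = 0) (h : Wheel q m P)
    (h0 : ∀ p, NC (2 * m) p → eval (zpt q p) P = 0) : P = 0 := by
  induction m generalizing P with
  | zero =>
    apply MvPolynomial.funext
    intro z
    rw [eval_eq_of_zero h z (zpt q fun x => x), map_zero]
    exact h0 _ nc_zero
  | succ m ih =>
    have h1 : ∀ i, i + 1 < 2 * (m + 1) → ∀ z : ℕ → ℂ, z i = q ^ 2 * z (i + 1) → eval z P = 0 := by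
      intro i hi z hz
      obtain ⟨R, hR, hPR⟩ := h.restrict hq hi
      have hR0 : R = 0 := by
        apply ih hR
        intro p hp
        have h2 := hPR (zpt q p) 1
        simp only [mul_one] at h2
        rw [insV_zpt hp (by omega), h0 _ (hp.insArc (by omega)), prod_zpt hq hp] at h2
        rcases mul_eq_zero.1 h2.symm with h3 | h3
        · exfalso
          have h4 : (3 * q ^ 2) ≠ 0 := mul_ne_zero (by norm_num) (pow_ne_zero _ (q_ne_zero hq))
          exact pow_ne_zero _ h4 h3
        · exact h3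
      have h2 := hPR (fun k => z (sh i k)) (z (i + 1))
      rw [← eq_insV hz, hR0, map_zero, mul_zero] at h2
      exact h2
    apply eq_zero_of_pairs hq h
    intro j hj hj2 z hz
    refine eval_eq_zero_of_adj hq h h1 j 0 hj (by omega) z ?_
    rw [zero_add]
    exact hz

end Pool.Agent.Perc

end PartpercWheelC

section PartpercWheelG

/-!
# Wheel polynomials: the dual basis (task WheelG)
-/

set_option autoImplicit false

namespace Pool.Agent.Perc

open Finset MvPolynomial

variable {q : ℂ} {m : ℕ} {P : MvPolynomial ℕ ℂ}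

namespace WheelG

/-! ### the sum of the positions of the openings -/

/-- sum of the positions of the openings -/
def mu (N : ℕ) (p : ℕ → ℕ) : ℕ := ∑ x ∈ range N, if x < p x then x else 0

lemma eAct_fst (i : ℕ) (p : ℕ → ℕ) : eAct i p i = i + 1 := by simp [eAct]

lemma eAct_snd (i : ℕ) (p : ℕ → ℕ) : eAct i p (i + 1) = i := by simp [eAct]

lemma eAct_left {i x : ℕ} {p : ℕ → ℕ} (h1 : x ≠ i) (h2 : x ≠ i + 1) (h : p x = i) :
    eAct i p x = p (i + 1) := by
  unfold eAct
  rw [if_neg h1, if_neg h2, if_pos h]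

lemma eAct_right {i x : ℕ} {p : ℕ → ℕ} (h1 : x ≠ i) (h2 : x ≠ i + 1) (h : p x = i + 1) :
    eAct i p x = p i := by
  unfold eAct
  rw [if_neg h1, if_neg h2, if_neg (by omega), if_pos h]

lemma eAct_other {i x : ℕ} {p : ℕ → ℕ} (h1 : x ≠ i) (h2 : x ≠ i + 1) (h3 : p x ≠ i)
    (h4 : p x ≠ i + 1) : eAct i p x = p x := by
  unfold eAct
  rw [if_neg h1, if_neg h2, if_neg h3, if_neg h4]

/-- a valley of the word of `p` -/
def valley (i : ℕ) (p : ℕ → ℕ) : Prop := p i < i ∧ i + 1 < p (i + 1)

lemma mu_eAct {N : ℕ} {p : ℕ → ℕ} (h : NC N p) {i : ℕ} (hi : i + 1 < N) :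
    (valley i p ∧ mu N (eAct i p) + 1 = mu N p) ∨ (¬ valley i p ∧ mu N p ≤ mu N (eAct i p)) := by
  by_cases hs : p i = i + 1
  · right
    refine ⟨fun hv => ?_, le_of_eq (by rw [eAct_of_eq h hi hs])⟩
    have := hv.1
    omega
  · set a := p i with ha
    set b := p (i + 1) with hb
    have pa : p a = i := h.inv i
    have pb : p b = i + 1 := h.inv (i + 1)
    have haN : a < N := h.lt i (by omega)
    have hbN : b < N := h.lt (i + 1) hi
    have hai : a ≠ i := h.ne i (by omega)
    have hbi1 : b ≠ i + 1 := h.ne (i + 1) hi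
    have hbi : b ≠ i := by
      intro e
      rw [e] at pb
      exact hs (by rw [ha, pb])
    have hab : a ≠ b := by
      intro e
      rw [e, pb] at pa
      omega
    have hsub : ({i, i + 1, a, b} : Finset ℕ) ⊆ range N := by
      intro x hx
      simp only [mem_insert, mem_singleton] at hx
      rw [mem_range]
      rcases hx with rfl | rfl | rfl | rfl <;> omega
    have hrest : ∑ x ∈ range N \ {i, i + 1, a, b}, (if x < p x then x else 0)
        = ∑ x ∈ range N \ {i, i + 1, a, b}, (if x < eAct i p x then x else 0) := by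
      refine sum_congr rfl fun x hx => ?_
      rw [mem_sdiff] at hx
      simp only [mem_insert, mem_singleton, not_or] at hx
      obtain ⟨_, h1, h2, h3, h4⟩ := hx
      rw [eAct_other h1 h2 (fun e => h3 (by rw [← e, h.inv] at ha; exact ha ▸ rfl))
        (fun e => h4 (by rw [← e, h.inv] at hb; exact hb ▸ rfl))]
    have e1 : mu N p = ∑ x ∈ range N \ {i, i + 1, a, b}, (if x < p x then x else 0)
        + ((if i < a then i else 0) + ((if i + 1 < b then i + 1 else 0)
          + ((if a < i then a else 0) + (if b < i + 1 then b else 0)))) := by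
      unfold mu
      rw [← sum_sdiff hsub]
      congr 1
      rw [sum_insert (by simp; omega), sum_insert (by simp; omega), sum_insert (by simpa using hab),
        sum_singleton, ← ha, ← hb, pa, pb]
    have e2 : mu N (eAct i p) = ∑ x ∈ range N \ {i, i + 1, a, b}, (if x < p x then x else 0)
        + (i + (0 + ((if a < b then a else 0) + (if b < a then b else 0)))) := by
      unfold mu
      rw [hrest, ← sum_sdiff hsub]
      congr 1
      rw [sum_insert (by simp; omega), sum_insert (by simp; omega), sum_insert (by simpa using hab),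
        sum_singleton, eAct_fst, eAct_snd, eAct_left hai hs pa, eAct_right hbi hbi1 pb, ← ha, ← hb,
        if_pos (by omega : i < i + 1), if_neg (by omega : ¬ (i + 1 < i))]
    rw [e1, e2]
    unfold valley
    rw [← ha, ← hb]
    rcases Nat.lt_or_ge i a with h1 | h1
    · -- `i` is an opening
      have h2 := h.nc i (i + 1) (by omega) (by omega)
      rw [← ha, ← hb] at h2
      right
      refine ⟨by omega, ?_⟩
      rw [if_pos h1, if_pos (by omega : i + 1 < b), if_neg (by omega : ¬ a < i),
        if_neg (by omega : ¬ b < i + 1), if_neg (by omega : ¬ a < b), if_pos h2.2]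
      omega
    · have h1' : a < i := by omega
      rcases Nat.lt_or_ge (i + 1) b with h3 | h3
      · left
        refine ⟨⟨h1', h3⟩, ?_⟩
        rw [if_neg (by omega : ¬ i < a), if_pos h3, if_pos h1', if_neg (by omega : ¬ b < i + 1),
          if_pos (by omega : a < b), if_neg (by omega : ¬ b < a)]
        omega
      · right
        refine ⟨by omega, ?_⟩
        have hba : b < a := by
          by_contra hlt
          have h5 := h.nc a b (by omega) (by omega)
          omega
        rw [if_neg (by omega : ¬ i < a), if_neg (by omega : ¬ i + 1 < b), if_pos h1',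
          if_pos (by omega : b < i + 1), if_neg (by omega : ¬ a < b), if_pos hba]
        omega

lemma valley_le {N : ℕ} {p p' : ℕ → ℕ} (h : NC N p) (h' : NC N p') {i : ℕ} (hi : i + 1 < N)
    (hv : valley i p) (hv' : valley i p') (he : eAct i p = eAct i p') : p' i ≤ p i := by
  by_contra hlt
  have hlt : p i < p' i := by omega
  have h1 := h.nc (p i) (p' i) hlt (by rw [h.inv]; exact hv'.1)
  rw [h.inv] at h1
  have hv1 := hv'.1
  have hv2 := hv'.2
  -- the value of the common image at `p' i`
  have e1 : eAct i p' (p' i) = p' (i + 1) :=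
    eAct_left (by omega) (by omega) (h'.inv i)
  have e2 : eAct i p (p' i) = p (p' i) := by
    refine eAct_other (by omega) (by omega) (by omega) (by omega)
  rw [he, e1] at e2
  omega

lemma valley_unique {N : ℕ} {p p' : ℕ → ℕ} (h : NC N p) (h' : NC N p') {i : ℕ} (hi : i + 1 < N)
    (hv : valley i p) (hv' : valley i p') (he : eAct i p = eAct i p') : p = p' := by
  have ha : p i = p' i := le_antisymm (valley_le h' h hi hv' hv he.symm) (valley_le h h' hi hv hv' he)
  have hb : p (i + 1) = p' (i + 1) := by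
    have e1 : eAct i p (p i) = p (i + 1) :=
      eAct_left (by have := hv.1; omega) (by have := hv.1; omega) (h.inv i)
    have e2 : eAct i p' (p' i) = p' (i + 1) :=
      eAct_left (by have := hv'.1; omega) (by have := hv'.1; omega) (h'.inv i)
    rw [← e1, ← e2, ha, he]
  funext x
  by_cases h1 : x = i
  · rw [h1, ha]
  by_cases h2 : x = i + 1
  · rw [h2, hb]
  by_cases h3 : x = p i
  · rw [h3, h.inv, ha, h'.inv]
  by_cases h4 : x = p (i + 1)
  · rw [h4, h.inv, hb, h'.inv]
  have k1 : p x ≠ i := fun e => h3 (by rw [← e, h.inv])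
  have k2 : p x ≠ i + 1 := fun e => h4 (by rw [← e, h.inv])
  have k3 : p' x ≠ i := fun e => h3 (by rw [ha, ← e, h'.inv])
  have k4 : p' x ≠ i + 1 := fun e => h4 (by rw [hb, ← e, h'.inv])
  rw [← eAct_other h1 h2 k1 k2, he, eAct_other h1 h2 k3 k4]

lemma eq_nest {p : ℕ → ℕ} (h : NC (2 * m) p) (hno : ∀ i, i + 1 < 2 * m → ¬ valley i p) :
    p = nest m := by
  have key : ∀ x, x < m → p x = 2 * m - 1 - x := by
    intro x
    induction x using Nat.strong_induction_on with
    | _ x ih =>
    intro hx
    have hN : p x < 2 * m := h.lt x (by omega)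
    have hne : p x ≠ x := h.ne x (by omega)
    -- `p x > x`
    have h1 : x < p x := by
      by_contra hlt
      have hlt : p x < x := by omega
      have h2 := ih (p x) hlt (by omega)
      rw [h.inv] at h2
      omega
    have h3 : p x ≤ 2 * m - 1 - x := by
      by_contra hgt
      set y := 2 * m - 1 - p x with hy
      have hyx : y < x := by omega
      have h4 := ih y hyx (by omega)
      have h5 : p y = p x := by rw [h4]; omega
      have h6 : y = x := by rw [← h.inv y, h5, h.inv]
      omega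
    by_contra hcon
    have h4 : p x < 2 * m - 1 - x := by omega
    set c := p x with hc
    have hpc : p c = x := h.inv x
    -- the partner of `c + 1`
    have hc1N : p (c + 1) < 2 * m := h.lt _ (by omega)
    have hc1ne : p (c + 1) ≠ c + 1 := h.ne _ (by omega)
    refine hno c (by omega) ⟨by omega, ?_⟩
    by_contra hle
    have hlt : p (c + 1) < c + 1 := by omega
    have hinv : p (p (c + 1)) = c + 1 := h.inv _
    rcases Nat.lt_trichotomy (p (c + 1)) x with h5 | h5 | h5
    · have h6 := ih _ h5 (by omega)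
      rw [hinv] at h6
      omega
    · rw [h5, ← hc] at hinv
      omega
    · rcases Nat.lt_or_ge (p (c + 1)) c with h6 | h6
      · have h7 := h.nc x (p (c + 1)) h5 h6
        rw [hinv] at h7
        omega
      · have h7 : p (c + 1) = c := by omega
        rw [h7] at hinv
        omega
  funext x
  unfold nest
  by_cases hx : x < 2 * m
  · rw [if_pos hx]
    rcases Nat.lt_or_ge x m with h1 | h1
    · exact key x h1
    · have h2 := key (2 * m - 1 - x) (by omega)
      have h3 : 2 * m - 1 - (2 * m - 1 - x) = x := by omega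
      rw [h3] at h2
      have h4 := h.inv (2 * m - 1 - x)
      rw [h2] at h4
      exact h4
  · rw [if_neg hx]
    exact h.out x (by omega)

/-! ### representable functions of the pattern -/

/-- the function `f` of the pattern is given by the evaluations of a wheel polynomial -/
def Rep (q : ℂ) (m : ℕ) (f : (ℕ → ℕ) → ℂ) : Prop :=
  ∃ P, Wheel q m P ∧ ∀ p, NC (2 * m) p → eval (zpt q p) P = f p

lemma Rep.zero : Rep q m (fun _ => 0) :=
  ⟨0, ⟨fun k _ => by simp, fun k _ => by simp, fun z i j k _ _ _ _ _ => by simp⟩,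
    fun p _ => by simp⟩

lemma Rep.add {f g : (ℕ → ℕ) → ℂ} (hf : Rep q m f) (hg : Rep q m g) :
    Rep q m (fun p => f p + g p) := by
  obtain ⟨P, hP, hPf⟩ := hf
  obtain ⟨Q, hQ, hQg⟩ := hg
  refine ⟨P + Q, ⟨fun k hk => (degreeOf_add_le _ _ _).trans (max_le (hP.deg k hk) (hQ.deg k hk)),
    fun k hk => ?_, fun z i j k h1 h2 h3 h4 h5 => ?_⟩, fun p hp => ?_⟩
  · have h1 := degreeOf_add_le k P Q
    rw [hP.out k hk, hQ.out k hk] at h1
    simpa using h1
  · rw [map_add, hP.wheel z i j k h1 h2 h3 h4 h5, hQ.wheel z i j k h1 h2 h3 h4 h5, add_zero]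
  · rw [map_add, hPf p hp, hQg p hp]

lemma Rep.smul {f : (ℕ → ℕ) → ℂ} (c : ℂ) (hf : Rep q m f) : Rep q m (fun p => c * f p) := by
  obtain ⟨P, hP, hPf⟩ := hf
  refine ⟨C c * P, ⟨fun k hk => (degreeOf_C_mul_le _ _ _).trans (hP.deg k hk),
    fun k hk => ?_, fun z i j k h1 h2 h3 h4 h5 => ?_⟩, fun p hp => ?_⟩
  · have h1 := degreeOf_C_mul_le P k c
    rw [hP.out k hk] at h1
    simpa using h1
  · rw [map_mul, hP.wheel z i j k h1 h2 h3 h4 h5, mul_zero]
  · rw [map_mul, hPf p hp, eval_C]

lemma Rep.sum {ι : Type*} (s : Finset ι) {f : ι → (ℕ → ℕ) → ℂ} (hf : ∀ x ∈ s, Rep q m (f x)) :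
    Rep q m (fun p => ∑ x ∈ s, f x p) := by
  classical
  induction s using Finset.induction_on with
  | empty => simpa using Rep.zero
  | insert a s ha ih =>
    have h1 := (hf a (mem_insert_self a s)).add (ih fun x hx => hf x (mem_insert_of_mem hx))
    simpa only [sum_insert ha] using h1

lemma Rep.congr {f g : (ℕ → ℕ) → ℂ} (hf : Rep q m f) (hfg : ∀ p, NC (2 * m) p → f p = g p) :
    Rep q m g := by
  obtain ⟨P, hP, hPf⟩ := hf
  exact ⟨P, hP, fun p hp => by rw [hPf p hp, hfg p hp]⟩

lemma Rep.comp_eAct (hq : q ^ 2 + q + 1 = 0) {f : (ℕ → ℕ) → ℂ} (hf : Rep q m f) {i : ℕ}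
    (hi : i + 1 < 2 * m) : Rep q m (fun p => f (eAct i p)) := by
  obtain ⟨P, hP, hPf⟩ := hf
  obtain ⟨Q, hQ, -, hQP⟩ := hP.exists_E hq hi
  exact ⟨Q, hQ, fun p hp => by rw [hQP p hp, hPf _ (hp.eAct hi)]⟩

open Classical in
lemma rep_delta (hq : q ^ 2 + q + 1 = 0) : ∀ (n : ℕ) {π : ℕ → ℕ}, NC (2 * m) π →
    mu (2 * m) π = n → Rep q m (fun p => if p = π then 1 else 0) := by
  intro n
  induction n using Nat.strong_induction_on with
  | _ n ih =>
  intro π hπ hn
  by_cases hv : ∃ i, i + 1 < 2 * m ∧ valley i π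
  · obtain ⟨i, hi, hv⟩ := hv
    have h1 : mu (2 * m) (eAct i π) + 1 = mu (2 * m) π := by
      rcases mu_eAct hπ hi with h | h
      · exact h.2
      · exact absurd hv h.1
    have hf := (ih _ (by omega) (hπ.eAct hi) rfl).comp_eAct hq hi
    -- the other preimages
    set S : Finset (ℕ → ℕ) := (finite_nc (2 * m)).toFinset.filter
      (fun p' => p' ≠ π ∧ eAct i p' = eAct i π) with hS
    have hrest : ∀ p' ∈ S, Rep q m (fun p => if p = p' then 1 else 0) := by
      intro p' hp'
      rw [hS, mem_filter, Set.Finite.mem_toFinset] at hp'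
      obtain ⟨hnc, hne, he⟩ := hp'
      have hnc : NC (2 * m) p' := hnc
      have hle : mu (2 * m) p' ≤ mu (2 * m) (eAct i p') := by
        rcases mu_eAct hnc hi with h | h
        · exact absurd (valley_unique hnc hπ hi h.1 hv he) hne
        · exact h.2
      rw [he] at hle
      exact ih _ (by omega) hnc rfl
    refine (hf.add ((Rep.sum S hrest).smul (-1))).congr fun p hp => ?_
    by_cases hpp : p = π
    · subst hpp
      have h0 : ∑ x ∈ S, (if p = x then (1 : ℂ) else 0) = 0 := by
        refine sum_eq_zero fun x hx => ?_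
        rw [hS, mem_filter] at hx
        rw [if_neg (fun e => hx.2.1 e.symm)]
      simp [h0]
    · by_cases he : eAct i p = eAct i π
      · have hmem : p ∈ S := by
          rw [hS, mem_filter, Set.Finite.mem_toFinset]
          exact ⟨hp, hpp, he⟩
        have h0 : ∑ x ∈ S, (if p = x then (1 : ℂ) else 0) = 1 := by
          rw [sum_ite_eq, if_pos hmem]
        simp [h0, he, hpp]
      · have hmem : p ∉ S := by
          rw [hS, mem_filter]
          exact fun h => he h.2.2
        have h0 : ∑ x ∈ S, (if p = x then (1 : ℂ) else 0) = 0 := by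
          rw [sum_ite_eq, if_neg hmem]
        simp [h0, he, hpp]
  · have hno : ∀ i, i + 1 < 2 * m → ¬ valley i π := fun i hi hvi => hv ⟨i, hi, hvi⟩
    have he := eq_nest hπ hno
    have hq0 : q ≠ 0 := by
      rintro rfl
      norm_num at hq
    have hc : (-3 * q ^ 2) ^ (m * (m - 1) / 2) ≠ 0 :=
      pow_ne_zero _ (mul_ne_zero (by norm_num) (pow_ne_zero _ hq0))
    have h1 : Rep q m (fun p => eval (zpt q p) (nestPoly q m)) :=
      ⟨nestPoly q m, wheel_nestPoly hq m, fun p _ => rfl⟩
    refine (h1.smul ((-3 * q ^ 2) ^ (m * (m - 1) / 2))⁻¹).congr fun p hp => ?_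
    by_cases hpp : p = π
    · rw [if_pos hpp, hpp, he, eval_nestPoly_nest hq, inv_mul_cancel₀ hc]
    · rw [if_neg hpp, eval_nestPoly_of_ne hq hp (by rw [← he]; exact hpp), mul_zero]

end WheelG

open Classical in
/-- W5: the dual basis. -/
theorem exists_dual (hq : q ^ 2 + q + 1 = 0) {π : ℕ → ℕ} (hπ : NC (2 * m) π) :
    ∃ P, Wheel q m P ∧ ∀ p, NC (2 * m) p → eval (zpt q p) P = if p = π then 1 else 0 :=
  WheelG.rep_delta hq _ hπ rfl

end Pool.Agent.Perc

end PartpercWheelG

section PartpercWheel



end PartpercWheel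

section PartpercPsiDefs

/-!
# The polynomial solution of the qKZ equation: definitions
-/

set_option autoImplicit false

namespace Pool.Agent.Perc

open Finset MvPolynomial

open Classical in
/-- The component of the solution at the pattern `π` (zero if `π` is not a pattern). -/
noncomputable def Psi (q : ℂ) (m : ℕ) (π : ℕ → ℕ) : MvPolynomial ℕ ℂ :=
  if h : q ^ 2 + q + 1 = 0 ∧ NC (2 * m) π then (exists_dual h.1 h.2).choose else 0

/-- The finite set of link patterns. -/
noncomputable def pats (N : ℕ) : Finset (ℕ → ℕ) := (finite_nc N).toFinset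

theorem mem_pats {N : ℕ} {p : ℕ → ℕ} : p ∈ pats N ↔ NC N p := by
  rw [pats, Set.Finite.mem_toFinset]; rfl

/-- The vector `Ψ(z)`. -/
noncomputable def PsiV (q : ℂ) (m : ℕ) (z : ℕ → ℂ) : (ℕ → ℕ) →₀ ℂ :=
  ∑ π ∈ pats (2 * m), Finsupp.single π (eval z (Psi q m π))

end Pool.Agent.Perc

end PartpercPsiDefs

section PartpercPsiA

/-!
# The qKZ solution: basics and exchange relation (task PsiA)
-/

set_option autoImplicit false

namespace Pool.Agent.Perc

open Finset MvPolynomial

variable {q : ℂ} {m : ℕ}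

namespace PsiA

theorem wheel_zero (q : ℂ) (m : ℕ) : Wheel q m 0 where
  deg := by
    intro k _
    simp
  out := by
    intro k _
    simp
  wheel := by
    intro z i j k _ _ _ _ _
    exact map_zero _

theorem wheel_add {P Q : MvPolynomial ℕ ℂ} (hP : Wheel q m P) (hQ : Wheel q m Q) :
    Wheel q m (P + Q) where
  deg := fun k hk => (degreeOf_add_le k P Q).trans (max_le (hP.deg k hk) (hQ.deg k hk))
  out := fun k hk => Nat.le_zero.mp
    ((degreeOf_add_le k P Q).trans (max_le (hP.out k hk).le (hQ.out k hk).le))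
  wheel := by
    intro z i j k h1 h2 h3 h4 h5
    rw [map_add, hP.wheel z i j k h1 h2 h3 h4 h5, hQ.wheel z i j k h1 h2 h3 h4 h5, add_zero]

theorem degreeOf_C_mul_le (c : ℂ) (P : MvPolynomial ℕ ℂ) (k : ℕ) :
    (C c * P).degreeOf k ≤ P.degreeOf k := by
  have := degreeOf_mul_le k (C c) P
  rwa [degreeOf_C, zero_add] at this

theorem wheel_C_mul {P : MvPolynomial ℕ ℂ} (c : ℂ) (hP : Wheel q m P) :
    Wheel q m (C c * P) where
  deg := fun k hk => (degreeOf_C_mul_le c P k).trans (hP.deg k hk)
  out := fun k hk => Nat.le_zero.mp ((degreeOf_C_mul_le c P k).trans (hP.out k hk).le)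
  wheel := by
    intro z i j k h1 h2 h3 h4 h5
    rw [map_mul, hP.wheel z i j k h1 h2 h3 h4 h5, mul_zero]

theorem wheel_sum {ι : Type} (s : Finset ι) (f : ι → MvPolynomial ℕ ℂ)
    (h : ∀ a ∈ s, Wheel q m (f a)) : Wheel q m (∑ a ∈ s, f a) := by
  classical
  induction s using Finset.induction_on with
  | empty => rw [Finset.sum_empty]; exact wheel_zero q m
  | insert a s ha ih =>
    rw [Finset.sum_insert ha]
    exact wheel_add (h a (Finset.mem_insert_self a s))
      (ih fun b hb => h b (Finset.mem_insert_of_mem hb))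

theorem wheel_sub {P Q : MvPolynomial ℕ ℂ} (hP : Wheel q m P) (hQ : Wheel q m Q) :
    Wheel q m (P - Q) := by
  have h : P - Q = P + C (-1) * Q := by
    rw [C_neg, C_1, neg_one_mul, sub_eq_add_neg]
  rw [h]
  exact wheel_add hP (wheel_C_mul _ hQ)

end PsiA

open PsiA

theorem wheel_Psi (hq : q ^ 2 + q + 1 = 0) (m : ℕ) (π : ℕ → ℕ) : Wheel q m (Psi q m π) := by
  classical
  unfold Psi
  split_ifs with h
  · exact (exists_dual h.1 h.2).choose_spec.1
  · exact wheel_zero q m

open Classical in
theorem eval_zpt_Psi (hq : q ^ 2 + q + 1 = 0) {π p : ℕ → ℕ} (hπ : NC (2 * m) π)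
    (hp : NC (2 * m) p) : eval (zpt q p) (Psi q m π) = if p = π then 1 else 0 := by
  unfold Psi
  rw [dif_pos ⟨hq, hπ⟩]
  exact (exists_dual hq hπ).choose_spec.2 p hp

/-- A wheel polynomial is determined by its values at the points of the link patterns. -/
theorem Wheel.eq_sum_Psi (hq : q ^ 2 + q + 1 = 0) {P : MvPolynomial ℕ ℂ} (h : Wheel q m P) :
    P = ∑ π ∈ pats (2 * m), C (eval (zpt q π) P) * Psi q m π := by
  classical
  rw [← sub_eq_zero]
  refine (wheel_sub h (wheel_sum _ _ fun π _ => wheel_C_mul _ (wheel_Psi hq m π))).eq_zero hq ?_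
  intro p hp
  rw [map_sub, map_sum, Finset.sum_eq_single p]
  · rw [map_mul, eval_C, eval_zpt_Psi hq hp hp, if_pos rfl, mul_one, sub_self]
  · intro π hπ hne
    rw [map_mul, eval_zpt_Psi hq (mem_pats.mp hπ) hp, if_neg (fun h => hne h.symm), mul_zero]
  · intro hp'
    exact absurd (mem_pats.mpr hp) hp'

theorem PsiV_apply (q : ℂ) (m : ℕ) (z : ℕ → ℂ) (π : ℕ → ℕ) (hπ : NC (2 * m) π) :
    PsiV q m z π = eval z (Psi q m π) := by
  classical
  unfold PsiV
  rw [Finsupp.finsetSum_apply, Finset.sum_eq_single π]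
  · rw [Finsupp.single_eq_same]
  · intro b _ hb
    rw [Finsupp.single_eq_of_ne (Ne.symm hb)]
  · intro h
    exact absurd (mem_pats.mpr hπ) h

theorem PsiV_apply_of_not (q : ℂ) (m : ℕ) (z : ℕ → ℂ) (π : ℕ → ℕ) (hπ : ¬ NC (2 * m) π) :
    PsiV q m z π = 0 := by
  classical
  unfold PsiV
  rw [Finsupp.finsetSum_apply]
  refine Finset.sum_eq_zero fun b hb => ?_
  rw [Finsupp.single_eq_of_ne]
  rintro rfl
  exact hπ (mem_pats.mp hb)

theorem PsiV_congr (hq : q ^ 2 + q + 1 = 0) {z w : ℕ → ℂ} (h : ∀ k < 2 * m, z k = w k) :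
    PsiV q m z = PsiV q m w := by
  unfold PsiV
  refine Finset.sum_congr rfl fun π _ => ?_
  rw [(wheel_Psi hq m π).eval_congr h]

namespace PsiA

/-- Coefficients of the push-forward. -/
theorem mapDomain_PsiV (q : ℂ) (m : ℕ) (z : ℕ → ℂ) (f : (ℕ → ℕ) → (ℕ → ℕ)) :
    (PsiV q m z).mapDomain f =
      ∑ π ∈ pats (2 * m), Finsupp.single (f π) (eval z (Psi q m π)) := by
  unfold PsiV
  rw [Finsupp.mapDomain_finsetSum]
  exact Finset.sum_congr rfl fun π _ => Finsupp.mapDomain_single

open Classical in
theorem mapDomain_PsiV_apply (q : ℂ) (m : ℕ) (z : ℕ → ℂ) (f : (ℕ → ℕ) → (ℕ → ℕ))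
    (π : ℕ → ℕ) : (PsiV q m z).mapDomain f π =
      ∑ p ∈ pats (2 * m), (if f p = π then eval z (Psi q m p) else 0) := by
  rw [mapDomain_PsiV, Finsupp.finsetSum_apply]
  refine Finset.sum_congr rfl fun p _ => ?_
  rw [Finsupp.single_apply]

end PsiA

/-- Exchange relation, for the polynomials. -/
theorem exchange_Psi (hq : q ^ 2 + q + 1 = 0) {i : ℕ} (hi : i + 1 < 2 * m) {π : ℕ → ℕ}
    (hπ : NC (2 * m) π) (z : ℕ → ℂ) :
    (q * z (i + 1) - q ^ 2 * z i) * eval (swapV i z) (Psi q m π) =
      (q * z i - q ^ 2 * z (i + 1)) * eval z (Psi q m π) + (z i - z (i + 1)) *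
        ((PsiV q m z).mapDomain (eAct i) π) := by
  classical
  obtain ⟨Q, hQ, h1, h2⟩ := (wheel_Psi hq m π).exists_E hq hi
  have h3 : eval z Q = (PsiV q m z).mapDomain (eAct i) π := by
    conv_lhs => rw [hQ.eq_sum_Psi hq]
    rw [map_sum, mapDomain_PsiV_apply]
    refine Finset.sum_congr rfl fun p hp => ?_
    have hp' := mem_pats.mp hp
    rw [map_mul, eval_C, h2 p hp', eval_zpt_Psi hq hπ (hp'.eAct hi)]
    split_ifs <;> simp
  rw [← h3]
  have h4 := h1 z
  linear_combination -h4

/-- Exchange relation. -/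
theorem exchange (hq : q ^ 2 + q + 1 = 0) {i : ℕ} (hi : i + 1 < 2 * m) (z : ℕ → ℂ) :
    (q * z (i + 1) - q ^ 2 * z i) • PsiV q m (swapV i z) =
      (q * z i - q ^ 2 * z (i + 1)) • PsiV q m z +
        (z i - z (i + 1)) • (PsiV q m z).mapDomain (eAct i) := by
  classical
  ext π
  rw [Finsupp.add_apply, Finsupp.smul_apply, Finsupp.smul_apply, Finsupp.smul_apply,
    smul_eq_mul, smul_eq_mul, smul_eq_mul]
  by_cases hπ : NC (2 * m) π
  · rw [PsiV_apply q m _ π hπ, PsiV_apply q m _ π hπ]
    exact exchange_Psi hq hi hπ z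
  · rw [PsiV_apply_of_not q m _ π hπ, PsiV_apply_of_not q m _ π hπ, mapDomain_PsiV_apply,
      Finset.sum_eq_zero]
    · ring
    · intro p hp
      rw [if_neg]
      rintro rfl
      exact hπ ((mem_pats.mp hp).eAct hi)

end Pool.Agent.Perc

end PartpercPsiA

section PartpercPsiB

/-!
# The qKZ solution: rotation and recursion (task PsiB)
-/

set_option autoImplicit false

namespace Pool.Agent.Perc

open Finset MvPolynomial

variable {q : ℂ} {m : ℕ}

namespace PsiB

theorem q_ne_zero (hq : q ^ 2 + q + 1 = 0) : q ≠ 0 := by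
  rintro rfl
  norm_num at hq

open Classical in
/-- A push-forward, evaluated by a wheel polynomial with prescribed values. -/
theorem eval_eq_mapDomain (hq : q ^ 2 + q + 1 = 0) {Q : MvPolynomial ℕ ℂ} (hQ : Wheel q m Q)
    (f : (ℕ → ℕ) → (ℕ → ℕ)) (π : ℕ → ℕ) (c : ℂ)
    (h : ∀ p, NC (2 * m) p → eval (zpt q p) Q = if f p = π then c else 0) (z : ℕ → ℂ) :
    eval z Q = c * (PsiV q m z).mapDomain f π := by
  conv_lhs => rw [hQ.eq_sum_Psi hq]
  rw [map_sum, PsiA.mapDomain_PsiV_apply, Finset.mul_sum]
  refine Finset.sum_congr rfl fun p hp => ?_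
  rw [map_mul, eval_C, h p (mem_pats.mp hp)]
  split_ifs <;> simp

theorem mapDomain_apply_zero (z : ℕ → ℂ) (f : (ℕ → ℕ) → (ℕ → ℕ)) (π : ℕ → ℕ)
    (h : ∀ p, NC (2 * m) p → f p ≠ π) : (PsiV q m z).mapDomain f π = 0 := by
  classical
  rw [PsiA.mapDomain_PsiV_apply]
  refine Finset.sum_eq_zero fun p hp => ?_
  rw [if_neg (h p (mem_pats.mp hp))]

end PsiB

open PsiB

/-- Cyclic invariance. -/
theorem PsiV_rot (hq : q ^ 2 + q + 1 = 0) (z : ℕ → ℂ) :
    PsiV q m (rotV (2 * m) z) = (PsiV q m z).mapDomain (rotP (2 * m)) := by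
  classical
  ext π
  by_cases hπ : NC (2 * m) π
  · rw [PsiV_apply q m _ π hπ]
    obtain ⟨Q, hQ, h1, h2⟩ := (wheel_Psi hq m π).exists_rot hq
    rw [← h1 z, eval_eq_mapDomain hq hQ (rotP (2 * m)) π 1 (fun p hp => ?_) z, one_mul]
    rw [h2 p hp, eval_zpt_Psi hq hπ hp.rotP]
  · rw [PsiV_apply_of_not q m _ π hπ, mapDomain_apply_zero]
    rintro p hp rfl
    exact hπ hp.rotP

/-- Recursion at `z_i = q² z_{i+1}`. -/
theorem PsiV_insV (hq : q ^ 2 + q + 1 = 0) {i : ℕ} (hi : i ≤ 2 * m) (z : ℕ → ℂ) (v : ℂ) :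
    PsiV q (m + 1) (insV i (q ^ 2 * v) v z) =
      ((∏ k ∈ range (2 * m), (z k - q * v)) / (3 * q ^ 2) ^ m) •
        (PsiV q m z).mapDomain (insArc i) := by
  classical
  have hq0 := q_ne_zero hq
  have h3 : (3 * q ^ 2 : ℂ) ^ m ≠ 0 := pow_ne_zero _ (mul_ne_zero (by norm_num) (pow_ne_zero _ hq0))
  ext π
  rw [Finsupp.smul_apply, smul_eq_mul]
  by_cases hπ : NC (2 * (m + 1)) π
  · rw [PsiV_apply q (m + 1) _ π hπ]
    obtain ⟨R, hR, h1⟩ := (wheel_Psi hq (m + 1) π).restrict hq (i := i) (by omega)
    rw [h1 z v, eval_eq_mapDomain hq hR (insArc i) π (1 / (3 * q ^ 2) ^ m) (fun p hp => ?_) z]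
    · ring
    · have h4 := h1 (zpt q p) 1
      rw [mul_one, mul_one, insV_zpt hp hi, prod_zpt hq hp] at h4
      rw [eval_zpt_Psi hq hπ (hp.insArc hi)] at h4
      rw [eq_comm, mul_comm] at h4
      rw [eq_div_of_mul_eq h3 h4]
      split_ifs <;> simp
  · rw [PsiV_apply_of_not q (m + 1) _ π hπ, mapDomain_apply_zero, mul_zero]
    rintro p hp rfl
    exact hπ (hp.insArc hi)

end Pool.Agent.Perc

end PartpercPsiB
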