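import Pool.Agent.Lib.MP_6bd702_z.Z065

/-!
# Punctured link patterns: insertion, deletion, rotation (task QStA)
-/

set_option autoImplicit false

namespace Pool.Agent.Perc

open Finset

variable {N : ℕ} {s s' : St}

namespace QStA

open PatB

theorem insL_left (i : ℕ) (s : St) : (insL i s).2 i = false := by
  unfold Perc.insL
  simp

theorem insL_right (i : ℕ) (s : St) : (insL i s).2 (i + 1) = false := by
  unfold Perc.insL
  simp

theorem insL_sh (i : ℕ) (s : St) (x : ℕ) : (insL i s).2 (sh i x) = s.2 x := by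
  unfold Perc.insL
  dsimp only
  rw [if_neg (by rintro (h | h); exacts [sh_ne h, sh_ne' h])]
  have h1 : (if sh i x < i then sh i x else sh i x - 2) = x := by
    unfold sh
    split_ifs <;> omega
  rw [h1]

theorem rotL_rh {x : ℕ} (hx : x < N) (h : NC N s.1) :
    (rotL N s).2 (rh N x) = xor (s.2 x) (decide (x = 0 ∨ s.1 x = 0)) := by
  have h1 := rh'_rh hx
  have h2 := rh_lt hx
  unfold Perc.rotL
  dsimp only
  rw [if_pos h2]
  unfold rh' at h1
  by_cases h0 : x = 0
  · subst h0
    have h3 : rh N 0 + 1 = N := by unfold rh; split_ifs <;> omega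
    rw [if_pos (Or.inl h3), if_pos h3]
    simp
  · have h3 : rh N x + 1 = x := by unfold rh; rw [if_neg h0]; omega
    rw [h3]
    have h4 : x ≠ N := by omega
    rw [if_neg h4]
    by_cases h5 : s.1 x = 0
    · rw [if_pos (Or.inr h5)]
      simp [h5]
    · rw [if_neg (by tauto)]
      simp [h0, h5]

theorem rotL_out {x : ℕ} (hx : N ≤ x) : (rotL N s).2 x = false := by
  unfold Perc.rotL
  dsimp only
  rw [if_neg (by omega)]

theorem rh_zero (M : ℕ) : rh M 0 = M - 1 := by simp [rh]

theorem rh_succ (M a : ℕ) : rh M (a + 1) = a := by simp [rh]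

theorem rh_pos (M : ℕ) {a : ℕ} (ha : a ≠ 0) : rh M a = a - 1 := by simp [rh, ha]

/-- Every site is the image of a site. -/
theorem exists_rh {x : ℕ} (hx : x < N) : ∃ y < N, x = rh N y :=
  ⟨rh' N x, rh'_lt hx, (rh_rh' hx).symm⟩

theorem ext_rot {t : St} (h : IsAnn N s) (ht : IsAnn N t) (h1 : rotP N s.1 = t.1)
    (h2 : ∀ x < N, (rotL N s).2 (rh N x) = t.2 (rh N x)) : rotL N s = t := by
  refine Prod.ext h1 ?_
  funext x
  by_cases hx : x < N
  · obtain ⟨y, hy, rfl⟩ := exists_rh hx
    exact h2 y hy
  · rw [rotL_out (by omega), ht.out x (by omega)]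

end QStA

open PatB QStA

theorem IsAnn.insL (h : IsAnn N s) {i : ℕ} (hi : i ≤ N) : IsAnn (N + 2) (insL i s) := by
  refine ⟨h.nc.insArc hi, fun x hx => ?_, ?_⟩
  · rcases cases_sh i x with rfl | rfl | ⟨a, rfl⟩
    · exact insL_left _ s
    · exact insL_right _ s
    · rw [insL_sh]
      apply h.out
      by_contra hc
      have := (sh_lt_iff (N := N) hi (x := a)).mpr (by omega)
      omega
  · obtain ⟨g, hg, hm⟩ := h.mark
    refine ⟨if g ≤ i then g else g + 2, by split_ifs <;> omega, fun x hx => ?_⟩
    have hsh : ∀ a, sh i a < (if g ≤ i then g else g + 2) ↔ a < g := by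
      intro a
      unfold sh
      split_ifs <;> omega
    have hp : (Perc.insL i s).1 = insArc i s.1 := rfl
    rcases cases_sh i x with rfl | rfl | ⟨a, rfl⟩
    · rw [insL_left, hp, ins_left]
      simp only [Bool.false_eq_true, false_iff, not_not]
      split_ifs <;> omega
    · rw [insL_right, hp, ins_right]
      simp only [Bool.false_eq_true, false_iff, not_not]
      split_ifs <;> omega
    · rw [insL_sh, hp, ins_sh, hsh, hsh]
      rw [sh_lt_iff hi] at hx
      exact hm a hx

/-- Delete a small arc. -/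
theorem IsAnn.exists_del (h : IsAnn (N + 2) s) {i : ℕ} (hi : i ≤ N) (h1 : s.1 i = i + 1)
    (h2 : s.2 i = false) : ∃ s', IsAnn N s' ∧ s = Perc.insL i s' := by
  obtain ⟨g, hg, hm⟩ := h.mark
  have hi1 : s.2 (i + 1) = false := by
    have e1 := hm i (by omega)
    have e2 := hm (i + 1) (by omega)
    rw [h1, h2] at e1
    have h3 : s.1 (i + 1) = i := by rw [← h1, h.nc.inv]
    rw [h3] at e2
    cases hb : s.2 (i + 1)
    · rfl
    · rw [hb] at e2
      simp at e1 e2
      omega
  have hgi : g ≠ i + 1 := by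
    intro hgi
    have e1 := hm i (by omega)
    rw [h1, h2] at e1
    simp at e1
    omega
  refine ⟨(delArc i s.1, fun x => s.2 (sh i x)), ⟨h.nc.delArc (by omega) h1, ?_, ?_⟩, ?_⟩
  · intro x hx
    refine h.out _ ?_
    by_contra hc
    have := (sh_lt_iff (N := N) hi (x := x)).mp (by omega)
    omega
  · refine ⟨if g ≤ i then g else g - 2, by split_ifs <;> omega, fun x hx => ?_⟩
    have hsh : ∀ a, a < (if g ≤ i then g else g - 2) ↔ sh i a < g := by
      intro a
      unfold sh
      split_ifs <;> omega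
    dsimp only
    rw [hsh, hsh, sh_del h.nc h1]
    exact hm _ ((sh_lt_iff hi).mpr hx)
  · refine Prod.ext (insArc_delArc h.nc (by omega) h1).symm ?_
    funext x
    rcases cases_sh i x with rfl | rfl | ⟨a, rfl⟩
    · rw [insL_left, h2]
    · rw [insL_right, hi1]
    · rw [insL_sh]

theorem IsAnn.rotL (h : IsAnn N s) : IsAnn N (rotL N s) := by
  refine ⟨h.nc.rotP, fun x hx => rotL_out hx, ?_⟩
  obtain ⟨g, hg, hm⟩ := h.mark
  refine ⟨if g = 0 then N - 1 else g - 1, by split_ifs <;> omega, fun x hx => ?_⟩
  obtain ⟨y, hy, rfl⟩ := exists_rh hx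
  have hp : (Perc.rotL N s).1 (rh N y) = rh N (s.1 y) := rot_rh hy
  rw [rotL_rh hy h.nc, hp]
  have e := hm y hy
  have h1 := h.nc.lt y hy
  have h2 := h.nc.ne y hy
  by_cases hg0 : g = 0
  · subst hg0
    rw [if_pos rfl]
    have hb : s.2 y = false := by
      cases hb : s.2 y
      · rfl
      · rw [hb] at e; simp at e
    rw [hb]
    by_cases h3 : y = 0
    · subst h3
      have h4 : rh N 0 = N - 1 := by unfold rh; rw [if_pos rfl]
      have h5 : rh N (s.1 0) = s.1 0 - 1 := by unfold rh; rw [if_neg h2]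
      rw [h4, h5]
      simp
      omega
    · by_cases h6 : s.1 y = 0
      · have h4 : rh N 0 = N - 1 := by unfold rh; rw [if_pos rfl]
        have h5 : rh N y = y - 1 := by unfold rh; rw [if_neg h3]
        rw [h6, h4, h5]
        simp
        omega
      · have h4 : rh N y = y - 1 := by unfold rh; rw [if_neg h3]
        have h5 : rh N (s.1 y) = s.1 y - 1 := by unfold rh; rw [if_neg h6]
        rw [h4, h5]
        simp [h3, h6]
        omega
  · rw [if_neg hg0]
    by_cases h3 : y = 0
    · subst h3
      have h4 : rh N 0 = N - 1 := by unfold rh; rw [if_pos rfl]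
      have h5 : rh N (s.1 0) = s.1 0 - 1 := by unfold rh; rw [if_neg h2]
      rw [h4, h5]
      cases hb : s.2 0 <;> rw [hb] at e <;> simp at e ⊢ <;> omega
    · by_cases h6 : s.1 y = 0
      · have h4 : rh N 0 = N - 1 := by unfold rh; rw [if_pos rfl]
        have h5 : rh N y = y - 1 := by unfold rh; rw [if_neg h3]
        rw [h6] at e
        rw [h6, h4, h5]
        cases hb : s.2 y <;> rw [hb] at e <;> simp at e ⊢ <;> omega
      · have h4 : rh N y = y - 1 := by unfold rh; rw [if_neg h3]
        have h5 : rh N (s.1 y) = s.1 y - 1 := by unfold rh; rw [if_neg h6]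
        rw [h4, h5]
        have a1 : y - 1 < g - 1 ↔ y < g := by omega
        have a2 : s.1 y - 1 < g - 1 ↔ s.1 y < g := by omega
        rw [a1, a2]
        have a3 : decide (y = 0 ∨ s.1 y = 0) = false := by simp [h3, h6]
        rw [a3, Bool.xor_false]
        exact e

theorem rotL_inj (h : IsAnn N s) (h' : IsAnn N s') (he : rotL N s = rotL N s') : s = s' := by
  have h1 : s.1 = s'.1 := rotP_injOn (show NC N s.1 from h.nc) (show NC N s'.1 from h'.nc)
    (congrArg Prod.fst he)
  refine Prod.ext h1 ?_
  funext x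
  by_cases hx : x < N
  · have h2 := congrFun (congrArg Prod.snd he) (rh N x)
    rw [rotL_rh hx h.nc, rotL_rh hx h'.nc, h1] at h2
    exact Bool.xor_left_inj.mp h2
  · rw [h.out x (by omega), h'.out x (by omega)]

theorem finite_ann (N : ℕ) : {s : St | IsAnn N s}.Finite := by
  classical
  have h1 : {f : ℕ → Bool | ∀ x, N ≤ x → f x = false}.Finite := by
    let F : {f : ℕ → Bool // ∀ x, N ≤ x → f x = false} → (Fin N → Bool) := fun f x => f.1 x
    have hF : Function.Injective F := by
      intro f f' hff
      apply Subtype.ext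
      funext x
      by_cases hx : x < N
      · exact congrFun hff ⟨x, hx⟩
      · rw [f.2 x (by omega), f'.2 x (by omega)]
    have : Finite {f : ℕ → Bool // ∀ x, N ≤ x → f x = false} := Finite.of_injective F hF
    exact Set.finite_coe_iff.1 this
  refine ((finite_nc N).prod h1).subset ?_
  intro s hs
  exact ⟨IsAnn.nc hs, IsAnn.out hs⟩

theorem rotL_surj (h : IsAnn N s) : ∃ s', IsAnn N s' ∧ rotL N s' = s := by
  have h1 : Set.MapsTo (rotL N) {s : St | IsAnn N s} {s : St | IsAnn N s} :=
    fun t ht => IsAnn.rotL ht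
  have h2 : Set.InjOn (rotL N) {s : St | IsAnn N s} := fun t ht t' ht' he => rotL_inj ht ht' he
  have h3 := ((finite_ann N).injOn_iff_bijOn_of_mapsTo h1).mp h2
  obtain ⟨t, ht, hts⟩ := h3.surjOn h
  exact ⟨t, ht, hts⟩

theorem rotL_iterate (h : IsAnn N s) : (rotL N)^[N] s = s := by
  -- the position of the site `x` after `j` rotations
  let r : ℕ → ℕ → ℕ := fun j x => if x < j then x + N - j else x - j
  have hr : ∀ j x, j < N → x < N → r j x < N ∧ rh N (r j x) = r (j + 1) x ∧
      (r j x = 0 ↔ x = j) := by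
    intro j x hj hx
    simp only [r, rh]
    refine ⟨?_, ?_, ?_⟩ <;> split_ifs <;> omega
  have key : ∀ j, j ≤ N → IsAnn N ((Perc.rotL N)^[j] s) ∧ ∀ x < N,
      ((Perc.rotL N)^[j] s).1 (r j x) = r j (s.1 x) ∧
      ((Perc.rotL N)^[j] s).2 (r j x) = xor (s.2 x) (xor (decide (x < j)) (decide (s.1 x < j))) := by
    intro j
    induction j with
    | zero =>
      intro _
      refine ⟨h, fun x hx => ?_⟩
      simp [r]
    | succ j ih =>
      intro hj
      obtain ⟨h1, h2⟩ := ih (by omega)
      rw [Function.iterate_succ_apply']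
      refine ⟨h1.rotL, fun x hx => ?_⟩
      obtain ⟨a1, a2, a3⟩ := hr j x (by omega) hx
      have hpx := h.nc.lt x hx
      have hne := h.nc.ne x hx
      obtain ⟨b1, b2, b3⟩ := hr j (s.1 x) (by omega) hpx
      obtain ⟨c1, c2⟩ := h2 x hx
      rw [← a2]
      constructor
      · have h3 : (Perc.rotL N ((Perc.rotL N)^[j] s)).1 (rh N (r j x)) =
            rh N (((Perc.rotL N)^[j] s).1 (r j x)) := rot_rh a1
        rw [h3, c1, b2]
      · rw [rotL_rh a1 h1.nc, c1, c2]
        have e1 : decide (r j x = 0 ∨ r j (s.1 x) = 0) = decide (x = j ∨ s.1 x = j) := by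
          simp only [a3, b3]
        rw [e1]
        by_cases d1 : x = j
        · subst d1
          have d2 : decide (x < x) = false := by simp
          have d3 : decide (x < x + 1) = true := by simp
          have d4 : decide (s.1 x < x + 1) = decide (s.1 x < x) := by
            congr 1; apply propext; omega
          rw [d2, d3, d4]
          cases s.2 x <;> cases decide (s.1 x < x) <;> simp
        · by_cases d2 : s.1 x = j
          · have d3 : decide (x < j + 1) = decide (x < j) := by
              congr 1; apply propext; omega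
            rw [d2, d3]
            cases s.2 x <;> cases decide (x < j) <;> simp
          · have d3 : decide (x < j + 1) = decide (x < j) := by
              congr 1; apply propext; omega
            have d4 : decide (s.1 x < j + 1) = decide (s.1 x < j) := by
              congr 1; apply propext; omega
            rw [d3, d4]
            simp [d1, d2]
  obtain ⟨h1, h2⟩ := key N le_rfl
  have hrN : ∀ x < N, r N x = x := by
    intro x hx
    simp only [r]
    rw [if_pos hx]; omega
  refine Prod.ext ?_ ?_
  · funext x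
    by_cases hx : x < N
    · have h3 := (h2 x hx).1
      rwa [hrN x hx, hrN _ (h.nc.lt x hx)] at h3
    · rw [h1.nc.out x (by omega), h.nc.out x (by omega)]
  · funext x
    by_cases hx : x < N
    · have h3 := (h2 x hx).2
      rw [hrN x hx] at h3
      rw [h3]
      have h4 := h.nc.lt x hx
      simp [hx, h4]
    · rw [h1.out x (by omega), h.out x (by omega)]

theorem rotL_insL_zero (h : IsAnn N s) : rotL (N + 2) (insL 0 s) = cupL N s := by
  refine ext_rot (h.insL (Nat.zero_le _)) h.cupL (rotP_insArc_zero h.nc) fun x hx => ?_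
  rw [rotL_rh hx (h.insL (Nat.zero_le _)).nc]
  have hp : (Perc.insL 0 s).1 = insArc 0 s.1 := rfl
  unfold Perc.cupL
  dsimp only
  rw [hp]
  rcases cases_sh 0 x with rfl | rfl | ⟨a, rfl⟩
  · rw [insL_left]
    have h4 : rh (N + 2) 0 = N + 1 := by unfold rh; split_ifs <;> omega
    rw [h4]
    simp
  · rw [insL_right, ins_right]
    have h4 : rh (N + 2) (0 + 1) = 0 := rh_succ _ 0
    rw [h4]
    simp
  · have ha : a < N := (sh_lt_iff (Nat.zero_le _)).mp hx
    rw [insL_sh, ins_sh, sh_zero, sh_zero]
    have h4 : rh (N + 2) (a + 2) = a + 1 := rh_succ _ (a + 1)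
    rw [h4, if_neg (by omega), if_pos (by omega)]
    simp

theorem rotL_cupL (h : IsAnn N s) : rotL (N + 2) (cupL N s) = insL N s := by
  have hc : ∀ x < N + 2, x = 0 ∨ x = N + 1 ∨ ∃ a, a < N ∧ x = a + 1 := by
    intro x hx
    by_cases h1 : x = 0
    · exact Or.inl h1
    · by_cases h2 : x = N + 1
      · exact Or.inr (Or.inl h2)
      · exact Or.inr (Or.inr ⟨x - 1, by omega, by omega⟩)
  have e0 : Perc.cupO N s.1 0 = N + 1 := by unfold Perc.cupO; rw [if_pos rfl]
  have e1 : Perc.cupO N s.1 (N + 1) = 0 := by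
    unfold Perc.cupO; rw [if_neg (by omega), if_pos rfl]
  have e2 : ∀ x < N, Perc.cupO N s.1 (x + 1) = s.1 x + 1 := by
    intro x hx
    unfold Perc.cupO
    rw [if_neg (by omega), if_neg (by omega), if_pos (by omega)]
    rfl
  have hr0 : rh (N + 2) 0 = N + 1 := by unfold rh; split_ifs <;> omega
  have hr1 : rh (N + 2) (N + 1) = N := rh_succ _ N
  have hr2 : ∀ a, rh (N + 2) (a + 1) = a := rh_succ _
  have hsh : ∀ a < N, sh N a = a := by
    intro a ha; unfold sh; rw [if_pos ha]
  refine ext_rot h.cupL (h.insL le_rfl) ?_ fun x hx => ?_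
  · funext x
    by_cases hx : x < N + 2
    · obtain ⟨y, hy, rfl⟩ := exists_rh hx
      rw [rot_rh hy]
      show rh (N + 2) (cupO N s.1 y) = insArc N s.1 (rh (N + 2) y)
      rcases hc y hy with rfl | rfl | ⟨a, ha, rfl⟩
      · rw [e0, hr0, hr1, ins_right]
      · rw [e1, hr0, hr1, ins_left]
      · have h5 := h.nc.lt a ha
        have h6 := ins_sh N s.1 a
        rw [hsh a ha, hsh _ h5] at h6
        rw [e2 a ha, hr2, hr2, h6]
    · rw [rot_of_ge (by omega), (h.insL le_rfl).nc.out x (by omega)]
  · rw [rotL_rh hx h.cupL.nc]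
    have hp : (Perc.cupL N s).1 = cupO N s.1 := rfl
    rw [hp]
    rcases hc x hx with rfl | rfl | ⟨a, ha, rfl⟩
    · rw [hr0, insL_right]
      simp [Perc.cupL]
    · rw [hr1, insL_left, e1]
      simp [Perc.cupL]
    · have h6 := insL_sh N s a
      rw [hsh a ha] at h6
      rw [hr2, h6, e2 a ha]
      have h7 : (Perc.cupL N s).2 (a + 1) = s.2 a := by
        unfold Perc.cupL
        dsimp only
        rw [if_neg (by omega), if_pos (by omega)]
        rfl
      rw [h7]
      simp

theorem rotL_insL (h : IsAnn N s) {i : ℕ} (hi : 0 < i) (hiN : i ≤ N) :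
    rotL (N + 2) (insL i s) = insL (i - 1) (rotL N s) := by
  obtain ⟨j, rfl⟩ : ∃ j, i = j + 1 := ⟨i - 1, by omega⟩
  have hj : j + 1 - 1 = j := rfl
  rw [hj]
  have h1 := rotP_insArc h.nc hi hiN
  rw [hj] at h1
  refine ext_rot (h.insL hiN) (h.rotL.insL (by omega)) h1 fun x hx => ?_
  rw [rotL_rh hx (h.insL hiN).nc]
  have hp : (Perc.insL (j + 1) s).1 = insArc (j + 1) s.1 := rfl
  rw [hp]
  rcases cases_sh (j + 1) x with rfl | rfl | ⟨a, rfl⟩
  · have h4 : rh (N + 2) (j + 1) = j := rh_succ _ j
    rw [insL_left, ins_left, h4, insL_left]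
    simp
  · have h4 : rh (N + 2) (j + 1 + 1) = j + 1 := rh_succ _ (j + 1)
    rw [insL_right, ins_right, h4, insL_right]
    simp
  · have ha : a < N := (sh_lt_iff hiN).mp hx
    rw [insL_sh, ins_sh, rh_sh ha (by omega), insL_sh, rotL_rh ha h.nc]
    congr 1
    have hz : ∀ b, sh (j + 1) b = 0 ↔ b = 0 := by
      intro b
      unfold sh
      by_cases hb : b < j + 1
      · rw [if_pos hb]
      · rw [if_neg hb]; omega
    simp only [hz]

theorem rotL_eL (h : IsAnn N s) {i : ℕ} (hi : i + 2 < N) :
    rotL N (eL (i + 1) s) = eL i (rotL N s) := by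
  have hr1 : rh N (i + 1) = i := rh_succ _ i
  have hr2 : rh N (i + 1 + 1) = i + 1 := rh_succ _ (i + 1)
  have hri : ∀ x < N, rh N x = i ↔ x = i + 1 := by
    intro x hx
    constructor
    · intro he; exact rh_inj hx (by omega) (by rw [he, hr1])
    · rintro rfl; exact hr1
  have hri' : ∀ x < N, rh N x = i + 1 ↔ x = i + 1 + 1 := by
    intro x hx
    constructor
    · intro he; exact rh_inj hx (by omega) (by rw [he, hr2])
    · rintro rfl; exact hr2
  have hE := h.eL (i := i + 1) (by omega)
  have hP1 : rotP N s.1 i = rh N (s.1 (i + 1)) := by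
    have := rot_rh (p := s.1) (N := N) (x := i + 1) (by omega)
    rwa [hr1] at this
  have hP2 : rotP N s.1 (i + 1) = rh N (s.1 (i + 1 + 1)) := by
    have := rot_rh (p := s.1) (N := N) (x := i + 1 + 1) (by omega)
    rwa [hr2] at this
  refine ext_rot hE (h.rotL.eL (by omega)) ?_ fun x hx => ?_
  · funext x
    by_cases hx : x < N
    · obtain ⟨y, hy, rfl⟩ := exists_rh hx
      rw [rot_rh hy]
      show rh N (eAct (i + 1) s.1 y) = eAct i (rotP N s.1) (rh N y)
      have hpy := h.nc.lt y hy
      unfold eAct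
      rw [rot_rh hy, hP1, hP2]
      simp only [hri y hy, hri' y hy, hri _ hpy, hri' _ hpy]
      split_ifs
      · exact hr2
      · exact hr1
      · rfl
      · rfl
      · rfl
    · rw [rot_of_ge (by omega), (h.rotL.eL (i := i) (by omega)).nc.out x (by omega)]
  · rw [rotL_rh hx hE.nc]
    have hpx := h.nc.lt x hx
    have inv1 := h.nc.inv x
    have inv2 := h.nc.inv (i + 1)
    have inv3 := h.nc.inv (i + 1 + 1)
    have hR : (Perc.eL i (Perc.rotL N s)).2 (rh N x) =
        if rh N x = i ∨ rh N x = i + 1 then false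
        else if rotP N s.1 (rh N x) = i ∨ rotP N s.1 (rh N x) = i + 1 then
          xor ((Perc.rotL N s).2 i) ((Perc.rotL N s).2 (i + 1)) else (Perc.rotL N s).2 (rh N x) := rfl
    have hl1 : (Perc.rotL N s).2 i = xor (s.2 (i + 1)) (decide (i + 1 = 0 ∨ s.1 (i + 1) = 0)) := by
      rw [← rotL_rh (by omega) h.nc, hr1]
    have hl2 : (Perc.rotL N s).2 (i + 1) =
        xor (s.2 (i + 1 + 1)) (decide (i + 1 + 1 = 0 ∨ s.1 (i + 1 + 1) = 0)) := by
      rw [← rotL_rh (by omega) h.nc, hr2]
    rw [hR, rot_rh hx, hl1, hl2, rotL_rh hx h.nc]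
    simp only [hri x hx, hri' x hx, hri _ hpx, hri' _ hpx]
    unfold Perc.eL eAct
    dsimp only
    by_cases c1 : x = i + 1
    · subst c1
      simp
    · by_cases c2 : x = i + 1 + 1
      · subst c2
        simp
      · by_cases c3 : s.1 x = i + 1
        · have c4 : s.1 (i + 1) = x := by rw [← c3, inv1]
          by_cases c5 : x = 0
          · have c6 : s.1 (i + 1 + 1) ≠ 0 := by
              intro c6
              rw [c6] at inv3
              rw [c5] at c3
              omega
            subst c5
            simp only [c3, c4, c6, c1, c2, true_or, or_true, if_true, if_false, or_false, false_or]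
            cases s.2 (i + 1) <;> cases s.2 (i + 1 + 1) <;> simp
          · by_cases c6 : s.1 (i + 1 + 1) = 0
            · simp [c1, c2, c3, c4, c5, c6]
            · simp [c1, c2, c3, c4, c5, c6]
        · by_cases c4 : s.1 x = i + 1 + 1
          · have c5 : s.1 (i + 1 + 1) = x := by rw [← c4, inv1]
            by_cases c6 : x = 0
            · have c7 : s.1 (i + 1) ≠ 0 := by
                intro c7
                rw [c7] at inv2
                rw [c6] at c4
                omega
              subst c6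
              simp only [c3, c4, c5, c7, c1, c2, true_or, or_true, if_true, if_false, or_false,
                false_or]
              cases s.2 (i + 1) <;> cases s.2 (i + 1 + 1) <;> simp
            · by_cases c7 : s.1 (i + 1) = 0
              · simp [c1, c2, c3, c4, c5, c6, c7]
              · simp [c1, c2, c3, c4, c5, c6, c7]
          · simp [c1, c2, c3, c4]

theorem insL_inj (h : IsAnn N s) (h' : IsAnn N s') {i : ℕ} (hi : i ≤ N)
    (he : insL i s = insL i s') : s = s' := by
  have _ := h
  have _ := h'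
  have _ := hi
  refine Prod.ext ?_ ?_
  · funext x
    have h1 := congrFun (congrArg Prod.fst he) (sh i x)
    have h2 : insArc i s.1 (sh i x) = insArc i s'.1 (sh i x) := h1
    rw [ins_sh, ins_sh, sh_inj] at h2
    exact h2
  · funext x
    have h1 := congrFun (congrArg Prod.snd he) (sh i x)
    rwa [insL_sh, insL_sh] at h1

/-- Delete a small arc at the seam. -/
theorem IsAnn.exists_delCup (h : IsAnn (N + 2) s) (h1 : s.1 0 = N + 1) (h2 : s.2 0 = true) :
    ∃ s', IsAnn N s' ∧ s = Perc.cupL N s' := by
  obtain ⟨t, ht, rfl⟩ := rotL_surj h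
  have hr0 : rh (N + 2) 1 = 0 := by unfold rh; rw [if_neg (by omega)]
  have h3 : rh (N + 2) (t.1 1) = N + 1 := by
    have h4 := rot_rh (p := t.1) (N := N + 2) (x := 1) (by omega)
    rw [hr0] at h4
    rw [← h4]
    exact h1
  have h4 : t.1 1 = 0 := by
    have h5 := ht.nc.lt 1 (by omega)
    unfold rh at h3
    split_ifs at h3 with h6
    · exact h6
    · omega
  have h5 : t.2 1 = false := by
    have h6 := rotL_rh (x := 1) (N := N + 2) (by omega) ht.nc
    rw [hr0, h2, h4] at h6
    simpa using h6.symm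
  have h6 : t.1 0 = 1 := by rw [← h4, ht.nc.inv]
  have h7 : t.2 0 = false := by
    obtain ⟨g, hg, hm⟩ := ht.mark
    have e1 := hm 0 (by omega)
    have e2 := hm 1 (by omega)
    rw [h6] at e1
    rw [h4, h5] at e2
    cases hb : t.2 0
    · rfl
    · rw [hb] at e1
      simp at e1 e2
      omega
  obtain ⟨u, hu, rfl⟩ := ht.exists_del (Nat.zero_le _) h6 h7
  exact ⟨u, hu, rotL_insL_zero hu⟩

/-- Every state has a small arc (possibly at the seam). -/
theorem IsAnn.exists_small (h : IsAnn (N + 2) s) :
    (∃ i ≤ N, s.1 i = i + 1 ∧ s.2 i = false) ∨ (s.1 0 = N + 1 ∧ s.2 0 = true) := by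
  obtain ⟨g, hg, hm⟩ := h.mark
  by_cases h0 : s.1 0 = N + 1
  · obtain ⟨i, h1, h2, h3⟩ := h.nc.exists_small_in (N + 2) 0 (by omega) (by omega)
    by_cases hgi : g = i + 1
    · right
      refine ⟨h0, ?_⟩
      rw [hm 0 (by omega), h0]
      omega
    · left
      refine ⟨i, by omega, h3, ?_⟩
      have e := hm i (by omega)
      rw [h3] at e
      cases hb : s.2 i
      · rfl
      · rw [hb] at e
        simp at e
        omega
  · left
    have hy1 := h.nc.lt 0 (by omega)
    have hy2 := h.nc.ne 0 (by omega)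
    have hz1 := h.nc.lt (s.1 0 + 1) (by omega)
    have hz2 := h.nc.ne (s.1 0 + 1) (by omega)
    have hz : s.1 0 + 1 < s.1 (s.1 0 + 1) := by
      by_contra hc
      have i0 := h.nc.inv 0
      have i1 := h.nc.inv (s.1 0 + 1)
      have a1 : s.1 (s.1 0 + 1) ≠ 0 := by
        intro a1
        rw [a1] at i1
        omega
      have a2 : s.1 (s.1 0 + 1) ≠ s.1 0 := by
        intro a2
        rw [a2, i0] at i1
        omega
      have := h.nc.nc 0 (s.1 (s.1 0 + 1)) (by omega) (by omega)
      rw [i1] at this
      omega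
    obtain ⟨i, h1, h2, h3⟩ := h.nc.exists_small_in (N + 2) 0 (by omega) (by omega)
    obtain ⟨j, h4, h5, h6⟩ := h.nc.exists_small_in (N + 2) (s.1 0 + 1) hz (by omega)
    by_cases hgi : g = i + 1
    · refine ⟨j, by omega, h6, ?_⟩
      have e := hm j (by omega)
      rw [h6] at e
      cases hb : s.2 j
      · rfl
      · rw [hb] at e
        simp at e
        omega
    · refine ⟨i, by omega, h3, ?_⟩
      have e := hm i (by omega)
      rw [h3] at e
      cases hb : s.2 i
      · rfl
      · rw [hb] at e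
        simp at e
        omega

theorem isAnn_nestS (m : ℕ) : IsAnn (2 * m) (nestS m) := by
  refine ⟨nc_nest m, fun x hx => ?_, m, by omega, fun x hx => ?_⟩
  · show decide (x < 2 * m) = false
    simp; omega
  · show decide (x < 2 * m) = true ↔ ¬ (x < m ↔ nest m x < m)
    unfold nest
    rw [if_pos hx]
    simp only [hx, decide_true, true_iff]
    omega

theorem isAnn_zero (h : IsAnn 0 s) : s = nestS 0 := by
  refine Prod.ext ?_ ?_
  · funext x
    rw [h.nc.out x (Nat.zero_le _)]
    show x = nest 0 x
    unfold nest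
    rw [if_neg (by omega)]
  · funext x
    rw [h.out x (Nat.zero_le _)]
    show false = decide (x < 2 * 0)
    simp

end Pool.Agent.Perc
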