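import Pool.Agent.Lib.MP_6bd702_z.Z038

/-!
# Landing of the tubes at a far tip on the west side (task LowLandW)

As `LowLandE.lean`. The tube is a vertical strip `X ≤ x ≤ X + r` to the left of the rectangle.
-/

set_option autoImplicit false

namespace Pool.Agent.PercL

open Finset Pool.Agent.Perc

namespace LandW

variable {ω : Cfg} {x₀ x₁ y₀ y₁ : ℤ} {e : UE}

/-- The potential near the tip. -/
theorem colors {h r : ℤ} (hr : 1 ≤ r) (hx : x₀ + 8 * r < x₁)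
    (hfar : FarTip ω x₀ x₁ y₀ y₁ e (4 * r) (x₀, h, true)) :
    (y₀ ≤ h ∧ h < y₁) ∧
    (∀ w, InR x₀ x₁ y₀ y₁ w → w.1 ≤ x₀ + 4 * r → w.2 ≤ h + 4 * r →
      ((w.1 ≤ x₀ ∧ h < w.2) ∨ y₁ ≤ w.2) →
      potR ω x₀ x₁ y₀ y₁ e w = potR ω x₀ x₁ y₀ y₁ e (x₀, h + 1)) ∧
    (∀ w, InR x₀ x₁ y₀ y₁ w → w.1 ≤ x₀ + 4 * r → h - 4 * r ≤ w.2 →
      ((w.1 ≤ x₀ ∧ w.2 ≤ h) ∨ w.2 ≤ y₀) →
      potR ω x₀ x₁ y₀ y₁ e w = potR ω x₀ x₁ y₀ y₁ e (x₀, h)) := by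
  have hh : y₀ ≤ h ∧ h < y₁ := by
    have htb := hfar.2.1
    unfold BdE at htb
    simp only [Bool.true_eq_false, false_and, false_or, true_and] at htb
    exact ⟨htb.1, htb.2.1⟩
  refine ⟨hh, fun w hw h1 h2 h3 => ?_, fun w hw h1 h2 h3 => ?_⟩
  · unfold InR at hw
    refine farTip_west_up hfar (by omega) (by omega) ?_ ?_ ?_
    · unfold OnBd; omega
    · unfold Wi; simp only; omega
    · omega
  · unfold InR at hw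
    refine farTip_west_down hfar (by omega) (by omega) ?_ ?_ ?_ (by omega)
    · unfold OnBd; omega
    · unfold Wi; simp only; omega
    · omega

/-- Above the tip. -/
def Up (x₀ y₁ h r : ℤ) (w : ℤ × ℤ) : Prop :=
  w.1 ≤ x₀ + 4 * r ∧ w.2 ≤ h + 4 * r ∧ ((w.1 ≤ x₀ ∧ h < w.2) ∨ y₁ ≤ w.2)

/-- Below the tip. -/
def Dn (x₀ y₀ h r : ℤ) (w : ℤ × ℤ) : Prop :=
  w.1 ≤ x₀ + 4 * r ∧ h - 4 * r ≤ w.2 ∧ ((w.1 ≤ x₀ ∧ w.2 ≤ h) ∨ w.2 ≤ y₀)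

theorem cor_up {x₀ y₁ h r : ℤ} {g w : ℤ × ℤ} (hw : IsCor g w) (h1 : g.1 + 1 ≤ x₀ + 4 * r)
    (h2 : g.2 + 1 ≤ h + 4 * r) (h3 : (g.1 + 1 ≤ x₀ ∧ h < g.2) ∨ y₁ ≤ g.2) : Up x₀ y₁ h r w := by
  unfold IsCor at hw
  unfold Up
  omega

theorem cor_dn {x₀ y₀ h r : ℤ} {g w : ℤ × ℤ} (hw : IsCor g w) (h1 : g.1 + 1 ≤ x₀ + 4 * r)
    (h2 : h - 4 * r ≤ g.2) (h3 : (g.1 + 1 ≤ x₀ ∧ g.2 < h) ∨ g.2 + 1 ≤ y₀) : Dn x₀ y₀ h r w := by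
  unfold IsCor at hw
  unfold Dn
  omega

theorem face_a {x₀ x₁ y₀ y₁ h r X : ℤ} {g : ℤ × ℤ} (hr : 1 ≤ r) (hx : x₀ + 8 * r < x₁)
    (hh : y₀ ≤ h ∧ h < y₁)
    (hg : (X ≤ g.1 ∧ g.1 < x₀ + 4 * r ∧ h + 3 * r ≤ g.2 ∧ g.2 < h + 4 * r) ∨
      (x₀ + 3 * r ≤ g.1 ∧ g.1 < x₀ + 4 * r ∧ h - 4 * r ≤ g.2 ∧ g.2 < h + 4 * r) ∨
      (x₀ ≤ g.1 ∧ g.1 < x₀ + 4 * r ∧ h - 4 * r ≤ g.2 ∧ g.2 < h - 3 * r))
    (hgR : ¬ (x₀ ≤ g.1 ∧ g.1 < x₁ ∧ y₀ ≤ g.2 ∧ g.2 < y₁)) :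
    (∀ w, IsCor g w → Up x₀ y₁ h r w) ∨ (∀ w, IsCor g w → Dn x₀ y₀ h r w) := by
  by_cases hc : g.1 < x₀ ∨ y₁ ≤ g.2
  · exact Or.inl fun w hw => cor_up hw (by omega) (by omega) (by omega)
  · exact Or.inr fun w hw => cor_dn hw (by omega) (by omega) (by omega)

theorem face_b {x₀ x₁ y₀ y₁ h r X : ℤ} {g : ℤ × ℤ} (hr : 1 ≤ r) (hx : x₀ + 8 * r < x₁)
    (hh : y₀ ≤ h ∧ h < y₁)
    (hg : (X ≤ g.1 ∧ g.1 < x₀ + 2 * r ∧ h - 2 * r ≤ g.2 ∧ g.2 < h - r) ∨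
      (x₀ + r ≤ g.1 ∧ g.1 < x₀ + 2 * r ∧ h - 2 * r ≤ g.2 ∧ g.2 < h + 2 * r) ∨
      (x₀ ≤ g.1 ∧ g.1 < x₀ + 2 * r ∧ h + r ≤ g.2 ∧ g.2 < h + 2 * r))
    (hgR : ¬ (x₀ ≤ g.1 ∧ g.1 < x₁ ∧ y₀ ≤ g.2 ∧ g.2 < y₁)) :
    (∀ w, IsCor g w → Up x₀ y₁ h r w) ∨ (∀ w, IsCor g w → Dn x₀ y₀ h r w) := by
  by_cases hc : y₁ ≤ g.2
  · exact Or.inl fun w hw => cor_up hw (by omega) (by omega) (by omega)
  · exact Or.inr fun w hw => cor_dn hw (by omega) (by omega) (by omega)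

theorem sub_a {x₀ h r X s : ℤ} {f : ℤ × ℤ} (hX : X + r < x₀)
    (hs : s ≤ h + 3 * r)
    (hg : (X ≤ f.1 ∧ f.1 < x₀ + 4 * r ∧ h + 3 * r ≤ f.2 ∧ f.2 < h + 4 * r) ∨
      (x₀ + 3 * r ≤ f.1 ∧ f.1 < x₀ + 4 * r ∧ h - 4 * r ≤ f.2 ∧ f.2 < h + 4 * r) ∨
      (x₀ ≤ f.1 ∧ f.1 < x₀ + 4 * r ∧ h - 4 * r ≤ f.2 ∧ f.2 < h - 3 * r)) :
    X ≤ f.1 ∧ f.1 < x₀ + 4 * r ∧ min s (h - 4 * r) ≤ f.2 ∧ f.2 < h + 4 * r := by
  omega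

theorem sub_b {x₀ h r X s : ℤ} {f : ℤ × ℤ} (hr : 1 ≤ r) (hX : X + r < x₀)
    (hs : s ≤ h - 2 * r)
    (hg : (X ≤ f.1 ∧ f.1 < x₀ + 2 * r ∧ h - 2 * r ≤ f.2 ∧ f.2 < h - r) ∨
      (x₀ + r ≤ f.1 ∧ f.1 < x₀ + 2 * r ∧ h - 2 * r ≤ f.2 ∧ f.2 < h + 2 * r) ∨
      (x₀ ≤ f.1 ∧ f.1 < x₀ + 2 * r ∧ h + r ≤ f.2 ∧ f.2 < h + 2 * r)) :
    X ≤ f.1 ∧ f.1 < x₀ + 4 * r ∧ min s (h - 4 * r) ≤ f.2 ∧ f.2 < h + 4 * r := by
  omega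

/-- The tube is outside the rectangle. -/
theorem tube_sub {ω : Cfg} {e : UE} {x₀ x₁ y₀ y₁ h r X s t : ℤ} (hr : 1 ≤ r) (hX : X + r < x₀)
    (ht : t ≤ h + 4 * r) :
    (RF X (X + r) s t : Set (ℤ × ℤ)) ⊆
      (RF X (x₀ + 4 * r) (min s (h - 4 * r)) (h + 4 * r) : Set (ℤ × ℤ)) \
        SS ω (RF x₀ x₁ y₀ y₁) e := by
  intro f f1
  rw [mem_RF'] at f1
  refine ⟨?_, fun f2 => ?_⟩
  · rw [mem_RF']
    omega
  · have f3 := SS_sub f2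
    rw [mem_RF'] at f3
    omega

end LandW

/-- The parity of the upper vertex of the tip, outer turn. -/
theorem land_west_a {ω ξ : Cfg} {x₀ x₁ y₀ y₁ : ℤ} {e : UE} {u v : ℤ × ℤ} (he : Joins e u v)
    (hu : InR x₀ x₁ y₀ y₁ u) (hv : InR x₀ x₁ y₀ y₁ v) {h r X s a : ℤ} (hr : 1 ≤ r)
    (hx : x₀ + 8 * r < x₁) (hy : y₀ + 8 * r < y₁)
    (hfar : FarTip ω x₀ x₁ y₀ y₁ e (4 * r) (x₀, h, true))
    (hpar : par (x₀, h + 1) = par u) (ha : (u.1 + u.2 - a) % 2 = 0) (hX : X + r < x₀)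
    (hs : s ≤ h + 3 * r) (hT : ξ ∈ LR a X (x₀ + 4 * r) (h + 3 * r) (h + 4 * r))
    (hL : ξ ∈ BT a (x₀ + 3 * r) (x₀ + 4 * r) (h - 4 * r) (h + 4 * r))
    (hB : ξ ∈ LR a x₀ (x₀ + 4 * r) (h - 4 * r) (h - 3 * r)) {u' v' : ℤ × ℤ}
    (hu' : u'.2 = s ∧ X ≤ u'.1 ∧ u'.1 ≤ X + r) (hv' : v'.2 = h + 4 * r)
    (hpar' : (u'.1 + u'.2 - a) % 2 = 0)
    (hc : Conn ξ (RF X (X + r) s (h + 4 * r)) u' v') :
    ∃ w, Conn ω (SS ω (RF x₀ x₁ y₀ y₁) e) u w ∧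
      Conn ξ ((RF X (x₀ + 4 * r) (min s (h - 4 * r)) (h + 4 * r) : Set (ℤ × ℤ)) \
        SS ω (RF x₀ x₁ y₀ y₁) e) w u' := by
  classical
  obtain ⟨hh, hup, hdown⟩ := LandW.colors hr hx hfar
  have hpot := MM_pot he hfar.1 (p := (x₀, h + 1)) (q := (x₀, h))
    (Or.inr ⟨by rw [ub_true], by rw [ua_mk]⟩) hpar
  have hne := (potR_joins he hu hv).1 (mem_MM_self (ω := ω) (F := (RF x₀ x₁ y₀ y₁ : Set (ℤ × ℤ))))
  obtain ⟨T₁, T₂, t1, t2, t3, t4, t5, t6⟩ := hT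
  obtain ⟨L₁, L₂, l1, l2, l3, l4, l5, l6⟩ := hL
  obtain ⟨B₁, B₂, b1, b2, b3, b4, b5, b6⟩ := hB
  obtain ⟨z, z1, z2, z3, z4, z5, z6⟩ := meet_cross (x₀ := X) (x₁ := x₀ + 4 * r) (x₀' := X)
    (x₁' := X + r) (y₀ := h + 3 * r) (y₁ := h + 4 * r) (y₀' := s) (y₁' := h + 4 * r)
    le_rfl (by omega) (by omega) hs (by omega) le_rfl ⟨t1, t2, t3⟩ t4 hu' hv' (by omega) t6 hc
  obtain ⟨p, p1, p2, -, -, -, -⟩ := meet_cross (x₀ := X) (x₁ := x₀ + 4 * r) (x₀' := x₀ + 3 * r)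
    (x₁' := x₀ + 4 * r) (y₀ := h + 3 * r) (y₁ := h + 4 * r) (y₀' := h - 4 * r) (y₁' := h + 4 * r)
    (by omega) (by omega) le_rfl (by omega) (by omega) le_rfl ⟨t1, t2, t3⟩ t4 ⟨l1, l2, l3⟩ l4
    (by omega) t6 l6
  obtain ⟨q, q1, q2, -, -, -, -⟩ := meet_cross (x₀ := x₀) (x₁ := x₀ + 4 * r) (x₀' := x₀ + 3 * r)
    (x₁' := x₀ + 4 * r) (y₀ := h - 4 * r) (y₁ := h - 3 * r) (y₀' := h - 4 * r) (y₁' := h + 4 * r)
    (by omega) (by omega) le_rfl (by omega) (by omega) (by omega) ⟨b1, b2, b3⟩ b4 ⟨l1, l2, l3⟩ l4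
    (by omega) b6 l6
  set G : Set (ℤ × ℤ) := (RF X (x₀ + 4 * r) (h + 3 * r) (h + 4 * r) : Set (ℤ × ℤ)) ∪
    ((RF (x₀ + 3 * r) (x₀ + 4 * r) (h - 4 * r) (h + 4 * r) : Set (ℤ × ℤ)) ∪
      (RF x₀ (x₀ + 4 * r) (h - 4 * r) (h - 3 * r) : Set (ℤ × ℤ))) with hGdef
  have hpath : Conn ξ G B₁ z :=
    ((q1.mono fun f hf => Or.inr (Or.inr hf)).trans
      (Conn.symm (q2.mono fun f hf => Or.inr (Or.inl hf)))).trans
      (((p2.mono fun f hf => Or.inr (Or.inl hf)).trans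
        (Conn.symm (p1.mono fun f hf => Or.inl hf))).trans (z1.mono fun f hf => Or.inl hf))
  set χ : ℤ × ℤ → Prop := fun w => if InR x₀ x₁ y₀ y₁ w then
    potR ω x₀ x₁ y₀ y₁ e w = potR ω x₀ x₁ y₀ y₁ e u else h < w.2 with hχdef
  have cup : ∀ w, LandW.Up x₀ y₁ h r w → χ w := by
    rintro w ⟨w1, w2, w3⟩
    by_cases hw : InR x₀ x₁ y₀ y₁ w
    · simp only [hχdef, if_pos hw]
      rw [hup w hw w1 w2 w3, hpot.1]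
    · simp only [hχdef, if_neg hw]
      rcases w3 with w3 | w3
      · exact w3.2
      · exact lt_of_lt_of_le hh.2 w3
  have cdown : ∀ w, LandW.Dn x₀ y₀ h r w → ¬ χ w := by
    rintro w ⟨w1, w2, w3⟩
    by_cases hw : InR x₀ x₁ y₀ y₁ w
    · simp only [hχdef, if_pos hw]
      rw [hdown w hw w1 w2 w3, hpot.2]
      exact fun h => hne h.symm
    · simp only [hχdef, if_neg hw]
      rcases w3 with w3 | w3
      · exact not_lt.mpr w3.2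
      · exact not_lt.mpr (w3.trans hh.1)
  have hland := land (ω := ω) (G := G) (ξ := ξ) he hu hv χ
    (fun w hw => by simp only [hχdef, if_pos hw])
    (fun g hg hgR w w' hw hw' => by
      rw [hGdef] at hg
      simp only [Set.mem_union, mem_RF'] at hg
      rw [mem_RF'] at hgR
      rcases LandW.face_a hr hx hh hg hgR with hf | hf
      · exact iff_of_true (cup w (hf w hw)) (cup w' (hf w' hw'))
      · exact iff_of_false (cdown w (hf w hw)) (cdown w' (hf w' hw')))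
    (p₀ := B₁) (pₙ := z)
    (by
      have e1 := Conn.parity z2
      unfold par
      omega)
    hpath (cdown B₁ (by unfold LandW.Dn; omega)) (cup z (by unfold LandW.Up; omega))
  obtain ⟨w, w1, w2⟩ := hland
  refine ⟨w, w1, (w2.mono ?_).trans (Conn.symm (z2.mono (LandW.tube_sub hr hX le_rfl)))⟩
  rintro f ⟨f1, f2⟩
  refine ⟨?_, f2⟩
  rw [hGdef] at f1
  simp only [Set.mem_union, mem_RF'] at f1 ⊢
  exact LandW.sub_a hX hs f1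

/-- The parity of the lower vertex of the tip, inner turn. -/
theorem land_west_b {ω ξ : Cfg} {x₀ x₁ y₀ y₁ : ℤ} {e : UE} {u v : ℤ × ℤ} (he : Joins e u v)
    (hu : InR x₀ x₁ y₀ y₁ u) (hv : InR x₀ x₁ y₀ y₁ v) {h r X s b : ℤ} (hr : 1 ≤ r)
    (hx : x₀ + 8 * r < x₁) (hy : y₀ + 8 * r < y₁)
    (hfar : FarTip ω x₀ x₁ y₀ y₁ e (4 * r) (x₀, h, true))
    (hpar : par (x₀, h) = par u) (hb : (u.1 + u.2 - b) % 2 = 0) (hX : X + r < x₀)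
    (hs : s ≤ h - 2 * r) (hT : ξ ∈ LR b X (x₀ + 2 * r) (h - 2 * r) (h - r))
    (hL : ξ ∈ BT b (x₀ + r) (x₀ + 2 * r) (h - 2 * r) (h + 2 * r))
    (hB : ξ ∈ LR b x₀ (x₀ + 2 * r) (h + r) (h + 2 * r)) {u' v' : ℤ × ℤ}
    (hu' : u'.2 = s ∧ X ≤ u'.1 ∧ u'.1 ≤ X + r) (hv' : v'.2 = h - r)
    (hpar' : (u'.1 + u'.2 - b) % 2 = 0)
    (hc : Conn ξ (RF X (X + r) s (h - r)) u' v') :
    ∃ w, Conn ω (SS ω (RF x₀ x₁ y₀ y₁) e) u w ∧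
      Conn ξ ((RF X (x₀ + 4 * r) (min s (h - 4 * r)) (h + 4 * r) : Set (ℤ × ℤ)) \
        SS ω (RF x₀ x₁ y₀ y₁) e) w u' := by
  classical
  obtain ⟨hh, hup, hdown⟩ := LandW.colors hr hx hfar
  have hpot := MM_pot he hfar.1 (p := (x₀, h)) (q := (x₀, h + 1))
    (Or.inl ⟨by rw [ua_mk], by rw [ub_true]⟩) hpar
  have hne := (potR_joins he hu hv).1 (mem_MM_self (ω := ω) (F := (RF x₀ x₁ y₀ y₁ : Set (ℤ × ℤ))))
  obtain ⟨T₁, T₂, t1, t2, t3, t4, t5, t6⟩ := hT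
  obtain ⟨L₁, L₂, l1, l2, l3, l4, l5, l6⟩ := hL
  obtain ⟨B₁, B₂, b1, b2, b3, b4, b5, b6⟩ := hB
  obtain ⟨z, z1, z2, z3, z4, z5, z6⟩ := meet_cross (x₀ := X) (x₁ := x₀ + 2 * r) (x₀' := X)
    (x₁' := X + r) (y₀ := h - 2 * r) (y₁ := h - r) (y₀' := s) (y₁' := h - r)
    le_rfl (by omega) (by omega) hs (by omega) le_rfl ⟨t1, t2, t3⟩ t4 hu' hv' (by omega) t6 hc
  obtain ⟨p, p1, p2, -, -, -, -⟩ := meet_cross (x₀ := X) (x₁ := x₀ + 2 * r) (x₀' := x₀ + r)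
    (x₁' := x₀ + 2 * r) (y₀ := h - 2 * r) (y₁ := h - r) (y₀' := h - 2 * r) (y₁' := h + 2 * r)
    (by omega) (by omega) le_rfl (by omega) (by omega) (by omega) ⟨t1, t2, t3⟩ t4 ⟨l1, l2, l3⟩ l4
    (by omega) t6 l6
  obtain ⟨q, q1, q2, -, -, -, -⟩ := meet_cross (x₀ := x₀) (x₁ := x₀ + 2 * r) (x₀' := x₀ + r)
    (x₁' := x₀ + 2 * r) (y₀ := h + r) (y₁ := h + 2 * r) (y₀' := h - 2 * r) (y₁' := h + 2 * r)
    (by omega) (by omega) le_rfl (by omega) (by omega) (by omega) ⟨b1, b2, b3⟩ b4 ⟨l1, l2, l3⟩ l4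
    (by omega) b6 l6
  set G : Set (ℤ × ℤ) := (RF X (x₀ + 2 * r) (h - 2 * r) (h - r) : Set (ℤ × ℤ)) ∪
    ((RF (x₀ + r) (x₀ + 2 * r) (h - 2 * r) (h + 2 * r) : Set (ℤ × ℤ)) ∪
      (RF x₀ (x₀ + 2 * r) (h + r) (h + 2 * r) : Set (ℤ × ℤ))) with hGdef
  have hpath : Conn ξ G B₁ z :=
    ((q1.mono fun f hf => Or.inr (Or.inr hf)).trans
      (Conn.symm (q2.mono fun f hf => Or.inr (Or.inl hf)))).trans
      (((p2.mono fun f hf => Or.inr (Or.inl hf)).trans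
        (Conn.symm (p1.mono fun f hf => Or.inl hf))).trans (z1.mono fun f hf => Or.inl hf))
  set χ : ℤ × ℤ → Prop := fun w => if InR x₀ x₁ y₀ y₁ w then
    potR ω x₀ x₁ y₀ y₁ e w = potR ω x₀ x₁ y₀ y₁ e u else w.2 ≤ h with hχdef
  have cup : ∀ w, LandW.Up x₀ y₁ h r w → ¬ χ w := by
    rintro w ⟨w1, w2, w3⟩
    by_cases hw : InR x₀ x₁ y₀ y₁ w
    · simp only [hχdef, if_pos hw]
      rw [hup w hw w1 w2 w3, hpot.2]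
      exact fun h => hne h.symm
    · simp only [hχdef, if_neg hw]
      rcases w3 with w3 | w3
      · exact not_le.mpr w3.2
      · exact not_le.mpr (lt_of_lt_of_le hh.2 w3)
  have cdown : ∀ w, LandW.Dn x₀ y₀ h r w → χ w := by
    rintro w ⟨w1, w2, w3⟩
    by_cases hw : InR x₀ x₁ y₀ y₁ w
    · simp only [hχdef, if_pos hw]
      rw [hdown w hw w1 w2 w3, hpot.1]
    · simp only [hχdef, if_neg hw]
      rcases w3 with w3 | w3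
      · exact w3.2
      · exact w3.trans hh.1
  have hland := land (ω := ω) (G := G) (ξ := ξ) he hu hv χ
    (fun w hw => by simp only [hχdef, if_pos hw])
    (fun g hg hgR w w' hw hw' => by
      rw [hGdef] at hg
      simp only [Set.mem_union, mem_RF'] at hg
      rw [mem_RF'] at hgR
      rcases LandW.face_b hr hx hh hg hgR with hf | hf
      · exact iff_of_false (cup w (hf w hw)) (cup w' (hf w' hw'))
      · exact iff_of_true (cdown w (hf w hw)) (cdown w' (hf w' hw')))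
    (p₀ := B₁) (pₙ := z)
    (by
      have e1 := Conn.parity z2
      unfold par
      omega)
    hpath (cup B₁ (by unfold LandW.Up; omega)) (cdown z (by unfold LandW.Dn; omega))
  obtain ⟨w, w1, w2⟩ := hland
  refine ⟨w, w1, (w2.mono ?_).trans (Conn.symm (z2.mono (LandW.tube_sub hr hX (by omega))))⟩
  rintro f ⟨f1, f2⟩
  refine ⟨?_, f2⟩
  rw [hGdef] at f1
  simp only [Set.mem_union, mem_RF'] at f1 ⊢
  exact LandW.sub_b hr hX hs f1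

end Pool.Agent.PercL
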