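import Pool.Agent.Lib.MP_6bd702_z.Z039
import Pool.Agent.Lib.MP_6bd702_z.Z040
import Pool.Agent.Lib.MP_6bd702_z.Z021
import Pool.Agent.Lib.MP_6bd702_z.Z034
import Pool.Agent.Lib.MP_6bd702_z.Z033

section PartpercwLowGlue

/-!
# The gluing lemma (task LowGlue)

`glue`: take the crossing `(u', v')` of the long vertical tube of parity `a` of `Tubes`; by
`land_east_a` (with `t = h' + 4 r`) `u` is joined in `ω` inside `SS` to a vertex joined in `ξ`, off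
`SS`, to `u'`; by `land_west_a` (with `X = x₁ + 4 r`, `s = h + 3 r`) the same for the other
component; `ω'` agrees with `ω` on the first `SS`, with `ω₁` on the second one (they are disjoint
because the rectangles are) and with `ξ` elsewhere; the zone of `land_east_a` does not meet the second
rectangle (`x₁ + 9 r ≤ X₀`), the zone of `land_west_a` does not meet the first one. The same with
`land_east_b`, `land_west_b` (`t = h' - r`, `X = x₁ + 7 r`, `s = h - 2 r`), applied to `he.symm`.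

`success`: `glue` with `x₁ = R`, `G = QF 0 B`, then `mem_MM_of_conn` (`CoreB.lean`).
-/

set_option autoImplicit false

namespace Pool.Agent.PercL

open Finset Pool.Agent.Perc

/-- Transport of a connection to a configuration which agrees on the faces. -/
theorem conn_agree {ζ Ω : Cfg} {F G : Set (ℤ × ℤ)} {p q : ℤ × ℤ} (h : Conn ζ F p q)
    (hF : F ⊆ G) (hc : ∀ f ∈ F, ζ f = Ω f) : Conn Ω G p q :=
  ((GridA.conn_iff F hc p q).1 h).mono hF

/-- One strand. -/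
theorem strand {ω ω₁ ξ : Cfg} {E E' Z₁ Z₂ G : Set (ℤ × ℤ)} {u w c w' u' : ℤ × ℤ}
    (h1 : Conn ω E u w) (h2 : Conn ξ (Z₁ \ E) w c) (h3 : Conn ω₁ E' u' w')
    (h4 : Conn ξ (Z₂ \ E') w' c) (hd : ∀ f ∈ E', f ∉ E) (hd1 : ∀ f ∈ Z₁, f ∉ E')
    (hd2 : ∀ f ∈ Z₂, f ∉ E) (hE : E ⊆ G) (hE' : E' ⊆ G) (hZ₁ : Z₁ ⊆ G) (hZ₂ : Z₂ ⊆ G) :
    Conn (mixC E ω (mixC E' ω₁ ξ)) G u u' := by
  have c1 : Conn (mixC E ω (mixC E' ω₁ ξ)) G u w :=
    conn_agree h1 hE fun f hf => by rw [mixC, if_pos hf]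
  have c2 : Conn (mixC E ω (mixC E' ω₁ ξ)) G w c :=
    conn_agree h2 (Set.sdiff_subset.trans hZ₁) fun f hf => by
      rw [mixC, if_neg hf.2, mixC, if_neg (hd1 f hf.1)]
  have c3 : Conn (mixC E ω (mixC E' ω₁ ξ)) G u' w' :=
    conn_agree h3 hE' fun f hf => by rw [mixC, if_neg (hd f hf), mixC, if_pos hf]
  have c4 : Conn (mixC E ω (mixC E' ω₁ ξ)) G w' c :=
    conn_agree h4 (Set.sdiff_subset.trans hZ₂) fun f hf => by
      rw [mixC, if_neg (hd2 f hf.1), mixC, if_neg hf.2]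
  exact (c1.trans c2).trans (c4.symm.trans c3.symm)

theorem glue {a : ℤ} {ω ω₁ ξ : Cfg} {x₀ x₁ y₀ y₁ X₀ X₁ Y₀ Y₁ : ℤ} {e e' : UE} {u v u' v' : ℤ × ℤ}
    (he : Joins e u v) (he' : Joins e' u' v') (hu : InR x₀ x₁ y₀ y₁ u) (hv : InR x₀ x₁ y₀ y₁ v)
    (hu' : InR X₀ X₁ Y₀ Y₁ u') (hv' : InR X₀ X₁ Y₀ Y₁ v') {h h' r : ℤ} (hr : 1 ≤ r)
    (hx : x₀ + 8 * r < x₁) (hy : y₀ + 8 * r < y₁) (hX : X₀ + 8 * r < X₁) (hY : Y₀ + 8 * r < Y₁)
    (hfar : FarTip ω x₀ x₁ y₀ y₁ e (4 * r) (x₁, h, true))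
    (hfar' : FarTip ω₁ X₀ X₁ Y₀ Y₁ e' (4 * r) (X₀, h', true))
    (hpar : par (x₁, h + 1) = par u) (hpar' : par (X₀, h' + 1) = par u')
    (ha : (u.1 + u.2 - a) % 2 = 0) (ha' : (u'.1 + u'.2 - a) % 2 = 0)
    (hxX : x₁ + 9 * r ≤ X₀) (hh : h ≤ h') (hT : ξ ∈ Tubes a x₁ h X₀ h' r) {G : Set (ℤ × ℤ)}
    (hG1 : (RF x₀ x₁ y₀ y₁ : Set (ℤ × ℤ)) ⊆ G) (hG2 : (RF X₀ X₁ Y₀ Y₁ : Set (ℤ × ℤ)) ⊆ G)
    (hG3 : (RF (x₁ - 4 * r) (X₀ + 4 * r) (h - 4 * r) (h' + 4 * r) : Set (ℤ × ℤ)) ⊆ G) :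
    Conn (mixC (SS ω (RF x₀ x₁ y₀ y₁) e) ω (mixC (SS ω₁ (RF X₀ X₁ Y₀ Y₁) e') ω₁ ξ)) G u u' ∧
    Conn (mixC (SS ω (RF x₀ x₁ y₀ y₁) e) ω (mixC (SS ω₁ (RF X₀ X₁ Y₀ Y₁) e') ω₁ ξ)) G v v' := by
  obtain ⟨⟨t1, t2, t3, t4, t5, t6, t7⟩, s1, s2, s3, s4, s5, s6, s7⟩ := hT
  set E := SS ω (RF x₀ x₁ y₀ y₁ : Set (ℤ × ℤ)) e with hE
  set E' := SS ω₁ (RF X₀ X₁ Y₀ Y₁ : Set (ℤ × ℤ)) e' with hE'
  have hES : E ⊆ (RF x₀ x₁ y₀ y₁ : Set (ℤ × ℤ)) := fun f hf => hf.1
  have hES' : E' ⊆ (RF X₀ X₁ Y₀ Y₁ : Set (ℤ × ℤ)) := fun f hf => hf.1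
  have hd : ∀ f ∈ E', f ∉ E := fun f hf hf' => by
    have h1 := mem_RF'.1 (hES hf')
    have h2 := mem_RF'.1 (hES' hf)
    omega
  have hpv : par v ≠ par u := he.par_ne.symm
  have hpv' : par v' ≠ par u' := he'.par_ne.symm
  constructor
  · obtain ⟨p, q, p1, p2, p3, p4, p5, p6⟩ := t4
    obtain ⟨w, w1, w2⟩ := land_east_a (t := h' + 4 * r) he hu hv hr hx hy hfar hpar ha (by omega)
      t1 t2 t3 ⟨p1, p2, p3⟩ p4 p5 p6
    obtain ⟨w', w3, w4⟩ := land_west_a (X := x₁ + 4 * r) (s := h + 3 * r) he' hu' hv' hr hX hY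
      hfar' hpar' ha' (by omega) (by omega) t5 t6 t7 ⟨p1, p2, by omega⟩ p4 p5
      (by rwa [show x₁ + 4 * r + r = x₁ + 5 * r by ring])
    refine strand w1 w2 w3 w4 hd ?_ ?_ (hES.trans hG1) (hES'.trans hG2) ?_ ?_
    · intro f hf hf'
      have h1 := mem_RF'.1 hf
      have h2 := mem_RF'.1 (hES' hf')
      omega
    · intro f hf hf'
      have h1 := mem_RF'.1 hf
      have h2 := mem_RF'.1 (hES hf')
      omega
    · intro f hf
      refine hG3 ?_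
      rw [mem_RF'] at hf ⊢
      omega
    · intro f hf
      refine hG3 ?_
      rw [mem_RF'] at hf ⊢
      omega
  · obtain ⟨p, q, p1, p2, p3, p4, p5, p6⟩ := s4
    obtain ⟨w, w1, w2⟩ := land_east_b (b := a + 1) (t := h' - r) he.symm hv hu hr hx hy hfar
      (by unfold par at *; simp only at *; omega) (by unfold par at *; simp only at *; omega)
      (by omega) s1 s2 s3 ⟨p1, p2, p3⟩ p4 p5 p6
    obtain ⟨w', w3, w4⟩ := land_west_b (b := a + 1) (X := x₁ + 7 * r) (s := h - 2 * r) he'.symm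
      hv' hu' hr hX hY hfar' (by unfold par at *; simp only at *; omega)
      (by unfold par at *; simp only at *; omega) (by omega) (by omega) s5 s6 s7
      ⟨p1, p2, by omega⟩ p4 p5 (by rwa [show x₁ + 7 * r + r = x₁ + 8 * r by ring])
    refine strand w1 w2 w3 w4 hd ?_ ?_ (hES.trans hG1) (hES'.trans hG2) ?_ ?_
    · intro f hf hf'
      have h1 := mem_RF'.1 hf
      have h2 := mem_RF'.1 (hES' hf')
      omega
    · intro f hf hf'
      have h1 := mem_RF'.1 hf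
      have h2 := mem_RF'.1 (hES hf')
      omega
    · intro f hf
      refine hG3 ?_
      rw [mem_RF'] at hf ⊢
      omega
    · intro f hf
      refine hG3 ?_
      rw [mem_RF'] at hf ⊢
      omega

/-- The end of `ue p d` of a given parity. -/
theorem exists_end {p : ℤ × ℤ} {R b : ℤ} (d : Fin 4) (hR : 1 ≤ R) :
    ∃ u v, Joins (ue p d) u v ∧ (u.1 + u.2 - b) % 2 = 0 ∧
      InR (p.1 - R) (p.1 + R) (p.2 - R) (p.2 + R) u ∧
      InR (p.1 - R) (p.1 + R) (p.2 - R) (p.2 + R) v := by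
  have h1 := ue_joins p d
  have h2 := par_nb p d
  have h3 := inR_center (p := p) (d := d) hR
  by_cases hb : (p.1 + p.2 - b) % 2 = 0
  · exact ⟨p, nb p d, h1, hb, h3.1, h3.2⟩
  · refine ⟨nb p d, p, h1.symm, ?_, h3.2, h3.1⟩
    unfold par at h2
    omega

theorem success {a : ℤ} {ω ω₁ ξ : Cfg} {R s r B h h' : ℤ} {d d' : Fin 4} {p : ℤ × ℤ}
    (hp : (p.1 + p.2) % 2 = 0) (hr : 1 ≤ r) (hR : 4 * r < R) (hs : 4 * r < s)
    (hfar : FT ω (0, 0) d R (4 * r) (R, h, true)) (ha : (R + (h + 1) - a) % 2 = 0)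
    (hfar' : FT ω₁ p d' s (4 * r) (p.1 - s, h', true)) (ha' : (p.1 - s + (h' + 1) - a) % 2 = 0)
    (h1 : R + 9 * r ≤ p.1 - s) (h2 : h ≤ p.2 - s) (h3 : p.1 + s + 4 * r ≤ B)
    (h4 : p.2 + s + 4 * r ≤ B) (h5 : R + 4 * r ≤ B) (hT : ξ ∈ Tubes a R h (p.1 - s) h' r) :
    ue p d' ∈ MM (mixC (SQ ω (0, 0) d R) ω (mixC (SQ ω₁ p d' s) ω₁ ξ)) (QF (0, 0) B)
      (ue (0, 0) d) := by
  obtain ⟨u, v, j1, j2, j3, j4⟩ := exists_end (p := (0, 0)) (b := a) (R := R) d (by omega)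
  obtain ⟨u', v', k1, k2, k3, k4⟩ := exists_end (p := p) (b := a) (R := s) d' (by omega)
  simp only [zero_sub, zero_add] at j3 j4
  have hfarR : FarTip ω (-R) R (-R) R (ue (0, 0) d) (4 * r) (R, h, true) := by
    have := hfar
    unfold FT at this
    simpa only [zero_sub, zero_add] using this
  have hbd := hfarR.2.1
  have hbd' := hfar'.2.1
  have hh1 : -R ≤ h ∧ h < R := by
    unfold BdE at hbd
    simp only [Bool.true_eq_false, false_and, true_and, false_or] at hbd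
    omega
  have hh2 : p.2 - s ≤ h' ∧ h' < p.2 + s := by
    unfold BdE at hbd'
    simp only [Bool.true_eq_false, false_and, true_and, false_or] at hbd'
    omega
  have hg := glue (G := (QF (0, 0) B : Set (ℤ × ℤ))) j1 k1 j3 j4 k3 k4 hr (by omega) (by omega)
    (by omega) (by omega) hfarR hfar'
    (by unfold par; simp only; omega) (by unfold par; simp only; omega) j2 k2 h1 (by omega) hT
    (by intro f hf; unfold QF; rw [mem_RF'] at hf ⊢; simp only [zero_sub, zero_add]; omega)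
    (by intro f hf; unfold QF; rw [mem_RF'] at hf ⊢; simp only [zero_sub, zero_add]; omega)
    (by intro f hf; unfold QF; rw [mem_RF'] at hf ⊢; simp only [zero_sub, zero_add]; omega)
  have e1 : SQ ω (0, 0) d R = SS ω (RF (-R) R (-R) R) (ue (0, 0) d) := by
    unfold SQ QF; simp only [zero_sub, zero_add]
  have e2 : SQ ω₁ p d' s = SS ω₁ (RF (p.1 - s) (p.1 + s) (p.2 - s) (p.2 + s)) (ue p d') := rfl
  rw [← e1, ← e2] at hg
  have hBu : ∀ w, InR (-R) R (-R) R w → InR (0 - B) (0 + B) (0 - B) (0 + B) w := by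
    intro w hw; unfold InR at *; omega
  have hBu' : ∀ w, InR (p.1 - s) (p.1 + s) (p.2 - s) (p.2 + s) w →
      InR (0 - B) (0 + B) (0 - B) (0 + B) w := by
    intro w hw; unfold InR at *; omega
  exact mem_MM_of_conn j1 (hBu _ j3) (hBu _ j4) k1 (hBu' _ k3) (hBu' _ k4) hg.1 hg.2

end Pool.Agent.PercL

end PartpercwLowGlue

section PartpercwLowTubes

/-!
# The probability of the tubes (task LowTubes)

The seven rectangles of the parity `a` are disjoint (as sets of faces) from the seven rectangles of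
the parity `a + 1` (check of 49 pairs, `h ≤ h'`, `x + 9 r ≤ x'`). Harris for each family
(`incD_conn` in `GridA.lean`: `LR col`, `BT col` are increasing for `parD col`), independence of the
two families (`pr_inter_of_disjoint`, `pr_eq_of_depOn`), RSW for every rectangle: width `r`, length at
most `(K + 8) r`.
-/

set_option autoImplicit false

namespace Pool.Agent.PercL

open Finset Pool.Agent.Perc

namespace TubesAux

/-- An increasing event of probability at least `c` which depends on the faces of `S`. -/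
def Ok (W S : Finset (ℤ × ℤ)) (D : ℤ × ℤ → Bool) (c : ℝ) (A : Set Cfg) : Prop :=
  S ⊆ W ∧ DepOn S A ∧ IncD D A ∧ c ≤ pr W A

theorem Ok.inter {W S S' : Finset (ℤ × ℤ)} {D : ℤ × ℤ → Bool} {c c' : ℝ} {A A' : Set Cfg}
    (hc' : 0 ≤ c') (h : Ok W S D c A) (h' : Ok W S' D c' A') :
    Ok W (S ∪ S') D (c * c') (A ∩ A') := by
  obtain ⟨s1, d1, i1, p1⟩ := h
  obtain ⟨s2, d2, i2, p2⟩ := h'
  refine ⟨union_subset s1 s2, depOn_inter' (depOn_mono' d1 ?_) (depOn_mono' d2 ?_),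
    incD_inter' i1 i2, ?_⟩
  · exact coe_subset.2 subset_union_left
  · exact coe_subset.2 subset_union_right
  · exact (mul_le_mul p1 p2 hc' (pr_nonneg _ _)).trans
      (harris D (depOn_mono' d1 (coe_subset.2 s1)) (depOn_mono' d2 (coe_subset.2 s2)) i1 i2)

theorem ok_LR {k : ℕ} {c : ℝ} (hk : ∀ col x₀ x₁ y₀ y₁ : ℤ, x₀ < x₁ → y₀ < y₁ →
    x₁ - x₀ ≤ k * (y₁ - y₀) → c ≤ pr (RF x₀ x₁ y₀ y₁) (LR col x₀ x₁ y₀ y₁))
    {W : Finset (ℤ × ℤ)} (col : ℤ) {x₀ x₁ y₀ y₁ : ℤ} (hW : RF x₀ x₁ y₀ y₁ ⊆ W) (h1 : x₀ < x₁)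
    (h2 : y₀ < y₁) (h3 : x₁ - x₀ ≤ k * (y₁ - y₀)) :
    Ok W (RF x₀ x₁ y₀ y₁) (parD col) c (LR col x₀ x₁ y₀ y₁) :=
  ⟨hW, depOn_LR _ _ _ _ _, incD_LR _ _ _ _ _, by rw [pr_LR_window hW]; exact hk _ _ _ _ _ h1 h2 h3⟩

theorem ok_BT {k : ℕ} {c : ℝ} (hk : ∀ col x₀ x₁ y₀ y₁ : ℤ, x₀ < x₁ → y₀ < y₁ →
    y₁ - y₀ ≤ k * (x₁ - x₀) → c ≤ pr (RF x₀ x₁ y₀ y₁) (BT col x₀ x₁ y₀ y₁))
    {W : Finset (ℤ × ℤ)} (col : ℤ) {x₀ x₁ y₀ y₁ : ℤ} (hW : RF x₀ x₁ y₀ y₁ ⊆ W) (h1 : x₀ < x₁)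
    (h2 : y₀ < y₁) (h3 : y₁ - y₀ ≤ k * (x₁ - x₀)) :
    Ok W (RF x₀ x₁ y₀ y₁) (parD col) c (BT col x₀ x₁ y₀ y₁) :=
  ⟨hW, depOn_BT _ _ _ _ _, incD_BT' _ _ _ _ _, by rw [pr_BT_window hW]; exact hk _ _ _ _ _ h1 h2 h3⟩

end TubesAux

open TubesAux

theorem pr_Tubes (K : ℕ) : ∃ c : ℝ, 0 < c ∧ ∀ (a r x h x' h' : ℤ), 1 ≤ r → x + 9 * r ≤ x' →
    x' ≤ x + K * r → h ≤ h' → h' ≤ h + K * r → ∀ W : Finset (ℤ × ℤ),
      RF (x - 4 * r) (x' + 4 * r) (h - 4 * r) (h' + 4 * r) ⊆ W →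
        c ≤ pr W (Tubes a x h x' h' r) := by
  obtain ⟨c, hc, hl⟩ := rswF (K + 10)
  obtain ⟨b, hb, hv⟩ := rswF' (K + 10)
  refine ⟨(c * (b * (c * (b * (c * (b * c)))))) * (c * (b * (c * (b * (c * (b * c)))))),
    by positivity, ?_⟩
  intro a r x h x' h' hr hx1 hx2 hh1 hh2 W hW
  have hsub : ∀ x₀ x₁ y₀ y₁ : ℤ, x - 4 * r ≤ x₀ → x₁ ≤ x' + 4 * r → h - 4 * r ≤ y₀ →
      y₁ ≤ h' + 4 * r → RF x₀ x₁ y₀ y₁ ⊆ W := by
    intro x₀ x₁ y₀ y₁ h1 h2 h3 h4
    refine Subset.trans (fun f hf => ?_) hW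
    rw [mem_RFi] at hf ⊢
    omega
  have hL : ∀ col x₀ x₁ y₀ : ℤ, x - 4 * r ≤ x₀ → x₁ ≤ x' + 4 * r → h - 4 * r ≤ y₀ →
      y₀ + r ≤ h' + 4 * r → x₀ < x₁ → Ok W (RF x₀ x₁ y₀ (y₀ + r)) (parD col) c
        (LR col x₀ x₁ y₀ (y₀ + r)) := by
    intro col x₀ x₁ y₀ h1 h2 h3 h4 h5
    refine ok_LR hl col (hsub _ _ _ _ h1 h2 h3 h4) h5 (by omega) ?_
    have e : y₀ + r - y₀ = r := by ring
    rw [e]
    push_cast
    have e2 : ((K : ℤ) + 10) * r = K * r + 10 * r := by ring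
    rw [e2]
    omega
  have hV : ∀ col x₀ y₀ y₁ : ℤ, x - 4 * r ≤ x₀ → x₀ + r ≤ x' + 4 * r → h - 4 * r ≤ y₀ →
      y₁ ≤ h' + 4 * r → y₀ < y₁ → Ok W (RF x₀ (x₀ + r) y₀ y₁) (parD col) b
        (BT col x₀ (x₀ + r) y₀ y₁) := by
    intro col x₀ y₀ y₁ h1 h2 h3 h4 h5
    refine ok_BT hv col (hsub _ _ _ _ h1 h2 h3 h4) (by omega) h5 ?_
    have e : x₀ + r - x₀ = r := by ring
    rw [e]
    push_cast
    have e2 : ((K : ℤ) + 10) * r = K * r + 10 * r := by ring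
    rw [e2]
    omega
  -- the first family
  have A1 := hL a (x - 4 * r) (x + 5 * r) (h + 3 * r) (by omega) (by omega) (by omega) (by omega)
    (by omega)
  have A2 := hV a (x - 4 * r) (h - 4 * r) (h + 4 * r) (by omega) (by omega) (by omega) (by omega)
    (by omega)
  have A3 := hL a (x - 4 * r) x (h - 4 * r) (by omega) (by omega) (by omega) (by omega) (by omega)
  have A4 := hV a (x + 4 * r) (h + 3 * r) (h' + 4 * r) (by omega) (by omega) (by omega) (by omega)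
    (by omega)
  have A5 := hL a (x + 4 * r) (x' + 4 * r) (h' + 3 * r) (by omega) (by omega) (by omega) (by omega)
    (by omega)
  have A6 := hV a (x' + 3 * r) (h' - 4 * r) (h' + 4 * r) (by omega) (by omega) (by omega) (by omega)
    (by omega)
  have A7 := hL a x' (x' + 4 * r) (h' - 4 * r) (by omega) (by omega) (by omega) (by omega)
    (by omega)
  have B1 := hL (a + 1) (x - 2 * r) (x + 8 * r) (h - 2 * r) (by omega) (by omega) (by omega)
    (by omega) (by omega)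
  have B2 := hV (a + 1) (x - 2 * r) (h - 2 * r) (h + 2 * r) (by omega) (by omega) (by omega)
    (by omega) (by omega)
  have B3 := hL (a + 1) (x - 2 * r) x (h + r) (by omega) (by omega) (by omega) (by omega) (by omega)
  have B4 := hV (a + 1) (x + 7 * r) (h - 2 * r) (h' - r) (by omega) (by omega) (by omega) (by omega)
    (by omega)
  have B5 := hL (a + 1) (x + 7 * r) (x' + 2 * r) (h' - 2 * r) (by omega) (by omega) (by omega)
    (by omega) (by omega)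
  have B6 := hV (a + 1) (x' + r) (h' - 2 * r) (h' + 2 * r) (by omega) (by omega) (by omega)
    (by omega) (by omega)
  have B7 := hL (a + 1) x' (x' + 2 * r) (h' + r) (by omega) (by omega) (by omega) (by omega)
    (by omega)
  have hA := A1.inter (by positivity) (A2.inter (by positivity) (A3.inter (by positivity)
    (A4.inter (by positivity) (A5.inter (by positivity) (A6.inter (by positivity) A7)))))
  have hB := B1.inter (by positivity) (B2.inter (by positivity) (B3.inter (by positivity)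
    (B4.inter (by positivity) (B5.inter (by positivity) (B6.inter (by positivity) B7)))))
  obtain ⟨sA, dA, -, pA⟩ := hA
  obtain ⟨sB, dB, -, pB⟩ := hB
  have hdis := pr_inter_of_disjoint dA dB (by
    rw [Finset.disjoint_left]
    intro f hf hg
    simp only [mem_union, mem_RFi] at hf hg
    omega)
  rw [pr_eq_of_depOn dA sA] at pA
  rw [pr_eq_of_depOn dB sB] at pB
  have hfin := mul_le_mul pA pB (by positivity) (pr_nonneg _ _)
  rw [← hdis, ← pr_eq_of_depOn (S' := W) (depOn_inter' (depOn_mono' dA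
    (coe_subset.2 subset_union_left)) (depOn_mono' dB (coe_subset.2 subset_union_right)))
    (union_subset sA sB)] at hfin
  refine hfin.trans (pr_mono _ ?_)
  rintro ω ⟨⟨a1, a2, a3, a4, a5, a6, a7⟩, b1, b2, b3, b4, b5, b6, b7⟩
  have e1 : h + 3 * r + r = h + 4 * r := by ring
  have e2 : x - 4 * r + r = x - 3 * r := by ring
  have e3 : h - 4 * r + r = h - 3 * r := by ring
  have e4 : x + 4 * r + r = x + 5 * r := by ring
  have e5 : h' + 3 * r + r = h' + 4 * r := by ring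
  have e6 : x' + 3 * r + r = x' + 4 * r := by ring
  have e7 : h' - 4 * r + r = h' - 3 * r := by ring
  have f1 : h - 2 * r + r = h - r := by ring
  have f2 : x - 2 * r + r = x - r := by ring
  have f3 : h + r + r = h + 2 * r := by ring
  have f4 : x + 7 * r + r = x + 8 * r := by ring
  have f5 : h' - 2 * r + r = h' - r := by ring
  have f6 : x' + r + r = x' + 2 * r := by ring
  have f7 : h' + r + r = h' + 2 * r := by ring
  rw [e1] at a1
  rw [e2] at a2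
  rw [e3] at a3
  rw [e4] at a4
  rw [e5] at a5
  rw [e6] at a6
  rw [e7] at a7
  rw [f1] at b1
  rw [f2] at b2
  rw [f3] at b3
  rw [f4] at b4
  rw [f5] at b5
  rw [f6] at b6
  rw [f7] at b7
  exact ⟨⟨a1, a2, a3, a4, a5, a6, a7⟩, b1, b2, b3, b4, b5, b6, b7⟩

end Pool.Agent.PercL

end PartpercwLowTubes

section PartpercwLowVisit

/-!
# A remote unit edge is visited (task LowVisit)

`visit_ge`: `pr_mixC` with `S ξ = SQ ξ p d' s` (stopping by `SQ_stop`), `A = WestT a p d' s (4 r)`,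
`B ξ = Tubes a R h (p.1 - s) h' r` (`h'` chosen from `A`), `X` = the event on the right side;
`success`, `pr_Tubes K`.
-/

set_option autoImplicit false

namespace Pool.Agent.PercL

open Finset Pool.Agent.Perc

open Classical in
/-- The height of a far tip on the west side (zero if there is none). -/
noncomputable def hW (a : ℤ) (p : ℤ × ℤ) (d : Fin 4) (R ρ : ℤ) (ω : Cfg) : ℤ :=
  if H : ∃ h, (p.1 - R + (h + 1) - a) % 2 = 0 ∧ FT ω p d R ρ (p.1 - R, h, true) then H.choose else 0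

theorem hW_spec {a : ℤ} {p : ℤ × ℤ} {d : Fin 4} {R ρ : ℤ} {ω : Cfg} (h : ω ∈ WestT a p d R ρ) :
    (p.1 - R + (hW a p d R ρ ω + 1) - a) % 2 = 0 ∧
      FT ω p d R ρ (p.1 - R, hW a p d R ρ ω, true) := by
  have h' : ∃ h, (p.1 - R + (h + 1) - a) % 2 = 0 ∧ FT ω p d R ρ (p.1 - R, h, true) := h
  unfold hW
  rw [dif_pos h']
  exact h'.choose_spec

theorem visit_ge (K : ℕ) : ∃ c : ℝ, 0 < c ∧ ∀ (ω : Cfg) (a r s R h B : ℤ) (d d' : Fin 4)
    (p : ℤ × ℤ), (p.1 + p.2) % 2 = 0 → 1 ≤ r → 4 * r < R → 4 * r < s →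
    FT ω (0, 0) d R (4 * r) (R, h, true) → (R + (h + 1) - a) % 2 = 0 →
    R + 9 * r ≤ p.1 - s → p.1 - s ≤ R + K * r → h ≤ p.2 - s → p.2 + s ≤ h + K * r →
    p.1 + s + 4 * r ≤ B → p.2 + s + 4 * r ≤ B → R + 4 * r ≤ B →
    c * pr (QF (0, 0) B) (WestT a p d' s (4 * r)) ≤
      pr (QF (0, 0) B) {ξ | ue p d' ∈ MM (mixC (SQ ω (0, 0) d R) ω ξ) (QF (0, 0) B)
        (ue (0, 0) d)} := by
  obtain ⟨c, hc, hT⟩ := pr_Tubes K
  refine ⟨c, hc, ?_⟩
  intro ω a r s R h B d d' p hp hr hR hs hfar ha h1 h2 h3 h4 h5 h6 h7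
  have hh : -R ≤ h ∧ h < R := by
    have hb := hfar.2.1
    unfold BdE at hb
    simp at hb
    omega
  refine pr_mixC (fun ξ => SQ ξ p d' s) (fun ω₁ ω₂ hω => SQ_stop hω) (WestT a p d' s (4 * r)) _
    (fun ω₁ => Tubes a R h (p.1 - s) (hW a p d' s (4 * r) ω₁) r) ?_ ?_
  · intro ω₁ hω₁
    have hsp := (hW_spec hω₁).2
    have hb := hsp.2.1
    unfold BdE at hb
    simp at hb
    refine hT a r R h (p.1 - s) (hW a p d' s (4 * r) ω₁) hr h1 h2 (by omega) (by omega)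
      (QF (0, 0) B) ?_
    intro f hf
    have hf' : R - 4 * r ≤ f.1 ∧ f.1 < p.1 - s + 4 * r ∧ h - 4 * r ≤ f.2 ∧
        f.2 < hW a p d' s (4 * r) ω₁ + 4 * r := mem_RFi.1 hf
    exact mem_RFi.2 ⟨by simp only; omega, by simp only; omega, by simp only; omega,
      by simp only; omega⟩
  · intro ω₁ hω₁ ξ hξ
    have hsp := hW_spec hω₁
    exact success hp hr hR hs hfar ha hsp.2 hsp.1 h1 h3 h5 h6 h7 hξ

end Pool.Agent.PercL

end PartpercwLowVisit
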