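import Pool.Agent.Lib.MP_6bd702_z.Z103
import Pool.Agent.Lib.MP_6bd702_z.Z032
import Pool.Agent.Lib.MP_6bd702_z.Z017

/-!
# Close tips (task T_Close; uses the core of helper97, statement (A4) and (N))
-/

set_option autoImplicit false

namespace Pool.Agent.PercT

open Finset Pool.Agent.Perc

/-- A path of colour `col` from the square of radius `r` around `p` to the sphere of radius
`R`. -/
def ArmB (col : ℤ) (p : ℤ × ℤ) (r R : ℤ) : Set Cfg :=
  {ω | ∃ u v : ℤ × ℤ, |u.1 - p.1| ≤ r ∧ |u.2 - p.2| ≤ r ∧ (u.1 + u.2 - col) % 2 = 0 ∧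
    (|v.1 - p.1| = R ∨ |v.2 - p.2| = R) ∧
    Conn ω (RF (p.1 - R) (p.1 + R) (p.2 - R) (p.2 + R)) u v}

/-- The one arm bound (helper43). -/
def OneArm : Prop := ∃ C β : ℝ, 0 < C ∧ 0 < β ∧ ∀ (col : ℤ) (p : ℤ × ℤ) (r R : ℕ), 1 ≤ r →
  r ≤ R → pr (RF (p.1 - R) (p.1 + R) (p.2 - R) (p.2 + R)) (ArmB col p r R) ≤ C * ((r : ℝ) / R) ^ β

theorem bdy_iff {R : ℤ} {a : UE} : Bdy R a ↔ BdE (-R) R (-R) R a := by
  unfold Bdy BdE; tauto

section
variable {x₀ x₁ y₀ y₁ : ℤ} {ω : Cfg} {e t t' t'' : UE}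

/-- A tip different from `e`, if `e` is a boundary unit edge. -/
theorem reach_of_bd {s₀ : Bool} (hs : Tips.ahead (e, s₀) ∉ (RF x₀ x₁ y₀ y₁ : Set (ℤ × ℤ)))
    (ht : t ∈ MM ω (RF x₀ x₁ y₀ y₁) e) (hte : t ≠ e) (hb : BdE x₀ x₁ y₀ y₁ t) :
    ∃ d, Relation.ReflTransGen (Tips.R ω (RF x₀ x₁ y₀ y₁)) (e, !s₀) (t, d) ∧
      Tips.ahead (t, d) ∉ (RF x₀ x₁ y₀ y₁ : Set (ℤ × ℤ)) := by
  obtain ⟨s, d, h⟩ := Tips.reach ht
  have hss : s = !s₀ := by
    by_contra hne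
    have : s = s₀ := by cases s <;> cases s₀ <;> simp_all
    subst this
    rcases Relation.ReflTransGen.cases_head h with h' | ⟨D, hD, -⟩
    · simp only [Prod.mk.injEq] at h'
      exact hte h'.1.symm
    · exact hs hD.1
  subst hss
  refine ⟨d, h, ?_⟩
  rcases Relation.ReflTransGen.cases_tail h with h' | ⟨B, hB, hBF, hB2⟩
  · simp only [Prod.mk.injEq] at h'
    exact absurd h'.1 hte
  · have h1 : Tips.ahead (Tips.rv (t, d)) ∈ (RF x₀ x₁ y₀ y₁ : Set (ℤ × ℤ)) := by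
      rw [hB2, Tips.ahead_rv_nx]; exact hBF
    have h2 := Tips.ahead_bdE hb (!d) h1
    rwa [Bool.not_not] at h2

/-- The component meets the boundary in at most two unit edges, also if `e` is a boundary unit
edge. -/
theorem tips_le_two' (ht : t ∈ MM ω (RF x₀ x₁ y₀ y₁) e)
    (ht' : t' ∈ MM ω (RF x₀ x₁ y₀ y₁) e) (ht'' : t'' ∈ MM ω (RF x₀ x₁ y₀ y₁) e)
    (hb : BdE x₀ x₁ y₀ y₁ t) (hb' : BdE x₀ x₁ y₀ y₁ t') (hb'' : BdE x₀ x₁ y₀ y₁ t'') :
    t = t' ∨ t = t'' ∨ t' = t'' := by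
  by_cases he : BdE x₀ x₁ y₀ y₁ e
  · obtain ⟨s₀, hs⟩ : ∃ s₀, Tips.ahead (e, s₀) ∉ (RF x₀ x₁ y₀ y₁ : Set (ℤ × ℤ)) := by
      by_cases h : Tips.ahead (e, true) ∈ (RF x₀ x₁ y₀ y₁ : Set (ℤ × ℤ))
      · exact ⟨_, Tips.ahead_bdE he true h⟩
      · exact ⟨true, h⟩
    have key : ∀ {t t' : UE}, t ∈ MM ω (RF x₀ x₁ y₀ y₁) e → t' ∈ MM ω (RF x₀ x₁ y₀ y₁) e →
        BdE x₀ x₁ y₀ y₁ t → BdE x₀ x₁ y₀ y₁ t' → t ≠ e → t' ≠ e → t = t' := by
      intro t t' ht ht' hb hb' h h'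
      obtain ⟨d, h1, h2⟩ := reach_of_bd hs ht h hb
      obtain ⟨d', h1', h2'⟩ := reach_of_bd hs ht' h' hb'
      exact congrArg Prod.fst (Tips.eq_of_terminal h1 h1' h2 h2')
    by_cases h1 : t = e
    · by_cases h2 : t' = e
      · exact Or.inl (h1.trans h2.symm)
      · by_cases h3 : t'' = e
        · exact Or.inr (Or.inl (h1.trans h3.symm))
        · exact Or.inr (Or.inr (key ht' ht'' hb' hb'' h2 h3))
    · by_cases h2 : t' = e
      · by_cases h3 : t'' = e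
        · exact Or.inr (Or.inr (h2.trans h3.symm))
        · exact Or.inr (Or.inl (key ht ht'' hb hb'' h1 h3))
      · exact Or.inl (key ht ht' hb hb' h1 h2)
  · exact tips_le_two he ht ht' ht'' hb hb' hb''

/-- The number of tips is not one. -/
theorem exists_other (hx : x₀ < x₁) (hy : y₀ < y₁) (ht : t ∈ MM ω (RF x₀ x₁ y₀ y₁) e)
    (hb : BdE x₀ x₁ y₀ y₁ t) : ∃ t' ∈ MM ω (RF x₀ x₁ y₀ y₁) e, BdE x₀ x₁ y₀ y₁ t' ∧ t' ≠ t := by
  by_contra hcon
  push Not at hcon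
  obtain ⟨x, y, b⟩ := t
  set φ := potR ω x₀ x₁ y₀ y₁ e with hφ
  have hor : ∀ c, (c = y₀ ∨ c = y₁) → ∀ a b' : ℤ, x₀ ≤ a → a ≤ b' → b' ≤ x₁ →
      (∀ j, a ≤ j → j < b' → ((j, c, false) : UE) ≠ (x, y, b)) → φ (a, c) = φ (b', c) := by
    intro c hc a b' h1 h2 h3 h4
    refine seg_h (by omega) h1 h2 h3 fun j h5 h6 h7 => h4 j h5 h6 (hcon _ h7 ?_)
    exact Or.inl ⟨rfl, by simp only; omega, by simp only; omega, hc⟩
  have ver : ∀ c, (c = x₀ ∨ c = x₁) → ∀ a b' : ℤ, y₀ ≤ a → a ≤ b' → b' ≤ y₁ →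
      (∀ j, a ≤ j → j < b' → ((c, j, true) : UE) ≠ (x, y, b)) → φ (c, a) = φ (c, b') := by
    intro c hc a b' h1 h2 h3 h4
    refine seg_v (by omega) h1 h2 h3 fun j h5 h6 h7 => h4 j h5 h6 (hcon _ h7 ?_)
    exact Or.inr ⟨rfl, by simp only; omega, by simp only; omega, hc⟩
  unfold BdE at hb
  simp only at hb
  rcases hb with ⟨rfl, h1, h2, h3⟩ | ⟨rfl, h1, h2, h3⟩
  · have h0 : φ (x, y) ≠ φ (x + 1, y) :=
      (potR_joins (ω := ω) (e := e) (a := (x, y, false)) (p := (x, y)) (q := (x + 1, y))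
        (by simp [Joins, ua, ub]) (by unfold InR; simp only; omega)
        (by unfold InR; simp only; omega)).1 ht
    have l := ver x₀ (Or.inl rfl) y₀ y₁ le_rfl hy.le le_rfl (fun j _ _ => by simp)
    have r := ver x₁ (Or.inr rfl) y₀ y₁ le_rfl hy.le le_rfl (fun j _ _ => by simp)
    have a1 := hor y h3 x₀ x le_rfl h1 (by omega) (fun j _ h => by
      simp only [ne_eq, Prod.mk.injEq, not_and]; intro h'; omega)
    have a2 := hor y h3 (x + 1) x₁ (by omega) (by omega) le_rfl (fun j h _ => by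
      simp only [ne_eq, Prod.mk.injEq, not_and]; intro h'; omega)
    rcases h3 with rfl | rfl
    · have a3 := hor y₁ (Or.inr rfl) x₀ x₁ le_rfl hx.le le_rfl (fun j _ _ => by
        simp only [ne_eq, Prod.mk.injEq, not_and]; intro _ h'; omega)
      exact h0 (by rw [← a1, l, a3, ← r, ← a2])
    · have a3 := hor y₀ (Or.inl rfl) x₀ x₁ le_rfl hx.le le_rfl (fun j _ _ => by
        simp only [ne_eq, Prod.mk.injEq, not_and]; intro _ h'; omega)
      exact h0 (by rw [← a1, ← l, a3, r, ← a2])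
  · have h0 : φ (x, y) ≠ φ (x, y + 1) :=
      (potR_joins (ω := ω) (e := e) (a := (x, y, true)) (p := (x, y)) (q := (x, y + 1))
        (by simp [Joins, ua, ub]) (by unfold InR; simp only; omega)
        (by unfold InR; simp only; omega)).1 ht
    have l := hor y₀ (Or.inl rfl) x₀ x₁ le_rfl hx.le le_rfl (fun j _ _ => by simp)
    have r := hor y₁ (Or.inr rfl) x₀ x₁ le_rfl hx.le le_rfl (fun j _ _ => by simp)
    have a1 := ver x h3 y₀ y le_rfl h1 (by omega) (fun j _ h => by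
      simp only [ne_eq, Prod.mk.injEq, not_and]; intro _ h'; omega)
    have a2 := ver x h3 (y + 1) y₁ (by omega) (by omega) le_rfl (fun j h _ => by
      simp only [ne_eq, Prod.mk.injEq, not_and]; intro _ h'; omega)
    rcases h3 with rfl | rfl
    · have a3 := ver x₁ (Or.inr rfl) y₀ y₁ le_rfl hy.le le_rfl (fun j _ _ => by
        simp only [ne_eq, Prod.mk.injEq, not_and]; intro h'; omega)
      exact h0 (by rw [← a1, l, a3, ← r, ← a2])
    · have a3 := ver x₀ (Or.inl rfl) y₀ y₁ le_rfl hy.le le_rfl (fun j _ _ => by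
        simp only [ne_eq, Prod.mk.injEq, not_and]; intro h'; omega)
      exact h0 (by rw [← a1, ← l, a3, r, ← a2])

end

theorem InB.pos {R : ℤ} {e : UE} (he : InB R e) : 0 < R := by
  obtain ⟨x, y, b⟩ := e
  unfold InB InR at he
  cases b <;> simp [ua, ub] at he <;> omega

theorem joins_e (e : UE) : Joins e (ua e) (ub e) := Or.inl ⟨rfl, rfl⟩

/-- Two arms give exactly two tips. -/
theorem tips_of_arms {R : ℤ} {ω : Cfg} {e : UE} (he : InB R e) (h : ω ∈ Arm2 R e) :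
    ∃ x y : UE, x ≠ y ∧ Bdy R x ∧ Bdy R y ∧ x ∈ MM ω (RF (-R) R (-R) R) e ∧
      y ∈ MM ω (RF (-R) R (-R) R) e ∧
      ∀ a ∈ MM ω (RF (-R) R (-R) R) e, Bdy R a → a = x ∨ a = y := by
  have hR := he.pos
  obtain ⟨x, hx, hxb⟩ := exists_tip (joins_e e) he.1 he.2 (by omega) (by omega) h.1 h.2
  obtain ⟨y, hy, hyb, hxy⟩ := exists_other (by omega) (by omega) hx hxb
  refine ⟨x, y, hxy.symm, bdy_iff.2 hxb, bdy_iff.2 hyb, hx, hy, fun a ha hab => ?_⟩
  rcases tips_le_two' hx hy ha hxb hyb (bdy_iff.1 hab) with h1 | h1 | h1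
  · exact absurd h1.symm hxy
  · exact Or.inl h1.symm
  · exact Or.inr h1.symm

theorem arms_of_tip {R : ℤ} {ω : Cfg} {e x : UE} (he : InB R e) (hx : Bdy R x)
    (h : x ∈ MM ω (RF (-R) R (-R) R) e) : ω ∈ Arm2 R e := by
  have hR := he.pos
  exact ⟨toBd_of_tip (joins_e e) h (bdy_iff.1 hx) (by omega) (by omega),
    toBd_of_tip (joins_e e).symm h (bdy_iff.1 hx) (by omega) (by omega)⟩

/-- A tip which is not far is in the ball of radius `g`. -/
theorem wi_of_not_far {g : ℤ} {a x : UE} (h : ¬ Far g a x) :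
    Wi g (ua x) (ua a) ∧ Wi g (ua x) (ub a) := by
  obtain ⟨a1, a2, b⟩ := a
  obtain ⟨x1, x2, b'⟩ := x
  unfold Far at h
  unfold Wi
  cases b <;> cases b' <;>
    simp only [mid, ua, ub, if_true, Bool.false_eq_true, if_false, not_or, not_le, abs_lt] at h ⊢ <;>
    omega

/-- Close tips: the fresh configuration has an arm. -/
theorem close_det {R g : ℤ} (hg : 1 ≤ g) (hgR : 4 * g ≤ R) {ω ξ : Cfg} {e : UE} (he : InB R e)
    {x : UE} (hx : Bdy R x) (hxM : x ∈ MM ω (RF (-R) R (-R) R) e)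
    (h1 : ∀ a ∈ MM ω (RF (-R) R (-R) R) e, Bdy R a → ¬ Far g a x)
    (h2 : mix (SS ω (RF (-R) R (-R) R) e) ω ξ ∈ Arm2 (2 * R) e) :
    ∃ col, (col = 0 ∨ col = 1) ∧ ξ ∈ ArmB col (ua x) (g + 1) R := by
  have hR := he.pos
  set S := SS ω (RF (-R) R (-R) R) e with hS
  have hcl : Close ω (-R) R (-R) R e g (ua x) := fun a ha hb =>
    wi_of_not_far (h1 a ha (bdy_iff.2 hb))
  have hxin : InR (-R) R (-R) R (ua x) := by
    obtain ⟨x1, x2, b⟩ := x
    unfold Bdy at hx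
    unfold InR
    cases b <;> simp [ua] at hx ⊢ <;> omega
  have hmS : ∀ f ∈ S, mix S ω ξ f = ω f := fun f hf => by unfold mix; rw [if_pos hf]
  -- the main step for one end `u` of `e`
  have main : ∀ u v : ℤ × ℤ, Joins e u v → InR (-R) R (-R) R u → InR (-R) R (-R) R v →
      ToBd (-(2 * R)) (2 * R) (-(2 * R)) (2 * R) (mix S ω ξ) u →
      (∀ w, OnBd (-R) R (-R) R w → potR ω (-R) R (-R) R e w = potR ω (-R) R (-R) R e u →
        Wi g (ua x) w) →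
      ∃ col, (col = 0 ∨ col = 1) ∧ ξ ∈ ArmB col (ua x) (g + 1) R := by
    intro u v hj hu hv harm hY
    obtain ⟨z, hz, hzb⟩ := harm
    have hzR : ¬ InR (-R) R (-R) R z := by
      unfold OnBd at hzb; unfold InR; omega
    obtain ⟨y, hy, hc⟩ := near (G := (RF (-(2 * R)) (2 * R) (-(2 * R)) (2 * R) : Set (ℤ × ℤ)))
      hj hu hv (Y := {w | Wi g (ua x) w}) (fun w h3 h4 _ => hY w h3 h4) hmS hzR hz
    have hc' : Conn ξ ((RF (-(2 * R)) (2 * R) (-(2 * R)) (2 * R) : Set (ℤ × ℤ)) \ S) y z :=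
      GridA.conn_congr _ (fun f hf => by unfold mix; rw [if_neg hf.2]) hc
    have hyW : Wi g (ua x) y := hy
    unfold Wi at hyW
    obtain ⟨w, hw, hwb⟩ := hc'.toBd (x₀ := (ua x).1 - R) (x₁ := (ua x).1 + R)
      (y₀ := (ua x).2 - R) (y₁ := (ua x).2 + R) (by omega) (by
        unfold OnBd at hzb; unfold InR at hxin; omega)
    refine ⟨(y.1 + y.2) % 2, by omega, y, w, by rw [abs_le]; omega, by rw [abs_le]; omega,
      by omega, ?_, hw.mono Set.inter_subset_right⟩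
    unfold OnBd at hwb
    rcases hwb.1 with h | h | h | h
    · left; rw [h]; rw [show (ua x).1 - R - (ua x).1 = -R by ring, abs_neg, abs_of_pos hR]
    · left; rw [h]; rw [show (ua x).1 + R - (ua x).1 = R by ring, abs_of_pos hR]
    · right; rw [h]; rw [show (ua x).2 - R - (ua x).2 = -R by ring, abs_neg, abs_of_pos hR]
    · right; rw [h]; rw [show (ua x).2 + R - (ua x).2 = R by ring, abs_of_pos hR]
  rcases close_side (joins_e e) he.1 he.2 hcl (by omega) (by omega) (by omega) (by omega) with h | h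
  · exact main _ _ (joins_e e) he.1 he.2 h2.1 h
  · exact main _ _ (joins_e e).symm he.2 he.1 h2.2 h

theorem depOn_arm2 (R : ℤ) (e : UE) : DepOn (RF (-R) R (-R) R : Set (ℤ × ℤ)) (Arm2 R e) := by
  intro ω ω' h
  simp only [Arm2, ToBd, Set.mem_ofPred_eq, GridA.conn_iff _ h]

theorem depOn_armB (col : ℤ) (p : ℤ × ℤ) (r R : ℤ) :
    DepOn (RF (p.1 - R) (p.1 + R) (p.2 - R) (p.2 + R) : Set (ℤ × ℤ)) (ArmB col p r R) := by
  intro ω ω' h
  simp only [ArmB, Set.mem_ofPred_eq, GridA.conn_iff _ h]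

theorem InB.toBd {R : ℤ} {ω : Cfg} {u : ℤ × ℤ} (hu : InR (-R) R (-R) R u)
    (h : ToBd (-(2 * R)) (2 * R) (-(2 * R)) (2 * R) ω u) :
    ToBd (-R) R (-R) R ω u := by
  obtain ⟨v, hv, hvb⟩ := h
  obtain ⟨w, hw, hwb⟩ := hv.toBd (x₀ := -R) (x₁ := R) (y₀ := -R) (y₁ := R)
    (by unfold InR at hu; exact hu) (by unfold OnBd at hvb; omega)
  exact ⟨w, hw.mono Set.inter_subset_right, hwb⟩

theorem arm2_mono {R : ℤ} {e : UE} (he : InB R e) {ω : Cfg} (h : ω ∈ Arm2 (2 * R) e) :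
    ω ∈ Arm2 R e :=
  ⟨InB.toBd he.1 h.1, InB.toBd he.2 h.2⟩

theorem pr_armB_le (harm : OneArm) {q : ℝ} (hq : 0 < q) : ∃ M : ℕ, 4 ≤ M ∧ ∀ g R : ℕ, 1 ≤ g →
    M * g ≤ R → ∀ (col : ℤ) (p : ℤ × ℤ), InR (-R) R (-R) R p →
    pr (RF (-(2 * R)) (2 * R) (-(2 * R)) (2 * R)) (ArmB col p (g + 1) R) ≤ q / 2 := by
  obtain ⟨C, β, hC, hβ, H⟩ := harm
  set δ : ℝ := (q / (2 * C)) ^ (1 / β) with hδ
  have hδ0 : 0 < δ := by positivity
  have hδβ : C * δ ^ β = q / 2 := by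
    rw [hδ, ← Real.rpow_mul (by positivity), one_div, inv_mul_cancel₀ hβ.ne', Real.rpow_one]
    field_simp
  refine ⟨⌈2 / δ⌉₊ + 4, by omega, fun g R hg hR col p hp => ?_⟩
  have hM : 2 / δ ≤ ((⌈2 / δ⌉₊ + 4 : ℕ) : ℝ) := by
    push_cast
    have := Nat.le_ceil (2 / δ)
    linarith
  have hR0 : g + 1 ≤ R := by nlinarith
  have hRpos : (0 : ℝ) < R := by
    have : 0 < R := by omega
    exact_mod_cast this
  have h1 := pr_eq_of_depOn (S' := RF (-(2 * (R : ℤ))) (2 * R) (-(2 * R)) (2 * R))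
    (depOn_armB col p (g + 1) R) (by
      intro f hf
      simp only [RF, mem_product, mem_Ico] at hf ⊢
      unfold InR at hp
      omega)
  rw [h1]
  have h2 := H col p (g + 1) R (by omega) hR0
  have h3 : (((g + 1 : ℕ) : ℝ)) / R ≤ δ := by
    rw [div_le_iff₀ hRpos]
    have h4 : ((⌈2 / δ⌉₊ + 4 : ℕ) : ℝ) * g ≤ R := by exact_mod_cast hR
    have hg1 : (1 : ℝ) ≤ g := by exact_mod_cast hg
    have h5 : 2 / δ * g ≤ R := le_trans (mul_le_mul_of_nonneg_right hM (by linarith)) h4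
    have h6 : 2 * (g : ℝ) ≤ δ * R := by
      have := mul_le_mul_of_nonneg_left h5 hδ0.le
      calc 2 * (g : ℝ) = δ * (2 / δ * g) := by field_simp
        _ ≤ δ * R := this
    push_cast
    linarith
  push_cast at h2
  refine h2.trans ?_
  rw [← hδβ]
  refine mul_le_mul_of_nonneg_left (Real.rpow_le_rpow (by positivity) ?_ hβ.le) hC.le
  push_cast at h3
  exact h3

theorem close_prob (harm : OneArm) {q : ℝ} (hq : 0 < q) : ∃ M : ℕ, 0 < M ∧ ∀ g R : ℕ, 1 ≤ g →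
    M * g ≤ R → ∀ e : UE, InB R e →
    pr (RF (-(2 * R)) (2 * R) (-(2 * R)) (2 * R)) (Arm2 (2 * R) e ∩ (Sep R g e)ᶜ) ≤
      q * pr (RF (-R) R (-R) R) (Arm2 R e) := by
  classical
  obtain ⟨M, hM, H⟩ := pr_armB_le harm hq
  refine ⟨M, by omega, fun g R hg hR e he => ?_⟩
  have hgR : 4 * g ≤ R := le_trans (Nat.mul_le_mul_right g hM) hR
  have hR0 := he.pos
  set A : Set Cfg := Arm2 R e ∩ (Sep R g e)ᶜ with hA
  -- the chosen tip
  have tip : ∀ ω ∈ A, ∃ x, Bdy R x ∧ x ∈ MM ω (RF (-(R : ℤ)) R (-R) R) e ∧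
      ∀ a ∈ MM ω (RF (-(R : ℤ)) R (-R) R) e, Bdy R a → ¬ Far g a x := by
    rintro ω ⟨hω, hs⟩
    obtain ⟨x, y, hxy, hx, hy, hxM, hyM, hall⟩ := tips_of_arms he hω
    refine ⟨x, hx, hxM, fun a ha hab hfar => hs ?_⟩
    rcases hall a ha hab with rfl | rfl
    · exfalso
      unfold Far at hfar
      simp only [sub_self, abs_zero] at hfar
      omega
    · refine ⟨x, hxM, hx, fun b hb hbb hbx => ?_⟩
      rcases hall b hb hbb with rfl | rfl
      · exact absurd rfl hbx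
      · exact hfar
  choose! x hx hxM hfar using tip
  have hmix := pr_mix_le (W := RF (-(2 * (R : ℤ))) (2 * R) (-(2 * R)) (2 * R))
    (S := fun ω => SS ω (RF (-(R : ℤ)) R (-R) R) e) (fun ω ω' h => SS_congr h) (A := A)
    (fun ω hω ω' h => by
      have hMM := MM_congr (F := (RF (-(R : ℤ)) R (-R) R : Set (ℤ × ℤ))) (e := e) h
      refine ⟨arms_of_tip he (hx ω hω) (by rw [hMM]; exact hxM ω hω), fun hs => hω.2 ?_⟩
      unfold Sep at hs ⊢
      rw [Set.mem_ofPred_eq] at hs ⊢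
      rw [hMM] at hs
      exact hs)
    (fun ω => ArmB 0 (ua (x ω)) (g + 1) R ∪ ArmB 1 (ua (x ω)) (g + 1) R) (Arm2 (2 * R) e)
    (q := q) (fun ω hω => ?_) (fun ω hω ξ hξ => ?_)
  · calc pr (RF (-(2 * (R : ℤ))) (2 * R) (-(2 * R)) (2 * R)) (Arm2 (2 * R) e ∩ (Sep R g e)ᶜ)
        ≤ pr (RF (-(2 * (R : ℤ))) (2 * R) (-(2 * R)) (2 * R)) (A ∩ Arm2 (2 * R) e) :=
          pr_mono _ fun ω h => ⟨⟨arm2_mono he h.1, h.2⟩, h.1⟩
      _ ≤ q * pr (RF (-(2 * (R : ℤ))) (2 * R) (-(2 * R)) (2 * R)) A := hmix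
      _ ≤ q * pr (RF (-(2 * (R : ℤ))) (2 * R) (-(2 * R)) (2 * R)) (Arm2 R e) :=
          mul_le_mul_of_nonneg_left (pr_mono _ fun ω h => h.1) hq.le
      _ = q * pr (RF (-(R : ℤ)) R (-R) R) (Arm2 R e) := by
          rw [pr_eq_of_depOn (depOn_arm2 R e) (by
            intro f hf
            simp only [RF, mem_product, mem_Ico] at hf ⊢
            omega)]
  · have hin : InR (-(R : ℤ)) R (-R) R (ua (x ω)) := by
      have := hx ω hω
      unfold Bdy at this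
      unfold InR ua
      omega
    refine (pr_union_le _ _ _).trans ?_
    have h0 := H g R hg hR 0 _ hin
    have h1 := H g R hg hR 1 _ hin
    linarith
  · obtain ⟨col, hcol, h⟩ := close_det (by exact_mod_cast hg) (by exact_mod_cast hgR) he (hx ω hω)
      (hxM ω hω) (hfar ω hω) hξ
    rcases hcol with rfl | rfl
    · exact Or.inl h
    · exact Or.inr h

end Pool.Agent.PercT
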