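import Pool.Agent.Lib.MP_6bd702_z.Z028

section PartpercAnnDefs

/-!
# Link patterns on the half-infinite cylinder: definitions

A state is a link pattern together with a label of the arcs: the arc of `x` has the label `true` if
it separates the seam (the gap `0`) from the point at infinity of the cylinder. The point at
infinity lies in the region of some gap `g`, and the arcs with label `true` are those which enclose
`g`.
-/

set_option autoImplicit false

namespace Pool.Agent.Perc

open Finset Function

/-- States: a link pattern and the labels. -/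
abbrev St := (ℕ → ℕ) × (ℕ → Bool)

/-- The Temperley-Lieb generator on states. -/
def eL (i : ℕ) (s : St) : St :=
  (eAct i s.1, fun x => if x = i ∨ x = i + 1 then false
    else if s.1 x = i ∨ s.1 x = i + 1 then xor (s.2 i) (s.2 (i + 1)) else s.2 x)

/-- A new strand across the seam. -/
def cupL (L : ℕ) (s : St) : St :=
  (cupO L s.1, fun x => if x = 0 ∨ x = L + 1 then true
    else if x < L + 1 then s.2 (x - 1) else false)

/-- Forget the last two sites. -/
def resL (L : ℕ) (s : St) : St := (resP L s.1, fun x => if x < L then s.2 x else false)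

/-- The faces `0, …, k - 1` of a row; `w i = true` if the face `i` acts by `e_i`. -/
def rowL (w : ℕ → Bool) : ℕ → St → St
  | 0, s => s
  | k + 1, s => if w k then eL k (rowL w k s) else rowL w k s

/-- One row of the cylinder of circumference `L`. -/
def trow (L : ℕ) (w : ℕ → Bool) (s : St) : St := resL L (eL L (rowL w L (cupL L s)))

/-- The gap `g` marks the region of the point at infinity. -/
def Marks (N : ℕ) (s : St) (g : ℕ) : Prop :=
  g ≤ N ∧ ∀ x < N, (s.2 x = true ↔ ¬ (x < g ↔ s.1 x < g))

structure IsAnn (N : ℕ) (s : St) : Prop where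
  nc : NC N s.1
  out : ∀ x, N ≤ x → s.2 x = false
  mark : ∃ g, Marks N s g

open Classical in
/-- `1` if the gap `0` is not separated from infinity. -/
noncomputable def v0 (s : St) : ℂ := if s.2 = fun _ => false then 1 else 0

/-- Average over the configurations of a row. -/
noncomputable def avgL (L : ℕ) (f : St → ℂ) (s : St) : ℂ :=
  (∑ T ∈ (range L).powerset, f (trow L (fun k => decide (k ∈ T)) s)) / 2 ^ L

/-- The initial state. -/
def s0 (L : ℕ) : St := (flatE L, fun _ => false)

/-- How the marked gap moves under `e_i`. -/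
def gmove (i : ℕ) (p : ℕ → ℕ) (g : ℕ) : ℕ :=
  if g ≠ i + 1 then g else if p i = i + 1 then i else p (i + 1) + 1

end Pool.Agent.Perc

end PartpercAnnDefs

section PartpercAnnA

/-!
# States on the cylinder (task AnnA)
-/

set_option autoImplicit false

namespace Pool.Agent.Perc

open Finset Function

variable {N L : ℕ} {s : St}

/-- The case of a marked gap which is not covered. -/
theorem AnnA.marks_eL_of_ne (h : NC N s.1) {i : ℕ} (hi : i + 1 < N) {g : ℕ} (hg : Marks N s g)
    (hgi : g ≠ i + 1) : Marks N (eL i s) g := by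
  obtain ⟨h1, h2⟩ := hg
  refine ⟨h1, fun x hx => ?_⟩
  have hii : (i < g ↔ i + 1 < g) := by omega
  have e1 := h2 i (by omega)
  have e2 := h2 (i + 1) hi
  have e3 := h2 x hx
  have i1 := h.inv i
  have i2 := h.inv (i + 1)
  have i3 := h.inv x
  unfold eL eAct
  dsimp only
  by_cases hx1 : x = i
  · subst hx1
    simp only [true_or, if_true, Bool.false_eq_true, false_iff, not_not]
    exact hii
  · by_cases hx2 : x = i + 1
    · subst hx2
      simp only [or_true, if_true, Bool.false_eq_true, false_iff, not_not,
        if_neg (Nat.succ_ne_self i)]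
      exact hii.symm
    · rw [if_neg (by tauto), if_neg hx1, if_neg hx2]
      by_cases hx3 : s.1 x = i
      · rw [if_pos (Or.inl hx3), if_pos hx3]
        have hx4 : s.1 i = x := by rw [← hx3, i3]
        rw [hx4] at e1
        cases hb : s.2 i <;> cases hb' : s.2 (i + 1) <;>
          rw [hb] at e1 <;> rw [hb'] at e2 <;> simp at e1 e2 ⊢ <;> tauto
      · by_cases hx4 : s.1 x = i + 1
        · rw [if_pos (Or.inr hx4), if_neg hx3, if_pos hx4]
          have hx5 : s.1 (i + 1) = x := by rw [← hx4, i3]
          rw [hx5] at e2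
          cases hb : s.2 i <;> cases hb' : s.2 (i + 1) <;>
            rw [hb] at e1 <;> rw [hb'] at e2 <;> simp at e1 e2 ⊢ <;> tauto
        · rw [if_neg (by tauto), if_neg hx3, if_neg hx4]
          exact e3

theorem marks_eL (h : NC N s.1) {i : ℕ} (hi : i + 1 < N) {g : ℕ} (hg : Marks N s g) :
    Marks N (eL i s) (gmove i s.1 g) := by
  by_cases hgi : g = i + 1
  swap
  · have : gmove i s.1 g = g := by
      unfold gmove
      rw [if_pos hgi]
    rw [this]
    exact AnnA.marks_eL_of_ne h hi hg hgi
  · by_cases hp : s.1 i = i + 1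
    · have : gmove i s.1 g = i := by
        unfold gmove
        rw [if_neg (by simp [hgi]), if_pos hp]
      rw [this]
      obtain ⟨h1, h2⟩ := hg
      refine ⟨by omega, fun x hx => ?_⟩
      have i3 := h.inv x
      have e3 := h2 x hx
      unfold eL eAct
      dsimp only
      by_cases hx1 : x = i
      · subst hx1
        simp
      · by_cases hx2 : x = i + 1
        · subst hx2
          simp
        · have hp' : s.1 (i + 1) = i := by rw [← hp, h.inv]
          have hx3 : s.1 x ≠ i := by
            intro hx3
            rw [hx3, hp] at i3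
            exact hx2 i3.symm
          have hx4 : s.1 x ≠ i + 1 := by
            intro hx4
            rw [hx4, hp'] at i3
            exact hx1 i3.symm
          rw [if_neg (by tauto), if_neg (by tauto), if_neg hx1, if_neg hx2, if_neg hx3,
            if_neg hx4, e3, hgi]
          have a1 : x < i + 1 ↔ x < i := by omega
          have a2 : s.1 x < i + 1 ↔ s.1 x < i := by omega
          rw [a1, a2]
    · have : gmove i s.1 g = s.1 (i + 1) + 1 := by
        unfold gmove
        rw [if_neg (by simp [hgi]), if_neg hp]
      rw [this]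
      apply AnnA.marks_eL_of_ne h hi
      · obtain ⟨h1, h2⟩ := hg
        have hl := h.lt (i + 1) hi
        refine ⟨by omega, fun x hx => ?_⟩
        rw [h2 x hx, hgi, not_iff_not]
        exact h.geq_partner hi x hx
      · intro h3
        have h4 : s.1 (i + 1) = i := by omega
        have h5 := h.inv (i + 1)
        rw [h4] at h5
        exact hp h5

theorem marks_cupL (h : NC L s.1) {g : ℕ} (hg : Marks L s g) :
    Marks (L + 2) (cupL L s) (g + 1) := by
  obtain ⟨h1, h2⟩ := hg
  refine ⟨by omega, fun x hx => ?_⟩
  unfold cupL cupO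
  dsimp only
  by_cases hx1 : x = 0
  · subst hx1
    simp
    omega
  · by_cases hx2 : x = L + 1
    · subst hx2
      simp
      omega
    · have hx3 : x < L + 1 := by omega
      rw [if_neg (by tauto), if_pos hx3, if_neg hx1, if_neg hx2, if_pos hx3,
        h2 (x - 1) (by omega), not_iff_not]
      have a1 : x < g + 1 ↔ x - 1 < g := by omega
      have a2 : s.1 (x - 1) + 1 < g + 1 ↔ s.1 (x - 1) < g := by omega
      rw [a1, a2]

theorem marks_resL (h : NC (L + 2) s.1) (hp : s.1 L = L + 1) (hc : s.2 L = false) {g : ℕ}
    (hg : Marks (L + 2) s g) : Marks L (resL L s) (min g L) := by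
  obtain ⟨h1, h2⟩ := hg
  refine ⟨min_le_right _ _, fun x hx => ?_⟩
  have hp' : s.1 (L + 1) = L := by rw [← hp, h.inv]
  have hl := h.lt x (by omega)
  have i3 := h.inv x
  have hx3 : s.1 x ≠ L := by
    intro hx3
    rw [hx3, hp] at i3
    omega
  have hx4 : s.1 x ≠ L + 1 := by
    intro hx4
    rw [hx4, hp'] at i3
    omega
  unfold resL resP
  dsimp only
  rw [if_pos hx, if_pos hx, h2 x (by omega), not_iff_not]
  have a1 : x < min g L ↔ x < g := by omega
  have a2 : s.1 x < min g L ↔ s.1 x < g := by omega
  rw [a1, a2]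

theorem IsAnn.eL (h : IsAnn N s) {i : ℕ} (hi : i + 1 < N) : IsAnn N (eL i s) := by
  refine ⟨h.nc.eAct hi, fun x hx => ?_, ?_⟩
  · have h1 := h.nc.out x hx
    have h2 := h.out x hx
    unfold Perc.eL
    dsimp only
    rw [if_neg (by omega), if_neg (by omega), h2]
  · obtain ⟨g, hg⟩ := h.mark
    exact ⟨_, marks_eL h.nc hi hg⟩

theorem IsAnn.cupL (h : IsAnn L s) : IsAnn (L + 2) (cupL L s) := by
  refine ⟨h.nc.cupO, fun x hx => ?_, ?_⟩
  · unfold Perc.cupL
    dsimp only
    rw [if_neg (by omega), if_neg (by omega)]
  · obtain ⟨g, hg⟩ := h.mark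
    exact ⟨_, marks_cupL h.nc hg⟩

theorem IsAnn.resL (h : IsAnn (L + 2) s) (hp : s.1 L = L + 1) (hc : s.2 L = false) :
    IsAnn L (resL L s) := by
  refine ⟨h.nc.resP hp, fun x hx => ?_, ?_⟩
  · unfold Perc.resL
    dsimp only
    rw [if_neg (by omega)]
  · obtain ⟨g, hg⟩ := h.mark
    exact ⟨_, marks_resL h.nc hp hc hg⟩

theorem IsAnn.rowL (h : IsAnn (L + 2) s) (w : ℕ → Bool) {k : ℕ} (hk : k ≤ L) :
    IsAnn (L + 2) (rowL w k s) := by
  induction k with
  | zero => exact h
  | succ k ih =>
    have h1 := ih (by omega)
    unfold Perc.rowL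
    split_ifs
    · exact h1.eL (by omega)
    · exact h1

theorem IsAnn.trow (h : IsAnn L s) (w : ℕ → Bool) : IsAnn L (trow L w s) := by
  unfold Perc.trow
  refine IsAnn.resL ((h.cupL.rowL w le_rfl).eL (by omega)) ?_ ?_
  · simp [Perc.eL, eAct]
  · simp [Perc.eL]

theorem isAnn_s0 {L : ℕ} (hL : L % 2 = 0) : IsAnn L (s0 L) := by
  refine ⟨nc_flatE hL, fun _ _ => rfl, 0, Nat.zero_le _, fun x _ => ?_⟩
  simp [s0]

end Pool.Agent.Perc

end PartpercAnnA

section PartpercAnnB

/-!
# Reset and loss of memory (task AnnB)
-/

set_option autoImplicit false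

namespace Pool.Agent.Perc

open Finset Function

variable {N L : ℕ} {s : St}

namespace AnnB

/-- site `x` is matched as in `flatE` and has label `false` -/
def Good (x : ℕ) (t : St) : Prop := t.1 x = (if x % 2 = 0 then x + 1 else x - 1) ∧ t.2 x = false

lemma good_eL {i x : ℕ} {t : St} (hi : i % 2 = 0) (hx : x < i) (h : Good x t) : Good x (eL i t) := by
  obtain ⟨h1, h2⟩ := h
  have h3 : t.1 x < i := by
    rw [h1]
    split_ifs with h <;> omega
  unfold Good eL eAct
  simp only
  constructor
  · rw [if_neg (by omega), if_neg (by omega), if_neg (by omega), if_neg (by omega), h1]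
  · rw [if_neg (by omega), if_neg (by omega), h2]

lemma good_new {i x : ℕ} {t : St} (hi : i % 2 = 0) (hx : i ≤ x) (hx2 : x < i + 2) :
    Good x (eL i t) := by
  unfold Good eL eAct
  simp only
  have hcase : x = i ∨ x = i + 1 := by omega
  rcases hcase with rfl | rfl
  · rw [if_pos rfl, if_pos hi, if_pos (Or.inl rfl)]
    exact ⟨rfl, rfl⟩
  · rw [if_neg (by omega), if_pos rfl, if_neg (by omega), if_pos (Or.inr rfl)]
    exact ⟨by omega, rfl⟩

lemma good_rowL (t : St) (k : ℕ) : ∀ x, x < k → Good x (rowL (fun k => decide (k % 2 = 0)) k t) := by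
  -- sites below `k` rounded up to an even number
  have h : ∀ k x, x < k + k % 2 → Good x (rowL (fun k => decide (k % 2 = 0)) k t) := by
    intro k
    induction k with
    | zero => intro x hx; omega
    | succ k ih =>
      intro x hx
      simp only [rowL]
      by_cases hk : k % 2 = 0
      · rw [if_pos (by simpa using hk)]
        rcases lt_or_ge x k with hxk | hxk
        · exact good_eL hk hxk (ih x (by omega))
        · exact good_new hk hxk (by omega)
      · rw [if_neg (by simpa using hk)]
        exact ih x (by omega)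
  intro x hx
  exact h k x (by omega)

lemma rowL_congr {w w' : ℕ → Bool} {k : ℕ} (h : ∀ j < k, w j = w' j) (t : St) :
    rowL w k t = rowL w' k t := by
  induction k with
  | zero => rfl
  | succ k ih =>
    simp only [rowL]
    rw [ih fun j hj => h j (by omega), h k (by omega)]

lemma trow_congr {w w' : ℕ → Bool} (h : ∀ j < L, w j = w' j) (t : St) :
    trow L w t = trow L w' t := by
  unfold trow
  rw [rowL_congr h]

end AnnB

open AnnB

/-- The alternating row resets the state. -/
theorem trow_reset (h : IsAnn L s) :
    trow L (fun k => decide (k % 2 = 0)) s = s0 L := by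
  have hL : L % 2 = 0 := h.nc.even
  have hg : ∀ x, x < L → Good x (eL L (rowL (fun k => decide (k % 2 = 0)) L (cupL L s))) :=
    fun x hx => good_eL hL hx (good_rowL _ L x hx)
  unfold trow resL s0
  refine Prod.ext ?_ ?_
  · funext x
    unfold resP flatE
    simp only
    split_ifs with h1 h2 h3 h4
    · omega
    · have := (hg x h1).1
      rwa [if_pos h3] at this
    · have := (hg x h1).1
      rwa [if_neg h3] at this
    · rfl
    · omega
    · omega
  · funext x
    simp only
    split_ifs with h1
    · exact (hg x h1).2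
    · rfl

namespace AnnB

lemma norm_v0_sub_le (s s' : St) : ‖v0 s - v0 s'‖ ≤ 1 := by
  unfold v0
  split_ifs <;> simp

end AnnB

/-- Doeblin's argument: the dependence on the initial state is forgotten. -/
theorem avgL_iterate_sub_le {s s' : St} (h : IsAnn L s) (h' : IsAnn L s') (M : ℕ) :
    ‖((avgL L)^[M] v0) s - ((avgL L)^[M] v0) s'‖ ≤ (1 - 1 / 2 ^ L) ^ M := by
  induction M generalizing s s' with
  | zero => simpa using norm_v0_sub_le s s'
  | succ M ih =>
    rw [Function.iterate_succ_apply']
    set f := (avgL L)^[M] v0 with hf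
    unfold avgL
    rw [← sub_div, ← Finset.sum_sub_distrib]
    set T0 : Finset ℕ := (range L).filter (fun k => k % 2 = 0) with hT0
    have hT0m : T0 ∈ (range L).powerset := by
      rw [Finset.mem_powerset]
      exact Finset.filter_subset _ _
    have hreset : ∀ t : St, IsAnn L t → trow L (fun k => decide (k ∈ T0)) t = s0 L := by
      intro t ht
      rw [← trow_reset ht]
      refine trow_congr (fun j hj => ?_) t
      simp [hT0, hj]
    have hpow : (0 : ℝ) ≤ 1 - 1 / 2 ^ L := by
      rw [sub_nonneg, div_le_one (by positivity)]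
      exact one_le_pow₀ (by norm_num)
    rw [norm_div]
    have h2 : ‖(2 : ℂ) ^ L‖ = 2 ^ L := by simp
    rw [h2, div_le_iff₀ (by positivity)]
    have h3 : ‖∑ T ∈ (range L).powerset, (f (trow L (fun k => decide (k ∈ T)) s)
        - f (trow L (fun k => decide (k ∈ T)) s'))‖
        ≤ ∑ T ∈ (range L).powerset, if T = T0 then (0 : ℝ) else (1 - 1 / 2 ^ L) ^ M := by
      refine (norm_sum_le _ _).trans (Finset.sum_le_sum fun T _ => ?_)
      split_ifs with hT
      · rw [hT, hreset s h, hreset s' h', sub_self, norm_zero]
      · exact ih (h.trow _) (h'.trow _)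
    refine h3.trans (le_of_eq ?_)
    rw [← Finset.sum_erase_add _ _ hT0m, if_pos rfl, add_zero]
    have h4 : ∀ T ∈ (range L).powerset.erase T0, (if T = T0 then (0 : ℝ) else (1 - 1 / 2 ^ L) ^ M)
        = (1 - 1 / 2 ^ L) ^ M := fun T hT => if_neg (Finset.ne_of_mem_erase hT)
    rw [Finset.sum_congr rfl h4, Finset.sum_const, Finset.card_erase_of_mem hT0m, Finset.card_powerset,
      Finset.card_range, nsmul_eq_mul, pow_succ, Nat.cast_sub Nat.one_le_two_pow]
    push_cast
    have : (2 : ℝ) ^ L ≠ 0 := by positivity
    field_simp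

end Pool.Agent.Perc

end PartpercAnnB
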