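import Pool.Agent.Lib.MP_6bd702_z.Z052

/-!
# Twisted spin embedding (task AnnSpinA)
-/

set_option autoImplicit false

namespace Pool.Agent.Perc

open Finset Function

variable {κ : ℂ} {N L : ℕ} {s : St}

namespace AnnSpinA

theorem kne (hκ : κ ^ 2 = κ - 1) : κ ≠ 0 := by
  intro h; rw [h] at hκ; norm_num at hκ

theorem kinv (hκ : κ ^ 2 = κ - 1) : κ⁻¹ = 1 - κ := by
  have h0 := kne hκ
  field_simp
  linear_combination hκ

/-- The product over the sites as a product over the arcs. -/
theorem prod_arcs {M : Type*} [CommMonoid M] {p : ℕ → ℕ} (h : NC N p) (f : ℕ → M) :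
    ∏ x ∈ range N, f x = ∏ x ∈ range N, (if x < p x then f x * f (p x) else 1) := by
  have h1 : ∏ x ∈ range N, (if x < p x then f x * f (p x) else 1) =
      (∏ x ∈ range N, (if x < p x then f x else 1)) *
        ∏ x ∈ range N, (if x < p x then f (p x) else 1) := by
    rw [← Finset.prod_mul_distrib]
    refine Finset.prod_congr rfl fun x _ => ?_
    split_ifs <;> simp
  have h2 : ∏ x ∈ range N, (if x < p x then f (p x) else 1) =
      ∏ x ∈ range N, (if x < p x then 1 else f x) := by
    refine Finset.prod_nbij' p p ?_ ?_ ?_ ?_ ?_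
    · intro x hx; simpa using h.lt x (by simpa using hx)
    · intro x hx; simpa using h.lt x (by simpa using hx)
    · intro x _; exact h.inv x
    · intro x _; exact h.inv x
    · intro x hx
      have hx' : x < N := by simpa using hx
      have hne := h.ne x hx'
      rw [h.inv x]
      by_cases hlt : x < p x
      · rw [if_pos hlt, if_neg (by omega)]
      · rw [if_neg hlt, if_pos (by omega)]
  rw [h1, h2, ← Finset.prod_mul_distrib]
  refine Finset.prod_congr rfl fun x _ => ?_
  split_ifs <;> simp

theorem zpow_sum (h0 : κ ≠ 0) (g : ℕ) (u : ℕ → ℤ) :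
    κ ^ (-2 * ∑ k ∈ range g, u k) = ∏ k ∈ range g, κ ^ (-2 * u k) := by
  induction g with
  | zero => simp
  | succ g ih => rw [Finset.sum_range_succ, Finset.prod_range_succ, ← ih, ← zpow_add₀ h0]; congr 1; ring

theorem prod_range_le {g : ℕ} (hg : g ≤ N) (u : ℕ → ℂ) :
    ∏ k ∈ range g, u k = ∏ k ∈ range N, (if k < g then u k else 1) := by
  rw [← Finset.prod_filter]
  refine Finset.prod_congr ?_ fun _ _ => rfl
  ext k
  simp only [Finset.mem_range, Finset.mem_filter]
  omega

theorem tw_true (s : Bool) : tw κ s (!s) = if s then κ⁻¹ else κ ^ 2 := by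
  cases s <;> simp [tw]

theorem sw_not (s : Bool) : sw κ s (!s) = if s then κ else 1 := by
  cases s <;> simp [sw]

theorem sw_self (s : Bool) : sw κ s s = 0 := by simp [sw]
theorem tw_self (s : Bool) : tw κ s s = 0 := by simp [tw]

end AnnSpinA

open AnnSpinA

/-- The twist is a diagonal operator. -/
theorem PhiT_eq (hκ : κ ^ 2 = κ - 1) (h : NC N s.1) {g : ℕ} (hg : Marks N s g) (σ : ℕ → Bool) :
    PhiT κ N s σ = Phi κ N s.1 σ * κ ^ (-2 * ∑ k ∈ range g, sgn (σ k)) := by
  have h0 := kne hκ
  rw [zpow_sum h0, prod_range_le hg.1, prod_arcs h, PhiT, Phi, ← Finset.prod_mul_distrib]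
  refine Finset.prod_congr rfl fun x hx => ?_
  have hx' : x < N := by simpa using hx
  have hm := hg.2 x hx'
  by_cases hlt : x < s.1 x
  · simp only [if_pos hlt]
    by_cases hop : σ (s.1 x) = σ x
    · rw [hop, sw_self, tw_self]; simp
    · have hop' : σ (s.1 x) = !(σ x) := by
        cases h1 : σ (s.1 x) <;> cases h2 : σ x <;> simp_all
      rw [hop', sw_not, tw_true]
      by_cases hl : s.2 x = true
      · have hm' := hm.1 hl
        have hxg : x < g := by
          by_contra hc
          exact hm' ⟨fun a => absurd a hc, fun a => by omega⟩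
        have hpg : ¬ s.1 x < g := fun a => hm' ⟨fun _ => a, fun _ => hxg⟩
        rw [if_pos hl, if_pos hxg, if_neg hpg, mul_one]
        cases σ x
        · simp [sgn]
        · simp only [sgn, if_true]
          rw [← zpow_one_add₀ h0]
          norm_num
      · have hm' : (x < g ↔ s.1 x < g) := by
          by_contra hc; exact hl (hm.2 hc)
        rw [if_neg hl]
        by_cases hxg : x < g
        · rw [if_pos hxg, if_pos (hm'.1 hxg), ← zpow_add₀ h0]
          cases σ x <;> simp [sgn]
        · rw [if_neg hxg, if_neg (fun a => hxg (hm'.2 a))]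
          simp
  · simp only [if_neg hlt, mul_one]

namespace AnnSpinA

theorem marks_congr {g g' : ℕ} (hg : Marks N s g) (hg' : g' ≤ N) (hgg : Geq N s.1 g g') :
    Marks N s g' :=
  ⟨hg', fun x hx => (hg.2 x hx).trans (not_congr (hgg x hx))⟩

theorem sum_update_of_le {g i : ℕ} (hgi : g ≤ i) (σ : ℕ → Bool) (a b : Bool) :
    ∑ k ∈ range g, sgn (update (update σ i a) (i + 1) b k) = ∑ k ∈ range g, sgn (σ k) := by
  refine Finset.sum_congr rfl fun k hk => ?_
  have : k < g := by simpa using hk
  rw [update_of_ne (by omega), update_of_ne (by omega)]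

theorem sum_update_succ {i : ℕ} (σ : ℕ → Bool) (a b : Bool) :
    ∑ k ∈ range (i + 1), sgn (update (update σ i a) (i + 1) b k) =
      ∑ k ∈ range i, sgn (σ k) + sgn a := by
  rw [Finset.sum_range_succ, sum_update_of_le le_rfl, update_of_ne (by omega), update_self]

theorem sum_update_two {i : ℕ} (σ : ℕ → Bool) (a b : Bool) :
    ∑ k ∈ range (i + 2), sgn (update (update σ i a) (i + 1) b k) =
      ∑ k ∈ range i, sgn (σ k) + (sgn a + sgn b) := by
  rw [Finset.sum_range_succ, sum_update_succ, update_self, add_assoc]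

theorem sum_update_ge {g i : ℕ} (hgi : i + 2 ≤ g) (σ : ℕ → Bool) (a b : Bool) :
    ∑ k ∈ range g, sgn (update (update σ i a) (i + 1) b k) =
      ∑ k ∈ range g, sgn (σ k) - (sgn (σ i) + sgn (σ (i + 1))) + (sgn a + sgn b) := by
  obtain ⟨d, rfl⟩ := Nat.exists_eq_add_of_le hgi
  induction d with
  | zero =>
    rw [Nat.add_zero, sum_update_two, Finset.sum_range_succ _ (i + 1), Finset.sum_range_succ _ i]
    ring
  | succ d ih =>
    have e : i + 2 + (d + 1) = (i + 2 + d) + 1 := by ring
    rw [e, Finset.sum_range_succ, ih (by omega), Finset.sum_range_succ _ (i + 2 + d),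
      update_of_ne (by omega), update_of_ne (by omega)]
    ring

theorem sgn_not (a : Bool) : sgn a + sgn (!a) = 0 := by cases a <;> simp [sgn]

/-- The main case: the mark is not the gap `i + 1`. -/
theorem eS_PhiT_of_ne (hκ : κ ^ 2 = κ - 1) (h : NC N s.1) {i : ℕ} (hi : i + 1 < N) {g : ℕ}
    (hg : Marks N s g) (hgi : g ≠ i + 1) (σ : ℕ → Bool) :
    eS κ i (PhiT κ N s) σ = PhiT κ N (eL i s) σ := by
  have hm := marks_eL h hi hg
  rw [gmove, if_pos hgi] at hm
  have hR : PhiT κ N (eL i s) σ = Phi κ N (eAct i s.1) σ * κ ^ (-2 * ∑ k ∈ range g, sgn (σ k)) :=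
    PhiT_eq hκ (h.eAct hi) hm σ
  rw [hR, ← eS_Phi hκ h hi σ]
  unfold eS
  by_cases hop : σ i = σ (i + 1)
  · rw [hop, sw_self]; simp
  · have hop' : σ (i + 1) = !(σ i) := by
      cases h1 : σ (i + 1) <;> cases h2 : σ i <;> simp_all
    have key : ∀ a : Bool, ∑ k ∈ range g, sgn (update (update σ i a) (i + 1) (!a) k) =
        ∑ k ∈ range g, sgn (σ k) := by
      intro a
      rcases Nat.lt_or_ge i g with hlt | hge
      · rw [sum_update_ge (by omega), hop', sgn_not, sgn_not]; ring
      · exact sum_update_of_le hge σ a (!a)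
    have kT := key true
    have kF := key false
    simp only [Bool.not_true, Bool.not_false] at kT kF
    unfold capS
    rw [PhiT_eq hκ h hg, PhiT_eq hκ h hg, kT, kF]
    ring

end AnnSpinA

theorem eS_PhiT (hκ : κ ^ 2 = κ - 1) (h : IsAnn N s) {i : ℕ} (hi : i + 1 < N) (σ : ℕ → Bool) :
    eS κ i (PhiT κ N s) σ = PhiT κ N (eL i s) σ := by
  obtain ⟨g, hg⟩ := h.mark
  have hn := h.nc
  by_cases hgi : g = i + 1
  · by_cases hp : s.1 i = i + 1
    · subst hgi
      have h0 := kne hκ
      have hm := marks_eL hn hi hg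
      rw [gmove, if_neg (by simp), if_pos hp] at hm
      have hR : PhiT κ N (eL i s) σ =
          Phi κ N (eAct i s.1) σ * κ ^ (-2 * ∑ k ∈ range i, sgn (σ k)) :=
        PhiT_eq hκ (hn.eAct hi) hm σ
      have hE : ∀ τ, Phi κ N s.1 τ = sw κ (τ i) (τ (i + 1)) * capS κ i (Phi κ N s.1) τ := by
        intro τ
        have := eS_Phi hκ hn hi τ
        rw [eAct_of_eq hn hi hp] at this
        rw [← this, eS]
      have hcap : ∀ a b : Bool, capS κ i (Phi κ N s.1) (update (update σ i a) (i + 1) b) =
          capS κ i (Phi κ N s.1) σ := by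
        intro a b
        unfold capS
        have e : ∀ c d : Bool, update (update (update (update σ i a) (i + 1) b) i c) (i + 1) d =
            update (update σ i c) (i + 1) d := by
          intro c d
          funext k
          by_cases h1 : k = i + 1
          · subst h1; simp
          · by_cases h2 : k = i
            · subst h2; simp [update_of_ne h1]
            · simp [update_of_ne h1, update_of_ne h2]
        rw [e, e]
      rw [hR, eAct_of_eq hn hi hp, hE σ]
      unfold eS
      conv_lhs => unfold capS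
      rw [PhiT_eq hκ hn hg, PhiT_eq hκ hn hg, sum_update_succ, sum_update_succ,
        hE (update (update σ i true) (i + 1) false), hE (update (update σ i false) (i + 1) true),
        hcap, hcap]
      have u1 : ∀ a b : Bool, update (update σ i a) (i + 1) b i = a := by
        intro a b; rw [update_of_ne (by omega), update_self]
      have u2 : ∀ a b : Bool, update (update σ i a) (i + 1) b (i + 1) = b := by
        intro a b; rw [update_self]
      rw [u1, u2, u1, u2]
      have z1 : κ ^ (-2 * (∑ k ∈ range i, sgn (σ k) + sgn true)) =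
          κ ^ (-2 * ∑ k ∈ range i, sgn (σ k)) * (κ⁻¹ * κ⁻¹) := by
        rw [mul_add, zpow_add₀ h0]; congr 1
        simp only [sgn, if_true]; rw [show (-2 * 1 : ℤ) = -1 + -1 by norm_num, zpow_add₀ h0]
        simp
      have z2 : κ ^ (-2 * (∑ k ∈ range i, sgn (σ k) + sgn false)) =
          κ ^ (-2 * ∑ k ∈ range i, sgn (σ k)) * (κ * κ) := by
        rw [mul_add, zpow_add₀ h0]; congr 1
        simp only [sgn]; rw [show (-2 * (if false = true then (1 : ℤ) else -1)) = 1 + 1 by simp, zpow_add₀ h0]
        simp
      rw [z1, z2]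
      have s1 : sw κ true false = κ := by simp [sw]
      have s2 : sw κ false true = 1 := by simp [sw]
      rw [s1, s2]
      have hk := kinv hκ
      have e1 : κ * capS κ i (Phi κ N s.1) σ *
            (κ ^ (-2 * ∑ k ∈ range i, sgn (σ k)) * (κ⁻¹ * κ⁻¹)) +
          κ⁻¹ * (1 * capS κ i (Phi κ N s.1) σ *
            (κ ^ (-2 * ∑ k ∈ range i, sgn (σ k)) * (κ * κ))) =
          capS κ i (Phi κ N s.1) σ * κ ^ (-2 * ∑ k ∈ range i, sgn (σ k)) *
            ((κ * κ⁻¹) * κ⁻¹ + (κ⁻¹ * κ) * κ) := by ring
      rw [e1, mul_inv_cancel₀ h0, inv_mul_cancel₀ h0, hk]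
      ring
    · have hg2 : Marks N s (s.1 (i + 1) + 1) := by
        refine marks_congr hg ?_ ?_
        · have := hn.lt (i + 1) hi; omega
        · rw [hgi]; exact hn.geq_partner hi
      refine eS_PhiT_of_ne hκ hn hi hg2 ?_ σ
      intro hc
      have : s.1 (i + 1) = i := by omega
      have h2 := hn.inv (i + 1)
      rw [this] at h2
      exact hp h2
  · exact eS_PhiT_of_ne hκ hn hi hg hgi σ

theorem PhiT_cupL (h : NC L s.1) (σ : ℕ → Bool) :
    PhiT κ (L + 2) (cupL L s) σ = tw κ (σ 0) (σ (L + 1)) * PhiT κ L s (fun k => σ (k + 1)) := by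
  unfold PhiT
  rw [Finset.prod_range_succ, Finset.prod_range_succ']
  have e1 : (if L + 1 < (cupL L s).1 (L + 1) then
      (if (cupL L s).2 (L + 1) then tw κ (σ (L + 1)) (σ ((cupL L s).1 (L + 1)))
        else sw κ (σ (L + 1)) (σ ((cupL L s).1 (L + 1)))) else 1) = 1 := by
    rw [if_neg]; simp [cupL, cupO]
  have e2 : (if 0 < (cupL L s).1 0 then
      (if (cupL L s).2 0 then tw κ (σ 0) (σ ((cupL L s).1 0))
        else sw κ (σ 0) (σ ((cupL L s).1 0))) else 1) = tw κ (σ 0) (σ (L + 1)) := by
    simp [cupL, cupO]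
  rw [e1, e2, mul_one, mul_comm]
  congr 1
  refine Finset.prod_congr rfl fun x hx => ?_
  have hx' : x < L := by simpa using hx
  have f1 : (cupL L s).1 (x + 1) = s.1 x + 1 := by
    simp only [cupL, cupO]
    rw [if_neg (by omega), if_neg (by omega), if_pos (by omega)]
    simp
  have f2 : (cupL L s).2 (x + 1) = s.2 x := by
    simp only [cupL]
    rw [if_neg (by omega), if_pos (by omega)]
    simp
  rw [f1, f2]
  by_cases hlt : x < s.1 x
  · rw [if_pos (by omega), if_pos hlt]
  · rw [if_neg (by omega), if_neg hlt]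

theorem PhiT_resL (h : NC (L + 2) s.1) (hp : s.1 L = L + 1) (hc : s.2 L = false)
    (σ : ℕ → Bool) :
    PhiT κ (L + 2) s σ = PhiT κ L (resL L s) σ * sw κ (σ L) (σ (L + 1)) := by
  unfold PhiT
  have hp2 : s.1 (L + 1) = L := by have := h.inv L; rw [hp] at this; exact this
  rw [Finset.prod_range_succ, Finset.prod_range_succ, hp, hp2, hc, if_pos (show L < L + 1 by omega),
    if_neg (show ¬ L + 1 < L by omega), mul_one]
  simp only [Bool.false_eq_true, if_false]
  congr 1
  refine Finset.prod_congr rfl fun x hx => ?_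
  have hx' : x < L := by simpa using hx
  have f1 : (resL L s).1 x = s.1 x := by simp [resL, resP, hx']
  have f2 : (resL L s).2 x = s.2 x := by simp [resL, hx']
  rw [f1, f2]

theorem sumS_PhiT (hκ : κ ^ 2 = κ - 1) (h : IsAnn N s) :
    sumS N (PhiT κ N s) = (1 + κ) ^ (N / 2) * v0 s := by
  classical
  by_cases hv : s.2 = fun _ => false
  · rw [v0, if_pos hv, mul_one, ← sumS_Phi (κ := κ) h.nc]
    unfold sumS
    refine Finset.sum_congr rfl fun T _ => ?_
    unfold PhiT Phi
    refine Finset.prod_congr rfl fun x _ => ?_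
    rw [hv]; simp
  · rw [v0, if_neg hv, mul_zero]
    obtain ⟨g, hg⟩ := h.mark
    have hn := h.nc
    -- a left end with the label true
    obtain ⟨x, hxN, hxp, hxl⟩ : ∃ x, x < N ∧ x < s.1 x ∧ s.2 x = true := by
      have : ∃ y, s.2 y = true := by
        by_contra hc
        push Not at hc
        exact hv (funext fun y => by simpa using hc y)
      obtain ⟨y, hy⟩ := this
      have hyN : y < N := by
        by_contra hc
        have := h.out y (by omega)
        rw [hy] at this; exact absurd this (by simp)
      rcases lt_trichotomy y (s.1 y) with h1 | h1 | h1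
      · exact ⟨y, hyN, h1, hy⟩
      · exact absurd h1.symm (hn.ne y hyN)
      · refine ⟨s.1 y, hn.lt y hyN, by rw [hn.inv]; exact h1, ?_⟩
        rw [hg.2 _ (hn.lt y hyN), hn.inv]
        have := (hg.2 y hyN).1 hy
        tauto
    have hpN := hn.lt x hxN
    set y := s.1 x with hy
    have hyx : s.1 y = x := hn.inv x
    unfold sumS
    refine Finset.sum_involution (fun T _ => symmDiff T {x, y}) ?_ ?_ ?_ ?_
    · intro T hT
      -- the product changes its sign
      have hfl : ∀ k, k ≠ x → k ≠ y → (k ∈ symmDiff T {x, y} ↔ k ∈ T) := by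
        intro k h1 h2
        simp [Finset.mem_symmDiff, h1, h2]
      have hfx : x ∈ symmDiff T {x, y} ↔ x ∉ T := by
        simp [Finset.mem_symmDiff]
      have hfy : y ∈ symmDiff T {x, y} ↔ y ∉ T := by
        simp [Finset.mem_symmDiff]
      unfold PhiT
      rw [← Finset.mul_prod_erase (range N) _ (Finset.mem_range.2 hxN),
        ← Finset.mul_prod_erase (range N) _ (Finset.mem_range.2 hxN)]
      have hprod : ∏ k ∈ (range N).erase x, (if k < s.1 k then
          (if s.2 k then tw κ (decide (k ∈ symmDiff T {x, y}))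
              (decide (s.1 k ∈ symmDiff T {x, y}))
            else sw κ (decide (k ∈ symmDiff T {x, y}))
              (decide (s.1 k ∈ symmDiff T {x, y}))) else 1) =
          ∏ k ∈ (range N).erase x, (if k < s.1 k then
          (if s.2 k then tw κ (decide (k ∈ T)) (decide (s.1 k ∈ T))
            else sw κ (decide (k ∈ T)) (decide (s.1 k ∈ T))) else 1) := by
        refine Finset.prod_congr rfl fun k hk => ?_
        obtain ⟨hkx, hkN⟩ := Finset.mem_erase.1 hk
        by_cases hlt : k < s.1 k
        · have hky : k ≠ y := by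
            intro hc; rw [hc, hyx] at hlt; omega
          have h1 : s.1 k ≠ x := by
            intro hc
            apply hky
            rw [hy, ← hc, hn.inv]
          have h2 : s.1 k ≠ y := by
            intro hc
            apply hkx
            rw [← hn.inv k, hc, hyx]
          rw [if_pos hlt, if_pos hlt]
          simp only [hfl k hkx hky, hfl _ h1 h2]
        · rw [if_neg hlt, if_neg hlt]
      rw [hprod, ← add_mul]
      have : (if x < s.1 x then
            (if s.2 x then tw κ (decide (x ∈ T)) (decide (s.1 x ∈ T))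
              else sw κ (decide (x ∈ T)) (decide (s.1 x ∈ T))) else 1) +
          (if x < s.1 x then
            (if s.2 x then tw κ (decide (x ∈ symmDiff T {x, y}))
                (decide (s.1 x ∈ symmDiff T {x, y}))
              else sw κ (decide (x ∈ symmDiff T {x, y}))
                (decide (s.1 x ∈ symmDiff T {x, y}))) else 1) = 0 := by
        rw [← hy, if_pos hxp, if_pos hxp, if_pos hxl, if_pos hxl]
        simp only [hfx, hfy]
        have hk := kinv hκ
        by_cases h1 : x ∈ T <;> by_cases h2 : y ∈ T <;> simp [h1, h2, tw]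
        · rw [hk, hκ]; ring
        · rw [hk, hκ]; ring
      rw [this, zero_mul]
    · intro T _ _ hc
      have : x ∈ symmDiff T {x, y} ↔ x ∉ T := by simp [Finset.mem_symmDiff]
      rw [hc] at this
      tauto
    · intro T hT
      rw [Finset.mem_powerset] at hT ⊢
      intro k hk
      rw [Finset.mem_symmDiff] at hk
      rcases hk with ⟨h1, _⟩ | ⟨h1, _⟩
      · exact hT h1
      · simp only [Finset.mem_insert, Finset.mem_singleton] at h1
        rcases h1 with rfl | rfl
        · simpa using hxN
        · simpa using hpN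
    · intro T _
      exact symmDiff_symmDiff_cancel_right _ _

end Pool.Agent.Perc
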