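import Pool.Agent.Lib.MP_6bd702_z.Z052
import Pool.Agent.Lib.MP_6bd702_z.Z054

/-!
# Transfer operators (task AnnSpinB)
-/

set_option autoImplicit false

namespace Pool.Agent.Perc

open Finset Function

variable {κ : ℂ} {N L : ℕ} {s : St}

namespace AnnSpinB

theorem PhiT_congr (h : NC N s.1) {σ τ : ℕ → Bool} (hst : ∀ k < N, σ k = τ k) :
    PhiT κ N s σ = PhiT κ N s τ := by
  unfold PhiT
  refine Finset.prod_congr rfl fun x hx => ?_
  have hx' : x < N := by simpa using hx
  rw [hst x hx', hst _ (h.lt x hx')]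

theorem capS_update (i : ℕ) (X : (ℕ → Bool) → ℂ) (σ : ℕ → Bool) (a b : Bool) :
    capS κ i X (update (update σ i a) (i + 1) b) = capS κ i X σ := by
  unfold capS
  have e : ∀ c d : Bool, update (update (update (update σ i a) (i + 1) b) i c) (i + 1) d =
      update (update σ i c) (i + 1) d := by
    intro c d
    funext k
    by_cases h1 : k = i + 1
    · subst h1; simp
    · by_cases h2 : k = i
      · subst h2; simp [update_of_ne h1]
      · simp [update_of_ne h1, update_of_ne h2]
  rw [e, e]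

theorem rowL_congr {w w' : ℕ → Bool} {k : ℕ} (h : ∀ j < k, w j = w' j) (u : St) :
    rowL w k u = rowL w' k u := by
  induction k with
  | zero => rfl
  | succ k ih =>
    simp only [rowL]
    rw [h k (by omega), ih fun j hj => h j (by omega)]

theorem capS_sum {ι : Type*} (S : Finset ι) (i : ℕ) (X : ι → (ℕ → Bool) → ℂ) (σ : ℕ → Bool) :
    capS κ i (fun τ => ∑ T ∈ S, X T τ) σ = ∑ T ∈ S, capS κ i (X T) σ := by
  unfold capS
  rw [Finset.mul_sum, ← Finset.sum_add_distrib]

theorem eS_sum {ι : Type*} (S : Finset ι) (i : ℕ) (X : ι → (ℕ → Bool) → ℂ) (σ : ℕ → Bool) :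
    eS κ i (fun τ => ∑ T ∈ S, X T τ) σ = ∑ T ∈ S, eS κ i (X T) σ := by
  unfold eS
  rw [capS_sum, Finset.mul_sum]

theorem capS_smul (i : ℕ) (c : ℂ) (X : (ℕ → Bool) → ℂ) (σ : ℕ → Bool) :
    capS κ i (fun τ => c * X τ) σ = c * capS κ i X σ := by
  unfold capS
  ring

theorem eS_smul (i : ℕ) (c : ℂ) (X : (ℕ → Bool) → ℂ) (σ : ℕ → Bool) :
    eS κ i (fun τ => c * X τ) σ = c * eS κ i X σ := by
  unfold eS
  rw [capS_smul]
  ring

theorem avg_row (hκ : κ ^ 2 = κ - 1) {u : St} (hu : IsAnn (L + 2) u) {k : ℕ} (hk : k ≤ L)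
    (σ : ℕ → Bool) :
    ∑ T ∈ (range k).powerset, PhiT κ (L + 2) (rowL (fun j => decide (j ∈ T)) k u) σ =
      2 ^ k * rowS κ k (PhiT κ (L + 2) u) σ := by
  induction k generalizing σ with
  | zero => simp [rowL, rowS]
  | succ k ih =>
    rw [Finset.range_add_one, Finset.sum_powerset_insert (by simp)]
    have e1 : ∀ T ∈ (range k).powerset,
        PhiT κ (L + 2) (rowL (fun j => decide (j ∈ T)) (k + 1) u) σ =
          PhiT κ (L + 2) (rowL (fun j => decide (j ∈ T)) k u) σ := by
      intro T hT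
      have hkT : k ∉ T := fun hc => by
        have := Finset.mem_powerset.1 hT hc
        simp at this
      simp [rowL, hkT]
    have e2 : ∀ T ∈ (range k).powerset,
        PhiT κ (L + 2) (rowL (fun j => decide (j ∈ insert k T)) (k + 1) u) σ =
          eS κ k (PhiT κ (L + 2) (rowL (fun j => decide (j ∈ T)) k u)) σ := by
      intro T hT
      have hc : rowL (fun j => decide (j ∈ insert k T)) k u =
          rowL (fun j => decide (j ∈ T)) k u := by
        apply rowL_congr
        intro j hj
        have : j ≠ k := by omega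
        simp [Finset.mem_insert, this]
      rw [eS_PhiT hκ (hu.rowL _ (by omega)) (by omega)]
      simp only [rowL, Finset.mem_insert_self, decide_true, if_true]
      rw [hc]
    rw [Finset.sum_congr rfl e1, Finset.sum_congr rfl e2, ← eS_sum, ih (by omega)]
    have e3 : (fun τ => ∑ T ∈ (range k).powerset,
        PhiT κ (L + 2) (rowL (fun j => decide (j ∈ T)) k u) τ) =
        fun τ => 2 ^ k * rowS κ k (PhiT κ (L + 2) u) τ := by
      funext τ
      exact ih (by omega) τ
    rw [e3, eS_smul]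
    simp only [rowS, rS]
    rw [pow_succ]
    ring

theorem PhiT_trow (hκ : κ ^ 2 = κ - 1) (h : IsAnn L s) (w : ℕ → Bool) (σ : ℕ → Bool) :
    PhiT κ L (trow L w s) σ = capS κ L (PhiT κ (L + 2) (rowL w L (cupL L s))) σ := by
  have ht : IsAnn (L + 2) (rowL w L (cupL L s)) := h.cupL.rowL w le_rfl
  have hte : IsAnn (L + 2) (eL L (rowL w L (cupL L s))) := ht.eL (by omega)
  have htr : IsAnn L (trow L w s) := h.trow w
  have h0 := AnnSpinA.kne hκ
  have e1 := eS_PhiT hκ ht (i := L) (by omega) (update (update σ L true) (L + 1) false)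
  rw [PhiT_resL hte.nc (by simp [eL, eAct]) (by simp [eL])] at e1
  unfold eS at e1
  rw [capS_update] at e1
  have u1 : update (update σ L true) (L + 1) false L = true := by
    rw [update_of_ne (by omega), update_self]
  have u2 : update (update σ L true) (L + 1) false (L + 1) = false := by
    rw [update_self]
  rw [u1, u2] at e1
  have s1 : sw κ true false = κ := by simp [sw]
  rw [s1] at e1
  have e2 : PhiT κ L (trow L w s) (update (update σ L true) (L + 1) false) =
      PhiT κ L (trow L w s) σ := by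
    apply PhiT_congr htr.nc
    intro k hk
    rw [update_of_ne (by omega), update_of_ne (by omega)]
  have e3 : resL L (eL L (rowL w L (cupL L s))) = trow L w s := rfl
  rw [e3, e2, mul_comm] at e1
  exact (mul_right_cancel₀ h0 e1).symm

end AnnSpinB

open AnnSpinB

/-- Averaging over a row. -/
theorem avg_PhiT {q : ℂ} (hq : q ^ 2 + q + 1 = 0) (h : IsAnn L s) (σ : ℕ → Bool) :
    (∑ T ∈ (range L).powerset, PhiT (-q) L (trow L (fun k => decide (k ∈ T)) s) σ) / 2 ^ L =
      TR q L (PhiT (-q) L s) σ := by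
  have hκ : (-q) ^ 2 = (-q) - 1 := by linear_combination hq
  have e1 : ∀ T ∈ (range L).powerset, PhiT (-q) L (trow L (fun k => decide (k ∈ T)) s) σ =
      capS (-q) L (PhiT (-q) (L + 2) (rowL (fun k => decide (k ∈ T)) L (cupL L s))) σ :=
    fun T _ => PhiT_trow hκ h _ σ
  rw [Finset.sum_congr rfl e1, ← capS_sum]
  have e2 : (fun τ => ∑ T ∈ (range L).powerset,
      PhiT (-q) (L + 2) (rowL (fun j => decide (j ∈ T)) L (cupL L s)) τ) =
      fun τ => 2 ^ L * rowS (-q) L (PhiT (-q) (L + 2) (cupL L s)) τ := by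
    funext τ
    exact avg_row hκ h.cupL le_rfl τ
  have e3 : PhiT (-q) (L + 2) (cupL L s) =
      fun τ => tw (-q) (τ 0) (τ (L + 1)) * PhiT (-q) L s fun k => τ (k + 1) :=
    funext fun τ => PhiT_cupL h.nc τ
  rw [e2, capS_smul, e3]
  have h2 : (2 : ℂ) ^ L ≠ 0 := pow_ne_zero _ two_ne_zero
  unfold TR
  field_simp

end Pool.Agent.Perc
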