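import Pool.Agent.Lib.MP_6bd702_z.Pre

section PartpercSchurDefs

/-!
# Schur polynomials as quotients of alternants: definitions and divisibility (task SchurDefs)
-/

set_option autoImplicit false

namespace Pool.Agent.Perc

open Finset MvPolynomial

/-- The alternant `det (z_i ^ e_j)`, `i, j < N`. -/
noncomputable def alt (N : ℕ) (e : ℕ → ℕ) : MvPolynomial ℕ ℂ :=
  (Matrix.of fun i j : Fin N => (X (i : ℕ) : MvPolynomial ℕ ℂ) ^ e j).det

/-- The Vandermonde product `∏_{i < j < N} (z_j - z_i)`. -/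
noncomputable def vdm (N : ℕ) : MvPolynomial ℕ ℂ := ∏ j ∈ range N, ∏ i ∈ range j, (X j - X i)

namespace SchurDefs

/-- The pairs `i < j < N`. -/
def prs (N : ℕ) : Finset (ℕ × ℕ) := (range N ×ˢ range N).filter fun p => p.2 < p.1

theorem mem_prs {N : ℕ} {p : ℕ × ℕ} : p ∈ prs N ↔ p.1 < N ∧ p.2 < p.1 := by
  simp only [prs, mem_filter, mem_product, mem_range]
  constructor
  · rintro ⟨⟨h1, h2⟩, h3⟩; exact ⟨h1, h3⟩
  · rintro ⟨h1, h3⟩; exact ⟨⟨h1, h3.trans h1⟩, h3⟩

theorem prod_prs {M : Type*} [CommMonoid M] (N : ℕ) (f : ℕ → ℕ → M) :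
    ∏ p ∈ prs N, f p.1 p.2 = ∏ j ∈ range N, ∏ i ∈ range j, f j i := by
  rw [Finset.prod_sigma']
  refine Finset.prod_bij' (fun p _ => (⟨p.1, p.2⟩ : (_ : ℕ) × ℕ)) (fun p _ => (p.1, p.2))
    ?_ ?_ ?_ ?_ ?_
  · intro p hp
    rw [mem_prs] at hp
    simpa using hp
  · intro p hp
    rw [mem_prs]
    simpa using hp
  · intro p _; rfl
  · intro p _; rfl
  · intro p _; rfl

theorem vdm_eq_prs (N : ℕ) : vdm N = ∏ p ∈ prs N, (X p.1 - X p.2 : MvPolynomial ℕ ℂ) := by
  rw [prod_prs N (fun j i => (X j - X i : MvPolynomial ℕ ℂ)), vdm]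

/-- The shear `X j ↦ X j + X i`. -/
noncomputable def shear (j i : ℕ) (hji : j ≠ i) : MvPolynomial ℕ ℂ ≃ₐ[ℂ] MvPolynomial ℕ ℂ :=
  AlgEquiv.ofAlgHom (aeval fun k => if k = j then X j + X i else X k)
    (aeval fun k => if k = j then X j - X i else X k)
    (by
      apply MvPolynomial.algHom_ext
      intro k
      by_cases h : k = j
      · simp [h, hji.symm]
      · simp [h])
    (by
      apply MvPolynomial.algHom_ext
      intro k
      by_cases h : k = j
      · simp [h, hji.symm]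
      · simp [h])

theorem prime_X_sub_X {j i : ℕ} (hji : j ≠ i) : Prime (X j - X i : MvPolynomial ℕ ℂ) := by
  rw [← MulEquiv.prime_iff (shear j i hji).toMulEquiv]
  have : (shear j i hji).toMulEquiv (X j - X i : MvPolynomial ℕ ℂ) = X j := by
    show (aeval fun k => if k = j then (X j + X i : MvPolynomial ℕ ℂ) else X k)
      (X j - X i : MvPolynomial ℕ ℂ) = X j
    simp [hji.symm]
  rw [this]
  exact MvPolynomial.X_prime

theorem vdm_ne_zero (N : ℕ) : vdm N ≠ 0 := by
  rw [vdm_eq_prs, Finset.prod_ne_zero_iff]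
  intro p hp
  exact (prime_X_sub_X (mem_prs.1 hp).2.ne').ne_zero

theorem not_dvd {j i j' i' : ℕ} (h : i < j) (h' : i' < j') (hne : (j, i) ≠ (j', i')) :
    ¬ (X j - X i : MvPolynomial ℕ ℂ) ∣ X j' - X i' := by
  rintro ⟨q, hq⟩
  have key : ∀ m : ℕ, m ≠ i → m ≠ j → m = i' ∨ m = j' → False := by
    intro m hmi hmj hm
    have := congrArg (eval fun k => if k = m then (1 : ℂ) else 0) hq
    rcases hm with rfl | rfl
    · simp [hmi.symm, hmj.symm, h'.ne'] at this
    · simp [hmi.symm, hmj.symm, h'.ne] at this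
  by_cases h1 : i' = i
  · by_cases h2 : j' = j
    · exact hne (by rw [h1, h2])
    · exact key j' (by omega) h2 (Or.inr rfl)
  · by_cases h2 : i' = j
    · exact key j' (by omega) (by omega) (Or.inr rfl)
    · exact key i' h1 h2 (Or.inl rfl)

theorem dvd_alt {N : ℕ} (e : ℕ → ℕ) {j i : ℕ} (hj : j < N) (hij : i < j) :
    (X j - X i : MvPolynomial ℕ ℂ) ∣ alt N e := by
  rw [← Ideal.mem_span_singleton, ← Ideal.Quotient.eq_zero_iff_mem, alt,
    RingHom.map_det (Ideal.Quotient.mk (Ideal.span {(X j - X i : MvPolynomial ℕ ℂ)}))]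
  refine Matrix.det_zero_of_row_eq (i := (⟨j, hj⟩ : Fin N)) (j := ⟨i, hij.trans hj⟩) ?_ ?_
  · simpa using hij.ne'
  · funext k
    simp only [RingHom.mapMatrix_apply, Matrix.map_apply, Matrix.of_apply, map_pow]
    congr 1
    rw [Ideal.Quotient.eq, Ideal.mem_span_singleton]

end SchurDefs

open SchurDefs in
theorem vdm_dvd_alt (N : ℕ) (e : ℕ → ℕ) : vdm N ∣ alt N e := by
  rw [vdm_eq_prs]
  refine Finset.prod_dvd_of_isRelPrime ?_ ?_
  · intro p hp q hq hpq
    have hp' := mem_prs.1 (Finset.mem_coe.1 hp)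
    have hq' := mem_prs.1 (Finset.mem_coe.1 hq)
    exact (prime_X_sub_X hp'.2.ne').irreducible.isRelPrime_iff_not_dvd.2
      (not_dvd hp'.2 hq'.2 (fun h => hpq (Prod.ext (congrArg Prod.fst h) (congrArg Prod.snd h))))
  · intro p hp
    exact dvd_alt e (mem_prs.1 hp).1 (mem_prs.1 hp).2

/-- The Schur polynomial with exponents `e 0 < e 1 < …`. -/
noncomputable def schur (N : ℕ) (e : ℕ → ℕ) : MvPolynomial ℕ ℂ := (vdm_dvd_alt N e).choose

theorem vdm_mul_schur (N : ℕ) (e : ℕ → ℕ) : vdm N * schur N e = alt N e :=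
  (vdm_dvd_alt N e).choose_spec.symm

end Pool.Agent.Perc

end PartpercSchurDefs

section PartpercSchurC

/-!
# Schur polynomials: top coefficient and value at zero (task SchurC)
-/

set_option autoImplicit false

namespace Pool.Agent.Perc

open Finset MvPolynomial

namespace SchurC

theorem vdm_succ (N : ℕ) :
    vdm (N + 1) = vdm N * ∏ i ∈ range N, (X N - X i : MvPolynomial ℕ ℂ) := by
  rw [vdm, Finset.prod_range_succ, vdm]

/-- The last variable is singled out. -/
noncomputable def phi (N : ℕ) : MvPolynomial ℕ ℂ →ₐ[ℂ] Polynomial (MvPolynomial ℕ ℂ) :=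
  aeval fun k => if k = N then (Polynomial.X : Polynomial (MvPolynomial ℕ ℂ))
    else Polynomial.C (X k)

theorem phi_X_self (N : ℕ) : phi N (X N) = Polynomial.X := by simp [phi]

theorem phi_X_of_lt {N k : ℕ} (hk : k < N) : phi N (X k) = Polynomial.C (X k) := by
  simp [phi, hk.ne]

theorem phi_vdm (N : ℕ) : phi N (vdm N) = Polynomial.C (vdm N) := by
  rw [vdm, map_prod, map_prod]
  refine Finset.prod_congr rfl fun j hj => ?_
  rw [map_prod, map_prod]
  refine Finset.prod_congr rfl fun i hi => ?_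
  rw [mem_range] at hi hj
  rw [map_sub, map_sub, phi_X_of_lt hj, phi_X_of_lt (hi.trans hj)]

theorem phi_vdm_succ (N : ℕ) : phi N (vdm (N + 1)) =
    Polynomial.C (vdm N) * ∏ i ∈ range N, (Polynomial.X - Polynomial.C (X i)) := by
  rw [vdm_succ, map_mul, phi_vdm, map_prod]
  congr 1
  refine Finset.prod_congr rfl fun i hi => ?_
  rw [map_sub, phi_X_self, phi_X_of_lt (mem_range.1 hi)]

theorem phi_alt (N : ℕ) (e : ℕ → ℕ) : phi N (alt (N + 1) e) =
    ∑ j : Fin (N + 1), Polynomial.C ((-1) ^ (N + (j : ℕ)) *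
      (Matrix.of fun i k : Fin N => (X (i : ℕ) : MvPolynomial ℕ ℂ) ^ e (j.succAbove k)).det) *
      Polynomial.X ^ e j := by
  rw [alt, AlgHom.map_det, Matrix.det_succ_row _ (Fin.last N)]
  refine Finset.sum_congr rfl fun j _ => ?_
  have h1 : ((phi N).mapMatrix (Matrix.of fun i j : Fin (N + 1) =>
      (X (i : ℕ) : MvPolynomial ℕ ℂ) ^ e j)) (Fin.last N) j = Polynomial.X ^ e j := by
    simp [phi_X_self]
  have h2 : (((phi N).mapMatrix (Matrix.of fun i j : Fin (N + 1) =>
      (X (i : ℕ) : MvPolynomial ℕ ℂ) ^ e j)).submatrix (Fin.last N).succAbove j.succAbove).det =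
      Polynomial.C (Matrix.of fun i k : Fin N =>
        (X (i : ℕ) : MvPolynomial ℕ ℂ) ^ e (j.succAbove k)).det := by
    rw [RingHom.map_det]
    congr 1
    ext1 i k
    simp only [Matrix.submatrix_apply, AlgHom.mapMatrix_apply, Matrix.map_apply, Matrix.of_apply,
      map_pow, RingHom.mapMatrix_apply, Fin.succAbove_last, Fin.val_castSucc]
    rw [phi_X_of_lt i.2]
  rw [h1, h2, Fin.val_last, map_mul, map_pow, map_neg, map_one]
  ring

theorem natDegree_phi_alt_le (N : ℕ) {e : ℕ → ℕ} (he : StrictMono e) :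
    (phi N (alt (N + 1) e)).natDegree ≤ e N := by
  rw [phi_alt]
  refine Polynomial.natDegree_sum_le_of_forall_le _ _ fun j _ => ?_
  exact (Polynomial.natDegree_C_mul_X_pow_le _ _).trans (he.monotone (Nat.lt_succ_iff.1 j.2))

theorem coeff_phi_alt (N : ℕ) {e : ℕ → ℕ} (he : StrictMono e) :
    (phi N (alt (N + 1) e)).coeff (e N) = alt N e := by
  rw [phi_alt, Polynomial.finsetSum_coeff, Finset.sum_eq_single (Fin.last N)]
  · rw [Polynomial.coeff_C_mul_X_pow, Fin.val_last, if_pos rfl, ← two_mul, pow_mul, neg_one_sq,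
      one_pow, one_mul, alt]
    simp only [Fin.succAbove_last, Fin.val_castSucc]
  · intro j _ hj
    rw [Polynomial.coeff_C_mul_X_pow, if_neg]
    intro h
    exact hj (Fin.ext (he.injective h).symm)
  · intro h
    exact absurd (mem_univ _) h

theorem phi_schur (N : ℕ) (e : ℕ → ℕ) :
    Polynomial.C (vdm N) * (phi N (schur (N + 1) e) *
      ∏ i ∈ range N, (Polynomial.X - Polynomial.C (X i))) = phi N (alt (N + 1) e) := by
  rw [← vdm_mul_schur, map_mul, phi_vdm_succ]
  ring

theorem natDegree_prod (N : ℕ) :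
    (∏ i ∈ range N, (Polynomial.X - Polynomial.C (X i) : Polynomial (MvPolynomial ℕ ℂ))).natDegree
      = N := by
  rw [Polynomial.natDegree_prod_of_monic _ _ fun _ _ => Polynomial.monic_X_sub_C _]
  simp

theorem monic_prod (N : ℕ) :
    (∏ i ∈ range N, (Polynomial.X - Polynomial.C (X i) : Polynomial (MvPolynomial ℕ ℂ))).Monic :=
  Polynomial.monic_prod_of_monic _ _ fun _ _ => Polynomial.monic_X_sub_C _

theorem coeff_phi_schur (N d : ℕ) {e : ℕ → ℕ} (he : StrictMono e) (heN : e N = d + N) :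
    (phi N (schur (N + 1) e)).coeff d = schur N e := by
  have hv : (Polynomial.C (vdm N) : Polynomial (MvPolynomial ℕ ℂ)) ≠ 0 :=
    Polynomial.C_ne_zero.2 (SchurDefs.vdm_ne_zero N)
  have hdeg : (phi N (schur (N + 1) e)).natDegree ≤ d := by
    by_cases h0 : phi N (schur (N + 1) e) = 0
    · rw [h0, Polynomial.natDegree_zero]; exact Nat.zero_le _
    have h1 := natDegree_phi_alt_le N he
    rw [← phi_schur, Polynomial.natDegree_mul hv (mul_ne_zero h0 (monic_prod N).ne_zero),
      Polynomial.natDegree_mul h0 (monic_prod N).ne_zero, natDegree_prod, Polynomial.natDegree_C,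
      heN] at h1
    omega
  have h2 := congrArg (fun p => Polynomial.coeff p (d + N)) (phi_schur N e)
  rw [Polynomial.coeff_C_mul,
    Polynomial.coeff_mul_add_eq_of_natDegree_le hdeg (natDegree_prod N).le, ← heN, coeff_phi_alt N he,
    ← vdm_mul_schur] at h2
  have h3 := mul_left_cancel₀ (SchurDefs.vdm_ne_zero N) h2
  have h4 : (∏ i ∈ range N,
      (Polynomial.X - Polynomial.C (X i) : Polynomial (MvPolynomial ℕ ℂ))).coeff N = 1 := by
    have := (monic_prod N).coeff_natDegree
    rwa [natDegree_prod] at this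
  rwa [h4, mul_one] at h3

/-- The last variable is put to `0`. -/
noncomputable def psi (N : ℕ) : MvPolynomial ℕ ℂ →ₐ[ℂ] MvPolynomial ℕ ℂ :=
  aeval fun k => if k = N then 0 else X k

theorem psi_X_self (N : ℕ) : psi N (X N) = 0 := by simp [psi]

theorem psi_X_of_lt {N k : ℕ} (hk : k < N) : psi N (X k) = X k := by
  simp [psi, hk.ne]

theorem psi_vdm (N : ℕ) : psi N (vdm N) = vdm N := by
  rw [vdm, map_prod]
  refine Finset.prod_congr rfl fun j hj => ?_
  rw [map_prod]
  refine Finset.prod_congr rfl fun i hi => ?_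
  rw [mem_range] at hi hj
  rw [map_sub, psi_X_of_lt hj, psi_X_of_lt (hi.trans hj)]

theorem psi_vdm_succ (N : ℕ) : psi N (vdm (N + 1)) =
    vdm N * ((-1) ^ N * ∏ i ∈ range N, (X i : MvPolynomial ℕ ℂ)) := by
  rw [vdm_succ, map_mul, psi_vdm, map_prod]
  congr 1
  have : ∀ i ∈ range N, psi N (X N - X i) = -1 * (X i : MvPolynomial ℕ ℂ) := by
    intro i hi
    rw [map_sub, psi_X_self, psi_X_of_lt (mem_range.1 hi)]
    ring
  rw [Finset.prod_congr rfl this, Finset.prod_mul_distrib, Finset.prod_const, card_range]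

theorem psi_alt (N : ℕ) {e : ℕ → ℕ} (he : StrictMono e) (he0 : e 0 = 0) :
    psi N (alt (N + 1) e) = (-1) ^ N * ((∏ i ∈ range N, (X i : MvPolynomial ℕ ℂ)) *
      alt N fun j => e (j + 1) - 1) := by
  rw [alt, AlgHom.map_det, Matrix.det_succ_row _ (Fin.last N),
    Finset.sum_eq_single (0 : Fin (N + 1))]
  · have h1 : ((psi N).mapMatrix (Matrix.of fun i j : Fin (N + 1) =>
        (X (i : ℕ) : MvPolynomial ℕ ℂ) ^ e j)) (Fin.last N) 0 = 1 := by
      simp [he0]
    have h2 : (((psi N).mapMatrix (Matrix.of fun i j : Fin (N + 1) =>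
        (X (i : ℕ) : MvPolynomial ℕ ℂ) ^ e j)).submatrix (Fin.last N).succAbove
          (0 : Fin (N + 1)).succAbove).det =
        (Matrix.of fun i k : Fin N => (X (i : ℕ) : MvPolynomial ℕ ℂ) *
          (Matrix.of (fun i k : Fin N => (X (i : ℕ) : MvPolynomial ℕ ℂ) ^ (e (k + 1) - 1)) i k)).det
        := by
      congr 1
      ext1 i k
      simp only [Matrix.submatrix_apply, AlgHom.mapMatrix_apply, Matrix.map_apply, Matrix.of_apply,
        map_pow, Fin.succAbove_last, Fin.val_castSucc, Fin.succAbove_zero, Fin.val_succ]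
      rw [psi_X_of_lt i.2, ← pow_succ']
      congr 1
      have h3 : e 0 < e ((k : ℕ) + 1) := he (Nat.succ_pos (k : ℕ))
      omega
    rw [h1, h2, Matrix.det_mul_column, Fin.val_last, Fin.val_zero, add_zero, mul_one, alt,
      ← Fin.prod_univ_eq_prod_range]
  · intro j _ hj
    have h1 : ((psi N).mapMatrix (Matrix.of fun i j : Fin (N + 1) =>
        (X (i : ℕ) : MvPolynomial ℕ ℂ) ^ e j)) (Fin.last N) j = 0 := by
      have hpos : e j ≠ 0 := by
        have h3 : 0 < (j : ℕ) := Nat.pos_of_ne_zero fun h => hj (Fin.ext h)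
        have := he h3
        omega
      simp [psi_X_self, hpos]
    rw [h1, mul_zero, zero_mul]
  · intro h
    exact absurd (mem_univ _) h

theorem psi_schur (N : ℕ) {e : ℕ → ℕ} (he : StrictMono e) (he0 : e 0 = 0) :
    psi N (schur (N + 1) e) = schur N fun j => e (j + 1) - 1 := by
  have h1 := congrArg (psi N) (vdm_mul_schur (N + 1) e)
  rw [map_mul, psi_vdm_succ, psi_alt N he he0, ← vdm_mul_schur] at h1
  have hne : vdm N * ((-1) ^ N * ∏ i ∈ range N, (X i : MvPolynomial ℕ ℂ)) ≠ 0 := by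
    refine mul_ne_zero (SchurDefs.vdm_ne_zero N) (mul_ne_zero (pow_ne_zero _ (by simp)) ?_)
    exact Finset.prod_ne_zero_iff.2 fun i _ => MvPolynomial.X_ne_zero _
  refine mul_left_cancel₀ hne ?_
  rw [h1]
  ring

end SchurC

open SchurC in
/-- The top coefficient in the last variable. -/
theorem top_schur (N d : ℕ) {e : ℕ → ℕ} (he : StrictMono e) (heN : e N = d + N) (z : ℕ → ℂ) :
    (Polynomial.coeff (aeval (fun k => if k = N then (Polynomial.X : Polynomial ℂ)
      else Polynomial.C (z k)) (schur (N + 1) e)) d) = eval z (schur N e) := by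
  have h1 : ∀ p : MvPolynomial ℕ ℂ, aeval (fun k => if k = N then (Polynomial.X : Polynomial ℂ)
      else Polynomial.C (z k)) p = (phi N p).map (eval z) := by
    intro p
    have : (aeval (fun k => if k = N then (Polynomial.X : Polynomial ℂ)
        else Polynomial.C (z k)) : MvPolynomial ℕ ℂ →ₐ[ℂ] Polynomial ℂ).toRingHom =
        (Polynomial.mapRingHom (eval z)).comp (phi N).toRingHom := by
      apply MvPolynomial.ringHom_ext
      · intro r
        simp [phi, Polynomial.algebraMap_apply, MvPolynomial.algebraMap_eq]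
      · intro k
        by_cases hk : k = N
        · simp [phi, hk]
        · simp [phi, hk]
    exact DFunLike.congr_fun this p
  rw [h1, Polynomial.coeff_map, coeff_phi_schur N d he heN]

open SchurC in
/-- The value at zero of the last variable. -/
theorem zero_schur (N : ℕ) {e : ℕ → ℕ} (he : StrictMono e) (he0 : e 0 = 0) (z : ℕ → ℂ)
    (hz : z N = 0) :
    eval z (schur (N + 1) e) = eval z (schur N fun j => e (j + 1) - 1) := by
  have h1 : (eval z).comp (psi N).toRingHom = eval z := by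
    apply MvPolynomial.ringHom_ext
    · intro r
      simp [psi]
    · intro k
      by_cases hk : k = N
      · simp [psi, hk, hz]
      · simp [psi, hk]
  rw [← psi_schur N he he0]
  exact (DFunLike.congr_fun h1 _).symm

end Pool.Agent.Perc

end PartpercSchurC

section PartpercSchurA

/-!
# Schur polynomials: symmetry and degrees (task SchurA)
-/

set_option autoImplicit false

namespace Pool.Agent.Perc

open Finset MvPolynomial

theorem alt_id (N : ℕ) : alt N (fun j => j) = vdm N := by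
  have h : alt N (fun j => j) =
      (Matrix.vandermonde fun i : Fin N => (X (i : ℕ) : MvPolynomial ℕ ℂ)).det := rfl
  rw [h, Matrix.det_vandermonde, SchurDefs.vdm_eq_prs, Finset.prod_sigma']
  refine Finset.prod_bij' (fun p _ => ((p.2 : ℕ), (p.1 : ℕ)))
    (fun p hp => (⟨⟨p.2, ((SchurDefs.mem_prs.1 hp).2.trans (SchurDefs.mem_prs.1 hp).1)⟩,
      ⟨p.1, (SchurDefs.mem_prs.1 hp).1⟩⟩ : (_ : Fin N) × Fin N)) ?_ ?_ ?_ ?_ ?_
  · rintro ⟨a, b⟩ hp
    rw [SchurDefs.mem_prs]
    simp only [mem_sigma, mem_univ, mem_Ioi, true_and] at hp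
    exact ⟨b.2, hp⟩
  · intro p hp
    simp only [mem_sigma, mem_univ, mem_Ioi, true_and]
    exact (SchurDefs.mem_prs.1 hp).2
  · rintro ⟨a, b⟩ _; rfl
  · rintro ⟨a, b⟩ _; rfl
  · rintro ⟨a, b⟩ _; rfl

namespace SchurA

/-- The permutation of `Fin N` induced by a permutation of `ℕ` fixing `k ≥ N`. -/
theorem exists_fin_perm (N : ℕ) (π : Equiv.Perm ℕ) (hπ : ∀ k, N ≤ k → π k = k) :
    ∃ σ : Equiv.Perm (Fin N), ∀ i : Fin N, ((σ i : Fin N) : ℕ) = π i := by
  have hlt : ∀ k, k < N → π k < N := by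
    intro k hk
    by_contra h
    have h1 := hπ _ (not_lt.1 h)
    have h2 : π k = k := π.injective h1
    omega
  have hlt' : ∀ k, k < N → π.symm k < N := by
    intro k hk
    by_contra h
    have h1 := hπ _ (not_lt.1 h)
    rw [Equiv.apply_symm_apply] at h1
    omega
  refine ⟨⟨fun i => ⟨π i, hlt _ i.2⟩, fun i => ⟨π.symm i, hlt' _ i.2⟩, ?_, ?_⟩, ?_⟩
  · intro i; simp
  · intro i; simp
  · intro i; rfl

theorem rename_alt (N : ℕ) (e : ℕ → ℕ) (π : Equiv.Perm ℕ) (σ : Equiv.Perm (Fin N))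
    (hσ : ∀ i : Fin N, ((σ i : Fin N) : ℕ) = π i) :
    rename π (alt N e) = ((Equiv.Perm.sign σ : ℤ) : MvPolynomial ℕ ℂ) * alt N e := by
  rw [alt, AlgHom.map_det, ← Matrix.det_permute σ]
  congr 1
  ext1 i j
  simp [hσ]

end SchurA

open SchurA in
theorem rename_schur (N : ℕ) (e : ℕ → ℕ) (π : Equiv.Perm ℕ) (hπ : ∀ k, N ≤ k → π k = k) :
    rename π (schur N e) = schur N e := by
  obtain ⟨σ, hσ⟩ := exists_fin_perm N π hπ
  have h1 := congrArg (rename π) (vdm_mul_schur N e)
  rw [map_mul, rename_alt N e π σ hσ, ← alt_id, rename_alt N _ π σ hσ, alt_id,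
    ← vdm_mul_schur N e, mul_assoc] at h1
  have hs : ((Equiv.Perm.sign σ : ℤ) : MvPolynomial ℕ ℂ) ≠ 0 := by
    rcases Int.units_eq_one_or (Equiv.Perm.sign σ) with h | h <;> simp [h]
  exact mul_left_cancel₀ (SchurDefs.vdm_ne_zero N) (mul_left_cancel₀ hs h1)

theorem schur_perm (N : ℕ) (e : ℕ → ℕ) (π : Equiv.Perm ℕ) (hπ : ∀ k, N ≤ k → π k = k)
    (z : ℕ → ℂ) : eval (fun k => z (π k)) (schur N e) = eval z (schur N e) := by
  conv_rhs => rw [← rename_schur N e π hπ]
  rw [eval_rename]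
  rfl

namespace SchurA

theorem degreeOf_X_sub_X {j i k : ℕ} (hij : i < j) :
    (X j - X i : MvPolynomial ℕ ℂ).degreeOf k = (if k = j then 1 else 0) + if k = i then 1 else 0 := by
  have hne : Finsupp.single j 1 ≠ (Finsupp.single i 1 : ℕ →₀ ℕ) := by
    intro h
    have := (Finsupp.single_left_injective (one_ne_zero (α := ℕ))) h
    omega
  have hle := degreeOf_sub_le k (X j : MvPolynomial ℕ ℂ) (X i)
  rw [degreeOf_X, degreeOf_X] at hle
  have hj : Finsupp.single j 1 ∈ (X j - X i : MvPolynomial ℕ ℂ).support := by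
    rw [mem_support_iff, coeff_sub, coeff_X, coeff_X, if_neg hne.symm]
    simp
  have hi : Finsupp.single i 1 ∈ (X j - X i : MvPolynomial ℕ ℂ).support := by
    rw [mem_support_iff, coeff_sub, coeff_X, coeff_X, if_neg hne]
    simp
  by_cases h1 : k = j
  · subst h1
    have := monomial_le_degreeOf k hj
    rw [Finsupp.single_eq_same] at this
    rw [if_pos rfl, if_neg hij.ne'] at hle ⊢
    simp at hle ⊢
    omega
  · by_cases h2 : k = i
    · subst h2
      have := monomial_le_degreeOf k hi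
      rw [Finsupp.single_eq_same] at this
      rw [if_neg h1, if_pos rfl] at hle ⊢
      simp at hle ⊢
      omega
    · rw [if_neg h1, if_neg h2] at hle ⊢
      simpa using hle

theorem degreeOf_vdm {N k : ℕ} (hk : k < N) : (vdm N).degreeOf k = N - 1 := by
  rw [SchurDefs.vdm_eq_prs, degreeOf_prod_eq _ _ fun p hp =>
    (SchurDefs.prime_X_sub_X (SchurDefs.mem_prs.1 hp).2.ne').ne_zero,
    Finset.sum_congr rfl fun p hp => degreeOf_X_sub_X (SchurDefs.mem_prs.1 hp).2]
  have h := SchurDefs.prod_prs (M := Multiplicative ℕ) N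
    (fun j i => Multiplicative.ofAdd ((if k = j then 1 else 0) + if k = i then 1 else 0))
  have h' : ∑ p ∈ SchurDefs.prs N, ((if k = p.1 then 1 else 0) + if k = p.2 then 1 else 0) =
      ∑ j ∈ range N, ∑ i ∈ range j, ((if k = j then 1 else 0) + if k = i then 1 else 0) := h
  rw [h']
  have h2 : ∀ j ∈ range N, ∑ i ∈ range j, ((if k = j then 1 else 0) + if k = i then 1 else 0) =
      (if k = j then k else 0) + if k < j then 1 else 0 := by
    intro j _
    rw [Finset.sum_add_distrib, Finset.sum_const, Finset.sum_ite_eq, card_range]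
    by_cases h : k = j
    · subst h; simp
    · simp [h]
  rw [Finset.sum_congr rfl h2, Finset.sum_add_distrib, Finset.sum_ite_eq, if_pos (mem_range.2 hk),
    ← Finset.sum_filter, Finset.sum_const, smul_eq_mul, mul_one]
  have h3 : (range N).filter (fun j => k < j) = Ioo k N := by
    ext j; simp [and_comm]
  rw [h3, Nat.card_Ioo]
  omega

theorem degreeOf_term (N : ℕ) (e : ℕ → ℕ) (σ : Equiv.Perm (Fin N)) (k : ℕ) :
    (∏ i : Fin N, (X ((σ i : Fin N) : ℕ) : MvPolynomial ℕ ℂ) ^ e i).degreeOf k =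
      ∑ i : Fin N, if k = (σ i : Fin N) then e i else 0 := by
  rw [degreeOf_prod_eq _ _ fun i _ => pow_ne_zero _ (MvPolynomial.X_ne_zero _)]
  refine Finset.sum_congr rfl fun i _ => ?_
  rw [degreeOf_pow_eq _ _ _ (MvPolynomial.X_ne_zero _), degreeOf_X]
  split_ifs <;> simp

theorem degreeOf_sign_smul (u : ℤˣ) (p : MvPolynomial ℕ ℂ) (k : ℕ) :
    (u • p).degreeOf k = p.degreeOf k := by
  rcases Int.units_eq_one_or u with h | h
  · rw [h, one_smul]
  · rw [h, Units.neg_smul, one_smul, degreeOf_neg]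

theorem degreeOf_alt_le' (N : ℕ) (e : ℕ → ℕ) (k D : ℕ)
    (h : ∀ σ : Equiv.Perm (Fin N), ∑ i : Fin N, (if k = (σ i : Fin N) then e i else 0) ≤ D) :
    (alt N e).degreeOf k ≤ D := by
  rw [alt, Matrix.det_apply]
  refine (degreeOf_sum_le k _ _).trans (Finset.sup_le fun σ _ => ?_)
  rw [degreeOf_sign_smul]
  simp only [Matrix.of_apply]
  rw [degreeOf_term]
  exact h σ

theorem degreeOf_alt_le (N : ℕ) (e : ℕ → ℕ) {D : ℕ} (he : ∀ j < N, e j ≤ D) (k : ℕ) :
    (alt N e).degreeOf k ≤ D := by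
  refine degreeOf_alt_le' N e k D fun σ => ?_
  by_cases hk : k < N
  · have h1 : ∀ i : Fin N, (if k = (σ i : Fin N) then e i else 0) =
        if i = σ.symm ⟨k, hk⟩ then e i else 0 := by
      intro i
      have : k = (σ i : Fin N) ↔ i = σ.symm ⟨k, hk⟩ := by
        rw [Equiv.eq_symm_apply, Fin.ext_iff, eq_comm]
      simp only [this]
    rw [Finset.sum_congr rfl fun i _ => h1 i, Finset.sum_ite_eq', if_pos (mem_univ _)]
    exact he _ (σ.symm ⟨k, hk⟩).2
  · rw [Finset.sum_eq_zero]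
    · exact Nat.zero_le _
    · intro i _
      rw [if_neg]
      have := (σ i).2
      omega

theorem degreeOf_alt_out (N : ℕ) (e : ℕ → ℕ) {k : ℕ} (hk : N ≤ k) :
    (alt N e).degreeOf k = 0 := by
  refine Nat.le_zero.1 (degreeOf_alt_le' N e k 0 fun σ => ?_)
  rw [Finset.sum_eq_zero]
  intro i _
  rw [if_neg]
  have := (σ i).2
  omega

end SchurA

open SchurA in
theorem degreeOf_schur_out (N : ℕ) (e : ℕ → ℕ) {k : ℕ} (hk : N ≤ k) :
    (schur N e).degreeOf k = 0 := by
  by_cases h0 : schur N e = 0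
  · rw [h0, degreeOf_zero]
  have h1 := degreeOf_mul_eq (n := k) (SchurDefs.vdm_ne_zero N) h0
  rw [vdm_mul_schur, degreeOf_alt_out N e hk] at h1
  omega

open SchurA in
theorem degreeOf_schur_le (N : ℕ) (e : ℕ → ℕ) {d : ℕ} (he : ∀ j < N, e j ≤ d + (N - 1)) (k : ℕ) :
    (schur N e).degreeOf k ≤ d := by
  by_cases h0 : schur N e = 0
  · rw [h0, degreeOf_zero]; exact Nat.zero_le _
  rcases le_or_gt N k with hk | hk
  · rw [degreeOf_schur_out N e hk]; exact Nat.zero_le _
  have h1 := degreeOf_mul_eq (n := k) (SchurDefs.vdm_ne_zero N) h0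
  rw [vdm_mul_schur, degreeOf_vdm hk] at h1
  have h2 := degreeOf_alt_le N e he k
  omega

end Pool.Agent.Perc

end PartpercSchurA

section PartpercSchurB

/-!
# Schur polynomials: evaluation at 1 (task SchurB)
-/

set_option autoImplicit false

namespace Pool.Agent.Perc

open Finset MvPolynomial

namespace SchurB

/-- `X^b - X^a = (X - 1) (X^a + … + X^(b-1))`. -/
theorem pow_sub_pow_eq {a b : ℕ} (hab : a ≤ b) :
    (Polynomial.X : Polynomial ℂ) ^ b - Polynomial.X ^ a =
      (Polynomial.X - 1) * ∑ k ∈ Ico a b, Polynomial.X ^ k := by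
  induction b, hab using Nat.le_induction with
  | base => simp
  | succ b hb ih =>
    rw [Finset.sum_Ico_succ_top hb, mul_add, ← ih]
    ring

/-- The specialisation `X_i ↦ q^i`. -/
noncomputable def spec : MvPolynomial ℕ ℂ →ₐ[ℂ] Polynomial ℂ :=
  aeval fun i => (Polynomial.X : Polynomial ℂ) ^ i

theorem spec_alt (N : ℕ) (e : ℕ → ℕ) :
    spec (alt N e) = ∏ p ∈ SchurDefs.prs N,
      ((Polynomial.X : Polynomial ℂ) ^ e p.1 - Polynomial.X ^ e p.2) := by
  have h1 : spec (alt N e) =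
      (aeval (fun i => (Polynomial.X : Polynomial ℂ) ^ e i) (vdm N)) := by
    rw [← alt_id, alt, AlgHom.map_det, alt, AlgHom.map_det, ← Matrix.det_transpose]
    congr 1
    ext1 i j
    simp only [AlgHom.mapMatrix_apply, Matrix.transpose_apply, Matrix.map_apply, Matrix.of_apply,
      map_pow, spec, aeval_X]
    rw [← pow_mul, ← pow_mul, mul_comm]
  rw [h1, SchurDefs.vdm_eq_prs, map_prod]
  simp

theorem eval_spec (p : MvPolynomial ℕ ℂ) : (spec p).eval 1 = eval (fun _ => 1) p := by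
  have : (Polynomial.evalRingHom (1 : ℂ)).comp spec.toRingHom = eval (fun _ => 1) := by
    apply MvPolynomial.ringHom_ext
    · intro r; simp [spec]
    · intro i; simp [spec]
  exact DFunLike.congr_fun this p

end SchurB

open SchurB in
/-- Evaluation at `1, …, 1`. -/
theorem eval_one_schur (N : ℕ) {e : ℕ → ℕ} (he : StrictMono e) :
    eval (fun _ => 1) (schur N e) * ∏ j ∈ range N, ∏ i ∈ range j, ((j : ℂ) - i) =
      ∏ j ∈ range N, ∏ i ∈ range j, ((e j : ℂ) - e i) := by
  have key : ∀ e : ℕ → ℕ, StrictMono e → spec (alt N e) =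
      (Polynomial.X - 1) ^ (SchurDefs.prs N).card * ∏ p ∈ SchurDefs.prs N,
        ∑ k ∈ Ico (e p.2) (e p.1), (Polynomial.X : Polynomial ℂ) ^ k := by
    intro e he
    rw [spec_alt, ← Finset.prod_const, ← Finset.prod_mul_distrib]
    exact Finset.prod_congr rfl fun p hp =>
      pow_sub_pow_eq (he.monotone (SchurDefs.mem_prs.1 hp).2.le)
  have ev : ∀ e : ℕ → ℕ, StrictMono e → (∏ p ∈ SchurDefs.prs N,
        ∑ k ∈ Ico (e p.2) (e p.1), (Polynomial.X : Polynomial ℂ) ^ k).eval 1 =
      ∏ j ∈ range N, ∏ i ∈ range j, ((e j : ℂ) - e i) := by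
    intro e he
    rw [Polynomial.eval_prod, ← SchurDefs.prod_prs N (fun j i => ((e j : ℂ) - e i))]
    refine Finset.prod_congr rfl fun p hp => ?_
    have hle := he.monotone (SchurDefs.mem_prs.1 hp).2.le
    simp [Polynomial.eval_finsetSum, Nat.cast_sub hle]
  have h1 := congrArg spec (vdm_mul_schur N e)
  rw [map_mul, ← alt_id, key (fun j => j) strictMono_id, key e he, mul_assoc] at h1
  have hX : ((Polynomial.X : Polynomial ℂ) - 1) ^ (SchurDefs.prs N).card ≠ 0 :=
    pow_ne_zero _ (Polynomial.X_sub_C_ne_zero (1 : ℂ))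
  have h2 := congrArg (Polynomial.eval 1) (mul_left_cancel₀ hX h1)
  rw [Polynomial.eval_mul, ev e he, ev (fun j => j) strictMono_id, eval_spec] at h2
  rw [mul_comm]
  exact h2

end Pool.Agent.Perc

end PartpercSchurB

section PartpercSchur



end PartpercSchur
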