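import Pool.Agent.Lib.MP_6bd702_z.Z050
import Pool.Agent.Lib.MP_6bd702_z.Z058

/-!
# The sum rule: definitions
-/

set_option autoImplicit false

namespace Pool.Agent.Perc

open Finset MvPolynomial

/-- The exponents `0, 1, 3, 4, 6, 7, …`. -/
def eS3 (j : ℕ) : ℕ := 3 * (j / 2) + j % 2

/-- The sum of the components at `1, …, 1`. -/
noncomputable def sumPsi (q : ℂ) (n : ℕ) : ℂ := ∑ π ∈ pats (2 * n), eval (fun _ => 1) (Psi q n π)

/-- `Ξ`: the coefficient of `y ^ n` of `Ψ(z, y, 0)` at `z = 1`. -/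
noncomputable def Xi (q : ℂ) (n : ℕ) (π : ℕ → ℕ) : ℂ :=
  Polynomial.coeff (aeval (fun k => if k = 2 * n then (Polynomial.X : Polynomial ℂ)
    else if k = 2 * n + 1 then 0 else 1) (Psi q (n + 1) π)) n

end Pool.Agent.Perc
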