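import Pool.Agent.Lib.MP_6bd702_z.Z059

/-!
# The sum rule: Schur polynomial (task SumA)
-/

set_option autoImplicit false

namespace Pool.Agent.Perc

open Finset MvPolynomial

namespace SumA

theorem strictMono_eS3 : StrictMono eS3 := by
  apply strictMono_nat_of_lt_succ
  intro n
  unfold eS3
  omega

theorem eS3_zero : eS3 0 = 0 := rfl

theorem q_ne_one {q : ℂ} (hq : q ^ 2 + q + 1 = 0) : q ≠ 1 := by
  rintro rfl
  norm_num at hq

theorem q_ne_zero {q : ℂ} (hq : q ^ 2 + q + 1 = 0) : q ≠ 0 := by
  rintro rfl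
  norm_num at hq

theorem q_cube {q : ℂ} (hq : q ^ 2 + q + 1 = 0) : q ^ 3 = 1 := by linear_combination (q - 1) * hq

theorem norm_q {q : ℂ} (hq : q ^ 2 + q + 1 = 0) : ‖q‖ = 1 := by
  have h3 : q ^ 3 = 1 := q_cube hq
  have h4 : ‖q‖ ^ 3 = 1 := by rw [← norm_pow, h3, norm_one]
  exact (pow_eq_one_iff_of_nonneg (norm_nonneg q) (by norm_num)).1 h4

theorem q2_ne_one {q : ℂ} (hq : q ^ 2 + q + 1 = 0) : q ^ 2 ≠ 1 := by
  intro h
  apply q_ne_one hq
  have h3 := q_cube hq
  calc q = q ^ 3 := by rw [pow_succ, h, one_mul]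
    _ = 1 := h3

theorem q2_ne_q {q : ℂ} (hq : q ^ 2 + q + 1 = 0) : q ^ 2 ≠ q := by
  intro h
  have h1 : q * (q - 1) = 0 := by linear_combination h
  rcases mul_eq_zero.1 h1 with h2 | h2
  · exact q_ne_zero hq h2
  · exact q_ne_one hq (sub_eq_zero.1 h2)

theorem vdm_ne_zero (N : ℕ) : vdm N ≠ 0 := by
  rw [vdm, Finset.prod_ne_zero_iff]
  intro j _
  rw [Finset.prod_ne_zero_iff]
  intro i hi h0
  rw [mem_range] at hi
  have := X_injective (sub_eq_zero.1 h0)
  omega

theorem eval_alt (N : ℕ) (e : ℕ → ℕ) (z : ℕ → ℂ) :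
    eval z (alt N e) = (Matrix.of fun i j : Fin N => z i ^ e j).det := by
  rw [alt, RingHom.map_det]
  congr 1
  ext i j
  simp

/-- the alternant vanishes at wheel points -/
theorem eval_alt_wheel {q : ℂ} (hq : q ^ 2 + q + 1 = 0) (N : ℕ) (z : ℕ → ℂ) {i j k : ℕ}
    (hij : i < j) (hjk : j < k) (hk : k < N) (h1 : z i = q ^ 2 * z j) (h2 : z j = q ^ 2 * z k) :
    eval z (alt N eS3) = 0 := by
  rw [eval_alt]
  apply Matrix.exists_vecMul_eq_zero_iff.1
  refine ⟨fun l => if (l : ℕ) = k then 1 else if (l : ℕ) = j then q ^ 2 else if (l : ℕ) = i then q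
    else 0, ?_, ?_⟩
  · intro h0
    have := congrFun h0 ⟨k, hk⟩
    simp at this
  · funext c
    rw [Matrix.vecMul, dotProduct]
    have h3 : ∀ l : Fin N, (if (l : ℕ) = k then (1 : ℂ) else if (l : ℕ) = j then q ^ 2
        else if (l : ℕ) = i then q else 0) * (Matrix.of fun i j : Fin N => z i ^ eS3 j) l c =
        (if l = ⟨k, hk⟩ then z k ^ eS3 c else 0) +
        (if l = ⟨j, hjk.trans hk⟩ then q ^ 2 * z j ^ eS3 c else 0) +
        (if l = ⟨i, (hij.trans hjk).trans hk⟩ then q * z i ^ eS3 c else 0) := by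
      intro l
      rw [Matrix.of_apply]
      simp only [Fin.ext_iff]
      by_cases e1 : (l : ℕ) = k
      · rw [if_pos e1, if_pos e1, if_neg (by omega), if_neg (by omega), e1]
        ring
      · by_cases e2 : (l : ℕ) = j
        · rw [if_neg e1, if_pos e2, if_neg (by omega), if_pos e2, if_neg (by omega), e2]
          ring
        · by_cases e3 : (l : ℕ) = i
          · rw [if_neg e1, if_neg e2, if_pos e3, if_neg (by omega), if_neg (by omega), if_pos e3,
              e3]
            ring
          · rw [if_neg e1, if_neg e2, if_neg e3, if_neg e1, if_neg e2, if_neg e3]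
            ring
    rw [Finset.sum_congr rfl fun l _ => h3 l, Finset.sum_add_distrib, Finset.sum_add_distrib,
      Finset.sum_ite_eq' , Finset.sum_ite_eq', Finset.sum_ite_eq', if_pos (mem_univ _),
      if_pos (mem_univ _), if_pos (mem_univ _), Pi.zero_apply, h1, h2]
    have hc := q_cube hq
    have h6 : q ^ 6 = 1 := by rw [show (6 : ℕ) = 3 * 2 from rfl, pow_mul, hc, one_pow]
    have hmod : (eS3 c) % 3 = 0 ∨ (eS3 c) % 3 = 1 := by
      unfold eS3
      omega
    obtain ⟨a, ha⟩ : ∃ a, eS3 c = 3 * a + (eS3 c) % 3 := ⟨eS3 c / 3, by omega⟩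
    have e1 : (q ^ 2) ^ (eS3 c) = (q ^ 2) ^ (eS3 c % 3) := by
      rw [ha, pow_add, pow_mul, ← pow_mul q, show 2 * 3 = 6 from rfl, h6, one_pow, one_mul]
      congr 1
      omega
    have e2 : (q ^ 2 * (q ^ 2 * z k)) ^ eS3 c = (q ^ 2) ^ (eS3 c % 3) * (q ^ 2) ^ (eS3 c % 3) *
        z k ^ eS3 c := by
      rw [mul_pow, mul_pow, e1]
      ring
    have e3 : (q ^ 2 * z k) ^ eS3 c = (q ^ 2) ^ (eS3 c % 3) * z k ^ eS3 c := by
      rw [mul_pow, e1]
    rw [e2, e3]
    rcases hmod with h | h
    · rw [h]
      linear_combination (z k ^ eS3 c) * hq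
    · rw [h]
      linear_combination (z k ^ eS3 c) * hq + (q ^ 2 + q) * (z k ^ eS3 c) * hc - 0 * hq

theorem eval_zero_of_line {A B : MvPolynomial ℕ ℂ} (z w : ℕ → ℂ)
    (hA : aeval (fun k => Polynomial.C (z k) + Polynomial.C (w k) * Polynomial.X) A ≠ 0)
    (h : ∀ t : ℂ, eval (fun k => z k + w k * t) (A * B) = 0) : eval z B = 0 := by
  have key : ∀ (P : MvPolynomial ℕ ℂ) (t : ℂ),
      Polynomial.eval t (aeval (fun k => Polynomial.C (z k) + Polynomial.C (w k) * Polynomial.X) P)
        = eval (fun k => z k + w k * t) P := by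
    intro P t
    induction P using MvPolynomial.induction_on with
    | C a => simp
    | add p r hp hr => rw [map_add, Polynomial.eval_add, hp, hr, map_add]
    | mul_X p k hp =>
      rw [map_mul, Polynomial.eval_mul, hp, map_mul, aeval_X, eval_X]
      simp
  have h0 : aeval (fun k => Polynomial.C (z k) + Polynomial.C (w k) * Polynomial.X) (A * B) = 0 := by
    apply Polynomial.funext
    intro t
    rw [key, h, Polynomial.eval_zero]
  rw [map_mul] at h0
  rcases mul_eq_zero.1 h0 with h1 | h1
  · exact absurd h1 hA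
  · have h2 := key B 0
    rw [h1, Polynomial.eval_zero] at h2
    simpa using h2.symm

theorem wheel_schur {q : ℂ} (hq : q ^ 2 + q + 1 = 0) (m : ℕ) : Wheel q m (schur (2 * m) eS3) := by
  refine ⟨?_, ?_, ?_⟩
  · intro k _
    apply degreeOf_schur_le
    intro j hj
    unfold eS3
    omega
  · intro k hk
    exact degreeOf_schur_out _ _ hk
  · intro z a b c hab hbc hc h1 h2
    let w : ℕ → ℂ := fun k => if k = c then 1 else if k = b then q ^ 2 else if k = a then q
      else (5 + k : ℕ)
    have hwc : w c = 1 := if_pos rfl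
    have hwb : w b = q ^ 2 := by
      simp only [w]
      rw [if_neg (by omega)]
      simp
    have hwa : w a = q := by
      simp only [w]
      rw [if_neg (by omega), if_neg (by omega)]
      simp
    have hwo : ∀ k, k ≠ a → k ≠ b → k ≠ c → w k = (5 + k : ℕ) := by
      intro k h1 h2 h3
      simp only [w]
      rw [if_neg h3, if_neg h2, if_neg h1]
    have hnq := norm_q hq
    have hnorm : ∀ k, k = a ∨ k = b ∨ k = c → ‖w k‖ = 1 := by
      rintro k (rfl | rfl | rfl)
      · rw [hwa, hnq]
      · rw [hwb, norm_pow, hnq, one_pow]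
      · rw [hwc, norm_one]
    have hnorm' : ∀ k, ¬ (k = a ∨ k = b ∨ k = c) → ‖w k‖ = 5 + k := by
      intro k hk
      push Not at hk
      rw [hwo k hk.1 hk.2.1 hk.2.2, Complex.norm_natCast]
      push_cast
      ring
    have hinj : ∀ i j : ℕ, i < j → w i ≠ w j := by
      intro i j hij hcon
      by_cases h3 : i = a ∨ i = b ∨ i = c
      · by_cases h4 : j = a ∨ j = b ∨ j = c
        · have h5 : (i = a ∧ j = b) ∨ (i = b ∧ j = c) ∨ (i = a ∧ j = c) := by omega
          rcases h5 with ⟨h5, h6⟩ | ⟨h5, h6⟩ | ⟨h5, h6⟩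
          · rw [h6, h5, hwa, hwb] at hcon
            exact q2_ne_q hq hcon.symm
          · rw [h6, h5, hwb, hwc] at hcon
            exact q2_ne_one hq hcon
          · rw [h6, h5, hwa, hwc] at hcon
            exact q_ne_one hq hcon
        · have h5 := hnorm i h3
          have h6 := hnorm' j h4
          rw [hcon, h6] at h5
          have : (0 : ℝ) ≤ j := Nat.cast_nonneg j
          linarith
      · by_cases h4 : j = a ∨ j = b ∨ j = c
        · have h5 := hnorm' i h3
          have h6 := hnorm j h4
          rw [hcon, h6] at h5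
          have : (0 : ℝ) ≤ i := Nat.cast_nonneg i
          linarith
        · have h5 := hnorm' i h3
          have h6 := hnorm' j h4
          rw [hcon, h6] at h5
          have : (i : ℝ) < j := by exact_mod_cast hij
          linarith
    apply eval_zero_of_line (A := vdm (2 * m)) z w
    · rw [vdm, map_prod, Finset.prod_ne_zero_iff]
      intro j _
      rw [map_prod, Finset.prod_ne_zero_iff]
      intro i hi h0
      rw [mem_range] at hi
      rw [map_sub, aeval_X, aeval_X] at h0
      have h3 := congrArg (fun P => Polynomial.coeff P 1) h0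
      simp only [Polynomial.coeff_sub, Polynomial.coeff_add, Polynomial.coeff_C_mul,
        Polynomial.coeff_X_one, Polynomial.coeff_zero] at h3
      rw [Polynomial.coeff_C_succ, Polynomial.coeff_C_succ] at h3
      apply hinj i j hi
      linear_combination -h3
    · intro t
      rw [vdm_mul_schur]
      apply eval_alt_wheel hq (2 * m) _ hab hbc hc
      · rw [hwa, hwb, h1]
        linear_combination (-(q ^ 2 - q) * t) * hq
      · rw [hwb, hwc, h2]
        ring

/-- shifting all the exponents by one -/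
theorem schur_add_one (N : ℕ) (e : ℕ → ℕ) :
    schur N (fun j => e j + 1) = (∏ i ∈ range N, X i) * schur N e := by
  apply mul_left_cancel₀ (vdm_ne_zero N)
  rw [vdm_mul_schur, mul_left_comm, vdm_mul_schur]
  have h := Matrix.det_mul_column (fun i : Fin N => (X (i : ℕ) : MvPolynomial ℕ ℂ))
    (Matrix.of fun i j : Fin N => (X (i : ℕ) : MvPolynomial ℕ ℂ) ^ e j)
  rw [Finset.prod_range fun i => (X i : MvPolynomial ℕ ℂ), alt, alt, ← h]
  congr 1
  ext i j
  simp [pow_succ']

/-- restriction -/
theorem schur_restrict {q : ℂ} (hq : q ^ 2 + q + 1 = 0) (m : ℕ) (z : ℕ → ℂ) (v : ℂ) :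
    eval (insV (2 * m) (q ^ 2 * v) v z) (schur (2 * (m + 1)) eS3) =
      (∏ k ∈ range (2 * m), (z k - q * v)) * eval z (schur (2 * m) eS3) := by
  obtain ⟨R, hR, hR'⟩ := (wheel_schur hq (m + 1)).restrict hq (i := 2 * m) (by omega)
  have hRS : R = schur (2 * m) eS3 := by
    have h1 : (∏ i ∈ range (2 * m), (X i : MvPolynomial ℕ ℂ)) * (R - schur (2 * m) eS3) = 0 := by
      apply MvPolynomial.funext
      intro z
      have h2 := hR' z 0
      have h3 := zero_schur (2 * m + 1) strictMono_eS3 eS3_zero (insV (2 * m) (q ^ 2 * 0) 0 z)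
        (by simp [insV])
      have h4 : StrictMono fun j => eS3 (j + 1) - 1 := by
        apply strictMono_nat_of_lt_succ
        intro n
        unfold eS3
        omega
      have h5 := zero_schur (2 * m) h4 rfl (insV (2 * m) (q ^ 2 * 0) 0 z) (by simp [insV])
      have h6 : (fun j => (fun j => eS3 (j + 1) - 1) (j + 1) - 1) = fun j => eS3 j + 1 := by
        funext j
        simp only [eS3]
        omega
      rw [h6, schur_add_one] at h5
      have h7 : ∀ P : MvPolynomial ℕ ℂ, (∀ k, 2 * m ≤ k → P.degreeOf k = 0) →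
          eval (insV (2 * m) (q ^ 2 * 0) 0 z) P = eval z P := by
        intro P hP
        apply MvPolynomial.eval₂Hom_congr' rfl
        · intro k hk _
          have h8 : k < 2 * m := by
            by_contra h9
            have h10 := hP k (by omega)
            rw [MvPolynomial.mem_vars_iff_mem_support] at hk
            obtain ⟨d, hd, hd'⟩ := hk
            have h11 := monomial_le_degreeOf k hd
            exact (Finsupp.mem_support_iff.1 hd') (by omega)
          simp [insV, h8]
        · rfl
      have h8 : eval (insV (2 * m) (q ^ 2 * 0) 0 z) (∏ i ∈ range (2 * m), X i) =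
          ∏ i ∈ range (2 * m), z i := by
        rw [map_prod]
        refine Finset.prod_congr rfl fun i hi => ?_
        rw [mem_range] at hi
        simp [insV, hi]
      have h9 : 2 * (m + 1) = 2 * m + 1 + 1 := rfl
      rw [map_mul, h8, h7 _ fun k hk => degreeOf_schur_out _ _ hk] at h5
      rw [h9, h3, h5] at h2
      simp only [mul_zero, sub_zero] at h2
      rw [map_mul, map_prod, map_sub, map_zero]
      simp only [eval_X]
      linear_combination -h2
    rcases mul_eq_zero.1 h1 with h2 | h2
    · rw [Finset.prod_eq_zero_iff] at h2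
      obtain ⟨k, _, hk⟩ := h2
      exact absurd hk (X_ne_zero k)
    · exact sub_eq_zero.1 h2
  rw [hR', hRS]

/-- moving the inserted pair to the end -/
def mv (k N : ℕ) (h : k ≤ N) : Equiv.Perm ℕ where
  toFun x := if x < k then x else if x = k then N else if x = k + 1 then N + 1
    else if x < N + 2 then x - 2 else x
  invFun x := if x < k then x else if x < N then x + 2 else if x = N then k
    else if x = N + 1 then k + 1 else x
  left_inv x := by
    dsimp only
    split_ifs <;> omega
  right_inv x := by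
    dsimp only
    split_ifs <;> omega

theorem eval_insV (N : ℕ) (e : ℕ → ℕ) {k : ℕ} (hk : k ≤ N) (u v : ℂ) (z : ℕ → ℂ) :
    eval (insV k u v z) (schur (N + 2) e) = eval (insV N u v z) (schur (N + 2) e) := by
  rw [← schur_perm (N + 2) e (mv k N hk) (by
    intro x hx
    simp only [mv, Equiv.coe_fn_mk]
    split_ifs <;> omega) (insV N u v z)]
  congr 1
  congr 1
  funext x
  simp only [mv, Equiv.coe_fn_mk, insV]
  by_cases h1 : x < k
  · rw [if_pos h1, if_pos h1, if_pos (by omega)]
  · by_cases h2 : x = k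
    · rw [if_neg h1, if_pos h2, if_neg h1, if_pos h2, if_neg (by omega), if_pos rfl]
    · by_cases h3 : x = k + 1
      · rw [if_neg h1, if_neg h2, if_pos h3, if_neg h1, if_neg h2, if_pos h3, if_neg (by omega),
          if_neg (by omega), if_pos rfl]
      · by_cases h4 : x < N + 2
        · rw [if_neg h1, if_neg h2, if_neg h3, if_neg h1, if_neg h2, if_neg h3, if_pos h4,
            if_pos (by omega)]
        · rw [if_neg h1, if_neg h2, if_neg h3, if_neg h1, if_neg h2, if_neg h3, if_neg h4,
            if_neg (by omega), if_neg (by omega), if_neg (by omega)]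

theorem eval_zpt_schur {q : ℂ} (hq : q ^ 2 + q + 1 = 0) (m : ℕ) : ∀ p, NC (2 * m) p →
    eval (zpt q p) (schur (2 * m) eS3) = (3 * q ^ 2) ^ (m * (m - 1) / 2) := by
  induction m with
  | zero =>
    intro p _
    have h := vdm_mul_schur 0 eS3
    have h1 : vdm 0 = 1 := by simp [vdm]
    have h2 : alt 0 eS3 = 1 := by simp [alt]
    rw [h1, h2, one_mul] at h
    rw [mul_zero, h]
    simp
  | succ m ih =>
    intro p hp
    obtain ⟨k, hk, hpk⟩ := hp.exists_small (by omega)
    have hp' : NC (2 * m + 2) p := hp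
    have hdel : NC (2 * m) (delArc k p) := hp'.delArc (by omega) hpk
    have hins : insArc k (delArc k p) = p := insArc_delArc hp' (by omega) hpk
    have e1 := insV_zpt (q := q) hdel (i := k) (by omega)
    rw [hins] at e1
    rw [← e1]
    have e2 := eval_insV (2 * m) eS3 (k := k) (by omega) (q ^ 2) 1 (zpt q (delArc k p))
    have e3 := schur_restrict hq m (zpt q (delArc k p)) 1
    rw [mul_one, mul_one, prod_zpt hq hdel, ih _ hdel] at e3
    have e4 : 2 * (m + 1) = 2 * m + 2 := rfl
    rw [e4] at e3 ⊢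
    rw [e2, e3, ← pow_add]
    congr 1
    have h5 : (m + 1) * (m + 1 - 1) = m * (m - 1) + m * 2 := by
      rcases m with _ | m
      · rfl
      · simp only [Nat.add_sub_cancel]
        ring
    rw [h5, Nat.add_mul_div_right _ _ (by norm_num)]
    omega

end SumA

/-- The Schur polynomial is a wheel polynomial with equal values at all link patterns. -/
theorem sum_Psi_eq_schur {q : ℂ} (hq : q ^ 2 + q + 1 = 0) (m : ℕ) :
    C ((3 * q ^ 2) ^ (m * (m - 1) / 2)) * ∑ π ∈ pats (2 * m), Psi q m π = schur (2 * m) eS3 := by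
  rw [(SumA.wheel_schur hq m).eq_sum_Psi hq, Finset.mul_sum]
  refine Finset.sum_congr rfl fun π hπ => ?_
  rw [SumA.eval_zpt_schur hq m π (mem_pats.1 hπ)]

end Pool.Agent.Perc
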