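import Pool.Agent.Lib.MP_6bd702_z.Z059
import Pool.Agent.Lib.MP_6bd702_z.Z062

/-!
# The sum rule: values (task SumB)
-/

set_option autoImplicit false

namespace Pool.Agent.Perc

open Finset MvPolynomial

namespace SumB

lemma strictMono_eS3 : StrictMono eS3 := by
  refine strictMono_nat_of_lt_succ fun j => ?_
  unfold eS3
  omega

/-- the exponents `0, 2, 3, 5, 6, …` -/
def eP (j : ℕ) : ℕ := eS3 (j + 1) - 1

lemma strictMono_eP : StrictMono eP := by
  refine strictMono_nat_of_lt_succ fun j => ?_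
  unfold eP eS3
  omega

lemma prod_two (g : ℕ → ℂ) (n : ℕ) :
    ∏ i ∈ range (2 * n), g i = ∏ k ∈ range n, (g (2 * k) * g (2 * k + 1)) := by
  induction n with
  | zero => simp
  | succ n ih =>
    rw [show 2 * (n + 1) = 2 * n + 1 + 1 by ring, prod_range_succ, prod_range_succ, ih,
      prod_range_succ, mul_assoc]

lemma eS3_even (k : ℕ) : ((eS3 (2 * k) : ℕ) : ℂ) = 3 * k := by
  have : eS3 (2 * k) = 3 * k := by unfold eS3; omega
  rw [this]; push_cast; ring

lemma eS3_odd (k : ℕ) : ((eS3 (2 * k + 1) : ℕ) : ℂ) = 3 * k + 1 := by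
  have : eS3 (2 * k + 1) = 3 * k + 1 := by unfold eS3; omega
  rw [this]; push_cast; ring

lemma eP_even (k : ℕ) : ((eP (2 * k) : ℕ) : ℂ) = 3 * k := by
  have : eP (2 * k) = 3 * k := by unfold eP eS3; omega
  rw [this]; push_cast; ring

lemma eP_odd (k : ℕ) : ((eP (2 * k + 1) : ℕ) : ℂ) = 3 * k + 2 := by
  have : eP (2 * k + 1) = 3 * k + 2 := by unfold eP eS3; omega
  rw [this]; push_cast; ring

lemma reflect (g : ℂ → ℂ) (n : ℕ) :
    ∏ k ∈ range n, g ((n : ℂ) - k) = ∏ k ∈ range n, g ((k : ℂ) + 1) := by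
  rw [← Finset.prod_range_reflect (fun k => g ((k : ℂ) + 1)) n]
  refine prod_congr rfl fun k hk => ?_
  rw [mem_range] at hk
  have : ((n - 1 - k : ℕ) : ℂ) = n - 1 - k := by
    rw [Nat.sub_sub, Nat.cast_sub (by omega)]
    push_cast
    ring
  rw [this]
  congr 1
  ring

lemma telescope (n : ℕ) :
    (3 * (n : ℂ) + 1) * (2 * ∏ k ∈ range n, ((3 * ((k : ℂ) + 1) - 2) * (3 * ((k : ℂ) + 1) + 2)))
      = (3 * n + 2) * ∏ k ∈ range n, ((3 * ((k : ℂ) + 1) - 1) * (3 * ((k : ℂ) + 1) + 1)) := by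
  induction n with
  | zero => simp
  | succ n ih =>
    rw [prod_range_succ, prod_range_succ]
    push_cast
    linear_combination (3 * (n : ℂ) + 4) * (3 * n + 5) * ih

/-- the double products -/
noncomputable def dd (e : ℕ → ℕ) (N : ℕ) : ℂ := ∏ j ∈ range N, ∏ i ∈ range j, ((e j : ℂ) - e i)

lemma dd_ne_zero {e : ℕ → ℕ} (he : StrictMono e) (N : ℕ) : dd e N ≠ 0 := by
  unfold dd
  rw [prod_ne_zero_iff]
  intro j _
  rw [prod_ne_zero_iff]
  intro i hi
  rw [mem_range] at hi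
  have := he hi
  rw [sub_ne_zero]
  exact_mod_cast this.ne'

lemma dd_step (e : ℕ → ℕ) (n : ℕ) : dd e (2 * (n + 1)) = dd e (2 * n)
    * ((∏ i ∈ range (2 * n), ((e (2 * n) : ℂ) - e i))
      * ((∏ i ∈ range (2 * n), ((e (2 * n + 1) : ℂ) - e i)) * ((e (2 * n + 1) : ℂ) - e (2 * n)))) := by
  unfold dd
  rw [show 2 * (n + 1) = 2 * n + 1 + 1 by ring, prod_range_succ, prod_range_succ,
    prod_range_succ (fun i => ((e (2 * n + 1) : ℂ) - e i))]
  ring

lemma ne1 (k : ℕ) : (3 * (k : ℂ) + 1) ≠ 0 := by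
  have : (3 * (k : ℂ) + 1) = ((3 * k + 1 : ℕ) : ℂ) := by push_cast; ring
  rw [this]
  exact Nat.cast_ne_zero.mpr (by omega)

lemma ratio (n : ℕ) : dd eP (2 * n) = (∏ k ∈ range n, ((3 * k + 2 : ℂ) / (3 * k + 1))) * dd eS3 (2 * n) := by
  induction n with
  | zero => simp [dd]
  | succ n ih =>
    rw [dd_step, dd_step, ih, prod_range_succ]
    have h1 : ∏ i ∈ range (2 * n), ((eP (2 * n) : ℂ) - eP i)
        = ∏ k ∈ range n, ((3 * ((k : ℂ) + 1)) * (3 * ((k : ℂ) + 1) - 2)) := by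
      rw [prod_two, ← reflect (fun x => (3 * x) * (3 * x - 2))]
      refine prod_congr rfl fun k _ => ?_
      rw [eP_even, eP_even, eP_odd]
      ring
    have h2 : ∏ i ∈ range (2 * n), ((eP (2 * n + 1) : ℂ) - eP i)
        = ∏ k ∈ range n, ((3 * ((k : ℂ) + 1) + 2) * (3 * ((k : ℂ) + 1))) := by
      rw [prod_two, ← reflect (fun x => (3 * x + 2) * (3 * x))]
      refine prod_congr rfl fun k _ => ?_
      rw [eP_even, eP_odd, eP_odd]
      ring
    have h3 : ∏ i ∈ range (2 * n), ((eS3 (2 * n) : ℂ) - eS3 i)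
        = ∏ k ∈ range n, ((3 * ((k : ℂ) + 1)) * (3 * ((k : ℂ) + 1) - 1)) := by
      rw [prod_two, ← reflect (fun x => (3 * x) * (3 * x - 1))]
      refine prod_congr rfl fun k _ => ?_
      rw [eS3_even, eS3_even, eS3_odd]
      ring
    have h4 : ∏ i ∈ range (2 * n), ((eS3 (2 * n + 1) : ℂ) - eS3 i)
        = ∏ k ∈ range n, ((3 * ((k : ℂ) + 1) + 1) * (3 * ((k : ℂ) + 1))) := by
      rw [prod_two, ← reflect (fun x => (3 * x + 1) * (3 * x))]
      refine prod_congr rfl fun k _ => ?_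
      rw [eS3_even, eS3_odd, eS3_odd]
      ring
    rw [h1, h2, h3, h4, eP_even, eP_odd, eS3_even, eS3_odd]
    have ht := telescope n
    simp only [prod_mul_distrib] at ht ⊢
    have hn := ne1 n
    have e1 : (3 * (n : ℂ) + 2) / (3 * n + 1) * (3 * n + 1) = 3 * n + 2 := by
      field_simp
    set a := ∏ k ∈ range n, (3 * ((k : ℂ) + 1) - 2)
    set b := ∏ k ∈ range n, (3 * ((k : ℂ) + 1) + 2)
    set c := ∏ k ∈ range n, ((k : ℂ) + 1)
    set c3 := ∏ _k ∈ range n, (3 : ℂ)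
    set d := ∏ k ∈ range n, (3 * ((k : ℂ) + 1) - 1)
    set f := ∏ k ∈ range n, (3 * ((k : ℂ) + 1) + 1)
    set Q := ∏ k ∈ range n, ((3 * (k : ℂ) + 2) / (3 * k + 1))
    have key : 2 * (a * b) = (3 * (n : ℂ) + 2) / (3 * n + 1) * (d * f) := by
      rw [div_mul_eq_mul_div, eq_div_iff hn]
      linear_combination ht
    linear_combination Q * dd eS3 (2 * n) * (c3 * c) ^ 2 * key

lemma q_ne {q : ℂ} (hq : q ^ 2 + q + 1 = 0) : q ≠ 0 := by
  rintro rfl
  norm_num at hq

lemma q3_ne {q : ℂ} (hq : q ^ 2 + q + 1 = 0) : 3 * q ^ 2 ≠ 0 :=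
  mul_ne_zero (by norm_num) (pow_ne_zero _ (q_ne hq))

lemma value (e : ℕ → ℕ) (he : StrictMono e) (N : ℕ) :
    eval (fun _ => 1) (schur N e) * dd (fun j => j) N = dd e N := by
  have := eval_one_schur N he
  unfold dd
  exact this

lemma value_ne (N : ℕ) : dd (fun j => j) N ≠ 0 := dd_ne_zero strictMono_id N

lemma SS_eq {q : ℂ} (hq : q ^ 2 + q + 1 = 0) (n : ℕ) :
    (3 * q ^ 2) ^ (n * (n - 1) / 2) * sumPsi q n = eval (fun _ => 1) (schur (2 * n) eS3) := by
  rw [← sum_Psi_eq_schur hq n, map_mul, eval_C, map_sum]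
  rfl

end SumB

open SumB

theorem SS_ne_zero {q : ℂ} (hq : q ^ 2 + q + 1 = 0) (n : ℕ) : sumPsi q n ≠ 0 := by
  intro h0
  have h1 := SS_eq hq n
  rw [h0, mul_zero] at h1
  have h2 := value eS3 strictMono_eS3 (2 * n)
  rw [← h1, zero_mul] at h2
  exact dd_ne_zero strictMono_eS3 (2 * n) h2.symm

/-- The ratio. -/
theorem sum_Xi {q : ℂ} (hq : q ^ 2 + q + 1 = 0) (n : ℕ) :
    (∑ π ∈ pats (2 * n + 2), Xi q n π) * (3 * q ^ 2) ^ n =
      (∏ k ∈ range n, ((3 * k + 2 : ℂ) / (3 * k + 1))) * sumPsi q n := by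
  set φ : MvPolynomial ℕ ℂ →ₐ[ℂ] Polynomial ℂ := aeval (fun k => if k = 2 * n then (Polynomial.X : Polynomial ℂ)
    else if k = 2 * n + 1 then 0 else 1) with hφ
  -- the sum of the `Xi`
  have h1 : (3 * q ^ 2) ^ ((n + 1) * n / 2) * ∑ π ∈ pats (2 * n + 2), Xi q n π
      = Polynomial.coeff (φ (schur (2 * n + 2) eS3)) n := by
    have h := sum_Psi_eq_schur hq (n + 1)
    rw [show 2 * (n + 1) = 2 * n + 2 by ring, Nat.add_sub_cancel] at h
    rw [← h, map_mul, map_sum]
    have e1 : φ (C ((3 * q ^ 2) ^ ((n + 1) * n / 2))) = Polynomial.C ((3 * q ^ 2) ^ ((n + 1) * n / 2)) := by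
      rw [hφ, aeval_C]
      rfl
    rw [e1, Polynomial.coeff_C_mul, Polynomial.finsetSum_coeff]
    rfl
  -- value at zero of the last variable
  have h2 : φ (schur (2 * n + 2) eS3) = aeval (fun k => if k = 2 * n then (Polynomial.X : Polynomial ℂ)
      else Polynomial.C (if k = 2 * n + 1 then 0 else 1)) (schur (2 * n + 1) eP) := by
    refine Polynomial.funext fun y => ?_
    have e1 : ∀ (f : ℕ → Polynomial ℂ) (P : MvPolynomial ℕ ℂ),
        Polynomial.eval y (aeval f P) = eval (fun k => Polynomial.eval y (f k)) P := by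
      intro f P
      have h := map_aeval f (Polynomial.evalRingHom y) P
      rw [Polynomial.coe_evalRingHom] at h
      rw [h]
      have h3 : (Polynomial.evalRingHom y).comp (algebraMap ℂ (Polynomial ℂ)) = RingHom.id ℂ := by
        ext c
        simp
      rw [h3]
      rfl
    rw [hφ, e1, e1]
    set z : ℕ → ℂ := fun k => if k = 2 * n then y else if k = 2 * n + 1 then 0 else 1 with hz
    have e2 : (fun k => Polynomial.eval y (if k = 2 * n then (Polynomial.X : Polynomial ℂ)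
        else if k = 2 * n + 1 then 0 else 1)) = z := by
      funext k
      rw [hz]
      simp only
      split_ifs <;> simp
    have e3 : (fun k => Polynomial.eval y (if k = 2 * n then (Polynomial.X : Polynomial ℂ)
        else Polynomial.C (if k = 2 * n + 1 then 0 else 1))) = z := by
      funext k
      rw [hz]
      simp only
      split_ifs <;> simp
    rw [e2, e3]
    exact zero_schur (2 * n + 1) strictMono_eS3 (by simp [eS3]) z (by simp [hz])
  have h3 : Polynomial.coeff (φ (schur (2 * n + 2) eS3)) n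
      = eval (fun k => if k = 2 * n + 1 then (0 : ℂ) else 1) (schur (2 * n) eP) := by
    rw [h2]
    refine top_schur (2 * n) n strictMono_eP ?_ (fun k => if k = 2 * n + 1 then (0 : ℂ) else 1)
    unfold eP eS3
    omega
  have h4 : eval (fun k => if k = 2 * n + 1 then (0 : ℂ) else 1) (schur (2 * n) eP)
      = eval (fun _ => 1) (schur (2 * n) eP) := by
    unfold MvPolynomial.eval
    refine eval₂Hom_congr' rfl (fun k hk _ => ?_) rfl
    rw [if_neg]
    rintro rfl
    exact mem_vars_iff_degreeOf_ne_zero.mp hk (degreeOf_schur_out _ _ (by omega))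
  have h5 := value eP strictMono_eP (2 * n)
  have h6 := value eS3 strictMono_eS3 (2 * n)
  have hv := value_ne (2 * n)
  rw [ratio, ← h6] at h5
  have h7 : eval (fun _ => 1) (schur (2 * n) eP)
      = (∏ k ∈ range n, ((3 * k + 2 : ℂ) / (3 * k + 1))) * eval (fun _ => 1) (schur (2 * n) eS3) := by
    apply mul_right_cancel₀ hv
    rw [h5]
    ring
  rw [h3, h4, h7, ← SS_eq hq n] at h1
  have hexp : (n + 1) * n / 2 = n * (n - 1) / 2 + n := by
    rcases n with _ | n
    · rfl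
    · rw [Nat.add_sub_cancel]
      have : (n + 1 + 1) * (n + 1) = (n + 1) * n + (n + 1) * 2 := by ring
      rw [this, Nat.add_mul_div_right _ _ (by norm_num)]
  rw [hexp, pow_add] at h1
  have hne : (3 * q ^ 2) ^ (n * (n - 1) / 2) ≠ 0 := pow_ne_zero _ (q3_ne hq)
  apply mul_left_cancel₀ hne
  linear_combination h1

end Pool.Agent.Perc
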