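import Pool.Agent.Lib.MP_6bd702_z.Z057
import Pool.Agent.Lib.MP_6bd702_z.Z061
import Pool.Agent.Lib.MP_6bd702_z.Z056
import Pool.Agent.Lib.MP_6bd702_z.Z064
import Pool.Agent.Lib.MP_6bd702_z.Z030
import Pool.Agent.Lib.MP_6bd702_z.Z046
import Pool.Agent.Lib.MP_6bd702_z.Z029
import Pool.Agent.Lib.MP_6bd702_z.Z049

section PartpercLimitC

/-!
# The exact formula (task LimitC)
-/

set_option autoImplicit false

namespace Pool.Agent.Perc

open Finset Function Filter Topology

namespace LimitC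

lemma exists_q : ∃ q : ℂ, q ^ 2 + q + 1 = 0 := by
  obtain ⟨s, hs⟩ := IsAlgClosed.exists_pow_nat_eq (-3 : ℂ) (n := 2) (by norm_num)
  refine ⟨(-1 + s) / 2, ?_⟩
  linear_combination (1 / 4 : ℂ) * hs

lemma capS_add (κ : ℂ) (i : ℕ) (X Y : (ℕ → Bool) → ℂ) :
    capS κ i (X + Y) = capS κ i X + capS κ i Y := by
  funext σ
  simp only [capS, Pi.add_apply]
  ring

lemma capS_smul (κ : ℂ) (i : ℕ) (c : ℂ) (X : (ℕ → Bool) → ℂ) :
    capS κ i (c • X) = c • capS κ i X := by
  funext σ
  simp only [capS, Pi.smul_apply, smul_eq_mul]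
  ring

lemma rS_add (κ : ℂ) (i : ℕ) (X Y : (ℕ → Bool) → ℂ) :
    rS κ i (X + Y) = rS κ i X + rS κ i Y := by
  funext σ
  simp only [rS, eS, capS_add, Pi.add_apply]
  ring

lemma rS_smul (κ : ℂ) (i : ℕ) (c : ℂ) (X : (ℕ → Bool) → ℂ) :
    rS κ i (c • X) = c • rS κ i X := by
  funext σ
  simp only [rS, eS, capS_smul, Pi.smul_apply, smul_eq_mul]
  ring

lemma rowS_add (κ : ℂ) (k : ℕ) (X Y : (ℕ → Bool) → ℂ) :
    rowS κ k (X + Y) = rowS κ k X + rowS κ k Y := by
  induction k with
  | zero => rfl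
  | succ k ih => rw [rowS, rowS, rowS, ih, rS_add]

lemma rowS_smul (κ : ℂ) (k : ℕ) (c : ℂ) (X : (ℕ → Bool) → ℂ) :
    rowS κ k (c • X) = c • rowS κ k X := by
  induction k with
  | zero => rfl
  | succ k ih => rw [rowS, rowS, ih, rS_smul]

/-- the transfer operator as a linear map -/
noncomputable def TRl (q : ℂ) (L : ℕ) : ((ℕ → Bool) → ℂ) →ₗ[ℂ] ((ℕ → Bool) → ℂ) where
  toFun := TR q L
  map_add' X Y := by
    have h : (fun τ : ℕ → Bool => tw (-q) (τ 0) (τ (L + 1)) * (X + Y) fun k => τ (k + 1)) =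
        (fun τ : ℕ → Bool => tw (-q) (τ 0) (τ (L + 1)) * X fun k => τ (k + 1)) +
        (fun τ : ℕ → Bool => tw (-q) (τ 0) (τ (L + 1)) * Y fun k => τ (k + 1)) := by
      funext τ
      simp only [Pi.add_apply]
      ring
    funext σ
    simp only [TR, Pi.add_apply]
    have h' := congrFun (congrArg (fun Z => capS (-q) L (rowS (-q) L Z)) h) σ
    simp only [rowS_add, capS_add, Pi.add_apply] at h'
    exact h'
  map_smul' c X := by
    have h : (fun τ : ℕ → Bool => tw (-q) (τ 0) (τ (L + 1)) * (c • X) fun k => τ (k + 1)) =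
        c • (fun τ : ℕ → Bool => tw (-q) (τ 0) (τ (L + 1)) * X fun k => τ (k + 1)) := by
      funext τ
      simp only [Pi.smul_apply, smul_eq_mul]
      ring
    funext σ
    simp only [TR, Pi.smul_apply, smul_eq_mul, RingHom.id_apply]
    have h' := congrFun (congrArg (fun Z => capS (-q) L (rowS (-q) L Z)) h) σ
    simp only [rowS_smul, capS_smul, Pi.smul_apply, smul_eq_mul] at h'
    exact h'

lemma TRl_apply (q : ℂ) (L : ℕ) (X : (ℕ → Bool) → ℂ) : TRl q L X = TR q L X := rfl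

/-- the sum over the spins as a linear map -/
noncomputable def sl (N : ℕ) : ((ℕ → Bool) → ℂ) →ₗ[ℂ] ℂ where
  toFun := sumS N
  map_add' X Y := by
    simp only [sumS, Pi.add_apply, Finset.sum_add_distrib]
  map_smul' c X := by
    simp only [sumS, Pi.smul_apply, smul_eq_mul, RingHom.id_apply, Finset.mul_sum]

lemma sl_apply (N : ℕ) (X : (ℕ → Bool) → ℂ) : sl N X = sumS N X := rfl

lemma kappa (q : ℂ) (hq : q ^ 2 + q + 1 = 0) : (-q) ^ 2 = -q - 1 := by
  linear_combination hq

lemma key {q : ℂ} (hq : q ^ 2 + q + 1 = 0) (n : ℕ) (M : ℕ) : ∀ s : St, IsAnn (2 * n) s →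
    (1 - q) ^ n * ((avgL (2 * n))^[M] v0) s =
      sl (2 * n) ((TRl q (2 * n) ^ M) (PhiT (-q) (2 * n) s)) := by
  induction M with
  | zero =>
    intro s hs
    rw [pow_zero, Module.End.one_apply, sl_apply, sumS_PhiT (kappa q hq) hs]
    have h1 : 2 * n / 2 = n := by omega
    rw [h1, iterate_zero, id_eq]
    ring
  | succ M ih =>
    intro s hs
    rw [iterate_succ_apply', avgL, pow_succ, Module.End.mul_apply, TRl_apply]
    have h1 : TR q (2 * n) (PhiT (-q) (2 * n) s) = ((2 : ℂ) ^ (2 * n))⁻¹ •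
        ∑ T ∈ (range (2 * n)).powerset,
          PhiT (-q) (2 * n) (trow (2 * n) (fun k => decide (k ∈ T)) s) := by
      funext σ
      rw [← avg_PhiT hq hs σ, Pi.smul_apply, Finset.sum_apply, smul_eq_mul, div_eq_inv_mul]
    rw [h1, map_smul, map_smul, map_sum, map_sum, smul_eq_mul, mul_div_assoc', Finset.mul_sum,
      div_eq_inv_mul]
    congr 1
    refine Finset.sum_congr rfl fun T _ => ?_
    exact ih _ (hs.trow _)

lemma PhiV_PsiV (κ q : ℂ) (N m : ℕ) (z : ℕ → ℂ) (σ : ℕ → Bool) :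
    PhiV κ N (PsiV q m z) σ =
      ∑ π ∈ pats (2 * m), MvPolynomial.eval z (Psi q m π) * Phi κ N π σ := by
  rw [PhiV, PsiV, ← Finsupp.sum_finsetSum_index]
  · refine Finset.sum_congr rfl fun π _ => ?_
    rw [Finsupp.sum_single_index]
    rw [zero_mul]
  · intro p; rw [zero_mul]
  · intro p b c; rw [add_mul]

/-- the spin vector of `Ψ(1, …, 1)`, normalised -/
noncomputable def Y (q : ℂ) (n : ℕ) : (ℕ → Bool) → ℂ :=
  ((-q ^ 2 / 3) ^ n) • PhiV (-q ^ 2) (2 * n) (PsiV q n fun _ => 1)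

lemma TRl_Y {q : ℂ} (hq : q ^ 2 + q + 1 = 0) (n : ℕ) : TRl q (2 * n) (Y q n) = Y q n := by
  rw [Y, map_smul]
  congr 1
  funext σ
  rw [TRl_apply, TR_eq_TL hq, TL_PhiV hq]

lemma TRl_pow_Y {q : ℂ} (hq : q ^ 2 + q + 1 = 0) (n M : ℕ) :
    (TRl q (2 * n) ^ M) (Y q n) = Y q n := by
  induction M with
  | zero => rw [pow_zero, Module.End.one_apply]
  | succ M ih => rw [pow_succ, Module.End.mul_apply, TRl_Y hq, ih]

lemma sl_Y {q : ℂ} (n : ℕ) :
    sl (2 * n) (Y q n) = (-q ^ 2 / 3) ^ n * ((1 - q ^ 2) ^ n * sumPsi q n) := by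
  rw [Y, map_smul, smul_eq_mul]
  congr 1
  have h1 : PhiV (-q ^ 2) (2 * n) (PsiV q n fun _ => 1) = ∑ π ∈ pats (2 * n),
      MvPolynomial.eval (fun _ => 1) (Psi q n π) • Phi (-q ^ 2) (2 * n) π := by
    funext σ
    rw [PhiV_PsiV, Finset.sum_apply]
    rfl
  rw [h1, map_sum, sumPsi, Finset.mul_sum]
  refine Finset.sum_congr rfl fun π hπ => ?_
  rw [map_smul, sl_apply, sumS_Phi (mem_pats.mp hπ), smul_eq_mul]
  have h2 : 2 * n / 2 = n := by omega
  rw [h2]
  ring

end LimitC

open LimitC in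
/-- The exact formula: the probability that the gap `0` of the half-infinite cylinder of
circumference `2 n` is not separated from infinity. -/
theorem tendsto_avg {n : ℕ} (hn : 0 < n) :
    Tendsto (fun M => ((avgL (2 * n))^[M] v0) (s0 (2 * n))) atTop
      (𝓝 (∏ k ∈ range n, ((3 * k + 1 : ℂ) / (3 * k + 2)))) := by
  obtain ⟨q, hq⟩ := exists_q
  obtain ⟨x, hx1, hx2, hx3⟩ := exists_state_vector hq n
  have hq3 : q ^ 3 = 1 := by
    have h : q ^ 3 - 1 = (q - 1) * (q ^ 2 + q + 1) := by ring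
    rw [hq, mul_zero] at h
    exact sub_eq_zero.mp h
  have hq0 : q ≠ 0 := by
    rintro rfl
    norm_num at hq
  have hq1 : (1 - q) ≠ 0 := by
    intro h
    have h1 : q = 1 := (sub_eq_zero.mp h).symm
    rw [h1] at hq
    norm_num at hq
  -- the sum of the values against the vector of states
  have hsum : ∀ M, (x.sum fun s c => c * ((avgL (2 * n))^[M] v0) s) = (q / 3) ^ n * sumPsi q n := by
    intro M
    have h1 : (1 - q) ^ n * (x.sum fun s c => c * ((avgL (2 * n))^[M] v0) s) =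
        sl (2 * n) ((TRl q (2 * n) ^ M) (Y q n)) := by
      have h2 : Y q n = x.sum fun s c => c • PhiT (-q) (2 * n) s := by
        funext σ
        have h3 := hx3 σ
        rw [Y, Pi.smul_apply, smul_eq_mul, ← h3, Finsupp.sum, Finsupp.sum, Finset.sum_apply]
        rfl
      rw [h2, Finsupp.sum, Finsupp.sum, map_sum, map_sum, Finset.mul_sum]
      refine Finset.sum_congr rfl fun s hs => ?_
      rw [map_smul, map_smul, smul_eq_mul, ← key hq n M s (hx1 s hs)]
      ring
    rw [TRl_pow_Y hq, sl_Y] at h1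
    refine mul_left_cancel₀ (pow_ne_zero n hq1) ?_
    rw [h1, ← mul_assoc, ← mul_assoc, ← mul_pow, ← mul_pow]
    congr 2
    linear_combination (q / 3) * hq3
  set S : ℂ := x.sum fun _ c => c with hS
  have hS1 : S * (3 * q ^ 2) ^ n =
      (∏ k ∈ range n, ((3 * k + 2 : ℂ) / (3 * k + 1))) * sumPsi q n := by
    rw [hx2]; exact sum_Xi hq n
  have hne1 : ∀ k : ℕ, (3 * k + 1 : ℂ) ≠ 0 := fun k => by
    have : ((3 * k + 1 : ℕ) : ℂ) ≠ 0 := Nat.cast_ne_zero.mpr (by omega)
    push_cast at this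
    exact this
  have hne2 : ∀ k : ℕ, (3 * k + 2 : ℂ) ≠ 0 := fun k => by
    have : ((3 * k + 2 : ℕ) : ℂ) ≠ 0 := Nat.cast_ne_zero.mpr (by omega)
    push_cast at this
    exact this
  have hprod : (∏ k ∈ range n, ((3 * k + 2 : ℂ) / (3 * k + 1))) ≠ 0 :=
    Finset.prod_ne_zero_iff.mpr fun k _ => div_ne_zero (hne2 k) (hne1 k)
  have hS0 : S ≠ 0 := by
    intro h
    rw [h, zero_mul] at hS1
    exact mul_ne_zero hprod (SS_ne_zero hq n) hS1.symm
  -- the difference tends to zero
  have hann0 : IsAnn (2 * n) (s0 (2 * n)) := isAnn_s0 (by omega)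
  have hlt : (1 - 1 / 2 ^ (2 * n) : ℝ) < 1 := by
    have : (0 : ℝ) < 1 / 2 ^ (2 * n) := by positivity
    linarith
  have hnn : (0 : ℝ) ≤ 1 - 1 / 2 ^ (2 * n) := by
    have : (1 : ℝ) / 2 ^ (2 * n) ≤ 1 := by
      rw [div_le_one (by positivity)]
      exact one_le_pow₀ (by norm_num)
    linarith
  have hD : Tendsto (fun M => (q / 3) ^ n * sumPsi q n - S * ((avgL (2 * n))^[M] v0) (s0 (2 * n)))
      atTop (𝓝 0) := by
    have hb : ∀ M, ‖(q / 3) ^ n * sumPsi q n - S * ((avgL (2 * n))^[M] v0) (s0 (2 * n))‖ ≤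
        (∑ s ∈ x.support, ‖x s‖) * (1 - 1 / 2 ^ (2 * n)) ^ M := by
      intro M
      rw [← hsum M, hS, Finsupp.sum, Finsupp.sum, Finset.sum_mul, ← Finset.sum_sub_distrib,
        Finset.sum_mul]
      refine (norm_sum_le _ _).trans (Finset.sum_le_sum fun s hs => ?_)
      rw [← mul_sub, norm_mul]
      exact mul_le_mul_of_nonneg_left (avgL_iterate_sub_le (hx1 s hs) hann0 M) (norm_nonneg _)
    refine squeeze_zero_norm hb ?_
    have h1 := (tendsto_pow_atTop_nhds_zero_of_lt_one hnn hlt).const_mul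
      (∑ s ∈ x.support, ‖x s‖)
    rwa [mul_zero] at h1
  have hlim : Tendsto (fun M => ((avgL (2 * n))^[M] v0) (s0 (2 * n))) atTop
      (𝓝 (S⁻¹ * ((q / 3) ^ n * sumPsi q n - 0))) := by
    have h1 := (tendsto_const_nhds (x := (q / 3) ^ n * sumPsi q n)).sub hD
    have h2 := h1.const_mul S⁻¹
    refine h2.congr fun M => ?_
    field_simp
    ring
  have hval : S⁻¹ * ((q / 3) ^ n * sumPsi q n - 0) = ∏ k ∈ range n, ((3 * k + 1 : ℂ) / (3 * k + 2)) := by
    rw [sub_zero]
    have h1 : (∏ k ∈ range n, ((3 * k + 1 : ℂ) / (3 * k + 2))) *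
        (∏ k ∈ range n, ((3 * k + 2 : ℂ) / (3 * k + 1))) = 1 := by
      rw [← Finset.prod_mul_distrib]
      refine Finset.prod_eq_one fun k _ => ?_
      have h3 := hne1 k
      have h4 := hne2 k
      field_simp
    have h2 : (q / 3) ^ n * (3 * q ^ 2) ^ n = 1 := by
      rw [← mul_pow]
      have h3 : q / 3 * (3 * q ^ 2) = 1 := by linear_combination hq3
      rw [h3, one_pow]
    refine mul_left_cancel₀ hS0 ?_
    rw [mul_inv_cancel_left₀ hS0]
    refine mul_right_cancel₀ hprod ?_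
    have h5 : (3 * q ^ 2 : ℂ) ^ n ≠ 0 := by
      intro h; rw [h, mul_zero] at h2; exact zero_ne_one h2
    refine mul_right_cancel₀ h5 ?_
    linear_combination (sumPsi q n * ∏ k ∈ range n, ((3 * k + 2 : ℂ) / (3 * k + 1))) * h2 -
      (S * (3 * q ^ 2) ^ n) * h1 - hS1
  rw [← hval]
  exact hlim

end Pool.Agent.Perc

end PartpercLimitC

section PartpercCylArmB

/-!
# From the cylinder to the half-plane (task CylArmB)
-/

set_option autoImplicit false

namespace Pool.Agent.Perc

open Finset Filter Topology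

namespace CylArmB

theorem rowL_congr {w w' : ℕ → Bool} (s : St) {k : ℕ} (h : ∀ i < k, w i = w' i) :
    rowL w k s = rowL w' k s := by
  induction k with
  | zero => rfl
  | succ k ih =>
    simp only [rowL]
    rw [ih (fun i hi => h i (by omega)), h k (by omega)]

theorem trow_congr {L : ℕ} {w w' : ℕ → Bool} (s : St) (h : ∀ i < L, w i = w' i) :
    trow L w s = trow L w' s := by
  unfold trow
  rw [rowL_congr _ h]

theorem run_congr {L : ℕ} {ω ω' : Cfg} {M : ℕ}
    (h : ∀ i < L, ∀ m < M, ω ((i : ℤ), (m : ℤ)) = ω' ((i : ℤ), (m : ℤ))) (s : St) :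
    run L ω M s = run L ω' M s := by
  induction M generalizing s with
  | zero => rfl
  | succ M ih =>
    simp only [run]
    rw [ih (fun i hi m hm => h i hi m (by omega)),
      trow_congr s (fun i hi => h i hi M (by omega))]

/-- A row of faces. -/
def row (M : ℕ) (T : Finset ℕ) : Finset (ℤ × ℤ) := T.image (fun k : ℕ => ((k : ℤ), (M : ℤ)))

theorem mem_row {M : ℕ} {T : Finset ℕ} {f : ℤ × ℤ} :
    f ∈ row M T ↔ ∃ k ∈ T, ((k : ℤ), (M : ℤ)) = f := by
  unfold row
  rw [mem_image]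

theorem nat_mem_row {M : ℕ} {T : Finset ℕ} {k : ℕ} : ((k : ℤ), (M : ℤ)) ∈ row M T ↔ k ∈ T := by
  rw [mem_row]
  constructor
  · rintro ⟨k', hk', h⟩
    have h1 := congrArg Prod.fst h
    simp only [Nat.cast_inj] at h1
    rwa [← h1]
  · intro h; exact ⟨k, h, rfl⟩

theorem mem_RF {x₀ x₁ y₀ y₁ : ℤ} {f : ℤ × ℤ} :
    f ∈ RF x₀ x₁ y₀ y₁ ↔ (x₀ ≤ f.1 ∧ f.1 < x₁) ∧ y₀ ≤ f.2 ∧ f.2 < y₁ := by
  unfold RF
  rw [mem_product, mem_Ico, mem_Ico]

theorem RF_succ (L M : ℕ) :
    RF 0 L 0 ((M + 1 : ℕ) : ℤ) = RF 0 L 0 M ∪ row M (range L) := by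
  ext f
  rw [mem_union, mem_RF, mem_RF, mem_row]
  constructor
  · rintro ⟨⟨h1, h2⟩, h3, h4⟩
    by_cases h5 : f.2 < M
    · exact Or.inl ⟨⟨h1, h2⟩, h3, h5⟩
    · right
      refine ⟨f.1.toNat, by rw [mem_range]; omega, ?_⟩
      ext
      · simp only; omega
      · simp only; push_cast at h4; omega
  · rintro (⟨⟨h1, h2⟩, h3, h4⟩ | ⟨k, hk, rfl⟩)
    · exact ⟨⟨h1, h2⟩, h3, by push_cast; omega⟩
    · rw [mem_range] at hk
      exact ⟨⟨by simp, by simp only; omega⟩, by simp, by simp only; push_cast; omega⟩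

theorem card_RF (L M : ℕ) : (RF 0 L 0 M).card = L * M := by
  unfold RF
  rw [card_product, Int.card_Ico, Int.card_Ico]
  simp

theorem ex_row (L M : ℕ) (g : Cfg → ℂ) :
    ex (RF 0 L 0 ((M + 1 : ℕ) : ℤ)) g = (∑ T ∈ (range L).powerset,
      ex (RF 0 L 0 M) (fun ω => g (fun f => ω f || decide (f ∈ row M T)))) / 2 ^ L := by
  unfold ex
  rw [card_RF, card_RF, ← sum_div, div_div]
  have h2 : (2 : ℂ) ^ (L * (M + 1)) = 2 ^ (L * M) * 2 ^ L := by rw [mul_add, mul_one, pow_add]
  rw [h2]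
  congr 1
  rw [← sum_product']
  refine sum_nbij' (fun T => ((range L).filter (fun k : ℕ => ((k : ℤ), (M : ℤ)) ∈ T),
    T ∩ RF 0 L 0 M)) (fun X => X.2 ∪ row M X.1) ?_ ?_ ?_ ?_ ?_
  · intro T _
    rw [mem_product, mem_powerset, mem_powerset]
    exact ⟨filter_subset _ _, inter_subset_right⟩
  · rintro ⟨T1, T2⟩ hT
    rw [mem_product, mem_powerset, mem_powerset] at hT
    rw [mem_powerset, RF_succ]
    refine union_subset_union hT.2 ?_
    exact image_subset_image hT.1
  · intro T hT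
    rw [mem_powerset, RF_succ] at hT
    ext f
    simp only [mem_union, mem_inter, mem_row, mem_filter, mem_range]
    constructor
    · rintro (⟨h1, _⟩ | ⟨k, ⟨_, hk⟩, rfl⟩)
      · exact h1
      · exact hk
    · intro hf
      rcases mem_union.1 (hT hf) with h1 | h1
      · exact Or.inl ⟨hf, h1⟩
      · obtain ⟨k, hk, rfl⟩ := mem_row.1 h1
        exact Or.inr ⟨k, ⟨mem_range.1 hk, hf⟩, rfl⟩
  · rintro ⟨T1, T2⟩ hT
    rw [mem_product, mem_powerset, mem_powerset] at hT
    have hd : ∀ f ∈ RF 0 L 0 M, f ∉ row M T1 := by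
      intro f hf hf'
      obtain ⟨k, _, rfl⟩ := mem_row.1 hf'
      have := (mem_RF.1 hf).2.2
      simp at this
    refine Prod.ext ?_ ?_
    · ext k
      simp only [mem_filter, mem_range, mem_union, nat_mem_row]
      constructor
      · rintro ⟨_, h1 | h1⟩
        · exact absurd (mem_RF.1 (hT.2 h1)).2.2 (by simp)
        · exact h1
      · intro h1
        exact ⟨mem_range.1 (hT.1 h1), Or.inr h1⟩
    · ext f
      simp only [mem_inter, mem_union]
      constructor
      · rintro ⟨h1 | h1, h2⟩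
        · exact h1
        · exact absurd h1 (hd f h2)
      · intro h1
        exact ⟨Or.inl h1, hT.2 h1⟩
  · intro T hT
    rw [mem_powerset, RF_succ] at hT
    congr 1
    funext f
    unfold cfg
    rw [← Bool.decide_or]
    apply decide_eq_decide.2
    simp only [mem_inter, mem_row, mem_filter, mem_range]
    constructor
    · intro hf
      rcases mem_union.1 (hT hf) with h1 | h1
      · exact Or.inl ⟨hf, h1⟩
      · obtain ⟨k, hk, rfl⟩ := mem_row.1 h1
        exact Or.inr ⟨k, ⟨mem_range.1 hk, hf⟩, rfl⟩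
    · rintro (⟨h1, _⟩ | ⟨k, ⟨_, hk⟩, rfl⟩)
      · exact h1
      · exact hk

theorem ex_congr {S : Finset (ℤ × ℤ)} {g g' : Cfg → ℂ} (h : ∀ T ⊆ S, g (cfg T) = g' (cfg T)) :
    ex S g = ex S g' := by
  unfold ex
  congr 1
  exact sum_congr rfl (fun T hT => h T (mem_powerset.1 hT))

end CylArmB

open CylArmB

theorem ex_run {L : ℕ} (M : ℕ) (f : St → ℂ) (s : St) :
    ex (RF 0 L 0 M) (fun ω => f (run L ω M s)) = ((avgL L)^[M] f) s := by
  induction M generalizing s with
  | zero =>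
    unfold ex
    have e : RF 0 L 0 ((0 : ℕ) : ℤ) = ∅ := by simp [RF]
    rw [e]
    simp [run]
  | succ M ih =>
    rw [Function.iterate_succ_apply', ex_row]
    unfold avgL
    congr 1
    refine sum_congr rfl (fun T _ => ?_)
    change _ = ((avgL L)^[M] f) _
    rw [← ih]
    apply ex_congr
    intro T2 hT2
    simp only [run]
    congr 1
    have hT2' : ∀ i : ℕ, ((i : ℤ), (M : ℤ)) ∉ T2 := fun i hi => by
      have := (mem_RF.1 (hT2 hi)).2.2
      simp at this
    rw [trow_congr s (w := fun i => cfg T2 ((i : ℤ), (M : ℤ)) || decide (((i : ℤ), (M : ℤ)) ∈ row M T))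
      (w' := fun k => decide (k ∈ T))]
    · apply run_congr
      intro i _ m hm
      have : ((i : ℤ), (m : ℤ)) ∉ row M T := by
        intro h
        obtain ⟨k, _, hk⟩ := mem_row.1 h
        have := congrArg Prod.snd hk
        simp only [Nat.cast_inj] at this
        omega
      simp [this]
    · intro i _
      simp [cfg, hT2', nat_mem_row]

theorem avg_le_pArm {r M : ℕ} (hr : 0 < r) (hM : r ≤ M) :
    (((avgL (2 * r))^[M] v0) (s0 (2 * r))).re ≤ pArm r := by
  rw [← ex_run]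
  rw [ex_indicator {ω : Cfg | (run (2 * r) ω M (s0 (2 * r))).2 = fun _ => false}
    (fun ω => v0 (run (2 * r) ω M (s0 (2 * r))))
    (fun ω hω => if_pos hω) (fun ω hω => if_neg hω)]
  rw [Complex.ofReal_re]
  have h1 : pr (RF 0 ((2 * r : ℕ) : ℤ) 0 M) {ω : Cfg | (run (2 * r) ω M (s0 (2 * r))).2 = fun _ => false}
      ≤ pr (RF 0 ((2 * r : ℕ) : ℤ) 0 M)
        {ω : Cfg | (fun x : ℤ × ℤ => ω (x.1 % ((2 * r : ℕ) : ℤ), x.2)) ∈ hpArm r} := by
    apply pr_mono
    intro ω hω
    have h2 := relT_of_v0 (L := 2 * r) (M := M) (by omega) (by omega) ω hω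
    change perC (2 * r) ω ∈ hpArm r
    have key : ∀ v : ℤ × ℤ, Conn (perC (2 * r) ω) {f | (0 : ℤ) ≤ f.2 ∧ f.2 < M} (0, 0) v →
        ¬ (-(r : ℤ) < v.1 ∧ v.1 < r ∧ v.2 < r) → perC (2 * r) ω ∈ hpArm r := by
      intro v hv hv'
      obtain ⟨w, h3, h4⟩ := hv.toSides (x₀ := -(r : ℤ)) (x₁ := r) (y₀ := 0) (y₁ := r)
        (fun f hf => hf.1) ⟨by simp, by simp, by simp, by simp⟩ hv'
      exact ⟨w, h3.mono Set.inter_subset_right, h4⟩
    rcases h2 with h2 | ⟨⟨x, hx, hx'⟩, _⟩
    · refine key _ h2 (fun h => ?_)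
      have := h.2.1
      simp only at this
      push_cast at this
      omega
    · refine key _ hx (fun h => ?_)
      have := h.2.2
      omega
  refine h1.trans (le_of_eq ?_)
  refine pr_comp (S := RF (-(r : ℤ)) r 0 r) (S' := RF 0 ((2 * r : ℕ) : ℤ) 0 M)
    (f := fun x : ℤ × ℤ => (x.1 % ((2 * r : ℕ) : ℤ), x.2)) ?_ ?_ (depOn_hpArm r)
  · intro x hx x' hx' h
    rw [mem_coe, mem_RF] at hx hx'
    simp only [Prod.mk.injEq] at h
    obtain ⟨h3, h4⟩ := h
    ext
    · have h5 := Int.emod_emod_of_dvd x.1 (dvd_refl ((2 * r : ℕ) : ℤ))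
      have h6 : ((2 * r : ℕ) : ℤ) ∣ x.1 - x'.1 := by
        exact Int.dvd_of_emod_eq_zero (by rw [Int.sub_emod, h3]; simp)
      obtain ⟨c, hc⟩ := h6
      push_cast at hc
      have hc0 : c = 0 := by
        by_contra hne
        rcases lt_or_gt_of_ne hne with h7 | h7
        · nlinarith
        · nlinarith
      rw [hc0] at hc
      omega
    · exact h4
  · intro x hx
    rw [mem_RF] at hx ⊢
    refine ⟨⟨Int.emod_nonneg _ (by omega), Int.emod_lt_of_pos _ (by omega)⟩, hx.2.1, ?_⟩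
    have := hx.2.2
    simp only
    omega

/-- The exact lower bound for the half-plane arm. -/
theorem pArm_ge {r : ℕ} (hr : 0 < r) :
    ∏ k ∈ range r, ((3 * k + 1 : ℝ) / (3 * k + 2)) ≤ pArm r := by
  have h1 := tendsto_avg hr
  have h2 := (Complex.continuous_re.tendsto _).comp h1
  have h3 : (∏ k ∈ range r, ((3 * k + 1 : ℂ) / (3 * k + 2))).re
      = ∏ k ∈ range r, ((3 * k + 1 : ℝ) / (3 * k + 2)) := by
    rw [← Complex.ofReal_re (∏ k ∈ range r, ((3 * k + 1 : ℝ) / (3 * k + 2)))]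
    congr 1
    push_cast
    rfl
  rw [h3] at h2
  refine le_of_tendsto h2 ?_
  filter_upwards [eventually_ge_atTop r] with M hM
  exact avg_le_pArm hr hM

end Pool.Agent.Perc

end PartpercCylArmB

section PartperqQStDefs

/-!
# Punctured link patterns: rotation, insertion, words

A state `s : St` with `IsAnn N s` is a link pattern on the disc with a puncture (point at
infinity): the label of an arc is `true` if it separates the seam (gap `0`) from the puncture.
-/

set_option autoImplicit false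

namespace Pool.Agent.Perc

open Finset

/-- The site `x` is an opening (the puncture is to the left of every arc). -/
def opS (s : St) (x : ℕ) : Bool := xor (decide (x < s.1 x)) (s.2 x)

/-- The evaluation point of a state: `q²` at openings, `1` at closings. -/
noncomputable def zptS (q : ℂ) (s : St) : ℕ → ℂ := fun k => if opS s k = true then q ^ 2 else 1

/-- Rotation by one site to the left: the old site `0` becomes the site `N - 1`. -/
def rotL (N : ℕ) (s : St) : St :=
  (rotP N s.1, fun x => if x < N then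
    (if x + 1 = N ∨ s.1 (x + 1) = 0 then !s.2 (if x + 1 = N then 0 else x + 1) else s.2 (x + 1))
    else false)

/-- Add a small arc (label `false`) at the sites `i`, `i + 1`. -/
def insL (i : ℕ) (s : St) : St :=
  (insArc i s.1, fun x => if x = i ∨ x = i + 1 then false else s.2 (if x < i then x else x - 2))

/-- The pattern of `2 m` sites all of whose arcs cross the seam. -/
def nestS (m : ℕ) : St := (nest m, fun x => decide (x < 2 * m))

/-- Length of the arc of `x` in the universal cover. -/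
def lenS (N : ℕ) (s : St) (x : ℕ) : ℕ :=
  if s.2 x = true then N - ((s.1 x - x) + (x - s.1 x)) else (s.1 x - x) + (x - s.1 x)

/-- Total length (every arc is counted twice). -/
def totS (N : ℕ) (s : St) : ℕ := ∑ x ∈ range N, lenS N s x

end Pool.Agent.Perc

end PartperqQStDefs

section PartperqPairDefs

/-!
# Pairs of states: loops (definitions of helper71)
-/

set_option autoImplicit false

namespace Pool.Agent.Perc

open Finset

/-- The sites `x` and `y` lie on the same loop of the pair of states. -/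
def LoopR (s' s : St) (x y : ℕ) : Prop :=
  Relation.ReflTransGen (fun x y => y = s'.1 x ∨ y = s.1 x) x y

open Classical in
/-- The number of arcs of the first state with label `true` on the loop of the site `x₀`
(every arc has exactly one even end). -/
noncomputable def loopA (L : ℕ) (s' s : St) (x₀ : ℕ) : ℕ :=
  ((range L).filter fun x => x % 2 = 0 ∧ s'.2 x = true ∧ LoopR s' s x₀ x).card

open Classical in
/-- The number of arcs of the second state with label `true` on the loop of the site `x₀`. -/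
noncomputable def loopB (L : ℕ) (s' s : St) (x₀ : ℕ) : ℕ :=
  ((range L).filter fun x => x % 2 = 0 ∧ s.2 x = true ∧ LoopR s' s x₀ x).card

/-- The loop of the site `x₀` is non-contractible. -/
def NCat (L : ℕ) (s' s : St) (x₀ : ℕ) : Prop := (loopA L s' s x₀ + loopB L s' s x₀) % 2 = 1

end Pool.Agent.Perc

end PartperqPairDefs
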