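import Pool.Agent.Lib.MP_6bd702_z.Z073

/-!
# The double wheel space: the product polynomial (task DWF)
-/

set_option autoImplicit false

namespace Pool.Agent.Perc

open Finset MvPolynomial

variable {q : ℂ} {L m : ℕ}

namespace DWF

/-- The factor of the pair `i`, `j`. -/
noncomputable def fac (q : ℂ) (i j : ℕ) : MvPolynomial ℕ ℂ := X i - C (q ^ 2) * X j

/-- The row `j`. -/
noncomputable def row (q : ℂ) (j : ℕ) : MvPolynomial ℕ ℂ := ∏ i ∈ range j, fac q i j

theorem minPoly_eq (q : ℂ) (L : ℕ) : minPoly q L = ∏ j ∈ range L, row q j := rfl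

theorem supp_fac {q : ℂ} {i j : ℕ} {d : ℕ →₀ ℕ} (hd : d ∈ (fac q i j).support) :
    d = Finsupp.single i 1 ∨ d = Finsupp.single j 1 := by
  by_contra h
  push Not at h
  rw [mem_support_iff] at hd
  apply hd
  unfold fac
  rw [coeff_sub, coeff_C_mul, coeff_X, coeff_X, if_neg (Ne.symm h.1), if_neg (Ne.symm h.2)]
  simp

/-- A bound for additive functions of the exponents. -/
theorem supp_prod {ι : Type} (φ : (ℕ →₀ ℕ) →+ ℕ) (s : Finset ι) (F : ι → MvPolynomial ℕ ℂ)
    (a : ι → ℕ) (h : ∀ i ∈ s, ∀ d ∈ (F i).support, φ d ≤ a i) :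
    ∀ d ∈ (∏ i ∈ s, F i).support, φ d ≤ ∑ i ∈ s, a i := by
  classical
  induction s using Finset.induction_on with
  | empty =>
    intro d hd
    rw [Finset.prod_empty] at hd
    have : d = 0 := by
      by_contra h0
      rw [mem_support_iff, coeff_one, if_neg (Ne.symm h0)] at hd
      exact hd rfl
    rw [this]
    simp
  | insert i s hi ih =>
    intro d hd
    rw [Finset.prod_insert hi] at hd
    obtain ⟨d₁, h₁, d₂, h₂, rfl⟩ := Finset.mem_add.1 (support_mul _ _ hd)
    rw [map_add, Finset.sum_insert hi]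
    exact add_le_add (h i (Finset.mem_insert_self i s) d₁ h₁)
      (ih (fun j hj => h j (Finset.mem_insert_of_mem hj)) d₂ h₂)

/-- The same with equality. -/
theorem supp_prod_eq {ι : Type} (φ : (ℕ →₀ ℕ) →+ ℕ) (s : Finset ι) (F : ι → MvPolynomial ℕ ℂ)
    (a : ι → ℕ) (h : ∀ i ∈ s, ∀ d ∈ (F i).support, φ d = a i) :
    ∀ d ∈ (∏ i ∈ s, F i).support, φ d = ∑ i ∈ s, a i := by
  classical
  induction s using Finset.induction_on with
  | empty =>
    intro d hd
    rw [Finset.prod_empty] at hd
    have : d = 0 := by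
      by_contra h0
      rw [mem_support_iff, coeff_one, if_neg (Ne.symm h0)] at hd
      exact hd rfl
    rw [this]
    simp
  | insert i s hi ih =>
    intro d hd
    rw [Finset.prod_insert hi] at hd
    obtain ⟨d₁, h₁, d₂, h₂, rfl⟩ := Finset.mem_add.1 (support_mul _ _ hd)
    rw [map_add, Finset.sum_insert hi, h i (Finset.mem_insert_self i s) d₁ h₁,
      ih (fun j hj => h j (Finset.mem_insert_of_mem hj)) d₂ h₂]

/-- The sum of the exponents of the variables of `A`. -/
def phi (A : Finset ℕ) : (ℕ →₀ ℕ) →+ ℕ where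
  toFun d := ∑ i ∈ A, d i
  map_zero' := by simp
  map_add' d e := by simp [Finset.sum_add_distrib]

theorem phi_apply (A : Finset ℕ) (d : ℕ →₀ ℕ) : phi A d = ∑ i ∈ A, d i := rfl

theorem phi_single (A : Finset ℕ) (i : ℕ) :
    phi A (Finsupp.single i 1) = if i ∈ A then 1 else 0 := by
  rw [phi_apply]
  simp only [Finsupp.single_apply]
  rw [Finset.sum_ite_eq]

theorem supp_minPoly (A : Finset ℕ) :
    ∀ d ∈ (minPoly q L).support, phi A d ≤
      ∑ j ∈ range L, ∑ i ∈ range j, if i ∈ A ∨ j ∈ A then 1 else 0 := by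
  rw [minPoly_eq]
  refine supp_prod (phi A) (range L) (row q) _ fun j _ => ?_
  unfold row
  refine supp_prod (phi A) (range j) (fun i => fac q i j) _ fun i _ d hd => ?_
  rcases supp_fac hd with rfl | rfl
  · rw [phi_single]
    split_ifs <;> simp_all
  · rw [phi_single]
    split_ifs <;> simp_all

/-- The number of pairs which meet `A`. -/
theorem count_pairs (L : ℕ) : ∀ A ⊆ range L,
    (∑ j ∈ range L, ∑ i ∈ range j, if i ∈ A ∨ j ∈ A then 1 else 0) =
      ∑ r ∈ range A.card, (L - 1 - r) := by
  induction L with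
  | zero =>
    intro A hA
    rw [Finset.range_zero, Finset.subset_empty] at hA
    rw [hA]
    simp
  | succ L ih =>
    intro A hA
    rw [Finset.sum_range_succ]
    by_cases hL : L ∈ A
    · have h1 := ih (A.erase L) (by
        intro x hx
        rw [Finset.mem_erase] at hx
        have := hA hx.2
        rw [Finset.mem_range] at this ⊢
        omega)
      have h2 : (∑ j ∈ range L, ∑ i ∈ range j, if i ∈ A ∨ j ∈ A then 1 else 0) =
          ∑ j ∈ range L, ∑ i ∈ range j, if i ∈ A.erase L ∨ j ∈ A.erase L then 1 else 0 := by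
        refine Finset.sum_congr rfl fun j hj => Finset.sum_congr rfl fun i hi => ?_
        rw [Finset.mem_range] at hi hj
        have e1 : i ≠ L := by omega
        have e2 : j ≠ L := by omega
        simp only [Finset.mem_erase, e1, e2, ne_eq, not_false_eq_true, true_and]
      have h3 : (∑ i ∈ range L, if i ∈ A ∨ L ∈ A then 1 else 0) = L := by
        simp [hL]
      have h4 : A.card = (A.erase L).card + 1 := (Finset.card_erase_add_one hL).symm
      rw [h2, h1, h3, h4, Finset.sum_range_succ']
      congr 1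
      refine Finset.sum_congr rfl fun r _ => by omega
    · have hA' : A ⊆ range L := by
        intro x hx
        have h5 := hA hx
        rw [Finset.mem_range] at h5 ⊢
        have : x ≠ L := by
          rintro rfl
          exact hL hx
        omega
      have h1 := ih A hA'
      have h3 : (∑ i ∈ range L, if i ∈ A ∨ L ∈ A then 1 else 0) = A.card := by
        simp only [hL, or_false]
        rw [Finset.sum_boole, Nat.cast_id]
        congr 1
        ext x
        rw [Finset.mem_filter]
        exact ⟨fun h => h.2, fun h => ⟨hA' h, h⟩⟩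
      have hcard : A.card ≤ L := by
        have := Finset.card_le_card hA'
        rwa [Finset.card_range] at this
      rw [h1, h3]
      have key : ∀ a ≤ L, ∑ r ∈ range a, (L - 1 - r) + a = ∑ r ∈ range a, (L + 1 - 1 - r) := by
        intro a
        induction a with
        | zero => intro _; simp
        | succ a iha =>
          intro ha
          have := iha (by omega)
          rw [Finset.sum_range_succ, Finset.sum_range_succ, ← this]
          omega
      exact key _ hcard

theorem q3 (hq : q ^ 2 + q + 1 = 0) : q ^ 3 = 1 := by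
  linear_combination (q - 1) * hq

theorem fac_dvd_row {i j : ℕ} (h : i < j) : fac q i j ∣ row q j :=
  Finset.dvd_prod_of_mem _ (Finset.mem_range.2 h)

theorem eval_eq_zero {z : ℕ → ℂ} {i j : ℕ} (hij : i < j) (hj : j < L)
    (h : z i = q ^ 2 * z j) : eval z (minPoly q L) = 0 := by
  have h1 : fac q i j ∣ minPoly q L :=
    (fac_dvd_row hij).trans (Finset.dvd_prod_of_mem _ (Finset.mem_range.2 hj))
  obtain ⟨Q, hQ⟩ := h1
  rw [hQ, map_mul]
  unfold fac
  rw [map_sub, map_mul, eval_X, eval_X, eval_C, h, sub_self, zero_mul]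

theorem pderiv_eq_zero {z : ℕ → ℂ} {i j k : ℕ} (hij : i < j) (hjk : j < k) (hk : k < L)
    (h : z i = q ^ 2 * z j) (h' : z j = q ^ 2 * z k) (l : ℕ) :
    eval z (pderiv l (minPoly q L)) = 0 := by
  have h1 : fac q i j * fac q j k ∣ minPoly q L := by
    rw [minPoly_eq, ← Finset.mul_prod_erase (range L) (row q) (Finset.mem_range.2
      (hjk.trans hk))]
    refine mul_dvd_mul (fac_dvd_row hij) ((fac_dvd_row hjk).trans ?_)
    apply Finset.dvd_prod_of_mem
    rw [Finset.mem_erase, Finset.mem_range]
    exact ⟨by omega, hk⟩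
  obtain ⟨Q, hQ⟩ := h1
  have e1 : eval z (fac q i j) = 0 := by
    unfold fac
    rw [map_sub, map_mul, eval_X, eval_X, eval_C, h, sub_self]
  have e2 : eval z (fac q j k) = 0 := by
    unfold fac
    rw [map_sub, map_mul, eval_X, eval_X, eval_C, h', sub_self]
  rw [hQ, Derivation.leibniz, Derivation.leibniz]
  simp only [smul_eq_mul, map_add, map_mul, e1, e2]
  ring

end DWF

theorem dw_minPoly (hq : q ^ 2 + q + 1 = 0) (L : ℕ) : DW q L (minPoly q L) := by
  refine ⟨?_, ?_, ?_, ?_, ?_⟩
  · intro k hk
    rw [← Nat.le_zero, degreeOf_le_iff]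
    intro d hd
    have h := DWF.supp_minPoly {k} d hd
    rw [DWF.phi_apply, Finset.sum_singleton] at h
    refine h.trans ?_
    refine (Finset.sum_eq_zero fun j hj => Finset.sum_eq_zero fun i hi => ?_).le
    rw [Finset.mem_range] at hi hj
    rw [if_neg]
    rw [Finset.mem_singleton, Finset.mem_singleton]
    omega
  · intro d hd A hA
    rw [← DWF.count_pairs L A hA]
    exact DWF.supp_minPoly A d hd
  · intro d hd
    have h : ∀ d ∈ (minPoly q L).support, DWF.phi (range L) d = ∑ j ∈ range L, j := by
      rw [DWF.minPoly_eq]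
      refine DWF.supp_prod_eq (DWF.phi (range L)) (range L) (DWF.row q) _ fun j hj => ?_
      have h1 := DWF.supp_prod_eq (DWF.phi (range L)) (range j) (fun i => DWF.fac q i j)
        (fun _ => 1) fun i hi d hd => ?_
      · intro d hd
        rw [h1 d hd]
        simp
      · rw [Finset.mem_range] at hi hj
        rcases DWF.supp_fac hd with rfl | rfl
        · rw [DWF.phi_single, if_pos (Finset.mem_range.2 (hi.trans hj))]
        · rw [DWF.phi_single, if_pos (Finset.mem_range.2 hj)]
    exact h d hd
  · intro z i j k hij hjk hk h1 h2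
    exact ⟨DWF.eval_eq_zero hij (hjk.trans hk) h1, DWF.pderiv_eq_zero hij hjk hk h1 h2⟩
  · intro z i j k hij hjk hk h1 h2
    refine DWF.eval_eq_zero (hij.trans hjk) hk ?_
    rw [h1, h2]
    have h3 := DWF.q3 hq
    linear_combination (-(q ^ 3) * z i - z i) * h3

theorem eval_minPoly_of_ne (hq : q ^ 2 + q + 1 = 0) {s : St} (h : IsAnn (2 * m) s)
    (hne : s ≠ nestS m) : eval (zptS q s) (minPoly q (2 * m)) = 0 := by
  have _ := hq
  obtain ⟨i, j, hij, hj, h1, h2⟩ := exists_op_cl h hne
  refine DWF.eval_eq_zero hij hj ?_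
  unfold zptS
  rw [if_pos h1, if_neg (by rw [h2]; simp), mul_one]

theorem eval_minPoly_nestS (hq : q ^ 2 + q + 1 = 0) (m : ℕ) :
    eval (zptS q (nestS m)) (minPoly q (2 * m)) =
      (-3 * q) ^ (m * (m - 1) / 2) * (1 - q) ^ (m ^ 2) := by
  have h3 := DWF.q3 hq
  have z1 : ∀ x, x < m → zptS q (nestS m) x = 1 := by
    intro x hx
    unfold zptS
    rw [opS_nestS, if_neg]
    rw [decide_eq_true_eq]
    omega
  have z2 : ∀ x, x < m → zptS q (nestS m) (m + x) = q ^ 2 := by
    intro x hx
    unfold zptS
    rw [opS_nestS, if_pos]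
    rw [decide_eq_true_eq]
    omega
  have hev : eval (zptS q (nestS m)) (minPoly q (2 * m)) =
      ∏ j ∈ range (2 * m), ∏ i ∈ range j,
        (zptS q (nestS m) i - q ^ 2 * zptS q (nestS m) j) := by
    unfold minPoly
    rw [map_prod]
    refine Finset.prod_congr rfl fun j _ => ?_
    rw [map_prod]
    refine Finset.prod_congr rfl fun i _ => ?_
    rw [map_sub, map_mul, eval_X, eval_X, eval_C]
  rw [hev, two_mul, Finset.prod_range_add]
  have e1 : ∏ j ∈ range m, ∏ i ∈ range j,
      (zptS q (nestS m) i - q ^ 2 * zptS q (nestS m) j) = (1 - q ^ 2) ^ (m * (m - 1) / 2) := by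
    rw [← Finset.sum_range_id, ← Finset.prod_pow_eq_pow_sum]
    refine Finset.prod_congr rfl fun j hj => ?_
    rw [Finset.mem_range] at hj
    rw [Finset.prod_congr rfl (g := fun _ => 1 - q ^ 2), Finset.prod_const, Finset.card_range]
    intro i hi
    rw [Finset.mem_range] at hi
    rw [z1 i (hi.trans hj), z1 j hj, mul_one]
  have e2 : ∏ j ∈ range m, ∏ i ∈ range (m + j),
      (zptS q (nestS m) i - q ^ 2 * zptS q (nestS m) (m + j)) =
      (1 - q) ^ (m ^ 2) * (q ^ 2 - q) ^ (m * (m - 1) / 2) := by
    have e3 : ∀ j ∈ range m, ∏ i ∈ range (m + j),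
        (zptS q (nestS m) i - q ^ 2 * zptS q (nestS m) (m + j)) =
        (1 - q) ^ m * (q ^ 2 - q) ^ j := by
      intro j hj
      rw [Finset.mem_range] at hj
      rw [Finset.prod_range_add, z2 j hj]
      congr 1
      · rw [Finset.prod_congr rfl (g := fun _ => 1 - q), Finset.prod_const, Finset.card_range]
        intro i hi
        rw [Finset.mem_range] at hi
        rw [z1 i hi]
        linear_combination (-q) * h3
      · rw [Finset.prod_congr rfl (g := fun _ => q ^ 2 - q), Finset.prod_const,
          Finset.card_range]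
        intro i hi
        rw [Finset.mem_range] at hi
        rw [z2 i (hi.trans hj)]
        linear_combination (-q) * h3
    rw [Finset.prod_congr rfl e3, Finset.prod_mul_distrib, Finset.prod_const, Finset.card_range,
      ← pow_mul, Finset.prod_pow_eq_pow_sum, Finset.sum_range_id, pow_two m]
  have e4 : (1 - q ^ 2) * (q ^ 2 - q) = -3 * q := by
    linear_combination (1 - q) * h3 + hq
  rw [e1, e2, ← e4, mul_pow]
  ring

end Pool.Agent.Perc
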