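import Pool.Agent.Lib.MP_6bd702_z.Z072

/-!
# The double wheel space: rotation (task DWC)
-/

set_option autoImplicit false

namespace Pool.Agent.Perc

open Finset MvPolynomial

variable {q : ℂ} {L : ℕ} {P : MvPolynomial ℕ ℂ}

namespace DWC

/-- The index map of the rotation. -/
def rotI (N : ℕ) (k : ℕ) : ℕ := if k + 1 < N then k + 1 else if k + 1 = N then 0 else k

/-- The inverse of the index map. -/
def rotJ (N : ℕ) (k : ℕ) : ℕ := if N ≤ k then k else if k = 0 then N - 1 else k - 1

theorem rotV_eq (N : ℕ) (z : ℕ → ℂ) : rotV N z = z ∘ rotI N := by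
  funext k
  show rotV N z k = z (rotI N k)
  simp only [rotV, rotI]
  split_ifs <;> rfl

theorem rotI_injective (N : ℕ) : Function.Injective (rotI N) := by
  intro a b hab
  unfold rotI at hab
  split_ifs at hab <;> omega

theorem rotI_rotJ (N k : ℕ) : rotI N (rotJ N k) = k := by
  unfold rotI rotJ
  split_ifs <;> omega

theorem rotJ_injective (N : ℕ) : Function.Injective (rotJ N) := by
  intro a b hab
  rw [← rotI_rotJ N a, hab, rotI_rotJ]

theorem rotJ_lt {N k : ℕ} (h : k < N) : rotJ N k < N := by
  unfold rotJ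
  split_ifs <;> omega

theorem eval_rot (N : ℕ) (P : MvPolynomial ℕ ℂ) (z : ℕ → ℂ) :
    eval z (rename (rotI N) P) = eval (rotV N z) P := by
  rw [eval_rename, rotV_eq]

theorem degreeOf_rot (N : ℕ) (P : MvPolynomial ℕ ℂ) (k : ℕ) :
    degreeOf k (rename (rotI N) P) = degreeOf (rotJ N k) P := by
  have h1 := degreeOf_rename_of_injective (p := P) (rotI_injective N) (rotJ N k)
  rw [rotI_rotJ] at h1
  exact h1

theorem support_rot {N : ℕ} {P : MvPolynomial ℕ ℂ} {d : ℕ →₀ ℕ}
    (hd : d ∈ (rename (rotI N) P).support) :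
    ∃ d' ∈ P.support, ∀ i, d i = d' (rotJ N i) := by
  classical
  rw [support_rename_of_injective (rotI_injective N)] at hd
  obtain ⟨d', hd', rfl⟩ := Finset.mem_image.1 hd
  refine ⟨d', hd', fun i => ?_⟩
  have h1 := Finsupp.mapDomain_apply (rotI_injective N) d' (rotJ N i)
  rw [rotI_rotJ] at h1
  exact h1

theorem sum_rot (N : ℕ) (d' : ℕ →₀ ℕ) (A : Finset ℕ) :
    ∑ i ∈ A, d' (rotJ N i) = ∑ i ∈ A.image (rotJ N), d' i := by
  rw [Finset.sum_image]
  intro a _ b _ h
  exact rotJ_injective N h

theorem image_range (N : ℕ) : (range N).image (rotJ N) = range N := by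
  apply Finset.eq_of_subset_of_card_le
  · intro x hx
    obtain ⟨y, hy, rfl⟩ := Finset.mem_image.1 hx
    exact Finset.mem_range.2 (rotJ_lt (Finset.mem_range.1 hy))
  · rw [Finset.card_image_of_injective _ (rotJ_injective N)]

theorem rotV_pred {N : ℕ} (z : ℕ → ℂ) {x : ℕ} (h0 : 0 < x) (hx : x < N) :
    rotV N z (x - 1) = z x := by
  unfold rotV
  rw [if_pos (by omega)]
  congr 1
  omega

theorem rotV_last {N : ℕ} (z : ℕ → ℂ) (hN : 0 < N) : rotV N z (N - 1) = z 0 := by
  unfold rotV
  rw [if_neg (by omega), if_pos (by omega)]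

theorem iterate_apply (N : ℕ) (z : ℕ → ℂ) (n x : ℕ) :
    (rotV N)^[n] z x = if x < N then z ((x + n) % N) else z x := by
  induction n generalizing x with
  | zero =>
    split_ifs with h
    · rw [Function.iterate_zero, id, Nat.add_zero, Nat.mod_eq_of_lt h]
    · rfl
  | succ n ih =>
    rw [Function.iterate_succ_apply']
    by_cases h1 : x + 1 < N
    · rw [if_pos (by omega)]
      show rotV N ((rotV N)^[n] z) x = _
      unfold rotV
      rw [if_pos h1]
      have := ih (x + 1)
      rw [if_pos h1] at this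
      unfold rotV at this
      rw [this]
      congr 2
      omega
    · by_cases h2 : x + 1 = N
      · rw [if_pos (by omega)]
        show rotV N ((rotV N)^[n] z) x = _
        unfold rotV
        rw [if_neg h1, if_pos h2]
        have := ih 0
        rw [if_pos (by omega)] at this
        unfold rotV at this
        rw [this]
        congr 1
        have : x + (n + 1) = n + N := by omega
        rw [this, Nat.add_mod_right, Nat.zero_add]
      · rw [if_neg (by omega)]
        show rotV N ((rotV N)^[n] z) x = _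
        unfold rotV
        rw [if_neg h1, if_neg h2]
        have := ih x
        rw [if_neg (by omega)] at this
        unfold rotV at this
        exact this

end DWC

open DWC

theorem DW.exists_rot (hq : q ^ 2 + q + 1 = 0) (h : DW q L P) :
    ∃ Q, DW q L Q ∧ ∀ z, eval z Q = eval (rotV L z) P := by
  have hq3 : q ^ 3 = 1 := by linear_combination (q - 1) * hq
  refine ⟨rename (rotI L) P, ⟨?_, ?_, ?_, ?_, ?_⟩, fun z => eval_rot L P z⟩
  · intro k hk
    rw [degreeOf_rot]
    exact h.out _ (by unfold rotJ; split_ifs <;> omega)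
  · intro d hd A hA
    obtain ⟨d', hd', hdd⟩ := support_rot hd
    rw [Finset.sum_congr rfl fun i _ => hdd i, sum_rot]
    have h1 := h.maj d' hd' (A.image (rotJ L)) (by
      intro x hx
      obtain ⟨y, hy, rfl⟩ := Finset.mem_image.1 hx
      exact Finset.mem_range.2 (rotJ_lt (Finset.mem_range.1 (hA hy))))
    rw [Finset.card_image_of_injective _ (rotJ_injective L)] at h1
    exact h1
  · intro d hd
    obtain ⟨d', hd', hdd⟩ := support_rot hd
    rw [Finset.sum_congr rfl fun i _ => hdd i, sum_rot, image_range]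
    exact h.tot d' hd'
  · intro z i j k hij hjk hk h1 h2
    have key : ∃ i' j' k', i' < j' ∧ j' < k' ∧ k' < L ∧
        rotV L z i' = q ^ 2 * rotV L z j' ∧ rotV L z j' = q ^ 2 * rotV L z k' := by
      by_cases hi : i = 0
      · subst hi
        refine ⟨j - 1, k - 1, L - 1, by omega, by omega, by omega, ?_, ?_⟩
        · rw [rotV_pred z (by omega) (by omega), rotV_pred z (by omega) hk, h2]
        · rw [rotV_pred z (by omega) hk, rotV_last z (by omega), h1, h2]
          linear_combination (-(q ^ 3 + 1) * z k) * hq3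
      · refine ⟨i - 1, j - 1, k - 1, by omega, by omega, by omega, ?_, ?_⟩
        · rw [rotV_pred z (by omega) (by omega), rotV_pred z (by omega) (by omega), h1]
        · rw [rotV_pred z (by omega) (by omega), rotV_pred z (by omega) hk, h2]
    obtain ⟨i', j', k', hij', hjk', hk', h1', h2'⟩ := key
    have h3 := h.wp (rotV L z) i' j' k' hij' hjk' hk' h1' h2'
    refine ⟨by rw [eval_rot]; exact h3.1, fun l => ?_⟩
    have h4 := pderiv_rename (rotI_injective L) (rotJ L l) P
    rw [rotI_rotJ] at h4
    rw [h4, eval_rot]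
    exact h3.2 _
  · intro z i j k hij hjk hk h1 h2
    rw [eval_rot]
    by_cases hi : i = 0
    · subst hi
      refine h.wm _ (j - 1) (k - 1) (L - 1) (by omega) (by omega) (by omega) ?_ ?_
      · rw [rotV_pred z (by omega) hk, rotV_last z (by omega), h1, h2]
        linear_combination (-(q ^ 3 + 1) * z 0) * hq3
      · rw [rotV_pred z (by omega) hk, rotV_pred z (by omega) (by omega), h1]
    · refine h.wm _ (i - 1) (j - 1) (k - 1) (by omega) (by omega) (by omega) ?_ ?_
      · rw [rotV_pred z (by omega) hk, rotV_pred z (by omega) (by omega), h1]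
      · rw [rotV_pred z (by omega) (by omega), rotV_pred z (by omega) (by omega), h2]

theorem DW.exists_rot_iterate (hq : q ^ 2 + q + 1 = 0) (h : DW q L P) (k : ℕ) :
    ∃ Q, DW q L Q ∧ ∀ z, eval z Q = eval ((rotV L)^[k] z) P := by
  induction k with
  | zero => exact ⟨P, h, fun z => rfl⟩
  | succ k ih =>
    obtain ⟨Q, hQ, hQe⟩ := ih
    obtain ⟨R, hR, hRe⟩ := hQ.exists_rot hq
    refine ⟨R, hR, fun z => ?_⟩
    rw [hRe, hQe, Function.iterate_succ_apply]

theorem rotV_iterate (L : ℕ) (z : ℕ → ℂ) : (rotV L)^[L] z = z := by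
  funext x
  rw [iterate_apply]
  split_ifs with h
  · rw [Nat.add_mod_right, Nat.mod_eq_of_lt h]
  · rfl

end Pool.Agent.Perc
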