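import Pool.Agent.Lib.MP_6bd702_z.Z073
import Pool.Agent.Lib.MP_6bd702_z.Z075
import Pool.Agent.Lib.MP_6bd702_z.Z074
import Pool.Agent.Lib.MP_6bd702_z.Z029
import Pool.Agent.Lib.MP_6bd702_z.Z068
import Pool.Agent.Lib.MP_6bd702_z.Z065

section PartperqDWE

/-!
# The double wheel space: the operators E_i preserve it (task DWE)
-/

set_option autoImplicit false

namespace Pool.Agent.Perc

open Finset MvPolynomial

variable {q : ℂ} {L : ℕ} {P : MvPolynomial ℕ ℂ}

namespace DWE

open WheelE (eval_sw num eval_num exists_quot X_sub_X_ne norm_q q_ne_one q_ne_zero q_cube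
  q2_ne_one degreeOf_sw_of_ne degreeOf_num_le degreeOf_sw_left degreeOf_sw_right)

/-! ### degrees -/

lemma sum_single (A : Finset ℕ) (i : ℕ) :
    ∑ k ∈ A, (Finsupp.single i 1 : ℕ →₀ ℕ) k = if i ∈ A then 1 else 0 := by
  by_cases h : i ∈ A
  · rw [if_pos h, Finset.sum_eq_single_of_mem i h, Finsupp.single_eq_same]
    intro b _ hb
    exact Finsupp.single_eq_of_ne hb
  · rw [if_neg h]
    refine Finset.sum_eq_zero fun b hb => Finsupp.single_eq_of_ne ?_
    rintro rfl
    exact h hb

lemma degA_X_le (A : Finset ℕ) (i : ℕ) (c : ℂ) :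
    degA A (C c * X i : MvPolynomial ℕ ℂ) ≤ if i ∈ A then 1 else 0 := by
  rw [DWA.degA_le_iff]
  intro s hs
  have h1 : s = Finsupp.single i 1 := by
    rw [C_mul_X_eq_monomial] at hs
    have := support_monomial_subset hs
    rwa [mem_singleton] at this
  rw [h1, sum_single]

lemma degA_sub_le (A : Finset ℕ) (P Q : MvPolynomial ℕ ℂ) {d : ℕ} (hP : degA A P ≤ d)
    (hQ : degA A Q ≤ d) : degA A (P - Q) ≤ d := by
  rw [DWA.degA_le_iff] at *
  intro s hs
  rw [sub_eq_add_neg] at hs
  rcases DWA.mem_support_add hs with h | h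
  · exact hP s h
  · rw [support_neg] at h
    exact hQ s h

lemma degA_lin_le (A : Finset ℕ) (i : ℕ) (a b : ℂ) :
    degA A (C a * X i - C b * X (i + 1) : MvPolynomial ℕ ℂ)
      ≤ if i ∈ A ∨ i + 1 ∈ A then 1 else 0 := by
  refine degA_sub_le A _ _ ((degA_X_le A i a).trans ?_) ((degA_X_le A (i + 1) b).trans ?_) <;>
    split_ifs <;> simp_all

lemma degA_lin_le' (A : Finset ℕ) (i : ℕ) (a b : ℂ) :
    degA A (C a * X (i + 1) - C b * X i : MvPolynomial ℕ ℂ)
      ≤ if i ∈ A ∨ i + 1 ∈ A then 1 else 0 := by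
  refine degA_sub_le A _ _ ((degA_X_le A (i + 1) a).trans ?_) ((degA_X_le A i b).trans ?_) <;>
    split_ifs <;> simp_all

lemma le_degA_X_sub_X (A : Finset ℕ) (i : ℕ) :
    (if i ∈ A ∨ i + 1 ∈ A then 1 else 0) ≤ degA A (X i - X (i + 1) : MvPolynomial ℕ ℂ) := by
  have hne : (Finsupp.single i 1 : ℕ →₀ ℕ) ≠ Finsupp.single (i + 1) 1 := by
    intro h
    have := (Finsupp.single_left_injective one_ne_zero) h
    omega
  have h1 : (Finsupp.single i 1 : ℕ →₀ ℕ) ∈ (X i - X (i + 1) : MvPolynomial ℕ ℂ).support := by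
    rw [mem_support_iff, coeff_sub, coeff_X, coeff_X, if_pos rfl, if_neg hne.symm, sub_zero]
    exact one_ne_zero
  have h2 : (Finsupp.single (i + 1) 1 : ℕ →₀ ℕ) ∈ (X i - X (i + 1) : MvPolynomial ℕ ℂ).support := by
    rw [mem_support_iff, coeff_sub, coeff_X, coeff_X, if_pos rfl, if_neg hne, zero_sub]
    exact neg_ne_zero.mpr one_ne_zero
  by_cases h : i ∈ A
  · have h3 := (DWA.degA_le_iff A _ _).mp le_rfl _ h1
    rw [sum_single, if_pos h] at h3
    rw [if_pos (Or.inl h)]
    exact h3
  · by_cases h' : i + 1 ∈ A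
    · have h3 := (DWA.degA_le_iff A _ _).mp le_rfl _ h2
      rw [sum_single, if_pos h'] at h3
      rw [if_pos (Or.inr h')]
      exact h3
    · rw [if_neg (by tauto)]
      exact Nat.zero_le _

/-- exponents of the exchanged polynomial -/
lemma support_sw {i : ℕ} {d : ℕ →₀ ℕ} (hd : d ∈ (WheelE.sw i P).support) :
    ∃ e ∈ P.support, ∀ k, d k = e (Equiv.swap i (i + 1) k) := by
  classical
  unfold WheelE.sw at hd
  rw [support_rename_of_injective (Equiv.injective _), Finset.mem_image] at hd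
  obtain ⟨e, he, rfl⟩ := hd
  refine ⟨e, he, fun k => ?_⟩
  conv_lhs => rw [← Equiv.swap_apply_self i (i + 1) k]
  exact Finsupp.mapDomain_apply (Equiv.injective _) _ _

lemma degA_sw_le (h : DW q L P) {i : ℕ} (hi : i + 1 < L) {A : Finset ℕ} (hA : A ⊆ range L) :
    degA A (WheelE.sw i P) ≤ ∑ j ∈ range A.card, (L - 1 - j) := by
  classical
  rw [DWA.degA_le_iff]
  intro d hd
  obtain ⟨e, he, hde⟩ := support_sw hd
  have h1 := h.maj e he (A.image (Equiv.swap i (i + 1))) (by
    intro k hk
    rw [Finset.mem_image] at hk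
    obtain ⟨a, ha, rfl⟩ := hk
    have ha' := hA ha
    rw [mem_range] at ha' ⊢
    rw [Equiv.swap_apply_def]
    split_ifs <;> omega)
  rw [Finset.card_image_of_injective _ (Equiv.injective _),
    Finset.sum_image (fun a _ b _ hab => (Equiv.injective _) hab)] at h1
  refine le_trans (le_of_eq ?_) h1
  exact Finset.sum_congr rfl fun k _ => hde k

lemma degA_mul_le (A : Finset ℕ) (P Q : MvPolynomial ℕ ℂ) {a b : ℕ} (hP : degA A P ≤ a)
    (hQ : degA A Q ≤ b) : degA A (P * Q) ≤ a + b := by
  by_cases hP0 : P = 0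
  · subst hP0
    rw [zero_mul]
    simp [degA]
  by_cases hQ0 : Q = 0
  · subst hQ0
    rw [mul_zero]
    simp [degA]
  rw [degA_mul A hP0 hQ0]
  exact add_le_add hP hQ

lemma degA_num_le (h : DW q L P) {i : ℕ} (hi : i + 1 < L) {A : Finset ℕ} (hA : A ⊆ range L) :
    degA A (num q i P) ≤ (if i ∈ A ∨ i + 1 ∈ A then 1 else 0) + ∑ j ∈ range A.card, (L - 1 - j) := by
  unfold WheelE.num
  refine degA_sub_le A _ _ ?_ ?_
  · exact degA_mul_le A _ _ (degA_lin_le' A i _ _) (degA_sw_le h hi hA)
  · exact degA_mul_le A _ _ (degA_lin_le A i _ _) ((DWA.degA_le_iff A P _).mpr fun d hd => h.maj d hd A hA)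

/-! ### homogeneity -/

lemma gr_of_tot {A : Finset ℕ} {D : ℕ} (h : ∀ d ∈ P.support, ∑ i ∈ A, d i = D) :
    DWA.gr A P = Polynomial.C P * Polynomial.X ^ D := by
  rw [DWA.gr_eq]
  have h1 : ∑ s ∈ P.support, Polynomial.C (monomial s (coeff s P)) * Polynomial.X ^ (DWA.dA A s)
      = ∑ s ∈ P.support, Polynomial.C (monomial s (coeff s P)) * Polynomial.X ^ D :=
    Finset.sum_congr rfl fun s hs => by
      have : DWA.dA A s = D := h s hs
      rw [this]
  rw [h1, ← Finset.sum_mul, ← map_sum, ← P.as_sum]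

lemma tot_of_gr {A : Finset ℕ} {D : ℕ} (h : DWA.gr A P = Polynomial.C P * Polynomial.X ^ D) :
    ∀ d ∈ P.support, ∑ i ∈ A, d i = D := by
  intro d hd
  have h1 := DWA.coeff_coeff_gr A P (DWA.dA A d) d
  rw [if_pos rfl, h, Polynomial.coeff_C_mul_X_pow] at h1
  by_contra hne
  rw [if_neg (show ¬ DWA.dA A d = D from hne), coeff_zero] at h1
  exact (mem_support_iff.mp hd) h1.symm

lemma tot_sw (h : DW q L P) {i : ℕ} (hi : i + 1 < L) :
    ∀ d ∈ (WheelE.sw i P).support, ∑ k ∈ range L, d k = ∑ j ∈ range L, j := by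
  intro d hd
  obtain ⟨e, he, hde⟩ := support_sw hd
  rw [← h.tot e he]
  refine Finset.sum_bij (fun k _ => Equiv.swap i (i + 1) k) ?_ ?_ ?_ ?_
  · intro k hk
    rw [mem_range] at hk ⊢
    rw [Equiv.swap_apply_def]
    split_ifs <;> omega
  · intro a _ b _ hab
    exact (Equiv.injective _) hab
  · intro b hb
    refine ⟨Equiv.swap i (i + 1) b, ?_, Equiv.swap_apply_self _ _ _⟩
    rw [mem_range] at hb ⊢
    rw [Equiv.swap_apply_def]
    split_ifs <;> omega
  · intro k _
    exact hde k

lemma gr_lin {i : ℕ} (hi : i + 1 < L) (a b : ℂ) :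
    DWA.gr (range L) (C a * X i - C b * X (i + 1)) =
      Polynomial.C (C a * X i - C b * X (i + 1)) * Polynomial.X := by
  have hC : ∀ c : ℂ, DWA.gr (range L) (C c) = Polynomial.C (C c) := fun c => by
    have h1 : (C c : MvPolynomial ℕ ℂ) = algebraMap ℂ (MvPolynomial ℕ ℂ) c := rfl
    rw [h1, AlgHom.commutes]
    rfl
  rw [map_sub, map_mul, map_mul, DWA.gr_X, DWA.gr_X, if_pos (mem_range.mpr (by omega)),
    if_pos (mem_range.mpr (by omega)), hC, hC]
  simp only [map_sub, map_mul]
  ring

lemma gr_lin' {i : ℕ} (hi : i + 1 < L) (a b : ℂ) :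
    DWA.gr (range L) (C a * X (i + 1) - C b * X i) =
      Polynomial.C (C a * X (i + 1) - C b * X i) * Polynomial.X := by
  have hC : ∀ c : ℂ, DWA.gr (range L) (C c) = Polynomial.C (C c) := fun c => by
    have h1 : (C c : MvPolynomial ℕ ℂ) = algebraMap ℂ (MvPolynomial ℕ ℂ) c := rfl
    rw [h1, AlgHom.commutes]
    rfl
  rw [map_sub, map_mul, map_mul, DWA.gr_X, DWA.gr_X, if_pos (mem_range.mpr (by omega)),
    if_pos (mem_range.mpr (by omega)), hC, hC]
  simp only [map_sub, map_mul]
  ring

lemma gr_num (h : DW q L P) {i : ℕ} (hi : i + 1 < L) :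
    DWA.gr (range L) (num q i P) =
      Polynomial.C (num q i P) * Polynomial.X ^ (∑ j ∈ range L, j + 1) := by
  unfold WheelE.num
  rw [map_sub, map_mul (DWA.gr (range L)), map_mul (DWA.gr (range L)), gr_lin' hi, gr_lin hi,
    gr_of_tot h.tot, gr_of_tot (tot_sw h hi)]
  simp only [map_sub, map_mul]
  ring

lemma tot_quot (h : DW q L P) {i : ℕ} (hi : i + 1 < L) {Q : MvPolynomial ℕ ℂ}
    (hQ : (X i - X (i + 1)) * Q = num q i P) :
    ∀ d ∈ Q.support, ∑ k ∈ range L, d k = ∑ j ∈ range L, j := by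
  apply tot_of_gr
  have h1 := gr_num h hi
  rw [← hQ, map_mul (DWA.gr (range L))] at h1
  have h2 := gr_lin hi (1 : ℂ) 1
  simp only [C_1, one_mul] at h2
  rw [h2, map_mul Polynomial.C] at h1
  have h3 : (Polynomial.C (X i - X (i + 1) : MvPolynomial ℕ ℂ) * Polynomial.X) ≠ 0 :=
    mul_ne_zero (by rw [Ne, Polynomial.C_eq_zero]; exact X_sub_X_ne (by omega)) Polynomial.X_ne_zero
  refine mul_left_cancel₀ h3 ?_
  rw [h1]
  ring

/-! ### wheel conditions of the numerator -/

lemma hs (i : ℕ) (z : ℕ → ℂ) (k : ℕ) : swapV i z (Equiv.swap i (i + 1) k) = z k := by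
  rw [swapV, Equiv.swap_apply_self]

lemma swap_eq (i k : ℕ) : Equiv.swap i (i + 1) k = if k = i then i + 1 else if k = i + 1 then i else k :=
  Equiv.swap_apply_def _ _ _

lemma swapV_self (i : ℕ) (z : ℕ → ℂ) : swapV i z i = z (i + 1) := by
  rw [swapV, Equiv.swap_apply_left]

lemma swapV_succ (i : ℕ) (z : ℕ → ℂ) : swapV i z (i + 1) = z i := by
  rw [swapV, Equiv.swap_apply_right]

lemma swapV_of_ne (i : ℕ) (z : ℕ → ℂ) {k : ℕ} (h1 : k ≠ i) (h2 : k ≠ i + 1) : swapV i z k = z k := by
  rw [swapV, Equiv.swap_apply_of_ne_of_ne h1 h2]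

lemma wm_num (h : DW q L P) (hq : q ^ 2 + q + 1 = 0) {i : ℕ} (hi : i + 1 < L)
    {z : ℕ → ℂ} {a b c : ℕ} (hab : a < b) (hbc : b < c) (hc : c < L)
    (h1 : z c = q ^ 2 * z b) (h2 : z b = q ^ 2 * z a) : eval z (num q i P) = 0 := by
  have hq3 := q_cube hq
  rw [eval_num, h.wm z a b c hab hbc hc h1 h2, mul_zero, sub_zero]
  by_cases hA : a = i ∧ b = i + 1
  · obtain ⟨rfl, rfl⟩ := hA
    rw [(h.wp (swapV a z) a (a + 1) c (by omega) hbc hc ?_ ?_).1, mul_zero]
    · rw [swapV_self, swapV_succ]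
      exact h2
    · rw [swapV_succ, swapV_of_ne a z (by omega) (by omega), h1, h2]
      linear_combination (-(q ^ 3 + 1) * z a) * hq3
  by_cases hB : b = i ∧ c = i + 1
  · obtain ⟨rfl, rfl⟩ := hB
    rw [(h.wp (swapV b z) a b (b + 1) hab (by omega) (by omega) ?_ ?_).1, mul_zero]
    · rw [swapV_self, swapV_of_ne b z (by omega) (by omega), h1, h2]
      linear_combination (-(q ^ 3 + 1) * z a) * hq3
    · rw [swapV_self, swapV_succ]
      exact h1
  rw [h.wm (swapV i z) (Equiv.swap i (i + 1) a) (Equiv.swap i (i + 1) b)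
    (Equiv.swap i (i + 1) c) ?_ ?_ ?_ ?_ ?_, mul_zero]
  · rw [swap_eq, swap_eq]
    split_ifs <;> omega
  · rw [swap_eq, swap_eq]
    split_ifs <;> omega
  · rw [swap_eq]
    split_ifs <;> omega
  · rw [hs, hs, h1]
  · rw [hs, hs, h2]

/-- value and derivatives of the exchanged polynomial -/
lemma pderiv_sw (i l : ℕ) (P : MvPolynomial ℕ ℂ) :
    pderiv l (WheelE.sw i P) = WheelE.sw i (pderiv (Equiv.swap i (i + 1) l) P) := by
  unfold WheelE.sw
  have h := pderiv_rename (R := ℂ) (f := Equiv.swap i (i + 1)) (Equiv.injective _)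
    (Equiv.swap i (i + 1) l) P
  rwa [Equiv.swap_apply_self] at h

lemma wp_num (h : DW q L P) (hq : q ^ 2 + q + 1 = 0) {i : ℕ} (hi : i + 1 < L)
    {z : ℕ → ℂ} {a b c : ℕ} (hab : a < b) (hbc : b < c) (hc : c < L)
    (h1 : z a = q ^ 2 * z b) (h2 : z b = q ^ 2 * z c) :
    eval z (num q i P) = 0 ∧ ∀ l, eval z (pderiv l (num q i P)) = 0 := by
  have hq3 := q_cube hq
  obtain ⟨p0, p1⟩ := h.wp z a b c hab hbc hc h1 h2
  -- the two cases for the exchanged point
  have key : eval (swapV i z) P = 0 ∧ ((q * z (i + 1) - q ^ 2 * z i) = 0 ∨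
      ∀ l, eval (swapV i z) (pderiv l P) = 0) := by
    by_cases hA : a = i ∧ b = i + 1
    · obtain ⟨rfl, rfl⟩ := hA
      refine ⟨h.wm (swapV a z) a (a + 1) c (by omega) hbc hc ?_ ?_, Or.inl ?_⟩
      · rw [swapV_succ, swapV_of_ne a z (by omega) (by omega), h1, h2]
        linear_combination (-(q ^ 3 + 1) * z c) * hq3
      · rw [swapV_self, swapV_succ]
        exact h1
      · rw [h1]
        linear_combination (-q * z (a + 1)) * hq3
    by_cases hB : b = i ∧ c = i + 1
    · obtain ⟨rfl, rfl⟩ := hB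
      refine ⟨h.wm (swapV b z) a b (b + 1) hab (by omega) (by omega) ?_ ?_, Or.inl ?_⟩
      · rw [swapV_self, swapV_succ]
        exact h2
      · rw [swapV_self, swapV_of_ne b z (by omega) (by omega), h1, h2]
        linear_combination (-(q ^ 3 + 1) * z (b + 1)) * hq3
      · rw [h2]
        linear_combination (-q * z (b + 1)) * hq3
    obtain ⟨s0, s1⟩ := h.wp (swapV i z) (Equiv.swap i (i + 1) a) (Equiv.swap i (i + 1) b)
      (Equiv.swap i (i + 1) c) (by rw [swap_eq, swap_eq]; split_ifs <;> omega)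
      (by rw [swap_eq, swap_eq]; split_ifs <;> omega) (by rw [swap_eq]; split_ifs <;> omega)
      (by rw [hs, hs, h1]) (by rw [hs, hs, h2])
    exact ⟨s0, Or.inr s1⟩
  constructor
  · rw [eval_num, key.1, p0, mul_zero, mul_zero, sub_zero]
  · intro l
    unfold WheelE.num
    rw [map_sub, pderiv_mul, pderiv_mul, map_sub, map_add, map_add, map_mul, map_mul, map_mul,
      map_mul, p0, p1 l, pderiv_sw, eval_sw, eval_sw, key.1]
    simp only [mul_zero, zero_add, sub_zero, map_sub, map_mul, eval_C, eval_X, add_zero]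
    rcases key.2 with h3 | h3
    · rw [h3, zero_mul]
    · rw [h3, mul_zero]

/-! ### closure -/

lemma closure_aux (Q : MvPolynomial ℕ ℂ) (i : ℕ) (z w : ℕ → ℂ) (hw : w i ≠ w (i + 1))
    (h : ∀ t : ℂ, (z i + t * w i) - (z (i + 1) + t * w (i + 1)) ≠ 0 →
      eval (fun k => z k + t * w k) Q = 0) : eval z Q = 0 := by
  have hcont : Continuous fun t : ℂ => eval (fun k => z k + t * w k) Q :=
    (continuous_eval Q).comp (continuous_pi fun k => by fun_prop)
  have hclosed : IsClosed {t : ℂ | eval (fun k => z k + t * w k) Q = 0} :=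
    isClosed_eq hcont continuous_const
  have hdense : Dense {t : ℂ | eval (fun k => z k + t * w k) Q = 0} := by
    refine (dense_compl_singleton (-(z i - z (i + 1)) / (w i - w (i + 1)))).mono ?_
    intro t ht
    apply h t
    intro h5
    apply ht
    rw [Set.mem_singleton_iff, eq_div_iff (sub_ne_zero.2 hw)]
    linear_combination h5
  have h0 : (0 : ℂ) ∈ {t : ℂ | eval (fun k => z k + t * w k) Q = 0} := by
    rw [← hclosed.closure_eq, hdense.closure_eq]
    exact Set.mem_univ _
  simpa using h0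

/-- a direction in the wheel subspace -/
lemma exists_dir (hq : q ^ 2 + q + 1 = 0) (i : ℕ) {a b c : ℕ} (hab : a ≠ b) (hbc : b ≠ c)
    (hac : a ≠ c) : ∃ w : ℕ → ℂ, w a = q ^ 2 * w b ∧ w b = q ^ 2 * w c ∧ w i ≠ w (i + 1) := by
  have hq3 := q_cube hq
  let w : ℕ → ℂ := fun k => if k = c then 1 else if k = b then q ^ 2 else if k = a then q
      else (5 + k : ℕ)
  have hwc : w c = 1 := if_pos rfl
  have hwb : w b = q ^ 2 := by
    simp only [w]
    rw [if_neg hbc]
    simp
  have hwa : w a = q := by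
    simp only [w]
    rw [if_neg hac, if_neg hab]
    simp
  have hwo : ∀ k, ¬ (k = a ∨ k = b ∨ k = c) → w k = (5 + k : ℕ) := by
    intro k hk
    push Not at hk
    simp only [w]
    rw [if_neg hk.2.2, if_neg hk.2.1, if_neg hk.1]
  have hnq := norm_q hq
  have hnorm : ∀ k, k = a ∨ k = b ∨ k = c → ‖w k‖ = 1 := by
    rintro k (rfl | rfl | rfl)
    · rw [hwa, hnq]
    · rw [hwb, norm_pow, hnq, one_pow]
    · rw [hwc, norm_one]
  have hnorm' : ∀ k, ¬ (k = a ∨ k = b ∨ k = c) → ‖w k‖ = 5 + k := by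
    intro k hk
    rw [hwo k hk, Complex.norm_natCast]
    push_cast
    ring
  have hqq : q ≠ q ^ 2 := by
    intro h
    have h7 : q * (q - 1) = 0 := by linear_combination -h
    rcases mul_eq_zero.1 h7 with h8 | h8
    · exact q_ne_zero hq h8
    · exact q_ne_one hq (sub_eq_zero.1 h8)
  refine ⟨w, ?_, ?_, ?_⟩
  · rw [hwa, hwb]
    linear_combination (-q) * hq3
  · rw [hwb, hwc, mul_one]
  · intro hcon
    by_cases h3 : i = a ∨ i = b ∨ i = c
    · by_cases h4 : i + 1 = a ∨ i + 1 = b ∨ i + 1 = c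
      · rcases h3 with h3 | h3 | h3 <;> rcases h4 with h4 | h4 | h4 <;>
          first
          | omega
          | (rw [h4, h3, hwa, hwb] at hcon; exact hqq hcon)
          | (rw [h4, h3, hwb, hwa] at hcon; exact hqq hcon.symm)
          | (rw [h4, h3, hwa, hwc] at hcon; exact q_ne_one hq hcon)
          | (rw [h4, h3, hwc, hwa] at hcon; exact q_ne_one hq hcon.symm)
          | (rw [h4, h3, hwb, hwc] at hcon; exact q2_ne_one hq hcon)
          | (rw [h4, h3, hwc, hwb] at hcon; exact q2_ne_one hq hcon.symm)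
      · have h5 := hnorm i h3
        have h6 := hnorm' (i + 1) h4
        rw [hcon, h6] at h5
        push_cast at h5
        have : (0 : ℝ) ≤ i := Nat.cast_nonneg i
        linarith
    · by_cases h4 : i + 1 = a ∨ i + 1 = b ∨ i + 1 = c
      · have h5 := hnorm' i h3
        have h6 := hnorm (i + 1) h4
        rw [hcon, h6] at h5
        have : (0 : ℝ) ≤ i := Nat.cast_nonneg i
        linarith
      · have h5 := hnorm' i h3
        have h6 := hnorm' (i + 1) h4
        rw [hcon, h6] at h5
        push_cast at h5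
        linarith

/-! ### the quotient -/

lemma eval_quot {i : ℕ} {Q : MvPolynomial ℕ ℂ} (hQ : (X i - X (i + 1)) * Q = num q i P)
    {z : ℕ → ℂ} (hz : z i - z (i + 1) ≠ 0) (hn : eval z (num q i P) = 0) : eval z Q = 0 := by
  rw [← hQ, map_mul, map_sub, eval_X, eval_X] at hn
  exact (mul_eq_zero.1 hn).resolve_left hz

lemma pderiv_quot {i : ℕ} {Q : MvPolynomial ℕ ℂ} (hQ : (X i - X (i + 1)) * Q = num q i P)
    {z : ℕ → ℂ} (hz : z i - z (i + 1) ≠ 0) (hn : eval z (num q i P) = 0) {l : ℕ}
    (hl : eval z (pderiv l (num q i P)) = 0) : eval z (pderiv l Q) = 0 := by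
  have h0 := eval_quot hQ hz hn
  rw [← hQ, pderiv_mul, map_add, map_mul, map_mul, h0, mul_zero, zero_add, map_sub, eval_X,
    eval_X] at hl
  exact (mul_eq_zero.1 hl).resolve_left hz

lemma dw_quot (h : DW q L P) (hq : q ^ 2 + q + 1 = 0) {i : ℕ} (hi : i + 1 < L)
    {Q : MvPolynomial ℕ ℂ} (hQ : (X i - X (i + 1)) * Q = num q i P) : DW q L Q := by
  have hne : (X i - X (i + 1) : MvPolynomial ℕ ℂ) ≠ 0 := X_sub_X_ne (by omega)
  by_cases hQ0 : Q = 0
  · subst hQ0
    exact dw_zero
  refine ⟨?_, ?_, tot_quot h hi hQ, ?_, ?_⟩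
  · intro k hk
    have h0 : (X i - X (i + 1) : MvPolynomial ℕ ℂ).degreeOf k + Q.degreeOf k =
        (num q i P).degreeOf k := by
      rw [← hQ, degreeOf_mul_eq hne hQ0]
    have h1 := degreeOf_num_le q i k P (h.out k hk).le
      (by rw [degreeOf_sw_of_ne (by omega) (by omega)]; exact (h.out k hk).le)
    rw [if_neg (by omega)] at h1
    omega
  · intro d hd A hA
    have h1 : degA A (X i - X (i + 1) : MvPolynomial ℕ ℂ) + degA A Q = degA A (num q i P) := by
      rw [← hQ, degA_mul A hne hQ0]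
    have h2 := degA_num_le h hi hA
    have h3 := le_degA_X_sub_X A i
    have h4 := (DWA.degA_le_iff A Q _).mp le_rfl d hd
    omega
  · intro z a b c hab hbc hc h1 h2
    obtain ⟨w, w1, w2, w3⟩ := exists_dir hq i (a := a) (b := b) (c := c) (by omega) (by omega)
      (by omega)
    have hn : ∀ t : ℂ, eval (fun k => z k + t * w k) (num q i P) = 0 ∧
        ∀ l, eval (fun k => z k + t * w k) (pderiv l (num q i P)) = 0 := fun t =>
      wp_num h hq hi hab hbc hc (by rw [h1, w1]; ring) (by rw [h2, w2]; ring)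
    constructor
    · exact closure_aux Q i z w w3 fun t ht => eval_quot hQ ht (hn t).1
    · intro l
      exact closure_aux _ i z w w3 fun t ht => pderiv_quot hQ ht (hn t).1 ((hn t).2 l)
  · intro z a b c hab hbc hc h1 h2
    obtain ⟨w, w1, w2, w3⟩ := exists_dir hq i (a := c) (b := b) (c := a) (by omega) (by omega)
      (by omega)
    exact closure_aux Q i z w w3 fun t ht => eval_quot hQ ht
      (wm_num h hq hi hab hbc hc (by rw [h1, w1]; ring) (by rw [h2, w2]; ring))

end DWE

theorem DW.exists_E (hq : q ^ 2 + q + 1 = 0) (h : DW q L P) {i : ℕ} (hi : i + 1 < L) :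
    ∃ Q, DW q L Q ∧
      (∀ z, (z i - z (i + 1)) * eval z Q = (q * z (i + 1) - q ^ 2 * z i) * eval (swapV i z) P -
        (q * z i - q ^ 2 * z (i + 1)) * eval z P) := by
  obtain ⟨Q, hQ⟩ := WheelE.exists_quot hq i P
  refine ⟨Q, DWE.dw_quot h hq hi hQ, fun z => ?_⟩
  rw [← WheelE.eval_num, ← hQ, map_mul, map_sub, eval_X, eval_X]

end Pool.Agent.Perc

end PartperqDWE

section PartperqDWV

/-!
# The double wheel space: values of `E_i P` at the states (task DWV)
-/

set_option autoImplicit false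

namespace Pool.Agent.Perc

open Finset MvPolynomial

variable {q : ℂ} {m : ℕ} {P Q : MvPolynomial ℕ ℂ}

namespace DWV

/-- the defining relation, for functions -/
def Rel (q : ℂ) (i : ℕ) (P Q : MvPolynomial ℕ ℂ) : Prop :=
  ∀ z, (z i - z (i + 1)) * eval z Q = (q * z (i + 1) - q ^ 2 * z i) * eval (swapV i z) P -
        (q * z i - q ^ 2 * z (i + 1)) * eval z P

theorem q_ne_one (hq : q ^ 2 + q + 1 = 0) : q ≠ 1 := by
  rintro rfl
  norm_num at hq

theorem q_ne_zero (hq : q ^ 2 + q + 1 = 0) : q ≠ 0 := by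
  rintro rfl
  norm_num at hq

theorem q_cube (hq : q ^ 2 + q + 1 = 0) : q ^ 3 = 1 := by linear_combination (q - 1) * hq

theorem q2_ne_one (hq : q ^ 2 + q + 1 = 0) : q ^ 2 ≠ 1 := by
  intro h
  apply q_ne_one hq
  have h3 := q_cube hq
  calc q = q ^ 3 := by rw [pow_succ, h, one_mul]
    _ = 1 := h3

/-- `v ∏ (z_k - q v)² ≠ 0` for some `v` -/
theorem exists_prod_ne (hq : q ^ 2 + q + 1 = 0) (N : ℕ) (z : ℕ → ℂ) :
    ∃ v : ℂ, v * (∏ k ∈ range N, (z k - q * v) ^ 2) ≠ 0 := by
  have hfin : ({0} ∪ ⋃ k ∈ range N, {v : ℂ | z k - q * v = 0}).Finite := by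
    refine (Set.finite_singleton _).union ?_
    refine Set.Finite.biUnion (Finset.finite_toSet _) fun k _ => ?_
    refine (Set.finite_singleton (z k / q)).subset ?_
    intro v hv
    rw [Set.mem_singleton_iff, eq_div_iff (q_ne_zero hq)]
    have hv' : z k - q * v = 0 := hv
    linear_combination -hv'
  obtain ⟨v, hv⟩ := hfin.exists_notMem
  refine ⟨v, mul_ne_zero ?_ ?_⟩
  · rintro rfl
    exact hv (Or.inl rfl)
  rw [Finset.prod_ne_zero_iff]
  intro k hk h0
  exact hv (Or.inr (Set.mem_biUnion hk (pow_eq_zero_iff (two_ne_zero) |>.1 h0)))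

/-- two polynomials which agree up to a factor `∏ (x_k - c x_j)²` where `x_j ≠ 0` are equal -/
theorem eq_of_mul_prod (N j : ℕ) (c : ℂ) (hc : c ≠ 1) {A B : MvPolynomial ℕ ℂ}
    (hAB : ∀ z : ℕ → ℂ, z j ≠ 0 → (∏ k ∈ range N, (z k - c * z j) ^ 2) * eval z A =
      (∏ k ∈ range N, (z k - c * z j) ^ 2) * eval z B) : A = B := by
  have h1 : (X j * ∏ k ∈ range N, (X k - C c * X j) ^ 2) * (A - B) = (0 : MvPolynomial ℕ ℂ) := by
    apply MvPolynomial.funext
    intro z
    rw [map_mul, map_mul, map_prod, map_sub, map_zero, eval_X]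
    simp only [map_sub, map_mul, map_pow, eval_X, eval_C]
    by_cases hz : z j = 0
    · rw [hz]; ring
    · have := hAB z hz
      linear_combination (z j) * this
  rcases mul_eq_zero.1 h1 with h2 | h2
  · exfalso
    rcases mul_eq_zero.1 h2 with h3 | h3
    · exact X_ne_zero j h3
    · rw [Finset.prod_eq_zero_iff] at h3
      obtain ⟨k, hk, h4'⟩ := h3
      have h4 : (X k - C c * X j : MvPolynomial ℕ ℂ) = 0 := pow_eq_zero_iff (two_ne_zero) |>.1 h4'
      have h5 := congrArg (eval (fun l => if l = j then (1 : ℂ) else c + 1)) h4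
      simp only [map_sub, map_mul, eval_X, eval_C, map_zero] at h5
      by_cases hkj : k = j
      · subst hkj
        simp only [if_true] at h5
        apply hc
        linear_combination -h5
      · rw [if_neg hkj] at h5
        simp only [if_true] at h5
        have : (1 : ℂ) = 0 := by linear_combination h5
        exact one_ne_zero this
  · exact sub_eq_zero.1 h2

theorem insV_of_lt {i k : ℕ} (h : k < i) (u v : ℂ) (z : ℕ → ℂ) : insV i u v z k = z k := if_pos h

theorem insV_self (i : ℕ) (u v : ℂ) (z : ℕ → ℂ) : insV i u v z i = u := by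
  simp [insV]

theorem insV_succ (i : ℕ) (u v : ℂ) (z : ℕ → ℂ) : insV i u v z (i + 1) = v := by
  simp [insV]

theorem insV_of_gt {i k : ℕ} (h : i + 1 < k) (u v : ℂ) (z : ℕ → ℂ) :
    insV i u v z k = z (k - 2) := by
  rw [insV, if_neg (by omega), if_neg (by omega), if_neg (by omega)]

theorem swapV_def (i : ℕ) (z : ℕ → ℂ) (k : ℕ) :
    swapV i z k = if k = i then z (i + 1) else if k = i + 1 then z i else z k := by
  rw [swapV, Equiv.swap_apply_def]
  split_ifs <;> rfl

theorem rotV_swapV {L i : ℕ} (hi : i + 2 < L) (z : ℕ → ℂ) :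
    rotV L (swapV (i + 1) z) = swapV i (rotV L z) := by
  funext k
  simp only [rotV, swapV_def]
  split_ifs <;> first | rfl | omega | contradiction

theorem rotV_of_lt {L k : ℕ} (hk : k + 1 < L) (z : ℕ → ℂ) : rotV L z k = z (k + 1) := if_pos hk

theorem case_eq (hq : q ^ 2 + q + 1 = 0) {i : ℕ} (hR : Rel q i P Q)
    {z : ℕ → ℂ} (h1 : z i = q ^ 2) (h2 : z (i + 1) = 1) : eval z Q = eval z P := by
  have h := hR z
  rw [h1, h2] at h
  have h3 : q ^ 2 - 1 ≠ 0 := sub_ne_zero.2 (q2_ne_one hq)
  apply mul_left_cancel₀ h3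
  rw [h]
  linear_combination ((-(q ^ 2 - q)) * eval (swapV i z) P) * hq +
    (1 - q) * eval z P * hq

/-- the arc of i+1 and i+2 -/
theorem case_succ (hq : q ^ 2 + q + 1 = 0) (h : DW q (2 * m + 2) P)
    (hQ : DW q (2 * m + 2) Q) {i : ℕ} (hi : i + 1 ≤ 2 * m) (hR : Rel q i P Q) {s : St}
    (hs : IsAnn (2 * m) s) :
    eval (zptS q (insL (i + 1) s)) Q = eval (zptS q (insL i s)) P := by
  obtain ⟨RQ, hRQ, hRQ'⟩ := hQ.restrict hq (i := i + 1) (by omega)
  obtain ⟨RP, hRP, hRP'⟩ := h.restrict hq (i := i) (by omega)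
  have hRR : RQ = RP := by
    apply eq_of_mul_prod (2 * m) i q (q_ne_one hq)
    intro z hz
    apply mul_left_cancel₀ hz
    rw [← mul_assoc, ← mul_assoc, ← hRQ' (z i) z, ← hRP' (z i) z]
    have h1 := hR (insV (i + 1) (q ^ 2 * z i) (z i) z)
    rw [insV_self, insV_of_lt (by omega)] at h1
    have h2 : swapV i (insV (i + 1) (q ^ 2 * z i) (z i) z) = insV i (q ^ 2 * z i) (z i) z := by
      funext k
      rw [swapV_def]
      split_ifs with h3 h4
      · rw [h3, insV_self, insV_self]
      · rw [h4, insV_succ, insV_of_lt (by omega)]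
      · by_cases h5 : k < i
        · rw [insV_of_lt (by omega), insV_of_lt h5]
        · by_cases h6 : k = i + 2
          · subst h6
            rw [insV_succ, insV_of_gt (by omega)]
            simp
          · rw [insV_of_gt (by omega), insV_of_gt (by omega)]
    rw [h2] at h1
    have h4 : z i - q ^ 2 * z i ≠ 0 := by
      have h5 : z i - q ^ 2 * z i = z i * (1 - q ^ 2) := by ring
      rw [h5]
      exact mul_ne_zero hz (sub_ne_zero.2 (Ne.symm (q2_ne_one hq)))
    apply mul_left_cancel₀ h4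
    rw [h1]
    linear_combination ((q - 1) * z i * eval (insV i (q ^ 2 * z i) (z i) z) P) * hq +
      ((q ^ 2 - q) * z i * eval (insV (i + 1) (q ^ 2 * z i) (z i) z) P) * hq
  have e1 := zptS_insL q hs (i := i + 1) (by omega)
  have e2 := zptS_insL q hs (i := i) (by omega)
  have e3 := hRQ' 1 (zptS q s)
  have e4 := hRP' 1 (zptS q s)
  rw [mul_one, ← e1] at e3
  rw [mul_one, ← e2] at e4
  rw [e3, e4, hRR]

/-- the arc of i-1 and i -/
theorem case_pred (hq : q ^ 2 + q + 1 = 0) (h : DW q (2 * m + 2) P)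
    (hQ : DW q (2 * m + 2) Q) {i : ℕ} (hi : i + 1 ≤ 2 * m) (hR : Rel q (i + 1) P Q)
    {s : St} (hs : IsAnn (2 * m) s) :
    eval (zptS q (insL i s)) Q = eval (zptS q (insL (i + 1) s)) P := by
  obtain ⟨RQ, hRQ, hRQ'⟩ := hQ.restrict hq (i := i) (by omega)
  obtain ⟨RP, hRP, hRP'⟩ := h.restrict hq (i := i + 1) (by omega)
  have hc := q_cube hq
  have hRR : RQ = RP := by
    apply eq_of_mul_prod (2 * m) i (q ^ 2) (q2_ne_one hq)
    intro z hz
    have f1 := hRQ' (q * z i) z
    have f2 := hRP' (q * z i) z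
    have f3 : ∀ k, z k - q * (q * z i) = z k - q ^ 2 * z i := fun k => by ring
    have f4 : q ^ 2 * (q * z i) = z i := by linear_combination (z i) * hc
    simp only [f3, f4] at f1 f2
    apply mul_left_cancel₀ (mul_ne_zero (q_ne_zero hq) hz)
    rw [← mul_assoc, ← mul_assoc, ← f1, ← f2]
    have h1 := hR (insV i (z i) (q * z i) z)
    rw [insV_succ, insV_of_gt (by omega)] at h1
    have f5 : i + 1 + 1 - 2 = i := by omega
    rw [f5] at h1
    have h2 : swapV (i + 1) (insV i (z i) (q * z i) z) = insV (i + 1) (z i) (q * z i) z := by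
      funext k
      rw [swapV_def]
      split_ifs with h3 h4
      · rw [h3, insV_of_gt (by omega), f5, insV_self]
      · rw [h4, insV_succ, insV_succ]
      · by_cases h5 : k < i
        · rw [insV_of_lt (by omega), insV_of_lt (by omega)]
        · by_cases h6 : k = i
          · subst h6
            rw [insV_self, insV_of_lt (by omega)]
          · rw [insV_of_gt (by omega), insV_of_gt (by omega)]
    rw [h2] at h1
    have h4 : q * z i - z i ≠ 0 := by
      have h5 : q * z i - z i = z i * (q - 1) := by ring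
      rw [h5]
      exact mul_ne_zero hz (sub_ne_zero.2 (q_ne_one hq))
    apply mul_left_cancel₀ h4
    rw [h1]
    linear_combination ((1 - q) * z i * eval (insV (i + 1) (z i) (q * z i) z) P) * hq
  have e1 := zptS_insL q hs (i := i) (by omega)
  have e2 := zptS_insL q hs (i := i + 1) (by omega)
  have e3 := hRQ' 1 (zptS q s)
  have e4 := hRP' 1 (zptS q s)
  rw [mul_one, ← e1] at e3
  rw [mul_one, ← e2] at e4
  rw [e3, e4, hRR]

/-- the arcs which do not meet `i`, `i + 1` -/
theorem case_far (hq : q ^ 2 + q + 1 = 0) (h : DW q (2 * m + 2) P)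
    (hQ : DW q (2 * m + 2) Q) {i i' k : ℕ} (hk : k ≤ 2 * m) (hi' : i' + 1 < 2 * m)
    (hik : (i + 1 < k ∧ i' = i) ∨ (k + 2 ≤ i ∧ i' = i - 2)) (hR : Rel q i P Q)
    (ih : ∀ P' Q' : MvPolynomial ℕ ℂ, DW q (2 * m) P' → DW q (2 * m) Q' → Rel q i' P' Q' →
      ∀ s, IsAnn (2 * m) s → eval (zptS q s) Q' = eval (zptS q (eL i' s)) P')
    {s : St} (hs : IsAnn (2 * m) s) :
    eval (zptS q (insL k s)) Q = eval (zptS q (insL k (eL i' s))) P := by
  obtain ⟨RQ, hRQ, hRQ'⟩ := hQ.restrict hq (i := k) (by omega)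
  obtain ⟨RP, hRP, hRP'⟩ := h.restrict hq (i := k) (by omega)
  have hrel : Rel q i' RP RQ := by
    intro z
    obtain ⟨v, hv⟩ := exists_prod_ne hq (2 * m) z
    have h1 := hR (insV k (q ^ 2 * v) v z)
    have e1 : insV k (q ^ 2 * v) v z i = z i' := by
      rcases hik with ⟨h2, rfl⟩ | ⟨h2, rfl⟩
      · rw [insV_of_lt (by omega)]
      · rw [insV_of_gt (by omega)]
    have e2 : insV k (q ^ 2 * v) v z (i + 1) = z (i' + 1) := by
      rcases hik with ⟨h2, rfl⟩ | ⟨h2, rfl⟩
      · rw [insV_of_lt (by omega)]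
      · rw [insV_of_gt (by omega)]
        congr 1
        omega
    have e3 : swapV i (insV k (q ^ 2 * v) v z) = insV k (q ^ 2 * v) v (swapV i' z) := by
      funext l
      rw [swapV_def]
      by_cases h3 : l < k
      · rw [insV_of_lt h3 _ _ (swapV i' z), swapV_def, e1, e2]
        rcases hik with ⟨h2, rfl⟩ | ⟨h2, rfl⟩
        · split_ifs <;> first | rfl | (rw [insV_of_lt (by omega)])
        · rw [if_neg (by omega), if_neg (by omega), if_neg (by omega), if_neg (by omega),
            insV_of_lt h3]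
      · by_cases h4 : l = k
        · subst h4
          rw [if_neg (by omega), if_neg (by omega), insV_self, insV_self]
        · by_cases h5 : l = k + 1
          · subst h5
            rw [if_neg (by omega), if_neg (by omega), insV_succ, insV_succ]
          · rw [insV_of_gt (by omega) _ _ (swapV i' z), swapV_def, e1, e2]
            rcases hik with ⟨h2, rfl⟩ | ⟨h2, rfl⟩
            · rw [if_neg (by omega), if_neg (by omega), if_neg (by omega), if_neg (by omega),
                insV_of_gt (by omega)]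
            · by_cases h6 : l = i
              · subst h6
                rw [if_pos rfl, if_pos rfl]
              · by_cases h7 : l = i + 1
                · subst h7
                  rw [if_neg (by omega), if_pos rfl, if_neg (by omega), if_pos (by omega)]
                · rw [if_neg h6, if_neg h7, if_neg (by omega), if_neg (by omega),
                    insV_of_gt (by omega)]
    have e4 : (∏ l ∈ range (2 * m), (swapV i' z l - q * v) ^ 2) =
        ∏ l ∈ range (2 * m), (z l - q * v) ^ 2 := by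
      have h5 : ∏ l ∈ range (2 * m), (z l - q * v) ^ 2 =
          ∏ l ∈ range (2 * m), (z (Equiv.swap i' (i' + 1) l) - q * v) ^ 2 := by
        symm
        refine Finset.prod_bij (fun l _ => Equiv.swap i' (i' + 1) l) ?_ ?_ ?_ ?_
        · intro l hl
          rw [mem_range] at hl ⊢
          rw [Equiv.swap_apply_def]
          split_ifs <;> omega
        · intro a _ b _ hab
          exact (Equiv.swap i' (i' + 1)).injective hab
        · intro b hb
          refine ⟨Equiv.swap i' (i' + 1) b, ?_, Equiv.swap_apply_self _ _ _⟩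
          rw [mem_range] at hb ⊢
          rw [Equiv.swap_apply_def]
          split_ifs <;> omega
        · intro l _
          rfl
      rw [h5]
      rfl
    rw [e1, e2, e3, hRQ', hRP', hRP', e4] at h1
    apply mul_left_cancel₀ hv
    linear_combination h1
  have hE : IsAnn (2 * m) (eL i' s) := hs.eL hi'
  have e1 := zptS_insL q hs (i := k) (by omega)
  have e2 := zptS_insL q hE (i := k) (by omega)
  have e3 := hRQ' 1 (zptS q s)
  have e4 := hRP' 1 (zptS q (eL i' s))
  rw [mul_one, ← e1, mul_one, prod_zptS hq hs] at e3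
  rw [mul_one, ← e2, mul_one, prod_zptS hq hE] at e4
  rw [e3, e4, ih RP RQ hRP hRQ hrel s hs]

/-- a state with a small arc away from the seam -/
theorem step (hq : q ^ 2 + q + 1 = 0)
    (ih : ∀ (i : ℕ) (P' Q' : MvPolynomial ℕ ℂ), i + 1 < 2 * m → DW q (2 * m) P' →
      DW q (2 * m) Q' → Rel q i P' Q' →
      ∀ s, IsAnn (2 * m) s → eval (zptS q s) Q' = eval (zptS q (eL i s)) P')
    {i : ℕ} (hi : i + 1 < 2 * m + 2) (hP : DW q (2 * m + 2) P) (hQ : DW q (2 * m + 2) Q)
    (hR : Rel q i P Q) {k : ℕ} (hk : k ≤ 2 * m) {s : St} (hs : IsAnn (2 * m) s) :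
    eval (zptS q (insL k s)) Q = eval (zptS q (eL i (insL k s))) P := by
  by_cases h1 : k = i
  · subst h1
    rw [eL_insL_self hs hk, zptS_insL q hs hk]
    exact case_eq hq hR (insV_self _ _ _ _) (insV_succ _ _ _ _)
  by_cases h2 : k = i + 1
  · subst h2
    rw [eL_insL_succ hs hk]
    exact case_succ hq hP hQ hk hR hs
  by_cases h3 : k + 1 = i
  · subst h3
    rw [eL_succ_insL hs (by omega)]
    exact case_pred hq hP hQ (by omega) hR hs
  rcases Nat.lt_or_ge (i + 1) k with h4 | h4
  · rw [eL_insL_of_lt hs h4 hk]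
    exact case_far hq hP hQ (i' := i) hk (by omega) (Or.inl ⟨h4, rfl⟩) hR
      (fun P' Q' a b c => ih i P' Q' (by omega) a b c) hs
  · rw [eL_insL_of_le hs (by omega) hi]
    exact case_far hq hP hQ (i' := i - 2) hk (by omega) (Or.inr ⟨by omega, rfl⟩) hR
      (fun P' Q' a b c => ih (i - 2) P' Q' (by omega) a b c) hs

theorem main (hq : q ^ 2 + q + 1 = 0) (m : ℕ) : ∀ (i : ℕ) (P Q : MvPolynomial ℕ ℂ),
    i + 1 < 2 * m → DW q (2 * m) P → DW q (2 * m) Q → Rel q i P Q →
    ∀ s, IsAnn (2 * m) s → eval (zptS q s) Q = eval (zptS q (eL i s)) P := by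
  induction m with
  | zero => intro i P Q hi; omega
  | succ m ih =>
    intro i P Q hi hP hQ hR s hs
    have hs' : IsAnn (2 * m + 2) s := hs
    have hP' : DW q (2 * m + 2) P := hP
    have hQ' : DW q (2 * m + 2) Q := hQ
    have hi' : i + 1 < 2 * m + 2 := hi
    rcases hs'.exists_small with ⟨k, hk, h1, h2⟩ | ⟨h1, h2⟩
    · obtain ⟨s₁, hs₁, rfl⟩ := hs'.exists_del hk h1 h2
      exact step hq ih hi' hP' hQ' hR hk hs₁
    · obtain ⟨s₁, hs₁, rfl⟩ := hs'.exists_delCup h1 h2
      by_cases hm : m = 0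
      · -- two sites
        subst hm
        have hi0 : i = 0 := by omega
        subst hi0
        have hIs : IsAnn 2 (eL 0 (cupL 0 s₁)) := hs'.eL (by omega)
        have e0 : rotL 2 (insL 0 s₁) = cupL 0 s₁ := rotL_insL_zero hs₁
        have hz : zptS q (cupL (2 * 0) s₁) = rotV 2 (insV 0 (q ^ 2) 1 (zptS q s₁)) := by
          rw [← zptS_insL q hs₁ (le_refl 0), ← zptS_rotL q (hs₁.insL (le_refl 0)), e0]
        obtain ⟨s₂, hs₂, he⟩ := hIs.exists_del (N := 0) (i := 0) (le_refl 0)
          (eL_small hs' hi').1 (eL_small hs' hi').2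
        have hz' : zptS q (eL 0 (cupL 0 s₁)) = insV 0 (q ^ 2) 1 (zptS q s₂) := by
          rw [he, zptS_insL q hs₂ (le_refl 0)]
        have hR0 := hR (zptS q (cupL (2 * 0) s₁))
        have hz0 : zptS q (cupL (2 * 0) s₁) 0 = 1 := by
          rw [hz, rotV_of_lt (by omega)]
          exact insV_succ _ _ _ _
        have hz1 : zptS q (cupL (2 * 0) s₁) 1 = q ^ 2 := by
          rw [hz]
          simp [rotV, insV]
        have hz2 : eval (swapV 0 (zptS q (cupL (2 * 0) s₁))) P =
            eval (zptS q (eL 0 (cupL (2 * 0) s₁))) P := by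
          apply hP'.eval_congr
          intro k hk
          have hz3 : zptS q (eL 0 (cupL (2 * 0) s₁)) = insV 0 (q ^ 2) 1 (zptS q s₂) := hz'
          rw [hz3, swapV_def]
          have hk' : k = 0 ∨ k = 1 := by omega
          rcases hk' with rfl | rfl
          · rw [if_pos rfl, insV_self]
            exact hz1
          · rw [if_neg (by omega), if_pos rfl, hz0]
            exact (insV_succ _ _ _ _).symm
        rw [zero_add, hz0, hz1, hz2] at hR0
        have h3 : 1 - q ^ 2 ≠ 0 := sub_ne_zero.2 (Ne.symm (q2_ne_one hq))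
        apply mul_left_cancel₀ h3
        rw [hR0]
        linear_combination ((q - 1) * eval (zptS q (eL 0 (cupL (2 * 0) s₁))) P) * hq +
          ((q ^ 2 - q) * eval (zptS q (cupL (2 * 0) s₁)) P) * hq
      · rcases Nat.lt_or_ge (i + 2) (2 * m + 2) with h3 | h3
        · -- rotate to the left
          obtain ⟨P', hP1, hP2⟩ := hP'.exists_rot hq
          obtain ⟨Q', hQ1, hQ2⟩ := hQ'.exists_rot hq
          have hR' : Rel q (i + 1) P' Q' := by
            intro z
            have h4 := hR (rotV (2 * m + 2) z)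
            rw [rotV_of_lt (by omega), rotV_of_lt (by omega), ← rotV_swapV (by omega)] at h4
            rw [hP2, hP2, hQ2]
            exact h4
          have hins : IsAnn (2 * m + 2) (insL 0 s₁) := hs₁.insL (Nat.zero_le _)
          have h5 := step hq ih (by omega) hP1 hQ1 hR' (Nat.zero_le _) hs₁
          rw [hP2, hQ2, ← zptS_rotL q hins, ← zptS_rotL q (hins.eL (by omega)),
            rotL_eL hins (by omega), rotL_insL_zero hs₁] at h5
          exact h5
        · -- rotate to the right
          obtain ⟨j, rfl⟩ : ∃ j, i = j + 1 := ⟨i - 1, by omega⟩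
          obtain ⟨P', hP1, hP2⟩ := hP'.exists_rot_iterate hq (2 * m + 1)
          obtain ⟨Q', hQ1, hQ2⟩ := hQ'.exists_rot_iterate hq (2 * m + 1)
          have hrr : ∀ z, (rotV (2 * m + 2))^[2 * m + 1] (rotV (2 * m + 2) z) = z := by
            intro z
            exact (Function.iterate_succ_apply (rotV (2 * m + 2)) (2 * m + 1) z).symm.trans
              (rotV_iterate (2 * m + 2) z)
          have hrr' : ∀ z, rotV (2 * m + 2) ((rotV (2 * m + 2))^[2 * m + 1] z) = z := by
            intro z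
            exact (Function.iterate_succ_apply' (rotV (2 * m + 2)) (2 * m + 1) z).symm.trans
              (rotV_iterate (2 * m + 2) z)
          have hP3 : ∀ z, eval (rotV (2 * m + 2) z) P' = eval z P := by
            intro z
            rw [hP2, hrr]
          have hQ3 : ∀ z, eval (rotV (2 * m + 2) z) Q' = eval z Q := by
            intro z
            rw [hQ2, hrr]
          have hR' : Rel q j P' Q' := by
            intro w
            obtain ⟨z, rfl⟩ : ∃ z, w = rotV (2 * m + 2) z := ⟨_, (hrr' w).symm⟩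
            have h4 := hR z
            rw [rotV_of_lt (by omega), rotV_of_lt (by omega), ← rotV_swapV (by omega), hP3, hP3,
              hQ3]
            exact h4
          have h5 := step hq ih (i := j) (by omega) hP1 hQ1 hR' (le_refl (2 * m)) hs₁
          rw [← rotL_cupL hs₁, ← rotL_eL hs' (by omega), zptS_rotL q hs',
            zptS_rotL q (hs'.eL hi'), hP3, hQ3] at h5
          exact h5

end DWV

theorem DW.eval_E (hq : q ^ 2 + q + 1 = 0) (h : DW q (2 * m) P) (h' : DW q (2 * m) Q) {i : ℕ}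
    (hi : i + 1 < 2 * m)
    (hE : ∀ z, (z i - z (i + 1)) * eval z Q =
      (q * z (i + 1) - q ^ 2 * z i) * eval (swapV i z) P -
        (q * z i - q ^ 2 * z (i + 1)) * eval z P)
    {s : St} (hs : IsAnn (2 * m) s) : eval (zptS q s) Q = eval (zptS q (eL i s)) P :=
  DWV.main hq m i P Q hi h h' hE s hs

end Pool.Agent.Perc

end PartperqDWV

section PartperqDWB

/-!
# The double wheel space: uniqueness (task DWB)
-/

set_option autoImplicit false

namespace Pool.Agent.Perc

open Finset MvPolynomial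

variable {q : ℂ} {L m : ℕ} {P : MvPolynomial ℕ ℂ}

namespace DWB

open WheelA WheelC WheelD

/-- A polynomial with too many zeros, counted with multiplicity. -/
theorem eq_zero_of_mult {R ι : Type*} [CommRing R] [IsDomain R] (F : Polynomial R)
    (T : Finset ι) (f : ι → R) (hf : Set.InjOn f T) (m : ι → ℕ)
    (h : F ≠ 0 → ∀ t ∈ T, m t ≤ F.rootMultiplicity (f t)) (hd : F.natDegree < ∑ t ∈ T, m t) :
    F = 0 := by
  classical
  by_contra hF
  have h1 : ∑ t ∈ T, m t ≤ ∑ a ∈ T.image f, F.roots.count a := by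
    rw [Finset.sum_image hf]
    refine Finset.sum_le_sum fun t ht => ?_
    rw [Polynomial.count_roots]
    exact h hF t ht
  have h2 : ∑ a ∈ T.image f, F.roots.count a ≤ Multiset.card F.roots := by
    rw [← Multiset.toFinset_sum_count_eq]
    refine le_trans (b := ∑ a ∈ T.image f ∩ F.roots.toFinset, F.roots.count a) ?_ ?_
    · refine le_of_eq ?_
      symm
      refine Finset.sum_subset Finset.inter_subset_left fun a ha hb => ?_
      rw [Multiset.count_eq_zero]
      intro hc
      exact hb (Finset.mem_inter.2 ⟨ha, Multiset.mem_toFinset.2 hc⟩)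
    · exact Finset.sum_le_sum_of_subset Finset.inter_subset_right
  have h3 := Polynomial.card_roots' F
  omega

/-- The chain rule. -/
theorem chain_rule {B : Type*} [CommRing B] [Algebra ℂ B] (D : B → B)
    (h0 : ∀ a : ℂ, D (algebraMap ℂ B a) = 0) (hadd : ∀ a b, D (a + b) = D a + D b)
    (hmul : ∀ a b, D (a * b) = D a * b + a * D b) (s : ℕ → B) (T : Finset ℕ)
    (hT : ∀ k, k ∉ T → D (s k) = 0) (P : MvPolynomial ℕ ℂ) :
    D (aeval s P) = ∑ k ∈ T, aeval s (pderiv k P) * D (s k) := by
  classical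
  induction P using MvPolynomial.induction_on with
  | C a =>
    rw [aeval_C, h0]
    symm
    refine Finset.sum_eq_zero fun k _ => ?_
    rw [pderiv_C, map_zero, zero_mul]
  | add p r hp hr =>
    rw [map_add, hadd, hp, hr, ← Finset.sum_add_distrib]
    refine Finset.sum_congr rfl fun k _ => ?_
    rw [map_add, map_add, add_mul]
  | mul_X p n hp =>
    rw [map_mul, aeval_X, hmul, hp, Finset.sum_mul]
    have h1 : ∀ k ∈ T, aeval s (pderiv k (p * X n)) * D (s k) =
        aeval s (pderiv k p) * D (s k) * s n +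
          (if k = n then aeval s p * D (s n) else 0) := by
      intro k _
      rw [pderiv_mul, map_add, map_mul, map_mul, aeval_X, pderiv_X]
      by_cases hk : k = n
      · subst hk
        rw [if_pos rfl, Pi.single_eq_same, map_one]
        ring
      · rw [if_neg hk, Pi.single_eq_of_ne (Ne.symm hk), map_zero]
        ring
    rw [Finset.sum_congr rfl h1, Finset.sum_add_distrib]
    congr 1
    rw [Finset.sum_ite_eq']
    split_ifs with hn
    · rfl
    · rw [hT n hn, mul_zero]

theorem chain_poly {A : Type*} [CommRing A] [Algebra ℂ A] (s : ℕ → Polynomial A) (T : Finset ℕ)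
    (hT : ∀ k, k ∉ T → Polynomial.derivative (s k) = 0) (P : MvPolynomial ℕ ℂ) :
    Polynomial.derivative (aeval s P) =
      ∑ k ∈ T, aeval s (pderiv k P) * Polynomial.derivative (s k) := by
  refine chain_rule (fun a => Polynomial.derivative a) ?_ ?_ ?_ s T hT P
  · intro a
    change Polynomial.derivative (algebraMap ℂ (Polynomial A) a) = 0
    rw [Polynomial.algebraMap_apply, Polynomial.derivative_C]
  · intro a b
    exact map_add _ a b
  · intro a b
    exact Polynomial.derivative_mul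

/-! ### Degrees in two variables -/

theorem pair_le (h : DW q L P) {i j : ℕ} (hij : i < j) (hj : j < L) {d : ℕ →₀ ℕ}
    (hd : d ∈ P.support) : d i + d j ≤ 2 * L - 3 := by
  have h1 := h.maj d hd {i, j} (by
    intro k hk
    rw [mem_insert, mem_singleton] at hk
    rw [mem_range]
    omega)
  rw [Finset.sum_pair (by omega), Finset.card_pair (by omega)] at h1
  rw [Finset.sum_range_succ, Finset.sum_range_one] at h1
  omega

theorem pair_ge (h : DW q L P) {i j : ℕ} (hij : i < j) (hj : j < L) {d : ℕ →₀ ℕ}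
    (hd : d ∈ P.support) : 1 ≤ d i + d j := by
  obtain ⟨L, rfl⟩ : ∃ L', L = L' + 2 := ⟨L - 2, by omega⟩
  have hsub : ({i, j} : Finset ℕ) ⊆ range (L + 2) := by
    intro k hk
    rw [mem_insert, mem_singleton] at hk
    rw [mem_range]
    omega
  have h1 := h.maj d hd (range (L + 2) \ {i, j}) Finset.sdiff_subset
  have h2 := h.tot d hd
  rw [← Finset.sum_sdiff hsub, Finset.sum_pair (by omega)] at h2
  rw [Finset.card_sdiff_of_subset hsub, card_range, Finset.card_pair (by omega),
    Nat.add_sub_cancel] at h1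
  have h3 : ∑ j ∈ range (L + 2), j = ∑ j ∈ range (L + 2), (L + 2 - 1 - j) :=
    (Finset.sum_range_reflect (fun j => j) (L + 2)).symm
  rw [h3, Finset.sum_range_succ, Finset.sum_range_succ] at h2
  omega

/-! ### The first step: vanishing at `z_i = q² z_j` -/

/-- The substitution `z_i = q² v`, `z_j = v`. -/
noncomputable def sb (q : ℂ) (i j : ℕ) : ℕ → Polynomial (MvPolynomial ℕ ℂ) := fun k =>
  if k = i then Polynomial.C (C (q ^ 2)) * Polynomial.X
  else if k = j then Polynomial.X else Polynomial.C (X k)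

/-- The point. -/
noncomputable def pt (q : ℂ) (i j : ℕ) (v : ℂ) (z : ℕ → ℂ) : ℕ → ℂ := fun k =>
  if k = i then q ^ 2 * v else if k = j then v else z k

theorem pt_i (i j : ℕ) (v : ℂ) (z : ℕ → ℂ) : pt q i j v z i = q ^ 2 * v := by
  unfold pt
  rw [if_pos rfl]

theorem pt_j {i j : ℕ} (hij : i < j) (v : ℂ) (z : ℕ → ℂ) : pt q i j v z j = v := by
  unfold pt
  rw [if_neg (by omega), if_pos rfl]

theorem pt_k {i j k : ℕ} (hi : k ≠ i) (hj : k ≠ j) (v : ℂ) (z : ℕ → ℂ) :
    pt q i j v z k = z k := by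
  unfold pt
  rw [if_neg hi, if_neg hj]

theorem sb_pt (i j : ℕ) (a : MvPolynomial ℕ ℂ) (z : ℕ → ℂ) :
    (fun k => eval z (Polynomial.eval a (sb q i j k))) = pt q i j (eval z a) z := by
  funext k
  simp only [sb, pt]
  split_ifs <;> simp

theorem isRoot_of (i j : ℕ) (a Q : MvPolynomial ℕ ℂ)
    (h : ∀ z : ℕ → ℂ, eval (pt q i j (eval z a) z) Q = 0) :
    Polynomial.eval a (aeval (sb q i j) Q) = 0 := by
  apply MvPolynomial.funext
  intro z
  rw [eval_eval_aeval, sb_pt, map_zero]
  exact h z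

theorem natDegree_sb_le (h : DW q L P) {i j : ℕ} (hij : i < j) (hj : j < L) :
    (aeval (sb q i j) P).natDegree ≤ 2 * L - 3 := by
  refine natDegree_aeval_le P _ _ fun e he => ?_
  refine le_trans (sum_mul_le_of_two (i := i) (j := j) (by omega) ?_ ?_ ?_) (pair_le h hij hj he)
  · simp only [sb, if_true]
    refine le_trans Polynomial.natDegree_mul_le ?_
    simp
  · simp only [sb]
    rw [if_neg (by omega)]
    simp
  · intro k hk hk'
    simp only [sb]
    rw [if_neg hk, if_neg hk', Polynomial.natDegree_C]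

theorem root_zero (h : DW q L P) {i j : ℕ} (hij : i < j) (hj : j < L) :
    Polynomial.eval 0 (aeval (sb q i j) P) = 0 := by
  apply isRoot_of
  intro z
  rw [map_zero, eval_eq]
  refine Finset.sum_eq_zero fun d hd => ?_
  have h1 := pair_ge h hij hj hd
  have h2 : ∃ k ∈ d.support, pt q i j 0 z k = 0 := by
    by_cases hi : d i = 0
    · refine ⟨j, ?_, ?_⟩
      · rw [Finsupp.mem_support_iff]; omega
      · rw [pt_j hij]
    · refine ⟨i, ?_, ?_⟩
      · rw [Finsupp.mem_support_iff]; omega
      · rw [pt_i, mul_zero]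
  obtain ⟨k, hk, hk'⟩ := h2
  rw [Finset.prod_eq_zero hk, mul_zero]
  rw [hk', zero_pow]
  exact Finsupp.mem_support_iff.1 hk

/-- The double roots. -/
theorem two_le_mult (hq : q ^ 2 + q + 1 = 0) (h : DW q L P) {i j k : ℕ} (hij : i < j) (hj : j < L)
    (hk : k < i ∨ j < k) (hkL : k < L) (hF : aeval (sb q i j) P ≠ 0) :
    2 ≤ (aeval (sb q i j) P).rootMultiplicity (C (q ^ 2) * X k) := by
  have hq3 := q_cube hq
  have key : ∀ (Q : MvPolynomial ℕ ℂ), (∀ (z : ℕ → ℂ) (i j k : ℕ), i < j → j < k →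
      k < L → z i = q ^ 2 * z j → z j = q ^ 2 * z k → eval z Q = 0) →
      Polynomial.eval (C (q ^ 2) * X k) (aeval (sb q i j) Q) = 0 := by
    intro Q hQ
    apply isRoot_of
    intro z
    have hv : eval z (C (q ^ 2) * X k : MvPolynomial ℕ ℂ) = q ^ 2 * z k := by simp
    rw [hv]
    rcases hk with hk | hk
    · refine hQ _ k i j hk hij hj ?_ ?_
      · rw [pt_i, pt_k (by omega) (by omega)]
        linear_combination (-(q ^ 3 + 1) * z k) * hq3
      · rw [pt_i, pt_j hij]
    · refine hQ _ i j k hij hk hkL ?_ ?_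
      · rw [pt_i, pt_j hij]
      · rw [pt_j hij, pt_k (by omega) (by omega)]
  rw [Nat.succ_le_iff, Polynomial.one_lt_rootMultiplicity_iff_isRoot hF]
  constructor
  · exact key P fun z a b c hab hbc hc h1 h2 => (h.wp z a b c hab hbc hc h1 h2).1
  · rw [Polynomial.IsRoot]
    have h1 := chain_poly (sb q i j) {i, j} (by
      intro n hn
      rw [mem_insert, mem_singleton, not_or] at hn
      simp only [sb]
      rw [if_neg hn.1, if_neg hn.2]
      exact Polynomial.derivative_C) P
    rw [h1, Polynomial.eval_finsetSum]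
    refine Finset.sum_eq_zero fun n _ => ?_
    rw [Polynomial.eval_mul, key _ fun z a b c hab hbc hc h1 h2 => (h.wp z a b c hab hbc hc h1 h2).2 n,
      zero_mul]

/-- The roots: `q ^ c * z_k`, and `0` (for `c = 3`). -/
noncomputable def rt (q : ℂ) (t : ℕ × ℕ) : MvPolynomial ℕ ℂ :=
  if t.2 = 3 then 0 else C (q ^ t.2) * X t.1

theorem pow_inj (hq : q ^ 2 + q + 1 = 0) {a b : ℕ} (ha : a < 3) (hb : b < 3)
    (h : q ^ a = q ^ b) : a = b := by
  have hq0 := q_ne_zero hq
  have hq1 := q_ne_one hq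
  have hq3 := q_cube hq
  have h2 : q ^ 2 ≠ 1 := by
    intro h2
    apply hq1
    linear_combination hq3 - q * h2
  have h3 : q ^ 2 ≠ q := by
    intro h3
    apply hq1
    exact mul_left_cancel₀ hq0 (by linear_combination h3)
  have ha' : a = 0 ∨ a = 1 ∨ a = 2 := by omega
  have hb' : b = 0 ∨ b = 1 ∨ b = 2 := by omega
  rcases ha' with rfl | rfl | rfl <;> rcases hb' with rfl | rfl | rfl
  · rfl
  · rw [pow_zero, pow_one] at h
    exact absurd h.symm hq1
  · rw [pow_zero] at h
    exact absurd h.symm h2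
  · rw [pow_zero, pow_one] at h
    exact absurd h hq1
  · rfl
  · rw [pow_one] at h
    exact absurd h.symm h3
  · rw [pow_zero] at h
    exact absurd h h2
  · rw [pow_one] at h
    exact absurd h h3
  · rfl

theorem eval_eq_zero_of_adj (hq : q ^ 2 + q + 1 = 0) (h : DW q L P)
    (h1 : ∀ i, i + 1 < L → ∀ z : ℕ → ℂ, z i = q ^ 2 * z (i + 1) → eval z P = 0) :
    ∀ d i : ℕ, 0 < d → i + d < L → ∀ z : ℕ → ℂ, z i = q ^ 2 * z (i + d) → eval z P = 0 := by
  classical
  have hq3 := q_cube hq
  have hq0 := q_ne_zero hq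
  intro d
  induction d using Nat.strong_induction_on with
  | _ d ih =>
  intro i hd hid z hz
  by_cases hd1 : d = 1
  · subst hd1
    exact h1 i hid z hz
  obtain ⟨j, hj⟩ : ∃ j, j = i + d := ⟨_, rfl⟩
  rw [← hj] at hid hz
  have hij : i < j := by omega
  set F := aeval (sb q i j) P with hF
  -- the inner roots
  have r0 : ∀ l, i < l → l < j → Polynomial.eval (C (q ^ 0) * X l) F = 0 := by
    intro l h1 h2
    apply isRoot_of
    intro z
    have hv : eval z (C (q ^ 0) * X l : MvPolynomial ℕ ℂ) = z l := by simp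
    rw [hv]
    refine ih (l - i) (by omega) i (by omega) (by omega) _ ?_
    have e1 : i + (l - i) = l := by omega
    rw [e1, pt_i, pt_k (by omega) (by omega)]
  have r1 : ∀ l, i < l → l < j → Polynomial.eval (C (q ^ 1) * X l) F = 0 := by
    intro l h1 h2
    apply isRoot_of
    intro z
    have hv : eval z (C (q ^ 1) * X l : MvPolynomial ℕ ℂ) = q * z l := by simp
    rw [hv]
    refine ih (j - l) (by omega) l (by omega) (by omega) _ ?_
    have e1 : l + (j - l) = j := by omega
    rw [e1, pt_j hij, pt_k (by omega) (by omega)]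
    linear_combination (-z l) * hq3
  have r2 : ∀ l, i < l → l < j → Polynomial.eval (C (q ^ 2) * X l) F = 0 := by
    intro l h1 h2
    apply isRoot_of
    intro z
    have hv : eval z (C (q ^ 2) * X l : MvPolynomial ℕ ℂ) = q ^ 2 * z l := by simp
    rw [hv]
    refine h.wm _ i l j h1 h2 hid ?_ ?_
    · rw [pt_j hij, pt_k (by omega) (by omega)]
    · rw [pt_i, pt_k (by omega) (by omega)]
      linear_combination (-(q ^ 3 + 1) * z l) * hq3
  set Rest : Finset ℕ := ((range L).erase i).erase j with hRest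
  have hRm : ∀ k, k ∈ Rest ↔ k ≠ j ∧ k ≠ i ∧ k < L := by
    intro k
    rw [hRest, Finset.mem_erase, Finset.mem_erase, mem_range]
  have hRc : Rest.card = L - 2 := by
    rw [hRest, Finset.card_erase_of_mem, Finset.card_erase_of_mem, card_range]
    · omega
    · rw [mem_range]; omega
    · rw [Finset.mem_erase, mem_range]; omega
  set In : Finset ℕ := Rest.filter (fun k => i < k ∧ k < j) with hIn
  set T : Finset (ℕ × ℕ) := ({(0, 3)} : Finset (ℕ × ℕ)) ∪ (Rest ×ˢ {2} ∪ (In ×ˢ {0} ∪ {(i + 1, 1)}))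
    with hT
  set μ : ℕ × ℕ → ℕ := fun t => if t.2 = 2 ∧ ¬ (i < t.1 ∧ t.1 < j) then 2 else 1 with hμ
  have hTm : ∀ t, t ∈ T ↔ t = (0, 3) ∨ (t.1 ∈ Rest ∧ t.2 = 2) ∨ (t.1 ∈ In ∧ t.2 = 0) ∨
      t = (i + 1, 1) := by
    intro t
    rw [hT, Finset.mem_union, Finset.mem_union, Finset.mem_union, mem_singleton,
      Finset.mem_product, Finset.mem_product, mem_singleton, mem_singleton, mem_singleton]
  have hTi : ∀ t ∈ T, t = (0, 3) ∨ t.2 < 3 := by
    intro t ht
    rw [hTm] at ht
    rcases ht with h | h | h | h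
    · exact Or.inl h
    · right; omega
    · right; omega
    · right; rw [h]; norm_num
  have hinj : Set.InjOn (rt q) T := by
    intro a ha b hb hab
    have ha' := hTi a ha
    have hb' := hTi b hb
    have hne : ∀ t : ℕ × ℕ, t.2 < 3 → rt q t ≠ 0 := by
      intro t ht
      unfold rt
      rw [if_neg (by omega)]
      exact mul_ne_zero (by rw [Ne, C_eq_zero]; exact pow_ne_zero _ hq0) (X_ne_zero _)
    rcases ha' with ha' | ha' <;> rcases hb' with hb' | hb'
    · rw [ha', hb']
    · exfalso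
      apply hne b hb'
      rw [← hab, ha']
      rfl
    · exfalso
      apply hne a ha'
      rw [hab, hb']
      rfl
    · unfold rt at hab
      rw [if_neg (by omega), if_neg (by omega)] at hab
      have := C_mul_X_inj (pow_ne_zero _ hq0) hab
      exact Prod.ext this.1 (pow_inj hq ha' hb' this.2)
  have hF0 : F = 0 := by
    refine eq_zero_of_mult F T (rt q) hinj μ ?_ ?_
    · intro hF1 t ht
      have hone : Polynomial.eval (rt q t) F = 0 → 1 ≤ F.rootMultiplicity (rt q t) := by
        intro h2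
        rw [Nat.succ_le_iff, Polynomial.rootMultiplicity_pos hF1]
        exact h2
      rw [hTm] at ht
      rcases ht with h2 | h2 | h2 | h2
      · have e1 : μ t = 1 := by
          simp only [hμ]
          rw [if_neg (by rw [h2]; norm_num)]
        rw [e1]
        apply hone
        rw [h2]
        exact root_zero h hij hid
      · obtain ⟨h3, h4⟩ := h2
        rw [hRm] at h3
        have e0 : rt q t = C (q ^ 2) * X t.1 := by
          unfold rt
          rw [if_neg (by omega), h4]
        by_cases hin : i < t.1 ∧ t.1 < j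
        · have e1 : μ t = 1 := by
            simp only [hμ]
            rw [if_neg (fun hc => hc.2 hin)]
          rw [e1]
          apply hone
          rw [e0]
          exact r2 _ hin.1 hin.2
        · have e1 : μ t = 2 := by
            simp only [hμ]
            rw [if_pos ⟨h4, hin⟩]
          rw [e1, e0]
          exact two_le_mult hq h hij hid (by omega) h3.2.2 hF1
      · obtain ⟨h3, h4⟩ := h2
        rw [hIn, Finset.mem_filter] at h3
        have e1 : μ t = 1 := by
          simp only [hμ]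
          rw [if_neg (fun hc => by omega)]
        have e0 : rt q t = C (q ^ 0) * X t.1 := by
          unfold rt
          rw [if_neg (by omega), h4]
        rw [e1]
        apply hone
        rw [e0]
        exact r0 _ h3.2.1 h3.2.2
      · have e1 : μ t = 1 := by
          simp only [hμ]
          rw [if_neg (by rw [h2]; norm_num)]
        have e0 : rt q t = C (q ^ 1) * X (i + 1) := by
          unfold rt
          rw [h2, if_neg (by norm_num)]
        rw [e1]
        apply hone
        rw [e0]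
        exact r1 _ (by omega) (by omega)
    · refine lt_of_le_of_lt (natDegree_sb_le h hij hid) ?_
      have d1 : Disjoint (In ×ˢ ({0} : Finset ℕ)) {(i + 1, 1)} := by
        rw [Finset.disjoint_left]
        intro t h1 h2
        rw [Finset.mem_product, mem_singleton] at h1
        rw [mem_singleton] at h2
        rw [h2] at h1
        exact absurd h1.2 (by norm_num)
      have d2 : Disjoint (Rest ×ˢ ({2} : Finset ℕ)) (In ×ˢ ({0} : Finset ℕ) ∪ {(i + 1, 1)}) := by
        rw [Finset.disjoint_left]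
        intro t h1 h2
        rw [Finset.mem_product, mem_singleton] at h1
        rw [Finset.mem_union, Finset.mem_product, mem_singleton, mem_singleton] at h2
        rcases h2 with h2 | h2
        · omega
        · rw [h2] at h1
          exact absurd h1.2 (by norm_num)
      have d3 : Disjoint ({(0, 3)} : Finset (ℕ × ℕ))
          (Rest ×ˢ ({2} : Finset ℕ) ∪ (In ×ˢ ({0} : Finset ℕ) ∪ {(i + 1, 1)})) := by
        rw [Finset.disjoint_left]
        intro t h1 h2
        rw [mem_singleton] at h1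
        rw [Finset.mem_union, Finset.mem_union, Finset.mem_product, Finset.mem_product,
          mem_singleton, mem_singleton, mem_singleton] at h2
        rw [h1] at h2
        rcases h2 with h2 | h2 | h2
        · exact absurd h2.2 (by norm_num)
        · exact absurd h2.2 (by norm_num)
        · have := congrArg Prod.snd h2
          exact absurd this (by norm_num)
      rw [hT, Finset.sum_union d3, Finset.sum_union d2, Finset.sum_union d1, Finset.sum_singleton,
        Finset.sum_singleton, Finset.sum_product, Finset.sum_product]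
      simp only [Finset.sum_singleton]
      have s1 : μ (0, 3) = 1 := by
        simp only [hμ]
        rw [if_neg (by norm_num)]
      have s2 : μ (i + 1, 1) = 1 := by
        simp only [hμ]
        rw [if_neg (by norm_num)]
      have s3 : ∑ x ∈ Rest, μ (x, 2) + ∑ x ∈ In, μ (x, 0) = 2 * (L - 2) := by
        rw [hIn, Finset.sum_filter, ← Finset.sum_add_distrib, ← hRc]
        rw [Finset.sum_congr rfl (g := fun _ => 2)]
        · rw [Finset.sum_const, smul_eq_mul, mul_comm]
        · intro k _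
          simp only [hμ]
          by_cases hin : i < k ∧ k < j
          · rw [if_neg (fun hc => hc.2 hin), if_pos hin, if_neg (by norm_num)]
          · rw [if_pos ⟨trivial, hin⟩, if_neg hin, add_zero]
      rw [s1, s2]
      omega
  have h2 := eval_eval_aeval P (sb q i j) (C (z j)) z
  rw [sb_pt, ← hF, hF0, Polynomial.eval_zero, map_zero, eval_C] at h2
  have h3 : pt q i j (z j) z = z := by
    funext k
    simp only [pt]
    split_ifs with c1 c2
    · rw [c1, hz]
    · rw [c2]
    · rfl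
  rw [h3] at h2
  exact h2.symm

/-! ### Divisibility -/

theorem prod_dvd_of_prime {ι R : Type*} [CommRing R] [IsDomain R] (T : Finset ι) (f : ι → R)
    (hp : ∀ t ∈ T, Prime (f t)) (hn : ∀ s ∈ T, ∀ t ∈ T, s ≠ t → ¬ f s ∣ f t) (P : R)
    (hd : ∀ t ∈ T, f t ∣ P) : ∏ t ∈ T, f t ∣ P := by
  classical
  induction T using Finset.induction_on with
  | empty => simp
  | insert a S ha ih =>
    obtain ⟨Q, hQ⟩ := ih (fun t ht => hp t (Finset.mem_insert_of_mem ht))
      (fun s hs t ht => hn s (Finset.mem_insert_of_mem hs) t (Finset.mem_insert_of_mem ht))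
      (fun t ht => hd t (Finset.mem_insert_of_mem ht))
    have h1 := hd a (Finset.mem_insert_self _ _)
    rw [hQ] at h1
    rcases (hp a (Finset.mem_insert_self _ _)).dvd_or_dvd h1 with h2 | h2
    · exfalso
      obtain ⟨t, ht, h3⟩ := (hp a (Finset.mem_insert_self _ _)).exists_mem_finset_dvd h2
      exact hn a (Finset.mem_insert_self _ _) t (Finset.mem_insert_of_mem ht)
        (by rintro rfl; exact ha ht) h3
    · obtain ⟨Q', hQ'⟩ := h2
      rw [Finset.prod_insert ha]
      exact ⟨Q', by rw [hQ, hQ']; ring⟩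

/-- The substitution `X_i ↦ a X_j`. -/
noncomputable def sub1 (a : ℂ) (i j : ℕ) : ℕ → MvPolynomial ℕ ℂ := fun k =>
  if k = i then C a * X j else X k

theorem dvd_iff (a : ℂ) {i j : ℕ} (hij : i ≠ j) (P : MvPolynomial ℕ ℂ) :
    (X i - C a * X j : MvPolynomial ℕ ℂ) ∣ P ↔ aeval (sub1 a i j) P = 0 := by
  constructor
  · rintro ⟨Q, rfl⟩
    rw [map_mul, map_sub, map_mul, aeval_X, aeval_X, aeval_C]
    have : (sub1 a i j i) - algebraMap ℂ (MvPolynomial ℕ ℂ) a * sub1 a i j j = 0 := by
      unfold sub1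
      rw [if_pos rfl, if_neg (Ne.symm hij), MvPolynomial.algebraMap_eq, sub_self]
    rw [this, zero_mul]
  · intro h
    rw [← Ideal.mem_span_singleton, ← Ideal.Quotient.eq_zero_iff_mem]
    set I := Ideal.span {(X i - C a * X j : MvPolynomial ℕ ℂ)} with hI
    have h1 : ((Ideal.Quotient.mkₐ ℂ I).comp (aeval (sub1 a i j))) = Ideal.Quotient.mkₐ ℂ I := by
      apply MvPolynomial.algHom_ext
      intro k
      rw [AlgHom.comp_apply, aeval_X]
      simp only [sub1]
      split_ifs with hk
      · rw [hk]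
        symm
        show Ideal.Quotient.mk I _ = Ideal.Quotient.mk I _
        rw [Ideal.Quotient.eq]
        exact Ideal.mem_span_singleton_self _
      · rfl
    have h2 : Ideal.Quotient.mk I P = Ideal.Quotient.mk I (aeval (sub1 a i j) P) :=
      (congrArg (fun f : MvPolynomial ℕ ℂ →ₐ[ℂ] _ => f P) h1).symm
    rw [h2, h, map_zero]

theorem prime_lin (a : ℂ) {i j : ℕ} (hij : i ≠ j) : Prime (X i - C a * X j : MvPolynomial ℕ ℂ) := by
  refine ⟨?_, ?_, ?_⟩
  · intro h
    have h1 := congrArg (eval (fun n => if n = i then (1 : ℂ) else 0)) h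
    simp [Ne.symm hij] at h1
  · intro h
    have h1 : (X i - C a * X j : MvPolynomial ℕ ℂ) ∣ 1 := isUnit_iff_dvd_one.1 h
    rw [dvd_iff a hij, map_one] at h1
    exact one_ne_zero h1
  · intro A B h
    rw [dvd_iff a hij, map_mul] at h
    rw [dvd_iff a hij, dvd_iff a hij]
    exact mul_eq_zero.1 h

theorem not_dvd_lin {a : ℂ} (ha : a ≠ 0) {i j k l : ℕ} (hij : i < j) (hkl : k < l)
    (hne : (j, i) ≠ (l, k)) :
    ¬ (X i - C a * X j : MvPolynomial ℕ ℂ) ∣ (X k - C a * X l : MvPolynomial ℕ ℂ) := by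
  rw [dvd_iff a (by omega), map_sub, map_mul, aeval_X, aeval_X, aeval_C,
    MvPolynomial.algebraMap_eq, sub_eq_zero]
  intro h
  simp only [sub1] at h
  split_ifs at h with h1 h2 h3
  · omega
  · have := (C_mul_X_inj ha h).1
    apply hne
    rw [h1, this]
  · rw [← one_mul (X k), ← C_1, ← mul_assoc, ← C_mul] at h
    have := (C_mul_X_inj one_ne_zero h).1
    omega
  · rw [← one_mul (X k), ← C_1] at h
    have := (C_mul_X_inj one_ne_zero h).1
    omega

theorem eval_sub1 (a : ℂ) (i j : ℕ) (P : MvPolynomial ℕ ℂ) (z : ℕ → ℂ) :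
    eval z (aeval (sub1 a i j) P) = eval (fun k => if k = i then a * z j else z k) P := by
  rw [eval_aeval]
  have h1 : (fun k => eval z (sub1 a i j k)) = fun k => if k = i then a * z j else z k := by
    funext k
    simp only [sub1]
    split_ifs <;> simp
  rw [h1]

theorem dvd_of_eval (a : ℂ) {i j : ℕ} (hij : i ≠ j)
    (h : ∀ z : ℕ → ℂ, z i = a * z j → eval z P = 0) :
    (X i - C a * X j : MvPolynomial ℕ ℂ) ∣ P := by
  rw [dvd_iff a hij]
  apply MvPolynomial.funext
  intro z
  rw [map_zero, eval_sub1]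
  apply h
  rw [if_pos rfl, if_neg (Ne.symm hij)]

theorem isHomogeneous_minPoly (q : ℂ) (L : ℕ) :
    (minPoly q L).IsHomogeneous (∑ j ∈ range L, j) := by
  unfold minPoly
  refine IsHomogeneous.prod _ _ _ fun j _ => ?_
  have h1 := IsHomogeneous.prod (range j) (fun i => (X i - C (q ^ 2) * X j : MvPolynomial ℕ ℂ))
    (fun _ => 1) (fun i _ => (isHomogeneous_X _ _).sub (isHomogeneous_C_mul_X _ _))
  rw [Finset.sum_const, card_range, smul_eq_mul, mul_one] at h1
  exact h1

theorem minPoly_ne_zero (q : ℂ) (L : ℕ) : minPoly q L ≠ 0 := by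
  unfold minPoly
  rw [Finset.prod_ne_zero_iff]
  intro j _
  rw [Finset.prod_ne_zero_iff]
  intro i hi
  rw [mem_range] at hi
  exact (prime_lin _ (by omega)).ne_zero

theorem degree_eq (h : DW q L P) {d : ℕ →₀ ℕ} (hd : d ∈ P.support) :
    d.sum (fun _ e => e) = ∑ j ∈ range L, j := by
  rw [← h.tot d hd, Finsupp.sum]
  refine Finset.sum_subset ?_ ?_
  · intro k hk
    rw [mem_range]
    by_contra hc
    have h1 := le_degreeOf hd k
    rw [h.out k (by omega)] at h1
    rw [Finsupp.mem_support_iff] at hk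
    omega
  · intro k _ hk
    exact Finsupp.notMem_support_iff.1 hk

theorem totalDegree_le (h : DW q L P) : P.totalDegree ≤ ∑ j ∈ range L, j := by
  unfold totalDegree
  refine Finset.sup_le fun d hd => ?_
  rw [degree_eq h hd]

end DWB

open WheelA WheelC WheelD DWB

/-- A polynomial of the space which vanishes at `z_i = q² z_{i+1}` for all `i` is a multiple of
the product. -/
theorem DW.eq_minPoly (hq : q ^ 2 + q + 1 = 0) (h : DW q L P)
    (h0 : ∀ i, i + 1 < L → ∀ z : ℕ → ℂ, z i = q ^ 2 * z (i + 1) → eval z P = 0) :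
    ∃ c, P = C c * minPoly q L := by
  classical
  have hq0 := q_ne_zero hq
  have h1 := eval_eq_zero_of_adj hq h h0
  have h2 : minPoly q L ∣ P := by
    unfold minPoly
    rw [Finset.prod_sigma']
    refine prod_dvd_of_prime _ (fun t : (Σ _ : ℕ, ℕ) => (X t.2 - C (q ^ 2) * X t.1 : MvPolynomial ℕ ℂ))
      ?_ ?_ _ ?_
    · intro t ht
      rw [Finset.mem_sigma, mem_range, mem_range] at ht
      exact prime_lin _ (by omega)
    · intro s hs t ht hst
      rw [Finset.mem_sigma, mem_range, mem_range] at hs ht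
      refine not_dvd_lin (pow_ne_zero _ hq0) hs.2 ht.2 ?_
      intro hc
      apply hst
      obtain ⟨s1, s2⟩ := s
      obtain ⟨t1, t2⟩ := t
      simp only [Prod.mk.injEq] at hc
      obtain ⟨rfl, rfl⟩ := hc
      rfl
    · intro t ht
      rw [Finset.mem_sigma, mem_range, mem_range] at ht
      refine dvd_of_eval _ (by omega) fun z hz => ?_
      refine h1 (t.1 - t.2) t.2 (by omega) (by omega) z ?_
      have e1 : t.2 + (t.1 - t.2) = t.1 := by omega
      rw [e1]
      exact hz
  obtain ⟨Q, hQ⟩ := h2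
  by_cases hQ0 : Q = 0
  · exact ⟨0, by rw [hQ, hQ0]; simp⟩
  have h3 := totalDegree_mul_of_isDomain (minPoly_ne_zero q L) hQ0
  rw [← hQ, (isHomogeneous_minPoly q L).totalDegree (minPoly_ne_zero q L)] at h3
  have h4 := totalDegree_le h
  have h5 : Q.totalDegree = 0 := by omega
  rw [totalDegree_eq_zero_iff_eq_C] at h5
  refine ⟨coeff 0 Q, ?_⟩
  rw [← h5, mul_comm]
  exact hQ

/-- A polynomial of the space is determined by its values at the states. -/
theorem DW.eq_zero (hq : q ^ 2 + q + 1 = 0) (h : DW q (2 * m) P)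
    (h0 : ∀ s, IsAnn (2 * m) s → eval (zptS q s) P = 0) : P = 0 := by
  classical
  have hq0 := q_ne_zero hq
  have hq1 := q_ne_one hq
  have hq3 := q_cube hq
  induction m generalizing P with
  | zero =>
    obtain ⟨c, hc⟩ := h.eq_minPoly hq (fun i hi => absurd hi (by omega))
    have h1 := h0 _ (isAnn_nestS 0)
    rw [hc] at h1
    simp only [minPoly, mul_zero, Finset.range_zero, Finset.prod_empty, mul_one, eval_C] at h1
    rw [hc, h1]
    simp
  | succ m ih =>
    have hN : 2 * (m + 1) = 2 * m + 2 := by ring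
    rw [hN] at h h0
    have hres : ∀ (P : MvPolynomial ℕ ℂ), DW q (2 * m + 2) P → ∀ i ≤ 2 * m,
        (∀ s, IsAnn (2 * m) s → eval (zptS q (insL i s)) P = 0) →
        ∀ z : ℕ → ℂ, z i = q ^ 2 * z (i + 1) → eval z P = 0 := by
      intro P hP i hi h1 z hz
      obtain ⟨R, hR, hPR⟩ := hP.restrict hq hi
      have hR0 : R = 0 := by
        apply ih hR
        intro s hs
        have h2 := hPR 1 (zptS q s)
        simp only [mul_one, one_mul] at h2
        rw [← zptS_insL q hs hi, h1 s hs, prod_zptS hq hs] at h2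
        rcases mul_eq_zero.1 h2.symm with h3 | h3
        · exfalso
          exact pow_ne_zero _ (mul_ne_zero (by norm_num) hq0) h3
        · exact h3
      have h2 := hPR (z (i + 1)) (fun k => z (sh i k))
      rw [← eq_insV hz, hR0, map_zero, mul_zero] at h2
      exact h2
    obtain ⟨c, hc⟩ := h.eq_minPoly hq (fun i hi => hres P h i (by omega)
      (fun s hs => h0 _ (hs.insL (by omega))))
    obtain ⟨Q, hQ, hPQ⟩ := h.exists_rot hq
    have h1 := hres Q hQ 0 (by omega) (fun s hs => by
      rw [hPQ, ← zptS_rotL q (hs.insL (by omega))]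
      exact h0 _ (hs.insL (by omega)).rotL)
    -- the value at the seam
    have h2 := h1 (fun k => if k = 0 then q ^ 2 else 1) (by simp)
    rw [hPQ, hc, map_mul, eval_C] at h2
    rcases mul_eq_zero.1 h2 with h3 | h3
    · rw [hc, h3]
      simp
    · exfalso
      revert h3
      unfold minPoly
      rw [map_prod, imp_false, ← ne_eq, Finset.prod_ne_zero_iff]
      intro j hj
      rw [map_prod, Finset.prod_ne_zero_iff]
      intro i hi
      rw [mem_range] at hi hj
      rw [map_sub, map_mul, eval_X, eval_X, eval_C]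
      have h4 : rotV (2 * m + 2) (fun k => if k = 0 then q ^ 2 else 1) i = 1 := by
        unfold rotV
        rw [if_pos (by omega)]
        exact if_neg (by omega)
      rw [h4]
      by_cases hj2 : j + 1 = 2 * m + 2
      · have h5 : rotV (2 * m + 2) (fun k => if k = 0 then q ^ 2 else 1) j = q ^ 2 := by
          unfold rotV
          rw [if_neg (by omega), if_pos hj2]
          exact if_pos rfl
        rw [h5]
        intro h6
        apply hq1
        linear_combination (-1) * h6 - q * hq3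
      · have h5 : rotV (2 * m + 2) (fun k => if k = 0 then q ^ 2 else 1) j = 1 := by
          unfold rotV
          rw [if_pos (by omega)]
          exact if_neg (by omega)
        rw [h5]
        intro h6
        apply hq1
        linear_combination hq3 + q * h6

end Pool.Agent.Perc

end PartperqDWB

section PartperqDWG

/-!
# The double wheel space: the dual basis (task DWG)
-/

set_option autoImplicit false

namespace Pool.Agent.Perc

open Finset MvPolynomial

namespace DWG

variable {q : ℂ} {L m : ℕ} {P Q : MvPolynomial ℕ ℂ}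

lemma dw_zero : DW q L (0 : MvPolynomial ℕ ℂ) := by
  refine ⟨fun k _ => by simp, fun d hd => by simp at hd, fun d hd => by simp at hd,
    fun z i j k _ _ _ _ _ => ⟨by simp, fun l => by simp⟩, fun z i j k _ _ _ _ _ => by simp⟩

lemma dw_add (hP : DW q L P) (hQ : DW q L Q) : DW q L (P + Q) := by
  classical
  refine ⟨fun k hk => ?_, fun d hd A hA => ?_, fun d hd => ?_, fun z i j k h1 h2 h3 h4 h5 => ?_,
    fun z i j k h1 h2 h3 h4 h5 => ?_⟩
  · have h1 := degreeOf_add_le k P Q
    rw [hP.out k hk, hQ.out k hk] at h1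
    simpa using h1
  · rcases Finset.mem_union.1 (support_add hd) with h | h
    · exact hP.maj d h A hA
    · exact hQ.maj d h A hA
  · rcases Finset.mem_union.1 (support_add hd) with h | h
    · exact hP.tot d h
    · exact hQ.tot d h
  · obtain ⟨a1, a2⟩ := hP.wp z i j k h1 h2 h3 h4 h5
    obtain ⟨b1, b2⟩ := hQ.wp z i j k h1 h2 h3 h4 h5
    refine ⟨by rw [map_add, a1, b1, add_zero], fun l => ?_⟩
    rw [map_add, map_add, a2, b2, add_zero]
  · rw [map_add, hP.wm z i j k h1 h2 h3 h4 h5, hQ.wm z i j k h1 h2 h3 h4 h5, add_zero]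

lemma dw_smul (c : ℂ) (hP : DW q L P) : DW q L (C c * P) := by
  have hsup : ∀ d ∈ (C c * P).support, d ∈ P.support := by
    intro d hd
    rw [mem_support_iff, coeff_C_mul] at hd
    rw [mem_support_iff]
    exact right_ne_zero_of_mul hd
  refine ⟨fun k hk => ?_, fun d hd A hA => hP.maj d (hsup d hd) A hA,
    fun d hd => hP.tot d (hsup d hd), fun z i j k h1 h2 h3 h4 h5 => ?_,
    fun z i j k h1 h2 h3 h4 h5 => ?_⟩
  · have h1 := degreeOf_C_mul_le P k c
    rw [hP.out k hk] at h1
    simpa using h1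
  · obtain ⟨a1, a2⟩ := hP.wp z i j k h1 h2 h3 h4 h5
    refine ⟨by rw [map_mul, a1, mul_zero], fun l => ?_⟩
    rw [pderiv_C_mul, map_mul, a2, mul_zero]
  · rw [map_mul, hP.wm z i j k h1 h2 h3 h4 h5, mul_zero]

/-- the function `f` of the state is given by the evaluations of a polynomial of the space -/
def Rep (q : ℂ) (m : ℕ) (f : St → ℂ) : Prop :=
  ∃ P, DW q (2 * m) P ∧ ∀ s, IsAnn (2 * m) s → eval (zptS q s) P = f s

lemma Rep.zero : Rep q m (fun _ => 0) := ⟨0, dw_zero, fun s _ => by simp⟩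

lemma Rep.add {f g : St → ℂ} (hf : Rep q m f) (hg : Rep q m g) :
    Rep q m (fun s => f s + g s) := by
  obtain ⟨P, hP, hPf⟩ := hf
  obtain ⟨Q, hQ, hQg⟩ := hg
  exact ⟨P + Q, dw_add hP hQ, fun s hs => by rw [map_add, hPf s hs, hQg s hs]⟩

lemma Rep.smul {f : St → ℂ} (c : ℂ) (hf : Rep q m f) : Rep q m (fun s => c * f s) := by
  obtain ⟨P, hP, hPf⟩ := hf
  exact ⟨C c * P, dw_smul c hP, fun s hs => by rw [map_mul, hPf s hs, eval_C]⟩

lemma Rep.sum {ι : Type*} (S : Finset ι) {f : ι → St → ℂ} (hf : ∀ x ∈ S, Rep q m (f x)) :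
    Rep q m (fun s => ∑ x ∈ S, f x s) := by
  classical
  induction S using Finset.induction_on with
  | empty => simpa using Rep.zero
  | insert a S ha ih =>
    have h1 := (hf a (mem_insert_self a S)).add (ih fun x hx => hf x (mem_insert_of_mem hx))
    simpa only [sum_insert ha] using h1

lemma Rep.congr {f g : St → ℂ} (hf : Rep q m f) (hfg : ∀ s, IsAnn (2 * m) s → f s = g s) :
    Rep q m g := by
  obtain ⟨P, hP, hPf⟩ := hf
  exact ⟨P, hP, fun s hs => by rw [hPf s hs, hfg s hs]⟩

lemma Rep.comp_eL (hq : q ^ 2 + q + 1 = 0) {f : St → ℂ} (hf : Rep q m f) {i : ℕ}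
    (hi : i + 1 < 2 * m) : Rep q m (fun s => f (eL i s)) := by
  obtain ⟨P, hP, hPf⟩ := hf
  obtain ⟨Q, hQ, hE⟩ := hP.exists_E hq hi
  exact ⟨Q, hQ, fun s hs => by rw [DW.eval_E hq hP hQ hi hE hs, hPf _ (hs.eL hi)]⟩

lemma Rep.comp_rotL (hq : q ^ 2 + q + 1 = 0) {f : St → ℂ} (hf : Rep q m f) :
    Rep q m (fun s => f (rotL (2 * m) s)) := by
  obtain ⟨P, hP, hPf⟩ := hf
  obtain ⟨Q, hQ, hQe⟩ := hP.exists_rot hq
  refine ⟨Q, hQ, fun s hs => ?_⟩
  rw [hQe, ← zptS_rotL q hs, hPf _ hs.rotL]

lemma isAnn_iterate {N : ℕ} {s : St} (hs : IsAnn N s) (k : ℕ) : IsAnn N ((rotL N)^[k] s) := by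
  induction k with
  | zero => exact hs
  | succ k ih =>
    rw [Function.iterate_succ_apply']
    exact ih.rotL

lemma Rep.comp_iterate (hq : q ^ 2 + q + 1 = 0) {f : St → ℂ} (hf : Rep q m f) (k : ℕ) :
    Rep q m (fun s => f ((rotL (2 * m))^[k] s)) := by
  induction k with
  | zero => exact hf
  | succ k ih =>
    have := ih.comp_rotL hq
    simpa only [Function.iterate_succ_apply] using this

lemma iterate_mul {N : ℕ} {s : St} (hs : IsAnn N s) (k : ℕ) : (rotL N)^[N * k] s = s := by
  induction k with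
  | zero => rfl
  | succ k ih =>
    rw [Nat.mul_succ, Function.iterate_add_apply, rotL_iterate hs, ih]

lemma iterate_inj {N : ℕ} (k : ℕ) : ∀ {s s' : St}, IsAnn N s → IsAnn N s' →
    (rotL N)^[k] s = (rotL N)^[k] s' → s = s' := by
  induction k with
  | zero => exact fun _ _ h => h
  | succ k ih =>
    intro s s' hs hs' h
    rw [Function.iterate_succ_apply', Function.iterate_succ_apply'] at h
    exact ih hs hs' (rotL_inj (isAnn_iterate hs k) (isAnn_iterate hs' k) h)

/-- rotations can be inverted by rotations -/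
lemma exists_inv {s₀ : St} (h₀ : IsAnn (2 * m) s₀) (k : ℕ) : ∃ j, ∀ s, IsAnn (2 * m) s →
    (s = (rotL (2 * m))^[k] s₀ ↔ (rotL (2 * m))^[j] s = s₀) := by
  rcases Nat.eq_zero_or_pos m with hm | hm
  · subst hm
    refine ⟨0, fun s hs => ?_⟩
    have e1 : s = nestS 0 := isAnn_zero hs
    have e2 : s₀ = nestS 0 := isAnn_zero h₀
    have e3 : (rotL (2 * 0))^[k] s₀ = nestS 0 := isAnn_zero (isAnn_iterate h₀ k)
    rw [e3, e2, e1]
    exact ⟨fun _ => rfl, fun _ => rfl⟩
  · refine ⟨k * (2 * m - 1), fun s hs => ?_⟩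
    have e : k * (2 * m - 1) + k = 2 * m * k := by
      obtain ⟨M, hM⟩ : ∃ M, 2 * m = M + 1 := ⟨2 * m - 1, by omega⟩
      rw [hM, Nat.add_sub_cancel]
      ring
    constructor
    · intro h
      rw [h, ← Function.iterate_add_apply, e, iterate_mul h₀]
    · intro h
      refine iterate_inj (k * (2 * m - 1)) hs (isAnn_iterate h₀ k) ?_
      rw [h, ← Function.iterate_add_apply, e, iterate_mul h₀]

open Classical in
lemma rep_rot (hq : q ^ 2 + q + 1 = 0) {s₀ : St} (h₀ : IsAnn (2 * m) s₀)
    (h : Rep q m (fun s => if s = s₀ then 1 else 0)) (k : ℕ) :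
    Rep q m (fun s => if s = (rotL (2 * m))^[k] s₀ then 1 else 0) := by
  obtain ⟨j, hj⟩ := exists_inv h₀ k
  refine (h.comp_iterate hq j).congr fun s hs => ?_
  by_cases hs' : s = (rotL (2 * m))^[k] s₀
  · rw [if_pos hs', if_pos ((hj s hs).1 hs')]
  · rw [if_neg hs', if_neg (fun h => hs' ((hj s hs).2 h))]

open Classical in
lemma rep_nest (hq : q ^ 2 + q + 1 = 0) :
    Rep q m (fun s => if s = nestS m then 1 else 0) := by
  have hq0 : q ≠ 0 := by
    rintro rfl
    norm_num at hq
  have hq1 : (1 : ℂ) - q ≠ 0 := by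
    intro h
    have : q = 1 := by linear_combination -h
    rw [this] at hq
    norm_num at hq
  have hc : (-3 * q) ^ (m * (m - 1) / 2) * (1 - q) ^ (m ^ 2) ≠ 0 :=
    mul_ne_zero (pow_ne_zero _ (mul_ne_zero (by norm_num) hq0)) (pow_ne_zero _ hq1)
  have h1 : Rep q m (fun s => eval (zptS q s) (minPoly q (2 * m))) :=
    ⟨minPoly q (2 * m), dw_minPoly hq _, fun s _ => rfl⟩
  refine (h1.smul ((-3 * q) ^ (m * (m - 1) / 2) * (1 - q) ^ (m ^ 2))⁻¹).congr fun s hs => ?_
  by_cases hss : s = nestS m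
  · rw [if_pos hss, hss, eval_minPoly_nestS hq, inv_mul_cancel₀ hc]
  · rw [if_neg hss, eval_minPoly_of_ne hq hs hss, mul_zero]

open Classical in
lemma rep_delta (hq : q ^ 2 + q + 1 = 0) : ∀ (n : ℕ) {s : St}, IsAnn (2 * m) s →
    2 * m * (2 * m) - totS (2 * m) s = n → Rep q m (fun s' => if s' = s then 1 else 0) := by
  intro n
  induction n using Nat.strong_induction_on with
  | _ n ih =>
  intro s hs hn
  rcases nested_or_valley hs with ⟨k, rfl⟩ | ⟨k, π, hπ, rfl, i, hi, h1, h2, h3⟩
  · exact rep_rot hq (isAnn_nestS m) (rep_nest hq) k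
  · refine rep_rot hq hπ ?_ k
    have htot : ∀ k, totS (2 * m) ((rotL (2 * m))^[k] π) = totS (2 * m) π := by
      intro k
      induction k with
      | zero => rfl
      | succ k ih =>
        rw [Function.iterate_succ_apply', totS_rotL (isAnn_iterate hπ k), ih]
    rw [htot k] at hn
    -- states of larger total length
    have hIH : ∀ s', IsAnn (2 * m) s' → totS (2 * m) π < totS (2 * m) s' →
        Rep q m (fun s'' => if s'' = s' then 1 else 0) := by
      intro s' hs' hlt
      have := totS_le (2 * m) hs'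
      exact ih _ (by omega) hs' rfl
    have hne : eL i π ≠ π := by
      intro h
      have := (eL_small hπ hi).1
      rw [h] at this
      exact h3 this
    have hf := (hIH (eL i π) (hπ.eL hi) (totS_lt hπ hi h1 h2 h3 (hπ.eL hi)
      (eL_idem hπ hi) hne)).comp_eL hq hi
    set S : Finset St := (finite_ann (2 * m)).toFinset.filter
      (fun s' => s' ≠ π ∧ eL i s' = eL i π) with hS
    have hrest : ∀ s' ∈ S, Rep q m (fun s'' => if s'' = s' then 1 else 0) := by
      intro s' hs'
      rw [hS, mem_filter, Set.Finite.mem_toFinset] at hs'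
      obtain ⟨hnc, hne', he⟩ := hs'
      exact hIH s' hnc (totS_lt hπ hi h1 h2 h3 hnc he hne')
    refine (hf.add ((Rep.sum S hrest).smul (-1))).congr fun s' hs' => ?_
    by_cases hpp : s' = π
    · subst hpp
      have h0 : ∑ x ∈ S, (if s' = x then (1 : ℂ) else 0) = 0 := by
        refine sum_eq_zero fun x hx => ?_
        rw [hS, mem_filter] at hx
        rw [if_neg (fun e => hx.2.1 e.symm)]
      simp [h0]
    · by_cases he : eL i s' = eL i π
      · have hmem : s' ∈ S := by
          rw [hS, mem_filter, Set.Finite.mem_toFinset]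
          exact ⟨hs', hpp, he⟩
        have h0 : ∑ x ∈ S, (if s' = x then (1 : ℂ) else 0) = 1 := by
          rw [sum_ite_eq, if_pos hmem]
        rw [h0, if_pos he, if_neg hpp]
        ring
      · have hmem : s' ∉ S := by
          rw [hS, mem_filter]
          exact fun h => he h.2.2
        have h0 : ∑ x ∈ S, (if s' = x then (1 : ℂ) else 0) = 0 := by
          rw [sum_ite_eq, if_neg hmem]
        rw [h0, if_neg he, if_neg hpp]
        ring

end DWG

open Classical in
theorem exists_dualS {q : ℂ} (hq : q ^ 2 + q + 1 = 0) {m : ℕ} {s : St} (hs : IsAnn (2 * m) s) :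
    ∃ P, DW q (2 * m) P ∧
      ∀ s', IsAnn (2 * m) s' → eval (zptS q s') P = if s' = s then 1 else 0 :=
  DWG.rep_delta hq _ hs rfl

end Pool.Agent.Perc

end PartperqDWG

section PartperqPsiSDefs

/-!
# The polynomial solution on the punctured disc: definitions
-/

set_option autoImplicit false

namespace Pool.Agent.Perc

open Finset MvPolynomial

open Classical in
/-- The component of the solution at the state `s` (zero if `s` is not a state). -/
noncomputable def PsiS (q : ℂ) (m : ℕ) (s : St) : MvPolynomial ℕ ℂ :=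
  if h : q ^ 2 + q + 1 = 0 ∧ IsAnn (2 * m) s then (exists_dualS h.1 h.2).choose else 0

/-- The finite set of states. -/
noncomputable def anns (N : ℕ) : Finset St := (finite_ann N).toFinset

theorem mem_anns {N : ℕ} {s : St} : s ∈ anns N ↔ IsAnn N s := by
  rw [anns, Set.Finite.mem_toFinset]; rfl

/-- The vector `Ψ(z)`. -/
noncomputable def PsiSV (q : ℂ) (m : ℕ) (z : ℕ → ℂ) : St →₀ ℂ :=
  ∑ s ∈ anns (2 * m), Finsupp.single s (eval z (PsiS q m s))

end Pool.Agent.Perc

end PartperqPsiSDefs

section PartperqPsiSA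

/-!
# The polynomial solution on the punctured disc: exchange relation (task PsiSA)
-/

set_option autoImplicit false

namespace Pool.Agent.Perc

open Finset MvPolynomial

variable {q : ℂ} {m : ℕ} {s : St}

theorem dw_PsiS (hq : q ^ 2 + q + 1 = 0) (m : ℕ) (s : St) : DW q (2 * m) (PsiS q m s) := by
  classical
  unfold PsiS
  split_ifs with h
  · exact (exists_dualS h.1 h.2).choose_spec.1
  · exact dw_zero

open Classical in
theorem eval_zptS_PsiS (hq : q ^ 2 + q + 1 = 0) (hs : IsAnn (2 * m) s) {s' : St}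
    (h : IsAnn (2 * m) s') : eval (zptS q s') (PsiS q m s) = if s' = s then 1 else 0 := by
  unfold PsiS
  rw [dif_pos ⟨hq, hs⟩]
  exact (exists_dualS hq hs).choose_spec.2 s' h

/-- Expansion in the dual basis. -/
theorem DW.eq_sum_PsiS (hq : q ^ 2 + q + 1 = 0) {P : MvPolynomial ℕ ℂ} (h : DW q (2 * m) P) :
    P = ∑ s ∈ anns (2 * m), C (eval (zptS q s) P) * PsiS q m s := by
  classical
  rw [← sub_eq_zero]
  have hneg : P - ∑ s ∈ anns (2 * m), C (eval (zptS q s) P) * PsiS q m s =
      P + C (-1) * ∑ s ∈ anns (2 * m), C (eval (zptS q s) P) * PsiS q m s := by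
    rw [C_neg, C_1, neg_one_mul, sub_eq_add_neg]
  have hDW : DW q (2 * m) (P - ∑ s ∈ anns (2 * m), C (eval (zptS q s) P) * PsiS q m s) := by
    rw [hneg]
    exact h.add ((DW.sum _ _ fun s _ => (dw_PsiS hq m s).smul _).smul _)
  refine hDW.eq_zero hq ?_
  intro p hp
  rw [map_sub, map_sum, Finset.sum_eq_single p]
  · rw [map_mul, eval_C, eval_zptS_PsiS hq hp hp, if_pos rfl, mul_one, sub_self]
  · intro π hπ hne
    rw [map_mul, eval_zptS_PsiS hq (mem_anns.mp hπ) hp, if_neg (fun h => hne h.symm), mul_zero]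
  · intro hp'
    exact absurd (mem_anns.mpr hp) hp'

theorem PsiSV_apply (z : ℕ → ℂ) (hs : IsAnn (2 * m) s) :
    PsiSV q m z s = eval z (PsiS q m s) := by
  classical
  unfold PsiSV
  rw [Finsupp.finsetSum_apply, Finset.sum_eq_single s]
  · rw [Finsupp.single_eq_same]
  · intro b _ hb
    rw [Finsupp.single_eq_of_ne (Ne.symm hb)]
  · intro h
    exact absurd (mem_anns.mpr hs) h

theorem PsiSV_apply_of_not (z : ℕ → ℂ) (hs : ¬ IsAnn (2 * m) s) : PsiSV q m z s = 0 := by
  classical
  unfold PsiSV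
  rw [Finsupp.finsetSum_apply]
  refine Finset.sum_eq_zero fun b hb => ?_
  rw [Finsupp.single_eq_of_ne]
  rintro rfl
  exact hs (mem_anns.mp hb)

theorem PsiSV_congr (hq : q ^ 2 + q + 1 = 0) {z z' : ℕ → ℂ} (h : ∀ k < 2 * m, z k = z' k) :
    PsiSV q m z = PsiSV q m z' := by
  unfold PsiSV
  refine Finset.sum_congr rfl fun s _ => ?_
  rw [(dw_PsiS hq m s).eval_congr h]

namespace PsiSA

/-- Coefficients of the push-forward. -/
theorem mapDomain_PsiSV (q : ℂ) (m : ℕ) (z : ℕ → ℂ) (f : St → St) :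
    (PsiSV q m z).mapDomain f =
      ∑ s ∈ anns (2 * m), Finsupp.single (f s) (eval z (PsiS q m s)) := by
  unfold PsiSV
  rw [Finsupp.mapDomain_finsetSum]
  exact Finset.sum_congr rfl fun π _ => Finsupp.mapDomain_single

open Classical in
theorem mapDomain_PsiSV_apply (q : ℂ) (m : ℕ) (z : ℕ → ℂ) (f : St → St) (s : St) :
    (PsiSV q m z).mapDomain f s =
      ∑ p ∈ anns (2 * m), (if f p = s then eval z (PsiS q m p) else 0) := by
  rw [mapDomain_PsiSV, Finsupp.finsetSum_apply]
  refine Finset.sum_congr rfl fun p _ => ?_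
  rw [Finsupp.single_apply]

open Classical in
/-- A push-forward, evaluated by a polynomial of the space with prescribed values. -/
theorem eval_eq_mapDomain (hq : q ^ 2 + q + 1 = 0) {Q : MvPolynomial ℕ ℂ} (hQ : DW q (2 * m) Q)
    (f : St → St) (s : St) (c : ℂ)
    (h : ∀ p, IsAnn (2 * m) p → eval (zptS q p) Q = if f p = s then c else 0) (z : ℕ → ℂ) :
    eval z Q = c * (PsiSV q m z).mapDomain f s := by
  conv_lhs => rw [hQ.eq_sum_PsiS hq]
  rw [map_sum, mapDomain_PsiSV_apply, Finset.mul_sum]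
  refine Finset.sum_congr rfl fun p hp => ?_
  rw [map_mul, eval_C, h p (mem_anns.mp hp)]
  split_ifs <;> simp

theorem mapDomain_apply_zero (z : ℕ → ℂ) (f : St → St) (s : St)
    (h : ∀ p, IsAnn (2 * m) p → f p ≠ s) : (PsiSV q m z).mapDomain f s = 0 := by
  classical
  rw [mapDomain_PsiSV_apply]
  refine Finset.sum_eq_zero fun p hp => ?_
  rw [if_neg (h p (mem_anns.mp hp))]

end PsiSA

open PsiSA

/-- Exchange relation. -/
theorem exchangeS (hq : q ^ 2 + q + 1 = 0) {i : ℕ} (hi : i + 1 < 2 * m) (z : ℕ → ℂ) :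
    (q * z (i + 1) - q ^ 2 * z i) • PsiSV q m (swapV i z) =
      (q * z i - q ^ 2 * z (i + 1)) • PsiSV q m z +
        (z i - z (i + 1)) • (PsiSV q m z).mapDomain (eL i) := by
  classical
  ext s
  rw [Finsupp.add_apply, Finsupp.smul_apply, Finsupp.smul_apply, Finsupp.smul_apply,
    smul_eq_mul, smul_eq_mul, smul_eq_mul]
  by_cases hs : IsAnn (2 * m) s
  · rw [PsiSV_apply _ hs, PsiSV_apply _ hs]
    obtain ⟨Q, hQ, h1⟩ := (dw_PsiS hq m s).exists_E hq hi
    have h3 : eval z Q = 1 * (PsiSV q m z).mapDomain (eL i) s :=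
      eval_eq_mapDomain hq hQ (eL i) s 1 (fun p hp => by
        rw [(dw_PsiS hq m s).eval_E hq hQ hi h1 hp, eval_zptS_PsiS hq hs (hp.eL hi)]) z
    rw [one_mul] at h3
    rw [← h3]
    have h4 := h1 z
    linear_combination -h4
  · rw [PsiSV_apply_of_not _ hs, PsiSV_apply_of_not _ hs, mapDomain_apply_zero z (eL i) s]
    · ring
    · rintro p hp rfl
      exact hs (hp.eL hi)

end Pool.Agent.Perc

end PartperqPsiSA

section PartperqPsiSB

/-!
# The polynomial solution on the punctured disc: rotation, insertion, product component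
(task PsiSB)
-/

set_option autoImplicit false

namespace Pool.Agent.Perc

open Finset MvPolynomial

variable {q : ℂ} {m : ℕ}

namespace PsiSB

theorem q_ne_zero (hq : q ^ 2 + q + 1 = 0) : q ≠ 0 := by
  rintro rfl
  norm_num at hq

theorem one_sub_q_ne_zero (hq : q ^ 2 + q + 1 = 0) : 1 - q ≠ 0 := by
  intro h
  have h1 : q = 1 := by linear_combination -h
  rw [h1] at hq
  norm_num at hq

theorem mapDomain_PsiSV (q : ℂ) (m : ℕ) (z : ℕ → ℂ) (f : St → St) :
    (PsiSV q m z).mapDomain f =
      ∑ s ∈ anns (2 * m), Finsupp.single (f s) (eval z (PsiS q m s)) := by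
  unfold PsiSV
  rw [Finsupp.mapDomain_finsetSum]
  exact Finset.sum_congr rfl fun s _ => Finsupp.mapDomain_single

open Classical in
theorem mapDomain_PsiSV_apply (q : ℂ) (m : ℕ) (z : ℕ → ℂ) (f : St → St) (s : St) :
    (PsiSV q m z).mapDomain f s =
      ∑ p ∈ anns (2 * m), (if f p = s then eval z (PsiS q m p) else 0) := by
  rw [mapDomain_PsiSV, Finsupp.finsetSum_apply]
  refine Finset.sum_congr rfl fun p _ => ?_
  rw [Finsupp.single_apply]

open Classical in
/-- A push-forward, evaluated by a polynomial of the space with prescribed values. -/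
theorem eval_eq_mapDomain (hq : q ^ 2 + q + 1 = 0) {Q : MvPolynomial ℕ ℂ}
    (hQ : DW q (2 * m) Q) (f : St → St) (s : St) (c : ℂ)
    (h : ∀ p, IsAnn (2 * m) p → eval (zptS q p) Q = if f p = s then c else 0) (z : ℕ → ℂ) :
    eval z Q = c * (PsiSV q m z).mapDomain f s := by
  conv_lhs => rw [hQ.eq_sum_PsiS hq]
  rw [map_sum, mapDomain_PsiSV_apply, Finset.mul_sum]
  refine Finset.sum_congr rfl fun p hp => ?_
  rw [map_mul, eval_C, h p (mem_anns.mp hp)]
  split_ifs <;> simp

theorem mapDomain_apply_zero (z : ℕ → ℂ) (f : St → St) (s : St)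
    (h : ∀ p, IsAnn (2 * m) p → f p ≠ s) : (PsiSV q m z).mapDomain f s = 0 := by
  classical
  rw [mapDomain_PsiSV_apply]
  refine Finset.sum_eq_zero fun p hp => ?_
  rw [if_neg (h p (mem_anns.mp hp))]

theorem eval_minPoly (q : ℂ) (L : ℕ) (z : ℕ → ℂ) :
    eval z (minPoly q L) = ∏ j ∈ range L, ∏ i ∈ range j, (z i - q ^ 2 * z j) := by
  simp [minPoly]

end PsiSB

open PsiSB

theorem PsiSV_rot (hq : q ^ 2 + q + 1 = 0) (m : ℕ) (z : ℕ → ℂ) :
    PsiSV q m (rotV (2 * m) z) = (PsiSV q m z).mapDomain (rotL (2 * m)) := by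
  classical
  ext s
  by_cases hs : IsAnn (2 * m) s
  · rw [PsiSV_apply _ hs]
    obtain ⟨Q, hQ, h1⟩ := (dw_PsiS hq m s).exists_rot hq
    rw [← h1 z, eval_eq_mapDomain hq hQ (rotL (2 * m)) s 1 (fun p hp => ?_) z, one_mul]
    rw [h1, ← zptS_rotL q hp, eval_zptS_PsiS hq hs hp.rotL]
  · rw [PsiSV_apply_of_not _ hs, mapDomain_apply_zero]
    rintro p hp rfl
    exact hs hp.rotL

theorem PsiSV_insV (hq : q ^ 2 + q + 1 = 0) (m : ℕ) {i : ℕ} (hi : i ≤ 2 * m) (v : ℂ)
    (z : ℕ → ℂ) : PsiSV q (m + 1) (insV i (q ^ 2 * v) v z) =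
      (v * (∏ k ∈ range (2 * m), (z k - q * v) ^ 2) / (9 * q) ^ m) •
        (PsiSV q m z).mapDomain (insL i) := by
  classical
  have hq0 := q_ne_zero hq
  have h3 : (9 * q : ℂ) ^ m ≠ 0 := pow_ne_zero _ (mul_ne_zero (by norm_num) hq0)
  ext s
  rw [Finsupp.smul_apply, smul_eq_mul]
  by_cases hs : IsAnn (2 * (m + 1)) s
  · rw [PsiSV_apply _ hs]
    obtain ⟨R, hR, h1⟩ := DW.restrict (m := 2 * m) hq (dw_PsiS hq (m + 1) s) (i := i) hi
    rw [h1 v z, eval_eq_mapDomain hq hR (insL i) s (1 / (9 * q) ^ m) (fun p hp => ?_) z]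
    · ring
    · have h4 := h1 1 (zptS q p)
      rw [mul_one, mul_one, one_mul, ← zptS_insL q hp hi, prod_zptS hq hp] at h4
      rw [eval_zptS_PsiS hq hs (hp.insL hi)] at h4
      rw [eq_comm, mul_comm] at h4
      rw [eq_div_of_mul_eq h3 h4]
      split_ifs <;> simp
  · rw [PsiSV_apply_of_not _ hs, mapDomain_apply_zero, mul_zero]
    rintro p hp rfl
    exact hs (hp.insL hi)

theorem eval_PsiS_nestS (hq : q ^ 2 + q + 1 = 0) (m : ℕ) (z : ℕ → ℂ) :
    eval z (PsiS q m (nestS m)) =
      (∏ j ∈ range (2 * m), ∏ i ∈ range j, (z i - q ^ 2 * z j)) /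
        ((-3 * q) ^ (m * (m - 1) / 2) * (1 - q) ^ (m ^ 2)) := by
  have hc : ((-3 * q) ^ (m * (m - 1) / 2) * (1 - q) ^ (m ^ 2) : ℂ) ≠ 0 :=
    mul_ne_zero (pow_ne_zero _ (mul_ne_zero (by norm_num) (q_ne_zero hq)))
      (pow_ne_zero _ (one_sub_q_ne_zero hq))
  have h1 := (dw_minPoly hq (2 * m)).eq_sum_PsiS hq
  rw [Finset.sum_eq_single (nestS m)] at h1
  · rw [eval_minPoly_nestS hq m] at h1
    have h2 := congrArg (eval z) h1
    rw [eval_minPoly, map_mul, eval_C] at h2
    rw [h2, mul_div_cancel_left₀ _ hc]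
  · intro s hs hne
    rw [eval_minPoly_of_ne hq (mem_anns.mp hs) hne, C_0, zero_mul]
  · intro h
    exact absurd (mem_anns.mpr (isAnn_nestS m)) h

theorem PsiSV_zero (hq : q ^ 2 + q + 1 = 0) (z : ℕ → ℂ) :
    PsiSV q 0 z = Finsupp.single (nestS 0) 1 := by
  have h1 : anns (2 * 0) = {nestS 0} := by
    ext s
    rw [mem_anns, Finset.mem_singleton]
    exact ⟨fun h => isAnn_zero h, fun h => h ▸ isAnn_nestS 0⟩
  unfold PsiSV
  rw [h1, Finset.sum_singleton, eval_PsiS_nestS hq]
  simp

end Pool.Agent.Perc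

end PartperqPsiSB

section PartperqStatS

/-!
# Stationarity on the cylinder (task StatS)
-/

set_option autoImplicit false

namespace Pool.Agent.Perc

open Finset MvPolynomial

namespace StatS

/-- One face: the average of the two states. -/
noncomputable def rPS (i : ℕ) (f : St →₀ ℂ) : St →₀ ℂ :=
  (1 / 2 : ℂ) • (f + f.mapDomain (eL i))

/-- The faces `0, …, k - 1` of a row. -/
noncomputable def rowPS : ℕ → (St →₀ ℂ) → (St →₀ ℂ)
  | 0, f => f
  | k + 1, f => rPS k (rowPS k f)

theorem rPS_smul (i : ℕ) (c : ℂ) (f : St →₀ ℂ) : rPS i (c • f) = c • rPS i f := by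
  unfold rPS
  rw [Finsupp.mapDomain_smul, ← smul_add, smul_comm]

theorem rowPS_smul (k : ℕ) (c : ℂ) (f : St →₀ ℂ) : rowPS k (c • f) = c • rowPS k f := by
  induction k with
  | zero => rfl
  | succ k ih =>
    change rPS k (rowPS k (c • f)) = c • rPS k (rowPS k f)
    rw [ih, rPS_smul]

/-- The point with `-q ^ 2` at `k` and `-q` at the last place. -/
def apt (q : ℂ) (n k : ℕ) : ℕ → ℂ := fun j =>
  if j = k then -q ^ 2 else if j = 2 * n + 1 then -q else 1

variable {q : ℂ}

theorem q3 (hq : q ^ 2 + q + 1 = 0) : q ^ 3 = 1 := by linear_combination (q - 1) * hq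

theorem q_ne (hq : q ^ 2 + q + 1 = 0) : q ≠ 0 := by
  rintro rfl
  norm_num at hq

theorem swap_apt (n k : ℕ) (hk : k < 2 * n) : swapV k (apt q n k) = apt q n (k + 1) := by
  ext j
  unfold swapV apt
  by_cases h1 : j = k
  · subst h1
    rw [Equiv.swap_apply_left, if_neg (by omega), if_neg (by omega), if_neg (by omega),
      if_neg (by omega)]
  · by_cases h2 : j = k + 1
    · subst h2
      rw [Equiv.swap_apply_right, if_pos rfl, if_pos rfl]
    · rw [Equiv.swap_apply_of_ne_of_ne h1 h2, if_neg h1, if_neg h2]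

theorem apt_step (hq : q ^ 2 + q + 1 = 0) (n k : ℕ) (hk : k < 2 * n) :
    PsiSV q (n + 1) (apt q n (k + 1)) = rPS k (PsiSV q (n + 1) (apt q n k)) := by
  have hq0 := q_ne hq
  have h := exchangeS hq (m := n + 1) (i := k) (by omega) (apt q n k)
  have hz : apt q n k k = -q ^ 2 := if_pos rfl
  have hz' : apt q n k (k + 1) = 1 := by
    unfold apt
    rw [if_neg (by omega), if_neg (by omega)]
  rw [swap_apt n k hk, hz, hz'] at h
  have e1 : q * 1 - q ^ 2 * -q ^ 2 = 2 * q := by
    linear_combination q * q3 hq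
  have e2 : q * -q ^ 2 - q ^ 2 * 1 = q := by
    linear_combination -q3 hq - hq
  have e3 : -q ^ 2 - 1 = q := by linear_combination -hq
  rw [e1, e2, e3] at h
  have h2 : (2 * q : ℂ) ≠ 0 := mul_ne_zero two_ne_zero hq0
  have h3 : PsiSV q (n + 1) (apt q n (k + 1)) = (2 * q)⁻¹ • ((2 * q) •
      PsiSV q (n + 1) (apt q n (k + 1))) := by
    rw [smul_smul, inv_mul_cancel₀ h2, one_smul]
  rw [h3, h, ← smul_add, smul_smul]
  unfold rPS
  congr 1
  field_simp

theorem apt_row (hq : q ^ 2 + q + 1 = 0) (n k : ℕ) (hk : k ≤ 2 * n) :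
    PsiSV q (n + 1) (apt q n k) = rowPS k (PsiSV q (n + 1) (apt q n 0)) := by
  induction k with
  | zero => rfl
  | succ k ih =>
    rw [apt_step hq n k (by omega), ih (by omega)]
    rfl

/-- The constant. -/
noncomputable def cst (q : ℂ) (n : ℕ) : ℂ := -q ^ 2 * (4 : ℂ) ^ (2 * n) / (9 * q) ^ n

theorem cst_ne (hq : q ^ 2 + q + 1 = 0) (n : ℕ) : cst q n ≠ 0 := by
  have hq0 := q_ne hq
  exact div_ne_zero (mul_ne_zero (neg_ne_zero.mpr (pow_ne_zero _ hq0))
    (pow_ne_zero _ (by norm_num))) (pow_ne_zero _ (mul_ne_zero (by norm_num) hq0))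

theorem ins_one (hq : q ^ 2 + q + 1 = 0) (n i : ℕ) (hi : i ≤ 2 * n) :
    PsiSV q (n + 1) (insV i (q ^ 2 * -q ^ 2) (-q ^ 2) fun _ => 1) =
      cst q n • (PsiSV q n fun _ => 1).mapDomain (insL i) := by
  rw [PsiSV_insV hq n hi]
  congr 1
  unfold cst
  have : ∀ k ∈ range (2 * n), ((1 : ℂ) - q * -q ^ 2) ^ 2 = 4 := fun k _ => by
    have h1 : (1 : ℂ) - q * -q ^ 2 = 2 := by linear_combination q3 hq
    rw [h1]
    norm_num
  rw [Finset.prod_congr rfl this, Finset.prod_const, Finset.card_range]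

theorem apt_zero (hq : q ^ 2 + q + 1 = 0) (n : ℕ) :
    PsiSV q (n + 1) (apt q n 0) = cst q n • (PsiSV q n fun _ => 1).mapDomain (cupL (2 * n)) := by
  have h1 : ∀ k < 2 * (n + 1), apt q n 0 k =
      rotV (2 * (n + 1)) (insV 0 (q ^ 2 * -q ^ 2) (-q ^ 2) fun _ => 1) k := by
    intro k hk
    unfold apt rotV insV
    by_cases h1 : k = 0
    · subst h1
      rw [if_pos rfl, if_pos (by omega), if_neg (by omega), if_neg (by omega), if_pos (by omega)]
    · rw [if_neg h1]
      by_cases h2 : k = 2 * n + 1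
      · rw [if_pos h2, if_neg (by omega), if_pos (by omega), if_neg (by omega), if_pos rfl]
        linear_combination q * q3 hq
      · rw [if_neg h2, if_pos (by omega), if_neg (by omega), if_neg (by omega),
          if_neg (by omega)]
  rw [PsiSV_congr hq h1, PsiSV_rot hq, ins_one hq n 0 (Nat.zero_le _), Finsupp.mapDomain_smul,
    ← Finsupp.mapDomain_comp]
  congr 1
  rw [PsiSA.mapDomain_PsiSV, PsiSA.mapDomain_PsiSV]
  refine Finset.sum_congr rfl fun p hp => ?_
  rw [Function.comp_apply, show 2 * (n + 1) = 2 * n + 2 by ring,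
    rotL_insL_zero (mem_anns.mp hp)]

theorem apt_last (hq : q ^ 2 + q + 1 = 0) (n : ℕ) :
    (PsiSV q (n + 1) (apt q n (2 * n))).mapDomain (eL (2 * n)) =
      cst q n • (PsiSV q n fun _ => 1).mapDomain (insL (2 * n)) := by
  have hq0 := q_ne hq
  have h := exchangeS hq (m := n + 1) (i := 2 * n) (by omega) (apt q n (2 * n))
  have hz : apt q n (2 * n) (2 * n) = -q ^ 2 := if_pos rfl
  have hz' : apt q n (2 * n) (2 * n + 1) = -q := by
    unfold apt
    rw [if_neg (by omega), if_pos rfl]
  have h1 : ∀ k < 2 * (n + 1), swapV (2 * n) (apt q n (2 * n)) k =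
      insV (2 * n) (q ^ 2 * -q ^ 2) (-q ^ 2) (fun _ => 1) k := by
    intro k hk
    unfold swapV insV
    by_cases h1 : k = 2 * n
    · subst h1
      rw [Equiv.swap_apply_left, hz', if_neg (lt_irrefl _), if_pos rfl]
      linear_combination q * q3 hq
    · by_cases h2 : k = 2 * n + 1
      · subst h2
        rw [Equiv.swap_apply_right, hz, if_neg (by omega), if_neg (by omega), if_pos rfl]
      · rw [Equiv.swap_apply_of_ne_of_ne h1 h2]
        unfold apt
        rw [if_neg h1, if_neg h2, if_pos (by omega)]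
  rw [PsiSV_congr hq h1, ins_one hq n (2 * n) le_rfl, hz, hz'] at h
  have e1 : q * -q - q ^ 2 * -q ^ 2 = q - q ^ 2 := by
    linear_combination q * q3 hq
  have e2 : q * -q ^ 2 - q ^ 2 * -q = 0 := by ring
  have e3 : -q ^ 2 - -q = q - q ^ 2 := by ring
  rw [e1, e2, e3, zero_smul, zero_add] at h
  have h2 : q - q ^ 2 ≠ 0 := by
    intro h0
    have h4 : q * (1 - q) = 0 := by linear_combination h0
    rcases mul_eq_zero.mp h4 with h5 | h5
    · exact hq0 h5
    · have h6 : q = 1 := by linear_combination -h5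
      rw [h6] at hq
      norm_num at hq
  have h3 := congrArg (fun f => (q - q ^ 2)⁻¹ • f) h
  simp only [smul_smul _ (q - q ^ 2), inv_mul_cancel₀ h2, one_smul] at h3
  exact h3.symm

/-- Stationarity as an identity of vectors. -/
theorem statV (hq : q ^ 2 + q + 1 = 0) (n : ℕ) :
    (rowPS (2 * n) ((PsiSV q n fun _ => 1).mapDomain (cupL (2 * n)))).mapDomain (eL (2 * n)) =
      (PsiSV q n fun _ => 1).mapDomain (insL (2 * n)) := by
  have h := apt_last hq n
  rw [apt_row hq n (2 * n) le_rfl, apt_zero hq n, rowPS_smul, Finsupp.mapDomain_smul] at h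
  have h3 := congrArg (fun f => (cst q n)⁻¹ • f) h
  simp only [smul_smul, inv_mul_cancel₀ (cst_ne hq n), one_smul] at h3
  exact h3

theorem resL_insL {L : ℕ} {s : St} (h : IsAnn L s) : resL L (insL L s) = s := by
  refine Prod.ext ?_ ?_
  · funext x
    change resP L (insArc L s.1) x = s.1 x
    unfold resP insArc
    by_cases hx : x < L
    · have h1 := h.nc.lt x hx
      simp only [hx, if_true]
      rw [if_neg (by omega), if_neg (by omega), if_pos h1]
    · rw [if_neg hx]
      exact (h.nc.out x (by omega)).symm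
  · funext x
    change (if x < L then (insL L s).2 x else false) = s.2 x
    by_cases hx : x < L
    · rw [if_pos hx]
      unfold insL
      simp only
      rw [if_neg (by omega), if_pos hx]
    · rw [if_neg hx, h.out x (by omega)]

/-- Pairing of a vector with a function. -/
noncomputable def pr (f : St → ℂ) (g : St →₀ ℂ) : ℂ := g.sum fun s c => c * f s

theorem pr_add (f : St → ℂ) (g g' : St →₀ ℂ) : pr f (g + g') = pr f g + pr f g' :=
  Finsupp.sum_add_index' (fun _ => zero_mul _) fun _ _ _ => add_mul _ _ _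

theorem pr_smul (f : St → ℂ) (c : ℂ) (g : St →₀ ℂ) : pr f (c • g) = c * pr f g := by
  unfold pr
  rw [Finsupp.sum_smul_index' (fun _ => zero_mul _), Finsupp.mul_sum]
  refine Finsupp.sum_congr fun s _ => ?_
  rw [smul_eq_mul, mul_assoc]

theorem pr_mapDomain (f : St → ℂ) (h : St → St) (g : St →₀ ℂ) :
    pr f (g.mapDomain h) = pr (fun s => f (h s)) g :=
  Finsupp.sum_mapDomain_index (fun _ => zero_mul _) fun _ _ _ => add_mul _ _ _

theorem rowL_congr {w w' : ℕ → Bool} {k : ℕ} (h : ∀ i < k, w i = w' i) (s : St) :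
    rowL w k s = rowL w' k s := by
  induction k with
  | zero => rfl
  | succ k ih =>
    change (if w k then eL k (rowL w k s) else rowL w k s) =
      if w' k then eL k (rowL w' k s) else rowL w' k s
    rw [ih fun i hi => h i (by omega), h k (by omega)]

theorem pr_rowPS (k : ℕ) (f : St → ℂ) (g : St →₀ ℂ) : pr f (rowPS k g) =
    (∑ T ∈ (range k).powerset, pr (fun s => f (rowL (fun i => decide (i ∈ T)) k s)) g) /
      2 ^ k := by
  classical
  induction k generalizing f with
  | zero =>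
    rw [Finset.range_zero, Finset.powerset_empty, Finset.sum_singleton, pow_zero, div_one]
    rfl
  | succ k ih =>
    change pr f (rPS k (rowPS k g)) = _
    unfold rPS
    rw [pr_smul, pr_add, pr_mapDomain, ih, ih, Finset.range_add_one,
      Finset.sum_powerset_insert (by simp)]
    have h1 : ∀ T ∈ (range k).powerset,
        pr (fun s => f (rowL (fun i => decide (i ∈ T)) (k + 1) s)) g =
          pr (fun s => f (rowL (fun i => decide (i ∈ T)) k s)) g := by
      intro T hT
      rw [mem_powerset] at hT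
      congr 1
      funext s
      congr 1
      change (if decide (k ∈ T) = true then _ else _) = _
      rw [if_neg]
      intro hk
      have := hT (of_decide_eq_true hk)
      simp at this
    have h2 : ∀ T ∈ (range k).powerset,
        pr (fun s => f (rowL (fun i => decide (i ∈ insert k T)) (k + 1) s)) g =
          pr (fun s => f (eL k (rowL (fun i => decide (i ∈ T)) k s))) g := by
      intro T hT
      rw [mem_powerset] at hT
      congr 1
      funext s
      congr 1
      change (if decide (k ∈ insert k T) = true then _ else _) = _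
      rw [if_pos (by simp)]
      congr 1
      refine rowL_congr (fun i hi => ?_) s
      congr 1
      rw [Finset.mem_insert]
      simp only [eq_iff_iff, or_iff_right_iff_imp]
      intro h
      omega
    rw [Finset.sum_congr rfl h1, Finset.sum_congr rfl h2, pow_succ]
    field_simp

end StatS

open StatS

/-- The homogeneous solution is stationary for the rows of the cylinder. -/
theorem stationaryS {q : ℂ} (hq : q ^ 2 + q + 1 = 0) (n : ℕ) (f : St → ℂ) :
    ∑ s ∈ anns (2 * n), eval (fun _ => 1) (PsiS q n s) * avgL (2 * n) f s =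
      ∑ s ∈ anns (2 * n), eval (fun _ => 1) (PsiS q n s) * f s := by
  classical
  have h0 := congrArg (fun g => StatS.pr (fun s => f (resL (2 * n) s)) g) (statV hq n)
  simp only at h0
  have hpr : ∀ F : St → ℂ, StatS.pr F (PsiSV q n fun _ => 1) =
      ∑ s ∈ anns (2 * n), eval (fun _ => 1) (PsiS q n s) * F s := by
    intro F
    unfold PsiSV StatS.pr
    rw [← Finsupp.sum_finsetSum_index (fun _ => zero_mul _) fun _ _ _ => add_mul _ _ _]
    refine Finset.sum_congr rfl fun s _ => ?_
    rw [Finsupp.sum_single_index (zero_mul _)]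
  rw [pr_mapDomain, pr_rowPS, pr_mapDomain, hpr] at h0
  have h1 : ∑ s ∈ anns (2 * n), eval (fun _ => 1) (PsiS q n s) *
      f (resL (2 * n) (insL (2 * n) s)) =
      ∑ s ∈ anns (2 * n), eval (fun _ => 1) (PsiS q n s) * f s := by
    refine Finset.sum_congr rfl fun s hs => ?_
    rw [resL_insL (mem_anns.mp hs)]
  rw [h1] at h0
  rw [← h0]
  have h2 : ∀ T ∈ (range (2 * n)).powerset,
      StatS.pr (fun s => f (resL (2 * n) (eL (2 * n) (rowL (fun i => decide (i ∈ T)) (2 * n) s))))
        ((PsiSV q n fun _ => 1).mapDomain (cupL (2 * n))) =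
      ∑ s ∈ anns (2 * n), eval (fun _ => 1) (PsiS q n s) *
        f (trow (2 * n) (fun k => decide (k ∈ T)) s) := by
    intro T _
    rw [pr_mapDomain, hpr]
    rfl
  rw [Finset.sum_congr rfl h2, Finset.sum_comm, Finset.sum_div]
  refine Finset.sum_congr rfl fun s _ => ?_
  unfold avgL
  rw [← Finset.mul_sum, mul_div_assoc]

end Pool.Agent.Perc

end PartperqStatS

section PartperqLimS

/-!
# Convergence to the stationary law (task LimS)
-/

set_option autoImplicit false

namespace Pool.Agent.Perc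

open Finset MvPolynomial Filter Topology

namespace LimS

/-- Doeblin's argument for a bounded function. -/
theorem avgL_iterate_sub_le {L : ℕ} {f : St → ℂ} {B : ℝ}
    (hB : ∀ s s' : St, IsAnn L s → IsAnn L s' → ‖f s - f s'‖ ≤ B) (M : ℕ) {s s' : St}
    (h : IsAnn L s) (h' : IsAnn L s') :
    ‖((avgL L)^[M] f) s - ((avgL L)^[M] f) s'‖ ≤ (1 - 1 / 2 ^ L) ^ M * B := by
  induction M generalizing s s' with
  | zero => simpa using hB s s' h h'
  | succ M ih =>
    rw [Function.iterate_succ_apply']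
    set F := (avgL L)^[M] f with hF
    unfold avgL
    rw [← sub_div, ← Finset.sum_sub_distrib]
    set T0 : Finset ℕ := (range L).filter (fun k => k % 2 = 0) with hT0
    have hT0m : T0 ∈ (range L).powerset := by
      rw [Finset.mem_powerset]
      exact Finset.filter_subset _ _
    have hreset : ∀ t : St, IsAnn L t → trow L (fun k => decide (k ∈ T0)) t = s0 L := by
      intro t ht
      rw [← trow_reset ht]
      refine AnnB.trow_congr (fun j hj => ?_) t
      simp [hT0, hj]
    rw [norm_div]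
    have h2 : ‖(2 : ℂ) ^ L‖ = 2 ^ L := by simp
    rw [h2, div_le_iff₀ (by positivity)]
    have h3 : ‖∑ T ∈ (range L).powerset, (F (trow L (fun k => decide (k ∈ T)) s)
        - F (trow L (fun k => decide (k ∈ T)) s'))‖
        ≤ ∑ T ∈ (range L).powerset, if T = T0 then (0 : ℝ) else (1 - 1 / 2 ^ L) ^ M * B := by
      refine (norm_sum_le _ _).trans (Finset.sum_le_sum fun T _ => ?_)
      split_ifs with hT
      · rw [hT, hreset s h, hreset s' h', sub_self, norm_zero]
      · exact ih (h.trow _) (h'.trow _)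
    refine h3.trans (le_of_eq ?_)
    rw [← Finset.sum_erase_add _ _ hT0m, if_pos rfl, add_zero]
    have h4 : ∀ T ∈ (range L).powerset.erase T0,
        (if T = T0 then (0 : ℝ) else (1 - 1 / 2 ^ L) ^ M * B)
        = (1 - 1 / 2 ^ L) ^ M * B := fun T hT => if_neg (Finset.ne_of_mem_erase hT)
    rw [Finset.sum_congr rfl h4, Finset.sum_const, Finset.card_erase_of_mem hT0m,
      Finset.card_powerset, Finset.card_range, nsmul_eq_mul, pow_succ,
      Nat.cast_sub Nat.one_le_two_pow]
    push_cast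
    have : (2 : ℝ) ^ L ≠ 0 := by positivity
    field_simp

/-- Stationarity for the iterates. -/
theorem stationary_iterate {q : ℂ} (hq : q ^ 2 + q + 1 = 0) (n : ℕ) (f : St → ℂ) (M : ℕ) :
    ∑ s ∈ anns (2 * n), eval (fun _ => 1) (PsiS q n s) * ((avgL (2 * n))^[M] f) s =
      ∑ s ∈ anns (2 * n), eval (fun _ => 1) (PsiS q n s) * f s := by
  induction M with
  | zero => rfl
  | succ M ih =>
    rw [Function.iterate_succ_apply']
    rw [stationaryS hq n ((avgL (2 * n))^[M] f), ih]

end LimS

theorem tendsto_avgL {q : ℂ} (hq : q ^ 2 + q + 1 = 0) {n : ℕ}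
    (h0 : ∑ s ∈ anns (2 * n), eval (fun _ => 1) (PsiS q n s) ≠ 0) (f : St → ℂ) :
    Tendsto (fun M => ((avgL (2 * n))^[M] f) (s0 (2 * n))) atTop
      (𝓝 ((∑ s ∈ anns (2 * n), eval (fun _ => 1) (PsiS q n s) * f s) /
        ∑ s ∈ anns (2 * n), eval (fun _ => 1) (PsiS q n s))) := by
  classical
  set S := ∑ s ∈ anns (2 * n), eval (fun _ => 1) (PsiS q n s) with hS
  set W := ∑ s ∈ anns (2 * n), eval (fun _ => 1) (PsiS q n s) * f s with hW
  -- a bound for the differences
  set B : ℝ := 2 * ∑ s ∈ anns (2 * n), ‖f s‖ with hBdef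
  have hB : ∀ s s' : St, IsAnn (2 * n) s → IsAnn (2 * n) s' → ‖f s - f s'‖ ≤ B := by
    intro s s' h h'
    have h1 : ‖f s‖ ≤ ∑ t ∈ anns (2 * n), ‖f t‖ :=
      Finset.single_le_sum (f := fun t => ‖f t‖) (fun t _ => norm_nonneg _) (mem_anns.2 h)
    have h2 : ‖f s'‖ ≤ ∑ t ∈ anns (2 * n), ‖f t‖ :=
      Finset.single_le_sum (f := fun t => ‖f t‖) (fun t _ => norm_nonneg _) (mem_anns.2 h')
    calc ‖f s - f s'‖ ≤ ‖f s‖ + ‖f s'‖ := norm_sub_le _ _
      _ ≤ B := by rw [hBdef]; linarith
  have hann0 : IsAnn (2 * n) (s0 (2 * n)) := isAnn_s0 (by omega)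
  set g : ℕ → ℂ := fun M => ((avgL (2 * n))^[M] f) (s0 (2 * n)) with hg
  -- the difference
  have hdiff : ∀ M, ‖W - S * g M‖ ≤
      (∑ s ∈ anns (2 * n), ‖eval (fun _ => 1) (PsiS q n s)‖) * B * (1 - 1 / 2 ^ (2 * n)) ^ M := by
    intro M
    have h1 : W - S * g M = ∑ s ∈ anns (2 * n), eval (fun _ => 1) (PsiS q n s)
        * (((avgL (2 * n))^[M] f) s - g M) := by
      rw [hW, ← LimS.stationary_iterate hq n f M, hS, Finset.sum_mul, ← Finset.sum_sub_distrib]
      refine Finset.sum_congr rfl fun s _ => ?_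
      ring
    rw [h1, mul_assoc, Finset.sum_mul]
    refine (norm_sum_le _ _).trans (Finset.sum_le_sum fun s hs => ?_)
    rw [norm_mul, mul_comm B]
    exact mul_le_mul_of_nonneg_left
      (LimS.avgL_iterate_sub_le hB M (mem_anns.1 hs) hann0) (norm_nonneg _)
  have hlim : Tendsto (fun M : ℕ => (∑ s ∈ anns (2 * n), ‖eval (fun _ => 1) (PsiS q n s)‖) * B
      * ((1 : ℝ) - 1 / 2 ^ (2 * n)) ^ M) atTop (𝓝 0) := by
    have h1 : Tendsto (fun M : ℕ => ((1 : ℝ) - 1 / 2 ^ (2 * n)) ^ M) atTop (𝓝 0) := by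
      refine tendsto_pow_atTop_nhds_zero_of_lt_one ?_ ?_
      · rw [sub_nonneg, div_le_one (by positivity)]
        exact one_le_pow₀ (by norm_num)
      · have : (0 : ℝ) < 1 / 2 ^ (2 * n) := by positivity
        linarith
    simpa using h1.const_mul ((∑ s ∈ anns (2 * n), ‖eval (fun _ => 1) (PsiS q n s)‖) * B)
  have h2 : Tendsto (fun M => W - S * g M) atTop (𝓝 0) :=
    squeeze_zero_norm hdiff hlim
  have h3 : Tendsto (fun M => S * g M) atTop (𝓝 W) := by
    have := h2.const_sub W
    simpa using this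
  have h4 := h3.div_const S
  refine h4.congr fun M => ?_
  rw [mul_div_cancel_left₀ _ h0]

end Pool.Agent.Perc

end PartperqLimS

section PartperqTwoC

/-!
# The two-sided cylinder: probabilities (task TwoC)
-/

set_option autoImplicit false

namespace Pool.Agent.Perc

open Finset MvPolynomial Filter Topology

variable {L M : ℕ}

namespace TwoC

open CylArmB

theorem ex_union {S1 S2 : Finset (ℤ × ℤ)} (hd : Disjoint S1 S2) (g : Cfg → ℂ) :
    ex (S1 ∪ S2) g = ex S1 (fun ω₁ => ex S2 (fun ω₂ => g (fun f => ω₁ f || ω₂ f))) := by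
  unfold ex
  rw [card_union_of_disjoint hd, pow_add, ← sum_div, div_div, mul_comm ((2 : ℂ) ^ S2.card)]
  congr 1
  rw [← sum_product']
  refine sum_nbij' (fun T => (T ∩ S1, T ∩ S2)) (fun X => X.1 ∪ X.2) ?_ ?_ ?_ ?_ ?_
  · intro T _
    rw [mem_product, mem_powerset, mem_powerset]
    exact ⟨inter_subset_right, inter_subset_right⟩
  · rintro ⟨T1, T2⟩ h
    rw [mem_product, mem_powerset, mem_powerset] at h
    rw [mem_powerset]
    exact union_subset_union h.1 h.2
  · intro T hT
    rw [mem_powerset] at hT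
    simp only
    rw [← inter_union_distrib_left, inter_eq_left.mpr hT]
  · rintro ⟨T1, T2⟩ h
    rw [mem_product, mem_powerset, mem_powerset] at h
    have h1 : T1 ⊆ S1 := h.1
    have h2 : T2 ⊆ S2 := h.2
    refine Prod.ext ?_ ?_
    · ext f
      simp only [mem_inter, mem_union]
      constructor
      · rintro ⟨h3 | h3, h4⟩
        · exact h3
        · exact absurd h4 (fun h5 => disjoint_left.1 hd h5 (h2 h3))
      · intro h3; exact ⟨Or.inl h3, h1 h3⟩
    · ext f
      simp only [mem_inter, mem_union]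
      constructor
      · rintro ⟨h3 | h3, h4⟩
        · exact absurd h4 (fun h5 => disjoint_left.1 hd (h1 h3) h5)
        · exact h3
      · intro h3; exact ⟨Or.inr h3, h2 h3⟩
  · intro T hT
    rw [mem_powerset] at hT
    congr 1
    funext f
    unfold cfg
    rw [← Bool.decide_or]
    apply decide_eq_decide.2
    simp only [mem_inter]
    constructor
    · intro hf
      rcases mem_union.1 (hT hf) with h1 | h1
      · exact Or.inl ⟨hf, h1⟩
      · exact Or.inr ⟨hf, h1⟩
    · rintro (h1 | h1)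
      · exact h1.1
      · exact h1.1

theorem card_low (L M : ℕ) : (RF 0 L (-(M : ℤ)) 0).card = L * M := by
  unfold RF
  rw [card_product, Int.card_Ico, Int.card_Ico]
  simp

/-- The lower half. -/
theorem ex_low (L M : ℕ) (h : St → ℂ) :
    ex (RF 0 L (-(M : ℤ)) 0) (fun ω => h (loS L M ω)) =
      ex (RF 0 L 0 M) (fun ω => h (run L ω M (s0 L))) := by
  unfold ex
  rw [card_RF, card_low]
  congr 1
  refine sum_nbij' (fun T => (RF 0 L 0 M).filter (fun f => (f.1, -1 - f.2) ∉ T))
    (fun T => (RF 0 L (-(M : ℤ)) 0).filter (fun f => (f.1, -1 - f.2) ∉ T)) ?_ ?_ ?_ ?_ ?_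
  · intro T _; rw [mem_powerset]; exact filter_subset _ _
  · intro T _; rw [mem_powerset]; exact filter_subset _ _
  · intro T hT
    rw [mem_powerset] at hT
    ext f
    simp only [mem_filter, mem_RF]
    have e : (f.1, -1 - (-1 - f.2)) = f := by
      ext
      · rfl
      · simp
    rw [e]
    constructor
    · rintro ⟨h1, h2⟩
      by_contra h3
      exact h2 ⟨⟨h1.1, by omega, by omega⟩, h3⟩
    · intro h1
      have h2 := mem_RF.1 (hT h1)
      refine ⟨h2, fun h3 => h3.2 h1⟩
  · intro T hT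
    rw [mem_powerset] at hT
    ext f
    simp only [mem_filter, mem_RF]
    have e : (f.1, -1 - (-1 - f.2)) = f := by
      ext
      · rfl
      · simp
    rw [e]
    constructor
    · rintro ⟨h1, h2⟩
      by_contra h3
      exact h2 ⟨⟨h1.1, by omega, by omega⟩, h3⟩
    · intro h1
      have h2 := mem_RF.1 (hT h1)
      refine ⟨h2, fun h3 => h3.2 h1⟩
  · intro T hT
    unfold loS
    show h (run L (lowC (cfg T)) M (s0 L)) = h (run L _ M (s0 L))
    congr 1
    apply run_congr
    intro i hi m hm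
    unfold lowC cfg
    rw [← decide_not]
    apply decide_eq_decide.2
    simp only [mem_filter, mem_RF]
    constructor
    · intro h1
      exact ⟨⟨⟨by omega, by omega⟩, by omega, by omega⟩, h1⟩
    · intro h1; exact h1.2

theorem RF_union (L M : ℕ) :
    RF 0 L (-(M : ℤ)) M = RF 0 L 0 M ∪ RF 0 L (-(M : ℤ)) 0 := by
  ext f
  rw [mem_union, mem_RF, mem_RF, mem_RF]
  constructor
  · rintro ⟨h1, h2, h3⟩
    by_cases h4 : 0 ≤ f.2
    · exact Or.inl ⟨h1, h4, h3⟩
    · exact Or.inr ⟨h1, h2, by omega⟩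
  · rintro (⟨h1, h2, h3⟩ | ⟨h1, h2, h3⟩)
    · exact ⟨h1, by omega, by omega⟩
    · exact ⟨h1, by omega, by omega⟩

theorem disj (L M : ℕ) : Disjoint (RF 0 L 0 M) (RF 0 L (-(M : ℤ)) 0) := by
  rw [disjoint_left]
  intro f h1 h2
  rw [mem_RF] at h1 h2
  omega

end TwoC

open TwoC CylArmB

/-- The two halves are independent. -/
theorem ex_two (L M : ℕ) (f : St → St → ℂ) :
    ex (RF 0 L (-M) M) (fun ω => f (upS L M ω) (loS L M ω)) =
      ((avgL L)^[M] (fun s' => ((avgL L)^[M] (fun s => f s' s)) (s0 L))) (s0 L) := by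
  rw [← ex_run, RF_union, ex_union (disj L M)]
  apply ex_congr
  intro T1 hT1
  rw [← ex_run]
  have e1 : ∀ h : St → ℂ, ex (RF 0 L 0 M) (fun ω => h (run L ω M (s0 L))) =
      ex (RF 0 L (-(M : ℤ)) 0) (fun ω => h (loS L M ω)) := fun h => (ex_low L M h).symm
  rw [e1]
  apply ex_congr
  intro T2 hT2
  have e2 : upS L M (fun x => cfg T1 x || cfg T2 x) = run L (cfg T1) M (s0 L) := by
    unfold upS
    apply run_congr
    intro i _ m hm
    have h1 : ((i : ℤ), (m : ℤ)) ∉ T2 := by
      intro h1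
      have := (mem_RF.1 (hT2 h1)).2.2
      simp only at this
      omega
    simp [cfg, h1]
  have e3 : loS L M (fun x => cfg T1 x || cfg T2 x) = loS L M (cfg T2) := by
    unfold loS
    apply run_congr
    intro i _ m hm
    have h1 : ((i : ℤ), -1 - (m : ℤ)) ∉ T1 := by
      intro h1
      have := (mem_RF.1 (hT1 h1)).2.1
      simp only at this
      omega
    simp [lowC, cfg, h1]
  rw [e2, e3]

/-- The stationary law of the pair of states. -/
noncomputable def exSt (q : ℂ) (n : ℕ) (f : St → St → ℂ) : ℂ :=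
  (∑ s' ∈ anns (2 * n), ∑ s ∈ anns (2 * n),
    eval (fun _ => 1) (PsiS q n s') * eval (fun _ => 1) (PsiS q n s) * f s' s) /
    (∑ s ∈ anns (2 * n), eval (fun _ => 1) (PsiS q n s)) ^ 2

namespace TwoC

theorem isAnn_run' (ω : Cfg) (M : ℕ) {s : St} (hs : IsAnn L s) : IsAnn L (run L ω M s) := by
  induction M generalizing s with
  | zero => exact hs
  | succ M ih => exact ih (hs.trow _)

open Classical in
/-- The law of the state after `M` rows. -/
noncomputable def muM (L M : ℕ) (t : St) : ℂ :=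
  ((avgL L)^[M] (fun s => if s = t then 1 else 0)) (s0 L)

theorem iter_eq {n : ℕ} (M : ℕ) (h : St → ℂ) :
    ((avgL (2 * n))^[M] h) (s0 (2 * n)) = ∑ t ∈ anns (2 * n), muM (2 * n) M t * h t := by
  classical
  unfold muM
  rw [← ex_run]
  have e1 : ∀ t ∈ anns (2 * n), ((avgL (2 * n))^[M] (fun s => if s = t then 1 else 0))
      (s0 (2 * n)) * h t = ex (RF 0 ((2 * n : ℕ) : ℤ) 0 M) (fun ω =>
        (if run (2 * n) ω M (s0 (2 * n)) = t then (1 : ℂ) else 0) * h t) := by
    intro t _
    rw [← ex_run]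
    unfold ex
    rw [← sum_mul]
    ring
  rw [sum_congr rfl e1, ← ex_sum]
  apply ex_congr
  intro T _
  simp only [ite_mul, one_mul, zero_mul]
  rw [sum_ite_eq, if_pos]
  rw [mem_anns]
  exact isAnn_run' _ _ (isAnn_s0 (by omega))

theorem tendsto_muM {q : ℂ} (hq : q ^ 2 + q + 1 = 0) {n : ℕ}
    (h0 : ∑ s ∈ anns (2 * n), eval (fun _ => 1) (PsiS q n s) ≠ 0) {t : St}
    (ht : t ∈ anns (2 * n)) :
    Tendsto (fun M : ℕ => muM (2 * n) M t) atTop
      (𝓝 (eval (fun _ => 1) (PsiS q n t) / ∑ s ∈ anns (2 * n), eval (fun _ => 1) (PsiS q n s))) := by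
  classical
  have h1 := tendsto_avgL hq h0 (fun s => if s = t then (1 : ℂ) else 0)
  have e : ∑ s ∈ anns (2 * n), eval (fun _ => 1) (PsiS q n s) * (if s = t then (1 : ℂ) else 0) =
      eval (fun _ => 1) (PsiS q n t) := by
    simp only [mul_ite, mul_one, mul_zero]
    rw [sum_ite_eq' , if_pos ht]
  rw [e] at h1
  refine h1.congr fun M => ?_
  unfold muM
  congr 1

end TwoC

theorem tendsto_ex_two {q : ℂ} (hq : q ^ 2 + q + 1 = 0) {n : ℕ}
    (h0 : ∑ s ∈ anns (2 * n), eval (fun _ => 1) (PsiS q n s) ≠ 0) (f : St → St → ℂ) :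
    Tendsto (fun M : ℕ => ex (RF 0 ((2 * n : ℕ) : ℤ) (-M) M)
      (fun ω => f (upS (2 * n) M ω) (loS (2 * n) M ω))) atTop (𝓝 (exSt q n f)) := by
  have e1 : ∀ M : ℕ, ex (RF 0 ((2 * n : ℕ) : ℤ) (-M) M)
      (fun ω => f (upS (2 * n) M ω) (loS (2 * n) M ω)) =
      ∑ s' ∈ anns (2 * n), ∑ s ∈ anns (2 * n), muM (2 * n) M s' * muM (2 * n) M s * f s' s := by
    intro M
    rw [ex_two, iter_eq]
    refine sum_congr rfl fun s' _ => ?_
    rw [iter_eq, mul_sum]
    refine sum_congr rfl fun s _ => ?_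
    ring
  simp only [e1]
  unfold exSt
  rw [sum_div]
  refine tendsto_finsetSum _ fun s' hs' => ?_
  rw [sum_div]
  refine tendsto_finsetSum _ fun s hs => ?_
  have h1 := ((tendsto_muM hq h0 hs').mul (tendsto_muM hq h0 hs)).mul_const (f s' s)
  convert h1 using 2
  ring

open Classical in
/-- The lower bound for the two-arm probability. -/
theorem p2_ge_exSt {q : ℂ} (hq : q ^ 2 + q + 1 = 0) {n : ℕ} (hn : 0 < n)
    (h0 : ∑ s ∈ anns (2 * n), eval (fun _ => 1) (PsiS q n s) ≠ 0) :
    (exSt q n fun s' s => if NCat (2 * n) s' s 0 then 1 else 0).re ≤ p2 n := by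
  have h1 := tendsto_ex_two hq h0 (fun s' s => if NCat (2 * n) s' s 0 then 1 else 0)
  have h2 := (Complex.continuous_re.tendsto _).comp h1
  refine le_of_tendsto h2 ?_
  filter_upwards [eventually_ge_atTop n] with M hM
  simp only [Function.comp]
  rw [ex_indicator {ω : Cfg | NCat (2 * n) (upS (2 * n) M ω) (loS (2 * n) M ω) 0}
    (fun ω => if NCat (2 * n) (upS (2 * n) M ω) (loS (2 * n) M ω) 0 then 1 else 0)
    (fun ω hω => if_pos hω) (fun ω hω => if_neg hω), Complex.ofReal_re]
  have h3 : pr (RF 0 ((2 * n : ℕ) : ℤ) (-M) M)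
      {ω : Cfg | NCat (2 * n) (upS (2 * n) M ω) (loS (2 * n) M ω) 0} ≤
      pr (RF 0 ((2 * n : ℕ) : ℤ) (-M) M)
        {ω : Cfg | (fun x : ℤ × ℤ => ω (x.1 % ((2 * n : ℕ) : ℤ), x.2)) ∈ twoArm n} :=
    pr_mono _ fun ω hω => twoArm_of_ncAt hn hM ω hω
  refine h3.trans (le_of_eq ?_)
  refine pr_comp (S := RF (-(n : ℤ)) n (-n) n) (S' := RF 0 ((2 * n : ℕ) : ℤ) (-M) M)
    (f := fun x : ℤ × ℤ => (x.1 % ((2 * n : ℕ) : ℤ), x.2)) ?_ ?_ (depOn_twoArm n)
  · intro x hx x' hx' h
    rw [mem_coe, mem_RF] at hx hx'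
    simp only [Prod.mk.injEq] at h
    obtain ⟨h3, h4⟩ := h
    ext
    · have h6 : ((2 * n : ℕ) : ℤ) ∣ x.1 - x'.1 := by
        exact Int.dvd_of_emod_eq_zero (by rw [Int.sub_emod, h3]; simp)
      obtain ⟨c, hc⟩ := h6
      push_cast at hc
      have hc0 : c = 0 := by
        by_contra hne
        rcases lt_or_gt_of_ne hne with h7 | h7
        · nlinarith
        · nlinarith
      rw [hc0] at hc
      omega
    · exact h4
  · intro x hx
    rw [mem_RF] at hx ⊢
    refine ⟨⟨Int.emod_nonneg _ (by omega), Int.emod_lt_of_pos _ (by omega)⟩, ?_, ?_⟩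
    · have := hx.2.1
      simp only
      omega
    · have := hx.2.2
      simp only
      omega

end Pool.Agent.Perc

end PartperqTwoC
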