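import Pool.Agent.Lib.MP_6bd702_z.Z030
import Pool.Agent.Lib.MP_6bd702_z.Z046
import Pool.Agent.Lib.MP_6bd702_z.Z065
import Pool.Agent.Lib.MP_6bd702_z.Z028

section PartpercCylArmC

/-!
# A product (task CylArmC)
-/

set_option autoImplicit false

namespace Pool.Agent.Perc

open Finset Filter Topology

theorem CylArmC.cube_ge {r : ℕ} (hr : 0 < r) :
    1 / (4 * (3 * (r : ℝ) - 1)) ≤ (∏ k ∈ range r, ((3 * k + 1 : ℝ) / (3 * k + 2))) ^ 3 := by
  induction r, hr using Nat.le_induction with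
  | base => norm_num
  | succ r hr ih =>
    have hr1 : (1 : ℝ) ≤ r := by exact_mod_cast hr
    rw [prod_range_succ, mul_pow]
    have h1 : (3 * (r : ℝ) - 1) / (3 * r + 2) ≤ ((3 * (r : ℝ) + 1) / (3 * r + 2)) ^ 3 := by
      rw [div_pow, div_le_div_iff₀ (by positivity) (by positivity)]
      have h2 : (3 * (r : ℝ) - 1) * (3 * r + 2) ^ 2 ≤ (3 * (r : ℝ) + 1) ^ 3 := by nlinarith
      have h3 : (0 : ℝ) ≤ 3 * r + 2 := by positivity
      nlinarith [mul_le_mul_of_nonneg_right h2 h3]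
    have h4 : 0 < 3 * (r : ℝ) - 1 := by linarith
    have h5 : 1 / (4 * (3 * ((r + 1 : ℕ) : ℝ) - 1)) =
        1 / (4 * (3 * (r : ℝ) - 1)) * ((3 * (r : ℝ) - 1) / (3 * r + 2)) := by
      push_cast
      have h6 : (3 * ((r : ℝ) + 1) - 1) = 3 * r + 2 := by ring
      rw [h6]
      field_simp
    rw [h5]
    exact mul_le_mul ih h1 (by positivity) (by positivity)

theorem prod_ge {r : ℕ} (hr : 0 < r) :
    (1 / (4 * (3 * (r : ℝ) - 1))) ^ (1 / 3 : ℝ) ≤ ∏ k ∈ range r, ((3 * k + 1 : ℝ) / (3 * k + 2)) := by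
  have h0 : 0 ≤ ∏ k ∈ range r, ((3 * k + 1 : ℝ) / (3 * k + 2)) :=
    prod_nonneg fun k _ => by positivity
  have hr1 : (1 : ℝ) ≤ r := by exact_mod_cast hr
  have h1 := CylArmC.cube_ge hr
  have h2 : 0 ≤ 1 / (4 * (3 * (r : ℝ) - 1)) := by
    have : 0 < 3 * (r : ℝ) - 1 := by linarith
    positivity
  calc (1 / (4 * (3 * (r : ℝ) - 1))) ^ (1 / 3 : ℝ)
      ≤ ((∏ k ∈ range r, ((3 * k + 1 : ℝ) / (3 * k + 2))) ^ 3) ^ (1 / 3 : ℝ) :=
        Real.rpow_le_rpow h2 h1 (by norm_num)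
    _ = ∏ k ∈ range r, ((3 * k + 1 : ℝ) / (3 * k + 2)) := by
        rw [← Real.rpow_natCast, ← Real.rpow_mul h0]
        norm_num

end Pool.Agent.Perc

end PartpercCylArmC

section PartpercCylArm



end PartpercCylArm

section PartpercFluxDefs

/-!
# The conserved current: definitions

`q ^ 2 + q + 1 = 0`, `κ = - q ^ 2`. A pattern with a defect is a link pattern of `N + 1` sites; the
partner of the last site `N` is the position of the defect.
-/

set_option autoImplicit false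

namespace Pool.Agent.Perc

open Finset Function

/-- The total spin to the left minus the total spin to the right of `j`. -/
def Sj (N j : ℕ) (σ : ℕ → Bool) : ℤ :=
  ∑ k ∈ range j, sgn (σ k) - ∑ k ∈ Ico (j + 1) N, sgn (σ k)

/-- The current. -/
noncomputable def cur (q : ℂ) (N : ℕ) (z : ℕ → ℂ) (X : (ℕ → Bool) → ℂ) (σ : ℕ → Bool) : ℂ :=
  ∑ j ∈ range N, if σ j then 0 else z j * q ^ (Sj N j σ) * X (update σ j true)

/-- The matrix element of the `j`-th term of the current. -/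
noncomputable def Tj (q : ℂ) (N j : ℕ) (α β : ℕ → ℕ) : ℂ :=
  sumS N (fun σ => if σ j then 0 else Phi (-q ^ 2) (N + 1) α (update σ N true) * q ^ (Sj N j σ) *
    Phi (-q ^ 2) (N + 1) β (update (update σ j true) N false)) / (-q ^ 2) ^ ((N + 1) / 2)

end Pool.Agent.Perc

end PartpercFluxDefs
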