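import Pool.Agent.Lib.MP_6bd702_z.Z086

/-!
# The rectangle: soundness (task RectB)
-/

set_option autoImplicit false

namespace Pool.Agent.Perc

open Finset Function

variable {W n : ℕ}

theorem relB_equivalence (W n : ℕ) (ω : Cfg) : Equivalence (RelB W n ω) := by
  refine ⟨fun u => Or.inl Relation.ReflTransGen.refl, ?_, ?_⟩
  · rintro u v (h | ⟨h, h'⟩)
    · exact Or.inl h.symm
    · exact Or.inr ⟨h', h⟩
  · rintro u v w (h | ⟨h, h'⟩) (h1 | ⟨h1, h1'⟩)
    · exact Or.inl ((conn_equivalence _ _).trans h h1)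
    · obtain ⟨x, hx, hx'⟩ := h1
      exact Or.inr ⟨⟨x, (conn_equivalence _ _).trans h hx, hx'⟩, h1'⟩
    · obtain ⟨x, hx, hx'⟩ := h'
      exact Or.inr ⟨h, ⟨x, (conn_equivalence _ _).trans h1.symm hx, hx'⟩⟩
    · exact Or.inr ⟨h, h1'⟩

namespace RectB

variable {N : ℕ} {R : ℤ × ℤ → ℤ × ℤ → Prop} {p : ℕ → ℕ}

/-- Soundness: the left gap of a site is connected to the right gap of its partner. -/
def Snd (N : ℕ) (R : ℤ × ℤ → ℤ × ℤ → Prop) (p : ℕ → ℕ) (V : ℕ → ℤ × ℤ) : Prop :=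
  ∀ s < N, R (V s) (V (p s + 1))

theorem snd_congr (hR : Equivalence R) {m : ℕ} {V V' : ℕ → ℤ × ℤ}
    (h : Snd N R p V) (hV : ∀ k, k ≠ m → V' k = V k) (hm : R (V m) (V' m)) :
    Snd N R p V' := by
  have key : ∀ k : ℕ, R (V k) (V' k) := by
    intro k
    by_cases hk : k = m
    · subst hk; exact hm
    · rw [hV k hk]; exact hR.refl _
  intro x hx
  exact hR.trans (hR.symm (key x)) (hR.trans (h x hx) (key _))

/-- The action of a face. -/
theorem snd_eAct (hR : Equivalence R) (hs : NC N p) {i : ℕ} (hi : i + 1 < N)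
    {V V' : ℕ → ℤ × ℤ} (h : Snd N R p V)
    (hV : ∀ k, k ≠ i + 1 → V' k = V k) (hb : R (V i) (V (i + 2))) :
    Snd N R (eAct i p) V' := by
  intro x hx
  by_cases hx1 : x = i
  · subst hx1
    have e : eAct x p x = x + 1 := by simp [eAct]
    rw [e, hV x (by omega), hV (x + 1 + 1) (by omega)]
    exact hb
  by_cases hx2 : x = i + 1
  · subst hx2
    have e : eAct i p (i + 1) = i := by simp [eAct]
    rw [e]
    exact hR.refl _
  by_cases hx3 : p x = i
  · -- `x = a`
    have hxi : p i = x := by rw [← hx3]; exact hs.inv x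
    have e : eAct i p x = p (i + 1) := by simp [eAct, hx1, hx2, hx3]
    have hbne : p (i + 1) ≠ i := by
      intro h1
      have := hs.inv (i + 1)
      rw [h1, hxi] at this
      exact hx2 this
    rw [e, hV x hx2, hV (p (i + 1) + 1) (by omega)]
    have h1 := h x hx
    have h2 := h (i + 1) hi
    rw [hx3] at h1
    exact hR.trans h1 h2
  by_cases hx4 : p x = i + 1
  · -- `x = b`
    have hxi : p (i + 1) = x := by rw [← hx4]; exact hs.inv x
    have e : eAct i p x = p i := by simp [eAct, hx1, hx2, hx4]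
    have hane : p i ≠ i := hs.ne i (by omega)
    rw [e, hV x hx2, hV (p i + 1) (by omega)]
    have h1 := h x hx
    have h2 := h i (by omega)
    rw [hx4] at h1
    exact hR.trans h1 (hR.trans (hR.symm hb) h2)
  · have e : eAct i p x = p x := by simp [eAct, hx1, hx2, hx3, hx4]
    rw [e, hV x hx2, hV (p x + 1) (by omega)]
    exact h x hx

/-- The vertices of the path at level `h`, and the auxiliary vertex. -/
def Vx (W n h k : ℕ) : ℤ × ℤ := if k = W + n + 1 then (0, 0) else Vp W h k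

/-- The vertices of the intermediate paths. -/
def Vm (W n r i k : ℕ) : ℤ × ℤ :=
  if k = W + n + 1 then (0, 0)
  else if k ≤ r then (0, (k : ℤ))
  else if k ≤ r + i then ((k : ℤ) - r, (r : ℤ))
  else if k ≤ r + 1 + W then ((k : ℤ) - r - 1, (r : ℤ) + 1)
  else ((W : ℤ), (k : ℤ) - W)

theorem Vm_zero (W n r : ℕ) : Vm W n r 0 = Vx W n (r + 1) := by
  funext k
  unfold Vm Vx Vp
  split_ifs <;> first | rfl | (ext <;> simp <;> omega)

theorem Vm_W (W n r : ℕ) : Vm W n r W = Vx W n r := by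
  funext k
  unfold Vm Vx Vp
  split_ifs <;> first | rfl | (ext <;> simp <;> omega)

theorem Vm_ne (W n r i : ℕ) {k : ℕ} (hk : k ≠ r + i + 1) : Vm W n r (i + 1) k = Vm W n r i k := by
  unfold Vm
  split_ifs <;> first | rfl | (exfalso; omega)

theorem Vm_a {W n r i : ℕ} (hi : i < W) (hr : r < n) : Vm W n r i (r + i) = ((i : ℤ), (r : ℤ)) := by
  unfold Vm
  split_ifs <;> first | (exfalso; omega) | (ext <;> simp <;> omega)

theorem Vm_a' {W n r i : ℕ} (hi : i < W) (hr : r < n) :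
    Vm W n r (i + 1) (r + i) = ((i : ℤ), (r : ℤ)) := by
  rw [Vm_ne _ _ _ _ (by omega), Vm_a hi hr]

theorem Vm_b {W n r i : ℕ} (hi : i < W) (hr : r < n) :
    Vm W n r i (r + i + 1) = ((i : ℤ), (r : ℤ) + 1) := by
  unfold Vm
  split_ifs <;> first | (exfalso; omega) | (ext <;> simp <;> omega)

theorem Vm_b' {W n r i : ℕ} (hi : i < W) (hr : r < n) :
    Vm W n r (i + 1) (r + i + 1) = ((i : ℤ) + 1, (r : ℤ)) := by
  unfold Vm
  split_ifs <;> first | (exfalso; omega) | (ext <;> simp <;> omega)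

theorem Vm_c {W n r i : ℕ} (hi : i < W) (hr : r < n) :
    Vm W n r i (r + i + 2) = ((i : ℤ) + 1, (r : ℤ) + 1) := by
  unfold Vm
  split_ifs <;> first | (exfalso; omega) | (ext <;> simp <;> omega)

theorem Vm_c' {W n r i : ℕ} (hi : i < W) (hr : r < n) :
    Vm W n r (i + 1) (r + i + 2) = ((i : ℤ) + 1, (r : ℤ) + 1) := by
  rw [Vm_ne _ _ _ _ (by omega), Vm_c hi hr]

theorem bond_true {ω : Cfg} {r i : ℕ} (hi : i < W) (hr : r < n)
    (h : ω ((i : ℤ), (r : ℤ)) = true) :
    RelB W n ω ((i : ℤ), (r : ℤ)) ((i : ℤ) + 1, (r : ℤ) + 1) := by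
  left
  refine Relation.ReflTransGen.single ⟨(i : ℤ), (r : ℤ), ?_, Or.inl ⟨h, Or.inl ⟨rfl, rfl⟩⟩⟩
  simp only [RF, mem_coe, mem_product, mem_Ico]
  omega

theorem bond_false {ω : Cfg} {r i : ℕ} (hi : i < W) (hr : r < n)
    (h : ω ((i : ℤ), (r : ℤ)) = false) :
    RelB W n ω ((i : ℤ), (r : ℤ) + 1) ((i : ℤ) + 1, (r : ℤ)) := by
  left
  refine Relation.ReflTransGen.single ⟨(i : ℤ), (r : ℤ), ?_, Or.inr ⟨h, Or.inl ⟨rfl, rfl⟩⟩⟩
  simp only [RF, mem_coe, mem_product, mem_Ico]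
  omega

/-- The vertices of the lowest and the highest path are on the boundary. -/
theorem snd_bd {ω : Cfg} {V : ℕ → ℤ × ℤ} (hp : ∀ s < W + n + 1, p s < W + n + 1)
    (hV : ∀ k ≤ W + n + 1, OnBd 0 W 0 n (V k)) :
    Snd (W + n + 1) (RelB W n ω) p V := by
  intro s hs
  right
  exact ⟨⟨_, Relation.ReflTransGen.refl, hV s (by omega)⟩,
    ⟨_, Relation.ReflTransGen.refl, hV _ (hp s hs)⟩⟩

theorem onBd_top {k : ℕ} (hk : k ≤ W + n + 1) : OnBd 0 W 0 n (Vx W n n k) := by
  unfold Vx Vp OnBd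
  split_ifs <;> simp <;> omega

theorem onBd_bot {k : ℕ} (hk : k ≤ W + n + 1) : OnBd 0 W 0 n (Vx W n 0 k) := by
  unfold Vx Vp OnBd
  split_ifs <;> simp <;> omega

theorem snd_rowB {ω : Cfg} {r : ℕ} (hr : r < n) (hp : NC (W + n + 1) p)
    (h : Snd (W + n + 1) (RelB W n ω) p (Vx W n (r + 1))) {i : ℕ} (hi : i ≤ W) :
    NC (W + n + 1) (rowB ω r p i) ∧
    Snd (W + n + 1) (RelB W n ω) (rowB ω r p i) (Vm W n r i) := by
  induction i with
  | zero => exact ⟨hp, by rw [Vm_zero]; exact h⟩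
  | succ i ih =>
    obtain ⟨h1, h2⟩ := ih (by omega)
    have hR := relB_equivalence W n ω
    by_cases hw : ω ((i : ℤ), (r : ℤ)) = true
    · have e : rowB ω r p (i + 1) = eAct (r + i) (rowB ω r p i) := by simp [rowB, hw]
      rw [e]
      refine ⟨h1.eAct (by omega), snd_eAct hR h1 (by omega) h2 (fun k hk => Vm_ne W n r i hk) ?_⟩
      rw [Vm_a (by omega) hr, Vm_c (by omega) hr]
      exact bond_true (by omega) hr hw
    · have e : rowB ω r p (i + 1) = rowB ω r p i := by simp [rowB, hw]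
      rw [e]
      refine ⟨h1, snd_congr hR (m := r + i + 1) h2 (fun k hk => Vm_ne W n r i hk) ?_⟩
      rw [Vm_b (by omega) hr, Vm_b' (by omega) hr]
      exact bond_false (by omega) hr (by simpa using hw)

theorem snd_rowA {ω : Cfg} {r : ℕ} (hr : r < n) (hp : NC (W + n + 1) p)
    (h : Snd (W + n + 1) (RelB W n ω) p (Vx W n r)) {i : ℕ} (hi : i ≤ W) :
    NC (W + n + 1) (rowA W ω r p i) ∧
    Snd (W + n + 1) (RelB W n ω) (rowA W ω r p i) (Vm W n r (W - i)) := by
  induction i with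
  | zero => exact ⟨hp, by rw [Nat.sub_zero, Vm_W]; exact h⟩
  | succ i ih =>
    obtain ⟨h1, h2⟩ := ih (by omega)
    have hR := relB_equivalence W n ω
    have hj : W - i = W - 1 - i + 1 := by omega
    have hj' : W - (i + 1) = W - 1 - i := by omega
    rw [hj] at h2
    rw [hj']
    set j := W - 1 - i with hjd
    by_cases hw : ω ((j : ℤ), (r : ℤ)) = true
    · have e : rowA W ω r p (i + 1) = eAct (r + j) (rowA W ω r p i) := by
        simp [rowA, ← hjd, hw]
      rw [e]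
      refine ⟨h1.eAct (by omega),
        snd_eAct hR h1 (by omega) h2 (fun k hk => (Vm_ne W n r j hk).symm) ?_⟩
      rw [Vm_a' (by omega) hr, Vm_c' (by omega) hr]
      exact bond_true (by omega) hr hw
    · have e : rowA W ω r p (i + 1) = rowA W ω r p i := by simp [rowA, ← hjd, hw]
      rw [e]
      refine ⟨h1, snd_congr hR (m := r + j + 1) h2 (fun k hk => (Vm_ne W n r j hk).symm) ?_⟩
      rw [Vm_b (by omega) hr, Vm_b' (by omega) hr]
      exact hR.symm (bond_false (by omega) hr (by simpa using hw))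

theorem snd_bet (hW : W % 2 = 0) (hn : n % 2 = 1) (ω : Cfg) {k : ℕ} (hk : k ≤ n) :
    NC (W + n + 1) (bet W n ω k) ∧
    Snd (W + n + 1) (RelB W n ω) (bet W n ω k) (Vx W n (n - k)) := by
  induction k with
  | zero =>
    have hnc : NC (W + n + 1) (flatP 0 (W + n + 1)) := nc_flatP (by omega) rfl (by omega)
    exact ⟨hnc, snd_bd hnc.lt (fun k hk => onBd_top hk)⟩
  | succ k ih =>
    obtain ⟨h1, h2⟩ := ih (by omega)
    have e : n - k = n - 1 - k + 1 := by omega
    have e' : n - (k + 1) = n - 1 - k := by omega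
    rw [e] at h2
    rw [e']
    obtain ⟨h3, h4⟩ := snd_rowB (by omega) h1 h2 (le_refl W)
    rw [Vm_W] at h4
    exact ⟨h3, h4⟩

theorem snd_alp (hW : W % 2 = 0) (hn : n % 2 = 1) (ω : Cfg) {h : ℕ} (hh : h ≤ n) :
    NC (W + n + 1) (alp W n ω h) ∧
    Snd (W + n + 1) (RelB W n ω) (alp W n ω h) (Vx W n h) := by
  induction h with
  | zero =>
    have hnc : NC (W + n + 1) (flatP W (W + n + 1)) := nc_flatP (by omega) hW (by omega)
    exact ⟨hnc, snd_bd hnc.lt (fun k hk => onBd_bot hk)⟩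
  | succ h ih =>
    obtain ⟨h1, h2⟩ := ih (by omega)
    obtain ⟨h3, h4⟩ := snd_rowA (by omega) h1 h2 (le_refl W)
    rw [Nat.sub_self, Vm_zero] at h4
    exact ⟨h3, h4⟩

theorem sound_of_snd {ω : Cfg} {h : ℕ} (hp : NC (W + n + 1) p)
    (hs' : Snd (W + n + 1) (RelB W n ω) p (Vx W n h)) {s : ℕ} (hs : s < W + n) :
    RelB W n ω (Vp W h s) (if p s = W + n then (0, 0) else Vp W h (p s + 1)) ∧
    RelB W n ω (Vp W h (W + n)) (Vp W h (p (W + n) + 1)) := by
  constructor
  · have h1 := hs' s (by omega)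
    have e1 : Vx W n h s = Vp W h s := if_neg (by omega)
    rw [e1] at h1
    split_ifs with h2
    · have e2 : Vx W n h (p s + 1) = (0, 0) := if_pos (by omega)
      rwa [e2] at h1
    · have e2 : Vx W n h (p s + 1) = Vp W h (p s + 1) := if_neg (by omega)
      rwa [e2] at h1
  · have h1 := hs' (W + n) (by omega)
    have h2 := hp.lt (W + n) (by omega)
    have h3 := hp.ne (W + n) (by omega)
    have e1 : Vx W n h (W + n) = Vp W h (W + n) := if_neg (by omega)
    have e2 : Vx W n h (p (W + n) + 1) = Vp W h (p (W + n) + 1) := if_neg (by omega)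
    rwa [e1, e2] at h1

end RectB

open RectB

/-- Soundness above the level `h`. -/
theorem sound_bet (hW : W % 2 = 0) (hn : n % 2 = 1) (ω : Cfg) {h : ℕ} (hh : h ≤ n) {s : ℕ}
    (hs : s < W + n) :
    RelB W n ω (Vp W h s) (if bet W n ω (n - h) s = W + n then (0, 0)
      else Vp W h (bet W n ω (n - h) s + 1)) ∧
    RelB W n ω (Vp W h (W + n)) (Vp W h (bet W n ω (n - h) (W + n) + 1)) := by
  obtain ⟨h1, h2⟩ := snd_bet hW hn ω (Nat.sub_le n h)
  rw [show n - (n - h) = h by omega] at h2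
  exact sound_of_snd h1 h2 hs

/-- Soundness below the level `h`. -/
theorem sound_alp (hW : W % 2 = 0) (hn : n % 2 = 1) (ω : Cfg) {h : ℕ} (hh : h ≤ n) {s : ℕ}
    (hs : s < W + n) :
    RelB W n ω (Vp W h s) (if alp W n ω h s = W + n then (0, 0)
      else Vp W h (alp W n ω h s + 1)) ∧
    RelB W n ω (Vp W h (W + n)) (Vp W h (alp W n ω h (W + n) + 1)) := by
  obtain ⟨h1, h2⟩ := snd_alp hW hn ω hh
  exact sound_of_snd h1 h2 hs

end Pool.Agent.Perc
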