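import Pool.Agent.Lib.MP_6bd702_z.Z086

/-!
# The rectangle: completeness (task RectC)
-/

set_option autoImplicit false

namespace Pool.Agent.Perc

open Finset Function

variable {W n : ℕ}

namespace RectC

/-- The vertices of the intermediate paths. -/
def Vm (W r i k : ℕ) : ℤ × ℤ :=
  if k ≤ r then (0, (k : ℤ))
  else if k ≤ r + i then ((k : ℤ) - r, (r : ℤ))
  else if k ≤ r + 1 + W then ((k : ℤ) - r - 1, (r : ℤ) + 1)
  else ((W : ℤ), (k : ℤ) - W)

theorem Vm_zero (W r : ℕ) : Vm W r 0 = Vp W (r + 1) := by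
  funext k
  unfold Vm Vp
  split_ifs <;> first | rfl | (ext <;> simp <;> omega)

theorem Vm_W (W r : ℕ) : Vm W r W = Vp W r := by
  funext k
  unfold Vm Vp
  split_ifs <;> first | rfl | (ext <;> simp <;> omega)

theorem Vm_ne (W r i : ℕ) {k : ℕ} (hk : k ≠ r + i + 1) : Vm W r (i + 1) k = Vm W r i k := by
  unfold Vm
  split_ifs <;> first | rfl | (exfalso; omega)

theorem Vm_a (W r i : ℕ) : Vm W r i (r + i) = ((i : ℤ), (r : ℤ)) := by
  unfold Vm
  split_ifs <;> first | (exfalso; omega) | (ext <;> simp <;> omega)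

theorem Vm_b {W r i : ℕ} (hi : i < W) : Vm W r i (r + i + 1) = ((i : ℤ), (r : ℤ) + 1) := by
  unfold Vm
  split_ifs <;> first | (exfalso; omega) | (ext <;> simp <;> omega)

theorem Vm_b' (W r i : ℕ) :
    Vm W r (i + 1) (r + i + 1) = ((i : ℤ) + 1, (r : ℤ)) := by
  unfold Vm
  split_ifs <;> first | (exfalso; omega) | (ext <;> simp <;> omega)

theorem Vm_c {W r i : ℕ} (hi : i < W) :
    Vm W r i (r + i + 2) = ((i : ℤ) + 1, (r : ℤ) + 1) := by
  unfold Vm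
  split_ifs <;> first | (exfalso; omega) | (ext <;> simp <;> omega)

/-- The faces which are processed before the face `(i, r)`. -/
def FD (W n r i : ℕ) : Set (ℤ × ℤ) :=
  {f | 0 ≤ f.1 ∧ f.1 < W ∧ f.2 < n ∧ ((r : ℤ) < f.2 ∨ (f.2 = r ∧ f.1 < i))}

/-- The vertices which are not yet touched. -/
def Fresh (r i : ℕ) (w : ℤ × ℤ) : Prop := 1 ≤ w.1 ∧ (w.2 < r ∨ (w.2 = r ∧ (i : ℤ) < w.1))

theorem not_fresh (W r i k : ℕ) : ¬ Fresh r i (Vm W r i k) := by
  unfold Fresh Vm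
  split_ifs <;> simp only [not_and_or, not_or] <;> omega

/-- The invariant: a labelling of the vertices by representatives. -/
structure Inv (W n : ℕ) (ω : Cfg) (p : ℕ → ℕ) (r i : ℕ) (c : ℤ × ℤ → ℤ × ℤ) : Prop where
  nc : NC (W + n + 1) p
  bond : ∀ u v, Bond ω (FD W n r i) u v → c u = c v
  top : ∀ x : ℤ, 0 ≤ x → x ≤ W → (x + n) % 2 = 1 → c (x, (n : ℤ)) = c ((W : ℤ), (n : ℤ))
  sep : ∀ k l, k ≤ W + n → l ≤ W + n → c (Vm W r i k) = c (Vm W r i l) → Geq (W + n + 1) p k l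
  fix : ∀ w, Fresh r i w → c w = w
  only : ∀ w u, Fresh r i w → c u = w → u = w

theorem bond_ne {ω : Cfg} {F : Set (ℤ × ℤ)} {u v : ℤ × ℤ} (h : Bond ω F u v) : u ≠ v := by
  rintro rfl
  obtain ⟨x, y, -, ⟨-, ⟨h1, h2⟩ | ⟨h1, h2⟩⟩ | ⟨-, ⟨h1, h2⟩ | ⟨h1, h2⟩⟩⟩ := h <;>
  · rw [h1, Prod.mk.injEq] at h2
    omega

theorem bond_symm {ω : Cfg} {F : Set (ℤ × ℤ)} {u v : ℤ × ℤ} (h : Bond ω F u v) :
    Bond ω F v u := by
  obtain ⟨x, y, hF, ⟨h0, ⟨h1, h2⟩ | ⟨h1, h2⟩⟩ | ⟨h0, ⟨h1, h2⟩ | ⟨h1, h2⟩⟩⟩ := h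
  · exact ⟨x, y, hF, Or.inl ⟨h0, Or.inr ⟨h2, h1⟩⟩⟩
  · exact ⟨x, y, hF, Or.inl ⟨h0, Or.inl ⟨h2, h1⟩⟩⟩
  · exact ⟨x, y, hF, Or.inr ⟨h0, Or.inr ⟨h2, h1⟩⟩⟩
  · exact ⟨x, y, hF, Or.inr ⟨h0, Or.inl ⟨h2, h1⟩⟩⟩

/-- A bond of the processed faces is old or the bond of the face `(i, r)`. -/
theorem bond_succ {ω : Cfg} {r i : ℕ} {u v : ℤ × ℤ} (h : Bond ω (FD W n r (i + 1)) u v) :
    Bond ω (FD W n r i) u v ∨
      (ω ((i : ℤ), (r : ℤ)) = true ∧
        ((u = ((i : ℤ), (r : ℤ)) ∧ v = ((i : ℤ) + 1, (r : ℤ) + 1)) ∨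
          (u = ((i : ℤ) + 1, (r : ℤ) + 1) ∧ v = ((i : ℤ), (r : ℤ))))) ∨
      (ω ((i : ℤ), (r : ℤ)) = false ∧
        ((u = ((i : ℤ), (r : ℤ) + 1) ∧ v = ((i : ℤ) + 1, (r : ℤ))) ∨
          (u = ((i : ℤ) + 1, (r : ℤ)) ∧ v = ((i : ℤ), (r : ℤ) + 1)))) := by
  obtain ⟨x, y, hF, h0⟩ := h
  by_cases hxy : x = i ∧ y = r
  · obtain ⟨rfl, rfl⟩ := hxy
    right
    rcases h0 with ⟨h0, h1⟩ | ⟨h0, h1⟩
    · exact Or.inl ⟨h0, h1⟩
    · exact Or.inr ⟨h0, h1⟩
  · left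
    refine ⟨x, y, ?_, h0⟩
    obtain ⟨h1, h2, h3, h4⟩ := hF
    simp only [Nat.cast_add, Nat.cast_one] at h1 h2 h3 h4
    refine ⟨h1, h2, h3, ?_⟩
    change (r : ℤ) < y ∨ (y = r ∧ x < i)
    omega

variable {ω : Cfg} {p : ℕ → ℕ} {r i : ℕ} {c : ℤ × ℤ → ℤ × ℤ}

theorem fresh_new (r i : ℕ) : Fresh r i ((i : ℤ) + 1, (r : ℤ)) := by
  refine ⟨?_, Or.inr ⟨rfl, ?_⟩⟩
  · change (1 : ℤ) ≤ (i : ℤ) + 1
    omega
  · change (i : ℤ) < (i : ℤ) + 1
    omega

theorem fresh_of_succ {w : ℤ × ℤ} (h : Fresh r (i + 1) w) :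
    Fresh r i w ∧ w ≠ ((i : ℤ) + 1, (r : ℤ)) := by
  unfold Fresh at *
  refine ⟨by push_cast at h; omega, ?_⟩
  rintro rfl
  simp only at h
  push_cast at h
  omega

/-- An old bond does not touch the fresh vertices. -/
theorem Inv.old (h : Inv W n ω p r i c) {u v : ℤ × ℤ} (hb : Bond ω (FD W n r i) u v)
    {w : ℤ × ℤ} (hw : Fresh r i w) : u ≠ w ∧ v ≠ w := by
  have hc := h.bond u v hb
  constructor
  · rintro rfl
    rw [h.fix u hw] at hc
    exact bond_ne hb (h.only u v hw hc.symm).symm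
  · rintro rfl
    rw [h.fix v hw] at hc
    exact bond_ne hb (h.only v u hw hc)

open Classical in
/-- A face whose bond joins the old and the new vertex. -/
theorem Inv.step_false (h : Inv W n ω p r i c) (hi : i < W) (hr : r < n)
    (hω : ω ((i : ℤ), (r : ℤ)) = false) :
    ∃ c', Inv W n ω p r (i + 1) c' := by
  set w₀ : ℤ × ℤ := ((i : ℤ) + 1, (r : ℤ)) with hw₀
  have hf := fresh_new r i
  rw [← hw₀] at hf
  have hVne : ∀ k, Vm W r i k ≠ w₀ := fun k hk => not_fresh W r i k (hk ▸ hf)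
  refine ⟨update c w₀ (c ((i : ℤ), (r : ℤ) + 1)), h.nc, ?_, ?_, ?_, ?_, ?_⟩
  · intro u v hb
    rcases bond_succ hb with hb | ⟨h0, -⟩ | ⟨-, ⟨rfl, rfl⟩ | ⟨rfl, rfl⟩⟩
    · obtain ⟨h1, h2⟩ := h.old hb hf
      rw [update_of_ne h1, update_of_ne h2]
      exact h.bond u v hb
    · rw [hω] at h0
      exact absurd h0 (by simp)
    · rw [update_self, update_of_ne]
      rw [hw₀]
      intro h1
      rw [Prod.mk.injEq] at h1
      omega
    · rw [update_self, update_of_ne]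
      rw [hw₀]
      intro h1
      rw [Prod.mk.injEq] at h1
      omega
  · intro x hx0 hxW hx
    have h1 : ∀ y : ℤ, (y, (n : ℤ)) ≠ w₀ := by
      intro y h1
      rw [hw₀, Prod.mk.injEq] at h1
      omega
    rw [update_of_ne (h1 x), update_of_ne (h1 _)]
    exact h.top x hx0 hxW hx
  · have key : ∀ k, update c w₀ (c ((i : ℤ), (r : ℤ) + 1)) (Vm W r (i + 1) k)
        = c (Vm W r i k) := by
      intro k
      by_cases hk : k = r + i + 1
      · subst hk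
        rw [Vm_b hi, Vm_b' W r i, ← hw₀, update_self]
      · rw [Vm_ne W r i hk, update_of_ne (hVne k)]
    intro k l hk hl hkl
    rw [key, key] at hkl
    exact h.sep k l hk hl hkl
  · intro w hw
    obtain ⟨h1, h2⟩ := fresh_of_succ hw
    rw [update_of_ne h2]
    exact h.fix w h1
  · intro w u hw hu
    obtain ⟨h1, h2⟩ := fresh_of_succ hw
    by_cases hu0 : u = w₀
    · subst hu0
      rw [update_self] at hu
      have h3 := h.only w _ h1 hu
      exfalso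
      apply not_fresh W r i (r + i + 1)
      rw [Vm_b hi, h3]
      exact h1
    · rw [update_of_ne hu0] at hu
      exact h.only w u h1 hu

open Classical in
/-- A face whose bond joins the two neighbours of the old vertex. -/
theorem Inv.step_true (h : Inv W n ω p r i c) (hi : i < W) (hr : r < n)
    (hω : ω ((i : ℤ), (r : ℤ)) = true) :
    ∃ c', Inv W n ω (eAct (r + i) p) r (i + 1) c' := by
  set w₀ : ℤ × ℤ := ((i : ℤ) + 1, (r : ℤ)) with hw₀
  have hf := fresh_new r i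
  rw [← hw₀] at hf
  have hVne : ∀ k, Vm W r i k ≠ w₀ := fun k hk => not_fresh W r i k (hk ▸ hf)
  have hVfr : ∀ k w, Fresh r i w → c (Vm W r i k) ≠ w := fun k w hw hk =>
    not_fresh W r i k ((h.only w _ hw hk) ▸ hw)
  set A := c ((i : ℤ), (r : ℤ)) with hA
  set B := c ((i : ℤ) + 1, (r : ℤ) + 1) with hB
  have hA' : A = c (Vm W r i (r + i)) := by rw [Vm_a W r i]
  have hB' : B = c (Vm W r i (r + i + 2)) := by rw [Vm_c hi]
  have hnc' : NC (W + n + 1) (eAct (r + i) p) := h.nc.eAct (by omega)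
  have hgeq : Geq (W + n + 1) (eAct (r + i) p) (r + i) (r + i + 2) := geq_eAct h.nc (by omega)
  set c' : ℤ × ℤ → ℤ × ℤ := fun u => if c u = A then B else c u with hc'
  have hcong : ∀ u v, c u = c v → c' u = c' v := by
    intro u v huv
    simp only [hc', huv]
  refine ⟨c', hnc', ?_, ?_, ?_, ?_, ?_⟩
  · intro u v hb
    have hAB : c' ((i : ℤ), (r : ℤ)) = c' ((i : ℤ) + 1, (r : ℤ) + 1) := by
      simp only [hc', ← hA, ← hB, if_true]
      split_ifs <;> rfl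
    rcases bond_succ hb with hb | ⟨-, ⟨rfl, rfl⟩ | ⟨rfl, rfl⟩⟩ | ⟨h0, -⟩
    · exact hcong u v (h.bond u v hb)
    · exact hAB
    · exact hAB.symm
    · rw [hω] at h0
      exact absurd h0 (by simp)
  · intro x hx0 hxW hx
    exact hcong _ _ (h.top x hx0 hxW hx)
  · have hnew : ∀ k, k ≠ r + i + 1 → c' (Vm W r i k) ≠ w₀ := by
      intro k _ hk
      simp only [hc'] at hk
      split_ifs at hk with h1
      · exact hVfr _ _ hf (hB' ▸ hk)
      · exact hVfr _ _ hf hk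
    have hself : c' w₀ = w₀ := by
      have h1 : c w₀ = w₀ := h.fix w₀ hf
      simp only [hc', h1]
      rw [if_neg]
      intro h2
      exact hVfr (r + i) w₀ hf (by rw [← hA', ← h2])
    intro k l hk hl hkl
    by_cases hk1 : k = r + i + 1
    · by_cases hl1 : l = r + i + 1
      · rw [hk1, hl1]
        exact Geq.refl _ _ _
      · exfalso
        rw [hk1, Vm_b' W r i, ← hw₀, hself, Vm_ne W r i hl1] at hkl
        exact hnew l hl1 hkl.symm
    · by_cases hl1 : l = r + i + 1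
      · exfalso
        rw [hl1, Vm_b' W r i, ← hw₀, hself, Vm_ne W r i hk1] at hkl
        exact hnew k hk1 hkl
      · rw [Vm_ne W r i hk1, Vm_ne W r i hl1] at hkl
        have hj : r + i ≤ W + n := by omega
        have hj2 : r + i + 2 ≤ W + n := by omega
        have lift : ∀ a b, a ≠ r + i + 1 → b ≠ r + i + 1 → Geq (W + n + 1) p a b →
            Geq (W + n + 1) (eAct (r + i) p) a b :=
          fun a b ha hb hab => Geq.eAct h.nc (by omega) ha hb hab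
        simp only [hc'] at hkl
        by_cases hkA : c (Vm W r i k) = A
        · by_cases hlA : c (Vm W r i l) = A
          · exact lift k l hk1 hl1 (h.sep k l hk hl (hkA.trans hlA.symm))
          · rw [if_pos hkA, if_neg hlA] at hkl
            have h1 := lift k (r + i) hk1 (by omega) (h.sep k (r + i) hk hj (hkA.trans hA'))
            have h2 := lift (r + i + 2) l (by omega) hl1
              (h.sep (r + i + 2) l hj2 hl (hB'.symm.trans hkl))
            exact (h1.trans hgeq).trans h2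
        · by_cases hlA : c (Vm W r i l) = A
          · rw [if_neg hkA, if_pos hlA] at hkl
            have h1 := lift l (r + i) hl1 (by omega) (h.sep l (r + i) hl hj (hlA.trans hA'))
            have h2 := lift (r + i + 2) k (by omega) hk1
              (h.sep (r + i + 2) k hj2 hk (hB'.symm.trans hkl.symm))
            exact ((h1.trans hgeq).trans h2).symm
          · rw [if_neg hkA, if_neg hlA] at hkl
            exact lift k l hk1 hl1 (h.sep k l hk hl hkl)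
  · intro w hw
    obtain ⟨h1, -⟩ := fresh_of_succ hw
    have h2 := h.fix w h1
    simp only [hc', h2]
    rw [if_neg]
    intro h3
    exact hVfr (r + i) w h1 (by rw [← hA', ← h3])
  · intro w u hw hu
    obtain ⟨h1, -⟩ := fresh_of_succ hw
    simp only [hc'] at hu
    split_ifs at hu with h3
    · exact absurd (hB' ▸ hu) (hVfr _ w h1)
    · exact h.only w u h1 hu

/-- One row. -/
theorem Inv.row (h : ∃ c, Inv W n ω p r 0 c) (hr : r < n) {i : ℕ} (hi : i ≤ W) :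
    ∃ c, Inv W n ω (rowB ω r p i) r i c := by
  induction i with
  | zero => exact h
  | succ i ih =>
    obtain ⟨c, hc⟩ := ih (by omega)
    by_cases hw : ω ((i : ℤ), (r : ℤ)) = true
    · have e : rowB ω r p (i + 1) = eAct (r + i) (rowB ω r p i) := by simp [rowB, hw]
      rw [e]
      exact hc.step_true (by omega) hr hw
    · have e : rowB ω r p (i + 1) = rowB ω r p i := by simp [rowB, hw]
      rw [e]
      exact hc.step_false (by omega) hr (by simpa using hw)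

/-- From the end of a row to the beginning of the next one. -/
theorem Inv.next (h : Inv W n ω p (r + 1) W c) : Inv W n ω p r 0 c := by
  refine ⟨h.nc, ?_, h.top, ?_, ?_, ?_⟩
  · intro u v hb
    apply h.bond u v
    obtain ⟨x, y, hF, h0⟩ := hb
    refine ⟨x, y, ?_, h0⟩
    obtain ⟨h1, h2, h3, h4⟩ := hF
    refine ⟨h1, h2, h3, ?_⟩
    simp only [Nat.cast_zero] at h1 h2 h3 h4
    change ((r + 1 : ℕ) : ℤ) < y ∨ (y = ((r + 1 : ℕ) : ℤ) ∧ x < W)
    push_cast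
    omega
  · intro k l hk hl
    rw [Vm_zero, ← Vm_W]
    exact h.sep k l hk hl
  · intro w hw
    apply h.fix w
    unfold Fresh at *
    push_cast at *
    omega
  · intro w u hw
    apply h.only w u
    unfold Fresh at *
    push_cast at *
    omega

open Classical in
/-- The labelling at the beginning. -/
noncomputable def c0 (W n : ℕ) (u : ℤ × ℤ) : ℤ × ℤ :=
  if (u.1 = 0 ∨ u.2 = n) ∧ 0 ≤ u.1 ∧ u.1 ≤ W ∧ 0 ≤ u.2 ∧ u.2 ≤ n ∧ (u.1 + u.2) % 2 = 1 then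
    ((W : ℤ), (n : ℤ)) else u

theorem c0_eq {u : ℤ × ℤ} (h : (u.1 = 0 ∨ u.2 = n) ∧ 0 ≤ u.1 ∧ u.1 ≤ W ∧ 0 ≤ u.2 ∧ u.2 ≤ n ∧
    (u.1 + u.2) % 2 = 1) : c0 W n u = ((W : ℤ), (n : ℤ)) := if_pos h

theorem c0_ne {u : ℤ × ℤ} (h : ¬ ((u.1 = 0 ∨ u.2 = n) ∧ 0 ≤ u.1 ∧ u.1 ≤ W ∧ 0 ≤ u.2 ∧ u.2 ≤ n ∧
    (u.1 + u.2) % 2 = 1)) : c0 W n u = u := if_neg h

theorem geq_flat (hW : W % 2 = 0) (hn : n % 2 = 1) {k l : ℕ} (hk : k ≤ W + n) (hl : l ≤ W + n)
    (hk1 : k % 2 = 1) (hl1 : l % 2 = 1) : Geq (W + n + 1) (flatP 0 (W + n + 1)) k l := by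
  intro x hx
  unfold flatP
  split_ifs <;> omega

/-- The vertices of the path at the top. -/
theorem Vp_top {k : ℕ} (hk : k ≤ W + n) :
    (k ≤ n ∧ Vp W n k = (0, (k : ℤ))) ∨ (n < k ∧ Vp W n k = ((k : ℤ) - n, (n : ℤ))) := by
  unfold Vp
  split_ifs with h1 h2
  · exact Or.inl ⟨h1, rfl⟩
  · exact Or.inr ⟨by omega, rfl⟩
  · omega

theorem c0_Vp_odd (hW : W % 2 = 0) (hn : n % 2 = 1) {k : ℕ} (hk : k ≤ W + n) (hk1 : k % 2 = 1) :
    c0 W n (Vp W n k) = ((W : ℤ), (n : ℤ)) := by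
  apply c0_eq
  rcases Vp_top hk with ⟨h1, h2⟩ | ⟨h1, h2⟩ <;> rw [h2] <;> dsimp only <;> omega

theorem c0_Vp_even (hW : W % 2 = 0) (hn : n % 2 = 1) {k : ℕ} (hk : k ≤ W + n) (hk1 : k % 2 = 0) :
    c0 W n (Vp W n k) = Vp W n k := by
  apply c0_ne
  rcases Vp_top hk with ⟨h1, h2⟩ | ⟨h1, h2⟩ <;> rw [h2] <;> dsimp only <;> omega

theorem Vp_inj {k l : ℕ} (hk : k ≤ W + n) (hl : l ≤ W + n) (h : Vp W n k = Vp W n l) : k = l := by
  rcases Vp_top hk with ⟨h1, h2⟩ | ⟨h1, h2⟩ <;> rcases Vp_top hl with ⟨h3, h4⟩ | ⟨h3, h4⟩ <;>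
    rw [h2, h4, Prod.mk.injEq] at h <;> omega

theorem Vp_ne_corner (hW : W % 2 = 0) (hn : n % 2 = 1) {k : ℕ} (hk : k ≤ W + n)
    (hk1 : k % 2 = 0) : Vp W n k ≠ ((W : ℤ), (n : ℤ)) := by
  intro h
  rcases Vp_top hk with ⟨h1, h2⟩ | ⟨h1, h2⟩ <;> rw [h2, Prod.mk.injEq] at h <;> omega

theorem Inv.init (hW : W % 2 = 0) (hn : n % 2 = 1) (ω : Cfg) :
    Inv W n ω (flatP 0 (W + n + 1)) (n - 1) 0 (c0 W n) := by
  have hn1 : n - 1 + 1 = n := by omega
  refine ⟨nc_flatP (by omega) rfl (by omega), ?_, ?_, ?_, ?_, ?_⟩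
  · rintro u v ⟨x, y, ⟨h1, h2, h3, h4⟩, -⟩
    exfalso
    dsimp only at h1 h2 h3 h4
    omega
  · intro x hx0 hxW hx
    rw [c0_eq, c0_eq] <;> dsimp only <;> omega
  · intro k l hk hl hkl
    rw [Vm_zero, hn1] at hkl
    rcases Nat.mod_two_eq_zero_or_one k with hk1 | hk1 <;>
    rcases Nat.mod_two_eq_zero_or_one l with hl1 | hl1
    · rw [c0_Vp_even hW hn hk hk1, c0_Vp_even hW hn hl hl1] at hkl
      rw [Vp_inj hk hl hkl]
      exact Geq.refl _ _ _
    · rw [c0_Vp_even hW hn hk hk1, c0_Vp_odd hW hn hl hl1] at hkl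
      exact absurd hkl (Vp_ne_corner hW hn hk hk1)
    · rw [c0_Vp_odd hW hn hk hk1, c0_Vp_even hW hn hl hl1] at hkl
      exact absurd hkl.symm (Vp_ne_corner hW hn hl hl1)
    · exact geq_flat hW hn hk hl hk1 hl1
  · intro w hw
    apply c0_ne
    unfold Fresh at hw
    omega
  · intro w u hw hu
    unfold Fresh at hw
    by_cases h : (u.1 = 0 ∨ u.2 = n) ∧ 0 ≤ u.1 ∧ u.1 ≤ W ∧ 0 ≤ u.2 ∧ u.2 ≤ n ∧
        (u.1 + u.2) % 2 = 1
    · rw [c0_eq h] at hu
      rw [← hu] at hw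
      dsimp only at hw
      exfalso
      omega
    · rwa [c0_ne h] at hu

theorem Inv.bet (hW : W % 2 = 0) (hn : n % 2 = 1) (ω : Cfg) {k : ℕ} (hk : k < n) :
    ∃ c, Inv W n ω (bet W n ω k) (n - 1 - k) 0 c := by
  induction k with
  | zero => exact ⟨_, Inv.init hW hn ω⟩
  | succ k ih =>
    obtain ⟨c, hc⟩ := Inv.row (ih (by omega)) (by omega) (le_refl W)
    have e : n - 1 - k = n - 1 - (k + 1) + 1 := by omega
    refine ⟨c, Inv.next ?_⟩
    rw [← e]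
    exact hc

end RectC

open RectC

/-- Completeness: two gaps of the lower and right sides which are connected (all the odd vertices
of the left and upper sides being identified) are in the same region. -/
theorem complete_bet (hW : W % 2 = 0) (hn : n % 2 = 1) (ω : Cfg) :
    ∃ c : ℤ × ℤ → ℤ × ℤ, (∀ u v, Bond ω (RF 0 W 0 n) u v → c u = c v) ∧
      (∀ x : ℤ, 0 ≤ x → x ≤ W → (x + n) % 2 = 1 → c (x, (n : ℤ)) = c ((W : ℤ), (n : ℤ))) ∧
      ∀ k l, k ≤ W + n → l ≤ W + n → c (Vp W 0 k) = c (Vp W 0 l) →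
        Geq (W + n + 1) (bet W n ω n) k l := by
  have h0 : n - 1 - (n - 1) = 0 := Nat.sub_self _
  have h1 := Inv.bet hW hn ω (k := n - 1) (by omega)
  rw [h0] at h1
  obtain ⟨c, hc⟩ := Inv.row h1 (by omega) (le_refl W)
  have e : rowB ω 0 (bet W n ω (n - 1)) W = bet W n ω n := by
    have e1 : bet W n ω (n - 1 + 1) = rowB ω (n - 1 - (n - 1)) (bet W n ω (n - 1)) W := rfl
    rw [h0] at e1
    rw [← e1]
    congr 1
    omega
  rw [e] at hc
  refine ⟨c, ?_, hc.top, ?_⟩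
  · rintro u v ⟨x, y, hF, h2⟩
    refine hc.bond u v ⟨x, y, ?_, h2⟩
    simp only [RF, mem_coe, mem_product, mem_Ico] at hF
    refine ⟨hF.1.1, hF.1.2, hF.2.2, ?_⟩
    change ((0 : ℕ) : ℤ) < y ∨ (y = ((0 : ℕ) : ℤ) ∧ x < (W : ℤ))
    push_cast
    omega
  · intro k l hk hl hkl
    refine hc.sep k l hk hl ?_
    rw [Vm_W]
    exact hkl

end Pool.Agent.Perc
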