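import Pool.Agent.Lib.MP_6bd702_z.Z086

/-!
# The rectangle: the current is conserved (task RectA)
-/

set_option autoImplicit false

namespace Pool.Agent.Perc

open Finset Function

variable {W n : ℕ}

namespace RectA

theorem nc_rowB {N r : ℕ} {p : ℕ → ℕ} (hp : NC N p) (ω : Cfg) :
    ∀ i, r + i < N → NC N (rowB ω r p i) := by
  intro i
  induction i with
  | zero => intro _; exact hp
  | succ i ih =>
    intro hi
    rw [rowB]
    split_ifs
    · exact (ih (by omega)).eAct (by omega)
    · exact ih (by omega)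

theorem nc_rowA {N r : ℕ} {p : ℕ → ℕ} (hp : NC N p) (hN : r + W < N) (ω : Cfg) :
    ∀ i, i ≤ W → NC N (rowA W ω r p i) := by
  intro i
  induction i with
  | zero => intro _; exact hp
  | succ i ih =>
    intro hi
    rw [rowA]
    split_ifs
    · exact (ih (by omega)).eAct (by omega)
    · exact ih (by omega)

theorem rowB_congr {ω ω' : Cfg} {r : ℕ} (p : ℕ → ℕ) :
    ∀ i, (∀ j : ℕ, j < i → ω ((j : ℤ), (r : ℤ)) = ω' ((j : ℤ), (r : ℤ))) →
      rowB ω r p i = rowB ω' r p i := by
  intro i
  induction i with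
  | zero => intro _; rfl
  | succ i ih =>
    intro h
    rw [rowB, rowB, ih fun j hj => h j (by omega), h i (by omega)]

theorem rowA_congr {ω ω' : Cfg} {r : ℕ} (p : ℕ → ℕ) :
    ∀ i, (∀ j : ℕ, j < i → ω (((W - 1 - j : ℕ) : ℤ), (r : ℤ)) =
      ω' (((W - 1 - j : ℕ) : ℤ), (r : ℤ))) → rowA W ω r p i = rowA W ω' r p i := by
  intro i
  induction i with
  | zero => intro _; rfl
  | succ i ih =>
    intro h
    rw [rowA, rowA, ih fun j hj => h j (by omega), h i (by omega)]

theorem bet_congr {ω ω' : Cfg} : ∀ k, (∀ j k' : ℕ, j < W → k' < k →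
    ω ((j : ℤ), ((n - 1 - k' : ℕ) : ℤ)) = ω' ((j : ℤ), ((n - 1 - k' : ℕ) : ℤ))) →
      bet W n ω k = bet W n ω' k := by
  intro k
  induction k with
  | zero => intro _; rfl
  | succ k ih =>
    intro h
    rw [bet, bet, ih fun j k' hj hk => h j k' hj (by omega)]
    exact rowB_congr _ _ fun j hj => h j k hj (by omega)

theorem alp_congr {ω ω' : Cfg} : ∀ h₀ : ℕ, (∀ j r : ℕ, r < h₀ →
    ω ((j : ℤ), (r : ℤ)) = ω' ((j : ℤ), (r : ℤ))) → alp W n ω h₀ = alp W n ω' h₀ := by
  intro h₀
  induction h₀ with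
  | zero => intro _; rfl
  | succ h₀ ih =>
    intro h
    rw [alp, alp, ih fun j r hr => h j r (by omega)]
    exact rowA_congr _ _ fun j _ => h _ h₀ (by omega)

/-- One face is averaged. -/
theorem ex_step {S : Finset (ℤ × ℤ)} {f : ℤ × ℤ} (hf : f ∈ S) {g₁ g₂ : Cfg → ℂ}
    (h : ∀ ω, g₁ (update ω f true) + g₁ (update ω f false) =
      g₂ (update ω f true) + g₂ (update ω f false)) : ex S g₁ = ex S g₂ := by
  rw [← insert_erase hf, ex_insert (notMem_erase f S), ex_insert (notMem_erase f S)]
  congr 1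
  unfold ex
  rw [← add_div, ← add_div, ← sum_add_distrib, ← sum_add_distrib]
  congr 1
  exact sum_congr rfl fun T _ => h (cfg T)

/-- The parameters at the intermediate stages. -/
noncomputable def zz (q : ℂ) (W h i : ℕ) (k : ℕ) : ℂ :=
  if k < h then -q ^ 2 else if k = h + i then -q ^ 2 else if k < h + 1 + W then 1 else -q ^ 2

theorem update_face {ω : Cfg} {i h j r : ℕ} {b : Bool} (hne : j ≠ i ∨ r ≠ h) :
    update ω ((i : ℤ), (h : ℤ)) b ((j : ℤ), (r : ℤ)) = ω ((j : ℤ), (r : ℤ)) := by
  rw [update_of_ne]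
  intro he
  rw [Prod.mk.injEq] at he
  omega

/-- The current between two patterns. -/
noncomputable def FF (q : ℂ) (N : ℕ) (z : ℕ → ℂ) (α β : ℕ → ℕ) : ℂ :=
  ∑ j ∈ range N, z j * Tj q N j α β

theorem FF_congr {q : ℂ} {N : ℕ} {z z' : ℕ → ℂ} (h : ∀ k, z k = z' k) (α β : ℕ → ℕ) :
    FF q N z α β = FF q N z' α β := sum_congr rfl fun j _ => by rw [h j]

theorem FF_move {q : ℂ} (hq : q ^ 2 + q + 1 = 0) {N i : ℕ} (hi : i + 1 < N) {z z' : ℕ → ℂ}
    (h1 : z i = -q ^ 2) (h2 : z (i + 1) = 1) (h1' : z' i = 1) (h2' : z' (i + 1) = -q ^ 2)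
    (hz : ∀ k, k ≠ i → k ≠ i + 1 → z' k = z k) {α β : ℕ → ℕ} (hα : NC (N + 1) α)
    (hβ : NC (N + 1) β) :
    FF q N z (eAct i α) β + FF q N z α β = FF q N z' α (eAct i β) + FF q N z' α β := by
  have key := face_move hq hi h1 h2 h1' h2' hz hα hβ
  simp_rw [mul_add, sum_add_distrib] at key
  unfold FF
  rw [add_comm, key, add_comm]

end RectA

open RectA

theorem nc_bet (hW : W % 2 = 0) (hn : n % 2 = 1) (ω : Cfg) {k : ℕ} (hk : k ≤ n) :
    NC (W + n + 1) (bet W n ω k) := by
  induction k with
  | zero => exact nc_flatP (by omega) (by omega) (by omega)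
  | succ k ih =>
    rw [bet]
    exact nc_rowB (ih (by omega)) ω W (by omega)

theorem nc_alp (hW : W % 2 = 0) (hn : n % 2 = 1) (ω : Cfg) {h : ℕ} (hh : h ≤ n) :
    NC (W + n + 1) (alp W n ω h) := by
  induction h with
  | zero => exact nc_flatP (by omega) (by omega) (by omega)
  | succ h ih =>
    rw [alp]
    exact nc_rowA (ih (by omega)) (by omega) ω W le_rfl

/-- The value of the current does not depend on the level. -/
theorem flux_const {q : ℂ} (hq : q ^ 2 + q + 1 = 0) (hW : W % 2 = 0) (hn : n % 2 = 1) {h : ℕ}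
    (hh : h < n) :
    ex (RF 0 W 0 n) (fun ω => ∑ j ∈ range (W + n), zp q W (h + 1) j *
        Tj q (W + n) j (alp W n ω (h + 1)) (bet W n ω (n - (h + 1)))) =
      ex (RF 0 W 0 n) (fun ω => ∑ j ∈ range (W + n), zp q W h j *
        Tj q (W + n) j (alp W n ω h) (bet W n ω (n - h))) := by
  have step : ∀ i, i < W → ex (RF 0 W 0 n) (fun ω => FF q (W + n) (zz q W h i)
      (rowA W ω h (alp W n ω h) (W - i)) (rowB ω h (bet W n ω (n - (h + 1))) i)) =
      ex (RF 0 W 0 n) (fun ω => FF q (W + n) (zz q W h (i + 1))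
      (rowA W ω h (alp W n ω h) (W - (i + 1)))
        (rowB ω h (bet W n ω (n - (h + 1))) (i + 1))) := by
    intro i hi
    refine ex_step (f := ((i : ℤ), (h : ℤ))) ?_ ?_
    · rw [RF, mem_product, mem_Ico, mem_Ico]
      omega
    · intro ω
      have hα : ∀ b, rowA W (update ω ((i : ℤ), (h : ℤ)) b) h
          (alp W n (update ω ((i : ℤ), (h : ℤ)) b) h) (W - (i + 1)) =
          rowA W ω h (alp W n ω h) (W - (i + 1)) := by
        intro b
        rw [alp_congr (ω := update ω ((i : ℤ), (h : ℤ)) b) (ω' := ω) h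
          fun j r hr => update_face (Or.inr (by omega))]
        exact rowA_congr _ _ fun j hj => update_face (Or.inl (by omega))
      have hβ : ∀ b, rowB (update ω ((i : ℤ), (h : ℤ)) b) h
          (bet W n (update ω ((i : ℤ), (h : ℤ)) b) (n - (h + 1))) i =
          rowB ω h (bet W n ω (n - (h + 1))) i := by
        intro b
        rw [bet_congr (ω := update ω ((i : ℤ), (h : ℤ)) b) (ω' := ω) (n - (h + 1))
          fun j k hj hk => update_face (Or.inr (by omega))]
        exact rowB_congr _ _ fun j hj => update_face (Or.inl (by omega))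
      have eA : ∀ b, rowA W (update ω ((i : ℤ), (h : ℤ)) b) h
          (alp W n (update ω ((i : ℤ), (h : ℤ)) b) h) (W - i) =
          if b = true then eAct (h + i) (rowA W ω h (alp W n ω h) (W - (i + 1)))
          else rowA W ω h (alp W n ω h) (W - (i + 1)) := by
        intro b
        have e1 : W - i = (W - (i + 1)) + 1 := by omega
        have e2 : W - 1 - (W - (i + 1)) = i := by omega
        rw [e1, rowA, e2, hα, update_self]
      have eB : ∀ b, rowB (update ω ((i : ℤ), (h : ℤ)) b) h
          (bet W n (update ω ((i : ℤ), (h : ℤ)) b) (n - (h + 1))) (i + 1) =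
          if b = true then eAct (h + i) (rowB ω h (bet W n ω (n - (h + 1))) i)
          else rowB ω h (bet W n ω (n - (h + 1))) i := by
        intro b
        rw [rowB, hβ, update_self]
      have ncα : NC (W + n + 1) (rowA W ω h (alp W n ω h) (W - (i + 1))) :=
        nc_rowA (nc_alp hW hn ω hh.le) (by omega) ω _ (by omega)
      have ncβ : NC (W + n + 1) (rowB ω h (bet W n ω (n - (h + 1))) i) :=
        nc_rowB (nc_bet hW hn ω (by omega)) ω _ (by omega)
      rw [eA, eA, eB, eB, hα, hα, hβ, hβ, if_pos rfl, if_neg Bool.false_ne_true, if_pos rfl,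
        if_neg Bool.false_ne_true]
      refine FF_move hq (by omega) ?_ ?_ ?_ ?_ ?_ ncα ncβ
      · simp [zz]
      · unfold zz
        rw [if_neg (by omega), if_neg (by omega), if_pos (by omega)]
      · unfold zz
        rw [if_neg (by omega), if_neg (by omega), if_pos (by omega)]
      · unfold zz
        rw [if_neg (by omega), if_pos (by omega)]
      · intro k hk1 hk2
        unfold zz
        rw [if_neg (show ¬ k = h + (i + 1) by omega), if_neg hk1]
  have key : ∀ i, i ≤ W → ex (RF 0 W 0 n) (fun ω => FF q (W + n) (zz q W h 0)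
      (rowA W ω h (alp W n ω h) (W - 0)) (rowB ω h (bet W n ω (n - (h + 1))) 0)) =
      ex (RF 0 W 0 n) (fun ω => FF q (W + n) (zz q W h i)
      (rowA W ω h (alp W n ω h) (W - i))
        (rowB ω h (bet W n ω (n - (h + 1))) i)) := by
    intro i
    induction i with
    | zero => intro _; rfl
    | succ i ih => intro hi; rw [ih (by omega), step i (by omega)]
  have e0 : ∀ ω : Cfg, FF q (W + n) (zz q W h 0)
      (rowA W ω h (alp W n ω h) (W - 0)) (rowB ω h (bet W n ω (n - (h + 1))) 0) =
      ∑ j ∈ range (W + n), zp q W (h + 1) j *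
        Tj q (W + n) j (alp W n ω (h + 1)) (bet W n ω (n - (h + 1))) := by
    intro ω
    rw [Nat.sub_zero, alp, rowB]
    refine FF_congr (fun j => ?_) _ _
    unfold zz zp
    by_cases h1 : j < h
    · rw [if_pos h1, if_pos (by omega)]
    · rw [if_neg h1]
      by_cases h2 : j = h + 0
      · rw [if_pos h2, if_pos (by omega)]
      · rw [if_neg h2, if_neg (show ¬ j < h + 1 by omega)]
  have eW : ∀ ω : Cfg, FF q (W + n) (zz q W h W)
      (rowA W ω h (alp W n ω h) (W - W)) (rowB ω h (bet W n ω (n - (h + 1))) W) =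
      ∑ j ∈ range (W + n), zp q W h j *
        Tj q (W + n) j (alp W n ω h) (bet W n ω (n - h)) := by
    intro ω
    have e1 : n - h = (n - (h + 1)) + 1 := by omega
    have e2 : n - 1 - (n - (h + 1)) = h := by omega
    rw [e1, bet, e2, Nat.sub_self, rowA]
    refine FF_congr (fun j => ?_) _ _
    unfold zz zp
    by_cases h1 : j < h
    · rw [if_pos h1, if_pos h1]
    · rw [if_neg h1, if_neg h1]
      by_cases h2 : j = h + W
      · rw [if_pos h2, if_neg (by omega)]
      · rw [if_neg h2]
        by_cases h3 : j < h + W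
        · rw [if_pos h3, if_pos (by omega)]
        · rw [if_neg h3, if_neg (by omega)]
  have k1 := key W le_rfl
  rw [funext e0, funext eW] at k1
  exact k1

end Pool.Agent.Perc
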