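import Pool.Agent.Lib.MP_6bd702_z.Z086
import Pool.Agent.Lib.MP_6bd702_z.Z088
import Pool.Agent.Lib.MP_6bd702_z.Z087
import Pool.Agent.Lib.MP_6bd702_z.Z089

/-!
# The rectangle: the flux inequality (task RectD)
-/

set_option autoImplicit false

namespace Pool.Agent.Perc

open Finset Function

variable {W n : ℕ}

namespace RectD

theorem toBd_of_onBd {ω : Cfg} {v : ℤ × ℤ} (hv : OnBd 0 W 0 n v) : ToBd 0 W 0 n ω v :=
  ⟨v, Relation.ReflTransGen.refl, hv⟩

theorem toBd_of_relB {ω : Cfg} {u v : ℤ × ℤ} (h : RelB W n ω u v) (hv : OnBd 0 W 0 n v) :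
    ToBd 0 W 0 n ω u := by
  rcases h with h | ⟨h, -⟩
  · exact ⟨v, h, hv⟩
  · exact h

end RectD

open RectD

/-- A non-zero matrix element: two arms. -/
theorem toBd_of_Tj {q : ℂ} (hq : q ^ 2 + q + 1 = 0) (hW : W % 2 = 0) (hn : n % 2 = 1) (ω : Cfg)
    {h i : ℕ} (hh : h ≤ n) (hi : i < W)
    (hT : Tj q (W + n) (h + i) (alp W n ω h) (bet W n ω (n - h)) ≠ 0) :
    ToBd 0 W 0 n ω ((i : ℤ), (h : ℤ)) ∧ ToBd 0 W 0 n ω ((i : ℤ) + 1, (h : ℤ)) := by
  obtain ⟨ha, sa⟩ := RectB.snd_alp hW hn ω hh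
  obtain ⟨hb, sb⟩ := RectB.snd_bet hW hn ω (Nat.sub_le n h)
  rw [show n - (n - h) = h by omega] at sb
  have hR := relB_equivalence W n ω
  have key := Tj_reach hq ha hb (j := h + i) (by omega)
    (r := fun k l => RelB W n ω (RectB.Vx W n h k) (RectB.Vx W n h l))
    ⟨fun k => hR.refl _, fun h => hR.symm h, fun h h' => hR.trans h h'⟩
    (fun s hs => sa s (by omega)) (fun s hs => sb s (by omega)) hT
  have e1 : RectB.Vx W n h (h + i) = ((i : ℤ), (h : ℤ)) := by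
    unfold RectB.Vx Vp
    split_ifs <;> first | (exfalso; omega) | (ext <;> simp <;> omega)
  have e2 : RectB.Vx W n h (h + i + 1) = ((i : ℤ) + 1, (h : ℤ)) := by
    unfold RectB.Vx Vp
    split_ifs <;> first | (exfalso; omega) | (ext <;> simp <;> omega)
  have o1 : OnBd 0 W 0 n (RectB.Vx W n h (W + n)) := by
    unfold RectB.Vx Vp OnBd
    split_ifs <;> simp <;> omega
  have o2 : OnBd 0 W 0 n (RectB.Vx W n h (W + n + 1)) := by
    unfold RectB.Vx Vp OnBd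
    split_ifs <;> simp <;> omega
  simp only [e1, e2] at key
  obtain ⟨k1, k2⟩ := key
  constructor
  · rcases k1 with k1 | k1
    · exact toBd_of_relB k1 o1
    · exact toBd_of_relB k1 o2
  · rcases k2 with k2 | k2
    · exact toBd_of_relB k2 o1
    · exact toBd_of_relB k2 o2

namespace RectD

/-- A primitive third root of unity. -/
noncomputable def qq : ℂ := ⟨-1 / 2, Real.sqrt 3 / 2⟩

theorem sqrt3 : Real.sqrt 3 * Real.sqrt 3 = 3 := Real.mul_self_sqrt (by norm_num)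

theorem qq_eq : qq ^ 2 + qq + 1 = 0 := by
  have h := sqrt3
  apply Complex.ext
  · simp [qq, pow_two, Complex.mul_re]
    nlinarith
  · simp [qq, pow_two, Complex.mul_im]
    ring

theorem norm_qq : ‖qq‖ = 1 := by
  have h := sqrt3
  rw [Complex.norm_eq_sqrt_sq_add_sq]
  simp only [qq]
  rw [show ((-1 / 2 : ℝ) ^ 2 + (Real.sqrt 3 / 2) ^ 2) = 1 by nlinarith]
  exact Real.sqrt_one

theorem norm_one_sub_qq : ‖1 - qq‖ = Real.sqrt 3 := by
  have h := sqrt3
  rw [Complex.norm_eq_sqrt_sq_add_sq]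
  congr 1
  simp only [qq, Complex.sub_re, Complex.sub_im, Complex.one_re, Complex.one_im]
  nlinarith

theorem norm_kap : ‖-qq ^ 2‖ = 1 := by
  rw [norm_neg, norm_pow, norm_qq, one_pow]

theorem sum_pairs (f : ℕ → ℂ) (m : ℕ) : ∑ j ∈ range (2 * m), f j =
    ∑ x ∈ (range (2 * m)).filter (fun x => x % 2 = 0), (f x + f (x + 1)) := by
  induction m with
  | zero => simp
  | succ m ih =>
    have e : 2 * (m + 1) = 2 * m + 1 + 1 := by ring
    rw [e, sum_range_succ, sum_range_succ, ih, range_add_one, filter_insert,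
      if_neg (by omega), range_add_one, filter_insert, if_pos (by omega),
      sum_insert (by simp)]
    ring

/-- The current at level `h`. -/
noncomputable def Mh (W n h : ℕ) : ℂ :=
  ex (RF 0 W 0 n) (fun ω => ∑ j ∈ range (W + n), zp qq W h j *
    Tj qq (W + n) j (alp W n ω h) (bet W n ω (n - h)))

/-- The expectation of a matrix element at level `h`. -/
noncomputable def Eh (W n h j : ℕ) : ℂ :=
  ex (RF 0 W 0 n) (fun ω => Tj qq (W + n) j (alp W n ω h) (bet W n ω (n - h)))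

theorem ex_const_mul (S : Finset (ℤ × ℤ)) (c : ℂ) (g : Cfg → ℂ) :
    ex S (fun ω => c * g ω) = c * ex S g := by
  unfold ex
  rw [← mul_sum, mul_div_assoc]

theorem Mh_eq (W n h : ℕ) : Mh W n h = ∑ j ∈ range (W + n), zp qq W h j * Eh W n h j := by
  unfold Mh Eh
  rw [ex_sum]
  exact sum_congr rfl fun j _ => ex_const_mul _ _ _

theorem Mh_const (hW : W % 2 = 0) (hn : n % 2 = 1) {h : ℕ} (hh : h ≤ n) :
    Mh W n h = Mh W n 0 := by
  induction h with
  | zero => rfl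
  | succ h ih =>
    rw [← ih (by omega)]
    exact flux_const qq_eq hW hn (by omega)

theorem norm_Eh_le_pr (hW : W % 2 = 0) (hn : n % 2 = 1) {h j : ℕ} (hh : h ≤ n)
    (hj : j < W + n) : ‖Eh W n h j‖ ≤ pr (RF 0 W 0 n)
      {ω | Tj qq (W + n) j (alp W n ω h) (bet W n ω (n - h)) ≠ 0} :=
  norm_ex_le _ fun ω => norm_Tj_le qq_eq (RectB.snd_alp hW hn ω hh).1
    (RectB.snd_bet hW hn ω (Nat.sub_le n h)).1 hj

theorem norm_Eh_le_one (hW : W % 2 = 0) (hn : n % 2 = 1) {h j : ℕ} (hh : h ≤ n)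
    (hj : j < W + n) : ‖Eh W n h j‖ ≤ 1 :=
  (norm_Eh_le_pr hW hn hh hj).trans (pr_le_one _ _)

theorem norm_Eh_mid (hW : W % 2 = 0) (hn : n % 2 = 1) {h i : ℕ} (hh : h ≤ n)
    (hi : i < W) : ‖Eh W n h (h + i)‖ ≤ pr (RF 0 W 0 n) {ω | ToBd 0 W 0 n ω ((i : ℤ), (h : ℤ)) ∧
        ToBd 0 W 0 n ω ((i : ℤ) + 1, (h : ℤ))} :=
  (norm_Eh_le_pr hW hn hh (by omega)).trans
    (pr_mono _ fun ω hω => toBd_of_Tj qq_eq hW hn ω hh hi hω)

theorem norm_zp (W h j : ℕ) : ‖zp qq W h j‖ = 1 := by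
  unfold zp
  split_ifs
  · exact norm_kap
  · exact norm_one
  · exact norm_kap

theorem norm_Mh_le (hW : W % 2 = 0) (hn : n % 2 = 1) {h : ℕ} (hh : h ≤ n) :
    ‖Mh W n h‖ ≤ n + ∑ i ∈ range W, pr (RF 0 W 0 n) {ω | ToBd 0 W 0 n ω ((i : ℤ), (h : ℤ)) ∧
        ToBd 0 W 0 n ω ((i : ℤ) + 1, (h : ℤ))} := by
  rw [Mh_eq]
  have e : W + n = h + (W + (n - h)) := by omega
  have h1 : ‖∑ j ∈ range (W + n), zp qq W h j * Eh W n h j‖ ≤
      ∑ j ∈ range (W + n), ‖Eh W n h j‖ := by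
    refine (norm_sum_le _ _).trans (le_of_eq (sum_congr rfl fun j _ => ?_))
    rw [norm_mul, norm_zp, one_mul]
  refine h1.trans ?_
  rw [e, sum_range_add, sum_range_add]
  have a1 : ∑ j ∈ range h, ‖Eh W n h j‖ ≤ h := by
    refine (sum_le_card_nsmul _ _ 1 fun j hj => ?_).trans (by simp)
    rw [mem_range] at hj
    exact norm_Eh_le_one hW hn hh (by omega)
  have a2 : ∑ j ∈ range W, ‖Eh W n h (h + j)‖ ≤ ∑ i ∈ range W,
      pr (RF 0 W 0 n) {ω | ToBd 0 W 0 n ω ((i : ℤ), (h : ℤ)) ∧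
        ToBd 0 W 0 n ω ((i : ℤ) + 1, (h : ℤ))} := by
    refine sum_le_sum fun j hj => ?_
    rw [mem_range] at hj
    exact norm_Eh_mid hW hn hh hj
  have a3 : ∑ j ∈ range (n - h), ‖Eh W n h (h + (W + j))‖ ≤ ((n - h : ℕ) : ℝ) := by
    refine (sum_le_card_nsmul _ _ 1 fun j hj => ?_).trans (by simp)
    rw [mem_range] at hj
    exact norm_Eh_le_one hW hn hh (by omega)
  have a4 : ((n - h : ℕ) : ℝ) = n - h := by push_cast [Nat.cast_sub hh]; ring
  rw [a4] at a3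
  linarith

theorem norm_Mzero_ge (hW : W % 2 = 0) (hn : n % 2 = 1) :
    Real.sqrt 3 * ∑ x ∈ (range W).filter (fun x => x % 2 = 0),
        pr (RF 0 W 0 n) {ω | ∃ v, Conn ω (RF 0 W 0 n) ((x : ℤ) + 1, 0) v ∧ v.2 = n} - n ≤
      ‖Mh W n 0‖ := by
  rw [Mh_eq, sum_range_add]
  -- the first part
  have hflat : ∀ (ω : Cfg) {x : ℕ}, x % 2 = 0 → x < W → _ := fun ω x hx hxW =>
    Tj_flat qq_eq (N := W + n) (W := W) (by omega) hW (by omega)
      (RectB.snd_bet hW hn ω (le_refl n)).1 hx hxW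
  obtain ⟨m, hm⟩ : ∃ m, W = 2 * m := ⟨W / 2, by omega⟩
  have b1 : ∑ j ∈ range W, zp qq W 0 j * Eh W n 0 j =
      (1 - qq) * ∑ x ∈ (range W).filter (fun x => x % 2 = 0), Eh W n 0 x := by
    have c1 : ∑ j ∈ range W, zp qq W 0 j * Eh W n 0 j = ∑ j ∈ range W, Eh W n 0 j := by
      refine sum_congr rfl fun j hj => ?_
      rw [mem_range] at hj
      have : zp qq W 0 j = 1 := by
        unfold zp
        rw [if_neg (by omega), if_pos (by omega)]
      rw [this, one_mul]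
    rw [c1]
    have c2 : ∑ j ∈ range W, Eh W n 0 j =
        ∑ x ∈ (range W).filter (fun x => x % 2 = 0), (Eh W n 0 x + Eh W n 0 (x + 1)) := by
      rw [hm]
      exact sum_pairs _ _
    rw [c2, mul_sum]
    refine sum_congr rfl fun x hx => ?_
    rw [mem_filter, mem_range] at hx
    have c3 : Eh W n 0 (x + 1) = -qq * Eh W n 0 x := by
      unfold Eh
      rw [← ex_const_mul]
      congr 1
      funext ω
      exact (hflat ω hx.2 hx.1).2.1
    rw [c3]
    ring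
  have b2 : ∑ x ∈ (range W).filter (fun x => x % 2 = 0), Eh W n 0 x =
      ((∑ x ∈ (range W).filter (fun x => x % 2 = 0), pr (RF 0 W 0 n)
        {ω | Tj qq (W + n) x (alp W n ω 0) (bet W n ω (n - 0)) = 1} : ℝ) : ℂ) := by
    rw [Complex.ofReal_sum]
    refine sum_congr rfl fun x hx => ?_
    rw [mem_filter, mem_range] at hx
    refine ex_indicator _ _ (fun ω hω => hω) fun ω hω => ?_
    rcases (hflat ω hx.2 hx.1).1 with h0 | h1
    · exact h0
    · exact absurd h1 hω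
  have b3 : ∑ x ∈ (range W).filter (fun x => x % 2 = 0),
        pr (RF 0 W 0 n) {ω | ∃ v, Conn ω (RF 0 W 0 n) ((x : ℤ) + 1, 0) v ∧ v.2 = n} ≤
      ∑ x ∈ (range W).filter (fun x => x % 2 = 0), pr (RF 0 W 0 n)
        {ω | Tj qq (W + n) x (alp W n ω 0) (bet W n ω (n - 0)) = 1} := by
    refine sum_le_sum fun x hx => pr_mono _ fun ω hω => ?_
    rw [mem_filter, mem_range] at hx
    obtain ⟨v, hv, hvn⟩ := hω
    refine (hflat ω hx.2 hx.1).2.2 ?_
    obtain ⟨c, c1, c2, c3⟩ := complete_bet hW hn ω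
    apply c3 _ _ (by omega) (le_refl _)
    have e1 : Vp W 0 (x + 1) = ((x : ℤ) + 1, 0) := by
      unfold Vp
      rw [if_neg (by omega), if_pos (by omega)]
      ext <;> simp
    have e2 : Vp W 0 (W + n) = ((W : ℤ), (n : ℤ)) := by
      unfold Vp
      rw [if_neg (by omega), if_neg (by omega)]
      ext <;> simp
    rw [e1, e2]
    have hc : ∀ w, Conn ω (RF 0 W 0 n) ((x : ℤ) + 1, 0) w → c ((x : ℤ) + 1, 0) = c w := by
      intro w hw
      induction hw with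
      | refl => rfl
      | tail _ hb ih => exact ih.trans (c1 _ _ hb)
    rw [hc v hv]
    have hp := hv.parity
    have hr := hv.mem_rect (x₀ := 0) (x₁ := W) (y₀ := 0) (y₁ := n) (by
      refine ⟨?_, ?_, ?_, ?_⟩ <;> simp <;> omega)
    have hv' : v = (v.1, (n : ℤ)) := by ext <;> simp [hvn]
    rw [hv']
    simp only at hp
    exact c2 v.1 hr.1 hr.2.1 (by omega)
  have b4 : ‖∑ j ∈ range n, zp qq W 0 (W + j) * Eh W n 0 (W + j)‖ ≤ n := by
    refine (norm_sum_le _ _).trans ((sum_le_card_nsmul _ _ 1 fun j hj => ?_).trans (by simp))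
    rw [mem_range] at hj
    rw [norm_mul, norm_zp, one_mul]
    exact norm_Eh_le_one hW hn (Nat.zero_le _) (by omega)
  rw [b1, b2]
  have b5 : ‖(1 - qq) * ((∑ x ∈ (range W).filter (fun x => x % 2 = 0), pr (RF 0 W 0 n)
        {ω | Tj qq (W + n) x (alp W n ω 0) (bet W n ω (n - 0)) = 1} : ℝ) : ℂ)‖ =
      Real.sqrt 3 * ∑ x ∈ (range W).filter (fun x => x % 2 = 0), pr (RF 0 W 0 n)
        {ω | Tj qq (W + n) x (alp W n ω 0) (bet W n ω (n - 0)) = 1} := by
    rw [norm_mul, norm_one_sub_qq, Complex.norm_real, Real.norm_of_nonneg]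
    exact sum_nonneg fun x _ => pr_nonneg _ _
  have b6 := norm_sub_le_norm_add ((1 - qq) * ((∑ x ∈ (range W).filter (fun x => x % 2 = 0),
        pr (RF 0 W 0 n)
        {ω | Tj qq (W + n) x (alp W n ω 0) (bet W n ω (n - 0)) = 1} : ℝ) : ℂ))
        (∑ j ∈ range n, zp qq W 0 (W + j) * Eh W n 0 (W + j))
  have b7 := mul_le_mul_of_nonneg_left b3 (Real.sqrt_nonneg 3)
  rw [b5] at b6
  linarith

end RectD

/-- The flux inequality. -/
theorem flux_ineq (hW : W % 2 = 0) (hn : n % 2 = 1) {h : ℕ} (hh : h ≤ n) :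
    Real.sqrt 3 * ∑ x ∈ (range W).filter (fun x => x % 2 = 0),
        pr (RF 0 W 0 n) {ω | ∃ v, Conn ω (RF 0 W 0 n) ((x : ℤ) + 1, 0) v ∧ v.2 = n} - 2 * n ≤
      ∑ i ∈ range W, pr (RF 0 W 0 n) {ω | ToBd 0 W 0 n ω ((i : ℤ), (h : ℤ)) ∧
        ToBd 0 W 0 n ω ((i : ℤ) + 1, (h : ℤ))} := by
  have h1 := norm_Mzero_ge hW hn
  have h2 := norm_Mh_le hW hn hh
  rw [Mh_const hW hn hh] at h2
  linarith

end Pool.Agent.Perc
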