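import Pool.Agent.Lib.MP_6bd702_z.Z088
import Pool.Agent.Lib.MP_6bd702_z.Z087
import Pool.Agent.Lib.MP_6bd702_z.Z089
import Pool.Agent.Lib.MP_6bd702_z.Z090
import Pool.Agent.Lib.MP_6bd702_z.Z016
import Pool.Agent.Lib.MP_6bd702_z.Z081
import Pool.Agent.Lib.MP_6bd702_z.Z001

section PartpercRect



end PartpercRect

section PartpercTwoArm

/-!
# The two-arm probability in the plane (task TwoArm)
-/

set_option autoImplicit false

namespace Pool.Agent.Perc

open Finset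

namespace TwoArm

theorem mem_RF {x₀ x₁ y₀ y₁ : ℤ} {f : ℤ × ℤ} :
    f ∈ RF x₀ x₁ y₀ y₁ ↔ (x₀ ≤ f.1 ∧ f.1 < x₁) ∧ (y₀ ≤ f.2 ∧ f.2 < y₁) := by
  unfold RF
  rw [Finset.mem_product, Finset.mem_Ico, Finset.mem_Ico]

/-- Translation of an event. -/
theorem pr_shift {S S' : Finset (ℤ × ℤ)} {A : Set Cfg} (hA : DepOn S A) (a b : ℤ)
    (h : ∀ x ∈ S, (x.1 + a, x.2 + b) ∈ S') : pr S' {ω | shiftC a b ω ∈ A} = pr S A := by
  have := pr_comp (S := S) (S' := S') (A := A) (f := fun x => (x.1 + a, x.2 + b))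
    (by
      intro x _ y _ hxy
      simp only [Prod.mk.injEq] at hxy
      exact Prod.ext (by omega) (by omega)) h hA
  exact this

/-- The connection to the top. -/
def top (n : ℕ) : Set Cfg :=
  {ω | ∃ v, Conn ω (RF (-(n + 1)) (n + 1) 0 n) (0, 0) v ∧ v.2 = n}

theorem depOn_top (n : ℕ) : DepOn (RF (-(n + 1)) (n + 1) 0 n : Set (ℤ × ℤ)) (top n) := by
  intro ω ω' h
  constructor
  · rintro ⟨v, h1, h2⟩
    exact ⟨v, (depOn_conn _ _ v ω ω' h).1 h1, h2⟩
  · rintro ⟨v, h1, h2⟩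
    exact ⟨v, (depOn_conn _ _ v ω ω' h).2 h1, h2⟩

theorem top_le {n W x : ℕ} (hn : n % 2 = 1) (h1 : n ≤ x) (h2 : x + n + 2 ≤ W) :
    pArm (n + 1) / 4 ≤ pr (RF 0 W 0 n)
      {ω | ∃ v, Conn ω (RF 0 W 0 n) ((x : ℤ) + 1, 0) v ∧ v.2 = n} := by
  refine (pr_top_ge hn).trans ?_
  have h3 := pr_shift (depOn_top n) ((x : ℤ) + 1) 0 (S' := RF 0 W 0 n) (by
    intro f hf
    rw [mem_RF] at hf ⊢
    refine ⟨⟨?_, ?_⟩, ?_, ?_⟩ <;> dsimp only <;> omega)
  change pr _ (top n) ≤ _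
  rw [← h3]
  apply pr_mono
  rintro ω ⟨v, hv, hv2⟩
  refine ⟨(v.1 + ((x : ℤ) + 1), v.2 + 0), ?_, ?_⟩
  · rw [conn_shift] at hv
    have h4 : ((0, 0) : ℤ × ℤ).1 + ((x : ℤ) + 1) = (x : ℤ) + 1 := by simp
    have h5 : ((0, 0) : ℤ × ℤ).2 + 0 = (0 : ℤ) := by simp
    rw [h4, h5] at hv
    refine Conn.mono ?_ hv
    intro f hf
    simp only [Set.mem_ofPred_eq, Finset.mem_coe] at hf ⊢
    rw [mem_RF] at hf ⊢
    dsimp only at hf
    refine ⟨⟨?_, ?_⟩, ?_, ?_⟩ <;> omega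
  · dsimp only
    omega

theorem two_le {R W i : ℕ} (hR : 0 < R) (h1 : R ≤ i) (h2 : i + R ≤ W) :
    pr (RF 0 W 0 ((2 * R + 1 : ℕ) : ℤ)) {ω | ToBd 0 W 0 ((2 * R + 1 : ℕ) : ℤ) ω ((i : ℤ), (R : ℤ)) ∧
        ToBd 0 W 0 ((2 * R + 1 : ℕ) : ℤ) ω ((i : ℤ) + 1, (R : ℤ))} ≤ p2 R := by
  unfold p2
  have h3 := pr_shift (depOn_twoArm R) (i : ℤ) (R : ℤ) (S' := RF 0 W 0 ((2 * R + 1 : ℕ) : ℤ)) (by
    intro f hf
    rw [mem_RF] at hf ⊢
    refine ⟨⟨?_, ?_⟩, ?_, ?_⟩ <;> dsimp only <;> omega)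
  rw [← h3]
  apply pr_mono
  rintro ω ⟨ha, hb⟩
  have key : ∀ u : ℤ × ℤ, ToBd 0 W 0 ((2 * R + 1 : ℕ) : ℤ) ω (u.1 + i, u.2 + R) →
      (-(R : ℤ) ≤ u.1 ∧ u.1 ≤ R ∧ -(R : ℤ) ≤ u.2 ∧ u.2 ≤ R) →
      ToBd (-(R : ℤ)) R (-(R : ℤ)) R (shiftC i R ω) u := by
    rintro u ⟨v, hv, hv'⟩ hu
    unfold OnBd at hv'
    obtain ⟨w, hw, hw'⟩ := Conn.toBd (x₀ := (i : ℤ) - R) (x₁ := (i : ℤ) + R) (y₀ := 0)
      (y₁ := 2 * (R : ℤ)) hv (by
        refine ⟨?_, ?_, ?_, ?_⟩ <;> dsimp only <;> omega) (by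
        rintro ⟨e1, e2, e3, e4⟩
        push_cast at hv'
        omega)
    unfold OnBd at hw'
    refine ⟨(w.1 - i, w.2 - R), ?_, ?_⟩
    · rw [conn_shift]
      have h4 : ((w.1 - (i : ℤ), w.2 - (R : ℤ)) : ℤ × ℤ).1 + (i : ℤ) = w.1 := by simp
      have h5 : ((w.1 - (i : ℤ), w.2 - (R : ℤ)) : ℤ × ℤ).2 + (R : ℤ) = w.2 := by simp
      rw [h4, h5]
      refine Conn.mono ?_ hw
      intro f hf
      have hf2 := hf.2
      simp only [Set.mem_ofPred_eq, Finset.mem_coe] at hf2 ⊢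
      rw [mem_RF] at hf2 ⊢
      refine ⟨⟨?_, ?_⟩, ?_, ?_⟩ <;> dsimp only <;> omega
    · unfold OnBd
      dsimp only
      omega
  constructor
  · apply key
    · simpa using ha
    · refine ⟨?_, ?_, ?_, ?_⟩ <;> dsimp only <;> omega
  · apply key
    · have : ((1, 0) : ℤ × ℤ).1 + (i : ℤ) = (i : ℤ) + 1 := by
        dsimp only
        ring
      rw [this]
      simpa using hb
    · refine ⟨?_, ?_, ?_, ?_⟩ <;> dsimp only <;> omega

theorem sum_top_ge {n m : ℕ} (hn : n % 2 = 1) (hm : n + 1 ≤ m) :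
    ((m : ℝ) - (n + 1)) * (pArm (n + 1) / 4) ≤
      ∑ x ∈ (range (2 * m)).filter (fun x => x % 2 = 0),
        pr (RF 0 ((2 * m : ℕ) : ℤ) 0 n)
          {ω | ∃ v, Conn ω (RF 0 ((2 * m : ℕ) : ℤ) 0 n) ((x : ℤ) + 1, 0) v ∧ v.2 = n} := by
  set f : ℕ → ℝ := fun x => pr (RF 0 ((2 * m : ℕ) : ℤ) 0 n)
          {ω | ∃ v, Conn ω (RF 0 ((2 * m : ℕ) : ℤ) 0 n) ((x : ℤ) + 1, 0) v ∧ v.2 = n} with hf
  set s : Finset ℕ := (Ico ((n + 1) / 2) (m - (n + 1) / 2)).image (fun j => 2 * j) with hs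
  have hcard : s.card = m - (n + 1) := by
    rw [hs, Finset.card_image_of_injective _ (fun a b (h : 2 * a = 2 * b) => by
      omega), Nat.card_Ico]
    omega
  have hsub : s ⊆ (range (2 * m)).filter (fun x => x % 2 = 0) := by
    intro x hx
    rw [hs, Finset.mem_image] at hx
    obtain ⟨j, hj, rfl⟩ := hx
    rw [Finset.mem_Ico] at hj
    rw [Finset.mem_filter, Finset.mem_range]
    omega
  calc ((m : ℝ) - (n + 1)) * (pArm (n + 1) / 4) = s.card • (pArm (n + 1) / 4) := by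
        rw [hcard, nsmul_eq_mul, Nat.cast_sub hm]
        push_cast
        ring
    _ ≤ ∑ x ∈ s, f x := by
        apply Finset.card_nsmul_le_sum
        intro x hx
        rw [hs, Finset.mem_image] at hx
        obtain ⟨j, hj, rfl⟩ := hx
        rw [Finset.mem_Ico] at hj
        exact top_le hn (by omega) (by omega)
    _ ≤ _ := Finset.sum_le_sum_of_subset_of_nonneg hsub fun x _ _ => pr_nonneg _ _

theorem sum_two_le {R W : ℕ} (hR : 0 < R) :
    ∑ i ∈ range W, pr (RF 0 W 0 ((2 * R + 1 : ℕ) : ℤ))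
        {ω | ToBd 0 W 0 ((2 * R + 1 : ℕ) : ℤ) ω ((i : ℤ), (R : ℤ)) ∧
        ToBd 0 W 0 ((2 * R + 1 : ℕ) : ℤ) ω ((i : ℤ) + 1, (R : ℤ))} ≤ W * p2 R + 2 * R := by
  have h0 : 0 ≤ p2 R := pr_nonneg _ _
  calc _ ≤ ∑ i ∈ range W, (p2 R + if i < R ∨ W < i + R then (1 : ℝ) else 0) := by
        apply Finset.sum_le_sum
        intro i hi
        by_cases hc : i < R ∨ W < i + R
        · rw [if_pos hc]
          linarith [pr_le_one (RF 0 W 0 ((2 * R + 1 : ℕ) : ℤ))
            {ω | ToBd 0 W 0 ((2 * R + 1 : ℕ) : ℤ) ω ((i : ℤ), (R : ℤ)) ∧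
        ToBd 0 W 0 ((2 * R + 1 : ℕ) : ℤ) ω ((i : ℤ) + 1, (R : ℤ))}]
        · rw [if_neg hc, add_zero]
          exact two_le hR (by omega) (by omega)
    _ = W * p2 R + (((range W).filter fun i => i < R ∨ W < i + R).card : ℝ) := by
        rw [Finset.sum_add_distrib, Finset.sum_const, Finset.card_range, nsmul_eq_mul,
          Finset.sum_boole]
    _ ≤ _ := by
        have : ((range W).filter fun i => i < R ∨ W < i + R).card ≤ 2 * R := by
          have h1 : ((range W).filter fun i => i < R ∨ W < i + R) ⊆ range R ∪ Ico (W + 1 - R) W := by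
            intro i hi
            rw [Finset.mem_filter, Finset.mem_range] at hi
            rw [Finset.mem_union, Finset.mem_range, Finset.mem_Ico]
            omega
          refine (Finset.card_le_card h1).trans ((Finset.card_union_le _ _).trans ?_)
          rw [Finset.card_range, Nat.card_Ico]
          omega
        have h2 : (((range W).filter fun i => i < R ∨ W < i + R).card : ℝ) ≤ 2 * R := by
          exact_mod_cast this
        linarith

theorem main_ineq {R m : ℕ} (hR : 0 < R) (hm : 2 * R + 2 ≤ m) :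
    Real.sqrt 3 * (((m : ℝ) - (2 * R + 2)) * (pArm (2 * R + 2) / 4)) - 2 * (2 * R + 1) ≤
      2 * m * p2 R + 2 * R := by
  have h1 := flux_ineq (W := 2 * m) (n := 2 * R + 1) (h := R) (by omega) (by omega) (by omega)
  have h2 := sum_two_le (W := 2 * m) hR
  have h3 := sum_top_ge (n := 2 * R + 1) (m := m) (by omega) (by omega)
  have h4 : 0 ≤ Real.sqrt 3 := Real.sqrt_nonneg 3
  have h5 := mul_le_mul_of_nonneg_left h3 h4
  have h6 : ((2 * R + 1 : ℕ) : ℤ) + 1 = 2 * (R : ℤ) + 2 := by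
    push_cast
    ring
  rw [h6] at h5
  push_cast at h1 h2 h5
  have h7 : (m : ℝ) - (2 * R + 1 + 1) = (m : ℝ) - (2 * R + 2) := by ring
  rw [h7] at h5
  linarith

end TwoArm

theorem p2_ge_pArm {R : ℕ} (hR : 0 < R) : Real.sqrt 3 / 8 * pArm (2 * R + 2) ≤ p2 R := by
  by_contra hcon
  rw [not_le] at hcon
  set δ := Real.sqrt 3 / 8 * pArm (2 * R + 2) - p2 R with hδ
  have hδ0 : 0 < δ := by
    rw [hδ]
    linarith
  obtain ⟨k, hk⟩ := exists_nat_gt ((Real.sqrt 3 * ((2 * R + 2) * (pArm (2 * R + 2) / 4)) +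
    2 * (2 * R + 1) + 2 * R) / (2 * δ))
  rw [div_lt_iff₀ (by linarith)] at hk
  have h1 := TwoArm.main_ineq (R := R) (m := k + (2 * R + 2)) hR (by omega)
  push_cast at h1
  have h2 : 0 ≤ p2 R := pr_nonneg _ _
  have h3 : 0 ≤ pArm (2 * R + 2) := pr_nonneg _ _
  have h4 : (0 : ℝ) ≤ k := Nat.cast_nonneg _
  have h5 : (0 : ℝ) ≤ R := Nat.cast_nonneg _
  have h6 : p2 R ≤ Real.sqrt 3 / 8 * pArm (2 * R + 2) := hcon.le
  have h7 : (0 : ℝ) ≤ (2 * R + 2) := by linarith
  have h8 := mul_le_mul_of_nonneg_left h6 h7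
  have h9 : (k : ℝ) * (2 * δ) = 2 * k * (Real.sqrt 3 / 8 * pArm (2 * R + 2)) - 2 * k * p2 R := by
    rw [hδ]
    ring
  rw [h9] at hk
  nlinarith

theorem TwoArm.aux {R : ℕ} (hR : 0 < R) :
    (1 / 44 : ℝ) ^ (1 / 3 : ℝ) * (R : ℝ) ^ (-(1 / 3 : ℝ)) ≤ pArm (2 * R + 2) := by
  have hR' : (1 : ℝ) ≤ R := by exact_mod_cast hR
  have h1 := (prod_ge (r := 2 * R + 2) (by omega)).trans (pArm_ge (r := 2 * R + 2) (by omega))
  have h2 : ((2 * R + 2 : ℕ) : ℤ) = 2 * (R : ℤ) + 2 := by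
    push_cast
    ring
  rw [h2] at h1
  refine le_trans ?_ h1
  rw [Real.rpow_neg (by linarith), ← Real.inv_rpow (by linarith), ← Real.mul_rpow (by norm_num)
    (by positivity)]
  apply Real.rpow_le_rpow (by positivity)
  · push_cast
    rw [← one_div, div_mul_div_comm, one_mul]
    apply one_div_le_one_div_of_le
    · linarith
    · linarith
  · norm_num

/-- The two-arm probability is at least a constant times `R ^ (-1/3)`. -/
theorem p2_ge : ∃ c : ℝ, 0 < c ∧ ∀ R : ℕ, 0 < R → c * (R : ℝ) ^ (-(1 / 3 : ℝ)) ≤ p2 R := by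
  refine ⟨Real.sqrt 3 / 8 * (1 / 44 : ℝ) ^ (1 / 3 : ℝ), by positivity, fun R hR => ?_⟩
  refine le_trans ?_ (p2_ge_pArm hR)
  rw [mul_assoc]
  exact mul_le_mul_of_nonneg_left (TwoArm.aux hR) (by positivity)

end Pool.Agent.Perc

end PartpercTwoArm

section PartpercBoxA

/-!
# Conditioning on a large cluster (task BoxA)
-/

set_option autoImplicit false

namespace Pool.Agent.Perc

open Finset

namespace BoxA

open BoxAux

open Classical in
/-- the edges of the cluster -/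
noncomputable def FF (T : Finset Edg) (v : ℤ × ℤ) : Finset Edg := T.filter fun e => tl e ∈ clV T v

open Classical in
/-- the edges of the box which do not touch the cluster -/
noncomputable def EE (n : ℕ) (T : Finset Edg) (v : ℤ × ℤ) : Finset Edg :=
  (boxE n).filter fun e => tl e ∉ clV T v ∧ hd e ∉ clV T v

/-- replace the configuration away from the cluster -/
noncomputable def RR (n : ℕ) (v : ℤ × ℤ) (T S : Finset Edg) : Finset Edg :=
  FF T v ∪ (S ∩ EE n T v)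

lemma mem_FF {T : Finset Edg} {v : ℤ × ℤ} {e : Edg} : e ∈ FF T v ↔ e ∈ T ∧ tl e ∈ clV T v := by
  classical
  unfold FF
  rw [mem_filter]

lemma mem_EE {n : ℕ} {T : Finset Edg} {v : ℤ × ℤ} {e : Edg} :
    e ∈ EE n T v ↔ e ∈ boxE n ∧ tl e ∉ clV T v ∧ hd e ∉ clV T v := by
  classical
  unfold EE
  rw [mem_filter]

lemma mem_RR {n : ℕ} {v : ℤ × ℤ} {T S : Finset Edg} {e : Edg} :
    e ∈ RR n v T S ↔ (e ∈ T ∧ tl e ∈ clV T v) ∨
      (e ∈ S ∧ e ∈ boxE n ∧ tl e ∉ clV T v ∧ hd e ∉ clV T v) := by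
  unfold RR
  rw [mem_union, mem_inter, mem_FF, mem_EE]

lemma RR_self {n : ℕ} {v : ℤ × ℤ} {T : Finset Edg} (hT : T ⊆ boxE n) : RR n v T T = T := by
  ext e
  rw [mem_RR]
  constructor
  · rintro (h | h)
    · exact h.1
    · exact h.1
  · intro he
    by_cases h : tl e ∈ clV T v
    · exact Or.inl ⟨he, h⟩
    · exact Or.inr ⟨he, hT he, h, fun h' => h ((tl_mem_iff he).mpr h')⟩

lemma clV_RR (n : ℕ) (v : ℤ × ℤ) (T S : Finset Edg) : clV (RR n v T S) v = clV T v := by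
  apply Set.Subset.antisymm
  · intro w hw
    induction hw with
    | refl => exact mem_clV_self _ _
    | tail _ h1 ih =>
      obtain ⟨e, he, h2⟩ := h1
      rw [mem_RR] at he
      rcases he with ⟨h3, h4⟩ | ⟨_, _, h3, h4⟩
      · rcases h2 with ⟨h5, h6⟩ | ⟨h5, h6⟩
        · rw [← h6]; exact (tl_mem_iff h3).mp h4
        · rw [← h5]; exact h4
      · exfalso
        rcases h2 with ⟨h5, h6⟩ | ⟨h5, h6⟩
        · rw [h5] at h3; exact h3 ih
        · rw [h6] at h4; exact h4 ih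
  · intro w hw
    have key : w ∈ clV T v ∧ w ∈ clV (RR n v T S) v := by
      induction hw with
      | refl => exact ⟨mem_clV_self _ _, mem_clV_self _ _⟩
      | tail h0 h1 ih =>
        refine ⟨Relation.ReflTransGen.tail ih.1 h1, Relation.ReflTransGen.tail ih.2 ?_⟩
        obtain ⟨e, he, h2⟩ := h1
        refine ⟨e, mem_RR.mpr (Or.inl ⟨he, ?_⟩), h2⟩
        rcases h2 with ⟨h5, h6⟩ | ⟨h5, h6⟩
        · rw [h5]; exact ih.1
        · rw [tl_mem_iff he, h6]; exact ih.1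
    exact key.2

lemma FF_RR (n : ℕ) (v : ℤ × ℤ) (T S : Finset Edg) : FF (RR n v T S) v = FF T v := by
  ext e
  rw [mem_FF, mem_FF, clV_RR, mem_RR]
  constructor
  · rintro ⟨h | h, h1⟩
    · exact h
    · exact absurd h1 h.2.2.1
  · intro h
    exact ⟨Or.inl h, h.2⟩

lemma EE_RR (n : ℕ) (v : ℤ × ℤ) (T S : Finset Edg) : EE n (RR n v T S) v = EE n T v := by
  ext e
  rw [mem_EE, mem_EE, clV_RR]

lemma clS_FF (T : Finset Edg) (v : ℤ × ℤ) :
    clS T v = toC '' clV T v ∪ ⋃ e ∈ FF T v, segment ℝ (toC (tl e)) (toC (hd e)) := by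
  ext z
  rw [mem_clS]
  simp only [Set.mem_union, Set.mem_image, Set.mem_iUnion, exists_prop, mem_FF, and_assoc]

lemma clS_RR (n : ℕ) (v : ℤ × ℤ) (T S : Finset Edg) : clS (RR n v T S) v = clS T v := by
  rw [clS_FF, clS_FF, FF_RR, clV_RR]

open Classical in
lemma perim_FF (T : Finset Edg) (v : ℤ × ℤ) : perim T v
    = ((FF T v ×ˢ (univ : Finset Bool)).filter fun x => Outer T v (side x.1 x.2)).card := by
  unfold perim
  congr 1
  ext x
  simp only [mem_filter, mem_product, mem_univ, and_true, mem_FF]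
  tauto

lemma perim_RR (n : ℕ) (v : ℤ × ℤ) (T S : Finset Edg) : perim (RR n v T S) v = perim T v := by
  classical
  rw [perim_FF, perim_FF, FF_RR]
  unfold Outer
  rw [clS_RR]

/-- the partner configuration -/
noncomputable def SS (n : ℕ) (v : ℤ × ℤ) (T S : Finset Edg) : Finset Edg :=
  (T ∩ EE n T v) ∪ (S \ EE n T v)

lemma RR_inter (n : ℕ) (v : ℤ × ℤ) (T S : Finset Edg) :
    RR n v T S ∩ EE n T v = S ∩ EE n T v := by
  ext e
  rw [mem_inter, mem_inter, mem_RR, mem_EE]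
  constructor
  · rintro ⟨h | h, h1⟩
    · exact absurd h.2 h1.2.1
    · exact ⟨h.1, h1⟩
  · rintro ⟨h, h1⟩
    exact ⟨Or.inr ⟨h, h1⟩, h1⟩

lemma RR_RR {n : ℕ} (v : ℤ × ℤ) {T : Finset Edg} (hT : T ⊆ boxE n) (S : Finset Edg) :
    RR n v (RR n v T S) (SS n v T S) = T := by
  have h1 : SS n v T S ∩ EE n T v = T ∩ EE n T v := by
    unfold SS
    ext e
    simp only [mem_inter, mem_union, mem_sdiff]
    tauto
  have h2 : RR n v (RR n v T S) (SS n v T S) = FF T v ∪ (SS n v T S ∩ EE n T v) := by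
    conv_lhs => unfold RR
    rw [show FF T v ∪ S ∩ EE n T v = RR n v T S from rfl, FF_RR, EE_RR]
  rw [h2, h1]
  exact RR_self hT

lemma SS_RR (n : ℕ) (v : ℤ × ℤ) (T S : Finset Edg) :
    SS n v (RR n v T S) (SS n v T S) = S := by
  have h2 : SS n v (RR n v T S) (SS n v T S)
      = (RR n v T S ∩ EE n T v) ∪ (SS n v T S \ EE n T v) := by
    conv_lhs => unfold SS
    rw [show T ∩ EE n T v ∪ S \ EE n T v = SS n v T S from rfl, EE_RR]
  rw [h2, RR_inter]
  unfold SS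
  ext e
  simp only [mem_inter, mem_union, mem_sdiff]
  tauto

lemma RR_sub {n : ℕ} {v : ℤ × ℤ} {T S : Finset Edg} (hT : T ⊆ boxE n) : RR n v T S ⊆ boxE n := by
  intro e he
  rw [mem_RR] at he
  rcases he with h | h
  · exact hT h.1
  · exact h.2.1

lemma SS_sub {n : ℕ} {v : ℤ × ℤ} {T S : Finset Edg} (hT : T ⊆ boxE n) (hS : S ⊆ boxE n) :
    SS n v T S ⊆ boxE n := by
  unfold SS
  intro e he
  rw [mem_union, mem_inter, mem_sdiff] at he
  rcases he with h | h
  · exact hT h.1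
  · exact hS h.1

lemma sum_swap (n : ℕ) (v : ℤ × ℤ) (h : Finset Edg → Finset Edg → ℝ) :
    ∑ x ∈ (boxE n).powerset ×ˢ (boxE n).powerset, h x.1 x.2
      = ∑ x ∈ (boxE n).powerset ×ˢ (boxE n).powerset, h (RR n v x.1 x.2) (SS n v x.1 x.2) := by
  refine (Finset.sum_nbij' (fun x => (RR n v x.1 x.2, SS n v x.1 x.2))
    (fun x => (RR n v x.1 x.2, SS n v x.1 x.2)) ?_ ?_ ?_ ?_ ?_).symm
  · intro x hx
    rw [mem_product, mem_powerset, mem_powerset] at hx ⊢
    exact ⟨RR_sub hx.1, SS_sub hx.1 hx.2⟩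
  · intro x hx
    rw [mem_product, mem_powerset, mem_powerset] at hx ⊢
    exact ⟨RR_sub hx.1, SS_sub hx.1 hx.2⟩
  · intro x hx
    rw [mem_product, mem_powerset, mem_powerset] at hx
    exact Prod.ext (RR_RR v hx.1 _) (SS_RR n v _ _)
  · intro x hx
    rw [mem_product, mem_powerset, mem_powerset] at hx
    exact Prod.ext (RR_RR v hx.1 _) (SS_RR n v _ _)
  · intro x _
    rfl

open Classical in
/-- the contribution of the distinguished vertex `v` -/
noncomputable def gg (n : ℕ) (v : ℤ × ℤ) (T : Finset Edg) : ℝ :=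
  if IsRep n T v ∧ (n : ℝ) / 8 ≤ Metric.diam (clS T v) then (perim T v : ℝ) else 0

lemma gg_nonneg (n : ℕ) (v : ℤ × ℤ) (T : Finset Edg) : 0 ≤ gg n v T := by
  unfold gg
  split_ifs
  · positivity
  · exact le_rfl

lemma gg_RR (n : ℕ) (v : ℤ × ℤ) (T S : Finset Edg) : gg n v (RR n v T S) = gg n v T := by
  unfold gg IsRep
  rw [clV_RR, clS_RR, perim_RR]

open Classical in
/-- indicator of `Small` -/
noncomputable def ind (n : ℕ) (T : Finset Edg) : ℝ := if Small n T then 1 else 0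

lemma ind_nonneg (n : ℕ) (T : Finset Edg) : 0 ≤ ind n T := by
  unfold ind
  split_ifs <;> norm_num

lemma ind_mono {n : ℕ} {T T' : Finset Edg} (h : T ⊆ T') (hT' : T' ⊆ boxE n) :
    ind n T' ≤ ind n T := by
  unfold ind
  by_cases h1 : Small n T'
  · rw [if_pos h1, if_pos (small_mono h hT' h1)]
  · rw [if_neg h1]
    split_ifs <;> norm_num

lemma one_vertex (n : ℕ) (v : ℤ × ℤ) :
    (∑ S ∈ (boxE n).powerset, ind n S) * ∑ T ∈ (boxE n).powerset, gg n v T
      ≤ ((boxE n).powerset.card : ℝ)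
        * ∑ T ∈ (boxE n).powerset, gg n v T * ind n (T ∩ EE n T v) := by
  have h1 : (∑ S ∈ (boxE n).powerset, ind n S) * ∑ T ∈ (boxE n).powerset, gg n v T
      = ∑ x ∈ (boxE n).powerset ×ˢ (boxE n).powerset, gg n v x.1 * ind n x.2 := by
    rw [Finset.sum_product, mul_comm, Finset.sum_mul_sum]
  have h2 : ((boxE n).powerset.card : ℝ)
        * ∑ T ∈ (boxE n).powerset, gg n v T * ind n (T ∩ EE n T v)
      = ∑ x ∈ (boxE n).powerset ×ˢ (boxE n).powerset, gg n v x.1 * ind n (x.1 ∩ EE n x.1 v) := by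
    rw [Finset.sum_product, Finset.mul_sum]
    refine Finset.sum_congr rfl fun T _ => ?_
    dsimp only
    rw [Finset.sum_const, nsmul_eq_mul]
  rw [h1, h2, sum_swap n v fun T _ => gg n v T * ind n (T ∩ EE n T v)]
  refine Finset.sum_le_sum fun x hx => ?_
  rw [mem_product, mem_powerset, mem_powerset] at hx
  rw [gg_RR, EE_RR, RR_inter]
  exact mul_le_mul_of_nonneg_left (ind_mono inter_subset_left hx.2) (gg_nonneg _ _ _)

lemma clS_other {n : ℕ} {T : Finset Edg} (hT : T ⊆ boxE n) {v w : ℤ × ℤ} (hw : w ∉ clV T v) :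
    clS T w ⊆ clS (T ∩ EE n T v) w := by
  have hnot : ∀ z ∈ clV T w, z ∉ clV T v := by
    intro z hz hz'
    exact hw (by
      have h1 : clV T z = clV T v := clV_eq hz'
      rw [← h1]
      exact clV_symm hz)
  have hE : ∀ e ∈ T, tl e ∈ clV T w → e ∈ T ∩ EE n T v := by
    intro e he h
    rw [mem_inter, mem_EE]
    exact ⟨he, hT he, hnot _ h, hnot _ ((tl_mem_iff he).mp h)⟩
  have hV : ∀ z ∈ clV T w, z ∈ clV (T ∩ EE n T v) w := by
    intro z hz
    have key : z ∈ clV T w ∧ z ∈ clV (T ∩ EE n T v) w := by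
      induction hz with
      | refl => exact ⟨mem_clV_self _ _, mem_clV_self _ _⟩
      | tail h0 h1 ih =>
        refine ⟨Relation.ReflTransGen.tail ih.1 h1, Relation.ReflTransGen.tail ih.2 ?_⟩
        obtain ⟨e, he, h2⟩ := h1
        refine ⟨e, hE e he ?_, h2⟩
        rcases h2 with ⟨h5, h6⟩ | ⟨h5, h6⟩
        · rw [h5]; exact ih.1
        · rw [tl_mem_iff he, h6]; exact ih.1
    exact key.2
  intro z hz
  rw [mem_clS] at hz ⊢
  rcases hz with ⟨u, hu, h1⟩ | ⟨e, he, h1, h2⟩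
  · exact Or.inl ⟨u, hV u hu, h1⟩
  · exact Or.inr ⟨e, hE e he h1, hV _ h1, h2⟩

/-- the distinguished cluster is the one selected by `sel` -/
lemma sel_mem {n : ℕ} {T : Finset Edg} (hT : T ⊆ boxE n) {v w : ℤ × ℤ} (hv : v ∈ Box n)
    (hw : w ∈ Box n) (hmax : ∀ v ∈ Box n, Metric.diam (clS T v) ≤ Metric.diam (clS T w))
    (hbig : (n : ℝ) / 8 ≤ Metric.diam (clS T v)) (hs : Small n (T ∩ EE n T v)) : w ∈ clV T v := by
  by_contra hcon
  have h1 := Metric.diam_mono (clS_other hT hcon)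
    (clS_bounded (inter_subset_left.trans hT) hw)
  have h2 := hs w hw
  have h3 := hmax v hv
  linarith

lemma sum_le (n : ℕ) {T : Finset Edg} (hT : T ⊆ boxE n) {w : ℤ × ℤ} (hw : w ∈ Box n)
    (hmax : ∀ v ∈ Box n, Metric.diam (clS T v) ≤ Metric.diam (clS T w)) :
    ∑ v ∈ Box n, gg n v T * ind n (T ∩ EE n T v) ≤ perim T w := by
  classical
  by_cases hex : ∃ v ∈ Box n, gg n v T * ind n (T ∩ EE n T v) ≠ 0
  · have key : ∀ v ∈ Box n, gg n v T * ind n (T ∩ EE n T v) ≠ 0 →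
        IsRep n T v ∧ w ∈ clV T v ∧ gg n v T * ind n (T ∩ EE n T v) = perim T w := by
      intro v hv h
      have h1 : gg n v T ≠ 0 := left_ne_zero_of_mul h
      have h2 : ind n (T ∩ EE n T v) ≠ 0 := right_ne_zero_of_mul h
      have h3 : IsRep n T v ∧ (n : ℝ) / 8 ≤ Metric.diam (clS T v) := by
        by_contra hc
        exact h1 (by unfold gg; rw [if_neg hc])
      have h4 : Small n (T ∩ EE n T v) := by
        by_contra hc
        exact h2 (by unfold ind; rw [if_neg hc])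
      have h5 := sel_mem hT hv hw hmax h3.2 h4
      refine ⟨h3.1, h5, ?_⟩
      unfold gg ind
      rw [if_pos h3, if_pos h4, mul_one, perim_eq h5]
    obtain ⟨v0, hv0, h0⟩ := hex
    obtain ⟨k1, k2, k3⟩ := key v0 hv0 h0
    rw [Finset.sum_eq_single v0, k3]
    · intro v hv hne
      by_contra hc
      obtain ⟨l1, l2, _⟩ := key v hv hc
      have h6 : v ∈ clV T v0 := by
        rw [← clV_eq k2]
        exact clV_symm l2
      have h7 : v0 ∈ clV T v := clV_symm h6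
      have h8 := k1.2 v h6
      have h9 := l1.2 v0 h7
      apply hne
      ext
      · omega
      · omega
    · intro h
      exact absurd hv0 h
  · push Not at hex
    rw [Finset.sum_eq_zero hex]
    positivity

end BoxA

open BoxA in
/-- B1: conditioning on a large cluster, all the others are small with probability at least
`P(Small)`. -/
theorem exB_perim_ge (n : ℕ) (sel : Finset Edg → ℤ × ℤ)
    (hsel : ∀ T ⊆ boxE n, sel T ∈ Box n ∧
      ∀ v ∈ Box n, Metric.diam (clS T v) ≤ Metric.diam (clS T (sel T))) :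
    prB n {T | Small n T} * exB n (fun T => (bigPerim n T : ℝ)) ≤
      exB n (fun T => (perim T (sel T) : ℝ)) := by
  classical
  have hcard : ((boxE n).powerset.card : ℝ) = 2 ^ (boxE n).card := by
    rw [card_powerset]
    push_cast
    ring
  have hind : ∑ S ∈ (boxE n).powerset, ind n S
      = (((boxE n).powerset.filter fun T => T ∈ {T | Small n T}).card : ℝ) := by
    unfold ind
    rw [Finset.sum_ite, Finset.sum_const_zero, add_zero, Finset.sum_const, nsmul_eq_mul, mul_one]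
    rfl
  have hbig : ∀ T, (bigPerim n T : ℝ) = ∑ v ∈ Box n, gg n v T := by
    intro T
    unfold bigPerim gg
    push_cast
    rw [Finset.sum_filter]
  have h1 : (∑ S ∈ (boxE n).powerset, ind n S) * ∑ T ∈ (boxE n).powerset, (bigPerim n T : ℝ)
      ≤ 2 ^ (boxE n).card * ∑ T ∈ (boxE n).powerset, (perim T (sel T) : ℝ) := by
    calc (∑ S ∈ (boxE n).powerset, ind n S) * ∑ T ∈ (boxE n).powerset, (bigPerim n T : ℝ)
        = ∑ v ∈ Box n, (∑ S ∈ (boxE n).powerset, ind n S) * ∑ T ∈ (boxE n).powerset, gg n v T := by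
          rw [← Finset.mul_sum, Finset.sum_comm]
          congr 1
          exact Finset.sum_congr rfl fun T _ => hbig T
      _ ≤ ∑ v ∈ Box n, ((boxE n).powerset.card : ℝ)
            * ∑ T ∈ (boxE n).powerset, gg n v T * ind n (T ∩ EE n T v) :=
          Finset.sum_le_sum fun v _ => one_vertex n v
      _ = 2 ^ (boxE n).card * ∑ T ∈ (boxE n).powerset,
            ∑ v ∈ Box n, gg n v T * ind n (T ∩ EE n T v) := by
          rw [← Finset.mul_sum, Finset.sum_comm, hcard]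
      _ ≤ _ := by
          refine mul_le_mul_of_nonneg_left (Finset.sum_le_sum fun T hT => ?_) (by positivity)
          rw [mem_powerset] at hT
          exact sum_le n hT (hsel T hT).1 (hsel T hT).2
  unfold prB exB
  rw [← hind, div_mul_div_comm, div_le_div_iff₀ (by positivity) (by positivity)]
  have hp : (0 : ℝ) < 2 ^ (boxE n).card := by positivity
  calc (∑ S ∈ (boxE n).powerset, ind n S) * (∑ T ∈ (boxE n).powerset, (bigPerim n T : ℝ))
        * 2 ^ (boxE n).card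
      ≤ (2 ^ (boxE n).card * ∑ T ∈ (boxE n).powerset, (perim T (sel T) : ℝ))
        * 2 ^ (boxE n).card := mul_le_mul_of_nonneg_right h1 hp.le
    _ = _ := by ring

end Pool.Agent.Perc

end PartpercBoxA
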