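import Pool.Agent.Lib.MP_6bd702_z.Z001
import Pool.Agent.Lib.MP_6bd702_z.Z091
import Pool.Agent.Lib.MP_6bd702_z.Z014
import Pool.Agent.Lib.MP_6bd702_z.Z013

section PartpercBoxC

/-!
# Positivity for small boxes (task BoxC)
-/

set_option autoImplicit false

namespace Pool.Agent.Perc

open Finset

namespace BoxC

open BoxAux

/-- the first edge -/
def e0 : Edg := (0, 0, false)

lemma tl_e0 : tl e0 = (0, 0) := rfl
lemma hd_e0 : hd e0 = (1, 0) := rfl

lemma e0_mem {n : ℕ} (hn : 0 < n) : e0 ∈ boxE n := by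
  rw [mem_boxE, tl_e0, hd_e0]
  unfold Box
  simp only [mem_product, mem_Icc]
  omega

lemma toC_zero : toC (0, 0) = 0 := by unfold toC; simp
lemma toC_one : toC (1, 0) = 1 := by unfold toC; simp

lemma clV_e0 : clV {e0} (0, 0) = {(0, 0), (1, 0)} := by
  apply Set.Subset.antisymm
  · intro w hw
    induction hw with
    | refl => exact Or.inl rfl
    | tail _ h1 _ =>
      obtain ⟨e, he, h2⟩ := h1
      rw [mem_singleton] at he
      subst he
      rw [tl_e0, hd_e0] at h2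
      rcases h2 with ⟨_, h⟩ | ⟨h, _⟩
      · exact Or.inr h.symm
      · exact Or.inl h.symm
  · rintro w (rfl | rfl)
    · exact mem_clV_self _ _
    · exact Relation.ReflTransGen.single ⟨e0, mem_singleton_self _, Or.inl ⟨rfl, rfl⟩⟩

lemma clV_other {w : ℤ × ℤ} (h0 : w ≠ (0, 0)) (h1 : w ≠ (1, 0)) : clV {e0} w = {w} := by
  apply Set.Subset.antisymm
  · intro z hz
    induction hz with
    | refl => rfl
    | tail _ h2 ih =>
      rw [Set.mem_singleton_iff] at ih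
      subst ih
      obtain ⟨e, he, h2⟩ := h2
      rw [mem_singleton] at he
      subst he
      rw [tl_e0, hd_e0] at h2
      rcases h2 with ⟨h, _⟩ | ⟨_, h⟩
      · exact absurd h.symm h0
      · exact absurd h.symm h1
  · rintro z rfl
    exact mem_clV_self _ _

lemma clS_im {z : ℂ} (hz : z ∈ clS {e0} (0, 0)) : z.im = 0 := by
  rw [mem_clS] at hz
  rcases hz with ⟨w, hw, h⟩ | ⟨e, he, _, h⟩
  · rw [clV_e0] at hw
    rcases hw with rfl | rfl
    · rw [← h, toC_zero]; simp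
    · rw [← h, toC_one]; simp
  · rw [mem_singleton] at he
    subst he
    rw [tl_e0, hd_e0, toC_zero, toC_one, segment_eq_image] at h
    obtain ⟨t, _, rfl⟩ := h
    simp

lemma zero_mem : (0 : ℂ) ∈ clS {e0} (0, 0) :=
  mem_clS.mpr (Or.inl ⟨(0, 0), mem_clV_self _ _, toC_zero⟩)

lemma one_mem : (1 : ℂ) ∈ clS {e0} (0, 0) :=
  mem_clS.mpr (Or.inl ⟨(1, 0), by rw [clV_e0]; exact Or.inr rfl, toC_one⟩)

lemma diam_other {w : ℤ × ℤ} (h0 : w ≠ (0, 0)) (h1 : w ≠ (1, 0)) :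
    Metric.diam (clS {e0} w) = 0 := by
  have h : clS {e0} w ⊆ {toC w} := by
    intro z hz
    rw [mem_clS, clV_other h0 h1] at hz
    rcases hz with ⟨u, hu, h⟩ | ⟨e, he, h2, _⟩
    · rw [Set.mem_singleton_iff] at hu
      subst hu
      exact h.symm
    · rw [mem_singleton] at he
      subst he
      rw [Set.mem_singleton_iff, tl_e0] at h2
      exact absurd h2.symm h0
  exact Metric.diam_subsingleton (Set.subsingleton_singleton.anti h)

/-- the square above the edge is in the unbounded component -/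
lemma outer_e0 : Outer {e0} (0, 0) (side e0 true) := by
  unfold Outer
  have hs : side e0 true = (0, 0) := rfl
  rw [hs]
  set ray : Set ℂ := (fun t : ℝ => (1 / 2 : ℂ) + t * Complex.I) '' Set.Ici (1 / 2) with hray
  have hc : ctr (0, 0) ∈ ray := by
    refine ⟨1 / 2, Set.mem_Ici.mpr le_rfl, ?_⟩
    unfold ctr
    rw [toC_zero]
    push_cast
    ring
  have hconn : IsPreconnected ray :=
    isPreconnected_Ici.image _ (Continuous.continuousOn (by fun_prop))
  have hsub : ray ⊆ (clS {e0} (0, 0))ᶜ := by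
    rintro z ⟨t, ht, rfl⟩ hz
    have h1 := clS_im hz
    simp at h1
    rw [Set.mem_Ici] at ht
    linarith
  have h2 := hconn.subset_connectedComponentIn hc hsub
  intro hb
  have h3 := hb.subset h2
  obtain ⟨C, hC⟩ := h3.exists_norm_le
  have h4 := hC ((1 / 2 : ℂ) + ((|C| + 1 : ℝ) : ℂ) * Complex.I) ⟨|C| + 1, by
    rw [Set.mem_Ici]; have := abs_nonneg C; linarith, rfl⟩
  have h5 := Complex.abs_im_le_norm ((1 / 2 : ℂ) + ((|C| + 1 : ℝ) : ℂ) * Complex.I)
  have h6 : ((1 / 2 : ℂ) + ((|C| + 1 : ℝ) : ℂ) * Complex.I).im = |C| + 1 := by simp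
  rw [h6, abs_of_nonneg (by positivity)] at h5
  have := le_abs_self C
  linarith

end BoxC

open BoxC BoxAux in
/-- The expected perimeter of the largest cluster is positive. -/
theorem exB_perim_pos (n : ℕ) (hn : 0 < n) (sel : Finset Edg → ℤ × ℤ)
    (hsel : ∀ T ⊆ boxE n, sel T ∈ Box n ∧
      ∀ v ∈ Box n, Metric.diam (clS T v) ≤ Metric.diam (clS T (sel T))) :
    1 / 2 ^ (boxE n).card ≤ exB n (fun T => (perim T (sel T) : ℝ)) := by
  classical
  have hT0 : ({e0} : Finset Edg) ⊆ boxE n := by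
    rw [singleton_subset_iff]; exact e0_mem hn
  have hv0 : ((0, 0) : ℤ × ℤ) ∈ Box n := by
    have := (mem_boxE.mp (e0_mem hn)).1
    rwa [tl_e0] at this
  have hdiam : 1 ≤ Metric.diam (clS {e0} (0, 0)) := by
    have := Metric.dist_le_diam_of_mem (clS_bounded hT0 hv0) one_mem zero_mem
    simpa using this
  have hsel0 : sel {e0} ∈ clV {e0} (0, 0) := by
    have h1 := (hsel {e0} hT0).2 _ hv0
    rw [clV_e0]
    by_contra hc
    have h2 : sel {e0} ≠ (0, 0) := fun h => hc (Or.inl h)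
    have h3 : sel {e0} ≠ (1, 0) := fun h => hc (Or.inr h)
    rw [diam_other h2 h3] at h1
    linarith
  have hperim : 1 ≤ perim {e0} (sel {e0}) := by
    rw [perim_eq hsel0]
    unfold perim
    rw [Nat.one_le_iff_ne_zero, ← Nat.pos_iff_ne_zero, card_pos]
    refine ⟨(e0, true), ?_⟩
    rw [mem_filter, mem_product]
    exact ⟨⟨mem_singleton_self _, mem_univ _⟩, mem_clV_self _ _, outer_e0⟩
  unfold exB
  refine div_le_div_of_nonneg_right ?_ (by positivity)
  calc (1 : ℝ) ≤ (perim {e0} (sel {e0}) : ℝ) := by exact_mod_cast hperim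
    _ ≤ _ := Finset.single_le_sum (f := fun T => (perim T (sel T) : ℝ)) (fun T _ => by positivity)
        (mem_powerset.mpr hT0)

end Pool.Agent.Perc

end PartpercBoxC

section PartpercBox



end PartpercBox

section PartpercMain

/-!
# The final theorem (task Main)
-/

set_option autoImplicit false

namespace Pool.Agent.Perc

open Finset

/-- The window of the two-arm event contains the faces of the edges of the box. -/
theorem Main.phiE_mem {n : ℕ} {v : ℤ × ℤ} (hv : v ∈ Box n) {e : Edg} (he : e ∈ boxE n) :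
    phiE e ∈ RF ((phiV v).1 - (2 * n + 1)) ((phiV v).1 + (2 * n + 1))
      ((phiV v).2 - (2 * n + 1)) ((phiV v).2 + (2 * n + 1)) := by
  obtain ⟨x, y, b⟩ := e
  obtain ⟨v1, v2⟩ := v
  simp only [Box, mem_product, mem_Icc] at hv
  simp only [boxE, mem_filter, mem_product, mem_Icc, mem_univ, and_true, Box, hd] at he
  simp only [RF, phiE, phiV, mem_product, mem_Ico]
  cases b with
  | true =>
    simp only [if_true] at he ⊢
    refine ⟨⟨?_, ?_⟩, ?_, ?_⟩ <;> omega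
  | false =>
    simp only [Bool.false_eq_true, if_false] at he ⊢
    refine ⟨⟨?_, ?_⟩, ?_, ?_⟩ <;> omega

/-- The event that `v` is next to the unbounded component of its cluster, of large diameter. -/
theorem Main.prB_ge {n : ℕ} (hn : 4 ≤ n) {v : ℤ × ℤ}
    (hv : v ∈ Icc ((n / 4 : ℕ) : ℤ) ((n : ℤ) - (n / 4 : ℕ)) ×ˢ
      Icc ((n / 4 : ℕ) : ℤ) ((n : ℤ) - (n / 4 : ℕ))) :
    p2 (2 * n + 1) ≤ prB n {T | (n : ℝ) / 8 ≤ Metric.diam (clS T v) ∧ Outer T v v} := by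
  rw [mem_product, mem_Icc, mem_Icc] at hv
  have hvB : v ∈ Box n := by
    simp only [Box, mem_product, mem_Icc]
    refine ⟨⟨?_, ?_⟩, ?_, ?_⟩ <;> omega
  set S := RF ((phiV v).1 - (2 * n + 1)) ((phiV v).1 + (2 * n + 1))
      ((phiV v).2 - (2 * n + 1)) ((phiV v).2 + (2 * n + 1)) with hS
  rw [← pr_twoArmAt (R := 2 * n + 1) v (S := S) (le_refl _),
    ← pr_cfgE n (S := S) (fun e he => Main.phiE_mem hvB he)]
  refine pr_mono S fun ω hω => ?_
  refine ⟨?_, outer_of_twoArmAt (by omega) hω hvB⟩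
  have h1 := diam_ge_of_twoArmAt (n := n) (d := n / 4) (by omega) hω hvB
    ⟨hv.1.1, by omega, hv.2.1, by omega⟩
  refine le_trans ?_ h1
  have h2 : n ≤ 8 * (n / 4) := by omega
  have h3 : (n : ℝ) ≤ 8 * ((n / 4 : ℕ) : ℝ) := by exact_mod_cast h2
  linarith

open Classical in
/-- Counting and expectation. -/
theorem Main.exB_card (n : ℕ) (s : Finset (ℤ × ℤ)) (A : ℤ × ℤ → Set (Finset Edg)) :
    exB n (fun T => ((s.filter fun v => T ∈ A v).card : ℝ)) = ∑ v ∈ s, prB n (A v) := by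
  simp only [exB, prB, card_eq_sum_ones, sum_filter, Nat.cast_sum, Nat.cast_ite, Nat.cast_one,
    Nat.cast_zero]
  rw [sum_comm, sum_div]

theorem Main.exB_mono {n : ℕ} {f g : Finset Edg → ℝ} (h : ∀ T ⊆ boxE n, f T ≤ g T) :
    exB n f ≤ exB n g := by
  unfold exB
  gcongr with T hT
  exact h T (mem_powerset.1 hT)

theorem exB_bigPerim_ge : ∃ c : ℝ, 0 < c ∧ ∃ n₀ : ℕ, ∀ n : ℕ, n₀ ≤ n →
    c * (n : ℝ) ^ (5 / 3 : ℝ) ≤ exB n (fun T => (bigPerim n T : ℝ)) := by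
  classical
  obtain ⟨c, hc, hp2⟩ := p2_ge
  refine ⟨c / 16, by positivity, 8, fun n hn => ?_⟩
  have hn8 : (8 : ℝ) ≤ n := by exact_mod_cast hn
  have hn0 : (0 : ℝ) < n := by linarith
  set s := Icc ((n / 4 : ℕ) : ℤ) ((n : ℤ) - (n / 4 : ℕ)) ×ˢ
      Icc ((n / 4 : ℕ) : ℤ) ((n : ℤ) - (n / 4 : ℕ)) with hs
  -- the number of vertices in the middle
  have hcard : (n : ℝ) ^ 2 / 4 ≤ (s.card : ℝ) := by
    have h1 : s.card = (n - 2 * (n / 4) + 1) ^ 2 := by
      rw [hs, card_product, Int.card_Icc, sq]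
      congr 1 <;> omega
    have h2 : n ≤ 2 * (n - 2 * (n / 4) + 1) := by omega
    have h3 : (n : ℝ) ≤ 2 * ((n - 2 * (n / 4) + 1 : ℕ) : ℝ) := by exact_mod_cast h2
    rw [h1]
    push_cast
    push_cast at h3
    nlinarith
  -- the two-arm probability
  have harm : c / 2 * (n : ℝ) ^ (-(1 / 3 : ℝ)) ≤ p2 (2 * n + 1) := by
    have h1 := hp2 (2 * n + 1) (by omega)
    push_cast at h1
    refine le_trans ?_ h1
    have h2 : (8 * (n : ℝ)) ^ (-(1 / 3 : ℝ)) ≤ (2 * (n : ℝ) + 1) ^ (-(1 / 3 : ℝ)) := by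
      apply Real.rpow_le_rpow_of_nonpos (by positivity) (by linarith) (by norm_num)
    have h3 : (8 * (n : ℝ)) ^ (-(1 / 3 : ℝ)) = 1 / 2 * (n : ℝ) ^ (-(1 / 3 : ℝ)) := by
      rw [Real.mul_rpow (by norm_num) hn0.le]
      congr 1
      rw [show (8 : ℝ) = 2 ^ (3 : ℝ) by norm_num, ← Real.rpow_mul (by norm_num)]
      norm_num
    rw [h3] at h2
    nlinarith
  have h1 : exB n (fun T => (((s.filter fun v => T ∈ {T | (n : ℝ) / 8 ≤ Metric.diam (clS T v) ∧
      Outer T v v}).card : ℝ) / 2)) ≤ exB n (fun T => (bigPerim n T : ℝ)) := by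
    apply Main.exB_mono
    intro T hT
    refine le_trans ?_ (bigPerim_ge n hn T hT)
    have h2 : (s.filter fun v => T ∈ {T | (n : ℝ) / 8 ≤ Metric.diam (clS T v) ∧ Outer T v v}) ⊆
        (Box n).filter fun v => (n : ℝ) / 8 ≤ Metric.diam (clS T v) ∧ Outer T v v := by
      intro v hv
      rw [mem_filter] at hv ⊢
      refine ⟨?_, hv.2⟩
      have h3 := hv.1
      rw [hs, mem_product, mem_Icc, mem_Icc] at h3
      simp only [Box, mem_product, mem_Icc]
      refine ⟨⟨?_, ?_⟩, ?_, ?_⟩ <;> omega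
    have h3 := card_le_card h2
    have h4 : ((s.filter fun v => T ∈ {T | (n : ℝ) / 8 ≤ Metric.diam (clS T v) ∧
      Outer T v v}).card : ℝ) ≤ (((Box n).filter fun v => (n : ℝ) / 8 ≤ Metric.diam (clS T v) ∧
        Outer T v v).card : ℝ) := by exact_mod_cast h3
    linarith
  refine le_trans ?_ h1
  have h2 : exB n (fun T => (((s.filter fun v => T ∈ {T | (n : ℝ) / 8 ≤ Metric.diam (clS T v) ∧
      Outer T v v}).card : ℝ) / 2)) = (∑ v ∈ s, prB n {T | (n : ℝ) / 8 ≤ Metric.diam (clS T v) ∧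
      Outer T v v}) / 2 := by
    rw [← Main.exB_card n s]
    unfold exB
    rw [← sum_div, div_right_comm]
    congr!
  rw [h2]
  have h3 : (s.card : ℝ) * (c / 2 * (n : ℝ) ^ (-(1 / 3 : ℝ))) ≤
      ∑ v ∈ s, prB n {T | (n : ℝ) / 8 ≤ Metric.diam (clS T v) ∧ Outer T v v} := by
    rw [← nsmul_eq_mul]
    apply card_nsmul_le_sum
    intro v hv
    exact harm.trans (Main.prB_ge (by omega) hv)
  have h4 : (n : ℝ) ^ (5 / 3 : ℝ) = (n : ℝ) ^ 2 * (n : ℝ) ^ (-(1 / 3 : ℝ)) := by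
    rw [← Real.rpow_natCast, ← Real.rpow_add hn0]
    norm_num
  have h5 : 0 < (n : ℝ) ^ (-(1 / 3 : ℝ)) := Real.rpow_pos_of_pos hn0 _
  have h6 : (n : ℝ) ^ 2 / 4 * (c / 2 * (n : ℝ) ^ (-(1 / 3 : ℝ))) ≤
      (s.card : ℝ) * (c / 2 * (n : ℝ) ^ (-(1 / 3 : ℝ))) :=
    mul_le_mul_of_nonneg_right hcard (by positivity)
  rw [h4]
  linarith

/-- Finitely many positive numbers. -/
theorem Main.exists_small_const (f : ℕ → ℝ) (hf : ∀ n, 1 ≤ n → 0 < f n) (N : ℕ) :
    ∃ c : ℝ, 0 < c ∧ ∀ n, 1 ≤ n → n < N → c * (n : ℝ) ^ (5 / 3 : ℝ) ≤ f n := by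
  induction N with
  | zero => exact ⟨1, one_pos, fun n _ h => absurd h (Nat.not_lt_zero n)⟩
  | succ N ih =>
    obtain ⟨c, hc, h⟩ := ih
    by_cases hN : 1 ≤ N
    · have hN0 : (0 : ℝ) < (N : ℝ) ^ (5 / 3 : ℝ) := Real.rpow_pos_of_pos (by exact_mod_cast hN) _
      refine ⟨min c (f N / (N : ℝ) ^ (5 / 3 : ℝ)), lt_min hc (div_pos (hf N hN) hN0),
        fun n hn hnN => ?_⟩
      have hn0 : (0 : ℝ) < (n : ℝ) ^ (5 / 3 : ℝ) := Real.rpow_pos_of_pos (by exact_mod_cast hn) _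
      rcases Nat.lt_succ_iff_lt_or_eq.1 hnN with h1 | h1
      · exact (mul_le_mul_of_nonneg_right (min_le_left _ _) hn0.le).trans (h n hn h1)
      · subst h1
        calc min c (f n / (n : ℝ) ^ (5 / 3 : ℝ)) * (n : ℝ) ^ (5 / 3 : ℝ)
            ≤ f n / (n : ℝ) ^ (5 / 3 : ℝ) * (n : ℝ) ^ (5 / 3 : ℝ) :=
              mul_le_mul_of_nonneg_right (min_le_right _ _) hn0.le
          _ = f n := div_mul_cancel₀ _ hn0.ne'
    · refine ⟨c, hc, fun n hn hnN => h n hn ?_⟩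
      omega

/-- The expected number of edges of the outer perimeter of the largest cluster of critical bond
percolation in the box `{0, …, n}²` is at least `c n ^ (5 / 3)`. -/
theorem main : ∃ c : ℝ, 0 < c ∧ ∀ n : ℕ, 1 ≤ n → ∀ sel : Finset Edg → ℤ × ℤ,
    (∀ T ⊆ boxE n, sel T ∈ Box n ∧
      ∀ v ∈ Box n, Metric.diam (clS T v) ≤ Metric.diam (clS T (sel T))) →
    c * (n : ℝ) ^ (5 / 3 : ℝ) ≤ exB n (fun T => (perim T (sel T) : ℝ)) := by
  obtain ⟨c₀, hc₀, hsmall⟩ := prB_small_ge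
  obtain ⟨c₁, hc₁, n₀, hbig⟩ := exB_bigPerim_ge
  obtain ⟨c₂, hc₂, hfin⟩ := Main.exists_small_const (fun n => 1 / 2 ^ (boxE n).card)
    (fun n _ => by positivity) n₀
  refine ⟨min (c₀ * c₁) c₂, lt_min (mul_pos hc₀ hc₁) hc₂, fun n hn sel hsel => ?_⟩
  have hn0 : (0 : ℝ) < (n : ℝ) ^ (5 / 3 : ℝ) := Real.rpow_pos_of_pos (by exact_mod_cast hn) _
  by_cases h : n₀ ≤ n
  · have h1 := exB_perim_ge n sel hsel
    have h2 := hbig n h
    have h3 := hsmall n hn
    calc min (c₀ * c₁) c₂ * (n : ℝ) ^ (5 / 3 : ℝ)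
        ≤ c₀ * c₁ * (n : ℝ) ^ (5 / 3 : ℝ) :=
          mul_le_mul_of_nonneg_right (min_le_left _ _) hn0.le
      _ = c₀ * (c₁ * (n : ℝ) ^ (5 / 3 : ℝ)) := by ring
      _ ≤ prB n {T | Small n T} * exB n (fun T => (bigPerim n T : ℝ)) :=
          mul_le_mul h3 h2 (by positivity) (hc₀.le.trans h3)
      _ ≤ _ := h1
  · calc min (c₀ * c₁) c₂ * (n : ℝ) ^ (5 / 3 : ℝ)
        ≤ c₂ * (n : ℝ) ^ (5 / 3 : ℝ) := mul_le_mul_of_nonneg_right (min_le_right _ _) hn0.le
      _ ≤ 1 / 2 ^ (boxE n).card := hfin n hn (not_le.1 h)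
      _ ≤ _ := exB_perim_pos n hn sel hsel

end Pool.Agent.Perc

end PartpercMain

section PartpercMainGen

/-!
# The final theorem with a general exponent (task MainGen)
-/

set_option autoImplicit false

namespace Pool.Agent.Perc

open Finset

theorem exB_bigPerim_ge_of_p2 {s : ℝ} (hs0 : 0 ≤ s) {c : ℝ} (hc : 0 < c)
    (hp2 : ∀ R : ℕ, 1 ≤ R → c * (R : ℝ) ^ (-s) ≤ p2 R) :
    ∃ c' : ℝ, 0 < c' ∧ ∃ n₀ : ℕ, ∀ n : ℕ, n₀ ≤ n →
    c' * (n : ℝ) ^ (2 - s) ≤ exB n (fun T => (bigPerim n T : ℝ)) := by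
  classical
  have h3s : (0 : ℝ) < (3 : ℝ) ^ (-s) := Real.rpow_pos_of_pos (by norm_num) _
  refine ⟨c * (3 : ℝ) ^ (-s) / 8, by positivity, 8, fun n hn => ?_⟩
  have hn8 : (8 : ℝ) ≤ n := by exact_mod_cast hn
  have hn0 : (0 : ℝ) < n := by linarith
  set S := Icc ((n / 4 : ℕ) : ℤ) ((n : ℤ) - (n / 4 : ℕ)) ×ˢ
      Icc ((n / 4 : ℕ) : ℤ) ((n : ℤ) - (n / 4 : ℕ)) with hS
  -- the number of vertices in the middle
  have hcard : (n : ℝ) ^ 2 / 4 ≤ (S.card : ℝ) := by
    have h1 : S.card = (n - 2 * (n / 4) + 1) ^ 2 := by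
      rw [hS, card_product, Int.card_Icc, sq]
      congr 1 <;> omega
    have h2 : n ≤ 2 * (n - 2 * (n / 4) + 1) := by omega
    have h3 : (n : ℝ) ≤ 2 * ((n - 2 * (n / 4) + 1 : ℕ) : ℝ) := by exact_mod_cast h2
    rw [h1]
    push_cast
    push_cast at h3
    nlinarith
  -- the two-arm probability
  have harm : c * (3 : ℝ) ^ (-s) * (n : ℝ) ^ (-s) ≤ p2 (2 * n + 1) := by
    have h1 := hp2 (2 * n + 1) (by omega)
    push_cast at h1
    refine le_trans ?_ h1
    have h2 : (3 * (n : ℝ)) ^ (-s) ≤ (2 * (n : ℝ) + 1) ^ (-s) := by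
      apply Real.rpow_le_rpow_of_nonpos (by positivity) (by linarith) (by linarith)
    rw [Real.mul_rpow (by norm_num) hn0.le] at h2
    rw [mul_assoc]
    exact mul_le_mul_of_nonneg_left h2 hc.le
  have h1 : exB n (fun T => (((S.filter fun v => T ∈ {T | (n : ℝ) / 8 ≤ Metric.diam (clS T v) ∧
      Outer T v v}).card : ℝ) / 2)) ≤ exB n (fun T => (bigPerim n T : ℝ)) := by
    apply Main.exB_mono
    intro T hT
    refine le_trans ?_ (bigPerim_ge n hn T hT)
    have h2 : (S.filter fun v => T ∈ {T | (n : ℝ) / 8 ≤ Metric.diam (clS T v) ∧ Outer T v v}) ⊆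
        (Box n).filter fun v => (n : ℝ) / 8 ≤ Metric.diam (clS T v) ∧ Outer T v v := by
      intro v hv
      rw [mem_filter] at hv ⊢
      refine ⟨?_, hv.2⟩
      have h3 := hv.1
      rw [hS, mem_product, mem_Icc, mem_Icc] at h3
      simp only [Box, mem_product, mem_Icc]
      refine ⟨⟨?_, ?_⟩, ?_, ?_⟩ <;> omega
    have h3 := card_le_card h2
    have h4 : ((S.filter fun v => T ∈ {T | (n : ℝ) / 8 ≤ Metric.diam (clS T v) ∧
      Outer T v v}).card : ℝ) ≤ (((Box n).filter fun v => (n : ℝ) / 8 ≤ Metric.diam (clS T v) ∧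
        Outer T v v).card : ℝ) := by exact_mod_cast h3
    linarith
  refine le_trans ?_ h1
  have h2 : exB n (fun T => (((S.filter fun v => T ∈ {T | (n : ℝ) / 8 ≤ Metric.diam (clS T v) ∧
      Outer T v v}).card : ℝ) / 2)) = (∑ v ∈ S, prB n {T | (n : ℝ) / 8 ≤ Metric.diam (clS T v) ∧
      Outer T v v}) / 2 := by
    rw [← Main.exB_card n S]
    unfold exB
    rw [← sum_div, div_right_comm]
    congr!
  rw [h2]
  have h3 : (S.card : ℝ) * (c * (3 : ℝ) ^ (-s) * (n : ℝ) ^ (-s)) ≤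
      ∑ v ∈ S, prB n {T | (n : ℝ) / 8 ≤ Metric.diam (clS T v) ∧ Outer T v v} := by
    rw [← nsmul_eq_mul]
    apply card_nsmul_le_sum
    intro v hv
    exact harm.trans (Main.prB_ge (by omega) hv)
  have h4 : (n : ℝ) ^ (2 - s) = (n : ℝ) ^ 2 * (n : ℝ) ^ (-s) := by
    rw [← Real.rpow_natCast, ← Real.rpow_add hn0]
    congr 1
  have h5 : 0 < (n : ℝ) ^ (-s) := Real.rpow_pos_of_pos hn0 _
  have h6 : (n : ℝ) ^ 2 / 4 * (c * (3 : ℝ) ^ (-s) * (n : ℝ) ^ (-s)) ≤
      (S.card : ℝ) * (c * (3 : ℝ) ^ (-s) * (n : ℝ) ^ (-s)) :=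
    mul_le_mul_of_nonneg_right hcard (by positivity)
  rw [h4]
  linarith

/-- Finitely many positive numbers. -/
theorem Main.exists_small_const_gen (f : ℕ → ℝ) (hf : ∀ n, 1 ≤ n → 0 < f n) (t : ℝ) (N : ℕ) :
    ∃ c : ℝ, 0 < c ∧ ∀ n, 1 ≤ n → n < N → c * (n : ℝ) ^ t ≤ f n := by
  induction N with
  | zero => exact ⟨1, one_pos, fun n _ h => absurd h (Nat.not_lt_zero n)⟩
  | succ N ih =>
    obtain ⟨c, hc, h⟩ := ih
    by_cases hN : 1 ≤ N
    · have hN0 : (0 : ℝ) < (N : ℝ) ^ t := Real.rpow_pos_of_pos (by exact_mod_cast hN) _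
      refine ⟨min c (f N / (N : ℝ) ^ t), lt_min hc (div_pos (hf N hN) hN0),
        fun n hn hnN => ?_⟩
      have hn0 : (0 : ℝ) < (n : ℝ) ^ t := Real.rpow_pos_of_pos (by exact_mod_cast hn) _
      rcases Nat.lt_succ_iff_lt_or_eq.1 hnN with h1 | h1
      · exact (mul_le_mul_of_nonneg_right (min_le_left _ _) hn0.le).trans (h n hn h1)
      · subst h1
        calc min c (f n / (n : ℝ) ^ t) * (n : ℝ) ^ t
            ≤ f n / (n : ℝ) ^ t * (n : ℝ) ^ t :=
              mul_le_mul_of_nonneg_right (min_le_right _ _) hn0.le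
          _ = f n := div_mul_cancel₀ _ hn0.ne'
    · refine ⟨c, hc, fun n hn hnN => h n hn ?_⟩
      omega

/-- From a lower bound for the two-arm probability of the box of radius `R` to the expected number
of edges of the outer perimeter of the largest cluster of the box `{0, …, n}²`. -/
theorem main_of_p2 {s : ℝ} (hs0 : 0 ≤ s)
    (hp2 : ∃ c : ℝ, 0 < c ∧ ∀ R : ℕ, 1 ≤ R → c * (R : ℝ) ^ (-s) ≤ p2 R) :
    ∃ c : ℝ, 0 < c ∧ ∀ n : ℕ, 1 ≤ n → ∀ sel : Finset Edg → ℤ × ℤ,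
    (∀ T ⊆ boxE n, sel T ∈ Box n ∧
      ∀ v ∈ Box n, Metric.diam (clS T v) ≤ Metric.diam (clS T (sel T))) →
    c * (n : ℝ) ^ (2 - s) ≤ exB n (fun T => (perim T (sel T) : ℝ)) := by
  obtain ⟨c₃, hc₃, hp2'⟩ := hp2
  obtain ⟨c₀, hc₀, hsmall⟩ := prB_small_ge
  obtain ⟨c₁, hc₁, n₀, hbig⟩ := exB_bigPerim_ge_of_p2 hs0 hc₃ hp2'
  obtain ⟨c₂, hc₂, hfin⟩ := Main.exists_small_const_gen (fun n => 1 / 2 ^ (boxE n).card)
    (fun n _ => by positivity) (2 - s) n₀
  refine ⟨min (c₀ * c₁) c₂, lt_min (mul_pos hc₀ hc₁) hc₂, fun n hn sel hsel => ?_⟩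
  have hn0 : (0 : ℝ) < (n : ℝ) ^ (2 - s) := Real.rpow_pos_of_pos (by exact_mod_cast hn) _
  by_cases h : n₀ ≤ n
  · have h1 := exB_perim_ge n sel hsel
    have h2 := hbig n h
    have h3 := hsmall n hn
    calc min (c₀ * c₁) c₂ * (n : ℝ) ^ (2 - s)
        ≤ c₀ * c₁ * (n : ℝ) ^ (2 - s) :=
          mul_le_mul_of_nonneg_right (min_le_left _ _) hn0.le
      _ = c₀ * (c₁ * (n : ℝ) ^ (2 - s)) := by ring
      _ ≤ prB n {T | Small n T} * exB n (fun T => (bigPerim n T : ℝ)) :=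
          mul_le_mul h3 h2 (by positivity) (hc₀.le.trans h3)
      _ ≤ _ := h1
  · calc min (c₀ * c₁) c₂ * (n : ℝ) ^ (2 - s)
        ≤ c₂ * (n : ℝ) ^ (2 - s) := mul_le_mul_of_nonneg_right (min_le_right _ _) hn0.le
      _ ≤ 1 / 2 ^ (boxE n).card := hfin n hn (not_le.1 h)
      _ ≤ _ := exB_perim_pos n hn sel hsel

end Pool.Agent.Perc

end PartpercMainGen

section PartpercQAsymR

/-!
# Asymptotics of `A(2n) / A_HT(2n)^2` (real analysis)

`r1 k = 3^k k! (3k+1)! / ((2k)! (2k+1)!)`, `D1 n = ∏_{k<n} r1 k = 3^(n(n-1)/2) A(n)` (number of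
alternating sign matrices), `D1 n * E1 n` its companion; `pv n = D1 (2n) / (3^n (D1 n ^ 2 E1 n)^2)`.
Result: `1 / (32 n) ≤ (pv n)^4 ≤ 1 / (2 n + 1)`.
-/

set_option autoImplicit false

namespace Pool.Agent.Perc.QAsym

open Finset Filter Topology

noncomputable def r1 (k : ℕ) : ℝ :=
  3 ^ k * (k.factorial : ℝ) * ((3 * k + 1).factorial : ℝ) /
    (((2 * k).factorial : ℝ) * ((2 * k + 1).factorial : ℝ))

noncomputable def D1 (n : ℕ) : ℝ := ∏ k ∈ range n, r1 k

noncomputable def E1 (n : ℕ) : ℝ := ∏ k ∈ range n, ((3 * (k : ℝ) + 2) / (3 * k + 1))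

noncomputable def pv (n : ℕ) : ℝ := D1 (2 * n) / (3 ^ n * (D1 n ^ 2 * E1 n) ^ 2)

noncomputable def rho (n : ℕ) : ℝ :=
  r1 (2 * n) * r1 (2 * n + 1) / (3 * r1 n ^ 4 * ((3 * n + 2) / (3 * n + 1)) ^ 2)

noncomputable def g (x : ℝ) : ℝ := 9 * (3 * x + 2) * (3 * x + 4) / (4 * (2 * x + 1) * (2 * x + 3))

theorem r1_pos (k : ℕ) : 0 < r1 k := by
  unfold r1
  positivity

theorem r1_succ (k : ℕ) : r1 (k + 1) = r1 k * g k := by
  unfold r1 g
  have e1 : 3 * (k + 1) + 1 = (3 * k + 1) + 1 + 1 + 1 := by ring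
  have e2 : 2 * (k + 1) = (2 * k) + 1 + 1 := by ring
  have e3 : 2 * (k + 1) + 1 = (2 * k + 1) + 1 + 1 := by ring
  rw [e3, e1, e2, Nat.factorial_succ k, Nat.factorial_succ (3 * k + 1 + 1 + 1),
    Nat.factorial_succ (3 * k + 1 + 1), Nat.factorial_succ (3 * k + 1),
    Nat.factorial_succ (2 * k + 1 + 1), Nat.factorial_succ (2 * k + 1), Nat.factorial_succ (2 * k)]
  have h1 : (k.factorial : ℝ) ≠ 0 := by positivity
  have h2 : ((3 * k + 1).factorial : ℝ) ≠ 0 := by positivity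
  have h3 : ((2 * k).factorial : ℝ) ≠ 0 := by positivity
  push_cast
  field_simp
  ring

theorem rho_pos (n : ℕ) : 0 < rho n := by
  unfold rho
  have h1 := r1_pos (2 * n)
  have h2 := r1_pos (2 * n + 1)
  have h3 := r1_pos n
  positivity

noncomputable def sig (n : ℝ) : ℝ :=
  16 * (6 * n + 5) ^ 2 * (6 * n + 7) ^ 2 * (2 * n + 1) ^ 4 * (2 * n + 3) ^ 4 /
    ((4 * n + 1) * (4 * n + 3) ^ 3 * (4 * n + 5) ^ 3 * (4 * n + 7) * (3 * n + 1) * (3 * n + 2) *
      (3 * n + 4) * (3 * n + 5))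

theorem rho_succ (n : ℕ) : rho (n + 1) = rho n * sig n := by
  have h1 : r1 (2 * n + 1) = r1 (2 * n) * g (2 * n) := by
    rw [r1_succ]; push_cast; rfl
  have h2 : r1 (2 * (n + 1)) = r1 (2 * n) * g (2 * n) * g (2 * n + 1) := by
    rw [show 2 * (n + 1) = 2 * n + 1 + 1 by ring, r1_succ, h1]; push_cast; rfl
  have h3 : r1 (2 * (n + 1) + 1) = r1 (2 * n) * g (2 * n) * g (2 * n + 1) * g (2 * n + 2) := by
    rw [r1_succ, h2]; push_cast; ring_nf
  have h4 := r1_succ n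
  unfold rho
  rw [h1, h2, h3, h4]
  have ha := (r1_pos (2 * n)).ne'
  have hb := (r1_pos n).ne'
  generalize r1 (2 * n) = a at *
  generalize r1 n = b at *
  unfold g sig
  push_cast
  field_simp
  ring

theorem pv_succ (n : ℕ) : pv (n + 1) = pv n * rho n := by
  unfold pv rho
  have h1 : D1 (2 * (n + 1)) = D1 (2 * n) * r1 (2 * n) * r1 (2 * n + 1) := by
    unfold D1
    rw [show 2 * (n + 1) = 2 * n + 1 + 1 by ring, prod_range_succ, prod_range_succ]
  have h2 : D1 (n + 1) = D1 n * r1 n := by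
    unfold D1
    rw [prod_range_succ]
  have h3 : E1 (n + 1) = E1 n * ((3 * (n : ℝ) + 2) / (3 * n + 1)) := by
    unfold E1
    rw [prod_range_succ]
  rw [h1, h2, h3, pow_succ]
  have h4 := (r1_pos n).ne'
  have h5 : D1 n ≠ 0 := (prod_pos fun k _ => r1_pos k).ne'
  have h6 : E1 n ≠ 0 := (prod_pos fun k _ => by positivity).ne'
  field_simp

theorem pv_zero : pv 0 = 1 := by simp [pv, D1, E1]

theorem r1_zero : r1 0 = 1 := by simp [r1]

theorem r1_one : r1 1 = 6 := by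
  have h := r1_succ 0
  rw [r1_zero, zero_add] at h
  rw [h]
  unfold g
  norm_num

theorem pv_one : pv 1 = 1 / 2 := by
  have h := pv_succ 0
  rw [pv_zero, zero_add] at h
  rw [h]
  unfold rho
  rw [show 2 * 0 + 1 = 1 from rfl, show 2 * 0 = 0 from rfl, r1_zero, r1_one]
  norm_num

theorem sig_le (n : ℝ) (hn : 1 ≤ n) :
    sig n ≤ (4 * n + 2) * (4 * n + 5) / ((4 * n + 6) * (4 * n + 1)) := by
  obtain ⟨m, rfl⟩ : ∃ m, n = m + 1 := ⟨n - 1, by ring⟩
  have hm : 0 ≤ m := by linarith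
  unfold sig
  rw [div_le_div_iff₀ (by positivity) (by positivity), ← sub_nonneg]
  ring_nf
  positivity

theorem le_sig (n : ℝ) (hn : 0 ≤ n) :
    (4 * n + 6) * (4 * n + 3) / ((4 * n + 7) * (4 * n + 2)) ≤ sig n := by
  unfold sig
  rw [div_le_div_iff₀ (by positivity) (by positivity), ← sub_nonneg]
  ring_nf
  positivity

/-- The ratio of factorials in terms of the Stirling sequence. -/
theorem r1_stirling (k : ℕ) (hk : k ≠ 0) :
    r1 k = (81 / 16) ^ k * (Stirling.stirlingSeq k * Stirling.stirlingSeq (3 * k) /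
      Stirling.stirlingSeq (2 * k) ^ 2) * (√3 / 2) * ((3 * k + 1) / (2 * k + 1)) := by
  have hk' : (0 : ℝ) < k := by exact_mod_cast Nat.pos_of_ne_zero hk
  have hx : 0 < ((k : ℝ) / Real.exp 1) ^ k := by positivity
  unfold r1 Stirling.stirlingSeq
  rw [Nat.factorial_succ, Nat.factorial_succ]
  push_cast
  have e3 : ((3 * (k : ℝ)) / Real.exp 1) ^ (3 * k) = 27 ^ k * (((k : ℝ) / Real.exp 1) ^ k) ^ 3 := by
    rw [mul_div_assoc, mul_pow, pow_mul, ← pow_mul _ k 3, mul_comm k 3]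
    norm_num
  have e2 : ((2 * (k : ℝ)) / Real.exp 1) ^ (2 * k) = 4 ^ k * (((k : ℝ) / Real.exp 1) ^ k) ^ 2 := by
    rw [mul_div_assoc, mul_pow, pow_mul, ← pow_mul _ k 2, mul_comm k 2]
    norm_num
  rw [e3, e2]
  have s1 : √(2 * (k : ℝ)) * √(2 * (3 * (k : ℝ))) = 2 * √3 * k := by
    rw [← Real.sqrt_mul (by positivity)]
    rw [show 2 * (k : ℝ) * (2 * (3 * (k : ℝ))) = 3 * (2 * k) ^ 2 by ring,
      Real.sqrt_mul (by norm_num), Real.sqrt_sq (by positivity)]
    ring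
  have s2 : √(2 * (2 * (k : ℝ))) ^ 2 = 4 * k := by
    rw [Real.sq_sqrt (by positivity)]
    ring
  have h1 : (k.factorial : ℝ) ≠ 0 := by positivity
  have h2 : ((3 * k).factorial : ℝ) ≠ 0 := by positivity
  have h3 : ((2 * k).factorial : ℝ) ≠ 0 := by positivity
  have h4 : √(2 * (k : ℝ)) ≠ 0 := by positivity
  have h5 : √(2 * (3 * (k : ℝ))) ≠ 0 := by positivity
  have h6 : √(2 * (2 * (k : ℝ))) ≠ 0 := by positivity
  have h7 : (81 / 16 : ℝ) ^ k = 3 ^ k * 27 ^ k / (4 ^ k) ^ 2 := by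
    rw [← mul_pow, ← pow_mul, mul_comm k 2, pow_mul, ← div_pow]
    norm_num
  rw [h7]
  set x := ((k : ℝ) / Real.exp 1) ^ k
  set a := √(2 * (k : ℝ))
  set b := √(2 * (3 * (k : ℝ)))
  set c := √(2 * (2 * (k : ℝ)))
  have h8 : (k.factorial : ℝ) / (a * x) * ((3 * k).factorial / (b * (27 ^ k * x ^ 3))) /
      ((2 * k).factorial / (c * (4 ^ k * x ^ 2))) ^ 2 * (√3 / 2) =
      (k.factorial : ℝ) * (3 * k).factorial / ((2 * k).factorial) ^ 2 * ((4 ^ k) ^ 2 / 27 ^ k) := by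
    have h9 : (k.factorial : ℝ) / (a * x) * ((3 * k).factorial / (b * (27 ^ k * x ^ 3))) /
      ((2 * k).factorial / (c * (4 ^ k * x ^ 2))) ^ 2 =
      (k.factorial : ℝ) * (3 * k).factorial / ((2 * k).factorial) ^ 2 * ((4 ^ k) ^ 2 / 27 ^ k) *
        (c ^ 2 / (a * b)) := by
      field_simp
    rw [h9, s1, s2]
    have h10 : √3 ≠ 0 := by positivity
    field_simp
    ring
  have h11 : ∀ A B C D : ℝ, A * B * C * D = A * (B * C) * D := fun _ _ _ _ => by ring
  rw [h11, h8]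
  field_simp

theorem tendsto_stirling_mul (a : ℕ) (ha : a ≠ 0) :
    Tendsto (fun k : ℕ => Stirling.stirlingSeq (a * k)) atTop (𝓝 √Real.pi) :=
  Stirling.tendsto_stirlingSeq_sqrt_pi.comp (tendsto_id.const_mul_atTop' (Nat.pos_of_ne_zero ha))

noncomputable def cc (k : ℕ) : ℝ := r1 k / (81 / 16) ^ k

theorem tendsto_cc : Tendsto cc atTop (𝓝 (√3 / 2 * (3 / 2))) := by
  have hpi : √Real.pi ≠ 0 := by positivity
  have h1 : Tendsto (fun k : ℕ => Stirling.stirlingSeq k * Stirling.stirlingSeq (3 * k) /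
      Stirling.stirlingSeq (2 * k) ^ 2) atTop (𝓝 (√Real.pi * √Real.pi / √Real.pi ^ 2)) :=
    ((Stirling.tendsto_stirlingSeq_sqrt_pi.mul (tendsto_stirling_mul 3 (by norm_num))).div
      ((tendsto_stirling_mul 2 (by norm_num)).pow 2) (by positivity))
  have h2 : √Real.pi * √Real.pi / √Real.pi ^ 2 = 1 := by field_simp
  rw [h2] at h1
  have h3 : Tendsto (fun k : ℕ => (3 * (k : ℝ) + 1) / (2 * k + 1)) atTop (𝓝 (3 / 2)) := by
    have h4 : Tendsto (fun k : ℕ => 3 / 2 - 1 / 2 * (1 / (2 * (k : ℝ) + 1))) atTop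
        (𝓝 (3 / 2 - 1 / 2 * 0)) := by
      refine tendsto_const_nhds.sub (tendsto_const_nhds.mul ?_)
      refine tendsto_const_nhds.div_atTop ?_
      refine tendsto_atTop_add_const_right _ _ ?_
      exact (tendsto_natCast_atTop_atTop).const_mul_atTop (by norm_num)
    rw [mul_zero, sub_zero] at h4
    refine h4.congr fun k => ?_
    have : (2 * (k : ℝ) + 1) ≠ 0 := by positivity
    field_simp
    ring
  have h4 := (h1.mul_const (√3 / 2)).mul h3
  rw [one_mul] at h4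
  refine h4.congr' ?_
  filter_upwards [eventually_ne_atTop 0] with k hk
  rw [cc, r1_stirling k hk, eq_div_iff (by positivity)]
  ring

theorem tendsto_rho : Tendsto rho atTop (𝓝 1) := by
  have h2 : Tendsto (fun n : ℕ => cc (2 * n)) atTop (𝓝 (√3 / 2 * (3 / 2))) :=
    tendsto_cc.comp (tendsto_id.const_mul_atTop' (by norm_num))
  have h3 : Tendsto (fun n : ℕ => cc (2 * n + 1)) atTop (𝓝 (√3 / 2 * (3 / 2))) :=
    (tendsto_cc.comp (tendsto_add_atTop_nat 1)).comp (tendsto_id.const_mul_atTop' (by norm_num))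
  have h4 : Tendsto (fun n : ℕ => ((3 * (n : ℝ) + 2) / (3 * n + 1)) ^ 2) atTop (𝓝 1) := by
    have h5 : Tendsto (fun k : ℕ => 1 + 1 / (3 * (k : ℝ) + 1)) atTop (𝓝 (1 + 0)) := by
      refine tendsto_const_nhds.add ?_
      refine tendsto_const_nhds.div_atTop ?_
      refine tendsto_atTop_add_const_right _ _ ?_
      exact (tendsto_natCast_atTop_atTop).const_mul_atTop (by norm_num)
    have h6 := h5.pow 2
    rw [add_zero, one_pow] at h6
    refine h6.congr fun k => ?_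
    have : (3 * (k : ℝ) + 1) ≠ 0 := by positivity
    congr 1
    field_simp
    ring
  have hs : (√3 : ℝ) ^ 2 = 3 := Real.sq_sqrt (by norm_num)
  have h5 : Tendsto (fun n : ℕ => 81 / 16 * (cc (2 * n) * cc (2 * n + 1)) /
      (3 * cc n ^ 4 * ((3 * (n : ℝ) + 2) / (3 * n + 1)) ^ 2)) atTop
      (𝓝 (81 / 16 * (√3 / 2 * (3 / 2) * (√3 / 2 * (3 / 2))) / (3 * (√3 / 2 * (3 / 2)) ^ 4 * 1))) :=
    (tendsto_const_nhds.mul (h2.mul h3)).div (((tendsto_cc.pow 4).const_mul 3).mul h4)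
      (by positivity)
  have h6 : 81 / 16 * (√3 / 2 * (3 / 2) * (√3 / 2 * (3 / 2))) / (3 * (√3 / 2 * (3 / 2)) ^ 4 * 1)
      = (1 : ℝ) := by
    have h7 : 3 * (√3 / 2 * (3 / 2)) ^ 4 * 1 = 3 * ((√3 ^ 2) ^ 2 * (81 / 256)) := by ring
    have h8 : 81 / 16 * (√3 / 2 * (3 / 2) * (√3 / 2 * (3 / 2))) = 81 / 16 * (√3 ^ 2 * (9 / 16)) := by
      ring
    rw [h7, h8, hs]
    norm_num
  rw [h6] at h5
  refine h5.congr fun n => ?_
  unfold rho cc
  have ha : (81 / 16 : ℝ) ^ (2 * n) = ((81 / 16) ^ n) ^ 2 := by rw [mul_comm, pow_mul]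
  rw [pow_succ (81 / 16 : ℝ) (2 * n), ha]
  have hb := (r1_pos (2 * n)).ne'
  have hc := (r1_pos (2 * n + 1)).ne'
  have hd := (r1_pos n).ne'
  field_simp

theorem tendsto_lin (a b c d : ℝ) (hc : 0 < c) (hd : 0 < d) (hac : a = c) :
    Tendsto (fun n : ℕ => (a * (n : ℝ) + b) / (c * n + d)) atTop (𝓝 1) := by
  subst hac
  have h5 : Tendsto (fun k : ℕ => 1 + (b - d) * (1 / (a * (k : ℝ) + d))) atTop
      (𝓝 (1 + (b - d) * 0)) := by
    refine tendsto_const_nhds.add (tendsto_const_nhds.mul ?_)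
    refine tendsto_const_nhds.div_atTop ?_
    refine tendsto_atTop_add_const_right _ _ ?_
    exact (tendsto_natCast_atTop_atTop).const_mul_atTop hc
  rw [mul_zero, add_zero] at h5
  refine h5.congr fun k => ?_
  have : (a * (k : ℝ) + d) ≠ 0 := by positivity
  field_simp
  ring

/-- `ρ n ≥ (4 n + 1) / (4 n + 2)` for `n ≥ 1`. -/
theorem rho_ge (n : ℕ) (hn : 1 ≤ n) : (4 * (n : ℝ) + 1) / (4 * n + 2) ≤ rho n := by
  let f : ℕ → ℝ := fun m => rho (m + 1) * ((4 * ((m + 1 : ℕ) : ℝ) + 2) / (4 * ((m + 1 : ℕ) : ℝ) + 1))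
  have hanti : Antitone f := by
    apply antitone_nat_of_succ_le
    intro m
    simp only [f]
    rw [rho_succ (m + 1), mul_assoc]
    apply mul_le_mul_of_nonneg_left _ (rho_pos _).le
    have h0 : (1 : ℝ) ≤ ((m + 1 : ℕ) : ℝ) := by exact_mod_cast Nat.succ_le_succ (Nat.zero_le m)
    have h1 := sig_le ((m + 1 : ℕ) : ℝ) h0
    have h3 : (((m + 1 + 1 : ℕ) : ℝ)) = ((m + 1 : ℕ) : ℝ) + 1 := by push_cast; ring
    rw [h3]
    generalize ((m + 1 : ℕ) : ℝ) = x at h1 h0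
    calc sig x * ((4 * (x + 1) + 2) / (4 * (x + 1) + 1)) ≤
        (4 * x + 2) * (4 * x + 5) / ((4 * x + 6) * (4 * x + 1)) *
          ((4 * (x + 1) + 2) / (4 * (x + 1) + 1)) := by
          apply mul_le_mul_of_nonneg_right h1
          positivity
      _ = (4 * x + 2) / (4 * x + 1) := by
          have a1 : (4 * x + 6) ≠ 0 := by positivity
          have a2 : (4 * x + 1) ≠ 0 := by positivity
          have a3 : (4 * (x + 1) + 1) ≠ 0 := by positivity
          field_simp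
          ring
  have hlim : Tendsto f atTop (𝓝 1) := by
    have h1 := (tendsto_rho.mul (tendsto_lin 4 2 4 1 (by norm_num) (by norm_num) rfl)).comp
      (tendsto_add_atTop_nat 1)
    rw [mul_one] at h1
    exact h1
  obtain ⟨m, rfl⟩ : ∃ m, n = m + 1 := ⟨n - 1, by omega⟩
  have h2 := hanti.le_of_tendsto hlim m
  simp only [f] at h2
  have h3 : (0 : ℝ) ≤ ((m + 1 : ℕ) : ℝ) := Nat.cast_nonneg _
  rw [div_le_iff₀ (by positivity)]
  have h4 : (0 : ℝ) < 4 * ((m + 1 : ℕ) : ℝ) + 1 := by positivity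
  rw [← mul_div_assoc, le_div_iff₀ h4, one_mul] at h2
  exact h2

/-- `ρ n ≤ (4 n + 2) / (4 n + 3)`. -/
theorem rho_le (n : ℕ) : rho n ≤ (4 * (n : ℝ) + 2) / (4 * n + 3) := by
  let f : ℕ → ℝ := fun m => rho m * ((4 * (m : ℝ) + 3) / (4 * (m : ℝ) + 2))
  have hmono : Monotone f := by
    apply monotone_nat_of_le_succ
    intro m
    simp only [f]
    rw [rho_succ m, mul_assoc]
    apply mul_le_mul_of_nonneg_left _ (rho_pos _).le
    have h0 : (0 : ℝ) ≤ (m : ℝ) := Nat.cast_nonneg m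
    have h1 := le_sig (m : ℝ) h0
    have h3 : (((m + 1 : ℕ) : ℝ)) = (m : ℝ) + 1 := by push_cast; ring
    rw [h3]
    generalize (m : ℝ) = x at h1 h0
    calc (4 * x + 3) / (4 * x + 2) = (4 * x + 6) * (4 * x + 3) / ((4 * x + 7) * (4 * x + 2)) *
          ((4 * (x + 1) + 3) / (4 * (x + 1) + 2)) := by
          have a1 : (4 * x + 7) ≠ 0 := by positivity
          have a2 : (4 * x + 2) ≠ 0 := by positivity
          have a3 : (4 * (x + 1) + 2) ≠ 0 := by positivity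
          field_simp
          ring
      _ ≤ sig x * ((4 * (x + 1) + 3) / (4 * (x + 1) + 2)) := by
          apply mul_le_mul_of_nonneg_right h1
          positivity
  have hlim : Tendsto f atTop (𝓝 1) := by
    have h1 := tendsto_rho.mul (tendsto_lin 4 3 4 2 (by norm_num) (by norm_num) rfl)
    rw [mul_one] at h1
    exact h1
  have h2 := hmono.ge_of_tendsto hlim n
  simp only [f] at h2
  have h3 : (0 : ℝ) ≤ (n : ℝ) := Nat.cast_nonneg _
  rw [le_div_iff₀ (by positivity)]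
  have h4 : (0 : ℝ) < 4 * (n : ℝ) + 2 := by positivity
  rw [← mul_div_assoc, div_le_iff₀ h4, one_mul] at h2
  exact h2

theorem pv_pos (n : ℕ) : 0 < pv n := by
  induction n with
  | zero => rw [pv_zero]; norm_num
  | succ n ih => rw [pv_succ]; exact mul_pos ih (rho_pos n)

/-- The lower bound. -/
theorem pv_lower (n : ℕ) (hn : 1 ≤ n) : 1 / (32 * (n : ℝ)) ≤ pv n ^ 4 := by
  have h : ∀ m : ℕ, 1 / (16 * (2 * (m : ℝ) + 1)) ≤ pv (m + 1) ^ 4 := by
    intro m
    induction m with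
    | zero =>
      rw [zero_add, pv_one]
      norm_num
    | succ m ih =>
      rw [pv_succ, mul_pow]
      have h1 := rho_ge (m + 1) (by omega)
      have h2 : (2 * (m : ℝ) + 1) / (2 * m + 3) ≤ rho (m + 1) ^ 4 := by
        have h3 : (4 * ((m + 1 : ℕ) : ℝ) + 1) / (4 * ((m + 1 : ℕ) : ℝ) + 2) =
            1 - 1 / (4 * m + 6) := by
          have : (4 * (m : ℝ) + 6) ≠ 0 := by positivity
          push_cast
          field_simp
          ring
        rw [h3] at h1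
        have h4 : 1 - 4 * (1 / (4 * (m : ℝ) + 6)) ≤ (1 - 1 / (4 * (m : ℝ) + 6)) ^ 4 := by
          have h5 := one_add_mul_le_pow (a := -(1 / (4 * (m : ℝ) + 6))) (by
            have : 1 / (4 * (m : ℝ) + 6) ≤ 1 := by
              rw [div_le_one (by positivity)]
              have : (0 : ℝ) ≤ m := Nat.cast_nonneg m
              linarith
            linarith) 4
          push_cast at h5
          calc 1 - 4 * (1 / (4 * (m : ℝ) + 6)) = 1 + 4 * -(1 / (4 * (m : ℝ) + 6)) := by ring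
            _ ≤ _ := h5
            _ = _ := by ring
        have h6 : 1 - 4 * (1 / (4 * (m : ℝ) + 6)) = (2 * (m : ℝ) + 1) / (2 * m + 3) := by
          have : (4 * (m : ℝ) + 6) ≠ 0 := by positivity
          have : (2 * (m : ℝ) + 3) ≠ 0 := by positivity
          field_simp
          ring
        rw [← h6]
        refine h4.trans (pow_le_pow_left₀ ?_ h1 4)
        rw [sub_nonneg, div_le_one (by positivity)]
        have : (0 : ℝ) ≤ m := Nat.cast_nonneg m
        linarith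
      calc 1 / (16 * (2 * ((m + 1 : ℕ) : ℝ) + 1)) =
          1 / (16 * (2 * (m : ℝ) + 1)) * ((2 * (m : ℝ) + 1) / (2 * m + 3)) := by
            have : (2 * (m : ℝ) + 1) ≠ 0 := by positivity
            have : (2 * (m : ℝ) + 3) ≠ 0 := by positivity
            push_cast
            field_simp
            ring
        _ ≤ _ := mul_le_mul ih h2 (by positivity) (by positivity)
  obtain ⟨m, rfl⟩ : ∃ m, n = m + 1 := ⟨n - 1, by omega⟩
  refine le_trans ?_ (h m)
  rw [div_le_div_iff₀ (by positivity) (by positivity)]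
  push_cast
  linarith

/-- The upper bound. -/
theorem pv_upper (n : ℕ) : pv n ^ 4 ≤ 1 / (2 * (n : ℝ) + 1) := by
  induction n with
  | zero => rw [pv_zero]; norm_num
  | succ n ih =>
    rw [pv_succ, mul_pow]
    have h1 := rho_le n
    have h2 : rho n ^ 4 ≤ (2 * (n : ℝ) + 1) / (2 * n + 3) := by
      refine (pow_le_pow_left₀ (rho_pos n).le h1 4).trans ?_
      have h3 : (2 * (n : ℝ) + 3) / (2 * n + 1) ≤ ((4 * (n : ℝ) + 3) / (4 * n + 2)) ^ 4 := by
        have h5 := one_add_mul_le_pow (a := 1 / (4 * (n : ℝ) + 2)) (by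
          have : 0 ≤ 1 / (4 * (n : ℝ) + 2) := by positivity
          linarith) 4
        push_cast at h5
        have h6 : (2 * (n : ℝ) + 3) / (2 * n + 1) = 1 + 4 * (1 / (4 * (n : ℝ) + 2)) := by
          field_simp
          ring
        have h7 : (4 * (n : ℝ) + 3) / (4 * n + 2) = 1 + 1 / (4 * (n : ℝ) + 2) := by
          field_simp
          ring
        rw [h6, h7]
        exact h5
      have h8 : ((4 * (n : ℝ) + 2) / (4 * n + 3)) ^ 4 = (((4 * (n : ℝ) + 3) / (4 * n + 2)) ^ 4)⁻¹ := by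
        rw [← inv_pow, inv_div]
      have h9 : (2 * (n : ℝ) + 1) / (2 * n + 3) = ((2 * (n : ℝ) + 3) / (2 * n + 1))⁻¹ := by
        rw [inv_div]
      rw [h8, h9]
      exact inv_anti₀ (by positivity) h3
    calc pv n ^ 4 * rho n ^ 4 ≤ 1 / (2 * (n : ℝ) + 1) * ((2 * (n : ℝ) + 1) / (2 * n + 3)) :=
          mul_le_mul ih h2 (by have := rho_pos n; positivity) (by positivity)
      _ = _ := by
          push_cast
          field_simp
          ring

theorem pv_lower_rpow (n : ℕ) (hn : 1 ≤ n) : 1 / 3 * (n : ℝ) ^ (-(1 / 4) : ℝ) ≤ pv n := by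
  have hn' : (0 : ℝ) < n := by exact_mod_cast hn
  have h1 := pv_lower n hn
  have h2 : (1 / 3 * (n : ℝ) ^ (-(1 / 4) : ℝ)) ^ 4 ≤ pv n ^ 4 := by
    refine le_trans ?_ h1
    rw [mul_pow, ← Real.rpow_natCast ((n : ℝ) ^ (-(1 / 4) : ℝ)) 4, ← Real.rpow_mul hn'.le]
    have h3 : (-(1 / 4) : ℝ) * ((4 : ℕ) : ℝ) = -1 := by norm_num
    rw [h3, Real.rpow_neg_one, one_div, inv_pow, one_div, mul_inv]
    apply mul_le_mul_of_nonneg_right _ (by positivity)
    norm_num
  exact le_of_pow_le_pow_left₀ (by norm_num) (pv_pos n).le h2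

theorem pv_upper_rpow (n : ℕ) (hn : 1 ≤ n) : pv n ≤ (n : ℝ) ^ (-(1 / 4) : ℝ) := by
  have hn' : (0 : ℝ) < n := by exact_mod_cast hn
  have h1 := pv_upper n
  have h2 : pv n ^ 4 ≤ ((n : ℝ) ^ (-(1 / 4) : ℝ)) ^ 4 := by
    refine h1.trans ?_
    rw [← Real.rpow_natCast ((n : ℝ) ^ (-(1 / 4) : ℝ)) 4, ← Real.rpow_mul hn'.le]
    have h3 : (-(1 / 4) : ℝ) * ((4 : ℕ) : ℝ) = -1 := by norm_num
    rw [h3, Real.rpow_neg_one, one_div]
    apply inv_anti₀ hn'
    linarith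
  exact le_of_pow_le_pow_left₀ (by norm_num) (by positivity) h2

end Pool.Agent.Perc.QAsym

end PartpercQAsymR
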