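import Pool.Agent.Lib.MP_6bd702_z.Z063
import Pool.Agent.Lib.MP_6bd702_z.Z092

/-!
# Values at 1 of the two Schur polynomials
-/

set_option autoImplicit false

namespace Pool.Agent.Perc

open Finset MvPolynomial

namespace QAsym

open SumB

theorem dd_id_step (n : ℕ) : dd (fun j => j) (2 * (n + 1)) = dd (fun j => j) (2 * n) *
    (((2 * n).factorial : ℂ) * ((2 * n + 1).factorial : ℂ)) := by
  rw [dd_step]
  have h : ∀ N : ℕ, ∏ i ∈ range N, (((N : ℕ) : ℂ) - i) = N.factorial := by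
    intro N
    rw [reflect (fun x => x) N, ← Finset.prod_range_add_one_eq_factorial]
    push_cast
    rfl
  have h1 : ∏ i ∈ range (2 * n), (((2 * n + 1 : ℕ) : ℂ) - i) = (2 * n + 1).factorial := by
    have := h (2 * n + 1)
    rw [prod_range_succ] at this
    rw [← this]
    push_cast
    ring
  rw [h, h1]
  push_cast
  ring

theorem prod_fact (n : ℕ) : ∏ k ∈ range n, ((3 * ((k : ℂ) + 1) - 1) * (3 * ((k : ℂ) + 1)) *
    (3 * ((k : ℂ) + 1) + 1)) = (3 * n + 1).factorial := by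
  induction n with
  | zero => simp
  | succ n ih =>
    rw [prod_range_succ, ih, show 3 * (n + 1) + 1 = 3 * n + 1 + 1 + 1 + 1 by ring,
      Nat.factorial_succ (3 * n + 1 + 1 + 1), Nat.factorial_succ (3 * n + 1 + 1),
      Nat.factorial_succ (3 * n + 1)]
    push_cast
    ring

theorem dd_eS3_step (n : ℕ) : dd eS3 (2 * (n + 1)) = dd eS3 (2 * n) *
    (3 ^ n * (n.factorial : ℂ) * ((3 * n + 1).factorial : ℂ)) := by
  rw [dd_step]
  have h3 : ∏ i ∈ range (2 * n), ((eS3 (2 * n) : ℂ) - eS3 i)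
      = ∏ k ∈ range n, ((3 * ((k : ℂ) + 1)) * (3 * ((k : ℂ) + 1) - 1)) := by
    rw [prod_two, ← reflect (fun x => (3 * x) * (3 * x - 1))]
    refine prod_congr rfl fun k _ => ?_
    rw [eS3_even, eS3_even, eS3_odd]
    ring
  have h4 : ∏ i ∈ range (2 * n), ((eS3 (2 * n + 1) : ℂ) - eS3 i)
      = ∏ k ∈ range n, ((3 * ((k : ℂ) + 1) + 1) * (3 * ((k : ℂ) + 1))) := by
    rw [prod_two, ← reflect (fun x => (3 * x + 1) * (3 * x))]
    refine prod_congr rfl fun k _ => ?_
    rw [eS3_even, eS3_odd, eS3_odd]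
    ring
  have h5 : (3 : ℂ) ^ n * (n.factorial : ℂ) = ∏ k ∈ range n, (3 * ((k : ℂ) + 1)) := by
    rw [prod_mul_distrib, prod_const, card_range, ← Finset.prod_range_add_one_eq_factorial]
    push_cast
    rfl
  rw [h3, h4, eS3_odd, eS3_even, h5, ← prod_fact n]
  simp only [prod_mul_distrib]
  ring

theorem dd_eS3 (n : ℕ) : dd eS3 (2 * n) = (D1 n : ℂ) * dd (fun j => j) (2 * n) := by
  induction n with
  | zero => simp [dd, D1]
  | succ n ih =>
    rw [dd_eS3_step, dd_id_step, ih]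
    have h : D1 (n + 1) = D1 n * r1 n := by
      unfold D1
      rw [prod_range_succ]
    rw [h, r1]
    have h1 : ((2 * n).factorial : ℂ) ≠ 0 := Nat.cast_ne_zero.2 (Nat.factorial_ne_zero _)
    have h2 : ((2 * n + 1).factorial : ℂ) ≠ 0 := Nat.cast_ne_zero.2 (Nat.factorial_ne_zero _)
    push_cast
    field_simp

/-- The value at 1 of the Schur polynomial of `(n-1, n-1, …, 1, 1, 0, 0)`. -/
theorem eval_one_schur_eS3 (n : ℕ) : eval (fun _ => 1) (schur (2 * n) eS3) = (D1 n : ℂ) := by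
  have h := value eS3 SumB.strictMono_eS3 (2 * n)
  rw [dd_eS3] at h
  exact mul_right_cancel₀ (value_ne (2 * n)) h

/-- The value at 1 of the Schur polynomial of `(n, n-1, n-1, …, 1, 1, 0)`. -/
theorem eval_one_schur_eP (n : ℕ) :
    eval (fun _ => 1) (schur (2 * n) eP) = ((D1 n * E1 n : ℝ) : ℂ) := by
  have h := value eP strictMono_eP (2 * n)
  rw [ratio, dd_eS3, ← mul_assoc] at h
  rw [mul_right_cancel₀ (value_ne (2 * n)) h, E1]
  push_cast
  ring

/-- `P_{2n}` in terms of the Schur values. -/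
theorem pv_eq (n : ℕ) : ((pv n : ℝ) : ℂ) = eval (fun _ => 1) (schur (2 * (2 * n)) eS3) /
    (3 ^ n * (eval (fun _ => 1) (schur (2 * n) eS3) * eval (fun _ => 1) (schur (2 * n) eP)) ^ 2) := by
  rw [eval_one_schur_eS3, eval_one_schur_eS3, eval_one_schur_eP, pv]
  push_cast
  ring

end QAsym

end Pool.Agent.Perc
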