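import Pool.Agent.Lib.MP_6bd702_z.Z095
import Pool.Agent.Lib.MP_6bd702_z.Z096

/-!
# The pairing of states: contraction (task PairB)
-/

set_option autoImplicit false

namespace Pool.Agent.Perc

open Finset

variable {N : ℕ} {s s' : St}

namespace PairB

theorem loopR_symm_aux (h' : ∀ x, s'.1 (s'.1 x) = x) (h : ∀ x, s.1 (s.1 x) = x) {x y : ℕ}
    (hxy : LoopR s' s x y) : LoopR s' s y x := by
  induction hxy with
  | refl => exact Relation.ReflTransGen.refl
  | tail _ h1 ih =>
    refine Relation.ReflTransGen.head ?_ ih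
    rcases h1 with rfl | rfl
    · exact Or.inl (h' _).symm
    · exact Or.inr (h _).symm

theorem loopR_step' (s' s : St) (x : ℕ) : LoopR s' s x (s'.1 x) :=
  Relation.ReflTransGen.single (Or.inl rfl)

theorem loopR_step (s' s : St) (x : ℕ) : LoopR s' s x (s.1 x) :=
  Relation.ReflTransGen.single (Or.inr rfl)

theorem loopR_swap {x y : ℕ} (h : LoopR s' s x y) : LoopR s s' x y := by
  induction h with
  | refl => exact Relation.ReflTransGen.refl
  | tail _ h1 ih => exact ih.tail h1.symm

end PairB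

open PairB

/-- The loop relation is an equivalence relation. -/
theorem loopR_equivalence (h' : IsAnn N s') (h : IsAnn N s) : Equivalence (LoopR s' s) :=
  ⟨fun _ => Relation.ReflTransGen.refl, fun hxy => loopR_symm_aux h'.nc.inv h.nc.inv hxy,
    fun h1 h2 => h1.trans h2⟩

theorem loopR_lt (h' : IsAnn N s') (h : IsAnn N s) {x y : ℕ} (hx : x < N) (hxy : LoopR s' s x y) :
    y < N := by
  induction hxy with
  | refl => exact hx
  | tail _ h1 ih =>
    rcases h1 with rfl | rfl
    · exact h'.nc.lt _ ih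
    · exact h.nc.lt _ ih

/-- The sum over the even sites of a loop can be replaced by the sum over the odd sites. -/
theorem loopN_odd (h' : IsAnn N s') (h : IsAnn N s) [DecidablePred fun t : ℕ × ℕ =>
      t.1 % 2 = 1 ∧ t.2 % 2 = 1 ∧ s'.2 t.1 = true ∧ s.2 t.2 = true ∧ LoopR s' s t.1 t.2] :
    loopN N s' s = ((range N ×ˢ range N).filter fun t => t.1 % 2 = 1 ∧ t.2 % 2 = 1 ∧
      s'.2 t.1 = true ∧ s.2 t.2 = true ∧ LoopR s' s t.1 t.2).card := by
  have heq := loopR_equivalence h' h
  unfold loopN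
  refine Finset.card_nbij' (fun t => (s'.1 t.1, s.1 t.2)) (fun t => (s'.1 t.1, s.1 t.2)) ?_ ?_ ?_ ?_
  · rintro ⟨x, y⟩ hxy
    simp only [coe_filter, mem_product, mem_range, Set.mem_ofPred_eq] at hxy ⊢
    obtain ⟨⟨hx, hy⟩, h1, h2, h3, h4, h5⟩ := hxy
    have p1 := h'.nc.parity hx
    have p2 := h.nc.parity hy
    refine ⟨⟨h'.nc.lt _ hx, h.nc.lt _ hy⟩, by omega, by omega, ?_, ?_, ?_⟩
    · rw [h'.label_partner hx]; exact h3
    · rw [h.label_partner hy]; exact h4
    · exact heq.trans (heq.symm (loopR_step' s' s x)) (heq.trans h5 (loopR_step s' s y))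
  · rintro ⟨x, y⟩ hxy
    simp only [coe_filter, mem_product, mem_range, Set.mem_ofPred_eq] at hxy ⊢
    obtain ⟨⟨hx, hy⟩, h1, h2, h3, h4, h5⟩ := hxy
    have p1 := h'.nc.parity hx
    have p2 := h.nc.parity hy
    refine ⟨⟨h'.nc.lt _ hx, h.nc.lt _ hy⟩, by omega, by omega, ?_, ?_, ?_⟩
    · rw [h'.label_partner hx]; exact h3
    · rw [h.label_partner hy]; exact h4
    · exact heq.trans (heq.symm (loopR_step' s' s x)) (heq.trans h5 (loopR_step s' s y))
  · rintro ⟨x, y⟩ _
    simp only [h'.nc.inv, h.nc.inv]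
  · rintro ⟨x, y⟩ _
    simp only [h'.nc.inv, h.nc.inv]

theorem loopA_odd (h' : IsAnn N s') (h : IsAnn N s) (x₀ : ℕ) [DecidablePred fun x : ℕ =>
      x % 2 = 1 ∧ s'.2 x = true ∧ LoopR s' s x₀ x] :
    loopA N s' s x₀ = ((range N).filter fun x => x % 2 = 1 ∧ s'.2 x = true ∧
      LoopR s' s x₀ x).card := by
  have heq := loopR_equivalence h' h
  unfold loopA
  refine Finset.card_nbij' (fun t => s'.1 t) (fun t => s'.1 t) ?_ ?_ ?_ ?_
  · intro x hx
    simp only [coe_filter, mem_range, Set.mem_ofPred_eq] at hx ⊢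
    obtain ⟨hx, h1, h3, h5⟩ := hx
    have p1 := h'.nc.parity hx
    exact ⟨h'.nc.lt _ hx, by omega, by rw [h'.label_partner hx]; exact h3,
      heq.trans h5 (loopR_step' s' s x)⟩
  · intro x hx
    simp only [coe_filter, mem_range, Set.mem_ofPred_eq] at hx ⊢
    obtain ⟨hx, h1, h3, h5⟩ := hx
    have p1 := h'.nc.parity hx
    exact ⟨h'.nc.lt _ hx, by omega, by rw [h'.label_partner hx]; exact h3,
      heq.trans h5 (loopR_step' s' s x)⟩
  · intro x _; exact h'.nc.inv x
  · intro x _; exact h'.nc.inv x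

theorem loopB_odd (h' : IsAnn N s') (h : IsAnn N s) (x₀ : ℕ) [DecidablePred fun x : ℕ =>
      x % 2 = 1 ∧ s.2 x = true ∧ LoopR s' s x₀ x] :
    loopB N s' s x₀ = ((range N).filter fun x => x % 2 = 1 ∧ s.2 x = true ∧
      LoopR s' s x₀ x).card := by
  have heq := loopR_equivalence h' h
  unfold loopB
  refine Finset.card_nbij' (fun t => s.1 t) (fun t => s.1 t) ?_ ?_ ?_ ?_
  · intro x hx
    simp only [coe_filter, mem_range, Set.mem_ofPred_eq] at hx ⊢
    obtain ⟨hx, h1, h3, h5⟩ := hx
    have p1 := h.nc.parity hx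
    exact ⟨h.nc.lt _ hx, by omega, by rw [h.label_partner hx]; exact h3,
      heq.trans h5 (loopR_step s' s x)⟩
  · intro x hx
    simp only [coe_filter, mem_range, Set.mem_ofPred_eq] at hx ⊢
    obtain ⟨hx, h1, h3, h5⟩ := hx
    have p1 := h.nc.parity hx
    exact ⟨h.nc.lt _ hx, by omega, by rw [h.label_partner hx]; exact h3,
      heq.trans h5 (loopR_step s' s x)⟩
  · intro x _; exact h.nc.inv x
  · intro x _; exact h.nc.inv x

namespace PairB

/-- The shift by two of the sites from `i` on. -/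
def sh (i x : ℕ) : ℕ := if x < i then x else x + 2

theorem sh_ne (i x : ℕ) : sh i x ≠ i ∧ sh i x ≠ i + 1 := by
  unfold sh; split_ifs <;> omega

theorem sh_inj {i x y : ℕ} (h : sh i x = sh i y) : x = y := by
  unfold sh at h; split_ifs at h <;> omega

theorem sh_parity (i x : ℕ) : sh i x % 2 = x % 2 := by
  unfold sh; split_ifs <;> omega

theorem exists_sh {i y : ℕ} (h1 : y ≠ i) (h2 : y ≠ i + 1) : ∃ x, sh i x = y := by
  by_cases h : y < i
  · exact ⟨y, by unfold sh; rw [if_pos h]⟩
  · exact ⟨y - 2, by unfold sh; rw [if_neg (by omega)]; omega⟩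

theorem sh_lt {i x : ℕ} (hi : i ≤ N) : sh i x < N + 2 ↔ x < N := by
  unfold sh; split_ifs <;> omega

theorem insL_sh (i : ℕ) (s : St) (x : ℕ) : (insL i s).1 (sh i x) = sh i (s.1 x) := by
  have h := sh_ne i x
  have e : (if sh i x < i then sh i x else sh i x - 2) = x := by
    unfold sh; split_ifs <;> omega
  change insArc i s.1 (sh i x) = _
  unfold insArc
  rw [if_neg h.1, if_neg h.2, e]
  rfl

theorem insL_at (i : ℕ) (s : St) : (insL i s).1 i = i + 1 := by
  change insArc i s.1 i = _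
  unfold insArc
  rw [if_pos rfl]

theorem insL_at1 (i : ℕ) (s : St) : (insL i s).1 (i + 1) = i := by
  change insArc i s.1 (i + 1) = _
  unfold insArc
  rw [if_neg (by omega), if_pos rfl]

theorem insL_lab_sh (i : ℕ) (s : St) (x : ℕ) : (insL i s).2 (sh i x) = s.2 x := by
  have h := sh_ne i x
  have e : (if sh i x < i then sh i x else sh i x - 2) = x := by
    unfold sh; split_ifs <;> omega
  change (if sh i x = i ∨ sh i x = i + 1 then false else _) = _
  rw [if_neg (by omega), e]

theorem insL_lab (i : ℕ) (s : St) : (insL i s).2 i = false ∧ (insL i s).2 (i + 1) = false := by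
  constructor
  · change (if i = i ∨ i = i + 1 then false else _) = _
    rw [if_pos (Or.inl rfl)]
  · change (if i + 1 = i ∨ i + 1 = i + 1 then false else _) = _
    rw [if_pos (Or.inr rfl)]

theorem capL_sh (h' : IsAnn (N + 2) s') {i : ℕ} (hi : i ≤ N) (x : ℕ) :
    sh i ((capL i s').1 x) = eAct i s'.1 (sh i x) := by
  have h := sh_ne i x
  have key : eAct i s'.1 (sh i x) ≠ i ∧ eAct i s'.1 (sh i x) ≠ i + 1 := by
    unfold eAct
    rw [if_neg h.1, if_neg h.2]
    have n1 := h'.nc.ne i (by omega)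
    have n2 := h'.nc.ne (i + 1) (by omega)
    have v1 := h'.nc.inv i
    have v2 := h'.nc.inv (i + 1)
    have v3 := h'.nc.inv (sh i x)
    split_ifs with c1 c2
    · refine ⟨fun e => ?_, n2⟩
      rw [e] at v2
      rw [c1, v2] at v3
      exact h.2 v3.symm
    · refine ⟨n1, fun e => ?_⟩
      rw [e] at v1
      rw [c2, v1] at v3
      exact h.1 v3.symm
    · exact ⟨c1, c2⟩
  have e : (capL i s').1 x = if eAct i s'.1 (sh i x) < i then eAct i s'.1 (sh i x)
      else eAct i s'.1 (sh i x) - 2 := rfl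
  rw [e]
  generalize eAct i s'.1 (sh i x) = y at key
  unfold sh
  split_ifs <;> omega

theorem capL_lab (i : ℕ) (s' : St) (x : ℕ) : (capL i s').2 x =
    if s'.1 (sh i x) = i ∨ s'.1 (sh i x) = i + 1 then xor (s'.2 i) (s'.2 (i + 1))
      else s'.2 (sh i x) := by
  have h := sh_ne i x
  change (if sh i x = i ∨ sh i x = i + 1 then false
    else if s'.1 (sh i x) = i ∨ s'.1 (sh i x) = i + 1 then xor (s'.2 i) (s'.2 (i + 1))
      else s'.2 (sh i x)) = _
  rw [if_neg (by omega)]

theorem capL_sh_of_ne (h' : IsAnn (N + 2) s') {i : ℕ} (hi : i ≤ N) {x : ℕ}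
    (h1 : s'.1 (sh i x) ≠ i) (h2 : s'.1 (sh i x) ≠ i + 1) :
    sh i ((capL i s').1 x) = s'.1 (sh i x) := by
  rw [capL_sh h' hi]
  unfold eAct
  rw [if_neg (sh_ne i x).1, if_neg (sh_ne i x).2, if_neg h1, if_neg h2]

theorem capL_sh_of_eq (h' : IsAnn (N + 2) s') {i : ℕ} (hi : i ≤ N) {x : ℕ}
    (h1 : s'.1 (sh i x) = i) : sh i ((capL i s').1 x) = s'.1 (i + 1) := by
  rw [capL_sh h' hi]
  unfold eAct
  rw [if_neg (sh_ne i x).1, if_neg (sh_ne i x).2, if_pos h1]

theorem capL_sh_of_eq1 (h' : IsAnn (N + 2) s') {i : ℕ} (hi : i ≤ N) {x : ℕ}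
    (h1 : s'.1 (sh i x) = i + 1) : sh i ((capL i s').1 x) = s'.1 i := by
  rw [capL_sh h' hi]
  unfold eAct
  rw [if_neg (sh_ne i x).1, if_neg (sh_ne i x).2, if_neg (by omega), if_pos h1]

/-- The loops after the contraction. -/
theorem loopR_sh_of (h' : IsAnn (N + 2) s') {i : ℕ} (hi : i ≤ N) {x y : ℕ}
    (h : LoopR (capL i s') s x y) : LoopR s' (insL i s) (sh i x) (sh i y) := by
  induction h with
  | refl => exact Relation.ReflTransGen.refl
  | tail _ h1 ih =>
    rename_i b c _
    rcases h1 with rfl | rfl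
    · by_cases c1 : s'.1 (sh i b) = i
      · rw [capL_sh_of_eq h' hi c1]
        have e1 := ih.trans (loopR_step' s' (insL i s) (sh i b))
        rw [c1] at e1
        have e2 := e1.trans (loopR_step s' (insL i s) i)
        rw [insL_at] at e2
        exact e2.trans (loopR_step' s' (insL i s) (i + 1))
      · by_cases c2 : s'.1 (sh i b) = i + 1
        · rw [capL_sh_of_eq1 h' hi c2]
          have e1 := ih.trans (loopR_step' s' (insL i s) (sh i b))
          rw [c2] at e1
          have e2 := e1.trans (loopR_step s' (insL i s) (i + 1))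
          rw [insL_at1] at e2
          exact e2.trans (loopR_step' s' (insL i s) i)
        · rw [capL_sh_of_ne h' hi c1 c2]
          exact ih.trans (loopR_step' s' (insL i s) (sh i b))
    · have e := loopR_step s' (insL i s) (sh i b)
      rw [insL_sh] at e
      exact ih.trans e

theorem loopR_sh_to (h' : IsAnn (N + 2) s') {i : ℕ} (hi : i ≤ N) {x z : ℕ}
    (h : LoopR s' (insL i s) (sh i x) z) :
    (∃ y, z = sh i y ∧ LoopR (capL i s') s x y) ∨
      ((z = i ∨ z = i + 1) ∧ ∃ y, sh i y = s'.1 i ∧ LoopR (capL i s') s x y) := by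
  have v1 := h'.nc.inv i
  have v2 := h'.nc.inv (i + 1)
  have n1 := h'.nc.ne i (by omega)
  have n2 := h'.nc.ne (i + 1) (by omega)
  induction h with
  | refl => exact Or.inl ⟨x, rfl, Relation.ReflTransGen.refl⟩
  | tail _ h1 ih =>
    rename_i b c _
    rcases ih with ⟨y, rfl, hy⟩ | ⟨hb, y, hy1, hy⟩
    · rcases h1 with rfl | rfl
      · by_cases c1 : s'.1 (sh i y) = i
        · right
          refine ⟨Or.inl c1, y, ?_, hy⟩
          have e := congrArg s'.1 c1
          rw [h'.nc.inv] at e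
          exact e
        · by_cases c2 : s'.1 (sh i y) = i + 1
          · right
            refine ⟨Or.inr c2, (capL i s').1 y, capL_sh_of_eq1 h' hi c2,
              hy.tail (Or.inl rfl)⟩
          · left
            exact ⟨(capL i s').1 y, (capL_sh_of_ne h' hi c1 c2).symm, hy.tail (Or.inl rfl)⟩
      · left
        exact ⟨s.1 y, insL_sh i s y, hy.tail (Or.inr rfl)⟩
    · have c1 : s'.1 (sh i y) = i := by rw [hy1, v1]
      rcases hb with rfl | rfl
      · rcases h1 with rfl | rfl
        · left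
          exact ⟨y, hy1.symm, hy⟩
        · right
          rw [insL_at]
          exact ⟨Or.inr rfl, y, hy1, hy⟩
      · rcases h1 with rfl | rfl
        · left
          exact ⟨(capL i s').1 y, (capL_sh_of_eq h' hi c1).symm, hy.tail (Or.inl rfl)⟩
        · right
          rw [insL_at1]
          exact ⟨Or.inl rfl, y, hy1, hy⟩

theorem loopR_sh_iff (h' : IsAnn (N + 2) s') {i : ℕ} (hi : i ≤ N) {x y : ℕ} :
    LoopR s' (insL i s) (sh i x) (sh i y) ↔ LoopR (capL i s') s x y := by
  refine ⟨fun h => ?_, loopR_sh_of h' hi⟩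
  rcases loopR_sh_to h' hi h with ⟨z, hz, hz'⟩ | ⟨h1, _⟩
  · rwa [← sh_inj hz] at hz'
  · exact absurd h1 (by have := sh_ne i y; tauto)

/-- The sum over the sites after an insertion. -/
theorem sum_range_sh {M : Type*} [AddCommMonoid M] {i : ℕ} (hi : i ≤ N) (F : ℕ → M) :
    ∑ x ∈ range (N + 2), F x = ∑ x ∈ range N, F (sh i x) + (F i + F (i + 1)) := by
  obtain ⟨k, rfl⟩ := Nat.exists_eq_add_of_le hi
  rw [show i + k + 2 = i + (2 + k) by ring, Finset.sum_range_add, Finset.sum_range_add,
    Finset.sum_range_add]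
  have e1 : ∑ x ∈ range i, F (sh i x) = ∑ x ∈ range i, F x :=
    Finset.sum_congr rfl fun x hx => by unfold sh; rw [if_pos (mem_range.1 hx)]
  have e2 : ∑ x ∈ range k, F (sh i (i + x)) = ∑ x ∈ range k, F (i + (2 + x)) :=
    Finset.sum_congr rfl fun x _ => by unfold sh; rw [if_neg (by omega)]; congr 1; omega
  rw [e1, e2, Finset.sum_range_succ, Finset.sum_range_one]
  simp only [add_zero]
  abel

open Classical in
theorem loopN_eq_sum (L : ℕ) (s' s : St) : loopN L s' s = ∑ y ∈ range L,
    if y % 2 = 0 ∧ s.2 y = true then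
      (∑ x ∈ range L, if x % 2 = 0 ∧ s'.2 x = true ∧ LoopR s' s x y then 1 else 0) else 0 := by
  unfold loopN
  rw [Finset.card_filter, Finset.sum_product_right]
  refine Finset.sum_congr rfl fun y _ => ?_
  by_cases hy : y % 2 = 0 ∧ s.2 y = true
  · rw [if_pos hy]
    refine Finset.sum_congr rfl fun x _ => ?_
    refine if_congr ?_ rfl rfl
    tauto
  · rw [if_neg hy]
    refine Finset.sum_eq_zero fun x _ => ?_
    rw [if_neg]
    tauto

open Classical in
theorem inner (h' : IsAnn (N + 2) s') (h : IsAnn N s) {i : ℕ} (hi : i ≤ N) (y : ℕ) :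
    (∑ x ∈ range (N + 2), if x % 2 = 0 ∧ s'.2 x = true ∧ LoopR s' (insL i s) x (sh i y)
      then 1 else 0 : ZMod 2) =
    ∑ x ∈ range N, if x % 2 = 0 ∧ (capL i s').2 x = true ∧ LoopR (capL i s') s x y
      then 1 else 0 := by
  have hT := h.insL hi
  have heq := loopR_equivalence h' hT
  have v1 := h'.nc.inv i
  have v2 := h'.nc.inv (i + 1)
  have n1 := h'.nc.ne i (by omega)
  have n2 := h'.nc.ne (i + 1) (by omega)
  have hii : LoopR s' (insL i s) i (i + 1) := by
    have := loopR_step s' (insL i s) i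
    rwa [insL_at] at this
  rw [sum_range_sh hi]
  have two : ∀ a : ZMod 2, a + a = 0 := by decide
  by_cases hc : s'.1 i = i + 1
  · -- the small arc is a loop of its own
    have hc1 : s'.1 (i + 1) = i := by rw [← hc, v1]
    have hG : ∀ z, LoopR s' (insL i s) i z → (z = i ∨ z = i + 1) := by
      intro z hz
      induction hz with
      | refl => exact Or.inl rfl
      | tail _ h1 ih =>
        rcases ih with rfl | rfl
        · rcases h1 with rfl | rfl
          · exact Or.inr hc
          · exact Or.inr (insL_at _ s)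
        · rcases h1 with rfl | rfl
          · exact Or.inl hc1
          · exact Or.inl (insL_at1 _ s)
    have hG0 : ¬ LoopR s' (insL i s) i (sh i y) := fun hz => by
      have h1 := hG _ hz
      have := sh_ne i y
      tauto
    have hG1 : ¬ LoopR s' (insL i s) (i + 1) (sh i y) := fun hz => hG0 (heq.trans hii hz)
    rw [if_neg (fun hz => hG0 hz.2.2), if_neg (fun hz => hG1 hz.2.2), add_zero, add_zero]
    refine Finset.sum_congr rfl fun x _ => ?_
    refine if_congr ?_ rfl rfl
    rw [sh_parity, loopR_sh_iff h' hi, capL_lab]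
    have c1 : s'.1 (sh i x) ≠ i := fun e => by
      have h3 := h'.nc.inv (sh i x)
      rw [e, hc] at h3
      exact (sh_ne i x).2 h3.symm
    have c2 : s'.1 (sh i x) ≠ i + 1 := fun e => by
      have h3 := h'.nc.inv (sh i x)
      rw [e, hc1] at h3
      exact (sh_ne i x).1 h3.symm
    rw [if_neg (by tauto)]
  · have hc1 : s'.1 (i + 1) ≠ i := fun e => hc ((congrArg s'.1 e).symm.trans v2)
    obtain ⟨a, ha⟩ := exists_sh n1 hc
    obtain ⟨b, hb⟩ := exists_sh hc1 n2
    have haN : a < N := by rw [← sh_lt hi, ha]; exact h'.nc.lt _ (by omega)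
    have hbN : b < N := by rw [← sh_lt hi, hb]; exact h'.nc.lt _ (by omega)
    have hab : a ≠ b := by
      rintro rfl
      rw [ha] at hb
      have := congrArg s'.1 hb
      rw [v1, v2] at this
      omega
    have hsa : s'.1 (sh i a) = i := by rw [ha, v1]
    have hsb : s'.1 (sh i b) = i + 1 := by rw [hb, v2]
    set G := LoopR s' (insL i s) i (sh i y) with hGdef
    have g1 : LoopR s' (insL i s) (i + 1) (sh i y) ↔ G :=
      ⟨fun hz => heq.trans hii hz, fun hz => heq.trans (heq.symm hii) hz⟩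
    have ga : LoopR s' (insL i s) (sh i a) (sh i y) ↔ G := by
      have e := loopR_step' s' (insL i s) i
      rw [← ha] at e
      exact ⟨fun hz => heq.trans e hz, fun hz => heq.trans (heq.symm e) hz⟩
    have gb : LoopR s' (insL i s) (sh i b) (sh i y) ↔ G := by
      have e := loopR_step' s' (insL i s) (i + 1)
      rw [← hb] at e
      exact ⟨fun hz => heq.trans hii (heq.trans e hz),
        fun hz => heq.trans (heq.symm e) (heq.trans (heq.symm hii) hz)⟩
    have pa := h'.nc.parity (x := i) (by omega)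
    have pb := h'.nc.parity (x := i + 1) (by omega)
    rw [← ha, sh_parity] at pa
    rw [← hb, sh_parity] at pb
    have la : s'.2 (sh i a) = s'.2 i := by rw [ha]; exact h'.label_partner (by omega)
    have lb : s'.2 (sh i b) = s'.2 (i + 1) := by rw [hb]; exact h'.label_partner (by omega)
    have key : ∑ x ∈ range N, ((if sh i x % 2 = 0 ∧ s'.2 (sh i x) = true ∧
        LoopR s' (insL i s) (sh i x) (sh i y) then 1 else 0 : ZMod 2) +
        (if x % 2 = 0 ∧ (capL i s').2 x = true ∧ LoopR (capL i s') s x y then 1 else 0)) =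
        ((if sh i a % 2 = 0 ∧ s'.2 (sh i a) = true ∧
        LoopR s' (insL i s) (sh i a) (sh i y) then 1 else 0 : ZMod 2) +
        (if a % 2 = 0 ∧ (capL i s').2 a = true ∧ LoopR (capL i s') s a y then 1 else 0)) +
        ((if sh i b % 2 = 0 ∧ s'.2 (sh i b) = true ∧
        LoopR s' (insL i s) (sh i b) (sh i y) then 1 else 0 : ZMod 2) +
        (if b % 2 = 0 ∧ (capL i s').2 b = true ∧ LoopR (capL i s') s b y then 1 else 0)) := by
      refine Finset.sum_eq_add_of_mem a b (mem_range.2 haN) (mem_range.2 hbN) hab ?_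
      intro x _ hx
      have c1 : s'.1 (sh i x) ≠ i := fun e =>
        hx.1 (sh_inj ((h'.nc.inv (sh i x)).symm.trans ((congrArg s'.1 e).trans ha.symm)))
      have c2 : s'.1 (sh i x) ≠ i + 1 := fun e =>
        hx.2 (sh_inj ((h'.nc.inv (sh i x)).symm.trans ((congrArg s'.1 e).trans hb.symm)))
      rw [capL_lab, if_neg (show ¬ (s'.1 (sh i x) = i ∨ s'.1 (sh i x) = i + 1) by tauto),
        sh_parity, loopR_sh_iff h' hi]
      exact two _
    rw [Finset.sum_add_distrib] at key
    have la' : (capL i s').2 a = xor (s'.2 i) (s'.2 (i + 1)) := by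
      rw [capL_lab, if_pos (Or.inl hsa)]
    have lb' : (capL i s').2 b = xor (s'.2 i) (s'.2 (i + 1)) := by
      rw [capL_lab, if_pos (Or.inr hsb)]
    rw [← loopR_sh_iff (s := s) h' hi (x := a), ← loopR_sh_iff (s := s) h' hi (x := b), sh_parity,
      sh_parity, la, lb, la', lb', ga, gb] at key
    have fin : ((if i % 2 = 0 ∧ s'.2 i = true ∧ G then 1 else 0 : ZMod 2) +
        (if (i + 1) % 2 = 0 ∧ s'.2 (i + 1) = true ∧
          LoopR s' (insL i s) (i + 1) (sh i y) then 1 else 0)) =
        ((if a % 2 = 0 ∧ s'.2 i = true ∧ G then 1 else 0 : ZMod 2) +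
        (if a % 2 = 0 ∧ xor (s'.2 i) (s'.2 (i + 1)) = true ∧ G then 1 else 0)) +
        ((if b % 2 = 0 ∧ s'.2 (i + 1) = true ∧ G then 1 else 0 : ZMod 2) +
        (if b % 2 = 0 ∧ xor (s'.2 i) (s'.2 (i + 1)) = true ∧ G then 1 else 0)) := by
      rw [g1]
      rcases Nat.mod_two_eq_zero_or_one i with hp | hp
      · have q1 : (i + 1) % 2 = 1 := by omega
        have q2 : a % 2 = 1 := by omega
        have q3 : b % 2 = 0 := by omega
        rw [hp, q1, q2, q3]
        rcases s'.2 i with _ | _ <;> rcases s'.2 (i + 1) with _ | _ <;> by_cases hG : G <;>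
          simp [hG] <;> decide
      · have q1 : (i + 1) % 2 = 0 := by omega
        have q2 : a % 2 = 0 := by omega
        have q3 : b % 2 = 1 := by omega
        rw [hp, q1, q2, q3]
        rcases s'.2 i with _ | _ <;> rcases s'.2 (i + 1) with _ | _ <;> by_cases hG : G <;>
          simp [hG] <;> decide
    rw [fin, ← key]
    generalize (∑ x ∈ range N, (if x % 2 = 0 ∧ (capL i s').2 x = true ∧
      LoopR (capL i s') s x y then 1 else 0 : ZMod 2)) = u
    rw [← add_assoc, two, zero_add]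

theorem neg_one_pow_eq_of_zmod {a b : ℕ} (h : (a : ZMod 2) = b) : (-1 : ℂ) ^ a = (-1) ^ b := by
  rw [ZMod.natCast_eq_natCast_iff'] at h
  rw [neg_one_pow_eq_pow_mod_two, h, ← neg_one_pow_eq_pow_mod_two]

end PairB

/-- Contraction of a small arc. -/
theorem BS_insL (h' : IsAnn (N + 2) s') (h : IsAnn N s) {i : ℕ} (hi : i ≤ N) :
    BS (N + 2) s' (insL i s) = BS N (capL i s') s := by
  classical
  unfold BS
  refine neg_one_pow_eq_of_zmod ?_
  rw [loopN_eq_sum, loopN_eq_sum, sum_range_sh hi, (insL_lab i s).1, (insL_lab i s).2]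
  simp only [Bool.false_eq_true, and_false, if_false, add_zero]
  push_cast
  refine Finset.sum_congr rfl fun y _ => ?_
  rw [sh_parity, insL_lab_sh]
  by_cases hy : y % 2 = 0 ∧ s.2 y = true
  · rw [if_pos hy, if_pos hy]
    exact inner h' h hi y
  · rw [if_neg hy, if_neg hy]

theorem BS_comm (h' : IsAnn N s') (h : IsAnn N s) : BS N s' s = BS N s s' := by
  have heq := loopR_equivalence h' h
  have heq' := loopR_equivalence h h'
  unfold BS
  congr 1
  unfold loopN
  refine Finset.card_nbij' (fun t => (t.2, t.1)) (fun t => (t.2, t.1)) ?_ ?_ ?_ ?_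
  · rintro ⟨x, y⟩ hxy
    simp only [coe_filter, mem_product, mem_range, Set.mem_ofPred_eq] at hxy ⊢
    obtain ⟨⟨hx, hy⟩, h1, h2, h3, h4, h5⟩ := hxy
    exact ⟨⟨hy, hx⟩, h2, h1, h4, h3, loopR_swap (heq.symm h5)⟩
  · rintro ⟨x, y⟩ hxy
    simp only [coe_filter, mem_product, mem_range, Set.mem_ofPred_eq] at hxy ⊢
    obtain ⟨⟨hx, hy⟩, h1, h2, h3, h4, h5⟩ := hxy
    exact ⟨⟨hy, hx⟩, h2, h1, h4, h3, loopR_swap (heq'.symm h5)⟩
  · rintro ⟨x, y⟩ _; rfl
  · rintro ⟨x, y⟩ _; rfl

end Pool.Agent.Perc
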