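import Pool.Agent.Lib.MP_6bd702_z.Z098
import Pool.Agent.Lib.MP_6bd702_z.Z093
import Pool.Agent.Lib.MP_6bd702_z.Z097
import Pool.Agent.Lib.MP_6bd702_z.Z076

section PartperqQNum

/-!
# Asymptotics of the exact probability (task QNum)
-/

set_option autoImplicit false

namespace Pool.Agent.Perc

open Finset MvPolynomial

theorem pv_eq_asym (m : ℕ) : pv m = QAsym.pv m := by
  have h := QAsym.pv_eq m
  have h1 := eval_TP_one m
  have h2 := eval_GP_one m
  have h3 : eval (fun _ => 1) (TP m) = eval (fun _ => 1) (schur (2 * (2 * m)) eS3) := by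
    unfold TP
    rw [eval_rename, show 2 * (2 * m) = 4 * m by ring]
    rfl
  have h4 : eval (fun _ => 1) (GP m) =
      eval (fun _ => 1) (schur (2 * m) eS3) * eval (fun _ => 1) (schur (2 * m) SumB.eP) := by
    unfold GP
    rw [QSchurQ.eP2_eq, map_mul]
  have h5 : ((pv m : ℝ) : ℂ) = ((QAsym.pv m : ℝ) : ℂ) := by
    rw [h, ← h3, ← h4, h1, h2]
    unfold pv
    push_cast
    ring
  exact_mod_cast h5

theorem pv_pos (m : ℕ) : 0 < pv m := by
  rw [pv_eq_asym]; exact QAsym.pv_pos m

theorem pv_ge_third (m : ℕ) (hm : 0 < m) : 1 / 3 * (m : ℝ) ^ (-(1 / 4 : ℝ)) ≤ pv m := by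
  rw [pv_eq_asym]; exact QAsym.pv_lower_rpow m hm

theorem pv_le_one (m : ℕ) (hm : 0 < m) : pv m ≤ (m : ℝ) ^ (-(1 / 4 : ℝ)) := by
  rw [pv_eq_asym]; exact QAsym.pv_upper_rpow m hm

theorem pv_ge : ∃ c : ℝ, 0 < c ∧ ∀ m : ℕ, 0 < m → c * (m : ℝ) ^ (-(1 / 4 : ℝ)) ≤ pv m :=
  ⟨1 / 3, by norm_num, pv_ge_third⟩

theorem pv_le : ∃ c : ℝ, 0 < c ∧ ∀ m : ℕ, 0 < m → pv m ≤ c * (m : ℝ) ^ (-(1 / 4 : ℝ)) :=
  ⟨1, by norm_num, fun m hm => by rw [one_mul]; exact pv_le_one m hm⟩

end Pool.Agent.Perc

end PartperqQNum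

section PartperqPairD

/-!
# The pairing of states: planarity (task PairD)
-/

set_option autoImplicit false

namespace Pool.Agent.Perc

open Finset

variable {N : ℕ} {s s' : St}

namespace PairD

open Classical in
/-- The number of sites of `K` below `w`. -/
noncomputable def cnt (K : ℕ → Prop) (w : ℕ) : ℕ := ((range w).filter K).card

theorem cnt_zero (K : ℕ → Prop) : cnt K 0 = 0 := by
  simp [cnt]

open Classical in
theorem cnt_succ (K : ℕ → Prop) (w : ℕ) : cnt K (w + 1) = cnt K w + if K w then 1 else 0 := by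
  unfold cnt
  rw [range_add_one, filter_insert]
  split_ifs with h
  · rw [card_insert_of_notMem (by simp)]
  · rfl

open Classical in
theorem cnt_add (K : ℕ → Prop) {x y : ℕ} (hxy : x ≤ y) :
    cnt K y = cnt K x + ((Ico x y).filter K).card := by
  unfold cnt
  rw [range_eq_Ico, range_eq_Ico, ← Ico_union_Ico_eq_Ico (Nat.zero_le x) hxy, filter_union,
    card_union_of_disjoint]
  exact disjoint_filter_filter (Ico_disjoint_Ico_consecutive 0 x y)

/-- A finite set with a fixed point free involution has an even number of elements. -/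
theorem even_card {S : Finset ℕ} {f : ℕ → ℕ} (h1 : ∀ x ∈ S, f x ∈ S)
    (h2 : ∀ x ∈ S, f (f x) = x) (h3 : ∀ x ∈ S, f x ≠ x) : S.card % 2 = 0 := by
  have h := Finset.prod_involution (s := S) (f := fun _ => (-1 : ℤ)) (fun x _ => f x)
    (by intros; norm_num) (by intro x hx _; exact h3 x hx) (by intro x hx; exact h1 x hx)
    (by intro x hx; exact h2 x hx)
  rw [Finset.prod_const] at h
  rcases Nat.even_or_odd S.card with he | ho
  · exact Nat.even_iff.mp he
  · rw [ho.neg_one_pow] at h
    norm_num at h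

/-- An involution which exchanges `P` and its complement. -/
theorem two_mul_card {T : Finset ℕ} {f : ℕ → ℕ} (h1 : ∀ x ∈ T, f x ∈ T)
    (h2 : ∀ x ∈ T, f (f x) = x) (P : ℕ → Prop) [DecidablePred P]
    (h3 : ∀ x ∈ T, (P (f x) ↔ ¬ P x)) : 2 * (T.filter P).card = T.card := by
  have e : (T.filter fun x => ¬ P x).card = (T.filter P).card := by
    refine Finset.card_nbij' f f ?_ ?_ ?_ ?_
    · intro x hx
      simp only [coe_filter, Set.mem_ofPred_eq] at hx ⊢
      exact ⟨h1 x hx.1, (h3 x hx.1).mpr hx.2⟩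
    · intro x hx
      simp only [coe_filter, Set.mem_ofPred_eq] at hx ⊢
      exact ⟨h1 x hx.1, fun h => ((h3 x hx.1).mp h) hx.2⟩
    · intro x hx
      simp only [coe_filter, Set.mem_ofPred_eq] at hx
      exact h2 x hx.1
    · intro x hx
      simp only [coe_filter, Set.mem_ofPred_eq] at hx
      exact h2 x hx.1
  have h := T.card_filter_add_card_filter_not P
  omega

theorem cnt_partner_aux {p : ℕ → ℕ} (h : NC N p) {K : ℕ → Prop} (hK : ∀ x, K x → K (p x))
    {x : ℕ} (hx : ¬ K x) (hlt : x < p x) : cnt K x % 2 = cnt K (p x) % 2 := by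
  classical
  have hxN : x < N := by
    by_contra hc
    have := h.out x (by omega)
    omega
  have hpN := h.lt x hxN
  have he : ((Ico x (p x)).filter K).card % 2 = 0 := by
    refine even_card (f := p) ?_ ?_ ?_
    · intro z hz
      rw [mem_filter, mem_Ico] at hz ⊢
      have hne : x ≠ z := fun e => hx (e ▸ hz.2)
      have := h.nc x z (by omega) hz.1.2
      exact ⟨⟨by omega, this.2⟩, hK z hz.2⟩
    · intro z _
      exact h.inv z
    · intro z hz
      rw [mem_filter, mem_Ico] at hz
      exact h.ne z (by omega)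
  rw [cnt_add K hlt.le]
  omega

theorem cnt_partner {p : ℕ → ℕ} (h : NC N p) {K : ℕ → Prop} (hK : ∀ x, K x → K (p x))
    {x : ℕ} (hx : ¬ K x) : cnt K x % 2 = cnt K (p x) % 2 := by
  rcases lt_trichotomy x (p x) with hlt | heq | hgt
  · exact cnt_partner_aux h hK hx hlt
  · rw [← heq]
  · have hx' : ¬ K (p x) := by
      intro hc
      have := hK _ hc
      rw [h.inv] at this
      exact hx this
    have := cnt_partner_aux h hK hx' (by rw [h.inv]; exact hgt)
    rw [h.inv] at this
    exact this.symm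

/-- The number of sites of a union of loops `K` below `x` has the same parity for all `x` of
another loop. -/
theorem cnt_loop (h' : NC N s'.1) (h : NC N s.1) {K : ℕ → Prop} (hK' : ∀ x, K x → K (s'.1 x))
    (hK : ∀ x, K x → K (s.1 x)) {x y : ℕ} (hx : ¬ K x) (hxy : LoopR s' s x y) :
    ¬ K y ∧ cnt K x % 2 = cnt K y % 2 := by
  unfold LoopR at hxy
  induction hxy with
  | refl => exact ⟨hx, rfl⟩
  | tail _ hbc ih =>
    rename_i b c _
    obtain ⟨hb, hc⟩ := ih
    rcases hbc with e | e
    · subst e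
      refine ⟨fun hk => ?_, ?_⟩
      · have := hK' _ hk
        rw [h'.inv] at this
        exact hb this
      · rw [hc]
        exact cnt_partner h' hK' hb
    · subst e
      refine ⟨fun hk => ?_, ?_⟩
      · have := hK _ hk
        rw [h.inv] at this
        exact hb this
      · rw [hc]
        exact cnt_partner h hK hb

theorem label_card (h : IsAnn N s) {g : ℕ} (hg : Marks N s g) {K : ℕ → Prop}
    (hK : ∀ x, K x → K (s.1 x)) [DecidablePred fun x => x % 2 = 0 ∧ s.2 x = true ∧ K x] :
    ((range N).filter fun x => x % 2 = 0 ∧ s.2 x = true ∧ K x).card % 2 = cnt K g % 2 := by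
  classical
  set T := (range N).filter fun x => s.2 x = true ∧ K x with hT
  have hT1 : ∀ x ∈ T, s.1 x ∈ T := by
    intro x hx
    rw [hT, mem_filter, mem_range] at hx ⊢
    exact ⟨h.nc.lt x hx.1, by rw [h.label_partner hx.1]; exact hx.2.1, hK x hx.2.2⟩
  have hT2 : ∀ x ∈ T, s.1 (s.1 x) = x := fun x _ => h.nc.inv x
  have e1 := two_mul_card hT1 hT2 (fun x => x % 2 = 0) (by
    intro x hx
    rw [hT, mem_filter, mem_range] at hx
    have := h.nc.parity hx.1
    show s.1 x % 2 = 0 ↔ ¬ x % 2 = 0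
    omega)
  have e2 := two_mul_card hT1 hT2 (fun x => x < g) (by
    intro x hx
    rw [hT, mem_filter, mem_range] at hx
    have := (hg.2 x hx.1).mp hx.2.1
    show s.1 x < g ↔ ¬ x < g
    tauto)
  have e3 : (range N).filter (fun x => x % 2 = 0 ∧ s.2 x = true ∧ K x) =
      T.filter fun x => x % 2 = 0 := by
    ext x
    rw [hT, filter_filter, mem_filter, mem_filter]
    tauto
  have e4 : ((range g).filter K).card = (T.filter fun x => x < g).card +
      ((range g).filter fun x => s.2 x = false ∧ K x).card := by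
    rw [← card_union_of_disjoint]
    · congr 1
      ext x
      have hgN := hg.1
      simp only [hT, mem_union, mem_filter, mem_range]
      constructor
      · rintro ⟨hx, hk⟩
        rcases Bool.eq_false_or_eq_true (s.2 x) with e | e
        · exact Or.inl ⟨⟨by omega, e, hk⟩, hx⟩
        · exact Or.inr ⟨hx, e, hk⟩
      · rintro (⟨⟨_, _, hk⟩, hx⟩ | ⟨hx, _, hk⟩)
        · exact ⟨hx, hk⟩
        · exact ⟨hx, hk⟩
    · rw [disjoint_left]
      intro x hx hx'
      simp only [hT, mem_filter, mem_range] at hx hx'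
      rw [hx.1.2.1] at hx'
      exact absurd hx'.2.1 (by simp)
  have e5 : ((range g).filter fun x => s.2 x = false ∧ K x).card % 2 = 0 := by
    have hgN := hg.1
    refine even_card (f := s.1) ?_ ?_ ?_
    · intro x hx
      rw [mem_filter, mem_range] at hx ⊢
      have hxN : x < N := by omega
      have hm := hg.2 x hxN
      have : x < g ↔ s.1 x < g := by
        by_contra hc
        have := hm.mpr hc
        rw [hx.2.1] at this
        exact absurd this (by simp)
      exact ⟨this.mp hx.1, by rw [h.label_partner hxN]; exact hx.2.1, hK x hx.2.2⟩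
    · intro x _
      exact h.nc.inv x
    · intro x hx
      rw [mem_filter, mem_range] at hx
      exact h.nc.ne x (by omega)
  have e6 : cnt K g = ((range g).filter K).card := rfl
  rw [e3, e6, e4]
  omega

/-- Between the last site of `K` and an odd point there is no site of `K₀`. -/
theorem cnt_odd {K K₀ : ℕ → Prop} {ε : ℕ} (hd : ∀ y, K y → ¬ K₀ y)
    (h1 : ∀ z, K₀ z → cnt K z % 2 = 0) (h2 : ∀ y, K y → cnt K₀ y % 2 = ε) :
    ∀ g, cnt K g % 2 = 1 → cnt K₀ g % 2 = ε := by
  classical
  intro g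
  induction g with
  | zero =>
    intro h
    rw [cnt_zero] at h
    omega
  | succ g ih =>
    intro h
    rw [cnt_succ] at h ⊢
    by_cases hk : K g
    · rw [if_neg (hd g hk)]
      exact h2 g hk
    · rw [if_neg hk] at h
      by_cases hk0 : K₀ g
      · have := h1 g hk0
        omega
      · rw [if_neg hk0]
        exact ih h

theorem loopA_mul_loopB (h' : IsAnn N s') (h : IsAnn N s) (hN : 0 < N) (hnc : NCat N s' s 0)
    {x₀ : ℕ} (hx₀ : x₀ < N) : 2 ∣ loopA N s' s x₀ * loopB N s' s x₀ := by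
  classical
  have E := loopR_equivalence h' h
  obtain ⟨g, hg⟩ := h.mark
  obtain ⟨g', hg'⟩ := h'.mark
  have hcl' : ∀ a x, LoopR s' s a x → LoopR s' s a (s'.1 x) :=
    fun a x hx => Relation.ReflTransGen.tail hx (Or.inl rfl)
  have hcl : ∀ a x, LoopR s' s a x → LoopR s' s a (s.1 x) :=
    fun a x hx => Relation.ReflTransGen.tail hx (Or.inr rfl)
  have hA : ∀ a, loopA N s' s a % 2 = cnt (LoopR s' s a) g' % 2 := fun a =>
    label_card h' hg' (hcl' a)
  have hB : ∀ a, loopB N s' s a % 2 = cnt (LoopR s' s a) g % 2 := fun a =>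
    label_card h hg (hcl a)
  by_cases h0 : LoopR s' s 0 x₀
  · have hAe : loopA N s' s x₀ = loopA N s' s 0 := by
      unfold loopA
      congr 1
      ext x
      simp only [mem_filter]
      exact and_congr_right fun _ => and_congr_right fun _ => and_congr_right fun _ =>
        ⟨fun hx => E.trans h0 hx, fun hx => E.trans (E.symm h0) hx⟩
    have hBe : loopB N s' s x₀ = loopB N s' s 0 := by
      unfold loopB
      congr 1
      ext x
      simp only [mem_filter]
      exact and_congr_right fun _ => and_congr_right fun _ => and_congr_right fun _ =>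
        ⟨fun hx => E.trans h0 hx, fun hx => E.trans (E.symm h0) hx⟩
    rw [hAe, hBe]
    unfold NCat at hnc
    rcases Nat.even_or_odd (loopA N s' s 0) with he | ho
    · exact Dvd.dvd.mul_right he.two_dvd _
    · have : loopB N s' s 0 % 2 = 0 := by
        have := Nat.odd_iff.mp ho
        omega
      exact Dvd.dvd.mul_left (Nat.dvd_of_mod_eq_zero this) _
  · have h0' : ¬ LoopR s' s x₀ 0 := fun hc => h0 (E.symm hc)
    have hd : ∀ y, LoopR s' s x₀ y → ¬ LoopR s' s 0 y := fun y hy hy' =>
      h0 (E.trans hy' (E.symm hy))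
    have h1 : ∀ z, LoopR s' s 0 z → cnt (LoopR s' s x₀) z % 2 = 0 := by
      intro z hz
      have := (cnt_loop h'.nc h.nc (hcl' x₀) (hcl x₀) h0' hz).2
      rw [cnt_zero] at this
      omega
    have h2 : ∀ y, LoopR s' s x₀ y → cnt (LoopR s' s 0) y % 2 = cnt (LoopR s' s 0) x₀ % 2 := by
      intro y hy
      exact (cnt_loop h'.nc h.nc (hcl' 0) (hcl 0) h0 hy).2.symm
    have h3 := cnt_odd hd h1 h2 g
    have h4 := cnt_odd hd h1 h2 g'
    unfold NCat at hnc
    have hA0 := hA 0
    have hB0 := hB 0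
    have hA1 := hA x₀
    have hB1 := hB x₀
    rcases Nat.even_or_odd (loopA N s' s x₀) with he | ho
    · exact Dvd.dvd.mul_right he.two_dvd _
    · rcases Nat.even_or_odd (loopB N s' s x₀) with he2 | ho2
      · exact Dvd.dvd.mul_left he2.two_dvd _
      · exfalso
        have ho' := Nat.odd_iff.mp ho
        have ho2' := Nat.odd_iff.mp ho2
        have a1 := h3 (by omega)
        have a2 := h4 (by omega)
        omega

open Classical in
theorem loopN_eq_sum (N : ℕ) (s' s : St) : loopN N s' s =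
    ∑ x ∈ (range N).filter (fun x => x % 2 = 0 ∧ s'.2 x = true), loopB N s' s x := by
  unfold loopN
  rw [card_filter, sum_product, sum_filter]
  refine sum_congr rfl fun x _ => ?_
  rw [← card_filter]
  split_ifs with hx
  · unfold loopB
    congr 1
    ext y
    simp only [mem_filter]
    tauto
  · rw [card_eq_zero, filter_eq_empty_iff]
    intro y _ hy
    exact hx ⟨hy.1, hy.2.2.1⟩

theorem even_loopN (h' : IsAnn N s') (h : IsAnn N s) (hN : 0 < N) (hnc : NCat N s' s 0) :
    2 ∣ loopN N s' s := by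
  classical
  have E := loopR_equivalence h' h
  rw [loopN_eq_sum]
  set A := (range N).filter (fun x => x % 2 = 0 ∧ s'.2 x = true) with hA
  set f : ℕ → Finset ℕ := fun x => (range N).filter (LoopR s' s x) with hf
  rw [← sum_fiberwise_of_maps_to (s := A) (t := A.image f) (g := f)
    (fun x hx => mem_image_of_mem f hx)]
  refine dvd_sum fun c hc => ?_
  obtain ⟨x₀, hx₀, rfl⟩ := mem_image.mp hc
  have hx₀N : x₀ < N := by
    rw [hA, mem_filter, mem_range] at hx₀
    exact hx₀.1
  have hrel : ∀ x < N, f x = f x₀ ↔ LoopR s' s x₀ x := by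
    intro x hx
    constructor
    · intro he
      have : x ∈ f x := by
        rw [hf, mem_filter, mem_range]
        exact ⟨hx, E.refl x⟩
      rw [he, hf, mem_filter] at this
      exact this.2
    · intro hr
      rw [hf]
      ext y
      simp only [mem_filter]
      exact and_congr_right fun _ => ⟨fun hy => E.trans hr hy, fun hy => E.trans (E.symm hr) hy⟩
  have e1 : ∀ x ∈ A.filter (fun x => f x = f x₀), loopB N s' s x = loopB N s' s x₀ := by
    intro x hx
    rw [mem_filter, hA, mem_filter, mem_range] at hx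
    have hr := (hrel x hx.1.1).mp hx.2
    unfold loopB
    congr 1
    ext y
    simp only [mem_filter]
    exact and_congr_right fun _ => and_congr_right fun _ => and_congr_right fun _ =>
      ⟨fun hy => E.trans hr hy, fun hy => E.trans (E.symm hr) hy⟩
  rw [sum_congr rfl e1, sum_const, smul_eq_mul]
  have e2 : (A.filter fun x => f x = f x₀).card = loopA N s' s x₀ := by
    unfold loopA
    congr 1
    ext x
    simp only [hA, mem_filter, mem_range]
    constructor
    · rintro ⟨⟨hx, h1, h2⟩, h3⟩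
      exact ⟨hx, h1, h2, (hrel x hx).mp h3⟩
    · rintro ⟨hx, h1, h2, h3⟩
      exact ⟨⟨hx, h1, h2⟩, (hrel x hx).mpr h3⟩
  rw [e2]
  exact loopA_mul_loopB h' h hN hnc hx₀N

end PairD

/-- If the loop of the site `0` is not contractible then no loop surrounds the seam point. -/
theorem BS_of_NCat (h' : IsAnn N s') (h : IsAnn N s) (hN : 0 < N) (hnc : NCat N s' s 0) :
    BS N s' s = 1 := by
  unfold BS
  exact (even_iff_two_dvd.mpr (PairD.even_loopN h' h hN hnc)).neg_one_pow

end Pool.Agent.Perc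

end PartperqPairD

section PartperqSHatA

/-!
# The symmetric polynomial of the pairing: symmetry, degree, recursion (task SHatA)
-/

set_option autoImplicit false

namespace Pool.Agent.Perc

open Finset MvPolynomial

variable {q : ℂ} {m : ℕ}

/-- The pairing of the reciprocal solution with the solution, as a polynomial. -/
noncomputable def SH (q : ℂ) (m : ℕ) : MvPolynomial ℕ ℂ :=
  ∑ s' ∈ anns (2 * m), ∑ s ∈ anns (2 * m), C (BS (2 * m) s' s) * (PsiM q m s' * PsiS q m s)

theorem eval_SH (q : ℂ) (m : ℕ) (z : ℕ → ℂ) :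
    eval z (SH q m) = BV (2 * m) (PsiMV q m z) (PsiSV q m z) := by
  unfold SH BV
  rw [map_sum]
  refine sum_congr rfl fun s' hs' => ?_
  rw [map_sum]
  refine sum_congr rfl fun s hs => ?_
  rw [map_mul, map_mul, eval_C, PsiMV_apply z (mem_anns.1 hs'), PsiSV_apply z (mem_anns.1 hs)]
  ring

namespace SHatA

theorem degreeOf_recP_le {N n k : ℕ} (P : MvPolynomial ℕ ℂ) (h : k < N → N - 1 ≤ n) :
    (recP N P).degreeOf k ≤ n := by
  unfold recP
  refine (degreeOf_sum_le k _ _).trans (Finset.sup_le fun d _ => ?_)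
  rw [degreeOf_eq_sup]
  refine Finset.sup_le fun e he => ?_
  have h1 := MvPolynomial.support_monomial_subset he
  rw [Finset.mem_singleton] at h1
  rw [h1, RecP.recE_apply]
  by_cases hk : k < N
  · rw [if_pos hk]
    have := h hk
    omega
  · rw [if_neg hk]
    exact Nat.zero_le _

theorem degreeOf_SH_le' {k n n' : ℕ} (h : ∀ s, (PsiS q m s).degreeOf k ≤ n)
    (h' : ∀ s, (PsiM q m s).degreeOf k ≤ n') : (SH q m).degreeOf k ≤ n' + n := by
  unfold SH
  refine (degreeOf_sum_le k _ _).trans (Finset.sup_le fun s' _ => ?_)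
  refine (degreeOf_sum_le k _ _).trans (Finset.sup_le fun s _ => ?_)
  refine (degreeOf_mul_le k _ _).trans ?_
  rw [degreeOf_C, zero_add]
  exact (degreeOf_mul_le k _ _).trans (add_le_add (h' s') (h s))

theorem exch (hq : q ^ 2 + q + 1 = 0) {i : ℕ} (hi : i + 1 < 2 * m) (z : ℕ → ℂ) :
    ((q * z i - q ^ 2 * z (i + 1)) * (q * z (i + 1) - q ^ 2 * z i)) *
      (eval (swapV i z) (SH q m) - eval z (SH q m)) = 0 := by
  have hM := suppA_PsiMV q m z
  have hS := suppA_PsiSV q m z
  have h1 : (q * z i - q ^ 2 * z (i + 1)) • PsiMV q m (swapV i z) =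
      (q * z (i + 1) - q ^ 2 * z i) • PsiMV q m z +
        (-(z i - z (i + 1))) • (PsiMV q m z).mapDomain (eL i) := by
    rw [exchangeM hq hi z, neg_smul, ← sub_eq_add_neg]
  have h2 := exchangeS hq hi z
  have e1 := BV_eL hM hS hi
  have e2 : BV (2 * m) ((PsiMV q m z).mapDomain (eL i)) ((PsiSV q m z).mapDomain (eL i)) =
      BV (2 * m) (PsiMV q m z) ((PsiSV q m z).mapDomain (eL i)) := by
    rw [BV_eL hM (hS.mapDomain fun s hs => hs.eL hi) hi, eV_idem hS hi]
  have h3 : (q * z i - q ^ 2 * z (i + 1)) * ((q * z (i + 1) - q ^ 2 * z i) *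
      eval (swapV i z) (SH q m)) =
      BV (2 * m) ((q * z i - q ^ 2 * z (i + 1)) • PsiMV q m (swapV i z))
        ((q * z (i + 1) - q ^ 2 * z i) • PsiSV q m (swapV i z)) := by
    rw [BV_smul_left, BV_smul_right, eval_SH]
  rw [h1, h2, BV_add_left, BV_add_right, BV_add_right, BV_smul_left,
    BV_smul_left, BV_smul_left, BV_smul_left, BV_smul_right, BV_smul_right, BV_smul_right,
    BV_smul_right, e1, e2, ← eval_SH] at h3
  have h4 : q ^ 3 = 1 := by linear_combination (q - 1) * hq
  set B := BV (2 * m) (PsiMV q m z) ((PsiSV q m z).mapDomain (eL i))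
  rw [mul_sub, mul_assoc, h3]
  linear_combination (-(B * (z i - z (i + 1)) * (z i - z (i + 1)))) * hq

theorem q_ne (hq : q ^ 2 + q + 1 = 0) : q ≠ 0 := by
  rintro rfl
  norm_num at hq

theorem symm (hq : q ^ 2 + q + 1 = 0) {i : ℕ} (hi : i + 1 < 2 * m) (z : ℕ → ℂ) :
    eval (swapV i z) (SH q m) = eval z (SH q m) := by
  have key : ∀ w : ℕ → ℂ, eval (swapV i w) (SH q m) =
      eval w (rename (Equiv.swap i (i + 1)) (SH q m)) := by
    intro w
    rw [eval_rename]
    rfl
  have hp : ((C q * X i - C (q ^ 2) * X (i + 1)) * (C q * X (i + 1) - C (q ^ 2) * X i)) *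
      (rename (Equiv.swap i (i + 1)) (SH q m) - SH q m) = 0 := by
    refine MvPolynomial.funext fun w => ?_
    have h := exch (m := m) hq hi w
    rw [key] at h
    simp only [map_mul, map_sub, eval_C, eval_X, map_zero]
    exact h
  have hne : (C q * X (i + 1) - C (q ^ 2) * X i : MvPolynomial ℕ ℂ) ≠ 0 := by
    intro h0
    have h1 := congrArg (eval fun k => if k = i then (1 : ℂ) else 0) h0
    rw [map_sub, map_mul, map_mul, eval_C, eval_C, eval_X, eval_X, map_zero, if_pos rfl,
      if_neg (by omega : ¬ i + 1 = i), mul_zero, zero_sub, mul_one, neg_eq_zero] at h1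
    exact pow_ne_zero 2 (q_ne hq) h1
  have hne' : (C q * X i - C (q ^ 2) * X (i + 1) : MvPolynomial ℕ ℂ) ≠ 0 := by
    intro h0
    have h1 := congrArg (eval fun k => if k = i then (1 : ℂ) else 0) h0
    rw [map_sub, map_mul, map_mul, eval_C, eval_C, eval_X, eval_X, map_zero, if_pos rfl,
      if_neg (by omega : ¬ i + 1 = i), mul_zero, sub_zero, mul_one] at h1
    exact (q_ne hq) h1
  have h2 := sub_eq_zero.1 ((mul_eq_zero.1 hp).resolve_left (mul_ne_zero hne' hne))
  rw [key, h2]

theorem ins_ne (hq : q ^ 2 + q + 1 = 0) (m : ℕ) {v : ℂ} (hv : v ≠ 0) (z : ℕ → ℂ) :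
    eval (insV 0 (q ^ 2 * v) v z) (SH q (m + 1)) =
      (v ^ 2 * (∏ k ∈ range (2 * m), (z k - q * v) ^ 4) / (9 * q) ^ (2 * m)) *
        eval z (SH q m) := by
  have hq0 := q_ne hq
  set κ : ℂ := v * (∏ k ∈ range (2 * m), (z k - q * v) ^ 2) / (9 * q) ^ m with hκ
  have hM := suppA_PsiMV q m z
  have hS := suppA_PsiSV q m z
  have h1 := eL_PsiMV_insV hq m (Nat.zero_le _) hv z
  rw [eval_SH, PsiSV_insV hq m (Nat.zero_le _) v z, show 2 * (m + 1) = 2 * m + 2 by ring,
    BV_smul_right]
  have h2 := BV_insL_right (f' := PsiMV q (m + 1) (insV 0 (q ^ 2 * v) v z))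
    (f := κ • PsiMV q m z) (g := PsiSV q m z) (i := 0) (N := 2 * m)
    (by have := suppA_PsiMV q (m + 1) (insV 0 (q ^ 2 * v) v z)
        rwa [show 2 * (m + 1) = 2 * m + 2 by ring] at this)
    (hM.smul κ) hS (Nat.zero_le _) (by rw [h1, Finsupp.mapDomain_smul])
  rw [h2, BV_smul_left, ← eval_SH, ← mul_assoc]
  congr 1
  rw [← hκ, hκ]
  have e1 : ∏ k ∈ range (2 * m), (z k - q * v) ^ 4 =
      (∏ k ∈ range (2 * m), (z k - q * v) ^ 2) * ∏ k ∈ range (2 * m), (z k - q * v) ^ 2 := by
    rw [← Finset.prod_mul_distrib]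
    exact Finset.prod_congr rfl fun k _ => by ring
  have h9 : (9 * q : ℂ) ^ m ≠ 0 := pow_ne_zero _ (mul_ne_zero (by norm_num) hq0)
  rw [e1, show (9 * q : ℂ) ^ (2 * m) = (9 * q) ^ m * (9 * q) ^ m by rw [← pow_add]; ring_nf]
  field_simp

end SHatA

theorem degreeOf_SH_le (hq : q ^ 2 + q + 1 = 0) (m k : ℕ) :
    (SH q m).degreeOf k ≤ 2 * (2 * m - 1) := by
  have h := SHatA.degreeOf_SH_le' (q := q) (m := m) (k := k) (n := 2 * m - 1) (n' := 2 * m - 1)
    (fun s => degreeOf_PsiS_le hq m s k) (fun s => SHatA.degreeOf_recP_le _ fun _ => le_rfl)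
  omega

theorem degreeOf_SH_out (hq : q ^ 2 + q + 1 = 0) (m : ℕ) {k : ℕ} (hk : 2 * m ≤ k) :
    (SH q m).degreeOf k = 0 := by
  have h := SHatA.degreeOf_SH_le' (q := q) (m := m) (k := k) (n := 0) (n' := 0)
    (fun s => ((dw_PsiS hq m s).out k hk).le)
    (fun s => SHatA.degreeOf_recP_le _ fun h => absurd h (by omega))
  omega

theorem eval_SH_swapV (hq : q ^ 2 + q + 1 = 0) {i : ℕ} (hi : i + 1 < 2 * m) (z : ℕ → ℂ) :
    eval (swapV i z) (SH q m) = eval z (SH q m) := SHatA.symm hq hi z

theorem eval_SH_insV (hq : q ^ 2 + q + 1 = 0) (m : ℕ) (v : ℂ) (z : ℕ → ℂ) :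
    eval (insV 0 (q ^ 2 * v) v z) (SH q (m + 1)) =
      (v ^ 2 * (∏ k ∈ range (2 * m), (z k - q * v) ^ 4) / (9 * q) ^ (2 * m)) *
        eval z (SH q m) := by
  refine PsiMA.ext_ne_one (F := fun v => eval (insV 0 (q ^ 2 * v) v z) (SH q (m + 1)))
    (G := fun v => (v ^ 2 * (∏ k ∈ range (2 * m), (z k - q * v) ^ 4) / (9 * q) ^ (2 * m)) *
        eval z (SH q m)) ?_ (by fun_prop) (fun v hv => SHatA.ins_ne hq m hv z) v
  refine (MvPolynomial.continuous_eval _).comp (continuous_pi fun k => ?_)
  unfold insV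
  by_cases h1 : k < 0
  · omega
  · by_cases h2 : k = 0
    · simp only [if_neg h1, if_pos h2]
      fun_prop
    · simp only [if_neg h1, if_neg h2]
      by_cases h3 : k = 0 + 1
      · simp only [if_pos h3]
        fun_prop
      · simp only [if_neg h3]
        fun_prop

theorem eval_SH_zero (hq : q ^ 2 + q + 1 = 0) (z : ℕ → ℂ) : eval z (SH q 0) = 1 := by
  have h1 : anns (2 * 0) = {nestS 0} := by
    ext s
    rw [mem_anns, Finset.mem_singleton]
    exact ⟨fun h => isAnn_zero h, fun h => h ▸ isAnn_nestS 0⟩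
  rw [eval_SH, PsiMV_zero hq, PsiSV_zero hq, BV, h1, Finset.sum_singleton, Finset.sum_singleton,
    Finsupp.single_eq_same, one_mul, one_mul]
  exact BS_zero _ _

end Pool.Agent.Perc

end PartperqSHatA

section PartperqFSumA

/-!
# The sum of the components (task FSumA)
-/

set_option autoImplicit false

namespace Pool.Agent.Perc

open Finset MvPolynomial

variable {q : ℂ} {m : ℕ}

/-- The sum of the components. -/
noncomputable def FH (q : ℂ) (m : ℕ) : MvPolynomial ℕ ℂ := ∑ s ∈ anns (2 * m), PsiS q m s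

theorem eval_FH (q : ℂ) (m : ℕ) (z : ℕ → ℂ) :
    eval z (FH q m) = ∑ s ∈ anns (2 * m), PsiSV q m z s := by
  rw [FH, map_sum]
  exact Finset.sum_congr rfl fun s hs => (PsiSV_apply z (mem_anns.1 hs)).symm

namespace FSumA

/-- The sum of the coefficients. -/
noncomputable def tot : (St →₀ ℂ) →ₗ[ℂ] ℂ := Finsupp.linearCombination ℂ (fun _ : St => (1 : ℂ))

theorem tot_single (s : St) (c : ℂ) : tot (Finsupp.single s c) = c := by
  rw [tot, Finsupp.linearCombination_single, smul_eq_mul, mul_one]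

theorem tot_mapDomain (f : St →₀ ℂ) (g : St → St) : tot (f.mapDomain g) = tot f := by
  rw [tot, Finsupp.linearCombination_mapDomain]
  rfl

theorem eval_FH_tot (q : ℂ) (m : ℕ) (z : ℕ → ℂ) : eval z (FH q m) = tot (PsiSV q m z) := by
  rw [FH, map_sum, PsiSV, map_sum]
  exact Finset.sum_congr rfl fun s _ => (tot_single s _).symm

theorem degreeOf_FH_le {k n : ℕ} (h : ∀ s, (PsiS q m s).degreeOf k ≤ n) :
    (FH q m).degreeOf k ≤ n := by
  rw [FH]
  exact (degreeOf_sum_le k _ _).trans (Finset.sup_le fun s _ => h s)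

theorem exch (hq : q ^ 2 + q + 1 = 0) {i : ℕ} (hi : i + 1 < 2 * m) (z : ℕ → ℂ) :
    (q * z (i + 1) - q ^ 2 * z i) * (eval (swapV i z) (FH q m) - eval z (FH q m)) = 0 := by
  have h := congrArg tot (exchangeS hq hi z)
  rw [map_smul, map_add, map_smul, map_smul, tot_mapDomain, smul_eq_mul, smul_eq_mul,
    smul_eq_mul, ← eval_FH_tot, ← eval_FH_tot] at h
  have e : q * z i - q ^ 2 * z (i + 1) + (z i - z (i + 1)) = q * z (i + 1) - q ^ 2 * z i := by
    linear_combination (z i - z (i + 1)) * hq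
  rw [mul_sub, h, ← add_mul, e, sub_self]

theorem q_ne (hq : q ^ 2 + q + 1 = 0) : q ≠ 0 := by
  rintro rfl
  norm_num at hq

theorem symm (hq : q ^ 2 + q + 1 = 0) {i : ℕ} (hi : i + 1 < 2 * m) (z : ℕ → ℂ) :
    eval (swapV i z) (FH q m) = eval z (FH q m) := by
  have key : ∀ w : ℕ → ℂ, eval (swapV i w) (FH q m) =
      eval w (rename (Equiv.swap i (i + 1)) (FH q m)) := by
    intro w
    rw [eval_rename]
    rfl
  have hp : (C q * X (i + 1) - C (q ^ 2) * X i) *
      (rename (Equiv.swap i (i + 1)) (FH q m) - FH q m) = 0 := by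
    refine MvPolynomial.funext fun w => ?_
    have h := exch (m := m) hq hi w
    rw [key] at h
    rw [map_mul, map_sub, map_sub, map_mul, map_mul, eval_C, eval_C, eval_X, eval_X, map_zero]
    exact h
  have hne : (C q * X (i + 1) - C (q ^ 2) * X i : MvPolynomial ℕ ℂ) ≠ 0 := by
    intro h0
    have h1 := congrArg (eval fun k => if k = i then (1 : ℂ) else 0) h0
    rw [map_sub, map_mul, map_mul, eval_C, eval_C, eval_X, eval_X, map_zero, if_pos rfl,
      if_neg (by omega : ¬ i + 1 = i), mul_zero, zero_sub, mul_one, neg_eq_zero] at h1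
    exact pow_ne_zero 2 (q_ne hq) h1
  have h2 := sub_eq_zero.1 ((mul_eq_zero.1 hp).resolve_left hne)
  rw [key, h2]

end FSumA

theorem recF_FH (hq : q ^ 2 + q + 1 = 0) : RecF q (fun m => 1 / (9 * q) ^ m) (FH q) where
  out m k hk := Nat.le_zero.1 (FSumA.degreeOf_FH_le fun s => ((dw_PsiS hq m s).out k hk).le)
  deg m := FSumA.degreeOf_FH_le fun s => degreeOf_PsiS_le hq (m + 1) s 0
  symm m i hi z := FSumA.symm hq hi z
  ins m v z := by
    rw [FSumA.eval_FH_tot, PsiSV_insV hq m (Nat.zero_le _) v z, map_smul, FSumA.tot_mapDomain,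
      ← FSumA.eval_FH_tot, smul_eq_mul]
    ring

theorem eval_FH_zero (hq : q ^ 2 + q + 1 = 0) (z : ℕ → ℂ) : eval z (FH q 0) = 1 := by
  rw [FSumA.eval_FH_tot, PsiSV_zero hq z, FSumA.tot_single]

end Pool.Agent.Perc

end PartperqFSumA

section PartperqLowA

/-!
# Lowest coefficients of the solution (task LowA)
-/

set_option autoImplicit false

namespace Pool.Agent.Perc

open Finset MvPolynomial

variable {q : ℂ} {m : ℕ}

namespace LowA

open Classical in
theorem sum_single_apply (T : Finset St) (c : St → ℂ) (s' : St) :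
    (∑ s ∈ T, Finsupp.single s (c s)) s' = if s' ∈ T then c s' else 0 := by
  rw [Finsupp.finsetSum_apply]
  simp only [Finsupp.single_apply]
  rw [Finset.sum_ite_eq' T s' c]

open Classical in
theorem mapDomain_sum_single_apply (T : Finset St) (c : St → ℂ) (φ : St → St) (s' : St) :
    ((∑ s ∈ T, Finsupp.single s (c s)).mapDomain φ) s' =
      ∑ s ∈ T, if φ s = s' then c s else 0 := by
  rw [Finsupp.mapDomain_finsetSum, Finsupp.finsetSum_apply]
  refine Finset.sum_congr rfl fun s _ => ?_
  rw [Finsupp.mapDomain_single, Finsupp.single_apply]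

theorem eval_aeval (f : ℕ → Polynomial ℂ) (P : MvPolynomial ℕ ℂ) (t : ℂ) :
    (aeval f P).eval t = eval (fun k => (f k).eval t) P := by
  induction P using MvPolynomial.induction_on with
  | C a => simp
  | add p r hp hr => simp [hp, hr]
  | mul_X p k hp => simp [hp]

theorem eval_putX (j : ℕ) (a b : ℂ) (z : ℕ → ℂ) (t : ℂ) :
    (fun k => (putX j a b z k).eval t) = put2 j (a * t) (b * t) z := by
  funext k
  simp only [putX, put2]
  split_ifs <;> simp

theorem eval_aeval_putX (j : ℕ) (a b : ℂ) (z : ℕ → ℂ) (P : MvPolynomial ℕ ℂ) (t : ℂ) :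
    (aeval (putX j a b z) P).eval t = eval (put2 j (a * t) (b * t) z) P := by
  rw [eval_aeval, eval_putX]

theorem putX_coeff_zero (j : ℕ) (a b a' b' : ℂ) (z : ℕ → ℂ) (k : ℕ) :
    (putX j a b z k).coeff 0 = (putX j a' b' z k).coeff 0 := by
  simp only [putX]
  split_ifs <;> simp

theorem putX_coeff_one (j : ℕ) (a b : ℂ) (z : ℕ → ℂ) (k : ℕ) :
    (putX j a b z k).coeff 1 =
      a * (putX j 1 0 z k).coeff 1 + b * (putX j 0 1 z k).coeff 1 := by
  simp only [putX]
  split_ifs <;> simp

theorem aeval_coeff_zero (j : ℕ) (a b a' b' : ℂ) (z : ℕ → ℂ) (P : MvPolynomial ℕ ℂ) :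
    (aeval (putX j a b z) P).coeff 0 = (aeval (putX j a' b' z) P).coeff 0 := by
  induction P using MvPolynomial.induction_on with
  | C c => simp
  | add p r hp hr => simp [hp, hr]
  | mul_X p k hp =>
    rw [map_mul, map_mul, aeval_X, aeval_X, Polynomial.mul_coeff_zero, Polynomial.mul_coeff_zero,
      hp, putX_coeff_zero j a b a' b' z k]

theorem aeval_coeff_one (j : ℕ) (a b : ℂ) (z : ℕ → ℂ) (P : MvPolynomial ℕ ℂ) :
    (aeval (putX j a b z) P).coeff 1 =
      a * (aeval (putX j 1 0 z) P).coeff 1 + b * (aeval (putX j 0 1 z) P).coeff 1 := by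
  induction P using MvPolynomial.induction_on with
  | C c => simp
  | add p r hp hr =>
    simp only [map_add, Polynomial.coeff_add, hp, hr]
    ring
  | mul_X p k hp =>
    simp only [map_mul, aeval_X, Polynomial.mul_coeff_one]
    rw [hp, putX_coeff_one j a b z k, aeval_coeff_zero j a b 1 0 z p,
      putX_coeff_zero j a b 1 0 z k, aeval_coeff_zero j 0 1 1 0 z p,
      putX_coeff_zero j 0 1 1 0 z k]
    ring

theorem put2_self {j : ℕ} (hj : 0 < j) (x y : ℂ) (z : ℕ → ℂ) : put2 j x y z j = y := by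
  unfold put2
  rw [if_neg (by omega), if_neg (by omega), if_pos rfl]

theorem put2_succ {j : ℕ} (x y : ℂ) (z : ℕ → ℂ) : put2 j x y z (j + 1) = z (j - 1) := by
  unfold put2
  rw [if_neg (by omega), if_neg (by omega), if_neg (by omega)]
  congr 1

theorem swapV_put2 {j : ℕ} (hj : 0 < j) (x y : ℂ) (z : ℕ → ℂ) :
    swapV j (put2 j x y z) = put2 (j + 1) x y z := by
  funext k
  rw [swapV, Equiv.swap_apply_def]
  simp only [put2]
  split_ifs <;> first | rfl | omega | contradiction | (congr 1; omega)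

theorem swapV_put2_one (x y : ℂ) (z : ℕ → ℂ) :
    swapV 0 (put2 1 x y z) = put2 1 y x z := by
  funext k
  rw [swapV, Equiv.swap_apply_def]
  simp only [put2]
  split_ifs <;> first | rfl | omega | contradiction | (congr 1; omega)

theorem insV_zero (x y : ℂ) (z : ℕ → ℂ) : insV 0 x y z = put2 1 x y z := by
  funext k
  simp only [insV, put2]
  split_ifs <;> first | rfl | omega | contradiction | (congr 1; omega)

theorem two_le (n : ℕ) : ∑ j ∈ range (n + 2), j = ∑ j ∈ range n, (n + 2 - 1 - j) + 1 := by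
  rw [← Finset.sum_range_reflect (fun j => j) (n + 2), sum_range_succ, sum_range_succ]
  have h1 : n + 2 - 1 - n = 1 := by omega
  have h2 : n + 2 - 1 - (n + 1) = 0 := by omega
  rw [h1, h2]

open Classical in
/-- the linear coefficient of a solution of a recursion with an insertion -/
theorem chi_of_forall (q : ℂ) (m j : ℕ) (a b : ℂ) (z : ℕ → ℂ) (g : St →₀ ℂ)
    (h : ∀ v : ℂ, PsiSV q (m + 1) (put2 j (a * v) (b * v) z) =
      (v * (∏ k ∈ range (2 * m), (z k - q * v) ^ 2) / (9 * q) ^ m) • g) :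
    chiS q m j a b z = ((∏ k ∈ range (2 * m), z k ^ 2) / (9 * q) ^ m) • g := by
  ext s'
  have hpoly : (if s' ∈ anns (2 * m + 2) then aeval (putX j a b z) (PsiS q (m + 1) s') else 0) =
      Polynomial.C (g s' / (9 * q) ^ m) * (∏ k ∈ range (2 * m),
        (Polynomial.C (z k) - Polynomial.C q * Polynomial.X) ^ 2) * Polynomial.X := by
    apply Polynomial.funext
    intro v
    have h1 := DFunLike.congr_fun (h v) s'
    rw [PsiSV, show 2 * (m + 1) = 2 * m + 2 from rfl, sum_single_apply, Finsupp.smul_apply,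
      smul_eq_mul] at h1
    rw [Polynomial.eval_mul, Polynomial.eval_mul, Polynomial.eval_C, Polynomial.eval_X,
      Polynomial.eval_prod]
    simp only [Polynomial.eval_pow, Polynomial.eval_sub, Polynomial.eval_mul, Polynomial.eval_C,
      Polynomial.eval_X]
    rw [apply_ite (Polynomial.eval v), Polynomial.eval_zero, eval_aeval_putX, h1]
    ring
  have h2 := congrArg (fun p : Polynomial ℂ => p.coeff 1) hpoly
  simp only [Polynomial.coeff_mul_X, Polynomial.mul_coeff_zero, Polynomial.coeff_C_zero] at h2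
  rw [chiS, sum_single_apply, Finsupp.smul_apply, smul_eq_mul]
  have h3 : (∏ k ∈ range (2 * m), (Polynomial.C (z k) - Polynomial.C q * Polynomial.X) ^ 2).coeff
      0 = ∏ k ∈ range (2 * m), z k ^ 2 := by
    rw [Polynomial.coeff_zero_eq_eval_zero, Polynomial.eval_prod]
    simp
  rw [h3] at h2
  rw [apply_ite (fun p : Polynomial ℂ => p.coeff 1), Polynomial.coeff_zero] at h2
  rw [h2]
  ring

end LowA

open LowA

/-- The components vanish when two variables vanish. -/
theorem eval_PsiS_eq_zero (hq : q ^ 2 + q + 1 = 0) (m : ℕ) (s : St) {z : ℕ → ℂ} {i j : ℕ}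
    (hij : i ≠ j) (hi : i < 2 * m) (hj : j < 2 * m) (hzi : z i = 0) (hzj : z j = 0) :
    eval z (PsiS q m s) = 0 := by
  have hD := dw_PsiS hq m s
  rw [MvPolynomial.eval_eq]
  refine Finset.sum_eq_zero fun d hd => ?_
  have h1 := hD.tot d hd
  have h2 := hD.maj d hd (((range (2 * m)).erase i).erase j)
    ((Finset.erase_subset _ _).trans (Finset.erase_subset _ _))
  have hjm : j ∈ (range (2 * m)).erase i := Finset.mem_erase.2 ⟨hij.symm, mem_range.2 hj⟩
  have hc : (((range (2 * m)).erase i).erase j).card = 2 * m - 2 := by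
    rw [Finset.card_erase_of_mem hjm, Finset.card_erase_of_mem (mem_range.2 hi), card_range]
    omega
  rw [hc] at h2
  have h3 := Finset.sum_erase_add (range (2 * m)) (fun k => d k) (mem_range.2 hi)
  have h4 := Finset.sum_erase_add ((range (2 * m)).erase i) (fun k => d k) hjm
  have h5 := two_le (2 * m - 2)
  have h6 : 2 * m - 2 + 2 = 2 * m := by omega
  rw [h6] at h5
  have h7 : d i ≠ 0 ∨ d j ≠ 0 := by omega
  apply mul_eq_zero_of_right
  rcases h7 with h7 | h7
  · refine Finset.prod_eq_zero (Finsupp.mem_support_iff.2 h7) ?_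
    rw [hzi, zero_pow h7]
  · refine Finset.prod_eq_zero (Finsupp.mem_support_iff.2 h7) ?_
    rw [hzj, zero_pow h7]

open Classical in
theorem suppA_chiS (q : ℂ) (m j : ℕ) (a b : ℂ) (z : ℕ → ℂ) :
    SuppA (2 * m + 2) (chiS q m j a b z) := by
  intro s hs
  rw [chiS, sum_single_apply] at hs
  by_contra hc
  exact hs (if_neg fun h => hc (mem_anns.1 h))

open Classical in
theorem chiS_linear (q : ℂ) (m j : ℕ) (a b : ℂ) (z : ℕ → ℂ) :
    chiS q m j a b z = a • chiS q m j 1 0 z + b • chiS q m j 0 1 z := by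
  ext s
  simp only [chiS, Finsupp.add_apply, Finsupp.smul_apply, smul_eq_mul, sum_single_apply]
  split_ifs
  · exact aeval_coeff_one j a b z _
  · ring

theorem coeff_zero_putX_PsiS (hq : q ^ 2 + q + 1 = 0) (m : ℕ) (s : St) {j : ℕ} (hj : 0 < j)
    (hjm : j < 2 * m + 2) (a b : ℂ) (z : ℕ → ℂ) :
    (aeval (putX j a b z) (PsiS q (m + 1) s)).coeff 0 = 0 := by
  rw [Polynomial.coeff_zero_eq_eval_zero, eval_aeval_putX]
  refine eval_PsiS_eq_zero hq (m + 1) s (i := 0) (j := j) (by omega) (by omega) (by omega) ?_ ?_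
  · simp [put2]
  · rw [put2_self hj, mul_zero]

/-- Moving the place `j`. -/
theorem chiS_succ (hq : q ^ 2 + q + 1 = 0) (m : ℕ) {j : ℕ} (hj : 0 < j) (hjm : j < 2 * m + 1)
    (a b : ℂ) {z : ℕ → ℂ} (hz : ∀ k < 2 * m, z k ≠ 0) :
    chiS q m (j + 1) a b z =
      (-q) • chiS q m j a b z + (-q ^ 2) • (chiS q m j a b z).mapDomain (eL j) := by
  classical
  ext s'
  have hq0 : q ≠ 0 := by
    rintro rfl
    norm_num at hq
  have hx : z (j - 1) ≠ 0 := hz _ (by omega)
  have hIs : ∀ s, s ∈ anns (2 * m + 2) → eL j s ∈ anns (2 * m + 2) := fun s hs =>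
    mem_anns.2 ((mem_anns.1 hs).eL (by omega))
  by_cases hs' : s' ∈ anns (2 * m + 2)
  · set A := aeval (putX (j + 1) a b z) (PsiS q (m + 1) s') with hA
    set B := aeval (putX j a b z) (PsiS q (m + 1) s') with hB
    set E := ∑ s ∈ anns (2 * m + 2),
      if eL j s = s' then aeval (putX j a b z) (PsiS q (m + 1) s) else 0 with hE
    have hpoly : (Polynomial.C (q * z (j - 1)) - Polynomial.C (q ^ 2 * b) * Polynomial.X) * A =
        (Polynomial.C (q * b) * Polynomial.X - Polynomial.C (q ^ 2 * z (j - 1))) * B +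
          (Polynomial.C b * Polynomial.X - Polynomial.C (z (j - 1))) * E := by
      apply Polynomial.funext
      intro t
      have h1 := DFunLike.congr_fun (exchangeS (m := m + 1) hq (i := j) (by omega)
        (put2 j (a * t) (b * t) z)) s'
      rw [Finsupp.add_apply, Finsupp.smul_apply, Finsupp.smul_apply, Finsupp.smul_apply,
        swapV_put2 hj, smul_eq_mul, smul_eq_mul, smul_eq_mul, PsiSV, PsiSV,
        show 2 * (m + 1) = 2 * m + 2 from rfl, sum_single_apply, sum_single_apply, if_pos hs',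
        if_pos hs', mapDomain_sum_single_apply] at h1
      rw [put2_self hj, put2_succ] at h1
      simp only [Polynomial.eval_mul, Polynomial.eval_add, Polynomial.eval_sub, Polynomial.eval_C,
        Polynomial.eval_X]
      rw [hA, hB, hE, eval_aeval_putX, eval_aeval_putX, Polynomial.eval_finsetSum]
      have e3 : ∀ s, Polynomial.eval t (if eL j s = s' then
          aeval (putX j a b z) (PsiS q (m + 1) s) else 0) = if eL j s = s' then
            eval (put2 j (a * t) (b * t) z) (PsiS q (m + 1) s) else 0 := by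
        intro s
        split_ifs
        · exact eval_aeval_putX _ _ _ _ _ _
        · exact Polynomial.eval_zero
      simp only [e3]
      linear_combination h1
    have hA0 : A.coeff 0 = 0 := coeff_zero_putX_PsiS hq m s' (by omega) (by omega) a b z
    have hB0 : B.coeff 0 = 0 := coeff_zero_putX_PsiS hq m s' (by omega) (by omega) a b z
    have hE0 : E.coeff 0 = 0 := by
      rw [hE, Polynomial.finsetSum_coeff]
      refine Finset.sum_eq_zero fun s _ => ?_
      split_ifs
      · exact coeff_zero_putX_PsiS hq m s (by omega) (by omega) a b z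
      · exact Polynomial.coeff_zero 0
    have h2 := congrArg (fun p : Polynomial ℂ => p.coeff 1) hpoly
    simp only [Polynomial.coeff_add, Polynomial.mul_coeff_one, hA0, hB0, hE0,
      Polynomial.coeff_sub, Polynomial.coeff_C_zero, Polynomial.mul_coeff_zero,
      Polynomial.coeff_X_zero, mul_zero, zero_mul, add_zero, sub_zero, zero_sub] at h2
    have hE1 : E.coeff 1 = ∑ s ∈ anns (2 * m + 2), if eL j s = s' then
        (aeval (putX j a b z) (PsiS q (m + 1) s)).coeff 1 else 0 := by
      rw [hE, Polynomial.finsetSum_coeff]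
      refine Finset.sum_congr rfl fun s _ => ?_
      split_ifs
      · rfl
      · exact Polynomial.coeff_zero 1
    rw [Finsupp.add_apply, Finsupp.smul_apply, Finsupp.smul_apply, chiS, chiS, sum_single_apply,
      sum_single_apply, if_pos hs', if_pos hs', mapDomain_sum_single_apply, ← hE1, ← hA, ← hB,
      smul_eq_mul, smul_eq_mul]
    have h3 : q * z (j - 1) ≠ 0 := mul_ne_zero hq0 hx
    apply mul_left_cancel₀ h3
    rw [h2]
    linear_combination (z (j - 1) * (q - 1) * E.coeff 1) * hq
  · rw [Finsupp.add_apply, Finsupp.smul_apply, Finsupp.smul_apply, chiS, chiS, sum_single_apply,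
      sum_single_apply, if_neg hs', if_neg hs', mapDomain_sum_single_apply]
    rw [Finset.sum_eq_zero]
    · simp
    · intro s hs
      rw [if_neg]
      rintro rfl
      exact hs' (hIs s hs)

/-- Exchange of the places `0` and `1`. -/
theorem chiS_one (hq : q ^ 2 + q + 1 = 0) (m : ℕ) (z : ℕ → ℂ) :
    chiS q m 1 1 0 z =
      (-q) • chiS q m 1 0 1 z + (-q ^ 2) • (chiS q m 1 0 1 z).mapDomain (eL 0) := by
  classical
  ext s'
  have hq0 : q ≠ 0 := by
    rintro rfl
    norm_num at hq
  have hIs : ∀ s, s ∈ anns (2 * m + 2) → eL 0 s ∈ anns (2 * m + 2) := fun s hs =>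
    mem_anns.2 ((mem_anns.1 hs).eL (by omega))
  by_cases hs' : s' ∈ anns (2 * m + 2)
  · set A := aeval (putX 1 1 0 z) (PsiS q (m + 1) s') with hA
    set B := aeval (putX 1 0 1 z) (PsiS q (m + 1) s') with hB
    set E := ∑ s ∈ anns (2 * m + 2),
      if eL 0 s = s' then aeval (putX 1 0 1 z) (PsiS q (m + 1) s) else 0 with hE
    have hpoly : (Polynomial.C q * A) * Polynomial.X =
        (Polynomial.C (-q ^ 2) * B - E) * Polynomial.X := by
      apply Polynomial.funext
      intro t
      have h1 := DFunLike.congr_fun (exchangeS (m := m + 1) hq (i := 0) (by omega)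
        (put2 1 (0 * t) (1 * t) z)) s'
      rw [Finsupp.add_apply, Finsupp.smul_apply, Finsupp.smul_apply, Finsupp.smul_apply,
        swapV_put2_one, smul_eq_mul, smul_eq_mul, smul_eq_mul, PsiSV, PsiSV,
        show 2 * (m + 1) = 2 * m + 2 from rfl, sum_single_apply, sum_single_apply, if_pos hs',
        if_pos hs', mapDomain_sum_single_apply] at h1
      have e1 : put2 1 (0 * t) (1 * t) z 0 = 0 := by
        simp [put2]
      have e2 : put2 1 (0 * t) (1 * t) z (0 + 1) = t := by
        simp [put2]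
      rw [e1, e2] at h1
      simp only [Polynomial.eval_mul, Polynomial.eval_sub, Polynomial.eval_C,
        Polynomial.eval_X]
      rw [hA, hB, hE, eval_aeval_putX, eval_aeval_putX, Polynomial.eval_finsetSum]
      have e3 : ∀ s, Polynomial.eval t (if eL 0 s = s' then
          aeval (putX 1 0 1 z) (PsiS q (m + 1) s) else 0) = if eL 0 s = s' then
            eval (put2 1 (0 * t) (1 * t) z) (PsiS q (m + 1) s) else 0 := by
        intro s
        split_ifs
        · exact eval_aeval_putX _ _ _ _ _ _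
        · exact Polynomial.eval_zero
      simp only [e3]
      linear_combination h1
    have h2 := congrArg (fun p : Polynomial ℂ => p.coeff (1 + 1)) hpoly
    simp only [Polynomial.coeff_mul_X, Polynomial.coeff_sub, Polynomial.coeff_C_mul] at h2
    have hE1 : E.coeff 1 = ∑ s ∈ anns (2 * m + 2), if eL 0 s = s' then
        (aeval (putX 1 0 1 z) (PsiS q (m + 1) s)).coeff 1 else 0 := by
      rw [hE, Polynomial.finsetSum_coeff]
      refine Finset.sum_congr rfl fun s _ => ?_
      split_ifs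
      · rfl
      · exact Polynomial.coeff_zero 1
    rw [Finsupp.add_apply, Finsupp.smul_apply, Finsupp.smul_apply, chiS, chiS, sum_single_apply,
      sum_single_apply, if_pos hs', if_pos hs', mapDomain_sum_single_apply, ← hE1, ← hA, ← hB,
      smul_eq_mul, smul_eq_mul]
    apply mul_left_cancel₀ hq0
    rw [h2]
    linear_combination ((q - 1) * E.coeff 1) * hq
  · rw [Finsupp.add_apply, Finsupp.smul_apply, Finsupp.smul_apply, chiS, chiS, sum_single_apply,
      sum_single_apply, if_neg hs', if_neg hs', mapDomain_sum_single_apply]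
    rw [Finset.sum_eq_zero]
    · simp
    · intro s hs
      rw [if_neg]
      rintro rfl
      exact hs' (hIs s hs)

theorem chiS_ins (hq : q ^ 2 + q + 1 = 0) (m : ℕ) (z : ℕ → ℂ) :
    chiS q m 1 (q ^ 2) 1 z =
      ((∏ k ∈ range (2 * m), z k ^ 2) / (9 * q) ^ m) • (PsiSV q m z).mapDomain (insL 0) := by
  apply chi_of_forall
  intro v
  rw [one_mul, ← insV_zero]
  exact PsiSV_insV hq m (Nat.zero_le _) v z

theorem chiS_seam (hq : q ^ 2 + q + 1 = 0) (m : ℕ) (z : ℕ → ℂ) :
    chiS q m (2 * m + 1) 1 (q ^ 2) z =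
      ((∏ k ∈ range (2 * m), z k ^ 2) / (9 * q) ^ m) •
        (PsiSV q m z).mapDomain (cupL (2 * m)) := by
  apply chi_of_forall
  intro v
  rw [one_mul]
  exact PsiSV_seam hq m v z

end Pool.Agent.Perc

end PartperqLowA

section PartperqLowM

/-!
# Lowest coefficients of the reciprocal solution (task LowM)
-/

set_option autoImplicit false

namespace Pool.Agent.Perc

open Finset MvPolynomial

variable {q : ℂ} {m : ℕ}

namespace LowM

open Classical in
theorem sum_single_apply (T : Finset St) (c : St → ℂ) (s' : St) :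
    (∑ s ∈ T, Finsupp.single s (c s)) s' = if s' ∈ T then c s' else 0 := by
  rw [Finsupp.finsetSum_apply]
  simp only [Finsupp.single_apply]
  rw [Finset.sum_ite_eq' T s' c]

open Classical in
theorem mapDomain_sum_single_apply (T : Finset St) (c : St → ℂ) (φ : St → St) (s' : St) :
    ((∑ s ∈ T, Finsupp.single s (c s)).mapDomain φ) s' =
      ∑ s ∈ T, if φ s = s' then c s else 0 := by
  rw [Finsupp.mapDomain_finsetSum, Finsupp.finsetSum_apply]
  refine Finset.sum_congr rfl fun s _ => ?_
  rw [Finsupp.mapDomain_single, Finsupp.single_apply]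

theorem eval_aeval (f : ℕ → Polynomial ℂ) (P : MvPolynomial ℕ ℂ) (t : ℂ) :
    (aeval f P).eval t = eval (fun k => (f k).eval t) P := by
  induction P using MvPolynomial.induction_on with
  | C a => simp
  | add p r hp hr => simp [hp, hr]
  | mul_X p k hp => simp [hp]

theorem eval_putX (j : ℕ) (a b : ℂ) (z : ℕ → ℂ) (t : ℂ) :
    (fun k => (putX j a b z k).eval t) = put2 j (a * t) (b * t) z := by
  funext k
  simp only [putX, put2]
  split_ifs <;> simp

theorem eval_aeval_putX (j : ℕ) (a b : ℂ) (z : ℕ → ℂ) (P : MvPolynomial ℕ ℂ) (t : ℂ) :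
    (aeval (putX j a b z) P).eval t = eval (put2 j (a * t) (b * t) z) P := by
  rw [eval_aeval, eval_putX]

theorem putX_coeff_zero (j : ℕ) (a b a' b' : ℂ) (z : ℕ → ℂ) (k : ℕ) :
    (putX j a b z k).coeff 0 = (putX j a' b' z k).coeff 0 := by
  simp only [putX]
  split_ifs <;> simp

theorem putX_coeff_one (j : ℕ) (a b : ℂ) (z : ℕ → ℂ) (k : ℕ) :
    (putX j a b z k).coeff 1 =
      a * (putX j 1 0 z k).coeff 1 + b * (putX j 0 1 z k).coeff 1 := by
  simp only [putX]
  split_ifs <;> simp

theorem aeval_coeff_zero (j : ℕ) (a b a' b' : ℂ) (z : ℕ → ℂ) (P : MvPolynomial ℕ ℂ) :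
    (aeval (putX j a b z) P).coeff 0 = (aeval (putX j a' b' z) P).coeff 0 := by
  induction P using MvPolynomial.induction_on with
  | C c => simp
  | add p r hp hr => simp [hp, hr]
  | mul_X p k hp =>
    rw [map_mul, map_mul, aeval_X, aeval_X, Polynomial.mul_coeff_zero, Polynomial.mul_coeff_zero,
      hp, putX_coeff_zero j a b a' b' z k]

theorem aeval_coeff_one (j : ℕ) (a b : ℂ) (z : ℕ → ℂ) (P : MvPolynomial ℕ ℂ) :
    (aeval (putX j a b z) P).coeff 1 =
      a * (aeval (putX j 1 0 z) P).coeff 1 + b * (aeval (putX j 0 1 z) P).coeff 1 := by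
  induction P using MvPolynomial.induction_on with
  | C c => simp
  | add p r hp hr =>
    simp only [map_add, Polynomial.coeff_add, hp, hr]
    ring
  | mul_X p k hp =>
    simp only [map_mul, aeval_X, Polynomial.mul_coeff_one]
    rw [hp, putX_coeff_one j a b z k, aeval_coeff_zero j a b 1 0 z p,
      putX_coeff_zero j a b 1 0 z k, aeval_coeff_zero j 0 1 1 0 z p,
      putX_coeff_zero j 0 1 1 0 z k]
    ring

theorem put2_self {j : ℕ} (hj : 0 < j) (x y : ℂ) (z : ℕ → ℂ) : put2 j x y z j = y := by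
  unfold put2
  rw [if_neg (by omega), if_neg (by omega), if_pos rfl]

theorem put2_succ {j : ℕ} (x y : ℂ) (z : ℕ → ℂ) : put2 j x y z (j + 1) = z (j - 1) := by
  unfold put2
  rw [if_neg (by omega), if_neg (by omega), if_neg (by omega)]
  congr 1

theorem swapV_put2 {j : ℕ} (hj : 0 < j) (x y : ℂ) (z : ℕ → ℂ) :
    swapV j (put2 j x y z) = put2 (j + 1) x y z := by
  funext k
  rw [swapV, Equiv.swap_apply_def]
  simp only [put2]
  split_ifs <;> first | rfl | omega | contradiction | (congr 1; omega)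

theorem swapV_put2_one (x y : ℂ) (z : ℕ → ℂ) :
    swapV 0 (put2 1 x y z) = put2 1 y x z := by
  funext k
  rw [swapV, Equiv.swap_apply_def]
  simp only [put2]
  split_ifs <;> first | rfl | omega | contradiction | (congr 1; omega)

theorem insV_zero (x y : ℂ) (z : ℕ → ℂ) : insV 0 x y z = put2 1 x y z := by
  funext k
  simp only [insV, put2]
  split_ifs <;> first | rfl | omega | contradiction | (congr 1; omega)

open Classical in
/-- the linear coefficient of a solution of a recursion with an insertion -/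
theorem chi_of_forall (q : ℂ) (m j : ℕ) (a b : ℂ) (z : ℕ → ℂ) (g : St →₀ ℂ)
    (h : ∀ v : ℂ, PsiMV q (m + 1) (put2 j (a * v) (b * v) z) =
      (v * (∏ k ∈ range (2 * m), (z k - q * v) ^ 2) / (9 * q) ^ m) • g) :
    chiM q m j a b z = ((∏ k ∈ range (2 * m), z k ^ 2) / (9 * q) ^ m) • g := by
  ext s'
  have hpoly : (if s' ∈ anns (2 * m + 2) then aeval (putX j a b z) (PsiM q (m + 1) s') else 0) =
      Polynomial.C (g s' / (9 * q) ^ m) * (∏ k ∈ range (2 * m),
        (Polynomial.C (z k) - Polynomial.C q * Polynomial.X) ^ 2) * Polynomial.X := by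
    apply Polynomial.funext
    intro v
    have h1 := DFunLike.congr_fun (h v) s'
    rw [PsiMV, show 2 * (m + 1) = 2 * m + 2 from rfl, sum_single_apply, Finsupp.smul_apply,
      smul_eq_mul] at h1
    rw [Polynomial.eval_mul, Polynomial.eval_mul, Polynomial.eval_C, Polynomial.eval_X,
      Polynomial.eval_prod]
    simp only [Polynomial.eval_pow, Polynomial.eval_sub, Polynomial.eval_mul, Polynomial.eval_C,
      Polynomial.eval_X]
    rw [apply_ite (Polynomial.eval v), Polynomial.eval_zero, eval_aeval_putX, h1]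
    ring
  have h2 := congrArg (fun p : Polynomial ℂ => p.coeff 1) hpoly
  simp only [Polynomial.coeff_mul_X, Polynomial.mul_coeff_zero, Polynomial.coeff_C_zero] at h2
  rw [chiM, sum_single_apply, Finsupp.smul_apply, smul_eq_mul]
  have h3 : (∏ k ∈ range (2 * m), (Polynomial.C (z k) - Polynomial.C q * Polynomial.X) ^ 2).coeff
      0 = ∏ k ∈ range (2 * m), z k ^ 2 := by
    rw [Polynomial.coeff_zero_eq_eval_zero, Polynomial.eval_prod]
    simp
  rw [h3] at h2
  rw [apply_ite (fun p : Polynomial ℂ => p.coeff 1), Polynomial.coeff_zero] at h2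
  rw [h2]
  ring

end LowM

open LowM

/-- The components vanish when two variables vanish. -/
theorem eval_PsiM_eq_zero (hq : q ^ 2 + q + 1 = 0) (m : ℕ) (s : St) {z : ℕ → ℂ} {i j : ℕ}
    (hij : i ≠ j) (hi : i < 2 * m) (hj : j < 2 * m) (hzi : z i = 0) (hzj : z j = 0) :
    eval z (PsiM q m s) = 0 := by
  have hD := dw_PsiS hq m s
  unfold PsiM
  refine eval_recP_eq_zero (2 * m) hij hi hj (fun d hd => ?_) hzi hzj
  have h2 := hD.maj d hd {i, j} (by
    intro k hk
    rcases Finset.mem_insert.1 hk with rfl | hk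
    · exact mem_range.2 hi
    · rw [Finset.mem_singleton.1 hk]
      exact mem_range.2 hj)
  rw [Finset.card_pair hij, Finset.sum_pair hij, Finset.sum_range_succ, Finset.sum_range_succ,
    Finset.sum_range_zero] at h2
  omega

open Classical in
theorem suppA_chiM (q : ℂ) (m j : ℕ) (a b : ℂ) (z : ℕ → ℂ) :
    SuppA (2 * m + 2) (chiM q m j a b z) := by
  intro s hs
  rw [chiM, sum_single_apply] at hs
  by_contra hc
  exact hs (if_neg fun h => hc (mem_anns.1 h))

open Classical in
theorem chiM_linear (q : ℂ) (m j : ℕ) (a b : ℂ) (z : ℕ → ℂ) :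
    chiM q m j a b z = a • chiM q m j 1 0 z + b • chiM q m j 0 1 z := by
  ext s
  simp only [chiM, Finsupp.add_apply, Finsupp.smul_apply, smul_eq_mul, sum_single_apply]
  split_ifs
  · exact aeval_coeff_one j a b z _
  · ring

theorem coeff_zero_putX_PsiM (hq : q ^ 2 + q + 1 = 0) (m : ℕ) (s : St) {j : ℕ} (hj : 0 < j)
    (hjm : j < 2 * m + 2) (a b : ℂ) (z : ℕ → ℂ) :
    (aeval (putX j a b z) (PsiM q (m + 1) s)).coeff 0 = 0 := by
  rw [Polynomial.coeff_zero_eq_eval_zero, eval_aeval_putX]
  refine eval_PsiM_eq_zero hq (m + 1) s (i := 0) (j := j) (by omega) (by omega) (by omega) ?_ ?_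
  · simp [put2]
  · rw [put2_self hj, mul_zero]

/-- Moving the place `j`. -/
theorem chiM_succ (hq : q ^ 2 + q + 1 = 0) (m : ℕ) {j : ℕ} (hj : 0 < j) (hjm : j < 2 * m + 1)
    (a b : ℂ) {z : ℕ → ℂ} (hz : ∀ k < 2 * m, z k ≠ 0) :
    chiM q m (j + 1) a b z =
      (-q ^ 2) • chiM q m j a b z + (-q) • (chiM q m j a b z).mapDomain (eL j) := by
  classical
  ext s'
  have hq0 : q ≠ 0 := by
    rintro rfl
    norm_num at hq
  have hx : z (j - 1) ≠ 0 := hz _ (by omega)
  have hIs : ∀ s, s ∈ anns (2 * m + 2) → eL j s ∈ anns (2 * m + 2) := fun s hs =>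
    mem_anns.2 ((mem_anns.1 hs).eL (by omega))
  by_cases hs' : s' ∈ anns (2 * m + 2)
  · set A := aeval (putX (j + 1) a b z) (PsiM q (m + 1) s') with hA
    set B := aeval (putX j a b z) (PsiM q (m + 1) s') with hB
    set E := ∑ s ∈ anns (2 * m + 2),
      if eL j s = s' then aeval (putX j a b z) (PsiM q (m + 1) s) else 0 with hE
    have hpoly : (Polynomial.C (q * b) * Polynomial.X - Polynomial.C (q ^ 2 * z (j - 1))) * A =
        (Polynomial.C (q * z (j - 1)) - Polynomial.C (q ^ 2 * b) * Polynomial.X) * B -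
          (Polynomial.C b * Polynomial.X - Polynomial.C (z (j - 1))) * E := by
      apply Polynomial.funext
      intro t
      have h1 := DFunLike.congr_fun (exchangeM (m := m + 1) hq (i := j) (by omega)
        (put2 j (a * t) (b * t) z)) s'
      rw [Finsupp.sub_apply, Finsupp.smul_apply, Finsupp.smul_apply, Finsupp.smul_apply,
        swapV_put2 hj, smul_eq_mul, smul_eq_mul, smul_eq_mul, PsiMV, PsiMV,
        show 2 * (m + 1) = 2 * m + 2 from rfl, sum_single_apply, sum_single_apply, if_pos hs',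
        if_pos hs', mapDomain_sum_single_apply] at h1
      rw [put2_self hj, put2_succ] at h1
      simp only [Polynomial.eval_mul, Polynomial.eval_add, Polynomial.eval_sub, Polynomial.eval_C,
        Polynomial.eval_X]
      rw [hA, hB, hE, eval_aeval_putX, eval_aeval_putX, Polynomial.eval_finsetSum]
      have e3 : ∀ s, Polynomial.eval t (if eL j s = s' then
          aeval (putX j a b z) (PsiM q (m + 1) s) else 0) = if eL j s = s' then
            eval (put2 j (a * t) (b * t) z) (PsiM q (m + 1) s) else 0 := by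
        intro s
        split_ifs
        · exact eval_aeval_putX _ _ _ _ _ _
        · exact Polynomial.eval_zero
      simp only [e3]
      linear_combination h1
    have hA0 : A.coeff 0 = 0 := coeff_zero_putX_PsiM hq m s' (by omega) (by omega) a b z
    have hB0 : B.coeff 0 = 0 := coeff_zero_putX_PsiM hq m s' (by omega) (by omega) a b z
    have hE0 : E.coeff 0 = 0 := by
      rw [hE, Polynomial.finsetSum_coeff]
      refine Finset.sum_eq_zero fun s _ => ?_
      split_ifs
      · exact coeff_zero_putX_PsiM hq m s (by omega) (by omega) a b z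
      · exact Polynomial.coeff_zero 0
    have h2 := congrArg (fun p : Polynomial ℂ => p.coeff 1) hpoly
    simp only [Polynomial.coeff_add, Polynomial.mul_coeff_one, hA0, hB0, hE0,
      Polynomial.coeff_sub, Polynomial.coeff_C_zero, Polynomial.mul_coeff_zero,
      Polynomial.coeff_X_zero, mul_zero, zero_mul, add_zero, sub_zero, zero_sub] at h2
    have hE1 : E.coeff 1 = ∑ s ∈ anns (2 * m + 2), if eL j s = s' then
        (aeval (putX j a b z) (PsiM q (m + 1) s)).coeff 1 else 0 := by
      rw [hE, Polynomial.finsetSum_coeff]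
      refine Finset.sum_congr rfl fun s _ => ?_
      split_ifs
      · rfl
      · exact Polynomial.coeff_zero 1
    rw [Finsupp.add_apply, Finsupp.smul_apply, Finsupp.smul_apply, chiM, chiM, sum_single_apply,
      sum_single_apply, if_pos hs', if_pos hs', mapDomain_sum_single_apply, ← hE1, ← hA, ← hB,
      smul_eq_mul, smul_eq_mul]
    have h3 : -(q ^ 2 * z (j - 1)) ≠ 0 := neg_ne_zero.2 (mul_ne_zero (pow_ne_zero 2 hq0) hx)
    apply mul_left_cancel₀ h3
    linear_combination h2 - (z (j - 1) * (q - 1) * (q * B.coeff 1 + E.coeff 1)) * hq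
  · rw [Finsupp.add_apply, Finsupp.smul_apply, Finsupp.smul_apply, chiM, chiM, sum_single_apply,
      sum_single_apply, if_neg hs', if_neg hs', mapDomain_sum_single_apply]
    rw [Finset.sum_eq_zero]
    · simp
    · intro s hs
      rw [if_neg]
      rintro rfl
      exact hs' (hIs s hs)

/-- Exchange of the places `0` and `1`. -/
theorem chiM_one (hq : q ^ 2 + q + 1 = 0) (m : ℕ) (z : ℕ → ℂ) :
    chiM q m 1 1 0 z =
      (-q ^ 2) • chiM q m 1 0 1 z + (-q) • (chiM q m 1 0 1 z).mapDomain (eL 0) := by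
  classical
  ext s'
  have hq0 : q ≠ 0 := by
    rintro rfl
    norm_num at hq
  have hIs : ∀ s, s ∈ anns (2 * m + 2) → eL 0 s ∈ anns (2 * m + 2) := fun s hs =>
    mem_anns.2 ((mem_anns.1 hs).eL (by omega))
  by_cases hs' : s' ∈ anns (2 * m + 2)
  · set A := aeval (putX 1 1 0 z) (PsiM q (m + 1) s') with hA
    set B := aeval (putX 1 0 1 z) (PsiM q (m + 1) s') with hB
    set E := ∑ s ∈ anns (2 * m + 2),
      if eL 0 s = s' then aeval (putX 1 0 1 z) (PsiM q (m + 1) s) else 0 with hE
    have hpoly : (Polynomial.C (-q ^ 2) * A) * Polynomial.X =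
        (Polynomial.C q * B + E) * Polynomial.X := by
      apply Polynomial.funext
      intro t
      have h1 := DFunLike.congr_fun (exchangeM (m := m + 1) hq (i := 0) (by omega)
        (put2 1 (0 * t) (1 * t) z)) s'
      rw [Finsupp.sub_apply, Finsupp.smul_apply, Finsupp.smul_apply, Finsupp.smul_apply,
        swapV_put2_one, smul_eq_mul, smul_eq_mul, smul_eq_mul, PsiMV, PsiMV,
        show 2 * (m + 1) = 2 * m + 2 from rfl, sum_single_apply, sum_single_apply, if_pos hs',
        if_pos hs', mapDomain_sum_single_apply] at h1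
      have e1 : put2 1 (0 * t) (1 * t) z 0 = 0 := by
        simp [put2]
      have e2 : put2 1 (0 * t) (1 * t) z (0 + 1) = t := by
        simp [put2]
      rw [e1, e2] at h1
      simp only [Polynomial.eval_mul, Polynomial.eval_add, Polynomial.eval_C,
        Polynomial.eval_X]
      rw [hA, hB, hE, eval_aeval_putX, eval_aeval_putX, Polynomial.eval_finsetSum]
      have e3 : ∀ s, Polynomial.eval t (if eL 0 s = s' then
          aeval (putX 1 0 1 z) (PsiM q (m + 1) s) else 0) = if eL 0 s = s' then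
            eval (put2 1 (0 * t) (1 * t) z) (PsiM q (m + 1) s) else 0 := by
        intro s
        split_ifs
        · exact eval_aeval_putX _ _ _ _ _ _
        · exact Polynomial.eval_zero
      simp only [e3]
      linear_combination h1
    have h2 := congrArg (fun p : Polynomial ℂ => p.coeff (1 + 1)) hpoly
    simp only [Polynomial.coeff_mul_X, Polynomial.coeff_add, Polynomial.coeff_C_mul] at h2
    have hE1 : E.coeff 1 = ∑ s ∈ anns (2 * m + 2), if eL 0 s = s' then
        (aeval (putX 1 0 1 z) (PsiM q (m + 1) s)).coeff 1 else 0 := by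
      rw [hE, Polynomial.finsetSum_coeff]
      refine Finset.sum_congr rfl fun s _ => ?_
      split_ifs
      · rfl
      · exact Polynomial.coeff_zero 1
    rw [Finsupp.add_apply, Finsupp.smul_apply, Finsupp.smul_apply, chiM, chiM, sum_single_apply,
      sum_single_apply, if_pos hs', if_pos hs', mapDomain_sum_single_apply, ← hE1, ← hA, ← hB,
      smul_eq_mul, smul_eq_mul]
    have h3 : -q ^ 2 ≠ 0 := neg_ne_zero.2 (pow_ne_zero 2 hq0)
    apply mul_left_cancel₀ h3
    linear_combination h2 - ((q - 1) * (q * B.coeff 1 + E.coeff 1)) * hq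
  · rw [Finsupp.add_apply, Finsupp.smul_apply, Finsupp.smul_apply, chiM, chiM, sum_single_apply,
      sum_single_apply, if_neg hs', if_neg hs', mapDomain_sum_single_apply]
    rw [Finset.sum_eq_zero]
    · simp
    · intro s hs
      rw [if_neg]
      rintro rfl
      exact hs' (hIs s hs)

theorem chiM_ins (hq : q ^ 2 + q + 1 = 0) (m : ℕ) (z : ℕ → ℂ) :
    chiM q m 1 1 (q ^ 2) z =
      ((∏ k ∈ range (2 * m), z k ^ 2) / (9 * q) ^ m) • (PsiMV q m z).mapDomain (insL 0) := by
  apply chi_of_forall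
  intro v
  rw [one_mul, ← insV_zero]
  exact PsiMV_insV hq m (Nat.zero_le _) v z

theorem chiM_seam (hq : q ^ 2 + q + 1 = 0) (m : ℕ) (z : ℕ → ℂ) :
    chiM q m (2 * m + 1) (q ^ 2) 1 z =
      ((∏ k ∈ range (2 * m), z k ^ 2) / (9 * q) ^ m) •
        (PsiMV q m z).mapDomain (cupL (2 * m)) := by
  apply chi_of_forall
  intro v
  rw [one_mul]
  exact PsiMV_seam hq m v z

end Pool.Agent.Perc

end PartperqLowM

section PartperqLowB

/-!
# The lowest coefficient of the pairing (task LowB)
-/

set_option autoImplicit false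

namespace Pool.Agent.Perc

open Finset MvPolynomial

variable {q : ℂ} {m : ℕ}

namespace LowB

/-- The pairing of the linear coefficients does not depend on the place. -/
theorem BV_indep (hq : q ^ 2 + q + 1 = 0) (m : ℕ) {z : ℕ → ℂ} (hz : ∀ k < 2 * m, z k ≠ 0)
    (a' b' a b : ℂ) (j : ℕ) (hj : j < 2 * m + 1) :
    BV (2 * m + 2) (chiM q m (j + 1) a' b' z) (chiS q m (j + 1) a b z) =
      BV (2 * m + 2) (chiM q m 1 a' b' z) (chiS q m 1 a b z) := by
  induction j with
  | zero => rfl
  | succ j ih =>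
    rw [chiM_succ hq m (j := j + 1) (by omega) (by omega) a' b' hz,
      chiS_succ hq m (j := j + 1) (by omega) (by omega) a b hz,
      BV_adj hq (suppA_chiM q m _ _ _ z) (suppA_chiS q m _ _ _ z) (by omega), ih (by omega)]

theorem BV_bilin (f f' g g' : St →₀ ℂ) (N : ℕ) (a' b' a b : ℂ) :
    BV N (a' • f' + b' • f) (a • g' + b • g) =
      a' * a * BV N f' g' + a' * b * BV N f' g + b' * a * BV N f g' + b' * b * BV N f g := by
  rw [BV_add_left, BV_add_right, BV_add_right, BV_smul_left, BV_smul_left, BV_smul_left,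
    BV_smul_left, BV_smul_right, BV_smul_right, BV_smul_right, BV_smul_right]
  ring

end LowB

open LowB

/-- The pairing of the lowest coefficients. -/
theorem BV_chi (hq : q ^ 2 + q + 1 = 0) (m : ℕ) {z : ℕ → ℂ} (hz : ∀ k < 2 * m, z k ≠ 0) :
    3 * q ^ 2 * BV (2 * m + 2) (chiM q m 1 0 1 z) (chiS q m 1 0 1 z) =
      (∏ k ∈ range (2 * m), z k ^ 4) / (9 * q) ^ (2 * m) *
        BV (2 * m) (PsiMV q m z) (PsiSV q m z) := by
  set N := 2 * m + 2 with hN
  set f := chiM q m 1 0 1 z with hf
  set g := chiS q m 1 0 1 z with hg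
  set α := BV N f g with hα
  set E := BV N f (g.mapDomain (eL 0)) with hE
  set K : ℂ := (∏ k ∈ range (2 * m), z k ^ 2) / (9 * q) ^ m with hK
  set T : ℂ := K * (K * BV (2 * m) (PsiMV q m z) (PsiSV q m z)) with hT
  have hsf : SuppA N f := suppA_chiM q m _ _ _ z
  have hsg : SuppA N g := suppA_chiS q m _ _ _ z
  have hE' : BV N (f.mapDomain (eL 0)) g = E := BV_eL hsf hsg (by omega)
  -- the four pairings
  have e1 : BV N (chiM q m 1 1 0 z) (chiS q m 1 1 0 z) = α := by
    rw [chiM_one hq m z, chiS_one hq m z, BV_adj hq hsf hsg (by omega)]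
  have e2 : BV N (chiM q m 1 1 0 z) g = -q ^ 2 * α - q * E := by
    rw [chiM_one hq m z, BV_add_left, BV_smul_left, BV_smul_left, hE']
    ring
  have e3 : BV N f (chiS q m 1 1 0 z) = -q * α - q ^ 2 * E := by
    rw [chiS_one hq m z, BV_add_right, BV_smul_right, BV_smul_right]
    ring
  -- insertion
  have e4 : BV N (chiM q m 1 1 (q ^ 2) z) (chiS q m 1 (q ^ 2) 1 z) = T := by
    rw [chiM_ins hq m z, chiS_ins hq m z, BV_smul_left, BV_smul_right,
      BV_insL_insL (suppA_PsiMV q m z) (suppA_PsiSV q m z) (by omega)]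
  -- seam
  have e5 : BV N (chiM q m 1 (q ^ 2) 1 z) (chiS q m 1 1 (q ^ 2) z) = -T := by
    rw [← BV_indep hq m hz _ _ _ _ (2 * m) (by omega), chiM_seam hq m z, chiS_seam hq m z,
      BV_smul_left, BV_smul_right, BV_cupL_cupL (suppA_PsiMV q m z) (suppA_PsiSV q m z), hT]
    ring
  rw [chiM_linear, chiS_linear, ← hf, ← hg, BV_bilin, e1, e2, e3, ← hα] at e4
  rw [chiM_linear, chiS_linear, ← hf, ← hg, BV_bilin, e1, e2, e3, ← hα] at e5
  have hTE : T = q ^ 2 * E := by
    linear_combination -e4 + (-q ^ 2 * (q - 1) * α - (1 + (q - 1) * (1 + q ^ 3)) * E) * hq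
  have hfin : 3 * q ^ 2 * α = T := by
    linear_combination e5 - 2 * hTE +
      ((1 + (q - 1) * (q ^ 3 + 1)) * α + q ^ 2 * (q - 1) * E) * hq
  rw [hfin, hT, hK, ← mul_assoc, div_mul_div_comm, ← Finset.prod_mul_distrib, ← pow_add,
    ← two_mul]
  congr 2
  refine Finset.prod_congr rfl fun k _ => ?_
  ring

/-- The lowest coefficient of the pairing. -/
theorem coeff_SH (hq : q ^ 2 + q + 1 = 0) (m : ℕ) {z : ℕ → ℂ} (hz : ∀ k < 2 * m, z k ≠ 0) :
    (aeval (putX 1 0 1 z) (SH q (m + 1))).coeff 0 = 0 ∧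
    (aeval (putX 1 0 1 z) (SH q (m + 1))).coeff 1 = 0 ∧
    (aeval (putX 1 0 1 z) (SH q (m + 1))).coeff 2 =
      (∏ k ∈ range (2 * m), z k ^ 4) / (3 * q ^ 2 * (9 * q) ^ (2 * m)) * eval z (SH q m) := by
  have hq0 : q ≠ 0 := by
    rintro rfl
    norm_num at hq
  have hexp : aeval (putX 1 0 1 z) (SH q (m + 1)) = ∑ s' ∈ anns (2 * m + 2), ∑ s ∈ anns (2 * m + 2),
      Polynomial.C (BS (2 * m + 2) s' s) * (aeval (putX 1 0 1 z) (PsiM q (m + 1) s') *
        aeval (putX 1 0 1 z) (PsiS q (m + 1) s)) := by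
    rw [SH, map_sum]
    refine Finset.sum_congr rfl fun s' _ => ?_
    rw [map_sum]
    refine Finset.sum_congr rfl fun s _ => ?_
    rw [map_mul, map_mul, aeval_C]
    rfl
  have hM := fun s' => coeff_zero_putX_PsiM hq m s' (j := 1) (by omega) (by omega) 0 1 z
  have hS := fun s => coeff_zero_putX_PsiS hq m s (j := 1) (by omega) (by omega) 0 1 z
  have hcoef : ∀ s' s : St, (Polynomial.C (BS (2 * m + 2) s' s) *
      (aeval (putX 1 0 1 z) (PsiM q (m + 1) s') * aeval (putX 1 0 1 z) (PsiS q (m + 1) s))).coeff 2 =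
      (aeval (putX 1 0 1 z) (PsiM q (m + 1) s')).coeff 1 *
        (aeval (putX 1 0 1 z) (PsiS q (m + 1) s)).coeff 1 * BS (2 * m + 2) s' s := by
    intro s' s
    rw [Polynomial.coeff_C_mul, Polynomial.coeff_mul, Finset.Nat.sum_antidiagonal_eq_sum_range_succ_mk,
      Finset.sum_range_succ, Finset.sum_range_succ, Finset.sum_range_one]
    simp only [hM, hS, zero_mul, Nat.sub_self, mul_zero, zero_add, add_zero]
    rw [show 2 - 1 = 1 from rfl]
    ring
  refine ⟨?_, ?_, ?_⟩
  · rw [hexp, Polynomial.finsetSum_coeff]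
    refine Finset.sum_eq_zero fun s' _ => ?_
    rw [Polynomial.finsetSum_coeff]
    refine Finset.sum_eq_zero fun s _ => ?_
    rw [Polynomial.coeff_C_mul, Polynomial.mul_coeff_zero, hM, zero_mul, mul_zero]
  · rw [hexp, Polynomial.finsetSum_coeff]
    refine Finset.sum_eq_zero fun s' _ => ?_
    rw [Polynomial.finsetSum_coeff]
    refine Finset.sum_eq_zero fun s _ => ?_
    rw [Polynomial.coeff_C_mul, Polynomial.coeff_mul,
      Finset.Nat.sum_antidiagonal_eq_sum_range_succ_mk, Finset.sum_range_succ, Finset.sum_range_one]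
    simp only [hM, hS, zero_mul, Nat.sub_self, mul_zero, zero_add]
  · have h1 : (aeval (putX 1 0 1 z) (SH q (m + 1))).coeff 2 =
        BV (2 * m + 2) (chiM q m 1 0 1 z) (chiS q m 1 0 1 z) := by
      rw [hexp, Polynomial.finsetSum_coeff, BV]
      refine Finset.sum_congr rfl fun s' hs' => ?_
      rw [Polynomial.finsetSum_coeff]
      refine Finset.sum_congr rfl fun s hs => ?_
      rw [hcoef]
      have h2 : chiM q m 1 0 1 z s' = (aeval (putX 1 0 1 z) (PsiM q (m + 1) s')).coeff 1 := by
        classical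
        rw [chiM, Finsupp.finsetSum_apply, Finset.sum_eq_single s']
        · rw [Finsupp.single_eq_same]
        · intro b _ hb
          rw [Finsupp.single_eq_of_ne (Ne.symm hb)]
        · intro h
          exact absurd hs' h
      have h3 : chiS q m 1 0 1 z s = (aeval (putX 1 0 1 z) (PsiS q (m + 1) s)).coeff 1 := by
        classical
        rw [chiS, Finsupp.finsetSum_apply, Finset.sum_eq_single s]
        · rw [Finsupp.single_eq_same]
        · intro b _ hb
          rw [Finsupp.single_eq_of_ne (Ne.symm hb)]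
        · intro h
          exact absurd hs h
      rw [h2, h3]
    have h4 := BV_chi hq m hz
    rw [h1, eval_SH]
    have h5 : (3 * q ^ 2 : ℂ) ≠ 0 := mul_ne_zero (by norm_num) (pow_ne_zero _ hq0)
    apply mul_left_cancel₀ h5
    rw [h4]
    have h6 : (9 * q) ^ (2 * m) ≠ 0 := pow_ne_zero _ (mul_ne_zero (by norm_num) hq0)
    field_simp

end Pool.Agent.Perc

end PartperqLowB

section PartperqIdentA

/-!
# The exact value of the pairing at the homogeneous point (task IdentA)
-/

set_option autoImplicit false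

namespace Pool.Agent.Perc

open Finset MvPolynomial

variable {q : ℂ}

/-- The constants of the recursion of the pairing. -/
noncomputable def KS (q : ℂ) : ℕ → ℂ
  | 0 => 1
  | m + 1 => KS q m / (3 * q ^ 2 * (9 * q) ^ (2 * m))

/-- The constants of the recursion of the sum. -/
noncomputable def KF (q : ℂ) : ℕ → ℂ
  | 0 => 1
  | m + 1 => KF q m / (-q * (9 * q) ^ m)

theorem IdentA.q_ne (hq : q ^ 2 + q + 1 = 0) : q ≠ 0 := by
  rintro rfl; norm_num at hq

theorem IdentA.nine_ne (hq : q ^ 2 + q + 1 = 0) : 9 * q ≠ 0 :=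
  mul_ne_zero (by norm_num) (IdentA.q_ne hq)

theorem KF_sq (hq : q ^ 2 + q + 1 = 0) (m : ℕ) : KF q m ^ 2 = 3 ^ m * KS q m := by
  have h0 := IdentA.q_ne hq
  have h9 := IdentA.nine_ne hq
  induction m with
  | zero => simp [KF, KS]
  | succ m ih =>
    rw [KF, KS, div_pow, ih]
    have h1 : (9 * q) ^ (2 * m) = ((9 * q) ^ m) ^ 2 := by rw [← pow_mul, Nat.mul_comm]
    have h2 : (9 * q) ^ m ≠ 0 := pow_ne_zero _ h9
    rw [h1]
    generalize (9 * q) ^ m = t at h2 ⊢
    field_simp
    ring

theorem IdentA.recS_SH (hq : q ^ 2 + q + 1 = 0) :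
    RecS q (fun m => 1 / (9 * q) ^ (2 * m)) (fun m => 1 / (3 * q ^ 2 * (9 * q) ^ (2 * m)))
      (SH q) where
  out m k hk := degreeOf_SH_out hq m hk
  deg m := by
    refine (degreeOf_SH_le hq (m + 1) 0).trans ?_
    omega
  symm m i hi z := eval_SH_swapV hq hi z
  ins m v z := by
    rw [eval_SH_insV hq m v z]
    ring
  low0 m z hz := (coeff_SH hq m hz).1
  low1 m z hz := (coeff_SH hq m hz).2.1
  low2 m z hz := by
    rw [(coeff_SH hq m hz).2.2]
    ring

theorem IdentA.recS_KTP (hq : q ^ 2 + q + 1 = 0) :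
    RecS q (fun m => 1 / (9 * q) ^ (2 * m)) (fun m => 1 / (3 * q ^ 2 * (9 * q) ^ (2 * m)))
      (fun m => C (KS q m) * TP m) := by
  have h0 := IdentA.q_ne hq
  have h9 := IdentA.nine_ne hq
  have hT := recS_TP hq
  refine ⟨?_, ?_, ?_, ?_, ?_, ?_, ?_⟩
  · intro m k hk
    have h1 := degreeOf_C_mul_le (TP m) k (KS q m)
    rw [hT.out m k hk] at h1
    exact Nat.le_zero.1 h1
  · intro m
    exact (degreeOf_C_mul_le _ _ _).trans (hT.deg m)
  · intro m i hi z
    rw [map_mul, map_mul, hT.symm m i hi z, eval_C, eval_C]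
  · intro m v z
    rw [map_mul, map_mul, hT.ins m v z, eval_C, eval_C, KS]
    have h2 : (9 * q) ^ (2 * m) ≠ 0 := pow_ne_zero _ h9
    field_simp
  · intro m z hz
    rw [map_mul, aeval_C, Polynomial.algebraMap_eq, Polynomial.coeff_C_mul, hT.low0 m z hz,
      mul_zero]
  · intro m z hz
    rw [map_mul, aeval_C, Polynomial.algebraMap_eq, Polynomial.coeff_C_mul, hT.low1 m z hz,
      mul_zero]
  · intro m z hz
    rw [map_mul, aeval_C, Polynomial.algebraMap_eq, Polynomial.coeff_C_mul, hT.low2 m z hz,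
      map_mul, eval_C, KS]
    ring

theorem eval_SH_eq (hq : q ^ 2 + q + 1 = 0) (m : ℕ) (z : ℕ → ℂ) :
    eval z (SH q m) = KS q m * eval z (TP m) := by
  have h := RecS.unique hq (IdentA.recS_SH hq) (IdentA.recS_KTP hq) (fun z => by
    rw [eval_SH_zero hq z, map_mul, eval_TP_zero, eval_C, KS, mul_one]) m z
  rw [h, map_mul, eval_C]

theorem IdentA.recF_KGP (hq : q ^ 2 + q + 1 = 0) :
    RecF q (fun m => 1 / (9 * q) ^ m) (fun m => C (KF q m) * GP m) := by
  have h0 := IdentA.q_ne hq
  have h9 := IdentA.nine_ne hq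
  have hT := recF_GP hq
  refine ⟨?_, ?_, ?_, ?_⟩
  · intro m k hk
    have h1 := degreeOf_C_mul_le (GP m) k (KF q m)
    rw [hT.out m k hk] at h1
    exact Nat.le_zero.1 h1
  · intro m
    exact (degreeOf_C_mul_le _ _ _).trans (hT.deg m)
  · intro m i hi z
    rw [map_mul, map_mul, hT.symm m i hi z, eval_C, eval_C]
  · intro m v z
    rw [map_mul, map_mul, hT.ins m v z, eval_C, eval_C, KF]
    have h2 : (9 * q) ^ m ≠ 0 := pow_ne_zero _ h9
    field_simp

theorem eval_FH_eq (hq : q ^ 2 + q + 1 = 0) (m : ℕ) (z : ℕ → ℂ) :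
    eval z (FH q m) = KF q m * eval z (GP m) := by
  have h := RecF.unique hq (recF_FH hq) (IdentA.recF_KGP hq) (fun z => by
    rw [eval_FH_zero hq z, map_mul, eval_GP_zero, eval_C, KF, mul_one]) m z
  rw [h, map_mul, eval_C]

theorem IdentA.KF_ne (hq : q ^ 2 + q + 1 = 0) (m : ℕ) : KF q m ≠ 0 := by
  have h0 := IdentA.q_ne hq
  have h9 := IdentA.nine_ne hq
  induction m with
  | zero => simp [KF]
  | succ m ih =>
    rw [KF]
    exact div_ne_zero ih (mul_ne_zero (neg_ne_zero.2 h0) (pow_ne_zero _ h9))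

theorem IdentA.sum_eq (hq : q ^ 2 + q + 1 = 0) (m : ℕ) :
    ∑ s ∈ anns (2 * m), eval (fun _ => 1) (PsiS q m s) = KF q m * eval (fun _ => 1) (GP m) := by
  rw [← eval_FH_eq hq m, FH, map_sum]

/-- The sum of the components at the homogeneous point is not zero. -/
theorem sum_PsiS_ne (hq : q ^ 2 + q + 1 = 0) (m : ℕ) :
    ∑ s ∈ anns (2 * m), eval (fun _ => 1) (PsiS q m s) ≠ 0 := by
  rw [IdentA.sum_eq hq m]
  exact mul_ne_zero (IdentA.KF_ne hq m) (eval_GP_one_ne m)

theorem IdentA.TP_one (m : ℕ) : eval (fun _ => 1) (TP m) =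
    ((pv m : ℝ) : ℂ) * (3 ^ m * eval (fun _ => 1) (GP m) ^ 2) := by
  have h1 := eval_GP_one_ne m
  have h2 := eval_GP_one m
  rw [eval_TP_one, pv]
  push_cast at h2 ⊢
  rw [← h2]
  have h3 : (3 : ℂ) ^ m ≠ 0 := pow_ne_zero _ (by norm_num)
  field_simp

/-- The exact value of the pairing at the homogeneous point. -/
theorem pairing_one (hq : q ^ 2 + q + 1 = 0) (m : ℕ) :
    ∑ s' ∈ anns (2 * m), ∑ s ∈ anns (2 * m), eval (fun _ => 1) (PsiS q m s') *
      eval (fun _ => 1) (PsiS q m s) * BS (2 * m) s' s =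
      ((pv m : ℝ) : ℂ) * (∑ s ∈ anns (2 * m), eval (fun _ => 1) (PsiS q m s)) ^ 2 := by
  have h1 : ∑ s' ∈ anns (2 * m), ∑ s ∈ anns (2 * m), eval (fun _ => 1) (PsiS q m s') *
      eval (fun _ => 1) (PsiS q m s) * BS (2 * m) s' s = eval (fun _ => 1) (SH q m) := by
    rw [SH, map_sum]
    refine Finset.sum_congr rfl fun s' _ => ?_
    rw [map_sum]
    refine Finset.sum_congr rfl fun s _ => ?_
    rw [map_mul, map_mul, eval_C, PsiM, eval_one_recP]
    ring
  rw [h1, eval_SH_eq hq, IdentA.TP_one, IdentA.sum_eq hq, mul_pow, KF_sq hq]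
  ring

/-- The stationary law is invariant under the rotation. -/
theorem sum_PsiS_rotL (hq : q ^ 2 + q + 1 = 0) (m : ℕ) (g : St → ℂ) :
    ∑ s ∈ anns (2 * m), eval (fun _ => 1) (PsiS q m s) * g (rotL (2 * m) s) =
      ∑ s ∈ anns (2 * m), eval (fun _ => 1) (PsiS q m s) * g s := by
  have h1 : (fun k => rotV (2 * m) (fun _ => (1 : ℂ)) k) = fun _ => 1 := by
    funext k
    unfold rotV
    split_ifs <;> rfl
  have h2 := PsiSV_rot hq m (fun _ => 1)
  have h3 := sum_mapDomain (suppA_PsiSV q m fun _ => 1) (φ := rotL (2 * m)) (M := 2 * m)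
    (fun s hs => hs.rotL) g
  rw [← h2] at h3
  have h4 : rotV (2 * m) (fun _ => (1 : ℂ)) = fun _ => 1 := h1
  rw [h4] at h3
  have h5 : ∀ h : St → ℂ, ∑ s ∈ anns (2 * m), PsiSV q m (fun _ => 1) s * h s =
      ∑ s ∈ anns (2 * m), eval (fun _ => 1) (PsiS q m s) * h s := by
    intro h
    refine Finset.sum_congr rfl fun s hs => ?_
    rw [PsiSV_apply _ (mem_anns.1 hs)]
  rw [h5, h5] at h3
  exact h3.symm

open Classical in
/-- The exact value of the pairing restricted to the event that the loop of the site `0` is not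
contractible. -/
theorem sum_NCat (hq : q ^ 2 + q + 1 = 0) {m : ℕ} (hm : 0 < m) :
    ∑ s' ∈ anns (2 * m), ∑ s ∈ anns (2 * m), eval (fun _ => 1) (PsiS q m s') *
      eval (fun _ => 1) (PsiS q m s) *
        (if NCat (2 * m) s' s 0 then BS (2 * m) s' s else 0) =
      ((pv m : ℝ) : ℂ) * (∑ s ∈ anns (2 * m), eval (fun _ => 1) (PsiS q m s)) ^ 2 := by
  have key : ∑ s' ∈ anns (2 * m), ∑ s ∈ anns (2 * m), eval (fun _ => 1) (PsiS q m s') *
      eval (fun _ => 1) (PsiS q m s) * BS (2 * m) (rotL (2 * m) s') (rotL (2 * m) s) =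
      ∑ s' ∈ anns (2 * m), ∑ s ∈ anns (2 * m), eval (fun _ => 1) (PsiS q m s') *
      eval (fun _ => 1) (PsiS q m s) * BS (2 * m) s' s := by
    have h1 : ∀ s' : St, ∑ s ∈ anns (2 * m), eval (fun _ => 1) (PsiS q m s') *
        eval (fun _ => 1) (PsiS q m s) * BS (2 * m) (rotL (2 * m) s') (rotL (2 * m) s) =
        eval (fun _ => 1) (PsiS q m s') * ∑ s ∈ anns (2 * m), eval (fun _ => 1) (PsiS q m s) *
          BS (2 * m) (rotL (2 * m) s') s := by
      intro s'
      rw [← sum_PsiS_rotL hq m (fun s => BS (2 * m) (rotL (2 * m) s') s), Finset.mul_sum]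
      refine Finset.sum_congr rfl fun s _ => ?_
      ring
    have h2 : ∀ s' : St, ∑ s ∈ anns (2 * m), eval (fun _ => 1) (PsiS q m s') *
        eval (fun _ => 1) (PsiS q m s) * BS (2 * m) s' s =
        eval (fun _ => 1) (PsiS q m s') * ∑ s ∈ anns (2 * m), eval (fun _ => 1) (PsiS q m s) *
          BS (2 * m) s' s := by
      intro s'
      rw [Finset.mul_sum]
      refine Finset.sum_congr rfl fun s _ => ?_
      ring
    simp only [h1, h2]
    exact sum_PsiS_rotL hq m (fun s' => ∑ s ∈ anns (2 * m), eval (fun _ => 1) (PsiS q m s) *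
          BS (2 * m) s' s)
  have h3 := pairing_one hq m
  have h4 : (2 : ℂ) * ∑ s' ∈ anns (2 * m), ∑ s ∈ anns (2 * m), eval (fun _ => 1) (PsiS q m s') *
      eval (fun _ => 1) (PsiS q m s) *
        (if NCat (2 * m) s' s 0 then BS (2 * m) s' s else 0) =
      2 * (((pv m : ℝ) : ℂ) * (∑ s ∈ anns (2 * m), eval (fun _ => 1) (PsiS q m s)) ^ 2) := by
    have h7 : 2 * (((pv m : ℝ) : ℂ) * (∑ s ∈ anns (2 * m), eval (fun _ => 1) (PsiS q m s)) ^ 2) =
        ∑ s' ∈ anns (2 * m), ∑ s ∈ anns (2 * m), eval (fun _ => 1) (PsiS q m s') *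
          eval (fun _ => 1) (PsiS q m s) * BS (2 * m) s' s +
        ∑ s' ∈ anns (2 * m), ∑ s ∈ anns (2 * m), eval (fun _ => 1) (PsiS q m s') *
          eval (fun _ => 1) (PsiS q m s) * BS (2 * m) (rotL (2 * m) s') (rotL (2 * m) s) := by
      rw [key, h3, two_mul]
    rw [h7, ← Finset.sum_add_distrib, Finset.mul_sum]
    refine Finset.sum_congr rfl fun s' hs' => ?_
    rw [← Finset.sum_add_distrib, Finset.mul_sum]
    refine Finset.sum_congr rfl fun s hs => ?_
    have h5 := BS_add_BS_rotL (N := 2 * m) (by omega) (mem_anns.1 hs') (mem_anns.1 hs)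
    rw [← mul_add, h5]
    split_ifs <;> ring
  exact mul_left_cancel₀ (by norm_num) h4

end Pool.Agent.Perc

end PartperqIdentA

section PartperqIdentB

/-!
# The exact probability of a non-contractible loop (task IdentB)
-/

set_option autoImplicit false

namespace Pool.Agent.Perc

open Finset MvPolynomial

open Classical in
/-- The stationary probability that the loop of the site `0` is not contractible. -/
theorem exSt_NCat {q : ℂ} (hq : q ^ 2 + q + 1 = 0) {n : ℕ} (hn : 0 < n) :
    exSt q n (fun s' s => if NCat (2 * n) s' s 0 then 1 else 0) = ((pv n : ℝ) : ℂ) := by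
  have h1 := sum_NCat hq hn
  have h2 := sum_PsiS_ne hq n
  rw [exSt, div_eq_iff (pow_ne_zero 2 h2), ← h1]
  refine Finset.sum_congr rfl fun s' hs' => Finset.sum_congr rfl fun s hs => ?_
  by_cases h : NCat (2 * n) s' s 0
  · rw [if_pos h, if_pos h, BS_of_NCat (mem_anns.1 hs') (mem_anns.1 hs) (by omega) h]
  · rw [if_neg h, if_neg h]

theorem IdentB.exists_q : ∃ q : ℂ, q ^ 2 + q + 1 = 0 := by
  obtain ⟨q, hq⟩ := IsAlgClosed.exists_root
    (Polynomial.X ^ 2 + Polynomial.X + 1 : Polynomial ℂ) (by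
      have : (Polynomial.X ^ 2 + Polynomial.X + 1 : Polynomial ℂ).degree = 2 := by
        compute_degree!
      rw [this]; norm_num)
  refine ⟨q, ?_⟩
  simpa [Polynomial.IsRoot] using hq

/-- The two-arm probability: exact lower bound. -/
theorem pv_le_p2 {n : ℕ} (hn : 0 < n) : pv n ≤ p2 n := by
  classical
  obtain ⟨q, hq⟩ := IdentB.exists_q
  have h := p2_ge_exSt hq hn (sum_PsiS_ne hq n)
  have h1 := exSt_NCat hq hn
  rw [h1, Complex.ofReal_re] at h
  exact h

/-- The two-arm probability is at least a constant times `n ^ (-1/4)`. -/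
theorem p2_ge' {n : ℕ} (hn : 0 < n) : 1 / 3 * (n : ℝ) ^ (-(1 / 4 : ℝ)) ≤ p2 n :=
  (pv_ge_third n hn).trans (pv_le_p2 hn)

end Pool.Agent.Perc

end PartperqIdentB
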