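import Pool.Agent.Lib.MP_6bd702_z.Z065
import Pool.Agent.Lib.MP_6bd702_z.Z069

/-!
# Punctured link patterns: generators and insertions, words (task QStB)
-/

set_option autoImplicit false

namespace Pool.Agent.Perc

open Finset

variable {N : ℕ} {s s' : St}

namespace QStB

theorem lab (h : IsAnn N s) (x : ℕ) : s.2 (s.1 x) = s.2 x := by
  by_cases hx : x < N
  · obtain ⟨g, hg1, hg⟩ := h.mark
    have e1 := hg x hx
    have e2 := hg (s.1 x) (h.nc.lt x hx)
    rw [h.nc.inv x] at e2
    cases ha : s.2 x <;> cases hb : s.2 (s.1 x) <;> rw [ha] at e1 <;> rw [hb] at e2 <;>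
      simp at e1 e2 ⊢ <;> tauto
  · rw [h.nc.out x (by omega)]

theorem lab_eq (h : IsAnn N s) {x y : ℕ} (hxy : s.1 x = y) : s.2 y = s.2 x := by
  rw [← hxy, lab h]

theorem insArc_self (i : ℕ) (p : ℕ → ℕ) : insArc i p i = i + 1 := by
  simp [insArc]

theorem insArc_succ (i : ℕ) (p : ℕ → ℕ) : insArc i p (i + 1) = i := by
  simp [insArc]

theorem insArc_lt {i x : ℕ} (p : ℕ → ℕ) (h : x < i) :
    insArc i p x = if p x < i then p x else p x + 2 := by
  unfold insArc
  rw [if_neg (by omega), if_neg (by omega)]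
  simp only [if_pos h]

theorem insArc_ge {i x : ℕ} (p : ℕ → ℕ) (h : i ≤ x) :
    insArc i p (x + 2) = if p x < i then p x else p x + 2 := by
  unfold insArc
  rw [if_neg (by omega), if_neg (by omega)]
  simp only [if_neg (show ¬ x + 2 < i by omega), Nat.add_sub_cancel]

/-- Labels of `e_i`. -/
theorem eL_lab1 (i : ℕ) (s : St) {x : ℕ} (h : x = i ∨ x = i + 1) : (eL i s).2 x = false := by
  simp only [eL]
  rw [if_pos h]

theorem eL_lab2 (i : ℕ) (s : St) {x : ℕ} (h : ¬ (x = i ∨ x = i + 1)) (h2 : s.1 x = i ∨ s.1 x = i + 1) :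
    (eL i s).2 x = xor (s.2 i) (s.2 (i + 1)) := by
  simp only [eL]
  rw [if_neg h, if_pos h2]

theorem eL_lab3 (i : ℕ) (s : St) {x : ℕ} (h : ¬ (x = i ∨ x = i + 1))
    (h2 : ¬ (s.1 x = i ∨ s.1 x = i + 1)) : (eL i s).2 x = s.2 x := by
  simp only [eL]
  rw [if_neg h, if_neg h2]

theorem insL_lab1 (i : ℕ) (s : St) {x : ℕ} (h : x = i ∨ x = i + 1) : (insL i s).2 x = false := by
  simp only [insL]
  rw [if_pos h]

theorem insL_lab2 {i : ℕ} (s : St) {x : ℕ} (h : x < i) : (insL i s).2 x = s.2 x := by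
  simp only [insL]
  rw [if_neg (by omega), if_pos h]

theorem insL_lab3 {i : ℕ} (s : St) {x : ℕ} (h : i ≤ x) : (insL i s).2 (x + 2) = s.2 x := by
  simp only [insL]
  rw [if_neg (by omega), if_neg (by omega), Nat.add_sub_cancel]

theorem insL_p1 (i : ℕ) (s : St) : (insL i s).1 i = i + 1 := insArc_self _ _

theorem insL_p2 (i : ℕ) (s : St) : (insL i s).1 (i + 1) = i := insArc_succ _ _

theorem insL_p3 {i : ℕ} (s : St) {x : ℕ} (h : x < i) :
    (insL i s).1 x = if s.1 x < i then s.1 x else s.1 x + 2 := insArc_lt _ h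

theorem insL_p4 {i : ℕ} (s : St) {x : ℕ} (h : i ≤ x) :
    (insL i s).1 (x + 2) = if s.1 x < i then s.1 x else s.1 x + 2 := insArc_ge _ h

/-- The sites of a state with an inserted arc. -/
theorem cases_ins (i x : ℕ) : x < i ∨ x = i ∨ x = i + 1 ∨ ∃ y, i ≤ y ∧ x = y + 2 := by
  rcases Nat.lt_or_ge x i with h | h
  · exact Or.inl h
  · rcases Nat.lt_or_ge x (i + 2) with h2 | h2
    · rcases Nat.lt_or_ge x (i + 1) with h3 | h3
      · exact Or.inr (Or.inl (by omega))
      · exact Or.inr (Or.inr (Or.inl (by omega)))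
    · exact Or.inr (Or.inr (Or.inr ⟨x - 2, by omega, by omega⟩))

/-- `a`, `a'` are the two sites of `e_i`. -/
def Two (i a a' : ℕ) : Prop := (a = i ∧ a' = i + 1) ∨ (a = i + 1 ∧ a' = i)

theorem eLs {i a a' : ℕ} (s : St) (ha : Two i a a') :
    (eL i s).1 a = a' ∧ (eL i s).2 a = false := by
  rcases ha with ⟨rfl, rfl⟩ | ⟨rfl, rfl⟩
  · simp [eL, eAct]
  · simp [eL, eAct]

theorem eLo {i a a' x : ℕ} {s : St} (ha : Two i a a') (hx : x ≠ a) (hx' : x ≠ a')
    (hp : s.1 x = a) : (eL i s).1 x = s.1 a' ∧ (eL i s).2 x = xor (s.2 a) (s.2 a') := by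
  rcases ha with ⟨rfl, rfl⟩ | ⟨rfl, rfl⟩
  · simp only [eL, eAct]
    rw [if_neg hx, if_neg hx', if_pos hp, if_neg (by omega), if_pos (Or.inl hp)]
    exact ⟨rfl, rfl⟩
  · simp only [eL, eAct]
    rw [if_neg hx', if_neg hx, if_neg (by omega), if_pos hp, if_neg (by omega), if_pos (Or.inr hp)]
    exact ⟨rfl, Bool.xor_comm _ _⟩

theorem eLn {i a a' x : ℕ} {s : St} (ha : Two i a a') (hx : x ≠ a) (hx' : x ≠ a')
    (hp : s.1 x ≠ a) (hp' : s.1 x ≠ a') : (eL i s).1 x = s.1 x ∧ (eL i s).2 x = s.2 x := by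
  rcases ha with ⟨rfl, rfl⟩ | ⟨rfl, rfl⟩
  · simp only [eL, eAct]
    rw [if_neg hx, if_neg hx', if_neg hp, if_neg hp', if_neg (by omega), if_neg (by omega)]
    exact ⟨rfl, rfl⟩
  · simp only [eL, eAct]
    rw [if_neg hx', if_neg hx, if_neg hp', if_neg hp, if_neg (by omega), if_neg (by omega)]
    exact ⟨rfl, rfl⟩

/-- Commutation at a site of the first generator. -/
theorem comm1 (s : St) {i j a a' b b' : ℕ} (ha : Two i a a') (hb : Two j b b')
    (h1 : a ≠ b) (h2 : a ≠ b') (h3 : a' ≠ b) (h4 : a' ≠ b') :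
    ((eL i (eL j s)).1 a = (eL j (eL i s)).1 a ∧ (eL i (eL j s)).2 a = (eL j (eL i s)).2 a) := by
  have e1 := eLs s ha
  have e2 := eLs (eL j s) ha
  have e3 := eLn (s := eL i s) hb h1 h2 (by rw [e1.1]; exact h3) (by rw [e1.1]; exact h4)
  rw [e2.1, e2.2, e3.1, e3.2, e1.1, e1.2]
  exact ⟨rfl, rfl⟩

/-- Commutation at a site joined to the first generator. -/
theorem comm2 (h : IsAnn N s) {i j a a' b b' x : ℕ} (ha : Two i a a') (hb : Two j b b')
    (h1 : a ≠ b) (h2 : a ≠ b') (h3 : a' ≠ b) (h4 : a' ≠ b') (x1 : x ≠ a) (x2 : x ≠ a')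
    (x3 : x ≠ b) (x4 : x ≠ b') (hx : s.1 x = a) :
    ((eL i (eL j s)).1 x = (eL j (eL i s)).1 x ∧ (eL i (eL j s)).2 x = (eL j (eL i s)).2 x) := by
  have hab : a ≠ a' := by rcases ha with ha | ha <;> omega
  have hbb : b ≠ b' := by rcases hb with hb | hb <;> omega
  have hpa : s.1 a = x := by rw [← hx, h.nc.inv]
  have e1 := eLn (s := s) hb x3 x4 (by rw [hx]; exact h1) (by rw [hx]; exact h2)
  have e2 := eLo (s := eL j s) ha x1 x2 (by rw [e1.1, hx])
  have e3 := eLo (s := s) ha x1 x2 hx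
  have e4 := eLn (s := s) hb (x := a) h1 h2 (by rw [hpa]; exact x3) (by rw [hpa]; exact x4)
  rw [e2.1, e2.2, e4.2]
  have key : ∀ b b' : ℕ, Two j b b' → a ≠ b → a ≠ b' → a' ≠ b → a' ≠ b' → x ≠ b → x ≠ b' → b ≠ b' →
      s.1 a' = b → (eL j s).1 a' = (eL j (eL i s)).1 x ∧
        xor (s.2 a) ((eL j s).2 a') = (eL j (eL i s)).2 x := by
    intro b b' hb h1 h2 h3 h4 x3 x4 hbb hc
    have hpc : s.1 b = a' := by rw [← hc, h.nc.inv]
    have hib : s.1 (s.1 b') = b' := h.nc.inv b'
    have f1 := eLo (s := s) hb h3 h4 hc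
    have f2 := eLo (s := eL i s) hb x3 x4 (by rw [e3.1, hc])
    have f3 := eLn (s := s) ha (x := b') (by omega) (by omega)
      (by intro h5; rw [h5, hpa] at hib; exact x4 hib)
      (by intro h5; rw [h5, hc] at hib; exact hbb hib)
    have f4 := eLo (s := s) (i := i) (a := a') (a' := a) (x := b) (by
      rcases ha with ha | ha
      · exact Or.inr ⟨ha.2, ha.1⟩
      · exact Or.inl ⟨ha.2, ha.1⟩) (by omega) (by omega) hpc
    rw [f1.1, f1.2, f2.1, f2.2, f3.1, f3.2, f4.2]
    refine ⟨rfl, ?_⟩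
    rw [lab_eq h hc]
    cases s.2 a <;> cases s.2 a' <;> cases s.2 b' <;> rfl
  by_cases hc : s.1 a' = b
  · exact key b b' hb h1 h2 h3 h4 x3 x4 hbb hc
  · by_cases hc' : s.1 a' = b'
    · exact key b' b (by
        rcases hb with hb | hb
        · exact Or.inr ⟨hb.2, hb.1⟩
        · exact Or.inl ⟨hb.2, hb.1⟩) h2 h1 h4 h3 x4 x3 hbb.symm hc'
    · have f1 := eLn (s := s) hb (x := a') h3 h4 hc hc'
      have f2 := eLn (s := eL i s) hb (x := x) x3 x4 (by rw [e3.1]; exact hc) (by rw [e3.1]; exact hc')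
      rw [f1.1, f1.2, f2.1, f2.2, e3.1, e3.2]
      exact ⟨rfl, rfl⟩

/-- Commutation at a site joined to no generator. -/
theorem comm3 (s : St) {i j a a' b b' x : ℕ} (ha : Two i a a') (hb : Two j b b')
    (x1 : x ≠ a) (x2 : x ≠ a') (x3 : x ≠ b) (x4 : x ≠ b') (y1 : s.1 x ≠ a) (y2 : s.1 x ≠ a')
    (y3 : s.1 x ≠ b) (y4 : s.1 x ≠ b') :
    ((eL i (eL j s)).1 x = (eL j (eL i s)).1 x ∧ (eL i (eL j s)).2 x = (eL j (eL i s)).2 x) := by
  have e1 := eLn (s := s) hb x3 x4 y3 y4
  have e2 := eLn (s := s) ha x1 x2 y1 y2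
  have e3 := eLn (s := eL j s) ha x1 x2 (by rw [e1.1]; exact y1) (by rw [e1.1]; exact y2)
  have e4 := eLn (s := eL i s) hb x3 x4 (by rw [e2.1]; exact y3) (by rw [e2.1]; exact y4)
  rw [e3.1, e3.2, e4.1, e4.2, e1.1, e1.2, e2.1, e2.2]
  exact ⟨rfl, rfl⟩

end QStB

open QStB

theorem eL_small {i : ℕ} (h : IsAnn N s) (hi : i + 1 < N) :
    (eL i s).1 i = i + 1 ∧ (eL i s).2 i = false := by
  simp [eL, eAct]

theorem eL_eq_self (h : IsAnn N s) {i : ℕ} (hi : i + 1 < N) (h1 : s.1 i = i + 1)
    (h2 : s.2 i = false) : eL i s = s := by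
  have h3 := lab h i
  rw [h1, h2] at h3
  have h4 : s.1 (i + 1) = i := by rw [← h1, h.nc.inv]
  refine Prod.ext (eAct_of_eq h.nc hi h1) ?_
  funext x
  have i3 := h.nc.inv x
  by_cases hx : x = i ∨ x = i + 1
  · rw [eL_lab1 _ _ hx]
    rcases hx with rfl | rfl
    · exact h2.symm
    · exact h3.symm
  · have h5 : ¬ (s.1 x = i ∨ s.1 x = i + 1) := by
      rintro (h5 | h5)
      · rw [h5, h1] at i3
        omega
      · rw [h5, h4] at i3
        omega
    rw [eL_lab3 _ _ hx h5]

theorem eL_idem (h : IsAnn N s) {i : ℕ} (hi : i + 1 < N) : eL i (eL i s) = eL i s :=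
  eL_eq_self (h.eL hi) hi (eL_small h hi).1 (eL_small h hi).2

theorem eL_insL_self (h : IsAnn N s) {i : ℕ} (hi : i ≤ N) : eL i (insL i s) = insL i s :=
  eL_eq_self (h.insL hi) (by omega) (insL_p1 _ _) (insL_lab1 _ _ (Or.inl rfl))

theorem eL_insL_succ (h : IsAnn N s) {i : ℕ} (hi : i + 1 ≤ N) :
    eL i (insL (i + 1) s) = insL i s := by
  refine Prod.ext (eAct_insArc_succ h.nc hi) ?_
  funext x
  have hl := lab h i
  have l1 : (insL (i + 1) s).2 i = s.2 i := insL_lab2 s (by omega)
  have l2 : (insL (i + 1) s).2 (i + 1) = false := insL_lab1 _ _ (Or.inl rfl)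
  rcases cases_ins (i + 1) x with hx | rfl | rfl | ⟨y, hy, rfl⟩
  · by_cases hxi : x = i
    · subst hxi
      rw [eL_lab1 _ _ (Or.inl rfl), insL_lab1 _ _ (Or.inl rfl)]
    · rw [insL_lab2 (i := i) s (by omega)]
      by_cases h2 : s.1 x = i
      · rw [eL_lab2 _ _ (by omega) (Or.inl (by rw [insL_p3 s hx, if_pos (by omega), h2])), l1, l2,
          Bool.xor_false, lab_eq h h2]
      · rw [eL_lab3 _ _ (by omega) (by rw [insL_p3 s hx]; split_ifs <;> omega),
          insL_lab2 s hx]
  · rw [eL_lab1 _ _ (Or.inr rfl), insL_lab1 _ _ (Or.inr rfl)]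
  · rw [eL_lab2 _ _ (by omega) (Or.inr (insL_p2 _ _)), l1, l2, Bool.xor_false]
    exact (insL_lab3 s (le_refl i)).symm
  · rw [insL_lab3 (i := i) s (by omega)]
    by_cases h2 : s.1 y = i
    · rw [eL_lab2 _ _ (by omega) (Or.inl (by rw [insL_p4 s hy, if_pos (by omega), h2])), l1, l2,
        Bool.xor_false, lab_eq h h2]
    · rw [eL_lab3 _ _ (by omega) (by rw [insL_p4 s hy]; split_ifs <;> omega), insL_lab3 s hy]

theorem eL_succ_insL (h : IsAnn N s) {i : ℕ} (hi : i + 1 ≤ N) :
    eL (i + 1) (insL i s) = insL (i + 1) s := by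
  refine Prod.ext (eAct_succ_insArc h.nc hi) ?_
  funext x
  have l1 : (insL i s).2 (i + 1 + 1) = s.2 i := insL_lab3 s (le_refl i)
  have l2 : (insL i s).2 (i + 1) = false := insL_lab1 _ _ (Or.inr rfl)
  rcases cases_ins i x with hx | rfl | rfl | ⟨y, hy, rfl⟩
  · rw [insL_lab2 (i := i + 1) s (by omega)]
    by_cases h2 : s.1 x = i
    · rw [eL_lab2 _ _ (by omega) (Or.inr (by rw [insL_p3 s hx, if_neg (by omega), h2])), l1, l2,
        Bool.false_xor, lab_eq h h2]
    · rw [eL_lab3 _ _ (by omega) (by rw [insL_p3 s hx]; split_ifs <;> omega),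
        insL_lab2 s hx]
  · rw [eL_lab2 _ _ (by omega) (Or.inl (insL_p1 _ _)), l1, l2, Bool.false_xor]
    exact (insL_lab2 (i := x + 1) s (by omega)).symm
  · rw [eL_lab1 _ _ (Or.inl rfl), insL_lab1 _ _ (Or.inl rfl)]
  · by_cases hyi : y = i
    · subst hyi
      rw [eL_lab1 _ _ (Or.inr rfl), insL_lab1 _ _ (Or.inr rfl)]
    · rw [insL_lab3 (i := i + 1) s (by omega)]
      by_cases h2 : s.1 y = i
      · rw [eL_lab2 _ _ (by omega) (Or.inr (by rw [insL_p4 s hy, if_neg (by omega), h2])), l1, l2,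
          Bool.false_xor, lab_eq h h2]
      · rw [eL_lab3 _ _ (by omega) (by rw [insL_p4 s hy]; split_ifs <;> omega), insL_lab3 s hy]

theorem eL_insL_of_le (h : IsAnn N s) {i k : ℕ} (hik : k + 2 ≤ i) (hi : i + 1 < N + 2) :
    eL i (insL k s) = insL k (eL (i - 2) s) := by
  refine Prod.ext (eAct_insArc_of_le h.nc hik hi) ?_
  obtain ⟨j, rfl⟩ : ∃ j, i = j + 2 := ⟨i - 2, by omega⟩
  rw [Nat.add_sub_cancel]
  funext x
  have l1 : (insL k s).2 (j + 2) = s.2 j := insL_lab3 s (by omega)
  have l2 : (insL k s).2 (j + 2 + 1) = s.2 (j + 1) := insL_lab3 (x := j + 1) s (by omega)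
  rcases cases_ins k x with hx | rfl | rfl | ⟨y, hy, rfl⟩
  · rw [insL_lab2 (i := k) _ hx]
    by_cases h2 : s.1 x = j ∨ s.1 x = j + 1
    · rw [eL_lab2 _ _ (by omega) h2, eL_lab2 _ _ (by omega)
        (by rw [insL_p3 s hx]; split_ifs <;> omega), l1, l2]
    · rw [eL_lab3 _ _ (by omega) h2, eL_lab3 _ _ (by omega)
        (by rw [insL_p3 s hx]; split_ifs <;> omega), insL_lab2 s hx]
  · rw [eL_lab3 _ _ (by omega) (by rw [insL_p1]; omega), insL_lab1 _ _ (Or.inl rfl),
      insL_lab1 _ _ (Or.inl rfl)]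
  · rw [eL_lab3 _ _ (by omega) (by rw [insL_p2]; omega), insL_lab1 _ _ (Or.inr rfl),
      insL_lab1 _ _ (Or.inr rfl)]
  · rw [insL_lab3 (i := k) _ hy]
    by_cases h1 : y = j ∨ y = j + 1
    · rw [eL_lab1 _ _ h1, eL_lab1 _ _ (by omega)]
    · by_cases h2 : s.1 y = j ∨ s.1 y = j + 1
      · rw [eL_lab2 _ _ h1 h2, eL_lab2 _ _ (by omega)
          (by rw [insL_p4 s hy]; split_ifs <;> omega), l1, l2]
      · rw [eL_lab3 _ _ h1 h2, eL_lab3 _ _ (by omega)
          (by rw [insL_p4 s hy]; split_ifs <;> omega), insL_lab3 s hy]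

theorem eL_insL_of_lt (h : IsAnn N s) {i k : ℕ} (hik : i + 1 < k) (hk : k ≤ N) :
    eL i (insL k s) = insL k (eL i s) := by
  refine Prod.ext (eAct_insArc_of_lt h.nc hik hk) ?_
  funext x
  have l1 : (insL k s).2 i = s.2 i := insL_lab2 s (by omega)
  have l2 : (insL k s).2 (i + 1) = s.2 (i + 1) := insL_lab2 s (by omega)
  rcases cases_ins k x with hx | rfl | rfl | ⟨y, hy, rfl⟩
  · rw [insL_lab2 (i := k) _ hx]
    by_cases h1 : x = i ∨ x = i + 1
    · rw [eL_lab1 _ _ h1, eL_lab1 _ _ h1]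
    · by_cases h2 : s.1 x = i ∨ s.1 x = i + 1
      · rw [eL_lab2 _ _ h1 h2, eL_lab2 _ _ h1
          (by rw [insL_p3 s hx]; split_ifs <;> omega), l1, l2]
      · rw [eL_lab3 _ _ h1 h2, eL_lab3 _ _ h1
          (by rw [insL_p3 s hx]; split_ifs <;> omega), insL_lab2 s hx]
  · rw [eL_lab3 _ _ (by omega) (by rw [insL_p1]; omega), insL_lab1 _ _ (Or.inl rfl),
      insL_lab1 _ _ (Or.inl rfl)]
  · rw [eL_lab3 _ _ (by omega) (by rw [insL_p2]; omega), insL_lab1 _ _ (Or.inr rfl),
      insL_lab1 _ _ (Or.inr rfl)]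
  · rw [insL_lab3 (i := k) _ hy]
    by_cases h2 : s.1 y = i ∨ s.1 y = i + 1
    · rw [eL_lab2 _ _ (by omega) h2, eL_lab2 _ _ (by omega)
        (by rw [insL_p4 s hy]; split_ifs <;> omega), l1, l2]
    · rw [eL_lab3 _ _ (by omega) h2, eL_lab3 _ _ (by omega)
        (by rw [insL_p4 s hy]; split_ifs <;> omega), insL_lab3 s hy]

/-- Far generators commute. -/
theorem eL_comm (h : IsAnn N s) {i j : ℕ} (hij : i + 1 < j) (hj : j + 1 < N) :
    eL i (eL j s) = eL j (eL i s) := by
  have a1 : Two i i (i + 1) := Or.inl ⟨rfl, rfl⟩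
  have a2 : Two i (i + 1) i := Or.inr ⟨rfl, rfl⟩
  have b1 : Two j j (j + 1) := Or.inl ⟨rfl, rfl⟩
  have b2 : Two j (j + 1) j := Or.inr ⟨rfl, rfl⟩
  have key : ∀ x, ((eL i (eL j s)).1 x = (eL j (eL i s)).1 x ∧
      (eL i (eL j s)).2 x = (eL j (eL i s)).2 x) := by
    intro x
    by_cases x1 : x = i
    · subst x1; exact comm1 s a1 b1 (by omega) (by omega) (by omega) (by omega)
    by_cases x2 : x = i + 1
    · subst x2; exact comm1 s a2 b1 (by omega) (by omega) (by omega) (by omega)
    by_cases x3 : x = j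
    · subst x3
      have := comm1 s b1 a1 (by omega) (by omega) (by omega) (by omega)
      exact ⟨this.1.symm, this.2.symm⟩
    by_cases x4 : x = j + 1
    · subst x4
      have := comm1 s b2 a1 (by omega) (by omega) (by omega) (by omega)
      exact ⟨this.1.symm, this.2.symm⟩
    by_cases y1 : s.1 x = i
    · exact comm2 h a1 b1 (by omega) (by omega) (by omega) (by omega) x1 x2 x3 x4 y1
    by_cases y2 : s.1 x = i + 1
    · exact comm2 h a2 b1 (by omega) (by omega) (by omega) (by omega) x2 x1 x3 x4 y2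
    by_cases y3 : s.1 x = j
    · have := comm2 h b1 a1 (by omega) (by omega) (by omega) (by omega) x3 x4 x1 x2 y3
      exact ⟨this.1.symm, this.2.symm⟩
    by_cases y4 : s.1 x = j + 1
    · have := comm2 h b2 a1 (by omega) (by omega) (by omega) (by omega) x4 x3 x1 x2 y4
      exact ⟨this.1.symm, this.2.symm⟩
    exact comm3 s a1 b1 x1 x2 x3 x4 y1 y2 y3 y4
  refine Prod.ext (funext fun x => (key x).1) (funext fun x => (key x).2)

theorem opS_out (h : IsAnn N s) {x : ℕ} (hx : N ≤ x) : opS s x = false := by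
  unfold opS
  rw [h.nc.out x hx, h.out x hx]
  simp

/-- Openings are matched with closings. -/
theorem opS_partner (h : IsAnn N s) {x : ℕ} (hx : x < N) : opS s (s.1 x) = !opS s x := by
  unfold opS
  rw [h.nc.inv x, lab h x]
  have h1 := h.nc.ne x hx
  have h2 : decide (s.1 x < x) = !decide (x < s.1 x) := by
    rcases Nat.lt_or_gt_of_ne h1 with h3 | h3
    · rw [decide_eq_true h3, decide_eq_false (by omega)]
      rfl
    · rw [decide_eq_true h3, decide_eq_false (by omega)]
      rfl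
  rw [h2]
  cases decide (x < s.1 x) <;> cases s.2 x <;> rfl

theorem opS_rotL (h : IsAnn N s) {x : ℕ} (hx : x < N) :
    opS (rotL N s) x = opS s (if x + 1 = N then 0 else x + 1) := by
  unfold opS
  simp only [rotL, rotP]
  rw [if_pos hx, if_pos hx]
  by_cases hxN : x + 1 = N
  · rw [if_pos (Or.inl hxN)]
    simp only [if_pos hxN]
    have h0 := h.nc.ne 0 (by omega)
    have h1 := h.nc.lt 0 (by omega)
    rw [if_neg h0, decide_eq_false (by omega), decide_eq_true (by omega)]
    cases s.2 0 <;> rfl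
  · simp only [if_neg hxN]
    by_cases h2 : s.1 (x + 1) = 0
    · rw [if_pos h2, if_pos (Or.inr h2), h2, decide_eq_true (by omega), decide_eq_false (by omega)]
      cases s.2 (x + 1) <;> rfl
    · rw [if_neg h2, if_neg (by rintro (h3 | h3); exacts [hxN h3, h2 h3])]
      congr 1
      rw [decide_eq_decide]
      omega

theorem opS_insL (h : IsAnn N s) {i : ℕ} (hi : i ≤ N) (x : ℕ) :
    opS (insL i s) x = if x = i then true else if x = i + 1 then false
      else opS s (if x < i then x else x - 2) := by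
  unfold opS
  rcases cases_ins i x with hx | rfl | rfl | ⟨y, hy, rfl⟩
  · rw [if_neg (by omega), if_neg (by omega), if_pos hx, insL_lab2 s hx, insL_p3 s hx]
    congr 1
    rw [decide_eq_decide]
    split_ifs <;> omega
  · rw [if_pos rfl, insL_p1, insL_lab1 _ _ (Or.inl rfl), decide_eq_true (by omega)]
    rfl
  · rw [if_neg (by omega), if_pos rfl, insL_p2, insL_lab1 _ _ (Or.inr rfl),
      decide_eq_false (by omega)]
    rfl
  · rw [if_neg (by omega), if_neg (by omega), if_neg (by omega), Nat.add_sub_cancel,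
      insL_lab3 s hy, insL_p4 s hy]
    congr 1
    rw [decide_eq_decide]
    split_ifs <;> omega

theorem zptS_insL (q : ℂ) (h : IsAnn N s) {i : ℕ} (hi : i ≤ N) :
    zptS q (insL i s) = insV i (q ^ 2) 1 (zptS q s) := by
  funext x
  unfold zptS insV
  rw [opS_insL h hi x]
  rcases cases_ins i x with hx | rfl | rfl | ⟨y, hy, rfl⟩
  · rw [if_neg (show ¬ x = i by omega), if_neg (show ¬ x = i + 1 by omega), if_pos hx, if_pos hx]
  · rw [if_pos rfl, if_pos rfl, if_neg (lt_irrefl _), if_pos rfl]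
  · rw [if_neg (show ¬ i + 1 = i by omega), if_pos rfl, if_neg (by simp),
      if_neg (show ¬ i + 1 < i by omega), if_neg (show ¬ i + 1 = i by omega), if_pos rfl]
  · rw [if_neg (show ¬ y + 2 = i by omega), if_neg (show ¬ y + 2 = i + 1 by omega),
      if_neg (show ¬ y + 2 < i by omega), if_neg (show ¬ y + 2 < i by omega),
      if_neg (show ¬ y + 2 = i by omega), if_neg (show ¬ y + 2 = i + 1 by omega)]

theorem zptS_rotL (q : ℂ) (h : IsAnn N s) : zptS q (rotL N s) = rotV N (zptS q s) := by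
  funext x
  rcases Nat.lt_or_ge (x + 1) N with h1 | h1
  · simp only [zptS, rotV, if_pos h1, opS_rotL h (show x < N by omega),
      if_neg (show ¬ x + 1 = N by omega)]
  · by_cases h2 : x + 1 = N
    · simp only [zptS, rotV, if_neg (show ¬ x + 1 < N by omega), if_pos h2,
        opS_rotL h (show x < N by omega)]
    · simp only [zptS, rotV, if_neg (show ¬ x + 1 < N by omega), if_neg h2,
        opS_out h (show N ≤ x by omega), opS_out h.rotL (show N ≤ x by omega)]

theorem prod_zptS {q : ℂ} (hq : q ^ 2 + q + 1 = 0) {m : ℕ} (h : IsAnn (2 * m) s) :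
    ∏ k ∈ range (2 * m), (zptS q s k - q) ^ 2 = (9 * q) ^ m := by
  have h1 : ∏ k ∈ range (2 * m), (zptS q s (s.1 k) - q) = ∏ k ∈ range (2 * m), (zptS q s k - q) := by
    refine Finset.prod_nbij' s.1 s.1 ?_ ?_ ?_ ?_ ?_
    · intro a ha
      exact Finset.mem_range.2 (h.nc.lt a (Finset.mem_range.1 ha))
    · intro a ha
      exact Finset.mem_range.2 (h.nc.lt a (Finset.mem_range.1 ha))
    · intro a ha
      exact h.nc.inv a
    · intro a ha
      exact h.nc.inv a
    · intro a ha
      rfl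
  have h2 : ∏ k ∈ range (2 * m), (zptS q s k - q) ^ 2
      = (∏ k ∈ range (2 * m), (zptS q s k - q)) * ∏ k ∈ range (2 * m), (zptS q s (s.1 k) - q) := by
    rw [h1, Finset.prod_pow, sq]
  rw [h2, ← Finset.prod_mul_distrib]
  have h3 : ∀ k ∈ range (2 * m), (zptS q s k - q) * (zptS q s (s.1 k) - q)
      = (q ^ 2 - q) * (1 - q) := by
    intro k hk
    unfold zptS
    rw [opS_partner h (Finset.mem_range.1 hk)]
    cases opS s k
    · simp
      ring
    · simp
  rw [Finset.prod_congr rfl h3, Finset.prod_const, Finset.card_range, pow_mul]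
  congr 1
  linear_combination (q ^ 4 - 5 * q ^ 3 + 10 * q ^ 2 - 9 * q) * hq

/-- The word determines the small arcs. -/
theorem QStB.small_of_op (h : IsAnn N s) {i : ℕ} (hi : i + 1 < N) (h1 : opS s i = true)
    (h2 : opS s (i + 1) = false) : s.1 i = i + 1 ∧ s.2 i = false := by
  obtain ⟨g, hg1, hg⟩ := h.mark
  have g1 := hg i (by omega)
  have g2 := hg (i + 1) hi
  have n1 := h.nc.ne i (by omega)
  have n2 := h.nc.ne (i + 1) hi
  have v1 := h.nc.inv i
  have v2 := h.nc.inv (i + 1)
  unfold opS at h1 h2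
  cases a1 : s.2 i <;> cases a2 : s.2 (i + 1) <;> rw [a1] at h1 g1 <;> rw [a2] at h2 g2 <;>
    simp at h1 h2 g1 g2
  · -- a
    refine ⟨?_, rfl⟩
    by_contra h3
    have := h.nc.nc i (i + 1) (by omega) (by omega)
    omega
  · -- b
    refine ⟨?_, rfl⟩
    by_contra h3
    have := h.nc.nc i (i + 1) (by omega) (by omega)
    omega
  · -- c
    exfalso
    have h5 : s.1 (i + 1) ≠ i := by
      intro h6
      rw [h6] at v2
      omega
    have h6 : s.1 (i + 1) < i := by omega
    have := h.nc.nc (s.1 i) (s.1 (i + 1)) (by omega) (by omega)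
    omega
  · -- d
    exfalso
    omega

/-- A state is determined by its word. -/
theorem eq_of_opS (h : IsAnn N s) (h' : IsAnn N s') (he : ∀ x < N, opS s x = opS s' x) :
    s = s' := by
  have hev := h.nc.even
  obtain ⟨m, rfl⟩ : ∃ m, N = 2 * m := ⟨N / 2, by omega⟩
  clear hev
  induction m generalizing s s' with
  | zero => rw [isAnn_zero h, isAnn_zero h']
  | succ m ih =>
    have key : ∀ u u' : St, IsAnn (2 * m + 2) u → IsAnn (2 * m + 2) u' →
        (∀ x < 2 * m + 2, opS u x = opS u' x) →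
        (∃ i ≤ 2 * m, u.1 i = i + 1 ∧ u.2 i = false) → u = u' := by
      rintro u u' hu hu' hop ⟨i, hi, hi1, hi2⟩
      have o1 : opS u i = true := by
        unfold opS
        rw [hi1, hi2, decide_eq_true (by omega)]
        rfl
      have o2 : opS u (i + 1) = false := by
        have := opS_partner hu (x := i) (by omega)
        rw [hi1, o1] at this
        exact this
      rw [hop i (by omega)] at o1
      rw [hop (i + 1) (by omega)] at o2
      obtain ⟨p1, p2⟩ := QStB.small_of_op hu' (by omega) o1 o2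
      obtain ⟨t, ht, rfl⟩ := hu.exists_del hi hi1 hi2
      obtain ⟨t', ht', rfl⟩ := hu'.exists_del hi p1 p2
      rw [ih ht ht' ?_]
      intro x hx
      rcases Nat.lt_or_ge x i with hxi | hxi
      · have := hop x (by omega)
        rw [opS_insL ht hi, opS_insL ht' hi, if_neg (by omega), if_neg (by omega), if_pos hxi,
          if_neg (by omega), if_neg (by omega)] at this
        exact this
      · have := hop (x + 2) (by omega)
        rw [opS_insL ht hi, opS_insL ht' hi, if_neg (by omega), if_neg (by omega),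
          if_neg (by omega), if_neg (by omega), if_neg (by omega), Nat.add_sub_cancel] at this
        exact this
    rcases IsAnn.exists_small (N := 2 * m) h with hs | ⟨hs1, hs2⟩
    · exact key s s' h h' he hs
    · obtain ⟨u, hu, rfl⟩ := rotL_surj h
      obtain ⟨u', hu', rfl⟩ := rotL_surj h'
      have hop : ∀ x < 2 * m + 2, opS u x = opS u' x := by
        intro x hx
        rcases Nat.eq_zero_or_pos x with rfl | hx0
        · have := he (2 * m + 1) (by omega)
          rw [opS_rotL hu (by omega), opS_rotL hu' (by omega), if_pos (by omega)] at this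
          exact this
        · have := he (x - 1) (by omega)
          rw [opS_rotL hu (by omega), opS_rotL hu' (by omega), if_neg (by omega),
            Nat.sub_add_cancel hx0] at this
          exact this
      have o0 : opS (rotL (2 * (m + 1)) u) 0 = false := by
        unfold opS
        rw [hs1, hs2, decide_eq_true (by omega)]
        rfl
      have o1 : opS (rotL (2 * (m + 1)) u) (2 * m + 1) = true := by
        have := opS_partner h (x := 0) (by omega)
        rw [hs1, o0] at this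
        exact this
      rw [opS_rotL hu (by omega), if_neg (by omega)] at o0
      rw [opS_rotL hu (by omega), if_pos (by omega)] at o1
      obtain ⟨p1, p2⟩ := QStB.small_of_op hu (by omega) o1 o0
      rw [key u u' hu hu' hop ⟨0, by omega, p1, p2⟩]

theorem opS_nestS (m : ℕ) {x : ℕ} : opS (nestS m) x = decide (m ≤ x ∧ x < 2 * m) := by
  unfold opS nestS nest
  by_cases hx : x < 2 * m
  · simp only [if_pos hx, decide_eq_true hx, Bool.xor_true]
    by_cases h1 : m ≤ x
    · rw [decide_eq_false (by omega), decide_eq_true (by omega)]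
      rfl
    · rw [decide_eq_true (by omega), decide_eq_false (by omega)]
      rfl
  · simp only [if_neg hx, decide_eq_false hx]
    rw [decide_eq_false (lt_irrefl _), decide_eq_false (by omega)]
    rfl

/-- A state which is not `nestS m` has an opening before a closing. -/
theorem exists_op_cl {m : ℕ} (h : IsAnn (2 * m) s) (hne : s ≠ nestS m) :
    ∃ i j, i < j ∧ j < 2 * m ∧ opS s i = true ∧ opS s j = false := by
  by_contra hcon
  push Not at hcon
  apply hne
  have hc1 : (filter (fun x => opS s x = true) (range (2 * m))).card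
      = (filter (fun x => ¬ opS s x = true) (range (2 * m))).card := by
    refine Finset.card_nbij' s.1 s.1 ?_ ?_ ?_ ?_
    · intro a ha
      simp only [Finset.coe_filter, Finset.mem_range, Set.mem_ofPred_eq] at ha ⊢
      refine ⟨h.nc.lt a ha.1, ?_⟩
      rw [opS_partner h ha.1, ha.2]
      simp
    · intro a ha
      simp only [Finset.coe_filter, Finset.mem_range, Set.mem_ofPred_eq] at ha ⊢
      refine ⟨h.nc.lt a ha.1, ?_⟩
      rw [opS_partner h ha.1]
      simpa using ha.2
    · intro a ha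
      exact h.nc.inv a
    · intro a ha
      exact h.nc.inv a
  have hc2 := Finset.card_filter_add_card_filter_not (s := range (2 * m)) (fun x => opS s x = true)
  rw [Finset.card_range] at hc2
  refine eq_of_opS h (isAnn_nestS m) ?_
  intro x hx
  rw [opS_nestS]
  cases ho : opS s x
  · symm
    rw [decide_eq_false_iff_not]
    have h1 : range (x + 1) ⊆ filter (fun x => ¬ opS s x = true) (range (2 * m)) := by
      intro y hy
      rw [Finset.mem_range] at hy
      rw [Finset.mem_filter, Finset.mem_range]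
      refine ⟨by omega, ?_⟩
      intro h2
      rcases Nat.lt_or_ge y x with h3 | h3
      · exact hcon y x h3 hx h2 ho
      · rw [show y = x by omega, ho] at h2
        exact absurd h2 (by simp)
    have h2 := Finset.card_le_card h1
    rw [Finset.card_range] at h2
    omega
  · symm
    rw [decide_eq_true_iff]
    have h1 : Finset.Ico x (2 * m) ⊆ filter (fun x => opS s x = true) (range (2 * m)) := by
      intro y hy
      rw [Finset.mem_Ico] at hy
      rw [Finset.mem_filter, Finset.mem_range]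
      refine ⟨by omega, ?_⟩
      rcases Nat.lt_or_ge x y with h3 | h3
      · have := hcon x y h3 hy.2 ho
        simpa using this
      · rw [show y = x by omega, ho]
    have h2 := Finset.card_le_card h1
    rw [Nat.card_Ico] at h2
    omega

end Pool.Agent.Perc
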