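import Pool.Agent.Lib.MP_6bd702_z.Z094
import Pool.Agent.Lib.MP_6bd702_z.Z065
import Pool.Agent.Lib.MP_6bd702_z.Z069
import Pool.Agent.Lib.MP_6bd702_z.Z070

section PartpercQSchurC

/-!
# The extreme coefficient of the Schur polynomial at doubled variables
-/

set_option autoImplicit false

namespace Pool.Agent.Perc

open Finset MvPolynomial

namespace QSchur

open SumB

/-- the coefficient of `X_N ^ d`, as a polynomial in the other variables -/
noncomputable def topc (N d : ℕ) (P : MvPolynomial ℕ ℂ) : MvPolynomial ℕ ℂ :=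
  ∑ u ∈ P.support, if u N = d then monomial (u.erase N) (coeff u P) else 0

theorem eval_topc (N d : ℕ) (P : MvPolynomial ℕ ℂ) (z : ℕ → ℂ) :
    eval z (topc N d P) = Polynomial.coeff (sub1 N z P) d := by
  have h : Polynomial.coeff (sub1 N z P) d = ∑ u ∈ P.support,
      Polynomial.coeff (sub1 N z (monomial u (coeff u P))) d := by
    conv_lhs => rw [P.as_sum, map_sum, Polynomial.finsetSum_coeff]
  rw [h, topc, map_sum]
  refine Finset.sum_congr rfl fun u _ => ?_
  have h1 : sub1 N z (monomial u (coeff u P)) =
      Polynomial.C (coeff u P * ∏ k ∈ u.support.erase N, z k ^ u k) * Polynomial.X ^ (u N) := by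
    rw [sub1, aeval_monomial, Finsupp.prod]
    by_cases hN : N ∈ u.support
    · rw [← Finset.mul_prod_erase _ _ hN, if_pos rfl, Polynomial.C_mul, map_prod]
      have h2 : ∏ x ∈ u.support.erase N, (if x = N then (Polynomial.X : Polynomial ℂ) else
          Polynomial.C (z x)) ^ u x = ∏ x ∈ u.support.erase N, Polynomial.C (z x ^ u x) := by
        refine Finset.prod_congr rfl fun x hx => ?_
        rw [if_neg (Finset.ne_of_mem_erase hx), Polynomial.C_pow]
      rw [h2]
      show Polynomial.C _ * _ = _
      ring
    · rw [Finset.erase_eq_of_notMem hN, Polynomial.C_mul, map_prod,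
        Finsupp.notMem_support_iff.1 hN, pow_zero, mul_one]
      show Polynomial.C _ * _ = _
      congr 1
      refine Finset.prod_congr rfl fun x hx => ?_
      rw [if_neg (by rintro rfl; exact hN hx), Polynomial.C_pow]
  rw [h1, Polynomial.coeff_C_mul, Polynomial.coeff_X_pow]
  split_ifs with h2 h3 h3
  · rw [eval_monomial, mul_one, Finsupp.prod, Finsupp.support_erase]
    congr 1
    refine Finset.prod_congr rfl fun x hx => ?_
    rw [Finsupp.erase_ne (Finset.ne_of_mem_erase hx)]
  · exact absurd h2.symm h3
  · exact absurd h3.symm h2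
  · rw [map_zero, mul_zero]

theorem coeff_topc (N d : ℕ) (P : MvPolynomial ℕ ℂ) (v : ℕ →₀ ℕ) (hv : v N = 0) :
    coeff v (topc N d P) = coeff (v + Finsupp.single N d) P := by
  have key : ∀ u : ℕ →₀ ℕ, (u N = d ∧ u.erase N = v) ↔ u = v + Finsupp.single N d := by
    intro u
    constructor
    · rintro ⟨h1, h2⟩
      rw [← h2, ← h1, add_comm, Finsupp.single_add_erase]
    · rintro rfl
      constructor
      · simp [hv]
      · ext k
        by_cases hk : k = N
        · subst hk; simp [hv]
        · rw [Finsupp.erase_ne hk, Finsupp.add_apply, Finsupp.single_apply, if_neg (Ne.symm hk),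
            add_zero]
  rw [topc, coeff_sum]
  have h1 : ∀ u ∈ P.support, coeff v (if u N = d then monomial (u.erase N) (coeff u P) else 0) =
      if u = v + Finsupp.single N d then coeff (v + Finsupp.single N d) P else 0 := by
    intro u _
    by_cases h2 : u = v + Finsupp.single N d
    · have h3 := (key u).2 h2
      rw [if_pos h2, if_pos h3.1, coeff_monomial, if_pos h3.2, h2]
    · rw [if_neg h2]
      split_ifs with h3
      · rw [coeff_monomial, if_neg]
        intro h4
        exact h2 ((key u).1 ⟨h3, h4⟩)
      · rw [coeff_zero]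
  rw [Finset.sum_congr rfl h1, Finset.sum_ite_eq']
  split_ifs with h2
  · rfl
  · exact (notMem_support_iff.1 h2).symm

/-- the top coefficient in the last variable, for coefficients -/
theorem coeff_schur_top (N d : ℕ) {e : ℕ → ℕ} (he : StrictMono e) (heN : e N = d + N)
    (v : ℕ →₀ ℕ) (hv : v N = 0) :
    coeff (v + Finsupp.single N d) (schur (N + 1) e) = coeff v (schur N e) := by
  have h : topc N d (schur (N + 1) e) = schur N e := by
    apply MvPolynomial.funext
    intro z
    rw [eval_topc, sub1, top_schur N d he heN]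
  rw [← h, coeff_topc N d _ v hv]

/-- the exponent `2 k` at `k < L` -/
noncomputable def dlt : ℕ → (ℕ →₀ ℕ)
  | 0 => 0
  | L + 1 => dlt L + Finsupp.single L (2 * L)

theorem dlt_apply (L k : ℕ) : dlt L k = if k < L then 2 * k else 0 := by
  induction L with
  | zero => simp [dlt]
  | succ L ih =>
    rw [dlt, Finsupp.add_apply, ih, Finsupp.single_apply]
    split_ifs <;> omega

/-- the exponent of the leading monomial of the Schur polynomial -/
noncomputable def lam : ℕ → (ℕ →₀ ℕ)
  | 0 => 0
  | L + 1 => lam L + Finsupp.single (2 * L) L + Finsupp.single (2 * L + 1) L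

theorem lam_apply (L k : ℕ) : lam L k = if k < 2 * L then k / 2 else 0 := by
  induction L with
  | zero => simp [lam]
  | succ L ih =>
    rw [lam, Finsupp.add_apply, Finsupp.add_apply, ih, Finsupp.single_apply, Finsupp.single_apply]
    split_ifs <;> omega

theorem schur_zero (e : ℕ → ℕ) : schur 0 e = 1 := by
  have h := vdm_mul_schur 0 e
  have h1 : vdm 0 = 1 := by simp [vdm]
  have h2 : alt 0 e = 1 := by simp [alt]
  rw [h1, h2, one_mul] at h
  exact h

theorem coeff_two_step (L : ℕ) (v : ℕ →₀ ℕ) (h1 : v (2 * L) = 0) (h2 : v (2 * L + 1) = 0) :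
    coeff (v + Finsupp.single (2 * L) L + Finsupp.single (2 * L + 1) L) (schur (2 * (L + 1)) eS3) =
      coeff v (schur (2 * L) eS3) := by
  rw [show 2 * (L + 1) = 2 * L + 1 + 1 from rfl,
    coeff_schur_top (2 * L + 1) L SumB.strictMono_eS3 (by unfold eS3; omega),
    coeff_schur_top (2 * L) L SumB.strictMono_eS3 (by unfold eS3; omega) v h1]
  rw [Finsupp.add_apply, h2, Finsupp.single_apply, if_neg (by omega), add_zero]

/-- the leading coefficient of the Schur polynomial is one -/
theorem coeff_lam (L : ℕ) : coeff (lam L) (schur (2 * L) eS3) = 1 := by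
  induction L with
  | zero =>
    rw [mul_zero, schur_zero, lam]
    simp
  | succ L ih =>
    rw [lam, coeff_two_step, ih]
    · rw [lam_apply, if_neg (by omega)]
    · rw [lam_apply, if_neg (by omega)]

/-- only the leading monomial gives the exponent `(0, 2, 4, …)` after doubling -/
theorem eq_lam (L : ℕ) : ∀ u : ℕ →₀ ℕ, coeff u (schur (2 * L) eS3) ≠ 0 →
    (∀ k < L, u (2 * k) + u (2 * k + 1) = 2 * k) → u = lam L := by
  induction L with
  | zero =>
    intro u hu _
    rw [mul_zero, schur_zero, coeff_one] at hu
    rw [lam]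
    by_contra h
    exact hu (if_neg (Ne.symm h))
  | succ L ih =>
    intro u hu h
    have hmem : u ∈ (schur (2 * (L + 1)) eS3).support := mem_support_iff.2 hu
    have hdeg : ∀ k, u k ≤ L := by
      intro k
      refine (monomial_le_degreeOf k hmem).trans ?_
      apply degreeOf_schur_le
      intro j hj
      unfold eS3
      omega
    have h1 := h L (by omega)
    have h2 := hdeg (2 * L)
    have h3 := hdeg (2 * L + 1)
    have h4 : u (2 * L) = L := by omega
    have h5 : u (2 * L + 1) = L := by omega
    have h6 : u = (u.erase (2 * L + 1)).erase (2 * L) + Finsupp.single (2 * L) L +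
        Finsupp.single (2 * L + 1) L := by
      ext k
      rw [Finsupp.add_apply, Finsupp.add_apply, Finsupp.single_apply, Finsupp.single_apply]
      by_cases h7 : k = 2 * L
      · subst h7
        rw [Finsupp.erase_same, if_pos rfl, if_neg (by omega), h4]
        omega
      · rw [Finsupp.erase_ne h7, if_neg (Ne.symm h7)]
        by_cases h8 : k = 2 * L + 1
        · subst h8
          rw [Finsupp.erase_same, if_pos rfl, h5]
          omega
        · rw [Finsupp.erase_ne h8, if_neg (Ne.symm h8)]
          omega
    have e1 : (u.erase (2 * L + 1)).erase (2 * L) (2 * L) = 0 := Finsupp.erase_same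
    have e2 : (u.erase (2 * L + 1)).erase (2 * L) (2 * L + 1) = 0 := by
      rw [Finsupp.erase_ne (by omega), Finsupp.erase_same]
    rw [h6, coeff_two_step L _ e1 e2] at hu
    have h7 := ih _ hu (by
      intro k hk
      rw [Finsupp.erase_ne (by omega), Finsupp.erase_ne (by omega), Finsupp.erase_ne (by omega),
        Finsupp.erase_ne (by omega)]
      exact h k (by omega))
    rw [h7] at h6
    rw [h6, lam]

theorem mapDomain_half (u : ℕ →₀ ℕ) (k : ℕ) :
    (u.mapDomain fun k => k / 2) k = u (2 * k) + u (2 * k + 1) := by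
  induction u using Finsupp.induction_linear with
  | zero => simp
  | add f g hf hg => rw [Finsupp.mapDomain_add, Finsupp.add_apply, hf, hg, Finsupp.add_apply,
      Finsupp.add_apply]; ring
  | single a b =>
    rw [Finsupp.mapDomain_single, Finsupp.single_apply, Finsupp.single_apply,
      Finsupp.single_apply]
    split_ifs <;> omega

theorem SD_eq_sum (L : ℕ) : SD L = ∑ u ∈ (schur (2 * L) eS3).support,
      monomial (u.mapDomain fun k => k / 2) (coeff u (schur (2 * L) eS3)) := by
  rw [SD]
  conv_lhs => rw [(schur (2 * L) eS3).as_sum, map_sum]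
  refine Finset.sum_congr rfl fun u _ => ?_
  rw [rename_monomial]

/-- The extreme coefficient of the doubled Schur polynomial is one. -/
theorem coeff_SD (L : ℕ) : coeff (dlt L) (SD L) = 1 := by
  rw [SD_eq_sum, coeff_sum]
  have hmap := mapDomain_half
  have hiff : ∀ u ∈ (schur (2 * L) eS3).support,
      coeff (dlt L) (monomial (u.mapDomain fun k => k / 2) (coeff u (schur (2 * L) eS3))) =
        if u = lam L then 1 else 0 := by
    intro u hu
    rw [coeff_monomial]
    by_cases h1 : u = lam L
    · rw [if_pos h1, if_pos, h1, coeff_lam]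
      ext k
      rw [hmap, h1, lam_apply, lam_apply, dlt_apply]
      split_ifs <;> omega
    · rw [if_neg h1, if_neg]
      intro h2
      apply h1
      apply eq_lam L u (mem_support_iff.1 hu)
      intro k hk
      rw [← hmap, h2, dlt_apply, if_pos hk]
  rw [Finset.sum_congr rfl hiff, Finset.sum_ite_eq', if_pos]
  rw [mem_support_iff, coeff_lam]
  exact one_ne_zero

/-- The doubled Schur polynomial is symmetric. -/
theorem SD_perm (L : ℕ) (π : Equiv.Perm ℕ) (hπ : ∀ k, L ≤ k → π k = k) (z : ℕ → ℂ) :
    eval (fun k => z (π k)) (SD L) = eval z (SD L) := by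
  rw [eval_SD, eval_SD]
  -- the doubled permutation
  let σ : Equiv.Perm ℕ :=
    { toFun := fun k => 2 * π (k / 2) + k % 2
      invFun := fun k => 2 * π.symm (k / 2) + k % 2
      left_inv := by
        intro k
        have h1 : (2 * π (k / 2) + k % 2) / 2 = π (k / 2) := by omega
        have h2 : (2 * π (k / 2) + k % 2) % 2 = k % 2 := by omega
        simp only [h1, h2, Equiv.symm_apply_apply]
        omega
      right_inv := by
        intro k
        have h1 : (2 * π.symm (k / 2) + k % 2) / 2 = π.symm (k / 2) := by omega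
        have h2 : (2 * π.symm (k / 2) + k % 2) % 2 = k % 2 := by omega
        simp only [h1, h2, Equiv.apply_symm_apply]
        omega }
  have hσ : ∀ k, σ k = 2 * π (k / 2) + k % 2 := fun k => rfl
  have h := schur_perm (2 * L) eS3 σ (by
    intro k hk
    rw [hσ, hπ (k / 2) (by omega)]
    omega) (fun k => z (k / 2))
  rw [← h]
  congr 1
  congr 1
  funext k
  rw [hσ]
  congr 1
  omega

theorem degreeOf_SD_le (L k : ℕ) : (SD L).degreeOf k ≤ 2 * (L - 1) := by
  rw [SD_eq_sum]
  refine (degreeOf_sum_le _ _ _).trans (Finset.sup_le fun u hu => ?_)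
  have h1 : (monomial (u.mapDomain fun k => k / 2) (coeff u (schur (2 * L) eS3))).degreeOf k ≤
      (u.mapDomain fun k => k / 2) k := by
    rw [degreeOf_eq_sup]
    apply Finset.sup_le
    intro w hw
    have h2 := Finset.mem_of_subset support_monomial_subset hw
    rw [Finset.mem_singleton] at h2
    rw [h2]
  refine h1.trans ?_
  rw [mapDomain_half]
  have h3 : ∀ j, u j ≤ L - 1 := by
    intro j
    refine (monomial_le_degreeOf j hu).trans ?_
    apply degreeOf_schur_le
    intro j hj
    unfold eS3
    omega
  have h4 := h3 (2 * k)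
  have h5 := h3 (2 * k + 1)
  omega

theorem degreeOf_SD_out (L : ℕ) {k : ℕ} (hk : L ≤ k) : (SD L).degreeOf k = 0 := by
  rw [← Nat.le_zero, SD_eq_sum]
  refine (degreeOf_sum_le _ _ _).trans (Finset.sup_le fun u hu => ?_)
  have h1 : (monomial (u.mapDomain fun k => k / 2) (coeff u (schur (2 * L) eS3))).degreeOf k ≤
      (u.mapDomain fun k => k / 2) k := by
    rw [degreeOf_eq_sup]
    apply Finset.sup_le
    intro w hw
    have h2 := Finset.mem_of_subset support_monomial_subset hw
    rw [Finset.mem_singleton] at h2
    rw [h2]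
  refine h1.trans ?_
  rw [mapDomain_half]
  have h3 : ∀ j, 2 * L ≤ j → u j = 0 := by
    intro j hj
    have h4 := monomial_le_degreeOf j hu
    rw [degreeOf_schur_out _ _ hj] at h4
    omega
  rw [h3 _ (by omega), h3 _ (by omega)]

end QSchur

end Pool.Agent.Perc

end PartpercQSchurC

section PartperqRecP

/-!
# Reciprocal polynomials (task RecP)
-/

set_option autoImplicit false

namespace Pool.Agent.Perc

open Finset MvPolynomial

/-- The exponents `N - 1 - d k`, `k < N`. -/
noncomputable def recE (N : ℕ) (d : ℕ →₀ ℕ) : ℕ →₀ ℕ :=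
  ∑ k ∈ range N, Finsupp.single k (N - 1 - d k)

/-- The reciprocal polynomial `∏ z_k ^ (N - 1) · P(1 / z)`. -/
noncomputable def recP (N : ℕ) (P : MvPolynomial ℕ ℂ) : MvPolynomial ℕ ℂ :=
  ∑ d ∈ P.support, monomial (recE N d) (coeff d P)

namespace RecP

theorem recE_apply (N : ℕ) (d : ℕ →₀ ℕ) (k : ℕ) :
    recE N d k = if k < N then N - 1 - d k else 0 := by
  unfold recE
  rw [Finsupp.finsetSum_apply]
  simp only [Finsupp.single_apply]
  rw [Finset.sum_ite_eq' (range N) k (fun j => N - 1 - d j)]
  simp only [Finset.mem_range]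

theorem recE_prod (N : ℕ) (d : ℕ →₀ ℕ) (z : ℕ → ℂ) :
    ((recE N d).prod fun k e => z k ^ e) = ∏ k ∈ range N, z k ^ (N - 1 - d k) := by
  rw [Finsupp.prod_of_support_subset (s := range N)]
  · refine Finset.prod_congr rfl fun k hk => ?_
    rw [recE_apply, if_pos (Finset.mem_range.1 hk)]
  · intro k hk
    rw [Finset.mem_range]
    by_contra hc
    rw [Finsupp.mem_support_iff, recE_apply, if_neg hc] at hk
    exact hk rfl
  · intro k _
    exact pow_zero _

theorem eval_recP_eq (N : ℕ) (P : MvPolynomial ℕ ℂ) (z : ℕ → ℂ) :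
    eval z (recP N P) = ∑ d ∈ P.support, coeff d P * ∏ k ∈ range N, z k ^ (N - 1 - d k) := by
  unfold recP
  rw [map_sum]
  refine Finset.sum_congr rfl fun d _ => ?_
  rw [eval_monomial, recE_prod]

end RecP

open RecP

theorem eval_recP (N : ℕ) {P : MvPolynomial ℕ ℂ} (h : ∀ k < N, P.degreeOf k ≤ N - 1)
    (h' : ∀ k, N ≤ k → P.degreeOf k = 0) {z : ℕ → ℂ} (hz : ∀ k < N, z k ≠ 0) :
    eval z (recP N P) = (∏ k ∈ range N, z k ^ (N - 1)) * eval (fun k => (z k)⁻¹) P := by
  rw [eval_recP_eq, eval_eq, Finset.mul_sum]
  refine Finset.sum_congr rfl fun d hd => ?_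
  have hsub : d.support ⊆ range N := by
    intro k hk
    rw [Finset.mem_range]
    by_contra hc
    have h1 : d k ≤ P.degreeOf k := MvPolynomial.monomial_le_degreeOf k hd
    rw [h' k (not_lt.1 hc)] at h1
    exact (Finsupp.mem_support_iff.1 hk) (Nat.le_zero.1 h1)
  have h2 : (∏ i ∈ d.support, (z i)⁻¹ ^ d i) = ∏ i ∈ range N, (z i)⁻¹ ^ d i := by
    refine Finset.prod_subset hsub fun k _ hk => ?_
    rw [Finsupp.notMem_support_iff.1 hk, pow_zero]
  rw [h2]
  have h3 : (∏ k ∈ range N, z k ^ (N - 1 - d k))
      = (∏ k ∈ range N, z k ^ (N - 1)) * ∏ i ∈ range N, (z i)⁻¹ ^ d i := by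
    rw [← Finset.prod_mul_distrib]
    refine Finset.prod_congr rfl fun k hk => ?_
    have hk' := Finset.mem_range.1 hk
    have h4 : d k ≤ N - 1 := (MvPolynomial.monomial_le_degreeOf k hd).trans (h k hk')
    rw [inv_pow, ← div_eq_mul_inv, pow_sub₀ _ (hz k hk') h4, div_eq_mul_inv]
  rw [h3]
  ring

theorem eval_one_recP (N : ℕ) (P : MvPolynomial ℕ ℂ) :
    eval (fun _ => 1) (recP N P) = eval (fun _ => 1) P := by
  rw [eval_recP_eq, eval_eq]
  simp

theorem degreeOf_recP_le (N : ℕ) (P : MvPolynomial ℕ ℂ) (k : ℕ) :
    (recP N P).degreeOf k ≤ N - 1 := by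
  unfold recP
  refine (MvPolynomial.degreeOf_sum_le k P.support _).trans ?_
  refine Finset.sup_le fun d _ => ?_
  refine (MvPolynomial.degreeOf_le_iff).2 fun e he => ?_
  have he' : e = recE N d := by
    have := MvPolynomial.support_monomial_subset he
    exact Finset.mem_singleton.1 this
  rw [he', recE_apply]
  split_ifs
  · exact Nat.sub_le _ _
  · exact Nat.zero_le _

theorem degreeOf_recP_out (N : ℕ) (P : MvPolynomial ℕ ℂ) {k : ℕ} (hk : N ≤ k) :
    (recP N P).degreeOf k = 0 := by
  refine Nat.le_zero.1 ?_
  unfold recP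
  refine (MvPolynomial.degreeOf_sum_le k P.support _).trans ?_
  refine Finset.sup_le fun d _ => ?_
  refine (MvPolynomial.degreeOf_le_iff).2 fun e he => ?_
  have he' : e = recE N d := by
    have := MvPolynomial.support_monomial_subset he
    exact Finset.mem_singleton.1 this
  rw [he', recE_apply, if_neg (not_lt.2 hk)]

/-- Exponents which never reach `2 (N - 1)` in two variables: the reciprocal polynomial vanishes
when two variables vanish. -/
theorem eval_recP_eq_zero (N : ℕ) {P : MvPolynomial ℕ ℂ} {i j : ℕ} (hij : i ≠ j) (hi : i < N)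
    (hj : j < N) (h : ∀ d ∈ P.support, d i + d j < 2 * (N - 1)) {z : ℕ → ℂ} (hzi : z i = 0)
    (hzj : z j = 0) : eval z (recP N P) = 0 := by
  have _ := hij
  rw [eval_recP_eq]
  refine Finset.sum_eq_zero fun d hd => ?_
  have h1 := h d hd
  have h2 : d i < N - 1 ∨ d j < N - 1 := by omega
  rcases h2 with h2 | h2
  · rw [Finset.prod_eq_zero (Finset.mem_range.2 hi), mul_zero]
    rw [hzi, zero_pow]
    omega
  · rw [Finset.prod_eq_zero (Finset.mem_range.2 hj), mul_zero]
    rw [hzj, zero_pow]
    omega

/-- Two polynomials in the first `N` variables which agree when no variable vanishes are equal. -/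
theorem eval_eq_of_forall_ne_zero (N : ℕ) {P Q : MvPolynomial ℕ ℂ}
    (h : ∀ z : ℕ → ℂ, (∀ k, z k ≠ 0) → eval z P = eval z Q) : P = Q := by
  have _ := N
  have key : (∏ k ∈ P.vars ∪ Q.vars, (X k : MvPolynomial ℕ ℂ)) * P
      = (∏ k ∈ P.vars ∪ Q.vars, (X k : MvPolynomial ℕ ℂ)) * Q := by
    refine MvPolynomial.funext fun z => ?_
    rw [map_mul, map_mul, map_prod]
    simp only [eval_X]
    by_cases hz : ∀ k ∈ P.vars ∪ Q.vars, z k ≠ 0
    · congr 1
      classical
      let z' : ℕ → ℂ := fun k => if k ∈ P.vars ∪ Q.vars then z k else 1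
      have hP : eval z P = eval z' P := by
        refine MvPolynomial.eval₂Hom_congr' rfl (fun k hk _ => ?_) rfl
        have : k ∈ P.vars ∪ Q.vars := Finset.mem_union_left _ hk
        show z k = if k ∈ P.vars ∪ Q.vars then z k else 1
        rw [if_pos this]
      have hQ : eval z Q = eval z' Q := by
        refine MvPolynomial.eval₂Hom_congr' rfl (fun k hk _ => ?_) rfl
        have : k ∈ P.vars ∪ Q.vars := Finset.mem_union_right _ hk
        show z k = if k ∈ P.vars ∪ Q.vars then z k else 1
        rw [if_pos this]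
      rw [hP, hQ]
      refine h z' fun k => ?_
      show (if k ∈ P.vars ∪ Q.vars then z k else 1) ≠ 0
      split_ifs with hk
      · exact hz k hk
      · exact one_ne_zero
    · push Not at hz
      obtain ⟨k, hk, hk0⟩ := hz
      rw [Finset.prod_eq_zero hk hk0, zero_mul, zero_mul]
  refine mul_left_cancel₀ ?_ key
  exact Finset.prod_ne_zero_iff.2 fun k _ => X_ne_zero k

end Pool.Agent.Perc

end PartperqRecP

section PartperqPairDefs2

/-!
# The pairing of states: definitions

`s' : St` is the state of the lower half of the cylinder, `s : St` the state of the upper half. The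
loops are the classes of the relation generated by `x ∼ s'.1 x` and `x ∼ s.1 x`. For a loop `K` let
`α` be the parity of the number of arcs of `s'` in `K` with label `true` and `β` the same for `s`.
The pairing is the product over the loops of `(-1) ^ (α β)`.
-/

set_option autoImplicit false

namespace Pool.Agent.Perc

open Finset

/-- Close the sites `i`, `i + 1` by a small arc and remove them. -/
def capL (i : ℕ) (s : St) : St :=
  (delArc i (eAct i s.1), fun x => (eL i s).2 (if x < i then x else x + 2))

open Classical in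
/-- The number of pairs of even sites on the same loop, the first one with label `true` in the
lower state, the second one with label `true` in the upper state. -/
noncomputable def loopN (L : ℕ) (s' s : St) : ℕ :=
  ((range L ×ˢ range L).filter fun t => t.1 % 2 = 0 ∧ t.2 % 2 = 0 ∧ s'.2 t.1 = true ∧
    s.2 t.2 = true ∧ LoopR s' s t.1 t.2).card

/-- The pairing of two states. -/
noncomputable def BS (L : ℕ) (s' s : St) : ℂ := (-1) ^ loopN L s' s

end Pool.Agent.Perc

end PartperqPairDefs2
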