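import Pool.Agent.Lib.MP_6bd702_z.Z097
import Pool.Agent.Lib.MP_6bd702_z.Z076
import Pool.Agent.Lib.MP_6bd702_z.Z095
import Pool.Agent.Lib.MP_6bd702_z.Z049
import Pool.Agent.Lib.MP_6bd702_z.Z062
import Pool.Agent.Lib.MP_6bd702_z.Z063
import Pool.Agent.Lib.MP_6bd702_z.Z094

section PartperqPairC

/-!
# The pairing of states: generators, seam, rotation (task PairC)
-/

set_option autoImplicit false

namespace Pool.Agent.Perc

open Finset

variable {N : ℕ} {s s' : St}

namespace PairC

variable {t t' : St}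

theorem loopR_map (h' : IsAnn N s') (h : IsAnn N s) (f : ℕ → ℕ)
    (h1 : ∀ x < N, t'.1 (f x) = f (s'.1 x)) (h2 : ∀ x < N, t.1 (f x) = f (s.1 x))
    {x y : ℕ} (hx : x < N) (hxy : LoopR s' s x y) : LoopR t' t (f x) (f y) := by
  unfold LoopR at hxy ⊢
  induction hxy with
  | refl => exact Relation.ReflTransGen.refl
  | @tail b c hab hbc ih =>
    have hb : b < N := loopR_lt h' h hx hab
    refine Relation.ReflTransGen.tail ih ?_
    rcases hbc with hbc | hbc
    · left
      rw [hbc, h1 _ hb]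
    · right
      rw [hbc, h2 _ hb]

theorem loopR_map_conv (h' : IsAnn N s') (h : IsAnn N s) (f : ℕ → ℕ)
    (h1 : ∀ x < N, t'.1 (f x) = f (s'.1 x)) (h2 : ∀ x < N, t.1 (f x) = f (s.1 x))
    {x z : ℕ} (hx : x < N) (hxz : LoopR t' t (f x) z) : ∃ y < N, z = f y ∧ LoopR s' s x y := by
  unfold LoopR at hxz
  induction hxz with
  | refl => exact ⟨x, hx, rfl, Relation.ReflTransGen.refl⟩
  | @tail b c hab hbc ih =>
    obtain ⟨y, hy, rfl, hxy⟩ := ih
    rcases hbc with hbc | hbc
    · exact ⟨s'.1 y, h'.nc.lt y hy, by rw [hbc, h1 _ hy],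
        Relation.ReflTransGen.tail hxy (Or.inl rfl)⟩
    · exact ⟨s.1 y, h.nc.lt y hy, by rw [hbc, h2 _ hy],
        Relation.ReflTransGen.tail hxy (Or.inr rfl)⟩

theorem loopR_map_iff (h' : IsAnn N s') (h : IsAnn N s) (f : ℕ → ℕ)
    (hf : ∀ x < N, ∀ y < N, f x = f y → x = y)
    (h1 : ∀ x < N, t'.1 (f x) = f (s'.1 x)) (h2 : ∀ x < N, t.1 (f x) = f (s.1 x))
    {x y : ℕ} (hx : x < N) (hy : y < N) : LoopR t' t (f x) (f y) ↔ LoopR s' s x y := by
  constructor
  · intro hxy
    obtain ⟨z, hz, hfz, hxz⟩ := loopR_map_conv h' h f h1 h2 hx hxy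
    rw [hf y hy z hz hfz]
    exact hxz
  · exact loopR_map h' h f h1 h2 hx

/-! ### The seam -/

theorem cupO_succ (p : ℕ → ℕ) {x : ℕ} (hx : x < N) : cupO N p (x + 1) = p x + 1 := by
  unfold cupO
  rw [if_neg (by omega), if_neg (by omega), if_pos (by omega)]
  rfl

theorem cupL_snd_succ (s : St) {x : ℕ} (hx : x < N) : (cupL N s).2 (x + 1) = s.2 x := by
  change (if x + 1 = 0 ∨ x + 1 = N + 1 then true
    else if x + 1 < N + 1 then s.2 (x + 1 - 1) else false) = _
  rw [if_neg (by omega), if_pos (by omega)]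
  rfl

theorem cup_class (s' s : St) {x : ℕ} (hx : LoopR (cupL N s') (cupL N s) 0 x) :
    x = 0 ∨ x = N + 1 := by
  unfold LoopR at hx
  induction hx with
  | refl => exact Or.inl rfl
  | @tail b c hab hbc ih =>
    have key : ∀ p : ℕ → ℕ, cupO N p b = 0 ∨ cupO N p b = N + 1 := by
      intro p
      unfold cupO
      rcases ih with rfl | rfl
      · exact Or.inr (if_pos rfl)
      · left
        rw [if_neg (by omega), if_pos rfl]
    rcases hbc with hbc | hbc
    · rw [hbc]
      exact key s'.1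
    · rw [hbc]
      exact key s.1

theorem loopN_cup (h' : IsAnn N s') (h : IsAnn N s) :
    loopN (N + 2) (cupL N s') (cupL N s) = loopN N s' s + 1 := by
  classical
  have hN : N % 2 = 0 := h.nc.even
  have heq := loopR_equivalence h'.cupL h.cupL
  rw [loopN_odd h' h]
  unfold loopN
  have hset : ((range (N + 2) ×ˢ range (N + 2)).filter fun t => t.1 % 2 = 0 ∧ t.2 % 2 = 0 ∧
      (cupL N s').2 t.1 = true ∧ (cupL N s).2 t.2 = true ∧
      LoopR (cupL N s') (cupL N s) t.1 t.2) =
      insert (0, 0) (((range N ×ˢ range N).filter fun t => t.1 % 2 = 1 ∧ t.2 % 2 = 1 ∧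
        s'.2 t.1 = true ∧ s.2 t.2 = true ∧ LoopR s' s t.1 t.2).image
        fun t => (t.1 + 1, t.2 + 1)) := by
    ext ⟨x, y⟩
    simp only [mem_filter, mem_product, mem_range, mem_insert, mem_image, Prod.mk.injEq,
      Prod.exists]
    constructor
    · rintro ⟨⟨hx, hy⟩, hx2, hy2, hlx, hly, hxy⟩
      rcases Nat.eq_zero_or_pos x with rfl | hx0
      · left
        refine ⟨rfl, ?_⟩
        rcases cup_class s' s hxy with h1 | h1
        · exact h1
        · omega
      · rcases Nat.eq_zero_or_pos y with rfl | hy0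
        · exfalso
          rcases cup_class s' s (heq.symm hxy) with h1 | h1 <;> omega
        · right
          refine ⟨x - 1, y - 1, ⟨⟨by omega, by omega⟩, by omega, by omega, ?_, ?_, ?_⟩,
            by omega, by omega⟩
          · rw [← cupL_snd_succ (N := N) s' (by omega : x - 1 < N),
              show x - 1 + 1 = x by omega]
            exact hlx
          · rw [← cupL_snd_succ (N := N) s (by omega : y - 1 < N),
              show y - 1 + 1 = y by omega]
            exact hly
          · rw [← loopR_map_iff (t' := cupL N s') (t := cupL N s) h' h (fun x => x + 1)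
              (fun x _ y _ e => by simpa using e) (fun x hx => cupO_succ s'.1 hx)
              (fun x hx => cupO_succ s.1 hx) (by omega : x - 1 < N) (by omega : y - 1 < N)]
            rw [show x - 1 + 1 = x by omega, show y - 1 + 1 = y by omega]
            exact hxy
    · rintro (⟨rfl, rfl⟩ | ⟨a, b, ⟨⟨ha, hb⟩, ha2, hb2, hla, hlb, hab⟩, rfl, rfl⟩)
      · exact ⟨⟨by omega, by omega⟩, rfl, rfl, rfl, rfl, heq.refl 0⟩
      · refine ⟨⟨by omega, by omega⟩, by omega, by omega, ?_, ?_, ?_⟩
        · rw [cupL_snd_succ s' ha]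
          exact hla
        · rw [cupL_snd_succ s hb]
          exact hlb
        · exact (loopR_map_iff (t' := cupL N s') (t := cupL N s) h' h (fun x => x + 1)
              (fun x _ y _ e => by simpa using e) (fun x hx => cupO_succ s'.1 hx)
              (fun x hx => cupO_succ s.1 hx) ha hb).2 hab
  rw [hset, card_insert_of_notMem, card_image_of_injective]
  · rintro ⟨a, b⟩ ⟨c, d⟩ e
    simp only [Prod.mk.injEq] at e
    exact Prod.ext (by simpa using e.1) (by simpa using e.2)
  · simp

/-! ### Rotation -/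

/-- The new position of the old site. -/
def rs (N x : ℕ) : ℕ := if x = 0 then N - 1 else x - 1

/-- The old position of the new site. -/
def rn (N x : ℕ) : ℕ := if x + 1 = N then 0 else x + 1

theorem rotP_rs (hN : 0 < N) (p : ℕ → ℕ) {x : ℕ} (hx : x < N) :
    rotP N p (rs N x) = rs N (p x) := by
  have h1 : rs N x < N := by
    unfold rs
    split_ifs <;> omega
  have h2 : (if rs N x + 1 = N then 0 else rs N x + 1) = x := by
    unfold rs
    split_ifs <;> omega
  change (if rs N x < N then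
    (if p (if rs N x + 1 = N then 0 else rs N x + 1) = 0 then N - 1
      else p (if rs N x + 1 = N then 0 else rs N x + 1) - 1) else rs N x) = rs N (p x)
  rw [if_pos h1, h2]
  rfl

theorem rs_inj (x : ℕ) (hx : x < N) (y : ℕ) (hy : y < N) (e : rs N x = rs N y) : x = y := by
  unfold rs at e
  split_ifs at e <;> omega

theorem rotL_snd_rs (h : IsAnn N s) (hN : 0 < N) {x : ℕ} (hx : x < N) :
    (rotL N s).2 (rs N x) = xor (s.2 x) (decide (x = 0 ∨ s.1 x = 0)) := by
  have hev := h.nc.even
  change (if rs N x < N then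
    (if rs N x + 1 = N ∨ s.1 (rs N x + 1) = 0 then
      !s.2 (if rs N x + 1 = N then 0 else rs N x + 1) else s.2 (rs N x + 1))
    else false) = _
  rcases Nat.eq_zero_or_pos x with rfl | hx0
  · have : rs N 0 + 1 = N := by
      unfold rs
      rw [if_pos rfl]
      omega
    rw [if_pos (by omega), if_pos (Or.inl this), if_pos this]
    simp
  · have h1 : rs N x + 1 = x := by
      unfold rs
      rw [if_neg (by omega)]
      omega
    rw [if_pos (by omega), h1]
    have h2 : ¬ x = N := by omega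
    have h3 : ¬ x = 0 := by omega
    rw [if_neg h2]
    by_cases h4 : s.1 x = 0
    · rw [if_pos (Or.inr h4)]
      simp [h4]
    · rw [if_neg (by tauto)]
      simp [h3, h4]

theorem loopR_rot (hN : 0 < N) (h' : IsAnn N s') (h : IsAnn N s) {x y : ℕ} (hx : x < N)
    (hy : y < N) : LoopR (rotL N s') (rotL N s) (rs N x) (rs N y) ↔ LoopR s' s x y :=
  loopR_map_iff h' h (rs N) rs_inj (fun _ hx => rotP_rs hN s'.1 hx)
    (fun _ hx => rotP_rs hN s.1 hx) hx hy

open Classical in
/-- The pairs of the rotated states. -/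
theorem loopN_rot (hN : 0 < N) (h' : IsAnn N s') (h : IsAnn N s) :
    loopN N (rotL N s') (rotL N s) = ((range N ×ˢ range N).filter fun t =>
      t.1 % 2 = 1 ∧ t.2 % 2 = 1 ∧ xor (s'.2 t.1) (decide (s'.1 t.1 = 0)) = true ∧
        xor (s.2 t.2) (decide (s.1 t.2 = 0)) = true ∧ LoopR s' s t.1 t.2).card := by
  have hev : N % 2 = 0 := h.nc.even
  unfold loopN
  symm
  refine card_bij (fun t _ => (rs N t.1, rs N t.2)) ?_ ?_ ?_
  · rintro ⟨x, y⟩ ht
    simp only [mem_filter, mem_product, mem_range] at ht ⊢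
    obtain ⟨⟨hx, hy⟩, hx2, hy2, hlx, hly, hxy⟩ := ht
    have hx0 : ¬ x = 0 := by
      rintro rfl
      omega
    have hy0 : ¬ y = 0 := by
      rintro rfl
      omega
    have e1 : rs N x = x - 1 := if_neg hx0
    have e2 : rs N y = y - 1 := if_neg hy0
    refine ⟨⟨by omega, by omega⟩, by omega, by omega, ?_, ?_, (loopR_rot hN h' h hx hy).2 hxy⟩
    · rw [rotL_snd_rs h' hN hx]
      simpa [hx0] using hlx
    · rw [rotL_snd_rs h hN hy]
      simpa [hy0] using hly
  · rintro ⟨x, y⟩ ht ⟨x', y'⟩ ht' e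
    simp only [mem_filter, mem_product, mem_range] at ht ht'
    simp only [Prod.mk.injEq] at e
    exact Prod.ext (rs_inj x ht.1.1 x' ht'.1.1 e.1) (rs_inj y ht.1.2 y' ht'.1.2 e.2)
  · rintro ⟨x, y⟩ ht
    simp only [mem_filter, mem_product, mem_range] at ht
    obtain ⟨⟨hx, hy⟩, hx2, hy2, hlx, hly, hxy⟩ := ht
    have e1 : rs N (x + 1) = x := by
      unfold rs
      rw [if_neg (by omega)]
      omega
    have e2 : rs N (y + 1) = y := by
      unfold rs
      rw [if_neg (by omega)]
      omega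
    refine ⟨(x + 1, y + 1), ?_, ?_⟩
    · simp only [mem_filter, mem_product, mem_range]
      refine ⟨⟨by omega, by omega⟩, by omega, by omega, ?_, ?_, ?_⟩
      · have := rotL_snd_rs h' hN (x := x + 1) (by omega)
        rw [e1, hlx] at this
        simpa using this.symm
      · have := rotL_snd_rs h hN (x := y + 1) (by omega)
        rw [e2, hly] at this
        simpa using this.symm
      · rw [← loopR_rot hN h' h (by omega) (by omega), e1, e2]
        exact hxy
    · simp only [e1, e2]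

/-- The parity of the number of pairs of the rotated states. -/
theorem loopN_rot_mod (hN : 0 < N) (h' : IsAnn N s') (h : IsAnn N s) :
    (loopN N (rotL N s') (rotL N s) : ZMod 2) =
      ((loopN N s' s + (loopA N s' s 0 + loopB N s' s 0 + 1) : ℕ) : ZMod 2) := by
  classical
  have heq := loopR_equivalence h' h
  have hx1 : s'.1 0 < N := h'.nc.lt 0 hN
  have hy1 : s.1 0 < N := h.nc.lt 0 hN
  have hx1p := h'.nc.parity hN
  have hy1p := h.nc.parity hN
  have hx1r : LoopR s' s 0 (s'.1 0) := Relation.ReflTransGen.single (Or.inl rfl)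
  have hy1r : LoopR s' s 0 (s.1 0) := Relation.ReflTransGen.single (Or.inr rfl)
  have hiff' : ∀ x, s'.1 x = 0 ↔ x = s'.1 0 := fun x =>
    ⟨fun e => by rw [← e, h'.nc.inv], fun e => by rw [e, h'.nc.inv]⟩
  have hiff : ∀ x, s.1 x = 0 ↔ x = s.1 0 := fun x =>
    ⟨fun e => by rw [← e, h.nc.inv], fun e => by rw [e, h.nc.inv]⟩
  rw [loopN_rot hN h' h, loopN_odd h' h, loopA_odd h' h, loopB_odd h' h]
  have hA : (((range N).filter fun x => x % 2 = 1 ∧ s'.2 x = true ∧ LoopR s' s 0 x).card : ZMod 2)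
      = ∑ t ∈ range N ×ˢ range N, if (t.1 % 2 = 1 ∧ s'.2 t.1 = true ∧ LoopR s' s 0 t.1) ∧
        t.2 = s.1 0 then (1 : ZMod 2) else 0 := by
    rw [sum_product, card_filter]
    push_cast
    refine sum_congr rfl fun x _ => ?_
    by_cases hc : x % 2 = 1 ∧ s'.2 x = true ∧ LoopR s' s 0 x
    · rw [if_pos hc]
      rw [sum_eq_single (s.1 0)]
      · rw [if_pos ⟨hc, rfl⟩]
      · intro b _ hb
        exact if_neg fun hh => hb hh.2
      · intro hh
        exact absurd (mem_range.2 hy1) hh
    · rw [if_neg hc]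
      symm
      exact sum_eq_zero fun b _ => if_neg fun hh => hc hh.1
  have hB : (((range N).filter fun x => x % 2 = 1 ∧ s.2 x = true ∧ LoopR s' s 0 x).card : ZMod 2)
      = ∑ t ∈ range N ×ˢ range N, if (t.2 % 2 = 1 ∧ s.2 t.2 = true ∧ LoopR s' s 0 t.2) ∧
        t.1 = s'.1 0 then (1 : ZMod 2) else 0 := by
    rw [sum_product_right, card_filter]
    push_cast
    refine sum_congr rfl fun x _ => ?_
    by_cases hc : x % 2 = 1 ∧ s.2 x = true ∧ LoopR s' s 0 x
    · rw [if_pos hc]
      rw [sum_eq_single (s'.1 0)]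
      · rw [if_pos ⟨hc, rfl⟩]
      · intro b _ hb
        exact if_neg fun hh => hb hh.2
      · intro hh
        exact absurd (mem_range.2 hx1) hh
    · rw [if_neg hc]
      symm
      exact sum_eq_zero fun b _ => if_neg fun hh => hc hh.1
  have h1 : ∑ t ∈ range N ×ˢ range N,
      (if t = (s'.1 0, s.1 0) then (1 : ZMod 2) else 0) = 1 := by
    rw [sum_ite_eq' , if_pos (mem_product.2 ⟨mem_range.2 hx1, mem_range.2 hy1⟩)]
  push_cast
  rw [hA, hB, card_filter, card_filter]
  push_cast
  refine Eq.trans ?_ (congrArg (fun w => _ + (_ + _ + w)) h1)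
  rw [← sum_add_distrib, ← sum_add_distrib, ← sum_add_distrib]
  refine sum_congr rfl ?_
  rintro ⟨x, y⟩ hxy
  dsimp only
  have e1 : decide (s'.1 x = 0) = decide (x = s'.1 0) := decide_eq_decide.2 (hiff' x)
  have e2 : decide (s.1 y = 0) = decide (y = s.1 0) := decide_eq_decide.2 (hiff y)
  have h11 : (1 : ZMod 2) + 1 = 0 := by decide
  rw [e1, e2]
  by_cases px : x = s'.1 0
  · have hxo : x % 2 = 1 := by omega
    have hrx : LoopR s' s 0 x := by
      rw [px]
      exact hx1r
    by_cases py : y = s.1 0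
    · have hyo : y % 2 = 1 := by omega
      have hry : LoopR s' s 0 y := by
        rw [py]
        exact hy1r
      have hrxy : LoopR s' s x y := heq.trans (heq.symm hrx) hry
      have hp : (x, y) = (s'.1 0, s.1 0) := Prod.ext px py
      have d1 : decide (x = s'.1 0) = true := decide_eq_true px
      have d2 : decide (y = s.1 0) = true := decide_eq_true py
      rw [d1, d2, if_pos hp]
      cases hax : s'.2 x <;> cases hay : s.2 y <;>
        simp only [hxo, hyo, hrx, hry, hrxy, px.symm, py.symm, h11, Bool.xor_true, Bool.not_true,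
          Bool.not_false, if_true, if_false, and_true, and_false,
          reduceCtorEq, add_zero, zero_add]
    · have hp : ¬ (x, y) = (s'.1 0, s.1 0) := fun e => py (Prod.mk.inj e).2
      have d1 : decide (x = s'.1 0) = true := decide_eq_true px
      have d2 : decide (y = s.1 0) = false := decide_eq_false py
      have hrr : LoopR s' s x y ↔ LoopR s' s 0 y :=
        ⟨fun r => heq.trans hrx r, fun r => heq.trans (heq.symm hrx) r⟩
      rw [d1, d2, if_neg hp]
      cases hax : s'.2 x <;> cases hay : s.2 y <;>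
        simp only [hxo, hrx, hrr, px.symm, py, Bool.xor_true, Bool.xor_false, Bool.not_true,
          Bool.not_false, if_false, true_and, and_true, and_false, false_and,
          reduceCtorEq, add_zero, zero_add]
      split_ifs <;> simp [h11]
  · by_cases py : y = s.1 0
    · have hyo : y % 2 = 1 := by omega
      have hry : LoopR s' s 0 y := by
        rw [py]
        exact hy1r
      have hp : ¬ (x, y) = (s'.1 0, s.1 0) := fun e => px (Prod.mk.inj e).1
      have d1 : decide (x = s'.1 0) = false := decide_eq_false px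
      have d2 : decide (y = s.1 0) = true := decide_eq_true py
      have hrr : LoopR s' s x y ↔ LoopR s' s 0 x :=
        ⟨fun r => heq.trans hry (heq.symm r), fun r => heq.trans (heq.symm r) hry⟩
      rw [d1, d2, if_neg hp]
      cases hax : s'.2 x <;> cases hay : s.2 y <;>
        simp only [hyo, hry, hrr, px, py.symm, Bool.xor_true, Bool.xor_false, Bool.not_true,
          Bool.not_false, if_false, true_and, and_true, and_false, false_and,
          reduceCtorEq, add_zero, zero_add]
      split_ifs <;> simp [h11]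
    · have hp : ¬ (x, y) = (s'.1 0, s.1 0) := fun e => px (Prod.mk.inj e).1
      have d1 : decide (x = s'.1 0) = false := decide_eq_false px
      have d2 : decide (y = s.1 0) = false := decide_eq_false py
      rw [d1, d2, if_neg hp, Bool.xor_false, Bool.xor_false]
      rw [if_neg (fun hh => py hh.2 :
          ¬ ((x % 2 = 1 ∧ s'.2 x = true ∧ LoopR s' s 0 x) ∧ y = s.1 0)),
        if_neg (fun hh => px hh.2 :
          ¬ ((y % 2 = 1 ∧ s.2 y = true ∧ LoopR s' s 0 y) ∧ x = s'.1 0))]
      ring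

end PairC

/-- The generators are self-adjoint. -/
theorem BS_eL (h' : IsAnn N s') (h : IsAnn N s) {i : ℕ} (hi : i + 1 < N) :
    BS N (eL i s') s = BS N s' (eL i s) := by
  obtain ⟨M, rfl⟩ : ∃ M, N = M + 2 := ⟨N - 2, by omega⟩
  have hi' : i ≤ M := by omega
  rw [← insL_capL h' hi', ← insL_capL h hi', BS_comm ((h'.capL hi').insL hi') h,
    BS_insL h (h'.capL hi') hi', BS_insL h' (h.capL hi') hi', BS_comm (h.capL hi') (h'.capL hi')]

theorem BS_insL_insL (h' : IsAnn N s') (h : IsAnn N s) {i : ℕ} (hi : i ≤ N) :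
    BS (N + 2) (insL i s') (insL i s) = BS N s' s := by
  rw [BS_insL (h'.insL hi) h hi, capL_insL h' hi]

/-- A loop around the seam point has the weight `-1`. -/
theorem BS_cupL_cupL (h' : IsAnn N s') (h : IsAnn N s) :
    BS (N + 2) (cupL N s') (cupL N s) = -BS N s' s := by
  unfold BS
  rw [PairC.loopN_cup h' h, pow_succ]
  ring

/-- Moving the seam over the site `0`. -/
theorem BS_rotL (hN : 0 < N) (h' : IsAnn N s') (h : IsAnn N s) :
    BS N (rotL N s') (rotL N s) = BS N s' s * (-1) ^ (loopA N s' s 0 + loopB N s' s 0 + 1) := by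
  unfold BS
  have h1 := (ZMod.natCast_eq_natCast_iff' _ _ _).1 (PairC.loopN_rot_mod hN h' h)
  rw [← pow_add, neg_one_pow_eq_pow_mod_two, h1, ← neg_one_pow_eq_pow_mod_two]

open Classical in
theorem BS_add_BS_rotL (hN : 0 < N) (h' : IsAnn N s') (h : IsAnn N s) :
    BS N s' s + BS N (rotL N s') (rotL N s) = if NCat N s' s 0 then 2 * BS N s' s else 0 := by
  rw [BS_rotL hN h' h]
  unfold NCat
  split_ifs with hc
  · rw [Even.neg_one_pow (by rw [Nat.even_iff]; omega)]
    ring
  · rw [Odd.neg_one_pow (by rw [Nat.odd_iff]; omega)]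
    ring

theorem BS_zero (s' s : St) : BS 0 s' s = 1 := by
  unfold BS loopN
  simp

end Pool.Agent.Perc

end PartperqPairC

section PartperqPairE

/-!
# The pairing of vectors (task PairE)
-/

set_option autoImplicit false

namespace Pool.Agent.Perc

open Finset

variable {N : ℕ}

/-- Vectors supported on states. -/
def SuppA (N : ℕ) (f : St →₀ ℂ) : Prop := ∀ s, f s ≠ 0 → IsAnn N s

/-- The bilinear extension of the pairing. -/
noncomputable def BV (N : ℕ) (f g : St →₀ ℂ) : ℂ :=
  ∑ s' ∈ anns N, ∑ s ∈ anns N, f s' * g s * BS N s' s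

theorem SuppA.add {f g : St →₀ ℂ} (hf : SuppA N f) (hg : SuppA N g) : SuppA N (f + g) := by
  intro s hs
  by_cases h : f s = 0
  · refine hg s fun h' => hs ?_
    rw [Finsupp.add_apply, h, h', add_zero]
  · exact hf s h

theorem SuppA.smul {f : St →₀ ℂ} (hf : SuppA N f) (c : ℂ) : SuppA N (c • f) := by
  intro s hs
  refine hf s fun h => hs ?_
  rw [Finsupp.smul_apply, h, smul_zero]

theorem PairE.support_subset {f : St →₀ ℂ} (hf : SuppA N f) : f.support ⊆ anns N := by
  intro s hs
  rw [mem_anns]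
  exact hf s (Finsupp.mem_support_iff.1 hs)

theorem SuppA.mapDomain {M : ℕ} {f : St →₀ ℂ} (hf : SuppA N f) {φ : St → St}
    (hφ : ∀ s, IsAnn N s → IsAnn M (φ s)) : SuppA M (f.mapDomain φ) := by
  classical
  intro s hs
  have h1 : s ∈ (f.mapDomain φ).support := Finsupp.mem_support_iff.2 hs
  obtain ⟨t, ht, rfl⟩ := Finset.mem_image.1 (Finsupp.mapDomain_support h1)
  exact hφ t (hf t (Finsupp.mem_support_iff.1 ht))

/-- Sums over the states of a push-forward. -/
theorem sum_mapDomain {M : ℕ} {f : St →₀ ℂ} (hf : SuppA N f) {φ : St → St}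
    (hφ : ∀ s, IsAnn N s → IsAnn M (φ s)) (h : St → ℂ) :
    ∑ s ∈ anns M, f.mapDomain φ s * h s = ∑ s ∈ anns N, f s * h (φ s) := by
  have h1 : (f.mapDomain φ).sum (fun s c => c * h s) = f.sum fun s c => c * h (φ s) :=
    Finsupp.sum_mapDomain_index (fun b => by simp) (fun b m₁ m₂ => by ring)
  rw [Finsupp.sum_of_support_subset _ (PairE.support_subset (hf.mapDomain hφ)) _
    (fun s _ => by simp),
    Finsupp.sum_of_support_subset _ (PairE.support_subset hf) _ (fun s _ => by simp)] at h1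
  exact h1

theorem BV_add_left (f g h : St →₀ ℂ) : BV N (f + g) h = BV N f h + BV N g h := by
  unfold BV
  rw [← sum_add_distrib]
  refine sum_congr rfl fun s' _ => ?_
  rw [← sum_add_distrib]
  refine sum_congr rfl fun s _ => ?_
  rw [Finsupp.add_apply]
  ring

theorem BV_add_right (f g h : St →₀ ℂ) : BV N f (g + h) = BV N f g + BV N f h := by
  unfold BV
  rw [← sum_add_distrib]
  refine sum_congr rfl fun s' _ => ?_
  rw [← sum_add_distrib]
  refine sum_congr rfl fun s _ => ?_
  rw [Finsupp.add_apply]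
  ring

theorem BV_smul_left (c : ℂ) (f g : St →₀ ℂ) : BV N (c • f) g = c * BV N f g := by
  unfold BV
  rw [mul_sum]
  refine sum_congr rfl fun s' _ => ?_
  rw [mul_sum]
  refine sum_congr rfl fun s _ => ?_
  rw [Finsupp.smul_apply, smul_eq_mul]
  ring

theorem BV_smul_right (c : ℂ) (f g : St →₀ ℂ) : BV N f (c • g) = c * BV N f g := by
  unfold BV
  rw [mul_sum]
  refine sum_congr rfl fun s' _ => ?_
  rw [mul_sum]
  refine sum_congr rfl fun s _ => ?_
  rw [Finsupp.smul_apply, smul_eq_mul]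
  ring

/-- Push-forward of the first vector. -/
theorem PairE.BV_map_left {M : ℕ} {f : St →₀ ℂ} (hf : SuppA N f) {φ : St → St}
    (hφ : ∀ s, IsAnn N s → IsAnn M (φ s)) (g : St →₀ ℂ) :
    BV M (f.mapDomain φ) g = ∑ s' ∈ anns N, ∑ s ∈ anns M, f s' * g s * BS M (φ s') s := by
  unfold BV
  have h1 := sum_mapDomain hf hφ fun s' => ∑ s ∈ anns M, g s * BS M s' s
  refine Eq.trans ?_ (h1.trans ?_)
  · refine sum_congr rfl fun s' _ => ?_
    rw [mul_sum]
    exact sum_congr rfl fun s _ => by ring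
  · refine sum_congr rfl fun s' _ => ?_
    rw [mul_sum]
    exact sum_congr rfl fun s _ => by ring

/-- Push-forward of the second vector. -/
theorem PairE.BV_map_right {M : ℕ} {g : St →₀ ℂ} (hg : SuppA N g) {φ : St → St}
    (hφ : ∀ s, IsAnn N s → IsAnn M (φ s)) (f : St →₀ ℂ) :
    BV M f (g.mapDomain φ) = ∑ s' ∈ anns M, ∑ s ∈ anns N, f s' * g s * BS M s' (φ s) := by
  unfold BV
  refine sum_congr rfl fun s' _ => ?_
  have h1 := sum_mapDomain hg hφ fun s => f s' * BS M s' s
  refine Eq.trans ?_ (h1.trans ?_)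
  · exact sum_congr rfl fun s _ => by ring
  · exact sum_congr rfl fun s _ => by ring

theorem BV_eL {f g : St →₀ ℂ} (hf : SuppA N f) (hg : SuppA N g) {i : ℕ} (hi : i + 1 < N) :
    BV N (f.mapDomain (eL i)) g = BV N f (g.mapDomain (eL i)) := by
  rw [PairE.BV_map_left hf (fun s hs => hs.eL hi), PairE.BV_map_right hg (fun s hs => hs.eL hi)]
  refine sum_congr rfl fun s' hs' => sum_congr rfl fun s hs => ?_
  rw [BS_eL (mem_anns.1 hs') (mem_anns.1 hs) hi]

theorem eV_idem {f : St →₀ ℂ} (hf : SuppA N f) {i : ℕ} (hi : i + 1 < N) :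
    (f.mapDomain (eL i)).mapDomain (eL i) = f.mapDomain (eL i) := by
  rw [← Finsupp.mapDomain_comp]
  refine Finsupp.mapDomain_congr fun s hs => ?_
  exact eL_idem (hf s (Finsupp.mem_support_iff.1 hs)) hi

theorem BV_insL_insL {f g : St →₀ ℂ} (hf : SuppA N f) (hg : SuppA N g) {i : ℕ} (hi : i ≤ N) :
    BV (N + 2) (f.mapDomain (insL i)) (g.mapDomain (insL i)) = BV N f g := by
  rw [PairE.BV_map_left hf (fun s hs => hs.insL hi)]
  unfold BV
  refine sum_congr rfl fun s' hs' => ?_
  have h1 := sum_mapDomain hg (fun s hs => hs.insL hi) fun s => f s' * BS (N + 2) (insL i s') s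
  refine Eq.trans ?_ (h1.trans ?_)
  · exact sum_congr rfl fun s _ => by ring
  · refine sum_congr rfl fun s hs => ?_
    rw [BS_insL_insL (mem_anns.1 hs') (mem_anns.1 hs) hi]
    ring

theorem BV_cupL_cupL {f g : St →₀ ℂ} (hf : SuppA N f) (hg : SuppA N g) :
    BV (N + 2) (f.mapDomain (cupL N)) (g.mapDomain (cupL N)) = -BV N f g := by
  rw [PairE.BV_map_left hf (fun s hs => hs.cupL)]
  unfold BV
  rw [← sum_neg_distrib]
  refine sum_congr rfl fun s' hs' => ?_
  have h1 := sum_mapDomain hg (fun s hs => hs.cupL) fun s => f s' * BS (N + 2) (cupL N s') s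
  rw [← sum_neg_distrib]
  refine Eq.trans ?_ (h1.trans ?_)
  · exact sum_congr rfl fun s _ => by ring
  · refine sum_congr rfl fun s hs => ?_
    rw [BS_cupL_cupL (mem_anns.1 hs') (mem_anns.1 hs)]
    ring

/-- Contraction: if `e_i f' = ins_i f` then the pairing of `f'` with `ins_i g` is that of `f`
with `g`. -/
theorem BV_insL_right {f' f g : St →₀ ℂ} (hf' : SuppA (N + 2) f') (hf : SuppA N f)
    (hg : SuppA N g) {i : ℕ} (hi : i ≤ N) (he : f'.mapDomain (eL i) = f.mapDomain (insL i)) :
    BV (N + 2) f' (g.mapDomain (insL i)) = BV N f g := by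
  have h1 : f'.mapDomain (capL i) = f := by
    have h2 : f'.mapDomain (capL i) = (f'.mapDomain (eL i)).mapDomain (capL i) := by
      rw [← Finsupp.mapDomain_comp]
      refine Finsupp.mapDomain_congr fun s hs => ?_
      exact (capL_eL (hf' s (Finsupp.mem_support_iff.1 hs)) hi).symm
    rw [h2, he, ← Finsupp.mapDomain_comp]
    conv_rhs => rw [← Finsupp.mapDomain_id (v := f)]
    refine Finsupp.mapDomain_congr fun s hs => ?_
    exact capL_insL (hf s (Finsupp.mem_support_iff.1 hs)) hi
  have h3 : BV (N + 2) f' (g.mapDomain (insL i)) = BV N (f'.mapDomain (capL i)) g := by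
    rw [PairE.BV_map_right hg (fun s hs => hs.insL hi),
      PairE.BV_map_left hf' (fun s hs => hs.capL hi)]
    refine sum_congr rfl fun s' hs' => sum_congr rfl fun s hs => ?_
    rw [BS_insL (mem_anns.1 hs') (mem_anns.1 hs) hi]
  rw [h3, h1]

/-- Two operators which are inverse to the adjoint of each other. -/
theorem BV_adj {q : ℂ} (hq : q ^ 2 + q + 1 = 0) {f g : St →₀ ℂ} (hf : SuppA N f)
    (hg : SuppA N g) {i : ℕ} (hi : i + 1 < N) :
    BV N ((-q ^ 2) • f + (-q) • f.mapDomain (eL i)) ((-q) • g + (-q ^ 2) • g.mapDomain (eL i)) =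
      BV N f g := by
  have h1 := BV_eL hf hg hi
  have h2 : BV N (f.mapDomain (eL i)) (g.mapDomain (eL i)) = BV N f (g.mapDomain (eL i)) := by
    rw [BV_eL hf (hg.mapDomain fun s hs => hs.eL hi) hi, eV_idem hg hi]
  rw [BV_add_left, BV_smul_left, BV_smul_left, BV_add_right, BV_add_right, BV_smul_right,
    BV_smul_right, BV_smul_right, BV_smul_right, h1, h2]
  have h3 : q ^ 3 = 1 := by linear_combination (q - 1) * hq
  linear_combination (BV N f g) * h3 + (BV N f (g.mapDomain (eL i))) * (q ^ 2) * hq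

end Pool.Agent.Perc

end PartperqPairE

section PartperqPsiMA

/-!
# The reciprocal solution (task PsiMA)
-/

set_option autoImplicit false

namespace Pool.Agent.Perc

open Finset MvPolynomial

variable {q : ℂ} {m : ℕ} {s : St}

/-- The components of the reciprocal solution `∏ z_k ^ (2 m - 1) · Ψ(1 / z)`. -/
noncomputable def PsiM (q : ℂ) (m : ℕ) (s : St) : MvPolynomial ℕ ℂ := recP (2 * m) (PsiS q m s)

/-- The reciprocal solution. -/
noncomputable def PsiMV (q : ℂ) (m : ℕ) (z : ℕ → ℂ) : St →₀ ℂ :=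
  ∑ s ∈ anns (2 * m), Finsupp.single s (eval z (PsiM q m s))

theorem suppA_PsiSV (q : ℂ) (m : ℕ) (z : ℕ → ℂ) : SuppA (2 * m) (PsiSV q m z) := by
  intro s hs
  by_contra h
  exact hs (PsiSV_apply_of_not z h)

namespace PsiMA

theorem PsiMV_apply_of_not (z : ℕ → ℂ) (hs : ¬ IsAnn (2 * m) s) : PsiMV q m z s = 0 := by
  classical
  unfold PsiMV
  rw [Finsupp.finsetSum_apply]
  refine Finset.sum_eq_zero fun b hb => ?_
  rw [Finsupp.single_eq_of_ne]
  rintro rfl
  exact hs (mem_anns.mp hb)

/-- Push-forwards of maps which agree on the states. -/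
theorem mapDomain_congr_ann {N : ℕ} {f : St →₀ ℂ} (hf : SuppA N f) {φ ψ : St → St}
    (h : ∀ s, IsAnn N s → φ s = ψ s) : f.mapDomain φ = f.mapDomain ψ :=
  Finsupp.mapDomain_congr fun s hs => h s (hf s (Finsupp.mem_support_iff.mp hs))

end PsiMA

open PsiMA

theorem suppA_PsiMV (q : ℂ) (m : ℕ) (z : ℕ → ℂ) : SuppA (2 * m) (PsiMV q m z) := by
  intro s hs
  by_contra h
  exact hs (PsiMV_apply_of_not z h)

theorem PsiMV_apply (z : ℕ → ℂ) (hs : IsAnn (2 * m) s) :
    PsiMV q m z s = eval z (PsiM q m s) := by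
  classical
  unfold PsiMV
  rw [Finsupp.finsetSum_apply, Finset.sum_eq_single s]
  · rw [Finsupp.single_eq_same]
  · intro b _ hb
    rw [Finsupp.single_eq_of_ne (Ne.symm hb)]
  · intro h
    exact absurd (mem_anns.mpr hs) h

theorem degreeOf_PsiS_le (hq : q ^ 2 + q + 1 = 0) (m : ℕ) (s : St) (k : ℕ) :
    (PsiS q m s).degreeOf k ≤ 2 * m - 1 := by
  by_cases hk : k < 2 * m
  · rw [degreeOf_eq_sup]
    refine Finset.sup_le fun d hd => ?_
    have h := (dw_PsiS hq m s).maj d hd {k} (by simpa using hk)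
    simpa using h
  · rw [(dw_PsiS hq m s).out k (by omega)]
    exact Nat.zero_le _

theorem PsiMV_eq (hq : q ^ 2 + q + 1 = 0) (m : ℕ) {z : ℕ → ℂ} (hz : ∀ k < 2 * m, z k ≠ 0) :
    PsiMV q m z = (∏ k ∈ range (2 * m), z k ^ (2 * m - 1)) • PsiSV q m fun k => (z k)⁻¹ := by
  classical
  ext s
  rw [Finsupp.smul_apply, smul_eq_mul]
  by_cases hs : IsAnn (2 * m) s
  · rw [PsiMV_apply _ hs, PsiSV_apply _ hs]
    exact eval_recP (2 * m) (fun k _ => degreeOf_PsiS_le hq m s k) (dw_PsiS hq m s).out hz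
  · rw [PsiMV_apply_of_not _ hs, PsiSV_apply_of_not _ hs, mul_zero]

namespace PsiMA

/-- Continuous functions which agree where no variable vanishes. -/
theorem ext_ne {F G : (ℕ → ℂ) → ℂ} (hF : Continuous F) (hG : Continuous G)
    (h : ∀ z : ℕ → ℂ, (∀ k, z k ≠ 0) → F z = G z) (z : ℕ → ℂ) : F z = G z := by
  have hd : Dense (Set.pi Set.univ (fun _ : ℕ => ({0}ᶜ : Set ℂ))) :=
    dense_pi Set.univ fun i _ => dense_compl_singleton 0
  have h1 := Continuous.ext_on hd hF hG fun z hz => h z fun k => hz k (Set.mem_univ k)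
  rw [h1]

theorem ext_ne_one {F G : ℂ → ℂ} (hF : Continuous F) (hG : Continuous G)
    (h : ∀ v : ℂ, v ≠ 0 → F v = G v) (v : ℂ) : F v = G v := by
  have h1 := Continuous.ext_on (dense_compl_singleton (0 : ℂ)) hF hG fun z hz => h z hz
  rw [h1]

theorem cont_PsiMV {α : Type} [TopologicalSpace α] {f : α → ℕ → ℂ}
    (hf : ∀ k, Continuous fun a => f a k) (s : St) :
    Continuous fun a => PsiMV q m (f a) s := by
  by_cases hs : IsAnn (2 * m) s
  · simp only [PsiMV_apply _ hs]
    exact (MvPolynomial.continuous_eval _).comp (continuous_pi hf)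
  · simp only [PsiMV_apply_of_not _ hs]
    exact continuous_const

theorem mapDomain_PsiMV (q : ℂ) (m : ℕ) (z : ℕ → ℂ) (f : St → St) :
    (PsiMV q m z).mapDomain f =
      ∑ s ∈ anns (2 * m), Finsupp.single (f s) (eval z (PsiM q m s)) := by
  unfold PsiMV
  rw [Finsupp.mapDomain_finsetSum]
  exact Finset.sum_congr rfl fun π _ => Finsupp.mapDomain_single

open Classical in
theorem mapDomain_PsiMV_apply (q : ℂ) (m : ℕ) (z : ℕ → ℂ) (f : St → St) (s : St) :
    (PsiMV q m z).mapDomain f s =
      ∑ p ∈ anns (2 * m), (if f p = s then eval z (PsiM q m p) else 0) := by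
  rw [mapDomain_PsiMV, Finsupp.finsetSum_apply]
  refine Finset.sum_congr rfl fun p _ => ?_
  rw [Finsupp.single_apply]

theorem cont_mapDomain {α : Type} [TopologicalSpace α] {f : α → ℕ → ℂ}
    (hf : ∀ k, Continuous fun a => f a k) (φ : St → St) (s : St) :
    Continuous fun a => (PsiMV q m (f a)).mapDomain φ s := by
  classical
  simp only [mapDomain_PsiMV_apply]
  refine continuous_finsetSum _ fun p _ => ?_
  by_cases h : φ p = s
  · simp only [if_pos h]
    exact (MvPolynomial.continuous_eval _).comp (continuous_pi hf)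
  · simp only [if_neg h]
    exact continuous_const

theorem prod_insV {N i : ℕ} (hi : i ≤ N) (x y : ℂ) (z : ℕ → ℂ) (g : ℂ → ℂ) :
    ∏ k ∈ range (N + 2), g (insV i x y z k) = g x * g y * ∏ k ∈ range N, g (z k) := by
  obtain ⟨j, rfl⟩ := Nat.exists_eq_add_of_le hi
  rw [show i + j + 2 = i + 2 + j by ring, Finset.prod_range_add _ (i + 2) j,
    Finset.prod_range_add _ i j, Finset.prod_range_succ, Finset.prod_range_succ]
  have h1 : ∏ k ∈ range i, g (insV i x y z k) = ∏ k ∈ range i, g (z k) :=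
    Finset.prod_congr rfl fun k hk => by
      have := mem_range.mp hk
      unfold insV
      rw [if_pos this]
  have h2 : ∏ k ∈ range j, g (insV i x y z (i + 2 + k)) = ∏ k ∈ range j, g (z (i + k)) :=
    Finset.prod_congr rfl fun k _ => by
      unfold insV
      rw [if_neg (by omega), if_neg (by omega), if_neg (by omega)]
      congr 2
      omega
  have h3 : insV i x y z i = x := by simp [insV]
  have h4 : insV i x y z (i + 1) = y := by simp [insV]
  rw [h1, h2, h3, h4]
  ring

/-- The scalar in the recursion. -/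
theorem scal (hq : q ^ 2 + q + 1 = 0) (m : ℕ) {v : ℂ} (hv : v ≠ 0) {z : ℕ → ℂ}
    (hz : ∀ k, z k ≠ 0) :
    (v ^ (2 * (m + 1) - 1) * (q ^ 2 * v) ^ (2 * (m + 1) - 1) *
      ∏ k ∈ range (2 * m), z k ^ (2 * (m + 1) - 1)) *
      ((q / v) * (∏ k ∈ range (2 * m), ((z k)⁻¹ - q * (q / v)) ^ 2) / (9 * q) ^ m) =
    (v * (∏ k ∈ range (2 * m), (z k - q * v) ^ 2) / (9 * q) ^ m) *
      ∏ k ∈ range (2 * m), z k ^ (2 * m - 1) := by
  have hq3 : q ^ 3 = 1 := by linear_combination (q - 1) * hq
  have h1 : (∏ k ∈ range (2 * m), z k ^ (2 * (m + 1) - 1)) *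
      (∏ k ∈ range (2 * m), ((z k)⁻¹ - q * (q / v)) ^ 2) =
      (q / v ^ 2) ^ (2 * m) * ((∏ k ∈ range (2 * m), z k ^ (2 * m - 1)) *
        (∏ k ∈ range (2 * m), (z k - q * v) ^ 2)) := by
    rw [← Finset.prod_mul_distrib, ← Finset.prod_mul_distrib]
    have h2 : (q / v ^ 2) ^ (2 * m) = ∏ k ∈ range (2 * m), (q / v ^ 2) := by
      rw [Finset.prod_const, Finset.card_range]
    rw [h2, ← Finset.prod_mul_distrib]
    refine Finset.prod_congr rfl fun k hk => ?_
    have hk := mem_range.mp hk
    have e : 2 * (m + 1) - 1 = (2 * m - 1) + 2 := by omega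
    rw [e, pow_add]
    have h3 : z k ^ 2 * ((z k)⁻¹ - q * (q / v)) ^ 2 = q / v ^ 2 * (z k - q * v) ^ 2 := by
      have h4 := hz k
      field_simp
      linear_combination (q * z k ^ 2 - v ^ 2) * hq3
    linear_combination z k ^ (2 * m - 1) * h3
  have h5 : v ^ (2 * (m + 1) - 1) * (q ^ 2 * v) ^ (2 * (m + 1) - 1) * (q / v) *
      (q / v ^ 2) ^ (2 * m) = v := by
    have e : 2 * (m + 1) - 1 = 2 * m + 1 := by omega
    have h7 : (q ^ 2) ^ (2 * m + 1) * q * q ^ (2 * m) = 1 := by
      have : (q ^ 2) ^ (2 * m + 1) * q * q ^ (2 * m) = (q ^ 3) ^ (2 * m + 1) := by ring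
      rw [this, hq3, one_pow]
    have h8 : v ^ (2 * m + 1) * v ^ (2 * m + 1) * v⁻¹ * ((v ^ 2) ^ (2 * m))⁻¹ = v := by
      have h9 : v ^ (2 * m + 1) * v ^ (2 * m + 1) = (v ^ 2) ^ (2 * m) * v * v := by ring
      rw [h9, mul_assoc _ v v⁻¹, mul_inv_cancel₀ hv, mul_one, mul_comm, ← mul_assoc,
        inv_mul_cancel₀ (pow_ne_zero _ (pow_ne_zero _ hv)), one_mul]
    calc _ = (q ^ 2) ^ (2 * m + 1) * q * q ^ (2 * m) *
          (v ^ (2 * m + 1) * v ^ (2 * m + 1) * v⁻¹ * ((v ^ 2) ^ (2 * m))⁻¹) := by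
          rw [e, div_pow, mul_pow, div_eq_mul_inv, div_eq_mul_inv]; ring
      _ = v := by rw [h7, h8, one_mul]
  calc _ = (v ^ (2 * (m + 1) - 1) * (q ^ 2 * v) ^ (2 * (m + 1) - 1) * (q / v)) *
        ((∏ k ∈ range (2 * m), z k ^ (2 * (m + 1) - 1)) *
      (∏ k ∈ range (2 * m), ((z k)⁻¹ - q * (q / v)) ^ 2)) / (9 * q) ^ m := by ring
    _ = (v ^ (2 * (m + 1) - 1) * (q ^ 2 * v) ^ (2 * (m + 1) - 1) * (q / v) *
      (q / v ^ 2) ^ (2 * m)) * ((∏ k ∈ range (2 * m), z k ^ (2 * m - 1)) *
        (∏ k ∈ range (2 * m), (z k - q * v) ^ 2)) / (9 * q) ^ m := by rw [h1]; ring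
    _ = _ := by rw [h5]; ring

end PsiMA

/-- Exchange relation. -/
theorem exchangeM (hq : q ^ 2 + q + 1 = 0) {i : ℕ} (hi : i + 1 < 2 * m) (z : ℕ → ℂ) :
    (q * z i - q ^ 2 * z (i + 1)) • PsiMV q m (swapV i z) =
      (q * z (i + 1) - q ^ 2 * z i) • PsiMV q m z -
        (z i - z (i + 1)) • (PsiMV q m z).mapDomain (eL i) := by
  classical
  ext s
  have hsw : ∀ k, Continuous fun z : ℕ → ℂ => swapV i z k := fun k => continuous_apply _
  have hid : ∀ k, Continuous fun z : ℕ → ℂ => z k := fun k => continuous_apply _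
  refine ext_ne
    (F := fun z => ((q * z i - q ^ 2 * z (i + 1)) • PsiMV q m (swapV i z)) s)
    (G := fun z => ((q * z (i + 1) - q ^ 2 * z i) • PsiMV q m z -
        (z i - z (i + 1)) • (PsiMV q m z).mapDomain (eL i)) s) ?_ ?_ ?_ z
  · simp only [Finsupp.smul_apply, smul_eq_mul]
    exact (by fun_prop : Continuous fun z : ℕ → ℂ => q * z i - q ^ 2 * z (i + 1)).mul
      (cont_PsiMV hsw s)
  · simp only [Finsupp.smul_apply, smul_eq_mul, Finsupp.sub_apply]
    exact ((by fun_prop : Continuous fun z : ℕ → ℂ => q * z (i + 1) - q ^ 2 * z i).mul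
      (cont_PsiMV hid s)).sub
      ((by fun_prop : Continuous fun z : ℕ → ℂ => z i - z (i + 1)).mul (cont_mapDomain hid _ s))
  · intro z hz
    have hz2 : ∀ k < 2 * m, swapV i z k ≠ 0 := fun k _ => hz _
    have hc : ∏ k ∈ range (2 * m), swapV i z k ^ (2 * m - 1) =
        ∏ k ∈ range (2 * m), z k ^ (2 * m - 1) := by
      refine Equiv.Perm.prod_comp (Equiv.swap i (i + 1)) (range (2 * m))
        (fun k => z k ^ (2 * m - 1)) ?_
      intro a ha
      by_contra hcon
      have hcon' : ¬ a < 2 * m := fun h => hcon (by simpa using h)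
      exact ha (Equiv.swap_apply_of_ne_of_ne (by omega) (by omega))
    have h := exchangeS hq hi (fun k => (z k)⁻¹)
    have h1 := PsiMV_eq hq m (fun k _ => hz k)
    have h2 := PsiMV_eq hq m hz2
    rw [hc] at h2
    have h3 : (fun k => (swapV i z k)⁻¹) = swapV i (fun k => (z k)⁻¹) := rfl
    rw [h3] at h2
    rw [h1, h2, Finsupp.mapDomain_smul]
    have h4 := DFunLike.congr_fun h s
    simp only [Finsupp.smul_apply, Finsupp.sub_apply, Finsupp.add_apply, smul_eq_mul] at h4 ⊢
    have hi1 := hz i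
    have hi2 := hz (i + 1)
    have e1 : q * z i - q ^ 2 * z (i + 1) =
      z i * z (i + 1) * (q * (z (i + 1))⁻¹ - q ^ 2 * (z i)⁻¹) := by field_simp
    have e2 : q * z (i + 1) - q ^ 2 * z i =
      z i * z (i + 1) * (q * (z i)⁻¹ - q ^ 2 * (z (i + 1))⁻¹) := by field_simp
    have e3 : z i - z (i + 1) = -(z i * z (i + 1) * ((z i)⁻¹ - (z (i + 1))⁻¹)) := by
      field_simp
      ring
    rw [e1, e2, e3]
    linear_combination (∏ k ∈ range (2 * m), z k ^ (2 * m - 1)) * (z i * z (i + 1)) * h4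

namespace PsiMA

theorem cont_insV {i : ℕ} {v : ℂ} (k : ℕ) :
    Continuous fun z : ℕ → ℂ => insV i v (q ^ 2 * v) z k := by
  unfold insV
  by_cases h1 : k < i
  · simp only [if_pos h1]
    exact continuous_apply _
  · by_cases h2 : k = i
    · simp only [if_neg h1, if_pos h2]
      exact continuous_const
    · by_cases h3 : k = i + 1
      · simp only [if_neg h1, if_neg h2, if_pos h3]
        exact continuous_const
      · simp only [if_neg h1, if_neg h2, if_neg h3]
        exact continuous_apply _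

theorem cont_insV' {i : ℕ} {z : ℕ → ℂ} (k : ℕ) :
    Continuous fun v : ℂ => insV i v (q ^ 2 * v) z k := by
  unfold insV
  by_cases h1 : k < i
  · simp only [if_pos h1]
    exact continuous_const
  · by_cases h2 : k = i
    · simp only [if_neg h1, if_pos h2]
      exact continuous_id
    · by_cases h3 : k = i + 1
      · simp only [if_neg h1, if_neg h2, if_pos h3]
        fun_prop
      · simp only [if_neg h1, if_neg h2, if_neg h3]
        exact continuous_const

theorem insV_inv (hq : q ^ 2 + q + 1 = 0) {i : ℕ} {v : ℂ} (hv : v ≠ 0) (z : ℕ → ℂ) :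
    (fun k => (insV i v (q ^ 2 * v) z k)⁻¹) =
      insV i (q ^ 2 * (q / v)) (q / v) (fun k => (z k)⁻¹) := by
  have hq3 : q ^ 3 = 1 := by linear_combination (q - 1) * hq
  have hq0 : q ≠ 0 := by
    rintro rfl
    norm_num at hq
  have e1 : v⁻¹ = q ^ 2 * (q / v) := by
    field_simp
    exact hq3.symm
  have e2 : (q ^ 2 * v)⁻¹ = q / v := by
    field_simp
    exact hq3.symm
  funext k
  unfold insV
  split_ifs
  · rfl
  · exact e1
  · exact e2
  · rfl

/-- The recursion where no variable vanishes. -/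
theorem PsiMV_insV_ne (hq : q ^ 2 + q + 1 = 0) (m : ℕ) {i : ℕ} (hi : i ≤ 2 * m) {v : ℂ}
    (hv : v ≠ 0) {z : ℕ → ℂ} (hz : ∀ k, z k ≠ 0) :
    PsiMV q (m + 1) (insV i v (q ^ 2 * v) z) =
      (v * (∏ k ∈ range (2 * m), (z k - q * v) ^ 2) / (9 * q) ^ m) •
        (PsiMV q m z).mapDomain (insL i) := by
  have hq0 : q ≠ 0 := by
    rintro rfl
    norm_num at hq
  have hins : ∀ k < 2 * (m + 1), insV i v (q ^ 2 * v) z k ≠ 0 := by
    intro k _
    unfold insV
    split_ifs
    · exact hz _
    · exact hv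
    · exact mul_ne_zero (pow_ne_zero _ hq0) hv
    · exact hz _
  rw [PsiMV_eq hq (m + 1) hins, PsiMV_eq hq m (fun k _ => hz k), insV_inv hq hv,
    PsiSV_insV hq m hi, Finsupp.mapDomain_smul, smul_smul, smul_smul, ← scal hq m hv hz]
  congr 2
  have h := prod_insV hi v (q ^ 2 * v) z (fun x => x ^ (2 * (m + 1) - 1))
  rw [show 2 * (m + 1) = 2 * m + 2 by ring] at h ⊢
  exact h

end PsiMA

theorem PsiMV_insV (hq : q ^ 2 + q + 1 = 0) (m : ℕ) {i : ℕ} (hi : i ≤ 2 * m) (v : ℂ)
    (z : ℕ → ℂ) : PsiMV q (m + 1) (insV i v (q ^ 2 * v) z) =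
      (v * (∏ k ∈ range (2 * m), (z k - q * v) ^ 2) / (9 * q) ^ m) •
        (PsiMV q m z).mapDomain (insL i) := by
  classical
  have hid : ∀ k, Continuous fun z : ℕ → ℂ => z k := fun k => continuous_apply _
  ext s
  have key : ∀ v : ℂ, v ≠ 0 → ∀ z : ℕ → ℂ, PsiMV q (m + 1) (insV i v (q ^ 2 * v) z) s =
      ((v * (∏ k ∈ range (2 * m), (z k - q * v) ^ 2) / (9 * q) ^ m) •
        (PsiMV q m z).mapDomain (insL i)) s := by
    intro v hv z
    refine ext_ne (F := fun z => PsiMV q (m + 1) (insV i v (q ^ 2 * v) z) s)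
      (G := fun z => ((v * (∏ k ∈ range (2 * m), (z k - q * v) ^ 2) / (9 * q) ^ m) •
        (PsiMV q m z).mapDomain (insL i)) s) ?_ ?_ ?_ z
    · exact cont_PsiMV cont_insV s
    · simp only [Finsupp.smul_apply, smul_eq_mul]
      exact (by fun_prop : Continuous fun z : ℕ → ℂ =>
        v * (∏ k ∈ range (2 * m), (z k - q * v) ^ 2) / (9 * q) ^ m).mul
        (cont_mapDomain hid _ s)
    · intro z hz
      rw [PsiMV_insV_ne hq m hi hv hz]
  refine ext_ne_one (F := fun v => PsiMV q (m + 1) (insV i v (q ^ 2 * v) z) s)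
    (G := fun v => ((v * (∏ k ∈ range (2 * m), (z k - q * v) ^ 2) / (9 * q) ^ m) •
      (PsiMV q m z).mapDomain (insL i)) s) ?_ ?_ (fun v hv => key v hv z) v
  · exact cont_PsiMV cont_insV' s
  · simp only [Finsupp.smul_apply, smul_eq_mul]
    exact (by fun_prop : Continuous fun v : ℂ =>
      v * (∏ k ∈ range (2 * m), (z k - q * v) ^ 2) / (9 * q) ^ m).mul continuous_const

/-- The reciprocal solution at the point where the solution is an insertion. -/
theorem eL_PsiMV_insV (hq : q ^ 2 + q + 1 = 0) (m : ℕ) {i : ℕ} (hi : i ≤ 2 * m) {v : ℂ}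
    (hv : v ≠ 0) (z : ℕ → ℂ) : (PsiMV q (m + 1) (insV i (q ^ 2 * v) v z)).mapDomain (eL i) =
      (v * (∏ k ∈ range (2 * m), (z k - q * v) ^ 2) / (9 * q) ^ m) •
        (PsiMV q m z).mapDomain (insL i) := by
  have hq3 : q ^ 3 = 1 := by linear_combination (q - 1) * hq
  rw [← PsiMV_insV hq m hi v z]
  have h := exchangeM hq (m := m + 1) (i := i) (by omega) (insV i (q ^ 2 * v) v z)
  have e1 : insV i (q ^ 2 * v) v z i = q ^ 2 * v := by simp [insV]
  have e2 : insV i (q ^ 2 * v) v z (i + 1) = v := by simp [insV]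
  have e3 : swapV i (insV i (q ^ 2 * v) v z) = insV i v (q ^ 2 * v) z := by
    funext k
    unfold swapV
    by_cases h1 : k = i
    · subst h1
      rw [Equiv.swap_apply_left, e2]
      simp [insV]
    · by_cases h2 : k = i + 1
      · subst h2
        rw [Equiv.swap_apply_right, e1]
        simp [insV]
      · rw [Equiv.swap_apply_of_ne_of_ne h1 h2]
        unfold insV
        simp only [if_neg h1, if_neg h2]
  rw [e1, e2, e3] at h
  have c1 : q * (q ^ 2 * v) - q ^ 2 * v = (1 - q ^ 2) * v := by linear_combination v * hq3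
  have c2 : q * v - q ^ 2 * (q ^ 2 * v) = 0 := by linear_combination (-(q * v)) * hq3
  have c3 : q ^ 2 * v - v = -((1 - q ^ 2) * v) := by ring
  rw [c1, c2, c3, zero_smul, zero_sub, neg_smul, neg_neg] at h
  have h0 : (1 - q ^ 2) * v ≠ 0 := by
    refine mul_ne_zero ?_ hv
    intro h0
    have h1 : q = -2 := by linear_combination hq + h0
    rw [h1] at hq
    norm_num at hq
  have h3 := congrArg (fun f => ((1 - q ^ 2) * v)⁻¹ • f) h
  simp only [smul_smul _ ((1 - q ^ 2) * v), inv_mul_cancel₀ h0, one_smul] at h3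
  exact h3.symm

/-- The value at `x` at the place `0`, `y` at the place `j`, the other places from `z`. -/
def put2 (j : ℕ) (x y : ℂ) (z : ℕ → ℂ) : ℕ → ℂ := fun k =>
  if k = 0 then x else if k < j then z (k - 1) else if k = j then y else z (k - 2)

/-- Recursion at the seam. -/
theorem PsiSV_seam (hq : q ^ 2 + q + 1 = 0) (m : ℕ) (v : ℂ) (z : ℕ → ℂ) :
    PsiSV q (m + 1) (put2 (2 * m + 1) v (q ^ 2 * v) z) =
      (v * (∏ k ∈ range (2 * m), (z k - q * v) ^ 2) / (9 * q) ^ m) •
        (PsiSV q m z).mapDomain (cupL (2 * m)) := by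
  have hN : 2 * (m + 1) = 2 * m + 2 := by ring
  have h1 : ∀ k < 2 * (m + 1), put2 (2 * m + 1) v (q ^ 2 * v) z k =
      rotV (2 * (m + 1)) (insV 0 (q ^ 2 * v) v z) k := by
    intro k hk
    unfold put2 rotV insV
    by_cases c1 : k = 0
    · subst c1
      rw [if_pos rfl, if_pos (by omega), if_neg (by omega), if_neg (by omega), if_pos (by omega)]
    · by_cases c2 : k < 2 * m + 1
      · rw [if_neg c1, if_pos c2, if_pos (by omega), if_neg (by omega), if_neg (by omega),
          if_neg (by omega)]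
        congr 1
      · rw [if_neg c1, if_neg c2, if_pos (by omega), if_neg (by omega), if_pos (by omega),
          if_neg (by omega), if_pos rfl]
  rw [PsiSV_congr hq h1, PsiSV_rot hq, PsiSV_insV hq m (Nat.zero_le _), Finsupp.mapDomain_smul,
    ← Finsupp.mapDomain_comp]
  congr 1
  refine mapDomain_congr_ann (suppA_PsiSV q m _) fun s hs => ?_
  change rotL (2 * (m + 1)) (insL 0 s) = cupL (2 * m) s
  rw [hN, rotL_insL_zero hs]

namespace PsiMA

theorem cont_put2 {j : ℕ} {v : ℂ} (k : ℕ) :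
    Continuous fun z : ℕ → ℂ => put2 j (q ^ 2 * v) v z k := by
  unfold put2
  by_cases h1 : k = 0
  · simp only [if_pos h1]
    exact continuous_const
  · by_cases h2 : k < j
    · simp only [if_neg h1, if_pos h2]
      exact continuous_apply _
    · by_cases h3 : k = j
      · simp only [if_neg h1, if_neg h2, if_pos h3]
        exact continuous_const
      · simp only [if_neg h1, if_neg h2, if_neg h3]
        exact continuous_apply _

theorem cont_put2' {j : ℕ} {z : ℕ → ℂ} (k : ℕ) :
    Continuous fun v : ℂ => put2 j (q ^ 2 * v) v z k := by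
  unfold put2
  by_cases h1 : k = 0
  · simp only [if_pos h1]
    fun_prop
  · by_cases h2 : k < j
    · simp only [if_neg h1, if_pos h2]
      exact continuous_const
    · by_cases h3 : k = j
      · simp only [if_neg h1, if_neg h2, if_pos h3]
        exact continuous_id
      · simp only [if_neg h1, if_neg h2, if_neg h3]
        exact continuous_const

theorem put2_inv (hq : q ^ 2 + q + 1 = 0) {j : ℕ} {v : ℂ} (hv : v ≠ 0) (z : ℕ → ℂ) :
    (fun k => (put2 j (q ^ 2 * v) v z k)⁻¹) =
      put2 j (q / v) (q ^ 2 * (q / v)) (fun k => (z k)⁻¹) := by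
  have hq3 : q ^ 3 = 1 := by linear_combination (q - 1) * hq
  have hq0 : q ≠ 0 := by
    rintro rfl
    norm_num at hq
  have e1 : v⁻¹ = q ^ 2 * (q / v) := by
    field_simp
    exact hq3.symm
  have e2 : (q ^ 2 * v)⁻¹ = q / v := by
    field_simp
    exact hq3.symm
  funext k
  unfold put2
  split_ifs
  · exact e2
  · rfl
  · exact e1
  · rfl

theorem prod_put2 (N : ℕ) (x y : ℂ) (z : ℕ → ℂ) (g : ℂ → ℂ) :
    ∏ k ∈ range (N + 2), g (put2 (N + 1) x y z k) = g x * g y * ∏ k ∈ range N, g (z k) := by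
  rw [Finset.prod_range_succ, Finset.prod_range_succ']
  have h1 : ∏ k ∈ range N, g (put2 (N + 1) x y z (k + 1)) = ∏ k ∈ range N, g (z k) :=
    Finset.prod_congr rfl fun k hk => by
      have := mem_range.mp hk
      unfold put2
      rw [if_neg (by omega), if_pos (by omega)]
      rfl
  have h3 : put2 (N + 1) x y z 0 = x := by simp [put2]
  have h4 : put2 (N + 1) x y z (N + 1) = y := by simp [put2]
  rw [h1, h3, h4]
  ring

/-- The recursion at the seam where no variable vanishes. -/
theorem PsiMV_seam_ne (hq : q ^ 2 + q + 1 = 0) (m : ℕ) {v : ℂ}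
    (hv : v ≠ 0) {z : ℕ → ℂ} (hz : ∀ k, z k ≠ 0) :
    PsiMV q (m + 1) (put2 (2 * m + 1) (q ^ 2 * v) v z) =
      (v * (∏ k ∈ range (2 * m), (z k - q * v) ^ 2) / (9 * q) ^ m) •
        (PsiMV q m z).mapDomain (cupL (2 * m)) := by
  have hq0 : q ≠ 0 := by
    rintro rfl
    norm_num at hq
  have hins : ∀ k < 2 * (m + 1), put2 (2 * m + 1) (q ^ 2 * v) v z k ≠ 0 := by
    intro k _
    unfold put2
    split_ifs
    · exact mul_ne_zero (pow_ne_zero _ hq0) hv
    · exact hz _
    · exact hv
    · exact hz _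
  rw [PsiMV_eq hq (m + 1) hins, PsiMV_eq hq m (fun k _ => hz k), put2_inv hq hv,
    PsiSV_seam hq m, Finsupp.mapDomain_smul, smul_smul, smul_smul, ← scal hq m hv hz]
  congr 2
  have h := prod_put2 (2 * m) (q ^ 2 * v) v z (fun x => x ^ (2 * (m + 1) - 1))
  rw [show 2 * (m + 1) = 2 * m + 2 by ring] at h ⊢
  rw [h]
  ring

end PsiMA

theorem PsiMV_seam (hq : q ^ 2 + q + 1 = 0) (m : ℕ) (v : ℂ) (z : ℕ → ℂ) :
    PsiMV q (m + 1) (put2 (2 * m + 1) (q ^ 2 * v) v z) =
      (v * (∏ k ∈ range (2 * m), (z k - q * v) ^ 2) / (9 * q) ^ m) •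
        (PsiMV q m z).mapDomain (cupL (2 * m)) := by
  classical
  have hid : ∀ k, Continuous fun z : ℕ → ℂ => z k := fun k => continuous_apply _
  ext s
  have key : ∀ v : ℂ, v ≠ 0 → ∀ z : ℕ → ℂ,
      PsiMV q (m + 1) (put2 (2 * m + 1) (q ^ 2 * v) v z) s =
      ((v * (∏ k ∈ range (2 * m), (z k - q * v) ^ 2) / (9 * q) ^ m) •
        (PsiMV q m z).mapDomain (cupL (2 * m))) s := by
    intro v hv z
    refine ext_ne (F := fun z => PsiMV q (m + 1) (put2 (2 * m + 1) (q ^ 2 * v) v z) s)
      (G := fun z => ((v * (∏ k ∈ range (2 * m), (z k - q * v) ^ 2) / (9 * q) ^ m) •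
        (PsiMV q m z).mapDomain (cupL (2 * m))) s) ?_ ?_ ?_ z
    · exact cont_PsiMV cont_put2 s
    · simp only [Finsupp.smul_apply, smul_eq_mul]
      exact (by fun_prop : Continuous fun z : ℕ → ℂ =>
        v * (∏ k ∈ range (2 * m), (z k - q * v) ^ 2) / (9 * q) ^ m).mul
        (cont_mapDomain hid _ s)
    · intro z hz
      rw [PsiMV_seam_ne hq m hv hz]
  refine ext_ne_one (F := fun v => PsiMV q (m + 1) (put2 (2 * m + 1) (q ^ 2 * v) v z) s)
    (G := fun v => ((v * (∏ k ∈ range (2 * m), (z k - q * v) ^ 2) / (9 * q) ^ m) •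
      (PsiMV q m z).mapDomain (cupL (2 * m))) s) ?_ ?_ (fun v hv => key v hv z) v
  · exact cont_PsiMV cont_put2' s
  · simp only [Finsupp.smul_apply, smul_eq_mul]
    exact (by fun_prop : Continuous fun v : ℂ =>
      v * (∏ k ∈ range (2 * m), (z k - q * v) ^ 2) / (9 * q) ^ m).mul continuous_const

theorem PsiMV_zero (hq : q ^ 2 + q + 1 = 0) (z : ℕ → ℂ) :
    PsiMV q 0 z = Finsupp.single (nestS 0) 1 := by
  have h := PsiMV_eq hq 0 (z := z) (fun k hk => absurd hk (by omega))
  rw [h, PsiSV_zero hq]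
  simp

end Pool.Agent.Perc

end PartperqPsiMA

section PartperqLowDefs

/-!
# Lowest coefficients: definitions
-/

set_option autoImplicit false

namespace Pool.Agent.Perc

open Finset MvPolynomial

/-- The substitution of `a X` at the place `0` and `b X` at the place `j`. -/
noncomputable def putX (j : ℕ) (a b : ℂ) (z : ℕ → ℂ) : ℕ → Polynomial ℂ := fun k =>
  if k = 0 then Polynomial.C a * Polynomial.X else if k < j then Polynomial.C (z (k - 1))
    else if k = j then Polynomial.C b * Polynomial.X else Polynomial.C (z (k - 2))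

/-- The linear coefficient of the solution in the direction `(a, b)`. -/
noncomputable def chiS (q : ℂ) (m j : ℕ) (a b : ℂ) (z : ℕ → ℂ) : St →₀ ℂ :=
  ∑ s ∈ anns (2 * m + 2), Finsupp.single s ((aeval (putX j a b z) (PsiS q (m + 1) s)).coeff 1)

/-- The linear coefficient of the reciprocal solution in the direction `(a, b)`. -/
noncomputable def chiM (q : ℂ) (m j : ℕ) (a b : ℂ) (z : ℕ → ℂ) : St →₀ ℂ :=
  ∑ s ∈ anns (2 * m + 2), Finsupp.single s ((aeval (putX j a b z) (PsiM q (m + 1) s)).coeff 1)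

end Pool.Agent.Perc

end PartperqLowDefs

section PartperqUniS

/-!
# Uniqueness of symmetric polynomials with a recursion and a lowest coefficient (task UniS)
-/

set_option autoImplicit false

namespace Pool.Agent.Perc

open Finset MvPolynomial

/-- The properties which characterise the pairing. -/
structure RecS (q : ℂ) (c d : ℕ → ℂ) (F : ℕ → MvPolynomial ℕ ℂ) : Prop where
  out : ∀ m k, 2 * m ≤ k → (F m).degreeOf k = 0
  deg : ∀ m, (F (m + 1)).degreeOf 0 ≤ 4 * m + 2
  symm : ∀ m i, i + 1 < 2 * m → ∀ z, eval (swapV i z) (F m) = eval z (F m)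
  ins : ∀ m v z, eval (insV 0 (q ^ 2 * v) v z) (F (m + 1)) =
    c m * v ^ 2 * (∏ k ∈ range (2 * m), (z k - q * v) ^ 4) * eval z (F m)
  low0 : ∀ m z, (∀ k < 2 * m, z k ≠ 0) → (aeval (putX 1 0 1 z) (F (m + 1))).coeff 0 = 0
  low1 : ∀ m z, (∀ k < 2 * m, z k ≠ 0) → (aeval (putX 1 0 1 z) (F (m + 1))).coeff 1 = 0
  low2 : ∀ m z, (∀ k < 2 * m, z k ≠ 0) → (aeval (putX 1 0 1 z) (F (m + 1))).coeff 2 =
    d m * (∏ k ∈ range (2 * m), z k ^ 4) * eval z (F m)

namespace UniS

/-- A value in front of a sequence. -/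
def con (x : ℂ) (w : ℕ → ℂ) : ℕ → ℂ
  | 0 => x
  | k + 1 => w k

theorem poly_eval_aeval (P : MvPolynomial ℕ ℂ) (s : ℕ → Polynomial ℂ) (a : ℂ) :
    Polynomial.eval a (aeval s P) = eval (fun k => Polynomial.eval a (s k)) P := by
  induction P using MvPolynomial.induction_on with
  | C c => simp
  | add p r hp hr => rw [map_add, Polynomial.eval_add, hp, hr, map_add]
  | mul_X p k hp => rw [map_mul, Polynomial.eval_mul, hp, map_mul, aeval_X, eval_X]

/-- The restriction to a line in the direction of the first coordinate. -/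
theorem exists_line (P : MvPolynomial ℕ ℂ) (w : ℕ → ℂ) :
    ∃ g : Polynomial ℂ, g.natDegree ≤ P.degreeOf 0 ∧ ∀ x, g.eval x = eval (con x w) P := by
  let s : ℕ → Polynomial ℂ := fun k => Nat.casesOn k Polynomial.X fun k => Polynomial.C (w k)
  refine ⟨aeval s P, ?_, fun x => ?_⟩
  · rw [aeval_def, eval₂_eq]
    refine Polynomial.natDegree_sum_le_of_forall_le _ _ fun e he => ?_
    refine le_trans Polynomial.natDegree_mul_le ?_
    have h1 : ((algebraMap ℂ (Polynomial ℂ)) (coeff e P)).natDegree = 0 :=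
      Polynomial.natDegree_C _
    rw [h1, zero_add]
    refine le_trans (Polynomial.natDegree_prod_le _ _) ?_
    have h2 : ∀ k ∈ e.support, (s k ^ e k).natDegree ≤ if k = 0 then e 0 else 0 := by
      intro k _
      refine le_trans Polynomial.natDegree_pow_le ?_
      cases k with
      | zero =>
        change e 0 * (Polynomial.X : Polynomial ℂ).natDegree ≤ _
        rw [Polynomial.natDegree_X, mul_one, if_pos rfl]
      | succ k =>
        change e (k + 1) * (Polynomial.C (w k)).natDegree ≤ _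
        rw [Polynomial.natDegree_C, mul_zero]
        exact Nat.zero_le _
    refine le_trans (Finset.sum_le_sum h2) ?_
    rw [Finset.sum_ite_eq' e.support 0 fun _ => e 0]
    split_ifs
    · exact monomial_le_degreeOf 0 he
    · exact Nat.zero_le _
  · rw [poly_eval_aeval]
    congr 1
    congr 1
    funext k
    cases k with
    | zero => exact Polynomial.eval_X
    | succ k => exact Polynomial.eval_C

/-- Invariance under all transpositions. -/
theorem swap_inv {L : ℕ} {H : MvPolynomial ℕ ℂ}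
    (hs : ∀ i, i + 1 < L → ∀ z, eval (swapV i z) H = eval z H) {i j : ℕ} (hij : i < j)
    (hj : j < L) : ∀ z : ℕ → ℂ, eval (fun k => z (Equiv.swap i j k)) H = eval z H := by
  induction j, hij using Nat.le_induction with
  | base => exact fun z => hs i hj z
  | succ j hij ih =>
    intro z
    have hij' : i < j := hij
    have e : Equiv.swap i (j + 1) = Equiv.swap j (j + 1) * Equiv.swap i j * Equiv.swap j (j + 1) := by
      rw [Equiv.swap_mul_swap_mul_swap (by omega) (by omega), Equiv.swap_comm]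
    have h1 := hs j hj (fun k => z (Equiv.swap j (j + 1) (Equiv.swap i j k)))
    have h2 := ih (by omega) (fun k => z (Equiv.swap j (j + 1) k))
    have h3 := hs j hj z
    have e1 : (fun k => z (Equiv.swap i (j + 1) k)) =
        swapV j (fun k => z (Equiv.swap j (j + 1) (Equiv.swap i j k))) := by
      funext k
      rw [e]
      rfl
    rw [e1, h1, h2]
    exact h3

section Zeros

variable {q : ℂ} {L : ℕ} {H : MvPolynomial ℕ ℂ}
  (hs : ∀ i, i + 1 < L → ∀ z, eval (swapV i z) H = eval z H)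
  (hi : ∀ v z, eval (insV 0 (q ^ 2 * v) v z) H = 0)

include hs hi in
theorem zeroA {j : ℕ} (h0 : 0 < j) (hj : j < L) {z : ℕ → ℂ} (h : z 0 = q ^ 2 * z j) :
    eval z H = 0 := by
  have key : ∀ w : ℕ → ℂ, w 0 = q ^ 2 * w 1 → eval w H = 0 := by
    intro w hw
    have e : w = insV 0 (q ^ 2 * w 1) (w 1) (fun k => w (k + 2)) := by
      funext k
      unfold insV
      rw [if_neg (Nat.not_lt_zero k)]
      by_cases h0 : k = 0
      · rw [if_pos h0, h0, hw]
      · rw [if_neg h0]
        by_cases h1 : k = 0 + 1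
        · rw [if_pos h1, h1]
        · rw [if_neg h1]
          congr 1
          omega
    rw [e]
    exact hi _ _
  by_cases h1 : j = 1
  · subst h1
    exact key z h
  · rw [← swap_inv hs (i := 1) (j := j) (by omega) hj z]
    refine key _ ?_
    rw [Equiv.swap_apply_left, Equiv.swap_apply_of_ne_of_ne (by omega) (by omega)]
    exact h

include hs hi in
theorem zeroB {j : ℕ} (h0 : 0 < j) (hj : j < L) {z : ℕ → ℂ} (h : z j = q ^ 2 * z 0) :
    eval z H = 0 := by
  rw [← swap_inv hs h0 hj z]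
  refine zeroA hs hi h0 hj ?_
  rw [Equiv.swap_apply_left, Equiv.swap_apply_right]
  exact h

end Zeros

section Points

variable {q : ℂ}

theorem q_cube (hq : q ^ 2 + q + 1 = 0) : q ^ 3 = 1 := by linear_combination (q - 1) * hq

theorem q_ne_zero (hq : q ^ 2 + q + 1 = 0) : q ≠ 0 := by
  rintro rfl
  norm_num at hq

theorem q_ne_one (hq : q ^ 2 + q + 1 = 0) : q ≠ 1 := by
  rintro rfl
  norm_num at hq

/-- The zeros. -/
noncomputable def pts (q : ℂ) (n : ℕ) (a : ℕ → ℂ) : Finset ℂ :=
  (range n).image (fun k => q * a k) ∪ (range n).image fun k => q ^ 2 * a k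

theorem card_pts (hq : q ^ 2 + q + 1 = 0) {n : ℕ} {a : ℕ → ℂ} (h0 : ∀ k < n, a k ≠ 0)
    (hd : ∀ i < n, ∀ j < n, a i ^ 3 = a j ^ 3 → i = j) : (pts q n a).card = 2 * n := by
  have h3 := q_cube hq
  have hq0 := q_ne_zero hq
  have hq1 := q_ne_one hq
  rw [pts, Finset.card_union_of_disjoint, Finset.card_image_of_injOn,
    Finset.card_image_of_injOn, Finset.card_range]
  · ring
  · intro i hi j hj h
    simp only [coe_range, Set.mem_Iio] at hi hj
    refine hd i hi j hj ?_
    have h1 : a i = a j := mul_left_cancel₀ (pow_ne_zero 2 hq0) h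
    rw [h1]
  · intro i hi j hj h
    simp only [coe_range, Set.mem_Iio] at hi hj
    refine hd i hi j hj ?_
    have h1 : a i = a j := mul_left_cancel₀ hq0 h
    rw [h1]
  · rw [Finset.disjoint_left]
    intro x hx hx'
    rw [mem_image] at hx hx'
    obtain ⟨i, hi, rfl⟩ := hx
    obtain ⟨j, hj, h⟩ := hx'
    rw [mem_range] at hi hj
    have hij : i = j := by
      refine hd i hi j hj ?_
      have h' : q ^ 2 * a j = q * a i := h
      have h1 : (q ^ 2 * a j) ^ 3 = (q * a i) ^ 3 := by rw [h']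
      linear_combination (-1 : ℂ) * h1 + (a j ^ 3 * (q ^ 3 + 1) - a i ^ 3) * h3
    subst hij
    have h1 : q * a i * (q - 1) = 0 := by linear_combination h
    rcases mul_eq_zero.1 h1 with h2 | h2
    · exact mul_ne_zero hq0 (h0 i hi) h2
    · exact hq1 (sub_eq_zero.1 h2)

theorem zero_notMem_pts (hq : q ^ 2 + q + 1 = 0) {n : ℕ} {a : ℕ → ℂ} (h0 : ∀ k < n, a k ≠ 0) :
    (0 : ℂ) ∉ pts q n a := by
  have hq0 := q_ne_zero hq
  intro h
  rw [pts, mem_union, mem_image, mem_image] at h
  rcases h with ⟨k, hk, h⟩ | ⟨k, hk, h⟩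
  · exact mul_ne_zero hq0 (h0 k (mem_range.1 hk)) h
  · exact mul_ne_zero (pow_ne_zero 2 hq0) (h0 k (mem_range.1 hk)) h

end Points

section Main

variable {q : ℂ} {m : ℕ} {H : MvPolynomial ℕ ℂ} (hq : q ^ 2 + q + 1 = 0)
  (hdeg : H.degreeOf 0 ≤ 4 * m + 2)
  (hs : ∀ i, i + 1 < 2 * m + 2 → ∀ z, eval (swapV i z) H = eval z H)
  (hi : ∀ v z, eval (insV 0 (q ^ 2 * v) v z) H = 0)

include hq hs hi in
/-- The zeros on a line. -/
theorem eval_pts {w : ℕ → ℂ} {x : ℂ} (hx : x ∈ pts q (2 * m + 1) w) : eval (con x w) H = 0 := by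
  have h3 := q_cube hq
  rw [pts, mem_union, mem_image, mem_image] at hx
  rcases hx with ⟨k, hk, rfl⟩ | ⟨k, hk, rfl⟩
  · rw [mem_range] at hk
    refine zeroB hs hi (j := k + 1) (by omega) (by omega) ?_
    change w k = q ^ 2 * (q * w k)
    linear_combination (-(w k)) * h3
  · rw [mem_range] at hk
    exact zeroA hs hi (j := k + 1) (by omega) (by omega) rfl

include hq hdeg hs hi in
/-- The restriction to the hyperplane `z₀ = 0`. -/
theorem eval_zero_con (hl : ∀ z, (∀ k < 2 * m, z k ≠ 0) → ∀ n < 3,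
      (aeval (putX 1 0 1 z) H).coeff n = 0)
    {z : ℕ → ℂ} (h0 : ∀ k < 2 * m, z k ≠ 0)
    (hd : ∀ i < 2 * m, ∀ j < 2 * m, z i ^ 3 = z j ^ 3 → i = j) (u : ℂ) :
    eval (con 0 (con u z)) H = 0 := by
  obtain ⟨g, hg, hg'⟩ := exists_line H (con 0 z)
  set p := aeval (putX 1 0 1 z) H with hp
  have hpe : ∀ u, p.eval u = eval (con 0 (con u z)) H := by
    intro u
    rw [hp, poly_eval_aeval]
    congr 1
    congr 1
    funext k
    match k with
    | 0 => simp [putX, con]
    | 1 => simp [putX, con]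
    | k + 2 => simp [putX, con]
  have hsw : ∀ u, eval (con 0 (con u z)) H = eval (con u (con 0 z)) H := by
    intro u
    rw [← hs 0 (by omega) (con 0 (con u z))]
    congr 1
    congr 1
    funext k
    unfold swapV
    match k with
    | 0 => rw [Equiv.swap_apply_left]; rfl
    | 1 => rw [Equiv.swap_apply_right]; rfl
    | k + 2 => rw [Equiv.swap_apply_of_ne_of_ne (by omega) (by omega)]; rfl
  have hgp : g = p := Polynomial.funext fun u => by rw [hg', hpe, hsw]
  have hlp := hl z h0
  rw [← hpe]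
  have hpz : p = 0 := by
    by_contra hpne
    have hX : (Polynomial.X ^ 3 : Polynomial ℂ) ∣ p := Polynomial.X_pow_dvd_iff.2 hlp
    obtain ⟨r, hr⟩ := hX
    have hr0 : r ≠ 0 := by
      rintro rfl
      exact hpne (by rw [hr, mul_zero])
    have hdr : p.natDegree = 3 + r.natDegree := by
      rw [hr, Polynomial.natDegree_mul (pow_ne_zero 3 Polynomial.X_ne_zero) hr0,
        Polynomial.natDegree_X_pow]
    have hdp : p.natDegree ≤ 4 * m + 2 := by rw [← hgp]; exact hg.trans hdeg
    have hcard := card_pts hq h0 hd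
    have h1 : r = 0 := by
      refine Polynomial.eq_zero_of_natDegree_lt_card_of_eval_eq_zero' r (pts q (2 * m) z) ?_
        (by rw [hcard]; omega)
      intro x hx
      have hx0 : x ≠ 0 := fun h => zero_notMem_pts hq h0 (h ▸ hx)
      have h2 : p.eval x = 0 := by
        rw [hpe, hsw]
        refine eval_pts hq hs hi ?_
        rw [pts, mem_union, mem_image, mem_image] at hx ⊢
        rcases hx with ⟨k, hk, h⟩ | ⟨k, hk, h⟩
        · rw [mem_range] at hk
          exact Or.inl ⟨k + 1, mem_range.2 (by omega), h⟩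
        · rw [mem_range] at hk
          exact Or.inr ⟨k + 1, mem_range.2 (by omega), h⟩
      rw [hr, Polynomial.eval_mul, Polynomial.eval_pow, Polynomial.eval_X] at h2
      exact (mul_eq_zero.1 h2).resolve_left (pow_ne_zero 3 hx0)
    exact hr0 h1
  rw [hpz, Polynomial.eval_zero]

include hq hdeg hs hi in
theorem eval_generic (hl : ∀ z, (∀ k < 2 * m, z k ≠ 0) → ∀ n < 3,
      (aeval (putX 1 0 1 z) H).coeff n = 0)
    {w : ℕ → ℂ} (h0 : ∀ k < 2 * m + 1, w k ≠ 0)
    (hd : ∀ i < 2 * m + 1, ∀ j < 2 * m + 1, w i ^ 3 = w j ^ 3 → i = j) (x : ℂ) :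
    eval (con x w) H = 0 := by
  obtain ⟨g, hg, hg'⟩ := exists_line H w
  have hw : w = con (w 0) fun k => w (k + 1) := by
    funext k
    cases k <;> rfl
  have hz : eval (con 0 w) H = 0 := by
    rw [hw]
    refine eval_zero_con hq hdeg hs hi hl (fun k hk => h0 (k + 1) (by omega)) ?_ _
    intro i hi' j hj' h
    have := hd (i + 1) (by omega) (j + 1) (by omega) h
    omega
  have hg0 : g = 0 := by
    refine Polynomial.eq_zero_of_natDegree_lt_card_of_eval_eq_zero' g
      (insert 0 (pts q (2 * m + 1) w)) ?_ ?_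
    · intro x hx
      rw [hg']
      rcases Finset.mem_insert.1 hx with rfl | hx
      · exact hz
      · exact eval_pts hq hs hi hx
    · rw [Finset.card_insert_of_notMem (zero_notMem_pts hq h0), card_pts hq h0 hd]
      omega
  rw [← hg', hg0, Polynomial.eval_zero]

include hq hdeg hs hi in
theorem eq_zero (hl : ∀ z, (∀ k < 2 * m, z k ≠ 0) → ∀ n < 3,
      (aeval (putX 1 0 1 z) H).coeff n = 0) : H = 0 := by
  classical
  let Δ : MvPolynomial ℕ ℂ := (∏ k ∈ range (2 * m + 1), X (k + 1)) *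
    ∏ p ∈ (range (2 * m + 1) ×ˢ range (2 * m + 1)).filter (fun p => p.1 ≠ p.2),
      (X (p.1 + 1) ^ 3 - X (p.2 + 1) ^ 3)
  have hΔ : Δ ≠ 0 := by
    intro h
    have h1 := congrArg (eval fun k : ℕ => (k : ℂ)) h
    simp only [Δ, map_mul, map_prod, eval_X, map_sub, map_pow, map_zero] at h1
    rcases mul_eq_zero.1 h1 with h2 | h2
    · obtain ⟨k, -, hk⟩ := Finset.prod_eq_zero_iff.1 h2
      have : ((k + 1 : ℕ) : ℂ) ≠ 0 := Nat.cast_ne_zero.2 (by omega)
      exact this hk
    · obtain ⟨p, hp, hk⟩ := Finset.prod_eq_zero_iff.1 h2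
      rw [mem_filter] at hp
      have h3 : ((p.1 + 1 : ℕ) : ℂ) ^ 3 = ((p.2 + 1 : ℕ) : ℂ) ^ 3 := sub_eq_zero.1 hk
      have h4 : (p.1 + 1) ^ 3 = (p.2 + 1) ^ 3 := by exact_mod_cast h3
      have h5 := Nat.pow_left_injective (n := 3) (by norm_num) h4
      exact hp.2 (by simpa using h5)
  have hprod : H * Δ = 0 := by
    refine MvPolynomial.funext fun z => ?_
    rw [map_mul, map_zero]
    by_cases hgen : (∀ k < 2 * m + 1, z (k + 1) ≠ 0) ∧
        ∀ i < 2 * m + 1, ∀ j < 2 * m + 1, z (i + 1) ^ 3 = z (j + 1) ^ 3 → i = j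
    · have h1 := eval_generic hq hdeg hs hi hl (w := fun k => z (k + 1)) hgen.1 hgen.2 (z 0)
      have h2 : con (z 0) (fun k => z (k + 1)) = z := by
        funext k
        cases k <;> rfl
      rw [h2] at h1
      rw [h1, zero_mul]
    · have h1 : eval z Δ = 0 := by
        simp only [Δ, map_mul, map_prod, eval_X, map_sub, map_pow]
        rw [not_and_or] at hgen
        rcases hgen with h | h
        · push Not at h
          obtain ⟨k, hk, h⟩ := h
          rw [Finset.prod_eq_zero (mem_range.2 hk) h, zero_mul]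
        · push Not at h
          obtain ⟨i, hi', j, hj', h, hij⟩ := h
          refine mul_eq_zero_of_right _ (Finset.prod_eq_zero (i := (i, j)) ?_ ?_)
          · rw [mem_filter, mem_product, mem_range, mem_range]
            exact ⟨⟨hi', hj'⟩, hij⟩
          · simp only
            rw [h, sub_self]
      rw [h1, mul_zero]
  exact (mul_eq_zero.1 hprod).resolve_right hΔ

end Main

end UniS

theorem RecS.unique {q : ℂ} (hq : q ^ 2 + q + 1 = 0) {c d : ℕ → ℂ} {F G : ℕ → MvPolynomial ℕ ℂ}
    (hF : RecS q c d F) (hG : RecS q c d G) (h0 : ∀ z, eval z (F 0) = eval z (G 0)) (m : ℕ)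
    (z : ℕ → ℂ) : eval z (F m) = eval z (G m) := by
  induction m generalizing z with
  | zero => exact h0 z
  | succ m ih =>
    have hH : F (m + 1) - G (m + 1) = 0 := by
      refine UniS.eq_zero hq (m := m) ?_ ?_ ?_ ?_
      · refine le_trans (degreeOf_sub_le _ _ _) ?_
        exact max_le (hF.deg m) (hG.deg m)
      · intro i hi w
        rw [map_sub, map_sub, hF.symm (m + 1) i (by omega), hG.symm (m + 1) i (by omega)]
      · intro v w
        rw [map_sub, hF.ins, hG.ins, ih, sub_self]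
      · intro w hw n hn
        rw [map_sub, Polynomial.coeff_sub]
        interval_cases n
        · rw [hF.low0 m w hw, hG.low0 m w hw, sub_self]
        · rw [hF.low1 m w hw, hG.low1 m w hw, sub_self]
        · rw [hF.low2 m w hw, hG.low2 m w hw, ih, sub_self]
    rw [sub_eq_zero.1 hH]

end Pool.Agent.Perc

end PartperqUniS

section PartperqUniF

/-!
# Uniqueness of symmetric polynomials with a recursion (task UniF)
-/

set_option autoImplicit false

namespace Pool.Agent.Perc

open Finset MvPolynomial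

/-- The properties which characterise the sum of the components. -/
structure RecF (q : ℂ) (c : ℕ → ℂ) (F : ℕ → MvPolynomial ℕ ℂ) : Prop where
  out : ∀ m k, 2 * m ≤ k → (F m).degreeOf k = 0
  deg : ∀ m, (F (m + 1)).degreeOf 0 ≤ 2 * m + 1
  symm : ∀ m i, i + 1 < 2 * m → ∀ z, eval (swapV i z) (F m) = eval z (F m)
  ins : ∀ m v z, eval (insV 0 (q ^ 2 * v) v z) (F (m + 1)) =
    c m * v * (∏ k ∈ range (2 * m), (z k - q * v) ^ 2) * eval z (F m)

namespace UniF

/-- A value in front of a sequence. -/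
def con (x : ℂ) (w : ℕ → ℂ) : ℕ → ℂ
  | 0 => x
  | k + 1 => w k

theorem poly_eval_aeval (P : MvPolynomial ℕ ℂ) (s : ℕ → Polynomial ℂ) (a : ℂ) :
    Polynomial.eval a (aeval s P) = eval (fun k => Polynomial.eval a (s k)) P := by
  induction P using MvPolynomial.induction_on with
  | C c => simp
  | add p r hp hr => rw [map_add, Polynomial.eval_add, hp, hr, map_add]
  | mul_X p k hp => rw [map_mul, Polynomial.eval_mul, hp, map_mul, aeval_X, eval_X]

/-- The restriction to a line in the direction of the first coordinate. -/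
theorem exists_line (P : MvPolynomial ℕ ℂ) (w : ℕ → ℂ) :
    ∃ g : Polynomial ℂ, g.natDegree ≤ P.degreeOf 0 ∧ ∀ x, g.eval x = eval (con x w) P := by
  let s : ℕ → Polynomial ℂ := fun k => Nat.casesOn k Polynomial.X fun k => Polynomial.C (w k)
  refine ⟨aeval s P, ?_, fun x => ?_⟩
  · rw [aeval_def, eval₂_eq]
    refine Polynomial.natDegree_sum_le_of_forall_le _ _ fun e he => ?_
    refine le_trans Polynomial.natDegree_mul_le ?_
    have h1 : ((algebraMap ℂ (Polynomial ℂ)) (coeff e P)).natDegree = 0 :=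
      Polynomial.natDegree_C _
    rw [h1, zero_add]
    refine le_trans (Polynomial.natDegree_prod_le _ _) ?_
    have h2 : ∀ k ∈ e.support, (s k ^ e k).natDegree ≤ if k = 0 then e 0 else 0 := by
      intro k _
      refine le_trans Polynomial.natDegree_pow_le ?_
      cases k with
      | zero =>
        change e 0 * (Polynomial.X : Polynomial ℂ).natDegree ≤ _
        rw [Polynomial.natDegree_X, mul_one, if_pos rfl]
      | succ k =>
        change e (k + 1) * (Polynomial.C (w k)).natDegree ≤ _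
        rw [Polynomial.natDegree_C, mul_zero]
        exact Nat.zero_le _
    refine le_trans (Finset.sum_le_sum h2) ?_
    rw [Finset.sum_ite_eq' e.support 0 fun _ => e 0]
    split_ifs
    · exact monomial_le_degreeOf 0 he
    · exact Nat.zero_le _
  · rw [poly_eval_aeval]
    congr 1
    congr 1
    funext k
    cases k with
    | zero => exact Polynomial.eval_X
    | succ k => exact Polynomial.eval_C

/-- Invariance under all transpositions. -/
theorem swap_inv {L : ℕ} {H : MvPolynomial ℕ ℂ}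
    (hs : ∀ i, i + 1 < L → ∀ z, eval (swapV i z) H = eval z H) {i j : ℕ} (hij : i < j)
    (hj : j < L) : ∀ z : ℕ → ℂ, eval (fun k => z (Equiv.swap i j k)) H = eval z H := by
  induction j, hij using Nat.le_induction with
  | base => exact fun z => hs i hj z
  | succ j hij ih =>
    intro z
    have hij' : i < j := hij
    have e : Equiv.swap i (j + 1) = Equiv.swap j (j + 1) * Equiv.swap i j * Equiv.swap j (j + 1) := by
      rw [Equiv.swap_mul_swap_mul_swap (by omega) (by omega), Equiv.swap_comm]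
    have h1 := hs j hj (fun k => z (Equiv.swap j (j + 1) (Equiv.swap i j k)))
    have h2 := ih (by omega) (fun k => z (Equiv.swap j (j + 1) k))
    have h3 := hs j hj z
    have e1 : (fun k => z (Equiv.swap i (j + 1) k)) =
        swapV j (fun k => z (Equiv.swap j (j + 1) (Equiv.swap i j k))) := by
      funext k
      rw [e]
      rfl
    rw [e1, h1, h2]
    exact h3

section Zeros

variable {q : ℂ} {L : ℕ} {H : MvPolynomial ℕ ℂ}
  (hs : ∀ i, i + 1 < L → ∀ z, eval (swapV i z) H = eval z H)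
  (hi : ∀ v z, eval (insV 0 (q ^ 2 * v) v z) H = 0)

include hs hi in
theorem zeroA {j : ℕ} (h0 : 0 < j) (hj : j < L) {z : ℕ → ℂ} (h : z 0 = q ^ 2 * z j) :
    eval z H = 0 := by
  have key : ∀ w : ℕ → ℂ, w 0 = q ^ 2 * w 1 → eval w H = 0 := by
    intro w hw
    have e : w = insV 0 (q ^ 2 * w 1) (w 1) (fun k => w (k + 2)) := by
      funext k
      unfold insV
      rw [if_neg (Nat.not_lt_zero k)]
      by_cases h0 : k = 0
      · rw [if_pos h0, h0, hw]
      · rw [if_neg h0]
        by_cases h1 : k = 0 + 1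
        · rw [if_pos h1, h1]
        · rw [if_neg h1]
          congr 1
          omega
    rw [e]
    exact hi _ _
  by_cases h1 : j = 1
  · subst h1
    exact key z h
  · rw [← swap_inv hs (i := 1) (j := j) (by omega) hj z]
    refine key _ ?_
    rw [Equiv.swap_apply_left, Equiv.swap_apply_of_ne_of_ne (by omega) (by omega)]
    exact h

include hs hi in
theorem zeroB {j : ℕ} (h0 : 0 < j) (hj : j < L) {z : ℕ → ℂ} (h : z j = q ^ 2 * z 0) :
    eval z H = 0 := by
  rw [← swap_inv hs h0 hj z]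
  refine zeroA hs hi h0 hj ?_
  rw [Equiv.swap_apply_left, Equiv.swap_apply_right]
  exact h

end Zeros

section Points

variable {q : ℂ}

theorem q_cube (hq : q ^ 2 + q + 1 = 0) : q ^ 3 = 1 := by linear_combination (q - 1) * hq

theorem q_ne_zero (hq : q ^ 2 + q + 1 = 0) : q ≠ 0 := by
  rintro rfl
  norm_num at hq

theorem q_ne_one (hq : q ^ 2 + q + 1 = 0) : q ≠ 1 := by
  rintro rfl
  norm_num at hq

/-- The zeros. -/
noncomputable def pts (q : ℂ) (n : ℕ) (a : ℕ → ℂ) : Finset ℂ :=
  (range n).image (fun k => q * a k) ∪ (range n).image fun k => q ^ 2 * a k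

theorem card_pts (hq : q ^ 2 + q + 1 = 0) {n : ℕ} {a : ℕ → ℂ} (h0 : ∀ k < n, a k ≠ 0)
    (hd : ∀ i < n, ∀ j < n, a i ^ 3 = a j ^ 3 → i = j) : (pts q n a).card = 2 * n := by
  have h3 := q_cube hq
  have hq0 := q_ne_zero hq
  have hq1 := q_ne_one hq
  rw [pts, Finset.card_union_of_disjoint, Finset.card_image_of_injOn,
    Finset.card_image_of_injOn, Finset.card_range]
  · ring
  · intro i hi j hj h
    simp only [coe_range, Set.mem_Iio] at hi hj
    refine hd i hi j hj ?_
    have h1 : a i = a j := mul_left_cancel₀ (pow_ne_zero 2 hq0) h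
    rw [h1]
  · intro i hi j hj h
    simp only [coe_range, Set.mem_Iio] at hi hj
    refine hd i hi j hj ?_
    have h1 : a i = a j := mul_left_cancel₀ hq0 h
    rw [h1]
  · rw [Finset.disjoint_left]
    intro x hx hx'
    rw [mem_image] at hx hx'
    obtain ⟨i, hi, rfl⟩ := hx
    obtain ⟨j, hj, h⟩ := hx'
    rw [mem_range] at hi hj
    have hij : i = j := by
      refine hd i hi j hj ?_
      have h' : q ^ 2 * a j = q * a i := h
      have h1 : (q ^ 2 * a j) ^ 3 = (q * a i) ^ 3 := by rw [h']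
      linear_combination (-1 : ℂ) * h1 + (a j ^ 3 * (q ^ 3 + 1) - a i ^ 3) * h3
    subst hij
    have h1 : q * a i * (q - 1) = 0 := by linear_combination h
    rcases mul_eq_zero.1 h1 with h2 | h2
    · exact mul_ne_zero hq0 (h0 i hi) h2
    · exact hq1 (sub_eq_zero.1 h2)

theorem zero_notMem_pts (hq : q ^ 2 + q + 1 = 0) {n : ℕ} {a : ℕ → ℂ} (h0 : ∀ k < n, a k ≠ 0) :
    (0 : ℂ) ∉ pts q n a := by
  have hq0 := q_ne_zero hq
  intro h
  rw [pts, mem_union, mem_image, mem_image] at h
  rcases h with ⟨k, hk, h⟩ | ⟨k, hk, h⟩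
  · exact mul_ne_zero hq0 (h0 k (mem_range.1 hk)) h
  · exact mul_ne_zero (pow_ne_zero 2 hq0) (h0 k (mem_range.1 hk)) h

end Points

section Main

variable {q : ℂ} {m : ℕ} {H : MvPolynomial ℕ ℂ} (hq : q ^ 2 + q + 1 = 0)
  (hdeg : H.degreeOf 0 ≤ 2 * m + 1)
  (hs : ∀ i, i + 1 < 2 * m + 2 → ∀ z, eval (swapV i z) H = eval z H)
  (hi : ∀ v z, eval (insV 0 (q ^ 2 * v) v z) H = 0)

include hq hs hi in
/-- The zeros on a line. -/
theorem eval_pts {w : ℕ → ℂ} {x : ℂ} (hx : x ∈ pts q (2 * m + 1) w) : eval (con x w) H = 0 := by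
  have h3 := q_cube hq
  rw [pts, mem_union, mem_image, mem_image] at hx
  rcases hx with ⟨k, hk, rfl⟩ | ⟨k, hk, rfl⟩
  · rw [mem_range] at hk
    refine zeroB hs hi (j := k + 1) (by omega) (by omega) ?_
    change w k = q ^ 2 * (q * w k)
    linear_combination (-(w k)) * h3
  · rw [mem_range] at hk
    exact zeroA hs hi (j := k + 1) (by omega) (by omega) rfl

include hq hdeg hs hi in
theorem eval_generic {w : ℕ → ℂ} (h0 : ∀ k < 2 * m + 1, w k ≠ 0)
    (hd : ∀ i < 2 * m + 1, ∀ j < 2 * m + 1, w i ^ 3 = w j ^ 3 → i = j) (x : ℂ) :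
    eval (con x w) H = 0 := by
  obtain ⟨g, hg, hg'⟩ := exists_line H w
  have hg0 : g = 0 := by
    refine Polynomial.eq_zero_of_natDegree_lt_card_of_eval_eq_zero' g
      (pts q (2 * m + 1) w) ?_ ?_
    · intro x hx
      rw [hg']
      exact eval_pts hq hs hi hx
    · rw [card_pts hq h0 hd]
      omega
  rw [← hg', hg0, Polynomial.eval_zero]

include hq hdeg hs hi in
theorem eq_zero : H = 0 := by
  classical
  let Δ : MvPolynomial ℕ ℂ := (∏ k ∈ range (2 * m + 1), X (k + 1)) *
    ∏ p ∈ (range (2 * m + 1) ×ˢ range (2 * m + 1)).filter (fun p => p.1 ≠ p.2),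
      (X (p.1 + 1) ^ 3 - X (p.2 + 1) ^ 3)
  have hΔ : Δ ≠ 0 := by
    intro h
    have h1 := congrArg (eval fun k : ℕ => (k : ℂ)) h
    simp only [Δ, map_mul, map_prod, eval_X, map_sub, map_pow, map_zero] at h1
    rcases mul_eq_zero.1 h1 with h2 | h2
    · obtain ⟨k, -, hk⟩ := Finset.prod_eq_zero_iff.1 h2
      have : ((k + 1 : ℕ) : ℂ) ≠ 0 := Nat.cast_ne_zero.2 (by omega)
      exact this hk
    · obtain ⟨p, hp, hk⟩ := Finset.prod_eq_zero_iff.1 h2
      rw [mem_filter] at hp
      have h3 : ((p.1 + 1 : ℕ) : ℂ) ^ 3 = ((p.2 + 1 : ℕ) : ℂ) ^ 3 := sub_eq_zero.1 hk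
      have h4 : (p.1 + 1) ^ 3 = (p.2 + 1) ^ 3 := by exact_mod_cast h3
      have h5 := Nat.pow_left_injective (n := 3) (by norm_num) h4
      exact hp.2 (by simpa using h5)
  have hprod : H * Δ = 0 := by
    refine MvPolynomial.funext fun z => ?_
    rw [map_mul, map_zero]
    by_cases hgen : (∀ k < 2 * m + 1, z (k + 1) ≠ 0) ∧
        ∀ i < 2 * m + 1, ∀ j < 2 * m + 1, z (i + 1) ^ 3 = z (j + 1) ^ 3 → i = j
    · have h1 := eval_generic hq hdeg hs hi (w := fun k => z (k + 1)) hgen.1 hgen.2 (z 0)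
      have h2 : con (z 0) (fun k => z (k + 1)) = z := by
        funext k
        cases k <;> rfl
      rw [h2] at h1
      rw [h1, zero_mul]
    · have h1 : eval z Δ = 0 := by
        simp only [Δ, map_mul, map_prod, eval_X, map_sub, map_pow]
        rw [not_and_or] at hgen
        rcases hgen with h | h
        · push Not at h
          obtain ⟨k, hk, h⟩ := h
          rw [Finset.prod_eq_zero (mem_range.2 hk) h, zero_mul]
        · push Not at h
          obtain ⟨i, hi', j, hj', h, hij⟩ := h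
          refine mul_eq_zero_of_right _ (Finset.prod_eq_zero (i := (i, j)) ?_ ?_)
          · rw [mem_filter, mem_product, mem_range, mem_range]
            exact ⟨⟨hi', hj'⟩, hij⟩
          · simp only
            rw [h, sub_self]
      rw [h1, mul_zero]
  exact (mul_eq_zero.1 hprod).resolve_right hΔ

end Main

end UniF

theorem RecF.unique {q : ℂ} (hq : q ^ 2 + q + 1 = 0) {c : ℕ → ℂ} {F G : ℕ → MvPolynomial ℕ ℂ}
    (hF : RecF q c F) (hG : RecF q c G) (h0 : ∀ z, eval z (F 0) = eval z (G 0)) (m : ℕ)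
    (z : ℕ → ℂ) : eval z (F m) = eval z (G m) := by
  induction m generalizing z with
  | zero => exact h0 z
  | succ m ih =>
    have hH : F (m + 1) - G (m + 1) = 0 := by
      refine UniF.eq_zero hq (m := m) ?_ ?_ ?_
      · refine le_trans (degreeOf_sub_le _ _ _) ?_
        exact max_le (hF.deg m) (hG.deg m)
      · intro i hi w
        rw [map_sub, map_sub, hF.symm (m + 1) i (by omega), hG.symm (m + 1) i (by omega)]
      · intro v w
        rw [map_sub, hF.ins, hG.ins, ih, sub_self]
    rw [sub_eq_zero.1 hH]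

end Pool.Agent.Perc

end PartperqUniF

section PartperqQSchur

/-!
# The Schur side (task QSchur, helper13)
-/

set_option autoImplicit false

namespace Pool.Agent.Perc

open Finset MvPolynomial

/-- The exponents `0, 2, 3, 5, 6, 8, …`. -/
def eP2 (j : ℕ) : ℕ := 3 * (j / 2) + 2 * (j % 2)

/-- The Schur polynomial of `4 m` variables at doubled variables. -/
noncomputable def TP (m : ℕ) : MvPolynomial ℕ ℂ := rename (fun k => k / 2) (schur (4 * m) eS3)

/-- The product of two Schur polynomials. -/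
noncomputable def GP (m : ℕ) : MvPolynomial ℕ ℂ := schur (2 * m) eS3 * schur (2 * m) eP2

namespace QSchurQ

theorem eP2_eq : eP2 = SumB.eP := by
  funext j
  unfold eP2 SumB.eP eS3
  omega

theorem TP_eq (m : ℕ) : TP m = QSchur.SD (2 * m) := by
  unfold TP QSchur.SD
  rw [show 2 * (2 * m) = 4 * m by ring]

theorem GP_eq (m : ℕ) : GP m = QSchur.FS m := by
  unfold GP QSchur.FS
  rw [eP2_eq]

theorem swapV_eq (i : ℕ) (z : ℕ → ℂ) : swapV i z = fun k => z (Equiv.swap i (i + 1) k) := rfl

theorem swap_fix {N i : ℕ} (hi : i + 1 < N) : ∀ k, N ≤ k → Equiv.swap i (i + 1) k = k := by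
  intro k hk
  exact Equiv.swap_apply_of_ne_of_ne (by omega) (by omega)

theorem eval_aeval_poly (f : ℕ → Polynomial ℂ) (P : MvPolynomial ℕ ℂ) (y : ℂ) :
    Polynomial.eval y (aeval f P) = eval (fun k => Polynomial.eval y (f k)) P := by
  induction P using MvPolynomial.induction_on with
  | C a => simp
  | add p r hp hr => rw [map_add, Polynomial.eval_add, hp, hr, map_add]
  | mul_X p k hp => rw [map_mul, Polynomial.eval_mul, hp, map_mul, aeval_X, eval_X]

/-- Two zeros at the beginning. -/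
theorem two_zero {q : ℂ} (hq : q ^ 2 + q + 1 = 0) (M : ℕ) (w : ℕ → ℂ) (h0 : w 0 = 0)
    (h1 : w 1 = 0) : eval w (schur (2 * (M + 1)) eS3) =
      (∏ k ∈ range (2 * M), w (k + 2)) * eval (fun k => w (k + 2)) (schur (2 * M) eS3) := by
  have h := QSchur.eS3_restrict hq M (i := 0) (by omega) (fun k => w (k + 2)) 0
  have h2 : insV 0 (q ^ 2 * 0) 0 (fun k => w (k + 2)) = w := by
    funext k
    unfold insV
    by_cases h3 : k = 0
    · subst h3
      rw [if_neg (by omega), if_pos rfl, h0, mul_zero]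
    · by_cases h4 : k = 1
      · subst h4
        rw [if_neg (by omega), if_neg (by omega), if_pos rfl, h1]
      · rw [if_neg (by omega), if_neg h3, if_neg (by omega)]
        show w (k - 2 + 2) = w k
        congr 1
        omega
  rw [h2] at h
  rw [h]
  congr 1
  refine Finset.prod_congr rfl fun k _ => ?_
  ring

theorem low_TP {q : ℂ} (hq : q ^ 2 + q + 1 = 0) (m : ℕ) (z : ℕ → ℂ) :
    ∃ G : Polynomial ℂ, aeval (putX 1 0 1 z) (TP (m + 1)) = Polynomial.X ^ 2 * G ∧
      G.coeff 0 = (∏ k ∈ range (2 * m), z k ^ 4) * eval z (TP m) := by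
  have hprod : ∏ k ∈ range (2 * (2 * m)), z (k / 2) = ∏ k ∈ range (2 * m), z k ^ 2 := by
    rw [SumB.prod_two (fun k => z (k / 2)) (2 * m)]
    refine Finset.prod_congr rfl fun k _ => ?_
    rw [show 2 * k / 2 = k by omega, show (2 * k + 1) / 2 = k by omega, sq]
  refine ⟨Polynomial.C (∏ k ∈ range (2 * m), z k ^ 2) *
    aeval (fun k => if k < 2 then (Polynomial.X : Polynomial ℂ) else
      Polynomial.C (z ((k - 2) / 2))) (schur (2 * (2 * m + 1)) eS3), ?_, ?_⟩
  · apply Polynomial.funext
    intro y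
    rw [eval_aeval_poly, TP_eq, QSchur.eval_SD, show 2 * (2 * (m + 1)) = 2 * (2 * m + 1 + 1) by ring,
      two_zero hq, Polynomial.eval_mul, Polynomial.eval_mul, Polynomial.eval_pow, Polynomial.eval_X,
      Polynomial.eval_C, eval_aeval_poly]
    · have h1 : (fun k => Polynomial.eval y (putX 1 0 1 z ((k + 2) / 2))) =
          fun k => Polynomial.eval y (if k < 2 then (Polynomial.X : Polynomial ℂ) else
            Polynomial.C (z ((k - 2) / 2))) := by
        funext k
        unfold putX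
        by_cases h2 : k < 2
        · rw [if_neg (by omega), if_neg (by omega), if_pos (by omega), if_pos h2]
          simp
        · rw [if_neg (by omega), if_neg (by omega), if_neg (by omega), if_neg h2]
          congr 3
          omega
      rw [h1]
      have h2 : ∏ k ∈ range (2 * (2 * m + 1)), Polynomial.eval y (putX 1 0 1 z ((k + 2) / 2)) =
          y ^ 2 * ∏ k ∈ range (2 * m), z k ^ 2 := by
        rw [← hprod, show 2 * (2 * m + 1) = 2 + 2 * (2 * m) by ring, prod_range_add,
          prod_range_succ, prod_range_one]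
        have h3 : Polynomial.eval y (putX 1 0 1 z ((0 + 2) / 2)) = y := by
          unfold putX
          simp
        have h4 : Polynomial.eval y (putX 1 0 1 z ((1 + 2) / 2)) = y := by
          unfold putX
          simp
        first
          | rw [h3, h4, sq]
          | rw [h3, sq]
        congr 1
        refine Finset.prod_congr rfl fun k _ => ?_
        unfold putX
        rw [if_neg (by omega), if_neg (by omega), if_neg (by omega), Polynomial.eval_C]
        congr 1
        omega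
      have h5 : ∏ k ∈ range (2 * (2 * m + 1)), Polynomial.eval y
          (if k < 2 then (Polynomial.X : Polynomial ℂ) else Polynomial.C (z ((k - 2) / 2))) =
          y ^ 2 * ∏ k ∈ range (2 * m), z k ^ 2 := by
        rw [← h2]
        exact Finset.prod_congr rfl fun k _ => (congrFun h1 k).symm
      rw [h5]
      ring
    · unfold putX
      simp
    · unfold putX
      simp
  · rw [Polynomial.coeff_zero_eq_eval_zero, Polynomial.eval_mul, Polynomial.eval_C,
      eval_aeval_poly, two_zero hq]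
    · have h1 : (fun k => Polynomial.eval 0 (if k + 2 < 2 then (Polynomial.X : Polynomial ℂ) else
            Polynomial.C (z ((k + 2 - 2) / 2)))) = fun k => z (k / 2) := by
        funext k
        rw [if_neg (by omega), Polynomial.eval_C]
        congr 1
      rw [h1, hprod, TP_eq, QSchur.eval_SD, ← mul_assoc, ← Finset.prod_mul_distrib]
      congr 1
      refine Finset.prod_congr rfl fun k _ => ?_
      ring
    · simp
    · simp

/-- The value at one. -/
theorem eval_one (N : ℕ) {e : ℕ → ℕ} (he : StrictMono e) :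
    eval (fun _ => 1) (schur N e) =
      ((∏ j ∈ range N, ∏ i ∈ range j, (((e j : ℝ) - e i) / (j - i)) : ℝ) : ℂ) := by
  have h := SumB.value e he N
  have h1 := SumB.value_ne N
  rw [← eq_div_iff h1] at h
  rw [h, SumB.dd, SumB.dd]
  push_cast
  rw [← Finset.prod_div_distrib]
  refine Finset.prod_congr rfl fun j _ => ?_
  rw [← Finset.prod_div_distrib]

end QSchurQ

open QSchurQ

theorem recS_TP {q : ℂ} (hq : q ^ 2 + q + 1 = 0) :
    RecS q (fun _ => 3 * q ^ 2) (fun _ => 1) TP := by
  refine ⟨?_, ?_, ?_, ?_, ?_, ?_, ?_⟩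
  · intro m k hk
    rw [TP_eq]
    exact QSchur.degreeOf_SD_out _ hk
  · intro m
    rw [TP_eq]
    refine (QSchur.degreeOf_SD_le _ _).trans ?_
    omega
  · intro m i hi z
    rw [TP_eq, swapV_eq]
    exact QSchur.SD_perm _ _ (swap_fix hi) z
  · intro m v z
    rw [TP_eq, TP_eq, show 2 * (m + 1) = 2 * m + 2 by ring, QSchur.SD_restrict hq (2 * m) (by omega),
      Finset.prod_pow]
  · intro m z _
    obtain ⟨G, h1, _⟩ := low_TP hq m z
    rw [h1, Polynomial.coeff_X_pow_mul', if_neg (by omega)]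
  · intro m z _
    obtain ⟨G, h1, _⟩ := low_TP hq m z
    rw [h1, Polynomial.coeff_X_pow_mul', if_neg (by omega)]
  · intro m z _
    obtain ⟨G, h1, h2⟩ := low_TP hq m z
    rw [h1, Polynomial.coeff_X_pow_mul', if_pos (by omega), h2]
    ring

theorem recF_GP {q : ℂ} (hq : q ^ 2 + q + 1 = 0) : RecF q (fun _ => -q) GP := by
  refine ⟨?_, ?_, ?_, ?_⟩
  · intro m k hk
    rw [GP_eq]
    exact QSchur.degreeOf_FS_out _ hk
  · intro m
    rw [GP_eq]
    refine (QSchur.degreeOf_FS_le _ _).trans ?_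
    omega
  · intro m i hi z
    rw [GP_eq, swapV_eq]
    exact QSchur.FS_perm _ _ (swap_fix hi) z
  · intro m v z
    rw [GP_eq, GP_eq, QSchur.FS_restrict hq m (by omega), Finset.prod_pow]

theorem eval_TP_zero (z : ℕ → ℂ) : eval z (TP 0) = 1 := by
  unfold TP
  rw [mul_zero, QSchur.schur_zero, map_one, map_one]

theorem eval_GP_zero (z : ℕ → ℂ) : eval z (GP 0) = 1 := by
  rw [GP_eq, QSchur.FS_zero, map_one]

/-- The exact probability. -/
noncomputable def pv (m : ℕ) : ℝ :=
  ((∏ j ∈ range (4 * m), ∏ i ∈ range j, (((eS3 j : ℝ) - eS3 i) / (j - i))) /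
    (3 ^ m * ((∏ j ∈ range (2 * m), ∏ i ∈ range j, (((eS3 j : ℝ) - eS3 i) / (j - i))) *
      ∏ j ∈ range (2 * m), ∏ i ∈ range j, (((eP2 j : ℝ) - eP2 i) / (j - i))) ^ 2))

theorem eval_TP_one (m : ℕ) : eval (fun _ => 1) (TP m) =
    ((∏ j ∈ range (4 * m), ∏ i ∈ range j, (((eS3 j : ℝ) - eS3 i) / (j - i)) : ℝ) : ℂ) := by
  rw [← eval_one (4 * m) SumB.strictMono_eS3, TP, eval_rename]
  rfl

theorem eval_GP_one (m : ℕ) : eval (fun _ => 1) (GP m) =
    (((∏ j ∈ range (2 * m), ∏ i ∈ range j, (((eS3 j : ℝ) - eS3 i) / (j - i))) *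
      ∏ j ∈ range (2 * m), ∏ i ∈ range j, (((eP2 j : ℝ) - eP2 i) / (j - i)) : ℝ) : ℂ) := by
  have h : StrictMono eP2 := by rw [eP2_eq]; exact SumB.strictMono_eP
  rw [Complex.ofReal_mul, ← eval_one (2 * m) SumB.strictMono_eS3, ← eval_one (2 * m) h, GP, map_mul]

theorem eval_GP_one_ne (m : ℕ) : eval (fun _ => 1) (GP m) ≠ 0 := by
  have h : StrictMono eP2 := by rw [eP2_eq]; exact SumB.strictMono_eP
  have key : ∀ {e : ℕ → ℕ}, StrictMono e → eval (fun _ => 1) (schur (2 * m) e) ≠ 0 := by
    intro e he h0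
    have h1 := SumB.value e he (2 * m)
    rw [h0, zero_mul] at h1
    exact SumB.dd_ne_zero he (2 * m) h1.symm
  rw [GP, map_mul]
  exact mul_ne_zero (key SumB.strictMono_eS3) (key h)

end Pool.Agent.Perc

end PartperqQSchur
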