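import Pool.Agent.Lib.MP_6bd702_z.Z032

/-!
# The cylinder (task T_Cyl)
-/

set_option autoImplicit false

namespace Pool.Agent.PercT

open Finset Pool.Agent.Perc

variable {L : ℕ} {H : ℤ}

/-- Local events have the same probability on the cylinder. -/
theorem pr_perC (hL : 0 < L) {a : ℤ} {G : Finset (ℤ × ℤ)} (hG : ∀ f ∈ G, a ≤ f.1 ∧ f.1 < a + L ∧
    -H ≤ f.2 ∧ f.2 < H) {A : Set Cfg} (hA : DepOn G A) :
    pr (RF 0 L (-H) H) {ω | perC L ω ∈ A} = pr G A := by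
  have hL' : (0 : ℤ) < (L : ℤ) := by exact_mod_cast hL
  refine pr_comp (S := G) (S' := RF 0 L (-H) H) (f := fun x : ℤ × ℤ => (x.1 % (L : ℤ), x.2))
    ?_ ?_ hA
  · intro x hx y hy hxy
    have hx' := hG x (by exact_mod_cast hx)
    have hy' := hG y (by exact_mod_cast hy)
    obtain ⟨h1, h2⟩ : x.1 % (L : ℤ) = y.1 % (L : ℤ) ∧ x.2 = y.2 := Prod.mk.inj hxy
    have h3 : x.1 = y.1 := by
      have h4 : (x.1 - y.1) % (L : ℤ) = 0 := Int.emod_eq_emod_iff_emod_sub_eq_zero.1 h1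
      obtain ⟨k, hk⟩ := Int.dvd_of_emod_eq_zero h4
      have h5 : (L : ℤ) * k < L * 1 := by omega
      have h6 : (L : ℤ) * (-1) < L * k := by omega
      have h7 : k < 1 := lt_of_mul_lt_mul_left h5 hL'.le
      have h8 : -1 < k := lt_of_mul_lt_mul_left h6 hL'.le
      have h9 : k = 0 := by omega
      rw [h9, mul_zero] at hk
      omega
    exact Prod.ext h3 h2
  · intro x hx
    have hx' := hG x hx
    have h1 := Int.emod_nonneg x.1 hL'.ne'
    have h2 := Int.emod_lt_of_pos x.1 hL'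
    simp only [RF, mem_product, mem_Ico]
    omega

theorem mem_redS {S : Set (ℤ × ℤ)} {f : ℤ × ℤ} (hf : f ∈ S) :
    (f.1 % (L : ℤ), f.2) ∈ redS L S := ⟨f, hf, rfl⟩

/-- Resampling on the cylinder. -/
theorem pr_mix_perC {S : Cfg → Set (ℤ × ℤ)}
    (hS : ∀ ω ω' : Cfg, (∀ f ∈ S ω, ω f = ω' f) → S ω' = S ω)
    (A : Set Cfg) (B : Cfg → Set Cfg) (X : Set Cfg) {c : ℝ}
    (hB : ∀ ω : Cfg, perC L ω ∈ A → c ≤ pr (RF 0 L (-H) H) (B ω))
    (hX : ∀ ω : Cfg, perC L ω ∈ A → ∀ ξ ∈ B ω, mix (redS L (S (perC L ω))) ω ξ ∈ X) :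
    c * pr (RF 0 L (-H) H) {ω | perC L ω ∈ A} ≤ pr (RF 0 L (-H) H) X := by
  refine pr_mix (S := fun ω => redS L (S (perC L ω))) ?_ {ω | perC L ω ∈ A} B X hB hX
  intro ω ω' h
  have h1 : S (perC L ω') = S (perC L ω) := by
    refine hS _ _ fun f hf => ?_
    exact h _ (mem_redS hf)
  simp only [h1]

theorem perC_mix (hL : 0 < L) {S : Set (ℤ × ℤ)} {ω ξ : Cfg} {f : ℤ × ℤ} (hf : f ∈ S) :
    perC L (mix (redS L S) ω ξ) f = perC L ω f := by
  have h : (f.1 % (L : ℤ), f.2) ∈ redS L S := mem_redS hf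
  unfold perC mix
  rw [if_pos h]

theorem perC_mix' (hL : 0 < L) {S : Set (ℤ × ℤ)} {ω ξ : Cfg} {f : ℤ × ℤ}
    (hf : ∀ k : ℤ, (f.1 + k * L, f.2) ∉ S) :
    perC L (mix (redS L S) ω ξ) f = perC L ξ f := by
  have h : (f.1 % (L : ℤ), f.2) ∉ redS L S := by
    rintro ⟨g, hg, hgf⟩
    obtain ⟨h1, h2⟩ : g.1 % (L : ℤ) = f.1 % (L : ℤ) ∧ g.2 = f.2 := Prod.mk.inj hgf
    have h4 : (g.1 - f.1) % (L : ℤ) = 0 := Int.emod_eq_emod_iff_emod_sub_eq_zero.1 h1
    obtain ⟨k, hk⟩ := Int.dvd_of_emod_eq_zero h4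
    refine hf k ?_
    have h5 : (f.1 + k * (L : ℤ), f.2) = g := by
      refine Prod.ext ?_ h2.symm
      simp only
      rw [mul_comm k]
      omega
    rw [h5]
    exact hg
  unfold perC mix
  rw [if_neg h]

theorem perC_add (ω : Cfg) (f : ℤ × ℤ) : perC L ω (f.1 + L, f.2) = perC L ω f := by
  unfold perC
  simp only [Int.add_emod_right]

/-- Translation by one period. -/
theorem conn_perC_shift {ω : Cfg} {H : ℤ} {u v : ℤ × ℤ}
    (h : Conn (perC L ω) (stripZ H) u v) :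
    Conn (perC L ω) (stripZ H) (u.1 + L, u.2) (v.1 + L, v.2) := by
  have h1 : shiftC (L : ℤ) 0 (perC L ω) = perC L ω := by
    funext f
    have h2 := perC_add (L := L) ω f
    unfold shiftC
    simpa using h2
  have h3 := (conn_shift (L : ℤ) 0 (perC L ω) (stripZ H) u v).1 (by rw [h1]; exact h)
  have h4 : ({f : ℤ × ℤ | (f.1 - (L : ℤ), f.2 - 0) ∈ stripZ H} : Set (ℤ × ℤ)) = stripZ H := by
    ext f
    simp [stripZ]
  rw [h4] at h3
  simpa using h3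

end Pool.Agent.PercT
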