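import Pool.Agent.Lib.MP_6bd702_z.Z066
import Pool.Agent.Lib.MP_6bd702_z.Z046

/-!
# The two-sided cylinder: completeness (task TwoD)
-/

set_option autoImplicit false

namespace Pool.Agent.Perc

open Finset

variable {L M : ℕ}

namespace TwoD

/-- The shift of the block of the partner. -/
def dl (s : St) (r : ℕ) : ℤ := if s.2 r = true then (if r < s.1 r then -1 else 1) else 0

/-- The lexicographic order of sites and gaps given by block and residue. -/
def Lt (a : ℤ) (r : ℕ) (K : ℤ × ℕ) : Prop := a < K.1 ∨ (a = K.1 ∧ r < K.2)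

/-- Two gaps, given by block and residue, are in the same region. -/
def Reg (N : ℕ) (s : St) (K K' : ℤ × ℕ) : Prop :=
  ∀ (a : ℤ) (r : ℕ), r < N → ((Lt a r K ↔ Lt (a + dl s r) (s.1 r) K) ↔
    (Lt a r K' ↔ Lt (a + dl s r) (s.1 r) K'))

theorem Reg.refl (N : ℕ) (s : St) (K : ℤ × ℕ) : Reg N s K K := fun _ _ _ => Iff.rfl

theorem Reg.symm {N : ℕ} {s : St} {K K' : ℤ × ℕ} (h : Reg N s K K') : Reg N s K' K :=
  fun a r hr => (h a r hr).symm

theorem Reg.trans {N : ℕ} {s : St} {K K' K'' : ℤ × ℕ} (h : Reg N s K K') (h' : Reg N s K' K'') :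
    Reg N s K K'' := fun a r hr => (h a r hr).trans (h' a r hr)

theorem lift_eq {N : ℕ} (s : St) (a : ℤ) {r : ℕ} (hr : r < N) :
    liftS N s (a * N + r) = (a + dl s r) * N + s.1 r := by
  have h0 : (0 : ℤ) < N := by omega
  have h1 : (a * N + r) / (N : ℤ) = a := by
    rw [add_comm, Int.add_mul_ediv_right _ _ (by omega), Int.ediv_eq_zero_of_lt (by omega)
      (by omega), zero_add]
  have h2 : (a * N + r) % (N : ℤ) = r := by
    rw [add_comm, Int.add_mul_emod_self_right, Int.emod_eq_of_lt (by omega) (by omega)]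
  unfold liftS dl
  rw [h1, h2, Int.toNat_natCast]
  split_ifs <;> ring

theorem lt_iff {N : ℕ} {a b : ℤ} {r t : ℕ} (hr : r < N) (ht : t < N) :
    (a * N + r < b * N + (t : ℤ) ↔ Lt a r (b, t)) := by
  unfold Lt
  simp only
  have h0 : (0 : ℤ) < N := by omega
  have hr' : (r : ℤ) < N := by omega
  have ht' : (t : ℤ) < N := by omega
  rcases lt_trichotomy a b with h | h | h
  · have h1 : (a + 1) * N ≤ b * (N : ℤ) := mul_le_mul_of_nonneg_right (by omega) h0.le
    constructor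
    · intro _; left; exact h
    · intro _; nlinarith
  · subst h
    omega
  · have h1 : (b + 1) * N ≤ a * (N : ℤ) := mul_le_mul_of_nonneg_right (by omega) h0.le
    constructor
    · intro h2
      nlinarith
    · intro h2
      omega

theorem reg_iff {N : ℕ} {s : St} (hp : ∀ r < N, s.1 r < N) {b b' : ℤ} {t t' : ℕ}
    (ht : t < N) (ht' : t' < N) :
    SameReg N s (b * N + t) (b' * N + t') ↔ Reg N s (b, t) (b', t') := by
  have h0 : (0 : ℤ) < N := by omega
  constructor
  · intro h a r hr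
    have h1 := h (a * N + r)
    rw [lift_eq s a hr, lt_iff hr ht, lt_iff (hp r hr) ht, lt_iff hr ht',
      lt_iff (hp r hr) ht'] at h1
    exact h1
  · intro h x
    obtain ⟨a, r, hr, rfl⟩ : ∃ (a : ℤ) (r : ℕ), r < N ∧ x = a * N + r := by
      refine ⟨x / N, (x % N).toNat, ?_, ?_⟩
      · have := Int.emod_lt_of_pos x h0
        have := Int.emod_nonneg x h0.ne'
        omega
      · have := Int.emod_nonneg x h0.ne'
        have := Int.mul_ediv_add_emod x N
        rw [Int.toNat_of_nonneg (by omega)]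
        linarith
    rw [lift_eq s a hr, lt_iff hr ht, lt_iff (hp r hr) ht, lt_iff hr ht', lt_iff (hp r hr) ht']
    exact h a r hr

theorem iff4 {P Q S P' Q' S' : Prop} (r1 : (P ↔ Q) ↔ (P' ↔ Q')) (r2 : (Q ↔ S) ↔ (Q' ↔ S')) :
    (P ↔ S) ↔ (P' ↔ S') := by
  by_cases hP : P <;> by_cases hQ : Q <;> by_cases hS : S <;> by_cases hP' : P' <;>
    by_cases hQ' : Q' <;> by_cases hS' : S' <;> simp_all

section EL

variable {N : ℕ} {s : St} {i : ℕ}

theorem eL_fst_i (i : ℕ) (s : St) : (eL i s).1 i = i + 1 := by simp [eL, eAct]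
theorem eL_fst_i1 (i : ℕ) (s : St) : (eL i s).1 (i + 1) = i := by simp [eL, eAct]
theorem dl_eL_i (i : ℕ) (s : St) : dl (eL i s) i = 0 := by simp [dl, eL]
theorem dl_eL_i1 (i : ℕ) (s : St) : dl (eL i s) (i + 1) = 0 := by simp [dl, eL]

theorem label_partner (h : IsAnn N s) {x : ℕ} (hx : x < N) : s.2 (s.1 x) = s.2 x := by
  obtain ⟨g, -, hg⟩ := h.mark
  have h1 := hg x hx
  have h2 := hg (s.1 x) (h.nc.lt x hx)
  rw [h.nc.inv] at h2
  rw [Bool.eq_iff_iff, h1, h2]
  tauto

theorem eL_of_i (h : IsAnn N s) (hi : i + 1 < N) {r : ℕ} (hr : r < N) (h1 : r ≠ i)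
    (h2 : r ≠ i + 1) (h3 : s.1 r = i) :
    (eL i s).1 r = s.1 (i + 1) ∧ dl (eL i s) r = dl s r + dl s (i + 1) := by
  have e1 : (eL i s).1 r = s.1 (i + 1) := by simp [eL, eAct, h1, h2, h3]
  refine ⟨e1, ?_⟩
  obtain ⟨g, -, hg⟩ := h.mark
  have e2 : (eL i s).2 r = xor (s.2 i) (s.2 (i + 1)) := by simp [eL, h1, h2, h3]
  have hpi : s.1 i = r := by rw [← h3]; exact h.nc.inv r
  set b := s.1 (i + 1) with hb
  have hpb : s.1 b = i + 1 := by rw [hb]; exact h.nc.inv _
  have hbN : b < N := h.nc.lt _ hi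
  have hbr : b ≠ r := by
    intro h4
    rw [h4, h3] at hpb
    omega
  have hbi : b ≠ i := by
    intro h4
    rw [h4, hpi] at hpb
    omega
  have hbi1 : b ≠ i + 1 := h.nc.ne _ hi
  have lr : s.2 r = s.2 i := by
    have := label_partner h hr
    rw [h3] at this
    exact this.symm
  have g1 := hg i (by omega)
  have g2 := hg (i + 1) hi
  rw [hpi] at g1
  rw [← hb] at g2
  have n1 := h.nc.nc i (i + 1) (by omega)
  have n2 := h.nc.nc b i
  have n3 := h.nc.nc r b
  rw [hpi, ← hb] at n1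
  rw [hpi, hpb] at n2
  rw [h3, hpb] at n3
  unfold dl
  rw [e1, e2, lr, h3, ← hb]
  cases hA : s.2 i <;> cases hB : s.2 (i + 1) <;> rw [hA] at g1 <;> rw [hB] at g2 <;>
    simp only [Bool.xor_true, Bool.xor_false, Bool.not_true, Bool.not_false, if_true,
      Bool.false_eq_true, false_iff, true_iff, not_not, if_false] at g1 g2 ⊢ <;>
    (try split_ifs) <;> omega

theorem eL_of_i1 (h : IsAnn N s) (hi : i + 1 < N) {r : ℕ} (hr : r < N) (h1 : r ≠ i)
    (h2 : r ≠ i + 1) (h3 : s.1 r = i + 1) :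
    (eL i s).1 r = s.1 i ∧ dl (eL i s) r = dl s r + dl s i := by
  have e1 : (eL i s).1 r = s.1 i := by simp [eL, eAct, h1, h2, h3]
  refine ⟨e1, ?_⟩
  obtain ⟨g, -, hg⟩ := h.mark
  have e2 : (eL i s).2 r = xor (s.2 i) (s.2 (i + 1)) := by simp [eL, h1, h2, h3]
  have hpi : s.1 (i + 1) = r := by rw [← h3]; exact h.nc.inv r
  set b := s.1 i with hb
  have hpb : s.1 b = i := by rw [hb]; exact h.nc.inv _
  have hbN : b < N := h.nc.lt _ (by omega)
  have hbr : b ≠ r := by
    intro h4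
    rw [h4, h3] at hpb
    omega
  have hbi : b ≠ i + 1 := by
    intro h4
    rw [h4, hpi] at hpb
    omega
  have hbi1 : b ≠ i := h.nc.ne _ (by omega)
  have lr : s.2 r = s.2 (i + 1) := by
    have := label_partner h hr
    rw [h3] at this
    exact this.symm
  have g1 := hg i (by omega)
  have g2 := hg (i + 1) hi
  rw [hpi] at g2
  rw [← hb] at g1
  have n1 := h.nc.nc i (i + 1) (by omega)
  have n2 := h.nc.nc r i
  have n3 := h.nc.nc b r
  rw [hpi, ← hb] at n1
  rw [h3, ← hb] at n2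
  rw [h3, hpb] at n3
  unfold dl
  rw [e1, e2, lr, h3, ← hb]
  cases hA : s.2 i <;> cases hB : s.2 (i + 1) <;> rw [hA] at g1 <;> rw [hB] at g2 <;>
    simp only [Bool.xor_true, Bool.xor_false, Bool.not_true, Bool.not_false, if_true,
      Bool.false_eq_true, false_iff, true_iff, not_not, if_false] at g1 g2 ⊢ <;>
    (try split_ifs) <;> omega

theorem eL_other {r : ℕ} (h1 : r ≠ i) (h2 : r ≠ i + 1) (h3 : s.1 r ≠ i) (h4 : s.1 r ≠ i + 1) :
    (eL i s).1 r = s.1 r ∧ dl (eL i s) r = dl s r := by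
  have e1 : (eL i s).1 r = s.1 r := by simp [eL, eAct, h1, h2, h3, h4]
  refine ⟨e1, ?_⟩
  have e2 : (eL i s).2 r = s.2 r := by simp [eL, h1, h2, h3, h4]
  unfold dl
  rw [e1, e2]

/-- Regions and the Temperley-Lieb action. -/
theorem Reg.eL (h : IsAnn N s) (hi : i + 1 < N) {K K' : ℤ × ℕ} (hK : K.2 ≠ i + 1)
    (hK' : K'.2 ≠ i + 1) (hR : Reg N s K K') : Reg N (eL i s) K K' := by
  intro a r hr
  by_cases h1 : r = i
  · subst h1
    rw [dl_eL_i, eL_fst_i]
    unfold Lt
    omega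
  by_cases h2 : r = i + 1
  · subst h2
    rw [dl_eL_i1, eL_fst_i1]
    unfold Lt
    omega
  by_cases h3 : s.1 r = i
  · obtain ⟨e1, e2⟩ := eL_of_i h hi hr h1 h2 h3
    rw [e1, e2]
    have r1 := hR a r hr
    have r2 := hR (a + dl s r) (i + 1) hi
    rw [h3] at r1
    rw [← add_assoc]
    have q1 : ∀ Q : ℤ × ℕ, Q.2 ≠ i + 1 → (Lt (a + dl s r) i Q ↔ Lt (a + dl s r) (i + 1) Q) := by
      intro Q hQ
      unfold Lt
      omega
    rw [q1 K hK, q1 K' hK'] at r1
    exact iff4 r1 r2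
  by_cases h4 : s.1 r = i + 1
  · obtain ⟨e1, e2⟩ := eL_of_i1 h hi hr h1 h2 h4
    rw [e1, e2]
    have r1 := hR a r hr
    have r2 := hR (a + dl s r) i (by omega)
    rw [h4] at r1
    rw [← add_assoc]
    have q1 : ∀ Q : ℤ × ℕ, Q.2 ≠ i + 1 → (Lt (a + dl s r) i Q ↔ Lt (a + dl s r) (i + 1) Q) := by
      intro Q hQ
      unfold Lt
      omega
    rw [← q1 K hK, ← q1 K' hK'] at r1
    exact iff4 r1 r2
  · obtain ⟨e1, e2⟩ := eL_other (s := s) h1 h2 h3 h4
    rw [e1, e2]
    exact hR a r hr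

/-- The next gap but one: `(b, i)` and `(b, i + 2)`, in normal form. -/
def nx (N : ℕ) (b : ℤ) (i : ℕ) : ℤ × ℕ := if i + 2 < N then (b, i + 2) else (b + 1, 0)

theorem reg_eL_nx (h : IsAnn N s) (hi : i + 1 < N) (b : ℤ) :
    Reg N (eL i s) (b, i) (nx N b i) := by
  intro a r hr
  have hnc' := (h.eL hi).nc
  by_cases h1 : r = i
  · subst h1
    rw [dl_eL_i, eL_fst_i]
    unfold nx Lt
    split_ifs <;> simp only <;> omega
  by_cases h2 : r = i + 1
  · subst h2
    rw [dl_eL_i1, eL_fst_i1]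
    unfold nx Lt
    split_ifs <;> simp only <;> omega
  have h3 : (eL i s).1 r ≠ i := by
    intro h3
    have := hnc'.inv r
    rw [h3, eL_fst_i] at this
    exact h2 this.symm
  have h4 : (eL i s).1 r ≠ i + 1 := by
    intro h3
    have := hnc'.inv r
    rw [h3, eL_fst_i1] at this
    exact h1 this.symm
  have h5 := hnc'.lt r hr
  have q : ∀ (c : ℤ) (t : ℕ), t < N → t ≠ i → t ≠ i + 1 → (Lt c t (b, i) ↔ Lt c t (nx N b i)) := by
    intro c t ht ht1 ht2
    unfold nx Lt
    split_ifs <;> simp only <;> omega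
  rw [q a r hr h1 h2, q _ _ h5 h3 h4]

end EL

theorem lt_iff' {N : ℕ} {a b : ℤ} {r t : ℕ} (hr : r < N) (ht : t ≤ N) :
    (a * N + r < b * N + (t : ℤ) ↔ Lt a r (b, t)) := by
  unfold Lt
  simp only
  have h0 : (0 : ℤ) < N := by omega
  have hr' : (r : ℤ) < N := by omega
  have ht' : (t : ℤ) ≤ N := by omega
  rcases lt_trichotomy a b with h | h | h
  · have h1 : (a + 1) * N ≤ b * (N : ℤ) := mul_le_mul_of_nonneg_right (by omega) h0.le
    constructor
    · intro _; left; exact h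
    · intro _; linarith
  · subst h
    omega
  · have h1 : (b + 1) * N ≤ a * (N : ℤ) := mul_le_mul_of_nonneg_right (by omega) h0.le
    constructor
    · intro h2
      linarith
    · intro h2
      omega

section Merge

variable {N : ℕ} {s : St} {i : ℕ} {c : Cfg} {F F' : Set (ℤ × ℤ)} {V : ℤ × ℕ → ℤ × ℤ}

theorem nx_snd_lt (hi : i + 1 < N) (b : ℤ) : (nx N b i).2 < N := by
  unfold nx
  split_ifs <;> simp only <;> omega

theorem nx_snd_ne (b : ℤ) : (nx N b i).2 ≠ i + 1 := by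
  unfold nx
  split_ifs <;> simp only <;> omega

/-- A bond between the gaps on both sides of a small arc. -/
theorem merge_step (hs : IsAnn N s) (hi : i + 1 < N)
    (old : ∀ K K' : ℤ × ℕ, K.2 < N → K'.2 < N → Conn c F (V K) (V K') → Reg N s K K')
    (hb : ∀ u v, Bond c F' u v → Bond c F u v ∨
      ∃ a : ℤ, (u = V (a, i) ∧ v = V (nx N a i)) ∨ (u = V (nx N a i) ∧ v = V (a, i)))
    (K K' : ℤ × ℕ) (hK : K.2 < N) (hK' : K'.2 < N) (hKi : K.2 ≠ i + 1) (hKi' : K'.2 ≠ i + 1)
    (h : Conn c F' (V K) (V K')) : Reg N (eL i s) K K' := by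
  have key : ∀ u, Conn c F' (V K) u → ∃ K'' : ℤ × ℕ, K''.2 < N ∧ K''.2 ≠ i + 1 ∧
      Reg N (eL i s) K K'' ∧ Conn c F (V K'') u := by
    intro u hu
    induction hu with
    | refl => exact ⟨K, hK, hKi, Reg.refl _ _ _, Relation.ReflTransGen.refl⟩
    | tail _ hb1 ih =>
      obtain ⟨K'', h1, h2, h3, h4⟩ := ih
      rcases hb _ _ hb1 with h5 | ⟨a, ⟨rfl, rfl⟩ | ⟨rfl, rfl⟩⟩
      · exact ⟨K'', h1, h2, h3, h4.tail h5⟩
      · refine ⟨nx N a i, nx_snd_lt hi a, nx_snd_ne a, ?_, Relation.ReflTransGen.refl⟩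
        have h6 := old K'' (a, i) h1 (by simp only; omega) h4
        exact (h3.trans (Reg.eL hs hi h2 (by simp only; omega) h6)).trans (reg_eL_nx hs hi a)
      · refine ⟨(a, i), by simp only; omega, by simp only; omega, ?_,
          Relation.ReflTransGen.refl⟩
        have h6 := old K'' (nx N a i) h1 (nx_snd_lt hi a) h4
        exact (h3.trans (Reg.eL hs hi h2 (nx_snd_ne a) h6)).trans (reg_eL_nx hs hi a).symm
  obtain ⟨K'', h1, h2, h3, h4⟩ := key _ h
  exact h3.trans (Reg.eL hs hi h2 hKi' (old K'' K' h1 hK' h4))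

end Merge

/-- The faces which have been processed when the first `i` faces of the row `y` are done. -/
def Fr (L M : ℕ) (y : ℤ) (i : ℕ) : Set (ℤ × ℤ) :=
  {f | (y + 1 ≤ f.2 ∧ f.2 < M) ∨ (f.2 = y ∧ f.1 % (L : ℤ) < i)}

/-- The front. -/
def Vf (L : ℕ) (y : ℤ) (i : ℕ) (K : ℤ × ℕ) : ℤ × ℤ :=
  if K.2 ≤ i then (K.1 * L + K.2, y) else (K.1 * L + K.2 - 1, y + 1)

theorem emod_aux {L : ℕ} (a : ℤ) {r : ℕ} (hr : r < L) : (a * L + r) % (L : ℤ) = r := by
  rw [add_comm, Int.add_mul_emod_self_right, Int.emod_eq_of_lt (by omega) (by omega)]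

theorem exists_block {L : ℕ} (hL0 : 0 < L) (x : ℤ) :
    ∃ (a : ℤ) (r : ℕ), r < L ∧ x = a * L + r := by
  have h0 : (0 : ℤ) < L := by omega
  refine ⟨x / L, (x % L).toNat, ?_, ?_⟩
  · have := Int.emod_lt_of_pos x h0
    have := Int.emod_nonneg x h0.ne'
    omega
  · have := Int.emod_nonneg x h0.ne'
    have := Int.mul_ediv_add_emod x L
    rw [Int.toNat_of_nonneg (by omega)]
    linarith

theorem bond_Fr {L M : ℕ} {ω : Cfg} {y : ℤ} {i : ℕ} (hi : i < L) {u v : ℤ × ℤ}
    (h : Bond (perC L ω) (Fr L M y (i + 1)) u v) :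
    Bond (perC L ω) (Fr L M y i) u v ∨ ∃ a : ℤ,
      ((ω ((i : ℤ), y) = true ∧ ((u = (a * L + i, y) ∧ v = (a * L + i + 1, y + 1)) ∨
          (u = (a * L + i + 1, y + 1) ∧ v = (a * L + i, y)))) ∨
       (ω ((i : ℤ), y) = false ∧ ((u = (a * L + i, y + 1) ∧ v = (a * L + i + 1, y)) ∨
          (u = (a * L + i + 1, y) ∧ v = (a * L + i, y + 1))))) := by
  obtain ⟨x, z, hF, hb⟩ := h
  obtain ⟨a, r, hr, rfl⟩ := exists_block (L := L) (by omega) x
  by_cases hz : z = y ∧ r = i
  · obtain ⟨rfl, rfl⟩ := hz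
    right
    refine ⟨a, ?_⟩
    have e : perC L ω (a * L + r, z) = ω ((r : ℤ), z) := by
      unfold perC
      simp only
      rw [emod_aux a hr]
    rw [e] at hb
    exact hb
  · left
    refine ⟨_, z, ?_, hb⟩
    unfold Fr at hF ⊢
    simp only [Set.mem_ofPred_eq] at hF ⊢
    rw [emod_aux a hr] at hF ⊢
    rcases hF with h1 | h1
    · left; exact h1
    · right
      refine ⟨h1.1, ?_⟩
      have : r ≠ i := fun h2 => hz ⟨h1.1, h2⟩
      have := h1.2
      push_cast at this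
      omega


/-- A point without bonds is connected only to itself. -/
theorem conn_isolated {c : Cfg} {F : Set (ℤ × ℤ)} {u v : ℤ × ℤ} (hu : ∀ w, ¬ Bond c F u w)
    (h : Conn c F u v) : v = u := by
  rcases Relation.ReflTransGen.cases_head h with h1 | ⟨w, h1, -⟩
  · exact h1.symm
  · exact absurd h1 (hu w)

theorem bond_symm {c : Cfg} {F : Set (ℤ × ℤ)} {u v : ℤ × ℤ} (h : Bond c F u v) : Bond c F v u := by
  obtain ⟨x, y, hF, hb⟩ := h
  refine ⟨x, y, hF, ?_⟩
  tauto

theorem conn_symm {c : Cfg} {F : Set (ℤ × ℤ)} {u v : ℤ × ℤ} (h : Conn c F u v) : Conn c F v u := by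
  induction h with
  | refl => exact Relation.ReflTransGen.refl
  | tail _ hb ih => exact Relation.ReflTransGen.head (bond_symm hb) ih

/-- A bond of the processed faces has its two points above the height `y`, or is in one of the
processed faces of the row `y`. -/
theorem bond_Fr_low {L M : ℕ} {c : Cfg} {y : ℤ} {i : ℕ} (hi : i < L) {u v : ℤ × ℤ}
    (h : Bond c (Fr L M y i) u v) (hu : u.2 = y) : ∃ (a : ℤ) (r : ℕ), r < i ∧
      ((c (a * L + r, y) = true ∧ u = (a * L + r, y)) ∨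
        (c (a * L + r, y) = false ∧ u = (a * L + r + 1, y))) := by
  obtain ⟨x, z, hF, hb⟩ := h
  obtain ⟨a, r, hr, rfl⟩ := exists_block (L := L) (by omega) x
  unfold Fr at hF
  simp only [Set.mem_ofPred_eq] at hF
  rw [emod_aux a hr] at hF
  rcases hF with h1 | ⟨h1, h2⟩
  · exfalso
    rcases hb with ⟨-, ⟨rfl, -⟩ | ⟨rfl, -⟩⟩ | ⟨-, ⟨rfl, -⟩ | ⟨rfl, -⟩⟩ <;> simp only at hu <;> omega
  · subst h1
    refine ⟨a, r, by omega, ?_⟩
    rcases hb with ⟨h3, ⟨rfl, -⟩ | ⟨rfl, -⟩⟩ | ⟨h3, ⟨rfl, -⟩ | ⟨rfl, -⟩⟩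
    · left; exact ⟨h3, rfl⟩
    · exfalso; simp only at hu; omega
    · exfalso; simp only at hu; omega
    · right; exact ⟨h3, rfl⟩

/-- Uniqueness of block and residue. -/
theorem block_uniq {L : ℕ} {a b : ℤ} {r t : ℕ} (hr : r < L) (ht : t < L)
    (h : a * L + (r : ℤ) = b * L + t) : a = b ∧ r = t := by
  have h1 := emod_aux a hr
  have h2 := emod_aux b ht
  rw [h] at h1
  rw [h1] at h2
  have h3 : r = t := by exact_mod_cast h2
  refine ⟨?_, h3⟩
  subst h3
  have h4 : a * (L : ℤ) = b * L := by linarith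
  exact mul_right_cancel₀ (by omega) h4

/-- The new point of the front is isolated after a face which acts by `e_i`. -/
theorem isolated_true {L M : ℕ} {ω : Cfg} {y : ℤ} {i : ℕ} (hi : i + 1 < L)
    (hw : ω ((i : ℤ), y) = true) (a : ℤ) (w : ℤ × ℤ) :
    ¬ Bond (perC L ω) (Fr L M y (i + 1)) (a * L + ((i + 1 : ℕ) : ℤ), y) w := by
  intro h
  obtain ⟨b, r, hr, ⟨-, h2⟩ | ⟨h1, h2⟩⟩ := bond_Fr_low hi h rfl
  · have h3 := congrArg Prod.fst h2
    simp only at h3
    have := (block_uniq (by omega) (by omega) h3).2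
    omega
  · have h3 := congrArg Prod.fst h2
    simp only at h3
    have h4 : a * (L : ℤ) + (i : ℤ) = b * L + r := by push_cast at h3; linarith
    obtain ⟨rfl, rfl⟩ := block_uniq (by omega) (by omega) h4
    unfold perC at h1
    simp only at h1
    rw [emod_aux a (by omega), hw] at h1
    exact Bool.noConfusion h1

/-- The new points of the front are isolated at the beginning of a row. -/
theorem isolated_zero {L M : ℕ} (hL0 : 0 < L) {c : Cfg} {y : ℤ} (x : ℤ) (w : ℤ × ℤ) :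
    ¬ Bond c (Fr L M y 0) (x, y) w := by
  intro h
  obtain ⟨b, r, hr, -⟩ := bond_Fr_low hL0 h rfl
  omega

/-- The retraction for a face which does not act. -/
def rho (L : ℕ) (y : ℤ) (i : ℕ) (u : ℤ × ℤ) : ℤ × ℤ :=
  if u.2 = y ∧ u.1 % (L : ℤ) = i + 1 then (u.1 - 1, y + 1) else u

theorem rho_bond {L M : ℕ} {ω : Cfg} {y : ℤ} {i : ℕ} (hi : i + 1 < L)
    (hw : ω ((i : ℤ), y) = false) {u v : ℤ × ℤ}
    (h : Bond (perC L ω) (Fr L M y (i + 1)) u v) :
    Conn (perC L ω) (Fr L M y i) (rho L y i u) (rho L y i v) := by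
  have fix : ∀ {u v : ℤ × ℤ}, Bond (perC L ω) (Fr L M y i) u v → rho L y i u = u := by
    intro u v hb
    unfold rho
    rw [if_neg]
    rintro ⟨h1, h2⟩
    obtain ⟨b, r, hr, ⟨-, rfl⟩ | ⟨-, rfl⟩⟩ := bond_Fr_low (by omega) hb h1
    · simp only at h2
      rw [emod_aux b (by omega)] at h2
      omega
    · simp only at h2
      have h3 : b * (L : ℤ) + r + 1 = b * L + ((r + 1 : ℕ) : ℤ) := by push_cast; ring
      rw [h3, emod_aux b (by omega)] at h2
      push_cast at h2
      omega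
  rcases bond_Fr (by omega) h with h1 | ⟨a, ⟨h1, -⟩ | ⟨-, h2⟩⟩
  · rw [fix h1, fix (bond_symm h1)]
    exact Relation.ReflTransGen.single h1
  · rw [hw] at h1
    exact Bool.noConfusion h1
  · have e1 : rho L y i (a * L + i, y + 1) = (a * L + i, y + 1) := by
      unfold rho
      rw [if_neg]
      rintro ⟨h3, -⟩
      simp only at h3
      omega
    have e2 : rho L y i (a * L + i + 1, y) = (a * L + i, y + 1) := by
      unfold rho
      rw [if_pos]
      · simp only
        rw [add_sub_cancel_right]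
      · refine ⟨rfl, ?_⟩
        simp only
        have h3 : a * (L : ℤ) + i + 1 = a * L + ((i + 1 : ℕ) : ℤ) := by push_cast; ring
        rw [h3, emod_aux a (by omega)]
        push_cast
        ring
    rcases h2 with ⟨rfl, rfl⟩ | ⟨rfl, rfl⟩
    · rw [e1, e2]
      exact Relation.ReflTransGen.refl
    · rw [e1, e2]
      exact Relation.ReflTransGen.refl

theorem rho_conn {L M : ℕ} {ω : Cfg} {y : ℤ} {i : ℕ} (hi : i + 1 < L)
    (hw : ω ((i : ℤ), y) = false) {u v : ℤ × ℤ}
    (h : Conn (perC L ω) (Fr L M y (i + 1)) u v) :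
    Conn (perC L ω) (Fr L M y i) (rho L y i u) (rho L y i v) := by
  induction h with
  | refl => exact Relation.ReflTransGen.refl
  | tail _ hb ih => exact ih.trans (rho_bond hi hw hb)

theorem rho_Vf {L : ℕ} {y : ℤ} {i : ℕ} (hi : i + 1 < L) {K : ℤ × ℕ} :
    rho L y i (Vf L y (i + 1) K) = Vf L y i K := by
  obtain ⟨a, r⟩ := K
  unfold Vf
  simp only
  rcases lt_trichotomy r (i + 1) with h | h | h
  · rw [if_pos (by omega), if_pos (by omega)]
    unfold rho
    rw [if_neg]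
    rintro ⟨-, h2⟩
    simp only at h2
    rw [emod_aux a (by omega)] at h2
    omega
  · subst h
    rw [if_pos (by omega), if_neg (by omega)]
    unfold rho
    rw [if_pos]
    refine ⟨rfl, ?_⟩
    simp only
    rw [emod_aux a (by omega)]
    push_cast
    ring
  · rw [if_neg (by omega), if_neg (by omega)]
    unfold rho
    rw [if_neg]
    rintro ⟨h1, -⟩
    simp only at h1
    omega

theorem Vf_low {L : ℕ} {y : ℤ} {i : ℕ} (hi : i < L) {K : ℤ × ℕ} {a : ℤ} {t : ℕ} (ht : t ≤ i)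
    (h : Vf L y i K = (a * L + (t : ℤ), y)) : K = (a, t) := by
  obtain ⟨b, r⟩ := K
  unfold Vf at h
  simp only at h
  split_ifs at h with h1
  · have h3 := congrArg Prod.fst h
    simp only at h3
    obtain ⟨rfl, rfl⟩ := block_uniq (by omega) (by omega) h3
    rfl
  · have h3 := congrArg Prod.snd h
    simp only at h3
    omega

/-- The start of a row. -/
theorem start_row {L M : ℕ} (hL0 : 0 < L) {ω : Cfg} {y : ℤ} {s : St} (hs : IsAnn L s)
    (old : ∀ k l : ℤ, Conn (perC L ω) {f | y + 1 ≤ f.2 ∧ f.2 < M} (k, y + 1) (l, y + 1) →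
      SameReg L s k l) (K K' : ℤ × ℕ) (hK : K.2 < L + 2) (hK' : K'.2 < L + 2)
    (h : Conn (perC L ω) (Fr L M y 0) (Vf L y 0 K) (Vf L y 0 K')) :
    Reg (L + 2) (cupL L s) K K' := by
  obtain ⟨a, r⟩ := K
  obtain ⟨b, t⟩ := K'
  simp only at hK hK'
  by_cases hr : r = 0
  · subst hr
    have e : Vf L y 0 (a, 0) = (a * L + ((0 : ℕ) : ℤ), y) := by
      unfold Vf
      rw [if_pos le_rfl]
    rw [e] at h
    have h1 := conn_isolated (isolated_zero hL0 _) h
    rw [Vf_low hL0 le_rfl h1]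
    exact Reg.refl _ _ _
  by_cases ht : t = 0
  · subst ht
    have e : Vf L y 0 (b, 0) = (b * L + ((0 : ℕ) : ℤ), y) := by
      unfold Vf
      rw [if_pos le_rfl]
    rw [e] at h
    have h1 := conn_isolated (isolated_zero hL0 _) (conn_symm h)
    rw [Vf_low hL0 le_rfl h1]
    exact Reg.refl _ _ _
  have hF : Fr L M y 0 = {f : ℤ × ℤ | y + 1 ≤ f.2 ∧ f.2 < (M : ℤ)} := by
    ext f
    unfold Fr
    simp only [Set.mem_ofPred_eq]
    have := Int.emod_nonneg f.1 (show (L : ℤ) ≠ 0 by omega)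
    omega
  have e1 : Vf L y 0 (a, r) = (a * L + ((r - 1 : ℕ) : ℤ), y + 1) := by
    unfold Vf
    rw [if_neg (by simp only; omega)]
    simp only [Prod.mk.injEq, and_true]
    omega
  have e2 : Vf L y 0 (b, t) = (b * L + ((t - 1 : ℕ) : ℤ), y + 1) := by
    unfold Vf
    rw [if_neg (by simp only; omega)]
    simp only [Prod.mk.injEq, and_true]
    omega
  rw [hF, e1, e2] at h
  have h1 := old _ _ h
  intro c x hx
  by_cases hx0 : x = 0
  · subst hx0
    have d1 : dl (cupL L s) 0 = -1 := by simp [dl, cupL, cupO]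
    have d2 : (cupL L s).1 0 = L + 1 := by simp [cupL, cupO]
    rw [d1, d2]
    unfold Lt
    simp only
    omega
  by_cases hx1 : x = L + 1
  · subst hx1
    have d1 : dl (cupL L s) (L + 1) = 1 := by simp [dl, cupL, cupO]
    have d2 : (cupL L s).1 (L + 1) = 0 := by simp [cupL, cupO]
    rw [d1, d2]
    unfold Lt
    simp only
    omega
  · obtain ⟨x, rfl⟩ : ∃ x', x = x' + 1 := ⟨x - 1, by omega⟩
    have hxL : x < L := by omega
    have d2 : (cupL L s).1 (x + 1) = s.1 x + 1 := by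
      simp only [cupL, cupO]
      rw [if_neg (by omega), if_neg (by omega), if_pos (by omega)]
      simp
    have l1 : (cupL L s).2 (x + 1) = s.2 x := by
      simp only [cupL]
      rw [if_neg (by omega), if_pos (by omega), Nat.add_sub_cancel]
    have d1 : dl (cupL L s) (x + 1) = dl s x := by
      unfold dl
      rw [d2, l1]
      simp only [Nat.add_lt_add_iff_right]
    rw [d1, d2]
    have h2 := h1 (c * L + x)
    have hp := hs.nc.lt x hxL
    rw [lift_eq s c hxL, lt_iff' hxL (by omega), lt_iff' hp (by omega), lt_iff' hxL (by omega),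
      lt_iff' hp (by omega)] at h2
    have q : ∀ (d : ℤ) (z : ℕ) (e : ℤ) (m : ℕ), m ≠ 0 →
        (Lt d (z + 1) (e, m) ↔ Lt d z (e, m - 1)) := by
      intro d z e m hm
      unfold Lt
      simp only
      omega
    rw [q _ _ _ _ hr, q _ _ _ _ hr, q _ _ _ _ ht, q _ _ _ _ ht]
    exact h2


/-- The faces of a row. -/
theorem row_step {L M : ℕ} (hL0 : 0 < L) {ω : Cfg} {y : ℤ} {s : St} (hs : IsAnn L s)
    (old : ∀ k l : ℤ, Conn (perC L ω) {f | y + 1 ≤ f.2 ∧ f.2 < M} (k, y + 1) (l, y + 1) →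
      SameReg L s k l) (i : ℕ) (hi : i < L) (K K' : ℤ × ℕ) (hK : K.2 < L + 2)
    (hK' : K'.2 < L + 2) (h : Conn (perC L ω) (Fr L M y i) (Vf L y i K) (Vf L y i K')) :
    Reg (L + 2) (rowL (fun i => ω ((i : ℤ), y)) i (cupL L s)) K K' := by
  induction i generalizing K K' with
  | zero => exact start_row hL0 hs old K K' hK hK' h
  | succ i ih =>
    have ih' := ih (by omega)
    cases hw : ω ((i : ℤ), y) with
    | false =>
      have e : rowL (fun i => ω ((i : ℤ), y)) (i + 1) (cupL L s) =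
          rowL (fun i => ω ((i : ℤ), y)) i (cupL L s) := by
        simp only [rowL, hw]
        simp
      rw [e]
      have h1 := rho_conn hi hw h
      rw [rho_Vf hi, rho_Vf hi] at h1
      exact ih' K K' hK hK' h1
    | true =>
      have e : rowL (fun i => ω ((i : ℤ), y)) (i + 1) (cupL L s) =
          eL i (rowL (fun i => ω ((i : ℤ), y)) i (cupL L s)) := by
        simp only [rowL, hw]
        simp
      rw [e]
      by_cases hr : K.2 = i + 1
      · have e1 : Vf L y (i + 1) K = (K.1 * L + ((i + 1 : ℕ) : ℤ), y) := by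
          unfold Vf
          rw [if_pos (by omega), hr]
        rw [e1] at h
        have h1 := conn_isolated (isolated_true hi hw _) h
        have h2 := Vf_low hi le_rfl h1
        have h3 : K' = K := by rw [h2, ← hr]
        rw [h3]
        exact Reg.refl _ _ _
      by_cases ht : K'.2 = i + 1
      · have e1 : Vf L y (i + 1) K' = (K'.1 * L + ((i + 1 : ℕ) : ℤ), y) := by
          unfold Vf
          rw [if_pos (by omega), ht]
        rw [e1] at h
        have h1 := conn_isolated (isolated_true hi hw _) (conn_symm h)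
        have h2 := Vf_low hi le_rfl h1
        have h3 : K = K' := by rw [h2, ← ht]
        rw [h3]
        exact Reg.refl _ _ _
      have hV : ∀ Q : ℤ × ℕ, Q.2 ≠ i + 1 → Vf L y (i + 1) Q = Vf L y i Q := by
        intro Q hQ
        unfold Vf
        by_cases hq : Q.2 ≤ i
        · rw [if_pos (by omega), if_pos hq]
        · rw [if_neg (by omega), if_neg hq]
      rw [hV K hr, hV K' ht] at h
      refine merge_step (V := Vf L y i) (hs.cupL.rowL _ (by omega)) (by omega) ih' ?_ K K' hK hK'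
        hr ht h
      intro u v hb
      rcases bond_Fr (by omega) hb with h1 | ⟨a, ⟨-, h2⟩ | ⟨h2, -⟩⟩
      · exact Or.inl h1
      · right
        refine ⟨a, ?_⟩
        have e1 : Vf L y i (a, i) = (a * L + i, y) := by
          unfold Vf
          rw [if_pos le_rfl]
        have e2 : Vf L y i (nx (L + 2) a i) = (a * L + i + 1, y + 1) := by
          unfold nx
          rw [if_pos (by omega)]
          unfold Vf
          rw [if_neg (by simp only; omega)]
          simp only [Prod.mk.injEq, and_true]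
          push_cast
          ring
        rw [e1, e2]
        exact h2
      · rw [hw] at h2
        exact Bool.noConfusion h2

/-- The last face of a row. -/
theorem last_step {L M : ℕ} (hL0 : 0 < L) {ω : Cfg} {y : ℤ} (hyM : y < M) {s : St}
    (hs : IsAnn L s)
    (old : ∀ k l : ℤ, Conn (perC L ω) {f | y + 1 ≤ f.2 ∧ f.2 < M} (k, y + 1) (l, y + 1) →
      SameReg L s k l) (K K' : ℤ × ℕ) (hK : K.2 < L)
    (hK' : K'.2 < L) (h : Conn (perC L ω) {f | y ≤ f.2 ∧ f.2 < M} (K.1 * L + K.2, y)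
      (K'.1 * L + K'.2, y)) :
    Reg (L + 2) (eL L (rowL (fun i => ω ((i : ℤ), y)) L (cupL L s))) K K' := by
  obtain ⟨n, rfl⟩ : ∃ n, L = n + 1 := ⟨L - 1, by omega⟩
  have hF : {f : ℤ × ℤ | y ≤ f.2 ∧ f.2 < (M : ℤ)} = Fr (n + 1) M y (n + 1) := by
    ext f
    unfold Fr
    simp only [Set.mem_ofPred_eq]
    have := Int.emod_lt_of_pos f.1 (show (0 : ℤ) < ((n + 1 : ℕ) : ℤ) by omega)
    omega
  have e0 : ∀ Q : ℤ × ℕ, Q.2 < n + 1 → (Q.1 * ((n + 1 : ℕ) : ℤ) + Q.2, y) = Vf (n + 1) y n Q := by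
    intro Q hQ
    unfold Vf
    rw [if_pos (by omega)]
  rw [hF, e0 K hK, e0 K' hK'] at h
  have ih := row_step hL0 hs old n (by omega)
  have hA : IsAnn (n + 1 + 2) (rowL (fun i => ω ((i : ℤ), y)) n (cupL (n + 1) s)) :=
    hs.cupL.rowL _ (by omega)
  cases hw : ω ((n : ℤ), y) with
  | false =>
    have e : rowL (fun i => ω ((i : ℤ), y)) (n + 1) (cupL (n + 1) s) =
        rowL (fun i => ω ((i : ℤ), y)) n (cupL (n + 1) s) := by
      simp only [rowL, hw]
      simp
    rw [e]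
    refine merge_step (V := Vf (n + 1) y n) hA (by omega) ih ?_ K K' (by omega) (by omega)
      (by omega) (by omega) h
    intro u v hb
    rcases bond_Fr (by omega) hb with h1 | ⟨a, ⟨h2, -⟩ | ⟨-, h2⟩⟩
    · exact Or.inl h1
    · rw [hw] at h2
      exact Bool.noConfusion h2
    · right
      refine ⟨a, ?_⟩
      have e1 : Vf (n + 1) y n (a, n + 1) = (a * ((n + 1 : ℕ) : ℤ) + n, y + 1) := by
        unfold Vf
        rw [if_neg (by simp only; omega)]
        simp only [Prod.mk.injEq, and_true]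
        push_cast
        ring
      have e2 : Vf (n + 1) y n (nx (n + 1 + 2) a (n + 1)) =
          (a * ((n + 1 : ℕ) : ℤ) + n + 1, y) := by
        unfold nx
        rw [if_neg (by omega)]
        unfold Vf
        rw [if_pos (by simp only; omega)]
        simp only [Prod.mk.injEq, and_true]
        push_cast
        ring
      rw [e1, e2]
      exact h2
  | true =>
    have e : rowL (fun i => ω ((i : ℤ), y)) (n + 1) (cupL (n + 1) s) =
        eL n (rowL (fun i => ω ((i : ℤ), y)) n (cupL (n + 1) s)) := by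
      simp only [rowL, hw]
      simp
    rw [e]
    have h3 : Reg (n + 1 + 2) (eL n (rowL (fun i => ω ((i : ℤ), y)) n (cupL (n + 1) s))) K K' := by
      refine merge_step (V := Vf (n + 1) y n) hA (by omega) ih ?_ K K' (by omega) (by omega)
        (by omega) (by omega) h
      intro u v hb
      rcases bond_Fr (by omega) hb with h1 | ⟨a, ⟨-, h2⟩ | ⟨h2, -⟩⟩
      · exact Or.inl h1
      · right
        refine ⟨a, ?_⟩
        have e1 : Vf (n + 1) y n (a, n) = (a * ((n + 1 : ℕ) : ℤ) + n, y) := by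
          unfold Vf
          rw [if_pos le_rfl]
        have e2 : Vf (n + 1) y n (nx (n + 1 + 2) a n) =
            (a * ((n + 1 : ℕ) : ℤ) + n + 1, y + 1) := by
          unfold nx
          rw [if_pos (by omega)]
          unfold Vf
          rw [if_neg (by simp only; omega)]
          simp only [Prod.mk.injEq, and_true]
          push_cast
          ring
        rw [e1, e2]
        exact h2
      · rw [hw] at h2
        exact Bool.noConfusion h2
    exact Reg.eL (hA.eL (by omega)) (by omega) (by omega) (by omega) h3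

theorem reg_resL {L : ℕ} {s : St} {K K' : ℤ × ℕ} (h : Reg (L + 2) s K K') :
    Reg L (resL L s) K K' := by
  intro a r hr
  have e1 : (resL L s).1 r = s.1 r := by simp [resL, resP, hr]
  have e3 : (resL L s).2 r = s.2 r := by simp [resL, hr]
  have e2 : dl (resL L s) r = dl s r := by
    unfold dl
    rw [e1, e3]
  rw [e1, e2]
  exact h a r (by omega)

/-- One row. -/
theorem row {L M : ℕ} (hL0 : 0 < L) {ω : Cfg} {y : ℤ} (hyM : y < M) {s : St} (hs : IsAnn L s)
    (old : ∀ k l : ℤ, Conn (perC L ω) {f | y + 1 ≤ f.2 ∧ f.2 < M} (k, y + 1) (l, y + 1) →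
      SameReg L s k l) (k l : ℤ)
    (h : Conn (perC L ω) {f | y ≤ f.2 ∧ f.2 < M} (k, y) (l, y)) :
    SameReg L (trow L (fun i => ω ((i : ℤ), y)) s) k l := by
  obtain ⟨a, r, hr, rfl⟩ := exists_block hL0 k
  obtain ⟨b, t, ht, rfl⟩ := exists_block hL0 l
  rw [reg_iff (fun r hr => (hs.trow _).nc.lt r hr) hr ht]
  exact reg_resL (last_step hL0 hyM hs old (a, r) (b, t) hr ht h)

/-- The state at height `m`. -/
theorem run_inv {L M : ℕ} (hL0 : 0 < L) {ω : Cfg} (m : ℕ) (hm : m ≤ M) (s : St) (hs : IsAnn L s)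
    (old : ∀ k l : ℤ, Conn (perC L ω) {f | (m : ℤ) ≤ f.2 ∧ f.2 < M} (k, m) (l, m) →
      SameReg L s k l) (k l : ℤ)
    (h : Conn (perC L ω) {f | 0 ≤ f.2 ∧ f.2 < M} (k, 0) (l, 0)) :
    SameReg L (run L ω m s) k l := by
  induction m generalizing s with
  | zero =>
    simp only [run]
    refine old k l ?_
    simpa using h
  | succ m ih =>
    simp only [run]
    refine ih (by omega) _ (hs.trow _) ?_
    intro k l h1
    refine row hL0 (by omega) hs ?_ k l h1
    intro k l h2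
    refine old k l ?_
    push_cast
    exact h2

end TwoD

/-- Vertices of height `0` which are connected in the upper half are in the same region of the
upper state. -/
theorem complete_run (hL : L % 2 = 0) (hL0 : 0 < L) (ω : Cfg) {k l : ℤ}
    (h : Conn (perC L ω) {f | 0 ≤ f.2 ∧ f.2 < M} (k, 0) (l, 0)) :
    SameReg L (run L ω M (s0 L)) k l := by
  refine TwoD.run_inv hL0 M le_rfl _ (isAnn_s0 hL) ?_ k l h
  intro k l h1
  have h2 : ((l, (M : ℤ)) : ℤ × ℤ) = (k, (M : ℤ)) := by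
    refine TwoD.conn_isolated ?_ h1
    rintro w ⟨x, y, hF, -⟩
    simp only [Set.mem_ofPred_eq] at hF
    omega
  have h3 : l = k := congrArg Prod.fst h2
  subst h3
  intro x
  exact Iff.rfl

/-- The same for the lower half. -/
theorem complete_low (hL : L % 2 = 0) (hL0 : 0 < L) (ω : Cfg) {k l : ℤ}
    (h : Conn (perC L ω) {f | -(M : ℤ) ≤ f.2 ∧ f.2 < 0} (k, 0) (l, 0)) :
    SameReg L (loS L M ω) k l := by
  have hb : ∀ u v, Bond (perC L ω) {f | -(M : ℤ) ≤ f.2 ∧ f.2 < 0} u v →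
      Bond (perC L (lowC ω)) {f | 0 ≤ f.2 ∧ f.2 < (M : ℤ)} (u.1, -u.2) (v.1, -v.2) := by
    rintro u v ⟨x, y, hF, hb⟩
    simp only [Set.mem_ofPred_eq] at hF
    refine ⟨x, -1 - y, ?_, ?_⟩
    · simp only [Set.mem_ofPred_eq]
      omega
    · have e : perC L (lowC ω) (x, -1 - y) = !perC L ω (x, y) := by
        unfold perC lowC
        simp only
        congr 3
        ring
      rw [e]
      rcases hb with ⟨h1, ⟨rfl, rfl⟩ | ⟨rfl, rfl⟩⟩ | ⟨h1, ⟨rfl, rfl⟩ | ⟨rfl, rfl⟩⟩
      · right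
        refine ⟨by rw [h1]; rfl, Or.inl ⟨?_, ?_⟩⟩ <;> simp only [Prod.mk.injEq, true_and] <;> ring
      · right
        refine ⟨by rw [h1]; rfl, Or.inr ⟨?_, ?_⟩⟩ <;> simp only [Prod.mk.injEq, true_and] <;> ring
      · left
        refine ⟨by rw [h1]; rfl, Or.inl ⟨?_, ?_⟩⟩ <;> simp only [Prod.mk.injEq, true_and] <;> ring
      · left
        refine ⟨by rw [h1]; rfl, Or.inr ⟨?_, ?_⟩⟩ <;> simp only [Prod.mk.injEq, true_and] <;> ring
  have h1 : Conn (perC L (lowC ω)) {f | 0 ≤ f.2 ∧ f.2 < (M : ℤ)} (k, -0) (l, -0) :=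
    Relation.ReflTransGen.lift (fun u : ℤ × ℤ => (u.1, -u.2)) hb _ _ h
  rw [neg_zero] at h1
  exact complete_run hL hL0 (lowC ω) h1

/-- A connection in the strip decomposes into connections in the two halves. -/
theorem conn_strip (ω : Cfg) {k l : ℤ} (h : Conn ω (strip M) (k, 0) (l, 0)) :
    Relation.ReflTransGen (fun k l : ℤ =>
      Conn ω {f | 0 ≤ f.2 ∧ f.2 < (M : ℤ)} (k, 0) (l, 0) ∨
        Conn ω {f | -(M : ℤ) ≤ f.2 ∧ f.2 < 0} (k, 0) (l, 0)) k l := by
  set R : ℤ → ℤ → Prop := fun k l : ℤ =>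
      Conn ω {f | 0 ≤ f.2 ∧ f.2 < (M : ℤ)} (k, 0) (l, 0) ∨
        Conn ω {f | -(M : ℤ) ≤ f.2 ∧ f.2 < 0} (k, 0) (l, 0) with hR
  have key : ∀ u, Conn ω (strip M) (k, 0) u → ∃ j, Relation.ReflTransGen R k j ∧
      ((0 ≤ u.2 ∧ Conn ω {f | 0 ≤ f.2 ∧ f.2 < (M : ℤ)} (j, 0) u) ∨
        (u.2 ≤ 0 ∧ Conn ω {f | -(M : ℤ) ≤ f.2 ∧ f.2 < 0} (j, 0) u)) := by
    intro u hu
    induction hu with
    | refl =>
      exact ⟨k, Relation.ReflTransGen.refl, Or.inl ⟨le_rfl, Relation.ReflTransGen.refl⟩⟩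
    | tail _ hb ih =>
      rename_i u v _
      obtain ⟨j, hj, hc⟩ := ih
      -- normal form of the state if the height is zero
      have hz : u.2 = 0 → Relation.ReflTransGen R k u.1 := by
        intro h0
        have e : u = (u.1, 0) := Prod.ext rfl h0
        refine hj.tail ?_
        rcases hc with ⟨-, h1⟩ | ⟨-, h1⟩
        · left; rw [← e]; exact h1
        · right; rw [← e]; exact h1
      have hb' := hb
      obtain ⟨x, y, hF, hb1⟩ := hb
      simp only [strip, Set.mem_ofPred_eq] at hF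
      have hgeo : (y ≤ u.2 ∧ u.2 ≤ y + 1) ∧ (y ≤ v.2 ∧ v.2 ≤ y + 1) := by
        rcases hb1 with ⟨-, ⟨rfl, rfl⟩ | ⟨rfl, rfl⟩⟩ | ⟨-, ⟨rfl, rfl⟩ | ⟨rfl, rfl⟩⟩ <;>
          simp only <;> omega
      by_cases hy : 0 ≤ y
      · have hb2 : Bond ω {f | 0 ≤ f.2 ∧ f.2 < (M : ℤ)} u v :=
          ⟨x, y, by simp only [Set.mem_ofPred_eq]; omega, hb1⟩
        rcases hc with ⟨h0, h1⟩ | ⟨h0, h1⟩
        · exact ⟨j, hj, Or.inl ⟨by omega, h1.tail hb2⟩⟩
        · have h0' : u.2 = 0 := by omega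
          have e : u = (u.1, 0) := Prod.ext rfl h0'
          refine ⟨u.1, hz h0', Or.inl ⟨by omega, ?_⟩⟩
          rw [← e]
          exact Relation.ReflTransGen.single hb2
      · have hb2 : Bond ω {f | -(M : ℤ) ≤ f.2 ∧ f.2 < 0} u v :=
          ⟨x, y, by simp only [Set.mem_ofPred_eq]; omega, hb1⟩
        rcases hc with ⟨h0, h1⟩ | ⟨h0, h1⟩
        · have h0' : u.2 = 0 := by omega
          have e : u = (u.1, 0) := Prod.ext rfl h0'
          refine ⟨u.1, hz h0', Or.inr ⟨by omega, ?_⟩⟩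
          rw [← e]
          exact Relation.ReflTransGen.single hb2
        · exact ⟨j, hj, Or.inr ⟨by omega, h1.tail hb2⟩⟩
  obtain ⟨j, hj, hc⟩ := key _ h
  refine hj.tail ?_
  rcases hc with ⟨-, h1⟩ | ⟨-, h1⟩
  · exact Or.inl h1
  · exact Or.inr h1

end Pool.Agent.Perc
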