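import Pool.Agent.Lib.MP_6bd702_z.Z077

/-!
# The two-sided cylinder: from the lifted orbit to the parity of the labels
-/

set_option autoImplicit false

namespace Pool.Agent.Perc.TwoE

open Finset Function

variable {L : ℕ} {s' s : St}

/-- First the partner in `s'`, then the partner in `s`, in the universal cover. -/
def FF (L : ℕ) (s' s : St) (x : ℤ) : ℤ := liftS L s (liftS L s' x)

/-- The same on the sites. -/
def ff (s' s : St) (x : ℕ) : ℕ := s.1 (s'.1 x)

theorem FF_add_mul (hL : 0 < L) (x m : ℤ) : FF L s' s (x + m * L) = FF L s' s x + m * L := by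
  unfold FF
  rw [liftS_add_mul hL, liftS_add_mul hL]

theorem FF_iter_add_mul (hL : 0 < L) (n : ℕ) (x m : ℤ) :
    (FF L s' s)^[n] (x + m * L) = (FF L s' s)^[n] x + m * L := by
  induction n generalizing x with
  | zero => rfl
  | succ n ih => rw [iterate_succ_apply, iterate_succ_apply, FF_add_mul hL, ih]

theorem FF_mod (hL : 0 < L) (hs' : IsAnn L s') (hs : IsAnn L s) (x : ℤ) :
    (FF L s' s x % L).toNat = ff s' s (x % L).toNat := by
  unfold FF ff
  rw [liftS_mod hL hs, liftS_mod hL hs']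

theorem FF_iter_mod (hL : 0 < L) (hs' : IsAnn L s') (hs : IsAnn L s) (n : ℕ) (x : ℤ) :
    ((FF L s' s)^[n] x % L).toNat = (ff s' s)^[n] (x % L).toNat := by
  induction n with
  | zero => rfl
  | succ n ih => rw [iterate_succ_apply', iterate_succ_apply', FF_mod hL hs' hs, ih]

theorem FF_div_parity (hL : 0 < L) (hs' : IsAnn L s') (hs : IsAnn L s) (x : ℤ) :
    (FF L s' s x / L + x / L) % 2 =
      ((if s'.2 (x % L).toNat = true then 1 else 0) +
        (if s.2 (ff s' s (x % L).toNat) = true then 1 else 0)) % 2 := by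
  have h1 := liftS_div_parity hL hs' x
  have h2 := liftS_div_parity hL hs (liftS L s' x)
  rw [liftS_mod hL hs'] at h2
  have h3 : s.2 (ff s' s (x % L).toNat) = s.2 (s'.1 (x % L).toNat) := label_partner hs _
  rw [h3]
  unfold FF
  split_ifs at * <;> omega

/-- The inverse orbit. -/
theorem FF_surj (hL : 0 < L) (hs' : IsAnn L s') (hs : IsAnn L s) (x : ℤ) :
    FF L s' s (liftS L s' (liftS L s x)) = x := by
  unfold FF
  rw [liftS_liftS hL hs', liftS_liftS hL hs]

/-- A point of the orbit of `0`. -/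
theorem orbit_form (hL : 0 < L) (hs' : IsAnn L s') (hs : IsAnn L s) {y : ℤ}
    (h : Relation.ReflTransGen (fun x y : ℤ => y = liftS L s' x ∨ y = liftS L s x) 0 y) :
    ∃ n : ℕ, (FF L s' s)^[n] 0 = y ∨ (FF L s' s)^[n] y = 0 ∨
      liftS L s' ((FF L s' s)^[n] 0) = y ∨ (FF L s' s)^[n] (liftS L s' y) = 0 := by
  induction h with
  | refl => exact ⟨0, Or.inl rfl⟩
  | tail _ h ih =>
    rename_i b c _
    obtain ⟨n, ih⟩ := ih
    rcases h with rfl | rfl
    · rcases ih with ih | ih | ih | ih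
      · exact ⟨n, Or.inr (Or.inr (Or.inl (by rw [ih])))⟩
      · exact ⟨n, Or.inr (Or.inr (Or.inr (by rw [liftS_liftS hL hs', ih])))⟩
      · exact ⟨n, Or.inl (by rw [← ih, liftS_liftS hL hs'])⟩
      · exact ⟨n, Or.inr (Or.inl ih)⟩
    · rcases ih with ih | ih | ih | ih
      · rcases n with _ | n
        · refine ⟨1, Or.inr (Or.inr (Or.inr ?_))⟩
          change FF L s' s (liftS L s' (liftS L s b)) = 0
          rw [FF_surj hL hs' hs, ← ih]; rfl
        · refine ⟨n, Or.inr (Or.inr (Or.inl ?_))⟩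
          rw [← ih, iterate_succ_apply']
          unfold FF
          rw [liftS_liftS hL hs]
      · refine ⟨n + 1, Or.inr (Or.inr (Or.inr ?_))⟩
        rw [iterate_succ_apply, FF_surj hL hs' hs, ih]
      · refine ⟨n + 1, Or.inl ?_⟩
        rw [iterate_succ_apply', ← ih]
        rfl
      · rcases n with _ | n
        · refine ⟨1, Or.inl ?_⟩
          have ih' : liftS L s' b = 0 := ih
          have : b = liftS L s' 0 := by rw [← ih', liftS_liftS hL hs']
          rw [this]
          rfl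
        · refine ⟨n, Or.inr (Or.inl ?_)⟩
          rw [iterate_succ_apply] at ih
          have : FF L s' s (liftS L s' b) = liftS L s b := by
            unfold FF
            rw [liftS_liftS hL hs']
          rw [← this, ih]

theorem FF_parity (hL : 0 < L) (hs' : IsAnn L s') (hs : IsAnn L s) (x : ℤ) :
    (FF L s' s x - x) % 2 = 0 := by
  have h1 := liftS_parity hL hs' x
  have h2 := liftS_parity hL hs (liftS L s' x)
  unfold FF
  omega

theorem FF_iter_parity (hL : 0 < L) (hs' : IsAnn L s') (hs : IsAnn L s) (n : ℕ) (x : ℤ) :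
    ((FF L s' s)^[n] x - x) % 2 = 0 := by
  induction n with
  | zero => simp
  | succ n ih =>
    rw [iterate_succ_apply']
    have := FF_parity hL hs' hs ((FF L s' s)^[n] x)
    omega

theorem exists_iter (hL : 0 < L) (hs' : IsAnn L s') (hs : IsAnn L s)
    (h : Relation.ReflTransGen (fun x y : ℤ => y = liftS L s' x ∨ y = liftS L s x) 0 (L : ℤ)) :
    ∃ n : ℕ, ∃ e : ℤ, (e = 1 ∨ e = -1) ∧ (FF L s' s)^[n] 0 = e * L := by
  have hev := hs.nc.even
  obtain ⟨n, h1 | h1 | h1 | h1⟩ := orbit_form hL hs' hs h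
  · exact ⟨n, 1, Or.inl rfl, by rw [h1, one_mul]⟩
  · refine ⟨n, -1, Or.inr rfl, ?_⟩
    have h2 := FF_iter_add_mul (s' := s') (s := s) hL n 0 1
    rw [zero_add, one_mul, h1] at h2
    omega
  · exfalso
    have h2 := FF_iter_parity hL hs' hs n 0
    have h3 := liftS_parity hL hs' ((FF L s' s)^[n] 0)
    rw [h1] at h3
    omega
  · exfalso
    have h2 := FF_iter_parity hL hs' hs n (liftS L s' L)
    have h3 := liftS_parity hL hs' (L : ℤ)
    rw [h1] at h2
    omega


theorem ff_injective (hs' : IsAnn L s') (hs : IsAnn L s) : Injective (ff s' s) := by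
  intro x y h
  unfold ff at h
  have h1 := congrArg s.1 h
  rw [hs.nc.inv, hs.nc.inv] at h1
  have h2 := congrArg s'.1 h1
  rwa [hs'.nc.inv, hs'.nc.inv] at h2

theorem ff_lt (hs' : IsAnn L s') (hs : IsAnn L s) {x : ℕ} (hx : x < L) : ff s' s x < L :=
  hs.nc.lt _ (hs'.nc.lt _ hx)

theorem ff_parity (hs' : IsAnn L s') (hs : IsAnn L s) {x : ℕ} (hx : x < L) :
    ff s' s x % 2 = x % 2 := by
  have h1 := hs'.nc.parity hx
  have h2 := hs.nc.parity (hs'.nc.lt _ hx)
  unfold ff
  omega

theorem ff_iter_lt (hs' : IsAnn L s') (hs : IsAnn L s) (n : ℕ) {x : ℕ} (hx : x < L) :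
    (ff s' s)^[n] x < L := by
  induction n with
  | zero => exact hx
  | succ n ih => rw [iterate_succ_apply']; exact ff_lt hs' hs ih

theorem ff_iter_parity (hs' : IsAnn L s') (hs : IsAnn L s) (n : ℕ) {x : ℕ} (hx : x < L) :
    (ff s' s)^[n] x % 2 = x % 2 := by
  induction n with
  | zero => rfl
  | succ n ih => rw [iterate_succ_apply', ff_parity hs' hs (ff_iter_lt hs' hs n hx), ih]

theorem loopR_iter (n : ℕ) (x : ℕ) : LoopR s' s x ((ff s' s)^[n] x) := by
  induction n with
  | zero => exact Relation.ReflTransGen.refl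
  | succ n ih =>
    rw [iterate_succ_apply']
    exact (ih.tail (Or.inl rfl)).tail (Or.inr rfl)

theorem loopR_form (hs' : IsAnn L s') (hs : IsAnn L s) {h : ℕ} (h0 : 0 < h)
    (hh : (ff s' s)^[h] 0 = 0) {y : ℕ} (hy : LoopR s' s 0 y) :
    ∃ n : ℕ, y = (ff s' s)^[n] 0 ∨ y = s'.1 ((ff s' s)^[n] 0) := by
  induction hy with
  | refl => exact ⟨0, Or.inl rfl⟩
  | tail _ h1 ih =>
    rename_i b c _
    obtain ⟨n, ih⟩ := ih
    rcases h1 with rfl | rfl
    · rcases ih with rfl | rfl
      · exact ⟨n, Or.inr rfl⟩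
      · exact ⟨n, Or.inl (hs'.nc.inv _)⟩
    · rcases ih with rfl | rfl
      · refine ⟨n + (h - 1), Or.inr ?_⟩
        have e : (ff s' s)^[n] 0 = (ff s' s)^[(n + (h - 1)) + 1] 0 := by
          rw [show n + (h - 1) + 1 = n + h by omega, iterate_add_apply, hh]
        rw [e, iterate_succ_apply']
        conv_lhs => rw [ff]
        rw [hs.nc.inv]
      · refine ⟨n + 1, Or.inl ?_⟩
        rw [iterate_succ_apply']
        rfl

/-- The even sites of the loop of `0`. -/
theorem loop_even_iff (hL : 0 < L) (hs' : IsAnn L s') (hs : IsAnn L s)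
    (hp : 0 < minimalPeriod (ff s' s) 0) (x : ℕ) :
    (x < L ∧ x % 2 = 0 ∧ LoopR s' s 0 x) ↔
      ∃ k < minimalPeriod (ff s' s) 0, (ff s' s)^[k] 0 = x := by
  constructor
  · rintro ⟨hx, h2, h3⟩
    obtain ⟨n, rfl | rfl⟩ := loopR_form hs' hs hp (iterate_minimalPeriod) h3
    · exact ⟨n % minimalPeriod (ff s' s) 0, Nat.mod_lt _ hp, iterate_mod_minimalPeriod_eq⟩
    · exfalso
      have h4 := hs'.nc.parity (ff_iter_lt hs' hs n hL)
      have h5 := ff_iter_parity hs' hs n hL
      omega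
  · rintro ⟨k, _, rfl⟩
    exact ⟨ff_iter_lt hs' hs k hL, by rw [ff_iter_parity hs' hs k hL], loopR_iter k 0⟩

open Classical in
theorem loop_card (hL : 0 < L) (hs' : IsAnn L s') (hs : IsAnn L s)
    (hp : 0 < minimalPeriod (ff s' s) 0) (c : ℕ → Bool) :
    ((range L).filter fun x => x % 2 = 0 ∧ c x = true ∧ LoopR s' s 0 x).card =
      ∑ k ∈ range (minimalPeriod (ff s' s) 0), (if c ((ff s' s)^[k] 0) = true then 1 else 0) := by
  rw [Finset.sum_boole, Nat.cast_id]
  symm
  refine Finset.card_bij (fun k _ => (ff s' s)^[k] 0) ?_ ?_ ?_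
  · intro k hk
    rw [mem_filter, mem_range] at hk
    rw [mem_filter, mem_range]
    obtain ⟨h1, h2, h3⟩ := (loop_even_iff hL hs' hs hp ((ff s' s)^[k] 0)).2 ⟨k, hk.1, rfl⟩
    exact ⟨h1, h2, hk.2, h3⟩
  · intro a ha b hb hab
    rw [mem_filter, mem_range] at ha hb
    exact (iterate_eq_iterate_iff_of_lt_minimalPeriod ha.1 hb.1).1 hab
  · intro x hx
    rw [mem_filter, mem_range] at hx
    obtain ⟨k, hk, rfl⟩ := (loop_even_iff hL hs' hs hp x).1 ⟨hx.1, hx.2.1, hx.2.2.2⟩
    exact ⟨k, by rw [mem_filter, mem_range]; exact ⟨hk, hx.2.2.1⟩, rfl⟩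

/-- The number of periods after `k` steps. -/
theorem div_iter (hL : 0 < L) (hs' : IsAnn L s') (hs : IsAnn L s) (k : ℕ) :
    ((FF L s' s)^[k] 0 / L - ((∑ i ∈ range k, (if s'.2 ((ff s' s)^[i] 0) = true then 1 else 0) +
      ∑ i ∈ range k, (if s.2 ((ff s' s)^[i + 1] 0) = true then 1 else 0) : ℕ) : ℤ)) % 2 = 0 := by
  induction k with
  | zero => simp
  | succ k ih =>
    rw [sum_range_succ, sum_range_succ, iterate_succ_apply']
    have h1 := FF_div_parity hL hs' hs ((FF L s' s)^[k] 0)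
    have h2 := FF_iter_mod hL hs' hs k 0
    have h3 : ((0 : ℤ) % L).toNat = 0 := by simp
    rw [h3] at h2
    rw [h2, ← iterate_succ_apply' (ff s' s)] at h1
    have e1 : (if s'.2 ((ff s' s)^[k] 0) = true then (1 : ℤ) else 0) =
        (((if s'.2 ((ff s' s)^[k] 0) = true then 1 else 0 : ℕ)) : ℤ) := by split_ifs <;> rfl
    have e2 : (if s.2 ((ff s' s)^[k + 1] 0) = true then (1 : ℤ) else 0) =
        (((if s.2 ((ff s' s)^[k + 1] 0) = true then 1 else 0 : ℕ)) : ℤ) := by split_ifs <;> rfl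
    rw [e1, e2] at h1
    push_cast at ih h1 ⊢
    omega

theorem ncAt_of_orbit (hs' : IsAnn L s') (hs : IsAnn L s) (hL0 : 0 < L)
    (h : Relation.ReflTransGen (fun x y : ℤ => y = liftS L s' x ∨ y = liftS L s x) 0 (L : ℤ)) :
    NCat L s' s 0 := by
  classical
  obtain ⟨n, e, he, hn⟩ := exists_iter hL0 hs' hs h
  have hn0 : n ≠ 0 := by
    rintro rfl
    have hn' : (0 : ℤ) = e * L := hn
    rcases he with rfl | rfl <;> omega
  have hmod : (ff s' s)^[n] 0 = 0 := by
    have h2 := FF_iter_mod hL0 hs' hs n 0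
    rw [hn] at h2
    simpa using h2.symm
  have hper : IsPeriodicPt (ff s' s) n 0 := hmod
  set p := minimalPeriod (ff s' s) 0 with hpd
  have hp : 0 < p := hper.minimalPeriod_pos (Nat.pos_of_ne_zero hn0)
  obtain ⟨t, ht⟩ : p ∣ n := hper.minimalPeriod_dvd
  have hpm : ∃ m : ℤ, (FF L s' s)^[p] 0 = m * L := by
    have h2 := FF_iter_mod hL0 hs' hs p 0
    have h3 : ((0 : ℤ) % L).toNat = 0 := by simp
    rw [h3, show (ff s' s)^[p] 0 = 0 from iterate_minimalPeriod] at h2
    have h4 := eq_div_add hL0 ((FF L s' s)^[p] 0)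
    rw [h2] at h4
    exact ⟨(FF L s' s)^[p] 0 / L, by simpa using h4⟩
  obtain ⟨m, hm⟩ := hpm
  have hit : ∀ j : ℕ, (FF L s' s)^[p * j] 0 = j * m * L := by
    intro j
    induction j with
    | zero => simp
    | succ j ih =>
      have h5 := FF_iter_add_mul (s' := s') (s := s) hL0 (p * j) 0 m
      rw [zero_add] at h5
      rw [Nat.mul_succ, iterate_add_apply, hm, h5, ih]
      push_cast
      ring
  have hodd : m % 2 = 1 := by
    have h6 := hit t
    rw [← ht, hn] at h6
    have hL' : (L : ℤ) ≠ 0 := by omega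
    have h7 : e = t * m := mul_right_cancel₀ hL' h6
    have h8 : m ∣ 1 := by
      rcases he with rfl | rfl
      · exact ⟨t, by rw [h7]; ring⟩
      · exact ⟨-t, by linear_combination (-1 : ℤ) * h7⟩
    rcases Int.isUnit_iff.1 (isUnit_of_dvd_one h8) with rfl | rfl <;> rfl
  have hdiv := div_iter hL0 hs' hs p
  rw [hm, Int.mul_ediv_cancel _ (by omega : (L : ℤ) ≠ 0)] at hdiv
  have hA : loopA L s' s 0 =
      ∑ k ∈ range p, (if s'.2 ((ff s' s)^[k] 0) = true then 1 else 0) := by
    unfold loopA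
    exact loop_card hL0 hs' hs hp s'.2
  have hB : loopB L s' s 0 =
      ∑ k ∈ range p, (if s.2 ((ff s' s)^[k + 1] 0) = true then 1 else 0) := by
    unfold loopB
    rw [loop_card hL0 hs' hs hp s.2]
    have h9 := Finset.sum_range_succ' (fun k => if s.2 ((ff s' s)^[k] 0) = true then 1 else 0) p
    have h10 := Finset.sum_range_succ (fun k => if s.2 ((ff s' s)^[k] 0) = true then 1 else 0) p
    have h11 : (ff s' s)^[p] 0 = (ff s' s)^[0] 0 := iterate_minimalPeriod
    simp only [h11] at h10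
    rw [← hpd]
    omega
  unfold NCat
  rw [hA, hB]
  omega

end Pool.Agent.Perc.TwoE
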