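import Pool.Agent.Lib.MP_6bd702_z.Z079
import Pool.Agent.Lib.MP_6bd702_z.Z077
import Pool.Agent.Lib.MP_6bd702_z.Z078
import Pool.Agent.Lib.MP_6bd702_z.Z076

section PartperqTwoE

/-!
# The two-sided cylinder: two wrapping clusters give a non-contractible loop (task TwoE)
-/

set_option autoImplicit false

namespace Pool.Agent.Perc

open Finset

variable {L M : ℕ}

/-- Combinatorial form: if the gaps `0` and `L` are related by regions of the two states, and the
gaps `1` and `L + 1` too, then the loop of the site `0` is non-contractible. -/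
theorem ncAt_of_sameReg {s' s : St} (hs' : IsAnn L s') (hs : IsAnn L s) (hL0 : 0 < L)
    (h0 : Relation.ReflTransGen (fun k l => SameReg L s' k l ∨ SameReg L s k l) 0 (L : ℤ))
    (h1 : Relation.ReflTransGen (fun k l => SameReg L s' k l ∨ SameReg L s k l) 1
      ((L : ℤ) + 1)) : NCat L s' s 0 :=
  TwoE.ncAt_of_orbit hs' hs hL0 (TwoE.orbit_of_sameReg hL0 hs' hs h0 h1)

theorem TwoE.isAnn_run (ω : Cfg) (M : ℕ) : ∀ s : St, IsAnn L s → IsAnn L (run L ω M s) := by
  induction M with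
  | zero => intro s hs; exact hs
  | succ M ih => intro s hs; exact ih _ (hs.trow _)

theorem ncAt_of_wrap (hL : L % 2 = 0) (hL0 : 0 < L) (ω : Cfg)
    (h0 : Conn (perC L ω) (strip M) (0, 0) ((L : ℤ), 0))
    (h1 : Conn (perC L ω) (strip M) (1, 0) ((L : ℤ) + 1, 0)) :
    NCat L (upS L M ω) (loS L M ω) 0 := by
  have key : ∀ k l : ℤ, Conn (perC L ω) (strip M) (k, 0) (l, 0) →
      Relation.ReflTransGen
        (fun k l => SameReg L (upS L M ω) k l ∨ SameReg L (loS L M ω) k l) k l := by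
    intro k l h
    have h' := conn_strip (perC L ω) h
    clear h
    induction h' with
    | refl => exact Relation.ReflTransGen.refl
    | tail _ hab ih =>
      refine ih.tail ?_
      rcases hab with hab | hab
      · exact Or.inl (complete_run hL hL0 ω hab)
      · exact Or.inr (complete_low hL hL0 ω hab)
  exact ncAt_of_sameReg (TwoE.isAnn_run ω M _ (isAnn_s0 hL))
    (TwoE.isAnn_run (lowC ω) M _ (isAnn_s0 hL)) hL0 (key _ _ h0) (key _ _ h1)

end Pool.Agent.Perc

end PartperqTwoE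

section PartperqTwoF

/-!
# The two-sided cylinder: upper bound for two wrapping clusters (task TwoF)
-/

set_option autoImplicit false

namespace Pool.Agent.Perc

open Finset MvPolynomial Filter Topology

/-- The event that the clusters of `(0, 0)` and `(1, 0)` wrap around the cylinder. -/
def wrap2 (L M : ℕ) : Set Cfg :=
  {ω | Conn (perC L ω) (strip M) (0, 0) ((L : ℤ), 0) ∧
    Conn (perC L ω) (strip M) (1, 0) ((L : ℤ) + 1, 0)}

namespace TwoF

theorem depOn_wrap2 {L : ℕ} (hL : 0 < L) (M : ℕ) :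
    DepOn (RF 0 (L : ℤ) (-M) M : Set (ℤ × ℤ)) (wrap2 L M) := by
  intro ω ω' h
  have h1 : ∀ f ∈ strip M, perC L ω f = perC L ω' f := by
    intro f hf
    unfold perC
    apply h
    have h2 : (L : ℤ) ≠ 0 := by omega
    have h3 : (0 : ℤ) < L := by omega
    rw [mem_coe]
    unfold RF
    rw [mem_product, mem_Ico, mem_Ico]
    exact ⟨⟨Int.emod_nonneg _ h2, Int.emod_lt_of_pos _ h3⟩, hf.1, hf.2⟩
  unfold wrap2
  rw [Set.mem_ofPred_eq, Set.mem_ofPred_eq, GridA.conn_iff (strip M) h1, GridA.conn_iff (strip M) h1]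

theorem strip_mono {M M' : ℕ} (h : M ≤ M') : strip M ⊆ strip M' := by
  intro f hf
  have h1 := hf.1
  have h2 := hf.2
  constructor <;> omega

theorem RF_mono (L : ℕ) {M M' : ℕ} (h : M ≤ M') : RF 0 (L : ℤ) (-M) M ⊆ RF 0 (L : ℤ) (-M') M' := by
  intro f hf
  unfold RF at hf ⊢
  rw [mem_product, mem_Ico, mem_Ico] at hf ⊢
  omega

end TwoF

open TwoF in
open Classical in
theorem pr_wrap2_le {q : ℂ} (hq : q ^ 2 + q + 1 = 0) {n : ℕ} (hn : 0 < n)
    (h0 : ∑ s ∈ anns (2 * n), eval (fun _ => 1) (PsiS q n s) ≠ 0) (M : ℕ) :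
    pr (RF 0 ((2 * n : ℕ) : ℤ) (-M) M) (wrap2 (2 * n) M) ≤
      (exSt q n fun s' s => if NCat (2 * n) s' s 0 then 1 else 0).re := by
  have h1 := tendsto_ex_two hq h0 (fun s' s => if NCat (2 * n) s' s 0 then (1 : ℂ) else 0)
  have h2 := (Complex.continuous_re.tendsto _).comp h1
  refine ge_of_tendsto h2 ?_
  filter_upwards [eventually_ge_atTop M] with M' hM'
  have h3 : pr (RF 0 ((2 * n : ℕ) : ℤ) (-M) M) (wrap2 (2 * n) M) =
      pr (RF 0 ((2 * n : ℕ) : ℤ) (-M') M') (wrap2 (2 * n) M) :=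
    (pr_eq_of_depOn (depOn_wrap2 (by omega) M) (RF_mono (2 * n) hM')).symm
  rw [h3, Function.comp_apply,
    ex_indicator {ω : Cfg | NCat (2 * n) (upS (2 * n) M' ω) (loS (2 * n) M' ω) 0}
      (fun ω => if NCat (2 * n) (upS (2 * n) M' ω) (loS (2 * n) M' ω) 0 then (1 : ℂ) else 0)
      (fun ω hω => if_pos hω) (fun ω hω => if_neg hω), Complex.ofReal_re]
  refine pr_mono _ fun ω hω => ?_
  exact ncAt_of_wrap (by omega) (by omega) ω (hω.1.mono (strip_mono hM'))
    (hω.2.mono (strip_mono hM'))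

end Pool.Agent.Perc

end PartperqTwoF
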