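import Pool.Agent.Lib.MP_6bd702_z.Z016
import Pool.Agent.Lib.MP_6bd702_z.Z014
import Pool.Agent.Lib.MP_6bd702_z.Z030

/-!
# Part U in the face grid: definitions

`R` is the radius of the box `[-R, R]²`, `e` a unit edge in the box, `MM ω (RF (-R) R (-R) R) e` its
component, `SS` the visited faces, `potR` the potential (see `MP_6bd702_percw/CoreDefs.lean`).
-/

set_option autoImplicit false

namespace Pool.Agent.PercT

open Finset Pool.Agent.Perc

/-- The unit edge `a` lies on the boundary of the box `[-R, R]²`. -/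
def Bdy (R : ℤ) (a : UE) : Prop :=
  (a.2.2 = true ∧ (a.1 = -R ∨ a.1 = R) ∧ -R ≤ a.2.1 ∧ a.2.1 < R) ∨
    (a.2.2 = false ∧ (a.2.1 = -R ∨ a.2.1 = R) ∧ -R ≤ a.1 ∧ a.1 < R)

/-- Twice the midpoint of a unit edge. -/
def mid (a : UE) : ℤ × ℤ := if a.2.2 then (2 * a.1, 2 * a.2.1 + 1) else (2 * a.1 + 1, 2 * a.2.1)

/-- The midpoints of `a` and `x` have sup norm distance at least `g`. -/
def Far (g : ℤ) (a x : UE) : Prop :=
  2 * g ≤ |(mid a).1 - (mid x).1| ∨ 2 * g ≤ |(mid a).2 - (mid x).2|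

/-- Both ends of `e` are connected to the boundary of the box of radius `R`. -/
def Arm2 (R : ℤ) (e : UE) : Set Cfg :=
  {ω | ToBd (-R) R (-R) R ω (ua e) ∧ ToBd (-R) R (-R) R ω (ub e)}

/-- The component of `e` has a tip on the right side at height `h`, and every other tip has
distance at least `g`. -/
def SepR (R g h : ℤ) (e : UE) : Set Cfg :=
  {ω | -R ≤ h ∧ h < R ∧ (R, h, true) ∈ MM ω (RF (-R) R (-R) R) e ∧
    ∀ a ∈ MM ω (RF (-R) R (-R) R) e, Bdy R a → a ≠ (R, h, true) → Far g a (R, h, true)}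

/-- The component of `e` has a tip such that every other tip has distance at least `g`. -/
def Sep (R g : ℤ) (e : UE) : Set Cfg :=
  {ω | ∃ x ∈ MM ω (RF (-R) R (-R) R) e, Bdy R x ∧
    ∀ a ∈ MM ω (RF (-R) R (-R) R) e, Bdy R a → a ≠ x → Far g a x}

/-- The four unit edges at the origin. -/
def eo : Fin 4 → UE := ![(0, 0, false), (0, 0, true), (-1, 0, false), (0, -1, true)]

/-- Nearest point of the box. -/
def cl (R : ℤ) (v : ℤ × ℤ) : ℤ × ℤ := (max (-R) (min v.1 R), max (-R) (min v.2 R))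

/-- The potential of the component of `e` in the box, extended to all vertices by the nearest
point of the box. -/
noncomputable def potC (ω : Cfg) (R : ℤ) (e : UE) (v : ℤ × ℤ) : ZMod 2 :=
  potR ω (-R) R (-R) R e (cl R v)

/-- The face `f` outside the box lies on the ray from a tip of the component of `e`. -/
def Bad (ω : Cfg) (R : ℤ) (e : UE) (f : ℤ × ℤ) : Prop :=
  (R ≤ f.1 ∧ -R ≤ f.2 ∧ f.2 < R ∧ (R, f.2, true) ∈ MM ω (RF (-R) R (-R) R) e) ∨
  (f.1 < -R ∧ -R ≤ f.2 ∧ f.2 < R ∧ (-R, f.2, true) ∈ MM ω (RF (-R) R (-R) R) e) ∨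
  (R ≤ f.2 ∧ -R ≤ f.1 ∧ f.1 < R ∧ (f.1, R, false) ∈ MM ω (RF (-R) R (-R) R) e) ∨
  (f.2 < -R ∧ -R ≤ f.1 ∧ f.1 < R ∧ (f.1, -R, false) ∈ MM ω (RF (-R) R (-R) R) e)

open Classical in
/-- The configuration equal to `ω` on `S` and to `ξ` elsewhere. -/
noncomputable def mix (S : Set (ℤ × ℤ)) (ω ξ : Cfg) : Cfg := fun f => if f ∈ S then ω f else ξ f

/-- Turn for the colour `c` of the upper end of the tip `(R, h, true)`: from below the tip through
the left half annulus of radii `r, 2 r` to the upper right, then a tube up to the height `3 R`. -/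
def TubeA (R r h c : ℤ) : Set Cfg :=
  {ω | ω ∈ LR c (R - 2 * r) R (h - 2 * r) (h - r) ∧
    ω ∈ BT c (R - 2 * r) (R - r) (h - 2 * r) (h + 2 * r) ∧
    ω ∈ LR c (R - 2 * r) (R + 6 * r) (h + r) (h + 2 * r) ∧
    ω ∈ BT c (R + 5 * r) (R + 6 * r) (h + r) (3 * R)}

/-- Turn for the colour `c` of the lower end of the tip: from above the tip through the left half
annulus of radii `3 r, 4 r` to the lower right, then a tube down to the height `-3 R`. -/
def TubeB (R r h c : ℤ) : Set Cfg :=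
  {ω | ω ∈ LR c (R - 4 * r) R (h + 3 * r) (h + 4 * r) ∧
    ω ∈ BT c (R - 4 * r) (R - 3 * r) (h - 4 * r) (h + 4 * r) ∧
    ω ∈ LR c (R - 4 * r) (R + 6 * r) (h - 4 * r) (h - 3 * r) ∧
    ω ∈ BT c (R + 5 * r) (R + 6 * r) (-(3 * R)) (h - 3 * r)}

/-- Crossings of colour `c` which form a path around the cylinder in the strip of heights
`y₀, y₁`. -/
def RingE (R c y₀ y₁ : ℤ) : Set Cfg :=
  {ω | ∀ i : ℤ, ω ∈ LR c (2 * R * i) (2 * R * i + 4 * R) y₀ y₁ ∧
    ω ∈ BT c (2 * R * i + 2 * R) (2 * R * i + 4 * R) y₀ y₁}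

/-- All the crossings. `c` is the colour of the upper end of the tip. -/
def TubeE (R r h c : ℤ) : Set Cfg :=
  {ω | (ω ∈ TubeA R r h c ∧ ω ∈ RingE R c (2 * R) (3 * R)) ∧
    ω ∈ TubeB R r h (c + 1) ∧ ω ∈ RingE R (c + 1) (-(3 * R)) (-(2 * R))}

/-- The faces of a strip. -/
def stripZ (H : ℤ) : Set (ℤ × ℤ) := {f | -H ≤ f.2 ∧ f.2 < H}

/-- The two ends of `e` are connected to their translates by `(L, 0)`. -/
def Wrap (L : ℕ) (H : ℤ) (e : UE) : Set Cfg :=
  {ω | Conn (perC L ω) (stripZ H) (ua e) ((ua e).1 + L, (ua e).2) ∧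
    Conn (perC L ω) (stripZ H) (ub e) ((ub e).1 + L, (ub e).2)}

/-- The image of a set of faces in the fundamental domain. -/
def redS (L : ℕ) (S : Set (ℤ × ℤ)) : Set (ℤ × ℤ) := (fun f : ℤ × ℤ => (f.1 % (L : ℤ), f.2)) '' S

end Pool.Agent.PercT
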