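import Pool.Agent.Lib.MP_6bd702_z.Z012

/-!
# The laws of the rescaled outer perimeters as probability measures: the final form
-/

set_option autoImplicit false

namespace Pool.Agent.PercD

open Set Filter Topology MeasureTheory TopologicalSpace
open Pool.Agent.Perc

theorem coe_lawP (n : ℕ) (sel : Finset Edg → ℤ × ℤ) : (lawP n sel : Measure Curve) = lawC n sel :=
  rfl

/-- Weak convergence is convergence of probability measures. -/
theorem limitCurve_iff {sel : ℕ → Finset Edg → ℤ × ℤ} {φ : ℕ → ℕ} {μ : ProbabilityMeasure Curve} :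
    LimitCurve sel φ (μ : Measure Curve) ↔
      Tendsto (fun k => lawP (φ k) (sel (φ k))) atTop (𝓝 μ) := by
  rw [ProbabilityMeasure.tendsto_iff_forall_integral_tendsto]
  unfold LimitCurve
  simp only [coe_lawP, integral_lawC]

/-- The final form: the laws are tight, limits along subsequences exist, and every limit law gives
full measure to the curves with trace of dimension `7 / 4` which are not self-avoiding. -/
theorem scaling_of (h1 : TargetTight) (h2 : TargetExist) (h3 : TargetCurve)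
    (sel : ℕ → Finset Edg → ℤ × ℤ) (hsel : ∀ n, IsSel n (sel n)) :
    IsTightMeasureSet (range fun n => (lawP n (sel n) : Measure Curve)) ∧
    ∀ φ : ℕ → ℕ, Tendsto φ atTop atTop →
      (∃ ψ : ℕ → ℕ, StrictMono ψ ∧ ∃ μ : ProbabilityMeasure Curve,
        Tendsto (fun k => lawP (φ (ψ k)) (sel (φ (ψ k)))) atTop (𝓝 μ)) ∧
      ∀ μ : ProbabilityMeasure Curve, Tendsto (fun k => lawP (φ k) (sel (φ k))) atTop (𝓝 μ) →
        ∀ᵐ c : Curve ∂(μ : Measure Curve), dimH (c.trace : Set ℂ) = 7 / 4 ∧ ¬ c.SelfAvoiding := by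
  refine ⟨h1 sel hsel, fun φ hφ => ⟨?_, fun μ hμ => ?_⟩⟩
  · obtain ⟨ψ, hψ, μ, hμ, hlim⟩ := h2 sel hsel φ
    exact ⟨ψ, hψ, ⟨μ, hμ⟩, limitCurve_iff.1 hlim⟩
  · obtain ⟨ψ, hψ, hmono⟩ := strictMono_subseq_of_tendsto_atTop hφ
    refine h3 sel (φ ∘ ψ) μ hsel hmono (limitCurve_iff.2 ?_)
    exact hμ.comp hψ.tendsto_atTop

end Pool.Agent.PercD
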