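import Pool.Agent.Lib.MP_6bd702_z.Prob

/-!
# Percolation on the face grid: definitions

Vertices are the points of `ℤ × ℤ`. Every unit face (named by its lower left corner) contains one
of its two diagonals: the bond from the lower left to the upper right corner if `ω f = true`, the
bond from the upper left to the lower right corner if `ω f = false`. The vertices with even
coordinate sum with these bonds form critical bond percolation on the square lattice (turned by 45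
degrees), the vertices with odd coordinate sum the dual percolation.
-/

set_option autoImplicit false

namespace Pool.Agent.Perc

open Finset

/-- The bonds in the faces of `F`. -/
def Bond (ω : Cfg) (F : Set (ℤ × ℤ)) (u v : ℤ × ℤ) : Prop :=
  ∃ x y : ℤ, (x, y) ∈ F ∧
    ((ω (x, y) = true ∧ ((u = (x, y) ∧ v = (x + 1, y + 1)) ∨ (u = (x + 1, y + 1) ∧ v = (x, y)))) ∨
     (ω (x, y) = false ∧ ((u = (x, y + 1) ∧ v = (x + 1, y)) ∨ (u = (x + 1, y) ∧ v = (x, y + 1)))))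

/-- Connection by bonds in the faces of `F`. -/
def Conn (ω : Cfg) (F : Set (ℤ × ℤ)) : ℤ × ℤ → ℤ × ℤ → Prop := Relation.ReflTransGen (Bond ω F)

/-- The faces of the rectangle `[x₀, x₁] × [y₀, y₁]`. -/
noncomputable def RF (x₀ x₁ y₀ y₁ : ℤ) : Finset (ℤ × ℤ) := Ico x₀ x₁ ×ˢ Ico y₀ y₁

/-- The boundary of the rectangle `[x₀, x₁] × [y₀, y₁]`. -/
def OnBd (x₀ x₁ y₀ y₁ : ℤ) (v : ℤ × ℤ) : Prop :=
  (v.1 = x₀ ∨ v.1 = x₁ ∨ v.2 = y₀ ∨ v.2 = y₁) ∧ x₀ ≤ v.1 ∧ v.1 ≤ x₁ ∧ y₀ ≤ v.2 ∧ v.2 ≤ y₁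

/-- Connection to the boundary of a rectangle. -/
def ToBd (x₀ x₁ y₀ y₁ : ℤ) (ω : Cfg) (u : ℤ × ℤ) : Prop :=
  ∃ v, Conn ω (RF x₀ x₁ y₀ y₁) u v ∧ OnBd x₀ x₁ y₀ y₁ v

/-- Half-plane arm: `(0, 0)` is connected in `[-r, r] × [0, r]` to the left, right or top side. -/
def hpArm (r : ℤ) : Set Cfg :=
  {ω | ∃ v, Conn ω (RF (-r) r 0 r) (0, 0) v ∧ (v.1 = -r ∨ v.1 = r ∨ v.2 = r)}

noncomputable def pArm (r : ℤ) : ℝ := pr (RF (-r) r 0 r) (hpArm r)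

/-- Two arms of the edge from `(0, 0)` to `(1, 0)`. -/
def twoArm (R : ℤ) : Set Cfg := {ω | ToBd (-R) R (-R) R ω (0, 0) ∧ ToBd (-R) R (-R) R ω (1, 0)}

noncomputable def p2 (R : ℤ) : ℝ := pr (RF (-R) R (-R) R) (twoArm R)

/-- Left-right crossing by a path of vertices `v` with `v.1 + v.2 ≡ c` mod 2. -/
def LR (c : ℤ) (x₀ x₁ y₀ y₁ : ℤ) : Set Cfg :=
  {ω | ∃ u v, u.1 = x₀ ∧ y₀ ≤ u.2 ∧ u.2 ≤ y₁ ∧ v.1 = x₁ ∧ (u.1 + u.2 - c) % 2 = 0 ∧
    Conn ω (RF x₀ x₁ y₀ y₁) u v}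

/-- Bottom-top crossing. -/
def BT (c : ℤ) (x₀ x₁ y₀ y₁ : ℤ) : Set Cfg :=
  {ω | ∃ u v, u.2 = y₀ ∧ x₀ ≤ u.1 ∧ u.1 ≤ x₁ ∧ v.2 = y₁ ∧ (u.1 + u.2 - c) % 2 = 0 ∧
    Conn ω (RF x₀ x₁ y₀ y₁) u v}

/-- Translation of a configuration. -/
def shiftC (a b : ℤ) (ω : Cfg) : Cfg := fun f => ω (f.1 + a, f.2 + b)

/-- The order for which bonds between vertices of parity `c` are increasing. -/
def parD (c : ℤ) : ℤ × ℤ → Bool := fun f => decide ((f.1 + f.2 - c) % 2 ≠ 0)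

end Pool.Agent.Perc
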