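import Pool.Agent.Lib.MP_6bd702_z.BoxDefs

/-!
# The half-plane one-arm probability on the square lattice: definitions
-/

set_option autoImplicit false

namespace Pool.Agent.Perc

open Finset

/-- The vertices of the half-plane `{(a, b) : b ≤ a}` in the box `[-n, n]²`. -/
def HPV (n : ℕ) : Set (ℤ × ℤ) :=
  {v | v.2 ≤ v.1 ∧ -(n : ℤ) ≤ v.1 ∧ v.1 ≤ n ∧ -(n : ℤ) ≤ v.2 ∧ v.2 ≤ n}

open Classical in
/-- The edges with both end points in `HPV n`. -/
noncomputable def hpE (n : ℕ) : Finset Edg :=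
  (Icc (-(n : ℤ)) n ×ˢ (Icc (-(n : ℤ)) n ×ˢ (univ : Finset Bool))).filter
    fun e => tl e ∈ HPV n ∧ hd e ∈ HPV n

open Classical in
/-- The probability that in critical percolation in the half-plane `{(a, b) : b ≤ a}` the cluster
of the origin reaches the sup norm distance `n`. -/
noncomputable def hpP (n : ℕ) : ℝ :=
  (((hpE n).powerset.filter fun T => ∃ v ∈ clV T (0, 0),
    v.1 = n ∨ v.1 = -(n : ℤ) ∨ v.2 = n ∨ v.2 = -(n : ℤ)).card : ℝ) / 2 ^ (hpE n).card

end Pool.Agent.Perc
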