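import Mathlib.Tactic
import Mathlib.Algebra.AffineMonoid.UniqueSums
import Mathlib.Algebra.Field.ZMod
import Mathlib.Algebra.MvPolynomial.Funext
import Mathlib.Algebra.MvPolynomial.PDeriv
import Mathlib.Algebra.Order.Ring.Star
import Mathlib.Algebra.Order.Star.Real
import Mathlib.AlgebraicTopology.FundamentalGroupoid.SimplyConnected
import Mathlib.Analysis.CStarAlgebra.Classes
import Mathlib.Analysis.Complex.Convex
import Mathlib.Analysis.Complex.Polynomial.Basic
import Mathlib.Analysis.Convex.Contractible
import Mathlib.Analysis.SpecialFunctions.Stirling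
import Mathlib.Combinatorics.SetFamily.HarrisKleitman
import Mathlib.Data.Finsupp.Pointwise
import Mathlib.Data.Int.Star
import Mathlib.Data.Set.Card.Arithmetic
import Mathlib.LinearAlgebra.Vandermonde
import Mathlib.MeasureTheory.Measure.Prokhorov
import Mathlib.Order.CompletePartialOrder
import Mathlib.RingTheory.MvPolynomial.IrreducibleQuadratic
import Mathlib.RingTheory.SimpleRing.Principal
import Mathlib.Topology.Algebra.MvPolynomial
import Mathlib.Topology.ContinuousMap.SecondCountableSpace
import Mathlib.Topology.MetricSpace.Closeds
import Mathlib.Topology.MetricSpace.HausdorffDimension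
import Mathlib.Topology.UniformSpace.Uniformizable
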