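import Pool.Agent.Lib.MP_6bd702_z.ProbDefs

/-!
# Uniform configurations on finite windows (task ProbA)
-/

set_option autoImplicit false

namespace Pool.Agent.Perc

open Finset

variable {S S' : Finset (ℤ × ℤ)} {A B : Set Cfg}

namespace ProbA

open Classical in
theorem pr_eq_sum (S : Finset (ℤ × ℤ)) (A : Set Cfg) :
    pr S A = (∑ T ∈ S.powerset, if cfg T ∈ A then (1 : ℝ) else 0) / 2 ^ S.card := by
  unfold pr
  rw [Finset.card_filter]
  push_cast
  rfl

theorem cfg_insert (f : ℤ × ℤ) (T : Finset (ℤ × ℤ)) :
    cfg (insert f T) = Function.update (cfg T) f true := by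
  funext x
  unfold cfg
  rcases eq_or_ne x f with h | h
  · subst h
    simp
  · rw [Function.update_of_ne h]
    simp [h]

theorem cfg_of_notMem {f : ℤ × ℤ} {T : Finset (ℤ × ℤ)} (hf : f ∉ T) :
    Function.update (cfg T) f false = cfg T := by
  funext x
  unfold cfg
  rcases eq_or_ne x f with h | h
  · subst h
    simp [hf]
  · rw [Function.update_of_ne h]

/-- The section of an event. -/
def sec (f : ℤ × ℤ) (b : Bool) (A : Set Cfg) : Set Cfg := {ω | Function.update ω f b ∈ A}

theorem mem_sec {f : ℤ × ℤ} {b : Bool} {A : Set Cfg} {ω : Cfg} :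
    ω ∈ sec f b A ↔ Function.update ω f b ∈ A := Iff.rfl

theorem pr_insert {f : ℤ × ℤ} (hf : f ∉ S) (A : Set Cfg) :
    pr (insert f S) A = (pr S (sec f true A) + pr S (sec f false A)) / 2 := by
  classical
  rw [pr_eq_sum, pr_eq_sum, pr_eq_sum, Finset.sum_powerset_insert hf, Finset.card_insert_of_notMem hf]
  have h1 : ∑ T ∈ S.powerset, (if cfg T ∈ A then (1 : ℝ) else 0) =
      ∑ T ∈ S.powerset, (if cfg T ∈ sec f false A then (1 : ℝ) else 0) := by
    refine Finset.sum_congr rfl fun T hT => ?_
    have h : f ∉ T := fun h => hf (Finset.mem_powerset.1 hT h)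
    simp only [mem_sec, cfg_of_notMem h]
  have h2 : ∑ T ∈ S.powerset, (if cfg (insert f T) ∈ A then (1 : ℝ) else 0) =
      ∑ T ∈ S.powerset, (if cfg T ∈ sec f true A then (1 : ℝ) else 0) := by
    refine Finset.sum_congr rfl fun T _ => ?_
    simp only [mem_sec, cfg_insert]
  rw [h1, h2, pow_succ]
  field_simp
  ring

open Classical in
theorem pr_empty (A : Set Cfg) : pr ∅ A = if (cfg ∅) ∈ A then 1 else 0 := by
  rw [pr_eq_sum, Finset.powerset_empty, Finset.sum_singleton, Finset.card_empty, pow_zero, div_one]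

end ProbA

open ProbA

theorem pr_nonneg (S : Finset (ℤ × ℤ)) (A : Set Cfg) : 0 ≤ pr S A := by
  unfold pr
  positivity

theorem pr_le_one (S : Finset (ℤ × ℤ)) (A : Set Cfg) : pr S A ≤ 1 := by
  classical
  unfold pr
  rw [div_le_one (by positivity)]
  have h := Finset.card_filter_le S.powerset (fun T => cfg T ∈ A)
  rw [Finset.card_powerset] at h
  calc _ ≤ ((2 ^ S.card : ℕ) : ℝ) := by
        have := (Nat.cast_le (α := ℝ)).2 h
        convert this
    _ = 2 ^ S.card := by push_cast; rfl

theorem pr_mono (S : Finset (ℤ × ℤ)) (h : ∀ ω ∈ A, ω ∈ B) : pr S A ≤ pr S B := by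
  classical
  rw [pr_eq_sum, pr_eq_sum]
  refine div_le_div_of_nonneg_right (Finset.sum_le_sum fun T _ => ?_) (by positivity)
  by_cases h1 : cfg T ∈ A
  · rw [if_pos h1, if_pos (h _ h1)]
  · rw [if_neg h1]
    split_ifs <;> norm_num

theorem pr_congr (h : ∀ T ⊆ S, cfg T ∈ A ↔ cfg T ∈ B) : pr S A = pr S B := by
  classical
  rw [pr_eq_sum, pr_eq_sum]
  congr 1
  refine Finset.sum_congr rfl fun T hT => ?_
  simp only [h T (Finset.mem_powerset.1 hT)]

theorem pr_union_le (S : Finset (ℤ × ℤ)) (A B : Set Cfg) : pr S (A ∪ B) ≤ pr S A + pr S B := by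
  classical
  rw [pr_eq_sum, pr_eq_sum, pr_eq_sum, ← add_div, ← Finset.sum_add_distrib]
  refine div_le_div_of_nonneg_right (Finset.sum_le_sum fun T _ => ?_) (by positivity)
  by_cases h1 : cfg T ∈ A
  · have h3 : cfg T ∈ A ∪ B := Or.inl h1
    rw [if_pos h1, if_pos h3]
    split_ifs <;> norm_num
  · by_cases h2 : cfg T ∈ B
    · have h3 : cfg T ∈ A ∪ B := Or.inr h2
      rw [if_neg h1, if_pos h2, if_pos h3]
      norm_num
    · have h3 : cfg T ∉ A ∪ B := by
        rintro (h | h)
        exacts [h1 h, h2 h]
      rw [if_neg h1, if_neg h2, if_neg h3]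
      norm_num

theorem pr_compl (S : Finset (ℤ × ℤ)) (A : Set Cfg) : pr S Aᶜ = 1 - pr S A := by
  classical
  rw [eq_sub_iff_add_eq, pr_eq_sum, pr_eq_sum, ← add_div, ← Finset.sum_add_distrib,
    div_eq_one_iff_eq (by positivity)]
  trans ∑ T ∈ S.powerset, (1 : ℝ)
  · refine Finset.sum_congr rfl fun T _ => ?_
    by_cases h1 : cfg T ∈ A
    · have h3 : cfg T ∉ Aᶜ := fun h => h h1
      rw [if_pos h1, if_neg h3]
      norm_num
    · have h3 : cfg T ∈ Aᶜ := h1
      rw [if_neg h1, if_pos h3]
      norm_num
  · simp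

theorem ProbA.sec_eq {X : Set (ℤ × ℤ)} (hA : DepOn X A) {f : ℤ × ℤ} (hf : f ∉ X) (b : Bool) :
    sec f b A = A := by
  ext ω
  rw [mem_sec]
  refine hA _ _ fun x hx => ?_
  have : x ≠ f := by
    rintro rfl
    exact hf hx
  rw [Function.update_of_ne this]

theorem ProbA.depOn_sec {f : ℤ × ℤ} (hA : DepOn (insert f S : Finset (ℤ × ℤ)) A) (b : Bool) :
    DepOn S (sec f b A) := by
  intro ω ω' h
  rw [mem_sec, mem_sec]
  refine hA _ _ fun x hx => ?_
  rcases eq_or_ne x f with h1 | h1
  · subst h1
    simp
  · rw [Function.update_of_ne h1, Function.update_of_ne h1]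
    refine h x ?_
    have h2 : x ∈ insert f S := by exact_mod_cast hx
    rcases Finset.mem_insert.1 h2 with h3 | h3
    · exact absurd h3 h1
    · exact_mod_cast h3

/-- The window may be enlarged. -/
theorem pr_eq_of_depOn (hA : DepOn S A) (hSS : S ⊆ S') : pr S' A = pr S A := by
  classical
  have key : ∀ R : Finset (ℤ × ℤ), Disjoint S R → pr (S ∪ R) A = pr S A := by
    intro R
    induction R using Finset.induction_on with
    | empty => intro _; simp
    | insert f R hf ih =>
      intro hd
      have hfS : f ∉ S := fun h => (Finset.disjoint_left.1 hd h) (Finset.mem_insert_self _ _)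
      have hd' : Disjoint S R := hd.mono_right (Finset.subset_insert _ _)
      rw [Finset.union_insert, pr_insert (by simp [hfS, hf]), sec_eq hA (by exact_mod_cast hfS),
        sec_eq hA (by exact_mod_cast hfS), ih hd']
      ring
  have h := key (S' \ S) Finset.disjoint_sdiff
  rwa [Finset.union_sdiff_of_subset hSS] at h

/-- Change of the indices of the faces by an injection on the window. -/
theorem pr_comp {f : ℤ × ℤ → ℤ × ℤ} (hf : Set.InjOn f S) (hfS : ∀ x ∈ S, f x ∈ S')
    (hA : DepOn S A) : pr S' {ω | (fun x => ω (f x)) ∈ A} = pr S A := by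
  classical
  have hD : DepOn (S.image f : Finset (ℤ × ℤ)) {ω | (fun x => ω (f x)) ∈ A} := by
    intro ω ω' h
    simp only [Set.mem_ofPred_eq]
    refine hA _ _ fun x hx => ?_
    refine h _ ?_
    have : f x ∈ S.image f := Finset.mem_image_of_mem f (by exact_mod_cast hx)
    exact_mod_cast this
  rw [pr_eq_of_depOn hD (S' := S') (by
    intro y hy
    obtain ⟨x, hx, rfl⟩ := Finset.mem_image.1 hy
    exact hfS x hx)]
  clear hfS hD
  induction S using Finset.induction_on generalizing A with
  | empty =>
    rw [Finset.image_empty, pr_empty, pr_empty]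
    congr 1
  | insert s S hs ih =>
    have hf' : Set.InjOn f S := hf.mono (by
      intro x hx
      simp only [Finset.coe_insert, Set.mem_insert_iff]
      exact Or.inr hx)
    have hfs : f s ∉ S.image f := by
      intro h
      obtain ⟨x, hx, hxs⟩ := Finset.mem_image.1 h
      have : x = s := hf (by simp [hx]) (by simp) hxs
      subst this
      exact hs hx
    rw [Finset.image_insert, pr_insert hfs, pr_insert hs, ← ih hf' (depOn_sec hA true),
      ← ih hf' (depOn_sec hA false)]
    have key : ∀ b : Bool, pr (S.image f) (sec (f s) b {ω | (fun x => ω (f x)) ∈ A}) =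
        pr (S.image f) {ω | (fun x => ω (f x)) ∈ sec s b A} := by
      intro b
      congr 1
      ext ω
      simp only [mem_sec, Set.mem_ofPred_eq]
      refine hA _ _ fun x hx => ?_
      rcases eq_or_ne x s with h1 | h1
      · subst h1
        simp
      · have h2 : f x ≠ f s := fun h => h1 (hf hx (by simp) h)
        rw [Function.update_of_ne h1, Function.update_of_ne h2]
    rw [key, key]

theorem ProbA.flip_update (D : ℤ × ℤ → Bool) (ω : Cfg) (f : ℤ × ℤ) (b : Bool) :
    flip D (Function.update ω f b) = Function.update (flip D ω) f (xor (D f) b) := by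
  funext x
  unfold flip
  rcases eq_or_ne x f with h | h
  · subst h
    simp
  · rw [Function.update_of_ne h, Function.update_of_ne h]

/-- Flips preserve the measure. -/
theorem pr_flip (D : ℤ × ℤ → Bool) (hA : DepOn S A) : pr S {ω | flip D ω ∈ A} = pr S A := by
  classical
  induction S using Finset.induction_on generalizing A with
  | empty =>
    rw [pr_empty, pr_empty]
    have : cfg ∅ ∈ {ω | flip D ω ∈ A} ↔ cfg ∅ ∈ A := by
      simp only [Set.mem_ofPred_eq]
      exact hA _ _ fun x hx => by simp at hx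
    simp only [this]
  | insert f S hf ih =>
    rw [pr_insert hf, pr_insert hf]
    have key : ∀ b : Bool, sec f b {ω | flip D ω ∈ A} = {ω | flip D ω ∈ sec f (xor (D f) b) A} := by
      intro b
      ext ω
      simp only [mem_sec, Set.mem_ofPred_eq, flip_update]
    rw [key, key, ih (depOn_sec hA _), ih (depOn_sec hA _)]
    cases D f
    · simp
    · simp [add_comm]

/-- Harris' inequality. -/
theorem harris (D : ℤ × ℤ → Bool) (hA : DepOn S A) (hB : DepOn S B) (hA' : IncD D A)
    (hB' : IncD D B) : pr S A * pr S B ≤ pr S (A ∩ B) := by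
  classical
  clear hA hB
  induction S using Finset.induction_on generalizing A B with
  | empty =>
    rw [pr_empty, pr_empty, pr_empty]
    by_cases h1 : cfg ∅ ∈ A
    · by_cases h2 : cfg ∅ ∈ B
      · rw [if_pos h1, if_pos h2, if_pos ⟨h1, h2⟩]
        norm_num
      · rw [if_pos h1, if_neg h2]
        split_ifs <;> norm_num
    · rw [if_neg h1]
      split_ifs <;> norm_num
  | insert f S hf ih =>
    have hsec : ∀ {X : Set Cfg} (b : Bool), IncD D X → IncD D (sec f b X) := by
      intro X b hX ω ω' h hω
      rw [mem_sec] at hω ⊢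
      refine hX _ _ (fun x => ?_) hω
      rw [flip_update, flip_update]
      rcases eq_or_ne x f with h1 | h1
      · subst h1
        simp
      · rw [Function.update_of_ne h1, Function.update_of_ne h1]
        exact h x
    have hmono : ∀ {X : Set Cfg}, IncD D X → pr S (sec f (D f) X) ≤ pr S (sec f (!(D f)) X) := by
      intro X hX
      refine pr_mono S fun ω hω => ?_
      rw [mem_sec] at hω ⊢
      refine hX _ _ (fun x => ?_) hω
      rw [flip_update, flip_update]
      rcases eq_or_ne x f with h1 | h1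
      · subst h1
        simp
      · rw [Function.update_of_ne h1, Function.update_of_ne h1]
        exact id
    have hins : ∀ X : Set Cfg, pr (insert f S) X =
        (pr S (sec f (D f) X) + pr S (sec f (!(D f)) X)) / 2 := by
      intro X
      rw [pr_insert hf]
      cases D f
      · simp [add_comm]
      · simp
    rw [hins A, hins B, hins (A ∩ B)]
    have e1 : ∀ b, sec f b (A ∩ B) = sec f b A ∩ sec f b B := fun b => rfl
    rw [e1, e1]
    have i1 := ih (hsec (D f) hA') (hsec (D f) hB')
    have i2 := ih (hsec (!(D f)) hA') (hsec (!(D f)) hB')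
    have m1 := hmono hA'
    have m2 := hmono hB'
    nlinarith [mul_nonneg (sub_nonneg.2 m1) (sub_nonneg.2 m2)]

/-- Independence. -/
theorem pr_inter_of_disjoint (hA : DepOn S A) (hB : DepOn S' B) (hd : Disjoint S S') :
    pr (S ∪ S') (A ∩ B) = pr S A * pr S' B := by
  classical
  induction S using Finset.induction_on generalizing A with
  | empty =>
    rw [Finset.empty_union, pr_empty]
    by_cases h1 : cfg ∅ ∈ A
    · rw [if_pos h1, one_mul]
      congr 1
      ext ω
      simp only [Set.mem_inter_iff, and_iff_right_iff_imp]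
      intro _
      exact (hA (cfg ∅) ω fun x hx => by simp at hx).1 h1
    · rw [if_neg h1, zero_mul]
      have : A ∩ B = ∅ := by
        ext ω
        simp only [Set.mem_inter_iff, Set.mem_empty_iff_false, iff_false, not_and]
        intro h
        exact absurd ((hA (cfg ∅) ω fun x hx => by simp at hx).2 h) h1
      rw [this]
      unfold pr
      simp
  | insert f S hf ih =>
    have hfS' : f ∉ S' := fun h => (Finset.disjoint_left.1 hd (Finset.mem_insert_self _ _)) h
    have hd' : Disjoint S S' := hd.mono_left (Finset.subset_insert _ _)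
    rw [Finset.insert_union, pr_insert (by simp [hf, hfS']), pr_insert hf]
    have e1 : ∀ b, sec f b (A ∩ B) = sec f b A ∩ B := by
      intro b
      have : sec f b (A ∩ B) = sec f b A ∩ sec f b B := rfl
      rw [this, sec_eq hB (by exact_mod_cast hfS')]
    rw [e1, e1, ih (depOn_sec hA _) hd', ih (depOn_sec hA _) hd']
    ring

/-- One step of the expectation. -/
theorem ex_insert {f : ℤ × ℤ} (hf : f ∉ S) (g : Cfg → ℂ) :
    ex (insert f S) g = (ex S (fun ω => g (Function.update ω f true)) +
      ex S (fun ω => g (Function.update ω f false))) / 2 := by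
  unfold ex
  rw [Finset.sum_powerset_insert hf, Finset.card_insert_of_notMem hf]
  have h1 : ∑ T ∈ S.powerset, g (cfg T) = ∑ T ∈ S.powerset, g (Function.update (cfg T) f false) := by
    refine Finset.sum_congr rfl fun T hT => ?_
    have h : f ∉ T := fun h => hf (Finset.mem_powerset.1 hT h)
    rw [cfg_of_notMem h]
  have h2 : ∑ T ∈ S.powerset, g (cfg (insert f T)) =
      ∑ T ∈ S.powerset, g (Function.update (cfg T) f true) := by
    refine Finset.sum_congr rfl fun T _ => ?_
    rw [cfg_insert]
  rw [h1, h2, pow_succ]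
  field_simp
  ring

theorem ex_sum {ι : Type} (s : Finset ι) (g : ι → Cfg → ℂ) :
    ex S (fun ω => ∑ i ∈ s, g i ω) = ∑ i ∈ s, ex S (g i) := by
  unfold ex
  rw [Finset.sum_comm, Finset.sum_div]

/-- The norm of an expectation of a bounded function. -/
theorem norm_ex_le (g : Cfg → ℂ) (hg : ∀ ω, ‖g ω‖ ≤ 1) : ‖ex S g‖ ≤ pr S {ω | g ω ≠ 0} := by
  classical
  rw [pr_eq_sum]
  unfold ex
  rw [norm_div]
  have h2 : ‖(2 : ℂ) ^ S.card‖ = 2 ^ S.card := by
    rw [norm_pow]
    norm_num
  rw [h2]
  refine div_le_div_of_nonneg_right ?_ (by positivity)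
  refine (norm_sum_le _ _).trans (Finset.sum_le_sum fun T _ => ?_)
  by_cases h : g (cfg T) = 0
  · rw [h]
    simp [h]
  · rw [if_pos (by simpa using h)]
    exact hg _

/-- Expectation of an indicator function. -/
theorem ex_indicator (A : Set Cfg) (g : Cfg → ℂ) (h1 : ∀ ω ∈ A, g ω = 1) (h0 : ∀ ω ∉ A, g ω = 0) :
    ex S g = (pr S A : ℂ) := by
  classical
  rw [pr_eq_sum]
  unfold ex
  push_cast
  congr 1
  refine Finset.sum_congr rfl fun T _ => ?_
  by_cases h : cfg T ∈ A
  · rw [if_pos h, h1 _ h]
    norm_num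
  · rw [if_neg h, h0 _ h]
    norm_num

end Pool.Agent.Perc
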