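import Pool.Agent.Lib.MP_6bd702_z.Z008
import Pool.Agent.Lib.MP_6bd702_z.Z006
import Pool.Agent.Lib.MP_6bd702_z.Z007

section PartpercDCurveTight

/-!
# Compact sets of closed curves and weak limits along subsequences
-/

set_option autoImplicit false

namespace Pool.Agent.PercD

open Set Filter Topology MeasureTheory TopologicalSpace
open scoped ENNReal NNReal

/-- A compact set of closed curves: bounded curves with bounded numbers of arcs. -/
theorem exists_compact (R : ℝ) (M : ℕ → ℕ) :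
    ∃ K : Set Curve, IsCompact K ∧ ∀ γ : Loop, (∀ x, ‖γ.f x‖ ≤ R) →
      (∀ j : ℕ, ∃ m ≤ M j, γ ∈ Loop.Cut (1 / (j + 1 : ℝ)) m) →
        (SeparationQuotient.mk γ : Curve) ∈ K := by
  have h := Loop.totallyBounded_cut R fun κ => M ⌈1 / κ⌉₊
  refine ⟨_, (h.closure.isCompact_of_isClosed isClosed_closure).image
    SeparationQuotient.continuous_mk, fun γ h1 h2 => mem_image_of_mem _
      (subset_closure ⟨h1, fun κ hκ => ?_⟩)⟩
  obtain ⟨m, hm, hc⟩ := h2 ⌈1 / κ⌉₊
  refine ⟨m, hm, Loop.Cut.mono ?_ hc⟩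
  rw [div_le_comm₀ (by positivity) hκ]
  have := Nat.le_ceil (1 / κ)
  linarith

instance : SeparableSpace Curve :=
  SeparationQuotient.surjective_mk.denseRange.separableSpace SeparationQuotient.continuous_mk

/-- Prokhorov's theorem for random closed curves. -/
theorem exists_weak_limit (P : ℕ → ProbabilityMeasure Curve)
    (h : IsTightMeasureSet {((μ : ProbabilityMeasure Curve) : Measure Curve) | μ ∈ range P}) :
    ∃ ψ : ℕ → ℕ, StrictMono ψ ∧ ∃ ν : Measure Curve, IsProbabilityMeasure ν ∧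
      ∀ F : BoundedContinuousFunction Curve ℝ,
        Tendsto (fun k => ∫ c, F c ∂(P (ψ k) : Measure Curve)) atTop (𝓝 (∫ c, F c ∂ν)) := by
  obtain ⟨ν, -, ψ, hψ, hlim⟩ := (isCompact_closure_of_isTightMeasureSet h).isSeqCompact
    (fun n => subset_closure (mem_range_self n))
  exact ⟨ψ, hψ, ν, inferInstance,
    fun F => (ProbabilityMeasure.tendsto_iff_forall_integral_tendsto.1 hlim) F⟩

end Pool.Agent.PercD

end PartpercDCurveTight

section PartpercDCover

/-!
# Truncated contents of compact sets and weak limits: lower bound of the Hausdorff dimension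
-/

set_option autoImplicit false

namespace Pool.Agent.PercD

open Set Filter Topology MeasureTheory TopologicalSpace
open scoped ENNReal NNReal

/-- `K` has a finite cover by open sets `U i` of diameter at most `d i` with
`∑ (max (d i) r) ^ s < η`. -/
def Cov (s r η : ℝ) (K : Set ℂ) : Prop :=
  ∃ (F : Finset ℕ) (U : ℕ → Set ℂ) (d : ℕ → ℝ), (∀ i, IsOpen (U i)) ∧ (∀ i, 0 ≤ d i) ∧
    (∀ i, ∀ x ∈ U i, ∀ y ∈ U i, dist x y ≤ d i) ∧ K ⊆ ⋃ i ∈ F, U i ∧
    ∑ i ∈ F, (max (d i) r) ^ s < η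

theorem isOpen_Cov (s r η : ℝ) : IsOpen {K : NonemptyCompacts ℂ | Cov s r η (K : Set ℂ)} := by
  rw [isOpen_iff_forall_mem_open]
  rintro K ⟨F, U, d, hU, hd0, hd, hK, hs⟩
  refine ⟨{K : NonemptyCompacts ℂ | (K : Set ℂ) ⊆ ⋃ i ∈ F, U i}, ?_,
    NonemptyCompacts.isOpen_subsets_of_isOpen (isOpen_biUnion fun i _ => hU i), hK⟩
  intro K' hK'
  exact ⟨F, U, d, hU, hd0, hd, hK', hs⟩

theorem Cov.mono {s r r' η : ℝ} (hs : 0 ≤ s) (h : r' ≤ r) {K : Set ℂ} (hK : Cov s r η K) :
    Cov s r' η K := by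
  obtain ⟨F, U, d, hU, hd0, hd, hc, hsum⟩ := hK
  refine ⟨F, U, d, hU, hd0, hd, hc, lt_of_le_of_lt (Finset.sum_le_sum fun i _ => ?_) hsum⟩
  exact Real.rpow_le_rpow ((hd0 i).trans (le_max_left _ _)) (max_le_max le_rfl h) hs

theorem Cov.mono_right {s r η η' : ℝ} (h : η ≤ η') {K : Set ℂ} (hK : Cov s r η K) :
    Cov s r η' K := by
  obtain ⟨F, U, d, hU, hd0, hd, hc, hsum⟩ := hK
  exact ⟨F, U, d, hU, hd0, hd, hc, hsum.trans_le h⟩

/-- Points with small truncated energy exclude efficient covers. -/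
theorem Cov.energy {s r η : ℝ} (hs : 0 ≤ s) (hr : 0 < r) {K : Set ℂ} (hc : Cov s r η K)
    {ι : Type*} (I : Finset ι) (x : ι → ℂ) (hx : ∀ i ∈ I, x i ∈ K) :
    (I.card : ℝ) ^ 2 ≤ η * ∑ i ∈ I, ∑ j ∈ I, (max (dist (x i) (x j)) r) ^ (-s) := by
  classical
  obtain ⟨F, U, d, hU, hd0, hd, hK, hsum⟩ := hc
  have h1 : ∀ i ∈ I, ∃ k ∈ F, x i ∈ U k := by
    intro i hi
    have := hK (hx i hi)
    simpa using this
  have h2 : ∀ i : ι, ∃ k, i ∈ I → k ∈ F ∧ x i ∈ U k := by
    intro i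
    by_cases hi : i ∈ I
    · obtain ⟨k, hk, hk'⟩ := h1 i hi
      exact ⟨k, fun _ => ⟨hk, hk'⟩⟩
    · exact ⟨0, fun h => absurd h hi⟩
  choose c hc using h2
  set w : ℕ → ℝ := fun k => (max (d k) r) ^ s with hw
  have hwpos : ∀ k, 0 < w k := fun k => Real.rpow_pos_of_pos (lt_max_of_lt_right hr) _
  set n : ℕ → ℝ := fun k => ((I.filter fun i => c i = k).card : ℝ) with hn
  have hcard : (I.card : ℝ) = ∑ k ∈ F, n k := by
    rw [Finset.card_eq_sum_card_fiberwise (f := c) (t := F) (fun i hi => (hc i hi).1)]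
    push_cast
    rfl
  have hcs : (∑ k ∈ F, n k) ^ 2 ≤ (∑ k ∈ F, w k) * ∑ k ∈ F, n k ^ 2 / w k := by
    apply Finset.sum_sq_le_sum_mul_sum_of_sq_le_mul
    · exact fun k _ => (hwpos k).le
    · exact fun k _ => div_nonneg (sq_nonneg _) (hwpos k).le
    · intro k _
      rw [mul_div_cancel₀ _ (hwpos k).ne']
  have hE : ∑ k ∈ F, n k ^ 2 / w k
      ≤ ∑ i ∈ I, ∑ j ∈ I, (max (dist (x i) (x j)) r) ^ (-s) := by
    have h3 : ∀ k ∈ F, n k ^ 2 / w k ≤
        ∑ i ∈ I.filter (fun i => c i = k), ∑ j ∈ I, (max (dist (x i) (x j)) r) ^ (-s) := by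
      intro k _
      have h4 : ∀ i ∈ I.filter (fun i => c i = k),
          n k / w k ≤ ∑ j ∈ I, (max (dist (x i) (x j)) r) ^ (-s) := by
        intro i hi
        rw [Finset.mem_filter] at hi
        calc n k / w k = ∑ j ∈ I.filter (fun i => c i = k), (w k)⁻¹ := by
              rw [Finset.sum_const, nsmul_eq_mul, div_eq_mul_inv]
          _ ≤ ∑ j ∈ I.filter (fun i => c i = k), (max (dist (x i) (x j)) r) ^ (-s) := by
              refine Finset.sum_le_sum fun j hj => ?_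
              rw [Finset.mem_filter] at hj
              have hij : dist (x i) (x j) ≤ d k := by
                apply hd k
                · have := (hc i hi.1).2; rwa [hi.2] at this
                · have := (hc j hj.1).2; rwa [hj.2] at this
              have hm : max (dist (x i) (x j)) r ≤ max (d k) r := max_le_max hij le_rfl
              have hm0 : 0 < max (dist (x i) (x j)) r := lt_max_of_lt_right hr
              rw [Real.rpow_neg hm0.le]
              exact inv_anti₀ (Real.rpow_pos_of_pos hm0 _) (Real.rpow_le_rpow hm0.le hm hs)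
          _ ≤ ∑ j ∈ I, (max (dist (x i) (x j)) r) ^ (-s) := by
              refine Finset.sum_le_sum_of_subset_of_nonneg (Finset.filter_subset _ _) ?_
              intro j _ _
              exact Real.rpow_nonneg (hr.le.trans (le_max_right _ _)) _
      calc n k ^ 2 / w k = ∑ i ∈ I.filter (fun i => c i = k), n k / w k := by
            rw [Finset.sum_const, nsmul_eq_mul, sq]
            simp only [hn]
            ring
        _ ≤ _ := Finset.sum_le_sum h4
    refine (Finset.sum_le_sum h3).trans (le_of_eq ?_)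
    rw [Finset.sum_fiberwise_of_maps_to (fun i hi => (hc i hi).1)]
  have hE0 : 0 ≤ ∑ i ∈ I, ∑ j ∈ I, (max (dist (x i) (x j)) r) ^ (-s) :=
    Finset.sum_nonneg fun i _ => Finset.sum_nonneg fun j _ =>
      Real.rpow_nonneg (hr.le.trans (le_max_right _ _)) _
  have hw0 : 0 ≤ ∑ k ∈ F, w k := Finset.sum_nonneg fun k _ => (hwpos k).le
  calc (I.card : ℝ) ^ 2 = (∑ k ∈ F, n k) ^ 2 := by rw [hcard]
    _ ≤ (∑ k ∈ F, w k) * ∑ k ∈ F, n k ^ 2 / w k := hcs
    _ ≤ (∑ k ∈ F, w k) * ∑ i ∈ I, ∑ j ∈ I, (max (dist (x i) (x j)) r) ^ (-s) :=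
        mul_le_mul_of_nonneg_left hE hw0
    _ ≤ _ := mul_le_mul_of_nonneg_right hsum.le hE0

/-- A compact set of Hausdorff dimension less than `s` has efficient covers. -/
theorem cov_of_dimH_lt {s : ℝ≥0} (hs : 0 < s) {K : Set ℂ} (hK : IsCompact K) (h : dimH K < s)
    {η : ℝ} (hη : 0 < η) : ∃ m : ℕ, Cov s (1 / ((m : ℝ) + 1)) η K := by
  have hsR : (0 : ℝ) < (s : ℝ) := by exact_mod_cast hs
  have h0 : (μH[(s : ℝ)] : Measure ℂ) K = 0 := hausdorffMeasure_of_dimH_lt h
  -- a countable cover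
  have h1 : ∃ t : ℕ → Set ℂ, K ⊆ ⋃ n, t n ∧ (∀ n, Metric.ediam (t n) ≤ 1) ∧
      ∑' n, ⨆ _ : (t n).Nonempty, Metric.ediam (t n) ^ (s : ℝ) < ENNReal.ofReal (η / 4) := by
    rw [Measure.hausdorffMeasure_apply] at h0
    have h2 : (⨅ (t : ℕ → Set ℂ) (_ : K ⊆ ⋃ n, t n) (_ : ∀ n, Metric.ediam (t n) ≤ 1),
        ∑' n, ⨆ _ : (t n).Nonempty, Metric.ediam (t n) ^ (s : ℝ)) = 0 := by
      rw [← nonpos_iff_eq_zero, ← h0]
      exact le_iSup₂_of_le (1 : ℝ≥0∞) one_pos le_rfl
    have h3 : (⨅ (t : ℕ → Set ℂ) (_ : K ⊆ ⋃ n, t n) (_ : ∀ n, Metric.ediam (t n) ≤ 1),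
        ∑' n, ⨆ _ : (t n).Nonempty, Metric.ediam (t n) ^ (s : ℝ)) < ENNReal.ofReal (η / 4) := by
      rw [h2]; exact ENNReal.ofReal_pos.2 (by positivity)
    simp only [iInf_lt_iff] at h3
    obtain ⟨t, ht, ht', ht''⟩ := h3
    exact ⟨t, ht, ht', ht''⟩
  obtain ⟨t, ht, htd, hts⟩ := h1
  -- real diameters
  set a : ℕ → ℝ := fun n => (Metric.ediam (t n)).toReal with ha
  have hafin : ∀ n, Metric.ediam (t n) ≠ ∞ := fun n => ne_top_of_le_ne_top ENNReal.one_ne_top (htd n)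
  have ha0 : ∀ n, 0 ≤ a n := fun n => ENNReal.toReal_nonneg
  -- enlarge
  have h4 : ∀ n, ∃ ρ : ℝ, 0 < ρ ∧ (a n + 2 * ρ) ^ (s : ℝ) < a n ^ (s : ℝ) + η / 4 * (1 / 2) ^ (n + 1) := by
    intro n
    have hcont : ContinuousAt (fun ρ : ℝ => (a n + 2 * ρ) ^ (s : ℝ)) 0 :=
      ContinuousAt.rpow_const (by fun_prop) (Or.inr hsR.le)
    have hlt : (fun ρ : ℝ => (a n + 2 * ρ) ^ (s : ℝ)) 0 < a n ^ (s : ℝ) + η / 4 * (1 / 2) ^ (n + 1) := by
      simp only [mul_zero, add_zero]
      have : (0 : ℝ) < η / 4 * (1 / 2) ^ (n + 1) := by positivity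
      linarith
    have hev := hcont.eventually_lt continuousAt_const hlt
    obtain ⟨ε, hε, hball⟩ := Metric.eventually_nhds_iff.1 hev
    refine ⟨ε / 2, by positivity, ?_⟩
    apply hball
    rw [Real.dist_eq, sub_zero, abs_of_pos (by positivity)]
    linarith
  choose ρ hρ hρ' using h4
  -- the open sets
  set U : ℕ → Set ℂ := fun n => Metric.thickening (ρ n) (t n) with hUdef
  have hUo : ∀ i, IsOpen (U i) := fun i => Metric.isOpen_thickening
  set d : ℕ → ℝ := fun n => a n + 2 * ρ n with hddef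
  have hd0 : ∀ i, 0 ≤ d i := fun i => by
    have := ha0 i; have := (hρ i).le; simp only [hddef]; positivity
  have hdd : ∀ i, ∀ x ∈ U i, ∀ y ∈ U i, dist x y ≤ d i := by
    intro i x hx y hy
    obtain ⟨x', hx', hxx'⟩ := Metric.mem_thickening_iff.1 hx
    obtain ⟨y', hy', hyy'⟩ := Metric.mem_thickening_iff.1 hy
    have h5 : dist x' y' ≤ a i := by
      rw [dist_edist]
      exact ENNReal.toReal_mono (hafin i) (Metric.edist_le_ediam_of_mem hx' hy')
    calc dist x y ≤ dist x x' + dist x' y' + dist y' y := dist_triangle4 _ _ _ _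
      _ ≤ d i := by
        rw [dist_comm y' y]; simp only [hddef]; linarith
  have hcov : K ⊆ ⋃ n, U n := ht.trans (iUnion_mono fun n => Metric.self_subset_thickening (hρ n) _)
  obtain ⟨F₀, hF₀⟩ := hK.elim_finite_subcover U hUo hcov
  classical
  -- keep only the indices with nonempty `t n`
  set F : Finset ℕ := F₀.filter fun n => (t n).Nonempty with hF
  have hKF : K ⊆ ⋃ i ∈ F, U i := by
    intro z hz
    obtain ⟨i, hi, hzi⟩ := mem_iUnion₂.1 (hF₀ hz)
    refine mem_iUnion₂.2 ⟨i, ?_, hzi⟩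
    rw [hF, Finset.mem_filter]
    obtain ⟨x', hx', _⟩ := Metric.mem_thickening_iff.1 hzi
    exact ⟨hi, ⟨x', hx'⟩⟩
  -- the sum
  have hsum1 : ∑ i ∈ F, a i ^ (s : ℝ) ≤ η / 4 := by
    have h6 : ∑ i ∈ F, ENNReal.ofReal (a i ^ (s : ℝ)) ≤ ENNReal.ofReal (η / 4) := by
      refine le_trans ?_ hts.le
      refine le_trans (Finset.sum_le_sum fun i hi => ?_) (ENNReal.sum_le_tsum F)
      rw [hF, Finset.mem_filter] at hi
      refine le_iSup_of_le hi.2 ?_
      rw [← ENNReal.ofReal_rpow_of_nonneg (ha0 i) hsR.le, ha]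
      simp only
      rw [ENNReal.ofReal_toReal (hafin i)]
    rw [← ENNReal.ofReal_sum_of_nonneg (fun i _ => Real.rpow_nonneg (ha0 i) _)] at h6
    exact (ENNReal.ofReal_le_ofReal_iff (by positivity)).1 h6
  have hsum2 : ∑ i ∈ F, (d i) ^ (s : ℝ) < η := by
    have h7 : ∑ i ∈ F, (d i) ^ (s : ℝ) ≤ ∑ i ∈ F, (a i ^ (s : ℝ) + η / 4 * (1 / 2) ^ (i + 1)) :=
      Finset.sum_le_sum fun i _ => (hρ' i).le
    have h8 : ∑ i ∈ F, (η / 4 * (1 / 2 : ℝ) ^ (i + 1)) ≤ η / 4 * 1 := by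
      rw [← Finset.mul_sum]
      refine mul_le_mul_of_nonneg_left ?_ (by positivity)
      have h9 : Summable fun i : ℕ => (1 / 2 : ℝ) ^ (i + 1) := by
        have := summable_geometric_two.mul_right (1 / 2 : ℝ)
        refine this.congr fun i => by rw [pow_succ]
      refine (h9.sum_le_tsum F (fun i _ => by positivity)).trans ?_
      have : ∑' i : ℕ, (1 / 2 : ℝ) ^ (i + 1) = 1 := by
        simp_rw [pow_succ]
        rw [tsum_mul_right, tsum_geometric_two]; norm_num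
      rw [this]
    rw [Finset.sum_add_distrib] at h7
    linarith
  -- truncation
  have hcont : Tendsto (fun m : ℕ => ∑ i ∈ F, (max (d i) (1 / ((m : ℝ) + 1))) ^ (s : ℝ)) atTop
      (𝓝 (∑ i ∈ F, (d i) ^ (s : ℝ))) := by
    refine tendsto_finsetSum _ fun i _ => ?_
    have h10 : Tendsto (fun m : ℕ => max (d i) (1 / ((m : ℝ) + 1))) atTop (𝓝 (max (d i) 0)) :=
      tendsto_const_nhds.max tendsto_one_div_add_atTop_nhds_zero_nat
    rw [max_eq_left (hd0 i)] at h10
    exact h10.rpow_const (Or.inr hsR.le)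
  obtain ⟨m, hm⟩ := (hcont.eventually_lt_const hsum2).exists
  exact ⟨m, F, U, d, hUo, hd0, hdd, hKF, hm⟩

end Pool.Agent.PercD

end PartpercDCover

section PartpercDSums

/-!
# Elementary sums, and rules for the uniform expectation
-/

set_option autoImplicit false

namespace Pool.Agent.Perc.PercD

open Finset

/-! ### sums of powers -/

theorem rpow_diff {q x : ℝ} (hq1 : q < 1) (hq0 : 0 ≤ q) (hx : 1 ≤ x) :
    (1 - q) * x ^ (-q) ≤ x ^ (1 - q) - (x - 1) ^ (1 - q) := by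
  have hx0 : 0 < x := by linarith
  have h1 : (1 + (-(1 / x))) ^ (1 - q) ≤ 1 + (1 - q) * (-(1 / x)) := by
    apply rpow_one_add_le_one_add_mul_self
    · have : 1 / x ≤ 1 := by rw [div_le_one hx0]; exact hx
      linarith
    · linarith
    · linarith
  have h2 : (x - 1) ^ (1 - q) = x ^ (1 - q) * (1 + (-(1 / x))) ^ (1 - q) := by
    rw [← Real.mul_rpow hx0.le]
    · congr 1; field_simp; ring
    · have : 1 / x ≤ 1 := by rw [div_le_one hx0]; exact hx
      linarith
  have h3 : x ^ (1 - q) * (1 / x) = x ^ (-q) := by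
    rw [show (1 - q) = -q + 1 by ring, Real.rpow_add_one hx0.ne']
    field_simp
  rw [h2]
  have h4 : 0 ≤ x ^ (1 - q) := Real.rpow_nonneg hx0.le _
  nlinarith [mul_le_mul_of_nonneg_left h1 h4]

theorem sum_range_rpow {q : ℝ} (hq1 : q < 1) (hq0 : 0 ≤ q) (N : ℕ) :
    ∑ i ∈ range N, ((i : ℝ) + 1) ^ (-q) ≤ (N : ℝ) ^ (1 - q) / (1 - q) := by
  have hq : 0 < 1 - q := by linarith
  induction N with
  | zero => simp [Real.zero_rpow hq.ne']
  | succ N ih =>
    rw [sum_range_succ]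
    have h := rpow_diff hq1 hq0 (x := (N : ℝ) + 1) (by linarith [Nat.cast_nonneg (α := ℝ) N])
    rw [add_sub_cancel_right] at h
    have h2 : ((N : ℝ) + 1) ^ (-q) ≤ (((N : ℝ) + 1) ^ (1 - q) - (N : ℝ) ^ (1 - q)) / (1 - q) := by
      rw [le_div_iff₀ hq]; linarith
    push_cast
    calc _ ≤ (N : ℝ) ^ (1 - q) / (1 - q) + (((N : ℝ) + 1) ^ (1 - q) - (N : ℝ) ^ (1 - q)) / (1 - q) :=
          add_le_add ih h2
      _ = _ := by ring

/-- The one dimensional sum. -/
theorem sum_abs_rpow {q : ℝ} (hq1 : q < 1) (hq0 : 0 ≤ q) {N : ℕ} (hN : 1 ≤ N) :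
    ∑ a ∈ Icc (-(N : ℤ)) N, (max |(a : ℝ)| 1) ^ (-q) ≤ (1 + 2 / (1 - q)) * (N : ℝ) ^ (1 - q) := by
  have hq : 0 < 1 - q := by linarith
  have hsplit : Icc (-(N : ℤ)) N = insert 0 (((range N).image fun i : ℕ => ((i : ℤ) + 1)) ∪
      ((range N).image fun i : ℕ => (-((i : ℤ) + 1)))) := by
    ext a
    simp only [mem_Icc, mem_insert, mem_union, mem_image, mem_range]
    constructor
    · rintro ⟨h1, h2⟩
      rcases lt_trichotomy a 0 with h | h | h
      · right; right; exact ⟨(-a - 1).toNat, by omega, by omega⟩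
      · left; exact h
      · right; left; exact ⟨(a - 1).toNat, by omega, by omega⟩
    · rintro (rfl | ⟨i, hi, rfl⟩ | ⟨i, hi, rfl⟩) <;> omega
  have h0 : (0 : ℤ) ∉ (((range N).image fun i : ℕ => ((i : ℤ) + 1)) ∪
      ((range N).image fun i : ℕ => (-((i : ℤ) + 1)))) := by
    simp only [mem_union, mem_image, mem_range]
    rintro (⟨i, _, h⟩ | ⟨i, _, h⟩) <;> omega
  have hdisj : Disjoint ((range N).image fun i : ℕ => ((i : ℤ) + 1))
      ((range N).image fun i : ℕ => (-((i : ℤ) + 1))) := by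
    rw [disjoint_left]
    simp only [mem_image, mem_range]
    rintro a ⟨i, _, rfl⟩ ⟨j, _, h⟩
    omega
  rw [hsplit, sum_insert h0, sum_union hdisj, sum_image (by intro a _ b _ h; simpa using h),
    sum_image (by intro a _ b _ h; simpa using h)]
  have e1 : ∀ i : ℕ, (max |(((i : ℤ) + 1 : ℤ) : ℝ)| 1) ^ (-q) = ((i : ℝ) + 1) ^ (-q) := by
    intro i
    push_cast
    rw [abs_of_nonneg (by positivity), max_eq_left (by linarith [Nat.cast_nonneg (α := ℝ) i])]
  have e2 : ∀ i : ℕ, (max |((-((i : ℤ) + 1) : ℤ) : ℝ)| 1) ^ (-q) = ((i : ℝ) + 1) ^ (-q) := by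
    intro i
    push_cast
    rw [abs_of_nonpos (by linarith [Nat.cast_nonneg (α := ℝ) i]), neg_neg,
      max_eq_left (by linarith [Nat.cast_nonneg (α := ℝ) i])]
  simp only [e1, e2]
  have h1 := sum_range_rpow hq1 hq0 N
  have h2 : (1 : ℝ) ≤ (N : ℝ) ^ (1 - q) := Real.one_le_rpow (by exact_mod_cast hN) hq.le
  have h3 : (max |((0 : ℤ) : ℝ)| 1) ^ (-q) = 1 := by simp
  rw [h3]
  calc _ ≤ (N : ℝ) ^ (1 - q) + ((N : ℝ) ^ (1 - q) / (1 - q) + (N : ℝ) ^ (1 - q) / (1 - q)) :=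
        add_le_add h2 (add_le_add h1 h1)
    _ = _ := by ring

/-! ### expectations -/

variable {n : ℕ}

theorem exB_mono {g h : Finset Edg → ℝ} (H : ∀ T ⊆ boxE n, g T ≤ h T) : exB n g ≤ exB n h := by
  unfold exB
  refine div_le_div_of_nonneg_right (sum_le_sum fun T hT => H T (mem_powerset.1 hT)) (by positivity)

theorem exB_nonneg {g : Finset Edg → ℝ} (H : ∀ T ⊆ boxE n, 0 ≤ g T) : 0 ≤ exB n g := by
  unfold exB
  exact div_nonneg (sum_nonneg fun T hT => H T (mem_powerset.1 hT)) (by positivity)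

theorem exB_sum {ι : Type*} (I : Finset ι) (g : ι → Finset Edg → ℝ) :
    exB n (fun T => ∑ i ∈ I, g i T) = ∑ i ∈ I, exB n (g i) := by
  unfold exB
  rw [sum_comm, sum_div]

theorem exB_mul_left (c : ℝ) (g : Finset Edg → ℝ) : exB n (fun T => c * g T) = c * exB n g := by
  unfold exB
  rw [← mul_sum, mul_div_assoc]

open Classical in
theorem prB_eq (A : Set (Finset Edg)) : prB n A = exB n (fun T => if T ∈ A then 1 else 0) := by
  unfold prB exB
  rw [sum_ite, sum_const_zero, add_zero, sum_const, nsmul_eq_mul, mul_one]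

theorem prB_mono {A B : Set (Finset Edg)} (h : ∀ T ⊆ boxE n, T ∈ A → T ∈ B) :
    prB n A ≤ prB n B := by
  classical
  rw [prB_eq, prB_eq]
  refine exB_mono fun T hT => ?_
  by_cases hA : T ∈ A
  · simp [hA, h T hT hA]
  · simp only [hA, if_false]; split_ifs <;> norm_num

theorem prB_nonneg (A : Set (Finset Edg)) : 0 ≤ prB n A := by
  unfold prB; positivity

theorem prB_union (A B C : Set (Finset Edg)) (h : ∀ T ⊆ boxE n, T ∈ C → T ∈ A ∨ T ∈ B) :
    prB n C ≤ prB n A + prB n B := by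
  classical
  rw [prB_eq, prB_eq, prB_eq]
  have : exB n (fun T => if T ∈ A then (1 : ℝ) else 0) + exB n (fun T => if T ∈ B then (1 : ℝ) else 0)
      = exB n (fun T => (if T ∈ A then (1 : ℝ) else 0) + if T ∈ B then (1 : ℝ) else 0) := by
    unfold exB
    rw [← add_div, ← sum_add_distrib]
  rw [this]
  refine exB_mono fun T hT => ?_
  by_cases hC : T ∈ C
  · rcases h T hT hC with h1 | h1
    · simp only [hC, h1, if_true]; split_ifs <;> norm_num
    · simp only [hC, h1, if_true]; split_ifs <;> norm_num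
  · simp only [hC, if_false]; split_ifs <;> norm_num

theorem prB_le_one (A : Set (Finset Edg)) : prB n A ≤ 1 := by
  classical
  unfold prB
  rw [div_le_one (by positivity)]
  have h : (((boxE n).powerset.filter fun T => T ∈ A).card : ℝ) ≤ ((boxE n).powerset.card : ℝ) := by
    exact_mod_cast card_le_card (filter_subset _ _)
  rw [card_powerset] at h
  exact_mod_cast h

/-- Markov inequality. -/
theorem prB_markov {g : Finset Edg → ℝ} (hg : ∀ T ⊆ boxE n, 0 ≤ g T) {t : ℝ} (ht : 0 < t)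
    {A : Set (Finset Edg)} (hA : ∀ T ⊆ boxE n, T ∈ A → t ≤ g T) : prB n A ≤ exB n g / t := by
  classical
  rw [le_div_iff₀ ht, mul_comm, prB_eq, ← exB_mul_left]
  refine exB_mono fun T hT => ?_
  by_cases h : T ∈ A
  · simp only [h, if_true, mul_one]; exact hA T hT h
  · simp only [h, if_false, mul_zero]; exact hg T hT

end Pool.Agent.Perc.PercD

end PartpercDSums
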