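import Pool.Agent.Lib.MP_6bd702_z.Z113
import Pool.Agent.Lib.MP_6bd702_z.Z042
import Pool.Agent.Lib.MP_6bd702_z.Z009
import Pool.Agent.Lib.MP_6bd702_z.WeakMain

/-!
# The length of the outer perimeter is of the order `n ^ (7 / 4)` in probability
-/

set_option autoImplicit false

namespace Pool.Agent.PercD

open Finset Filter Topology Pool.Agent.Perc

/-- There are at most twice as many outer vertices as outer edges. -/
theorem ncard_OutV_le (T : Finset Edg) (u : ℤ × ℤ) : (OutV T u).ncard ≤ 2 * perimE T u := by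
  classical
  set S : Finset Edg := T.filter fun e => tl e ∈ clV T u ∧ ∃ b, Outer T u (side e b) with hS
  have hsub : OutV T u ⊆ ((S.image tl ∪ S.image hd : Finset (ℤ × ℤ)) : Set (ℤ × ℤ)) := by
    rintro v ⟨e, he, h1, h2, h3⟩
    have heS : e ∈ S := by
      rw [hS, mem_filter]
      exact ⟨he, h1, h2⟩
    rw [mem_coe, mem_union, mem_image, mem_image]
    rcases h3 with rfl | rfl
    · exact Or.inl ⟨e, heS, rfl⟩
    · exact Or.inr ⟨e, heS, rfl⟩
  have h1 := Set.ncard_le_ncard hsub (Finset.finite_toSet _)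
  rw [Set.ncard_coe_finset] at h1
  have h2 : (S.image tl ∪ S.image hd).card ≤ S.card + S.card :=
    (card_union_le _ _).trans (add_le_add card_image_le card_image_le)
  have h3 : perimE T u = S.card := by
    unfold perimE
    congr 1
  rw [h3]
  omega

/-- For every `ε > 0` there are constants `0 < c < C` such that for large `n` the number of edges
of the outer perimeter of a cluster of largest diameter is between `c n ^ (7 / 4)` and
`C n ^ (7 / 4)` with probability at least `1 - ε`. -/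
theorem sharp_order (ε : ℝ) (hε : 0 < ε) : ∃ c C : ℝ, 0 < c ∧ 0 < C ∧
    ∀ sel : ℕ → Finset Edg → ℤ × ℤ, (∀ n, IsSel n (sel n)) → ∀ᶠ n : ℕ in atTop,
      1 - ε ≤ prB n {T | c * (n : ℝ) ^ (7 / 4 : ℝ) ≤ (perimE T (sel n T) : ℝ) ∧
        (perim T (sel n T) : ℝ) ≤ C * (n : ℝ) ^ (7 / 4 : ℝ)} := by
  obtain ⟨C₀, -, hC₀⟩ := PercT.p2_le_quarter
  obtain ⟨κ, k₀, c, hκ, hk₀, hc, hB3⟩ := targetB3 (upperHyp_of_p2 hC₀) (tailHyp_of p2Bounds)
    (ε / 2) (by positivity)
  obtain ⟨c', C', hc', hE⟩ := targetE_holds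
  set C₁ : ℝ := max C' 1 with hC₁
  have hC₁0 : 0 < C₁ := lt_max_of_lt_right one_pos
  refine ⟨c / 2, 2 * C₁ / ε, by positivity, by positivity, fun sel hsel => ?_⟩
  filter_upwards [hB3 sel hsel, eventually_ge_atTop 1] with n h1 hn
  have hn0 : (0 : ℝ) < n := by exact_mod_cast hn
  have hnp : (0 : ℝ) < (n : ℝ) ^ (7 / 4 : ℝ) := Real.rpow_pos_of_pos hn0 _
  set A : Set (Finset Edg) := {T | ¬ (k₀ * n ≤ Metric.diam (clS T (sel n T)) ∧
      c * (n : ℝ) ^ (7 / 4 : ℝ) ≤
        ({v | v ∈ OutV T (sel n T) ∧ Bulk n (κ * n) v} : Set (ℤ × ℤ)).ncard)} with hA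
  set B : Set (Finset Edg) :=
    {T | 2 * C₁ / ε * (n : ℝ) ^ (7 / 4 : ℝ) < (perim T (sel n T) : ℝ)} with hB
  set G : Set (Finset Edg) := {T | c / 2 * (n : ℝ) ^ (7 / 4 : ℝ) ≤ (perimE T (sel n T) : ℝ) ∧
        (perim T (sel n T) : ℝ) ≤ 2 * C₁ / ε * (n : ℝ) ^ (7 / 4 : ℝ)} with hG
  have h2 : prB n B ≤ ε / 2 := by
    refine (Perc.PercD.prB_markov (n := n) (g := fun T => (perim T (sel n T) : ℝ))
      (fun T _ => Nat.cast_nonneg _) (t := 2 * C₁ / ε * (n : ℝ) ^ (7 / 4 : ℝ)) (by positivity)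
      (fun T _ hT => le_of_lt hT)).trans ?_
    have h3 := (hE n hn (sel n) (hsel n)).2
    have h4 : exB n (fun T => (perim T (sel n T) : ℝ)) ≤ C₁ * (n : ℝ) ^ (7 / 4 : ℝ) :=
      h3.trans (mul_le_mul_of_nonneg_right (le_max_left _ _) hnp.le)
    rw [div_le_iff₀ (by positivity)]
    calc exB n (fun T => (perim T (sel n T) : ℝ)) ≤ C₁ * (n : ℝ) ^ (7 / 4 : ℝ) := h4
      _ = ε / 2 * (2 * C₁ / ε * (n : ℝ) ^ (7 / 4 : ℝ)) := by field_simp
  have h3 : prB n Gᶜ ≤ prB n A + prB n B := by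
    refine Perc.PercD.prB_union A B Gᶜ fun T _ hT => ?_
    by_contra hcon
    rw [not_or] at hcon
    obtain ⟨hA', hB'⟩ := hcon
    rw [hA, Set.mem_ofPred_eq, not_not] at hA'
    rw [hB, Set.mem_ofPred_eq, not_lt] at hB'
    refine hT ⟨?_, hB'⟩
    have h4 : (({v | v ∈ OutV T (sel n T) ∧ Bulk n (κ * n) v} : Set (ℤ × ℤ)).ncard : ℝ)
        ≤ 2 * (perimE T (sel n T) : ℝ) := by
      have hfin : (OutV T (sel n T)).Finite := by
        refine (T.image tl ∪ T.image hd).finite_toSet.subset fun v hv => ?_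
        obtain ⟨e, he, -, -, h⟩ := hv
        rw [mem_coe, mem_union, mem_image, mem_image]
        rcases h with h | h
        · exact Or.inl ⟨e, he, h.symm⟩
        · exact Or.inr ⟨e, he, h.symm⟩
      have h5 : ({v | v ∈ OutV T (sel n T) ∧ Bulk n (κ * n) v} : Set (ℤ × ℤ)).ncard ≤
          (OutV T (sel n T)).ncard := Set.ncard_le_ncard (fun v hv => hv.1) hfin
      exact_mod_cast h5.trans (ncard_OutV_le T (sel n T))
    have h6 := hA'.2
    linarith
  have h4 := PercW.prB_add_compl n G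
  linarith

end Pool.Agent.PercD
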