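import Pool.Agent.Lib.MP_6bd702_z.Z018
import Pool.Agent.Lib.MP_6bd702_z.Z013
import Pool.Agent.Lib.MP_6bd702_z.Z008
import Pool.Agent.Lib.MP_6bd702_z.Z002

section PartpercDStrand

/-!
# Arcs of an interface and components of the matching
-/

set_option autoImplicit false

namespace Pool.Agent.PercD

open Finset Pool.Agent.Perc
open Pool.Agent.MP_6bd702.H23 (Ed Conn Step)
open Pool.Agent.PercU (Cor vtx fce qry qryb nxt prv)
open Pool.Agent.PercO (sd)
open Pool.Agent.PercX60 (gV gF gB gT dB)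
open Pool.Agent.PercW (kap ua_kap side_kap Mt_unique mt_nxt mt_prv Lay mem_Lay LayX LayY)

namespace Strand

variable {T : Set Ed} {k k' : Cor} {r : ℤ} {v : ℤ × ℤ}

/-- The component of a unit edge in a box is contained in the arc between two exits. -/
theorem MM_sub_arc {a b c : ℕ} (hac : a < c) (hcb : c < b)
    (ha : ¬ InE v r (kap ((nxt T)^[a] k))) (hb : ¬ InE v r (kap ((nxt T)^[b] k))) {e : UE}
    (he : e ∈ MM (gT T) (BR v r) (kap ((nxt T)^[c] k))) :
    ∃ l, a < l ∧ l < b ∧ e = kap ((nxt T)^[l] k) := by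
  induction he with
  | refl => exact ⟨c, hac, hcb, rfl⟩
  | tail hprev hs ih =>
    obtain ⟨l, h1, h2, rfl⟩ := ih
    obtain ⟨f, hf, hm⟩ := hs
    have hin : InE v r _ := inE_of_side hf hm.right
    rcases side_kap hm.left with rfl | rfl
    · have h3 := Mt_unique (mt_nxt T ((nxt T)^[l] k)) hm
      rw [← Function.iterate_succ_apply' (f := nxt T)] at h3
      refine ⟨l + 1, by omega, ?_, h3.symm⟩
      rcases Nat.lt_or_ge (l + 1) b with h4 | h4
      · exact h4
      · have h5 : l + 1 = b := by omega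
        rw [← h3, Nat.succ_eq_add_one, h5] at hin
        exact absurd hin hb
    · obtain ⟨l', rfl⟩ : ∃ l', l = l' + 1 := ⟨l - 1, by omega⟩
      have h3 := Mt_unique (mt_prv T ((nxt T)^[l' + 1] k)) hm
      rw [Function.iterate_succ_apply', PercU.prv_nxt] at h3
      refine ⟨l', ?_, by omega, h3.symm⟩
      rcases Nat.lt_or_ge a l' with h4 | h4
      · exact h4
      · have h5 : l' = a := by omega
        rw [← h3, h5] at hin
        exact absurd hin ha

/-- If the interface leaves the box, the component reaches the boundary of the box. -/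
theorem Rch_of_exit {c b : ℕ} (hcb : c ≤ b) (hb : ¬ InE v r (kap ((nxt T)^[b] k)))
    (hc : InE v r (kap ((nxt T)^[c] k))) : gT T ∈ Rch v r (kap ((nxt T)^[c] k)) := by
  have key : ∀ j, kap ((nxt T)^[c + j] k) ∈ MM (gT T) (BR v r) (kap ((nxt T)^[c] k)) ∨
      gT T ∈ Rch v r (kap ((nxt T)^[c] k)) := by
    intro j
    induction j with
    | zero => exact Or.inl mem_MM_self
    | succ j ih =>
      rcases ih with ih | ih
      · by_cases hf : phiE (qry ((nxt T)^[c + j] k)) ∈ (BR v r : Set (ℤ × ℤ))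
        · left
          have := MM_step hf (mt_nxt T ((nxt T)^[c + j] k)) ih
          rw [← Function.iterate_succ_apply' (f := nxt T)] at this
          exact this
        · exact Or.inr ⟨_, ih, bd_of_side (MM_inE hc ih) (mt_nxt T _).left hf⟩
      · exact Or.inr ih
  rcases key (b - c) with h | h
  · rw [Nat.add_sub_cancel' hcb] at h
    exact absurd (MM_inE hc h) hb
  · exact h

/-- A corner far away is outside the box. -/
theorem not_inE_of_sd (h : r + 2 ≤ sd (vtx k') (vtx k)) : ¬ InE (ua (kap k)) r (kap k') := by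
  intro hin
  unfold sd at h
  obtain ⟨x, y, a, b⟩ := k
  obtain ⟨x', y', a', b'⟩ := k'
  have h1 := le_abs_self (x' - x)
  have h2 := neg_le_abs (x' - x)
  have h3 := le_abs_self (y' - y)
  have h4 := neg_le_abs (y' - y)
  have h5 : |x' - x| ≤ max (x' - x) (x - x') := by rw [abs_le]; constructor <;> omega
  have h6 : |y' - y| ≤ max (y' - y) (y - y') := by rw [abs_le]; constructor <;> omega
  simp only [vtx] at h
  have h7 : r + 2 ≤ max (max (x' - x) (x - x')) (max (y' - y) (y - y')) := h.trans (by omega)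
  clear h h1 h2 h3 h4 h5 h6
  rcases a with _ | _ <;> rcases b with _ | _ <;> rcases a' with _ | _ <;> rcases b' with _ | _ <;>
    simp [InE, InR, kap, ua, ub] at hin <;> omega

/-! ### Arcs which avoid the boundary layer -/

theorem sd_comm (u w : ℤ × ℤ) : sd u w = sd w u := by
  unfold sd
  rw [abs_sub_comm u.1, abs_sub_comm u.2]

theorem sd_tri (u w z : ℤ × ℤ) : sd u z ≤ sd u w + sd w z := by
  unfold sd
  have h1 := abs_sub_le u.1 w.1 z.1
  have h2 := abs_sub_le u.2 w.2 z.2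
  omega

theorem sd_self (u : ℤ × ℤ) : sd u u = 0 := by
  unfold sd
  simp

theorem sd_nxt (k : Cor) : sd (vtx (nxt T k)) (vtx k) ≤ 1 := by
  unfold sd
  by_cases h : qry k ∈ T
  · rw [PercU.nxt_of_mem h]
    obtain ⟨x, y, _ | _, _ | _⟩ := k <;> simp [PercU.adv, vtx]
  · rw [PercU.nxt_of_notMem h, PercU.vtx_rot]
    simp

theorem conn_range {R : Set (ℤ × ℤ)} {a : ℕ} (d : ℕ)
    (h : ∀ j, a ≤ j → j ≤ a + d → vtx ((nxt T)^[j] k) ∈ R) :
    Conn T R (vtx ((nxt T)^[a] k)) (vtx ((nxt T)^[a + d] k)) := by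
  induction d with
  | zero => exact .refl
  | succ d ih =>
    refine (ih fun j h1 h2 => h j h1 (by omega)).trans ?_
    have h1 := h (a + d) (by omega) (by omega)
    have h2 := h (a + (d + 1)) (by omega) le_rfl
    have h3 : (nxt T)^[a + (d + 1)] k = nxt T ((nxt T)^[a + d] k) := by
      rw [← add_assoc, Function.iterate_succ_apply']
    rw [h3] at h2 ⊢
    rcases PercU.step_vtx (ω := T) ((nxt T)^[a + d] k) with h4 | ⟨-, -, e, he, hh⟩
    · rw [h4]; exact .refl
    · exact .single ⟨h1, h2, e, he, hh⟩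

/-- The first time the distance from a vertex is at least `D`. -/
theorem exists_first {a b : ℕ} (hab : a ≤ b) {z : ℤ × ℤ} {D : ℤ}
    (h0 : sd (vtx ((nxt T)^[a] k)) z < D) (h1 : D ≤ sd (vtx ((nxt T)^[b] k)) z) :
    ∃ c, a < c ∧ c ≤ b ∧ sd (vtx ((nxt T)^[c] k)) z = D ∧
      ∀ j, a ≤ j → j < c → sd (vtx ((nxt T)^[j] k)) z < D := by
  classical
  have hex : ∃ c, a ≤ c ∧ D ≤ sd (vtx ((nxt T)^[c] k)) z := ⟨b, hab, h1⟩
  obtain ⟨c, hc, hmin⟩ : ∃ c, (a ≤ c ∧ D ≤ sd (vtx ((nxt T)^[c] k)) z) ∧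
      ∀ j < c, ¬ (a ≤ j ∧ D ≤ sd (vtx ((nxt T)^[j] k)) z) :=
    ⟨Nat.find hex, Nat.find_spec hex, fun j hj => Nat.find_min hex hj⟩
  have hac : a < c := by
    rcases hc.1.lt_or_eq with h | h
    · exact h
    · subst h
      omega
  refine ⟨c, hac, ?_, ?_, fun j hj1 hj2 => ?_⟩
  · by_contra hcon
    exact hmin b (by omega) ⟨hab, h1⟩
  · obtain ⟨c', rfl⟩ : ∃ c', c = c' + 1 := ⟨c - 1, by omega⟩
    have h2 : sd (vtx ((nxt T)^[c'] k)) z < D := by
      by_contra hcon
      exact hmin c' (Nat.lt_succ_self _) ⟨by omega, not_lt.1 hcon⟩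
    have h3 := sd_tri (vtx ((nxt T)^[c' + 1] k)) (vtx ((nxt T)^[c'] k)) z
    have h4 : sd (vtx ((nxt T)^[c' + 1] k)) (vtx ((nxt T)^[c'] k)) ≤ 1 := by
      rw [Function.iterate_succ_apply']
      exact sd_nxt _
    have h5 := hc.2
    omega
  · by_contra hcon
    exact hmin j hj2 ⟨hj1, not_lt.1 hcon⟩

/-- A long arc has a corner outside the boundary layer and far from its ends. -/
theorem exists_mid {n w E D : ℤ} {a b : ℕ} (hab : a ≤ b) (hE : 1 ≤ E) (hD : 1 ≤ D)
    (hlong : 2 * (D + E) ≤ sd (vtx ((nxt T)^[b] k)) (vtx ((nxt T)^[a] k)))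
    (hX : T ∉ LayX n w E) (hY : T ∉ LayY n w E) :
    ∃ c, a < c ∧ c < b ∧ vtx ((nxt T)^[c] k) ∉ Lay n w ∧
      D ≤ sd (vtx ((nxt T)^[a] k)) (vtx ((nxt T)^[c] k)) ∧
      D ≤ sd (vtx ((nxt T)^[b] k)) (vtx ((nxt T)^[c] k)) := by
  obtain ⟨p, hap, hpb, hp, -⟩ := exists_first (k := k) hab (z := vtx ((nxt T)^[a] k))
    (D := D + E) (by rw [sd_self]; omega) (by omega)
  have hpb' : D + E ≤ sd (vtx ((nxt T)^[b] k)) (vtx ((nxt T)^[p] k)) := by
    have := sd_tri (vtx ((nxt T)^[b] k)) (vtx ((nxt T)^[p] k)) (vtx ((nxt T)^[a] k))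
    omega
  obtain ⟨q, hpq, hqb, hq, hqmin⟩ := exists_first (k := k) hpb (z := vtx ((nxt T)^[p] k))
    (D := E) (by rw [sd_self]; omega) (by omega)
  have hex : ∃ c, p ≤ c ∧ c ≤ q ∧ vtx ((nxt T)^[c] k) ∉ Lay n w := by
    by_contra hcon
    push Not at hcon
    have hconn : Conn T (Lay n w) (vtx ((nxt T)^[p] k)) (vtx ((nxt T)^[q] k)) := by
      have := conn_range (T := T) (k := k) (R := Lay n w) (a := p) (q - p) fun j h1 h2 =>
        hcon j h1 (by omega)
      rwa [Nat.add_sub_cancel' hpq.le] at this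
    have hmp := hcon p le_rfl hpq.le
    have hmq := hcon q hpq.le le_rfl
    unfold sd at hq
    rcases le_total |(vtx ((nxt T)^[q] k)).2 - (vtx ((nxt T)^[p] k)).2|
      |(vtx ((nxt T)^[q] k)).1 - (vtx ((nxt T)^[p] k)).1| with h | h
    · rw [max_eq_left h] at hq
      rcases abs_cases ((vtx ((nxt T)^[q] k)).1 - (vtx ((nxt T)^[p] k)).1) with h1 | h1
      · exact hX ⟨_, _, hmp, hconn, by omega⟩
      · exact hX ⟨_, _, hmq, hconn.symm, by omega⟩
    · rw [max_eq_right h] at hq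
      rcases abs_cases ((vtx ((nxt T)^[q] k)).2 - (vtx ((nxt T)^[p] k)).2) with h1 | h1
      · exact hY ⟨_, _, hmp, hconn, by omega⟩
      · exact hY ⟨_, _, hmq, hconn.symm, by omega⟩
  obtain ⟨c, hpc, hcq, hc⟩ := hex
  have hcp : sd (vtx ((nxt T)^[c] k)) (vtx ((nxt T)^[p] k)) ≤ E := by
    rcases hcq.lt_or_eq with h | h
    · exact (hqmin c hpc h).le
    · rw [h, hq]
  have h1 : D ≤ sd (vtx ((nxt T)^[a] k)) (vtx ((nxt T)^[c] k)) := by
    have h2 := sd_tri (vtx ((nxt T)^[a] k)) (vtx ((nxt T)^[c] k)) (vtx ((nxt T)^[p] k))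
    rw [sd_comm (vtx ((nxt T)^[a] k)) (vtx ((nxt T)^[p] k))] at h2
    omega
  have h2 : D ≤ sd (vtx ((nxt T)^[b] k)) (vtx ((nxt T)^[c] k)) := by
    have h3 := sd_tri (vtx ((nxt T)^[b] k)) (vtx ((nxt T)^[c] k)) (vtx ((nxt T)^[p] k))
    omega
  refine ⟨c, by omega, ?_, hc, h1, h2⟩
  rcases (hcq.trans hqb).lt_or_eq with h | h
  · exact h
  · rw [h, sd_self] at h2
    omega

end Strand

end Pool.Agent.PercD

end PartpercDStrand

section PartpercDTightCount

/-!
# Many long arcs of an interface are unlikely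
-/

set_option autoImplicit false

namespace Pool.Agent.PercD

open Finset Pool.Agent.Perc
open Pool.Agent.MP_6bd702.H23 (Ed)
open Pool.Agent.PercU (Cor vtx fce qry qryb nxt prv nxtE)
open Pool.Agent.PercO (sd)
open Pool.Agent.PercX60 (gV gF gB gT dB Sn)
open Pool.Agent.PercW (kap ua_kap Lay mem_Lay LayX LayY)

/-- Some interface has `m` consecutive arcs of extent at least `L`. -/
def Chain (n : ℕ) (L : ℤ) (m : ℕ) : Set (Finset Edg) :=
  {T | ∃ k : Cor, vtx k ∈ Box n ∧ ∃ i : ℕ → ℕ, (∀ j < m, i j < i (j + 1)) ∧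
    i m < Function.minimalPeriod (nxtE (T : Set Ed)) k ∧
    ∀ j < m, L ≤ sd (vtx ((nxt (T : Set Ed))^[i (j + 1)] k)) (vtx ((nxt (T : Set Ed))^[i j] k))}

namespace Tight

open Strand

open Classical in
/-- The unit edges of the corners of the box with a ball in the box. -/
noncomputable def II (n ρ : ℕ) : Finset UE :=
  ((PercX60.corB n).image kap).filter fun e => BR (ua e) ρ ⊆ Sn n

theorem card_II (n ρ : ℕ) : ((II n ρ).card : ℝ) ≤ 4 * ((n : ℝ) + 1) ^ 2 := by
  classical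
  rw [← PercX60.card_corB]
  exact_mod_cast (card_filter_le _ _).trans card_image_le

/-- Rounding to a multiple of `ρ`. -/
def rd (ρ : ℕ) (v : ℤ × ℤ) : ℤ × ℤ := ((ρ : ℤ) * v.1, (ρ : ℤ) * v.2)

open Classical in
/-- The indices of the grid. -/
noncomputable def GG (n ρ N : ℕ) : Finset (ℤ × ℤ) :=
  (Icc (-(N : ℤ)) N ×ˢ Icc (-(N : ℤ)) N).filter fun v => BR (rd ρ v) (2 * ρ) ⊆ Sn n

theorem card_GG (n ρ N : ℕ) : ((GG n ρ N).card : ℝ) ≤ (2 * (N : ℝ) + 1) ^ 2 := by
  classical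
  have h1 : (GG n ρ N).card ≤ (2 * N + 1) ^ 2 := by
    refine (card_filter_le _ _).trans ?_
    rw [card_product, Int.card_Icc]
    have : ((N : ℤ) + 1 - -(N : ℤ)).toNat = 2 * N + 1 := by omega
    rw [this, pow_two]
  exact_mod_cast h1

theorem div_bounds {ρ N : ℕ} (hρ : 1 ≤ ρ) {x : ℤ} (h1 : -((N : ℤ) * ρ) ≤ x) (h2 : x ≤ N * ρ) :
    -(N : ℤ) ≤ x / ρ ∧ x / ρ ≤ N ∧ (ρ : ℤ) * (x / ρ) ≤ x ∧ x < ρ * (x / ρ) + ρ := by
  have hρ0 : (0 : ℤ) < ρ := by exact_mod_cast hρ
  refine ⟨?_, ?_, ?_, ?_⟩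
  · rw [Int.le_ediv_iff_mul_le hρ0]
    linarith
  · have h3 : x / ρ ≤ (N * ρ : ℤ) / ρ := Int.ediv_le_ediv hρ0 h2
    rwa [Int.mul_ediv_cancel _ hρ0.ne'] at h3
  · have := Int.mul_ediv_self_le (x := x) hρ0.ne'
    exact this
  · have := Int.lt_mul_ediv_self_add (x := x) hρ0
    exact this

/-- Every unit edge of a corner far from the boundary is in a box of the grid. -/
theorem exists_grid {n ρ N : ℕ} (hρ : 1 ≤ ρ) (hN : 2 * n + 2 ≤ N * ρ) {k : Cor}
    (hk : vtx k ∈ Box n) (hB : BR (ua (kap k)) (3 * ρ) ⊆ Sn n) :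
    ∃ v ∈ GG n ρ N, InE (rd ρ v) ρ (kap k) := by
  classical
  have hbox := DictB.mem_Box.1 hk
  have hX : -((N : ℤ) * ρ) ≤ (ua (kap k)).1 ∧ (ua (kap k)).1 ≤ N * ρ ∧
      -((N : ℤ) * ρ) ≤ (ua (kap k)).2 ∧ (ua (kap k)).2 ≤ N * ρ := by
    have hN' : (2 * n + 2 : ℤ) ≤ N * ρ := by exact_mod_cast hN
    obtain ⟨x, y, _ | _, _ | _⟩ := k <;> simp [kap, ua, vtx] at * <;> omega
  obtain ⟨a1, a2, a3, a4⟩ := div_bounds hρ hX.1 hX.2.1
  obtain ⟨b1, b2, b3, b4⟩ := div_bounds hρ hX.2.2.1 hX.2.2.2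
  set A : ℤ := (ua (kap k)).1 / ρ with hA
  set B : ℤ := (ua (kap k)).2 / ρ with hBd
  refine ⟨(A, B), ?_, ?_⟩
  · unfold GG
    rw [mem_filter, mem_product, mem_Icc, mem_Icc]
    refine ⟨⟨⟨a1, a2⟩, b1, b2⟩, subset_trans (Sub.subset ?_) hB⟩
    unfold Sub rd
    simp only
    omega
  · generalize hP : (ρ : ℤ) * A = P at *
    generalize hQ : (ρ : ℤ) * B = Q at *
    have hr1 : (1 : ℤ) ≤ ρ := by exact_mod_cast hρ
    have e1 : rd ρ (A, B) = (P, Q) := by
      unfold rd
      rw [hP, hQ]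
    rw [e1]
    clear hX hA hBd e1 hP hQ
    unfold InE InR
    generalize kap k = e at *
    obtain ⟨x, y, _ | _⟩ := e
    · rw [ub_false]
      simp only [ua_mk] at *
      omega
    · rw [ub_true]
      simp only [ua_mk] at *
      omega

/-- The deterministic count. -/
theorem count_le {n ρ N m : ℕ} {w E : ℤ} {y : ℝ} {ω : Cfg} (hρ : 1 ≤ ρ) (hE : 1 ≤ E)
    (hw : 3 * (ρ : ℤ) + 1 ≤ w) (hN : 2 * n + 2 ≤ N * ρ)
    (hX : (cfgE n ω : Set Ed) ∉ LayX n w E) (hY : (cfgE n ω : Set Ed) ∉ LayY n w E)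
    (hbad : ∀ v ∈ GG n ρ N, ω ∉ Bad (rd ρ v) ρ y)
    (hch : cfgE n ω ∈ Chain n (2 * (3 * ρ + 2 + E)) m) :
    by classical exact (m : ℝ) * y ≤ (((II n ρ).filter fun e => ω ∈ Rch (ua e) ρ e).card : ℝ) := by
  classical
  obtain ⟨k, hk, i, hi, him, hlong⟩ := hch
  set T : Set Ed := (cfgE n ω : Set Ed) with hT
  have hTsub : cfgE n ω ⊆ boxE n := Finset.filter_subset _ _
  have hmono : ∀ {a b : ℕ}, a ≤ b → b ≤ m → i a ≤ i b := by
    intro a b hab
    induction b, hab using Nat.le_induction with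
    | base => intro _; exact le_rfl
    | succ b hab ih => intro hb; exact (ih (by omega)).trans (hi b (by omega)).le
  -- the vertices stay in the box
  have hbox : ∀ l, vtx ((nxt T)^[l] k) ∈ Box n := by
    intro l
    have h1 : vtx ((nxt T)^[l] k) ∈ clV (cfgE n ω) (vtx k) := by
      rw [PercO.clV_eq]
      exact PercO.vtx_iter_mem Relation.ReflTransGen.refl l
    exact BoxAux.clV_subset_box hTsub hk h1
  -- the corners in the middle of the arcs
  have hmid : ∀ j < m, ∃ c, i j < c ∧ c < i (j + 1) ∧ vtx ((nxt T)^[c] k) ∉ Lay n w ∧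
      3 * (ρ : ℤ) + 2 ≤ sd (vtx ((nxt T)^[i j] k)) (vtx ((nxt T)^[c] k)) ∧
      3 * (ρ : ℤ) + 2 ≤ sd (vtx ((nxt T)^[i (j + 1)] k)) (vtx ((nxt T)^[c] k)) := fun j hj =>
    exists_mid (hi j hj).le hE (by omega) (hlong j hj) hX hY
  have hmid' : ∀ j, ∃ c, j < m → i j < c ∧ c < i (j + 1) ∧ vtx ((nxt T)^[c] k) ∉ Lay n w ∧
      3 * (ρ : ℤ) + 2 ≤ sd (vtx ((nxt T)^[i j] k)) (vtx ((nxt T)^[c] k)) ∧
      3 * (ρ : ℤ) + 2 ≤ sd (vtx ((nxt T)^[i (j + 1)] k)) (vtx ((nxt T)^[c] k)) := by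
    intro j
    by_cases hj : j < m
    · obtain ⟨c, hc⟩ := hmid j hj
      exact ⟨c, fun _ => hc⟩
    · exact ⟨0, fun h => absurd h hj⟩
  choose c hc using hmid'
  -- the sets
  set e : ℕ → UE := fun j => kap ((nxt T)^[c j] k) with he
  have hball : ∀ j < m, BR (ua (e j)) (3 * ρ) ⊆ Sn n := by
    intro j hj
    refine BR_kap_sub ?_
    obtain ⟨-, -, h3, -, -⟩ := hc j hj
    have h4 := DictB.mem_Box.1 (hbox (c j))
    rw [mem_Lay] at h3
    unfold dB
    by_contra hcon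
    refine h3 ⟨by omega, fun h5 => hcon ?_⟩
    omega
  have hag : ∀ j < m, ∀ f ∈ (BR (ua (e j)) (3 * ρ) : Set (ℤ × ℤ)), gT T f = ω f := by
    intro j hj f hf
    obtain ⟨x, hx, rfl⟩ := Finset.mem_image.1 (hball j hj (Finset.mem_coe.1 hf))
    exact PercX60.gT_cfgE hx
  have harc : ∀ j < m, ∀ a ∈ MM ω (BR (ua (e j)) (3 * ρ)) (e j),
      ∃ l, i j < l ∧ l < i (j + 1) ∧ a = kap ((nxt T)^[l] k) := by
    intro j hj a ha
    obtain ⟨h1, h2, -, h4, h5⟩ := hc j hj
    rw [← MM_congr' (ω := ω) (ω' := gT T) fun f hf => (hag j hj f hf).symm] at ha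
    exact MM_sub_arc h1 h2 (not_inE_of_sd (k := (nxt T)^[c j] k) h4) (not_inE_of_sd h5) ha
  have hself : ∀ (e : UE) (r : ℕ), 1 ≤ r → InE (ua e) r e := fun e r hr =>
    LTail.inE_self e (by exact_mod_cast hr)
  have hρ3 : ((3 * ρ : ℕ) : ℤ) = 3 * (ρ : ℤ) := by push_cast; rfl
  have hR : ∀ j < m, ω ∈ Rch (ua (e j)) (3 * ρ) (e j) := by
    intro j hj
    obtain ⟨h1, h2, -, h4, h5⟩ := hc j hj
    have h6 := Rch_of_exit (T := T) (k := k) (r := 3 * (ρ : ℤ)) (v := ua (e j)) h2.le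
      (not_inE_of_sd h5) (by have := hself (e j) (3 * ρ) (by omega); rwa [hρ3] at this)
    exact (depOn_Rch (ua (e j)) (3 * ρ) (e j) (gT T) ω (hag j hj)).1 h6
  set A : ℕ → Set UE := fun j => MM ω (BR (ua (e j)) ρ) (e j) with hA
  have hAfin : ∀ j, (A j).Finite := fun j => MM_finite' ρ
  have hAsub : ∀ j, A j ⊆ MM ω (BR (ua (e j)) (3 * ρ)) (e j) := fun j =>
    MM_sub (Finset.coe_subset.2 (Sub.refl' (by omega)).subset)
  have hAy : ∀ j < m, y < ((A j).ncard : ℝ) := by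
    intro j hj
    by_contra hcon
    have hkb := hbox (c j)
    obtain ⟨v, hv, hin⟩ := exists_grid hρ hN hkb (hball j hj)
    refine hbad v hv ⟨e j, hin, ?_, not_lt.1 hcon⟩
    exact Rch_sub (Sub.refl' (by omega)) (hself (e j) ρ hρ) (hR j hj)
  have hAI : ∀ j < m, ∀ a ∈ A j, a ∈ (II n ρ).filter fun e => ω ∈ Rch (ua e) ρ e := by
    intro j hj a ha
    have h1 : InE (ua (e j)) ρ a := MM_inE (hself (e j) ρ hρ) ha
    have h2 : Sub (ua a) ρ (ua (e j)) (3 * ρ) := by
      have := sub_two h1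
      unfold Sub at this ⊢
      omega
    obtain ⟨l, -, -, rfl⟩ := harc j hj a (hAsub j ha)
    rw [mem_filter]
    refine ⟨?_, ?_⟩
    · unfold II
      rw [mem_filter]
      refine ⟨mem_image_of_mem _ (PercX60.mem_corB.2 (hbox l)), h2.subset.trans (hball j hj)⟩
    · refine Rch_sub h2 (hself _ ρ hρ) ?_
      exact (Rch_iff (hAsub j ha)).2 (hR j hj)
  -- disjointness
  have hinj : ∀ l l' : ℕ, l < Function.minimalPeriod (nxtE T) k →
      l' < Function.minimalPeriod (nxtE T) k → kap ((nxt T)^[l] k) = kap ((nxt T)^[l'] k) →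
      l = l' := by
    intro l l' hl hl' h
    have h1 := PercW.kap_injective h
    have h2 : (nxtE T)^[l] k = (nxtE T)^[l'] k := h1
    exact (Function.iterate_injOn_Iio_minimalPeriod (f := nxtE T) (x := k)) hl hl' h2
  have hdisj : ∀ j ∈ range m, ∀ j' ∈ range m, j ≠ j' →
      Disjoint (hAfin j).toFinset (hAfin j').toFinset := by
    intro j hj j' hj' hne
    rw [mem_range] at hj hj'
    rw [Finset.disjoint_left]
    intro a ha ha'
    rw [Set.Finite.mem_toFinset] at ha ha'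
    obtain ⟨l, h1, h2, h3⟩ := harc j hj a (hAsub j ha)
    obtain ⟨l', h1', h2', h3'⟩ := harc j' hj' a (hAsub j' ha')
    have hl : l < Function.minimalPeriod (nxtE T) k :=
      (h2.trans_le (hmono (by omega) le_rfl)).trans him
    have hl' : l' < Function.minimalPeriod (nxtE T) k :=
      (h2'.trans_le (hmono (by omega) le_rfl)).trans him
    have hll := hinj l l' hl hl' (h3.symm.trans h3')
    rcases Nat.lt_or_gt_of_ne hne with h | h
    · have := hmono (show j + 1 ≤ j' from h) hj'.le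
      omega
    · have := hmono (show j' + 1 ≤ j from h) hj.le
      omega
  have hcard : ∑ j ∈ range m, (A j).ncard ≤
      ((II n ρ).filter fun e => ω ∈ Rch (ua e) ρ e).card := by
    have h1 : ∑ j ∈ range m, (A j).ncard = ((range m).biUnion fun j => (hAfin j).toFinset).card := by
      rw [card_biUnion hdisj]
      refine sum_congr rfl fun j _ => ?_
      exact Set.ncard_eq_toFinset_card _ (hAfin j)
    rw [h1]
    refine card_le_card fun a ha => ?_
    rw [mem_biUnion] at ha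
    obtain ⟨j, hj, ha⟩ := ha
    rw [Set.Finite.mem_toFinset] at ha
    exact hAI j (mem_range.1 hj) a ha
  calc (m : ℝ) * y = ∑ _j ∈ range m, y := by rw [sum_const, card_range, nsmul_eq_mul]
    _ ≤ ∑ j ∈ range m, ((A j).ncard : ℝ) := sum_le_sum fun j hj => (hAy j (mem_range.1 hj)).le
    _ ≤ _ := by exact_mod_cast hcard

/-- The probability of many long arcs. -/
theorem pr_chain_le {n ρ N m : ℕ} {w E : ℤ} {y η U : ℝ} (hρ : 1 ≤ ρ) (hE : 1 ≤ E)
    (hw : 3 * (ρ : ℤ) + 1 ≤ w) (hN : 2 * n + 2 ≤ N * ρ) (hm : 1 ≤ m) (hy : 0 < y)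
    (hη : ∀ v, pr (BR v (2 * ρ)) (Bad v ρ y) ≤ η)
    (hU : ∀ e, pr (BR (ua e) ρ) (Rch (ua e) ρ e) ≤ U) :
    prB n (Chain n (2 * (3 * ρ + 2 + E)) m) ≤
      prB n {T | (T : Set Ed) ∈ LayX n w E ∨ (T : Set Ed) ∈ LayY n w E} +
        (2 * (N : ℝ) + 1) ^ 2 * η + 4 * ((n : ℝ) + 1) ^ 2 * U / (m * y) := by
  classical
  have hη0 : 0 ≤ η := (pr_nonneg _ _).trans (hη 0)
  have hU0 : 0 ≤ U := (pr_nonneg _ _).trans (hU (0, 0, true))
  have hmy : 0 < (m : ℝ) * y := mul_pos (by exact_mod_cast hm) hy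
  rw [← PercX60.pr_Sn, ← PercX60.pr_Sn]
  have h1 : pr (Sn n) {ω | cfgE n ω ∈ Chain n (2 * (3 * ρ + 2 + E)) m} ≤
      pr (Sn n) (({ω | cfgE n ω ∈ {T : Finset Edg | (T : Set Ed) ∈ LayX n w E ∨
        (T : Set Ed) ∈ LayY n w E}} ∪ ⋃ v ∈ GG n ρ N, Bad (rd ρ v) ρ y) ∪
        {ω | (m : ℝ) * y ≤ (((II n ρ).filter fun e => ω ∈ Rch (ua e) ρ e).card : ℝ)}) := by
    refine pr_mono _ fun ω hω => ?_
    by_contra hcon
    simp only [Set.mem_union, not_or, Set.mem_iUnion, not_exists] at hcon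
    obtain ⟨⟨h2, h3⟩, h4⟩ := hcon
    refine h4 ?_
    have h5 := count_le (y := y) hρ hE hw hN (fun h => h2 (Or.inl h)) (fun h => h2 (Or.inr h))
      (fun v hv hb => h3 v hv hb) hω
    exact h5
  refine h1.trans ((pr_union_le _ _ _).trans (add_le_add ((pr_union_le _ _ _).trans
    (add_le_add le_rfl ?_)) ?_))
  · refine (pr_biUnion_le _ _ _).trans ?_
    calc ∑ v ∈ GG n ρ N, pr (Sn n) (Bad (rd ρ v) ρ y) ≤ ∑ _v ∈ GG n ρ N, η := by
          refine sum_le_sum fun v hv => ?_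
          have h2 : BR (rd ρ v) (2 * ρ) ⊆ Sn n := (mem_filter.1 hv).2
          rw [pr_eq_of_depOn (depOn_Bad (rd ρ v) ρ y) h2]
          exact hη _
      _ = (GG n ρ N).card * η := by rw [sum_const, nsmul_eq_mul]
      _ ≤ _ := mul_le_mul_of_nonneg_right (card_GG n ρ N) hη0
  · refine (pr_count_le (Sn n) (II n ρ) (fun e => Rch (ua e) ρ e) hmy).trans ?_
    refine div_le_div_of_nonneg_right ?_ hmy.le
    calc ∑ e ∈ II n ρ, pr (Sn n) (Rch (ua e) ρ e) ≤ ∑ _e ∈ II n ρ, U := by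
          refine sum_le_sum fun e he => ?_
          have h2 : BR (ua e) ρ ⊆ Sn n := (mem_filter.1 he).2
          rw [pr_eq_of_depOn (depOn_Rch (ua e) ρ e) h2]
          exact hU _
      _ = (II n ρ).card * U := by rw [sum_const, nsmul_eq_mul]
      _ ≤ _ := mul_le_mul_of_nonneg_right (card_II n ρ) hU0

end Tight

end Pool.Agent.PercD

end PartpercDTightCount

section PartpercDPolyCut

/-!
# Cutting a closed polygon: either few short arcs or many long arcs
-/

set_option autoImplicit false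

namespace Pool.Agent.PercD

open Set Filter Topology

open Classical in
/-- The first index after `a` (at most `p`) at distance more than `ρ` from the point `a`. -/
noncomputable def nx (V : ℤ → ℂ) (p : ℕ) (ρ : ℝ) (a : ℕ) : ℕ :=
  if h : ∃ b : ℕ, a < b ∧ b ≤ p ∧ ρ < dist (V a) (V b) then Nat.find h else p

variable {V : ℤ → ℂ} {p : ℕ} {ρ : ℝ}

theorem nx_le (a : ℕ) : nx V p ρ a ≤ p := by
  classical
  unfold nx
  split_ifs with h
  · exact (Nat.find_spec h).2.1
  · exact le_rfl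

theorem lt_nx {a : ℕ} (ha : a < p) : a < nx V p ρ a := by
  classical
  unfold nx
  split_ifs with h
  · exact (Nat.find_spec h).1
  · exact ha

theorem nx_far {a : ℕ} (h : nx V p ρ a < p) : ρ < dist (V a) (V (nx V p ρ a)) := by
  classical
  unfold nx at h ⊢
  split_ifs at h ⊢ with h1
  · exact (Nat.find_spec h1).2.2
  · omega

theorem nx_near (hρ : 0 ≤ ρ) {a b : ℕ} (hab : a ≤ b) (hb : b < nx V p ρ a) :
    dist (V a) (V b) ≤ ρ := by
  classical
  rcases hab.eq_or_lt with rfl | hab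
  · rw [dist_self]
    exact hρ
  · have hbp : b < p := hb.trans_le (nx_le a)
    unfold nx at hb
    split_ifs at hb with h1
    · have := Nat.find_min h1 hb
      by_contra hcon
      exact this ⟨hab, hbp.le, not_le.1 hcon⟩
    · by_contra hcon
      exact h1 ⟨b, hab, hbp.le, not_le.1 hcon⟩

/-- The greedy cut points. -/
noncomputable def gs (V : ℤ → ℂ) (p : ℕ) (ρ : ℝ) (j : ℕ) : ℕ := (nx V p ρ)^[j] 0

theorem gs_succ (j : ℕ) : gs V p ρ (j + 1) = nx V p ρ (gs V p ρ j) := by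
  unfold gs
  rw [Function.iterate_succ_apply']

theorem gs_le (j : ℕ) : gs V p ρ j ≤ p := by
  cases j with
  | zero => exact Nat.zero_le _
  | succ j => rw [gs_succ]; exact nx_le _

theorem le_gs (j : ℕ) : j ≤ gs V p ρ j ∨ gs V p ρ j = p := by
  induction j with
  | zero => exact Or.inl (Nat.zero_le _)
  | succ j ih =>
    rcases (gs_le (V := V) (p := p) (ρ := ρ) (j + 1)).lt_or_eq with h | h
    · left
      rcases (gs_le (V := V) (p := p) (ρ := ρ) j).lt_or_eq with h' | h'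
      · have h1 := lt_nx (V := V) (ρ := ρ) h'
        rw [← gs_succ] at h1
        rcases ih with ih | ih
        · omega
        · omega
      · exfalso
        have h2 : p ≤ nx V p ρ p := by
          classical
          unfold nx
          split_ifs with h3
          · exact (Nat.find_spec h3).1.le
          · exact le_rfl
        rw [gs_succ, h'] at h
        omega
    · exact Or.inr h

theorem exists_gs : ∃ j, gs V p ρ j = p := by
  rcases le_gs (V := V) (p := p) (ρ := ρ) p with h | h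
  · exact ⟨p, le_antisymm (gs_le p) h⟩
  · exact ⟨p, h⟩

variable {h : ∀ j, V (j + p) = V j}

/-- A point of the polygon between two vertices is near the first one if all the vertices between
them are. -/
theorem poly_near {a b : ℕ} {δ : ℝ} (hn : ∀ c : ℕ, a ≤ c → c ≤ b → dist (V a) (V c) ≤ δ) {y : ℝ}
    (hy : y ∈ Icc (a : ℝ) b) : dist (V a) (poly V y) ≤ δ := by
  have hy0 : 0 ≤ y := (Nat.cast_nonneg a).trans hy.1
  obtain ⟨c, hc⟩ := Int.eq_ofNat_of_zero_le (Int.floor_nonneg.2 hy0)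
  have h1 : (c : ℝ) ≤ y := by
    have := Int.floor_le y
    rw [hc] at this
    exact_mod_cast this
  have h2 : y < c + 1 := by
    have := Int.lt_floor_add_one y
    rw [hc] at this
    exact_mod_cast this
  have hac : a ≤ c := by
    have : (a : ℝ) < c + 1 := hy.1.trans_lt h2
    have : a < c + 1 := by exact_mod_cast this
    omega
  have hcb : c ≤ b := by
    have : (c : ℝ) ≤ b := h1.trans hy.2
    exact_mod_cast this
  rcases hcb.lt_or_eq with hcb | hcb
  · have h3 : poly V y ∈ segment ℝ (V (c : ℤ)) (V ((c : ℤ) + 1)) := by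
      have := poly_mem_segment V y
      rw [hc] at this
      exact this
    have h4 : segment ℝ (V (c : ℤ)) (V ((c : ℤ) + 1)) ⊆ Metric.closedBall (V a) δ := by
      refine (convex_closedBall (V a) δ).segment_subset ?_ ?_
      · rw [Metric.mem_closedBall, dist_comm]
        exact hn c hac hcb.le
      · rw [Metric.mem_closedBall, dist_comm]
        exact_mod_cast hn (c + 1) (by omega) hcb
    have h5 := h4 h3
    rw [Metric.mem_closedBall, dist_comm] at h5
    exact h5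
  · subst hcb
    have hyc : y = ((c : ℤ) : ℝ) := by
      apply le_antisymm
      · exact_mod_cast hy.2
      · exact_mod_cast h1
    rw [hyc, poly_int]
    exact hn c hac le_rfl

/-- Either the closed polygon can be cut into at most `m` short arcs or it has `m` long arcs. -/
theorem poly_cut_or {δ : ℝ} (hp : 0 < p) (hρ : 0 ≤ ρ)
    (hstep : ∀ a : ℕ, dist (V a) (V (a + 1)) ≤ δ) (m : ℕ) :
    (∃ m' ≤ m, polyLoop V p h ∈ Loop.Cut (ρ + δ) m') ∨
      ∃ i : ℕ → ℕ, (∀ j < m, i j < i (j + 1)) ∧ i m < p ∧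
        ∀ j < m, ρ < dist (V (i j)) (V (i (j + 1))) := by
  classical
  have hδ : 0 ≤ δ := dist_nonneg.trans (hstep 0)
  have hp' : (0 : ℝ) < p := by positivity
  obtain ⟨J, hJ, hmin⟩ : ∃ J, gs V p ρ J = p ∧ ∀ j < J, gs V p ρ j < p :=
    ⟨Nat.find exists_gs, Nat.find_spec exists_gs, fun j hj =>
      lt_of_le_of_ne (gs_le j) (Nat.find_min exists_gs hj)⟩
  rcases Nat.lt_or_ge m J with hmJ | hmJ
  · right
    refine ⟨gs V p ρ, fun j hj => ?_, hmin m hmJ, fun j hj => ?_⟩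
    · rw [gs_succ]
      exact lt_nx (hmin j (hj.trans hmJ))
    · rw [gs_succ]
      refine nx_far ?_
      rw [← gs_succ]
      exact hmin _ (lt_of_le_of_lt hj hmJ)
  · left
    have hJ0 : 0 < J := by
      rcases Nat.eq_zero_or_pos J with h0 | h0
      · rw [h0] at hJ
        have : gs V p ρ 0 = 0 := rfl
        omega
      · exact h0
    refine ⟨J, hmJ, Loop.mem_cut_of_nat hJ0 (fun j => (gs V p ρ j : ℝ) / p) (fun j hj => ?_) ?_
      fun j hj x hx => ?_⟩
    · refine div_lt_div_of_pos_right ?_ hp'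
      rw [gs_succ]
      exact_mod_cast lt_nx (hmin j hj)
    · have h0 : gs V p ρ 0 = 0 := rfl
      simp only [hJ, h0, Nat.cast_zero, zero_div, zero_add]
      exact div_self hp'.ne'
    · rw [polyLoop_f, polyLoop_f, mul_div_cancel₀ _ hp'.ne']
      have e1 : poly V (gs V p ρ j : ℝ) = V (gs V p ρ j : ℤ) := by
        have := poly_int V (gs V p ρ j : ℤ)
        exact_mod_cast this
      rw [e1]
      have hx1 := hx.1
      have hx2 := hx.2
      rw [div_le_iff₀ hp'] at hx1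
      rw [le_div_iff₀ hp'] at hx2
      refine poly_near (a := gs V p ρ j) (b := gs V p ρ (j + 1)) (fun c hc1 hc2 => ?_)
        ⟨by linarith, by linarith⟩
      rcases hc2.lt_or_eq with hc2 | hc2
      · rw [gs_succ] at hc2
        have := nx_near hρ hc1 hc2
        linarith
      · have hlt : gs V p ρ j < c := by
          rw [hc2, gs_succ]
          exact lt_nx (hmin j hj)
        obtain ⟨c', rfl⟩ : ∃ c', c = c' + 1 := ⟨c - 1, by omega⟩
        have h1 : dist (V (gs V p ρ j : ℤ)) (V (c' : ℤ)) ≤ ρ := by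
          refine nx_near (p := p) hρ (by omega) ?_
          rw [← gs_succ, ← hc2]
          exact Nat.lt_succ_self c'
        have h2 := hstep c'
        have h3 := dist_triangle (V (gs V p ρ j : ℤ)) (V (c' : ℤ)) (V ((c' : ℤ) + 1))
        push_cast
        linarith

end Pool.Agent.PercD

end PartpercDPolyCut
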