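import Pool.Agent.Lib.MP_6bd702_z.Z038

/-!
# Landing of the tubes at a far tip on the east side (task LowLandE)

`land_east_a`: let `(u₁, v₁)` be the crossing of the upper rectangle, `z` its common vertex with the
tube (`meet_cross`), then through the left rectangle and the lower rectangle (two more
`meet_cross`) to a vertex `z'` on the line `X = x₁` below the tip; so `z` and `z'` are connected in
`ξ` in the union `G₀` of the three rectangles. Apply `land` (`CoreB.lean`) with `pₙ = z`,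
`p₀ = z'`, `χ w = if w ∈ closed rectangle then (potR w = potR u) else h < w.2`. `hG` of `land`: the
faces of `G₀` outside the rectangle never lie in the row `h` (they are right of `x₁` and above or
below it, or above the top side or below the bottom side), their corners in the closed rectangle
are boundary vertices within distance `4 r` of the tip: `farTip_up`, `farTip_down`. The tube itself
is outside the rectangle, so its path from `u'` to `z` is in the zone off `SS`.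
The tip `(x₁, h, true)` is in `MM`, so `potR (x₁, h + 1) = potR u` (`MM_pot`, parity) and
`potR (x₁, h) = potR v`, different (`potR_joins`).
-/

set_option autoImplicit false

namespace Pool.Agent.PercL

open Finset Pool.Agent.Perc

section
variable {ω : Cfg} {x₀ x₁ y₀ y₁ : ℤ} {e : UE}

/-- The corners above the tip of a face outside the rectangle. -/
theorem cor_up {h ρ : ℤ} (hfar : FarTip ω x₀ x₁ y₀ y₁ e ρ (x₁, h, true)) (hx : x₀ + ρ < x₁)
    (hρ : 1 ≤ ρ) {g w : ℤ × ℤ} (hg : g ∉ (RF x₀ x₁ y₀ y₁ : Set (ℤ × ℤ))) (h1 : x₁ - ρ ≤ g.1)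
    (h2 : h < g.2) (h3 : g.2 < h + ρ) (hw : IsCor g w) (hR : InR x₀ x₁ y₀ y₁ w) :
    potR ω x₀ x₁ y₀ y₁ e w = potR ω x₀ x₁ y₀ y₁ e (x₁, h + 1) := by
  have hb := hfar.2.1
  have hh : y₀ ≤ h ∧ h < y₁ := by unfold BdE at hb; simp at hb; exact hb
  rw [mem_RF'] at hg
  unfold IsCor at hw
  unfold InR at hR
  exact farTip_up hfar (by omega) (by omega) (by unfold OnBd; omega)
    (by unfold Wi; simp only; omega) (by omega)

/-- The corners below the tip of a face outside the rectangle. -/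
theorem cor_down {h ρ : ℤ} (hfar : FarTip ω x₀ x₁ y₀ y₁ e ρ (x₁, h, true)) (hx : x₀ + ρ < x₁)
    (hρ : 1 ≤ ρ) {g w : ℤ × ℤ} (hg : g ∉ (RF x₀ x₁ y₀ y₁ : Set (ℤ × ℤ))) (h1 : x₁ - ρ ≤ g.1)
    (h2 : g.2 < h) (h3 : h - ρ ≤ g.2) (hw : IsCor g w) (hR : InR x₀ x₁ y₀ y₁ w) :
    potR ω x₀ x₁ y₀ y₁ e w = potR ω x₀ x₁ y₀ y₁ e (x₁, h) := by
  have hb := hfar.2.1
  have hh : y₀ ≤ h ∧ h < y₁ := by unfold BdE at hb; simp at hb; exact hb
  rw [mem_RF'] at hg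
  unfold IsCor at hw
  unfold InR at hR
  exact farTip_down hfar (by omega) (by omega) (by unfold OnBd; omega)
    (by unfold Wi; simp only; omega) (by omega) hρ

end

/-- The parity of the upper vertex of the tip, outer turn. -/
theorem land_east_a {ω ξ : Cfg} {x₀ x₁ y₀ y₁ : ℤ} {e : UE} {u v : ℤ × ℤ} (he : Joins e u v)
    (hu : InR x₀ x₁ y₀ y₁ u) (hv : InR x₀ x₁ y₀ y₁ v) {h r t a : ℤ} (hr : 1 ≤ r)
    (hx : x₀ + 8 * r < x₁) (hy : y₀ + 8 * r < y₁)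
    (hfar : FarTip ω x₀ x₁ y₀ y₁ e (4 * r) (x₁, h, true))
    (hpar : par (x₁, h + 1) = par u) (ha : (u.1 + u.2 - a) % 2 = 0) (ht : h + 4 * r ≤ t)
    (hT : ξ ∈ LR a (x₁ - 4 * r) (x₁ + 5 * r) (h + 3 * r) (h + 4 * r))
    (hL : ξ ∈ BT a (x₁ - 4 * r) (x₁ - 3 * r) (h - 4 * r) (h + 4 * r))
    (hB : ξ ∈ LR a (x₁ - 4 * r) x₁ (h - 4 * r) (h - 3 * r)) {u' v' : ℤ × ℤ}
    (hu' : u'.2 = h + 3 * r ∧ x₁ + 4 * r ≤ u'.1 ∧ u'.1 ≤ x₁ + 5 * r) (hv' : v'.2 = t)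
    (hpar' : (u'.1 + u'.2 - a) % 2 = 0)
    (hc : Conn ξ (RF (x₁ + 4 * r) (x₁ + 5 * r) (h + 3 * r) t) u' v') :
    ∃ w, Conn ω (SS ω (RF x₀ x₁ y₀ y₁) e) u w ∧
      Conn ξ ((RF (x₁ - 4 * r) (x₁ + 5 * r) (h - 4 * r) t : Set (ℤ × ℤ)) \
        SS ω (RF x₀ x₁ y₀ y₁) e) w u' := by
  obtain ⟨p, q, p1, p2, p3, p4, p5, p6⟩ := hT
  obtain ⟨p', q', l1, l2, l3, l4, l5, l6⟩ := hL
  obtain ⟨p'', q'', b1, b2, b3, b4, b5, b6⟩ := hB
  obtain ⟨z, z1, z2, z3, z4, z5, z6⟩ := meet_cross (x₀' := x₁ + 4 * r) (x₁' := x₁ + 5 * r)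
    (y₀' := h + 3 * r) (y₁' := t) (by omega) (by omega) le_rfl le_rfl (by omega) ht ⟨p1, p2, p3⟩
    p4 hu' hv' (by omega) p6 hc
  obtain ⟨c, c1, c2, -⟩ := meet_cross (x₀' := x₁ - 4 * r) (x₁' := x₁ - 3 * r)
    (y₀' := h - 4 * r) (y₁' := h + 4 * r) (by omega) (by omega) (by omega) (by omega) (by omega)
    le_rfl ⟨p1, p2, p3⟩ p4 ⟨l1, l2, l3⟩ l4 (by omega) p6 l6
  obtain ⟨c', d1, d2, -⟩ := meet_cross (x₀' := x₁ - 4 * r) (x₁' := x₁ - 3 * r)
    (y₀' := h - 4 * r) (y₁' := h + 4 * r) (by omega) (by omega) (by omega) (by omega) (by omega)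
    (by omega) ⟨b1, b2, b3⟩ b4 ⟨l1, l2, l3⟩ l4 (by omega) b6 l6
  have hb := hfar.2.1
  have hh : y₀ ≤ h ∧ h < y₁ := by unfold BdE at hb; simp at hb; exact hb
  -- the faces of the turn
  set G₀ : Set (ℤ × ℤ) := {f | f ∈ RF (x₁ - 4 * r) (x₁ + 5 * r) (h + 3 * r) (h + 4 * r) ∨
    f ∈ RF (x₁ - 4 * r) (x₁ - 3 * r) (h - 4 * r) (h + 4 * r) ∨
    f ∈ RF (x₁ - 4 * r) x₁ (h - 4 * r) (h - 3 * r)} with hG₀
  have k1 : Conn ξ G₀ q'' p'' := b6.symm.mono fun f hf => Or.inr (Or.inr hf)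
  have k2 : Conn ξ G₀ p'' c' := d1.mono fun f hf => Or.inr (Or.inr hf)
  have k3 : Conn ξ G₀ c' p' := d2.symm.mono fun f hf => Or.inr (Or.inl hf)
  have k4 : Conn ξ G₀ p' c := c2.mono fun f hf => Or.inr (Or.inl hf)
  have k5 : Conn ξ G₀ c p := c1.symm.mono fun f hf => Or.inl hf
  have k6 : Conn ξ G₀ p z := z1.mono fun f hf => Or.inl hf
  have kk : Conn ξ G₀ q'' z := k1.trans (k2.trans (k3.trans (k4.trans (k5.trans k6))))
  have hpot := MM_pot (x₀ := x₀) (x₁ := x₁) (y₀ := y₀) (y₁ := y₁) he hfar.1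
    (p := (x₁, h + 1)) (q := (x₁, h)) (Or.inr ⟨by simp [ub], by simp [ua]⟩) hpar
  have hne : potR ω x₀ x₁ y₀ y₁ e u ≠ potR ω x₀ x₁ y₀ y₁ e v := (potR_joins he hu hv).1 mem_MM_self
  have hzp := Conn.parity z1
  obtain ⟨w, w1, w2⟩ := land (ω := ω) (x₀ := x₀) (x₁ := x₁) (y₀ := y₀) (y₁ := y₁) he hu hv
    (fun w => (InR x₀ x₁ y₀ y₁ w → potR ω x₀ x₁ y₀ y₁ e w = potR ω x₀ x₁ y₀ y₁ e u) ∧
      (¬ InR x₀ x₁ y₀ y₁ w → h < w.2))
    (fun w hw => ⟨fun h => h.1 hw, fun h => ⟨fun _ => h, fun h' => absurd hw h'⟩⟩)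
    (by
      intro g hg hgR
      have hcase : (x₁ - 4 * r ≤ g.1 ∧ h < g.2 ∧ g.2 < h + 4 * r) ∨
          (x₁ - 4 * r ≤ g.1 ∧ g.2 < h ∧ h - 4 * r ≤ g.2) := by
        have hgR' := hgR
        rw [mem_RF'] at hgR'
        rcases hg with hg | hg | hg <;> rw [← Finset.mem_coe, mem_RF'] at hg <;> omega
      rcases hcase with ⟨g1, g2, g3⟩ | ⟨g1, g2, g3⟩
      · have key : ∀ w, IsCor g w →
            ((InR x₀ x₁ y₀ y₁ w → potR ω x₀ x₁ y₀ y₁ e w = potR ω x₀ x₁ y₀ y₁ e u) ∧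
              (¬ InR x₀ x₁ y₀ y₁ w → h < w.2)) := fun w hw =>
          ⟨fun hR => (cor_up hfar (by omega) (by omega) hgR g1 g2 g3 hw hR).trans hpot.1,
            fun _ => by unfold IsCor at hw; omega⟩
        exact fun w w' hw hw' => iff_of_true (key w hw) (key w' hw')
      · have key : ∀ w, IsCor g w →
            ¬ ((InR x₀ x₁ y₀ y₁ w → potR ω x₀ x₁ y₀ y₁ e w = potR ω x₀ x₁ y₀ y₁ e u) ∧
              (¬ InR x₀ x₁ y₀ y₁ w → h < w.2)) := by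
          intro w hw hcon
          by_cases hR : InR x₀ x₁ y₀ y₁ w
          · have h1 := cor_down hfar (by omega) (by omega) hgR g1 g2 g3 hw hR
            exact hne ((hcon.1 hR).symm.trans (h1.trans hpot.2))
          · have h1 := hcon.2 hR
            unfold IsCor at hw
            omega
        exact fun w w' hw hw' => iff_of_false (key w hw) (key w' hw'))
    (p₀ := q'') (pₙ := z) (by unfold par at *; simp only at *; omega) kk
    (by
      rintro ⟨hc1, hc2⟩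
      have hq := b6.mem_rect ⟨by omega, by omega, b2, b3⟩
      by_cases hR : InR x₀ x₁ y₀ y₁ q''
      · have hqq := hR
        unfold InR at hqq
        have h1 := farTip_down hfar (by omega) (by omega) (w := q'') (by unfold OnBd; omega)
          (by unfold Wi; simp only; omega) (by omega) (by omega)
        exact hne ((hc1 hR).symm.trans (h1.trans hpot.2))
      · have h1 := hc2 hR
        omega)
    (by
      constructor
      · intro hR; unfold InR at hR; omega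
      · intro _; omega)
  refine ⟨w, w1, ?_⟩
  refine (w2.mono ?_).trans (z2.symm.mono ?_)
  · rintro f ⟨hf, hfS⟩
    refine ⟨?_, hfS⟩
    rw [mem_RF']
    rcases hf with hf | hf | hf <;> rw [← Finset.mem_coe, mem_RF'] at hf <;> omega
  · intro f hf
    rw [mem_RF'] at hf
    refine ⟨by rw [mem_RF']; omega, fun hfS => ?_⟩
    have := mem_RF'.1 hfS.1
    omega

/-- The parity of the lower vertex of the tip, inner turn. -/
theorem land_east_b {ω ξ : Cfg} {x₀ x₁ y₀ y₁ : ℤ} {e : UE} {u v : ℤ × ℤ} (he : Joins e u v)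
    (hu : InR x₀ x₁ y₀ y₁ u) (hv : InR x₀ x₁ y₀ y₁ v) {h r t b : ℤ} (hr : 1 ≤ r)
    (hx : x₀ + 8 * r < x₁) (hy : y₀ + 8 * r < y₁)
    (hfar : FarTip ω x₀ x₁ y₀ y₁ e (4 * r) (x₁, h, true))
    (hpar : par (x₁, h) = par u) (hb : (u.1 + u.2 - b) % 2 = 0) (ht : h - r ≤ t)
    (hT : ξ ∈ LR b (x₁ - 2 * r) (x₁ + 8 * r) (h - 2 * r) (h - r))
    (hL : ξ ∈ BT b (x₁ - 2 * r) (x₁ - r) (h - 2 * r) (h + 2 * r))
    (hB : ξ ∈ LR b (x₁ - 2 * r) x₁ (h + r) (h + 2 * r)) {u' v' : ℤ × ℤ}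
    (hu' : u'.2 = h - 2 * r ∧ x₁ + 7 * r ≤ u'.1 ∧ u'.1 ≤ x₁ + 8 * r) (hv' : v'.2 = t)
    (hpar' : (u'.1 + u'.2 - b) % 2 = 0)
    (hc : Conn ξ (RF (x₁ + 7 * r) (x₁ + 8 * r) (h - 2 * r) t) u' v') :
    ∃ w, Conn ω (SS ω (RF x₀ x₁ y₀ y₁) e) u w ∧
      Conn ξ ((RF (x₁ - 4 * r) (x₁ + 8 * r) (h - 4 * r) (max t (h + 4 * r)) : Set (ℤ × ℤ)) \
        SS ω (RF x₀ x₁ y₀ y₁) e) w u' := by
  obtain ⟨p, q, p1, p2, p3, p4, p5, p6⟩ := hT
  obtain ⟨p', q', l1, l2, l3, l4, l5, l6⟩ := hL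
  obtain ⟨p'', q'', b1, b2, b3, b4, b5, b6⟩ := hB
  obtain ⟨z, z1, z2, z3, z4, z5, z6⟩ := meet_cross (x₀' := x₁ + 7 * r) (x₁' := x₁ + 8 * r)
    (y₀' := h - 2 * r) (y₁' := t) (by omega) (by omega) le_rfl le_rfl (by omega) ht ⟨p1, p2, p3⟩
    p4 hu' hv' (by omega) p6 hc
  obtain ⟨c, c1, c2, -⟩ := meet_cross (x₀' := x₁ - 2 * r) (x₁' := x₁ - r)
    (y₀' := h - 2 * r) (y₁' := h + 2 * r) (by omega) (by omega) (by omega) (by omega) (by omega)
    (by omega) ⟨p1, p2, p3⟩ p4 ⟨l1, l2, l3⟩ l4 (by omega) p6 l6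
  obtain ⟨c', d1, d2, -⟩ := meet_cross (x₀' := x₁ - 2 * r) (x₁' := x₁ - r)
    (y₀' := h - 2 * r) (y₁' := h + 2 * r) (by omega) (by omega) (by omega) (by omega) (by omega)
    (by omega) ⟨b1, b2, b3⟩ b4 ⟨l1, l2, l3⟩ l4 (by omega) b6 l6
  have hbb := hfar.2.1
  have hh : y₀ ≤ h ∧ h < y₁ := by unfold BdE at hbb; simp at hbb; exact hbb
  set G₀ : Set (ℤ × ℤ) := {f | f ∈ RF (x₁ - 2 * r) (x₁ + 8 * r) (h - 2 * r) (h - r) ∨
    f ∈ RF (x₁ - 2 * r) (x₁ - r) (h - 2 * r) (h + 2 * r) ∨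
    f ∈ RF (x₁ - 2 * r) x₁ (h + r) (h + 2 * r)} with hG₀
  have k1 : Conn ξ G₀ q'' p'' := b6.symm.mono fun f hf => Or.inr (Or.inr hf)
  have k2 : Conn ξ G₀ p'' c' := d1.mono fun f hf => Or.inr (Or.inr hf)
  have k3 : Conn ξ G₀ c' p' := d2.symm.mono fun f hf => Or.inr (Or.inl hf)
  have k4 : Conn ξ G₀ p' c := c2.mono fun f hf => Or.inr (Or.inl hf)
  have k5 : Conn ξ G₀ c p := c1.symm.mono fun f hf => Or.inl hf
  have k6 : Conn ξ G₀ p z := z1.mono fun f hf => Or.inl hf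
  have kk : Conn ξ G₀ q'' z := k1.trans (k2.trans (k3.trans (k4.trans (k5.trans k6))))
  have hpot := MM_pot (x₀ := x₀) (x₁ := x₁) (y₀ := y₀) (y₁ := y₁) he hfar.1
    (p := (x₁, h)) (q := (x₁, h + 1)) (Or.inl ⟨by simp [ua], by simp [ub]⟩) hpar
  have hne : potR ω x₀ x₁ y₀ y₁ e u ≠ potR ω x₀ x₁ y₀ y₁ e v := (potR_joins he hu hv).1 mem_MM_self
  have hzp := Conn.parity z1
  obtain ⟨w, w1, w2⟩ := land (ω := ω) (x₀ := x₀) (x₁ := x₁) (y₀ := y₀) (y₁ := y₁) he hu hv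
    (fun w => (InR x₀ x₁ y₀ y₁ w → potR ω x₀ x₁ y₀ y₁ e w = potR ω x₀ x₁ y₀ y₁ e u) ∧
      (¬ InR x₀ x₁ y₀ y₁ w → w.2 ≤ h))
    (fun w hw => ⟨fun h => h.1 hw, fun h => ⟨fun _ => h, fun h' => absurd hw h'⟩⟩)
    (by
      intro g hg hgR
      have hcase : (x₁ - 4 * r ≤ g.1 ∧ h < g.2 ∧ g.2 < h + 4 * r) ∨
          (x₁ - 4 * r ≤ g.1 ∧ g.2 < h ∧ h - 4 * r ≤ g.2) := by
        have hgR' := hgR
        rw [mem_RF'] at hgR'
        rcases hg with hg | hg | hg <;> rw [← Finset.mem_coe, mem_RF'] at hg <;> omega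
      rcases hcase with ⟨g1, g2, g3⟩ | ⟨g1, g2, g3⟩
      · have key : ∀ w, IsCor g w →
            ¬ ((InR x₀ x₁ y₀ y₁ w → potR ω x₀ x₁ y₀ y₁ e w = potR ω x₀ x₁ y₀ y₁ e u) ∧
              (¬ InR x₀ x₁ y₀ y₁ w → w.2 ≤ h)) := by
          intro w hw hcon
          by_cases hR : InR x₀ x₁ y₀ y₁ w
          · have h1 := cor_up hfar (by omega) (by omega) hgR g1 g2 g3 hw hR
            exact hne ((hcon.1 hR).symm.trans (h1.trans hpot.2))
          · have h1 := hcon.2 hR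
            unfold IsCor at hw
            omega
        exact fun w w' hw hw' => iff_of_false (key w hw) (key w' hw')
      · have key : ∀ w, IsCor g w →
            ((InR x₀ x₁ y₀ y₁ w → potR ω x₀ x₁ y₀ y₁ e w = potR ω x₀ x₁ y₀ y₁ e u) ∧
              (¬ InR x₀ x₁ y₀ y₁ w → w.2 ≤ h)) := fun w hw =>
          ⟨fun hR => (cor_down hfar (by omega) (by omega) hgR g1 g2 g3 hw hR).trans hpot.1,
            fun _ => by unfold IsCor at hw; omega⟩
        exact fun w w' hw hw' => iff_of_true (key w hw) (key w' hw'))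
    (p₀ := q'') (pₙ := z) (by unfold par at *; simp only at *; omega) kk
    (by
      rintro ⟨hc1, hc2⟩
      have hq := b6.mem_rect ⟨by omega, by omega, b2, b3⟩
      by_cases hR : InR x₀ x₁ y₀ y₁ q''
      · have hqq := hR
        unfold InR at hqq
        have h1 := farTip_up hfar (by omega) (by omega) (w := q'') (by unfold OnBd; omega)
          (by unfold Wi; simp only; omega) (by omega)
        exact hne ((hc1 hR).symm.trans (h1.trans hpot.2))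
      · have h1 := hc2 hR
        omega)
    (by
      constructor
      · intro hR; unfold InR at hR; omega
      · intro _; omega)
  refine ⟨w, w1, ?_⟩
  refine (w2.mono ?_).trans (z2.symm.mono ?_)
  · rintro f ⟨hf, hfS⟩
    refine ⟨?_, hfS⟩
    rw [mem_RF']
    rcases hf with hf | hf | hf <;> rw [← Finset.mem_coe, mem_RF'] at hf <;> omega
  · intro f hf
    rw [mem_RF'] at hf
    refine ⟨by rw [mem_RF']; omega, fun hfS => ?_⟩
    have := mem_RF'.1 hfS.1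
    omega

end Pool.Agent.PercL
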