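import Pool.Agent.Lib.MP_6bd702_z.Z015
import Pool.Agent.Lib.MP_6bd702_z.Z013
import Pool.Agent.Lib.MP_6bd702_z.Z005

/-!
# The expected perimeter of the largest cluster is at most of order `n ^ (7 / 4)`
-/

set_option autoImplicit false

namespace Pool.Agent.PercX60

open Pool.Agent.Perc Pool.Agent.PercU Finset
open Pool.Agent.MP_6bd702.H23 (Ed ea eb EW HC mem_EW Rect mem_Rect)
open Pool.Agent.PercO (Kc Tc Oc sd clV_eq clS_eq boxE_sub finite_Kc ea_mem eb_mem)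

/-! ### Independence -/

theorem DepOn.mono' {S S' : Finset (ℤ × ℤ)} {A : Set Cfg} (h : S ⊆ S') (hA : DepOn S A) :
    DepOn S' A := fun ω ω' hω => hA ω ω' fun f hf => hω f (h hf)

theorem DepOn.inter' {S : Set (ℤ × ℤ)} {A B : Set Cfg} (hA : DepOn S A) (hB : DepOn S B) :
    DepOn S (A ∩ B) := fun ω ω' hω => and_congr (hA ω ω' hω) (hB ω ω' hω)

/-- Events of disjoint windows. -/
theorem pr_prod {ι : Type} [DecidableEq ι] (J : Finset ι) (W : ι → Finset (ℤ × ℤ))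
    (N : ι → Set Cfg) {W₀ : Finset (ℤ × ℤ)} {A₀ : Set Cfg} (h₀ : DepOn W₀ A₀)
    (hN : ∀ i ∈ J, DepOn (W i) (N i)) (hd₀ : ∀ i ∈ J, Disjoint W₀ (W i))
    (hd : ∀ i ∈ J, ∀ j ∈ J, i ≠ j → Disjoint (W i) (W j)) :
    pr (W₀ ∪ J.biUnion W) {ω | ω ∈ A₀ ∧ ∀ i ∈ J, ω ∈ N i} = pr W₀ A₀ * ∏ i ∈ J, pr (W i) (N i) ∧
      DepOn (W₀ ∪ J.biUnion W : Finset (ℤ × ℤ)) {ω | ω ∈ A₀ ∧ ∀ i ∈ J, ω ∈ N i} := by
  induction J using Finset.induction_on with
  | empty =>
    have e : {ω : Cfg | ω ∈ A₀ ∧ ∀ i ∈ (∅ : Finset ι), ω ∈ N i} = A₀ := by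
      ext ω
      simp
    rw [e, Finset.biUnion_empty, Finset.union_empty, Finset.prod_empty, mul_one]
    exact ⟨rfl, h₀⟩
  | insert a J ha ih =>
    obtain ⟨h1, h2⟩ := ih (fun i hi => hN i (Finset.mem_insert_of_mem hi))
      (fun i hi => hd₀ i (Finset.mem_insert_of_mem hi))
      (fun i hi j hj => hd i (Finset.mem_insert_of_mem hi) j (Finset.mem_insert_of_mem hj))
    have hset : {ω : Cfg | ω ∈ A₀ ∧ ∀ i ∈ insert a J, ω ∈ N i} =
        {ω | ω ∈ A₀ ∧ ∀ i ∈ J, ω ∈ N i} ∩ N a := by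
      ext ω
      simp only [Set.mem_ofPred_eq, Finset.forall_mem_insert, Set.mem_inter_iff]
      tauto
    have hW : W₀ ∪ (insert a J).biUnion W = (W₀ ∪ J.biUnion W) ∪ W a := by
      rw [Finset.biUnion_insert, Finset.union_assoc, Finset.union_comm (W a)]
    have hdis : Disjoint (W₀ ∪ J.biUnion W) (W a) := by
      rw [Finset.disjoint_union_left, Finset.disjoint_biUnion_left]
      refine ⟨hd₀ a (Finset.mem_insert_self a J), fun i hi => ?_⟩
      exact hd i (Finset.mem_insert_of_mem hi) a (Finset.mem_insert_self a J)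
        (fun h => ha (h ▸ hi))
    have hNa := hN a (Finset.mem_insert_self a J)
    rw [hset, hW]
    constructor
    · rw [pr_inter_of_disjoint h2 hNa hdis, h1, Finset.prod_insert ha]
      ring
    · exact DepOn.inter' (DepOn.mono' Finset.subset_union_left h2)
        (DepOn.mono' Finset.subset_union_right hNa)

/-! ### Crossings of squares -/

/-- No left-right crossing of a rectangle. -/
def NC' (n : ℕ) (a b c d : ℤ) : Set Cfg := {ω | ¬ HC a b c d (cfgE n ω : Set Ed)}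

/-- The window of a rectangle. -/
noncomputable def Wi (a b c d : ℤ) : Finset (ℤ × ℤ) := (EW a b c d).image phiE

theorem depOn_NC {n : ℕ} {a b c d : ℤ} : DepOn (Wi a b c d : Set (ℤ × ℤ)) (NC' n a b c d) := by
  intro ω ω' h
  have hloc := Pool.Agent.MP_6bd702.H23.HC_loc a b c d
  have h1 : (cfgE n ω : Set Ed) ∩ (EW a b c d : Set Ed) =
      (cfgE n ω' : Set Ed) ∩ (EW a b c d : Set Ed) := by
    ext e
    simp only [Set.mem_inter_iff, Finset.mem_coe, DictB.mem_cfgE]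
    constructor
    · rintro ⟨⟨h2, h3⟩, h4⟩
      exact ⟨⟨h2, by rw [← h _ (Finset.mem_image_of_mem _ h4)]; exact h3⟩, h4⟩
    · rintro ⟨⟨h2, h3⟩, h4⟩
      exact ⟨⟨h2, by rw [h _ (Finset.mem_image_of_mem _ h4)]; exact h3⟩, h4⟩
  have h2 := hloc (cfgE n ω : Set Ed)
  have h3 := hloc (cfgE n ω' : Set Ed)
  rw [h1] at h2
  exact not_congr (h2.trans h3.symm)

theorem pr_NC_le {n : ℕ} {a b c d : ℤ} (hsub : EW a b c d ⊆ boxE n) (hab : 0 < b - a)
    (hsq : b - a = d - c) : pr (Wi a b c d) (NC' n a b c d) ≤ 1 / 2 := by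
  have h1 : pr (Wi a b c d) (NC' n a b c d) = pr (Sn n) (NC' n a b c d) :=
    (pr_eq_of_depOn depOn_NC (Finset.image_subset_image hsub)).symm
  have h2 : pr (Sn n) (NC' n a b c d) = prB n {T | ¬ HC a b c d (T : Set Ed)} := by
    rw [← pr_Sn]
    rfl
  rw [h1, h2, SmallClusters.prB_eq]
  have h3 : Pool.Agent.MP_6bd702.H23.pr (boxE n)
      {ω | ∃ T ∈ {T : Finset Edg | ¬ HC a b c d (T : Set Ed)}, (T : Set Edg) = ω} ≤
      Pool.Agent.MP_6bd702.H23.pr (boxE n) {ω | HC a b c d ω}ᶜ := by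
    refine Pool.Agent.MP_6bd702.H23.pr_mono ?_
    rintro ω ⟨T, hT, rfl⟩
    exact hT
  refine h3.trans ?_
  rw [Pool.Agent.MP_6bd702.H23.pr_compl, Pool.Agent.MP_6bd702.H23.pr_hc_window hsub, ← hsq]
  have := Pool.Agent.MP_6bd702.H23.hp_square hab
  linarith

/-- The faces of a ball have edges near the corner. -/
theorem ball_x {k : Cor} {R : ℤ} {f : ℤ × ℤ}
    (hf : f ∈ RF ((gB k).1 - R) ((gB k).1 + R) ((gB k).2 - R) ((gB k).2 + R)) :
    (vtx k).1 - (R + 1) ≤ (eE f).1 ∧ (eE f).1 ≤ (vtx k).1 + (R + 1) := by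
  have hB : (gB k).1 ≤ (gV k).1 ∧ (gV k).1 ≤ (gB k).1 + 1 ∧ (gB k).2 ≤ (gV k).2 ∧
      (gV k).2 ≤ (gB k).2 + 1 := by
    rcases g_cases k with ⟨h1, h2⟩ | ⟨h1, h2⟩ | ⟨h1, h2⟩ | ⟨h1, h2⟩
    · rw [h1]; omega
    · rw [h2]; simp only; omega
    · rw [h1]; omega
    · rw [h2]; simp only; omega
  obtain ⟨X, Y⟩ := f
  simp only [RF, Finset.mem_product, Finset.mem_Ico] at hf
  have hV : (gV k).1 = (vtx k).1 + (vtx k).2 ∧ (gV k).2 = (vtx k).1 - (vtx k).2 := ⟨rfl, rfl⟩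
  unfold eE
  by_cases h : (X + Y) % 2 = 0
  · simp only [h, if_true]
    omega
  · simp only [h, if_false]
    omega

/-- The squares of the bottom row. -/
theorem square_sub {n s K : ℕ} (hs : 1 ≤ s) (hK : K * s ≤ n + 1) {i : ℕ} (hi : i < K) :
    EW ((i : ℤ) * s) (i * s + s - 1) 0 (s - 1) ⊆ boxE n := by
  rw [SmallClusters.boxE_eq]
  have h1 : (i + 1) * s ≤ K * s := Nat.mul_le_mul_right s (by omega)
  have h2 : 1 * s ≤ K * s := Nat.mul_le_mul_right s (by omega)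
  have h3 : ((i : ℤ) + 1) * s ≤ n + 1 := by exact_mod_cast h1.trans hK
  have h4 : (s : ℤ) ≤ n + 1 := by
    have : s ≤ n + 1 := by omega
    exact_mod_cast this
  have h5 : (0 : ℤ) ≤ (i : ℤ) * s := by positivity
  exact Pool.Agent.MP_6bd702.H23.EW_sub h5 (by linarith) le_rfl (by linarith)

theorem pr_squares {n s K : ℕ} (hs : 2 ≤ s) (hK : K * s ≤ n + 1) (J : Finset ℕ)
    (hJ : ∀ i ∈ J, i < K) {W₀ : Finset (ℤ × ℤ)} {A₀ : Set Cfg} (h₀ : DepOn W₀ A₀)
    (hW₀ : W₀ ⊆ Sn n)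
    (hd₀ : ∀ i ∈ J, Disjoint W₀ (Wi ((i : ℤ) * s) (i * s + s - 1) 0 (s - 1))) :
    pr (Sn n) {ω | ω ∈ A₀ ∧ ∀ i ∈ J, ω ∈ NC' n ((i : ℤ) * s) (i * s + s - 1) 0 (s - 1)} ≤
      pr W₀ A₀ * (1 / 2) ^ J.card := by
  obtain ⟨h1, h2⟩ := pr_prod J (fun i : ℕ => Wi ((i : ℤ) * s) (i * s + s - 1) 0 (s - 1))
    (fun i : ℕ => NC' n ((i : ℤ) * s) (i * s + s - 1) 0 (s - 1)) h₀ (fun i _ => depOn_NC) hd₀
    (by
      intro i _ j _ hij
      rw [Finset.disjoint_left]
      intro f hf hf'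
      obtain ⟨e, he, rfl⟩ := Finset.mem_image.1 hf
      obtain ⟨e', he', h⟩ := Finset.mem_image.1 hf'
      have he'' := phiE_injective h
      subst he''
      have h3 := (mem_EW.1 he).1
      have h4 := (mem_EW.1 he').1
      rw [mem_Rect] at h3 h4
      obtain ⟨h5, h6, -, -⟩ := h3
      obtain ⟨h7, h8, -, -⟩ := h4
      rcases Nat.lt_or_gt_of_ne hij with h9 | h9
      · have h10 : ((i : ℤ) + 1) * s ≤ j * s :=
          mul_le_mul_of_nonneg_right (by exact_mod_cast h9) (by positivity)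
        linarith
      · have h10 : ((j : ℤ) + 1) * s ≤ i * s :=
          mul_le_mul_of_nonneg_right (by exact_mod_cast h9) (by positivity)
        linarith)
  have hsub : W₀ ∪ J.biUnion (fun i : ℕ => Wi ((i : ℤ) * s) (i * s + s - 1) 0 (s - 1)) ⊆ Sn n := by
    refine Finset.union_subset hW₀ (Finset.biUnion_subset.2 fun i hi => ?_)
    exact Finset.image_subset_image (square_sub (by omega) hK (hJ i hi))
  rw [pr_eq_of_depOn h2 hsub, h1]
  refine mul_le_mul_of_nonneg_left ?_ (pr_nonneg _ _)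
  calc _ ≤ ∏ _i ∈ J, (1 / 2 : ℝ) := by
        refine Finset.prod_le_prod (fun i _ => pr_nonneg _ _) fun i hi => ?_
        have hs' : (2 : ℤ) ≤ s := by exact_mod_cast hs
        exact pr_NC_le (square_sub (by omega) hK (hJ i hi)) (by linarith) (by ring)
    _ = _ := by rw [Finset.prod_const]

/-- No crossed squares. -/
def Bsq (s K : ℕ) : Set (Finset Edg) :=
  {T | ∀ i < K, ¬ HC ((i : ℤ) * s) (i * s + s - 1) 0 (s - 1) (T : Set Ed)}

theorem half_pow_le (K : ℕ) : (1 / 2 : ℝ) ^ (K - 2) ≤ 4 / (K + 1) := by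
  rcases Nat.lt_or_ge K 2 with h | h
  · rw [show K - 2 = 0 by omega, pow_zero, le_div_iff₀ (by positivity)]
    have : (K : ℝ) ≤ 1 := by exact_mod_cast (by omega : K ≤ 1)
    linarith
  · obtain ⟨m, rfl⟩ := Nat.exists_eq_add_of_le h
    rw [show 2 + m - 2 = m by omega, le_div_iff₀ (by positivity)]
    have h1 := one_add_mul_le_pow (a := (1 : ℝ)) (by norm_num) m
    norm_num at h1
    rw [one_div, inv_pow, inv_mul_le_iff₀ (by positivity)]
    push_cast
    nlinarith [(Nat.cast_nonneg m : (0 : ℝ) ≤ m)]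

theorem prB_Bsq {n s K : ℕ} (hs : 2 ≤ s) (hK : K * s ≤ n + 1) :
    prB n (Bsq s K) ≤ 4 / (K + 1) := by
  rw [← pr_Sn]
  have h := pr_squares hs hK (Finset.range K) (fun i hi => Finset.mem_range.1 hi)
    (W₀ := ∅) (A₀ := Set.univ) (fun _ _ _ => Iff.rfl) (Finset.empty_subset _)
    (fun i _ => Finset.disjoint_empty_left _)
  have h1 : pr (Sn n) {ω | cfgE n ω ∈ Bsq s K} ≤ (1 / 2) ^ K := by
    refine (pr_mono _ fun ω hω => ?_).trans (h.trans ?_)
    · exact ⟨trivial, fun i hi => hω i (Finset.mem_range.1 hi)⟩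
    · rw [Finset.card_range]
      exact mul_le_of_le_one_left (by positivity) (pr_le_one _ _)
  refine h1.trans (le_trans ?_ (half_pow_le K))
  exact pow_le_pow_of_le_one (by norm_num) (by norm_num) (by omega)

theorem pr_scale {n s K : ℕ} (hs : 2 ≤ s) (hK : K * s ≤ n + 1) {k : Cor} {R : ℤ}
    (hRd : R + 1 ≤ dB n (vtx k)) (hRs : 2 * R + 2 ≤ s) :
    pr (Sn n) {ω | ω ∈ TA R k ∧ cfgE n ω ∈ Bsq s K} ≤ 4 / (K + 1) * p2 R := by
  classical
  set j : ℤ := ((vtx k).1 - (R + 1)) / s with hj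
  set J : Finset ℕ := (Finset.range K).filter fun i => (i : ℤ) ≠ j ∧ (i : ℤ) ≠ j + 1 with hJ
  have hs' : (0 : ℤ) < s := by exact_mod_cast (by omega : 0 < s)
  have hj1 : (s : ℤ) * j ≤ (vtx k).1 - (R + 1) := Int.mul_ediv_self_le hs'.ne'
  have hj2 : (vtx k).1 - (R + 1) < s * j + s := Int.lt_mul_ediv_self_add hs'
  have hp2 : 0 ≤ p2 R := pr_nonneg _ _
  have h := pr_squares hs hK J (fun i hi => Finset.mem_range.1 (Finset.mem_filter.1 hi).1)
    (depOn_TA R k) (ball_sub_Sn hRd) (by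
      intro i hi
      rw [Finset.disjoint_left]
      intro f hf hf'
      obtain ⟨e, he, rfl⟩ := Finset.mem_image.1 hf'
      have h1 := ball_x hf
      rw [eE_phiE] at h1
      have h3 := (mem_EW.1 he).1
      rw [mem_Rect] at h3
      obtain ⟨h5, h6, -, -⟩ := h3
      have h5' : (i : ℤ) * s ≤ e.1 := h5
      have h6' : e.1 ≤ (i : ℤ) * s + s - 1 := h6
      have hne := (Finset.mem_filter.1 hi).2
      -- `i ≥ j`
      have h7 : j < i + 1 := by
        by_contra hc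
        have h8 : (s : ℤ) * (i + 1) ≤ s * j := mul_le_mul_of_nonneg_left (by omega) hs'.le
        have h9 : (s : ℤ) * (i + 1) = i * s + s := by ring
        omega
      have h8 : (i : ℤ) < j + 2 := by
        by_contra hc
        have h9 : (s : ℤ) * (j + 2) ≤ s * i := mul_le_mul_of_nonneg_left (by omega) hs'.le
        have h10 : (s : ℤ) * (j + 2) = s * j + s + s := by ring
        have h11 : (s : ℤ) * i = i * s := by ring
        omega
      omega)
  have hcard : K - 2 ≤ J.card := by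
    have h1 : (Finset.range K).card ≤ J.card + ({j.toNat, (j + 1).toNat} : Finset ℕ).card := by
      rw [← Finset.card_union_add_card_inter]
      refine (Finset.card_le_card fun i hi => ?_).trans (Nat.le_add_right _ _)
      by_cases hc : (i : ℤ) ≠ j ∧ (i : ℤ) ≠ j + 1
      · exact Finset.mem_union_left _ (Finset.mem_filter.2 ⟨hi, hc⟩)
      · apply Finset.mem_union_right
        rw [Finset.mem_insert, Finset.mem_singleton]
        omega
    rw [Finset.card_range] at h1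
    have h2 : ({j.toNat, (j + 1).toNat} : Finset ℕ).card ≤ 2 := Finset.card_le_two
    omega
  have h1 : pr (Sn n) {ω | ω ∈ TA R k ∧ cfgE n ω ∈ Bsq s K} ≤
      pr (RF ((gB k).1 - R) ((gB k).1 + R) ((gB k).2 - R) ((gB k).2 + R)) (TA R k) *
        (1 / 2) ^ J.card := by
    refine (pr_mono _ fun ω hω => ?_).trans h
    exact ⟨hω.1, fun i hi => hω.2 i (Finset.mem_range.1 (Finset.mem_filter.1 hi).1)⟩
  rw [pr_TA k le_rfl] at h1
  have h2 : (1 / 2 : ℝ) ^ J.card ≤ 4 / (K + 1) :=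
    (pow_le_pow_of_le_one (by norm_num) (by norm_num) hcard).trans (half_pow_le K)
  calc _ ≤ p2 R * (1 / 2) ^ J.card := h1
    _ ≤ p2 R * (4 / (K + 1)) := mul_le_mul_of_nonneg_left h2 hp2
    _ = _ := mul_comm _ _

/-- If all clusters are small there is no crossed square. -/
theorem mem_Bsq {n s K : ℕ} (hs : 1 ≤ s) (hK : K * s ≤ n + 1) {T : Finset Edg} (hT : T ⊆ boxE n)
    (h : ∀ v ∈ Box n, Metric.diam (clS T v) < (s : ℝ) - 1) : T ∈ Bsq s K := by
  intro i hi hc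
  obtain ⟨y, y', h1, h2, h3, h4, h5⟩ := hc
  have hsub := square_sub hs hK hi
  have hi1 : (i + 1) * s ≤ K * s := Nat.mul_le_mul_right s (by omega)
  have hi2 : ((i : ℤ) + 1) * s ≤ n + 1 := by exact_mod_cast hi1.trans hK
  have hs2 : 1 * s ≤ K * s := Nat.mul_le_mul_right s (by omega)
  have hs3 : (s : ℤ) ≤ n + 1 := by
    have : s ≤ n + 1 := by omega
    exact_mod_cast this
  have hi0 : (0 : ℤ) ≤ (i : ℤ) * s := by positivity
  have hs' : (1 : ℤ) ≤ s := by exact_mod_cast hs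
  have hv : (((i : ℤ) * s, y) : ℤ × ℤ) ∈ Box n := by
    rw [DictB.mem_Box]
    refine ⟨⟨hi0, ?_⟩, h1, ?_⟩
    · simp only; linarith
    · simp only; linarith
  have h6 : (((i : ℤ) * s + s - 1, y') : ℤ × ℤ) ∈ clV T ((i : ℤ) * s, y) := by
    rw [clV_eq]
    exact Pool.Agent.MP_6bd702.H23.Conn.mono h5 le_rfl (Set.subset_univ _)
  have h7 := Metric.dist_le_diam_of_mem (DictB.clS_bounded hT hv)
    (show toC ((i : ℤ) * s, y) ∈ clS T ((i : ℤ) * s, y) from
      Or.inl ⟨_, Relation.ReflTransGen.refl, rfl⟩)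
    (show toC ((i : ℤ) * s + s - 1, y') ∈ clS T ((i : ℤ) * s, y) from Or.inl ⟨_, h6, rfl⟩)
  have h8 : (s : ℝ) - 1 ≤ dist (toC ((i : ℤ) * s, y)) (toC ((i : ℤ) * s + s - 1, y')) := by
    rw [Complex.dist_eq]
    refine le_trans ?_ (Complex.abs_re_le_norm _)
    rw [Complex.sub_re, toC_re, toC_re]
    push_cast
    rw [show (i : ℝ) * s - (i * s + s - 1) = -((s : ℝ) - 1) by ring, abs_neg]
    exact le_abs_self _
  exact absurd (h _ hv) (not_lt.2 (h8.trans h7))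

open Classical in
/-- One scale. -/
theorem exB_scale {C : ℝ} (hC : ∀ R : ℤ, 1 ≤ R → p2 R ≤ C * (R : ℝ) ^ (-(1 / 4) : ℝ)) {n : ℕ}
    (hn : 1 ≤ n) {D D' : ℝ} (hD : 1 ≤ D) (hDD : D ≤ D') (hDn : D' ≤ n)
    (sel : Finset Edg → ℤ × ℤ) (hsel : ∀ T ⊆ boxE n, sel T ∈ Box n) :
    exB n (fun T => if D ≤ Metric.diam (clS T (sel T)) ∧
      T ∈ Bsq (⌈D'⌉₊ + 1) ((n + 1) / (⌈D'⌉₊ + 1)) then (perim T (sel T) : ℝ) else 0) ≤
      (12 * D' / n) * (1000 * max C 1) * (n : ℝ) ^ 2 * D ^ (-(1 / 4) : ℝ) := by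
  set s : ℕ := ⌈D'⌉₊ + 1 with hs
  set K : ℕ := (n + 1) / s with hK
  have hn' : (1 : ℝ) ≤ n := by exact_mod_cast hn
  have hD'0 : 0 < D' := by linarith
  have hc1 : D' ≤ ⌈D'⌉₊ := Nat.le_ceil D'
  have hc2 : (⌈D'⌉₊ : ℝ) < D' + 1 := Nat.ceil_lt_add_one hD'0.le
  have hs2 : 2 ≤ s := by
    have : 1 ≤ ⌈D'⌉₊ := Nat.one_le_ceil_iff.2 hD'0
    omega
  have hsr : (s : ℝ) = ⌈D'⌉₊ + 1 := by rw [hs]; push_cast; ring
  have hKs : K * s ≤ n + 1 := Nat.div_mul_le_self _ _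
  have hK1 : n + 1 < (K + 1) * s := by
    rw [mul_comm]
    exact Nat.lt_mul_div_succ (n + 1) (by omega)
  have hβ : 4 / ((K : ℝ) + 1) ≤ 12 * D' / n := by
    rw [div_le_div_iff₀ (by positivity) (by positivity)]
    have h1 : ((n : ℝ) + 1) < ((K : ℝ) + 1) * s := by exact_mod_cast hK1
    have h2 : (s : ℝ) ≤ 3 * D' := by rw [hsr]; linarith
    have h3 : ((K : ℝ) + 1) * s ≤ ((K : ℝ) + 1) * (3 * D') :=
      mul_le_mul_of_nonneg_left h2 (by positivity)
    nlinarith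
  refine up_general hC hn hD (hDD.trans hDn) sel hsel _ ((prB_Bsq hs2 hKs).trans hβ) ?_
  intro k R _ hRd hRD
  have hRs : 2 * R + 2 ≤ (s : ℤ) := by
    have h1 : 2 * (R : ℝ) + 2 ≤ s := by rw [hsr]; linarith
    exact_mod_cast h1
  refine (pr_scale hs2 hKs hRd hRs).trans ?_
  exact mul_le_mul_of_nonneg_right hβ (pr_nonneg _ _)

theorem one_le_diam {n : ℕ} {T : Finset Edg} (hT : T ⊆ boxE n) {u : ℤ × ℤ} (hu : u ∈ Box n)
    (h : perim T u ≠ 0) : 1 ≤ Metric.diam (clS T u) := by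
  classical
  unfold perim at h
  obtain ⟨⟨e, b⟩, hx⟩ := Finset.card_pos.1 (Nat.pos_of_ne_zero h)
  rw [Finset.mem_filter, Finset.mem_product] at hx
  obtain ⟨⟨he, -⟩, hv, -⟩ := hx
  have hv' : hd e ∈ clV T u := Relation.ReflTransGen.tail hv ⟨e, he, Or.inl ⟨rfl, rfl⟩⟩
  have h7 := Metric.dist_le_diam_of_mem (DictB.clS_bounded hT hu)
    (show toC (tl e) ∈ clS T u from Or.inl ⟨_, hv, rfl⟩)
    (show toC (hd e) ∈ clS T u from Or.inl ⟨_, hv', rfl⟩)
  refine le_trans (le_of_eq ?_) h7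
  rw [Complex.dist_eq]
  obtain ⟨x, y, _ | _⟩ := e
  · simp [tl, hd, toC]
  · simp [tl, hd, toC, ← sub_sub]
    ring_nf
    simp

theorem two_rpow_quarter_le : (2 : ℝ) ^ (1 / 4 : ℝ) ≤ 5 / 4 := by
  have h1 : (2 : ℝ) ≤ (5 / 4 : ℝ) ^ (4 : ℕ) := by norm_num
  have h2 := Real.rpow_le_rpow (by norm_num) h1 (show (0 : ℝ) ≤ 1 / 4 by norm_num)
  rw [← Real.rpow_natCast, ← Real.rpow_mul (by norm_num)] at h2
  norm_num at h2
  norm_num
  exact h2

theorem scale_rpow_le {n : ℕ} (hn : 1 ≤ n) (j : ℕ) {D : ℝ} (hD : (n : ℝ) / 2 ^ j ≤ D) :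
    D ^ (-(1 / 4) : ℝ) ≤ (n : ℝ) ^ (-(1 / 4) : ℝ) * (5 / 4) ^ j := by
  have hn' : (1 : ℝ) ≤ n := by exact_mod_cast hn
  have h0 : (0 : ℝ) < (n : ℝ) / 2 ^ j := by positivity
  have h1 : D ^ (-(1 / 4) : ℝ) ≤ ((n : ℝ) / 2 ^ j) ^ (-(1 / 4) : ℝ) :=
    Real.rpow_le_rpow_of_nonpos h0 hD (by norm_num)
  have h2 : ((n : ℝ) / 2 ^ j) ^ (-(1 / 4) : ℝ) =
      (n : ℝ) ^ (-(1 / 4) : ℝ) * ((2 : ℝ) ^ (1 / 4 : ℝ)) ^ j := by
    rw [Real.div_rpow (by positivity) (by positivity), div_eq_mul_inv]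
    congr 1
    rw [← Real.rpow_neg (by positivity), neg_neg, ← Real.rpow_natCast, ← Real.rpow_natCast,
      ← Real.rpow_mul (by norm_num), ← Real.rpow_mul (by norm_num), mul_comm]
  rw [h2] at h1
  refine h1.trans (mul_le_mul_of_nonneg_left ?_ (by positivity))
  exact pow_le_pow_left₀ (by positivity) two_rpow_quarter_le j

theorem sum_five_eighths (m : ℕ) : ∑ j ∈ range m, (5 / 8 : ℝ) ^ j ≤ 8 / 3 := by
  have h := geom_sum_eq (show (5 / 8 : ℝ) ≠ 1 by norm_num) m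
  rw [h]
  have : (0 : ℝ) ≤ (5 / 8) ^ m := by positivity
  have h2 : ((5 / 8 : ℝ) ^ m - 1) / (5 / 8 - 1) = 8 / 3 * (1 - (5 / 8) ^ m) := by ring
  rw [h2]
  nlinarith

/-- The expected outer perimeter of the largest cluster is at most of the order `n ^ (7 / 4)`. -/
theorem upper_E {C : ℝ} (hC : ∀ R : ℤ, 1 ≤ R → p2 R ≤ C * (R : ℝ) ^ (-(1 / 4) : ℝ)) :
    ∃ C' : ℝ, ∀ n : ℕ, 1 ≤ n → ∀ sel : Finset Edg → ℤ × ℤ,
      (∀ T ⊆ boxE n, sel T ∈ Box n ∧
        ∀ v ∈ Box n, Metric.diam (clS T v) ≤ Metric.diam (clS T (sel T))) →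
      exB n (fun T => (perim T (sel T) : ℝ)) ≤ C' * (n : ℝ) ^ (7 / 4 : ℝ) := by
  classical
  refine ⟨64000 * max C 1, fun n hn sel hsel => ?_⟩
  have hM : 1 ≤ max C 1 := le_max_right _ _
  have hn' : (1 : ℝ) ≤ n := by exact_mod_cast hn
  have hbox : ∀ T ⊆ boxE n, sel T ∈ Box n := fun T hT => (hsel T hT).1
  -- the scales
  set Ds : ℕ → ℝ := fun j => max 1 ((n : ℝ) / 2 ^ j) with hDs
  have hDs1 : ∀ j, 1 ≤ Ds j := fun j => le_max_left _ _
  have hDsn : ∀ j, Ds j ≤ n := by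
    intro j
    refine max_le hn' (div_le_self (by positivity) (one_le_pow₀ (by norm_num)))
  have hDs2 : ∀ j, (n : ℝ) / 2 ^ j ≤ Ds j := fun j => le_max_right _ _
  have hDsmono : ∀ j, Ds (j + 1) ≤ Ds j := by
    intro j
    refine max_le_max le_rfl ?_
    exact div_le_div_of_nonneg_left (by positivity) (by positivity)
      (pow_le_pow_right₀ (by norm_num) (by omega))
  set Bs : ℕ → Set (Finset Edg) := fun j =>
    match j with
    | 0 => Set.univ
    | j + 1 => Bsq (⌈Ds j⌉₊ + 1) ((n + 1) / (⌈Ds j⌉₊ + 1)) with hBs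
  set m : ℕ := Nat.log 2 n + 2 with hm
  -- one scale
  have hscale : ∀ j, exB n (fun T => if Ds j ≤ Metric.diam (clS T (sel T)) ∧ T ∈ Bs j ∧
      (j = 0 ∨ 1 ≤ (n : ℝ) / 2 ^ (j - 1)) then
      (perim T (sel T) : ℝ) else 0) ≤
      24 * (1000 * max C 1) * ((n : ℝ) ^ 2 * (n : ℝ) ^ (-(1 / 4) : ℝ)) * (5 / 8) ^ j := by
    intro j
    have hr := scale_rpow_le hn j (hDs2 j)
    have hX : (0 : ℝ) ≤ (n : ℝ) ^ 2 := by positivity
    have hZ : 0 ≤ (n : ℝ) ^ 2 * (n : ℝ) ^ (-(1 / 4) : ℝ) := by positivity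
    rcases j with _ | j
    · have h := up_general hC hn (hDs1 0) (hDsn 0) sel hbox Set.univ (β := 1) (prB_le_one _ _)
        (fun k R hR hRd _ => by
          rw [one_mul, ← pr_TA k (ball_sub_Sn hRd)]
          exact pr_mono _ fun ω hω => hω.1)
      refine (exB_mono fun T _ => ?_).trans (h.trans ?_)
      · by_cases hc : Ds 0 ≤ Metric.diam (clS T (sel T))
        · simp only [hc, Set.mem_univ, if_true, true_or, and_true, hBs, le_refl]
        · simp only [hc, false_and, if_false, le_refl]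
      · rw [pow_zero, mul_one] at hr ⊢
        calc _ ≤ 1 * (1000 * max C 1) * (n : ℝ) ^ 2 * (n : ℝ) ^ (-(1 / 4) : ℝ) :=
              mul_le_mul_of_nonneg_left hr (by positivity)
          _ ≤ _ := by nlinarith
    · by_cases h1 : 1 ≤ (n : ℝ) / 2 ^ j
      · have hDj : Ds j = (n : ℝ) / 2 ^ j := max_eq_right h1
        have h := exB_scale hC hn (hDs1 (j + 1)) (hDsmono j) (hDsn j) sel hbox
        refine (exB_mono fun T _ => ?_).trans (h.trans ?_)
        · by_cases hc : Ds (j + 1) ≤ Metric.diam (clS T (sel T)) ∧ T ∈ Bs (j + 1)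
          · rw [if_pos ⟨hc.1, hc.2, Or.inr h1⟩, if_pos hc]
          · rw [if_neg (fun h => hc ⟨h.1, h.2.1⟩)]
            split_ifs
            · exact Nat.cast_nonneg _
            · exact le_rfl
        · rw [hDj]
          have e1 : 12 * ((n : ℝ) / 2 ^ j) / n = 24 * (1 / 2) ^ (j + 1) := by
            rw [pow_succ, one_div, inv_pow]
            field_simp
            ring
          rw [e1]
          have e2 : (5 / 8 : ℝ) ^ (j + 1) = (1 / 2) ^ (j + 1) * (5 / 4) ^ (j + 1) := by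
            rw [← mul_pow]; norm_num
          rw [e2]
          calc _ ≤ 24 * (1 / 2) ^ (j + 1) * (1000 * max C 1) * (n : ℝ) ^ 2 *
                ((n : ℝ) ^ (-(1 / 4) : ℝ) * (5 / 4) ^ (j + 1)) :=
                mul_le_mul_of_nonneg_left hr (by positivity)
            _ = _ := by ring
      · refine le_trans (le_of_eq ?_) (show (0 : ℝ) ≤ _ by positivity)
        unfold exB
        rw [Finset.sum_eq_zero, zero_div]
        intro T _
        rw [if_neg]
        rintro ⟨-, -, h2⟩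
        rcases h2 with h2 | h2
        · exact absurd h2 (Nat.succ_ne_zero j)
        · exact h1 h2
  -- the decomposition
  have hdec : ∀ T ⊆ boxE n, (perim T (sel T) : ℝ) ≤ ∑ j ∈ range m,
      if Ds j ≤ Metric.diam (clS T (sel T)) ∧ T ∈ Bs j ∧ (j = 0 ∨ 1 ≤ (n : ℝ) / 2 ^ (j - 1)) then
      (perim T (sel T) : ℝ) else 0 := by
    intro T hT
    have hnn : ∀ j ∈ range m, (0 : ℝ) ≤ if Ds j ≤ Metric.diam (clS T (sel T)) ∧ T ∈ Bs j ∧
        (j = 0 ∨ 1 ≤ (n : ℝ) / 2 ^ (j - 1)) then (perim T (sel T) : ℝ) else 0 := by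
      intro j _
      split_ifs
      · exact Nat.cast_nonneg _
      · exact le_rfl
    by_cases hp : perim T (sel T) = 0
    · rw [hp]
      push_cast
      refine Finset.sum_nonneg fun j hj => ?_
      split_ifs <;> exact le_rfl
    · have hd := one_le_diam hT (hbox T hT) hp
      have hlast : Ds (m - 1) ≤ Metric.diam (clS T (sel T)) := by
        refine (max_le le_rfl ?_).trans hd
        rw [div_le_one (by positivity)]
        have h1 : n < 2 ^ (Nat.log 2 n + 1) := Nat.lt_pow_succ_log_self (by norm_num) n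
        have h2 : (n : ℝ) < 2 ^ (Nat.log 2 n + 1) := by exact_mod_cast h1
        rw [show m - 1 = Nat.log 2 n + 1 by omega]
        exact h2.le
      have hex : ∃ j, Ds j ≤ Metric.diam (clS T (sel T)) := ⟨m - 1, hlast⟩
      set j := Nat.find hex with hj
      have hj1 : Ds j ≤ Metric.diam (clS T (sel T)) := Nat.find_spec hex
      have hjm : j < m := (Nat.find_le hlast).trans_lt (by omega)
      have hcond : Ds j ≤ Metric.diam (clS T (sel T)) ∧ T ∈ Bs j ∧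
          (j = 0 ∨ 1 ≤ (n : ℝ) / 2 ^ (j - 1)) := by
        refine ⟨hj1, ?_⟩
        rcases Nat.eq_zero_or_pos j with h0 | h0
        · rw [h0]
          exact ⟨trivial, Or.inl rfl⟩
        · obtain ⟨i, hi⟩ := Nat.exists_eq_succ_of_ne_zero h0.ne'
          have h1 : ¬ Ds i ≤ Metric.diam (clS T (sel T)) := Nat.find_min hex (by omega)
          have h2 : Metric.diam (clS T (sel T)) < Ds i := not_le.1 h1
          have h3 : 1 ≤ (n : ℝ) / 2 ^ i := by
            by_contra hc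
            have h4 : Ds i = 1 := max_eq_left (not_le.1 hc).le
            rw [h4] at h2
            exact absurd hd (not_le.2 h2)
          rw [hi]
          refine ⟨?_, Or.inr h3⟩
          refine mem_Bsq (by omega) (Nat.div_mul_le_self _ _) hT fun v hv => ?_
          have h5 := (hsel T hT).2 v hv
          push_cast
          have h6 : Ds i ≤ ⌈Ds i⌉₊ := Nat.le_ceil _
          linarith
      have h1 := Finset.single_le_sum hnn (Finset.mem_range.2 hjm)
      rw [if_pos hcond] at h1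
      exact h1
  have h1 := exB_mono hdec
  rw [exB_sum] at h1
  have h2 := h1.trans (Finset.sum_le_sum fun j _ => hscale j)
  rw [← Finset.mul_sum] at h2
  have h3 := sum_five_eighths m
  have h4 : (n : ℝ) ^ 2 * (n : ℝ) ^ (-(1 / 4) : ℝ) = (n : ℝ) ^ (7 / 4 : ℝ) := by
    rw [← Real.rpow_natCast (n : ℝ) 2, ← Real.rpow_add (by linarith)]
    norm_num
  rw [h4] at h2
  have h5 : (0 : ℝ) ≤ (n : ℝ) ^ (7 / 4 : ℝ) := by positivity
  calc _ ≤ _ := h2
    _ ≤ 24 * (1000 * max C 1) * (n : ℝ) ^ (7 / 4 : ℝ) * (8 / 3) :=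
        mul_le_mul_of_nonneg_left h3 (by positivity)
    _ = _ := by ring

end Pool.Agent.PercX60
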