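import Pool.Agent.Lib.MP_6bd702_z.Z030

/-!
# Spin embedding on the cylinder: definitions
-/

set_option autoImplicit false

namespace Pool.Agent.Perc

open Finset Function

/-- Weight of an arc which encloses the point at infinity. -/
noncomputable def tw (κ : ℂ) (s s' : Bool) : ℂ := if s = s' then 0 else if s then κ⁻¹ else κ ^ 2

/-- Twisted spin vector. -/
noncomputable def PhiT (κ : ℂ) (N : ℕ) (s : St) (σ : ℕ → Bool) : ℂ :=
  ∏ x ∈ range N, if x < s.1 x then
    (if s.2 x then tw κ (σ x) (σ (s.1 x)) else sw κ (σ x) (σ (s.1 x))) else 1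

/-- The faces `0, …, k - 1` of a row on spin vectors. -/
noncomputable def rowS (κ : ℂ) : ℕ → ((ℕ → Bool) → ℂ) → ((ℕ → Bool) → ℂ)
  | 0, X => X
  | k + 1, X => rS κ k (rowS κ k X)

/-- The transfer operator with the twist. -/
noncomputable def TR (q : ℂ) (L : ℕ) (X : (ℕ → Bool) → ℂ) (σ : ℕ → Bool) : ℂ :=
  capS (-q) L (rowS (-q) L fun τ => tw (-q) (τ 0) (τ (L + 1)) * X fun k => τ (k + 1)) σ

/-- The transfer operator without the twist. -/
noncomputable def TL (q : ℂ) (L : ℕ) (X : (ℕ → Bool) → ℂ) (σ : ℕ → Bool) : ℂ :=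
  capS (-q ^ 2) L (rowS (-q ^ 2) L fun τ => sw (-q ^ 2) (τ 0) (τ (L + 1)) * X fun k => τ (k + 1)) σ

end Pool.Agent.Perc
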