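import Pool.Agent.Lib.MP_6bd702_z.Z065
import Pool.Agent.Lib.MP_6bd702_z.Z030

/-!
# The two-sided cylinder: definitions
-/

set_option autoImplicit false

namespace Pool.Agent.Perc

open Finset

/-- The lower half, reflected to the upper half. -/
def lowC (ω : Cfg) : Cfg := fun f => !ω (f.1, -1 - f.2)

/-- The state of the upper half. -/
def upS (L M : ℕ) (ω : Cfg) : St := run L ω M (s0 L)

/-- The state of the lower half. -/
def loS (L M : ℕ) (ω : Cfg) : St := run L (lowC ω) M (s0 L)

/-- The faces of the strip. -/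
def strip (M : ℕ) : Set (ℤ × ℤ) := {f | -(M : ℤ) ≤ f.2 ∧ f.2 < M}

/-- Connection in the periodic configuration of the strip, where all the vertices of the heights
`M` and `-M` are identified. -/
def RelZ (L M : ℕ) (ω : Cfg) (u v : ℤ × ℤ) : Prop :=
  Conn (perC L ω) (strip M) u v ∨
    ((∃ u', Conn (perC L ω) (strip M) u u' ∧ (u'.2 = M ∨ u'.2 = -M)) ∧
      ∃ v', Conn (perC L ω) (strip M) v v' ∧ (v'.2 = M ∨ v'.2 = -M))

/-- The partner of a site in the universal cover (`N` sites per period). -/
def liftS (N : ℕ) (s : St) (x : ℤ) : ℤ :=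
  x / N * N + (s.1 (x % N).toNat : ℤ) +
    (if s.2 (x % N).toNat = true then (if (x % N).toNat < s.1 (x % N).toNat then -(N : ℤ) else N)
      else 0)

/-- Two gaps of the universal cover are in the same region. -/
def SameReg (N : ℕ) (s : St) (k l : ℤ) : Prop :=
  ∀ x : ℤ, ((x < k ↔ liftS N s x < k) ↔ (x < l ↔ liftS N s x < l))

end Pool.Agent.Perc
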