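import Pool.Agent.Lib.MP_6bd702_z.Z066
import Pool.Agent.Lib.MP_6bd702_z.Z046

/-!
# The two-sided cylinder: soundness (task TwoA)
-/

set_option autoImplicit false

namespace Pool.Agent.Perc

open Finset

variable {L M : ℕ}

theorem relZ_equivalence (L M : ℕ) (ω : Cfg) : Equivalence (RelZ L M ω) := by
  refine ⟨fun u => Or.inl Relation.ReflTransGen.refl, ?_, ?_⟩
  · rintro u v (h | ⟨h, h'⟩)
    · exact Or.inl h.symm
    · exact Or.inr ⟨h', h⟩
  · rintro u v w (h | ⟨h, h'⟩) (h1 | ⟨h1, h1'⟩)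
    · exact Or.inl ((conn_equivalence _ _).trans h h1)
    · obtain ⟨x, hx, hx'⟩ := h1
      exact Or.inr ⟨⟨x, (conn_equivalence _ _).trans h hx, hx'⟩, h1'⟩
    · obtain ⟨x, hx, hx'⟩ := h'
      exact Or.inr ⟨h, ⟨x, (conn_equivalence _ _).trans h1.symm hx, hx'⟩⟩
    · exact Or.inr ⟨h, h1'⟩

theorem conn_perC_shift {ω : Cfg} {u v : ℤ × ℤ} (h : Conn (perC L ω) (strip M) u v) (m : ℤ) :
    Conn (perC L ω) (strip M) (u.1 + m * L, u.2) (v.1 + m * L, v.2) := by
  have e : shiftC (m * L) 0 (perC L ω) = perC L ω := by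
    funext f
    unfold shiftC perC
    simp only [add_zero, Int.add_mul_emod_self_right]
  have h1 := (conn_shift (m * L) 0 (perC L ω) (strip M) u v).1 (by rw [e]; exact h)
  have e2 : {f : ℤ × ℤ | (f.1 - m * L, f.2 - 0) ∈ strip M} = strip M := by
    ext f
    simp [strip]
  rw [e2] at h1
  simpa using h1

theorem relZ_shift {ω : Cfg} {u v : ℤ × ℤ} (h : RelZ L M ω u v) (m : ℤ) :
    RelZ L M ω (u.1 + m * L, u.2) (v.1 + m * L, v.2) := by
  rcases h with h | ⟨⟨x, hx, hx'⟩, ⟨z, hz, hz'⟩⟩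
  · exact Or.inl (conn_perC_shift h m)
  · exact Or.inr ⟨⟨_, conn_perC_shift hx m, hx'⟩, ⟨_, conn_perC_shift hz m, hz'⟩⟩

theorem relZ_of_relT {ω : Cfg} {u v : ℤ × ℤ} (h : RelT L M ω 0 u v) : RelZ L M ω u v := by
  have hs : {f : ℤ × ℤ | 0 ≤ f.2 ∧ f.2 < M} ⊆ strip M := by
    rintro f ⟨h1, h2⟩
    exact ⟨by omega, h2⟩
  rcases h with h | ⟨⟨x, hx, hx'⟩, ⟨z, hz, hz'⟩⟩
  · exact Or.inl (h.mono hs)
  · exact Or.inr ⟨⟨x, hx.mono hs, Or.inl hx'⟩, ⟨z, hz.mono hs, Or.inl hz'⟩⟩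

theorem bond_low {ω : Cfg} {u v : ℤ × ℤ}
    (h : Bond (perC L (lowC ω)) {f | 0 ≤ f.2 ∧ f.2 < M} u v) :
    Bond (perC L ω) (strip M) (u.1, -u.2) (v.1, -v.2) := by
  obtain ⟨i, j, ⟨hj, hj'⟩, h⟩ := h
  simp only at hj hj'
  refine ⟨i, -1 - j, ⟨by simp only; omega, by simp only; omega⟩, ?_⟩
  have e : perC L (lowC ω) (i, j) = !perC L ω (i, -1 - j) := rfl
  rw [e] at h
  rcases h with ⟨h, h'⟩ | ⟨h, h'⟩
  · right
    refine ⟨by simpa using h, ?_⟩
    rcases h' with ⟨rfl, rfl⟩ | ⟨rfl, rfl⟩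
    · left
      refine ⟨?_, ?_⟩
      · ext
        · rfl
        · simp only; ring
      · ext
        · rfl
        · simp only; ring
    · right
      refine ⟨?_, ?_⟩
      · ext
        · rfl
        · simp only; ring
      · ext
        · rfl
        · simp only; ring
  · left
    refine ⟨by simpa using h, ?_⟩
    rcases h' with ⟨rfl, rfl⟩ | ⟨rfl, rfl⟩
    · left
      refine ⟨?_, ?_⟩
      · ext
        · rfl
        · simp only; ring
      · ext
        · rfl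
        · simp only; ring
    · right
      refine ⟨?_, ?_⟩
      · ext
        · rfl
        · simp only; ring
      · ext
        · rfl
        · simp only; ring

theorem conn_low {ω : Cfg} {u v : ℤ × ℤ}
    (h : Conn (perC L (lowC ω)) {f | 0 ≤ f.2 ∧ f.2 < M} u v) :
    Conn (perC L ω) (strip M) (u.1, -u.2) (v.1, -v.2) := by
  induction h with
  | refl => exact Relation.ReflTransGen.refl
  | tail _ hb ih => exact ih.tail (bond_low hb)

theorem relZ_of_relT_low {ω : Cfg} {u v : ℤ × ℤ} (h : RelT L M (lowC ω) 0 u v) :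
    RelZ L M ω (u.1, -u.2) (v.1, -v.2) := by
  rcases h with h | ⟨⟨x, hx, hx'⟩, ⟨z, hz, hz'⟩⟩
  · exact Or.inl (conn_low h)
  · refine Or.inr ⟨⟨_, conn_low hx, Or.inr ?_⟩, ⟨_, conn_low hz, Or.inr ?_⟩⟩
    · simp only [hx']
    · simp only [hz']

theorem isAnn_run' (ω : Cfg) (M : ℕ) : ∀ s : St, IsAnn L s → IsAnn L (run L ω M s) := by
  induction M with
  | zero => exact fun s hs => hs
  | succ M ih => exact fun s hs => ih _ (hs.trow _)

theorem isAnn_run (hL : L % 2 = 0) (hL0 : 0 < L) (ω : Cfg) : IsAnn L (run L ω M (s0 L)) :=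
  isAnn_run' ω M _ (isAnn_s0 hL)

/-- The arcs of a state obtained from the top are sound. -/
theorem sound_aux (hL : L % 2 = 0) (hL0 : 0 < L) (ω : Cfg) {x : ℕ} (hx : x < L) :
    ∃ m : ℤ, (m % 2 = 1 ↔ (run L ω M (s0 L)).2 x = true) ∧
      ∃ a : ℤ, RelT L M ω 0 ((x : ℤ) + a * L, 0)
        ((((run L ω M (s0 L)).1 x : ℕ) : ℤ) + 1 + (m + a) * L, 0) := by
  obtain ⟨s, g, h1, h2, h3, h4⟩ := sound_run (M := M) hL hL0 ω le_rfl
  have h5 : run L ω (M - M) s = s := by rw [Nat.sub_self]; rfl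
  rw [h4, h5]
  rw [sub_self] at h3
  have h6 := h2.2 x hx
  have h7 := h3 x hx
  simp only at h7
  refine ⟨(if g ≤ x then 1 else 0) - (if g ≤ s.1 x then 1 else 0), ?_,
    -(if g ≤ x then 1 else 0), ?_⟩
  · rw [h6]
    split_ifs with ha hb hb
    · constructor
      · intro h; omega
      · intro h; exact absurd (show (x < g ↔ s.1 x < g) by omega) h
    · constructor
      · intro h h'; omega
      · intro h; omega
    · constructor
      · intro h h'; omega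
      · intro h; omega
    · constructor
      · intro h; omega
      · intro h; exact absurd (show (x < g ↔ s.1 x < g) by omega) h
  · have e1 : (x : ℤ) + -(if g ≤ x then 1 else 0) * (L : ℤ)
        = (x : ℤ) - (if g ≤ x then (L : ℤ) else 0) := by
      split_ifs <;> ring
    have e2 : ((s.1 x : ℕ) : ℤ) + 1 + ((if g ≤ x then 1 else 0) - (if g ≤ s.1 x then 1 else 0) +
        -(if g ≤ x then 1 else 0)) * (L : ℤ)
        = ((s.1 x + 1 : ℕ) : ℤ) - (if g ≤ s.1 x then (L : ℤ) else 0) := by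
      push_cast
      split_ifs <;> ring
    rw [e1, e2]
    exact h7

/-- The arcs of the upper state are sound. -/
theorem sound_up (hL : L % 2 = 0) (hL0 : 0 < L) (ω : Cfg) {x : ℕ} (hx : x < L) :
    ∃ m : ℤ, (m % 2 = 1 ↔ (upS L M ω).2 x = true) ∧
      RelZ L M ω ((x : ℤ), 0) ((((upS L M ω).1 x : ℕ) : ℤ) + 1 + m * L, 0) := by
  obtain ⟨m, hm, a, ha⟩ := sound_aux (M := M) hL hL0 ω hx
  refine ⟨m, hm, ?_⟩
  have h := relZ_shift (relZ_of_relT ha) (-a)
  have e1 : (x : ℤ) + a * L + -a * L = x := by ring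
  have e2 : (((run L ω M (s0 L)).1 x : ℕ) : ℤ) + 1 + (m + a) * L + -a * L
      = (((run L ω M (s0 L)).1 x : ℕ) : ℤ) + 1 + m * L := by ring
  simp only [e1, e2] at h
  exact h

/-- The arcs of the lower state are sound. -/
theorem sound_lo (hL : L % 2 = 0) (hL0 : 0 < L) (ω : Cfg) {x : ℕ} (hx : x < L) :
    ∃ m : ℤ, (m % 2 = 1 ↔ (loS L M ω).2 x = true) ∧
      RelZ L M ω ((x : ℤ), 0) ((((loS L M ω).1 x : ℕ) : ℤ) + 1 + m * L, 0) := by
  obtain ⟨m, hm, a, ha⟩ := sound_aux (M := M) hL hL0 (lowC ω) hx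
  refine ⟨m, hm, ?_⟩
  have h := relZ_shift (relZ_of_relT_low ha) (-a)
  have e1 : (x : ℤ) + a * L + -a * L = x := by ring
  have e2 : (((run L (lowC ω) M (s0 L)).1 x : ℕ) : ℤ) + 1 + (m + a) * L + -a * L
      = (((run L (lowC ω) M (s0 L)).1 x : ℕ) : ℤ) + 1 + m * L := by ring
  simp only [e1, e2, neg_zero] at h
  exact h

end Pool.Agent.Perc
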