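import Pool.Agent.Lib.MP_6bd702_z.Z071

/-!
# The polynomial space of the punctured problem: definitions

`q ^ 2 + q + 1 = 0` throughout. The number of variables is `L`.
-/

set_option autoImplicit false

namespace Pool.Agent.Perc

open Finset MvPolynomial

/-- The double wheel space: the exponents are majorised by `(L - 1, …, 1, 0)`; double zero at
`z_i = q² z_j`, `z_j = q² z_k` for `i < j < k`; zero at `z_k = q² z_j`, `z_j = q² z_i` for
`i < j < k`. -/
structure DW (q : ℂ) (L : ℕ) (P : MvPolynomial ℕ ℂ) : Prop where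
  out : ∀ k, L ≤ k → P.degreeOf k = 0
  maj : ∀ d ∈ P.support, ∀ A ⊆ range L, ∑ i ∈ A, d i ≤ ∑ j ∈ range A.card, (L - 1 - j)
  tot : ∀ d ∈ P.support, ∑ i ∈ range L, d i = ∑ j ∈ range L, j
  wp : ∀ (z : ℕ → ℂ) (i j k : ℕ), i < j → j < k → k < L → z i = q ^ 2 * z j →
    z j = q ^ 2 * z k → eval z P = 0 ∧ ∀ l, eval z (pderiv l P) = 0
  wm : ∀ (z : ℕ → ℂ) (i j k : ℕ), i < j → j < k → k < L → z k = q ^ 2 * z j →
    z j = q ^ 2 * z i → eval z P = 0

/-- The product polynomial. -/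
noncomputable def minPoly (q : ℂ) (L : ℕ) : MvPolynomial ℕ ℂ :=
  ∏ j ∈ range L, ∏ i ∈ range j, (X i - C (q ^ 2) * X j)

/-- The degree in the variables of `A`. -/
noncomputable def degA (A : Finset ℕ) (P : MvPolynomial ℕ ℂ) : ℕ :=
  P.support.sup fun d => ∑ i ∈ A, d i

end Pool.Agent.Perc
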