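import Pool.Agent.Lib.MP_6bd702_z.Z082
import Pool.Agent.Lib.MP_6bd702_z.Z083
import Pool.Agent.Lib.MP_6bd702_z.Z085
import Pool.Agent.Lib.MP_6bd702_z.Z084
import Pool.Agent.Lib.MP_6bd702_z.Z014

section PartpercTj



end PartpercTj

section PartpercRectDefs

/-!
# The rectangle: definitions

The rectangle `[0, W] × [0, n]` of the face grid, `W` even, `n` odd, `N = W + n` strands (and the
auxiliary site `N`). Vertices on the path at level `h`: up the left side to height `h`, along the
row `h` to the right, up the right side.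
-/

set_option autoImplicit false

namespace Pool.Agent.Perc

open Finset Function

/-- The faces `0, …, i - 1` of the row `r`, seen from above. -/
def rowB (ω : Cfg) (r : ℕ) (p : ℕ → ℕ) : ℕ → (ℕ → ℕ)
  | 0 => p
  | i + 1 => if ω ((i : ℤ), (r : ℤ)) = true then eAct (r + i) (rowB ω r p i) else rowB ω r p i

/-- The pattern of the faces above the level `n - k`. -/
def bet (W n : ℕ) (ω : Cfg) : ℕ → (ℕ → ℕ)
  | 0 => flatP 0 (W + n + 1)
  | k + 1 => rowB ω (n - 1 - k) (bet W n ω k) W

/-- The faces `W - 1, …, W - i` of the row `r`, seen from below. -/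
def rowA (W : ℕ) (ω : Cfg) (r : ℕ) (p : ℕ → ℕ) : ℕ → (ℕ → ℕ)
  | 0 => p
  | i + 1 => if ω (((W - 1 - i : ℕ) : ℤ), (r : ℤ)) = true then
      eAct (r + (W - 1 - i)) (rowA W ω r p i) else rowA W ω r p i

/-- The pattern of the faces below the level `h`. -/
def alp (W n : ℕ) (ω : Cfg) : ℕ → (ℕ → ℕ)
  | 0 => flatP W (W + n + 1)
  | h + 1 => rowA W ω h (alp W n ω h) W

/-- The `k`-th vertex of the path at level `h`. -/
def Vp (W h : ℕ) (k : ℕ) : ℤ × ℤ :=
  if k ≤ h then (0, (k : ℤ)) else if k ≤ h + W then ((k : ℤ) - h, (h : ℤ))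
  else ((W : ℤ), (k : ℤ) - W)

/-- The parameters at level `h`. -/
def zp (q : ℂ) (W h : ℕ) (k : ℕ) : ℂ := if k < h then -q ^ 2 else if k < h + W then 1 else -q ^ 2

/-- Connected inside the rectangle, all the vertices of the boundary being identified. -/
def RelB (W n : ℕ) (ω : Cfg) (u v : ℤ × ℤ) : Prop :=
  Conn ω (RF 0 W 0 n) u v ∨ (ToBd 0 W 0 n ω u ∧ ToBd 0 W 0 n ω v)

end Pool.Agent.Perc

end PartpercRectDefs
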