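import Pool.Agent.Lib.MP_6bd702_z.Z099
import Pool.Agent.Lib.MP_6bd702_z.Z080
import Pool.Agent.Lib.MP_6bd702_z.Z092

/-!
# The two-arm probability (task P2Final)
-/

set_option autoImplicit false

namespace Pool.Agent.Perc

open Finset MvPolynomial

theorem P2Final.exists_q : ∃ q : ℂ, q ^ 2 + q + 1 = 0 := by
  obtain ⟨s, hs⟩ := IsAlgClosed.exists_pow_nat_eq (-3 : ℂ) (n := 2) (by norm_num)
  exact ⟨(-1 + s) / 2, by linear_combination hs / 4⟩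

/-- Two wrapping clusters: exact upper bound. -/
theorem pr_wrap2_le_pv {n : ℕ} (hn : 0 < n) (M : ℕ) :
    pr (RF 0 ((2 * n : ℕ) : ℤ) (-M) M) (wrap2 (2 * n) M) ≤ pv n := by
  classical
  obtain ⟨q, hq⟩ := P2Final.exists_q
  have h := pr_wrap2_le hq hn (sum_PsiS_ne hq n) M
  rwa [exSt_NCat hq hn, Complex.ofReal_re] at h

/-- The two-arm probability is at least `c R ^ (-1 / 4)`. -/
theorem p2_ge_quarter : ∃ c : ℝ, 0 < c ∧ ∀ R : ℕ, 1 ≤ R → c * (R : ℝ) ^ (-(1 / 4 : ℝ)) ≤ p2 R :=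
  ⟨1 / 3, by norm_num, fun _ hR => p2_ge' hR⟩

/-- The expected outer perimeter of a largest cluster is at least `c n ^ (7 / 4)`. -/
theorem main_seven_quarters : ∃ c : ℝ, 0 < c ∧ ∀ n : ℕ, 1 ≤ n → ∀ sel : Finset Edg → ℤ × ℤ,
    (∀ T ⊆ boxE n, sel T ∈ Box n ∧
      ∀ v ∈ Box n, Metric.diam (clS T v) ≤ Metric.diam (clS T (sel T))) →
    c * (n : ℝ) ^ (7 / 4 : ℝ) ≤ exB n (fun T => (perim T (sel T) : ℝ)) := by
  have h := main_of_p2 (s := 1 / 4) (by norm_num) p2_ge_quarter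
  have e : (2 - 1 / 4 : ℝ) = 7 / 4 := by norm_num
  rwa [e] at h

end Pool.Agent.Perc
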