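import Pool.Agent.Lib.MP_6bd702_z.Z031
import Pool.Agent.Lib.MP_6bd702_z.Z017

/-!
# Landing at a tip (task T_Tip; uses the core of helper97)
-/

set_option autoImplicit false

namespace Pool.Agent.PercT

open Finset Pool.Agent.Perc

variable {R : ℤ} {ω ξ ζ : Cfg} {e : UE}

/-- `e` has its ends in the box. -/
def InB (R : ℤ) (e : UE) : Prop := InR (-R) R (-R) R (ua e) ∧ InR (-R) R (-R) R (ub e)

/-- The stopping property. -/
theorem SS_stop {F : Set (ℤ × ℤ)} (h : ∀ f ∈ SS ω F e, ω f = ζ f) : SS ζ F e = SS ω F e :=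
  SS_congr h

theorem MM_stop {F : Set (ℤ × ℤ)} (h : ∀ f ∈ SS ω F e, ω f = ζ f) : MM ζ F e = MM ω F e :=
  MM_congr h

/-- The nearest point of the box of a point of the box. -/
theorem cl_of_inR {v : ℤ × ℤ} (h : InR (-R) R (-R) R v) : cl R v = v := by
  obtain ⟨x, y⟩ := v
  unfold InR at h
  unfold cl
  simp only at h ⊢
  rw [Prod.mk.injEq]
  omega

theorem potC_of_inR {v : ℤ × ℤ} (h : InR (-R) R (-R) R v) :
    potC ω R e v = potR ω (-R) R (-R) R e v := by
  unfold potC
  rw [cl_of_inR h]

theorem clamp_neg (hR : R ≤ 0) (z : ℤ) : max (-R) (min z R) = -R := by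
  have h1 : min z R ≤ -R := le_trans (min_le_right _ _) (by omega)
  exact max_eq_left h1

theorem clamp_out {y z : ℤ} (hR : 0 < R) (hy : ¬ (-R ≤ y ∧ y < R)) (hz : z = y ∨ z = y + 1) :
    max (-R) (min z R) = if y < R then -R else R := by
  split_ifs with h
  · rw [min_eq_left (by omega), max_eq_left (by omega)]
  · rw [min_eq_right (by omega), max_eq_right (by omega)]

/-- The ends of a unit edge of the component are in the box. -/
theorem MM_inR (he : InB R e) {a : UE} (ha : a ∈ MM ω (RF (-R) R (-R) R) e) :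
    InR (-R) R (-R) R (ua a) ∧ InR (-R) R (-R) R (ub a) := by
  rcases Relation.ReflTransGen.cases_tail ha with h | ⟨b, -, f, hf, hm⟩
  · rw [h]; exact he
  · exact ⟨hm.right.cor.1.inR hf, hm.right.cor.2.inR hf⟩

/-- The extended potential is constant on the corners of every face which is not visited and not
on the ray of a tip. -/
theorem potC_const {f : ℤ × ℤ} (hf : f ∉ SS ω (RF (-R) R (-R) R) e) (hb : ¬ Bad ω R e f)
    {u v : ℤ × ℤ} (hu : IsCor f u) (hv : IsCor f v) : potC ω R e u = potC ω R e v := by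
  by_cases hF : f ∈ (RF (-R) R (-R) R : Set (ℤ × ℤ))
  · rw [potC_of_inR (hu.inR hF), potC_of_inR (hv.inR hF)]
    exact potR_fresh hF hf hu hv
  · obtain ⟨x, y⟩ := f
    obtain ⟨u1, u2⟩ := u
    obtain ⟨v1, v2⟩ := v
    rw [mem_RF'] at hF
    unfold Bad at hb
    unfold IsCor at hu hv
    simp only at hF hb hu hv
    push Not at hb
    obtain ⟨hb1, hb2, hb3, hb4⟩ := hb
    by_cases hR : R ≤ 0
    · unfold potC cl
      simp only
      rw [clamp_neg hR, clamp_neg hR, clamp_neg hR, clamp_neg hR]
    · push Not at hR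
      by_cases hx : -R ≤ x ∧ x < R
      · -- the second coordinate is outside
        obtain ⟨c, hc, hc2, hM⟩ : ∃ c, (c = -R ∨ c = R) ∧ (∀ z, (z = y ∨ z = y + 1) →
            max (-R) (min z R) = c) ∧ (x, c, false) ∉ MM ω (RF (-R) R (-R) R) e := by
          by_cases h : R ≤ y
          · exact ⟨R, Or.inr rfl, fun z hz => by omega, hb3 h hx.1 hx.2⟩
          · have h' : y < -R := by omega
            exact ⟨-R, Or.inl rfl, fun z hz => by omega, hb4 h' hx.1 hx.2⟩
        have key : potR ω (-R) R (-R) R e (x, c) = potR ω (-R) R (-R) R e (x + 1, c) := by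
          by_contra hne
          exact hM ((potR_joins (by simp [Joins, ua, ub]) (by unfold InR; simp only; omega)
            (by unfold InR; simp only; omega)).2 hne)
        have key2 : ∀ w1 w2 : ℤ, (w1 = x ∨ w1 = x + 1) → (w2 = y ∨ w2 = y + 1) →
            potC ω R e (w1, w2) = potR ω (-R) R (-R) R e (x, c) := by
          intro w1 w2 h1 h2
          unfold potC cl
          simp only
          rw [hc2 w2 h2]
          rcases h1 with rfl | rfl
          · rw [show max (-R) (min w1 R) = w1 by omega]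
          · rw [show max (-R) (min (x + 1) R) = x + 1 by omega, key]
        rw [key2 u1 u2 hu.1 hu.2, key2 v1 v2 hv.1 hv.2]
      · obtain ⟨c, hc, hc2⟩ : ∃ c, (c = -R ∧ x < -R ∨ c = R ∧ R ≤ x) ∧
            (∀ z, (z = x ∨ z = x + 1) → max (-R) (min z R) = c) := by
          by_cases h : R ≤ x
          · exact ⟨R, Or.inr ⟨rfl, h⟩, fun z hz => by omega⟩
          · exact ⟨-R, Or.inl ⟨rfl, by omega⟩, fun z hz => by omega⟩
        by_cases hy : -R ≤ y ∧ y < R
        · have hM : (c, y, true) ∉ MM ω (RF (-R) R (-R) R) e := by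
            rcases hc with ⟨rfl, h⟩ | ⟨rfl, h⟩
            · exact hb2 h hy.1 hy.2
            · exact hb1 h hy.1 hy.2
          have key : potR ω (-R) R (-R) R e (c, y) = potR ω (-R) R (-R) R e (c, y + 1) := by
            by_contra hne
            exact hM ((potR_joins (by simp [Joins, ua, ub]) (by unfold InR; simp only; omega)
              (by unfold InR; simp only; omega)).2 hne)
          have key2 : ∀ w1 w2 : ℤ, (w1 = x ∨ w1 = x + 1) → (w2 = y ∨ w2 = y + 1) →
              potC ω R e (w1, w2) = potR ω (-R) R (-R) R e (c, y) := by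
            intro w1 w2 h1 h2
            unfold potC cl
            simp only
            rw [hc2 w1 h1]
            rcases h2 with rfl | rfl
            · rw [show max (-R) (min w2 R) = w2 by omega]
            · rw [show max (-R) (min (y + 1) R) = y + 1 by omega, key]
          rw [key2 u1 u2 hu.1 hu.2, key2 v1 v2 hv.1 hv.2]
        · unfold potC cl
          simp only
          rw [clamp_out hR hx hu.1, clamp_out hR hy hu.2, clamp_out hR hx hv.1,
            clamp_out hR hy hv.2]

/-- A corner of a visited face with the parity and the potential of the end `p` of `e` is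
connected to `p` in the visited faces. -/
theorem conn_of_cor (he : InB R e) {p : ℤ × ℤ} (hp : p = ua e ∨ p = ub e) {f w : ℤ × ℤ}
    (hf : f ∈ SS ω (RF (-R) R (-R) R) e) (hw : IsCor f w) (hpar : (p.1 + p.2 - w.1 - w.2) % 2 = 0)
    (hpot : potC ω R e w = potC ω R e p) : Conn ω (SS ω (RF (-R) R (-R) R) e) p w := by
  have hwR : InR (-R) R (-R) R w := hw.inR hf.1
  have hpp : par w = par p := by unfold par; omega
  rcases hp with rfl | rfl
  · rw [potC_of_inR hwR, potC_of_inR he.1] at hpot
    exact SS_conn (Or.inl ⟨rfl, rfl⟩) he.1 he.2 hf hw hpp hpot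
  · rw [potC_of_inR hwR, potC_of_inR he.2] at hpot
    exact SS_conn (Or.inr ⟨rfl, rfl⟩) he.2 he.1 hf hw hpp hpot

/-- Landing: a path of the fresh configuration `ξ` in the faces `G` from a vertex with the wrong
potential to a vertex with the potential of `p`. -/
theorem tip_conn (he : InB R e) {p : ℤ × ℤ} (hp : p = ua e ∨ p = ub e) {G : Set (ℤ × ℤ)}
    (hS : ∀ f ∈ SS ω (RF (-R) R (-R) R) e, ζ f = ω f)
    (hG : ∀ f ∈ G, f ∉ SS ω (RF (-R) R (-R) R) e → ζ f = ξ f ∧ ¬ Bad ω R e f)
    {z₀ z₁ : ℤ × ℤ} (hpar : (p.1 + p.2 - z₀.1 - z₀.2) % 2 = 0)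
    (h0 : potC ω R e z₀ ≠ potC ω R e p) (h1 : potC ω R e z₁ = potC ω R e p)
    (h : Conn ξ G z₀ z₁) : Conn ζ (SS ω (RF (-R) R (-R) R) e ∪ G) p z₁ := by
  have key : ∀ z, Conn ξ G z₀ z → potC ω R e z ≠ potC ω R e p ∨
      Conn ζ (SS ω (RF (-R) R (-R) R) e ∪ G) p z := by
    intro z hz
    induction hz with
    | refl => exact Or.inl h0
    | tail hc hb ih =>
      rename_i v v'
      obtain ⟨g, hg, hbg, hcv, hcv'⟩ := hb.exists_face
      have hpz : (p.1 + p.2 - v'.1 - v'.2) % 2 = 0 := by
        have h2 := Conn.parity (u := z₀) (v := v') (Relation.ReflTransGen.tail hc hb)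
        omega
      by_cases hgS : g ∈ SS ω (RF (-R) R (-R) R) e
      · by_cases hpv : potC ω R e v' = potC ω R e p
        · right
          have h3 := conn_of_cor he hp hgS hcv' hpz hpv
          exact (GridA.conn_congr _ (fun f hf => (hS f hf).symm) h3).mono Set.subset_union_left
        · exact Or.inl hpv
      · obtain ⟨h4, h5⟩ := hG g hg hgS
        have h6 := potC_const hgS h5 hcv hcv'
        rcases ih with ih | ih
        · left
          rw [← h6]; exact ih
        · right
          exact ih.tail ((Bond.congr h4.symm hbg).of_single (Or.inr hg))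
  rcases key z₁ h with h2 | h2
  · exact absurd h1 h2
  · exact h2

/-- The potentials of the two ends of a unit edge of the component are those of the ends of `e` of
the same parity. -/
theorem potC_of_mem (he : InB R e) {a : UE} (ha : a ∈ MM ω (RF (-R) R (-R) R) e) {p w : ℤ × ℤ}
    (hp : p = ua e ∨ p = ub e) (hw : w = ua a ∨ w = ub a)
    (hpar : (p.1 + p.2 - w.1 - w.2) % 2 = 0) : potC ω R e w = potC ω R e p := by
  have hin := MM_inR he ha
  have hpp : par w = par p := by unfold par; omega
  obtain ⟨q, hq⟩ : ∃ q, Joins e p q := by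
    rcases hp with rfl | rfl
    · exact ⟨ub e, Or.inl ⟨rfl, rfl⟩⟩
    · exact ⟨ua e, Or.inr ⟨rfl, rfl⟩⟩
  obtain ⟨w', hw'⟩ : ∃ w', Joins a w w' := by
    rcases hw with rfl | rfl
    · exact ⟨ub a, Or.inl ⟨rfl, rfl⟩⟩
    · exact ⟨ua a, Or.inr ⟨rfl, rfl⟩⟩
  have hwR : InR (-R) R (-R) R w := by
    rcases hw with rfl | rfl
    · exact hin.1
    · exact hin.2
  have hpR : InR (-R) R (-R) R p := by
    rcases hp with rfl | rfl
    · exact he.1
    · exact he.2
  rw [potC_of_inR hwR, potC_of_inR hpR]
  exact (MM_pot hq ha hw' hpp).1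

/-- The ends of a unit edge of the component have different potentials. -/
theorem potC_ne (he : InB R e) {a : UE} (ha : a ∈ MM ω (RF (-R) R (-R) R) e) :
    potC ω R e (ua a) ≠ potC ω R e (ub a) := by
  have hin := MM_inR he ha
  rw [potC_of_inR hin.1, potC_of_inR hin.2]
  exact (potR_iff hin.1 hin.2).1 ha

/-- If there are no other tips nearby, the potential to the right of the box is constant above the
tip and below the tip. -/
theorem potC_right {g h : ℤ} (hR : 0 < R) (hω : ω ∈ SepR R g h e) {v : ℤ × ℤ} (hv : R ≤ v.1) :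
    (h < v.2 → v.2 < h + g → potC ω R e v = potC ω R e (R, h + 1)) ∧
      (v.2 ≤ h → h - g < v.2 → potC ω R e v = potC ω R e (R, h)) := by
  obtain ⟨h1, h2, h3, h4⟩ := hω
  obtain ⟨v1, v2⟩ := v
  simp only at hv
  have key : ∀ j, -R ≤ j → j < R → j ≠ h → h - g < j → j < h + g →
      ((R, j, true) : UE) ∉ MM ω (RF (-R) R (-R) R) e := by
    intro j h5 h6 h7 h8 h9 h10
    have h11 := h4 _ h10 (Or.inl ⟨rfl, Or.inr rfl, h5, h6⟩) (by
      intro h12
      simp only [Prod.mk.injEq] at h12
      exact h7 h12.2.1)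
    unfold Far mid at h11
    simp only [if_true, le_abs] at h11
    omega
  have hpt : ∀ y : ℤ, -R ≤ y → y ≤ R → potC ω R e (R, y) = potR ω (-R) R (-R) R e (R, y) :=
    fun y h5 h6 => potC_of_inR (by unfold InR; simp only; omega)
  have hcl : potC ω R e (v1, v2) = potR ω (-R) R (-R) R e (R, max (-R) (min v2 R)) := by
    unfold potC cl
    simp only
    rw [show max (-R) (min v1 R) = R by omega]
  simp only
  constructor
  · intro h5 h6
    rw [hcl, hpt (h + 1) (by omega) (by omega)]
    exact (seg_v (by omega) (by omega) (by omega) (by omega) fun j h7 h8 =>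
      key j (by omega) (by omega) (by omega) (by omega) (by omega)).symm
  · intro h5 h6
    rw [hcl, hpt h (by omega) (by omega)]
    exact seg_v (by omega) (by omega) (by omega) (by omega) fun j h7 h8 =>
      key j (by omega) (by omega) (by omega) (by omega) (by omega)

/-- There are no bad faces near the tip except on its ray. -/
theorem not_bad_near {g h : ℤ} (hR : 0 < R) (hg : g ≤ R) (hω : ω ∈ SepR R g h e) {f : ℤ × ℤ}
    (h1 : R - g < f.1) (h2 : h - g < f.2) (h3 : f.2 < h + g) (h4 : f.2 ≠ h ∨ f.1 < R) :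
    ¬ Bad ω R e f := by
  obtain ⟨k1, k2, k3, k4⟩ := hω
  obtain ⟨x, y⟩ := f
  simp only at h1 h2 h3 h4
  unfold Bad
  simp only
  rintro (⟨h5, h6, h7, h8⟩ | ⟨h5, h6, h7, h8⟩ | ⟨h5, h6, h7, h8⟩ | ⟨h5, h6, h7, h8⟩)
  · have h11 := k4 _ h8 (Or.inl ⟨rfl, Or.inr rfl, h6, h7⟩) (by
      intro h12
      simp only [Prod.mk.injEq] at h12
      omega)
    unfold Far mid at h11
    simp only [if_true, le_abs] at h11
    omega
  · omega
  · have h11 := k4 _ h8 (Or.inr ⟨rfl, Or.inr rfl, h6, h7⟩) (by
      intro h12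
      simp only [Prod.mk.injEq, Bool.false_eq_true, and_false] at h12)
    unfold Far mid at h11
    simp only [if_true, if_false, Bool.false_eq_true, le_abs] at h11
    omega
  · have h11 := k4 _ h8 (Or.inr ⟨rfl, Or.inl rfl, h6, h7⟩) (by
      intro h12
      simp only [Prod.mk.injEq, Bool.false_eq_true, and_false] at h12)
    unfold Far mid at h11
    simp only [if_true, if_false, Bool.false_eq_true, le_abs] at h11
    omega

end Pool.Agent.PercT
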