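import Pool.Agent.Lib.MP_6bd702_z.Z107
import Pool.Agent.Lib.MP_6bd702_z.Z102
import Pool.Agent.Lib.MP_6bd702_z.Z101
import Pool.Agent.Lib.MP_6bd702_z.Z016

section Partpercu2GlueP

/-!
# Gluing, probability (task T_GlueP)
-/

set_option autoImplicit false

namespace Pool.Agent.PercT

open Finset Pool.Agent.Perc

theorem depOn_SepR (R g h : ℤ) (e : UE) :
    DepOn (RF (-R) R (-R) R : Set (ℤ × ℤ)) (SepR R g h e) := by
  intro ω ω' hω
  have hM : MM ω' (RF (-R) R (-R) R) e = MM ω (RF (-R) R (-R) R) e :=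
    MM_stop fun f hf => hω f hf.1
  unfold SepR
  simp only [Set.mem_ofPred_eq, hM]

theorem glue_prob (hrsw : Rsw) (M : ℕ) : ∃ C : ℝ, 0 < C ∧ ∀ r R : ℕ, 1 ≤ r → 8 * r ≤ R →
    R ≤ 16 * M * r → ∀ e : UE, InB R e →
    pr (RF (-R) R (-R) R) {ω | ∃ h, ω ∈ SepR R (8 * r) h e} ≤
      C * pr (RF 0 ((16 * R : ℕ) : ℤ) (-(4 * R)) (4 * R)) (Wrap (16 * R) (4 * R) e) := by
  classical
  obtain ⟨c₀, hc₀, htube⟩ := tube_prob hrsw M
  refine ⟨c₀⁻¹, inv_pos.2 hc₀, fun r R hr hrR hRM e he => ?_⟩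
  have hR : 0 < R := by omega
  have hA : DepOn (RF (-R : ℤ) R (-R) R : Set (ℤ × ℤ)) {ω | ∃ h, ω ∈ SepR R (8 * r) h e} := by
    intro ω ω' hω
    constructor
    · rintro ⟨h, hh⟩
      exact ⟨h, (depOn_SepR _ _ h e ω ω' hω).1 hh⟩
    · rintro ⟨h, hh⟩
      exact ⟨h, (depOn_SepR _ _ h e ω ω' hω).2 hh⟩
  have h1 := pr_perC (L := 16 * R) (H := 4 * (R : ℤ)) (by omega) (a := -(R : ℤ))
    (G := RF (-R : ℤ) R (-R) R) (by
      intro f hf
      simp only [RF, mem_product, mem_Ico] at hf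
      push_cast
      omega) hA
  have h2 := pr_mix_perC (L := 16 * R) (H := 4 * (R : ℤ))
    (S := fun ω => SS ω (RF (-R : ℤ) R (-R) R) e)
    (fun ω ω' h => SS_stop h) {ω | ∃ h, ω ∈ SepR R (8 * r) h e}
    (fun ω => {ξ | ∃ h : ℤ, perC (16 * R) ω ∈ SepR R (8 * r) h e ∧
      perC (16 * R) ξ ∈ TubeE R r h (R + h + 1)})
    (Wrap (16 * R) (4 * R) e) (c := c₀) (by
      rintro ω ⟨h, hh⟩
      refine (htube r R hr hrR hRM h (R + h + 1) hh.1 hh.2.1).trans ?_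
      exact pr_mono _ fun ξ hξ => ⟨h, hh, hξ⟩) (by
      rintro ω - ξ ⟨h, hh, hξ⟩
      exact glue_det hr hrR (by omega) he hh hξ)
  rw [h1] at h2
  rw [inv_mul_eq_div, le_div_iff₀ hc₀, mul_comm]
  exact h2

end Pool.Agent.PercT

end Partpercu2GlueP

section Partpercu2WrapX

/-!
# The exact upper bound for wrapping clusters, for the four unit edges (task T_WrapX)
-/

set_option autoImplicit false

namespace Pool.Agent.PercT

open Finset Pool.Agent.Perc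

/-- The exact upper bound (helper21, helper71: `pr_wrap2_le_pv` and `pv_le`). -/
def Exact : Prop := ∃ C : ℝ, 0 < C ∧ ∀ n H : ℕ, 1 ≤ n →
  pr (RF 0 ((2 * n : ℕ) : ℤ) (-H) H) (Wrap (2 * n) H (0, 0, false)) ≤ C * (n : ℝ) ^ (-(1 / 4 : ℝ))

namespace WrapX

variable {L : ℕ}

theorem mem_stripZ {H : ℤ} {f : ℤ × ℤ} : f ∈ stripZ H ↔ -H ≤ f.2 ∧ f.2 < H := Iff.rfl

theorem conn_of_bond {ω : Cfg} {F : Set (ℤ × ℤ)} {u v : ℤ × ℤ} (h : Bond ω F u v) :
    Conn ω F u v := Relation.ReflTransGen.single h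

/-- A point which is connected to a wrapping point is wrapping. -/
theorem wrap_of_conn {ω : Cfg} {H : ℤ} {u v : ℤ × ℤ}
    (hu : Conn (perC L ω) (stripZ H) u (u.1 + L, u.2)) (h : Conn (perC L ω) (stripZ H) u v) :
    Conn (perC L ω) (stripZ H) v (v.1 + L, v.2) :=
  (Conn.symm h).trans (hu.trans (conn_perC_shift h))

theorem depOn_wrap (hL : 0 < L) (H : ℤ) (e : UE) :
    DepOn (RF 0 L (-H) H : Set (ℤ × ℤ)) (Wrap L H e) := by
  intro ω ω' h
  have h' : ∀ f ∈ stripZ H, perC L ω f = perC L ω' f := by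
    intro f hf
    have hL' : (0 : ℤ) < L := by exact_mod_cast hL
    refine h (f.1 % (L : ℤ), f.2) ?_
    rw [mem_stripZ] at hf
    simp only [RF, coe_product, Set.mem_prod, coe_Ico, Set.mem_Ico]
    exact ⟨⟨Int.emod_nonneg _ hL'.ne', Int.emod_lt_of_pos _ hL'⟩, hf⟩
  simp only [Wrap, Set.mem_ofPred_eq, GridA.conn_iff _ h']

/-- Translation by one to the right. -/
theorem pr_wrap_hor (hL : 0 < L) (H : ℤ) :
    pr (RF 0 L (-H) H) (Wrap L H (-1, 0, false)) = pr (RF 0 L (-H) H) (Wrap L H (0, 0, false)) := by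
  have hL' : (0 : ℤ) < L := by exact_mod_cast hL
  rw [← pr_comp (S := RF 0 L (-H) H) (S' := RF 0 L (-H) H)
    (f := fun x : ℤ × ℤ => ((x.1 + 1) % (L : ℤ), x.2)) ?_ ?_ (depOn_wrap hL H (-1, 0, false))]
  · congr 1
    ext ω
    have e1 : perC L (fun x : ℤ × ℤ => ω ((x.1 + 1) % (L : ℤ), x.2)) = shiftC 1 0 (perC L ω) := by
      funext f
      simp [perC, shiftC]
    have e2 : {f : ℤ × ℤ | (f.1 - 1, f.2 - 0) ∈ stripZ H} = stripZ H := by
      ext f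
      simp only [Set.mem_ofPred_eq, mem_stripZ, sub_zero]
    have e3 : ((-1 : ℤ) + L, (0 : ℤ)) = ((L : ℤ) - 1, (0 : ℤ)) := by
      refine Prod.ext ?_ rfl
      show (-1 : ℤ) + L = L - 1
      ring
    simp only [Wrap, Set.mem_ofPred_eq, e1, conn_shift, e2, ua_mk, ub_false, add_zero]
    have e4 : (-1 : ℤ) + 1 = 0 := by norm_num
    have e5 : (-1 : ℤ) + (L : ℤ) + 1 = 0 + L := by ring
    have e6 : (-1 : ℤ) + 1 + (L : ℤ) + 1 = 0 + 1 + L := by ring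
    rw [e5, e6]
    simp only [e4]
  · intro x hx y hy h
    simp only [RF, coe_product, Set.mem_prod, coe_Ico, Set.mem_Ico] at hx hy
    simp only [Prod.mk.injEq] at h
    refine Prod.ext ?_ h.2
    have h1 := h.1
    have h2 : (x.1 + 1) ≡ (y.1 + 1) [ZMOD L] := h1
    have h3 : x.1 ≡ y.1 [ZMOD L] := Int.ModEq.add_right_cancel' 1 h2
    have h4 : x.1 % (L : ℤ) = y.1 % (L : ℤ) := h3
    rwa [Int.emod_eq_of_lt hx.1.1 hx.1.2, Int.emod_eq_of_lt hy.1.1 hy.1.2] at h4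
  · intro x hx
    simp only [RF, mem_product, mem_Ico] at hx ⊢
    exact ⟨⟨Int.emod_nonneg _ hL'.ne', Int.emod_lt_of_pos _ hL'⟩, hx.2⟩

/-- Translation of the height. -/
theorem pr_wrap_ver (hL : 0 < L) (H b : ℤ) (hb : b = 1 ∨ b = -1) :
    pr (RF 0 L (-H) H) (Wrap L H (0, b, false)) ≤
      pr (RF 0 L (-(H + 1)) (H + 1)) (Wrap L (H + 1) (0, 0, false)) := by
  rw [← pr_comp (S := RF 0 L (-H) H) (S' := RF 0 L (-(H + 1)) (H + 1))
    (f := fun x : ℤ × ℤ => (x.1, x.2 - b)) ?_ ?_ (depOn_wrap hL H (0, b, false))]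
  · refine pr_mono _ fun ω hω => ?_
    have e1 : perC L (fun x : ℤ × ℤ => ω (x.1, x.2 - b)) = shiftC 0 (-b) (perC L ω) := by
      funext f
      simp [perC, shiftC, sub_eq_add_neg]
    have e2 : {f : ℤ × ℤ | (f.1 - 0, f.2 - -b) ∈ stripZ H} ⊆ stripZ (H + 1) := by
      intro f hf
      simp only [Set.mem_ofPred_eq, mem_stripZ] at hf ⊢
      omega
    simp only [Wrap, Set.mem_ofPred_eq, e1, conn_shift, ua_mk, ub_false, add_zero,
      add_neg_cancel] at hω ⊢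
    exact ⟨Conn.mono e2 hω.1, Conn.mono e2 hω.2⟩
  · intro x _ y _ h
    simp only [Prod.mk.injEq, sub_left_inj] at h
    exact Prod.ext h.1 h.2
  · intro x hx
    simp only [RF, mem_product, mem_Ico] at hx ⊢
    omega

/-- There is no wrapping cluster in an empty strip. -/
theorem pr_wrap_zero (hL : 0 < L) (e : UE) : pr (RF 0 L (-(0 : ℤ)) 0) (Wrap L 0 e) = 0 := by
  have h : ∀ ω : Cfg, ω ∉ Wrap L 0 e := by
    intro ω hω
    have h1 := hω.1
    have h2 : ∀ u v : ℤ × ℤ, Conn (perC L ω) (stripZ 0) u v → u = v := by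
      intro u v h
      induction h with
      | refl => rfl
      | tail _ hb _ =>
        obtain ⟨x, y, hm, _⟩ := hb
        rw [mem_stripZ] at hm
        simp only at hm
        omega
    have h3 := congrArg Prod.fst (h2 _ _ h1)
    simp only at h3
    have hL' : (0 : ℤ) < L := by exact_mod_cast hL
    omega
  have h2 : Wrap L 0 e = ∅ := by
    ext ω
    simp [h ω]
  rw [h2]
  unfold pr
  simp

/-- The edge above the origin. -/
theorem wrap_one {H : ℤ} (hH : 0 < H) {ω : Cfg} (h : ω ∈ Wrap L H (0, 0, true)) :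
    ω ∈ Wrap L H (0, 0, false) ∪ Wrap L H (0, 1, false) := by
  obtain ⟨h1, h2⟩ := h
  rw [ub_true] at h2
  rw [ua_mk] at h1
  have hf : ((0, 0) : ℤ × ℤ) ∈ stripZ H := by
    rw [mem_stripZ]
    simp only
    omega
  cases hω : perC L ω (0, 0)
  · left
    refine ⟨h1, ?_⟩
    rw [ub_false]
    exact wrap_of_conn h2 (conn_of_bond ⟨0, 0, hf, Or.inr ⟨hω, Or.inl ⟨by simp, by simp⟩⟩⟩)
  · right
    refine ⟨h2, ?_⟩
    rw [ub_false]
    exact wrap_of_conn h1 (conn_of_bond ⟨0, 0, hf, Or.inl ⟨hω, Or.inl ⟨by simp, by simp⟩⟩⟩)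

/-- The edge below the origin. -/
theorem wrap_three {H : ℤ} (hH : 0 < H) {ω : Cfg} (h : ω ∈ Wrap L H (0, -1, true)) :
    ω ∈ Wrap L H (0, 0, false) ∪ Wrap L H (0, -1, false) := by
  obtain ⟨h1, h2⟩ := h
  rw [ub_true] at h2
  rw [ua_mk] at h1
  have e : (-1 : ℤ) + 1 = 0 := by norm_num
  rw [e] at h2
  have hf : ((0, -1) : ℤ × ℤ) ∈ stripZ H := by
    rw [mem_stripZ]
    simp only
    omega
  cases hω : perC L ω (0, -1)
  · right
    refine ⟨h1, ?_⟩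
    rw [ub_false]
    exact wrap_of_conn h2 (conn_of_bond ⟨0, -1, hf, Or.inr ⟨hω, Or.inl ⟨by simp, by simp⟩⟩⟩)
  · left
    refine ⟨h2, ?_⟩
    rw [ub_false]
    exact wrap_of_conn h1 (conn_of_bond ⟨0, -1, hf, Or.inl ⟨hω, Or.inl ⟨by simp, by simp⟩⟩⟩)

end WrapX

open WrapX

theorem wrap_prob (hx : Exact) : ∃ C : ℝ, 0 < C ∧ ∀ n H : ℕ, 1 ≤ n → ∀ i : Fin 4,
    pr (RF 0 ((2 * n : ℕ) : ℤ) (-H) H) (Wrap (2 * n) H (eo i)) ≤
      C * (n : ℝ) ^ (-(1 / 4 : ℝ)) := by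
  obtain ⟨C, hC, hb⟩ := hx
  refine ⟨2 * C, by positivity, fun n H hn => ?_⟩
  have hL : 0 < 2 * n := by omega
  have hp : 0 ≤ C * (n : ℝ) ^ (-(1 / 4 : ℝ)) := by positivity
  have h0 := hb n H hn
  have h1 := hb n (H + 1) hn
  push_cast at h1
  have h2 : pr (RF 0 ((2 * n : ℕ) : ℤ) (-H) H) (Wrap (2 * n) H (-1, 0, false)) ≤
      C * (n : ℝ) ^ (-(1 / 4 : ℝ)) := by
    rw [pr_wrap_hor hL]
    exact h0
  have hver : ∀ b : ℤ, (b = 1 ∨ b = -1) →
      pr (RF 0 ((2 * n : ℕ) : ℤ) (-H) H) (Wrap (2 * n) H (0, b, false)) ≤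
        C * (n : ℝ) ^ (-(1 / 4 : ℝ)) := by
    intro b hb'
    refine (pr_wrap_ver hL (H : ℤ) b hb').trans ?_
    push_cast
    exact h1
  have h3 : ∀ (b : ℤ) (e : UE), (b = 1 ∨ b = -1) →
      (0 < H → ∀ ω ∈ Wrap (2 * n) H e, ω ∈ Wrap (2 * n) H (0, 0, false) ∪
        Wrap (2 * n) H (0, b, false)) →
      pr (RF 0 ((2 * n : ℕ) : ℤ) (-H) H) (Wrap (2 * n) H e) ≤
        2 * C * (n : ℝ) ^ (-(1 / 4 : ℝ)) := by
    intro b e hb' he
    rcases Nat.eq_zero_or_pos H with rfl | hH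
    · have := pr_wrap_zero hL e
      simp only [Nat.cast_zero] at this ⊢
      rw [this]
      positivity
    · refine (pr_mono _ (he hH)).trans ((pr_union_le _ _ _).trans ?_)
      have := hver b hb'
      linarith
  intro i
  fin_cases i
  · show pr _ (Wrap (2 * n) H (0, 0, false)) ≤ _
    linarith
  · show pr _ (Wrap (2 * n) H (0, 0, true)) ≤ _
    exact h3 1 _ (Or.inl rfl) fun hH ω hω => wrap_one (by exact_mod_cast hH) hω
  · show pr _ (Wrap (2 * n) H (-1, 0, false)) ≤ _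
    linarith
  · show pr _ (Wrap (2 * n) H (0, -1, true)) ≤ _
    exact h3 (-1) _ (Or.inr rfl) fun hH ω hω => wrap_three (by exact_mod_cast hH) hω

end Pool.Agent.PercT

end Partpercu2WrapX
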