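import Pool.Agent.Lib.MP_6bd702_z.Z108
import Pool.Agent.Lib.MP_6bd702_z.Z105
import Pool.Agent.Lib.MP_6bd702_z.Z104
import Pool.Agent.Lib.MP_6bd702_z.Z100

section Partpercu2FinalU

/-!
# The upper bound for the two arm probability (task T_FinalU)
-/

set_option autoImplicit false

namespace Pool.Agent.PercT

open Finset Pool.Agent.Perc

namespace FinalU

theorem inB_eo {R : ℤ} (hR : 1 ≤ R) (i : Fin 4) : InB R (eo i) := by
  fin_cases i <;> simp only [InB, InR, eo, ua, ub] <;> simp <;> omega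

theorem toBd_mono {R R' : ℤ} (h : R ≤ R') {ω : Cfg} {u : ℤ × ℤ} (hu : InR (-R) R (-R) R u)
    (h1 : ToBd (-R') R' (-R') R' ω u) : ToBd (-R) R (-R) R ω u := by
  obtain ⟨v, hv, hb⟩ := h1
  obtain ⟨w, hw, hwb⟩ := hv.toBd (x₀ := -R) (x₁ := R) (y₀ := -R) (y₁ := R) hu (by
    unfold OnBd at hb
    omega)
  exact ⟨w, hw.mono Set.inter_subset_right, hwb⟩

theorem arm2_sub {R R' : ℤ} (h : R ≤ R') {e : UE} (he : InB R e) :
    ∀ ω ∈ Arm2 R' e, ω ∈ Arm2 R e := fun _ hω =>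
  ⟨toBd_mono h he.1 hω.1, toBd_mono h he.2 hω.2⟩

theorem depOn_toBd (x₀ x₁ y₀ y₁ : ℤ) (u : ℤ × ℤ) :
    DepOn (RF x₀ x₁ y₀ y₁ : Set (ℤ × ℤ)) {ω | ToBd x₀ x₁ y₀ y₁ ω u} := by
  intro ω ω' h
  constructor
  · rintro ⟨v, h1, h2⟩
    exact ⟨v, (depOn_conn _ _ v ω ω' h).1 h1, h2⟩
  · rintro ⟨v, h1, h2⟩
    exact ⟨v, (depOn_conn _ _ v ω ω' h).2 h1, h2⟩

theorem depOn_arm2 (R : ℤ) (e : UE) :
    DepOn (RF (-R) R (-R) R : Set (ℤ × ℤ)) (Arm2 R e) := fun ω ω' h =>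
  and_congr (depOn_toBd _ _ _ _ (ua e) ω ω' h) (depOn_toBd _ _ _ _ (ub e) ω ω' h)

theorem mt_congr {ω ω' : Cfg} {f : ℤ × ℤ} (h : ω f = ω' f) {a a' : UE} (hm : Mt ω f a a') :
    Mt ω' f a a' := by
  unfold Mt at *
  rw [← h]
  exact hm

theorem mm_sub {ω ω' : Cfg} {F : Set (ℤ × ℤ)} (h : ∀ f ∈ F, ω f = ω' f) {e a : UE}
    (ha : a ∈ MM ω F e) : a ∈ MM ω' F e := by
  have ha' : Relation.ReflTransGen (fun a a' => ∃ f ∈ F, Mt ω f a a') e a := ha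
  show Relation.ReflTransGen (fun a a' => ∃ f ∈ F, Mt ω' f a a') e a
  induction ha' with
  | refl => exact Relation.ReflTransGen.refl
  | tail _ hb ih =>
    obtain ⟨f, hf, hm⟩ := hb
    exact Relation.ReflTransGen.tail (ih ‹_›) ⟨f, hf, mt_congr (h f hf) hm⟩

theorem mm_congr {ω ω' : Cfg} {F : Set (ℤ × ℤ)} (h : ∀ f ∈ F, ω f = ω' f) (e : UE) :
    MM ω F e = MM ω' F e :=
  Set.Subset.antisymm (fun _ ha => mm_sub h ha) fun _ ha => mm_sub (fun f hf => (h f hf).symm) ha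

theorem depOn_sep (R g : ℤ) (e : UE) :
    DepOn (RF (-R) R (-R) R : Set (ℤ × ℤ)) (Sep R g e) := by
  intro ω ω' h
  have h1 : MM ω (RF (-R) R (-R) R) e = MM ω' (RF (-R) R (-R) R) e := mm_congr h e
  show (∃ x ∈ MM ω (RF (-R) R (-R) R) e, _) ↔ (∃ x ∈ MM ω' (RF (-R) R (-R) R) e, _)
  rw [h1]

/-- The sum over the four edges. -/
noncomputable def s (R : ℕ) : ℝ := ∑ i, pr (RF (-R) R (-R) R) (Arm2 R (eo i))

theorem box_sub {R R' : ℤ} (h : R ≤ R') : RF (-R) R (-R) R ⊆ RF (-R') R' (-R') R' := by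
  intro f hf
  simp only [RF, mem_product, mem_Ico] at hf ⊢
  omega

theorem s_anti {R R' : ℕ} (hR : 1 ≤ R) (h : R ≤ R') : s R' ≤ s R := by
  unfold s
  refine Finset.sum_le_sum fun i _ => ?_
  have h1 : pr (RF (-(R' : ℤ)) R' (-(R' : ℤ)) R') (Arm2 (R : ℤ) (eo i))
      = pr (RF (-(R : ℤ)) R (-(R : ℤ)) R) (Arm2 (R : ℤ) (eo i)) :=
    pr_eq_of_depOn (depOn_arm2 R (eo i)) (box_sub (by exact_mod_cast h))
  rw [← h1]
  exact pr_mono _ (arm2_sub (by exact_mod_cast h) (inB_eo (by exact_mod_cast hR) i))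

theorem s_le_four (R : ℕ) : s R ≤ 4 := by
  unfold s
  calc _ ≤ ∑ _i : Fin 4, (1 : ℝ) := Finset.sum_le_sum fun i _ => pr_le_one _ _
    _ = 4 := by simp

theorem step (hrsw : Rsw) (harm : OneArm) (hx : Exact) : ∃ (M : ℕ) (C : ℝ), 0 < M ∧ 0 < C ∧
    ∀ R : ℕ, 8 * M ≤ R → s (2 * R) ≤ s R / 2 + C * (R : ℝ) ^ (-(1 / 4 : ℝ)) := by
  obtain ⟨M, hM, hclose⟩ := close_prob harm (q := 1 / 2) (by norm_num)
  obtain ⟨C₁, hC₁, hglue⟩ := glue_prob hrsw M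
  obtain ⟨C₂, hC₂, hwrap⟩ := wrap_prob hx
  refine ⟨M, 16 * (C₁ * C₂), hM, by positivity, fun R hR => ?_⟩
  have hR1 : 1 ≤ R := by omega
  set r := R / (8 * M) with hr
  have hr1 : 1 ≤ r := (Nat.one_le_div_iff (by omega)).2 hR
  have hrR : 8 * M * r ≤ R := Nat.mul_div_le R (8 * M)
  have hlt : R < 8 * M * (r + 1) := Nat.lt_mul_div_succ R (by omega)
  have h8r : 8 * r ≤ R := by nlinarith
  have h16 : R ≤ 16 * M * r := by nlinarith
  have hMg : M * (8 * r) ≤ R := by nlinarith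
  have hg1 : 1 ≤ 8 * r := by omega
  -- one edge
  have hedge : ∀ i : Fin 4, pr (RF (-(2 * (R : ℤ))) (2 * R) (-(2 * (R : ℤ))) (2 * R))
      (Arm2 (2 * (R : ℤ)) (eo i)) ≤ 1 / 2 * pr (RF (-R) R (-R) R) (Arm2 R (eo i)) +
        pr (RF (-R) R (-R) R) (Sep R ((8 * r : ℕ) : ℤ) (eo i)) := by
    intro i
    have h1 := hclose (8 * r) R hg1 hMg (eo i) (inB_eo (by exact_mod_cast hR1) i)
    have h2 : pr (RF (-(2 * (R : ℤ))) (2 * R) (-(2 * (R : ℤ))) (2 * R))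
        (Sep R ((8 * r : ℕ) : ℤ) (eo i)) =
        pr (RF (-R) R (-R) R) (Sep R ((8 * r : ℕ) : ℤ) (eo i)) :=
      pr_eq_of_depOn (depOn_sep R _ (eo i)) (box_sub (by omega))
    rw [← h2]
    refine le_trans ?_ (add_le_add_left h1 _)
    refine le_trans ?_ (pr_union_le _ _ _)
    refine pr_mono _ fun ω hω => ?_
    by_cases hs : ω ∈ Sep R ((8 * r : ℕ) : ℤ) (eo i)
    · exact Or.inr hs
    · exact Or.inl ⟨hω, hs⟩
  have hwrapi : ∀ i : Fin 4, pr (RF (-R) R (-R) R) {ω | ∃ h, ω ∈ SepR R (8 * r) h (eo i)} ≤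
      C₁ * C₂ * (R : ℝ) ^ (-(1 / 4 : ℝ)) := by
    intro i
    refine (hglue r R hr1 h8r h16 (eo i) (inB_eo (by exact_mod_cast hR1) i)).trans ?_
    have h3 := hwrap (8 * R) (4 * R) (by omega) i
    have e1 : 2 * (8 * R) = 16 * R := by ring
    rw [e1] at h3
    push_cast at h3
    push_cast
    rw [mul_assoc]
    refine mul_le_mul_of_nonneg_left (h3.trans ?_) hC₁.le
    refine mul_le_mul_of_nonneg_left ?_ hC₂.le
    refine Real.rpow_le_rpow_of_nonpos ?_ ?_ (by norm_num)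
    · exact_mod_cast hR1
    · have : (0 : ℝ) ≤ R := Nat.cast_nonneg R
      linarith
  have hsum : ∑ i, pr (RF (-R) R (-R) R) (Sep R ((8 * r : ℕ) : ℤ) (eo i)) ≤
      16 * (C₁ * C₂) * (R : ℝ) ^ (-(1 / 4 : ℝ)) := by
    have h4 := rot_sum (R := R) (g := ((8 * r : ℕ) : ℤ)) (by exact_mod_cast hR1)
    refine h4.trans ?_
    have h5 : ∑ i, pr (RF (-R) R (-R) R) {ω | ∃ h, ω ∈ SepR R ((8 * r : ℕ) : ℤ) h (eo i)} ≤
        4 * (C₁ * C₂ * (R : ℝ) ^ (-(1 / 4 : ℝ))) := by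
      calc _ ≤ ∑ _i : Fin 4, C₁ * C₂ * (R : ℝ) ^ (-(1 / 4 : ℝ)) := by
            refine Finset.sum_le_sum fun i _ => ?_
            have := hwrapi i
            push_cast
            exact this
        _ = _ := by
            rw [Finset.sum_const, Finset.card_univ, Fintype.card_fin, nsmul_eq_mul]
            push_cast
            rfl
    linarith
  have hall : s (2 * R) ≤ ∑ i, (1 / 2 * pr (RF (-R) R (-R) R) (Arm2 R (eo i)) +
        pr (RF (-R) R (-R) R) (Sep R ((8 * r : ℕ) : ℤ) (eo i))) := by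
    unfold s
    refine Finset.sum_le_sum fun i _ => ?_
    have := hedge i
    push_cast
    push_cast at this
    exact this
  rw [Finset.sum_add_distrib, ← Finset.mul_sum] at hall
  have : s R = ∑ i, pr (RF (-R) R (-R) R) (Arm2 R (eo i)) := rfl
  rw [← this] at hall
  linarith

theorem s_upper (hrsw : Rsw) (harm : OneArm) (hx : Exact) : ∃ C : ℝ, 0 < C ∧ ∀ R : ℕ, 1 ≤ R →
    s R ≤ C * (R : ℝ) ^ (-(1 / 4 : ℝ)) := by
  obtain ⟨M, C, hM, hC, hstep⟩ := step hrsw harm hx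
  set K : ℝ := max (4 * C) (4 * ((16 * M + 2 : ℕ) : ℝ) ^ (1 / 4 : ℝ)) with hK
  have hK0 : 0 < K := lt_of_lt_of_le (by positivity) (le_max_left _ _)
  refine ⟨K, hK0, fun R => ?_⟩
  induction R using Nat.strong_induction_on with
  | _ R ih =>
    intro hR
    have hRpos : (0 : ℝ) < R := by exact_mod_cast hR
    by_cases hsmall : R < 16 * M + 2
    · refine (s_le_four R).trans ?_
      have h1 : (4 : ℝ) * ((16 * M + 2 : ℕ) : ℝ) ^ (1 / 4 : ℝ) ≤ K := le_max_right _ _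
      have h2 : (R : ℝ) ^ (1 / 4 : ℝ) ≤ ((16 * M + 2 : ℕ) : ℝ) ^ (1 / 4 : ℝ) :=
        Real.rpow_le_rpow hRpos.le (by exact_mod_cast hsmall.le) (by norm_num)
      have h3 : 0 < (R : ℝ) ^ (1 / 4 : ℝ) := Real.rpow_pos_of_pos hRpos _
      rw [Real.rpow_neg hRpos.le, ← div_eq_mul_inv, le_div_iff₀ h3]
      linarith
    · set R' := R / 2 with hR'
      have hR1 : 8 * M ≤ R' := by omega
      have hR1' : 1 ≤ R' := by omega
      have hlt : R' < R := by omega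
      have h3 : R ≤ 3 * R' := by omega
      have hpos' : (0 : ℝ) < R' := by exact_mod_cast hR1'
      have h4 : s R ≤ s (2 * R') := s_anti (by omega) (by omega)
      have h5 := hstep R' hR1
      have h6 := ih R' hlt hR1'
      have h7 : (R' : ℝ) ^ (-(1 / 4 : ℝ)) ≤ 4 / 3 * (R : ℝ) ^ (-(1 / 4 : ℝ)) := by
        have h8 : (3 : ℝ) ^ (1 / 4 : ℝ) ≤ 4 / 3 := by
          have h9 : (3 : ℝ) ^ (1 / 4 : ℝ) ≤ ((4 / 3 : ℝ) ^ (4 : ℕ)) ^ (1 / 4 : ℝ) :=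
            Real.rpow_le_rpow (by norm_num) (by norm_num) (by norm_num)
          rw [← Real.rpow_natCast, ← Real.rpow_mul (by norm_num)] at h9
          norm_num at h9
          exact h9
        have h10 : (R : ℝ) ^ (1 / 4 : ℝ) ≤ 4 / 3 * (R' : ℝ) ^ (1 / 4 : ℝ) := by
          calc (R : ℝ) ^ (1 / 4 : ℝ) ≤ (3 * (R' : ℝ)) ^ (1 / 4 : ℝ) :=
                Real.rpow_le_rpow hRpos.le (by exact_mod_cast h3) (by norm_num)
            _ = (3 : ℝ) ^ (1 / 4 : ℝ) * (R' : ℝ) ^ (1 / 4 : ℝ) :=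
                Real.mul_rpow (by norm_num) hpos'.le
            _ ≤ _ := mul_le_mul_of_nonneg_right h8 (Real.rpow_nonneg hpos'.le _)
        have h11 : 0 < (R : ℝ) ^ (1 / 4 : ℝ) := Real.rpow_pos_of_pos hRpos _
        have h12 : 0 < (R' : ℝ) ^ (1 / 4 : ℝ) := Real.rpow_pos_of_pos hpos' _
        rw [Real.rpow_neg hRpos.le, Real.rpow_neg hpos'.le, ← div_eq_mul_inv, le_div_iff₀ h11,
          inv_mul_le_iff₀ h12]
        linarith
      have h13 : 4 * C ≤ K := le_max_left _ _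
      have h14 : 0 ≤ (R : ℝ) ^ (-(1 / 4 : ℝ)) := Real.rpow_nonneg hRpos.le _
      calc s R ≤ s R' / 2 + C * (R' : ℝ) ^ (-(1 / 4 : ℝ)) := h4.trans h5
        _ ≤ (K / 2 + C) * (R' : ℝ) ^ (-(1 / 4 : ℝ)) := by linarith
        _ ≤ (K / 2 + C) * (4 / 3 * (R : ℝ) ^ (-(1 / 4 : ℝ))) :=
            mul_le_mul_of_nonneg_left h7 (by positivity)
        _ = (K / 2 + C) * (4 / 3) * (R : ℝ) ^ (-(1 / 4 : ℝ)) := by ring
        _ ≤ K * (R : ℝ) ^ (-(1 / 4 : ℝ)) := by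
            refine mul_le_mul_of_nonneg_right ?_ h14
            linarith

end FinalU

theorem arm2_upper (hrsw : Rsw) (harm : OneArm) (hx : Exact) : ∃ C : ℝ, 0 < C ∧ ∀ R : ℕ, 1 ≤ R → ∀ i : Fin 4,
    pr (RF (-R) R (-R) R) (Arm2 R (eo i)) ≤ C * (R : ℝ) ^ (-(1 / 4 : ℝ)) := by
  obtain ⟨C, hC, h⟩ := FinalU.s_upper hrsw harm hx
  refine ⟨C, hC, fun R hR i => le_trans ?_ (h R hR)⟩
  exact Finset.single_le_sum (f := fun i => pr (RF (-(R : ℤ)) R (-(R : ℤ)) R) (Arm2 R (eo i)))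
    (fun j _ => pr_nonneg _ _) (Finset.mem_univ i)

theorem p2_upper (hrsw : Rsw) (harm : OneArm) (hx : Exact) : ∃ C : ℝ, 0 < C ∧ ∀ R : ℕ, 1 ≤ R →
    p2 R ≤ C * (R : ℝ) ^ (-(1 / 4 : ℝ)) := by
  obtain ⟨C, hC, h⟩ := arm2_upper hrsw harm hx
  refine ⟨C, hC, fun R hR => ?_⟩
  exact h R hR 0

end Pool.Agent.PercT

end Partpercu2FinalU

section Partpercu2Upper

/-!
# The upper bound for the two arm probability, unconditional
-/

set_option autoImplicit false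

namespace Pool.Agent.PercT

open Finset Pool.Agent.Perc

theorem exact_holds : Exact := by
  obtain ⟨C, hC, h⟩ := pv_le
  refine ⟨C, hC, fun n H hn => ?_⟩
  have e1 : Wrap (2 * n) (H : ℤ) (0, 0, false) ⊆ wrap2 (2 * n) H := by
    rintro ω ⟨h1, h2⟩
    have e2 : stripZ (H : ℤ) = strip H := rfl
    rw [e2] at h1 h2
    refine ⟨?_, ?_⟩
    · simpa [ua] using h1
    · simpa [ub, add_comm] using h2
  calc pr (RF 0 ((2 * n : ℕ) : ℤ) (-H) H) (Wrap (2 * n) H (0, 0, false))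
      ≤ pr (RF 0 ((2 * n : ℕ) : ℤ) (-H) H) (wrap2 (2 * n) H) := pr_mono _ fun ω hω => e1 hω
    _ ≤ pv n := pr_wrap2_le_pv (by omega) H
    _ ≤ C * (n : ℝ) ^ (-(1 / 4 : ℝ)) := h n (by omega)

/-- Two arms: upper bound for the four unit edges at the origin. -/
theorem arm2_le_quarter : ∃ C : ℝ, 0 < C ∧ ∀ R : ℕ, 1 ≤ R → ∀ i : Fin 4,
    pr (RF (-R) R (-R) R) (Arm2 R (eo i)) ≤ C * (R : ℝ) ^ (-(1 / 4 : ℝ)) :=
  arm2_upper rsw_holds oneArm_holds exact_holds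

/-- The two arm probability is at most `C R ^ (-1 / 4)`. -/
theorem p2_le_quarter : ∃ C : ℝ, 0 < C ∧ ∀ R : ℕ, 1 ≤ R →
    p2 R ≤ C * (R : ℝ) ^ (-(1 / 4 : ℝ)) :=
  p2_upper rsw_holds oneArm_holds exact_holds

end Pool.Agent.PercT

end Partpercu2Upper
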