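import Pool.Agent.Lib.MP_6bd702_z.Pre

/-!
# Half-plane: the product (task HPD)
-/

set_option autoImplicit false

namespace Pool.Agent.Perc

open Finset

theorem HPD.cube (n : ℕ) :
    (∏ k ∈ range n, ((3 * k + 1 : ℝ) / (3 * k + 2))) ^ 3 * (7 * n + 1) ≤ 1 := by
  induction n with
  | zero => simp
  | succ n ih =>
    rw [Finset.prod_range_succ, mul_pow]
    have h0 : (0 : ℝ) ≤ (∏ k ∈ range n, ((3 * k + 1 : ℝ) / (3 * k + 2))) ^ 3 :=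
      pow_nonneg (Finset.prod_nonneg fun k _ => by positivity) 3
    have hn : (0 : ℝ) ≤ (n : ℝ) := Nat.cast_nonneg n
    have h1 : ((3 * n + 1 : ℝ) / (3 * n + 2)) ^ 3 * (7 * ((n + 1 : ℕ) : ℝ) + 1) ≤ 7 * n + 1 := by
      rw [div_pow, div_mul_eq_mul_div, div_le_iff₀ (by positivity)]
      push_cast
      nlinarith [hn, mul_nonneg hn hn]
    calc (∏ k ∈ range n, ((3 * k + 1 : ℝ) / (3 * k + 2))) ^ 3 * ((3 * n + 1 : ℝ) / (3 * n + 2)) ^ 3 *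
          (7 * ((n + 1 : ℕ) : ℝ) + 1)
        = (∏ k ∈ range n, ((3 * k + 1 : ℝ) / (3 * k + 2))) ^ 3 *
          (((3 * n + 1 : ℝ) / (3 * n + 2)) ^ 3 * (7 * ((n + 1 : ℕ) : ℝ) + 1)) := by ring
      _ ≤ (∏ k ∈ range n, ((3 * k + 1 : ℝ) / (3 * k + 2))) ^ 3 * (7 * n + 1) :=
          mul_le_mul_of_nonneg_left h1 h0
      _ ≤ 1 := ih

theorem prod_le {n : ℕ} (hn : 0 < n) :
    ∏ k ∈ range n, ((3 * k + 1 : ℝ) / (3 * k + 2)) ≤ (n : ℝ) ^ (-(1 / 3 : ℝ)) := by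
  have hn' : (0 : ℝ) < n := Nat.cast_pos.mpr hn
  set P : ℝ := ∏ k ∈ range n, ((3 * k + 1 : ℝ) / (3 * k + 2)) with hP
  have h0 : 0 ≤ P := Finset.prod_nonneg fun k _ => by positivity
  have h1 : P ^ 3 * (7 * n + 1) ≤ 1 := HPD.cube n
  have h3 : P ^ 3 * n ≤ 1 := by nlinarith [pow_nonneg h0 3]
  have h2 : P ^ 3 ≤ (n : ℝ)⁻¹ := by
    rw [inv_eq_one_div, le_div_iff₀ hn']
    exact h3
  have h4 : (n : ℝ)⁻¹ = ((n : ℝ) ^ (-(1 / 3 : ℝ))) ^ 3 := by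
    rw [← Real.rpow_natCast, ← Real.rpow_mul hn'.le, ← Real.rpow_neg_one]
    norm_num
  rw [h4] at h2
  exact le_of_pow_le_pow_left₀ (by norm_num) (Real.rpow_nonneg hn'.le _) h2

end Pool.Agent.Perc
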