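import Pool.Agent.Lib.MP_6bd702_z.Z079
import Pool.Agent.Lib.MP_6bd702_z.Z065
import Pool.Agent.Lib.MP_6bd702_z.Z016
import Pool.Agent.Lib.MP_6bd702_z.Z114
import Pool.Agent.Lib.MP_6bd702_z.HPDefs
import Pool.Agent.Lib.MP_6bd702_z.Z014
import Pool.Agent.Lib.MP_6bd702_z.Z081

section PartperhHPA

/-!
# Half-plane: exact upper bound for a wrapping cluster (task HPA)
-/

set_option autoImplicit false

namespace Pool.Agent.Perc

open Finset Filter Topology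

/-- The cluster of `(0, 0)` in the upper half of the cylinder wraps around. -/
def wrapU (L M : ℕ) : Set Cfg :=
  {ω | Conn (perC L ω) {f | 0 ≤ f.2 ∧ f.2 < M} (0, 0) ((L : ℤ), 0)}

theorem HPA.isAnn_run {L M : ℕ} (hL : L % 2 = 0) (hL0 : 0 < L) (ω : Cfg) :
    IsAnn L (run L ω M (s0 L)) := by
  obtain ⟨s, g, h1, _, _, h4⟩ := sound_run (M := M) hL hL0 ω (j := M) le_rfl
  rw [h4, Nat.sub_self]
  exact h1

theorem v0_of_wrapU {L M : ℕ} (hL : L % 2 = 0) (hL0 : 0 < L) {ω : Cfg} (h : ω ∈ wrapU L M) :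
    (run L ω M (s0 L)).2 = fun _ => false := by
  have hs := complete_run hL hL0 ω (k := 0) (l := (L : ℤ)) h
  funext x
  by_cases hx : L ≤ x
  · exact (HPA.isAnn_run hL hL0 ω).out x hx
  · rw [not_le] at hx
    have hp := (HPA.isAnn_run (M := M) hL hL0 ω).nc
    by_contra hne
    rw [Bool.not_eq_false] at hne
    have h2 := hs (x : ℤ)
    have h3 : (x : ℤ) / (L : ℤ) = 0 := Int.ediv_eq_zero_of_lt (by omega) (by omega)
    have h4 : ((x : ℤ) % (L : ℤ)).toNat = x := by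
      rw [Int.emod_eq_of_lt (by omega) (by omega), Int.toNat_natCast]
    have h5 : (run L ω M (s0 L)).1 x < L := hp.lt x hx
    unfold liftS at h2
    rw [h3, h4, if_pos hne] at h2
    split_ifs at h2 with h6 <;> omega

theorem HPA.depOn_wrapU (L M : ℕ) (hL0 : 0 < L) :
    DepOn (RF 0 (L : ℤ) 0 M : Set (ℤ × ℤ)) (wrapU L M) := by
  intro ω ω' h
  refine depOn_conn {f | 0 ≤ f.2 ∧ f.2 < (M : ℤ)} (0, 0) ((L : ℤ), 0) _ _ fun f hf => ?_
  unfold perC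
  apply h
  rw [mem_coe, CylArmB.mem_RF]
  exact ⟨⟨Int.emod_nonneg _ (by omega), Int.emod_lt_of_pos _ (by omega)⟩, hf.1, hf.2⟩

theorem HPA.pr_wrapU_le_avg {n : ℕ} (hn : 0 < n) (M : ℕ) :
    pr (RF 0 ((2 * n : ℕ) : ℤ) 0 M) (wrapU (2 * n) M) ≤
      (((avgL (2 * n))^[M] v0) (s0 (2 * n))).re := by
  rw [← ex_run]
  rw [ex_indicator {ω : Cfg | (run (2 * n) ω M (s0 (2 * n))).2 = fun _ => false}
    (fun ω => v0 (run (2 * n) ω M (s0 (2 * n))))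
    (fun ω hω => if_pos hω) (fun ω hω => if_neg hω)]
  rw [Complex.ofReal_re]
  exact pr_mono _ fun ω hω => v0_of_wrapU (by omega) (by omega) hω

theorem HPA.pr_wrapU_mono {L : ℕ} (hL0 : 0 < L) {M M' : ℕ} (h : M ≤ M') :
    pr (RF 0 (L : ℤ) 0 M) (wrapU L M) ≤ pr (RF 0 (L : ℤ) 0 M') (wrapU L M') := by
  rw [← pr_eq_of_depOn (S' := RF 0 (L : ℤ) 0 M') (HPA.depOn_wrapU L M hL0)]
  · refine pr_mono _ fun ω hω => ?_
    have hF : ({f | 0 ≤ f.2 ∧ f.2 < (M : ℤ)} : Set (ℤ × ℤ)) ⊆ {f | 0 ≤ f.2 ∧ f.2 < (M' : ℤ)} :=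
      fun f hf => ⟨hf.1, lt_of_lt_of_le hf.2 (by exact_mod_cast h)⟩
    exact Conn.mono hF hω
  · intro f hf
    rw [CylArmB.mem_RF] at hf ⊢
    exact ⟨hf.1, hf.2.1, lt_of_lt_of_le hf.2.2 (by exact_mod_cast h)⟩

theorem pr_wrapU_le {n : ℕ} (hn : 0 < n) (M : ℕ) :
    pr (RF 0 ((2 * n : ℕ) : ℤ) 0 M) (wrapU (2 * n) M) ≤
      ∏ k ∈ range n, ((3 * k + 1 : ℝ) / (3 * k + 2)) := by
  have h1 := tendsto_avg hn
  have h2 := (Complex.continuous_re.tendsto _).comp h1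
  have h3 : (∏ k ∈ range n, ((3 * k + 1 : ℂ) / (3 * k + 2))).re
      = ∏ k ∈ range n, ((3 * k + 1 : ℝ) / (3 * k + 2)) := by
    rw [← Complex.ofReal_re (∏ k ∈ range n, ((3 * k + 1 : ℝ) / (3 * k + 2)))]
    congr 1
    push_cast
    rfl
  rw [h3] at h2
  refine ge_of_tendsto h2 ?_
  filter_upwards [eventually_ge_atTop M] with M' hM'
  exact (HPA.pr_wrapU_mono (by omega) hM').trans (HPA.pr_wrapU_le_avg hn M')

end Pool.Agent.Perc

end PartperhHPA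

section PartperhHPB

/-!
# Half-plane: an arm and four crossings give a wrapping cluster (task HPB)
-/

set_option autoImplicit false

namespace Pool.Agent.Perc

open Finset

namespace HPB

theorem mem_RF {x₀ x₁ y₀ y₁ : ℤ} {f : ℤ × ℤ} :
    f ∈ RF x₀ x₁ y₀ y₁ ↔ (x₀ ≤ f.1 ∧ f.1 < x₁) ∧ y₀ ≤ f.2 ∧ f.2 < y₁ := by
  unfold RF
  rw [mem_product, mem_Ico, mem_Ico]

/-- A path in a horizontal strip which goes from the left of `x₀` to the right of `x₁` contains a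
crossing of the rectangle. -/
theorem lr_sub {ω : Cfg} {x₀ x₁ y₀ y₁ : ℤ} {F : Set (ℤ × ℤ)} {u v : ℤ × ℤ}
    (hF : ∀ f ∈ F, y₀ ≤ f.2 ∧ f.2 < y₁) (hx : x₀ < x₁)
    (hu : u.1 ≤ x₀) (hv : x₁ ≤ v.1) (h : Conn ω F u v) :
    ∃ s t : ℤ × ℤ, s.1 = x₀ ∧ y₀ ≤ s.2 ∧ s.2 ≤ y₁ ∧ t.1 = x₁ ∧ Conn ω F u s ∧
      Conn ω (RF x₀ x₁ y₀ y₁) s t := by
  have key : v.1 ≤ x₀ ∨ (v.1 ≤ x₁ ∧ ∃ s : ℤ × ℤ, s.1 = x₀ ∧ y₀ ≤ s.2 ∧ s.2 ≤ y₁ ∧
      Conn ω F u s ∧ Conn ω (RF x₀ x₁ y₀ y₁) s v) ∨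
      (∃ s t : ℤ × ℤ, s.1 = x₀ ∧ y₀ ≤ s.2 ∧ s.2 ≤ y₁ ∧ t.1 = x₁ ∧ Conn ω F u s ∧
      Conn ω (RF x₀ x₁ y₀ y₁) s t) := by
    clear hv
    induction h with
    | refl => exact Or.inl hu
    | @tail w w' hw hb ih =>
      have hstep : (w'.1 = w.1 + 1 ∨ w'.1 = w.1 - 1) ∧ y₀ ≤ w.2 ∧ w.2 ≤ y₁ ∧
          Bond ω {f | f.1 = min w.1 w'.1 ∧ y₀ ≤ f.2 ∧ f.2 < y₁} w w' := by
        obtain ⟨x, y, hm, hh⟩ := hb
        have hm' := hF _ hm
        simp only at hm'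
        refine ⟨?_, ?_, ?_, x, y, ?_, hh⟩
        · rcases hh with ⟨_, ⟨rfl, rfl⟩ | ⟨rfl, rfl⟩⟩ | ⟨_, ⟨rfl, rfl⟩ | ⟨rfl, rfl⟩⟩
          · left; rfl
          · right; dsimp only; omega
          · left; rfl
          · right; dsimp only; omega
        · rcases hh with ⟨_, ⟨rfl, rfl⟩ | ⟨rfl, rfl⟩⟩ | ⟨_, ⟨rfl, rfl⟩ | ⟨rfl, rfl⟩⟩ <;>
            simp only <;> omega
        · rcases hh with ⟨_, ⟨rfl, rfl⟩ | ⟨rfl, rfl⟩⟩ | ⟨_, ⟨rfl, rfl⟩ | ⟨rfl, rfl⟩⟩ <;>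
            simp only <;> omega
        · change x = min w.1 w'.1 ∧ y₀ ≤ y ∧ y < y₁
          refine ⟨?_, hm'⟩
          rcases hh with ⟨_, ⟨rfl, rfl⟩ | ⟨rfl, rfl⟩⟩ | ⟨_, ⟨rfl, rfl⟩ | ⟨rfl, rfl⟩⟩ <;>
            simp only <;> omega
      obtain ⟨hx1, hw1, hw2, hb'⟩ := hstep
      have hbond : x₀ ≤ min w.1 w'.1 → min w.1 w'.1 < x₁ →
          Conn ω (RF x₀ x₁ y₀ y₁) w w' := by
        intro h1 h2
        refine Relation.ReflTransGen.single ?_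
        obtain ⟨x, y, hm, hh⟩ := hb'
        refine ⟨x, y, ?_, hh⟩
        have hm2 : x = min w.1 w'.1 ∧ y₀ ≤ y ∧ y < y₁ := hm
        rw [Finset.mem_coe, mem_RF]
        dsimp only
        omega
      rcases ih with h4 | ⟨h4, s, h5, h6, h7, h8, h9⟩ | h4
      · by_cases h5 : w'.1 ≤ x₀
        · exact Or.inl h5
        · right; left
          have hwx : w.1 = x₀ := by omega
          exact ⟨by omega, w, hwx, hw1, hw2, hw, hbond (by omega) (by omega)⟩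
      · by_cases h10 : w'.1 ≤ x₀
        · exact Or.inl h10
        · right
          by_cases h11 : w'.1 ≤ x₁
          · left
            exact ⟨h11, s, h5, h6, h7, h8, h9.trans (hbond (by omega) (by omega))⟩
          · right
            exact ⟨s, w, h5, h6, h7, by omega, h8, h9⟩
      · exact Or.inr (Or.inr h4)
  rcases key with h4 | ⟨h4, s, h5, h6, h7, h8, h9⟩ | h4
  · omega
  · exact ⟨s, v, h5, h6, h7, by omega, h8, h9⟩
  · exact h4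

/-- The swap of the coordinates. -/
theorem conn_sw {ω : Cfg} {F : Set (ℤ × ℤ)} {u v : ℤ × ℤ} (h : Conn ω F u v) :
    Conn (fun f : ℤ × ℤ => ω (f.2, f.1)) {f | (f.2, f.1) ∈ F} (u.2, u.1) (v.2, v.1) := by
  refine GridA.conn_lift (fun w : ℤ × ℤ => (w.2, w.1)) ?_ h
  rintro w w' ⟨x, y, hm, hh⟩
  refine ⟨y, x, hm, ?_⟩
  rcases hh with ⟨h1, ⟨rfl, rfl⟩ | ⟨rfl, rfl⟩⟩ | ⟨h1, ⟨rfl, rfl⟩ | ⟨rfl, rfl⟩⟩
  · exact Or.inl ⟨h1, Or.inl ⟨rfl, rfl⟩⟩
  · exact Or.inl ⟨h1, Or.inr ⟨rfl, rfl⟩⟩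
  · exact Or.inr ⟨h1, Or.inr ⟨rfl, rfl⟩⟩
  · exact Or.inr ⟨h1, Or.inl ⟨rfl, rfl⟩⟩

theorem bt_sub {ω : Cfg} {x₀ x₁ y₀ y₁ : ℤ} {F : Set (ℤ × ℤ)} {u v : ℤ × ℤ}
    (hF : ∀ f ∈ F, x₀ ≤ f.1 ∧ f.1 < x₁) (hy : y₀ < y₁)
    (hu : u.2 ≤ y₀) (hv : y₁ ≤ v.2) (h : Conn ω F u v) :
    ∃ s t : ℤ × ℤ, s.2 = y₀ ∧ x₀ ≤ s.1 ∧ s.1 ≤ x₁ ∧ t.2 = y₁ ∧ Conn ω F u s ∧
      Conn ω (RF x₀ x₁ y₀ y₁) s t := by
  obtain ⟨s, t, h1, h2, h3, h4, h5, h6⟩ := lr_sub (ω := fun f : ℤ × ℤ => ω (f.2, f.1))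
    (F := {f | (f.2, f.1) ∈ F}) (fun f hf => hF _ hf) hy hu hv (conn_sw h)
  refine ⟨(s.2, s.1), (t.2, t.1), h1, h2, h3, h4, conn_sw h5, ?_⟩
  refine Conn.mono ?_ (conn_sw h6)
  intro f hf
  have hf2 : (f.2, f.1) ∈ (RF y₀ y₁ x₀ x₁ : Set (ℤ × ℤ)) := hf
  rw [Finset.mem_coe, mem_RF] at hf2 ⊢
  exact ⟨hf2.2, hf2.1⟩

/-- Two crossing paths of the same parity meet. -/
theorem cross {ω : Cfg} {x₀ x₁ y₀ y₁ : ℤ} {F F' G : Set (ℤ × ℤ)} {u v u' v' : ℤ × ℤ}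
    (hx : x₀ < x₁) (hy : y₀ < y₁)
    (hF : ∀ f ∈ F, y₀ ≤ f.2 ∧ f.2 < y₁) (hF' : ∀ f ∈ F', x₀ ≤ f.1 ∧ f.1 < x₁)
    (hG : F ⊆ G) (hG' : F' ⊆ G) (hR : (RF x₀ x₁ y₀ y₁ : Set (ℤ × ℤ)) ⊆ G)
    (hu : u.1 ≤ x₀) (hv : x₁ ≤ v.1) (hu' : u'.2 ≤ y₀) (hv' : y₁ ≤ v'.2)
    (hp : (u.1 + u.2) % 2 = (u'.1 + u'.2) % 2)
    (h : Conn ω F u v) (h' : Conn ω F' u' v') : Conn ω G u u' := by
  obtain ⟨s, t, a1, a2, a3, a4, a5, a6⟩ := lr_sub hF hx hu hv h
  obtain ⟨s', t', b1, b2, b3, b4, b5, b6⟩ := bt_sub hF' hy hu' hv' h'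
  have hp1 := Conn.parity a5
  have hp2 := Conn.parity b5
  have hm := crossings_meet hx hy (u := s) (v := t) (u' := s') (v' := t') ⟨a1, a2, a3⟩ a4
    ⟨b1, b2, b3⟩ b4 (by omega) a6 b6
  exact (Conn.mono hG a5).trans ((Conn.mono hR hm).trans (Conn.mono hG' b5).symm)

/-- Periodicity. -/
theorem per {L : ℕ} {ω : Cfg} {M : ℕ} {u v : ℤ × ℤ}
    (h : Conn (perC L ω) {f | 0 ≤ f.2 ∧ f.2 < M} u v) :
    Conn (perC L ω) {f | 0 ≤ f.2 ∧ f.2 < M} (u.1 + L, u.2) (v.1 + L, v.2) := by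
  refine GridA.conn_lift (fun w : ℤ × ℤ => (w.1 + L, w.2)) ?_ h
  rintro w w' ⟨x, y, hm, hh⟩
  refine ⟨x + L, y, hm, ?_⟩
  have e : perC L ω (x + L, y) = perC L ω (x, y) := by
    simp [perC]
  rw [e]
  rcases hh with ⟨h1, ⟨rfl, rfl⟩ | ⟨rfl, rfl⟩⟩ | ⟨h1, ⟨rfl, rfl⟩ | ⟨rfl, rfl⟩⟩
  · exact Or.inl ⟨h1, Or.inl ⟨rfl, by ext <;> dsimp only; ring⟩⟩
  · exact Or.inl ⟨h1, Or.inr ⟨by ext <;> dsimp only; ring, rfl⟩⟩
  · exact Or.inr ⟨h1, Or.inl ⟨rfl, by ext <;> dsimp only; ring⟩⟩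
  · exact Or.inr ⟨h1, Or.inr ⟨by ext <;> dsimp only; ring, rfl⟩⟩

/-- Periodicity, general window. -/
theorem per' {L : ℕ} {ω : Cfg} {x₀ x₁ y₀ y₁ : ℤ} {u v : ℤ × ℤ}
    (h : Conn (perC L ω) (RF x₀ x₁ y₀ y₁) u v) :
    Conn (perC L ω) (RF (x₀ + L) (x₁ + L) y₀ y₁) (u.1 + L, u.2) (v.1 + L, v.2) := by
  refine GridA.conn_lift (fun w : ℤ × ℤ => (w.1 + L, w.2)) ?_ h
  rintro w w' ⟨x, y, hm, hh⟩
  rw [Finset.mem_coe, mem_RF] at hm
  dsimp only at hm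
  refine ⟨x + L, y, ?_, ?_⟩
  · rw [Finset.mem_coe, mem_RF]
    dsimp only
    omega
  have e : perC L ω (x + L, y) = perC L ω (x, y) := by
    simp [perC]
  rw [e]
  rcases hh with ⟨h1, ⟨rfl, rfl⟩ | ⟨rfl, rfl⟩⟩ | ⟨h1, ⟨rfl, rfl⟩ | ⟨rfl, rfl⟩⟩
  · exact Or.inl ⟨h1, Or.inl ⟨rfl, by ext <;> dsimp only; ring⟩⟩
  · exact Or.inl ⟨h1, Or.inr ⟨by ext <;> dsimp only; ring, rfl⟩⟩
  · exact Or.inr ⟨h1, Or.inl ⟨rfl, by ext <;> dsimp only; ring⟩⟩
  · exact Or.inr ⟨h1, Or.inr ⟨by ext <;> dsimp only; ring, rfl⟩⟩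

/-- Rectangles in the strip. -/
theorem sub_strip {x₀ x₁ y₀ y₁ : ℤ} {M : ℕ} (h0 : 0 ≤ y₀) (h1 : y₁ ≤ M) :
    (RF x₀ x₁ y₀ y₁ : Set (ℤ × ℤ)) ⊆ {f | 0 ≤ f.2 ∧ f.2 < M} := by
  intro f hf
  rw [Finset.mem_coe, mem_RF] at hf
  exact ⟨by omega, by omega⟩

theorem inY {x₀ x₁ y₀ y₁ a b : ℤ} (h0 : a ≤ y₀) (h1 : y₁ ≤ b) :
    ∀ f ∈ (RF x₀ x₁ y₀ y₁ : Set (ℤ × ℤ)), a ≤ f.2 ∧ f.2 < b := by
  intro f hf
  rw [Finset.mem_coe, mem_RF] at hf
  omega

theorem inX {x₀ x₁ y₀ y₁ a b : ℤ} (h0 : a ≤ x₀) (h1 : x₁ ≤ b) :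
    ∀ f ∈ (RF x₀ x₁ y₀ y₁ : Set (ℤ × ℤ)), a ≤ f.1 ∧ f.1 < b := by
  intro f hf
  rw [Finset.mem_coe, mem_RF] at hf
  omega

end HPB

/-- `r = 2 k`, circumference `L = 8 k`. -/
theorem wrapU_of_arm {k : ℕ} (hk : 0 < k) {ω : Cfg}
    (h0 : perC (8 * k) ω ∈ hpArm ((2 * k : ℕ) : ℤ))
    (h1 : perC (8 * k) ω ∈ BT 0 (-(2 * k)) (-k) 0 (2 * k))
    (h2 : perC (8 * k) ω ∈ BT 0 k (2 * k) 0 (2 * k))
    (h3 : perC (8 * k) ω ∈ LR 0 (-(2 * k)) (2 * k) k (2 * k))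
    (h4 : perC (8 * k) ω ∈ LR 0 k (8 * k - k) 0 (2 * k)) : ω ∈ wrapU (8 * k) (2 * k) := by
  obtain ⟨w, w1, w2⟩ := h0
  obtain ⟨a, a', a1, a2, a3, a4, a5, a6⟩ := h1
  obtain ⟨b, b', b1, b2, b3, b4, b5, b6⟩ := h2
  obtain ⟨c, c', c1, c2, c3, c4, c5, c6⟩ := h3
  obtain ⟨d, d', d1, d2, d3, d4, d5, d6⟩ := h4
  set S : Set (ℤ × ℤ) := {f | 0 ≤ f.2 ∧ f.2 < ((2 * k : ℕ) : ℤ)} with hS
  have hM : ((2 * k : ℕ) : ℤ) = 2 * (k : ℤ) := by push_cast; ring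
  have hpw := Conn.parity w1
  dsimp only at hpw
  rw [hM] at w1 w2
  have hca : Conn (perC (8 * k) ω) S c a :=
    HPB.cross (x₀ := -(2 * k)) (x₁ := -k) (y₀ := k) (y₁ := 2 * k) (by omega) (by omega)
      (HPB.inY le_rfl le_rfl) (HPB.inX le_rfl le_rfl) (HPB.sub_strip (by omega) (by omega))
      (HPB.sub_strip (by omega) (by omega)) (HPB.sub_strip (by omega) (by omega))
      (by omega) (by omega) (by omega) (by omega) (by omega) c6 a6
  have hcb : Conn (perC (8 * k) ω) S c b :=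
    HPB.cross (x₀ := k) (x₁ := 2 * k) (y₀ := k) (y₁ := 2 * k) (by omega) (by omega)
      (HPB.inY le_rfl le_rfl) (HPB.inX le_rfl le_rfl) (HPB.sub_strip (by omega) (by omega))
      (HPB.sub_strip (by omega) (by omega)) (HPB.sub_strip (by omega) (by omega))
      (by omega) (by omega) (by omega) (by omega) (by omega) c6 b6
  have hdb : Conn (perC (8 * k) ω) S d b :=
    HPB.cross (x₀ := k) (x₁ := 2 * k) (y₀ := 0) (y₁ := 2 * k) (by omega) (by omega)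
      (HPB.inY le_rfl le_rfl) (HPB.inX le_rfl le_rfl) (HPB.sub_strip (by omega) (by omega))
      (HPB.sub_strip (by omega) (by omega)) (HPB.sub_strip (by omega) (by omega))
      (by omega) (by omega) (by omega) (by omega) (by omega) d6 b6
  have hda : Conn (perC (8 * k) ω) S d (a.1 + ((8 * k : ℕ) : ℤ), a.2) :=
    HPB.cross (x₀ := 6 * k) (x₁ := 7 * k) (y₀ := 0) (y₁ := 2 * k) (by omega) (by omega)
      (HPB.inY le_rfl le_rfl) (HPB.inX (by push_cast; omega) (by push_cast; omega))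
      (HPB.sub_strip (by omega) (by omega))
      (HPB.sub_strip (by omega) (by omega)) (HPB.sub_strip (by omega) (by omega))
      (by omega) (by omega) (by dsimp only; omega) (by dsimp only; omega)
      (by dsimp only; push_cast; omega) d6 (HPB.per' a6)
  have h0a : Conn (perC (8 * k) ω) S (0, 0) a := by
    rcases w2 with w2 | w2 | w2
    · have hwa : Conn (perC (8 * k) ω) S w a :=
        HPB.cross (x₀ := -(2 * k)) (x₁ := -k) (y₀ := 0) (y₁ := 2 * k) (by omega) (by omega)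
          (HPB.inY le_rfl le_rfl) (HPB.inX le_rfl le_rfl) (HPB.sub_strip (by omega) (by omega))
          (HPB.sub_strip (by omega) (by omega)) (HPB.sub_strip (by omega) (by omega))
          (by omega) (by dsimp only; omega) (by omega) (by omega) (by omega) w1.symm a6
      exact (Conn.mono (HPB.sub_strip (by omega) (by omega)) w1).trans hwa
    · have hwb : Conn (perC (8 * k) ω) S (0, 0) b :=
        HPB.cross (x₀ := k) (x₁ := 2 * k) (y₀ := 0) (y₁ := 2 * k) (by omega) (by omega)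
          (HPB.inY le_rfl le_rfl) (HPB.inX le_rfl le_rfl) (HPB.sub_strip (by omega) (by omega))
          (HPB.sub_strip (by omega) (by omega)) (HPB.sub_strip (by omega) (by omega))
          (by dsimp only; omega) (by omega) (by omega) (by omega) (by dsimp only; omega) w1 b6
      exact hwb.trans (hcb.symm.trans hca)
    · have hwc : Conn (perC (8 * k) ω) S c (0, 0) :=
        HPB.cross (x₀ := -(2 * k)) (x₁ := 2 * k) (y₀ := k) (y₁ := 2 * k) (by omega) (by omega)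
          (HPB.inY le_rfl le_rfl) (HPB.inX le_rfl le_rfl) (HPB.sub_strip (by omega) (by omega))
          (HPB.sub_strip (by omega) (by omega)) (HPB.sub_strip (by omega) (by omega))
          (by omega) (by omega) (by dsimp only; omega) (by omega) (by dsimp only; omega) c6 w1
      exact hwc.symm.trans hca
  have h8 := HPB.per h0a
  dsimp only at h8
  rw [zero_add] at h8
  exact h0a.trans (hca.symm.trans (hcb.trans (hdb.symm.trans (hda.trans h8.symm))))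

end Pool.Agent.Perc

end PartperhHPB

section PartperhHPC

/-!
# Half-plane: upper bound for the arm (task HPC)

The hypothesis `hR` is the RSW theorem on the face grid (helper43, `rswF`).
-/

set_option autoImplicit false

namespace Pool.Agent.Perc

open Finset

namespace HPC

theorem mem_RF {x₀ x₁ y₀ y₁ : ℤ} {f : ℤ × ℤ} :
    f ∈ RF x₀ x₁ y₀ y₁ ↔ (x₀ ≤ f.1 ∧ f.1 < x₁) ∧ y₀ ≤ f.2 ∧ f.2 < y₁ := by
  unfold RF
  rw [mem_product, mem_Ico, mem_Ico]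

/-- The event that the periodic extension is in `A`. -/
def per (L : ℕ) (A : Set Cfg) : Set Cfg := {ω | perC L ω ∈ A}

theorem depOn_per {L : ℕ} (hL0 : 0 < L) {M : ℕ} {x₀ x₁ y₀ y₁ : ℤ} {A : Set Cfg}
    (hA : DepOn (RF x₀ x₁ y₀ y₁ : Set (ℤ × ℤ)) A) (h0 : 0 ≤ y₀) (h1 : y₁ ≤ M) :
    DepOn (RF 0 (L : ℤ) 0 M : Set (ℤ × ℤ)) (per L A) := by
  intro ω ω' h
  refine hA _ _ fun f hf => ?_
  unfold perC
  apply h
  rw [mem_coe, mem_RF] at hf
  rw [mem_coe, mem_RF]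
  refine ⟨⟨Int.emod_nonneg _ (by omega), Int.emod_lt_of_pos _ (by omega)⟩, ?_, ?_⟩
  · change 0 ≤ f.2
    omega
  · change f.2 < M
    omega

theorem incD_per {L : ℕ} (hL : L % 2 = 0) {A : Set Cfg} (hA : IncD (parD 0) A) :
    IncD (parD 0) (per L A) := by
  intro ω ω' h h'
  refine hA _ _ (fun f hf => ?_) h'
  have hp : parD 0 (f.1 % (L : ℤ), f.2) = parD 0 f := by
    unfold parD
    have h1 : (f.1 % (L : ℤ) + f.2 - 0) % 2 = (f.1 + f.2 - 0) % 2 := by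
      have h2 : f.1 % (L : ℤ) = f.1 - L * (f.1 / L) := by
        have := Int.emod_add_mul_ediv f.1 (L : ℤ)
        linarith
      obtain ⟨c, hc⟩ : (2 : ℤ) ∣ (L : ℤ) := by omega
      rw [h2, hc, mul_assoc]
      omega
    simp only [h1]
  have h2 := h (f.1 % (L : ℤ), f.2)
  unfold flip at h2 hf ⊢
  rw [hp] at h2
  exact h2 hf

theorem pr_per {L : ℕ} (hL0 : 0 < L) {M : ℕ} {x₀ x₁ y₀ y₁ : ℤ} {A : Set Cfg}
    (hA : DepOn (RF x₀ x₁ y₀ y₁ : Set (ℤ × ℤ)) A) (h0 : 0 ≤ y₀) (h1 : y₁ ≤ M)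
    (hx : x₁ - x₀ ≤ L) :
    pr (RF 0 (L : ℤ) 0 M) (per L A) = pr (RF x₀ x₁ y₀ y₁) A := by
  refine pr_comp (S := RF x₀ x₁ y₀ y₁) (S' := RF 0 (L : ℤ) 0 M)
    (f := fun x : ℤ × ℤ => (x.1 % (L : ℤ), x.2)) ?_ ?_ hA
  · intro x hx1 x' hx2 h
    rw [mem_coe, mem_RF] at hx1 hx2
    simp only [Prod.mk.injEq] at h
    obtain ⟨h3, h4⟩ := h
    ext
    · have h6 : (L : ℤ) ∣ x.1 - x'.1 := Int.dvd_of_emod_eq_zero (by rw [Int.sub_emod, h3]; simp)
      have h7 : x.1 - x'.1 = 0 := by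
        refine Int.eq_zero_of_abs_lt_dvd h6 ?_
        rw [abs_lt]
        constructor <;> omega
      omega
    · exact h4
  · intro x hx1
    rw [mem_RF] at hx1
    rw [mem_RF]
    refine ⟨⟨Int.emod_nonneg _ (by omega), Int.emod_lt_of_pos _ (by omega)⟩, ?_, ?_⟩
    · change 0 ≤ x.2
      omega
    · change x.2 < M
      omega

theorem incD_LR (c x₀ x₁ y₀ y₁ : ℤ) : IncD (parD c) (LR c x₀ x₁ y₀ y₁) := by
  rintro ω ω' h ⟨u, v, h1, h2, h3, h4, h5, h6⟩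
  exact ⟨u, v, h1, h2, h3, h4, h5, incD_conn c _ h5 ω ω' h h6⟩

/-- The arm event is decreasing in the radius. -/
theorem pArm_anti {r s : ℕ} (h : r ≤ s) : pArm (s : ℤ) ≤ pArm (r : ℤ) := by
  have hsub : RF (-(r : ℤ)) r 0 r ⊆ RF (-(s : ℤ)) s 0 s := by
    intro f hf
    rw [mem_RF] at hf ⊢
    omega
  unfold pArm
  rw [← pr_eq_of_depOn (depOn_hpArm (r : ℤ)) hsub]
  refine pr_mono _ ?_
  rintro ω ⟨v, hv, hv2⟩
  obtain ⟨w, hw, hw2⟩ := Conn.toSides (x₀ := -(r : ℤ)) (x₁ := r) (y₀ := 0) (y₁ := r) hv (by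
      intro f hf
      rw [mem_coe, mem_RF] at hf
      exact hf.2.1) (by
      refine ⟨?_, ?_, ?_, ?_⟩ <;> dsimp only <;> omega) (by
      rintro ⟨e1, e2, e3⟩
      omega)
  exact ⟨w, Conn.mono Set.inter_subset_right hw, hw2⟩

/-- The bound at even radii. -/
theorem bound_even {k : ℕ} (hk : 0 < k) {cL cB : ℝ} (hcL : 0 < cL) (hcB : 0 < cB)
    (hLR : ∀ col x₀ x₁ y₀ y₁ : ℤ, x₀ < x₁ → y₀ < y₁ →
      x₁ - x₀ ≤ 4 * (y₁ - y₀) → cL ≤ pr (RF x₀ x₁ y₀ y₁) (LR col x₀ x₁ y₀ y₁))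
    (hBT : ∀ col x₀ x₁ y₀ y₁ : ℤ, x₀ < x₁ → y₀ < y₁ →
      y₁ - y₀ ≤ 2 * (x₁ - x₀) → cB ≤ pr (RF x₀ x₁ y₀ y₁) (BT col x₀ x₁ y₀ y₁)) :
    pArm ((2 * k : ℕ) : ℤ) * ((cB * cB) * (cL * cL)) ≤ ((4 * k : ℕ) : ℝ) ^ (-(1 / 3 : ℝ)) := by
  have hk' : (0 : ℤ) < k := by exact_mod_cast hk
  have h8 : 0 < 8 * k := by omega
  have h82 : 8 * k % 2 = 0 := by omega
  have hM : ((2 * k : ℕ) : ℤ) = 2 * k := by push_cast; ring
  have hL : ((8 * k : ℕ) : ℤ) = 8 * k := by push_cast; ring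
  have d0 := depOn_hpArm ((2 * k : ℕ) : ℤ)
  have d1 := depOn_BT 0 (-(2 * k : ℤ)) (-k) 0 (2 * k)
  have d2 := depOn_BT 0 (k : ℤ) (2 * k) 0 (2 * k)
  have d3 := depOn_LR 0 (-(2 * k : ℤ)) (2 * k) k (2 * k)
  have d4 := depOn_LR 0 (k : ℤ) (8 * k - k) 0 (2 * k)
  have e0 := depOn_per h8 (M := 2 * k) d0 le_rfl le_rfl
  have e1 := depOn_per h8 (M := 2 * k) d1 le_rfl (by omega)
  have e2 := depOn_per h8 (M := 2 * k) d2 le_rfl (by omega)
  have e3 := depOn_per h8 (M := 2 * k) d3 (by omega) (by omega)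
  have e4 := depOn_per h8 (M := 2 * k) d4 le_rfl (by omega)
  have i0 := incD_per h82 (PlanarB.incD_hpArm ((2 * k : ℕ) : ℤ))
  have i1 := incD_per h82 (PlanarB.incD_BT 0 (-(2 * k : ℤ)) (-k) 0 (2 * k))
  have i2 := incD_per h82 (PlanarB.incD_BT 0 (k : ℤ) (2 * k) 0 (2 * k))
  have i3 := incD_per h82 (incD_LR 0 (-(2 * k : ℤ)) (2 * k) k (2 * k))
  have i4 := incD_per h82 (incD_LR 0 (k : ℤ) (8 * k - k) 0 (2 * k))
  have p0 := pr_per h8 (M := 2 * k) d0 le_rfl le_rfl (by omega)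
  have p1 := pr_per h8 (M := 2 * k) d1 le_rfl (by omega) (by omega)
  have p2 := pr_per h8 (M := 2 * k) d2 le_rfl (by omega) (by omega)
  have p3 := pr_per h8 (M := 2 * k) d3 (by omega) (by omega) (by omega)
  have p4 := pr_per h8 (M := 2 * k) d4 le_rfl (by omega) (by omega)
  have q1 : cB ≤ pr (RF 0 ((8 * k : ℕ) : ℤ) 0 ((2 * k : ℕ) : ℤ))
      (per (8 * k) (BT 0 (-(2 * k : ℤ)) (-k) 0 (2 * k))) := by
    rw [p1]
    exact hBT _ _ _ _ _ (by omega) (by omega) (by omega)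
  have q2 : cB ≤ pr (RF 0 ((8 * k : ℕ) : ℤ) 0 ((2 * k : ℕ) : ℤ))
      (per (8 * k) (BT 0 (k : ℤ) (2 * k) 0 (2 * k))) := by
    rw [p2]
    exact hBT _ _ _ _ _ (by omega) (by omega) (by omega)
  have q3 : cL ≤ pr (RF 0 ((8 * k : ℕ) : ℤ) 0 ((2 * k : ℕ) : ℤ))
      (per (8 * k) (LR 0 (-(2 * k : ℤ)) (2 * k) k (2 * k))) := by
    rw [p3]
    exact hLR _ _ _ _ _ (by omega) (by omega) (by omega)
  have q4 : cL ≤ pr (RF 0 ((8 * k : ℕ) : ℤ) 0 ((2 * k : ℕ) : ℤ))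
      (per (8 * k) (LR 0 (k : ℤ) (8 * k - k) 0 (2 * k))) := by
    rw [p4]
    exact hLR _ _ _ _ _ (by omega) (by omega) (by omega)
  have q0 : pArm ((2 * k : ℕ) : ℤ) = pr (RF 0 ((8 * k : ℕ) : ℤ) 0 ((2 * k : ℕ) : ℤ))
      (per (8 * k) (hpArm ((2 * k : ℕ) : ℤ))) := p0.symm
  have h12 := harris (parD 0) e1 e2 i1 i2
  have h34 := harris (parD 0) e3 e4 i3 i4
  have h14 := harris (parD 0) (PlanarB.depOn_inter e1 e2) (PlanarB.depOn_inter e3 e4)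
    (PlanarB.incD_inter i1 i2) (PlanarB.incD_inter i3 i4)
  have h04 := harris (parD 0) e0
    (PlanarB.depOn_inter (PlanarB.depOn_inter e1 e2) (PlanarB.depOn_inter e3 e4)) i0
    (PlanarB.incD_inter (PlanarB.incD_inter i1 i2) (PlanarB.incD_inter i3 i4))
  have r12 : cB * cB ≤ _ := (mul_le_mul q1 q2 hcB.le (pr_nonneg _ _)).trans h12
  have r34 : cL * cL ≤ _ := (mul_le_mul q3 q4 hcL.le (pr_nonneg _ _)).trans h34
  have r14 : (cB * cB) * (cL * cL) ≤ _ :=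
    (mul_le_mul r12 r34 (mul_nonneg hcL.le hcL.le) (pr_nonneg _ _)).trans h14
  rw [q0]
  refine (mul_le_mul_of_nonneg_left r14 (pr_nonneg _ _)).trans (h04.trans ?_)
  have hw := pr_wrapU_le (n := 4 * k) (by omega) (2 * k)
  rw [show 2 * (4 * k) = 8 * k by ring] at hw
  refine (pr_mono _ ?_).trans (hw.trans (prod_le (by omega)))
  rintro ω ⟨w0, ⟨w1, w2⟩, w3, w4⟩
  exact wrapU_of_arm hk w0 w1 w2 w3 w4

end HPC

theorem pArm_le (hLR : ∀ k : ℕ, ∃ c : ℝ, 0 < c ∧ ∀ col x₀ x₁ y₀ y₁ : ℤ, x₀ < x₁ → y₀ < y₁ →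
      x₁ - x₀ ≤ k * (y₁ - y₀) → c ≤ pr (RF x₀ x₁ y₀ y₁) (LR col x₀ x₁ y₀ y₁))
    (hBT : ∀ k : ℕ, ∃ c : ℝ, 0 < c ∧ ∀ col x₀ x₁ y₀ y₁ : ℤ, x₀ < x₁ → y₀ < y₁ →
      y₁ - y₀ ≤ k * (x₁ - x₀) → c ≤ pr (RF x₀ x₁ y₀ y₁) (BT col x₀ x₁ y₀ y₁)) :
    ∃ C : ℝ, ∀ r : ℕ, 0 < r → pArm r ≤ C * (r : ℝ) ^ (-(1 / 3 : ℝ)) := by
  obtain ⟨cL, hcL, hL⟩ := hLR 4
  obtain ⟨cB, hcB, hB⟩ := hBT 2
  have hc : 0 < (cB * cB) * (cL * cL) := mul_pos (mul_pos hcB hcB) (mul_pos hcL hcL)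
  refine ⟨1 + 1 / ((cB * cB) * (cL * cL)), fun r hr => ?_⟩
  have hr0 : (0 : ℝ) < r := by exact_mod_cast hr
  have hrp : 0 < (r : ℝ) ^ (-(1 / 3 : ℝ)) := Real.rpow_pos_of_pos hr0 _
  have h1c : 0 < 1 / ((cB * cB) * (cL * cL)) := one_div_pos.2 hc
  rcases Nat.lt_or_ge r 2 with h2 | h2
  · have hr1 : r = 1 := by omega
    subst hr1
    rw [Nat.cast_one (R := ℝ), Real.one_rpow, mul_one]
    have := pr_le_one (RF (-((1 : ℕ) : ℤ)) ((1 : ℕ) : ℤ) 0 ((1 : ℕ) : ℤ)) (hpArm ((1 : ℕ) : ℤ))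
    exact this.trans (by linarith)
  · have hk : 0 < r / 2 := by omega
    have h3 := HPC.bound_even hk hcL hcB
      (fun col x₀ x₁ y₀ y₁ a b c => hL col x₀ x₁ y₀ y₁ a b (by exact_mod_cast c))
      (fun col x₀ x₁ y₀ y₁ a b c => hB col x₀ x₁ y₀ y₁ a b (by exact_mod_cast c))
    have h4 : pArm (r : ℤ) ≤ pArm ((2 * (r / 2) : ℕ) : ℤ) := HPC.pArm_anti (by omega)
    have h5 : ((4 * (r / 2) : ℕ) : ℝ) ^ (-(1 / 3 : ℝ)) ≤ (r : ℝ) ^ (-(1 / 3 : ℝ)) := by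
      refine Real.rpow_le_rpow_of_nonpos hr0 ?_ (by norm_num)
      have : r ≤ 4 * (r / 2) := by omega
      exact_mod_cast this
    have h6 : pArm (r : ℤ) * ((cB * cB) * (cL * cL)) ≤ (r : ℝ) ^ (-(1 / 3 : ℝ)) :=
      (mul_le_mul_of_nonneg_right h4 hc.le).trans (h3.trans h5)
    have h7 : pArm (r : ℤ) ≤ (r : ℝ) ^ (-(1 / 3 : ℝ)) * (1 / ((cB * cB) * (cL * cL))) := by
      rw [mul_one_div, le_div_iff₀ hc]
      exact h6
    rw [add_mul, one_mul]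
    linarith [mul_comm ((r : ℝ) ^ (-(1 / 3 : ℝ))) (1 / ((cB * cB) * (cL * cL)))]

end Pool.Agent.Perc

end PartperhHPC

section PartperhHPE

/-!
# Half-plane: translation to the square lattice (task HPE)
-/

set_option autoImplicit false

namespace Pool.Agent.Perc

open Finset

namespace HPE

/-- The open edges of `E`. -/
noncomputable def cfgS (E : Finset Edg) (ω : Cfg) : Finset Edg :=
  E.filter fun e => ω (phiE e) = !e.2.2

theorem mem_cfgS {E : Finset Edg} {ω : Cfg} {e : Edg} :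
    e ∈ cfgS E ω ↔ e ∈ E ∧ ω (phiE e) = !e.2.2 := by
  unfold cfgS
  rw [Finset.mem_filter]

open Classical in
/-- The inverse map: the window faces with value `true`. -/
noncomputable def jE (E : Finset Edg) (U : Finset Edg) : Finset (ℤ × ℤ) :=
  (E.filter fun e => decide (e ∈ U) = !e.2.2).image phiE

theorem mem_jE {E U : Finset Edg} {e : Edg} (he : e ∈ E) :
    phiE e ∈ jE E U ↔ decide (e ∈ U) = !e.2.2 := by
  classical
  rw [jE, Finset.mem_image]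
  constructor
  · rintro ⟨e', he', h⟩
    rw [← phiE_injective h]
    exact (Finset.mem_filter.1 he').2
  · intro h
    exact ⟨e, Finset.mem_filter.2 ⟨he, h⟩, rfl⟩

theorem mem_cfgS_cfg {E : Finset Edg} {T : Finset (ℤ × ℤ)} {e : Edg} :
    e ∈ cfgS E (cfg T) ↔ e ∈ E ∧ decide (phiE e ∈ T) = !e.2.2 := by
  rw [mem_cfgS]
  rfl

theorem right_inv {E U : Finset Edg} (hU : U ⊆ E) : cfgS E (cfg (jE E U)) = U := by
  ext e
  rw [mem_cfgS_cfg]
  constructor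
  · rintro ⟨he, h⟩
    by_contra hcon
    have h1 := mem_jE (U := U) he
    rw [decide_eq_false hcon] at h1
    cases hb : e.2.2
    · rw [hb] at h1 h
      simp only [Bool.not_false, decide_eq_true_eq] at h
      exact absurd (h1.1 h) (by simp)
    · rw [hb] at h1 h
      simp only [Bool.not_true, decide_eq_false_iff_not] at h
      exact h (h1.2 (by simp))
  · intro he
    refine ⟨hU he, ?_⟩
    have h1 := mem_jE (U := U) (hU he)
    rw [decide_eq_true he] at h1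
    cases hb : e.2.2
    · rw [hb] at h1
      simpa using h1
    · rw [hb] at h1
      simpa using h1

theorem left_inv {E : Finset Edg} {T : Finset (ℤ × ℤ)} (hT : T ⊆ E.image phiE) :
    jE E (cfgS E (cfg T)) = T := by
  classical
  have key : ∀ e ∈ E, (phiE e ∈ jE E (cfgS E (cfg T)) ↔ phiE e ∈ T) := by
    intro e he
    rw [mem_jE he]
    by_cases h : phiE e ∈ T
    · cases hb : e.2.2
      · have : e ∈ cfgS E (cfg T) := mem_cfgS_cfg.2 ⟨he, by rw [hb]; simpa using h⟩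
        simp [this, h]
      · have : e ∉ cfgS E (cfg T) := fun h' => by
          have := (mem_cfgS_cfg.1 h').2
          rw [hb] at this
          simp [h] at this
        simp [this, h]
    · cases hb : e.2.2
      · have : e ∉ cfgS E (cfg T) := fun h' => by
          have := (mem_cfgS_cfg.1 h').2
          rw [hb] at this
          simp [h] at this
        simp [this, h]
      · have : e ∈ cfgS E (cfg T) := mem_cfgS_cfg.2 ⟨he, by rw [hb]; simpa using h⟩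
        simp [this, h]
  ext f
  constructor
  · intro hf
    have hf' := hf
    rw [jE, Finset.mem_image] at hf'
    obtain ⟨e, he, rfl⟩ := hf'
    exact (key e (Finset.mem_filter.1 he).1).1 hf
  · intro hf
    obtain ⟨e, he, rfl⟩ := Finset.mem_image.1 (hT hf)
    exact (key e he).2 hf

theorem depOn_cfgS (E : Finset Edg) (A : Set (Finset Edg)) :
    DepOn (E.image phiE : Finset (ℤ × ℤ)) {ω | cfgS E ω ∈ A} := by
  intro ω ω' h
  have : cfgS E ω = cfgS E ω' := by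
    rw [cfgS, cfgS]
    refine Finset.filter_congr fun e he => ?_
    rw [h (phiE e) (Finset.mem_coe.2 (Finset.mem_image_of_mem _ he))]
  show cfgS E ω ∈ A ↔ cfgS E ω' ∈ A
  rw [this]

open Classical in
/-- The law of the open edges is uniform. -/
theorem pr_cfgS {E : Finset Edg} {S : Finset (ℤ × ℤ)} (hS : ∀ e ∈ E, phiE e ∈ S)
    (A : Set (Finset Edg)) :
    pr S {ω | cfgS E ω ∈ A} = ((E.powerset.filter fun T => T ∈ A).card : ℝ) / 2 ^ E.card := by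
  have hsub : E.image phiE ⊆ S := by
    intro f hf
    obtain ⟨e, he, rfl⟩ := Finset.mem_image.1 hf
    exact hS e he
  rw [pr_eq_of_depOn (depOn_cfgS E A) hsub, pr, Finset.card_image_of_injective _
    phiE_injective]
  congr 2
  refine Finset.card_bij' (fun T _ => cfgS E (cfg T)) (fun U _ => jE E U) ?_ ?_ ?_ ?_
  · intro T hT
    rw [Finset.mem_filter] at hT ⊢
    exact ⟨Finset.mem_powerset.2 (Finset.filter_subset _ _), hT.2⟩
  · intro U hU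
    rw [Finset.mem_filter, Finset.mem_powerset] at hU
    rw [Finset.mem_filter, Finset.mem_powerset]
    refine ⟨Finset.image_subset_image (Finset.filter_subset _ _), ?_⟩
    show cfgS E (cfg (jE E U)) ∈ A
    rw [right_inv hU.1]
    exact hU.2
  · intro T hT
    rw [Finset.mem_filter, Finset.mem_powerset] at hT
    exact left_inv hT.1
  · intro U hU
    rw [Finset.mem_filter, Finset.mem_powerset] at hU
    exact right_inv hU.1

theorem mem_HPV {n : ℕ} {v : ℤ × ℤ} : v ∈ HPV n ↔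
    v.2 ≤ v.1 ∧ -(n : ℤ) ≤ v.1 ∧ v.1 ≤ n ∧ -(n : ℤ) ≤ v.2 ∧ v.2 ≤ n := Iff.rfl

theorem mem_hpE {n : ℕ} {e : Edg} : e ∈ hpE n ↔ tl e ∈ HPV n ∧ hd e ∈ HPV n := by
  classical
  unfold hpE
  rw [Finset.mem_filter, Finset.mem_product, Finset.mem_product, Finset.mem_Icc, Finset.mem_Icc]
  constructor
  · exact fun h => h.2
  · intro h
    have h1 := mem_HPV.1 h.1
    simp only [tl] at h1
    exact ⟨⟨⟨h1.2.1, h1.2.2.1⟩, ⟨h1.2.2.2.1, h1.2.2.2.2⟩, Finset.mem_univ _⟩, h⟩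

theorem phiE_mem {n : ℕ} {e : Edg} (he : e ∈ hpE n) :
    phiE e ∈ RF (-(2 * n)) (2 * n) 0 (2 * n) := by
  obtain ⟨h1, h2⟩ := mem_hpE.1 he
  rw [mem_HPV] at h1 h2
  obtain ⟨a, b, c⟩ := e
  simp only [RF, Finset.mem_product, Finset.mem_Ico]
  cases c
  · simp only [tl, hd, phiE, Bool.false_eq_true, if_false] at h1 h2 ⊢
    omega
  · simp only [tl, hd, phiE, if_true] at h1 h2 ⊢
    omega

/-- The event of `hpP`. -/
def arm (n : ℕ) : Set (Finset Edg) :=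
  {T | ∃ v ∈ clV T (0, 0), v.1 = n ∨ v.1 = -(n : ℤ) ∨ v.2 = n ∨ v.2 = -(n : ℤ)}

theorem hpP_eq (n : ℕ) :
    hpP n = pr (RF (-(2 * n)) (2 * n) 0 (2 * n)) {ω | cfgS (hpE n) ω ∈ arm n} := by
  classical
  rw [pr_cfgS (fun e he => phiE_mem he), hpP]
  rfl

/-- One step on the face grid, seen in the square lattice. -/
theorem step {ω : Cfg} {F : Set (ℤ × ℤ)} (hF : ∀ f ∈ F, 0 ≤ f.2) {w z' : ℤ × ℤ}
    (h : Bond ω F (phiV w) z') :
    ∃ (e : Edg) (w' : ℤ × ℤ), ((tl e = w ∧ Perc.hd e = w') ∨ (tl e = w' ∧ Perc.hd e = w)) ∧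
      ω (phiE e) = (!e.2.2) ∧ z' = phiV w' ∧ w'.2 ≤ w'.1 ∧
      w.1 - 1 ≤ w'.1 ∧ w'.1 ≤ w.1 + 1 ∧ w.2 - 1 ≤ w'.2 ∧ w'.2 ≤ w.2 + 1 := by
  obtain ⟨x, y, hm, h⟩ := h
  have hy : 0 ≤ y := hF _ hm
  rcases h with ⟨hs, ⟨h1, h2⟩ | ⟨h1, h2⟩⟩ | ⟨hs, ⟨h1, h2⟩ | ⟨h1, h2⟩⟩
  · have e1 := congrArg Prod.fst h1
    have e2 := congrArg Prod.snd h1
    simp only [phiV] at e1 e2
    refine ⟨(w.1, w.2, false), (w.1 + 1, w.2), Or.inl ⟨by simp [tl], by simp [Perc.hd]⟩, ?_, ?_, ?_⟩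
    · have : phiE (w.1, w.2, false) = (x, y) := by
        simp [phiE, e1, e2]
      rw [this, hs]
      rfl
    · rw [h2]
      simp only [phiV]
      ext
      · simp only
        omega
      · simp only
        omega
    · simp only
      omega
  · have e1 := congrArg Prod.fst h1
    have e2 := congrArg Prod.snd h1
    simp only [phiV] at e1 e2
    refine ⟨(w.1 - 1, w.2, false), (w.1 - 1, w.2), Or.inr ⟨by simp [tl], by simp [Perc.hd]⟩,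
      ?_, ?_, ?_⟩
    · have : phiE (w.1 - 1, w.2, false) = (x, y) := by
        simp only [phiE, Bool.false_eq_true, if_false]
        ext
        · simp only
          omega
        · simp only
          omega
      rw [this, hs]
      rfl
    · rw [h2]
      simp only [phiV]
      ext
      · simp only
        omega
      · simp only
        omega
    · simp only
      omega
  · have e1 := congrArg Prod.fst h1
    have e2 := congrArg Prod.snd h1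
    simp only [phiV] at e1 e2
    refine ⟨(w.1, w.2, true), (w.1, w.2 + 1), Or.inl ⟨by simp [tl], by simp [Perc.hd]⟩, ?_, ?_, ?_⟩
    · have : phiE (w.1, w.2, true) = (x, y) := by
        simp only [phiE, if_true]
        ext
        · simp only
          omega
        · simp only
          omega
      rw [this, hs]
      rfl
    · rw [h2]
      simp only [phiV]
      ext
      · simp only
        omega
      · simp only
        omega
    · simp only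
      omega
  · have e1 := congrArg Prod.fst h1
    have e2 := congrArg Prod.snd h1
    simp only [phiV] at e1 e2
    refine ⟨(w.1, w.2 - 1, true), (w.1, w.2 - 1), Or.inr ⟨by simp [tl], by simp [Perc.hd]⟩,
      ?_, ?_, ?_⟩
    · have : phiE (w.1, w.2 - 1, true) = (x, y) := by
        simp only [phiE, if_true]
        ext
        · simp only
          omega
        · simp only
          omega
      rw [this, hs]
      rfl
    · rw [h2]
      simp only [phiV]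
      ext
      · simp only
        omega
      · simp only
        omega
    · simp only
      omega

/-- Following a path of the face grid in the half-plane box. -/
theorem inv {n : ℕ} {ω : Cfg} {F : Set (ℤ × ℤ)} (hF : ∀ f ∈ F, 0 ≤ f.2) {z : ℤ × ℤ}
    (hz : Conn ω F (0, 0) z) :
    (∃ w, z = phiV w ∧ w ∈ HPV n ∧ w ∈ clV (cfgS (hpE n) ω) (0, 0)) ∨
      cfgS (hpE n) ω ∈ arm n := by
  induction hz with
  | refl =>
    refine Or.inl ⟨(0, 0), rfl, ?_, Relation.ReflTransGen.refl⟩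
    rw [mem_HPV]
    simp
  | @tail z z' _ h ih =>
    rcases ih with ⟨w, rfl, hw, hwc⟩ | ih
    · obtain ⟨e, w', he, hst, hz', hle, b1, b2, b3, b4⟩ := step hF h
      have hw' := mem_HPV.1 hw
      by_cases hwb : w' ∈ HPV n
      · left
        refine ⟨w', hz', hwb, ?_⟩
        have heb : e ∈ cfgS (hpE n) ω := by
          rw [mem_cfgS, mem_hpE]
          refine ⟨?_, hst⟩
          rcases he with ⟨h1, h2⟩ | ⟨h1, h2⟩
          · rw [h1, h2]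
            exact ⟨hw, hwb⟩
          · rw [h1, h2]
            exact ⟨hwb, hw⟩
        exact Relation.ReflTransGen.tail hwc ⟨e, heb, he⟩
      · right
        refine ⟨w, hwc, ?_⟩
        by_contra hcon
        push Not at hcon
        apply hwb
        rw [mem_HPV]
        omega
    · exact Or.inr ih

theorem bond_of_adj {n : ℕ} {ω : Cfg} {u v : ℤ × ℤ} (h : AdjT (cfgS (hpE n) ω) u v) :
    Bond ω {f | 0 ≤ f.2} (phiV u) (phiV v) := by
  have key : ∀ e ∈ cfgS (hpE n) ω, Bond ω {f | 0 ≤ f.2} (phiV (tl e)) (phiV (Perc.hd e)) := by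
    intro e he
    obtain ⟨he, hst⟩ := mem_cfgS.1 he
    obtain ⟨h1, h2⟩ := mem_hpE.1 he
    rw [mem_HPV] at h1 h2
    obtain ⟨a, b, c⟩ := e
    cases c
    · simp only [tl, Perc.hd, phiE, Bool.false_eq_true, if_false, Bool.not_false] at h1 h2 hst ⊢
      refine ⟨a + b, a - b, ?_, Or.inl ⟨hst, Or.inl ⟨rfl, ?_⟩⟩⟩
      · show 0 ≤ a - b
        omega
      · simp only [phiV]
        ext
        · simp only
          omega
        · simp only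
          omega
    · simp only [tl, Perc.hd, phiE, if_true, Bool.not_true] at h1 h2 hst ⊢
      refine ⟨a + b, a - b - 1, ?_, Or.inr ⟨hst, Or.inl ⟨?_, ?_⟩⟩⟩
      · show 0 ≤ a - b - 1
        omega
      · simp only [phiV]
        ext
        · simp only
        · simp only
          omega
      · simp only [phiV]
        ext
        · simp only
          omega
        · simp only
          omega
  obtain ⟨e, he, ⟨rfl, rfl⟩ | ⟨rfl, rfl⟩⟩ := h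
  · exact key e he
  · exact Bond.symm (key e he)

theorem conn_of_clV {n : ℕ} {ω : Cfg} {v : ℤ × ℤ} (h : v ∈ clV (cfgS (hpE n) ω) (0, 0)) :
    Conn ω {f | 0 ≤ f.2} (0, 0) (phiV v) := by
  unfold clV at h
  simp only [Set.mem_ofPred_eq] at h
  induction h with
  | refl => exact Relation.ReflTransGen.refl
  | tail _ hb ih => exact Relation.ReflTransGen.tail ih (bond_of_adj hb)

theorem clV_mem {n : ℕ} {ω : Cfg} {v : ℤ × ℤ} (h : v ∈ clV (cfgS (hpE n) ω) (0, 0)) :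
    v ∈ HPV n := by
  unfold clV at h
  simp only [Set.mem_ofPred_eq] at h
  induction h with
  | refl =>
    rw [mem_HPV]
    simp
  | tail _ hb _ =>
    obtain ⟨e, he, h1 | h1⟩ := hb
    · rw [← h1.2]
      exact (mem_hpE.1 (mem_cfgS.1 he).1).2
    · rw [← h1.1]
      exact (mem_hpE.1 (mem_cfgS.1 he).1).1

end HPE

open HPE

theorem pArm_le_hpP {n : ℕ} (hn : 0 < n) : pArm (2 * n) ≤ hpP n := by
  rw [hpP_eq, pArm]
  refine pr_mono _ fun ω hω => ?_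
  obtain ⟨z, hz, hzb⟩ := hω
  have hF : ∀ f ∈ (RF (-(2 * n)) (2 * n) 0 (2 * n) : Set (ℤ × ℤ)), 0 ≤ f.2 := by
    intro f hf
    simp only [RF, coe_product, Set.mem_prod, coe_Ico, Set.mem_Ico] at hf
    exact hf.2.1
  rcases inv (n := n) hF hz with ⟨w, rfl, hw, hwc⟩ | h
  · rw [mem_HPV] at hw
    simp only [phiV] at hzb
    exact ⟨w, hwc, by omega⟩
  · exact h

theorem hpP_le_pArm {n : ℕ} (hn : 0 < n) : hpP n ≤ pArm n := by
  rw [hpP_eq, pArm]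
  have hsub : RF (-(n : ℤ)) n 0 n ⊆ RF (-(2 * n)) (2 * n) 0 (2 * n) := by
    intro f hf
    simp only [RF, Finset.mem_product, Finset.mem_Ico] at hf ⊢
    omega
  rw [← pr_eq_of_depOn (depOn_hpArm (n : ℤ)) hsub]
  refine pr_mono _ fun ω hω => ?_
  obtain ⟨v, hv, hvb⟩ := hω
  have hm := mem_HPV.1 (clV_mem hv)
  have hc := conn_of_clV hv
  obtain ⟨w, hw, hwb⟩ := Conn.toSides (x₀ := -(n : ℤ)) (x₁ := n) (y₀ := 0) (y₁ := n) hc
    (fun f hf => hf) (by simp only; omega) (by simp only [phiV]; omega)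
  refine ⟨w, ?_, hwb⟩
  exact Conn.mono Set.inter_subset_right hw

/-- The half-plane one-arm probability is of the order `n ^ (-1 / 3)` (given RSW on the face
grid). -/
theorem hpP_two_sided (hU : ∃ C : ℝ, ∀ r : ℕ, 0 < r → pArm r ≤ C * (r : ℝ) ^ (-(1 / 3 : ℝ))) :
    ∃ c C : ℝ, 0 < c ∧ ∀ n : ℕ, 1 ≤ n →
      c * (n : ℝ) ^ (-(1 / 3 : ℝ)) ≤ hpP n ∧ hpP n ≤ C * (n : ℝ) ^ (-(1 / 3 : ℝ)) := by
  obtain ⟨C, hC⟩ := hU
  refine ⟨(1 / 24 : ℝ) ^ (1 / 3 : ℝ), C, by positivity, fun n hn => ⟨?_, ?_⟩⟩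
  · have h1 := (prod_ge (r := 2 * n) (by omega)).trans (pArm_ge (r := 2 * n) (by omega))
    have h2 := pArm_le_hpP (n := n) (by omega)
    have h3 : (((2 * n : ℕ) : ℤ)) = 2 * (n : ℤ) := by push_cast; ring
    rw [h3] at h1
    refine le_trans ?_ (h1.trans h2)
    have hn' : (1 : ℝ) ≤ n := by exact_mod_cast hn
    have hn0 : (0 : ℝ) ≤ n := by linarith
    rw [Real.rpow_neg hn0, ← Real.inv_rpow hn0, ← Real.mul_rpow (by norm_num) (by positivity)]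
    refine Real.rpow_le_rpow (by positivity) ?_ (by norm_num)
    push_cast
    rw [← one_div, div_mul_div_comm, one_mul]
    refine one_div_le_one_div_of_le (by linarith) (by linarith)
  · exact (hpP_le_pArm (by omega)).trans (hC n (by omega))

end Pool.Agent.Perc

end PartperhHPE
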